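import Pool.Agent.MP_417fa2_gt.Q2.ASpec

/-! Distance, symmetry, localization and extension. -/

open scoped Manifold ContDiff Topology
open MeasureTheory Set Metric Real Filter

namespace Pool.Agent.MP_417fa2_gt.Q2

namespace A1

theorem r0_pos : 0 < r0 := by norm_num [r0]

theorem r1_pos : 0 < r1 := by norm_num [r1]

theorem two_r1 : 2 * r1 < r0 := by norm_num [r0, r1]

theorem one_sub_sq {u : ℂ} (h : u ^ 2 = -1) : ‖1 - u‖ ^ 2 = 2 := by
  have h' : (u - Complex.I) * (u + Complex.I) = 0 := by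
    linear_combination h - Complex.I_sq
  rcases mul_eq_zero.1 h' with h1 | h1
  · rw [sub_eq_zero.1 h1, Complex.sq_norm, Complex.normSq_apply]
    norm_num
  · rw [eq_neg_of_add_eq_zero_left h1, Complex.sq_norm, Complex.normSq_apply]
    norm_num

theorem zc_sub (y y' : E4) : zc (y - y') = zc y - zc y' := by
  apply Complex.ext <;> simp [zc]

theorem wc_sub (y y' : E4) : wc (y - y') = wc y - wc y' := by
  apply Complex.ext <;> simp [wc]

theorem sub_rot (hc : CoFacts) {u₁ u₂ : ℂ} (h1 : u₁ ^ 2 = -1) (h2 : u₂ ^ 2 = -1) (y : E4) :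
    ‖y - rot u₁ u₂ y‖ ^ 2 = 2 * ‖y‖ ^ 2 := by
  rw [hc.nsq, hc.nsq y, hc.zsq_eq, hc.wsq_eq, hc.zsq_eq, hc.wsq_eq, zc_sub, wc_sub, rot,
    hc.zc_mk, hc.wc_mk, ← one_sub_mul, ← one_sub_mul, norm_mul, norm_mul, mul_pow, mul_pow,
    one_sub_sq h1, one_sub_sq h2]
  ring

theorem rot_rot (hc : CoFacts) {u₁ u₂ : ℂ} (h1 : u₁ ^ 2 = -1) (h2 : u₂ ^ 2 = -1) (y : E4) :
    rot u₁ u₂ (rot u₁ u₂ y) = -y := by
  have e1 : u₁ * (u₁ * zc y) = zc (-y) := by
    rw [← mul_assoc, ← sq, h1]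
    apply Complex.ext <;> simp [zc]
  have e2 : u₂ * (u₂ * wc y) = wc (-y) := by
    rw [← mul_assoc, ← sq, h2]
    apply Complex.ext <;> simp [wc]
  rw [rot, rot, hc.zc_mk, hc.wc_mk, e1, e2, hc.mk_zw]

theorem norm_rot (hc : CoFacts) {u₁ u₂ : ℂ} (h1 : ‖u₁‖ = 1) (h2 : ‖u₂‖ = 1) (y : E4) :
    ‖rot u₁ u₂ y‖ = ‖y‖ := by
  obtain ⟨e, he⟩ := hc.rot_iso u₁ u₂ h1 h2
  rw [← he, e.norm_map]

variable {M : Type} [TopologicalSpace M] [ChartedSpace E4 M] [IsManifold (𝓡 4) ∞ M]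
  [MeasurableSpace M] (X : L0 M)

include X

theorem mem_tgt (x : M) {y : E4} (h : ‖y‖ < r0) : y ∈ (chartAt E4 x).target := by
  rw [X.hd.tgt]
  exact mem_ball_zero_iff.2 h

theorem lt_of_tgt {x : M} {y : E4} (h : y ∈ (chartAt E4 x).target) : ‖y‖ < r0 := by
  rw [X.hd.tgt] at h
  exact mem_ball_zero_iff.1 h

theorem par_zero (x : M) : param x (0 : E4) = x := by
  rw [← X.hd.ctr x]
  exact param_chart_self x

theorem self (x : M) : X.d x x = 0 := by
  have := X.hd.par x 0 (by simpa using r0_pos)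
  rwa [par_zero X, norm_zero] at this

theorem chart (x z : M) (h : X.d x z < r0) :
    ∃ y : E4, ‖y‖ = X.d x z ∧ param x y = z ∧ chartAt E4 x z = y := by
  have hz := (X.hd.src x z).2 h
  refine ⟨chartAt E4 x z, ?_, param_chart hz, rfl⟩
  rw [← X.hd.par x _ (lt_of_tgt X (chart_mem hz)), param_chart hz]

theorem eq (x y : M) (h : X.d x y = 0) : x = y := by
  obtain ⟨v, h1, h2, -⟩ := chart X x y (h ▸ r0_pos)
  rw [h, norm_eq_zero] at h1
  rw [← h2, h1, par_zero X]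

/-- The rotation at a fixed point. -/
theorem fixrot (hc : CoFacts) {p : M} (hp : p ∈ X.fix) : ∃ ρ : E4 → E4, (∀ y, ‖ρ y‖ = ‖y‖) ∧
    (∀ y, ‖y - ρ y‖ ^ 2 = 2 * ‖y‖ ^ 2) ∧ (∀ y, ρ (ρ y) = -y) ∧ (∀ y, zsq (ρ y) = zsq y) ∧
    (∀ y, wsq (ρ y) = wsq y) ∧ ∀ y, ‖y‖ < r0 → X.J (param p y) = param p (ρ y) := by
  obtain ⟨u₁, u₂, h1, h2, h3, h4⟩ := X.hJ.chart p
  have hJ := (X.hJ.mem p).1 hp
  obtain ⟨k1, k2⟩ := h3 hJ
  rw [hJ] at h4
  exact ⟨rot u₁ u₂, norm_rot hc h1 h2, sub_rot hc k1 k2, rot_rot hc k1 k2, hc.rot_z _ _ h1,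
    hc.rot_w _ _ h2, h4⟩

/-- Near a fixed point the displacement is large. -/
theorem near (hc : CoFacts) {p : M} (hp : p ∈ X.fix) (y : M) (h : X.d p y < r0) :
    X.d p y ≤ X.d y (X.J y) ∧ X.d p y ≤ X.d y (X.J (X.J y)) := by
  obtain ⟨ρ, h1, h2, h3, -, -, h4⟩ := fixrot X hc hp
  obtain ⟨v, k1, rfl, -⟩ := chart X p y h
  have hv : ‖v‖ < r0 := k1 ▸ h
  have hv' : ‖ρ v‖ < r0 := (h1 v).symm ▸ hv
  rw [← k1, h4 v hv, h4 _ hv', h3]
  constructor
  · have a := X.hd.lo p v (ρ v) hv hv'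
    have b := h2 v
    have c := X.hd.nonneg (param p v) (param p (ρ v))
    have e := norm_nonneg v
    have f := norm_nonneg (v - ρ v)
    by_contra hlt
    push Not at hlt
    nlinarith
  · have a := X.hd.lo p v (-v) hv (by rwa [norm_neg])
    rw [sub_neg_eq_add, ← two_smul ℝ v, norm_smul, Real.norm_ofNat] at a
    have e := norm_nonneg v
    linarith

theorem sep (hc : CoFacts) (p : M) (hp : p ∈ X.fix) (p' : M) (hp' : p' ∈ X.fix)
    (h : X.d p p' < r0) : p = p' := by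
  have a := (near X hc hp p' h).1
  rw [(X.hJ.mem p').1 hp', self] at a
  exact eq X _ _ (le_antisymm a (X.hd.nonneg _ _))

theorem sep' (hc : CoFacts) {p p' : M} (hp : p ∈ X.fix) (hp' : p' ∈ X.fix) (h : p ≠ p')
    {y : E4} (hy : ‖y‖ < r0) : r0 - ‖y‖ ≤ X.d p (param p' y) := by
  have a : r0 ≤ X.d p p' := not_lt.1 fun k => h (sep X hc p hp p' hp' k)
  have b := X.hd.tri p (param p' y) p'
  rw [X.hd.symm (param p' y) p', X.hd.par p' y hy] at b
  linarith

/-- The symmetry in charts. -/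
theorem Jrot (hc : CoFacts) (x : M) : ∃ e : E4 ≃ₗᵢ[ℝ] E4, ∀ y ∈ (chartAt E4 x).target,
    e y ∈ (chartAt E4 (X.J x)).target ∧ X.J (param x y) = param (X.J x) (e y) := by
  obtain ⟨u₁, u₂, h1, h2, -, h4⟩ := X.hJ.chart x
  obtain ⟨e, he⟩ := hc.rot_iso u₁ u₂ h1 h2
  refine ⟨e, fun y hy => ⟨mem_tgt X _ ?_, ?_⟩⟩
  · rw [e.norm_map]
    exact lt_of_tgt X hy
  · rw [he]
    exact h4 y (lt_of_tgt X hy)

theorem J_cont (hc : CoFacts) : Continuous X.J := by
  refine continuous_iff_continuousAt.2 fun x => ?_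
  obtain ⟨e, he⟩ := Jrot X hc x
  have h1 : ContinuousOn (fun z => param (X.J x) (e (chartAt E4 x z))) (chartAt E4 x).source :=
    (continuousOn_param (X.J x)).comp (e.continuous.comp_continuousOn (chartAt E4 x).continuousOn)
      fun z hz => (he _ (chart_mem hz)).1
  refine (h1.congr fun z hz => ?_).continuousAt
    ((isOpen_src x).mem_nhds (mem_chart_source E4 x))
  rw [← (he _ (chart_mem hz)).2, param_chart hz]

theorem J_sm (hc : CoFacts) (φ : M → ℝ) (h : Smooth φ) : Smooth fun x => φ (X.J x) := by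
  refine smooth_of_cdOn fun x => ?_
  obtain ⟨e, he⟩ := Jrot X hc x
  exact ((h.cdOn (X.J x)).comp e.contDiff.contDiffOn fun y hy => (he y hy).1).congr
    fun y hy => by simp only [Function.comp_apply, (he y hy).2]

theorem J_smOn (hc : CoFacts) (I : Set ℝ) (w : ℝ → M → ℝ) (h : SmoothOn I w) :
    SmoothOn I fun t x => w t (X.J x) := by
  intro x
  obtain ⟨e, he⟩ := Jrot X hc x
  exact ((h (X.J x)).comp (f := fun p : ℝ × E4 => (p.1, e p.2))
    (contDiff_fst.prodMk (e.contDiff.comp contDiff_snd)).contDiffOn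
    fun p hp => ⟨hp.1, (he _ hp.2).1⟩).congr
    fun p hp => by simp only [Function.comp_apply, (he _ hp.2).2]

theorem disp [CompactSpace M] (hc : CoFacts) : ∃ c₀ : ℝ, 0 < c₀ ∧ ∀ (y : M) (t : ℝ), 0 < t →
    t ≤ c₀ → (∀ p ∈ X.fix, 3 * t ≤ X.d p y) → 2 * t ≤ X.d y (X.J y) := by
  have hK : IsClosed {y | ∀ p ∈ X.fix, r0 ≤ X.d p y} := by
    simp only [ofPred_forall]
    exact isClosed_iInter fun p => isClosed_iInter fun _ =>
      isClosed_le continuous_const (X.hd.cont.comp (continuous_const.prodMk continuous_id))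
  have hf : Continuous fun y => X.d y (X.J y) :=
    X.hd.cont.comp (continuous_id.prodMk (J_cont X hc))
  obtain ⟨c, hc0, hc1⟩ := hK.isCompact.exists_forall_le' (a := (0 : ℝ)) hf.continuousOn
    fun y hy => lt_of_le_of_ne (X.hd.nonneg _ _) fun k => by
      have a := hy y ((X.hJ.mem y).2 (eq X _ _ k.symm).symm)
      rw [self] at a
      exact absurd r0_pos (not_lt.2 a)
  refine ⟨c / 2, half_pos hc0, fun y t ht ht' hy => ?_⟩
  by_cases h : ∀ p ∈ X.fix, r0 ≤ X.d p y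
  · have := hc1 y h
    linarith
  · push Not at h
    obtain ⟨p, hp, h⟩ := h
    have a := (near X hc hp y h).1
    have b := hy p hp
    linarith

theorem four (hc : CoFacts) (p : M) (hp : p ∈ X.fix) (y : M) (h : X.d p y < r0) (k l : Fin 4)
    (hkl : k ≠ l) : X.d p y ≤ X.d (X.J^[k] y) (X.J^[l] y) := by
  obtain ⟨a, b⟩ := near X hc hp y h
  have c : X.d p y ≤ X.d y (X.J (X.J (X.J y))) := by
    rw [← X.hJ.iso y, X.hJ.four, X.hd.symm (X.J y)]
    exact a
  have a' := a.trans_eq (X.hd.symm _ _)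
  have b' := b.trans_eq (X.hd.symm _ _)
  have c' := c.trans_eq (X.hd.symm _ _)
  fin_cases k <;> fin_cases l <;> first
    | exact absurd rfl hkl
    | simpa only [Function.iterate_succ, Function.iterate_zero, Function.comp_apply, id,
        X.hJ.iso] using a
    | simpa only [Function.iterate_succ, Function.iterate_zero, Function.comp_apply, id,
        X.hJ.iso] using b
    | simpa only [Function.iterate_succ, Function.iterate_zero, Function.comp_apply, id,
        X.hJ.iso] using c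
    | simpa only [Function.iterate_succ, Function.iterate_zero, Function.comp_apply, id,
        X.hJ.iso] using a'
    | simpa only [Function.iterate_succ, Function.iterate_zero, Function.comp_apply, id,
        X.hJ.iso] using b'
    | simpa only [Function.iterate_succ, Function.iterate_zero, Function.comp_apply, id,
        X.hJ.iso] using c'

theorem loc_tst (hx : ChiFacts) (x : M) (φ : M → ℝ) (h : Smooth φ) : Tst (loc x φ) := by
  have h0 : ∀ y : E4, 2 * r1 ≤ ‖y‖ → loc x φ y = 0 := fun y hy => by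
    rw [loc, hx.zero r1 r1_pos y hy, zero_mul]
  refine ⟨contDiff_iff_contDiffAt.2 fun y => ?_,
    HasCompactSupport.intro (isCompact_closedBall 0 (2 * r1)) fun y hy =>
      h0 y (le_of_lt (not_le.1 (mt mem_closedBall_zero_iff.2 hy)))⟩
  by_cases hy : ‖y‖ < r0
  · exact (hx.tst r1 r1_pos).sm.contDiffAt.mul
      ((h.cdOn x).contDiffAt ((isOpen_tgt x).mem_nhds (mem_tgt X x hy)))
  · refine (contDiffAt_const (c := (0 : ℝ))).congr_of_eventuallyEq ?_
    have : 2 * r1 < ‖y‖ := two_r1.trans_le (not_lt.1 hy)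
    exact (continuous_norm.continuousAt.eventually (lt_mem_nhds this)).mono fun z hz => h0 z hz.le

theorem loc_even (hc : CoFacts) (hx : ChiFacts) (p : M) (hp : p ∈ X.fix) (φ : M → ℝ)
    (h : ∀ x, φ (X.J x) = φ x) (y : E4) : loc p φ (-y) = loc p φ y := by
  have e : chi r1 (-y) = chi r1 y := by rw [chi, chi, norm_neg]
  rw [loc, loc, e]
  by_cases hy : ‖y‖ < r0
  · obtain ⟨ρ, h1, -, h3, -, -, h4⟩ := fixrot X hc hp
    rw [← h3, ← h4 _ ((h1 y).symm ▸ hy), ← h4 y hy, h, h]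
  · rw [hx.zero r1 r1_pos y (two_r1.le.trans (not_lt.1 hy)), zero_mul, zero_mul]

theorem ext_par (x : M) (F : E4 → ℝ) (y : E4) (h : ‖y‖ < r0) : extz x F (param x y) = F y := by
  rw [extz, indicator_of_mem (param_mem (mem_tgt X x h)), chart_param (mem_tgt X x h)]

theorem ext_out (x z : M) (F : E4 → ℝ) (h : r0 ≤ X.d x z) : extz x F z = 0 :=
  indicator_of_notMem (fun k => absurd ((X.hd.src x z).1 k) (not_lt.2 h)) _

theorem ext_far (x z : M) (F : E4 → ℝ) (t : ℝ) (h : ∀ y, t ≤ ‖y‖ → F y = 0) (k : t ≤ X.d x z) :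
    extz x F z = 0 := by
  rcases lt_or_ge (X.d x z) r0 with a | a
  · obtain ⟨v, h1, rfl, -⟩ := chart X x z a
    rw [ext_par X x F v (h1 ▸ a)]
    exact h v (h1 ▸ k)
  · exact ext_out X x z F a

theorem ext_sm [T2Space M] (x : M) (F : E4 → ℝ) (t : ℝ) (ht : t < r0)
    (hF : ContDiffOn ℝ ∞ F (ball 0 r0)) (h : ∀ y, t ≤ ‖y‖ → F y = 0) : Smooth (extz x F) :=
  smooth_extend x (isCompact_closedBall 0 t)
    (fun _ hy => mem_tgt X x ((mem_closedBall_zero_iff.1 hy).trans_lt ht))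
    (by rwa [X.hd.tgt]) fun y _ hy =>
      h y (le_of_lt (not_le.1 (mt mem_closedBall_zero_iff.2 hy)))

theorem ext_J (hc : CoFacts) (p : M) (hp : p ∈ X.fix) (F : E4 → ℝ) (h : Rad F) (x : M) :
    extz p F (X.J x) = extz p F x := by
  rcases lt_or_ge (X.d p x) r0 with a | a
  · obtain ⟨ρ, h1, -, -, h2, h3, h4⟩ := fixrot X hc hp
    obtain ⟨v, k1, rfl, -⟩ := chart X p x a
    have hv : ‖v‖ < r0 := k1 ▸ a
    rw [h4 v hv, ext_par X p F v hv, ext_par X p F _ ((h1 v).symm ▸ hv)]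
    exact h _ _ (h2 v) (h3 v)
  · rw [ext_out X p x F a, ext_out X p (X.J x) F]
    rw [← (X.hJ.mem p).1 hp, X.hJ.iso]
    exact a

theorem sum_par (hc : CoFacts) (p : M) (hp : p ∈ X.fix) (F : E4 → ℝ) (t : ℝ) (ht : 0 < t)
    (h : ∀ y, t ≤ ‖y‖ → F y = 0) (y : E4) (hy : ‖y‖ + t ≤ r0) : X.sum F (param p y) = F y := by
  have hy' : ‖y‖ < r0 := by linarith
  rw [L0.sum, Finset.sum_eq_single_of_mem p hp, ext_par X p F y hy']
  intro p' hp' hne
  refine ext_far X _ _ F t h ?_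
  have := sep' X hc hp' hp hne hy'
  linarith

theorem loc_ext (hx : ChiFacts) (p : M) (F : E4 → ℝ) (h : ∀ y, r1 ≤ ‖y‖ → F y = 0) :
    loc p (extz p F) = F := by
  funext y
  rw [loc]
  rcases lt_or_ge ‖y‖ r0 with a | a
  · rw [ext_par X p F y a]
    rcases le_total ‖y‖ r1 with b | b
    · rw [hx.one r1 r1_pos y b, one_mul]
    · rw [h y b, mul_zero]
  · have b := two_r1.le.trans a
    rw [hx.zero r1 r1_pos y b, zero_mul, h y (by linarith [r1_pos])]

theorem loc_ext' (hc : CoFacts) (hx : ChiFacts) (p : M) (hp : p ∈ X.fix) (p' : M)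
    (hp' : p' ∈ X.fix) (hne : p' ≠ p) (F : E4 → ℝ) (h : ∀ y, 1 / 50 ≤ ‖y‖ → F y = 0) :
    loc p' (extz p F) = fun _ => 0 := by
  funext y
  rw [loc]
  rcases lt_or_ge ‖y‖ (2 * r1) with a | a
  · have b := sep' X hc hp hp' hne.symm (a.trans two_r1)
    rw [ext_far X _ _ F (1 / 50) h, mul_zero]
    simp only [r0, r1] at a b
    linarith
  · rw [hx.zero r1 r1_pos y a, zero_mul]

end A1

theorem bStmt (hc : CoFacts) (hx : ChiFacts) : BStmt := fun _ _ _ _ _ _ _ _ X =>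
  { self := A1.self X
    eq := A1.eq X
    sep := A1.sep X hc
    chart := A1.chart X
    J_cont := A1.J_cont X hc
    J_sm := A1.J_sm X hc
    J_smOn := A1.J_smOn X hc
    disp := A1.disp X hc
    four := A1.four X hc
    loc_tst := A1.loc_tst X hx
    loc_even := A1.loc_even X hc hx
    ext_par := A1.ext_par X
    ext_far := A1.ext_far X
    ext_sm := A1.ext_sm X
    ext_J := A1.ext_J X hc
    sum_par := A1.sum_par X hc
    loc_ext := A1.loc_ext X hx
    loc_ext' := A1.loc_ext' X hc hx }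

end Pool.Agent.MP_417fa2_gt.Q2
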