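import Pool.Agent.MP_417fa2_gt.Q2.ASpec

/-! A10 and A11. Trudinger's inequality, and the short range energy. -/

open scoped Manifold ContDiff Topology
open MeasureTheory Set Real

namespace Pool.Agent.MP_417fa2_gt.Q2

namespace A11

theorem cint {M : Type} [TopologicalSpace M] [CompactSpace M] [MeasurableSpace M] [BorelSpace M]
    (μ : Measure M) [IsFiniteMeasure μ] {f : M → ℝ} (h : Continuous f) : Integrable f μ :=
  h.integrable_of_hasCompactSupport (HasCompactSupport.of_compactSpace f)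

theorem cbd {M : Type} [TopologicalSpace M] [CompactSpace M] {f : M → ℝ} (h : Continuous f) :
    ∃ C, ∀ x, ‖f x‖ ≤ C := by
  simpa using isCompact_univ.exists_bound_of_continuousOn h.continuousOn

theorem exp_le {δ d : ℝ} (h0 : 0 < δ) (h1 : δ ≤ 1) (hd : 0 ≤ d) :
    exp (3 * max (log (δ / d)) 0) ≤ 1 + d ^ (-3 : ℝ) := by
  have h2 := rpow_nonneg hd (-3)
  rcases le_total (log (δ / d)) 0 with h | h
  · rw [max_eq_right h, mul_zero, exp_zero]
    linarith
  rcases hd.eq_or_lt with rfl | hd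
  · simp
  rw [max_eq_left h, rpow_def_of_pos hd, log_div h0.ne' hd.ne']
  have h3 := log_nonpos h0.le h1
  linarith [exp_le_exp.2 (by linarith : 3 * (log δ - log d) ≤ log d * (-3))]

theorem young {a t b : ℝ} (ha : 0 < a) (h : exp t ≤ b) : t ≤ log a + b / a := by
  have h1 := add_one_le_exp (t - log a)
  rw [exp_sub, exp_log ha] at h1
  linarith [div_le_div_of_nonneg_right h ha.le]

end A11

open A11 in
theorem nearStmt (_h1 : BStmt) (h2 : VolsStmt) (h3 : KIntStmt) : NearStmt := by
  intro M _ _ _ _ _ _ _ X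
  have := (h2 M X).fin
  have K := h3 M X
  obtain ⟨C, -, hC⟩ := K.pow 3 (by norm_num) (by norm_num)
  refine ⟨(2 * X.μ.real univ + max C 0) / 3, fun δ μ₁ d0 d1 m0 m1 ρ ρ' c c' p p' h1 hm => ?_⟩
  obtain ⟨i1, i2, -, -⟩ := K.int δ d0 (by linarith) ρ c
  obtain ⟨B, hB⟩ := cbd c
  obtain ⟨B', hB'⟩ := cbd c'
  have iρ := cint X.μ c
  have j2 : Integrable (fun q : M × M => X.d q.1 q.2 ^ (-3 : ℝ) * ρ q.1) (X.μ.prod X.μ) :=
    (K.pow2 3 (by norm_num) (by norm_num)).mul_bdd
      (c.measurable.comp measurable_fst).aestronglyMeasurable (.of_forall fun q => hB q.1)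
  have j1 : ∀ y, Integrable (fun x => X.d x y ^ (-3 : ℝ) * ρ x) X.μ := fun y => by
    simp only [X.hd.symm _ y]
    exact (hC y).1.mul_bdd c.aestronglyMeasurable (.of_forall hB)
  have key : ∀ y, 3 * (ρ' y * ∫ x, lgn X.d δ x y * ρ x ∂X.μ) ≤
      μ₁ * (ρ' y * log (ρ y)) + 2 + ∫ x, X.d x y ^ (-3 : ℝ) * ρ x ∂X.μ := fun y => by
    have g0 : 0 ≤ ∫ x, X.d x y ^ (-3 : ℝ) * ρ x ∂X.μ :=
      integral_nonneg fun x => mul_nonneg (rpow_nonneg (X.hd.nonneg _ _) _) (p x).le
    rcases (p' y).1.eq_or_lt with h | h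
    · simp only [← h, zero_mul, mul_zero]
      linarith
    have ms : MeasurableSet {x | X.d y x < δ} :=
      (isOpen_lt (X.hd.cont.comp (Continuous.prodMk_right y)) continuous_const).measurableSet
    have k1 := (iρ.indicator ms).const_mul (log (ρ y))
    have k2 := (iρ.add (j1 y)).div_const (ρ y)
    have k := integral_mono ((i1 y).const_mul 3) (k1.add k2) fun x => by
      have e := exp_le d0 (by linarith) (X.hd.nonneg x y)
      have hx := p x
      have hy := p y
      have h0 := rpow_nonneg (X.hd.nonneg x y) (-3)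
      simp only [Pi.add_apply, lgn]
      by_cases b : x ∈ {x | X.d y x < δ}
      · have := mul_le_mul_of_nonneg_right (young hy e) hx.le
        rw [indicator_of_mem b]
        refine le_trans (by rw [mul_assoc]) (this.trans_eq (by ring))
      · have b' : δ ≤ X.d x y := by simpa [X.hd.symm y] using b
        rw [indicator_of_notMem b, max_eq_right
          (log_nonpos (div_nonneg d0.le (X.hd.nonneg x y)) (div_le_one_of_le₀ b' (d0.le.trans b')))]
        simp only [zero_mul, mul_zero, zero_add]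
        positivity
    simp only [Pi.add_apply] at k k2
    rw [integral_add k1 k2, integral_const_mul, integral_const_mul, integral_div,
      integral_add iρ (j1 y), integral_indicator ms] at k
    have n0 : 0 ≤ ∫ x in {x | X.d y x < δ}, ρ x ∂X.μ := integral_nonneg fun x => (p x).le
    have n1 := hm y h.ne'
    have r0 : 0 ≤ ∫ x, ρ x ∂X.μ := integral_nonneg fun x => (p x).le
    set m := ∫ x in {x | X.d y x < δ}, ρ x ∂X.μ
    set S := ∫ x, ρ x ∂X.μ + ∫ x, X.d x y ^ (-3 : ℝ) * ρ x ∂X.μ with hS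
    have e1 : ρ' y * (S / ρ y) ≤ S := by
      rw [mul_div_left_comm, mul_comm]
      exact mul_le_of_le_one_left (add_nonneg r0 g0) (div_le_one_of_le₀ (p' y).2 (p y).le)
    have e2 : -1 ≤ ρ' y * log (ρ y) := by
      rcases le_total 0 (log (ρ y)) with s | s
      · linarith [mul_nonneg h.le s]
      · linarith [mul_le_mul_of_nonpos_right (p' y).2 s, self_sub_one_le_mul_log (p y).le, p y]
    have e3 := mul_nonneg (sub_nonneg.2 n1) (neg_le_iff_add_nonneg.1 e2)
    nlinarith [mul_le_mul_of_nonneg_left k h.le]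
  have l1 := i2.integral_prod_right.bdd_mul c'.aestronglyMeasurable (.of_forall hB')
  have l2 := (cint X.μ (c'.mul (c.log fun x => (p x).ne'))).const_mul μ₁
  have l3 : Integrable (fun y => μ₁ * (ρ' y * log (ρ y)) + 2) X.μ := l2.add (integrable_const _)
  have j3 : Integrable (fun y => ∫ x, X.d x y ^ (-3 : ℝ) * ρ x ∂X.μ) X.μ := j2.integral_prod_right
  have k := integral_mono (l1.const_mul 3) (l3.add j3) key
  have l4 : ∫ y, ∫ x, X.d x y ^ (-3 : ℝ) * ρ x ∂X.μ ∂X.μ ≤ max C 0 := by
    rw [← integral_prod_symm _ j2, integral_prod _ j2]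
    refine (integral_mono j2.integral_prod_left (iρ.const_mul (max C 0)) fun x => ?_).trans ?_
    · simp only [integral_mul_const]
      exact mul_le_mul_of_nonneg_right ((hC x).2.1.trans (le_max_left _ _)) (p x).le
    · rw [integral_const_mul]
      exact mul_le_of_le_one_right (le_max_right _ _) h1
  simp only [Pi.add_apply, Pi.mul_apply] at k l2
  rw [integral_add l3 j3, integral_add l2 (integrable_const _),
    integral_const_mul, integral_const_mul, integral_const, smul_eq_mul] at k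
  linarith

open A11 in
theorem trudStmt (h1 : VolsStmt) (h2 : ChStmt) (h3 : DualStmt) (h4 : GibStmt) : TrudStmt := by
  intro M _ _ _ _ _ _ _ X
  have V := h1 M X
  have := V.fin
  have : NeZero X.μ := ⟨fun h => V.univ.ne' (by simp [h])⟩
  obtain ⟨C₂, c2, hD⟩ := h3 M X 1 one_pos
  obtain ⟨C₁, hG⟩ := h4 M X 3 1 (1 / 2) (1 / 2) (by norm_num) one_pos le_rfl (by norm_num)
    (by norm_num) (by norm_num) (by norm_num)
  refine ⟨12 * π ^ 2 * C₂ + (0 + (max (3 - 4) 0 + 1 / 2 + 1 / 2) * log (1 / 2)⁻¹ + C₁),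
    fun w hw => ?_⟩
  obtain ⟨sv, n0, -⟩ := (h2 M X).1 w hw
  have se := (sv.const_mul 4).exp
  have ie := cint X.μ se.continuous
  have hZ : 0 < ∫ x, exp (4 * X.z w x) ∂X.μ := integral_exp_pos ie
  set Z := ∫ x, exp (4 * X.z w x) ∂X.μ with hZ'
  have sρ : Smooth fun x => Z⁻¹ * exp (4 * X.z w x) := se.const_mul _
  have pρ : ∀ x, 0 < Z⁻¹ * exp (4 * X.z w x) := fun x => by positivity
  have iρ := cint X.μ sρ.continuous
  have m1 : ∫ x, Z⁻¹ * exp (4 * X.z w x) ∂X.μ = 1 := by
    rw [integral_const_mul, inv_mul_cancel₀ hZ.ne']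
  have g := hG (1 / 2) 0 (by norm_num) le_rfl (fun _ => 0) _ continuous_const sρ.continuous pρ m1
    (fun y => (setIntegral_le_integral iρ (.of_forall fun x => (pρ x).le)).trans m1.le)
    fun x _ => by
      rw [exp_zero, one_mul]
      refine le_add_of_le_of_nonneg (one_le_rpow_of_pos_of_le_one_of_nonpos (by norm_num)
        (by norm_num) (by norm_num)) (Finset.sum_nonneg fun q _ => ?_)
      split_ifs
      exacts [rpow_nonneg (X.hd.nonneg _ _) _, le_rfl]
  have d := hD _ sρ (fun x => (pρ x).le) m1.le w hw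
  have e0 : 0 ≤ En X.d X.μ fun x => Z⁻¹ * exp (4 * X.z w x) := integral_nonneg fun y =>
    mul_nonneg (pρ y).le (integral_nonneg fun x => mul_nonneg (le_max_right _ _) (pρ x).le)
  have e1 : ∫ x, Z⁻¹ * exp (4 * X.z w x) * log (Z⁻¹ * exp (4 * X.z w x)) ∂X.μ =
      4 * ∫ x, X.z w x * (Z⁻¹ * exp (4 * X.z w x)) ∂X.μ - log Z := by
    have i2 := (cint X.μ (sv.mul sρ).continuous).const_mul 4
    rw [← mul_one (log Z), ← m1, ← integral_const_mul, ← integral_const_mul,
      ← integral_sub i2 (iρ.const_mul _)]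
    refine integral_congr_ae (.of_forall fun x => ?_)
    simp only [log_mul (inv_pos.2 hZ).ne' (exp_pos _).ne', log_inv, log_exp]
    ring
  simp only [zero_mul, integral_zero, e1] at g
  set E := En X.d X.μ fun x => Z⁻¹ * exp (4 * X.z w x)
  have hp : 0 < π := pi_pos
  have y2 := sq_sqrt (by positivity : 0 ≤ (1 + 1) * E / (8 * π ^ 2) + C₂)
  have n2 := sq_sqrt n0
  set y := √((1 + 1) * E / (8 * π ^ 2) + C₂)
  set n := √(X.nn w)
  have y3 : 12 * π ^ 2 * y ^ 2 = 3 * E + 12 * π ^ 2 * C₂ := by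
    rw [y2]
    field_simp
    ring
  have y4 : 80 * y ^ 2 ≤ 12 * π ^ 2 * y ^ 2 :=
    mul_le_mul_of_nonneg_right (by nlinarith [pi_gt_three]) (sq_nonneg _)
  rw [← exp_log hZ, exp_le_exp]
  nlinarith [sq_nonneg (40 * y - n)]

end Pool.Agent.MP_417fa2_gt.Q2
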