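import Pool.Agent.MP_417fa2_gt.Q2.ASpec

/-! The loop: dual inequality, entropy and short range energy close up. -/

open scoped Manifold ContDiff Topology
open MeasureTheory Set Metric Real Filter

namespace Pool.Agent.MP_417fa2_gt.Q2

theorem a12_dual {n E D C y : ℝ} (hn : 0 ≤ n) (hE : 0 ≤ E) (hD : 0 ≤ D) (hC : 0 ≤ C)
    (h1 : y ≤ √((1 + 1 / 100) * E / (8 * π ^ 2) + D) * √n)
    (h2 : 24 / 25 * n ≤ 16 * π ^ 2 * y + C * √n) :
    n ≤ 700 * E + (60000 * D + 3) * (1 + C ^ 2) ∧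
      4 * y ≤ 9 * E + (60000 * D + 3) * (1 + C ^ 2) := by
  have p1 : 9 ≤ π ^ 2 := by nlinarith [pi_gt_d2]
  have p2 : π ^ 2 ≤ 9.9225 := by nlinarith [pi_lt_d2, pi_pos]
  have hS0 := sqrt_nonneg ((1 + 1 / 100) * E / (8 * π ^ 2) + D)
  have hS := sq_sqrt (by positivity : 0 ≤ (1 + 1 / 100) * E / (8 * π ^ 2) + D)
  have hs0 := sqrt_nonneg n
  have hs := sq_sqrt hn
  set S := √((1 + 1 / 100) * E / (8 * π ^ 2) + D)
  set s := √n
  set p := π ^ 2
  have e1 : 8 * p * S ^ 2 = 101 / 100 * E + 8 * p * D := by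
    rw [hS]
    field_simp
    ring
  have hT : 0 ≤ 16 * p * S + C := by positivity
  have e2 : s ≤ 25 / 24 * (16 * p * S + C) := by
    by_contra c
    have c := not_le.1 c
    have : 0 < s := lt_of_le_of_lt (by positivity) c
    have k := mul_lt_mul_of_pos_right c this
    have k2 := mul_le_mul_of_nonneg_left h1 (by positivity : 0 ≤ 16 * p)
    nlinarith
  have hDC : 0 ≤ D * C ^ 2 := by positivity
  have q1 : p * E ≤ 9.9225 * E := mul_le_mul_of_nonneg_right p2 hE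
  have q2 : p * D ≤ 9.9225 * D := mul_le_mul_of_nonneg_right p2 hD
  have q3 : p * (p * D) ≤ 9.9225 * (9.9225 * D) := mul_le_mul p2 q2 (by positivity) (by norm_num)
  constructor
  · have e3 : s ^ 2 ≤ (25 / 24 * (16 * p * S + C)) ^ 2 := pow_le_pow_left₀ hs0 e2 2
    have e4 : (16 * p * S + C) ^ 2 ≤ 2 * (32 * p * (8 * p * S ^ 2) + C ^ 2) := by
      nlinarith [sq_nonneg (16 * p * S - C)]
    rw [e1] at e4
    rw [mul_pow] at e3
    nlinarith [sq_nonneg C]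
  · have e3 := mul_le_mul_of_nonneg_left e2 hS0
    have e4 : 9 * S ^ 2 ≤ p * S ^ 2 := mul_le_mul_of_nonneg_right p1 (sq_nonneg S)
    nlinarith [sq_nonneg (S - C / 2), sq_nonneg C]

theorem a12_fin {μ₀ μ₁ L Ψ m n E Na Nb y F G H K A B : ℝ} (h0 : μ₀ ≤ 1) (h1 : 0 < μ₁)
    (h1' : μ₁ ≤ 1 / 4) (hL : 0 ≤ L) (hΨ : 0 ≤ Ψ) (hm : 0 ≤ m) (hm' : m ≤ μ₀) (hK : 0 ≤ K)
    (hA : 0 ≤ A) (hB : 0 ≤ B) (hNa : 0 ≤ Na) (hNb : 0 ≤ Nb)
    (e1 : n ≤ 700 * E + K) (e2 : 4 * y ≤ 9 * E + K) (e3 : E ≤ L * m * m + Na)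
    (e4 : F ≤ 2 * ((L + 1) * m + Nb)) (e5 : G ≤ Ψ * m) (e6 : H ≤ 4 * y + 4 * F + 4 * G + A * m)
    (e7 : Na + Nb ≤ μ₁ / 3 * H + B) :
    n ≤ 20000 * μ₀ * (μ₀ + μ₁) * (L + Ψ) + (300 * K + 300 * A + 3000 * B + 3000) := by
  have hμ : 0 ≤ μ₀ := hm.trans hm'
  have a1 : L * m ≤ L * μ₀ := mul_le_mul_of_nonneg_left hm' hL
  have a2 : L * m * m ≤ L * μ₀ * μ₀ := mul_le_mul a1 hm' hm (by positivity)
  have a3 : L * μ₀ * μ₀ ≤ L * μ₀ := mul_le_of_le_one_right (by positivity) h0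
  have a4 : Ψ * m ≤ Ψ * μ₀ := mul_le_mul_of_nonneg_left hm' hΨ
  have a5 : A * m ≤ A := mul_le_of_le_one_right hA (hm'.trans h0)
  have b1 : H ≤ 17 * (L * μ₀) + 4 * (Ψ * μ₀) + 9 * (Na + Nb) + (K + A + 8) := by linarith
  have b2 := mul_le_mul_of_nonneg_left b1 (by positivity : 0 ≤ μ₁ / 3)
  have b3 : μ₁ * (Na + Nb) ≤ 1 / 4 * (Na + Nb) := mul_le_mul_of_nonneg_right h1' (by positivity)
  have b4 : μ₁ * (K + A + 8) ≤ 1 / 4 * (K + A + 8) :=
    mul_le_mul_of_nonneg_right h1' (by positivity)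
  have c1 : 0 ≤ μ₁ * (L * μ₀) := by positivity
  have c2 : 0 ≤ μ₁ * (Ψ * μ₀) := by positivity
  have c3 : 0 ≤ L * μ₀ * μ₀ := by positivity
  have c4 : 0 ≤ Ψ * μ₀ * μ₀ := by positivity
  have b5 : Na + Nb ≤ 68 / 3 * (μ₁ * (L * μ₀)) + 16 / 3 * (μ₁ * (Ψ * μ₀)) + (K + A + 8) / 3 +
      4 * B := by linarith
  have d : 20000 * μ₀ * (μ₀ + μ₁) * (L + Ψ) = 20000 * (L * μ₀ * μ₀ + Ψ * μ₀ * μ₀ +
      μ₁ * (L * μ₀) + μ₁ * (Ψ * μ₀)) := by ring
  rw [d]
  linarith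

section

variable {M : Type} [TopologicalSpace M] [T2Space M] [CompactSpace M] [ChartedSpace E4 M]
  [IsManifold (𝓡 4) ∞ M] [MeasurableSpace M] [BorelSpace M] {X : L0 M}

omit [T2Space M] in
theorem a12_int (hV : VFacts X) {f : M → ℝ} (hf : Continuous f) : Integrable f X.μ :=
  have := hV.fin
  hf.integrable_of_hasCompactSupport (HasCompactSupport.of_compactSpace f)

omit [T2Space M] in
theorem a12_int2 (hV : VFacts X) (hK : KInt X) {δ : ℝ} (h0 : 0 < δ) (h1 : δ ≤ 1) {σ τ : M → ℝ}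
    (hσ : Continuous σ) (hτ : Continuous τ) :
    Integrable (fun y => τ y * ∫ x, lgn X.d δ x y * σ x ∂X.μ) X.μ := by
  obtain ⟨-, -, ⟨C, hC⟩, hm⟩ := hK.int δ h0 h1 σ hσ
  exact (a12_int hV hτ).mul_bdd hm.aestronglyMeasurable (ae_of_all _ hC)

omit [T2Space M] [CompactSpace M] [BorelSpace M] in
theorem a12_nonneg (δ : ℝ) {σ τ : M → ℝ} (hσ : ∀ x, 0 ≤ σ x) (hτ : ∀ x, 0 ≤ τ x) :
    0 ≤ ∫ y, τ y * ∫ x, lgn X.d δ x y * σ x ∂X.μ ∂X.μ :=
  integral_nonneg fun y => mul_nonneg (hτ y)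
    (integral_nonneg fun x => mul_nonneg (le_max_right _ _) (hσ x))

omit [T2Space M] in
theorem a12_split (hV : VFacts X) (hK : KInt X) {δ : ℝ} (h0 : 0 < δ) (h1 : δ ≤ 1) {σ : M → ℝ}
    (hσ : Continuous σ) (hs : ∀ x, 0 ≤ σ x) (c : ℝ) (y : M) :
    ∫ x, (ell X.d x y + c) * σ x ∂X.μ ≤
      (log δ⁻¹ + c) * ∫ x, σ x ∂X.μ + ∫ x, lgn X.d δ x y * σ x ∂X.μ := by
  have i1 := (hK.int δ h0 h1 σ hσ).1 y
  have i2 := (hK.int 1 one_pos le_rfl σ hσ).1 y
  have i3 := a12_int hV hσ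
  simp only [hK.lgn_one] at i2
  rw [← integral_const_mul, ← integral_add (i3.const_mul _) i1]
  refine integral_mono ((i2.add (i3.const_mul c)).congr (ae_of_all _ fun x => by
    simp only [Pi.add_apply]; ring)) ((i3.const_mul _).add i1) fun x => ?_
  have := mul_le_mul_of_nonneg_right (hK.lgn_le δ h0 h1 x y).2.1 (hs x)
  simp only
  linarith

omit [T2Space M] in
theorem a12_z (hV : VFacts X) {w : M → ℝ} (hw : Continuous w) : ∫ x, X.z w x ∂X.μ = 0 := by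
  have := hV.fin
  simp only [L0.z]
  rw [integral_sub (a12_int hV hw) (integrable_const _), integral_average, sub_self]

omit [T2Space M] in
theorem a12_jensen (hV : VFacts X) {w u : M → ℝ} (hw : Continuous w) (hu : Continuous u)
    (h : ∀ x, 4 * w x - 4 ≤ u x) :
    exp (4 * (⨍ y, w y ∂X.μ) - 4) * X.μ.real univ ≤ ∫ y, exp (u y) ∂X.μ := by
  have := hV.fin
  have hz : Continuous (X.z w) := hw.sub continuous_const
  have e : ∫ x, exp (4 * (⨍ y, w y ∂X.μ) - 4) * (4 * X.z w x + 1) ∂X.μ =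
      exp (4 * (⨍ y, w y ∂X.μ) - 4) * X.μ.real univ := by
    rw [integral_const_mul, integral_add ((a12_int hV hz).const_mul 4) (integrable_const _),
      integral_const_mul, a12_z hV hw]
    simp
  rw [← e]
  refine integral_mono (a12_int hV (by fun_prop)) (a12_int hV (by fun_prop)) fun x => ?_
  refine (mul_le_mul_of_nonneg_left (add_one_le_exp _) (exp_pos _).le).trans ?_
  rw [← exp_add]
  refine exp_le_exp.2 ?_
  have := h x
  simp only [L0.z]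
  linarith

end

theorem loopStmt (hV : VolsStmt) (hK : KIntStmt) (hC : ChStmt) (hD : DualStmt) (hN : NearStmt) :
    LoopStmt := by
  intro M _ _ _ _ _ _ _ X
  have hV : VFacts X := hV M X
  have hK : KInt X := hK M X
  have hC : Ch X := hC M X
  obtain ⟨D, hD0, hD⟩ := hD M X (1 / 100) (by norm_num)
  obtain ⟨B, hB⟩ := hN M X
  have := hV.fin
  refine ⟨300 * (60000 * D + 3) + 300 * |4 - log (X.μ.real univ)| + 3000 * |B| + 3000, ?_⟩
  intro μ₀ μ₁ δ Ψ C₂ w Φ ψ η ρ m0 m0' m1 m1' d0 d1 hΨ hC₂ sw sΦ sψ sη hρ hη hψ hΦ hm hl hin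
  have d1' : δ ≤ 1 := by linarith
  have su : Smooth fun x => 4 * w x + 4 * Φ x + 4 * ψ x :=
    ((sw.const_mul 4).add (sΦ.const_mul 4)).add (sψ.const_mul 4)
  have cw := sw.continuous
  have cΦ := sΦ.continuous
  have cψ := sψ.continuous
  have cη := sη.continuous
  have hJ := a12_jensen hV cw su.continuous fun x => by linarith [(hΦ x).1, (hψ x).1]
  set Z := ∫ y, exp (4 * w y + 4 * Φ y + 4 * ψ y) ∂X.μ with hZ
  have Z0 : 0 < Z := (mul_pos (exp_pos _) hV.univ).trans_le hJ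
  have sρ : Smooth ρ := by
    rw [show ρ = fun x => Z⁻¹ * exp (4 * w x + 4 * Φ x + 4 * ψ x) from
      funext fun x => by rw [hρ, div_eq_inv_mul]]
    exact su.exp.const_mul _
  have cρ := sρ.continuous
  have ρ0 : ∀ x, 0 < ρ x := fun x => by rw [hρ]; exact div_pos (exp_pos _) Z0
  have ρ1 : ∫ x, ρ x ∂X.μ = 1 := by
    rw [integral_congr_ae (ae_of_all _ hρ), integral_div, div_self Z0.ne']
  have s2 : Smooth fun x => (1 - η x) * ρ x := ((smooth_const 1).sub sη).mul sρ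
  have c2 := s2.continuous
  have c1 : Continuous fun x => η x * ρ x := cη.mul cρ
  have p2 : ∀ x, 0 ≤ (1 - η x) * ρ x := fun x => mul_nonneg (sub_nonneg.2 (hη x).2) (ρ0 x).le
  have p1 : ∀ x, 0 ≤ η x * ρ x := fun x => mul_nonneg (hη x).1 (ρ0 x).le
  have hL : 0 ≤ log δ⁻¹ := log_nonneg (one_le_inv_iff₀.2 ⟨d0, d1'⟩)
  have cz : Continuous (X.z w) := cw.sub continuous_const
  have E0 : 0 ≤ En X.d X.μ fun x => (1 - η x) * ρ x := by
    simp only [En, ← hK.lgn_one]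
    exact a12_nonneg 1 p2 p2
  obtain ⟨e1, e2⟩ := a12_dual (hC.1 w sw).2.1 E0 hD0 hC₂ (hD _ s2 p2 (hm.trans m0') w sw) hin
  have i2 := a12_int hV c2
  have e3 : (En X.d X.μ fun x => (1 - η x) * ρ x) ≤
      log δ⁻¹ * (∫ x, (1 - η x) * ρ x ∂X.μ) * (∫ x, (1 - η x) * ρ x ∂X.μ) +
      ∫ y, (1 - η y) * ρ y * ∫ x, lgn X.d δ x y * ((1 - η x) * ρ x) ∂X.μ ∂X.μ := by
    have j := a12_int2 hV hK one_pos le_rfl c2 c2
    simp only [hK.lgn_one] at j
    have j' := a12_int2 hV hK d0 d1' c2 c2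
    rw [← integral_const_mul (log δ⁻¹ * _), ← integral_add (i2.const_mul _) j']
    refine integral_mono j ((i2.const_mul _).add j') fun y => ?_
    have k := a12_split hV hK d0 d1' c2 p2 0 y
    simp only [add_zero] at k
    have := mul_le_mul_of_nonneg_left k (p2 y)
    simp only
    linarith
  have e4 : ∫ y, Φ y * ((1 - η y) * ρ y) ∂X.μ ≤
      2 * ((log δ⁻¹ + 1) * (∫ x, (1 - η x) * ρ x ∂X.μ) +
      ∫ y, (1 - η y) * ρ y * ∫ x, lgn X.d δ x y * (η x * ρ x) ∂X.μ ∂X.μ) := by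
    have j' := a12_int2 hV hK d0 d1' c1 c2
    rw [← integral_const_mul, ← integral_add (i2.const_mul _) j', ← integral_const_mul]
    refine integral_mono (a12_int hV (cΦ.mul c2)) (((i2.const_mul _).add j').const_mul 2)
      fun y => ?_
    have k1 : ∫ x, η x * ρ x ∂X.μ ≤ 1 := by
      rw [← ρ1]
      exact integral_mono (a12_int hV c1) (a12_int hV cρ) fun x =>
        mul_le_of_le_one_left (ρ0 x).le (hη x).2
    have k2 := mul_le_mul_of_nonneg_left k1 (by linarith : 0 ≤ log δ⁻¹ + 1)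
    have k := a12_split hV hK d0 d1' c1 p1 1 y
    have k3 : Φ y ≤ 2 * (log δ⁻¹ + 1 + ∫ x, lgn X.d δ x y * (η x * ρ x) ∂X.μ) := by
      linarith [(hΦ y).2]
    have := mul_le_mul_of_nonneg_right k3 (p2 y)
    simp only
    linarith
  have e5 : ∫ y, ψ y * ((1 - η y) * ρ y) ∂X.μ ≤ Ψ * ∫ x, (1 - η x) * ρ x ∂X.μ := by
    rw [← integral_const_mul]
    exact integral_mono (a12_int hV (cψ.mul c2)) (i2.const_mul _) fun y =>
      mul_le_mul_of_nonneg_right (hψ y).2 (p2 y)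
  have e6 : ∫ y, (1 - η y) * ρ y * log (ρ y) ∂X.μ ≤
      4 * (∫ x, X.z w x * ((1 - η x) * ρ x) ∂X.μ) + 4 * (∫ y, Φ y * ((1 - η y) * ρ y) ∂X.μ) +
      4 * (∫ y, ψ y * ((1 - η y) * ρ y) ∂X.μ) +
      |4 - log (X.μ.real univ)| * ∫ x, (1 - η x) * ρ x ∂X.μ := by
    have j1 := (a12_int hV (cz.fun_mul c2)).const_mul 4
    have j2 := (a12_int hV (cΦ.fun_mul c2)).const_mul 4
    have j3 := (a12_int hV (cψ.fun_mul c2)).const_mul 4
    have j12 : Integrable (fun x => 4 * (X.z w x * ((1 - η x) * ρ x)) +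
        4 * (Φ x * ((1 - η x) * ρ x))) X.μ := j1.add j2
    have j123 : Integrable (fun x => 4 * (X.z w x * ((1 - η x) * ρ x)) +
        4 * (Φ x * ((1 - η x) * ρ x)) + 4 * (ψ x * ((1 - η x) * ρ x))) X.μ := j12.add j3
    rw [← integral_const_mul, ← integral_const_mul, ← integral_const_mul, ← integral_const_mul,
      ← integral_add j1 j2, ← integral_add j12 j3, ← integral_add j123 (i2.const_mul _)]
    refine integral_mono (a12_int hV (c2.mul (cρ.log fun x => (ρ0 x).ne')))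
      (j123.add (i2.const_mul _)) fun y => ?_
    have k1 := log_le_log (mul_pos (exp_pos _) hV.univ) hJ
    rw [log_mul (exp_pos _).ne' hV.univ.ne', log_exp] at k1
    have k2 : log (ρ y) ≤ 4 * X.z w y + 4 * Φ y + 4 * ψ y + |4 - log (X.μ.real univ)| := by
      rw [hρ, log_div (exp_pos _).ne' Z0.ne', log_exp]
      simp only [L0.z]
      linarith [le_abs_self (4 - log (X.μ.real univ))]
    have := mul_le_mul_of_nonneg_left k2 (p2 y)
    simp only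
    linarith
  have e7 := hB δ μ₁ d0 d1 m1 (by linarith) ρ _ cρ c2 ρ0
    (fun x => ⟨p2 x, mul_le_of_le_one_left (ρ0 x).le (by linarith [(hη x).1])⟩) ρ1.le
    fun y hy => hl y fun c => hy (by simp [c])
  have e8 : ∫ y, (1 - η y) * ρ y * ∫ x, lgn X.d δ x y * ρ x ∂X.μ ∂X.μ =
      (∫ y, (1 - η y) * ρ y * ∫ x, lgn X.d δ x y * ((1 - η x) * ρ x) ∂X.μ ∂X.μ) +
      ∫ y, (1 - η y) * ρ y * ∫ x, lgn X.d δ x y * (η x * ρ x) ∂X.μ ∂X.μ := by
    rw [← integral_add (a12_int2 hV hK d0 d1' c2 c2) (a12_int2 hV hK d0 d1' c1 c2)]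
    refine integral_congr_ae (ae_of_all _ fun y => ?_)
    simp only
    rw [← mul_add, ← integral_add ((hK.int δ d0 d1' _ c2).1 y) ((hK.int δ d0 d1' _ c1).1 y)]
    congr 2
    funext x
    ring
  have fin := a12_fin m0' m1 m1' hL hΨ (integral_nonneg p2) hm (by positivity) (abs_nonneg _)
    (abs_nonneg B) (a12_nonneg δ p2 p2) (a12_nonneg δ p1 p2) e1 e2 e3 e4 e5 e6
    (by rw [← e8]; linarith [le_abs_self B])
  have g : 0 ≤ (300 * |4 - log (X.μ.real univ)| + 3000 * |B| + 3000) * C₂ ^ 2 := by positivity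
  linarith

end Pool.Agent.MP_417fa2_gt.Q2
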