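import Pool.Agent.MP_417fa2_gt.Q2.ESpec

/-! A thin tube changes the form little, and its Q-curvature is a point mass up to a bounded
error. -/

open scoped ContDiff Topology
open MeasureTheory Set Metric Real Filter

namespace Pool.Agent.MP_417fa2_gt.Q2

open DE (lp)

namespace U4

theorem abs_int {f g : E4 → ℝ} (hg : Integrable g) (h : ∀ y, |f y| ≤ g y) :
    |∫ y, f y| ≤ ∫ y, g y :=
  abs_integral_le_integral_abs.trans
    (integral_mono_of_nonneg (.of_forall fun _ => abs_nonneg _) hg (.of_forall h))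

theorem int_add {μ : Measure E4} {f g : E4 → ℝ} (hf : Integrable f μ) (hg : Integrable g μ) :
    Integrable (fun y => f y + g y) μ := hf.add hg

theorem cs {μ : Measure E4} {f g : E4 → ℝ} (hf : Integrable (fun y => f y ^ 2) μ)
    (hg : Integrable (fun y => g y ^ 2) μ) (h : Integrable (fun y => f y * g y) μ) :
    ∫ y, f y * g y ∂μ ≤ √(∫ y, f y ^ 2 ∂μ) * √(∫ y, g y ^ 2 ∂μ) := by
  have d := discrim_le_zero (a := ∫ y, f y ^ 2 ∂μ) (b := 2 * ∫ y, f y * g y ∂μ)
    (c := ∫ y, g y ^ 2 ∂μ) fun t => by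
      have e : ∫ y, (t * f y + g y) ^ 2 ∂μ = ∫ y, (t * t * f y ^ 2 + 2 * t * (f y * g y)) +
          g y ^ 2 ∂μ := integral_congr_ae (.of_forall fun y => by ring)
      rw [integral_add (int_add (hf.const_mul _) (h.const_mul _)) hg,
        integral_add (hf.const_mul _) (h.const_mul _), integral_const_mul, integral_const_mul] at e
      have p : 0 ≤ ∫ y, (t * f y + g y) ^ 2 ∂μ := integral_nonneg fun y => sq_nonneg _
      linarith
  rw [← sqrt_mul (integral_nonneg fun y => sq_nonneg _)]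
  refine le_sqrt_of_sq_le ?_
  rw [discrim] at d
  linarith

theorem int_mul {μ : Measure E4} {f g : E4 → ℝ} (cf : Continuous f) (cg : Continuous g)
    (hf : Integrable (fun y => f y ^ 2) μ) (hg : Integrable (fun y => g y ^ 2) μ) :
    Integrable (fun y => f y * g y) μ :=
  (hf.add hg).mono' (cf.mul cg).aestronglyMeasurable (.of_forall fun y => by
    simp only [Pi.add_apply, norm_eq_abs, abs_le]
    constructor <;> nlinarith [sq_nonneg (f y + g y), sq_nonneg (f y - g y)])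

theorem cs1 {T : Set E4} (hT : volume T ≠ ⊤) {f : E4 → ℝ} (cf : Continuous f)
    (hf : IntegrableOn (fun y => f y ^ 2) T) :
    IntegrableOn f T ∧ ∫ y in T, f y ≤ √(volume.real T) * √(∫ y in T, f y ^ 2) := by
  have h1 : IntegrableOn (fun _ : E4 => (1 : ℝ) ^ 2) T := integrableOn_const hT
  have h2 := int_mul continuous_const cf h1 hf
  have h3 := cs h1 hf h2
  simp only [one_mul] at h2 h3
  exact ⟨h2, by simpa using h3⟩

theorem D1_nn (φ : E4 → ℝ) (y : E4) : 0 ≤ D1 φ y := sqrt_nonneg _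

theorem D2_nn (φ : E4 → ℝ) (y : E4) : 0 ≤ D2 φ y := sqrt_nonneg _

theorem D1_sq (φ : E4 → ℝ) (y : E4) : D1 φ y ^ 2 = ∑ i, pd i φ y ^ 2 := sq_sqrt (by positivity)

theorem D2_sq (φ : E4 → ℝ) (y : E4) : D2 φ y ^ 2 = ∑ i, ∑ j, pd i (pd j φ) y ^ 2 :=
  sq_sqrt (by positivity)

theorem int_D1 {φ : E4 → ℝ} (h : Tst φ) : Integrable fun y => D1 φ y ^ 2 := by
  simp only [D1_sq]
  exact integrable_finsetSum _ fun i _ => (h.pd i).integrable_sq

theorem int_D2 {φ : E4 → ℝ} (h : Tst φ) : Integrable fun y => D2 φ y ^ 2 := by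
  simp only [D2_sq]
  exact integrable_finsetSum _ fun i _ => integrable_finsetSum _ fun j _ =>
    ((h.pd j).pd i).integrable_sq

theorem int_D4 {φ : E4 → ℝ} (h : Tst φ) : Integrable fun y => (D1 φ y ^ 2) ^ 2 := by
  simp only [D1_sq]
  refine Tst.integrable_sq (Tst.sum fun i _ => ?_)
  simpa only [sq] using (h.pd i).mul_left (h.pd i).sm

theorem D_zero (hc : ChiFacts) {φ : E4 → ℝ} {y : E4} (h : ∀ᶠ z in 𝓝 y, φ z = 0) :
    D1 φ y = 0 ∧ D2 φ y = 0 := by
  obtain ⟨h1, h2, -⟩ := hc.D_congr φ (fun _ => 0) 0 y (by simpa using h)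
  have e : ∀ i, pd i (fun _ => (0 : ℝ)) = fun _ => 0 := fun i => funext fun z => by simp [pd]
  rw [h1, h2]
  simp [D1, D2, e]

theorem ee_nn (i : Fin 2) (y : E4) : 0 ≤ ee i 1 y := by
  unfold ee zsq wsq
  split_ifs <;> positivity

/-- The weight of the Hardy inequality. -/
noncomputable def wg (i : Fin 2) (τ : ℝ) (y : E4) : ℝ := √(1 / (ee i 1 y + τ ^ 2))

/-- The size of two derivatives, with the Hardy weight. -/
noncomputable def aa (i : Fin 2) (τ : ℝ) (φ : E4 → ℝ) (y : E4) : ℝ := D2 φ y + wg i τ y * D1 φ y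

theorem aa_nn (i : Fin 2) (τ : ℝ) (φ : E4 → ℝ) (y : E4) : 0 ≤ aa i τ φ y :=
  add_nonneg (D2_nn _ _) (mul_nonneg (sqrt_nonneg _) (D1_nn _ _))

theorem aa_bd (hc : ChiFacts) (hn : NbFacts) (hH : HardyStmt) : ∃ K : ℝ, 0 ≤ K ∧
    ∀ (i : Fin 2) (τ : ℝ), 0 < τ → τ ≤ 1 / 8 → ∀ φ, Tst φ → Continuous (aa i τ φ) ∧
      Integrable (fun y => aa i τ φ y ^ 2) ∧ √(∫ y, aa i τ φ y ^ 2) ≤ K * √(eN 2 φ) := by
  obtain ⟨C, hC⟩ := hH
  refine ⟨√(2 + 2 * |C|), sqrt_nonneg _, fun i τ h0 h1 φ hφ => ?_⟩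
  have p : ∀ y, 0 < ee i 1 y + τ ^ 2 := fun y => by positivity [ee_nn i y]
  have ce := (hn.ee_sm i 1).continuous
  have cd : Continuous fun y => 1 / (ee i 1 y + τ ^ 2) :=
    continuous_const.div (ce.add continuous_const) fun y => (p y).ne'
  have ca : Continuous (aa i τ φ) :=
    (hc.D_cont φ hφ.sm).2.add (cd.sqrt.mul (hc.D_cont φ hφ.sm).1)
  have ij : ∀ j, Integrable fun y => pd j φ y ^ 2 / (ee i 1 y + τ ^ 2) := fun j => by
    simp only [div_eq_mul_one_div (pd j φ _ ^ 2)]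
    refine (hφ.pd j).integrable_sq.mul_bdd (c := 1 / τ ^ 2) cd.aestronglyMeasurable
      (.of_forall fun y => ?_)
    rw [norm_of_nonneg (one_div_pos.2 (p y)).le]
    exact one_div_le_one_div_of_le (by positivity) (by linarith [ee_nn i y])
  have is := integrable_finsetSum Finset.univ fun j _ => ij j
  have ib := ((int_D2 hφ).const_mul 2).add (is.const_mul 2)
  have pt : ∀ y, aa i τ φ y ^ 2 ≤
      2 * D2 φ y ^ 2 + 2 * ∑ j, pd j φ y ^ 2 / (ee i 1 y + τ ^ 2) := fun y => by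
    have e : (wg i τ y * D1 φ y) ^ 2 = ∑ j, pd j φ y ^ 2 / (ee i 1 y + τ ^ 2) := by
      rw [mul_pow, wg, sq_sqrt (one_div_pos.2 (p y)).le, D1_sq, ← Finset.sum_div]
      ring
    rw [← e, aa]
    nlinarith [sq_nonneg (D2 φ y - wg i τ y * D1 φ y)]
  have ia : Integrable fun y => aa i τ φ y ^ 2 := ib.mono' (ca.pow 2).aestronglyMeasurable
    (.of_forall fun y => by rw [norm_of_nonneg (sq_nonneg _)]; exact pt y)
  refine ⟨ca, ia, ?_⟩
  rw [← sqrt_mul (by positivity)]
  refine sqrt_le_sqrt ((integral_mono ia ib pt).trans ?_)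
  simp only [Pi.add_apply]
  rw [integral_add ((int_D2 hφ).const_mul 2) (is.const_mul 2), integral_const_mul,
    integral_const_mul, integral_finsetSum _ fun j _ => ij j]
  have e1 : ∑ j, ∫ y, pd j φ y ^ 2 / (ee i 1 y + τ ^ 2) ≤ ∑ j, |C| * eN 1 (pd j φ) :=
    Finset.sum_le_sum fun j _ => (hC i τ h0 h1 _ (hφ.pd j)).1.trans
      (mul_le_mul_of_nonneg_right (le_abs_self C) (eN_nonneg _ _))
  have e2 : ∑ j, eN 1 (pd j φ) ≤ eN 2 φ := by
    rw [eN_succ 1 φ]
    linarith [eN_nonneg 0 φ]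
  have e3 := hc.eN2 φ hφ
  have e4 : 0 ≤ ∫ y, φ y ^ 2 := integral_nonneg fun y => sq_nonneg _
  have e5 : 0 ≤ ∫ y, D1 φ y ^ 2 := integral_nonneg fun y => sq_nonneg _
  rw [← Finset.mul_sum] at e1
  nlinarith [mul_le_mul_of_nonneg_left e2 (abs_nonneg C)]

variable {i : Fin 2} {m τ C : ℝ} {s : E4 → ℝ}

theorem out (hn : NbFacts) (P : Prof i m τ C s) {y : E4} (h : τ ^ 2 < ee i 1 y) :
    ∀ᶠ z in 𝓝 y, s z = 0 :=
  mem_of_superset ((isOpen_lt continuous_const (hn.ee_sm i 1).continuous).mem_nhds h)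
    fun z hz => P.supp z (le_of_lt hz)

theorem om_le (h0 : 0 < τ) (h1 : C * √τ ≤ 1) (P : Prof i m τ C s) (y : E4) :
    D2 s y + D1 s y ^ 2 ≤ 2 * (C * √τ) / τ ^ 2 := by
  have d0 := (abs_nonneg _).trans (P.d0 y)
  have e := pow_le_pow_left₀ (D1_nn s y) (P.d1 y) 2
  have e2 : (C * √τ / τ) ^ 2 ≤ C * √τ / τ ^ 2 := by
    rw [div_pow]
    gcongr
    nlinarith
  linarith [P.d2 y, mul_div_assoc 2 (C * √τ) (τ ^ 2)]

theorem prof_wg (hc : ChiFacts) (hn : NbFacts) (h0 : 0 < τ) (h1 : C * √τ ≤ 1) (P : Prof i m τ C s)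
    (y : E4) : D1 s y ≤ 2 * (C * √τ) * wg i τ y ∧
      D2 s y + D1 s y ^ 2 ≤ 4 * (C * √τ) * wg i τ y ^ 2 := by
  have d0 := (abs_nonneg _).trans (P.d0 y)
  have w0 : 0 ≤ wg i τ y := sqrt_nonneg _
  rcases lt_or_ge (τ ^ 2) (ee i 1 y) with h | h
  · obtain ⟨a, b⟩ := D_zero hc (out hn P h)
    rw [a, b]
    constructor
    · positivity
    · simp only [ne_eq, OfNat.ofNat_ne_zero, not_false_eq_true, zero_pow, add_zero]
      positivity
  · have p : 0 < ee i 1 y + τ ^ 2 := by positivity [ee_nn i y]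
    have e : 1 / (2 * τ ^ 2) ≤ wg i τ y ^ 2 := by
      rw [wg, sq_sqrt (one_div_pos.2 p).le]
      exact one_div_le_one_div_of_le p (by linarith)
    have e2 : 1 / (2 * τ) ≤ wg i τ y := by
      refine le_of_sq_le_sq (le_trans ?_ e) w0
      rw [div_pow, one_pow]
      exact one_div_le_one_div_of_le (by positivity) (by nlinarith [sq_nonneg τ])
    constructor
    · calc _ ≤ _ := P.d1 y
        _ = 2 * (C * √τ) * (1 / (2 * τ)) := by field_simp
        _ ≤ _ := by gcongr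
    · calc _ ≤ _ := om_le h0 h1 P y
        _ = 4 * (C * √τ) * (1 / (2 * τ ^ 2)) := by field_simp; ring
        _ ≤ _ := by gcongr

theorem cut_eN (hc : ChiFacts) (hT : TransStmt) : ∃ K : ℝ, ∀ φ, Tst φ →
    √(eN 2 fun y => chi (3 / 2) y * (φ y - ⨍ z in ball (0 : E4) 1, φ z)) ≤
      K * (√(∫ y, D2 φ y ^ 2) + √(√(∫ y, D1 φ y ^ 4))) := by
  obtain ⟨-, ⟨CT, hT⟩, -⟩ := hT
  obtain ⟨B, hB⟩ := hc.bd
  set L : ℝ := (2 + 12 * B ^ 2) * √(volume.real (ball (0 : E4) 4)) + (1 + 5 * B ^ 2) * |CT| with hL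
  have L0 : 0 ≤ L := by positivity
  refine ⟨√(3 + L), fun φ hφ => ?_⟩
  set c := ⨍ z in ball (0 : E4) 1, φ z
  have t := hc.tst (3 / 2) (by norm_num)
  have sφ : ContDiff ℝ ∞ fun y => φ y - c := hφ.sm.sub contDiff_const
  have tg := t.mul_right sφ
  have fin : volume (ball (0 : E4) 4) ≠ ⊤ := measure_ball_lt_top.ne
  have c1 := (hc.D_cont φ hφ.sm).1
  obtain ⟨i1, k1⟩ := cs1 (f := fun y => D1 φ y ^ 2) fin (c1.pow 2) (int_D4 hφ).integrableOn
  have i0 : IntegrableOn (fun y => (φ y - c) ^ 2) (ball (0 : E4) 4) :=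
    ((sφ.continuous.pow 2).continuousOn.integrableOn_compact (isCompact_closedBall 0 4)).mono_set
      ball_subset_closedBall
  have i2 := int_add (i1.const_mul (2 + 12 * B ^ 2)) (i0.const_mul (1 + 5 * B ^ 2))
  have i3 := (integrable_indicator_iff measurableSet_ball).2 i2
  have pt : ∀ y, (chi (3 / 2) y * (φ y - c)) ^ 2 + D1 (fun y => chi (3 / 2) y * (φ y - c)) y ^ 2 +
      D2 (fun y => chi (3 / 2) y * (φ y - c)) y ^ 2 ≤ 3 * D2 φ y ^ 2 + (ball (0 : E4) 4).indicator
        (fun y => (2 + 12 * B ^ 2) * D1 φ y ^ 2 + (1 + 5 * B ^ 2) * (φ y - c) ^ 2) y := fun y => by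
    by_cases hy : y ∈ ball (0 : E4) 4
    · rw [indicator_of_mem hy]
      obtain ⟨a1, a2, -⟩ := hc.D_congr (fun y => φ y - c) φ (-c) y
        (.of_forall fun z => sub_eq_add_neg _ _)
      have m1 := hc.D1_mul _ _ y t.sm.contDiffAt sφ.contDiffAt
      have m2 := hc.D2_mul _ _ y t.sm.contDiffAt sφ.contDiffAt
      obtain ⟨b1, b2⟩ := hB (3 / 2) (by norm_num) y
      have B0 : 0 ≤ B := by linarith [D1_nn (chi (3 / 2)) y]
      have x0 := hc.nonneg (3 / 2) y
      have x1 := hc.le_one (3 / 2) y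
      have p1 := D1_nn φ y
      have p2 := D2_nn φ y
      have p0 := abs_nonneg (φ y - c)
      rw [a1, abs_of_nonneg x0] at m1
      rw [a1, a2, abs_of_nonneg x0] at m2
      have b3 : D1 (chi (3 / 2)) y ≤ B := by linarith
      have b4 : D2 (chi (3 / 2)) y ≤ B := b2.trans (div_le_self B0 (by norm_num))
      have n1 := pow_le_pow_left₀ (D1_nn _ y) (m1.trans (add_le_add
        (mul_le_of_le_one_left p1 x1) (mul_le_mul_of_nonneg_right b3 p0))) 2
      have n2 := pow_le_pow_left₀ (D2_nn _ y) (m2.trans (add_le_add (add_le_add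
        (mul_le_of_le_one_left p2 x1) (mul_le_mul_of_nonneg_right
          (mul_le_mul_of_nonneg_left b3 zero_le_two) p1)) (mul_le_mul_of_nonneg_right b4 p0))) 2
      have n0 : (chi (3 / 2) y * (φ y - c)) ^ 2 ≤ (φ y - c) ^ 2 := by
        rw [mul_pow]
        exact mul_le_of_le_one_left (sq_nonneg _) (pow_le_one₀ x0 x1)
      rw [← sq_abs (φ y - c)] at n0 ⊢
      nlinarith [sq_nonneg (D1 φ y - B * |φ y - c|), sq_nonneg (D2 φ y - 2 * B * D1 φ y),
        sq_nonneg (D2 φ y - B * |φ y - c|), sq_nonneg (2 * B * D1 φ y - B * |φ y - c|)]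
    · have hy' : 3 < ‖y‖ := by linarith [not_lt.1 (mt mem_ball_zero_iff.2 hy)]
      have ev : ∀ᶠ z in 𝓝 y, chi (3 / 2) z * (φ z - c) = 0 :=
        mem_of_superset ((isOpen_lt continuous_const continuous_norm).mem_nhds hy')
          fun z (hz : 3 < ‖z‖) => mul_eq_zero_of_left
            (hc.zero _ (by norm_num) z (by linarith)) _
      rw [indicator_of_notMem hy, (D_zero hc ev).1, (D_zero hc ev).2, ev.self_of_nhds]
      nlinarith [sq_nonneg (D2 φ y)]
  have mono := integral_mono (int_add (int_add tg.integrable_sq (int_D1 tg)) (int_D2 tg))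
    (int_add ((int_D2 hφ).const_mul 3) i3) pt
  rw [integral_add (int_add tg.integrable_sq (int_D1 tg)) (int_D2 tg),
    integral_add tg.integrable_sq (int_D1 tg), ← hc.eN2 _ tg,
    integral_add ((int_D2 hφ).const_mul 3) i3, integral_indicator measurableSet_ball,
    integral_const_mul, integral_add (i1.const_mul _) (i0.const_mul _), integral_const_mul,
    integral_const_mul] at mono
  have k2 : √(∫ y in ball (0 : E4) 4, (D1 φ y ^ 2) ^ 2) ≤ √(∫ y, D1 φ y ^ 4) := by
    refine sqrt_le_sqrt ((setIntegral_le_integral (int_D4 hφ)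
      (.of_forall fun y => sq_nonneg _)).trans_eq ?_)
    simp only [← pow_mul]
  have k3 := (hT φ hφ).trans (mul_le_mul_of_nonneg_right (le_abs_self CT) (sqrt_nonneg _))
  have k4 := k1.trans (mul_le_mul_of_nonneg_left k2 (sqrt_nonneg _))
  have A0 : 0 ≤ ∫ y, D2 φ y ^ 2 := integral_nonneg fun y => sq_nonneg _
  refine sqrt_le_iff.2 ⟨by positivity, ?_⟩
  rw [mul_pow, sq_sqrt (by positivity), add_sq, sq_sqrt A0, sq_sqrt (sqrt_nonneg _)]
  have k5 := mul_le_mul_of_nonneg_left k4 (show 0 ≤ 2 + 12 * B ^ 2 by positivity)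
  have k6 := mul_le_mul_of_nonneg_left k3 (show 0 ≤ 1 + 5 * B ^ 2 by positivity)
  have k7 : 0 ≤ (3 + L) * (2 * √(∫ y, D2 φ y ^ 2) * √(√(∫ y, D1 φ y ^ 4))) := by positivity
  have k8 := mul_nonneg L0 A0
  have k9 := sqrt_nonneg (∫ y, D1 φ y ^ 4)
  have k10 : L * √(∫ y, D1 φ y ^ 4) = (2 + 12 * B ^ 2) * (√(volume.real (ball (0 : E4) 4)) *
    √(∫ y, D1 φ y ^ 4)) + (1 + 5 * B ^ 2) * (|CT| * √(∫ y, D1 φ y ^ 4)) := by rw [hL]; ring
  linarith

end U4

open U4

theorem t1Stmt (hc : ChiFacts) (hn : NbFacts) (hp : PertStmt) (hH : HardyStmt) : T1Stmt := by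
  obtain ⟨K, -, hK⟩ := aa_bd hc hn hH
  obtain ⟨B, hB⟩ := hp
  refine fun C hC => ⟨4 * |B| * C * K ^ 2, fun i m τ s h0 h1 h2 P φ ψ hφ hψ => ?_⟩
  obtain ⟨c1, i1, k1⟩ := hK i τ h0 (by linarith) φ hφ
  obtain ⟨c2, i2, k2⟩ := hK i τ h0 (by linarith) ψ hψ
  have i3 := int_mul c1 c2 i1 i2
  have d0 : 0 ≤ C * √τ := by positivity
  calc _ ≤ ∫ y, 4 * |B| * (C * √τ) * (aa i τ φ y * aa i τ ψ y) := by
        refine abs_int (i3.const_mul _) fun y => ?_
        obtain ⟨a, b⟩ := prof_wg hc hn h0 h2 P y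
        have w0 : 0 ≤ wg i τ y := sqrt_nonneg _
        have p1 := D1_nn φ y
        have p2 := D2_nn φ y
        have q1 := D1_nn ψ y
        have q2 := D2_nn ψ y
        have s1 := D1_nn s y
        have s2 := D2_nn s y
        calc _ ≤ _ := hB s φ ψ y (smAt_of P.sm.sm y) (smAt_of hφ.sm y) (smAt_of hψ.sm y)
              ((P.d0 y).trans h2)
          _ ≤ |B| * _ := mul_le_mul_of_nonneg_right (le_abs_self B) (by positivity)
          _ ≤ |B| * (4 * (C * √τ) * D2 φ y * D2 ψ y + 4 * (C * √τ) * wg i τ y *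
              (D1 φ y * D2 ψ y + D2 φ y * D1 ψ y) +
              4 * (C * √τ) * wg i τ y ^ 2 * D1 φ y * D1 ψ y) := by
            gcongr
            · linarith [P.d0 y]
            · nlinarith [mul_nonneg d0 w0]
          _ = _ := by unfold aa; ring
    _ ≤ 4 * |B| * (C * √τ) * (K * √(eN 2 φ) * (K * √(eN 2 ψ))) := by
        rw [integral_const_mul]
        gcongr
        exact (cs i1 i2 i3).trans (mul_le_mul k1 k2 (sqrt_nonneg _) ((sqrt_nonneg _).trans k1))
    _ = _ := by ring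

theorem t3Stmt (hc : ChiFacts) (hn : NbFacts) (hl : LocFacts) (hq : QdFacts) (hH : HardyStmt)
    (hT : TransStmt) : T3Stmt := by
  obtain ⟨K, K0, hK⟩ := aa_bd hc hn hH
  obtain ⟨K', hK'⟩ := cut_eN hc hT
  obtain ⟨H, hH⟩ := hH
  obtain ⟨B, hB⟩ := hq.bd
  obtain ⟨V, hV⟩ := hn.nb_vol
  refine fun C hC => ⟨(B ^ 3 * 4 * C * √(8 * |V|) * K + B * 4 * C ^ 2 * √(8 * |V|) * √(8 * |H|)) * K',
    fun i m τ s h0 h1 h2 P φ hφ => ?_⟩
  set c := ⨍ z in ball (0 : E4) 1, φ z
  have tg : Tst fun y => chi (3 / 2) y * (φ y - c) :=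
    (hc.tst (3 / 2) (by norm_num)).mul_right (hφ.sm.sub contDiff_const)
  have kg := hK' φ hφ
  set g := fun y => chi (3 / 2) y * (φ y - c) with hg
  obtain ⟨c1, i1, k1⟩ := hK i τ h0 (by linarith) g tg
  have z : ∀ y, (∀ᶠ z in 𝓝 y, s z = 0) → qd s y = 0 := fun y h =>
    (hl.flat s s s y h (smAt_of P.sm.sm y) (smAt_of P.sm.sm y)).2.2.1
  have tq : Tst (qd s) := ⟨contDiffOn_univ.1 (hl.sm s s s univ isOpen_univ P.sm.sm.contDiffOn
    P.sm.sm.contDiffOn P.sm.sm.contDiffOn).2.2.1, HasCompactSupport.intro P.sm.cs fun y h =>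
      z y (notMem_tsupport_iff_eventuallyEq.1 h)⟩
  have e0 : (∫ y, qd s y * φ y) + m * c = ∫ y, qd s y * g y := by
    rw [show m * c = -∫ y, qd s y * c by rw [integral_mul_const, P.mass]; ring, ← sub_eq_add_neg,
      ← integral_sub (tq.integrable_mul hφ) (tq.integrable.mul_const c)]
    refine integral_congr_ae (.of_forall fun y => ?_)
    rcases lt_or_ge (τ ^ 2) (ee i 1 y) with h | h
    · simp only [z y (out hn P h), zero_mul, sub_self]
    · obtain ⟨θ, k⟩ := hn.near i 1 τ y one_pos h0 (by linarith) h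
      have := norm_le_insert' y (circ i 1 θ)
      rw [hn.circ_norm i 1 θ zero_le_one] at this
      simp only [hg, hc.one (3 / 2) (by norm_num) y (by linarith)]
      ring
  set T : Set E4 := {y | ee i 1 y < (2 * τ) ^ 2} with hT
  have mT : MeasurableSet T :=
    (isOpen_lt (hn.ee_sm i 1).continuous continuous_const).measurableSet
  have fin : volume (nb 1 (2 * τ)) ≠ ⊤ := ne_top_of_le_ne_top (measure_ball_lt_top (x := (0 : E4))
    (r := 2 * 1)).ne (measure_mono fun y h => mem_ball_zero_iff.2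
      (hn.nb_norm 1 (2 * τ) one_pos (by positivity) (by linarith) y h).2)
  have sub : T ⊆ nb 1 (2 * τ) := fun y h => ⟨i, h⟩
  have finT := ne_top_of_le_ne_top fin (measure_mono sub)
  have q0 : 0 < √τ := sqrt_pos.2 h0
  have q1 : √τ ^ 2 = τ := sq_sqrt h0.le
  have root : ∀ x y : ℝ, 0 ≤ y → √(8 * |x| * τ ^ 3 * y) = √(8 * |x|) * (τ * √τ) * √y :=
    fun x y hy => by
      rw [sqrt_mul (by positivity), sqrt_mul (by positivity), pow_succ τ 2,
        sqrt_mul (sq_nonneg τ), sqrt_sq h0.le]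
  have vT : √(volume.real T) ≤ √(8 * |V|) * (τ * √τ) := by
    have := root V 1 zero_le_one
    rw [sqrt_one, mul_one, mul_one] at this
    rw [← this]
    refine sqrt_le_sqrt ((measureReal_mono sub fin).trans
      ((hV 1 (2 * τ) one_pos (by positivity) (by linarith)).trans ?_))
    nlinarith [mul_le_mul_of_nonneg_right (le_abs_self V) (pow_pos h0 3).le]
  have om : ∀ y, D2 s y + D1 s y ^ 2 ≤ T.indicator (fun _ => 2 * (C * √τ) / τ ^ 2) y := fun y => by
    by_cases h : y ∈ T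
    · rw [indicator_of_mem h]
      exact om_le h0 h2 P y
    · obtain ⟨a, b⟩ := D_zero hc (out hn P (y := y) (by
        nlinarith [not_lt.1 (show ¬ee i 1 y < (2 * τ) ^ 2 from h), sq_pos_of_pos h0]))
      simp [indicator_of_notMem h, a, b]
  have bd := fun y => hB s y (smAt_of P.sm.sm y) ((P.d0 y).trans h2)
  have B0 : 0 ≤ B := (sqrt_nonneg _).trans (bd 0).1
  obtain ⟨j1, l1⟩ := cs1 finT c1 i1.integrableOn
  obtain ⟨j2, l2⟩ := cs1 finT tg.continuous.abs (by simpa using tg.integrable_sq.integrableOn)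
  have d0 : 0 ≤ C * √τ := by positivity
  have n1 : |∫ y, dens (Gs s) y * scal (Gs s) y * lap (Gs s) g y| ≤
      B ^ 3 * 4 * C * √(8 * |V|) * K * √(eN 2 g) := by
    calc _ ≤ ∫ y, T.indicator (fun y => B ^ 3 * 4 * (C * √τ) / τ ^ 2 * aa i τ g y) y := by
          refine abs_int ((integrable_indicator_iff mT).2 (j1.const_mul _)) fun y => ?_
          obtain ⟨b1, b2, -, -, b3⟩ := bd y
          have w0 : 0 ≤ wg i τ y := sqrt_nonneg _
          have p1 := D1_nn g y
          have p2 := D2_nn g y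
          have a := (prof_wg hc hn h0 h2 P y).1
          have b4 : |lap (Gs s) g y| ≤ B * (2 * aa i τ g y) :=
            (b3 g (smAt_of tg.sm y)).trans (mul_le_mul_of_nonneg_left (by
              have : D1 s y ≤ 2 * wg i τ y := by nlinarith
              unfold aa
              nlinarith) B0)
          have b5 := b2.trans (mul_le_mul_of_nonneg_left (om y) B0)
          rw [abs_mul, abs_mul, abs_of_nonneg (show 0 ≤ dens (Gs s) y from
            sqrt_nonneg _)]
          refine (mul_le_mul (mul_le_mul b1 b5 (abs_nonneg _) B0) b4 (abs_nonneg _)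
            (mul_nonneg B0 ((abs_nonneg _).trans b5))).trans_eq ?_
          by_cases h : y ∈ T
          · simp only [indicator_of_mem h]
            ring
          · simp [indicator_of_notMem h]
      _ ≤ B ^ 3 * 4 * (C * √τ) / τ ^ 2 * (√(8 * |V|) * (τ * √τ) * (K * √(eN 2 g))) := by
          rw [integral_indicator mT, integral_const_mul]
          gcongr
          exact l1.trans (mul_le_mul vT ((sqrt_le_sqrt (setIntegral_le_integral i1
            (.of_forall fun y => sq_nonneg _))).trans k1) (sqrt_nonneg _) (by positivity))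
      _ = _ := by
          field_simp
          rw [q1]
  have n2 : |∫ y, sg s y * g y| ≤ B * 4 * C ^ 2 * √(8 * |V|) * √(8 * |H|) * √(eN 2 g) := by
    calc _ ≤ ∫ y, T.indicator (fun y => B * (2 * (C * √τ) / τ ^ 2) ^ 2 * |g y|) y := by
          refine abs_int ((integrable_indicator_iff mT).2 (j2.const_mul _)) fun y => ?_
          have b := (bd y).2.2.1.trans (mul_le_mul_of_nonneg_left (pow_le_pow_left₀
            (add_nonneg (D2_nn s y) (sq_nonneg _)) (om y) 2) B0)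
          rw [abs_mul]
          refine (mul_le_mul_of_nonneg_right b (abs_nonneg _)).trans_eq ?_
          by_cases h : y ∈ T
          · simp only [indicator_of_mem h]
          · simp [indicator_of_notMem h]
      _ ≤ B * (2 * (C * √τ) / τ ^ 2) ^ 2 *
          (√(8 * |V|) * (τ * √τ) * (√(8 * |H|) * (τ * √τ) * √(eN 2 g))) := by
          rw [integral_indicator mT, integral_const_mul]
          gcongr
          refine l2.trans (mul_le_mul vT ?_ (sqrt_nonneg _) (by positivity))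
          rw [← root H _ (eN_nonneg _ _)]
          simp only [sq_abs]
          refine sqrt_le_sqrt ((hH i (2 * τ) (by positivity) (by linarith) g tg).2.trans ?_)
          nlinarith [mul_le_mul_of_nonneg_right (le_abs_self H)
            (mul_nonneg (pow_pos h0 3).le (eN_nonneg 2 g))]
      _ = _ := by
          field_simp
          rw [show √τ ^ 4 = τ ^ 2 by rw [← q1, sqrt_sq q0.le]; ring]
          ring
  rw [e0, hq.weak s g P.sm tg.sm]
  have n3 : 0 ≤ B ^ 3 * 4 * C * √(8 * |V|) * K + B * 4 * C ^ 2 * √(8 * |V|) * √(8 * |H|) := by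
    positivity
  have n4 := mul_le_mul_of_nonneg_left kg n3
  rw [← mul_assoc] at n4
  refine le_trans ?_ n4
  rw [abs_le] at n1 n2 ⊢
  constructor <;> linarith [n1.1, n1.2, n2.1, n2.2]

end Pool.Agent.MP_417fa2_gt.Q2
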