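import Pool.Agent.MP_417fa2_gt.Q2.ASpec
import Pool.Agent.MP_417fa2_gt.Q2.U4

/-! Flattening of the product metric near the fixed points. -/

open scoped Manifold ContDiff Topology
open MeasureTheory Set Metric Real Filter

namespace Pool.Agent.MP_417fa2_gt.Q2

open DE (lp)
open U4

namespace A13

/-- A function cut off near the origin. -/
noncomputable def ct (R : ℝ) (f : E4 → ℝ) (y : E4) : ℝ := (1 - chi R y) * f y

theorem D_sub (f : E4 → ℝ) (y : E4) :
    D1 (fun z => 1 - f z) y = D1 f y ∧ D2 (fun z => 1 - f z) y = D2 f y := by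
  have e : ∀ i, pd i (fun z => 1 - f z) = fun z => -pd i f z := fun i => funext fun z => by
    simp [pd, fderiv_const_sub]
  have e2 : ∀ i j, pd i (fun z => -pd j f z) y = -pd i (pd j f) y := fun i j => by
    rw [pd, fderiv_fun_neg]
    rfl
  simp [D1, D2, e, e2]

theorem abs_int' {T : Set E4} (mT : MeasurableSet T) {f g : E4 → ℝ} (hg : IntegrableOn g T)
    (h : ∀ y ∈ T, |f y| ≤ g y) : |∫ y in T, f y| ≤ ∫ y in T, g y :=
  abs_integral_le_integral_abs.trans (integral_mono_of_nonneg (.of_forall fun _ => abs_nonneg _) hg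
    ((ae_restrict_mem mT).mono h))

theorem s0_sm (ho : CoFacts) : ContDiffOn ℝ ∞ s0 (ball 0 1) := ho.f0_sm.sub ho.h0_sm

variable {R : ℝ}

theorem ct_sm (hc : ChiFacts) (h0 : 0 < R) {f : E4 → ℝ} (hf : ContDiffOn ℝ ∞ f (ball 0 1)) :
    ContDiffOn ℝ ∞ (ct R f) (ball 0 1) :=
  (contDiffOn_const.sub (hc.tst R h0).sm.contDiffOn).mul hf

theorem ct_far (hc : ChiFacts) (h0 : 0 < R) (f : E4 → ℝ) {y : E4} (h : 2 * R < ‖y‖) :
    ct R f =ᶠ[𝓝 y] f :=
  mem_of_superset ((isOpen_lt continuous_const continuous_norm).mem_nhds h)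
    fun z (hz : 2 * R < ‖z‖) => by simp [ct, hc.zero R h0 z hz.le]

/-- The bounds on the conformal class near the origin. -/
def Bd (C R : ℝ) (σ : E4 → ℝ) : Prop := ∀ y : E4, ‖y‖ ≤ 2 * R →
  SmAt σ y ∧ |σ y| ≤ 1 ∧ |σ y| ≤ C * R ^ 2 ∧ D1 σ y ≤ C * R ∧ D2 σ y ≤ C

theorem bd (ho : CoFacts) (hc : ChiFacts) : ∃ C : ℝ, 0 ≤ C ∧ ∀ R : ℝ, 0 < R → R ≤ 1 / 100 →
    Bd C R s0 ∧ Bd C R (ct R s0) := by
  obtain ⟨A, hA⟩ := ho.s0_bd
  obtain ⟨B, hB⟩ := hc.bd
  have A0 : 0 ≤ A := (D2_nn s0 0).trans (hA 0 (by simp [r0])).2.2.2.2.2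
  have B0 : 0 ≤ B := by simpa using (D1_nn _ 0).trans (hB 1 one_pos 0).1
  have AB := mul_nonneg A0 B0
  refine ⟨4 * A + 8 * (A * B), by positivity, fun R h0 h1 => ?_⟩
  have key : ∀ y : E4, ‖y‖ ≤ 2 * R → y ∈ ball (0 : E4) 1 ∧ |s0 y| ≤ 1 ∧ |s0 y| ≤ 4 * A * R ^ 2 ∧
      D1 s0 y ≤ 2 * A * R ∧ D2 s0 y ≤ A := fun y hy => by
    obtain ⟨-, -, a1, a2, a3, a4⟩ := hA y (by rw [r0]; linarith)
    have := mul_le_mul_of_nonneg_left (pow_le_pow_left₀ (norm_nonneg y) hy 2) A0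
    have := mul_le_mul_of_nonneg_left hy A0
    exact ⟨mem_ball_zero_iff.2 (by linarith), by linarith, by linarith, by linarith, a4⟩
  have r1 := mul_nonneg A0 h0.le
  have r2 := mul_nonneg AB h0.le
  have r3 := mul_nonneg AB (sq_nonneg R)
  constructor <;> intro y hy <;> obtain ⟨m, a1, a2, a3, a4⟩ := key y hy
  · exact ⟨smAt_of_on isOpen_ball m (s0_sm ho), a1, by linarith, by linarith, by linarith⟩
  · have t : ContDiffAt ℝ ∞ (fun z => 1 - chi R z) y :=
      contDiffAt_const.sub (hc.tst R h0).sm.contDiffAt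
    have t0 := (s0_sm ho).contDiffAt (isOpen_ball.mem_nhds m)
    have m1 := hc.D1_mul _ _ y t t0
    have m2 := hc.D2_mul _ _ y t t0
    obtain ⟨b1, b2⟩ := hB R h0 y
    have x : |1 - chi R y| ≤ 1 := abs_le.2 ⟨by linarith [hc.le_one R y], by linarith [hc.nonneg R y]⟩
    rw [(D_sub _ y).1] at m1 m2
    rw [(D_sub _ y).2] at m2
    have c0 : |ct R s0 y| ≤ |s0 y| := by
      rw [ct, abs_mul]
      exact mul_le_of_le_one_left (abs_nonneg _) x
    have c1 := mul_le_of_le_one_left (D1_nn s0 y) x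
    have c2 := mul_le_of_le_one_left (D2_nn s0 y) x
    have c3 := mul_le_mul b1 a2 (abs_nonneg _) (by positivity)
    have c4 := mul_le_mul b1 a3 (D1_nn s0 y) (by positivity)
    have c5 := mul_le_mul b2 a2 (abs_nonneg _) (by positivity)
    rw [show B / R * (4 * A * R ^ 2) = 4 * (A * B * R) by field_simp] at c3
    rw [show B / R * (2 * A * R) = 2 * (A * B) by field_simp] at c4
    rw [show B / R ^ 2 * (4 * A * R ^ 2) = 4 * (A * B) by field_simp] at c5
    exact ⟨smAt_of_on isOpen_ball m (ct_sm hc h0 (s0_sm ho)), c0.trans a1, by linarith,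
      m1.trans (by linarith), m2.trans (by linarith)⟩

theorem vol_cb (h0 : 0 < R) : volume.real (closedBall (0 : E4) (2 * R)) =
    (4 * R ^ 2) ^ 2 * volume.real (ball (0 : E4) 1) := by
  rw [Measure.addHaar_real_closedBall _ _ (by positivity), finrank_euclideanSpace_fin]
  ring

theorem form (ho : CoFacts) (hc : ChiFacts) (hp : PertStmt) : ∃ K : ℝ, 0 ≤ K ∧ ∀ R : ℝ, 0 < R →
    R ≤ 1 / 100 → ∀ φ ψ, Tst φ → Tst ψ → (∀ y : E4, ‖y‖ ≤ 2 * R → ∃ c, ∀ᶠ z in 𝓝 y, φ z = ψ z + c) →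
    |∫ y in closedBall (0 : E4) (2 * R), (bform (Gs (ct R s0)) φ φ y - bform (Gs s0) φ φ y)| ≤
      K * R ^ 2 * eN 2 ψ := by
  obtain ⟨C, C0, hC⟩ := bd ho hc
  obtain ⟨B, hB⟩ := hp
  obtain ⟨L, hL⟩ := hc.l4
  refine ⟨2 * |B| * (2 * C + (2 * C + C ^ 2) * (4 * √(volume.real (ball (0 : E4) 1)) * √|L|)),
    by positivity, fun R h0 h1 φ ψ hφ hψ hn => ?_⟩
  have pt : ∀ σ, Bd C R σ → ∀ y : E4, ‖y‖ ≤ 2 * R → |bform (Gs σ) φ φ y - lp φ y * lp φ y| ≤
      |B| * (2 * C * R ^ 2 * D2 ψ y ^ 2 + (2 * C + C ^ 2) * D1 ψ y ^ 2) := fun σ hσ y hy => by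
    obtain ⟨a0, a1, a2, a3, a4⟩ := hσ y hy
    obtain ⟨c, k⟩ := hn y hy
    obtain ⟨e1, e2, -⟩ := hc.D_congr φ ψ c y k
    have p1 := D1_nn ψ y
    have p2 := D2_nn ψ y
    have s1 := D1_nn σ y
    have s2 := D2_nn σ y
    have a5 : D1 σ y ≤ C := a3.trans (mul_le_of_le_one_right C0 (by linarith))
    have b := hB σ φ φ y a0 (smAt_of hφ.sm y) (smAt_of hφ.sm y) a1
    rw [e1, e2] at b
    calc _ ≤ _ := b
      _ ≤ |B| * _ := mul_le_mul_of_nonneg_right (le_abs_self B) (by positivity)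
      _ ≤ |B| * (C * R ^ 2 * D2 ψ y * D2 ψ y + C * R * (D1 ψ y * D2 ψ y + D2 ψ y * D1 ψ y) +
          (C + C ^ 2) * D1 ψ y * D1 ψ y) := by gcongr
      _ ≤ _ := mul_le_mul_of_nonneg_left (by
          nlinarith [mul_nonneg C0 (sq_nonneg (R * D2 ψ y - D1 ψ y))]) (abs_nonneg B)
  have i1 := (int_D1 hψ).integrableOn (s := closedBall (0 : E4) (2 * R))
  have i2 := (int_D2 hψ).integrableOn (s := closedBall (0 : E4) (2 * R))
  have e0 := eN_nonneg 2 ψ
  have k2 : ∫ y in closedBall (0 : E4) (2 * R), D2 ψ y ^ 2 ≤ eN 2 ψ := by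
    have e4 : 0 ≤ ∫ y, ψ y ^ 2 := integral_nonneg fun y => sq_nonneg _
    have e5 : 0 ≤ ∫ y, D1 ψ y ^ 2 := integral_nonneg fun y => sq_nonneg _
    linarith [setIntegral_le_integral (s := closedBall (0 : E4) (2 * R)) (int_D2 hψ)
      (.of_forall fun y => sq_nonneg _), hc.eN2 ψ hψ]
  have k1 : ∫ y in closedBall (0 : E4) (2 * R), D1 ψ y ^ 2 ≤
      4 * R ^ 2 * √(volume.real (ball (0 : E4) 1)) * (√|L| * eN 2 ψ) := by
    refine (cs1 (f := fun y => D1 ψ y ^ 2) measure_closedBall_lt_top.ne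
      ((hc.D_cont ψ hψ.sm).1.pow 2) (int_D4 hψ).integrableOn).2.trans ?_
    rw [vol_cb h0, sqrt_mul (sq_nonneg _), sqrt_sq (by positivity)]
    gcongr
    rw [← sqrt_sq e0, ← sqrt_mul (abs_nonneg L)]
    refine sqrt_le_sqrt ((setIntegral_le_integral (int_D4 hψ)
      (.of_forall fun y => sq_nonneg _)).trans ?_)
    simp only [← pow_mul]
    exact (hL ψ hψ).trans (mul_le_mul_of_nonneg_right (le_abs_self L) (sq_nonneg _))
  calc _ ≤ ∫ y in closedBall (0 : E4) (2 * R),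
        2 * |B| * (2 * C * R ^ 2 * D2 ψ y ^ 2 + (2 * C + C ^ 2) * D1 ψ y ^ 2) := by
        refine abs_int' measurableSet_closedBall
          ((int_add (i2.const_mul _) (i1.const_mul _)).const_mul _) fun y hy => ?_
        have a := abs_le.1 (pt _ (hC R h0 h1).1 y (mem_closedBall_zero_iff.1 hy))
        have b := abs_le.1 (pt _ (hC R h0 h1).2 y (mem_closedBall_zero_iff.1 hy))
        exact abs_le.2 ⟨by linarith [a.2, b.1], by linarith [a.1, b.2]⟩
    _ ≤ 2 * |B| * (2 * C * R ^ 2 * eN 2 ψ + (2 * C + C ^ 2) *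
        (4 * R ^ 2 * √(volume.real (ball (0 : E4) 1)) * (√|L| * eN 2 ψ))) := by
        rw [integral_const_mul, integral_add (i2.const_mul _) (i1.const_mul _), integral_const_mul,
          integral_const_mul]
        gcongr
    _ = _ := by ring

theorem pp_zero (ho : CoFacts) (hc : ChiFacts) (hl : LocFacts) (h0' : 0 < R) (h1 : R ≤ 1 / 100) :
    ∫ y in closedBall (0 : E4) (2 * R), (pp (ct R s0) (ct R h0) y - pp s0 h0 y) = 0 := by
  have p1 : (0 : ℝ) < r1 := by norm_num [r1]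
  have t := hc.tst r1 p1
  have sub : ball (0 : E4) (1 / 2) ⊆ ball 0 1 := ball_subset_ball (by norm_num)
  have ts : tsupport (chi r1) ⊆ ball (0 : E4) (1 / 2) :=
    (closure_minimal (t := closedBall 0 (2 * r1)) (fun y (hy : chi r1 y ≠ 0) =>
      mem_closedBall_zero_iff.2 (not_lt.1 fun k => hy (hc.zero r1 p1 y k.le)))
      isClosed_closedBall).trans (closedBall_subset_ball (by norm_num [r1]))
  have a1 := ct_sm hc h0' (s0_sm ho)
  have a2 := ct_sm hc h0' ho.h0_sm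
  have int : ∀ s h : E4 → ℝ, ContDiffOn ℝ ∞ s (ball 0 1) → ContDiffOn ℝ ∞ h (ball 0 1) →
      IntegrableOn (fun y => chi r1 y * pp s h y) (ball (0 : E4) (1 / 2)) := fun s h hs hh =>
    (((t.continuous.continuousOn.mul (hl.sm s h h _ isOpen_ball hs hh hh).2.1.continuousOn).mono
      (closedBall_subset_ball (by norm_num))).integrableOn_compact
        (isCompact_closedBall 0 (1 / 2))).mono_set ball_subset_closedBall
  have z : ∀ s h : E4 → ℝ, ContDiffOn ℝ ∞ s (ball 0 1) → ContDiffOn ℝ ∞ h (ball 0 1) →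
      ∀ y : E4, ‖y‖ < r1 → bform (Gs s) (chi r1) h y = 0 := fun s h hs hh y hy => by
    have m : y ∈ ball (0 : E4) 1 := mem_ball_zero_iff.2 (hy.trans (by norm_num [r1]))
    have b1 := smAt_of_on isOpen_ball m hs
    have b2 := smAt_of_on isOpen_ball m hh
    have ev : chi r1 =ᶠ[𝓝 y] fun z => 0 * h z + 0 * h z + 1 :=
      mem_of_superset ((isOpen_lt continuous_norm continuous_const).mem_nhds hy)
        fun z (hz : ‖z‖ < r1) => by simp [hc.one r1 p1 z hz.le]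
    rw [hl.symm s _ _ y b1, (hl.congr s s h h _ _ y .rfl .rfl ev).1, hl.lin s h h h 0 0 1 y b1 b2 b2]
    ring
  calc _ = ∫ y in closedBall (0 : E4) (2 * R),
        (chi r1 y * pp (ct R s0) (ct R h0) y - chi r1 y * pp s0 h0 y) :=
        setIntegral_congr_fun measurableSet_closedBall fun y hy => by
          simp only [hc.one r1 p1 y ((mem_closedBall_zero_iff.1 hy).trans (by rw [r1]; linarith)),
            one_mul]
    _ = ∫ y in ball (0 : E4) (1 / 2),
        (chi r1 y * pp (ct R s0) (ct R h0) y - chi r1 y * pp s0 h0 y) :=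
        (setIntegral_eq_of_subset_of_forall_sdiff_eq_zero measurableSet_ball
          (closedBall_subset_ball (by linarith)) fun y hy => by
            have k := not_le.1 (mt mem_closedBall_zero_iff.2 hy.2)
            rw [(hl.congr _ _ _ _ h0 h0 y (ct_far hc h0' s0 k) (ct_far hc h0' h0 k) .rfl).2.1,
              sub_self]).symm
    _ = 0 := by
        rw [integral_sub (int _ _ a1 a2) (int _ _ (s0_sm ho) ho.h0_sm),
          hl.weak _ _ _ _ isOpen_ball (a1.mono sub) t ts (a2.mono sub),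
          hl.weak _ _ _ _ isOpen_ball ((s0_sm ho).mono sub) t ts (ho.h0_sm.mono sub), sub_eq_zero]
        refine setIntegral_congr_fun measurableSet_ball fun y _ => ?_
        rcases lt_or_ge (2 * R) ‖y‖ with k | k
        · exact (hl.congr _ _ _ _ _ _ y (ct_far hc h0' s0 k) .rfl (ct_far hc h0' h0 k)).1
        · have k' : ‖y‖ < r1 := k.trans_lt (by rw [r1]; linarith)
          rw [z _ _ a1 a2 y k', z _ _ (s0_sm ho) ho.h0_sm y k']

theorem mass (ho : CoFacts) (hc : ChiFacts) (hl : LocFacts) (hq : QdFacts) : ∃ K : ℝ, 0 ≤ K ∧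
    ∀ R : ℝ, 0 < R → R ≤ 1 / 100 → |∫ y in closedBall (0 : E4) (2 * R), (qd (ct R s0) y - qd s0 y +
      (pp (ct R s0) (ct R h0) y - pp s0 h0 y) / 2)| ≤ K * R ^ 2 := by
  obtain ⟨C, C0, hC⟩ := bd ho hc
  obtain ⟨B, hB⟩ := hq.bd
  refine ⟨2 * (|B| * (C + C ^ 2) ^ 2) * volume.real (ball (0 : E4) 1), by positivity,
    fun R h0' h1 => ?_⟩
  have sub : closedBall (0 : E4) (2 * R) ⊆ ball 0 1 := closedBall_subset_ball (by linarith)
  have a1 := ct_sm hc h0' (s0_sm ho)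
  have a2 := ct_sm hc h0' ho.h0_sm
  obtain ⟨-, b1, b2, -⟩ := hl.sm _ _ _ _ isOpen_ball a1 a2 a2
  obtain ⟨-, c1, c2, -⟩ := hl.sm _ _ _ _ isOpen_ball (s0_sm ho) ho.h0_sm ho.h0_sm
  have i : ∀ f : E4 → ℝ, ContDiffOn ℝ ∞ f (ball 0 1) → IntegrableOn f (closedBall 0 (2 * R)) :=
    fun f hf => (hf.continuousOn.mono sub).integrableOn_compact (isCompact_closedBall _ _)
  have pt : ∀ σ, Bd C R σ → ∀ y : E4, ‖y‖ ≤ 2 * R → |sg σ y| ≤ |B| * (C + C ^ 2) ^ 2 :=
    fun σ hσ y hy => by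
      obtain ⟨a0, a1, -, a3, a4⟩ := hσ y hy
      have a5 : D1 σ y ≤ C := a3.trans (mul_le_of_le_one_right C0 (by linarith))
      have s1 := D1_nn σ y
      have s2 := D2_nn σ y
      refine (hB σ y a0 a1).2.2.1.trans ?_
      gcongr
      exact le_abs_self B
  have k := abs_int' measurableSet_closedBall (f := fun y => sg (ct R s0) y - sg s0 y)
    (integrableOn_const (C := 2 * (|B| * (C + C ^ 2) ^ 2)) measure_closedBall_lt_top.ne)
    fun y (hy : y ∈ closedBall (0 : E4) (2 * R)) => by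
      have a := abs_le.1 (pt _ (hC R h0' h1).1 y (mem_closedBall_zero_iff.1 hy))
      have b := abs_le.1 (pt _ (hC R h0' h1).2 y (mem_closedBall_zero_iff.1 hy))
      exact abs_le.2 ⟨by linarith [a.2, b.1], by linarith [a.1, b.2]⟩
  rw [setIntegral_const, vol_cb h0', smul_eq_mul] at k
  rw [integral_add (i _ (b2.sub c2)) ((i _ (b1.sub c1)).div_const 2), integral_div,
    pp_zero ho hc hl h0' h1, hq.diff _ _ _ _ isOpen_ball (isCompact_closedBall _ _) sub a1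
      (s0_sm ho) fun y _ hy => (ct_far hc h0' s0
        (not_le.1 (mt mem_closedBall_zero_iff.2 hy))).self_of_nhds, zero_div, add_zero, abs_mul]
  have p : 0 ≤ 2 * (|B| * (C + C ^ 2) ^ 2) * volume.real (ball (0 : E4) 1) * R ^ 2 := by positivity
  have q : R ^ 2 ≤ 1 / 2 := by nlinarith
  rw [abs_neg, abs_of_pos (by norm_num : (0 : ℝ) < 1 / 12)]
  nlinarith [mul_le_mul_of_nonneg_left q p]

end A13

open A13 in
theorem flatStmt (ho : CoFacts) (hc : ChiFacts) (hp : PertStmt) (hl : LocFacts) (hq : QdFacts)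
    (hB : BStmt) (hM : ModifStmt) (hC : ChStmt) (hF : FHStmt) : FlatStmt := by
  intro M _ _ _ _ _ _ _ X
  obtain ⟨K, K0, hK⟩ := form ho hc hp
  obtain ⟨K', K0', hK'⟩ := mass ho hc hl hq
  obtain ⟨hz, C, C0, hC⟩ := hC M X
  have p1 : (0 : ℝ) < r1 := by norm_num [r1]
  have N0 : (0 : ℝ) < X.fix.card := Nat.cast_pos.2 X.hJ.ne.card_pos
  obtain ⟨D, hD⟩ : ∃ D, D = ((qf X.g fun _ => 1) - 8 * π ^ 2) / X.fix.card := ⟨_, rfl⟩
  have D0 : 0 < D := hD ▸ div_pos (sub_pos.2 X.mass) N0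
  refine ⟨D / 2, 2 * D, half_pos D0, fun κ hκ => ?_⟩
  obtain ⟨R, R0, R1, R2, R3⟩ : ∃ R : ℝ, 0 < R ∧ R ≤ 1 / 100 ∧ X.fix.card * K * C * R ^ 2 ≤ κ ∧
      K' * R ^ 2 ≤ D / 2 := by
    have t : ∀ a b : ℝ, 0 < b → ∀ᶠ R in 𝓝[>] (0 : ℝ), a * R ^ 2 ≤ b := fun a b hb =>
      nhdsWithin_le_nhds (Tendsto.eventually_le_const (by simpa using hb)
        (show ContinuousAt (fun R : ℝ => a * R ^ 2) 0 by fun_prop))
    have u : ∀ᶠ R in 𝓝[>] (0 : ℝ), R ≤ 1 / 100 := nhdsWithin_le_nhds (Iic_mem_nhds (by norm_num))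
    exact ((eventually_mem_nhdsWithin (s := Ioi (0 : ℝ))).and
      (u.and ((t _ _ hκ).and (t _ _ (half_pos D0))))).exists
  obtain ⟨f1, f2, -, -, f3, f4⟩ := hF M X R (fun _ => 0) R0 R1 contDiff_const (fun _ _ _ _ => rfl)
    fun _ _ => rfl
  obtain ⟨g, hg⟩ := X.ex _ _ f1 f2
  have s0' : Smooth fun _ : M => (0 : ℝ) := contMDiff_const
  obtain ⟨m1, m2⟩ := hM M X X.g g _ _ _ _ (2 * R) (by positivity) (by rw [r1]; linarith) s0' s0'
    f1 f2 X.blk hg fun x hx => (f3 x fun p hp => (hx p hp).le).imp Eq.symm Eq.symm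
  have e1 : ∀ p : M, sOf (fun _ => 0) (fun _ => 0) p = s0 := fun p => funext fun y => by
    simp [sOf, s0]
  have e2 : ∀ p : M, hOf (fun _ => 0) p = h0 := fun p => funext fun y => by simp [hOf]
  have near : ∀ y ∈ closedBall (0 : E4) (2 * R), ∀ᶠ z in 𝓝 y, ‖z‖ ≤ r1 := fun y hy =>
    continuous_norm.continuousAt.eventually_le_const
      ((mem_closedBall_zero_iff.1 hy).trans_lt (by rw [r1]; linarith))
  have e3 : ∀ p ∈ X.fix, ∀ y ∈ closedBall (0 : E4) (2 * R),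
      sOf (X.FF R fun _ => 0) (X.HH R) p =ᶠ[𝓝 y] ct R s0 ∧ hOf (X.HH R) p =ᶠ[𝓝 y] ct R h0 :=
    fun p hp y hy => ⟨(near y hy).mono fun z hz => by
      simpa [ct] using (f4 p hp z (by linarith)).1,
      (near y hy).mono fun z hz => (f4 p hp z (by linarith)).2⟩
  have km : |(qf g fun _ => 1) - qf X.g fun _ => 1| ≤ X.fix.card * (D / 2) := by
    rw [m2 _ contMDiff_const, ← nsmul_eq_mul]
    refine (Finset.abs_sum_le_sum_abs _ _).trans (Finset.sum_le_card_nsmul _ _ _ fun p hp => ?_)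
    refine le_trans (le_of_eq ?_) ((hK' R R0 R1).trans R3)
    refine congrArg abs (setIntegral_congr_fun measurableSet_closedBall fun y hy => ?_)
    obtain ⟨-, a, b⟩ := hl.congr _ _ _ _ h0 h0 y (e3 p hp y hy).1 (e3 p hp y hy).2 .rfl
    simp only [e1, e2, a, b, loc, hc.one r1 p1 y (near y hy).self_of_nhds, mul_one]
  refine ⟨R, ((qf g fun _ => 1) - 8 * π ^ 2) / X.fix.card, R0, R1, ?_, ?_, g, hg, fun φ hφ => ?_,
    by field_simp; ring⟩
  · rw [eq_div_iff N0.ne'] at hD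
    rw [le_div_iff₀ N0]
    linarith [(abs_le.1 km).1]
  · rw [eq_div_iff N0.ne'] at hD
    rw [div_le_iff₀ N0]
    linarith [(abs_le.1 km).2, mul_pos D0 N0]
  · obtain ⟨z1, z2, -⟩ := hz φ hφ
    rw [show Bf g φ φ - X.nn φ = _ from m1 φ φ hφ hφ]
    calc _ ≤ _ := Finset.abs_sum_le_sum_abs _ _
      _ ≤ X.fix.card • (K * R ^ 2 * (C * X.nn φ)) := by
          refine Finset.sum_le_card_nsmul _ _ _ fun p hp => ?_
          refine le_trans (le_of_eq ?_) ((hK R R0 R1 _ _ ((hB M X).loc_tst p φ hφ)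
            ((hB M X).loc_tst p _ z1) fun y hy => ⟨⨍ z, φ z ∂X.μ, ?_⟩).trans
            (mul_le_mul_of_nonneg_left ((hC φ hφ).1 p) (by positivity)))
          · refine congrArg abs (setIntegral_congr_fun measurableSet_closedBall fun y hy => ?_)
            simp only [e1, (hl.congr _ _ _ _ _ _ y (e3 p hp y hy).1 .rfl .rfl).1]
          · exact (near y (mem_closedBall_zero_iff.2 hy)).mono fun z hz => by
              simp [loc, L0.z, hc.one r1 p1 z hz]
      _ ≤ _ := by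
          rw [nsmul_eq_mul]
          nlinarith [mul_le_mul_of_nonneg_right R2 z2]

end Pool.Agent.MP_417fa2_gt.Q2
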