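import Pool.Agent.MP_417fa2_gt.Q2.ASpec

/-! A15. Weights and densities of level two. -/

open scoped Manifold ContDiff Topology
open MeasureTheory Set Metric Real Filter

namespace Pool.Agent.MP_417fa2_gt.Q2

namespace A15

theorem rh_neg (y : E4) : rh (-y) = rh y := by
  simp [rh, f0, h0, zsq, wsq]

theorem tst_rh (hc : CoFacts) {F : E4 → ℝ} (hF : Tst F) (h0' : ∀ y, 1 / 2 ≤ ‖y‖ → F y = 0) :
    Tst fun y => F y * rh y := by
  refine ⟨contDiff_iff_contDiffAt.2 fun y => ?_, hF.cs.mul_right⟩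
  by_cases hy : ‖y‖ < 1
  · have hn : ball (0 : E4) 1 ∈ 𝓝 y := isOpen_ball.mem_nhds (mem_ball_zero_iff.2 hy)
    exact hF.sm.contDiffAt.mul (((contDiffAt_const.mul (hc.f0_sm.contDiffAt hn)).add
      (contDiffAt_const.mul (hc.h0_sm.contDiffAt hn))).exp)
  · have hn : {z : E4 | 1 / 2 < ‖z‖} ∈ 𝓝 y :=
      (isOpen_lt continuous_const continuous_norm).mem_nhds (by
        show 1 / 2 < ‖y‖
        linarith [not_lt.1 hy])
    refine (contDiffAt_const (c := (0 : ℝ))).congr_of_eventuallyEq ?_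
    filter_upwards [hn] with z hz
    rw [h0' z (le_of_lt hz), zero_mul]

theorem KK_rad (hc : CoFacts) (c t ε : ℝ) : Rad fun y => c * KK t ε y := by
  intro y y' h1 h2
  have h : ‖y‖ ^ 2 = ‖y'‖ ^ 2 := by rw [hc.nsq, hc.nsq, h1, h2]
  simp only [KK, chi, gam, h]

theorem KK_le (hx : ChiFacts) (t : ℝ) {r : ℝ} (hr : 0 < r) (hL : 0 ≤ log r⁻¹) (y : E4) :
    KK t r y ≤ 1 / (8 * π ^ 2) * log r⁻¹ := by
  have h1 : log (r ^ 2) ≤ log (‖y‖ ^ 2 + r ^ 2) :=
    log_le_log (by positivity) (by nlinarith [sq_nonneg ‖y‖])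
  have hp : 0 < 1 / (16 * π ^ 2) := by positivity
  have h2 : gam r y ≤ 1 / (8 * π ^ 2) * log r⁻¹ := by
    have e : 1 / (8 * π ^ 2) = 2 * (1 / (16 * π ^ 2)) := by
      field_simp
      norm_num
    rw [log_pow] at h1
    rw [gam, log_inv, e]
    push_cast at h1
    nlinarith [mul_le_mul_of_nonneg_left h1 hp.le]
  have h3 : 0 ≤ 1 / (8 * π ^ 2) * log r⁻¹ := by positivity
  calc KK t r y ≤ chi t y * (1 / (8 * π ^ 2) * log r⁻¹) :=
        mul_le_mul_of_nonneg_left h2 (hx.nonneg t y)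
    _ ≤ _ := mul_le_of_le_one_left h3 (hx.le_one t y)

variable {M : Type} [TopologicalSpace M] [CompactSpace M] [ChartedSpace E4 M]
  [IsManifold (𝓡 4) ∞ M] [MeasurableSpace M] [BorelSpace M] {X : L0 M} {Y : L1 X}

omit [CompactSpace M] in
theorem ball_meas (X : L0 M) (y : M) (t : ℝ) : MeasurableSet {x | X.d y x < t} :=
  (isOpen_lt (X.hd.cont.comp (continuous_const.prodMk continuous_id))
    continuous_const).measurableSet

theorem int_cont (V : VFacts X) {f : M → ℝ} (hf : Continuous f) : Integrable f X.μ := by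
  haveI := V.fin
  exact hf.integrable_of_hasCompactSupport (HasCompactSupport.of_compactSpace f)

omit [CompactSpace M] in
theorem mass_J (V : VFacts X) {ρ : M → ℝ} (hρ : Continuous ρ) (hJ : ∀ x, ρ (X.J x) = ρ x) (y : M)
    (t : ℝ) : ∫ x in {x | X.d (X.J y) x < t}, ρ x ∂X.μ = ∫ x in {x | X.d y x < t}, ρ x ∂X.μ := by
  rw [← integral_indicator (ball_meas X _ t), ← integral_indicator (ball_meas X _ t)]
  have h := integral_map (μ := X.μ) V.pres.measurable.aemeasurable
    (f := {x | X.d (X.J y) x < t}.indicator ρ)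
    (hρ.measurable.indicator (ball_meas X _ t)).aestronglyMeasurable
  rw [V.pres.map_eq] at h
  rw [h]
  refine integral_congr_ae (Eventually.of_forall fun x => ?_)
  simp only [indicator, mem_ofPred_eq, X.hJ.iso, hJ]

theorem mass_le (V : VFacts X) {ρ : M → ℝ} (hρ : Continuous ρ) (hJ : ∀ x, ρ (X.J x) = ρ x)
    (h0' : ∀ x, 0 ≤ ρ x) (h1 : ∫ x, ρ x ∂X.μ = 1) (y : M) (t : ℝ) (n : ℕ)
    (hs : ∀ k l : Fin n, k ≠ l → 2 * t ≤ X.d (X.J^[k] y) (X.J^[l] y)) :
    n * ∫ x in {x | X.d y x < t}, ρ x ∂X.μ ≤ 1 := by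
  have hi := int_cont V hρ
  have e : ∀ k : ℕ, ∫ x in {x | X.d (X.J^[k] y) x < t}, ρ x ∂X.μ =
      ∫ x in {x | X.d y x < t}, ρ x ∂X.μ := by
    intro k
    induction k with
    | zero => rfl
    | succ k ih => rw [Function.iterate_succ_apply', mass_J V hρ hJ, ih]
  have h := integral_iUnion_fintype (μ := X.μ) (f := ρ)
    (s := fun k : Fin n => {x | X.d (X.J^[k] y) x < t}) (fun k => ball_meas X _ t)
    (fun k l hkl => disjoint_left.2 fun x hk hl => by
      have a1 : X.d (X.J^[k] y) x < t := hk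
      have a2 : X.d (X.J^[l] y) x < t := hl
      have a3 := X.hd.tri (X.J^[k] y) x (X.J^[l] y)
      rw [X.hd.symm x] at a3
      linarith [hs k l hkl]) fun _ => hi.integrableOn
  simp only [e, Finset.sum_const, Finset.card_univ, Fintype.card_fin, nsmul_eq_mul] at h
  rw [← h, ← h1]
  exact setIntegral_le_integral hi (Eventually.of_forall h0')

theorem zfacts (hc : CoFacts) (hx : ChiFacts) (hn : NbFacts) (hg : GamFacts) (B : BFacts X)
    (V : VFacts X) (F : FH X) (Z : L2' Y) : ZFacts Z := by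
  have r0' := Z.r_pos
  have r1' := Z.r_le
  have e0 := Z.η_pos
  have e1 := Z.η_le
  have R0 := Y.R_pos
  have R1 := Y.R_le
  have s_far : ∀ y : E4, 2 * Z.r ≤ ‖y‖ ∨ ‖y‖ ≤ Z.r / 2 → Z.s y = 0 := by
    intro y hy
    refine Z.tube.supp y fun h => ?_
    obtain ⟨a, b⟩ := hn.nb_norm Z.r (Z.η / 2) r0' (by linarith) (by linarith) y h
    rcases hy with hy | hy <;> linarith
  obtain ⟨Fs, Hs, FJ, HJ, Ffar, Fpar⟩ := F Y.R Z.s R0 R1 Z.tube.sm.sm Z.tube.rad
    fun y hy => s_far y (Or.inl (by linarith))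
  have om_eq : ∀ p ∈ X.fix, ∀ y : E4, ‖y‖ ≤ 2 * r1 →
      2 * Z.om (param p y) = Z.s y - chi Y.R y * (f0 y + h0 y) := by
    intro p hp y hy
    obtain ⟨a, b⟩ := Fpar p hp y hy
    simp only [sOf, hOf, s0] at a b
    simp only [L2'.om]
    linear_combination a + 2 * b
  have L_pos : 1 ≤ Z.L := by
    rw [L2'.L, le_log_iff_exp_le (inv_pos.2 r0'), le_inv_comm₀ (exp_pos _) r0']
    refine le_trans (by linarith : Z.r ≤ 3⁻¹) (inv_anti₀ (exp_pos _) ?_)
    linarith [exp_one_lt_d9]
  have om_sm : Smooth Z.om := by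
    have h := (Fs.add Hs).mul (smooth_const (2 : ℝ)⁻¹)
    exact h
  have om_J : ∀ x, Z.om (X.J x) = Z.om x := fun x => by simp only [L2'.om, FJ, HJ]
  obtain ⟨C, hC⟩ := hg.cutoff (Y.R / 16) (by linarith) (by linarith)
  obtain ⟨Kt, Kn⟩ := hC Z.r r0' (by linarith)
  have Kz : ∀ y : E4, Y.R / 8 ≤ ‖y‖ → 2 * Y.m * KK (Y.R / 16) Z.r y = 0 := fun y hy => by
    rw [KK, hx.zero _ (by linarith) y (by linarith), zero_mul, mul_zero]
  have psi_par : ∀ p ∈ X.fix, ∀ y : E4, ‖y‖ ≤ 2 * r1 →
      Z.psi (param p y) = 2 * Y.m * KK (Y.R / 16) Z.r y := fun p hp y hy =>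
    B.sum_par p hp _ (Y.R / 8) (by linarith) Kz y (by
      simp only [r0, r1] at hy ⊢
      linarith)
  have psi_far : ∀ x, (∀ p ∈ X.fix, Y.R / 8 ≤ X.d p x) → Z.psi x = 0 := fun x h =>
    Finset.sum_eq_zero fun p hp => B.ext_far p x _ _ Kz (h p hp)
  have rho_sm : ∀ u, Smooth u →
      Smooth (Z.rho u) ∧ (∀ x, 0 < Z.rho u x) ∧ ∫ x, Z.rho u x ∂X.μ = 1 := by
    intro u hu
    have hs := ((hu.const_mul 4).add (om_sm.const_mul 4)).exp
    haveI : NeZero X.μ := ⟨fun h => by simpa [h] using V.univ⟩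
    have hp := integral_exp_pos (int_cont V hs.continuous)
    refine ⟨hs.mul (smooth_const _), fun x => div_pos (exp_pos _) hp, ?_⟩
    simp only [L2'.rho]
    rw [integral_div, div_self hp.ne']
  have rho_J : ∀ u : M → ℝ, (∀ x, u (X.J x) = u x) → ∀ x, Z.rho u (X.J x) = Z.rho u x :=
    fun u hu x => by simp only [L2'.rho, hu, om_J]
  have r1p : (0 : ℝ) < r1 := by norm_num [r1]
  refine
    { s_far := s_far
      s_supp := ?_
      L_pos := L_pos
      om_sm := om_sm
      om_bd := fun x => ?_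
      om_J := om_J
      om_par := fun p hp y hy => ?_
      vol := fun f => ?_
      psi_sm := Smooth.sum fun p _ => B.ext_sm p _ (Y.R / 8) (by
          simp only [r0]
          linarith) (contDiff_const.mul Kt.sm).contDiffOn Kz
      psi_J := fun x => Finset.sum_congr rfl fun p hp => B.ext_J p hp _ (KK_rad hc _ _ _) x
      psi_bd := fun x => ?_
      psi_par := psi_par
      psi_loc := fun p hp => funext fun y => ?_
      psi_far := psi_far
      rho_sm := rho_sm
      rho_J := rho_J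
      den := fun u hu hJ p hp => ?_
      chart := fun u hu p t ht f hf => ?_
      half := fun u hu hJ y t ht => ?_
      quarter := fun u hu hJ p hp y t hy ht => ?_ }
  · have hcl : IsClosed (⋃ i : Fin 2, {y : E4 | ee i Z.r y ≤ (Z.η / 2) ^ 2}) :=
      isClosed_iUnion_of_finite fun i => isClosed_le (hn.ee_sm i Z.r).continuous continuous_const
    refine (closure_minimal (fun y hy => ?_) hcl).trans fun y hy => ?_
    · by_contra h
      refine hy (Z.tube.supp y fun ⟨i, hi⟩ => h (mem_iUnion.2 ⟨i, hi.le⟩))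
    · obtain ⟨i, hi⟩ := mem_iUnion.1 hy
      exact ⟨i, lt_of_le_of_lt hi (by nlinarith)⟩
  · by_cases h : ∀ p ∈ X.fix, 2 * Y.R ≤ X.d p x
    · obtain ⟨a, b⟩ := Ffar x h
      simp [L2'.om, a, b]
    · push Not at h
      obtain ⟨p, hp, h⟩ := h
      obtain ⟨y, a, rfl, -⟩ := B.chart p x (by
        simp only [r0]
        linarith)
      have hy : ‖y‖ < 1 / 50 := by linarith
      have b := om_eq p hp y (by
        simp only [r1]
        linarith)
      obtain ⟨c1, c2⟩ := hc.rh_bd y (by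
        simp only [r0]
        linarith)
      have c3 : 0 ≤ 2 * f0 y + 2 * h0 y := one_le_exp_iff.1 c1
      have c4 := add_one_le_exp (2 * f0 y + 2 * h0 y)
      have c5 : exp (2 * f0 y + 2 * h0 y) ≤ 2 := c2
      have c6 := abs_le.1 (Z.tube.bd y)
      have c7 : 0 ≤ chi Y.R y * (f0 y + h0 y) := mul_nonneg (hx.nonneg _ _) (by linarith)
      have c8 : chi Y.R y * (f0 y + h0 y) ≤ f0 y + h0 y :=
        mul_le_of_le_one_left (by linarith) (hx.le_one _ _)
      rw [abs_le]
      constructor <;> linarith [c6.1, c6.2]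
  · have b := om_eq p hp y (by
      simp only [r1]
      linarith)
    rw [hx.one _ R0 y hy] at b
    rw [rh, ← exp_add]
    congr 1
    linarith
  · rw [(V.dens Z.g _ _ Fs Hs Z.blk).2 f]
    refine integral_congr_ae (Eventually.of_forall fun x => ?_)
    have e : 2 * X.FF Y.R Z.s x + 2 * X.HH Y.R x = 4 * Z.om x := by
      simp only [L2'.om]
      ring
    simp only [e]
  · have m0 := Y.m_pos
    have a0 : 0 ≤ Y.a / 4 * Z.L := by
      have : 0 < Y.a := div_pos m0 (by positivity)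
      positivity
    by_cases h : ∀ p ∈ X.fix, Y.R / 8 ≤ X.d p x
    · rw [psi_far x h]
      exact ⟨le_rfl, a0⟩
    · push Not at h
      obtain ⟨p, hp, h⟩ := h
      obtain ⟨y, a, rfl, -⟩ := B.chart p x (by
        simp only [r0]
        linarith)
      rw [psi_par p hp y (by
        simp only [r1]
        linarith)]
      refine ⟨mul_nonneg (by linarith) (Kn y).1, ?_⟩
      have k := KK_le hx (Y.R / 16) r0' (zero_le_one.trans L_pos) y
      refine (mul_le_mul_of_nonneg_left k (by linarith)).trans (le_of_eq ?_)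
      simp only [L1.a, L2'.L]
      ring
  · simp only [loc]
    by_cases h1 : ‖y‖ ≤ r1
    · rw [hx.one _ r1p y h1, one_mul, psi_par p hp y (by linarith)]
    · have h2 : Y.R / 8 ≤ ‖y‖ := by
        simp only [r1] at h1
        linarith [not_le.1 h1]
      by_cases h3 : ‖y‖ ≤ 2 * r1
      · rw [psi_par p hp y h3, Kz y h2, mul_zero]
      · rw [hx.zero _ r1p y (not_le.1 h3).le, Kz y h2, zero_mul]
  · obtain ⟨a1, a2, a3⟩ := rho_sm u hu
    have z1 : ∀ y : E4, 2 * r1 ≤ ‖y‖ → loc p (Z.rho u) y = 0 := fun y hy => by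
      rw [loc, hx.zero _ r1p y hy, zero_mul]
    have ht : Tst (Z.rhoE u p) := tst_rh hc (B.loc_tst p _ a1) fun y hy => z1 y (by
      simp only [r1]
      linarith)
    refine ⟨ht, fun y => mul_nonneg (mul_nonneg (hx.nonneg _ _) (a2 _).le) (exp_pos _).le,
      fun y => ?_, ?_⟩
    · simp only [L2'.rhoE, B.loc_even p hp _ (rho_J u hJ), rh_neg]
    · obtain ⟨b1, b2⟩ := V.chart p r0 le_rfl _ a1.continuous.measurable
      have hi := int_cont V a1.continuous
      rw [← setIntegral_eq_integral_of_forall_compl_eq_zero (s := ball (0 : E4) r0) fun y hy => by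
        rw [L2'.rhoE, z1 y (by
          simp only [mem_ball_zero_iff, r0, r1, not_lt] at hy ⊢
          linarith), zero_mul]]
      refine le_trans (setIntegral_mono_on
        (ht.sm.continuous.integrable_of_hasCompactSupport ht.cs).integrableOn
        (b1.1 hi.integrableOn) measurableSet_ball fun y _ => ?_) ?_
      · exact mul_le_mul_of_nonneg_right (mul_le_of_le_one_left (a2 _).le (hx.le_one _ _))
          (exp_pos _).le
      · rw [← b2, ← a3]
        exact setIntegral_le_integral hi (Eventually.of_forall fun x => (a2 x).le)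
  · obtain ⟨a1, -, -⟩ := rho_sm u hu
    refine (V.chart p t (ht.trans (by norm_num [r0, r1])) (fun x => f x * Z.rho u x)
      (hf.mul a1.continuous.measurable)).2.trans ?_
    refine setIntegral_congr_fun measurableSet_ball fun y hy => ?_
    simp only [L2'.rhoE, loc, hx.one _ r1p y ((mem_ball_zero_iff.1 hy).le.trans ht), one_mul,
      mul_assoc]
  · obtain ⟨a1, a2, a3⟩ := rho_sm u hu
    have h := mass_le V a1.continuous (rho_J u hJ) (fun x => (a2 x).le) a3 y t 2 fun k l hkl => by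
      fin_cases k <;> fin_cases l
      · exact absurd rfl hkl
      · exact ht
      · exact ht.trans (X.hd.symm _ _).le
      · exact absurd rfl hkl
    push_cast at h
    linarith
  · obtain ⟨a1, a2, a3⟩ := rho_sm u hu
    have h := mass_le V a1.continuous (rho_J u hJ) (fun x => (a2 x).le) a3 y t 4
      fun k l hkl => ht.trans (B.four p hp y hy k l hkl)
    push_cast at h
    linarith

end A15

theorem zStmt (hc : CoFacts) (hx : ChiFacts) (hn : NbFacts) (hg : GamFacts) (hB : BStmt)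
    (hV : VolsStmt) (hF : FHStmt) : ZStmt := fun M _ _ _ _ _ _ _ X _ Z =>
  A15.zfacts hc hx hn hg (hB M X) (hV M X) (hF M X) Z

end Pool.Agent.MP_417fa2_gt.Q2
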