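import Pool.Agent.MP_417fa2_gt.Q2.ASpec

/-! The forms of the metric with tubes. -/

open scoped Manifold ContDiff Topology
open MeasureTheory Set Metric Real Filter

namespace Pool.Agent.MP_417fa2_gt.Q2

open DE (lp)

namespace A16

theorem pp_zero (s : E4 → ℝ) (y : E4) : pp s (fun _ => 0) y = 0 := by
  have h1 : grad (Gs s) (fun _ => 0) = fun _ _ => 0 := by
    funext i z
    simp [grad, pd_const]
  have h2 : lap (Gs s) (fun _ => 0) = fun _ => 0 := by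
    funext z
    simp [lap, h1, dvg, pd_const]
  simp [pp, pan, h1, h2, ricGrad, dvg, pd_const]

theorem dens_zero (h1 : CoFacts) (y : E4) : dens (Gs fun _ => 0) y = 1 := by
  simp [Gs, h1.dens_blk]

theorem rad_zero : Rad fun _ => 0 := fun _ _ _ _ => rfl

theorem ev_ball {R : ℝ} {y : E4} (hy : ‖y‖ < R) : ∀ᶠ z in 𝓝 y, ‖z‖ < R :=
  (isOpen_lt continuous_norm continuous_const).mem_nhds hy

variable {M : Type} [TopologicalSpace M] [ChartedSpace E4 M] [IsManifold (𝓡 4) ∞ M]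
  [MeasurableSpace M] {X : L0 M} {Y : L1 X}

theorem of_ball (h2 : ChiFacts) (hF : FH X) {s : E4 → ℝ} (hs : ContDiff ℝ ∞ s) (hr : Rad s)
    (h0 : ∀ y, Y.R / 2 ≤ ‖y‖ → s y = 0) {p : M} (hp : p ∈ X.fix) {y : E4} (hy : ‖y‖ < Y.R) :
    sOf (X.FF Y.R s) (X.HH Y.R) p y = s y ∧ hOf (X.HH Y.R) p y = 0 := by
  have h := (hF Y.R s Y.R_pos Y.R_le hs hr h0).2.2.2.2.2 p hp y
    (by rw [r1]; linarith [Y.R_le])
  rw [h2.one _ Y.R_pos _ hy.le] at h
  simpa using h

theorem s_half (Z : L2' Y) (hZ : ZFacts Z) (y : E4) (hy : Y.R / 2 ≤ ‖y‖) : Z.s y = 0 :=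
  hZ.s_far y (Or.inl (by linarith [Z.r_le, Y.R_pos]))

theorem s_ev (Z : L2' Y) (hZ : ZFacts Z) {y : E4} (hy : y ∉ closedBall (0 : E4) (2 * Z.r)) :
    Z.s =ᶠ[𝓝 y] fun _ => 0 := by
  rw [mem_closedBall_zero_iff, not_le] at hy
  filter_upwards [(isOpen_lt continuous_const continuous_norm).mem_nhds hy] with z hz
  exact hZ.s_far z (Or.inl (le_of_lt hz))

theorem modif (h2 : ChiFacts) (h3 : LocFacts) (B : BFacts X) (hM : Modif X) (hF : FH X)
    (Z : L2' Y) (hZ : ZFacts Z) :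
    (∀ φ ψ, Smooth φ → Smooth ψ →
      Bf Z.g φ ψ = Bf Y.g φ ψ + ∑ p ∈ X.fix, Tf Z.s (loc p φ) (loc p ψ)) ∧
    ∀ φ, Smooth φ → qf Z.g φ = qf Y.g φ + ∑ p ∈ X.fix, ∫ y, qd Z.s y * loc p φ y := by
  have hr := Z.r_pos
  have hrR := Z.r_le
  have hR := Y.R_le
  have hR0 := Y.R_pos
  have F0 := hF Y.R (fun _ => 0) hR0 hR contDiff_const rad_zero fun _ _ => rfl
  have F1 := hF Y.R Z.s hR0 hR Z.tube.sm.sm Z.tube.rad (s_half Z hZ)
  have far : ∀ x, (∀ p ∈ X.fix, 2 * Z.r < X.d p x) → X.FF Y.R (fun _ => 0) x = X.FF Y.R Z.s x := by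
    intro x hx
    refine Finset.sum_congr rfl fun p hp => ?_
    by_cases hs : x ∈ (chartAt E4 p).source
    · obtain ⟨y, e1, -, e2⟩ := B.chart p x ((X.hd.src p x).1 hs)
      simp only [extz, indicator_of_mem hs, e2]
      rw [hZ.s_far y (Or.inl (e1 ▸ (hx p hp).le))]
    · simp only [extz, indicator_of_notMem hs]
  obtain ⟨m1, m2⟩ := hM Y.g Z.g _ _ _ _ (2 * Z.r) (by linarith) (by rw [r1]; linarith)
    F0.1 F0.2.1 F1.1 F1.2.1 Y.blk Z.blk fun x hx => ⟨far x hx, rfl⟩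
  have ev : ∀ p ∈ X.fix, ∀ y ∈ closedBall (0 : E4) (2 * Z.r),
      sOf (X.FF Y.R Z.s) (X.HH Y.R) p =ᶠ[𝓝 y] Z.s ∧
      (sOf (X.FF Y.R fun _ => 0) (X.HH Y.R) p =ᶠ[𝓝 y] fun _ => 0) ∧
      hOf (X.HH Y.R) p =ᶠ[𝓝 y] fun _ => 0 := by
    intro p hp y hy
    have h : ‖y‖ < Y.R := by linarith [mem_closedBall_zero_iff.1 hy]
    refine ⟨?_, ?_, ?_⟩ <;> filter_upwards [ev_ball h] with z hz
    · exact (of_ball h2 hF Z.tube.sm.sm Z.tube.rad (s_half Z hZ) hp hz).1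
    · exact (of_ball h2 hF contDiff_const rad_zero (fun _ _ => rfl) hp hz).1
    · exact (of_ball h2 hF contDiff_const rad_zero (fun _ _ => rfl) hp hz).2
  refine ⟨fun φ ψ hφ hψ => ?_, fun φ hφ => ?_⟩
  · rw [← sub_eq_iff_eq_add', m1 φ ψ hφ hψ]
    refine Finset.sum_congr rfl fun p hp => ?_
    have s1 := smAt_of (B.loc_tst p φ hφ).sm
    have s2 := smAt_of (B.loc_tst p ψ hψ).sm
    rw [Tf, ← setIntegral_eq_integral_of_forall_compl_eq_zero (s := closedBall 0 (2 * Z.r))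
      (f := fun y => bform (Gs Z.s) (loc p φ) (loc p ψ) y - lp (loc p φ) y * lp (loc p ψ) y)
      fun y hy => by rw [(h3.flat _ _ _ y (s_ev Z hZ hy) (s1 y) (s2 y)).1, sub_self]]
    refine setIntegral_congr_fun measurableSet_closedBall fun y hy => ?_
    obtain ⟨e1, e2, -⟩ := ev p hp y hy
    simp only [(h3.congr _ _ _ _ _ _ y e1 EventuallyEq.rfl EventuallyEq.rfl).1,
      (h3.flat _ _ _ y e2 (s1 y) (s2 y)).1]
  · rw [← sub_eq_iff_eq_add', m2 φ hφ]
    refine Finset.sum_congr rfl fun p hp => ?_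
    have s1 := smAt_of (B.loc_tst p φ hφ).sm
    rw [← setIntegral_eq_integral_of_forall_compl_eq_zero (s := closedBall 0 (2 * Z.r))
      (f := fun y => qd Z.s y * loc p φ y)
      fun y hy => by rw [(h3.flat _ _ _ y (s_ev Z hZ hy) (s1 y) (s1 y)).2.2.1, zero_mul]]
    refine setIntegral_congr_fun measurableSet_closedBall fun y hy => ?_
    obtain ⟨e1, e2, e3⟩ := ev p hp y hy
    simp only [(h3.congr _ _ _ _ (loc p φ) _ y e1 e3 EventuallyEq.rfl).2,
      (h3.congr _ _ _ _ (loc p φ) _ y e2 e3 EventuallyEq.rfl).2.1,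
      (h3.flat _ _ _ y e2 (s1 y) (s1 y)).2.2.1, pp_zero]
    ring

theorem total (h2 : ChiFacts) (h3 : LocFacts) (B : BFacts X) (hM : Modif X) (hF : FH X)
    (Z : L2' Y) (hZ : ZFacts Z) : (qf Z.g fun _ => 1) = 8 * π ^ 2 := by
  have h : ∀ p ∈ X.fix, ∫ y, qd Z.s y * loc p (fun _ => 1) y = -Y.m := by
    intro p _
    rw [← Z.tube.t2]
    refine integral_congr_ae (Eventually.of_forall fun y => ?_)
    by_cases hy : y ∈ closedBall (0 : E4) (2 * Z.r)
    · have h1 : ‖y‖ ≤ r1 := by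
        rw [r1]
        linarith [mem_closedBall_zero_iff.1 hy, Z.r_le, Y.R_le]
      simp only [loc, h2.one r1 (by rw [r1]; norm_num) y h1, mul_one]
    · have s1 := smAt_of (contDiff_const (c := (0 : ℝ))) y
      simp only [(h3.flat _ _ _ y (s_ev Z hZ hy) s1 s1).2.2.1, zero_mul]
  rw [(modif h2 h3 B hM hF Z hZ).2 _ (smooth_const 1), Y.mass, Finset.sum_congr rfl h]
  simp

theorem gmat_flat (h2 : ChiFacts) (hF : FH X) {p : M} (hp : p ∈ X.fix) {y : E4}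
    (hy : ‖y‖ < Y.R) : f0 y + X.FF Y.R (fun _ => 0) (param p y) = 0 ∧
      h0 y + X.HH Y.R (param p y) = 0 ∧ gmat Y.g p y = Gs (fun _ => 0) y := by
  obtain ⟨e1, e2⟩ := of_ball h2 hF contDiff_const rad_zero (fun _ _ => rfl) hp hy
  rw [hOf] at e2
  rw [sOf, e2, sub_zero] at e1
  refine ⟨e1, e2, ?_⟩
  rw [Y.blk p y (by rw [r0]; linarith [Y.R_le])]
  simp only [Gs, blk, e1, e2]

variable [BorelSpace M]

theorem int_ext (h2 : ChiFacts) (B : BFacts X) (V : VFacts X) (hF : FH X) {p : M} (hp : p ∈ X.fix)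
    {F : E4 → ℝ} (hT : Tst F) (h0 : ∀ y, Y.R / 2 ≤ ‖y‖ → F y = 0) {k : M → ℝ} (hk : Smooth k)
    {k' : E4 → ℝ} (e : ∀ y, ‖y‖ < Y.R → k (param p y) = k' y) :
    ∫ x, extz p F x * k x ∂vol Y.g = ∫ y, F y * k' y := by
  have hR := Y.R_le
  have hR0 := Y.R_pos
  have F0 := hF Y.R (fun _ => 0) hR0 hR contDiff_const rad_zero fun _ _ => rfl
  have hs : Smooth (extz p F) :=
    B.ext_sm p F (Y.R / 2) (by rw [r0]; linarith) hT.sm.contDiffOn h0
  have hc := ((hs.mul hk).mul ((F0.1.const_mul 2).add (F0.2.1.const_mul 2)).exp).continuous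
  rw [(V.dens _ _ _ F0.1 F0.2.1 Y.blk).2,
    ← setIntegral_eq_integral_of_forall_compl_eq_zero (s := {z | X.d p z < Y.R}) fun z hz => by
      rw [B.ext_far p z F (Y.R / 2) h0 (by linarith [not_lt.1 (show ¬X.d p z < Y.R from hz)]), zero_mul, zero_mul],
    (V.chart p Y.R (by rw [r0]; linarith) _ hc.measurable).2,
    ← setIntegral_eq_integral_of_forall_compl_eq_zero (s := ball 0 Y.R) (f := fun y => F y * k' y)
      fun y hy => by rw [h0 y (by linarith [not_lt.1 (mt mem_ball_zero_iff.2 hy)]), zero_mul]]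
  refine setIntegral_congr_fun measurableSet_ball fun y hy => ?_
  have hy' := mem_ball_zero_iff.1 hy
  obtain ⟨e1, e2, -⟩ := gmat_flat h2 hF hp hy'
  simp only [B.ext_par p F y (by rw [r0]; linarith), e y hy', rh]
  rw [mul_assoc, ← exp_add, show 2 * X.FF Y.R (fun _ => 0) (param p y) + 2 * X.HH Y.R (param p y) +
    (2 * f0 y + 2 * Q2.h0 y) = 0 by linarith, exp_zero, mul_one]

omit [BorelSpace M] in
theorem chart_flat (h1 : CoFacts) (h2 : ChiFacts) (h3 : LocFacts) (hF : FH X) {p : M}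
    (hp : p ∈ X.fix) {φ : M → ℝ} (hφ : Smooth φ) {y : E4} (hy : ‖y‖ < Y.R) :
    paneitz Y.g φ (param p y) = pp (fun _ => 0) (loc p φ) y ∧ qCurv Y.g (param p y) = 0 := by
  have hR := Y.R_le
  have ht : y ∈ (chartAt E4 p).target := by
    rw [X.hd.tgt, mem_ball_zero_iff, r0]
    linarith
  have e1 : gmat Y.g p =ᶠ[𝓝 y] Gs fun _ => 0 := by
    filter_upwards [ev_ball hy] with z hz
    exact (gmat_flat h2 hF hp hz).2.2
  have e2 : φ ∘ param p =ᶠ[𝓝 y] loc p φ := by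
    filter_upwards [ev_ball hy] with z hz
    simp only [loc, h2.one r1 (by rw [r1]; norm_num) z (by rw [r1]; linarith), one_mul,
      Function.comp]
  obtain ⟨-, -, c1, c2⟩ := h3.congr' _ _ _ _ y e1 e2
  have s1 := smAt_of (contDiff_const (c := (0 : ℝ))) y
  have c3 := (h3.flat _ _ _ y EventuallyEq.rfl s1 s1).2.2.1
  rw [qd, dens_zero h1, one_mul] at c3
  rw [paneitz_chart _ hφ ht, qCurv_chart _ ht, c1, c2, c3, pp, dens_zero h1, one_mul]
  exact ⟨rfl, rfl⟩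

end A16

open A16 in
theorem zFormStmt (h1 : CoFacts) (h2 : ChiFacts) (h3 : LocFacts) (hB : BStmt) (hBf : BfStmt)
    (hV : VolsStmt) (hM : ModifStmt) (hF : FHStmt) (hZ : ZStmt) : ZFormStmt := by
  intro M _ _ _ _ _ _ _ X Y Z
  replace hB : BFacts X := hB M X
  replace hV : VFacts X := hV M X
  replace hM : Modif X := hM M X
  replace hF : FH X := hF M X
  replace hZ : ZFacts Z := hZ M X Y Z
  have bY : BfFacts Y.g := hBf M Y.g
  have bZ : BfFacts Z.g := hBf M Z.g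
  have tot := total h2 h3 hB hM hF Z hZ
  have hψ := hZ.psi_sm
  have hvol : ∀ u f : M → ℝ, ∫ x, f x * exp (4 * u x) ∂vol Z.g =
      ∫ x, f x * exp (4 * u x + 4 * Z.om x) ∂X.μ := fun u f => by
    simp only [hZ.vol, exp_add, mul_assoc]
  have hvol1 : ∀ u : M → ℝ, ∫ x, exp (4 * u x) ∂vol Z.g =
      ∫ x, exp (4 * u x + 4 * Z.om x) ∂X.μ := fun u => by simpa using hvol u fun _ => 1
  refine ⟨(modif h2 h3 hB hM hF Z hZ).1, (modif h2 h3 hB hM hF Z hZ).2, tot,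
    fun p hp F hT h0 φ hφ => ?_, fun p hp F hT h0 => ?_, fun u hu => ?_, fun φ hφ => ?_,
    fun u hu hJ h => ⟨hu, hJ, fun φ hφ => ?_⟩⟩
  · have hs : Smooth (extz p F) :=
      hB.ext_sm p F (Y.R / 2) (by rw [r0]; linarith [Y.R_le]) hT.sm.contDiffOn h0
    have hl := hB.loc_tst p φ hφ
    have w := h3.weak (fun _ => 0) F (loc p φ) univ isOpen_univ contDiffOn_const hT (subset_univ _)
      hl.sm.contDiffOn
    rw [Measure.restrict_univ] at w
    rw [bY.symm _ _ hφ hs, Bf, int_ext h2 hB hV hF hp hT h0 (paneitz_smooth _ hφ)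
      fun y hy => (chart_flat h1 h2 h3 hF hp hφ hy).1, w]
    refine integral_congr_ae (Eventually.of_forall fun y => ?_)
    simp only [(h3.flat _ _ _ y EventuallyEq.rfl (smAt_of hT.sm y) (smAt_of hl.sm y)).1, mul_comm]
  · have := int_ext h2 hB hV hF hp hT h0 (qCurv_smooth Y.g) (k' := fun _ => 0)
      fun y hy => (chart_flat h1 h2 h3 hF hp (smooth_const 0) hy).2
    simpa [qf, mul_comm] using this
  · have hv := hu.sub hψ
    have e : (fun x => u x - Z.psi x) = fun x => 1 * u x + (-1) * Z.psi x + 0 := by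
      funext x
      ring
    have e' : (fun x => u x - Z.psi x) = fun x => 1 * u x + (-1) * Z.psi x := by
      funext x
      ring
    have l : ∀ φ, Smooth φ → Bf Z.g φ (fun x => u x - Z.psi x) = Bf Z.g φ u - Bf Z.g φ Z.psi :=
      fun φ hφ => by
        rw [e, bZ.lin _ _ _ hφ hu hψ]
        ring
    have q : qf Z.g (fun x => u x - Z.psi x) = qf Z.g u - qf Z.g Z.psi := by
      rw [e', bZ.qlin _ _ hu hψ]
      ring
    rw [II, hvol1, L2'.c0, L2'.Lam, q, l _ hv, bZ.symm _ _ hv hu, bZ.symm _ _ hv hψ, l _ hu, l _ hψ,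
      bZ.symm _ _ hψ hu]
    ring
  · have hz : Smooth (X.z φ) := hφ.sub (smooth_const _)
    have e : X.z φ = fun x => 1 * φ x + 0 * φ x + -⨍ y, φ y ∂X.μ := by
      funext x
      rw [L0.z]
      ring
    have e' : X.z φ = fun x => 1 * φ x + (-⨍ y, φ y ∂X.μ) * (fun _ => 1) x := by
      funext x
      rw [L0.z]
      ring
    have l : Bf Z.g Z.psi (X.z φ) = Bf Z.g Z.psi φ := by
      rw [e, bZ.lin _ _ _ hψ hφ hφ]
      ring
    have q : qf Z.g (X.z φ) = qf Z.g φ - (⨍ y, φ y ∂X.μ) * (8 * π ^ 2) := by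
      rw [e', bZ.qlin _ _ hφ (smooth_const 1), tot]
      ring
    rw [L2'.Lam, L2'.Lam, q, bZ.symm _ _ hz hψ, l, bZ.symm _ _ hφ hψ]
    ring
  · rw [h φ hφ, hvol, hvol1, ← integral_div]
    simp only [L2'.rho, mul_div_assoc]

end Pool.Agent.MP_417fa2_gt.Q2
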