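import Pool.Agent.MP_417fa2_gt.Q2.ASpec

/-! The form of level two, the linear part of the functional, and the test function. -/

open scoped Manifold ContDiff Topology
open MeasureTheory Set Metric Real Filter

namespace Pool.Agent.MP_417fa2_gt.Q2

open DE (lp)

namespace A17A

theorem lp_cm {F : E4 → ℝ} (hF : Tst F) (c : ℝ) (y : E4) :
    lp (fun z => c * F z) y = c * lp F y := by
  unfold DE.lp
  rw [Finset.mul_sum]
  refine Finset.sum_congr rfl fun a _ => ?_
  rw [show pd a (fun z => c * F z) = fun z => c * pd a F z from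
    funext fun z => pd_const_mul (hF.dAt z) c a]
  exact pd_const_mul ((hF.pd a).dAt y) c a

theorem rad_KK (t ε c : ℝ) : Rad fun y => c * KK t ε y := by
  intro y y' h1 h2
  have e : ∀ y : E4, ‖y‖ ^ 2 = zsq y + wsq y := fun y => by
    rw [EuclideanSpace.real_norm_sq_eq, Fin.sum_univ_four, zsq, wsq]; ring
  simp only [KK, chi, gam, e, h1, h2]

theorem sqrt_le_mul {a C n : ℝ} (hC : 0 ≤ C) (h : a ≤ C * n) : √a ≤ √C * √n := by
  rw [← sqrt_mul hC]; exact sqrt_le_sqrt h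

theorem small {η a : ℝ} (ha : 0 ≤ a) (h : η ≤ 1 / (1 + a)) : η * a ≤ 1 := by
  have : η * (1 + a) ≤ 1 := by rwa [le_div_iff₀ (by linarith)] at h
  rcases le_total 0 η with h0 | h0
  · nlinarith
  · nlinarith

variable {M : Type} [TopologicalSpace M] [T2Space M] [CompactSpace M] [ChartedSpace E4 M]
  [IsManifold (𝓡 4) ∞ M] [MeasurableSpace M] [BorelSpace M]

omit [T2Space M] [ChartedSpace E4 M] [IsManifold (𝓡 4) ∞ M] in
theorem intg (μ : Measure M) [IsFiniteMeasure μ] {f : M → ℝ} (hf : Continuous f) :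
    Integrable f μ := hf.integrable_of_hasCompactSupport (HasCompactSupport.of_compactSpace f)

omit [T2Space M] [ChartedSpace E4 M] [IsManifold (𝓡 4) ∞ M] in
theorem cs (μ : Measure M) [IsFiniteMeasure μ] {a w : M → ℝ} (ha : Continuous a)
    (hw : Continuous w) : |∫ x, a x * w x ∂μ| ≤ √(∫ x, a x ^ 2 ∂μ) * √(∫ x, w x ^ 2 ∂μ) := by
  rw [← sqrt_mul (integral_nonneg fun x => sq_nonneg _)]
  refine abs_le_sqrt ?_
  have h := discrim_le_zero (a := ∫ x, a x ^ 2 ∂μ) (b := 2 * ∫ x, a x * w x ∂μ)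
    (c := ∫ x, w x ^ 2 ∂μ) fun t => by
      have e : ∫ x, (t * a x + w x) ^ 2 ∂μ = (∫ x, a x ^ 2 ∂μ) * (t * t) +
          (2 * ∫ x, a x * w x ∂μ) * t + ∫ x, w x ^ 2 ∂μ := by
        rw [← integral_mul_const, ← integral_const_mul, ← integral_mul_const,
          ← integral_add (intg μ (by fun_prop)) (intg μ (by fun_prop)),
          ← integral_add (intg μ (by fun_prop)) (intg μ (by fun_prop))]
        exact integral_congr_ae (Eventually.of_forall fun x => by ring)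
      rw [← e]
      exact integral_nonneg fun x => sq_nonneg _
  rw [discrim] at h
  nlinarith

omit [T2Space M] [CompactSpace M] [BorelSpace M] in
theorem bf_z {g : RMetric M} (hb : BfFacts g) {φ : M → ℝ} (hφ : Smooth φ) (c : ℝ) :
    Bf g (fun x => φ x - c) (fun x => φ x - c) = Bf g φ φ := by
  have k : ∀ w, Smooth w → Bf g w (fun x => φ x - c) = Bf g w φ := fun w hw => by
    have := hb.lin w φ φ hw hφ hφ 1 0 (-c)
    simpa [sub_eq_add_neg] using this
  have s := hφ.sub (smooth_const c)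
  rw [k _ s, hb.symm _ _ s hφ, k _ hφ]

omit [T2Space M] [CompactSpace M] [BorelSpace M] in
theorem bf_sum {g : RMetric M} (hb : BfFacts g) {w : M → ℝ} (hw : Smooth w) (s : Finset M)
    {F : M → M → ℝ} (hF : ∀ p, Smooth (F p)) :
    Bf g w (fun x => ∑ p ∈ s, F p x) = ∑ p ∈ s, Bf g w (F p) := by
  classical
  induction s using Finset.induction_on with
  | empty => simpa using hb.lin w w w hw hw hw 0 0 0
  | insert a s ha ih =>
    have := hb.lin w (F a) (fun x => ∑ p ∈ s, F p x) hw (hF a) (Smooth.sum fun p _ => hF p) 1 1 0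
    simp only [Finset.sum_insert ha, ← ih]
    simpa using this

variable {X : L0 M} {Y : L1 X}

omit [T2Space M] [CompactSpace M] [BorelSpace M] in
theorem kfacts (h1 : ChiFacts) (h3 : GamFacts) (hB : BFacts X) (Z : L2' Y) (c : ℝ) :
    Tst (fun y => c * KK (Y.R / 16) Z.r y) ∧
    (∀ y : E4, Y.R / 8 ≤ ‖y‖ → c * KK (Y.R / 16) Z.r y = 0) ∧
    ∀ p : M, Smooth (extz p fun y => c * KK (Y.R / 16) Z.r y) := by
  have R0 := Y.R_pos
  have R1 := Y.R_le
  have r1 := Z.r_le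
  obtain ⟨C, hC⟩ := h3.cutoff (Y.R / 16) (by positivity) (by linarith)
  have t := ((hC Z.r Z.r_pos (by linarith)).1).const_mul c
  have z : ∀ y : E4, Y.R / 8 ≤ ‖y‖ → c * KK (Y.R / 16) Z.r y = 0 := fun y hy => by
    rw [KK, h1.zero _ (by positivity) y (by linarith), zero_mul, mul_zero]
  exact ⟨t, z, fun p => hB.ext_sm p _ (Y.R / 8) (by rw [r0]; linarith) t.sm.contDiffOn z⟩

end A17A

open A17A

theorem lamStmt (h1 : ChiFacts) (h2 : TestFacts) (h3 : GamFacts) (hB : BStmt) (hBf : BfStmt)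
    (hV : VolsStmt) (hFH : FHStmt) (hCh : ChStmt) (hZ : ZStmt) (hZF : ZFormStmt) : LamStmt := by
  intro M _ _ _ _ _ _ _ X Y
  have B : BFacts X := hB M X
  have V : VFacts X := hV M X
  obtain ⟨z1, C, C0, z2⟩ : Ch X := hCh M X
  have R0 := Y.R_pos
  have R1 := Y.R_le
  have m0 := Y.m_pos
  have k0 := Y.κ_pos
  have := V.fin
  obtain ⟨f1, f2, -⟩ := hFH M X Y.R (fun _ => 0) R0 R1 contDiff_const (fun _ _ _ _ => rfl)
    fun _ _ => rfl
  obtain ⟨Ca, ha⟩ := h2.avg (Y.R / 16) (by positivity) (by linarith)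
  set a : M → ℝ := fun x => qCurv Y.g x * exp (2 * X.FF Y.R (fun _ => 0) x + 2 * X.HH Y.R x) with ea
  have ac : Continuous a := ((qCurv_smooth Y.g).mul
    ((f1.const_mul 2).add (f2.const_mul 2)).exp).continuous
  obtain ⟨N, eN'⟩ : ∃ N : ℝ, N = X.fix.card := ⟨_, rfl⟩
  have N0 : 0 ≤ N := eN' ▸ Nat.cast_nonneg _
  refine ⟨(N * (2 * Y.m * |Ca| + 1 + 2 * |Y.CT|) + 2 * √(∫ x, a x ^ 2 ∂X.μ)) * √C, by positivity,
    ((Ev.of_η (fun _ => Y.κ / (1 + N * C)) fun _ _ => by positivity).and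
    (Ev.of_η (fun r => 1 / (1 + √(eN 2 fun y => 2 * Y.m * KK (Y.R / 16) r y)))
      fun _ _ => by positivity)).mono fun Z ⟨e1, e2⟩ φ hφ => ?_⟩
  have F : ZFacts Z := hZ M X Y Z
  have G : ZForm Z := hZF M X Y Z
  obtain ⟨w1, n0, w2⟩ := z1 φ hφ
  obtain ⟨w3, w4⟩ := z2 φ hφ
  have η0 := Z.η_pos
  have lt := fun p => B.loc_tst p _ w1
  have ls := fun p => sqrt_le_mul C0.le (w3 p)
  constructor
  · rw [← bf_z (hBf M Z.g) hφ (⨍ y, φ y ∂X.μ)]
    change |Bf Z.g (X.z φ) (X.z φ) - _| ≤ _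
    have c1 := Y.close _ w1
    rw [w2] at c1
    have c2 : |∑ p ∈ X.fix, Tf Z.s (loc p (X.z φ)) (loc p (X.z φ))| ≤ N * (Z.η * (C * X.nn φ)) := by
      refine (Finset.abs_sum_le_sum_abs _ _).trans ?_
      rw [eN', ← nsmul_eq_mul]
      refine Finset.sum_le_card_nsmul _ _ _ fun p _ => (Z.tube.t1 _ _ (lt p) (lt p)).trans ?_
      rw [mul_assoc, mul_self_sqrt (eN_nonneg _ _)]
      exact mul_le_mul_of_nonneg_left (w3 p) η0.le
    have c3 : Z.η * (1 + N * C) ≤ Y.κ := by rwa [le_div_iff₀ (by positivity)] at e1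
    have c4 : N * (Z.η * (C * X.nn φ)) ≤ Y.κ * X.nn φ := by
      have := mul_le_mul_of_nonneg_right c3 n0
      nlinarith [mul_nonneg η0.le n0]
    rw [G.B_eq _ _ w1 w1]
    rw [abs_le] at c1 c2 ⊢
    constructor <;> linarith [c1.1, c1.2, c2.1, c2.2]
  · obtain ⟨t1, t2, t3⟩ := kfacts h1 h3 B Z (2 * Y.m)
    obtain ⟨t4, -, -⟩ := kfacts h1 h3 B Z 1
    simp only [one_mul] at t4
    have q1 : |qf Y.g (X.z φ)| ≤ √(∫ x, a x ^ 2 ∂X.μ) * (√C * √(X.nn φ)) := by
      rw [qf, (V.dens _ _ _ f1 f2 Y.blk).2]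
      refine le_trans (le_of_eq ?_) ((cs X.μ ac w1.continuous).trans
        (mul_le_mul_of_nonneg_left (sqrt_le_mul C0.le w4) (sqrt_nonneg _)))
      congr 2
      funext x
      simp only [ea]
      ring
    have b1 : Bf Y.g (X.z φ) Z.psi = ∑ p ∈ X.fix,
        2 * Y.m * ∫ y, lp (KK (Y.R / 16) Z.r) y * lp (loc p (X.z φ)) y := by
      refine (bf_sum (hBf M Y.g) w1 X.fix t3).trans (Finset.sum_congr rfl fun p hp => ?_)
      rw [G.flatB p hp _ t1 (fun y hy => t2 y (by linarith)) _ w1, ← integral_const_mul]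
      congr 1
      funext y
      rw [lp_cm t4]
      ring
    rw [L2'.Lam, G.B_eq _ _ w1 F.psi_sm, G.q_eq _ w1, b1]
    have s1 : |∑ p ∈ X.fix, (2 * Y.m * (∫ y, lp (KK (Y.R / 16) Z.r) y * lp (loc p (X.z φ)) y) +
        Tf Z.s (loc p (X.z φ)) (loc p Z.psi) + 2 * ∫ y, qd Z.s y * loc p (X.z φ) y)| ≤
        N * ((2 * Y.m * |Ca| + 1 + 2 * |Y.CT|) * (√C * √(X.nn φ))) := by
      refine (Finset.abs_sum_le_sum_abs _ _).trans ?_
      rw [eN', ← nsmul_eq_mul]
      refine Finset.sum_le_card_nsmul _ _ _ fun p hp => ?_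
      have a1 := ha Z.r Z.r_pos (by linarith [Z.r_le]) _ (lt p)
      have a2 := Z.tube.t1 _ _ (lt p) t1
      have a3 := Z.tube.t3 _ (lt p)
      have a4 := small (sqrt_nonneg _) e2
      rw [F.psi_loc p hp]
      have l0 := sqrt_nonneg (eN 2 (loc p (X.z φ)))
      have a5 : Z.η * √(eN 2 (loc p (X.z φ))) * √(eN 2 fun y => 2 * Y.m * KK (Y.R / 16) Z.r y) ≤
          √(eN 2 (loc p (X.z φ))) := by nlinarith
      have a6 := mul_le_mul_of_nonneg_right (le_abs_self Ca) l0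
      have a7 := mul_le_mul_of_nonneg_right (le_abs_self Y.CT) l0
      have a8 := mul_le_mul_of_nonneg_left (ls p)
        (show 0 ≤ 2 * Y.m * |Ca| + 1 + 2 * |Y.CT| by positivity)
      have a9 := abs_le.1 (a1.trans a6)
      have a10 := abs_le.1 (a2.trans a5)
      have a11 := abs_le.1 (a3.trans a7)
      have a12 := mul_le_mul_of_nonneg_left a9.1 m0.le
      have a13 := mul_le_mul_of_nonneg_left a9.2 m0.le
      rw [abs_le]
      constructor <;> nlinarith [a10.1, a10.2, a11.1, a11.2]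
    rw [Finset.sum_add_distrib, Finset.sum_add_distrib, ← Finset.mul_sum _ _ (2 : ℝ)] at s1
    rw [abs_le] at s1 q1 ⊢
    constructor <;> nlinarith [s1.1, s1.2, q1.1, q1.2]

theorem testStmt (h1 : ChiFacts) (h2 : TestFacts) (h3 : GamFacts) (hB : BStmt) (_hBf : BfStmt)
    (hV : VolsStmt) (_hFH : FHStmt) (hCh : ChStmt) (hZ : ZStmt) (hZF : ZFormStmt) (hL : LamStmt) :
    TestStmt := by
  intro M _ _ _ _ _ _ _ X Y
  have B : BFacts X := hB M X
  have V : VFacts X := hV M X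
  obtain ⟨z1, C, C0, z2⟩ : Ch X := hCh M X
  obtain ⟨CL, CL0, hl⟩ : Lam Y := hL M X Y
  obtain ⟨p, hp⟩ := X.hJ.ne
  have R0 := Y.R_pos
  have R1 := Y.R_le
  have m0 := Y.m_pos
  have := V.fin
  have := V.pos
  obtain ⟨Ce, he⟩ := h2.en (Y.R / 16) (by positivity) (by linarith)
  have uo : IsOpen {x | Y.R / 8 < X.d p x} :=
    isOpen_lt continuous_const (X.hd.cont.comp (Continuous.prodMk_right p))
  have u0 : 0 < X.μ.real {x | Y.R / 8 < X.d p x} := by
    refine ENNReal.toReal_pos (uo.measure_pos _ ⟨param p (EuclideanSpace.single 0 (1 / 20)), ?_⟩).ne'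
      (measure_ne_top _ _)
    have e : ‖(EuclideanSpace.single 0 (1 / 20) : E4)‖ = 1 / 20 := by simp
    rw [mem_ofPred_eq, X.hd.par p _ (by rw [e, r0]; norm_num), e]
    linarith
  have c0 : 0 < volume.real (ball (0 : E4) 1) :=
    ENNReal.toReal_pos (measure_ball_pos _ _ one_pos).ne' measure_ball_lt_top.ne
  obtain ⟨c1, ec⟩ : ∃ c, c = volume.real (ball (0 : E4) 1) := ⟨_, rfl⟩
  obtain ⟨mU, eU⟩ : ∃ c, c = X.μ.real {x | Y.R / 8 < X.d p x} := ⟨_, rfl⟩
  obtain ⟨N, eN'⟩ : ∃ N : ℝ, N = X.fix.card := ⟨_, rfl⟩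
  obtain ⟨D, eD⟩ : ∃ D : ℝ, D = 64 * π ^ 2 + 512 * π ^ 4 * |Ce| := ⟨_, rfl⟩
  obtain ⟨E, eE⟩ : ∃ E : ℝ,
    E = 256 * π ^ 4 * |Ce| + N + 8 * π ^ 2 * ((Y.a / 2 + 8) * log 2 - log c1) := ⟨_, rfl⟩
  rw [← ec] at c0
  rw [← eU] at u0
  refine ⟨|E| + 2 * (CL + 16 * π ^ 2 * √(C / mU)) * √D, (hl.and
    (Ev.of_η (fun r => 1 / (1 + eN 2 fun y => 16 * π ^ 2 * KK (Y.R / 16) r y)) fun r _ => by
      have := eN_nonneg 2 fun y => 16 * π ^ 2 * KK (Y.R / 16) r y
      positivity)).mono fun Z ⟨e1, e2⟩ => ?_⟩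
  have F : ZFacts Z := hZ M X Y Z
  have G : ZForm Z := hZF M X Y Z
  obtain ⟨t1, t2, t3⟩ := kfacts h1 h3 B Z (16 * π ^ 2)
  obtain ⟨t4, -, -⟩ := kfacts h1 h3 B Z 1
  simp only [one_mul] at t4
  have r0' := Z.r_pos
  have r1' := Z.r_le
  have L1 := F.L_pos
  obtain ⟨K, eK⟩ : ∃ K : E4 → ℝ, K = fun y => 16 * π ^ 2 * KK (Y.R / 16) Z.r y := ⟨_, rfl⟩
  have t2' : ∀ y : E4, Y.R / 8 ≤ ‖y‖ → K y = 0 := by rw [eK]; exact t2
  have rK : Rad K := by rw [eK]; exact rad_KK _ _ _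
  have lK : ∀ y, lp K y = 16 * π ^ 2 * lp (KK (Y.R / 16) Z.r) y := by rw [eK]; exact lp_cm t4 _
  rw [← eK] at t1 t3 e2
  have sv := t3 p
  have su := F.psi_sm.add sv
  refine ⟨_, su, fun x => by rw [F.psi_J, B.ext_J p hp K rK], ?_⟩
  have lp0 : loc p (extz p K) = K := B.loc_ext p K fun y hy => t2' y (by rw [r1] at hy; linarith)
  have b1 : Bf Y.g (extz p K) (extz p K) ≤ 32 * π ^ 2 * Z.L + 256 * π ^ 4 * |Ce| := by
    rw [G.flatB p hp K t1 (fun y hy => t2' y (by linarith)) _ sv, lp0]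
    have a1 := (he Z.r r0' (by linarith)).1
    have a2 : ∫ y, lp K y * lp K y = 256 * π ^ 4 * ∫ y, lp (KK (Y.R / 16) Z.r) y ^ 2 := by
      rw [← integral_const_mul]
      congr 1
      funext y
      rw [lK]
      ring
    have a3 := mul_le_mul_of_nonneg_left (a1.trans (add_le_add_right (le_abs_self Ce) _))
      (show 0 ≤ 256 * π ^ 4 by positivity)
    rw [a2]
    refine a3.trans (le_of_eq ?_)
    rw [L2'.L]
    field_simp
    ring
  have b2 : ∑ q ∈ X.fix, Tf Z.s (loc q (extz p K)) (loc q (extz p K)) ≤ N := by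
    rw [eN', ← mul_one (X.fix.card : ℝ), ← nsmul_eq_mul]
    refine Finset.sum_le_card_nsmul _ _ _ fun q hq => (le_abs_self _).trans
      ((Z.tube.t1 _ _ (B.loc_tst q _ sv) (B.loc_tst q _ sv)).trans ?_)
    rw [mul_assoc, mul_self_sqrt (eN_nonneg _ _)]
    by_cases h : q = p
    · rw [h, lp0]
      exact small (eN_nonneg _ _) e2
    · rw [B.loc_ext' p hp q hq h K fun y hy => t2' y (by linarith), DE.eN_zero_fun]
      norm_num
  obtain ⟨-, n0, -⟩ := z1 _ sv
  have n1 : √(X.nn (extz p K)) ≤ √D * (1 + √Z.L) := by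
    have a1 := (abs_le.1 (Y.close _ sv)).1
    have a2 := mul_le_mul_of_nonneg_right Y.κ_le n0
    have a3 := sq_sqrt (show 0 ≤ Z.L by linarith)
    have a4 := sqrt_nonneg Z.L
    have a5 : 0 ≤ π ^ 4 * |Ce| := by positivity
    have a6 : 0 ≤ π ^ 2 := by positivity
    refine (sqrt_le_mul (C := D) (n := (1 + √Z.L) ^ 2) (by rw [eD]; positivity) ?_).trans
      (by rw [sqrt_sq (by linarith)])
    have a7 : 1 + Z.L ≤ (1 + √Z.L) ^ 2 := by nlinarith
    have a8 := mul_le_mul_of_nonneg_left a7 (show 0 ≤ D by rw [eD]; positivity)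
    rw [eD] at a8 ⊢
    nlinarith [mul_nonneg a5 (show 0 ≤ Z.L by linarith)]
  have n2 : ⨍ x, extz p K x ∂X.μ ≤ √(C / mU) * √(X.nn (extz p K)) := by
    have a1 : ∫ x in {x | Y.R / 8 < X.d p x}, X.z (extz p K) x ^ 2 ∂X.μ =
        mU * (⨍ x, extz p K x ∂X.μ) ^ 2 := by
      rw [setIntegral_congr_fun (g := fun _ => (⨍ x, extz p K x ∂X.μ) ^ 2) uo.measurableSet
        fun x hx => by simp [L0.z, B.ext_far p x K _ t2' (le_of_lt hx)], setIntegral_const, eU,
        smul_eq_mul]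
    have a2 := setIntegral_le_integral (s := {x | Y.R / 8 < X.d p x})
      (intg X.μ ((z1 _ sv).1.pow 2).continuous) (Eventually.of_forall fun x => sq_nonneg _)
    rw [a1] at a2
    refine (le_abs_self _).trans ?_
    rw [← sqrt_sq_eq_abs]
    refine sqrt_le_mul (by positivity) ?_
    rw [div_mul_eq_mul_div, le_div_iff₀ u0]
    linarith [(z2 _ sv).2]
  have v1 : (Y.a + 4) * Z.L - ((Y.a / 2 + 8) * log 2 - log c1) ≤
      log (∫ x, exp (4 * (Z.psi x + extz p K x) + 4 * Z.om x) ∂X.μ) := by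
    have sf := ((su.const_mul 4).add (F.om_sm.const_mul 4)).exp.continuous
    obtain ⟨a1, a2⟩ := V.chart p (Z.r / 2) (by rw [r0]; linarith) _ sf.measurable
    have a3 := setIntegral_le_integral (s := {x | X.d p x < Z.r / 2}) (intg X.μ sf)
      (Eventually.of_forall fun x => (exp_pos _).le)
    have a0 : 0 < Y.a := by rw [L1.a]; positivity
    have a4 := setIntegral_mono_on (μ := volume) (s := ball (0 : E4) (Z.r / 2))
      (f := fun _ => exp ((Y.a / 2 + 4) * (2 * Z.L - log 2)))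
      (integrableOn_const measure_ball_lt_top.ne) (a1.1 (intg X.μ sf).integrableOn)
      measurableSet_ball fun y hy => by
        rw [mem_ball_zero_iff] at hy
        rw [exp_add, mul_assoc, F.om_par p hp y (by linarith), F.s_far y (Or.inr hy.le), mul_zero,
          exp_zero, mul_one, exp_le_exp, F.psi_par p hp y (by rw [r1]; linarith),
          B.ext_par p K y (by rw [r0]; linarith), eK]
        simp only [KK, gam, h1.one (Y.R / 16) (by positivity) y (by linarith)]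
        have a5 : log (‖y‖ ^ 2 + Z.r ^ 2) ≤ log 2 - 2 * Z.L := by
          have := norm_nonneg y
          refine (log_le_log (by positivity) (show _ ≤ 2 * Z.r ^ 2 by nlinarith)).trans (le_of_eq ?_)
          rw [log_mul two_ne_zero (by positivity), log_pow, L2'.L, log_inv]
          push_cast
          ring
        have a6 := mul_le_mul_of_nonneg_left a5 (show 0 ≤ Y.a / 2 + 4 by positivity)
        refine le_trans (by linarith) ((neg_le_neg a6).trans (le_of_eq ?_))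
        rw [L1.a]
        field_simp
        ring
    have a7 : volume.real (ball (0 : E4) (Z.r / 2)) = (Z.r / 2) ^ 4 * c1 := by
      rw [ec, measureReal_def, Measure.addHaar_ball_of_pos _ _ (half_pos r0'), ENNReal.toReal_mul,
        finrank_euclideanSpace_fin, ENNReal.toReal_ofReal (by positivity), measureReal_def]
    rw [setIntegral_const, a7, smul_eq_mul, ← a2] at a4
    refine le_trans (le_of_eq ?_) (log_le_log (by positivity) (a4.trans a3))
    rw [log_mul (by positivity) (by positivity), log_mul (by positivity) c0.ne', log_exp, log_pow,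
      log_div r0'.ne' two_ne_zero, L2'.L, log_inv]
    push_cast
    ring
  rw [G.shift _ su]
  simp only [add_sub_cancel_left]
  change Z.c0 + Bf Z.g (extz p K) (extz p K) + 2 * Z.Lam (extz p K) - _ ≤ _
  rw [G.B_eq _ _ sv sv, G.Lam_z _ sv]
  have a1 := (abs_le.1 (e1 _ sv).2).2
  have a2 := mul_le_mul_of_nonneg_left v1 (show 0 ≤ 8 * π ^ 2 by positivity)
  have a3 := mul_le_mul_of_nonneg_left n2 (show 0 ≤ 16 * π ^ 2 by positivity)
  have a4 := mul_le_mul_of_nonneg_left n1 (show 0 ≤ CL + 16 * π ^ 2 * √(C / mU) by positivity)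
  have a5 := le_abs_self E
  have a6 := mul_nonneg (abs_nonneg E) (sqrt_nonneg Z.L)
  nlinarith

end Pool.Agent.MP_417fa2_gt.Q2
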