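import Pool.Agent.MP_417fa2_gt.Q2.ASpec

/-! Without concentration the functional is larger. -/

open scoped Manifold ContDiff Topology
open MeasureTheory Set Metric Real Filter

namespace Pool.Agent.MP_417fa2_gt.Q2

theorem a19_alg {κ n B Lz C Cd En I : ℝ} (h0 : 0 < κ) (h1 : κ ≤ 1 / 100) (hn : 0 ≤ n)
    (hCd : 0 ≤ Cd) (hEn : 0 ≤ En) (hB : |B - n| ≤ 2 * κ * n) (hL : |Lz| ≤ C * √n)
    (hI : I ≤ √((1 + κ) * En / (8 * π ^ 2) + Cd) * √n) :
    -(8 * π ^ 2 * (4 * (1 + 5 * κ) * En)) - (C ^ 2 / κ + 512 * π ^ 4 * Cd) ≤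
      B + 2 * Lz - 32 * π ^ 2 * I := by
  have hp := pi_pos
  have e0 : 0 ≤ (1 + κ) * En / (8 * π ^ 2) + Cd := by positivity
  have e1 := Real.sq_sqrt e0
  have e2 := Real.sq_sqrt hn
  set s := √n
  set t := √((1 + κ) * En / (8 * π ^ 2) + Cd)
  have k3 : 0 < 1 - 3 * κ := by linarith
  have a1 : 2 * C * s ≤ κ * s ^ 2 + C ^ 2 / κ := by
    have : κ * s ^ 2 + C ^ 2 / κ - 2 * C * s = (κ * s - C) ^ 2 / κ := by field_simp; ring
    have h2 : 0 ≤ (κ * s - C) ^ 2 / κ := by positivity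
    linarith
  have a2 : 32 * π ^ 2 * (t * s) ≤ (1 - 3 * κ) * s ^ 2 + 256 * π ^ 4 * (t ^ 2 / (1 - 3 * κ)) := by
    have : (1 - 3 * κ) * s ^ 2 + 256 * π ^ 4 * (t ^ 2 / (1 - 3 * κ)) - 32 * π ^ 2 * (t * s) =
        ((1 - 3 * κ) * s - 16 * π ^ 2 * t) ^ 2 / (1 - 3 * κ) := by field_simp; ring
    have h2 : 0 ≤ ((1 - 3 * κ) * s - 16 * π ^ 2 * t) ^ 2 / (1 - 3 * κ) := by positivity
    linarith
  have a3 : t ^ 2 / (1 - 3 * κ) ≤ (1 + 5 * κ) * (En / (8 * π ^ 2)) + 2 * Cd := by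
    rw [div_le_iff₀ k3, e1, mul_div_assoc]
    have b0 : 0 ≤ En / (8 * π ^ 2) := by positivity
    have b1 : 1 + κ ≤ (1 + 5 * κ) * (1 - 3 * κ) := by nlinarith
    have b2 := mul_le_mul_of_nonneg_right b1 b0
    have b3 := mul_le_mul_of_nonneg_right (show 1 ≤ 2 * (1 - 3 * κ) by linarith) hCd
    linarith
  have a4 := mul_le_mul_of_nonneg_left a3 (show 0 ≤ 256 * π ^ 4 by positivity)
  have a5 : 256 * π ^ 4 * ((1 + 5 * κ) * (En / (8 * π ^ 2)) + 2 * Cd) =
      8 * π ^ 2 * (4 * (1 + 5 * κ) * En) + 512 * π ^ 4 * Cd := by field_simp; ring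
  have a6 := mul_le_mul_of_nonneg_left hI (show 0 ≤ 32 * π ^ 2 by positivity)
  have a7 := (abs_le.1 hB).1
  have a8 := (abs_le.1 hL).1
  rw [← e2] at a7
  linarith

theorem a19_psi {m R r a' : ℝ} {y : E4} (hm : 0 < m) (hr : 0 < r) (hr1 : r ≤ 1 / 2)
    (hy0 : 0 < ‖y‖) (hy1 : ‖y‖ ≤ 1 / 2) (ha0 : 0 < a') (ha : a' ≤ m / π ^ 2) :
    exp (4 * (2 * m * KK R r y)) ≤ exp ((m / π ^ 2 - a') * log r⁻¹) * ‖y‖ ^ (-a') := by
  have hp := pi_pos
  rw [Real.rpow_def_of_pos hy0, ← Real.exp_add]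
  apply Real.exp_le_exp.2
  set l := log (‖y‖ ^ 2 + r ^ 2) with hl
  have l0 : l ≤ 0 := Real.log_nonpos (by positivity) (by nlinarith)
  have l1 : 2 * log r ≤ l := by
    have := Real.log_le_log (show 0 < r ^ 2 by positivity)
      (show r ^ 2 ≤ ‖y‖ ^ 2 + r ^ 2 by nlinarith)
    rw [Real.log_pow] at this
    exact_mod_cast this
  have l2 : 2 * log ‖y‖ ≤ l := by
    have := Real.log_le_log (show 0 < ‖y‖ ^ 2 by positivity)
      (show ‖y‖ ^ 2 ≤ ‖y‖ ^ 2 + r ^ 2 by nlinarith)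
    rw [Real.log_pow] at this
    exact_mod_cast this
  have c1 : chi R y ≤ 1 := smoothTransition.le_one _
  have e : 4 * (2 * m * KK R r y) = chi R y * (m / π ^ 2 * (-l / 2)) := by
    unfold KK gam
    rw [← hl]
    field_simp
    ring
  have b0 : 0 ≤ m / π ^ 2 * (-l / 2) := mul_nonneg (by positivity) (by linarith)
  have b1 := mul_le_mul_of_nonneg_right c1 b0
  have b2 := mul_le_mul_of_nonneg_left l1 (sub_nonneg.2 ha)
  have b3 := mul_le_mul_of_nonneg_left l2 ha0.le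
  rw [e, Real.log_inv]
  nlinarith

theorem trapStmt (hB : BStmt) (_hBf : BfStmt) (hV : VolsStmt) (hCh : ChStmt) (hD : DualStmt)
    (hG : GibStmt) (hZ : ZStmt) (hZF : ZFormStmt) (hL : LamStmt) : TrapStmt := by
  intro M _ _ _ _ _ _ _ X Y θ γ a' t0 t1 hκ a0 a1 a2 g0 g1
  classical
  have BF : BFacts X := hB M X
  have VF : VFacts X := hV M X
  have CH : Ch X := hCh M X
  have hp := pi_pos
  have k0 := Y.κ_pos
  have k1 := Y.κ_le
  obtain ⟨Cd, hCd, hDual⟩ := hD M X Y.κ k0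
  obtain ⟨Cg, hGib⟩ := hG M X (4 * (1 + 5 * Y.κ)) (1 - θ) a' Y.κ (by positivity) (by linarith)
    (by linarith) a0 k0 (by linarith) (by nlinarith)
  obtain ⟨C, -, hLam⟩ := hL M X Y
  obtain ⟨c₀, c0, hdisp⟩ := BF.disp
  have hev : ∀ᶠ r in 𝓝[>] (0 : ℝ), r ^ (1 - γ) ≤ min c₀ (1 / 2) := by
    have h1 : ContinuousAt (fun r : ℝ => r ^ (1 - γ)) 0 :=
      Real.continuousAt_rpow_const 0 _ (Or.inr (by linarith))
    have h2 := h1.tendsto.eventually (ge_mem_nhds (show (0 : ℝ) ^ (1 - γ) < min c₀ (1 / 2) by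
      rw [Real.zero_rpow (by linarith)]
      positivity))
    exact h2.filter_mono nhdsWithin_le_nhds
  refine ⟨C ^ 2 / Y.κ + 512 * π ^ 4 * Cd + 32 * π ^ 2 + 8 * π ^ 2 * Cg,
    (hLam.and (Ev.of_r hev)).mono fun Z ⟨h1, h2⟩ u hu huJ hnc => ?_⟩
  have ZF : ZFacts Z := hZ M X Y Z
  have ZM : ZForm Z := hZF M X Y Z
  have := VF.fin
  have hint : ∀ f : M → ℝ, Continuous f → Integrable f X.μ := fun f hf =>
    hf.integrable_of_hasCompactSupport (HasCompactSupport.of_compactSpace f)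
  have r0' := Z.r_pos
  have r1' : Z.r ≤ 1 / 2 := by linarith [Z.r_le, Y.R_le]
  set δ := Z.r ^ (1 - γ) with hδ
  have d0 : 0 < δ := Real.rpow_pos_of_pos r0' _
  have d1 : δ ≤ 1 / 2 := h2.trans (min_le_right _ _)
  have d2 : δ ≤ c₀ := h2.trans (min_le_left _ _)
  have dl : log δ⁻¹ = (1 - γ) * Z.L := by
    rw [hδ, Real.log_inv, Real.log_rpow r0', L2'.L, Real.log_inv]; ring
  obtain ⟨ρs, ρ0, ρ1⟩ := ZF.rho_sm u hu
  have hv : Smooth fun x => u x - Z.psi x := hu.sub ZF.psi_sm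
  have L1 := ZF.L_pos
  -- the local mass
  have hmass : ∀ y, ∫ x in {x | X.d y x < δ}, Z.rho u x ∂X.μ ≤ 1 - θ := by
    intro y
    by_cases hy : ∀ p ∈ X.fix, 3 * δ ≤ X.d p y
    · exact (ZF.half u hu huJ y δ (hdisp y δ d0 d2 hy)).trans (by linarith)
    · push Not at hy
      obtain ⟨p, hp1, hp2⟩ := hy
      have b1 : ¬1 - θ ≤ ∫ x in {x | X.d p x < 4 * δ}, Z.rho u x ∂X.μ := fun h => hnc p ⟨hp1, h⟩
      refine le_trans (setIntegral_mono_set (hint _ ρs.continuous).integrableOn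
        (Eventually.of_forall fun x => (ρ0 x).le) (LE.le.eventuallyLE ?_))
        (not_le.1 b1).le
      intro x hx
      have b2 := X.hd.tri p y x
      have b3 : X.d y x < δ := hx
      change X.d p x < 4 * δ
      linarith
  -- the weight
  have hW : ∀ x, x ∉ X.fix → exp (4 * Z.psi x) ≤ exp ((Y.a - a') * Z.L) *
      (δ ^ (-a') + ∑ p ∈ X.fix, if X.d p x < δ then X.d p x ^ (-a') else 0) := by
    intro x hx
    have b0 : ∀ p ∈ X.fix, 0 ≤ if X.d p x < δ then X.d p x ^ (-a') else 0 := by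
      intro p _
      split_ifs
      · exact Real.rpow_nonneg (X.hd.nonneg _ _) _
      · exact le_rfl
    have b1 := Finset.sum_nonneg b0
    have b2 : 1 ≤ δ ^ (-a') :=
      Real.one_le_rpow_of_pos_of_le_one_of_nonpos d0 (by linarith) (by linarith)
    by_cases hfar : ∀ p ∈ X.fix, Y.R / 8 ≤ X.d p x
    · rw [ZF.psi_far x hfar, mul_zero, Real.exp_zero]
      have b3 : 1 ≤ exp ((Y.a - a') * Z.L) :=
        Real.one_le_exp (mul_nonneg (by linarith) (by linarith))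
      nlinarith
    · push Not at hfar
      obtain ⟨p, hp1, hp2⟩ := hfar
      have hR := Y.R_le
      obtain ⟨y, y1, y2, -⟩ := BF.chart p x (by unfold r0; linarith)
      have y0 : 0 < ‖y‖ := by
        rw [y1]
        refine lt_of_le_of_ne (X.hd.nonneg _ _) fun h => hx ?_
        rw [← BF.eq p x h.symm]
        exact hp1
      have b3 := a19_psi (R := Y.R / 16) Y.m_pos r0' r1' y0 (by linarith) a0 a2
      rw [← ZF.psi_par p hp1 y (by unfold r1; linarith), y2, y1] at b3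
      refine b3.trans (mul_le_mul_of_nonneg_left ?_ (exp_pos _).le)
      by_cases hd : X.d p x < δ
      · have b4 := Finset.single_le_sum b0 hp1
        rw [if_pos hd] at b4
        linarith
      · have b4 : X.d p x ^ (-a') ≤ δ ^ (-a') :=
          Real.rpow_le_rpow_of_nonpos d0 (not_lt.1 hd) (by linarith)
        linarith
  have G := hGib δ ((Y.a - a') * Z.L) d0 d1 (fun x => 4 * Z.psi x) (Z.rho u)
    (ZF.psi_sm.const_mul 4).continuous ρs.continuous ρ0 ρ1 hmass hW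
  have D := hDual (Z.rho u) ρs (fun x => (ρ0 x).le) ρ1.le _ hv
  obtain ⟨l1, l2⟩ := h1 _ hv
  have hEn : 0 ≤ En X.d X.μ (Z.rho u) := integral_nonneg fun y => mul_nonneg (ρ0 y).le
    (integral_nonneg fun x => mul_nonneg (le_max_right _ _) (ρ0 x).le)
  have alg := a19_alg k0 k1 (CH.1 _ hv).2.1 hCd hEn l1 l2 D
  -- the logarithm of the volume
  set V := ∫ x, exp (4 * u x + 4 * Z.om x) ∂X.μ with hVdef
  have hρ : ∀ x, Z.rho u x = exp (4 * u x + 4 * Z.om x) / V := fun x => rfl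
  have V0 : V ≠ 0 := by
    intro h
    simp only [hρ, h, div_zero, integral_zero] at ρ1
    exact zero_ne_one ρ1
  set m := ⨍ x, (u x - Z.psi x) ∂X.μ with hm
  have hz : ∀ x, X.z (fun x => u x - Z.psi x) x = u x - Z.psi x - m := fun x => rfl
  have i1 := hint _ ((CH.1 _ hv).1.mul ρs).continuous
  have i2 := hint _ ((ZF.psi_sm.const_mul 4).mul ρs).continuous
  have i3 := hint _ (ZF.om_sm.mul ρs).continuous
  have i4 := hint _ ρs.continuous
  have hent : ∫ x, Z.rho u x * log (Z.rho u x) ∂X.μ =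
      4 * (∫ x, X.z (fun x => u x - Z.psi x) x * Z.rho u x ∂X.μ) +
        (∫ x, 4 * Z.psi x * Z.rho u x ∂X.μ) + 4 * (∫ x, Z.om x * Z.rho u x ∂X.μ) +
        (4 * m - log V) := by
    have b1 : ∀ x, Z.rho u x * log (Z.rho u x) =
        4 * (X.z (fun x => u x - Z.psi x) x * Z.rho u x) + 4 * Z.psi x * Z.rho u x +
          4 * (Z.om x * Z.rho u x) + (4 * m - log V) * Z.rho u x := by
      intro x
      have : log (Z.rho u x) = 4 * u x + 4 * Z.om x - log V := by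
        rw [hρ, Real.log_div (exp_pos _).ne' V0, Real.log_exp]
      rw [this, hz]
      ring
    simp only [b1]
    have j1 : Integrable (fun x => 4 * (X.z (fun x => u x - Z.psi x) x * Z.rho u x) +
        4 * Z.psi x * Z.rho u x) X.μ := (i1.const_mul 4).add i2
    have j2 : Integrable (fun x => 4 * (X.z (fun x => u x - Z.psi x) x * Z.rho u x) +
        4 * Z.psi x * Z.rho u x + 4 * (Z.om x * Z.rho u x)) X.μ := j1.add (i3.const_mul 4)
    rw [integral_add j2 (i4.const_mul _), integral_add j1 (i3.const_mul 4),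
      integral_add (i1.const_mul 4) i2, integral_const_mul (4 * m - log V), ρ1, mul_one,
      integral_const_mul, integral_const_mul]
  have hom : ∫ x, Z.om x * Z.rho u x ∂X.μ ≤ 1 := by
    rw [← ρ1]
    exact integral_mono i3 i4 fun x =>
      mul_le_of_le_one_left (ρ0 x).le (abs_le.1 (ZF.om_bd x)).2
  rw [ZM.shift u hu, ZM.Lam_z _ hv, ← hVdef, ← hm]
  rw [dl, max_eq_left (by linarith), hent] at G
  have f1 := mul_le_mul_of_nonneg_left G (show 0 ≤ 8 * π ^ 2 by positivity)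
  have f2 := mul_le_mul_of_nonneg_left hom (show 0 ≤ 32 * π ^ 2 by positivity)
  have f3 : 0 ≤ 8 * π ^ 2 * (21 * Y.κ * γ * Z.L) := by positivity
  nlinarith

end Pool.Agent.MP_417fa2_gt.Q2
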