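import Pool.Agent.MP_417fa2_gt.Q2.ASpec

/-! The bilinear form of any metric, and the factors of the modified metrics. -/

open scoped Manifold ContDiff Topology
open MeasureTheory Set Metric Real

namespace Pool.Agent.MP_417fa2_gt.Q2

theorem bfStmt : BfStmt := by
  intro M _ _ _ _ _ _ _ g
  have sy : ∀ φ ψ, Smooth φ → Smooth ψ → Bf g φ ψ = Bf g ψ φ := fun φ ψ hφ hψ => by
    have := (setupOf g).P_symm hψ hφ
    rwa [setupOf_P g hφ, setupOf_P g hψ] at this
  have two : ∀ {u v : M → ℝ}, Smooth u → Smooth v → ∀ a b : ℝ,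
      ∫ x, (a * u x + b * v x) ∂vol g = a * ∫ x, u x ∂vol g + b * ∫ x, v x ∂vol g :=
    fun hu hv a b => by
      rw [integral_add (μ := vol g) ((setupOf g).integrable (hu.const_mul a).continuous)
        ((setupOf g).integrable (hv.const_mul b).continuous), integral_const_mul,
        integral_const_mul]
  have li : ∀ φ ψ ψ', Smooth φ → Smooth ψ → Smooth ψ' → ∀ a b c : ℝ,
      Bf g φ (fun x => a * ψ x + b * ψ' x + c) = a * Bf g φ ψ + b * Bf g φ ψ' :=
    fun φ ψ ψ' hφ hψ hψ' a b c => by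
      have h := (hψ.const_mul a).add (hψ'.const_mul b)
      rw [Bf, Bf, Bf, ← two (hφ.mul (paneitz_smooth g hψ)) (hφ.mul (paneitz_smooth g hψ')),
        ← setupOf_P g (h.add (smooth_const c)), (setupOf g).P_add h (smooth_const c),
        (setupOf g).P_add (hψ.const_mul a) (hψ'.const_mul b), (setupOf g).P_const_mul hψ,
        (setupOf g).P_const_mul hψ', setupOf_P g hψ, setupOf_P g hψ']
      simp only [(setupOf g).P_const]
      congr 1
      funext x
      ring
  refine ⟨sy, li, fun ψ ψ' hψ hψ' a b => ?_, fun h φ ψ hφ hψ => ?_⟩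
  · rw [qf, qf, qf, ← two ((qCurv_smooth g).mul hψ) ((qCurv_smooth g).mul hψ')]
    congr 1
    funext x
    ring
  · have := discrim_le_zero (a := Bf g φ φ) (b := 2 * Bf g φ ψ) (c := Bf g ψ ψ) fun t => by
      have k := ((hφ.const_mul t).add (hψ.const_mul 1)).add (smooth_const 0)
      have := h _ k
      rw [li _ _ _ k hφ hψ, sy _ _ k hφ, sy _ _ k hψ, li _ _ _ hφ hφ hψ, li _ _ _ hψ hφ hψ,
        sy _ _ hψ hφ] at this
      linarith
    rw [← sqrt_mul (h φ hφ)]
    refine abs_le_sqrt ?_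
    rw [discrim] at this
    linarith

theorem fhStmt (h1 : CoFacts) (h2 : ChiFacts) (h3 : BStmt) : FHStmt := by
  intro M _ _ _ _ _ _ _ X R s hR hR' hs hr hz
  have B := h3 M X
  have hb : ball (0 : E4) r0 ⊆ ball 0 1 := ball_subset_ball (by norm_num [r0])
  have hc := (h2.tst R hR).sm.contDiffOn (s := ball 0 r0)
  have rc : Rad (chi R) := fun y y' a b => by simp only [chi, h1.nsq, a, b]
  have z1 : ∀ y : E4, 2 * R ≤ ‖y‖ → -(chi R y * f0 y) + s y = 0 := fun y k => by
    simp [h2.zero R hR y k, hz y (by linarith)]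
  have z2 : ∀ y : E4, 2 * R ≤ ‖y‖ → -(chi R y * h0 y) = 0 := fun y k => by simp [h2.zero R hR y k]
  have lt : 2 * R < r0 := by norm_num [r0]; linarith
  refine ⟨Smooth.sum fun p _ => B.ext_sm p _ _ lt
      ((hc.mul (h1.f0_sm.mono hb)).neg.add hs.contDiffOn) z1,
    Smooth.sum fun p _ => B.ext_sm p _ _ lt (hc.mul (h1.h0_sm.mono hb)).neg z2,
    fun x => Finset.sum_congr rfl fun p hp => B.ext_J p hp _ (fun y y' a b => ?_) x,
    fun x => Finset.sum_congr rfl fun p hp => B.ext_J p hp _ (fun y y' a b => ?_) x,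
    fun x k => ⟨Finset.sum_eq_zero fun p hp => B.ext_far p x _ _ z1 (k p hp),
      Finset.sum_eq_zero fun p hp => B.ext_far p x _ _ z2 (k p hp)⟩, fun p hp y hy => ?_⟩
  · simp only [rc y y' a b, hr y y' a b, f0, a]
  · simp only [rc y y' a b, h0, b]
  · have k : ‖y‖ + 2 * R ≤ r0 := by norm_num [r0, r1] at hy ⊢; linarith
    simp only [sOf, hOf, L0.FF, L0.HH, B.sum_par p hp _ _ (by positivity) z1 y k,
      B.sum_par p hp _ _ (by positivity) z2 y k, s0]
    constructor <;> ring

end Pool.Agent.MP_417fa2_gt.Q2
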