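import Pool.Agent.MP_417fa2_gt.Q2.ASpec

/-! A20. The potential on the manifold and the equation of the remainder. -/

open scoped Manifold ContDiff Topology
open MeasureTheory Set Metric Real Filter

namespace Pool.Agent.MP_417fa2_gt.Q2

open DE (lp)

namespace A20

theorem log_le {a b : ℝ} (ha : 0 ≤ a) (h1 : a ≤ 6 / 5 * b) (h2 : b ≤ 6 / 5 * a) :
    max (-log a) 0 ≤ max (-log b) 0 + 1 := by
  have h0 := le_max_right (-log b) 0
  rcases ha.eq_or_lt with rfl | ha
  · rw [log_zero, neg_zero, max_self]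
    linarith
  · have hb : 0 < b := by linarith
    have h3 : log b ≤ log (6 / 5 * a) := log_le_log hb h2
    rw [log_mul (by norm_num) ha.ne'] at h3
    have h4 : log (6 / 5 : ℝ) ≤ 6 / 5 - 1 := log_le_sub_one_of_pos (by norm_num)
    exact max_le (by linarith [le_max_left (-log b) 0]) (by linarith)

variable {M : Type} [TopologicalSpace M] [ChartedSpace E4 M] [IsManifold (𝓡 4) ∞ M]
  [MeasurableSpace M] {X : L0 M} {Y : L1 X}

/-- The cut-off density is admissible for the potential. -/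
theorem sig (hc : ChiFacts) {ρ : E4 → ℝ} (h : Den ρ) {t : ℝ} (ht : 0 < t) :
    Tst (fun y => chi t y * ρ y) ∧ (∀ y, 0 ≤ chi t y * ρ y) ∧
      (∀ y, 2 * t ≤ ‖y‖ → chi t y * ρ y = 0) ∧ ∫ y, chi t y * ρ y ≤ 1 := by
  have T := (hc.tst t ht).mul_right h.sm.sm
  refine ⟨T, fun y => mul_nonneg (hc.nonneg t y) (h.nonneg y),
    fun y hy => by rw [hc.zero t ht y hy, zero_mul], le_trans ?_ h.mass⟩
  exact integral_mono T.integrable h.sm.integrable fun y =>
    mul_le_of_le_one_left (h.nonneg y) (hc.le_one t y)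

omit [IsManifold (𝓡 4) ∞ M] [MeasurableSpace M] in
theorem extz_nonneg (p : M) {F : E4 → ℝ} (h : ∀ y, 0 ≤ F y) (x : M) : 0 ≤ extz p F x :=
  indicator_nonneg (fun _ _ => h _) x

theorem Phi_par (B : BFacts X) (Z : L2' Y) (u : M → ℝ) (p : M) (t : ℝ) {y : E4} (hy : ‖y‖ < r0) :
    Z.Phi u p t (param p y) = pot Y.R (fun y => chi t y * Z.rhoE u p y) y :=
  B.ext_par p _ y hy

theorem Phi_far (hc : ChiFacts) (hp : PotStmt) (B : BFacts X) {Z : L2' Y} (F : ZFacts Z)
    {u : M → ℝ} (hu : Z.Crit u) {p : M} (hfix : p ∈ X.fix) {t : ℝ} (ht : 0 < t)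
    (ht' : 2 * t ≤ Y.R / 32) {x : M} (hx : Y.R / 8 ≤ X.d p x) : Z.Phi u p t x = 0 := by
  obtain ⟨C, hC⟩ := hp Y.R Y.R_pos (by linarith [Y.R_le])
  obtain ⟨s1, s2, s3, s4⟩ := sig hc (F.den u hu.sm hu.inv p hfix) ht
  exact B.ext_far p x _ _ ((hC t ht ht').1 _ s1 s2 s3 s4).2.1 hx

theorem chi_sm (hc : ChiFacts) (B : BFacts X) (p : M) {t : ℝ} (ht : 0 < t) (ht' : 2 * t < r0) :
    Smooth (extz p (chi t)) :=
  B.ext_sm p _ (2 * t) ht' (hc.tst t ht).sm.contDiffOn (hc.zero t ht)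

/-- Integrals against the cut-off density, in the chart. -/
theorem chart_int (hc : ChiFacts) (B : BFacts X) (V : VFacts X) (Z : L2' Y) (u : M → ℝ) (p : M)
    {t : ℝ} (ht : 0 < t) (ht' : 2 * t ≤ r1) {f : M → ℝ}
    (hm : Measurable fun x => f x * (extz p (chi t) x * Z.rho u x))
    (hi : Integrable (fun x => f x * (extz p (chi t) x * Z.rho u x)) X.μ) :
    IntegrableOn (fun y => f (param p y) * (chi t y * Z.rhoE u p y)) (ball 0 r1) ∧
    ∫ x, f x * (extz p (chi t) x * Z.rho u x) ∂X.μ =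
      ∫ y in ball (0 : E4) r1, f (param p y) * (chi t y * Z.rhoE u p y) := by
  have h10 : r1 < r0 := by norm_num [r0, r1]
  obtain ⟨h1, h2⟩ := V.chart p r1 h10.le _ hm
  have e : EqOn (fun y => f (param p y) * (extz p (chi t) (param p y) * Z.rho u (param p y)) * rh y)
      (fun y => f (param p y) * (chi t y * Z.rhoE u p y)) (ball 0 r1) := by
    intro y hy
    rw [mem_ball_zero_iff] at hy
    simp only [L2'.rhoE, loc, B.ext_par p _ y (hy.trans h10),
      hc.one r1 (by norm_num [r1]) y hy.le]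
    ring
  refine ⟨(h1.1 hi.integrableOn).congr_fun e measurableSet_ball, ?_⟩
  rw [← setIntegral_congr_fun measurableSet_ball e, ← h2]
  refine (setIntegral_eq_integral_of_forall_compl_eq_zero fun x hx => ?_).symm
  rw [B.ext_far p x _ (2 * t) (hc.zero t ht) (ht'.trans (not_lt.1 hx)), zero_mul, mul_zero]

variable [CompactSpace M] [BorelSpace M]

theorem int_cont (V : VFacts X) {f : M → ℝ} (h : Continuous f) : Integrable f X.μ :=
  haveI := V.fin
  h.integrable_of_hasCompactSupport (HasCompactSupport.of_compactSpace f)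

theorem upper (hc : ChiFacts) (B : BFacts X) (V : VFacts X) (K : KInt X) {Z : L2' Y}
    (F : ZFacts Z) {u : M → ℝ} (hu : Smooth u) (p : M) {t : ℝ} (ht : 0 < t) (ht' : 2 * t ≤ r1)
    (h0 : ∀ y, 0 ≤ chi t y * Z.rhoE u p y)
    (h1 : ∀ y, Integrable (fun x => max (-log ‖y - x‖) 0 * (chi t x * Z.rhoE u p x)) ∧
      pot Y.R (fun y => chi t y * Z.rhoE u p y) y ≤
        2 * ∫ x, max (-log ‖y - x‖) 0 * (chi t x * Z.rhoE u p x)) (y : M) :
    Z.Phi u p t y ≤ 2 * ∫ x, (ell X.d x y + 1) * (extz p (chi t) x * Z.rho u x) ∂X.μ := by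
  have h10 : r1 < r0 := by norm_num [r0, r1]
  obtain ⟨r1', r2, -⟩ := F.rho_sm u hu
  rcases le_or_gt r0 (X.d p y) with hy | hy
  · rw [L2'.Phi, extz, indicator_of_notMem (fun h => not_lt.2 hy ((X.hd.src p y).1 h))]
    exact mul_nonneg two_pos.le (integral_nonneg fun x => mul_nonneg
      (add_nonneg (le_max_right _ _) one_pos.le)
      (mul_nonneg (extz_nonneg p (hc.nonneg t) x) (r2 x).le))
  obtain ⟨y₀, e1, rfl, -⟩ := B.chart p y hy
  rw [← e1] at hy
  have c1 : Continuous fun x => extz p (chi t) x * Z.rho u x :=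
    ((chi_sm hc B p ht (ht'.trans_lt h10)).mul r1').continuous
  have m1 : Measurable fun x => ell X.d x (param p y₀) := by
    simp only [← K.lgn_one]
    exact (K.meas 1).comp (measurable_id.prodMk measurable_const)
  have i1 := (K.int 1 one_pos le_rfl _ c1).1 (param p y₀)
  simp only [K.lgn_one] at i1
  obtain ⟨i2, e2⟩ := chart_int hc B V Z u p ht ht' (f := fun x => ell X.d x (param p y₀) + 1)
    ((m1.add_const 1).mul c1.measurable)
    (by simp only [add_mul, one_mul]; exact i1.add (int_cont V c1))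
  rw [Phi_par B Z u p t hy, e2]
  refine (h1 y₀).2.trans (mul_le_mul_of_nonneg_left ?_ two_pos.le)
  rw [← setIntegral_eq_integral_of_forall_compl_eq_zero (s := ball (0 : E4) r1) fun x hx => by
    rw [hc.zero t ht x (ht'.trans (not_lt.1 fun h => hx (mem_ball_zero_iff.2 h))), zero_mul,
      mul_zero]]
  refine setIntegral_mono_on (h1 y₀).1.integrableOn i2 measurableSet_ball fun x hx => ?_
  have hx' : ‖x‖ < r0 := (mem_ball_zero_iff.1 hx).trans h10
  refine mul_le_mul_of_nonneg_right ?_ (h0 x)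
  rw [norm_sub_rev]
  exact log_le (norm_nonneg _) (X.hd.lo p x y₀ hx' hy) (X.hd.hi p x y₀ hx' hy)

theorem weq (hc : ChiFacts) (hn : NbFacts) (hl : LocFacts) (hp : PotStmt) (B : BFacts X)
    (hB : ∀ g : RMetric M, BfFacts g) (V : VFacts X) (K : KInt X) (C : Ch X)
    (hZ : ∀ Z : L2' Y, ZFacts Z) (hF : ∀ Z : L2' Y, ZForm Z) (hL : Lam Y) : Weq Y := by
  classical
  obtain ⟨C₁, hP⟩ := hp Y.R Y.R_pos (by linarith [Y.R_le])
  obtain ⟨hz, C₂, hC₂, hch⟩ := C
  obtain ⟨C₃, hC₃, hL⟩ := hL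
  have hR := Y.R_pos
  have hR' := Y.R_le
  have hN : (0 : ℝ) ≤ X.fix.card := Nat.cast_nonneg _
  have k0 : 0 < 100 * C₂ * ((X.fix.card : ℝ) + 1) := by positivity
  refine ⟨|C₁| * √C₂ + C₃, by positivity, (hL.and (Ev.of_η
    (fun _ => 1 / (100 * C₂ * (X.fix.card + 1))) fun _ _ => by positivity)).mono ?_⟩
  rintro Z ⟨hL, hη⟩ u p t hu hfix ht ht'
  have F := hZ Z
  have G := hF Z
  have h1 : 2 * t ≤ r1 := by rw [r1]; linarith
  have h10 : r1 < r0 := by norm_num [r0, r1]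
  obtain ⟨s1, s2, s3, s4⟩ := sig hc (F.den u hu.sm hu.inv p hfix) ht
  obtain ⟨p1, p2, p3, p4, -, -, p5⟩ := (hP t ht ht').1 _ s1 s2 s3 s4
  have sΦ : Smooth (Z.Phi u p t) :=
    B.ext_sm p _ (Y.R / 8) (by rw [r0]; linarith) p1.sm.contDiffOn p2
  have sU : Smooth fun x => u x - Z.psi x := hu.sm.sub F.psi_sm
  have sw : Smooth (Z.w u p t) := sU.sub sΦ
  have sχ := chi_sm hc B p ht (h1.trans_lt h10)
  refine ⟨sΦ, sw, sχ, fun y => ⟨extz_nonneg p p3 y, upper hc B V K F hu.sm p ht h1 s2 p4 y⟩, ?_⟩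
  obtain ⟨sv, n0, nv⟩ := hz _ sw
  obtain ⟨b1, -⟩ := hch _ sw
  obtain ⟨-, b2⟩ := hL _ sw
  obtain ⟨sρ, -, -⟩ := F.rho_sm u hu.sm
  set c : ℝ := ⨍ y, Z.w u p t y ∂X.μ with hc0
  set v := X.z (Z.w u p t) with hv
  set n := X.nn (Z.w u p t) with hn0
  have eU : (fun x => u x - Z.psi x) = fun x => 1 * v x + 1 * Z.Phi u p t x + c := by
    funext x
    simp only [hv, L0.z, L2'.w, hc0]
    ring
  have eu : u = fun x => 1 * (u x - Z.psi x) + 1 * Z.psi x + 0 := by
    funext x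
    ring
  have a1 : Bf Z.g v u = Bf Z.g v (fun x => u x - Z.psi x) + Bf Z.g v Z.psi := by
    have := (hB Z.g).lin v _ _ sv sU F.psi_sm 1 1 0
    rw [← eu] at this
    linarith
  have a2 := hu.eqn v sv
  have a3 := G.B_eq v _ sv sU
  have a4 : Bf Y.g v (fun x => u x - Z.psi x) = Bf Y.g v v + Bf Y.g v (Z.Phi u p t) := by
    have := (hB Y.g).lin v _ _ sv sv sΦ 1 1 c
    rw [← eU] at this
    linarith
  have a5 : 99 / 100 * n ≤ Bf Y.g v v := by
    have := (abs_le.1 (Y.close v sv)).1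
    rw [nv] at this
    nlinarith [Y.κ_le]
  have a6 : Bf Y.g v (Z.Phi u p t) = ∫ y, lp (pot Y.R fun y => chi t y * Z.rhoE u p y) y *
      lp (loc p v) y := by
    rw [L2'.Phi, G.flatB p hfix _ p1 (fun y hy => p2 y (by linarith)) v sv]
    simp only [mul_comm]
  have a7 := (abs_le.1 (p5 _ (B.loc_tst p v sv))).1
  have a8 : C₁ * √(eN 2 (loc p v)) ≤ |C₁| * √C₂ * √n := by
    rw [mul_assoc, ← Real.sqrt_mul hC₂.le]
    exact mul_le_mul (le_abs_self _) (Real.sqrt_le_sqrt (b1 p)) (Real.sqrt_nonneg _) (abs_nonneg _)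
  have c1 : Continuous fun x => v x * (extz p (chi t) x * Z.rho u x) :=
    (sv.mul (sχ.mul sρ)).continuous
  have a9 : ∫ x, v x * (extz p (chi t) x * Z.rho u x) ∂X.μ =
      ∫ y, chi t y * Z.rhoE u p y * loc p v y := by
    rw [(chart_int hc B V Z u p ht h1 c1.measurable (int_cont V c1)).2,
      ← setIntegral_eq_integral_of_forall_compl_eq_zero (s := ball (0 : E4) r1)
        (f := fun y => chi t y * Z.rhoE u p y * loc p v y) fun x hx => by
        rw [s3 x (h1.trans (not_lt.1 fun h => hx (mem_ball_zero_iff.2 h))), zero_mul]]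
    refine setIntegral_congr_fun measurableSet_ball fun y hy => ?_
    simp only [loc, hc.one r1 (by norm_num [r1]) y (mem_ball_zero_iff.1 hy).le]
    ring
  have a10 : ∫ x, v x * ((1 - extz p (chi t) x) * Z.rho u x) ∂X.μ =
      (∫ x, v x * Z.rho u x ∂X.μ) - ∫ x, v x * (extz p (chi t) x * Z.rho u x) ∂X.μ := by
    rw [← integral_sub (int_cont V (sv.mul sρ).continuous) (int_cont V c1)]
    exact integral_congr_ae (ae_of_all _ fun x => by ring)
  have hs : tsupport Z.s ⊆ ball 0 r1 := fun y hy => by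
    have := (hn.nb_norm Z.r Z.η Z.r_pos Z.η_pos (by linarith [Z.η_le, Z.r_pos]) y (F.s_supp hy)).2
    rw [mem_ball_zero_iff, r1]
    linarith [Z.r_le]
  have a11 : ∀ p' ∈ X.fix.erase p,
      -(Z.η * (C₂ * n)) ≤ Tf Z.s (loc p' v) (loc p' fun x => u x - Z.psi x) := by
    intro p' hp'
    obtain ⟨hne, hp'⟩ := Finset.mem_erase.1 hp'
    have T := B.loc_tst p' v sv
    have z0 := B.loc_ext' p hfix p' hp' hne _ fun y hy => p2 y (by linarith)
    rw [hl.Tf_congr Z.s _ _ _ _ (ball 0 r1) 0 c Z.tube.sm isOpen_ball hs T T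
      (B.loc_tst p' _ sU) T (fun y _ => (add_zero _).symm) fun y hy => ?_]
    · have k1 := (abs_le.1 (Z.tube.t1 _ _ T T)).1
      rw [mul_assoc, Real.mul_self_sqrt (eN_nonneg _ _)] at k1
      nlinarith [b1 p', Z.η_pos]
    · have k2 := congrFun z0 y
      have k3 := congrFun eU (param p' y)
      simp only [loc, hc.one r1 (by norm_num [r1]) y (mem_ball_zero_iff.1 hy).le, one_mul]
        at k2 k3 ⊢
      rw [k3, L2'.Phi, k2, add_zero]
  have a12 := Finset.card_nsmul_le_sum _ _ _ a11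
  have a13 : ((X.fix.erase p).card : ℝ) * (Z.η * (C₂ * n)) ≤ 1 / 100 * n := by
    have k1 : ((X.fix.erase p).card : ℝ) ≤ X.fix.card + 1 := by
      have : ((X.fix.erase p).card : ℝ) ≤ X.fix.card := by exact_mod_cast Finset.card_erase_le
      linarith
    rw [le_div_iff₀ k0] at hη
    have k2 : 0 ≤ Z.η * (C₂ * n) := mul_nonneg Z.η_pos.le (mul_nonneg hC₂.le n0)
    nlinarith [mul_le_mul_of_nonneg_right k1 k2, mul_le_mul_of_nonneg_right hη n0]
  rw [← Finset.add_sum_erase _ _ hfix] at a3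
  rw [nsmul_eq_mul] at a12
  have a14 := (abs_le.1 b2).1
  have a15 := neg_abs_le (Tf Z.s (loc p v) (loc p fun x => u x - Z.psi x))
  rw [L2'.Lam] at a14
  rw [a10, a9]
  linarith

end A20

theorem weqStmt (hc : ChiFacts) (hn : NbFacts) (hl : LocFacts) (hp : PotStmt) (hB : BStmt)
    (hBf : BfStmt) (hV : VolsStmt) (hK : KIntStmt) (hC : ChStmt) (hZ : ZStmt) (hF : ZFormStmt)
    (hL : LamStmt) : WeqStmt := fun M _ _ _ _ _ _ _ X Y =>
  A20.weq hc hn hl hp (hB M X) (hBf M) (hV M X) (hK M X) (hC M X) (hZ M X Y) (hF M X Y) (hL M X Y)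

end Pool.Agent.MP_417fa2_gt.Q2
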