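import Pool.Agent.MP_417fa2_gt.Q2.ASpec

/-! A21, A23. The two uses of the loop. -/

open scoped Manifold ContDiff Topology
open MeasureTheory Set Metric Real Filter

namespace Pool.Agent.MP_417fa2_gt.Q2

open DE (lp)

namespace A21

theorem ann_tst (hχ : ChiFacts) {r : ℝ} (hr : 0 < r) : Tst (ann r) :=
  (hχ.tst _ (by linarith)).mul_right (contDiff_const.sub (hχ.tst _ (by linarith)).sm)

theorem ann_one (hχ : ChiFacts) {r : ℝ} (hr : 0 < r) {y : E4} (h1 : r / 2 ≤ ‖y‖)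
    (h2 : ‖y‖ ≤ 2 * r) : ann r y = 1 := by
  rw [ann, hχ.one _ (by linarith) y h2, hχ.zero _ (by linarith) y (by linarith)]
  ring

theorem ann_zero (hχ : ChiFacts) {r : ℝ} (hr : 0 < r) {y : E4} (h1 : ‖y‖ ≤ r / 4) :
    ann r y = 0 := by
  rw [ann, hχ.one (r / 4) (by linarith) y h1]
  ring

theorem sig_facts (hχ : ChiFacts) {t : ℝ} (ht : 0 < t) {ρ : E4 → ℝ} (h : Den ρ) :
    Tst (fun y => chi t y * ρ y) ∧ (∀ y, 0 ≤ chi t y * ρ y) ∧
      (∀ y : E4, 2 * t ≤ ‖y‖ → chi t y * ρ y = 0) ∧ ∫ y, chi t y * ρ y ≤ 1 := by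
  have h1 : Tst fun y => chi t y * ρ y := (hχ.tst t ht).mul_right h.sm.sm
  refine ⟨h1, fun y => mul_nonneg (hχ.nonneg t y) (h.nonneg y),
    fun y hy => by rw [hχ.zero t ht y hy, zero_mul], le_trans ?_ h.mass⟩
  exact integral_mono h1.integrable h.sm.integrable fun y =>
    mul_le_of_le_one_left (h.nonneg y) (hχ.le_one t y)

theorem small {m r η CT c n E : ℝ} {s φ ψ : E4 → ℝ} (h : Tube m r η CT s) (hφ : Tst φ)
    (hψ : Tst ψ) (hc : 0 ≤ c) (h1 : eN 2 φ ≤ c * n) (h2 : eN 2 ψ ≤ E) (h0 : 0 ≤ η)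
    (hη : η ≤ 1 / (√c * √E + 1)) : |Tf s φ ψ| ≤ √n := by
  have h3 : √(eN 2 φ) ≤ √c * √n := by
    rw [← Real.sqrt_mul hc]
    exact Real.sqrt_le_sqrt h1
  have h4 : √(eN 2 ψ) ≤ √E := Real.sqrt_le_sqrt h2
  have h5 : η * (√c * √E + 1) ≤ 1 := (le_div_iff₀ (by positivity)).1 hη
  calc |Tf s φ ψ| ≤ η * √(eN 2 φ) * √(eN 2 ψ) := h.t1 φ ψ hφ hψ
    _ ≤ η * (√c * √n) * √E := by gcongr
    _ = η * (√c * √E) * √n := by ring
    _ ≤ 1 * √n := by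
      gcongr
      nlinarith
    _ = √n := one_mul _

theorem ev_pow {γ ε : ℝ} (hγ : γ ≤ 1 / 4) (hε : 0 < ε) :
    ∀ᶠ r in 𝓝[>] (0 : ℝ), r ^ (1 - γ) ≤ ε := by
  have h := (Real.continuousAt_rpow_const 0 (1 - γ) (Or.inr (by linarith))).tendsto
  rw [Real.zero_rpow (by linarith)] at h
  exact (h.eventually (ge_mem_nhds hε)).filter_mono nhdsWithin_le_nhds

theorem ann_int (hχ : ChiFacts) {φ U : E4 → ℝ} (hφ : Tst φ) {R : ℝ} (hR : 0 < R)
    (h : ∀ y : E4, R / 8 < ‖y‖ → U y = φ y) :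
    ∫ y in {y : E4 | R / 4 ≤ ‖y‖ ∧ ‖y‖ ≤ R / 2}, (U y ^ 2 + D1 U y ^ 2 + lp U y ^ 2) ≤ eN 2 φ := by
  have hm : MeasurableSet {y : E4 | R / 4 ≤ ‖y‖ ∧ ‖y‖ ≤ R / 2} :=
    ((isClosed_le continuous_const continuous_norm).inter
      (isClosed_le continuous_norm continuous_const)).measurableSet
  have i1 := hφ.integrable_sq
  have i2 : Integrable fun y => D1 φ y ^ 2 := by
    have : (fun y => D1 φ y ^ 2) = fun y => ∑ i, pd i φ y ^ 2 :=
      funext fun y => Real.sq_sqrt (Finset.sum_nonneg fun _ _ => sq_nonneg _)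
    rw [this]
    exact integrable_finsetSum _ fun i _ => (hφ.pd i).integrable_sq
  have i3 := (DE.tst_lp hφ).integrable_sq
  have i4 : Integrable fun y => φ y ^ 2 + D1 φ y ^ 2 := i1.add i2
  have i5 : Integrable fun y => φ y ^ 2 + D1 φ y ^ 2 + lp φ y ^ 2 := i4.add i3
  rw [hχ.eN2 φ hφ, hχ.hess φ hφ, ← integral_add i1 i2, ← integral_add i4 i3]
  refine le_trans (le_of_eq (setIntegral_congr_fun hm fun y hy => ?_))
    (setIntegral_le_integral i5 (ae_of_all _ fun y => by positivity))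
  have hy' : R / 8 < ‖y‖ := by linarith [hy.1]
  have he : ∀ᶠ z in 𝓝 y, U z = φ z + 0 := by
    filter_upwards [(isOpen_lt continuous_const continuous_norm).mem_nhds hy'] with z hz
    rw [h z hz, add_zero]
  obtain ⟨e1, -, e3⟩ := hχ.D_congr U φ 0 y he
  simp only [h y hy', e1, e3]

variable {M : Type} [TopologicalSpace M] [T2Space M] [CompactSpace M] [ChartedSpace E4 M]
  [IsManifold (𝓡 4) ∞ M] [MeasurableSpace M] [BorelSpace M] {X : L0 M} {Y : L1 X}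

omit [T2Space M] [CompactSpace M] [IsManifold (𝓡 4) ∞ M] [MeasurableSpace M] [BorelSpace M] in
theorem eta_bd (hχ : ChiFacts) (p : M) (t : ℝ) (x : M) :
    0 ≤ extz p (chi t) x ∧ extz p (chi t) x ≤ 1 := by
  unfold extz
  by_cases h : x ∈ (chartAt E4 p).source
  · rw [indicator_of_mem h]
    exact ⟨hχ.nonneg _ _, hχ.le_one _ _⟩
  · rw [indicator_of_notMem h]
    exact ⟨le_rfl, zero_le_one⟩

omit [T2Space M] [CompactSpace M] [BorelSpace M] in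
theorem eta_one (hχ : ChiFacts) (hB : BFacts X) {p x : M} {t : ℝ} (ht : 0 < t)
    (h1 : X.d p x < r0) (h2 : X.d p x ≤ t) : extz p (chi t) x = 1 := by
  obtain ⟨y, e1, e2, -⟩ := hB.chart p x h1
  rw [← e2, hB.ext_par p _ y (e1 ▸ h1), hχ.one t ht y (e1 ▸ h2)]

omit [T2Space M] [CompactSpace M] in
theorem meas_ball (p : M) (t : ℝ) : MeasurableSet {x | X.d p x < t} :=
  (isOpen_lt (X.hd.cont.comp (Continuous.prodMk_right p)) continuous_const).measurableSet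

omit [T2Space M] in
theorem int_cont (hV : VFacts X) {f : M → ℝ} (hf : Continuous f) : Integrable f X.μ := by
  have := hV.fin
  exact hf.integrable_of_hasCompactSupport (HasCompactSupport.of_compactSpace f)

omit [T2Space M] in
theorem far (hV : VFacts X) {ρ : M → ℝ} (hc : Continuous ρ) (h0 : ∀ x, 0 < ρ x)
    (h1 : ∫ x, ρ x ∂X.μ = 1) {p y : M} {a b θ : ℝ} (h : a + b ≤ X.d p y)
    (hθ : 1 - θ ≤ ∫ x in {x | X.d p x < a}, ρ x ∂X.μ) :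
    ∫ x in {x | X.d y x < b}, ρ x ∂X.μ ≤ θ := by
  have hi := int_cont hV hc
  have hd : Disjoint {x | X.d p x < a} {x | X.d y x < b} := by
    rw [Set.disjoint_left]
    intro x h2 h3
    have h4 := X.hd.tri p x y
    rw [X.hd.symm x y] at h4
    simp only [mem_ofPred_eq] at h2 h3
    linarith
  have h2 := setIntegral_union hd (meas_ball y b) hi.integrableOn hi.integrableOn
  have h3 := setIntegral_le_integral (s := {x | X.d p x < a} ∪ {x | X.d y x < b}) hi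
    (ae_of_all _ fun x => (h0 x).le)
  linarith

omit [T2Space M] in
theorem rest (hV : VFacts X) {ρ η : M → ℝ} (hc : Continuous ρ) (hη : Continuous η)
    (h0 : ∀ x, 0 < ρ x) (h1 : ∫ x, ρ x ∂X.μ = 1) (h2 : ∀ x, 0 ≤ η x) {B : Set M}
    (hB : MeasurableSet B) (h3 : ∀ x ∈ B, η x = 1) :
    ∫ x, (1 - η x) * ρ x ∂X.μ ≤ 1 - ∫ x in B, ρ x ∂X.μ := by
  have i1 := int_cont hV hc
  have i2 : Integrable (fun x => η x * ρ x) X.μ := int_cont hV (hη.mul hc)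
  have e : ∫ x, (1 - η x) * ρ x ∂X.μ = 1 - ∫ x, η x * ρ x ∂X.μ := by
    rw [← h1, ← integral_sub i1 i2]
    congr 1
    funext x
    rw [h1]
    ring
  have h4 := setIntegral_le_integral (s := B) i2 (ae_of_all _ fun x => mul_nonneg (h2 x) (h0 x).le)
  have h5 : ∫ x in B, η x * ρ x ∂X.μ = ∫ x in B, ρ x ∂X.μ :=
    setIntegral_congr_fun hB fun x hx => by simp only [h3 x hx, one_mul]
  linarith

/-- The body of the loop inequality. -/
def LoopB (X : L0 M) (C : ℝ) : Prop := ∀ (μ₀ μ₁ δ Ψ C₂ : ℝ) (w Φ ψ η ρ : M → ℝ), 0 ≤ μ₀ → μ₀ ≤ 1 →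
  0 < μ₁ → μ₁ ≤ 1 / 4 → 0 < δ → δ ≤ 1 / 2 → 0 ≤ Ψ → 0 ≤ C₂ →
  Smooth w → Smooth Φ → Smooth ψ → Smooth η →
  (∀ x, ρ x = exp (4 * w x + 4 * Φ x + 4 * ψ x) / ∫ y, exp (4 * w y + 4 * Φ y + 4 * ψ y) ∂X.μ) →
  (∀ x, 0 ≤ η x ∧ η x ≤ 1) → (∀ x, -1 ≤ ψ x ∧ ψ x ≤ Ψ) →
  (∀ y, 0 ≤ Φ y ∧ Φ y ≤ 2 * ∫ x, (ell X.d x y + 1) * (η x * ρ x) ∂X.μ) →
  ∫ x, (1 - η x) * ρ x ∂X.μ ≤ μ₀ →
  (∀ y, η y ≠ 1 → ∫ x in {x | X.d y x < δ}, ρ x ∂X.μ ≤ μ₁) →
  24 / 25 * X.nn w ≤ 16 * π ^ 2 * (∫ x, X.z w x * ((1 - η x) * ρ x) ∂X.μ) + C₂ * √(X.nn w) →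
  X.nn w ≤ 20000 * μ₀ * (μ₀ + μ₁) * (log δ⁻¹ + Ψ) + C * (1 + C₂ ^ 2)

/-- The body of the equation of the remainder. -/
def WeqB (Z : L2' Y) (C : ℝ) (u : M → ℝ) (p : M) (t : ℝ) : Prop :=
  Smooth (Z.Phi u p t) ∧ Smooth (Z.w u p t) ∧ Smooth (extz p (chi t)) ∧
  (∀ y, 0 ≤ Z.Phi u p t y ∧
    Z.Phi u p t y ≤ 2 * ∫ x, (ell X.d x y + 1) * (extz p (chi t) x * Z.rho u x) ∂X.μ) ∧
  49 / 50 * X.nn (Z.w u p t) ≤
    16 * π ^ 2 * (∫ x, X.z (Z.w u p t) x * ((1 - extz p (chi t) x) * Z.rho u x) ∂X.μ) +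
      C * √(X.nn (Z.w u p t)) +
      |Tf Z.s (loc p (X.z (Z.w u p t))) (loc p fun x => u x - Z.psi x)|

omit [T2Space M] [CompactSpace M] [BorelSpace M] in
theorem a_pos (Y : L1 X) : 0 < Y.a := div_pos Y.m_pos (by positivity)

omit [T2Space M] [CompactSpace M] [BorelSpace M] in
theorem core (hχ : ChiFacts) {Z : L2' Y} (hZ : ZFacts Z) {C Cw K μ₀ μ₁ δ t : ℝ} (hL : LoopB X C)
    {u : M → ℝ} {p : M} (hW : WeqB Z Cw u p t) (hCw : 0 ≤ Cw) (hK : 0 ≤ K) (a1 : 0 ≤ μ₀)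
    (a2 : μ₀ ≤ 1) (a3 : 0 < μ₁) (a4 : μ₁ ≤ 1 / 4) (a5 : 0 < δ) (a6 : δ ≤ 1 / 2)
    (hT : |Tf Z.s (loc p (X.z (Z.w u p t))) (loc p fun x => u x - Z.psi x)| ≤
      1 / 50 * X.nn (Z.w u p t) + K * √(X.nn (Z.w u p t)))
    (h0 : ∫ x, (1 - extz p (chi t) x) * Z.rho u x ∂X.μ ≤ μ₀)
    (h1 : ∀ y, extz p (chi t) y ≠ 1 → ∫ x in {x | X.d y x < δ}, Z.rho u x ∂X.μ ≤ μ₁) :
    X.nn (Z.w u p t) ≤ 20000 * μ₀ * (μ₀ + μ₁) * (log δ⁻¹ + (Y.a / 4 * Z.L + 1)) +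
      C * (1 + (Cw + K) ^ 2) := by
  obtain ⟨w1, w2, w3, w4, w5⟩ := hW
  have ha := a_pos Y
  have hL1 := hZ.L_pos
  have e : ∀ x, 4 * Z.w u p t x + 4 * Z.Phi u p t x + 4 * (Z.psi x + Z.om x) =
      4 * u x + 4 * Z.om x := fun x => by
    unfold L2'.w
    ring
  refine hL μ₀ μ₁ δ _ _ _ _ (fun x => Z.psi x + Z.om x) _ (Z.rho u) a1 a2 a3 a4 a5 a6
    (by positivity) (add_nonneg hCw hK) w2 w1 (hZ.psi_sm.add hZ.om_sm) w3 (fun x => ?_)
    (eta_bd hχ p t) (fun x => ?_) w4 h0 h1 (by linarith)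
  · simp only [e]
    rfl
  · have h2 := hZ.psi_bd x
    have h3 := abs_le.1 (hZ.om_bd x)
    constructor <;> linarith [h2.1, h2.2, h3.1, h3.2]

omit [T2Space M] [CompactSpace M] [BorelSpace M] in
/-- On the tubes the cut-offs are one. -/
theorem on_tube (hχ : ChiFacts) (hN : NbFacts) (Z : L2' Y) {y : E4} (hy : y ∈ nb Z.r Z.η) :
    ann Z.r y = 1 ∧ chi r1 y = 1 := by
  have h1 := Z.r_pos
  have h2 := Z.r_le
  have h3 := Y.R_le
  obtain ⟨h4, h5⟩ := hN.nb_norm _ _ h1 Z.η_pos (by linarith [Z.η_le]) y hy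
  exact ⟨ann_one hχ h1 h4.le h5.le, hχ.one _ (by norm_num [r1]) y (by unfold r1; linarith)⟩

end A21

open A21

theorem loop1Stmt (hχ : ChiFacts) (hN : NbFacts) (hLoc : LocFacts) (hPot : PotStmt) (hBs : BStmt)
    (hVs : VolsStmt) (hChs : ChStmt) (hLs : LoopStmt) (hZs : ZStmt) (hWs : WeqStmt) :
    Loop1Stmt := by
  intro M _ _ _ _ _ _ _ X Y γ _ hγ
  have hB : BFacts X := hBs M X
  have hV : VFacts X := hVs M X
  obtain ⟨hz, c, hc, hCh⟩ : Ch X := hChs M X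
  obtain ⟨C, hL⟩ : Loop X := hLs M X
  obtain ⟨Cw, hCw, hW⟩ : Weq Y := hWs M X Y
  have hR := Y.R_pos
  have hR' := Y.R_le
  have ha := a_pos Y
  obtain ⟨CP, hP⟩ := hPot Y.R hR (by linarith)
  have hp : ∀ r : ℝ, ∃ C' : ℝ, 0 < r → r ≤ Y.R / 1000 → ∀ σ, Tst σ → (∀ y, 0 ≤ σ y) →
      (∀ y, 2 * (r / 16) ≤ ‖y‖ → σ y = 0) → ∫ y, σ y ≤ 1 →
      eN 2 (fun y => ann r y * pot Y.R σ y) ≤ C' := fun r => by
    by_cases h : 0 < r ∧ r ≤ Y.R / 1000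
    · obtain ⟨C', h'⟩ := (hP (r / 16) (by linarith [h.1]) (by linarith [h.2])).2 (ann r)
        (ann_tst hχ h.1) fun y hy => ann_zero hχ h.1 (by linarith)
      exact ⟨C', fun _ _ => h'⟩
    · exact ⟨0, fun h1 h2 => absurd ⟨h1, h2⟩ h⟩
  choose Cp hCp using hp
  have hm : ∀ r : ℝ, ∃ C' : ℝ, 0 ≤ C' ∧ (0 < r → ∀ φ, Tst φ →
      eN 2 (fun y => ann r y * φ y) ≤ C' * eN 2 φ) := fun r => by
    by_cases h : 0 < r
    · obtain ⟨C', h'⟩ := hχ.mul_eN _ (ann_tst hχ h)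
      exact ⟨|C'|, abs_nonneg _, fun _ φ hφ => (h' φ hφ).trans
        (mul_le_mul_of_nonneg_right (le_abs_self _) (eN_nonneg _ _))⟩
    · exact ⟨0, le_rfl, fun h1 => absurd h1 h⟩
  choose Cm hCm0 hCm using hm
  set C₁ : ℝ := 25000 * (log 32 + Y.a / 4 + 2) + |C * (1 + (Cw + 1) ^ 2)| with hC₁
  have hlog : 0 ≤ log 32 := Real.log_nonneg (by norm_num)
  have hC₁0 : 0 ≤ C₁ := by positivity
  refine ⟨(1 + c) * C₁, fun r => 2 * (2 * (Cm r * (c * (C₁ * log r⁻¹))) +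
    2 * eN 2 fun y => ann r y * (2 * Y.m * KK (Y.R / 16) r y)) + 2 * Cp r, ?_⟩
  refine (((hW.and (Ev.of_r (ev_pow hγ (by norm_num : (0 : ℝ) < 1 / 100)))).and
    (Ev.of_η (fun _ => 1 / (50 * c)) fun _ _ => by positivity)).and
    (Ev.of_η (fun r => 1 / (√c * √(Cp r) + 1)) fun _ _ => by positivity)).mono ?_
  rintro Z ⟨⟨⟨hWZ, hpow⟩, hη1⟩, hη2⟩ u p θ hθ hu ⟨hp, hconc⟩
  have hZ : ZFacts Z := hZs M X Y Z
  have hr := Z.r_pos
  have hr' := Z.r_le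
  have hL1 := hZ.L_pos
  have ht : 0 < Z.r / 16 := by linarith
  have ht' : 2 * (Z.r / 16) ≤ Y.R / 32 := by linarith
  have hWB : WeqB Z Cw u p (Z.r / 16) := hWZ u p _ hu hp ht ht'
  obtain ⟨ρ1, ρ2, ρ3⟩ := hZ.rho_sm u hu.sm
  obtain ⟨s1, s2, s3, s4⟩ := sig_facts hχ ht (hZ.den u hu.sm hu.inv p hp)
  obtain ⟨p1, p2, -⟩ := (hP _ ht ht').1 _ s1 s2 s3 s4
  have p3 := hCp Z.r hr hr' _ s1 s2 s3 s4
  set P : E4 → ℝ := pot Y.R fun y => chi (Z.r / 16) y * Z.rhoE u p y with hPdef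
  set w := Z.w u p (Z.r / 16) with hw
  have hws : Smooth w := hWB.2.1
  obtain ⟨z1, z2, -⟩ := hz w hws
  have hφ : Tst (loc p (X.z w)) := hB.loc_tst p _ z1
  have hφ2 : eN 2 (loc p (X.z w)) ≤ c * X.nn w := (hCh w hws).1 p
  have hA := ann_tst hχ hr
  have hlP : loc p (Z.Phi u p (Z.r / 16)) = P :=
    hB.loc_ext p P fun y hy => p2 y (by unfold r1 at hy; linarith)
  have hdec : ∀ y, loc p (fun x => u x - ⨍ x, w x ∂X.μ) y =
      loc p (X.z w) y + 2 * Y.m * KK (Y.R / 16) Z.r y + P y := fun y => by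
    rw [← congrFun hlP y, ← congrFun (hZ.psi_loc p hp) y]
    simp only [loc, L0.z, hw, L2'.w]
    ring
  have hT : |Tf Z.s (loc p (X.z w)) (loc p fun x => u x - Z.psi x)| ≤
      1 / 50 * X.nn w + 1 * √(X.nn w) := by
    have hAP : Tst fun y => ann Z.r y * P y := hA.mul_right p1.sm
    rw [hLoc.Tf_congr Z.s _ (loc p (X.z w)) _ (fun y => loc p (X.z w) y + ann Z.r y * P y)
      (nb Z.r Z.η) 0 (⨍ x, w x ∂X.μ) Z.tube.sm (hN.nb_open _ _) hZ.s_supp hφ hφ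
      (hB.loc_tst p _ (hu.sm.sub hZ.psi_sm)) (hφ.add hAP) (fun y _ => (add_zero _).symm)
      (fun y hy => ?_), (hLoc.Tf_add Z.s _ _ _ Z.tube.sm hφ hφ hAP).1]
    · have h1 := Z.tube.t1 _ _ hφ hφ
      rw [mul_assoc, Real.mul_self_sqrt (eN_nonneg _ _)] at h1
      have h2 := small Z.tube hφ hAP hc.le hφ2 p3 Z.η_pos.le hη2
      have h3 : Z.η * (50 * c) ≤ 1 := (le_div_iff₀ (by positivity)).1 hη1
      have h4 := mul_le_mul_of_nonneg_left hφ2 Z.η_pos.le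
      have h5 := mul_le_mul_of_nonneg_right h3 z2
      refine (abs_add_le _ _).trans ?_
      nlinarith
    · obtain ⟨e1, e2⟩ := on_tube hχ hN Z hy
      rw [e1, ← congrFun hlP y]
      simp only [loc, L0.z, hw, L2'.w, e2]
      ring
  have hr0 : r0 = 1 / 10 := rfl
  have key := core hχ hZ (μ₀ := 1) (μ₁ := 1 / 4) (δ := Z.r / 32) hL hWB hCw zero_le_one
    zero_le_one le_rfl (by norm_num) le_rfl (by linarith) (by linarith) hT ?_ ?_
  · have hlg : log (Z.r / 32)⁻¹ = log 32 + Z.L := by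
      rw [inv_div, div_eq_mul_inv, Real.log_mul (by norm_num) (inv_ne_zero hr.ne')]
      rfl
    have hn : X.nn w ≤ C₁ * Z.L := by
      rw [hlg] at key
      have h1 := le_abs_self (C * (1 + (Cw + 1) ^ 2))
      have h2 := mul_le_mul_of_nonneg_left hL1 (abs_nonneg (C * (1 + (Cw + 1) ^ 2)))
      have h3 := mul_le_mul_of_nonneg_left hL1 hlog
      rw [hC₁]
      nlinarith
    have hn0 : 0 ≤ C₁ * Z.L := z2.trans hn
    refine ⟨by nlinarith [mul_nonneg hc.le hn0], ⨍ x, w x ∂X.μ, ?_, ?_⟩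
    · have hK : Tst fun y => 2 * Y.m * KK (Y.R / 16) Z.r y :=
        hZ.psi_loc p hp ▸ hB.loc_tst p _ hZ.psi_sm
      have e : (fun y => ann Z.r y * loc p (fun x => u x - ⨍ x, w x ∂X.μ) y) = fun y =>
          (ann Z.r y * loc p (X.z w) y + ann Z.r y * (2 * Y.m * KK (Y.R / 16) Z.r y)) +
            ann Z.r y * P y := funext fun y => by rw [hdec]; ring
      have h1 := eN_add_le 2 ((hA.mul_right hφ.sm).add (hA.mul_right hK.sm)) (hA.mul_right p1.sm)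
      have h2 := eN_add_le 2 (hA.mul_right hφ.sm) (hA.mul_right hK.sm)
      have h3 := (hCm Z.r hr _ hφ).trans (mul_le_mul_of_nonneg_left
        (hφ2.trans (mul_le_mul_of_nonneg_left hn hc.le)) (hCm0 Z.r))
      rw [e]
      unfold L2'.L at h3
      linarith
    · refine (ann_int hχ hφ hR fun y hy => ?_).trans ?_
      · rw [hdec, p2 y hy.le, KK, hχ.zero _ (by linarith) y (by linarith)]
        ring
      · nlinarith [mul_le_mul_of_nonneg_left hn hc.le]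
  · have h1 := rest hV ρ1.continuous hWB.2.2.1.continuous ρ2 ρ3 (fun x => (eta_bd hχ p _ x).1)
      MeasurableSet.empty fun _ h => h.elim
    simpa using h1
  · intro y hy
    by_cases h : X.d p y < r0
    · refine hZ.quarter u hu.sm hu.inv p hp y _ h ?_
      by_contra h1
      exact hy (eta_one hχ hB ht h (by linarith))
    · exact (far hV ρ1.continuous ρ2 ρ3 (by linarith) hconc).trans hθ

theorem loop2Stmt (hχ : ChiFacts) (hN : NbFacts) (hLoc : LocFacts) (hBs : BStmt)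
    (hVs : VolsStmt) (hChs : ChStmt) (hLs : LoopStmt) (hZs : ZStmt) (hWs : WeqStmt)
    (h1s : Loop1Stmt) : Loop2Stmt := by
  intro M _ _ _ _ _ _ _ X Y θ γ hθ0 hθ hγ0 hγ
  have hB : BFacts X := hBs M X
  have hV : VFacts X := hVs M X
  obtain ⟨hz, c, hc, hCh⟩ : Ch X := hChs M X
  obtain ⟨C, hL⟩ : Loop X := hLs M X
  obtain ⟨Cw, hCw, hW⟩ : Weq Y := hWs M X Y
  obtain ⟨C₁, Cf, hF⟩ := (h1s M X Y : Loop1 Y) γ hγ0 hγ
  have hR := Y.R_pos
  have hR' := Y.R_le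
  have ha := a_pos Y
  refine ⟨40000 * θ ^ 2 + C * (1 + (Cw + 2) ^ 2), ?_⟩
  refine ((((hW.and hF).and (Ev.of_r (ev_pow hγ (by positivity : (0 : ℝ) < Y.R / 512)))).and
    (Ev.of_η (fun r => 1 / (√c * √(Cf r) + 1)) fun _ _ => by positivity)).and
    (Ev.of_η (fun r => 1 / (√c * √(eN 2 fun y => -(ann r y * (2 * Y.m * KK (Y.R / 16) r y))) + 1))
      fun _ _ => by positivity)).mono ?_
  rintro Z ⟨⟨⟨⟨hWZ, hFZ⟩, hpow⟩, hη1⟩, hη2⟩ u p hu hcn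
  obtain ⟨-, c₀, hc₀, -⟩ := hFZ u p θ hθ hu hcn
  obtain ⟨hp, hconc⟩ := hcn
  have hZ : ZFacts Z := hZs M X Y Z
  have hr := Z.r_pos
  have hL1 := hZ.L_pos
  have hδ : 0 < Z.r ^ (1 - γ) := Real.rpow_pos_of_pos hr _
  have hlg : log (Z.r ^ (1 - γ))⁻¹ = (1 - γ) * Z.L := by
    rw [Real.log_inv, Real.log_rpow hr, L2'.L, Real.log_inv]
    ring
  generalize Z.r ^ (1 - γ) = δ at hpow hconc hδ hlg ⊢
  have ht : 0 < 8 * δ := by linarith
  have hWB : WeqB Z Cw u p (8 * δ) := hWZ u p _ hu hp ht (by linarith)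
  obtain ⟨ρ1, ρ2, ρ3⟩ := hZ.rho_sm u hu.sm
  set w := Z.w u p (8 * δ) with hw
  have hws : Smooth w := hWB.2.1
  obtain ⟨z1, z2, -⟩ := hz w hws
  have hφ : Tst (loc p (X.z w)) := hB.loc_tst p _ z1
  have hφ2 : eN 2 (loc p (X.z w)) ≤ c * X.nn w := (hCh w hws).1 p
  have hA := ann_tst hχ hr
  have hT : |Tf Z.s (loc p (X.z w)) (loc p fun x => u x - Z.psi x)| ≤
      1 / 50 * X.nn w + 2 * √(X.nn w) := by
    have hK : Tst fun y => 2 * Y.m * KK (Y.R / 16) Z.r y :=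
      hZ.psi_loc p hp ▸ hB.loc_tst p _ hZ.psi_sm
    have hU : Tst fun y => ann Z.r y * loc p (fun x => u x - c₀) y :=
      hA.mul_right (hB.loc_tst p _ (hu.sm.sub (smooth_const c₀))).sm
    have hK' : Tst fun y => -(ann Z.r y * (2 * Y.m * KK (Y.R / 16) Z.r y)) :=
      (hA.mul_right hK.sm).neg
    rw [hLoc.Tf_congr Z.s _ (loc p (X.z w)) _ (fun y => ann Z.r y * loc p (fun x => u x - c₀) y +
        -(ann Z.r y * (2 * Y.m * KK (Y.R / 16) Z.r y)))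
      (nb Z.r Z.η) 0 c₀ Z.tube.sm (hN.nb_open _ _) hZ.s_supp hφ hφ
      (hB.loc_tst p _ (hu.sm.sub hZ.psi_sm)) (hU.add hK') (fun y _ => (add_zero _).symm)
      (fun y hy => ?_), (hLoc.Tf_add Z.s _ _ _ Z.tube.sm hφ hU hK').1]
    · have h1 := small Z.tube hφ hU hc.le hφ2 hc₀ Z.η_pos.le hη1
      have h2 := small Z.tube hφ hK' hc.le hφ2 le_rfl Z.η_pos.le hη2
      refine (abs_add_le _ _).trans ?_
      linarith
    · obtain ⟨e1, e2⟩ := on_tube hχ hN Z hy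
      rw [e1, ← congrFun (hZ.psi_loc p hp) y]
      simp only [loc, e2]
      ring
  have hr0 : r0 = 1 / 10 := rfl
  have key := core hχ hZ (μ₀ := θ) (μ₁ := θ) (δ := δ) hL hWB hCw zero_le_two
    hθ0.le (by linarith) hθ0 hθ hδ (by linarith) hT ?_ ?_
  · rw [hlg] at key
    have h1 : (1 - γ) * Z.L + Y.a / 4 * Z.L ≤ (1 + Y.a) * Z.L := by nlinarith
    have h2 := mul_le_mul_of_nonneg_left h1 (sq_nonneg θ)
    nlinarith
  · have h1 := rest hV ρ1.continuous hWB.2.2.1.continuous ρ2 ρ3 (fun x => (eta_bd hχ p _ x).1)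
      (meas_ball (X := X) p (4 * δ)) fun x hx => by
        have hx' : X.d p x < 4 * δ := hx
        exact eta_one hχ hB ht (by linarith) (by linarith)
    linarith
  · intro y hy
    refine far hV ρ1.continuous ρ2 ρ3 ?_ hconc
    by_contra h1
    exact hy (eta_one hχ hB ht (by linarith) (by linarith))

end Pool.Agent.MP_417fa2_gt.Q2
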