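import Pool.Agent.MP_417fa2_gt.Q2.ASpec

/-! A22. The mass near the circles. -/

open scoped Manifold ContDiff Topology
open MeasureTheory Set Metric Real Filter

namespace Pool.Agent.MP_417fa2_gt.Q2

namespace A22

/-- The annulus round the two circles. -/
def An (r : ℝ) : Set E4 := {y | r / 2 < ‖y‖ ∧ ‖y‖ < 2 * r}

theorem An_open (r : ℝ) : IsOpen (An r) :=
  (isOpen_lt continuous_const continuous_norm).inter (isOpen_lt continuous_norm continuous_const)

theorem An_sub (r : ℝ) : An r ⊆ closedBall 0 (2 * r) := fun _ hy =>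
  mem_closedBall_zero_iff.2 hy.2.le

theorem An_fin (r : ℝ) : volume (An r) ≠ ⊤ :=
  ((measure_mono (An_sub r)).trans_lt measure_closedBall_lt_top).ne

theorem An_pos {r : ℝ} (hr : 0 < r) : 0 < volume.real (An r) := by
  obtain ⟨y, hy⟩ := exists_norm_eq E4 hr.le
  exact ENNReal.toReal_pos ((An_open r).measure_ne_zero volume
    ⟨y, by constructor <;> linarith⟩) (An_fin r)

theorem intOn {r : ℝ} {F : E4 → ℝ} (h : ContinuousOn F (closedBall 0 (2 * r))) :
    IntegrableOn F (An r) :=
  (h.integrableOn_compact (isCompact_closedBall _ _)).mono_set (An_sub r)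

/-- The Euclidean core of the estimate. -/
theorem core {r t A K E N Cn : ℝ} {f ρ : E4 → ℝ} {T : Set E4} (hr : 0 < r) (ht : 0 < t)
    (hA : 0 < A) (hK : 0 ≤ K) (hT : MeasurableSet T) (hTA : T ⊆ An r)
    (hv : volume.real T ≤ Cn * r * t ^ 3) (hf : ContinuousOn f (closedBall 0 (2 * r)))
    (hρ : Tst ρ) (h0 : ∀ y, 0 ≤ ρ y)
    (hb : ∀ y ∈ An r, A * exp (-4) * exp (4 * f y) ≤ ρ y ∧ ρ y ≤ A * K * exp (4 * f y))
    (hE : ∫ y in An r, exp (8 * f y) ≤ E) (hN : ∫ y in An r, f y ^ 2 ≤ N) :
    ∫ y in T, ρ y ≤ K * (Cn * r + E) / 2 /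
      (exp (-4) * (exp (-2 - 2 * N / volume.real (An r)) * volume.real (An r)) / 4) *
        (t * √t) * gain r ρ := by
  have v0 := An_pos hr
  have mA := (An_open r).measurableSet
  set v := volume.real (An r) with hvd
  have i4 : IntegrableOn (fun y => exp (4 * f y)) (An r) := intOn (by fun_prop)
  have i8 : IntegrableOn (fun y => exp (8 * f y)) (An r) := intOn (by fun_prop)
  have i2 : IntegrableOn (fun y => f y ^ 2) (An r) := intOn (by fun_prop)
  have fT : volume T ≠ ⊤ := ((measure_mono hTA).trans_lt (An_fin r).lt_top).ne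
  have s0 : 0 < t * √t := by positivity
  have s2 : (t * √t) ^ 2 = t ^ 3 := by rw [mul_pow, sq_sqrt ht.le]; ring
  set s := t * √t with hs
  have u1 : ∫ y in T, exp (4 * f y) ≤ s * ((Cn * r + E) / 2) := by
    have ic : IntegrableOn (fun _ : E4 => 1 / (2 * s)) T := integrableOn_const fT
    have k1 : ∫ y in T, exp (4 * f y) ≤ ∫ y in T, (1 / (2 * s) + s / 2 * exp (8 * f y)) := by
      refine setIntegral_mono_on (i4.mono_set hTA) (ic.add ((i8.mono_set hTA).const_mul _)) hT
        fun y _ => ?_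
      have e8 : exp (8 * f y) = exp (4 * f y) ^ 2 := by rw [← exp_nat_mul]; congr 1; push_cast; ring
      have h1 : 1 / (2 * s) + s / 2 * exp (4 * f y) ^ 2 - exp (4 * f y) =
          (1 - s * exp (4 * f y)) ^ 2 / (2 * s) := by
        field_simp
        ring
      have h2 : 0 ≤ (1 - s * exp (4 * f y)) ^ 2 / (2 * s) := by positivity
      rw [e8]
      linarith
    rw [integral_add ic ((i8.mono_set hTA).const_mul _), setIntegral_const, integral_const_mul,
      smul_eq_mul] at k1
    have k2 : ∫ y in T, exp (8 * f y) ≤ E :=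
      (setIntegral_mono_set i8 (ae_of_all _ fun y => (exp_pos _).le) hTA.eventuallyLE).trans hE
    have k3 : volume.real T * (1 / (2 * s)) ≤ s * (Cn * r) / 2 := by
      rw [mul_one_div, div_le_div_iff₀ (by positivity) two_pos]
      rw [← s2] at hv
      nlinarith
    have k4 := mul_le_mul_of_nonneg_left k2 (by positivity : 0 ≤ s / 2)
    linarith
  have u2 : ∫ y in T, ρ y ≤ A * K * (s * ((Cn * r + E) / 2)) := by
    refine (setIntegral_mono_on hρ.integrable.integrableOn ((i4.mono_set hTA).const_mul (A * K)) hT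
      fun y hy => (hb y (hTA hy)).2).trans ?_
    rw [integral_const_mul]
    exact mul_le_mul_of_nonneg_left u1 (by positivity)
  set c := -2 - 2 * N / v with hc
  have l1 : exp c * v ≤ ∫ y in An r, exp (4 * f y) := by
    have ic : IntegrableOn (fun _ : E4 => -1 - c) (An r) := integrableOn_const (An_fin r)
    have k1 : ∫ y in An r, exp c * (-1 - c - 2 * f y ^ 2) ≤ ∫ y in An r, exp (4 * f y) := by
      refine setIntegral_mono_on ((ic.sub (i2.const_mul 2)).const_mul _) i4 mA fun y _ => ?_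
      have h1 := add_one_le_exp (4 * f y - c)
      have h2 : exp (4 * f y) = exp c * exp (4 * f y - c) := by rw [← exp_add]; congr 1; ring
      rw [h2]
      exact mul_le_mul_of_nonneg_left (by nlinarith [sq_nonneg (f y + 1)]) (exp_pos _).le
    rw [integral_const_mul, integral_sub ic (i2.const_mul 2), setIntegral_const, integral_const_mul,
      smul_eq_mul] at k1
    refine le_trans (mul_le_mul_of_nonneg_left ?_ (exp_pos _).le) k1
    have h3 : v * (-1 - c) = v + 2 * N := by
      rw [hc]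
      field_simp
      ring
    linarith
  have l2 : A * (exp (-4) * (exp c * v) / 4) ≤ gain r ρ := by
    have ig : Integrable fun y : E4 => min (‖y‖ ^ 2 / r ^ 2) 1 * ρ y :=
      (Continuous.mul (by fun_prop) hρ.continuous).integrable_of_hasCompactSupport hρ.cs.mul_left
    refine le_trans ?_ (setIntegral_le_integral (s := An r) ig
      (ae_of_all _ fun y => mul_nonneg (by positivity) (h0 y)))
    refine le_trans ?_ (setIntegral_mono_on (i4.const_mul (A * exp (-4) / 4)) ig.integrableOn mA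
      fun y hy => ?_)
    · rw [integral_const_mul]
      have := mul_le_mul_of_nonneg_left l1 (by positivity : 0 ≤ A * exp (-4) / 4)
      linarith
    · have h1 : 1 / 4 ≤ min (‖y‖ ^ 2 / r ^ 2) 1 := by
        refine le_min ?_ (by norm_num)
        rw [le_div_iff₀ (by positivity)]
        nlinarith [hy.1]
      have h2 := mul_le_mul h1 (hb y hy).1 (by positivity) (by positivity)
      linarith
  have b0 : 0 ≤ s * ((Cn * r + E) / 2) := (integral_nonneg fun _ => (exp_pos _).le).trans u1
  have b1 : 0 ≤ (Cn * r + E) / 2 := nonneg_of_mul_nonneg_right b0 s0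
  have d0 : 0 < exp (-4) * (exp c * v) / 4 := by positivity
  refine u2.trans (le_trans (le_of_eq ?_) (mul_le_mul_of_nonneg_left l2
    (mul_nonneg (div_nonneg (by nlinarith) d0.le) s0.le)))
  field_simp

variable {M : Type} [TopologicalSpace M] [T2Space M] [CompactSpace M] [ChartedSpace E4 M]
  [IsManifold (𝓡 4) ∞ M] [MeasurableSpace M] [BorelSpace M]

omit [T2Space M] in
theorem Bf_smul (g : RMetric M) {φ : M → ℝ} (h : Smooth φ) (c : ℝ) :
    Bf g (fun x => c * φ x) (fun x => c * φ x) = c ^ 2 * Bf g φ φ := by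
  unfold Bf
  rw [← setupOf_P g (h.const_mul c), (setupOf g).P_const_mul h, setupOf_P g h, ← integral_const_mul]
  exact integral_congr_ae (.of_forall fun x => by ring)

omit [T2Space M] [CompactSpace M] [BorelSpace M] in
theorem cont_par (X : L0 M) (p : M) {r : ℝ} (hr : 2 * r < r0) {F : M → ℝ} (hF : Continuous F) :
    ContinuousOn (fun y => F (param p y)) (closedBall 0 (2 * r)) :=
  hF.comp_continuousOn ((continuousOn_param p).mono (X.hd.tgt p ▸ closedBall_subset_ball hr))

omit [T2Space M] in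
theorem transfer (hC : CoFacts) {X : L0 M} (hV : VFacts X) (p : M) {r : ℝ} (hr : 2 * r < r0)
    {F : M → ℝ} (hF : Continuous F) (h0 : ∀ x, 0 ≤ F x) :
    ∫ y in An r, F (param p y) ≤ ∫ x, F x ∂X.μ := by
  have := hV.fin
  have iF : Integrable F X.μ :=
    hF.integrable_of_hasCompactSupport (HasCompactSupport.of_compactSpace F)
  obtain ⟨h1, h2⟩ := hV.chart p r0 le_rfl F hF.measurable
  have hs : An r ⊆ ball 0 r0 := (An_sub r).trans (closedBall_subset_ball hr)
  have i1 := h1.1 iF.integrableOn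
  refine (setIntegral_mono_on (intOn (cont_par X p hr hF)) (i1.mono_set hs)
    (An_open r).measurableSet fun y hy => ?_).trans ((setIntegral_mono_set i1 ?_
      hs.eventuallyLE).trans (h2.ge.trans (setIntegral_le_integral iF (ae_of_all _ h0))))
  · exact le_mul_of_one_le_right (h0 _) (hC.rh_bd y (mem_ball_zero_iff.1 (hs hy))).1
  · exact (ae_restrict_mem measurableSet_ball).mono fun y hy =>
      mul_nonneg (h0 _) (zero_le_one.trans (hC.rh_bd y (mem_ball_zero_iff.1 hy)).1)

end A22

open A22 in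
theorem thinStmt (hCo : CoFacts) (hC : ChiFacts) (hN : NbFacts) (hP : PotStmt) (hB : BStmt)
    (hV : VolsStmt) (hCh : ChStmt) (hT : TrudStmt) (hZ : ZStmt) (hW : WeqStmt)
    (hL : Loop1Stmt) : ThinStmt := by
  intro M _ _ _ _ _ _ _ X Y γ hγ hγ'
  have B := hB M X
  have V := hV M X
  obtain ⟨ch1, C₁, C₁0, ch2⟩ := hCh M X
  obtain ⟨C₂, tr⟩ := hT M X
  obtain ⟨C₃, -, we⟩ := hW M X Y
  obtain ⟨C₄, Cf, lo⟩ := hL M X Y γ hγ hγ'
  obtain ⟨Cn, hn⟩ := hN.nb_vol
  obtain ⟨C₅, po⟩ := hP Y.R Y.R_pos (Y.R_le.trans (by norm_num))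
  refine ⟨fun r => 2 * exp (Y.a * log r⁻¹ + 8 * -log (r / 4) + 4) *
    (Cn * r + exp (4 * (C₄ * log r⁻¹) / 20 + C₂)) / 2 /
      (exp (-4) * (exp (-2 - 2 * (C₁ * (C₄ * log r⁻¹)) / volume.real (An r)) *
        volume.real (An r)) / 4), (we.and lo).mono ?_⟩
  rintro Z ⟨we, lo⟩ u p θ hθ hu hc t ht htr
  have F := hZ M X Y Z
  have hr := Z.r_pos
  have r1' := Z.r_le
  have R1 := Y.R_le
  have t0 : 0 < Z.r / 16 := by positivity
  have t1 : 2 * (Z.r / 16) ≤ Y.R / 32 := by linarith
  have hr0 : 2 * Z.r < r0 := by unfold r0; linarith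
  have hr1 : 2 * Z.r < r1 := by unfold r1; linarith
  obtain ⟨-, sw, -⟩ := we u p _ hu hc.1 t0 t1
  have nw := (lo u p θ hθ hu hc).1
  have D := F.den u hu.sm hu.inv p hc.1
  obtain ⟨sρ, ρ0, -⟩ := F.rho_sm u hu.sm
  set w := Z.w u p (Z.r / 16) with hw
  have cz := (ch1 w sw).1.continuous
  have := V.fin
  have I0 : 0 < ∫ y, exp (4 * u y + 4 * Z.om y) ∂X.μ :=
    (div_pos_iff_of_pos_left (exp_pos _)).1 (ρ0 p)
  have tσ : Tst fun y => chi (Z.r / 16) y * Z.rhoE u p y := (hC.tst _ t0).mul_right D.sm.sm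
  obtain ⟨-, -, p0, -, p1, -⟩ := (po _ t0 t1).1 _ tσ
    (fun y => mul_nonneg (hC.nonneg _ y) (D.nonneg y))
    (fun y hy => by rw [hC.zero _ t0 y hy, zero_mul])
    ((integral_mono tσ.integrable D.sm.integrable fun y =>
      mul_le_of_le_one_left (D.nonneg y) (hC.le_one _ y)).trans D.mass)
  refine core (A := exp (4 * ⨍ y, w y ∂X.μ) / ∫ y, exp (4 * u y + 4 * Z.om y) ∂X.μ)
    (f := fun y => X.z w (param p y)) hr ht (div_pos (exp_pos _) I0) (by positivity)
    (hN.nb_open _ _).measurableSet (fun y hy => hN.nb_norm _ _ hr ht htr y hy) (hn _ _ hr ht htr)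
    (cont_par X p hr0 cz) D.sm D.nonneg (fun y hy => ?_) ?_ ?_
  · have y0 : ‖y‖ < r0 := hy.2.trans hr0
    have e1 : Z.rhoE u p y = Z.rho u (param p y) * rh y := by
      rw [L2'.rhoE, loc, hC.one r1 (by unfold r1; norm_num) y (hy.2.trans hr1).le, one_mul]
    have e2 : Z.Phi u p (Z.r / 16) (param p y) =
        pot Y.R (fun y => chi (Z.r / 16) y * Z.rhoE u p y) y := B.ext_par _ _ _ y0
    have a1 := p0 y
    have a2 := p1 (Z.r / 4) y (by positivity) (by linarith) (by linarith [hy.1])
    rw [← e2] at a1 a2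
    obtain ⟨a3, a4⟩ := F.psi_bd (param p y)
    obtain ⟨a5, a6⟩ := abs_le.1 (F.om_bd (param p y))
    obtain ⟨a7, a8⟩ := hCo.rh_bd y y0
    have e3 : X.z w (param p y) = u (param p y) - Z.psi (param p y) -
      Z.Phi u p (Z.r / 16) (param p y) - ⨍ y, w y ∂X.μ := rfl
    have e4 : Z.L = log Z.r⁻¹ := rfl
    have b0 := ρ0 (param p y)
    rw [e4] at a4
    rw [e1]
    constructor
    · refine le_trans ?_ (le_mul_of_one_le_right b0.le a7)
      rw [L2'.rho, div_mul_eq_mul_div, div_mul_eq_mul_div, ← exp_add, ← exp_add]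
      exact div_le_div_of_nonneg_right (exp_le_exp.2 (by linarith)) I0.le
    · refine (mul_le_mul_of_nonneg_left a8 b0.le).trans ?_
      rw [L2'.rho, div_mul_eq_mul_div, div_mul_eq_mul_div, div_mul_eq_mul_div, mul_left_comm,
        mul_assoc, ← exp_add, ← exp_add, mul_comm]
      exact div_le_div_of_nonneg_right (mul_le_mul_of_nonneg_left (exp_le_exp.2 (by linarith))
        two_pos.le) I0.le
  · refine (transfer hCo V p hr0 (F := fun x => exp (8 * X.z w x)) (by fun_prop)
      fun x => (exp_pos _).le).trans ?_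
    have k1 := tr _ (sw.const_mul 2)
    have k2 : X.nn (fun x => 2 * w x) = 2 ^ 2 * X.nn w := Bf_smul X.g sw 2
    have k3 : ∀ x, 4 * X.z (fun x => 2 * w x) x = 8 * X.z w x := fun x => by
      simp only [L0.z, average_eq, integral_const_mul, smul_eq_mul]
      ring
    simp only [k3, k2] at k1
    have e4 : Z.L = log Z.r⁻¹ := rfl
    exact k1.trans (exp_le_exp.2 (by rw [← e4]; linarith))
  · exact (transfer hCo V p hr0 (F := fun x => X.z w x ^ 2) (by fun_prop)
      fun x => sq_nonneg _).trans ((ch2 w sw).2.trans (mul_le_mul_of_nonneg_left nw C₁0.le))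

end Pool.Agent.MP_417fa2_gt.Q2
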