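import Pool.Agent.MP_417fa2_gt.Q2.ASpec

/-! The mass away from the point of concentration is small compared with the gain. -/

open scoped Manifold ContDiff Topology
open MeasureTheory Set Metric Real Filter

namespace Pool.Agent.MP_417fa2_gt.Q2

namespace A24

variable {M : Type} [TopologicalSpace M] [T2Space M] [CompactSpace M] [ChartedSpace E4 M]
  [IsManifold (𝓡 4) ∞ M] [MeasurableSpace M] [BorelSpace M] {X : L0 M}

theorem intg (X : L0 M) {f : M → ℝ} (hf : Continuous f) : Integrable f X.μ :=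
  (setupOf X.g).integrable hf

omit [T2Space M] in
theorem nn_neg {w : M → ℝ} (hw : Smooth w) : X.nn (fun x => -1 * w x) = X.nn w := by
  unfold L0.nn Bf
  rw [← setupOf_P _ (hw.const_mul (-1)), (setupOf X.g).P_const_mul hw, setupOf_P _ hw]
  simp

omit [T2Space M] [CompactSpace M] [BorelSpace M] in
theorem z_neg (w : M → ℝ) (x : M) : X.z (fun x => -1 * w x) x = -X.z w x := by
  unfold L0.z
  simp only [average, neg_one_mul, integral_neg]
  ring

omit [T2Space M] [CompactSpace M] in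
theorem meas_ball (X : L0 M) (p : M) (t : ℝ) : MeasurableSet {x | X.d p x < t} :=
  (isOpen_lt (X.hd.cont.comp (continuous_const.prodMk continuous_id))
    continuous_const).measurableSet

theorem jensen {b f : M → ℝ} (hb : Continuous b) (hf : Continuous f) (h0 : ∀ x, 0 ≤ b x) {c : ℝ}
    (hc : c * ∫ x, b x ∂X.μ ≤ ∫ x, f x * b x ∂X.μ) :
    (∫ x, b x ∂X.μ) * exp c ≤ ∫ x, b x * exp (f x) ∂X.μ := by
  have i1 : Integrable (fun x => exp c * (1 - c) * b x) X.μ := (intg X hb).const_mul _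
  have i2 : Integrable (fun x => exp c * (f x * b x)) X.μ := (intg X (hf.mul hb)).const_mul _
  have h1 : ∫ x, (exp c * (1 - c) * b x + exp c * (f x * b x)) ∂X.μ ≤
      ∫ x, b x * exp (f x) ∂X.μ := by
    refine integral_mono (i1.add i2) (intg X (hb.mul hf.rexp)) fun x => ?_
    have h2 : exp (f x) = exp c * exp (f x - c) := by rw [← exp_add]; ring_nf
    have h3 := mul_le_mul_of_nonneg_left (add_one_le_exp (f x - c))
      (mul_nonneg (h0 x) (exp_pos c).le)
    show _ ≤ b x * exp (f x)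
    rw [h2]
    nlinarith
  rw [integral_add i1 i2, integral_const_mul, integral_const_mul] at h1
  have := mul_le_mul_of_nonneg_left hc (exp_pos c).le
  nlinarith

theorem en_le (hK : KInt X) : ∃ C : ℝ, 0 < C ∧ ∀ δ K : ℝ, 0 < δ → δ ≤ 1 → ∀ β : M → ℝ,
    Continuous β → (∀ x, 0 ≤ β x ∧ β x ≤ K) → ∫ x, β x ∂X.μ = 1 →
    En X.d X.μ β ≤ log δ⁻¹ + C * K * δ ^ 4 := by
  obtain ⟨C, hC, h⟩ := hK.pow 1 zero_le_one (by norm_num)
  refine ⟨C, hC, fun δ K hδ hδ1 β hβ hb h1 => ?_⟩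
  have key : ∀ y, ∫ x, ell X.d x y * β x ∂X.μ ≤ log δ⁻¹ + C * K * δ ^ 4 := by
    intro y
    have hK0 : 0 ≤ K := (hb y).1.trans (hb y).2
    obtain ⟨i0, -, h2⟩ := h y
    have h2 := h2 δ hδ hδ1
    have hm := meas_ball X y δ
    have i1 : Integrable (fun x => log δ⁻¹ * β x) X.μ := (intg X hβ).const_mul _
    have i2 : Integrable (fun x => K * δ *
        {x | X.d y x < δ}.indicator (fun x => X.d y x ^ (-1 : ℝ)) x) X.μ :=
      (i0.indicator hm).const_mul _
    have h3 : ∫ x, ell X.d x y * β x ∂X.μ ≤ ∫ x, (log δ⁻¹ * β x + K * δ *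
        {x | X.d y x < δ}.indicator (fun x => X.d y x ^ (-1 : ℝ)) x) ∂X.μ := by
      refine integral_mono_of_nonneg
        (Eventually.of_forall fun x => mul_nonneg (le_max_right _ _) (hb x).1) (i1.add i2)
        (Eventually.of_forall fun x => ?_)
      have h4 := mul_le_mul_of_nonneg_right (hK.lgn_le δ hδ hδ1 x y).2.1 (hb x).1
      have h5 : lgn X.d δ x y ≤
          δ * {x | X.d y x < δ}.indicator (fun x => X.d y x ^ (-1 : ℝ)) x := by
        unfold lgn
        rw [X.hd.symm x y]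
        have h6 := X.hd.nonneg y x
        by_cases hx : X.d y x < δ
        · rw [indicator_of_mem (show x ∈ {x | X.d y x < δ} from hx), rpow_neg_one, ← div_eq_mul_inv]
          exact max_le (log_le_self (by positivity)) (by positivity)
        · rw [indicator_of_notMem (show x ∉ {x | X.d y x < δ} from hx), mul_zero]
          exact max_le (log_nonpos (by positivity) (div_le_one_of_le₀ (not_lt.1 hx) h6)) le_rfl
      have h7 : 0 ≤ lgn X.d δ x y := le_max_right _ _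
      have h8 := mul_le_mul h5 (hb x).2 (hb x).1 (h7.trans h5)
      show ell X.d x y * β x ≤ log δ⁻¹ * β x + K * δ * _
      nlinarith
    rw [integral_add i1 i2, integral_const_mul, integral_const_mul, integral_indicator hm, h1] at h3
    have h9 : δ ^ (4 - 1 : ℝ) = δ ^ 3 := by rw [← rpow_natCast]; norm_num
    rw [h9] at h2
    have := mul_le_mul_of_nonneg_left h2 (mul_nonneg hK0 hδ.le)
    nlinarith
  have h2 : En X.d X.μ β ≤ ∫ y, β y * (log δ⁻¹ + C * K * δ ^ 4) ∂X.μ :=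
    integral_mono_of_nonneg (Eventually.of_forall fun y => mul_nonneg (hb y).1
      (integral_nonneg fun x => mul_nonneg (le_max_right _ _) (hb x).1))
      ((intg X hβ).mul_const _)
      (Eventually.of_forall fun y => mul_le_mul_of_nonneg_left (key y) (hb y).1)
  rwa [integral_mul_const, h1, one_mul] at h2

/-- A bump of size `δ` at distance `30 δ` from the origin. -/
noncomputable def bump (δ : ℝ) (y : E4) : ℝ := chi δ (y - EuclideanSpace.single 0 (30 * δ))

theorem bump_supp (hchi : ChiFacts) {δ : ℝ} (hδ : 0 < δ) {y : E4} (h : bump δ y ≠ 0) :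
    28 * δ < ‖y‖ ∧ ‖y‖ < 32 * δ := by
  have h1 : ‖y - EuclideanSpace.single 0 (30 * δ)‖ < 2 * δ :=
    not_le.1 fun k => h (hchi.zero δ hδ _ k)
  have h2 : ‖(EuclideanSpace.single 0 (30 * δ) : E4)‖ = 30 * δ := by
    rw [PiLp.norm_single, Real.norm_of_nonneg (by positivity)]
  have h4 := abs_lt.1 ((abs_norm_sub_norm_le y _).trans_lt h1)
  rw [h2] at h4
  constructor <;> linarith [h4.1, h4.2]

theorem bump_far (hchi : ChiFacts) {δ : ℝ} (hδ : 0 < δ) (y : E4) (h : 32 * δ ≤ ‖y‖) :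
    bump δ y = 0 := by
  by_contra k
  linarith [(bump_supp hchi hδ k).2]

theorem bump_sm (hchi : ChiFacts) {δ : ℝ} (hδ : 0 < δ) : ContDiff ℝ ∞ (bump δ) :=
  (hchi.tst δ hδ).sm.comp (contDiff_id.sub contDiff_const)

omit [T2Space M] [CompactSpace M] [IsManifold (𝓡 4) ∞ M] [MeasurableSpace M] [BorelSpace M] in
theorem ext_bd (hchi : ChiFacts) (δ : ℝ) (p x : M) :
    0 ≤ extz p (bump δ) x ∧ extz p (bump δ) x ≤ 1 := by
  unfold extz indicator
  split_ifs
  · exact ⟨hchi.nonneg _ _, hchi.le_one _ _⟩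
  · exact ⟨le_rfl, zero_le_one⟩

theorem ext_mass (hco : CoFacts) (hchi : ChiFacts) (hB : BFacts X) (hV : VFacts X) {δ : ℝ}
    (hδ : 0 < δ) (hδ1 : 32 * δ < r0) (p : M) :
    δ ^ 4 * volume.real (ball (0 : E4) 1) ≤ ∫ x, extz p (bump δ) x ∂X.μ := by
  have hs := (hB.ext_sm p _ _ hδ1 (bump_sm hchi hδ).contDiffOn (bump_far hchi hδ)).continuous
  obtain ⟨h1, h2⟩ := hV.chart p r0 le_rfl _ hs.measurable
  have h1 := h1.1 (intg X hs).integrableOn
  have h3 : ∫ x in {x | X.d p x < r0}, extz p (bump δ) x ∂X.μ ≤ ∫ x, extz p (bump δ) x ∂X.μ :=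
    setIntegral_le_integral (intg X hs) (Eventually.of_forall fun x => (ext_bd hchi δ p x).1)
  refine le_trans ?_ (h2 ▸ h3)
  set c : E4 := EuclideanSpace.single 0 (30 * δ) with hc
  have h4 : ∀ y ∈ ball c δ, bump δ y = 1 ∧ ‖y‖ < r0 := fun y hy => by
    have : bump δ y = 1 := hchi.one δ hδ _ (mem_ball_iff_norm.1 hy).le
    exact ⟨this, (bump_supp hchi hδ (this ▸ one_ne_zero)).2.trans hδ1⟩
  have h5 : ball c δ ⊆ ball 0 r0 := fun y hy => mem_ball_zero_iff.2 (h4 y hy).2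
  have h6 : volume.real (ball c δ) = δ ^ 4 * volume.real (ball (0 : E4) 1) := by
    rw [← Measure.addHaar_real_closedBall_eq_addHaar_real_ball,
      Measure.addHaar_real_closedBall _ _ hδ.le]
    simp
  calc δ ^ 4 * volume.real (ball (0 : E4) 1) = ∫ _ in ball c δ, (1 : ℝ) := by simp [h6]
    _ ≤ ∫ y in ball c δ, extz p (bump δ) (param p y) * rh y := by
      refine setIntegral_mono_on (integrableOn_const measure_ball_lt_top.ne) (h1.mono_set h5)
        measurableSet_ball fun y hy => ?_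
      rw [hB.ext_par p _ y (h4 y hy).2, (h4 y hy).1, one_mul]
      exact (hco.rh_bd y (h4 y hy).2).1
    _ ≤ _ := setIntegral_mono_set h1 (Eventually.of_forall fun y =>
      mul_nonneg (ext_bd hchi δ p _).1 (exp_pos _).le) h5.eventuallyLE

variable {Y : L1 X} {Z : L2' Y} {u : M → ℝ} {p : M}

theorem upper (hZ : ZFacts Z) (hu : Smooth u) {lam : ℝ} (hlam : lam ≤ r1) {f : M → ℝ}
    (hf : Continuous f) (h0 : ∀ x, 0 ≤ f x) (h : ∀ x, lam ≤ X.d p x → Z.rho u x ≤ f x) :
    1 - ∫ y in ball (0 : E4) lam, Z.rhoE u p y ≤ ∫ x, f x ∂X.μ := by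
  obtain ⟨h1, -, h3⟩ := hZ.rho_sm u hu
  have h4 := hZ.chart u hu p lam hlam (fun _ => 1) measurable_const
  simp only [one_mul] at h4
  have hm := meas_ball X p lam
  have h5 := integral_add_compl hm (intg X h1.continuous)
  have h6 : ∫ x in {x | X.d p x < lam}ᶜ, Z.rho u x ∂X.μ ≤ ∫ x in {x | X.d p x < lam}ᶜ, f x ∂X.μ :=
    setIntegral_mono_on (intg X h1.continuous).integrableOn (intg X hf).integrableOn hm.compl
      fun x hx => h x (not_lt.1 hx)
  have h7 : ∫ x in {x | X.d p x < lam}ᶜ, f x ∂X.μ ≤ ∫ x, f x ∂X.μ :=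
    setIntegral_le_integral (intg X hf) (Eventually.of_forall h0)
  linarith

omit [T2Space M] [CompactSpace M] in
theorem lower (hchi : ChiFacts) (hB : BFacts X) (hZ : ZFacts Z) (hu : Smooth u)
    (hd : Den (Z.rhoE u p)) {δ : ℝ} (hδ : Z.r ≤ δ) (hδ1 : 32 * δ ≤ r1) :
    ∫ x, extz p (bump δ) x * Z.rho u x ∂X.μ ≤ gain Z.r (Z.rhoE u p) := by
  have hr := Z.r_pos
  have hδ0 : 0 < δ := hr.trans_le hδ
  have h01 : r1 < r0 := by norm_num [r1, r0]
  have hs := (hB.ext_sm p _ _ (hδ1.trans_lt h01) (bump_sm hchi hδ0).contDiffOn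
    (bump_far hchi hδ0)).continuous
  have h1 := hZ.chart u hu p r1 le_rfl _ hs.measurable
  rw [setIntegral_eq_integral_of_forall_compl_eq_zero fun x hx => by
    rw [hB.ext_far p x _ _ (bump_far hchi hδ0) (hδ1.trans (not_lt.1 hx)), zero_mul]] at h1
  have hc : Continuous fun y : E4 => min (‖y‖ ^ 2 / Z.r ^ 2) 1 * Z.rhoE u p y :=
    (((continuous_norm.pow 2).div_const _).min continuous_const).mul hd.sm.continuous
  have hi : Integrable fun y : E4 => min (‖y‖ ^ 2 / Z.r ^ 2) 1 * Z.rhoE u p y :=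
    hc.integrable_of_hasCompactSupport hd.sm.cs.mul_left
  have hn : ∀ y : E4, 0 ≤ min (‖y‖ ^ 2 / Z.r ^ 2) 1 := fun y => le_min (by positivity) zero_le_one
  rw [h1]
  refine le_trans ?_ (setIntegral_le_integral (s := ball (0 : E4) r1) hi
    (Eventually.of_forall fun y => mul_nonneg (hn y) (hd.nonneg y)))
  refine integral_mono_of_nonneg (Eventually.of_forall fun y =>
    mul_nonneg (ext_bd hchi δ p _).1 (hd.nonneg y)) hi.integrableOn
    ((ae_restrict_iff' measurableSet_ball).2 (Eventually.of_forall fun y hy => ?_))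
  refine mul_le_mul_of_nonneg_right ?_ (hd.nonneg y)
  rw [hB.ext_par p _ y ((mem_ball_zero_iff.1 hy).trans h01)]
  by_cases h : bump δ y = 0
  · rw [h]
    exact hn y
  · have h2 := (bump_supp hchi hδ0 h).1
    refine (hchi.le_one _ _).trans (le_min ?_ le_rfl)
    rw [one_le_div (by positivity)]
    exact pow_le_pow_left₀ hr.le (by linarith) 2

omit [T2Space M] [CompactSpace M] [BorelSpace M] in
theorem phi_bd (hchi : ChiFacts) (hpot : PotStmt) (hB : BFacts X) (hd : Den (Z.rhoE u p)) {δ : ℝ}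
    (hδ : 0 < δ) (hδ1 : 48 * δ ≤ Y.R / 32) :
    (∀ (b : ℝ) (x : M), 0 < b → b ≤ 1 → 16 * δ + b ≤ X.d p x →
      Z.Phi u p (8 * δ) x ≤ 2 * -log b) ∧
    ∀ x, X.d p x < 32 * δ → 2 * -log (48 * δ) * ∫ y in ball (0 : E4) (4 * δ), Z.rhoE u p y ≤
      Z.Phi u p (8 * δ) x := by
  have hR := Y.R_le
  have h8 : 0 < 8 * δ := by positivity
  obtain ⟨C, h⟩ := hpot Y.R Y.R_pos (by linarith)
  have ht : Tst fun y => chi (8 * δ) y * Z.rhoE u p y := (hchi.tst _ h8).mul_right hd.sm.sm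
  have h0 : ∀ y, 0 ≤ chi (8 * δ) y * Z.rhoE u p y := fun y =>
    mul_nonneg (hchi.nonneg _ _) (hd.nonneg y)
  obtain ⟨-, h2, -, -, h5, h6, -⟩ := (h (8 * δ) h8 (by linarith)).1 _ ht h0
    (fun y hy => by rw [hchi.zero _ h8 y hy, zero_mul])
    ((integral_mono ht.integrable hd.sm.integrable fun y =>
      mul_le_of_le_one_left (hd.nonneg y) (hchi.le_one _ _)).trans hd.mass)
  have hr0 : r0 = 1 / 10 := rfl
  refine ⟨fun b x hb hb1 hx => ?_, fun x hx => ?_⟩
  · by_cases k : X.d p x < r0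
    · obtain ⟨y, e1, e2, -⟩ := hB.chart p x k
      unfold L2'.Phi
      rw [← e2, hB.ext_par p _ y (e1 ▸ k)]
      exact h5 b y hb hb1 (by linarith)
    · unfold L2'.Phi
      rw [hB.ext_far p x _ _ h2 (by linarith [not_lt.1 k])]
      linarith [log_nonpos hb.le hb1]
  · have k : X.d p x < r0 := by linarith
    obtain ⟨y, e1, e2, -⟩ := hB.chart p x k
    unfold L2'.Phi
    rw [← e2, hB.ext_par p _ y (e1 ▸ k)]
    refine le_trans (mul_le_mul_of_nonneg_left ?_ ?_) (h6 (48 * δ) y (by linarith) hδ1)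
    · refine le_trans (le_of_eq (setIntegral_congr_fun measurableSet_ball fun z hz => ?_))
        (setIntegral_le_integral ht.integrable (Eventually.of_forall h0))
      show _ = chi (8 * δ) z * _
      rw [hchi.one _ h8 z (by linarith [mem_ball_zero_iff.1 hz]), one_mul]
    · linarith [log_nonpos (by positivity : 0 ≤ 48 * δ) (by linarith)]

omit [T2Space M] [CompactSpace M] [BorelSpace M] in
theorem psi_bd (hchi : ChiFacts) (hB : BFacts X) (hZ : ZFacts Z) (hp : p ∈ X.fix) {δ : ℝ}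
    (hδ : Z.r ≤ δ) (hδ1 : 48 * δ ≤ Y.R / 32) (x : M) (hx : X.d p x < 32 * δ) :
    Y.a * -log (33 * δ) ≤ 4 * Z.psi x := by
  have hR := Y.R_le
  have hR0 := Y.R_pos
  have hr := Z.r_pos
  have hr0 : r0 = 1 / 10 := rfl
  have hr1 : r1 = 1 / 25 := rfl
  obtain ⟨y, e1, e2, -⟩ := hB.chart p x (by linarith)
  rw [← e2, hZ.psi_par p hp y (by linarith), KK, hchi.one _ (by positivity) y (by linarith), gam]
  have h1 : log (‖y‖ ^ 2 + Z.r ^ 2) ≤ 2 * log (33 * δ) := by
    have : log ((33 * δ) ^ 2) = 2 * log (33 * δ) := by rw [log_pow]; norm_num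
    rw [← this]
    refine log_le_log (by positivity) ?_
    have h2 : ‖y‖ ^ 2 ≤ (32 * δ) ^ 2 := pow_le_pow_left₀ (norm_nonneg _) (by linarith) 2
    have h3 : Z.r ^ 2 ≤ δ ^ 2 := pow_le_pow_left₀ hr.le hδ 2
    nlinarith
  have ha : 0 < Y.a := div_pos Y.m_pos (by positivity)
  have h4 : 4 * (2 * Y.m * (1 * (-(1 / (16 * π ^ 2)) * log (‖y‖ ^ 2 + Z.r ^ 2)))) =
      Y.a * (-log (‖y‖ ^ 2 + Z.r ^ 2) / 2) := by
    unfold L1.a
    field_simp
    ring
  rw [h4]
  exact mul_le_mul_of_nonneg_left (by linarith) ha.le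

omit [T2Space M] [CompactSpace M] [BorelSpace M] in
theorem rho_eq (Z : L2' Y) (u : M → ℝ) (p : M) (t : ℝ) : ∃ A : ℝ, ∀ x, Z.rho u x =
    A * exp (4 * Z.psi x + 4 * Z.Phi u p t x + 4 * Z.om x) * exp (4 * X.z (Z.w u p t) x) := by
  refine ⟨exp (4 * ⨍ y, Z.w u p t y ∂X.μ) / ∫ y, exp (4 * u y + 4 * Z.om y) ∂X.μ, fun x => ?_⟩
  rw [L2'.rho, div_mul_eq_mul_div, div_mul_eq_mul_div, ← exp_add, ← exp_add]
  congr 2
  unfold L0.z L2'.w
  ring

theorem sqrt_mul_le {P Q : ℝ} (hP : 0 ≤ P) (hQ : 0 ≤ Q) : √P * √Q ≤ (P + Q) / 2 := by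
  nlinarith [sq_sqrt hP, sq_sqrt hQ, sq_nonneg (√P - √Q)]

/-- The exponential mean of the remainder over the bump. -/
theorem mean_lo (hco : CoFacts) (hchi : ChiFacts) (hB : BFacts X) (hV : VFacts X) (hK : KInt X)
    (hCh : Ch X) (hD : Dual X) : ∃ C : ℝ, ∀ δ : ℝ, 0 < δ → 32 * δ < r0 → ∀ (p : M) (w : M → ℝ),
    Smooth w → exp (4 * log δ - log δ⁻¹ / 18 - 2 * X.nn w - C) ≤
      ∫ x, extz p (bump δ) x * exp (4 * X.z w x) ∂X.μ := by
  obtain ⟨C₁, hC₁, h1⟩ := en_le hK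
  obtain ⟨C₂, hC₂, h2⟩ := hD 1 one_pos
  have hv : 0 < volume.real (ball (0 : E4) 1) :=
    ENNReal.toReal_pos (measure_ball_pos _ _ one_pos).ne' measure_ball_lt_top.ne
  set v := volume.real (ball (0 : E4) 1) with hvd
  refine ⟨C₁ / v + 2 * C₂ - log v, fun δ hδ hδ1 p w hw => ?_⟩
  have hr0 : r0 = 1 / 10 := rfl
  have hs := hB.ext_sm p _ _ hδ1 (bump_sm hchi hδ).contDiffOn (bump_far hchi hδ)
  have hI := ext_mass hco hchi hB hV hδ hδ1 p
  rw [← hvd] at hI
  set I := ∫ x, extz p (bump δ) x ∂X.μ with hId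
  have hI0 : 0 < I := lt_of_lt_of_le (by positivity) hI
  have hm : ∫ x, I⁻¹ * extz p (bump δ) x ∂X.μ = 1 := by
    rw [integral_const_mul, inv_mul_cancel₀ hI0.ne']
  have hn : ∀ x, 0 ≤ I⁻¹ * extz p (bump δ) x := fun x =>
    mul_nonneg (by positivity) (ext_bd hchi δ p x).1
  have h3 := h1 δ I⁻¹ hδ (by linarith) _ (hs.const_mul I⁻¹).continuous
    (fun x => ⟨hn x, mul_le_of_le_one_right (by positivity) (ext_bd hchi δ p x).2⟩) hm
  have h4 := h2 _ (hs.const_mul I⁻¹) hn hm.le _ (hw.const_mul (-1))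
  have h5 : 0 ≤ En X.d X.μ fun x => I⁻¹ * extz p (bump δ) x :=
    integral_nonneg fun y => mul_nonneg (hn y)
      (integral_nonneg fun x => mul_nonneg (le_max_right _ _) (hn x))
  obtain ⟨z1, z2, -⟩ := hCh.1 w hw
  rw [nn_neg hw] at h4
  have h6 := h4.trans (sqrt_mul_le (by positivity) z2)
  set e := En X.d X.μ fun x => I⁻¹ * extz p (bump δ) x
  have h7 : (1 + 1) * e / (8 * π ^ 2) ≤ e / 36 := by
    rw [div_le_div_iff₀ (by positivity) (by norm_num)]
    have : 9 ≤ π ^ 2 := by nlinarith [pi_gt_three]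
    nlinarith
  have h8 : C₁ * I⁻¹ * δ ^ 4 ≤ C₁ / v := by
    rw [le_div_iff₀ hv, mul_assoc, mul_assoc]
    refine mul_le_of_le_one_right hC₁.le ?_
    rwa [inv_mul_le_iff₀ hI0, mul_one]
  have h9 : ∫ x, X.z (fun x => -1 * w x) x * (I⁻¹ * extz p (bump δ) x) ∂X.μ =
      -(I⁻¹ / 4) * ∫ x, 4 * X.z w x * extz p (bump δ) x ∂X.μ := by
    rw [← integral_const_mul]
    refine integral_congr_ae (Eventually.of_forall fun x => ?_)
    simp only [z_neg]
    ring
  have h10 : 0 ≤ C₁ / v := by positivity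
  have h11 := jensen (X := X) hs.continuous (z1.const_mul 4).continuous
    (fun x => (ext_bd hchi δ p x).1) (c := -(log δ⁻¹ / 18) - 2 * X.nn w - C₁ / v - 2 * C₂) (by
      rw [← hId, ← le_div_iff₀ hI0, div_eq_inv_mul _ I]
      rw [h9] at h6
      linarith)
  refine le_trans ?_ h11
  refine le_trans (le_of_eq ?_) (mul_le_mul_of_nonneg_right hI (exp_pos _).le)
  have h12 : δ ^ 4 * v = exp (4 * log δ + log v) := by
    rw [exp_add, exp_log hv, show 4 * log δ = log (δ ^ 4) by rw [log_pow]; norm_num,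
      exp_log (by positivity)]
  rw [h12, ← exp_add]
  congr 1
  ring

end A24

open A24 in
theorem outStmt (hco : CoFacts) (hchi : ChiFacts) (hpot : PotStmt) (hB : BStmt) (hV : VolsStmt)
    (hK : KIntStmt) (hCh : ChStmt) (hD : DualStmt) (hT : TrudStmt) (hZ : ZStmt) (hW : WeqStmt)
    (hL : Loop2Stmt) : OutStmt := by
  intro M _ _ _ _ _ _ _ X Y θ γ hθ hθ1 hγ hγ1
  have hB : BFacts X := hB M X
  have hCh : Ch X := hCh M X
  have ha : 0 < Y.a := div_pos Y.m_pos (by positivity)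
  have hθ2 : θ ≤ 1 / 1000 := by nlinarith
  have hγ2 : γ ≤ 1 / 4 := by nlinarith
  obtain ⟨C₁, h1⟩ := mean_lo hco hchi hB (hV M X) (hK M X) hCh (hD M X)
  obtain ⟨C₂, h2⟩ : Trud X := hT M X
  obtain ⟨C₃, h3⟩ := hL M X Y θ γ hθ (by linarith) hγ hγ2
  obtain ⟨C₄, -, h4⟩ : Weq Y := hW M X Y
  have hR := Y.R_le
  have hR0 := Y.R_pos
  set L₀ : ℝ := max (-8 * log (Y.R / 1536))
    (2 * (8 + 8 * log 2 + C₂ + 8 * log 48 + Y.a * log 33 + C₁ + 41 / 20 * C₃)) with hL₀
  have h5 : ∀ᶠ r in nhdsWithin (0 : ℝ) (Ioi 0), L₀ ≤ log r⁻¹ := by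
    filter_upwards [tendsto_log_nhdsGT_zero.eventually_le_atBot (-L₀)] with r hr
    rw [log_inv]
    linarith
  refine ((h3.and h4).and (Ev.of_r h5)).mono fun Z hz u p hu hc => ?_
  obtain ⟨⟨h3, h4⟩, h5⟩ := hz
  have hZ : ZFacts Z := hZ M X Y Z
  have hr := Z.r_pos
  have hLp := hZ.L_pos
  have hlog : log Z.r = -Z.L := by rw [L2'.L, log_inv, neg_neg]
  replace h5 : L₀ ≤ Z.L := h5
  have l1 := (le_max_left _ _).trans h5
  have l2 := (le_max_right _ _).trans h5
  have h3 := h3 u p hu hc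
  obtain ⟨hp, hc⟩ := hc
  have eδ : Z.r ^ (1 - γ) = exp (-Z.L * (1 - γ)) := by rw [rpow_def_of_pos hr, hlog]
  have elam : Z.r ^ (1 / 8 : ℝ) = exp (-Z.L * (1 / 8)) := by rw [rpow_def_of_pos hr, hlog]
  have er : Z.r = exp (-Z.L) := by rw [← hlog, exp_log hr]
  set δ := Z.r ^ (1 - γ) with hδd
  set lam := Z.r ^ (1 / 8 : ℝ) with hlamd
  have hδ : 0 < δ := by positivity
  have hlam : 0 < lam := by positivity
  have lδ : log δ = -Z.L * (1 - γ) := by rw [eδ, log_exp]
  have llam : log lam = -Z.L * (1 / 8) := by rw [elam, log_exp]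
  have b1 : lam ≤ Y.R / 1536 := by
    rw [← log_le_log_iff hlam (by positivity), llam]
    linarith
  have b2 : δ ≤ lam * lam := by
    rw [eδ, elam, ← exp_add, exp_le_exp]
    linarith [mul_le_mul_of_nonneg_right hγ2 (zero_le_one.trans hLp)]
  have b3 : Z.r ≤ δ := by
    rw [eδ]
    refine er.le.trans (exp_le_exp.2 ?_)
    linarith [mul_nonneg hγ.le (zero_le_one.trans hLp)]
  have b4 : 32 * δ ≤ lam := by
    linarith [mul_le_mul_of_nonneg_right (show lam ≤ 1 / 32 by linarith) hlam.le]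
  have b5 : 48 * δ ≤ Y.R / 32 := by linarith
  have hr0 : r0 = 1 / 10 := rfl
  have hr1 : r1 = 1 / 25 := rfl
  have hd := hZ.den u hu.sm hu.inv p hp
  obtain ⟨-, s2, -⟩ := h4 u p (8 * δ) hu hp (by positivity) (by linarith)
  obtain ⟨p1, p2⟩ := phi_bd hchi hpot hB hd hδ b5
  obtain ⟨A, hA⟩ := rho_eq Z u p (8 * δ)
  obtain ⟨r1', r2, -⟩ := hZ.rho_sm u hu.sm
  have hA0 : 0 < A := by
    have := r2 p
    rw [hA, mul_assoc] at this
    exact (mul_pos_iff_of_pos_right (by positivity)).1 this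
  obtain ⟨z1, -, -⟩ := hCh.1 _ s2
  set w := Z.w u p (8 * δ) with hwd
  have hzc : Continuous fun x => exp (4 * X.z w x) := (z1.const_mul 4).continuous.rexp
  have u1 := upper (p := p) hZ hu.sm (lam := lam) (by linarith)
    (f := fun x => A * exp (Y.a * Z.L + (8 * log 2 + Z.L) + 4) * exp (4 * X.z w x))
    (continuous_const.mul hzc) (fun x => by positivity) fun x hx => by
      rw [hA]
      have k1 := p1 (lam / 2) x (by positivity) (by linarith) (by linarith)
      rw [log_div hlam.ne' two_ne_zero, llam] at k1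
      have k2 := (hZ.psi_bd x).2
      have k3 := (abs_le.1 (hZ.om_bd x)).2
      exact mul_le_mul_of_nonneg_right
        (mul_le_mul_of_nonneg_left (exp_le_exp.2 (by linarith)) hA0.le) (exp_pos _).le
  rw [integral_const_mul] at u1
  have u2 := u1.trans (mul_le_mul_of_nonneg_left (h2 w s2) (by positivity))
  have hs := hB.ext_sm p _ _ (show 32 * δ < r0 by linarith) (bump_sm hchi hδ).contDiffOn
    (bump_far hchi hδ)
  have m1 := hZ.chart u hu.sm p (4 * δ) (by linarith) (fun _ => 1) measurable_const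
  simp only [one_mul] at m1
  rw [m1] at hc
  have g1 : log (48 * δ) ≤ 0 := log_nonpos (by positivity) (by linarith)
  have v1 : ∫ x, A * exp (Y.a * -log (33 * δ) + 8 * -log (48 * δ) * (1 - θ) + -4) *
      (extz p (bump δ) x * exp (4 * X.z w x)) ∂X.μ ≤
      ∫ x, extz p (bump δ) x * Z.rho u x ∂X.μ := by
    refine integral_mono (intg X (continuous_const.mul (hs.continuous.mul hzc)))
      (intg X (hs.continuous.mul r1'.continuous)) fun x => ?_
    show _ * (extz p (bump δ) x * _) ≤ extz p (bump δ) x * _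
    by_cases k : X.d p x < 32 * δ
    · rw [hA, mul_left_comm]
      have k0 := (ext_bd hchi δ p x).1
      have k1 := p2 x k
      have k2 := psi_bd hchi hB hZ hp b3 b5 x k
      have k3 := (abs_le.1 (hZ.om_bd x)).1
      have k4 := mul_le_mul_of_nonneg_left hc (show 0 ≤ 2 * -log (48 * δ) by linarith)
      exact mul_le_mul_of_nonneg_left (mul_le_mul_of_nonneg_right
        (mul_le_mul_of_nonneg_left (exp_le_exp.2 (by linarith)) hA0.le) (exp_pos _).le) k0
    · rw [hB.ext_far p x _ _ (bump_far hchi hδ) (not_lt.1 k)]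
      simp
  rw [integral_const_mul] at v1
  have v2 := ((mul_le_mul_of_nonneg_left (h1 δ hδ (by linarith) p w s2) (by positivity)).trans
    v1).trans (lower hchi hB hZ hu.sm hd b3 (by linarith))
  refine u2.trans (le_trans ?_ (mul_le_mul_of_nonneg_left v2 hr.le))
  rw [mul_assoc, mul_assoc, mul_left_comm Z.r, ← exp_add, ← exp_add]
  refine mul_le_mul_of_nonneg_left ?_ hA0.le
  refine le_trans ?_ (mul_le_mul_of_nonneg_right er.ge (exp_pos _).le)
  rw [← exp_add, exp_le_exp, log_inv, log_mul (by norm_num) hδ.ne', log_mul (by norm_num) hδ.ne',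
    lδ]
  have f1 : 40000 * θ ^ 2 * (1 + Y.a) * Z.L ≤ Z.L / 25 := by
    have : θ * (θ * (1 + Y.a)) ≤ 1 / 1000 * (1 / 1000) :=
      mul_le_mul hθ2 hθ1 (by positivity) (by norm_num)
    linarith [mul_le_mul_of_nonneg_right this (zero_le_one.trans hLp)]
  have f2 : γ * (4 + Y.a) * Z.L ≤ 1 * Z.L := mul_le_mul_of_nonneg_right hγ1 (by linarith)
  have f3 : θ * Z.L ≤ 1 / 1000 * Z.L := mul_le_mul_of_nonneg_right hθ2 (by linarith)
  have f4 : 0 ≤ θ * γ * Z.L := by positivity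
  have f5 : 0 ≤ γ * Z.L := by positivity
  have f6 : 0 ≤ θ * log 48 := mul_nonneg hθ.le (log_nonneg (by norm_num))
  linarith

end Pool.Agent.MP_417fa2_gt.Q2
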