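import Pool.Agent.MP_417fa2_gt.Q2.ASpec

/-! A25. The data of the Pohozaev argument. -/

open scoped Manifold ContDiff Topology
open MeasureTheory Set Metric Real Filter

namespace Pool.Agent.MP_417fa2_gt.Q2

open DE (lp)

namespace A25

theorem nb_mono {r t t' : ℝ} (ht : 0 ≤ t) (h : t ≤ t') : nb r t ⊆ nb r t' := by
  rintro y ⟨i, hi⟩
  exact ⟨i, hi.trans_le (pow_le_pow_left₀ ht h 2)⟩

theorem D_off (hc : ChiFacts) {ζ : E4 → ℝ} {y : E4} (hy : y ∉ tsupport ζ) :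
    ζ y = 0 ∧ D1 ζ y = 0 ∧ D2 ζ y = 0 := by
  have h0 : ζ =ᶠ[𝓝 y] 0 := notMem_tsupport_iff_eventuallyEq.mp hy
  have h1 := hc.D_congr ζ (fun _ => 0) 0 y (h0.mono fun z hz => by simpa using hz)
  have p0 : ∀ j, pd j (fun _ : E4 => (0 : ℝ)) = fun _ => 0 := fun j => by
    ext z; simp [pd]
  refine ⟨h0.self_of_nhds, ?_, ?_⟩
  · rw [h1.1]; simp [D1, p0]
  · rw [h1.2.1]; simp [D2, p0]

theorem D_nonneg (φ : E4 → ℝ) (y : E4) : 0 ≤ D1 φ y ∧ 0 ≤ D2 φ y :=
  ⟨Real.sqrt_nonneg _, Real.sqrt_nonneg _⟩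

theorem tst_bd (hc : ChiFacts) {ζ : E4 → ℝ} (hζ : Tst ζ) :
    ∃ B : ℝ, 0 ≤ B ∧ ∀ y, |ζ y| ≤ B ∧ D1 ζ y ≤ B ∧ D2 ζ y ≤ B := by
  obtain ⟨c1, c2⟩ := hc.D_cont ζ hζ.sm
  obtain ⟨B0, h0⟩ := hζ.continuous.bounded_above_of_compact_support hζ.cs
  obtain ⟨B1, h1⟩ := c1.bounded_above_of_compact_support
    (HasCompactSupport.intro hζ.cs fun y hy => (D_off hc hy).2.1)
  obtain ⟨B2, h2⟩ := c2.bounded_above_of_compact_support
    (HasCompactSupport.intro hζ.cs fun y hy => (D_off hc hy).2.2)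
  have n0 : 0 ≤ B0 := (norm_nonneg _).trans (h0 0)
  have n1 : 0 ≤ B1 := (norm_nonneg _).trans (h1 0)
  have n2 : 0 ≤ B2 := (norm_nonneg _).trans (h2 0)
  refine ⟨B0 + B1 + B2, by positivity, fun y => ⟨?_, ?_, ?_⟩⟩
  · have := h0 y
    rw [Real.norm_eq_abs] at this
    linarith
  · have := (le_abs_self _).trans (h1 y)
    linarith
  · have := (le_abs_self _).trans (h2 y)
    linarith

theorem bumpE (hc : ChiFacts) (hn : NbFacts) (r t : ℝ) (hr : 0 < r) (ht : 0 < t) (htr : t ≤ r / 8) :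
    ∃ (ζ : E4 → ℝ) (E : ℝ), 0 ≤ E ∧ Tst ζ ∧ (∀ y ∈ nb r (t / 4), ζ y = 1) ∧
      ∀ (φ : E4 → ℝ) (K : ℝ), Tst φ → 0 ≤ K →
        (∀ y ∈ nb r (t / 2), |φ y| ≤ K ∧ D1 φ y ≤ K ∧ D2 φ y ≤ K) →
        √(eN 2 fun y => ζ y * φ y) ≤ E * K := by
  obtain ⟨ζ, hζ, hs, h1⟩ := hn.bump r (t / 2) hr (by positivity) (by linarith)
  obtain ⟨B, hB0, hB⟩ := tst_bd hc hζ
  refine ⟨ζ, √(3 * volume.real (tsupport ζ)) * (4 * B), by positivity, hζ, fun y hy =>
    h1 y (by rwa [show t / 2 / 2 = t / 4 by ring]), fun φ K hφ hK hb => ?_⟩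
  have hT : Tst fun y => ζ y * φ y := hζ.mul_right hφ.sm
  have hBK : 0 ≤ B * K := by positivity
  have h2 := hc.eN_le _ hT (tsupport ζ) (4 * B * K) (isClosed_tsupport ζ).measurableSet
    hζ.cs.isCompact.measure_lt_top.ne tsupport_mul_subset_left (fun y => by
      have m1 := hc.D1_mul ζ φ y hζ.sm.contDiffAt hφ.sm.contDiffAt
      have m2 := hc.D2_mul ζ φ y hζ.sm.contDiffAt hφ.sm.contDiffAt
      by_cases hy : y ∈ tsupport ζ
      · obtain ⟨b0, b1, b2⟩ := hb y (hs hy)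
        obtain ⟨a0, a1, a2⟩ := hB y
        obtain ⟨n1, n2⟩ := D_nonneg φ y
        obtain ⟨n3, n4⟩ := D_nonneg ζ y
        have q0 : |ζ y| * |φ y| ≤ B * K := mul_le_mul a0 b0 (abs_nonneg _) hB0
        have q1 : |ζ y| * D1 φ y ≤ B * K := mul_le_mul a0 b1 n1 hB0
        have q2 : |ζ y| * D2 φ y ≤ B * K := mul_le_mul a0 b2 n2 hB0
        have q3 : D1 ζ y * |φ y| ≤ B * K := mul_le_mul a1 b0 (abs_nonneg _) hB0
        have q4 : D1 ζ y * D1 φ y ≤ B * K := mul_le_mul a1 b1 n1 hB0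
        have q5 : D2 ζ y * |φ y| ≤ B * K := mul_le_mul a2 b0 (abs_nonneg _) hB0
        refine ⟨?_, ?_, ?_⟩
        · rw [abs_mul]; linarith
        · linarith
        · linarith
      · obtain ⟨z0, z1, z2⟩ := D_off hc hy
        rw [z0, z1] at m1
        rw [z0, z1, z2] at m2
        refine ⟨?_, ?_, ?_⟩
        · rw [z0, zero_mul, abs_zero]; linarith
        · simp only [abs_zero, zero_mul, add_zero] at m1; linarith
        · simp only [abs_zero, zero_mul, add_zero, mul_zero] at m2; linarith)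
  calc _ ≤ √(3 * volume.real (tsupport ζ) * (4 * B * K) ^ 2) := Real.sqrt_le_sqrt h2
    _ = _ := by
      rw [Real.sqrt_mul (by positivity), Real.sqrt_sq (by linarith)]
      ring

theorem Tf_zero (hl : LocFacts) {s ψ : E4 → ℝ} (hs : Tst s) (hψ : Tst ψ) :
    Tf s (fun _ => 0) ψ = 0 := by
  have h1 := (hl.Tf_add s ψ (fun _ => 0) (fun _ => 0) hs hψ Tst.zero Tst.zero)
  have h2 := h1.1
  simp only [add_zero] at h2
  rw [← h1.2]
  linarith

end A25

open A25 in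
theorem pdStmt (hc : ChiFacts) (hn : NbFacts) (hl : LocFacts) (hB : BStmt) (hBf : BfStmt)
    (hZ : ZStmt) (hZF : ZFormStmt) (hL : Loop1Stmt) : PDStmt := by
  intro M _ _ _ _ _ _ _ X Y γ hγ hγ'
  have B := hB M X
  obtain ⟨C, Cf, hE⟩ := hL M X Y γ hγ hγ'
  refine ⟨C, fun tf htf => ?_⟩
  have hb : ∀ r : ℝ, ∃ (ζ : E4 → ℝ) (E : ℝ), 0 ≤ E ∧ (0 < r → Tst ζ ∧
      (∀ y ∈ nb r (tf r / 4), ζ y = 1) ∧ ∀ (φ : E4 → ℝ) (K : ℝ), Tst φ → 0 ≤ K →
        (∀ y ∈ nb r (tf r / 2), |φ y| ≤ K ∧ D1 φ y ≤ K ∧ D2 φ y ≤ K) →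
        √(eN 2 fun y => ζ y * φ y) ≤ E * K) := by
    intro r
    by_cases hr : 0 < r
    · obtain ⟨ζ, E, h0, h1⟩ := bumpE hc hn r (tf r) hr (htf r hr).1 (htf r hr).2
      exact ⟨ζ, E, h0, fun _ => h1⟩
    · exact ⟨0, 0, le_rfl, fun h => absurd h hr⟩
  choose ζ E hE0 hζ using hb
  refine ⟨fun r => E r * √(Cf r) + 2, fun r => by have := hE0 r; positivity, ?_⟩
  refine (hE.and (Ev.of_η (fun r => tf r / 4) fun r hr => by
    have := (htf r hr).1; positivity)).mono ?_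
  rintro Z ⟨h1, hη⟩ u p θ hθ hu hp
  obtain ⟨-, c, hc1, hc2⟩ := h1 u p θ hθ hu hp
  have ZF := hZ M X Y Z
  have F := hZF M X Y Z
  have hpf : p ∈ X.fix := hp.1
  have hr := Z.r_pos
  obtain ⟨ht, htr⟩ := htf Z.r hr
  have hη0 := Z.η_pos
  have hR := Y.R_pos
  have hR' := Y.R_le
  have hr1 : r1 = 1 / 25 := rfl
  have hr0 : r0 = 1 / 10 := rfl
  have hus : Smooth fun x => u x - c := hu.sm.sub (smooth_const c)
  have hU : Tst (loc p fun x => u x - c) := B.loc_tst p _ hus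
  refine ⟨loc p fun x => u x - c, hU, ZF.den u hu.sm hu.inv p hpf, ?_, ?_, hc2⟩
  · refine ⟨exp (4 * c) / ∫ y, exp (4 * u y + 4 * Z.om y) ∂X.μ, fun y hy hy' => ?_⟩
    have c1 : chi r1 y = 1 := hc.one r1 (by rw [hr1]; norm_num) y (by rw [hr1]; linarith)
    have s0' : Z.s y = 0 := Z.tube.supp y fun h =>
      hy' (nb_mono (by positivity) (by linarith) h)
    have o1 := ZF.om_par p hpf y hy.le
    rw [s0', mul_zero, exp_zero] at o1
    simp only [L2'.rhoE, loc, L2'.rho, c1, one_mul]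
    rw [exp_add, div_mul_eq_mul_div, mul_assoc, o1, mul_one, div_mul_eq_mul_div, ← exp_add]
    congr 2
    ring
  · intro φ hφ hφ0 K hK
    have hK0 : 0 ≤ K := (abs_nonneg _).trans (hK (circ 0 Z.r 0)
      ⟨0, by rw [hn.circ_ee]; positivity⟩).1
    have hΦ : Smooth (extz p φ) :=
      B.ext_sm p φ (Y.R / 2) (by rw [hr0]; linarith) hφ.sm.contDiffOn hφ0
    have l1 : loc p (extz p φ) = φ := B.loc_ext p φ fun y hy => hφ0 y (by rw [hr1] at hy; linarith)
    have l2 : ∀ p' ∈ X.fix, p' ≠ p → loc p' (extz p φ) = fun _ => 0 := fun p' hp' hne =>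
      B.loc_ext' p hpf p' hp' hne φ fun y hy => hφ0 y (by linarith)
    have e0 := hu.eqn _ hΦ
    -- the bilinear form
    have e1 : Bf Z.g (extz p φ) u = Bf Z.g (extz p φ) fun x => u x - c := by
      have := (hBf M Z.g).lin (extz p φ) u u hΦ hu.sm hu.sm 1 0 (-c)
      simp only [one_mul, zero_mul, add_zero] at this
      rw [← this]
      simp only [sub_eq_add_neg]
    have e2 : Bf Z.g (extz p φ) (fun x => u x - c) =
        (∫ y, lp (loc p fun x => u x - c) y * lp φ y) + Tf Z.s φ (loc p fun x => u x - c) := by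
      rw [F.B_eq _ _ hΦ hus, (hBf M Y.g).symm _ _ hΦ hus, F.flatB p hpf φ hφ hφ0 _ hus,
        Finset.sum_eq_single_of_mem p hpf fun p' hp' hne => by
          rw [l2 p' hp' hne]
          exact Tf_zero hl Z.tube.sm (B.loc_tst p' _ hus), l1]
    have e3 : qf Z.g (extz p φ) = ∫ y, qd Z.s y * φ y := by
      rw [F.q_eq _ hΦ, F.flatq p hpf φ hφ hφ0, zero_add,
        Finset.sum_eq_single_of_mem p hpf fun p' hp' hne => by
          rw [l2 p' hp' hne]
          simp, l1]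
    have e4 : (∫ x, extz p φ x * Z.rho u x ∂X.μ) = ∫ y, φ y * Z.rhoE u p y := by
      rw [← setIntegral_eq_integral_of_forall_compl_eq_zero (s := {x | X.d p x < r1})
          (fun x hx => by
            rw [B.ext_far p x φ (Y.R / 2) hφ0 (by
              have : r1 ≤ X.d p x := not_lt.mp hx
              rw [hr1] at this
              linarith), zero_mul]),
        ZF.chart u hu.sm p r1 le_rfl _ hΦ.continuous.measurable,
        ← setIntegral_eq_integral_of_forall_compl_eq_zero (s := ball (0 : E4) r1)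
          (f := fun y => φ y * Z.rhoE u p y) (fun y hy => by
            rw [hφ0 y (by
              rw [mem_ball_zero_iff, not_lt, hr1] at hy
              linarith), zero_mul])]
      refine setIntegral_congr_fun measurableSet_ball fun y hy => ?_
      rw [B.ext_par p φ y (by
        rw [mem_ball_zero_iff, hr1] at hy
        rw [hr0]
        linarith)]
    -- the tube terms
    obtain ⟨z1, z2, z3⟩ := hζ Z.r hr
    have hann : ContDiff ℝ ∞ (ann Z.r) :=
      (hc.tst (2 * Z.r) (by positivity)).sm.mul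
        (contDiff_const.sub (hc.tst (Z.r / 4) (by positivity)).sm)
    have hA : Tst fun y => ann Z.r y * loc p (fun x => u x - c) y := hU.mul_left hann
    have hζφ : Tst fun y => ζ Z.r y * φ y := z1.mul_right hφ.sm
    have e5 : Tf Z.s φ (loc p fun x => u x - c) = Tf Z.s (fun y => ζ Z.r y * φ y)
        fun y => ann Z.r y * loc p (fun x => u x - c) y := by
      refine hl.Tf_congr _ _ _ _ _ (nb Z.r (tf Z.r / 4)) 0 0 Z.tube.sm (hn.nb_open _ _)
        (ZF.s_supp.trans (nb_mono hη0.le hη)) hφ hζφ hU hA (fun y hy => ?_) fun y hy => ?_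
      · rw [z2 y hy, one_mul, add_zero]
      · obtain ⟨n1, n2⟩ := hn.nb_norm Z.r (tf Z.r / 4) hr (by positivity) (by linarith) y hy
        have a1 : ann Z.r y = 1 := by
          unfold ann
          rw [hc.one _ (by positivity) y n2.le, hc.zero _ (by positivity) y (by linarith)]
          ring
        rw [a1, one_mul, add_zero]
    have t1 := Z.tube.t1 _ _ hζφ hA
    have t4 := Z.tube.t4 φ hφ K fun y hy =>
      (hK y (nb_mono hη0.le (by linarith) hy)).2
    have t2 : Z.η * √(eN 2 fun y => ζ Z.r y * φ y) *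
        √(eN 2 fun y => ann Z.r y * loc p (fun x => u x - c) y)
        ≤ Z.η * (E Z.r * K) * √(Cf Z.r) := by
      have := hE0 Z.r
      exact mul_le_mul (mul_le_mul_of_nonneg_left (z3 φ K hφ hK0 hK) hη0.le)
        (Real.sqrt_le_sqrt hc1) (Real.sqrt_nonneg _) (by positivity)
    rw [e1, e2, e3, e4, e5] at e0
    have t3 := t1.trans t2
    rw [abs_le] at t3 t4 ⊢
    constructor <;> linarith [t3.1, t3.2, t4.1, t4.2]

end Pool.Agent.MP_417fa2_gt.Q2
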