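import Pool.Agent.MP_417fa2_gt.Q2.FlowA

/-! Lower semicontinuity of the energy for convergence almost everywhere at fixed volume. -/

open scoped Manifold ContDiff Topology
open MeasureTheory Set Filter Real

namespace Pool.Agent.MP_417fa2_gt.Q2.Fl

variable {M : Type} [TopologicalSpace M] [T2Space M] [CompactSpace M] [ChartedSpace E4 M]
  [IsManifold (𝓡 4) ∞ M] [MeasurableSpace M] [BorelSpace M] {S : Setup M}

omit [IsManifold (𝓡 4) ∞ M] in
/-- Convergence almost everywhere and a bound in `L²` give convergence in `L¹`. -/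
theorem vitali {f : ℕ → M → ℝ} {g : M → ℝ} (hf : ∀ n, Continuous (f n)) (hg : Continuous g)
    (hl : ∀ᵐ x ∂S.μ, Tendsto (fun n => f n x) atTop (𝓝 (g x))) {D : ℝ}
    (hD : ∀ᶠ n in atTop, ∫ x, f n x ^ 2 ∂S.μ ≤ D) :
    Tendsto (fun n => ∫ x, |f n x - g x| ∂S.μ) atTop (𝓝 0) := by
  set A := 2 * |D| + 2 * ∫ x, g x ^ 2 ∂S.μ + 1 with hA
  have A0 : 0 < A := by
    have : 0 ≤ ∫ x, g x ^ 2 ∂S.μ := integral_nonneg fun x => sq_nonneg _
    positivity
  refine (tendsto_order.2 ⟨fun a ha => Eventually.of_forall fun n =>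
    ha.trans_le (integral_nonneg fun x => abs_nonneg _), fun ε hε => ?_⟩)
  set K := 2 * A / ε with hK
  have K0 : 0 < K := by positivity
  have h1 : Tendsto (fun n => ∫ x, min |f n x - g x| K ∂S.μ) atTop (𝓝 (∫ _x, (0 : ℝ) ∂S.μ)) := by
    refine tendsto_integral_of_dominated_convergence (fun _ => K)
      (fun n => (((hf n).sub hg).abs.min continuous_const).aestronglyMeasurable)
      (integrable_const K) (fun n => Eventually.of_forall fun x => ?_) ?_
    · rw [Real.norm_eq_abs, abs_of_nonneg (le_min (abs_nonneg _) K0.le)]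
      exact min_le_right _ _
    · filter_upwards [hl] with x hx
      have := ((hx.sub_const (g x)).abs.min (tendsto_const_nhds (x := K)))
      simpa [min_eq_left K0.le] using this
  rw [integral_zero] at h1
  filter_upwards [hD, h1.eventually (gt_mem_nhds (half_pos hε))] with n hn h2
  have i1 : Integrable (fun x => min |f n x - g x| K) S.μ :=
    S.integrable (((hf n).sub hg).abs.min (continuous_const (y := K)))
  have i2 := S.integrable ((hf n).pow 2)
  have i3 := S.integrable (hg.pow 2)
  have i4 : Integrable (fun x => 2 / K * f n x ^ 2) S.μ := i2.const_mul _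
  have i5 : Integrable (fun x => 2 / K * g x ^ 2) S.μ := i3.const_mul _
  have i6 : Integrable (fun x => 2 / K * f n x ^ 2 + 2 / K * g x ^ 2) S.μ := i4.add i5
  have h3 : ∫ x, |f n x - g x| ∂S.μ ≤
      ∫ x, (min |f n x - g x| K + (2 / K * f n x ^ 2 + 2 / K * g x ^ 2)) ∂S.μ := by
    refine integral_mono (S.integrable ((hf n).sub hg).abs) (i1.add i6) fun x => ?_
    have e : 2 / K * f n x ^ 2 + 2 / K * g x ^ 2 = (2 * f n x ^ 2 + 2 * g x ^ 2) / K := by ring
    simp only [e]
    rcases le_total |f n x - g x| K with h | h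
    · rw [min_eq_left h]
      exact le_add_of_nonneg_right (by positivity)
    · refine le_add_of_nonneg_of_le (le_min (abs_nonneg _) K0.le) ((le_div_iff₀ K0).2 ?_)
      nlinarith [sq_abs (f n x - g x), sq_nonneg (f n x + g x), abs_nonneg (f n x - g x)]
  rw [integral_add i1 i6, integral_add i4 i5, integral_const_mul, integral_const_mul] at h3
  have h4 : 2 / K * ∫ x, f n x ^ 2 ∂S.μ + 2 / K * ∫ x, g x ^ 2 ∂S.μ ≤ ε / 2 := by
    have e : ε / 2 = 1 / K * A := by rw [hK]; field_simp
    have : 0 < 1 / K := by positivity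
    have e2 : 2 / K = 2 * (1 / K) := by ring
    rw [e, e2]
    nlinarith [le_abs_self D]
  linarith

omit [IsManifold (𝓡 4) ∞ M] in
theorem lim_mul {f : ℕ → M → ℝ} {g h : M → ℝ} (hf : ∀ n, Continuous (f n)) (hg : Continuous g)
    (hh : Continuous h) (hl : Tendsto (fun n => ∫ x, |f n x - g x| ∂S.μ) atTop (𝓝 0)) :
    Tendsto (fun n => ∫ x, f n x * h x ∂S.μ) atTop (𝓝 (∫ x, g x * h x ∂S.μ)) := by
  obtain ⟨C, hC⟩ := isCompact_univ.exists_bound_of_continuousOn hh.continuousOn
  rw [tendsto_iff_norm_sub_tendsto_zero]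
  refine squeeze_zero (fun _ => norm_nonneg _) (fun n => ?_) (by simpa using hl.const_mul C)
  have i1 : Integrable (fun x => f n x * h x) S.μ := S.integrable ((hf n).mul hh)
  have i2 : Integrable (fun x => g x * h x) S.μ := S.integrable (hg.mul hh)
  rw [← integral_sub i1 i2, ← integral_const_mul]
  refine norm_integral_le_of_norm_le ((S.integrable ((hf n).sub hg).abs).const_mul C)
    (Eventually.of_forall fun x => ?_)
  rw [← sub_mul, norm_mul, mul_comm]
  exact mul_le_mul_of_nonneg_right (hC x trivial) (norm_nonneg _)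

theorem quad_bound {a p s y : ℝ} (ha : 0 < a) (h : y ^ 2 * a ≤ p + s * y) :
    y ≤ max 1 ((|p| + s) / a) := by
  rcases le_total y 1 with h1 | h1
  · exact h1.trans (le_max_left _ _)
  · refine le_trans ((le_div_iff₀ ha).2 ?_) (le_max_right _ _)
    by_contra hc
    have h2 := mul_lt_mul_of_pos_right (not_le.1 hc) (by linarith : 0 < y)
    nlinarith [le_abs_self p, abs_nonneg p]

theorem EE_lim (hG : ∀ φ, Smooth φ → 0 ≤ ∫ x, φ x * S.P φ x ∂S.μ)
    (hq : ∫ x, S.q x ∂S.μ = 16 * π ^ 2) {C : ℝ} (C0 : 0 < C)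
    (hT : ∀ f, Smooth f → ∃ c : ℝ, ∫ x, (f x - c) ^ 2 ∂S.μ ≤ C * ∫ x, f x * S.P f x ∂S.μ ∧
      ∫ x, exp (8 * (f x - c)) ∂S.μ ≤ exp (C * (1 + ∫ x, f x * S.P f x ∂S.μ)))
    {u : ℕ → M → ℝ} (hu : ∀ n, Smooth (u n)) {V E : ℝ}
    (hV : ∀ n, ∫ x, exp (4 * u n x) ∂S.μ = V) (hE : ∀ n, EE S (u n) ≤ E) {v : M → ℝ}
    (hv : Smooth v) (hl : ∀ᵐ x ∂S.μ, Tendsto (fun n => u n x) atTop (𝓝 (v x))) :
    EE S v ≤ E ∧ ∫ x, exp (4 * v x) ∂S.μ = V := by
  choose c h1 h2 using fun n => hT (u n) (hu n)
  set b : ℕ → ℝ := fun n => ∫ x, u n x * S.P (u n) x ∂S.μ with hb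
  have b0 : ∀ n, 0 ≤ b n := fun n => hG _ (hu n)
  have cu : ∀ n, Continuous (u n) := fun n => (hu n).continuous
  have cq := S.q_sm.continuous
  set W := S.μ.real univ with hW
  have W0 : 0 < W := by
    refine lt_of_le_of_ne measureReal_nonneg fun h => ?_
    have h0 : S.μ = 0 := by
      rw [← Measure.measure_univ_eq_zero]
      exact (measureReal_eq_zero_iff (measure_ne_top _ _)).1 h.symm
    rw [h0, integral_zero_measure] at hq
    exact absurd hq (by positivity : (0 : ℝ) < 16 * π ^ 2).ne
  set E' := E + 2 * C * ∫ x, S.q x ^ 2 ∂S.μ with hE'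
  have h3 : ∀ n, b n ≤ 2 * E' - 64 * π ^ 2 * c n := by
    intro n
    have i1 := S.integrable (((cu n).sub (continuous_const (y := c n))).pow 2)
    have i2 := S.integrable (cq.pow 2)
    have i3 : Integrable (fun x => -(1 / (2 * C)) * (u n x - c n) ^ 2) S.μ := i1.const_mul _
    have i4 : Integrable (fun x => 2 * C * S.q x ^ 2) S.μ := i2.const_mul _
    have i5 : Integrable (fun x => 2 * c n * S.q x) S.μ := (S.integrable cq).const_mul _
    have i6 : Integrable (fun x => -(1 / (2 * C)) * (u n x - c n) ^ 2 - 2 * C * S.q x ^ 2) S.μ :=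
      i3.sub i4
    have h4 : ∫ x, (-(1 / (2 * C)) * (u n x - c n) ^ 2 - 2 * C * S.q x ^ 2 + 2 * c n * S.q x) ∂S.μ
        ≤ ∫ x, 2 * (S.q x * u n x) ∂S.μ := by
      refine integral_mono (i6.add i5) ((S.integrable (cq.mul (cu n))).const_mul 2) fun x => ?_
      have e : 2 * (S.q x * u n x) - (-(1 / (2 * C)) * (u n x - c n) ^ 2 - 2 * C * S.q x ^ 2 +
          2 * c n * S.q x) = 1 / (2 * C) * (u n x - c n + 2 * C * S.q x) ^ 2 := by
        field_simp
        ring
      exact sub_nonneg.1 (e ▸ by positivity)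
    rw [integral_add i6 i5, integral_sub i3 i4] at h4
    simp only [integral_const_mul, hq] at h4
    have h5 : 1 / (2 * C) * ∫ x, (u n x - c n) ^ 2 ∂S.μ ≤ b n / 2 :=
      (mul_le_mul_of_nonneg_left (h1 n) (by positivity)).trans_eq (by simp only [hb]; field_simp)
    have h6 := hE n
    simp only [EE] at h6
    simp only [hE', hb] at h5 ⊢
    linarith
  obtain ⟨K, hK⟩ := isCompact_univ.exists_bound_of_continuousOn hv.continuous.continuousOn
  have cg : ∀ n, Continuous fun x => max 0 (1 - |u n x - v x|) := fun n =>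
    continuous_const.max (continuous_const.sub ((cu n).sub hv.continuous).abs)
  have h7 : Tendsto (fun n => ∫ x, max 0 (1 - |u n x - v x|) ∂S.μ) atTop
      (𝓝 (∫ _x, (1 : ℝ) ∂S.μ)) := by
    refine tendsto_integral_of_dominated_convergence (fun _ => 1)
      (fun n => (cg n).aestronglyMeasurable) (integrable_const 1)
      (fun n => Eventually.of_forall fun x => ?_) ?_
    · rw [Real.norm_eq_abs, abs_of_nonneg (le_max_left _ _)]
      exact max_le zero_le_one (sub_le_self _ (abs_nonneg _))
    · filter_upwards [hl] with x hx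
      simpa using (tendsto_const_nhds (x := (0 : ℝ))).max
        ((hx.sub_const (v x)).abs.const_sub 1)
  simp only [integral_const, smul_eq_mul, mul_one, ← hW] at h7
  set Y := max 1 ((|C * (2 * E' + 64 * π ^ 2 * (K + 1))| + C * (64 * π ^ 2)) / (W / 2)) with hY
  have h8 : ∀ᶠ n in atTop, -(K + 1) - c n ≤ Y := by
    filter_upwards [h7.eventually (lt_mem_nhds (half_lt_self W0))] with n hn
    rcases le_total (-(K + 1) - c n) 0 with h | h
    · exact h.trans (zero_le_one.trans (le_max_left _ _))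
    refine quad_bound (half_pos W0) ?_
    have h9 : ∫ x, (-(K + 1) - c n) ^ 2 * max 0 (1 - |u n x - v x|) ∂S.μ ≤
        ∫ x, (u n x - c n) ^ 2 ∂S.μ := by
      refine integral_mono ((S.integrable (cg n)).const_mul _)
        (S.integrable (((cu n).sub continuous_const).pow 2)) fun x => ?_
      rcases le_total (1 - |u n x - v x|) 0 with h' | h'
      · simp only [max_eq_left h', mul_zero]
        exact sq_nonneg _
      · have k1 := neg_le_of_abs_le (hK x trivial)
        have k2 := neg_abs_le (u n x - v x)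
        refine (mul_le_of_le_one_right (sq_nonneg _)
          (max_le zero_le_one (sub_le_self _ (abs_nonneg _)))).trans ?_
        exact pow_le_pow_left₀ h (by linarith) 2
    rw [integral_const_mul] at h9
    have k3 := mul_le_mul_of_nonneg_left hn.le (sq_nonneg (-(K + 1) - c n))
    have k4 := mul_le_mul_of_nonneg_left (h3 n) C0.le
    have k5 := h1 n
    simp only [hb] at k4
    nlinarith
  have pp : 0 < 64 * π ^ 2 := by positivity
  set D := max (K + 1 + Y) (2 * E' / (64 * π ^ 2)) with hD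
  have h10 : ∀ᶠ n in atTop, |c n| ≤ D ∧ b n ≤ 2 * E' + 64 * π ^ 2 * D := by
    filter_upwards [h8] with n hn
    have k1 : -D ≤ c n := by linarith [le_max_left (K + 1 + Y) (2 * E' / (64 * π ^ 2))]
    refine ⟨abs_le.2 ⟨k1, le_trans ((le_div_iff₀ pp).2 ?_) (le_max_right _ _)⟩, ?_⟩
    · linarith [h3 n, b0 n]
    · nlinarith [h3 n]
  have l1 := vitali cu hv.continuous hl
    (D := 2 * (C * (2 * E' + 64 * π ^ 2 * D)) + 2 * D ^ 2 * W) (by
      filter_upwards [h10] with n hn
      have i1 : Integrable (fun x => 2 * (u n x - c n) ^ 2) S.μ :=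
        (S.integrable (((cu n).sub continuous_const).pow 2)).const_mul _
      have k1 : ∫ x, u n x ^ 2 ∂S.μ ≤ ∫ x, (2 * (u n x - c n) ^ 2 + 2 * D ^ 2) ∂S.μ :=
        integral_mono (S.integrable ((cu n).pow 2)) (i1.add (integrable_const _)) fun x => by
          have := sq_le_sq' (abs_le.1 hn.1).1 (abs_le.1 hn.1).2
          nlinarith [sq_nonneg (u n x - 2 * c n)]
      rw [integral_add i1 (integrable_const _), integral_const_mul, integral_const, smul_eq_mul,
        ← hW] at k1
      have k2 := mul_le_mul_of_nonneg_left hn.2 C0.le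
      have k3 := h1 n
      simp only [hb] at k2
      linarith)
  have ce : ∀ n, Continuous fun x => exp (4 * u n x) := fun n => by fun_prop
  have cv : Continuous fun x => exp (4 * v x) := (hv.const_mul 4).exp.continuous
  have l2 := vitali (S := S) ce cv (by
      filter_upwards [hl] with x hx
      exact (continuous_exp.tendsto _).comp (hx.const_mul 4))
    (D := exp (8 * D) * exp (C * (1 + (2 * E' + 64 * π ^ 2 * D)))) (by
      filter_upwards [h10] with n hn
      have e : ∀ x, exp (4 * u n x) ^ 2 = exp (8 * c n) * exp (8 * (u n x - c n)) := fun x => by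
        rw [← exp_add, sq, ← exp_add]
        congr 1
        ring
      simp only [e, integral_const_mul]
      refine mul_le_mul (exp_le_exp.2 (by linarith [(abs_le.1 hn.1).2])) ((h2 n).trans
        (exp_le_exp.2 (mul_le_mul_of_nonneg_left (by linarith [hn.2]) C0.le)))
        (integral_nonneg fun x => (exp_pos _).le) (exp_pos _).le)
  have l3 := lim_mul ce cv (continuous_const (y := (1 : ℝ))) l2
  simp only [mul_one, hV] at l3
  refine ⟨?_, tendsto_nhds_unique l3 tendsto_const_nhds |>.symm ▸ rfl⟩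
  have l4 := lim_mul cu hv.continuous (S.P_smooth hv).continuous l1
  have l5 := lim_mul cu hv.continuous cq l1
  have l6 := ((l4.const_mul 2).sub_const (∫ x, v x * S.P v x ∂S.μ)).add (l5.const_mul 2)
  refine le_trans (le_of_eq ?_) (le_of_tendsto' l6 fun n => le_trans ?_ (hE n))
  · simp only [EE, mul_comm (S.q _)]
    ring
  · have k1 := hG _ ((hu n).sub hv)
    rw [S.P_sub (hu n) hv, quad_split (hu n) hv] at k1
    simp only [EE, mul_comm (S.q _)]
    linarith

end Pool.Agent.MP_417fa2_gt.Q2.Fl
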