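import Pool.Agent.MP_417fa2_gt.Q2.Defs
import Pool.Agent.MP_417fa2_gt.Q2.FlowB

/-! An invariant initial value below all invariant critical levels gives a flow that does not
converge, along any sequence of times, almost everywhere. -/

open scoped Manifold ContDiff Topology
open MeasureTheory Set Filter Real

namespace Pool.Agent.MP_417fa2_gt.Q2.Fl

variable {M : Type} [TopologicalSpace M] [T2Space M] [CompactSpace M] [ChartedSpace E4 M]
  [IsManifold (𝓡 4) ∞ M] [MeasurableSpace M] [BorelSpace M]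

omit [T2Space M] in
theorem II_eq (g : RMetric M) {u : M → ℝ} (hu : Smooth u) :
    II g u = EE (setupOf g) u - 8 * π ^ 2 * log (∫ x, exp (4 * u x) ∂vol g) := by
  have e : ∀ x, (setupOf g).q x * u x = 2 * (qCurv g x * u x) := fun x => mul_assoc _ _ _
  simp only [II, EE, Bf, qf, setupOf_P g hu, e, integral_const_mul]
  change _ = ∫ x, u x * paneitz g u x ∂vol g + 2 * (2 * ∫ x, qCurv g x * u x ∂vol g) - _
  ring

/-- The weak form of constant Q-curvature. -/
theorem weak_of_const {g g' : RMetric M} {u : M → ℝ} (hu : Smooth u)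
    (h : ∀ x v v', gin g' x v v' = exp (2 * u x) * gin g x v v') {c : ℝ}
    (hc : ∀ x, qCurv g' x = c) (hk : (qf g fun _ => 1) = 8 * π ^ 2) (φ : M → ℝ) (hφ : Smooth φ) :
    Bf g φ u + 2 * qf g φ =
      16 * π ^ 2 * ((∫ x, φ x * exp (4 * u x) ∂vol g) / ∫ x, exp (4 * u x) ∂vol g) := by
  have key : ∀ ψ, Smooth ψ → Bf g ψ u + 2 * qf g ψ = 2 * c * ∫ x, ψ x * exp (4 * u x) ∂vol g := by
    intro ψ hψ
    have i1 : Integrable (fun x => ψ x * paneitz g u x) (vol g) :=
      (setupOf g).integrable (hψ.mul (paneitz_smooth g hu)).continuous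
    have i2 : Integrable (fun x => 2 * (qCurv g x * ψ x)) (vol g) :=
      (setupOf g).integrable (((qCurv_smooth g).mul hψ).const_mul 2).continuous
    rw [Bf, qf, ← integral_const_mul, ← integral_add i1 i2, ← integral_const_mul]
    refine integral_congr_ae (Eventually.of_forall fun x => ?_)
    have h1 := qCurv_conf hu h x
    have i3 : exp (4 * u x) * exp (-4 * u x) = 1 := by rw [← exp_add]; simp
    rw [hc] at h1
    linear_combination (-(ψ x) * exp (4 * u x)) * h1 -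
      ψ x * (paneitz g u x + 2 * qCurv g x) * i3
  have h1 := key _ (smooth_const 1)
  have h2 : Bf g (fun _ => 1) u = 0 := by
    simp only [Bf, one_mul, ← setupOf_P g hu]
    exact (setupOf g).integral_P hu
  simp only [h2, hk, one_mul, zero_add] at h1
  have h3 : ∫ x, exp (4 * u x) ∂vol g ≠ 0 := fun h0 => by
    rw [h0, mul_zero] at h1
    exact absurd h1 (by positivity : (0 : ℝ) < 2 * (8 * π ^ 2)).ne'
  rw [key φ hφ]
  field_simp
  linear_combination (-∫ x, φ x * exp (4 * u x) ∂vol g) * h1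

theorem no_conv (g : RMetric M) (J : M → M)
    (hpos : ∀ φ, Smooth φ → 0 ≤ ∫ x, φ x * paneitz g φ x ∂vol g)
    (hker : ∀ φ, Smooth φ → (∀ x, paneitz g φ x = 0) → ∃ c, ∀ x, φ x = c)
    (hk : (qf g fun _ => 1) = 8 * π ^ 2) {C : ℝ} (C0 : 0 < C)
    (hT : ∀ f, Smooth f → ∃ c : ℝ, ∫ x, (f x - c) ^ 2 ∂vol g ≤ C * Bf g f f ∧
      ∫ x, exp (8 * (f x - c)) ∂vol g ≤ exp (C * (1 + Bf g f f)))
    (hJs : ∀ I (w : ℝ → M → ℝ), SmoothOn I w → SmoothOn I fun t x => w t (J x))
    (hJP : ∀ φ, Smooth φ → ∀ x, paneitz g (fun z => φ (J z)) x = paneitz g φ (J x))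
    (hJq : ∀ x, qCurv g (J x) = qCurv g x) (hJc : Continuous J)
    (hJm : Measure.QuasiMeasurePreserving J (vol g) (vol g))
    {u₀ : M → ℝ} (h₀ : Smooth u₀) (hi : ∀ x, u₀ (J x) = u₀ x)
    (hlow : ∀ u, Smooth u → (∀ x, u (J x) = u x) →
      (∀ φ, Smooth φ → Bf g φ u + 2 * qf g φ =
        16 * π ^ 2 * ((∫ x, φ x * exp (4 * u x) ∂vol g) / ∫ x, exp (4 * u x) ∂vol g)) →
      II g u₀ < II g u) :
    ∃ γ : ℝ → RMetric M, γ 0 = confM g u₀ h₀ ∧ IsFlow (Ici 0) γ ∧
      ∀ (g' : RMetric M) (u : M → ℝ), Smooth u →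
        (∀ x v v', gin g' x v v' = exp (2 * u x) * gin g x v v') → (∃ c, ∀ x, qCurv g' x = c) →
        ∀ t : ℕ → ℝ, (∀ n, 0 ≤ t n) → ¬∀ᵐ x ∂vol g, ∀ v v',
          Tendsto (fun n => gin (γ (t n)) x v v') atTop (𝓝 (gin g' x v v')) := by
  have hG : (setupOf g).Good := ⟨fun φ hφ => by rw [setupOf_P g hφ]; exact hpos φ hφ,
    fun φ hφ h0 => hker φ hφ (by rwa [setupOf_P g hφ] at h0)⟩
  obtain ⟨w, hw0, hw, huniq⟩ := an M (setupOf g) hG u₀ h₀
  have sJ : ∀ φ, Smooth φ → Smooth fun z => φ (J z) := fun φ hφ =>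
    (hJs univ _ (hφ.smoothOn univ)).slice (t := 0) trivial
  have pJ : ∀ φ, Smooth φ → ∀ x, (setupOf g).P (fun z => φ (J z)) x = (setupOf g).P φ (J x) :=
    fun φ hφ x => by rw [setupOf_P g hφ, setupOf_P g (sJ φ hφ), hJP φ hφ]
  have rJ : ∀ φ, Smooth φ → ∀ x,
      (setupOf g).rhs (fun z => φ (J z)) x = (setupOf g).rhs φ (J x) := by
    intro φ hφ x
    have e : (setupOf g).curv (fun z => φ (J z)) = fun z => (setupOf g).curv φ (J z) := by
      funext z
      simp only [Setup.curv, pJ φ hφ]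
      change _ * (_ + 2 * qCurv g z) = _ * (_ + 2 * qCurv g (J z))
      rw [hJq]
    simp only [Setup.rhs, e, pJ _ ((setupOf g).curv_smooth hφ)]
  have hinv : ∀ t, 0 ≤ t → ∀ x, w t (J x) = w t x := fun t ht x =>
    congrFun (huniq (t + 1) (by linarith) (fun s z => w s (J z)) (by rw [hw0]; exact funext hi)
      ⟨hJs _ _ (hw.smooth.mono fun _ hs => hs.1), fun s hs z => by
        rw [rJ _ (hw.smooth.slice hs.1)]
        exact (hw.eqn s hs.1 (J z)).mono fun _ hr => hr.1⟩ t ⟨ht, by linarith⟩) x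
  refine ⟨_, rmetric_ext fun x v v' => ?_, isFlow_of_sol g hw,
    fun g' u hu hg' ⟨c, hc⟩ t ht hl => ?_⟩
  · rw [gin_confM, gin_confM, max_self, hw0]
  have hl' : ∀ᵐ x ∂vol g, Tendsto (fun n => w (t n) x) atTop (𝓝 (u x)) := by
    filter_upwards [hl] with x hx
    obtain ⟨e, he⟩ : ∃ e : TangentSpace (𝓡 4) x, e ≠ 0 :=
      ⟨(EuclideanSpace.single 0 1 : E4), fun h => by
        have h' : (EuclideanSpace.single 0 1 : E4) = 0 := h
        simpa using congrArg (fun v : E4 => v 0) h'⟩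
    have hp : 0 < gin g x e e := g.pos x e he
    have h1 := (((hx e e).div_const (gin g x e e)).log
      (by rw [hg', mul_div_cancel_right₀ _ hp.ne']; exact (exp_pos _).ne')).div_const 2
    simpa only [gin_confM, hg', mul_div_cancel_right₀ _ hp.ne', log_exp, max_eq_left (ht _),
      mul_div_cancel_left₀ _ (two_ne_zero (α := ℝ))] using h1
  have hui : ∀ x, u (J x) = u x := by
    have : (vol g).IsOpenPosMeasure := (setupOf g).openPos
    refine congrFun (((hu.continuous.comp hJc).ae_eq_iff_eq (vol g) hu.continuous).1 ?_)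
    filter_upwards [hl', hJm.ae hl'] with x h1 h2
    simp only [hinv _ (ht _)] at h2
    exact tendsto_nhds_unique h2 h1
  have hq : ∫ x, (setupOf g).q x ∂(setupOf g).μ = 16 * π ^ 2 := by
    change ∫ x, 2 * qCurv g x ∂vol g = _
    simp only [qf, mul_one] at hk
    rw [integral_const_mul, hk]
    ring
  obtain ⟨h1, h2⟩ := EE_lim hG.pos hq C0
    (fun f hf => by rw [setupOf_P g hf]; exact hT f hf)
    (fun n => hw.smooth.slice (ht n)) (fun n => vol_const hw (ht n))
    (fun n => EE_anti hG.pos hw (ht n)) hu hl'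
  have h3 := hlow u hu hui (weak_of_const hu hg' hc hk)
  rw [II_eq g h₀, II_eq g hu] at h3
  rw [hw0] at h1 h2
  change ∫ x, exp (4 * u x) ∂vol g = ∫ x, exp (4 * u₀ x) ∂vol g at h2
  rw [h2] at h3
  linarith

end Pool.Agent.MP_417fa2_gt.Q2.Fl
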