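import Pool.Agent.MP_417fa2_gt.Q2.ASpec
import Pool.Agent.MP_417fa2_gt.Q2.FlowC

/-! Critical points do not concentrate; the low invariant factor; the flow. -/

open scoped Manifold ContDiff Topology
open MeasureTheory Set Metric Real Filter

namespace Pool.Agent.MP_417fa2_gt.Q2

theorem flowStmt2 : FlowStmt2 := by
  intro M _ _ _ _ _ _ _ g J u₀ h
  obtain ⟨C, C0, hT⟩ := h.tr
  have hker : ∀ φ : M → ℝ, Smooth φ → (∀ x, paneitz g φ x = 0) → ∃ c, ∀ x, φ x = c := by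
    intro φ hφ h0
    obtain ⟨c, h1, -⟩ := hT φ hφ
    have : (vol g).IsOpenPosMeasure := (setupOf g).openPos
    have hc : Continuous fun x => (φ x - c) ^ 2 := (hφ.continuous.sub continuous_const).pow 2
    simp only [Bf, h0, mul_zero, integral_zero] at h1
    have h4 := (hc.ae_eq_iff_eq (vol g) continuous_zero).1 ((integral_eq_zero_iff_of_nonneg
      (fun _ => sq_nonneg _) ((setupOf g).integrable hc)).1
      (le_antisymm h1 (integral_nonneg fun _ => sq_nonneg _)))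
    exact ⟨c, fun z => sub_eq_zero.1 (pow_eq_zero_iff two_ne_zero |>.1 (congrFun h4 z))⟩
  obtain ⟨γ, h0, h1, h2⟩ := Fl.no_conv g J h.nonneg hker h.total C0 hT h.J_smOn h.J_P h.J_q
    h.J_cont h.J_pres.quasiMeasurePreserving h.sm h.inv h.low
  refine ⟨h.nonneg, hker, by simpa only [qf, mul_one] using h.total, γ, h1,
    ⟨u₀, h.sm, fun x v v' => by rw [h0, gin_confM]⟩, ?_⟩
  rintro g' ⟨u, hu, hg'⟩ hc
  exact h2 g' u hu hg' hc

namespace A26

theorem lam_small {ε : ℝ} (hε : 0 < ε) : ∀ᶠ r in 𝓝[>] (0 : ℝ), r ^ (1 / 8 : ℝ) ≤ ε := by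
  have : Tendsto (fun r : ℝ => r ^ (1 / 8 : ℝ)) (𝓝[>] 0) (𝓝 0) := by
    have h := (continuousAt_rpow_const 0 (1 / 8) (Or.inr (by norm_num))).tendsto
    rw [zero_rpow (by norm_num)] at h
    exact h.mono_left nhdsWithin_le_nhds
  exact this.eventually (ge_mem_nhds hε)

theorem lam_facts {r : ℝ} (hr : 0 < r) (h : r ^ (1 / 8 : ℝ) ≤ 1 / 4) (C : ℝ) :
    4 * r ≤ r ^ (1 / 8 : ℝ) ∧
      (r ^ (1 / 8 : ℝ)) ^ 2 * √(C * log r⁻¹) ≤ √(8 * |C|) * r ^ (1 / 8 : ℝ) := by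
  set l := r ^ (1 / 8 : ℝ) with hl
  have l0 : 0 < l := rpow_pos_of_pos hr _
  have e : r = l ^ 8 := by
    rw [hl, ← rpow_natCast, ← rpow_mul hr.le]
    norm_num
  refine ⟨?_, ?_⟩
  · have h7 : l ^ 7 ≤ l := pow_le_of_le_one l0.le (by linarith) (by norm_num)
    rw [e, pow_succ]
    nlinarith
  · have h1 : log r⁻¹ ≤ 8 / l ^ 2 := by
      have h2 : log r⁻¹ = 8 * log l⁻¹ := by
        rw [e, ← inv_pow, log_pow]
        norm_num
      have h3 : log l⁻¹ ≤ l⁻¹ := (log_le_sub_one_of_pos (inv_pos.2 l0)).trans (by linarith)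
      have h4 : l⁻¹ ≤ 1 / l ^ 2 := by
        rw [inv_eq_one_div]
        exact one_div_le_one_div_of_le (by positivity) (by nlinarith)
      have e2 : 8 / l ^ 2 = 8 * (1 / l ^ 2) := by ring
      linarith
    have h0 : 0 ≤ log r⁻¹ := log_nonneg (one_le_inv₀ hr |>.2 (by
      rw [e]
      exact pow_le_one₀ l0.le (by linarith)))
    have h5 : √(C * log r⁻¹) ≤ √(8 * |C|) / l := by
      rw [← sqrt_sq l0.le, ← sqrt_div (by positivity)]
      refine sqrt_le_sqrt ((mul_le_mul_of_nonneg_right (le_abs_self C) h0).trans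
        ((mul_le_mul_of_nonneg_left h1 (abs_nonneg C)).trans_eq (by ring)))
    exact (mul_le_mul_of_nonneg_left h5 (sq_nonneg l)).trans_eq (by field_simp)

theorem le_eps {a ε x : ℝ} (ha : 0 ≤ a) (hε : 0 < ε) (h : x ≤ ε / (a + 1)) : a * x ≤ ε := by
  refine (mul_le_mul_of_nonneg_left h ha).trans ?_
  rw [← mul_div_assoc, div_le_iff₀ (by positivity)]
  nlinarith

theorem log_large {c C : ℝ} (hc : 0 < c) (C' : ℝ) :
    ∀ᶠ r in 𝓝[>] (0 : ℝ), C * (1 + √(log r⁻¹)) + C' < c * log r⁻¹ := by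
  have h1 : Tendsto (fun r : ℝ => √(log r⁻¹)) (𝓝[>] 0) atTop :=
    tendsto_sqrt_atTop.comp (tendsto_log_atTop.comp tendsto_inv_nhdsGT_zero)
  filter_upwards [h1.eventually_gt_atTop (max 1 ((2 * |C| + |C'|) / c))] with r hr
  have h2 := (le_max_left _ _).trans_lt hr
  have h3 := (div_lt_iff₀ hc).1 ((le_max_right _ _).trans_lt hr)
  have h4 : √(log r⁻¹) * √(log r⁻¹) = log r⁻¹ :=
    mul_self_sqrt (sqrt_pos.1 (by linarith)).le
  set s := √(log r⁻¹)
  rw [← h4]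
  nlinarith [le_abs_self C, le_abs_self C', abs_nonneg C, abs_nonneg C',
    mul_lt_mul_of_pos_right h3 (by linarith : 0 < s)]

end A26

open A26 in
theorem noConcStmt (hP : PohoStmt) (hZ : ZStmt) (hT : ThinStmt) (hO : OutStmt) (hD : PDStmt) :
    NoConcStmt := by
  intro M _ _ _ _ _ _ _ X Y θ γ hθ hθ1 hγ hγ1
  have m0 := Y.m_pos
  have a0 : 0 < Y.a := div_pos m0 (by positivity)
  have g4 : γ ≤ 1 / 4 := by nlinarith
  have t4 : θ ≤ 1 / 4 := by nlinarith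
  obtain ⟨C₀, hP⟩ := hP
  obtain ⟨C₂, hP⟩ := hP Y.R Y.R_pos (Y.R_le.trans (by norm_num))
  choose! C₁ hP using hP
  choose! C₃ hP using hP
  obtain ⟨Cf, hT⟩ := hT M X Y γ hγ g4
  obtain ⟨C, hD⟩ := hD M X Y γ hγ g4
  set ε := Y.m / (16 * π ^ 2) / 5 with hε
  have e0 : 0 < ε := by positivity
  set tf : ℝ → ℝ := fun r =>
    min (r / 8) ((ε / (2 * (|C₁ r| * (1 + Y.m)) * |Cf r| + 1)) ^ 2 / 2) with htf
  have tf0 : ∀ r, 0 < r → 0 < tf r ∧ tf r ≤ r / 8 := fun r hr =>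
    ⟨lt_min (by positivity) (by positivity), min_le_left _ _⟩
  obtain ⟨Ef, E0, hD⟩ := hD tf tf0
  have R0 := Y.R_pos
  refine ((((hT.and hD).and (hO M X Y θ γ hθ hθ1 hγ hγ1)).and (Ev.of_r
    ((((lam_small (by norm_num : (0 : ℝ) < 1 / 4)).and (lam_small (by positivity : 0 < Y.R / 16))).and
      (lam_small (by positivity : 0 < ε / (|C₀| * (1 + Y.m) + 1)))).and
      (lam_small (by positivity : 0 < ε / (|C₂| * √(8 * |C|) + 1)))))).and
    (Ev.of_η (fun r => ε / (|C₃ r (tf r)| * Ef r + 1)) fun r _ => by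
      have := E0 r
      positivity)).mono ?_
  rintro Z ⟨⟨⟨⟨h1, h2⟩, h3⟩, ⟨⟨l1, l2⟩, l3⟩, l4⟩, l5⟩ u p hu hc
  have r0' := Z.r_pos
  obtain ⟨t0, t1⟩ := tf0 Z.r r0'
  obtain ⟨U, hU⟩ := h2 u p θ t4 hu hc
  obtain ⟨k1, k2⟩ := lam_facts r0' l1 C
  have h4 := hP Z.r r0' (tf Z.r) t0 t1 _ _ _ _ U _ k1 l2 m0.le
    (mul_nonneg Z.η_pos.le (E0 _)) hU
  have h5 := h1 u p θ t4 hu hc (2 * tf Z.r) (by linarith) (by linarith)
  have h6 := h3 u p hu hc
  have hd := hU.den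
  set G := gain Z.r (Z.rhoE u p) with hG
  have G0 : 0 < G := by
    have n1 : ‖(EuclideanSpace.single 0 r1 : E4)‖ = r1 := by simp [r1]
    refine Continuous.integral_pos_of_hasCompactSupport_nonneg_nonzero
      (Continuous.mul (by fun_prop) hd.sm.continuous) hd.sm.cs.mul_left
      (fun y => mul_nonneg (by positivity) (hd.nonneg y)) (x := EuclideanSpace.single 0 r1)
      (mul_pos (lt_min (by rw [n1, r1]; positivity) one_pos) (mul_pos (mul_pos ?_
        (((hZ M X Y Z).rho_sm u hu.sm).2.1 _)) (exp_pos _))).ne'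
    refine smoothTransition.pos_of_pos ?_
    rw [n1, r1]
    norm_num
  have b0 : 0 ≤ 1 - ∫ y in ball (0 : E4) (Z.r ^ (1 / 8 : ℝ)), Z.rhoE u p y :=
    sub_nonneg.2 ((setIntegral_le_integral hd.sm.integrable (Eventually.of_forall hd.nonneg)).trans
      hd.mass)
  have b1 : 0 ≤ ∫ y in nb Z.r (2 * tf Z.r), Z.rhoE u p y := integral_nonneg hd.nonneg
  have s1 : C₀ * (1 + Y.m) * (1 - ∫ y in ball (0 : E4) (Z.r ^ (1 / 8 : ℝ)), Z.rhoE u p y) ≤
      ε * G := by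
    have := le_eps (by positivity) e0 ((by linarith : Z.r ≤ Z.r ^ (1 / 8 : ℝ)).trans l3)
    calc _ ≤ |C₀| * (1 + Y.m) * (Z.r * G) :=
          mul_le_mul (mul_le_mul_of_nonneg_right (le_abs_self _) (by linarith)) h6 b0
            (by positivity)
      _ ≤ ε * G := by rw [← mul_assoc]; exact mul_le_mul_of_nonneg_right this G0.le
  have s2 : C₁ Z.r * (1 + Y.m) / tf Z.r * ∫ y in nb Z.r (2 * tf Z.r), Z.rhoE u p y ≤ ε * G := by
    have q1 : √(2 * tf Z.r) ≤ ε / (2 * (|C₁ Z.r| * (1 + Y.m)) * |Cf Z.r| + 1) :=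
      sqrt_le_iff.2 ⟨by positivity, by
        linarith [min_le_right (Z.r / 8)
          ((ε / (2 * (|C₁ Z.r| * (1 + Y.m)) * |Cf Z.r| + 1)) ^ 2 / 2)]⟩
    have q2 := le_eps (by positivity) e0 q1
    calc _ ≤ |C₁ Z.r| * (1 + Y.m) / tf Z.r * (|Cf Z.r| * (2 * tf Z.r * √(2 * tf Z.r)) * G) :=
          mul_le_mul (div_le_div_of_nonneg_right
            (mul_le_mul_of_nonneg_right (le_abs_self _) (by linarith)) t0.le)
            (h5.trans (mul_le_mul_of_nonneg_right (mul_le_mul_of_nonneg_right (le_abs_self _)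
              (by positivity)) G0.le)) b1 (by positivity)
      _ = 2 * (|C₁ Z.r| * (1 + Y.m)) * |Cf Z.r| * √(2 * tf Z.r) * G := by field_simp
      _ ≤ ε * G := mul_le_mul_of_nonneg_right q2 G0.le
  have s3 : C₂ * (Z.r ^ (1 / 8 : ℝ)) ^ 2 * √(C * Z.L) * G ≤ ε * G := by
    refine mul_le_mul_of_nonneg_right (le_trans ?_ (le_eps (by positivity) e0 l4)) G0.le
    rw [mul_assoc, mul_assoc]
    exact mul_le_mul (le_abs_self _) k2 (by positivity) (abs_nonneg _)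
  have s4 : C₃ Z.r (tf Z.r) * (Z.η * Ef Z.r) * G ≤ ε * G := by
    have := E0 Z.r
    refine mul_le_mul_of_nonneg_right (le_trans ?_ (le_eps (by positivity) e0 l5)) G0.le
    rw [mul_assoc, mul_comm (Ef Z.r)]
    exact mul_le_mul_of_nonneg_right (le_abs_self _) (mul_nonneg Z.η_pos.le this)
  have e5 : Y.m / (16 * π ^ 2) = 5 * ε := by rw [hε]; ring
  rw [e5] at h4
  nlinarith [mul_pos e0 G0]

open A26 in
theorem lowStmt (hU : TubeStmt) (hN : NbFacts) (hB : BStmt) (hBf : BfStmt) (hV : VolsStmt)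
    (hCh : ChStmt) (hTr : TrudStmt) (hFl : FlatStmt) (hFH : FHStmt) (hZ : ZStmt)
    (hZF : ZFormStmt) (hL : LamStmt) (hTe : TestStmt) (hTp : TrapStmt) (hNC : NoConcStmt) :
    LowStmt := by
  intro M _ _ _ _ _ _ _ X
  obtain ⟨m₁, m₂, m0, hFl⟩ := hFl M X
  have m12 : m₁ ≤ m₂ := by
    obtain ⟨_, _, -, -, h1, h2, -⟩ := hFl 1 one_pos
    exact h1.trans h2
  have p2 : 0 < π ^ 2 := by positivity
  set a₂ := m₂ / π ^ 2 with ha₂
  have a2 : 0 < a₂ := div_pos (by linarith) p2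
  set θ := 1 / (1000 * (1 + a₂)) with hθ
  set γ := 1 / (4 + a₂) with hγ
  have θ0 : 0 < θ := by positivity
  have γ0 : 0 < γ := by positivity
  set a' := min (m₁ / π ^ 2) θ with ha'
  have a0 : 0 < a' := lt_min (by positivity) θ0
  set κ := min (min (θ / 10) (a' * γ / 42)) (1 / 100) with hκ
  have κ0 : 0 < κ := by positivity
  obtain ⟨R, m, R0, R1, h1, h2, g, hg, hc, hm⟩ := hFl κ κ0
  have mp : 0 < m := m0.trans_le h1
  obtain ⟨CT, hU⟩ := hU m mp
  let Y : L1 X := ⟨κ, R, m, CT, κ0, min_le_right _ _, R0, R1, mp, g, hg, hc, hm⟩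
  have ya : Y.a ≤ a₂ := div_le_div_of_nonneg_right h2 p2.le
  have ya0 : 0 < Y.a := div_pos mp p2
  have k1 : θ * (1 + Y.a) ≤ 1 / 1000 :=
    (mul_le_mul_of_nonneg_left (by linarith : 1 + Y.a ≤ 1 + a₂) θ0.le).trans_eq
      (by rw [hθ]; field_simp)
  have k2 : γ * (4 + Y.a) ≤ 1 :=
    (mul_le_mul_of_nonneg_left (by linarith : 4 + Y.a ≤ 4 + a₂) γ0.le).trans_eq
      (by rw [hγ]; field_simp)
  obtain ⟨CL, -, hL⟩ := hL M X Y
  obtain ⟨C₁, hTe⟩ := hTe M X Y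
  obtain ⟨C₂, hTp⟩ := hTp M X Y θ γ a' θ0 (by nlinarith)
    ((min_le_left _ _).trans (min_le_left _ _)) a0 (min_le_right _ _)
    ((min_le_left _ _).trans (div_le_div_of_nonneg_right h1 p2.le)) γ0 (by nlinarith)
  obtain ⟨r₁, r10, hE⟩ := (((hL.and hTe).and hTp).and (hNC M X Y θ γ θ0 k1 γ0 k2)).and
    (Ev.of_r (log_large (C := C₁) (by positivity : 0 < 4 * π ^ 2 * (a' * γ)) C₂))
  set r := min r₁ (R / 1000) with hr
  have r0' : 0 < r := lt_min r10 (by positivity)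
  have rR : r ≤ R / 1000 := min_le_right _ _
  obtain ⟨η₁, η10, hE⟩ := hE r r0' (min_le_left _ _)
  set η := min η₁ (r / 100) with hη
  have η0 : 0 < η := lt_min η10 (by positivity)
  have ηr : η ≤ r / 100 := min_le_right _ _
  obtain ⟨s, hs⟩ := hU r η r0' (by linarith) η0 ηr
  obtain ⟨f1, f2, f3, f4, -⟩ := hFH M X R s R0 R1 hs.sm.sm hs.rad fun y hy => hs.supp y fun h => by
    linarith [(hN.nb_norm r (η / 2) r0' (by linarith) (by linarith) y h).2]
  obtain ⟨g', hg'⟩ := X.ex _ _ f1 f2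
  let Z : L2' Y := ⟨r, η, s, r0', rR, η0, ηr, hs, g', hg'⟩
  obtain ⟨⟨⟨⟨e1, u₀, e2, e3, e4⟩, e5⟩, e6⟩, e7⟩ := hE Z rfl (min_le_left _ _)
  have hB := hB M X
  have hV := hV M X
  have hZ := hZ M X Y Z
  have hZF := hZF M X Y Z
  obtain ⟨c1, C₃, C30, c2⟩ := hCh M X
  obtain ⟨C₄, hTr⟩ := hTr M X
  have := hV.fin
  have n2 : ∀ φ, Smooth φ → 0 ≤ X.nn φ ∧ X.nn φ ≤ 2 * Bf g' φ φ := fun φ hφ => by
    have q1 := (abs_le.1 (e1 φ hφ).1).1
    have q2 := (c1 φ hφ).2.1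
    have q3 := mul_le_mul_of_nonneg_right Y.κ_le q2
    exact ⟨q2, by change _ ≤ 2 * Bf Z.g φ φ; linarith⟩
  have up : ∀ f : M → ℝ, Continuous f → (∀ x, 0 ≤ f x) →
      ∫ x, f x ∂vol g' ≤ exp 4 * ∫ x, f x ∂X.μ := fun f hf f0 => by
    rw [show ∫ x, f x ∂vol g' = _ from hZ.vol f, ← integral_const_mul]
    refine integral_mono ((setupOf X.g).integrable (hf.mul (hZ.om_sm.const_mul 4).exp.continuous))
      ((setupOf X.g).integrable (continuous_const.mul hf)) fun x => ?_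
    simp only [mul_comm (exp 4)]
    exact mul_le_mul_of_nonneg_left (exp_le_exp.2 (by linarith [(abs_le.1 (hZ.om_bd x)).2])) (f0 x)
  obtain ⟨j1, j2⟩ := hV.nat g' _ _ f1 f2 hg' f3 f4
  refine ⟨g', u₀, fun φ hφ => by linarith [n2 φ hφ], ⟨exp 4 * C₃ * 2 + (5 + |C₄|), by positivity,
    fun w hw => ⟨⨍ x, w x ∂X.μ, ?_, ?_⟩⟩, hZF.total, hB.J_cont, ⟨hB.J_cont.measurable, ?_⟩,
    hB.J_sm, hB.J_smOn, j1, j2, e2, e3, fun u hu hi hq => ?_⟩
  · obtain ⟨q1, q2⟩ := n2 w hw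
    have q3 := (up _ ((c1 w hw).1.pow 2).continuous fun _ => sq_nonneg _).trans
      (mul_le_mul_of_nonneg_left ((c2 w hw).2.trans (mul_le_mul_of_nonneg_left q2 C30.le))
        (exp_pos 4).le)
    refine q3.trans ?_
    nlinarith [mul_nonneg (by positivity : 0 ≤ 5 + |C₄|) (by linarith : 0 ≤ Bf g' w w)]
  · obtain ⟨q1, q2⟩ := n2 w hw
    have w2 := hw.const_mul 2
    have z2 : ∀ x, 8 * (w x - ⨍ x, w x ∂X.μ) = 4 * X.z (fun x => 2 * w x) x := fun x => by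
      simp only [L0.z, average_eq, integral_const_mul, smul_eq_mul]
      ring
    have z3 : X.nn (fun x => 2 * w x) = 4 * X.nn w := by
      have b := hBf M X.g
      have b1 := b.lin _ w w w2 hw hw 2 0 0
      have b2 := b.lin _ w w hw hw hw 2 0 0
      simp only [zero_mul, add_zero] at b1 b2
      rw [L0.nn, L0.nn, b1, b.symm _ _ w2 hw, b2]
      ring
    simp only [z2]
    refine (up _ ((c1 _ w2).1.const_mul 4).exp.continuous fun _ => (exp_pos _).le).trans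
      ((mul_le_mul_of_nonneg_left (hTr _ w2) (exp_pos 4).le).trans ?_)
    rw [← exp_add, z3, exp_le_exp]
    nlinarith [mul_nonneg (by positivity : 0 ≤ exp 4 * C₃ * 2) (by linarith : 0 ≤ 1 + Bf g' w w),
      mul_nonneg (abs_nonneg C₄) (by linarith : 0 ≤ Bf g' w w), le_abs_self C₄]
  · rw [(hV.dens g' _ _ f1 f2 hg').1]
    ext A hA
    have mf : Measurable fun x => ENNReal.ofReal (exp (2 * X.FF R s x + 2 * X.HH R x)) :=
      ((f1.const_mul 2).add (f2.const_mul 2)).exp.continuous.measurable.ennreal_ofReal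
    rw [Measure.map_apply hB.J_cont.measurable hA,
      withDensity_apply _ (hB.J_cont.measurable hA), withDensity_apply _ hA,
      ← hV.pres.setLIntegral_comp_preimage hA mf]
    simp only [f3, f4]
  · have q1 := e5 u hu hi fun p => e6 u p (hZF.crit u hu hi hq)
    have q2 : κ ≤ a' * γ / 42 := (min_le_left _ _).trans (min_le_right _ _)
    have q3 := mul_le_mul_of_nonneg_right q2 (mul_nonneg p2.le (zero_le_one.trans hZ.L_pos))
    change C₁ * (1 + √Z.L) + C₂ < 4 * π ^ 2 * (a' * γ) * Z.L at e7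
    change Z.c0 - 8 * π ^ 2 * (Y.a - a' * γ + 21 * κ) * Z.L - C₂ ≤ II g' u at q1
    change II g' u₀ ≤ _ at e4
    nlinarith

end Pool.Agent.MP_417fa2_gt.Q2
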