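import Pool.Agent.MP_417fa2_gt.Q2.ASpec

/-! A3. Volumes and the symmetry for block metrics. -/

open scoped Manifold ContDiff Topology ENNReal
open MeasureTheory Set Metric Real Filter

namespace Pool.Agent.MP_417fa2_gt.Q2

section

variable {M : Type} [TopologicalSpace M] [ChartedSpace E4 M] [MeasurableSpace M] [BorelSpace M]

/-- Two measures that agree on the subsets of chart domains are equal. -/
theorem a3_ext [CompactSpace M] {μ ν : Measure M}
    (h : ∀ (x : M) (s : Set M), MeasurableSet s → s ⊆ (chartAt E4 x).source → μ s = ν s) :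
    μ = ν := by
  obtain ⟨t, ht⟩ := isCompact_univ.elim_finite_subcover (fun x : M => (chartAt E4 x).source)
    isOpen_src fun x _ => mem_iUnion.2 ⟨x, mem_chart_source E4 x⟩
  refine Measure.ext_of_biUnion_eq_univ (S := (t : Set M)) (s := fun x => (chartAt E4 x).source)
    t.countable_toSet (eq_univ_of_univ_subset ht) fun x _ => ?_
  ext s hs
  rw [Measure.restrict_apply hs, Measure.restrict_apply hs]
  exact h x _ (hs.inter (isOpen_src x).measurableSet) inter_subset_right

variable [IsManifold (𝓡 4) ∞ M] [CompactSpace M]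

/-- The integral over a subset of a chart domain. -/
theorem a3_lint (g : RMetric M) (x : M) {s : Set M} (hs : MeasurableSet s)
    (h : s ⊆ (chartAt E4 x).source) {f : M → ℝ≥0∞} (hf : Measurable f) :
    ∫⁻ z in s, f z ∂vol g =
      ∫⁻ y in chartAt E4 x '' s, f (param x y) * ENNReal.ofReal (dens (gmat g x) y) := by
  have h1 := (setupOf g).lintegral_chart x (hf.indicator hs)
  have hm := measurableSet_chart_image hs h
  rw [lintegral_indicator hs, Measure.restrict_restrict hs, inter_eq_left.2 h] at h1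
  refine h1.trans ?_
  rw [← inter_eq_left.2 (chart_image_subset h), ← Measure.restrict_restrict hm,
    ← lintegral_indicator hm]
  refine setLIntegral_congr_fun (isOpen_tgt x).measurableSet fun y hy => ?_
  by_cases k : param x y ∈ s
  · rw [indicator_of_mem k, indicator_of_mem (chart_image_eq h ▸ ⟨k, hy⟩)]
    rfl
  · rw [indicator_of_notMem k, indicator_of_notMem (fun e => k (chart_image_eq h ▸ e).1), zero_mul]

variable (hC : CoFacts) (X : L0 M)
include hC

omit [BorelSpace M] [CompactSpace M] in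
theorem a3_dens {g : RMetric M} {F H : M → ℝ} (hg : IsBlk g F H) (x : M) {y : E4}
    (hy : ‖y‖ < r0) :
    dens (gmat g x) y = exp (2 * F (param x y) + 2 * H (param x y)) * rh y := by
  have h1 := hC.dens_blk (fun z => f0 z + F (param x z)) (fun z => h0 z + H (param x z)) y
  rw [dens, ← hg x y hy] at h1
  rw [dens, h1, rh, ← exp_add]
  congr 1
  ring

omit [BorelSpace M] [CompactSpace M] in
theorem a3_dens0 (x : M) {y : E4} (hy : ‖y‖ < r0) : dens (gmat X.g x) y = rh y := by
  simpa using a3_dens hC X.blk x hy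

omit hC [BorelSpace M] [CompactSpace M] in
include X in
theorem a3_tgt {x : M} {y : E4} : y ∈ (chartAt E4 x).target ↔ ‖y‖ < r0 := by
  rw [X.hd.tgt, mem_ball_zero_iff]

theorem a3_mu (x : M) {s : Set M} (hs : MeasurableSet s) (h : s ⊆ (chartAt E4 x).source) :
    X.μ s = ∫⁻ y in param x ⁻¹' s ∩ ball 0 r0, ENNReal.ofReal (rh y) := by
  rw [L0.μ, isVolume_vol X.g x s hs h, ← X.hd.tgt x, ← chart_image_eq h]
  refine setLIntegral_congr_fun (measurableSet_chart_image hs h) fun y hy => ?_
  exact congrArg ENNReal.ofReal (a3_dens0 hC X x ((a3_tgt X).1 (chart_image_subset h hy)))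

omit [BorelSpace M] [CompactSpace M] in
theorem a3_rh_cont : ContinuousOn rh (ball 0 r0) := by
  have h : ball (0 : E4) r0 ⊆ ball 0 1 := ball_subset_ball (by norm_num [r0])
  exact ((continuousOn_const.mul (hC.f0_sm.continuousOn.mono h)).add
    (continuousOn_const.mul (hC.h0_sm.continuousOn.mono h))).rexp

theorem a3_restrict (x : M) {t : ℝ} (ht : t ≤ r0) :
    X.μ.restrict {z | X.d x z < t} =
      Measure.map (param x) ((volume.restrict (ball 0 t)).withDensity
        fun y => ENNReal.ofReal (rh y)) := by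
  have hb : ball (0 : E4) t ⊆ (chartAt E4 x).target := X.hd.tgt x ▸ ball_subset_ball ht
  have hm : AEMeasurable (param x) ((volume.restrict (ball (0 : E4) t)).withDensity
      fun y => ENNReal.ofReal (rh y)) :=
    (((continuousOn_param x).mono hb).aemeasurable measurableSet_ball).mono_ac
      (withDensity_absolutelyContinuous _ _)
  have ho : IsOpen {z | X.d x z < t} :=
    isOpen_lt (X.hd.cont.comp (continuous_const.prodMk continuous_id)) continuous_const
  ext s hs
  rw [Measure.restrict_apply hs, a3_mu hC X x (hs.inter ho.measurableSet)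
    (fun z hz => (X.hd.src x z).2 (hz.2.trans_le ht)), Measure.map_apply_of_aemeasurable hm hs,
    withDensity_apply', Measure.restrict_restrict' measurableSet_ball]
  congr 2
  ext y
  simp only [mem_inter_iff, mem_preimage, mem_ofPred_eq, mem_ball_zero_iff]
  constructor
  · rintro ⟨⟨a, b⟩, c⟩
    exact ⟨a, X.hd.par x y c ▸ b⟩
  · rintro ⟨a, b⟩
    exact ⟨⟨a, (X.hd.par x y (b.trans_le ht)).symm ▸ b⟩, b.trans_le ht⟩

theorem a3_chart (x : M) (t : ℝ) (ht : t ≤ r0) (f : M → ℝ) (hf : Measurable f) :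
    (IntegrableOn f {z | X.d x z < t} X.μ ↔
      IntegrableOn (fun y => f (param x y) * rh y) (ball 0 t)) ∧
    ∫ z in {z | X.d x z < t}, f z ∂X.μ = ∫ y in ball (0 : E4) t, f (param x y) * rh y := by
  have hb : ball (0 : E4) t ⊆ (chartAt E4 x).target := X.hd.tgt x ▸ ball_subset_ball ht
  have hm : AEMeasurable (param x) ((volume.restrict (ball (0 : E4) t)).withDensity
      fun y => ENNReal.ofReal (rh y)) :=
    (((continuousOn_param x).mono hb).aemeasurable measurableSet_ball).mono_ac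
      (withDensity_absolutelyContinuous _ _)
  have hr : AEMeasurable (fun y => ENNReal.ofReal (rh y)) (volume.restrict (ball (0 : E4) t)) :=
    (((a3_rh_cont hC).mono (ball_subset_ball ht)).aemeasurable measurableSet_ball).ennreal_ofReal
  have hl : ∀ᵐ y ∂(volume.restrict (ball (0 : E4) t)), ENNReal.ofReal (rh y) < ⊤ :=
    Eventually.of_forall fun _ => ENNReal.ofReal_lt_top
  have he : ∀ y, (ENNReal.ofReal (rh y)).toReal • f (param x y) = f (param x y) * rh y :=
    fun y => by rw [ENNReal.toReal_ofReal (r := rh y) (exp_pos _).le, smul_eq_mul, mul_comm]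
  constructor
  · rw [IntegrableOn, a3_restrict hC X x ht, integrable_map_measure hf.aestronglyMeasurable hm,
      integrable_withDensity_iff_integrable_smul₀' hr hl]
    simp only [Function.comp, he, IntegrableOn]
  · rw [a3_restrict hC X x ht, integral_map hm hf.aestronglyMeasurable,
      integral_withDensity_eq_integral_toReal_smul₀ hr hl]
    simp only [he]

theorem a3_vol {g : RMetric M} {F H : M → ℝ} (hF : Smooth F) (hH : Smooth H)
    (hg : IsBlk g F H) :
    vol g = X.μ.withDensity (fun x => ENNReal.ofReal (exp (2 * F x + 2 * H x))) := by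
  have hw : Measurable fun x => ENNReal.ofReal (exp (2 * F x + 2 * H x)) :=
    (((continuous_const.mul hF.continuous).add
      (continuous_const.mul hH.continuous)).rexp.measurable).ennreal_ofReal
  refine a3_ext fun x s hs h => ?_
  rw [withDensity_apply _ hs, L0.μ, a3_lint X.g x hs h hw, isVolume_vol g x s hs h]
  refine setLIntegral_congr_fun (measurableSet_chart_image hs h) fun y hy => ?_
  have hy' := (a3_tgt X).1 (chart_image_subset h hy)
  have h1 := a3_dens hC hg x hy'
  rw [dens] at h1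
  simp only [h1, a3_dens0 hC X x hy', ENNReal.ofReal_mul (exp_pos _).le]

omit [BorelSpace M] [CompactSpace M] in
theorem a3_rot {u₁ u₂ : ℂ} (h₁ : ‖u₁‖ = 1) (h₂ : ‖u₂‖ = 1) (y : E4) :
    f0 (rot u₁ u₂ y) = f0 y ∧ h0 (rot u₁ u₂ y) = h0 y ∧ rh (rot u₁ u₂ y) = rh y := by
  simp only [rh, f0, h0, hC.rot_z u₁ u₂ h₁, hC.rot_w u₁ u₂ h₂, and_self]

theorem a3_pres (hJ : Continuous X.J) : MeasurePreserving X.J X.μ X.μ := by
  refine ⟨hJ.measurable, a3_ext fun x' s hs h => ?_⟩
  obtain ⟨x, rfl⟩ : ∃ x, X.J x = x' := ⟨_, X.hJ.four x'⟩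
  obtain ⟨u₁, u₂, h₁, h₂, -, hr⟩ := X.hJ.chart x
  obtain ⟨e, he⟩ := hC.rot_iso u₁ u₂ h₁ h₂
  rw [Measure.map_apply hJ.measurable hs, a3_mu hC X _ hs h,
    a3_mu hC X x (hJ.measurable hs) fun z hz =>
      (X.hd.src x z).2 (X.hJ.iso x z ▸ (X.hd.src _ _).1 (h hz)),
    ← e.measurePreserving.setLIntegral_comp_preimage_emb
      e.toHomeomorph.measurableEmbedding _ (param (X.J x) ⁻¹' s ∩ ball 0 r0)]
  have h3 : param x ⁻¹' (X.J ⁻¹' s) ∩ ball 0 r0 = e ⁻¹' (param (X.J x) ⁻¹' s ∩ ball 0 r0) := by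
    ext y
    simp only [mem_inter_iff, mem_preimage, mem_ball_zero_iff, e.norm_map]
    exact and_congr_left fun hy => by rw [hr y hy, he]
  rw [h3]
  simp only [he, (a3_rot hC h₁ h₂ _).2.2]

omit [BorelSpace M] [CompactSpace M] in
theorem a3_nat (g : RMetric M) (F H : M → ℝ) (hg : IsBlk g F H)
    (hF : ∀ x, F (X.J x) = F x) (hH : ∀ x, H (X.J x) = H x) :
    (∀ x, qCurv g (X.J x) = qCurv g x) ∧
      ∀ φ, Smooth φ → ∀ x, paneitz g (fun z => φ (X.J z)) x = paneitz g φ (X.J x) := by
  have key : ∀ x, ∃ τ : E4 → E4, τ 0 = 0 ∧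
      Iso (gmat g x) (gmat g (X.J x)) (ball 0 r0) (ball 0 r0) τ ∧
      ∀ y ∈ ball (0 : E4) r0, X.J (param x y) = param (X.J x) (τ y) := fun x => by
    obtain ⟨u₁, u₂, h₁, h₂, -, hr⟩ := X.hJ.chart x
    obtain ⟨e, he⟩ := hC.rot_iso u₁ u₂ h₁ h₂
    have he' : rot u₁ u₂ = e := funext fun y => (he y).symm
    have hn : ∀ y, ‖rot u₁ u₂ y‖ = ‖y‖ := fun y => by rw [← he, e.norm_map]
    refine ⟨rot u₁ u₂, by rw [← he, map_zero], ⟨X.hd.tgt x ▸ gmat_nice g x,
      X.hd.tgt (X.J x) ▸ gmat_nice g (X.J x), he' ▸ e.contDiff.contDiffOn,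
      fun y hy => by rwa [mem_ball_zero_iff, hn, ← mem_ball_zero_iff], fun y hy => ?_⟩,
      fun y hy => hr y (mem_ball_zero_iff.1 hy)⟩
    have hy' := mem_ball_zero_iff.1 hy
    rw [hg x y hy', hg (X.J x) _ ((hn y).trans_lt hy')]
    refine hC.rot_blk u₁ u₂ h₁ h₂ _ _ _ _ y ?_ ?_
    · rw [← hr y hy', hF, (a3_rot hC h₁ h₂ y).1]
    · rw [← hr y hy', hH, (a3_rot hC h₁ h₂ y).2.1]
  have h0 : (0 : E4) ∈ ball (0 : E4) r0 := mem_ball_self (by norm_num [r0])
  refine ⟨fun x => ?_, fun φ hφ x => ?_⟩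
  · obtain ⟨τ, a, b, -⟩ := key x
    rw [qCurv, qCurv, X.hd.ctr, X.hd.ctr, b.qcurv_eq h0, a]
  · obtain ⟨τ, a, b, c⟩ := key x
    rw [paneitz, paneitz, X.hd.ctr, X.hd.ctr, b.pan_eq (φ' := φ ∘ param (X.J x))
      (φ := (fun z => φ (X.J z)) ∘ param x)
      (X.hd.tgt (X.J x) ▸ hφ.cdOn (X.J x)) (fun y hy => congrArg φ (c y hy)) h0, a]

end

theorem volsStmt (hC : CoFacts) (_hL : LocFacts) (hB : BStmt) : VolsStmt := by
  intro M _ _ _ _ _ _ _ X
  have hf : IsFiniteMeasure X.μ := (setupOf X.g).finite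
  have hp : X.μ.IsOpenPosMeasure := (setupOf X.g).openPos
  refine ⟨hf, hp, ?_, a3_chart hC X, a3_pres hC X (hB M X).J_cont, fun g F H hF hH hg =>
    ⟨a3_vol hC X hF hH hg, fun f => ?_⟩, fun g F H _ _ hg => a3_nat hC X g F H hg⟩
  · obtain ⟨x, -⟩ := X.hJ.ne
    exact ENNReal.toReal_pos (isOpen_univ.measure_ne_zero _ ⟨x, mem_univ x⟩) (measure_ne_top _ _)
  · have hw : Measurable fun x => ENNReal.ofReal (exp (2 * F x + 2 * H x)) :=
      (((continuous_const.mul hF.continuous).add
        (continuous_const.mul hH.continuous)).rexp.measurable).ennreal_ofReal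
    rw [a3_vol hC X hF hH hg, integral_withDensity_eq_integral_toReal_smul hw
      (Eventually.of_forall fun _ => ENNReal.ofReal_lt_top)]
    simp only [ENNReal.toReal_ofReal (exp_pos _).le, smul_eq_mul, mul_comm]

end Pool.Agent.MP_417fa2_gt.Q2
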