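import Pool.Agent.MP_417fa2_gt.Q2.ASpec

/-! Two block metrics that differ near the fixed points only. -/

open scoped Manifold ContDiff Topology
open MeasureTheory Set Metric Real Filter

namespace Pool.Agent.MP_417fa2_gt.Q2

namespace A4X

/-- The weak form for two classes that agree off a small ball. -/
theorem weak (hL : LocFacts) {s s' φ ψ : E4 → ℝ} {t : ℝ} (ht : t < r1)
    (hs : ContDiffOn ℝ ∞ s (ball 0 r0)) (hs' : ContDiffOn ℝ ∞ s' (ball 0 r0)) (hφ : Tst φ)
    (hψ : Tst ψ) (he : ∀ y : E4, t < ‖y‖ → ‖y‖ < 3 / 50 → s y = s' y) :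
    ∫ y in closedBall (0 : E4) t, φ y * (pp s' ψ y - pp s ψ y) =
      ∫ y in closedBall (0 : E4) t, (bform (Gs s') φ ψ y - bform (Gs s) φ ψ y) := by
  let ζ : ContDiffBump (0 : E4) := ⟨r1, 1 / 20, by norm_num [r1], by norm_num [r1]⟩
  have hζ : Tst fun y => ζ y * φ y := hφ.mul_left ζ.contDiff
  have h1 : tsupport (fun y => ζ y * φ y) ⊆ ball 0 (3 / 50) :=
    (tsupport_mul_subset_left.trans ζ.tsupport_eq.le).trans
      (closedBall_subset_ball (by norm_num [ζ]))
  have h2 : closedBall (0 : E4) (3 / 50) ⊆ ball 0 r0 := closedBall_subset_ball (by norm_num [r0])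
  have h3 := ball_subset_closedBall.trans h2
  have h4 : closedBall (0 : E4) t ⊆ ball 0 (3 / 50) :=
    closedBall_subset_ball (ht.trans (by norm_num [r1]))
  have hi : ∀ f : E4 → ℝ, ContDiffOn ℝ ∞ f (ball 0 r0) → IntegrableOn f (ball 0 (3 / 50)) :=
    fun f hf => ((hf.continuousOn.mono h2).integrableOn_compact
      (isCompact_closedBall _ _)).mono_set ball_subset_closedBall
  have w := fun s hs => hL.weak s _ ψ _ isOpen_ball (ContDiffOn.mono hs h3) hζ h1 hψ.sm.contDiffOn
  have b := fun s hs => hi _ (hL.sm s _ ψ _ isOpen_ball hs hζ.sm.contDiffOn hψ.sm.contDiffOn).1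
  have c := fun s hs => hi _ (hζ.sm.contDiffOn.mul
    (hL.sm s ψ ψ _ isOpen_ball hs hψ.sm.contDiffOn hψ.sm.contDiffOn).2.1)
  have e : ∀ y ∈ ball (0 : E4) (3 / 50) \ closedBall 0 t, s' =ᶠ[𝓝 y] s := fun y hy =>
    mem_of_superset ((isOpen_ball.sdiff isClosed_closedBall).mem_nhds hy) fun z hz =>
      (he z (by simpa using hz.2) (by simpa using hz.1)).symm
  have z : ∀ y ∈ closedBall (0 : E4) t, (fun y => ζ y * φ y) =ᶠ[𝓝 y] φ := fun y hy =>
    (ζ.eventuallyEq_one_of_mem_ball (closedBall_subset_ball ht hy)).mono fun z hz => by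
      simp [hz]
  have k := congrArg₂ (· - ·) (w s' hs') (w s hs)
  rw [← integral_sub (c s' hs') (c s hs), ← integral_sub (b s' hs') (b s hs),
    setIntegral_eq_of_subset_of_forall_sdiff_eq_zero measurableSet_ball h4 fun y hy => by
      rw [(hL.congr _ _ ψ ψ ψ ψ y (e y hy) .rfl .rfl).2.1, sub_self],
    setIntegral_eq_of_subset_of_forall_sdiff_eq_zero measurableSet_ball h4 fun y hy => by
      rw [(hL.congr _ _ _ _ ψ ψ y (e y hy) .rfl .rfl).1, sub_self]] at k
  refine (setIntegral_congr_fun measurableSet_closedBall fun y hy => ?_).trans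
    (k.trans (setIntegral_congr_fun measurableSet_closedBall fun y hy => ?_))
  · simp only [(z y hy).self_of_nhds, mul_sub]
  · simp only [fun s => (hL.congr s s _ _ ψ ψ y .rfl (z y hy) .rfl).1]

variable {M : Type} [TopologicalSpace M] [ChartedSpace E4 M] [IsManifold (𝓡 4) ∞ M]
  [MeasurableSpace M] {X : L0 M}

theorem split [CompactSpace M] [BorelSpace M] (B : BFacts X) (V : VFacts X) {t : ℝ} (ht : t < r1)
    {a : M → ℝ} (ha : Continuous a) (h0 : ∀ x, (∀ p ∈ X.fix, t < X.d p x) → a x = 0) :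
    ∫ x, a x ∂X.μ = ∑ p ∈ X.fix, ∫ y in closedBall (0 : E4) t, a (param p y) * rh y := by
  have := V.fin
  have r : t < r0 := ht.trans (by norm_num [r0, r1])
  have hm : ∀ p, MeasurableSet {x | X.d p x ≤ t} := fun p =>
    (isClosed_le (X.hd.cont.comp (Continuous.prodMk_right p)) continuous_const).measurableSet
  have n : ∀ p x, t < X.d p x → {x | X.d p x ≤ t}.indicator a x = 0 := fun p x h =>
    indicator_of_notMem (s := {x | X.d p x ≤ t}) (not_le.2 h) _
  have e : ∀ x, a x = ∑ p ∈ X.fix, {x | X.d p x ≤ t}.indicator a x := fun x => by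
    by_cases h : ∀ p ∈ X.fix, t < X.d p x
    · rw [h0 x h, Finset.sum_eq_zero fun p hp => n p x (h p hp)]
    · push Not at h
      obtain ⟨p, hp, h⟩ := h
      rw [Finset.sum_eq_single_of_mem p hp fun q hq hne => indicator_of_notMem (fun h' => hne
        (B.sep q hq p hp ?_)) _, indicator_of_mem (show x ∈ {x | X.d p x ≤ t} from h)]
      have h1 := X.hd.tri q x p
      rw [X.hd.symm x p] at h1
      have h2 : X.d q x ≤ t := h'
      norm_num [r0, r1] at ht ⊢
      linarith
  rw [integral_congr_ae (ae_of_all _ e), integral_finsetSum _ fun p _ =>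
    (ha.integrable_of_hasCompactSupport (HasCompactSupport.of_compactSpace a)).indicator (hm p)]
  refine Finset.sum_congr rfl fun p _ => ?_
  rw [← setIntegral_eq_integral_of_forall_compl_eq_zero (s := {z | X.d p z < r0}) fun x hx =>
      n p x (r.trans_le (not_lt.1 hx)),
    (V.chart p r0 le_rfl _ (ha.measurable.indicator (hm p))).2,
    setIntegral_eq_of_subset_of_forall_sdiff_eq_zero measurableSet_ball
      (closedBall_subset_ball r) fun y hy => ?_]
  · refine setIntegral_congr_fun measurableSet_closedBall fun y hy => ?_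
    have h := mem_closedBall_zero_iff.1 hy
    rw [indicator_of_mem (show param p y ∈ {x | X.d p x ≤ t} from
      (X.hd.par p y (h.trans_lt r)).trans_le h)]
  · rw [n p _ (X.hd.par p y (mem_ball_zero_iff.1 hy.1) ▸ by simpa using hy.2), zero_mul]

variable {g g' : RMetric M} {F H F' H' : M → ℝ}

theorem sm (X : L0 M) {φ : M → ℝ} (h : Smooth φ) (p : M) :
    ContDiffOn ℝ ∞ (fun y => φ (param p y)) (ball 0 r0) := X.hd.tgt p ▸ h.cdOn p

theorem smf (hC : CoFacts) (X : L0 M) (hF : Smooth F) (hH : Smooth H) (p : M) :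
    ContDiffOn ℝ ∞ (fun y => f0 y + F (param p y)) (ball 0 r0) ∧
      ContDiffOn ℝ ∞ (hOf H p) (ball 0 r0) :=
  have h : ball (0 : E4) r0 ⊆ ball 0 1 := ball_subset_ball (by norm_num [r0])
  ⟨(hC.f0_sm.mono h).add (sm X hF p), (hC.h0_sm.mono h).add (sm X hH p)⟩

theorem chart (hC : CoFacts) (hL : LocFacts) (X : L0 M) (hF : Smooth F) (hH : Smooth H)
    (hg : IsBlk g F H) (p : M) {y : E4} (hy : ‖y‖ < r0) {ψ : M → ℝ} (hψ : Smooth ψ) :
    paneitz g ψ (param p y) * exp (2 * F (param p y) + 2 * H (param p y)) * rh y =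
      pp (sOf F H p) (fun z => ψ (param p z)) y ∧
    qCurv g (param p y) * exp (2 * F (param p y) + 2 * H (param p y)) * rh y =
      qd (sOf F H p) y + pp (sOf F H p) (hOf H p) y / 2 := by
  have hy' := mem_ball_zero_iff.2 hy
  have hy2 : y ∈ (chartAt E4 p).target := X.hd.tgt p ▸ hy'
  obtain ⟨h1, h2⟩ := smf hC X hF hH p
  obtain ⟨h3, h4⟩ := hL.conf _ _ _ _ isOpen_ball h1 h2 (sm X hψ p) y hy'
  obtain ⟨-, -, h5, h6⟩ := hL.congr' (gmat g p) _ (ψ ∘ param p) (fun z => ψ (param p z)) y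
    (mem_of_superset (isOpen_ball.mem_nhds hy') fun z hz => hg p z (mem_ball_zero_iff.1 hz)) .rfl
  have h7 : exp (2 * F (param p y) + 2 * H (param p y)) * rh y =
      dens (blk (fun y => f0 y + F (param p y)) (hOf H p)) y := by
    rw [hC.dens_blk, rh, ← exp_add, hOf]
    congr 1
    ring
  rw [paneitz_chart g hψ hy2, qCurv_chart g hy2, h5, h6, mul_assoc, mul_assoc, h7]
  exact ⟨(mul_comm _ _).trans h3, by
    change 2 * _ = 2 * qd (sOf F H p) y + pp (sOf F H p) (hOf H p) y at h4
    change qcurv (blk _ (hOf H p)) y * _ = _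
    linarith⟩

theorem far (hL : LocFacts) (X : L0 M) (hg : IsBlk g F H) (hg' : IsBlk g' F' H') {t : ℝ}
    (he : ∀ x, (∀ p ∈ X.fix, t < X.d p x) → F x = F' x ∧ H x = H' x) {x : M}
    (hx : ∀ p ∈ X.fix, t < X.d p x) (ψ : M → ℝ) :
    paneitz g' ψ x = paneitz g ψ x ∧ qCurv g' x = qCurv g x := by
  have h0 : (0 : E4) ∈ ball 0 r0 := mem_ball_self (by norm_num [r0])
  have h1 : Tendsto (param x) (𝓝 0) (𝓝 x) := by
    have := (continuousOn_param x).continuousAt ((isOpen_tgt x).mem_nhds (mem_chart_target E4 x))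
    rwa [ContinuousAt, param_chart_self, X.hd.ctr] at this
  have h2 : ∀ᶠ z in 𝓝 x, ∀ p ∈ X.fix, t < X.d p z := (eventually_all_finset _).2 fun p hp =>
    (X.hd.cont.comp (Continuous.prodMk_right p)).continuousAt.eventually (lt_mem_nhds (hx p hp))
  obtain ⟨-, -, h3, h4⟩ := hL.congr' (gmat g' x) (gmat g x) (ψ ∘ param x) _ 0 (by
    filter_upwards [h1.eventually h2, isOpen_ball.mem_nhds h0] with y h k
    rw [hg x y (mem_ball_zero_iff.1 k), hg' x y (mem_ball_zero_iff.1 k)]
    simp only [blk, (he _ h).1, (he _ h).2]) .rfl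
  rw [paneitz, paneitz, qCurv, qCurv, X.hd.ctr]
  exact ⟨h3, h4⟩

omit [IsManifold (𝓡 4) ∞ M] [MeasurableSpace M] in
theorem loc_eq (hX : ChiFacts) (p : M) (φ : M → ℝ) {y : E4} (hy : ‖y‖ < r1) :
    (fun z => φ (param p z)) =ᶠ[𝓝 y] loc p φ :=
  mem_of_superset (isOpen_ball.mem_nhds (mem_ball_zero_iff.2 hy)) fun z hz => by
    simp [loc, hX.one r1 (by norm_num [r1]) z (mem_ball_zero_iff.1 hz).le]

end A4X

open A4X in
theorem modifStmt (hC : CoFacts) (hX : ChiFacts) (hL : LocFacts) (hB : BStmt) (hV : VolsStmt) :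
    ModifStmt := by
  intro M _ _ _ _ _ _ _ X g g' F H F' H' t _ ht hF hH hF' hH' hg hg' he
  have B : BFacts X := hB M X
  have V : VFacts X := hV M X
  have := V.fin
  have r : t < r0 := ht.trans (by norm_num [r0, r1])
  have key : ∀ a a' : M → ℝ, Smooth a → Smooth a' → (∀ x, (∀ p ∈ X.fix, t < X.d p x) → a' x = a x) →
      ∫ x, a' x ∂vol g' - ∫ x, a x ∂vol g = ∑ p ∈ X.fix, ∫ y in closedBall (0 : E4) t,
        (a' (param p y) * exp (2 * F' (param p y) + 2 * H' (param p y)) * rh y -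
          a (param p y) * exp (2 * F (param p y) + 2 * H (param p y)) * rh y) := by
    intro a a' ha ha' h0
    have c := (ha.mul ((hF.const_mul 2).add (hH.const_mul 2)).exp).continuous
    have c' := (ha'.mul ((hF'.const_mul 2).add (hH'.const_mul 2)).exp).continuous
    rw [(V.dens g F H hF hH hg).2, (V.dens g' F' H' hF' hH' hg').2, ← integral_sub
      (c'.integrable_of_hasCompactSupport (HasCompactSupport.of_compactSpace _))
      (c.integrable_of_hasCompactSupport (HasCompactSupport.of_compactSpace _)),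
      split B V ht (c'.fun_sub c) fun x hx => by rw [h0 x hx, (he x hx).1, (he x hx).2, sub_self]]
    simp only [sub_mul]
  refine ⟨fun φ ψ hφ hψ => ?_, fun φ hφ => ?_⟩
  · rw [Bf, Bf, key _ _ (hφ.mul (paneitz_smooth g hψ)) (hφ.mul (paneitz_smooth g' hψ))
      fun x hx => by rw [(far hL X hg hg' he hx ψ).1]]
    refine Finset.sum_congr rfl fun p hp => ?_
    obtain ⟨a1, a2⟩ := smf hC X hF hH p
    obtain ⟨b1, b2⟩ := smf hC X hF' hH' p
    rw [← weak hL ht (s := sOf F H p) (s' := sOf F' H' p) (a1.sub a2) (b1.sub b2)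
      (B.loc_tst p φ hφ) (B.loc_tst p ψ hψ) fun y h1 h2 => ?_]
    · refine setIntegral_congr_fun measurableSet_closedBall fun y hy => ?_
      have h := mem_closedBall_zero_iff.1 hy
      have e := fun s => (hL.congr s s _ _ _ _ y .rfl (loc_eq hX p ψ (h.trans_lt ht))
        (loc_eq hX p ψ (h.trans_lt ht))).2.1
      rw [← e, ← e, ← (loc_eq hX p φ (h.trans_lt ht)).self_of_nhds,
        ← (chart hC hL X hF hH hg p (h.trans_lt r) hψ).1,
        ← (chart hC hL X hF' hH' hg' p (h.trans_lt r) hψ).1]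
      ring
    · have h3 := X.hd.par p y (h2.trans (by norm_num [r0]))
      obtain ⟨h4, h5⟩ := he (param p y) fun q hq => by
        by_cases h : p = q
        · rwa [← h, h3]
        · have h6 := not_lt.1 fun c => h (B.sep p hp q hq c)
          have h7 := X.hd.tri p (param p y) q
          rw [h3, X.hd.symm (param p y) q] at h7
          norm_num [r0, r1] at ht h6
          linarith
      simp only [sOf, h4, h5]
  · rw [qf, qf, key _ _ ((qCurv_smooth g).mul hφ) ((qCurv_smooth g').mul hφ)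
      fun x hx => by rw [(far hL X hg hg' he hx φ).2]]
    refine Finset.sum_congr rfl fun p _ =>
      setIntegral_congr_fun measurableSet_closedBall fun y hy => ?_
    have h := mem_closedBall_zero_iff.1 hy
    have h1 := (chart hC hL X hF hH hg p (h.trans_lt r) hφ).2
    have h2 := (chart hC hL X hF' hH' hg' p (h.trans_lt r) hφ).2
    rw [← (loc_eq hX p φ (h.trans_lt ht)).self_of_nhds]
    linear_combination φ (param p y) * (h2 - h1)

end Pool.Agent.MP_417fa2_gt.Q2
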