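import Pool.Agent.MP_417fa2_gt.Q2.ASpec

/-! Row A5: integrals of singular kernels. -/

open scoped Manifold ContDiff Topology
open MeasureTheory Set Metric Real Filter

namespace Pool.Agent.MP_417fa2_gt.Q2

namespace A5

theorem rh_meas : Measurable rh := by
  unfold rh f0 h0 zsq wsq
  fun_prop

theorem lg_le {δ s : ℝ} (h0 : 0 < δ) (h1 : δ ≤ 1) (hs : 0 ≤ s) :
    max (log (δ / s)) 0 ≤ max (-log s) 0 ∧ max (-log s) 0 ≤ log δ⁻¹ + max (log (δ / s)) 0 ∧
      max (-log s) 0 ≤ s ^ (-1 : ℝ) := by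
  have h2 : log δ ≤ 0 := log_nonpos h0.le h1
  rw [log_inv, rpow_neg_one]
  rcases hs.eq_or_lt with rfl | hs
  · simpa using h2
  · rw [log_div h0.ne' hs.ne']
    have h3 := log_le_sub_one_of_pos (inv_pos.2 hs)
    rw [log_inv] at h3
    refine ⟨max_le_max_right _ (by linarith), max_le ?_ ?_, max_le (by linarith) (by positivity)⟩
    · linarith [le_max_left (log δ - log s) 0]
    · linarith [le_max_right (log δ - log s) 0]

variable {M : Type} [TopologicalSpace M] [T2Space M] [CompactSpace M] [ChartedSpace E4 M]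
  [IsManifold (𝓡 4) ∞ M] [MeasurableSpace M] [BorelSpace M] {X : L0 M}

theorem null (hB : BFacts X) (hV : VFacts X) (x : M) : X.μ {x} = 0 := by
  have := hV.fin
  have r : (0 : ℝ) < r0 := by unfold r0; norm_num
  have h := (hV.chart x r0 le_rfl (({x} : Set M).indicator 1)
    (measurable_one.indicator (measurableSet_singleton x))).2
  have e : ∫ y in ball (0 : E4) r0, ({x} : Set M).indicator (1 : M → ℝ) (param x y) * rh y = 0 := by
    refine integral_eq_zero_of_ae ((ae_restrict_iff' measurableSet_ball).2 ?_)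
    filter_upwards [Measure.ae_ne volume (0 : E4)] with y hy hb
    have : param x y ∉ ({x} : Set M) := fun h => by
      have a := X.hd.par x y (mem_ball_zero_iff.1 hb)
      rw [mem_singleton_iff.1 h, hB.self] at a
      exact hy (norm_eq_zero.1 a.symm)
    simp [indicator_of_notMem this]
  rw [e, integral_indicator_one (measurableSet_singleton x),
    measureReal_restrict_apply (measurableSet_singleton x),
    inter_eq_left.2 (singleton_subset_iff.2 (by simpa [hB.self] using r))] at h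
  exact (measureReal_eq_zero_iff).1 h

theorem dx (x : M) : Continuous (X.d x) := X.hd.cont.comp (Continuous.prodMk_right x)

theorem pow (hC : CoFacts) (hK : KkFacts) (hV : VFacts X) (β : ℝ) (h0 : 0 ≤ β) (h4 : β < 4) :
    ∃ C : ℝ, 0 < C ∧ ∀ x, Integrable (fun y => X.d x y ^ (-β)) X.μ ∧
      ∫ y, X.d x y ^ (-β) ∂X.μ ≤ C ∧ ∀ t : ℝ, 0 < t → t ≤ 1 →
        ∫ y in {y | X.d x y < t}, X.d x y ^ (-β) ∂X.μ ≤ C * t ^ (4 - β) := by
  have := hV.fin
  have r : (0 : ℝ) < r0 := by unfold r0; norm_num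
  obtain ⟨C0, k⟩ := hK.pow β h0 h4
  have hm : ∀ x, Measurable fun y => X.d x y ^ (-β) := fun x => (dx x).measurable.pow_const _
  have hs : ∀ x t, MeasurableSet {y | X.d x y < t} := fun x t =>
    (isOpen_lt (dx x) continuous_const).measurableSet
  have near : ∀ x t, 0 < t → t ≤ r0 → IntegrableOn (fun y => X.d x y ^ (-β)) {y | X.d x y < t} X.μ ∧
      ∫ y in {y | X.d x y < t}, X.d x y ^ (-β) ∂X.μ ≤ 2 * |C0| * t ^ (4 - β) := by
    intro x t t0 t1
    obtain ⟨a1, a2⟩ := hV.chart x t t1 _ (hm x)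
    obtain ⟨b1, b2⟩ := k t t0
    have c1 : ∀ y ∈ ball (0 : E4) t, X.d x (param x y) ^ (-β) * rh y = ‖y‖ ^ (-β) * rh y :=
      fun y hy => by rw [X.hd.par x y ((mem_ball_zero_iff.1 hy).trans_le t1)]
    have c2 : ∀ y ∈ ball (0 : E4) t, 0 ≤ ‖y‖ ^ (-β) * rh y ∧ ‖y‖ ^ (-β) * rh y ≤ 2 * ‖y‖ ^ (-β) :=
      fun y hy => by
        obtain ⟨p1, p2⟩ := hC.rh_bd y ((mem_ball_zero_iff.1 hy).trans_le t1)
        have : 0 ≤ ‖y‖ ^ (-β) := by positivity
        constructor <;> nlinarith
    have c3 : IntegrableOn (fun y : E4 => ‖y‖ ^ (-β) * rh y) (ball 0 t) :=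
      (b1.const_mul 2).mono' ((measurable_norm.pow_const _).mul rh_meas).aestronglyMeasurable
        ((ae_restrict_iff' measurableSet_ball).2 (Eventually.of_forall fun y hy => by
          rw [Real.norm_of_nonneg (c2 y hy).1]; exact (c2 y hy).2))
    refine ⟨a1.2 (c3.congr_fun (fun y hy => (c1 y hy).symm) measurableSet_ball), ?_⟩
    rw [a2, setIntegral_congr_fun measurableSet_ball c1]
    refine (setIntegral_mono_on c3 (b1.const_mul 2) measurableSet_ball
      fun y hy => (c2 y hy).2).trans ?_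
    rw [integral_const_mul, mul_assoc]
    have : C0 * t ^ (4 - β) ≤ |C0| * t ^ (4 - β) := by gcongr; exact le_abs_self _
    linarith
  have far : ∀ x, ∀ y ∈ {y | X.d x y < r0}ᶜ, ‖X.d x y ^ (-β)‖ ≤ r0 ^ (-β) := fun x y hy => by
    rw [Real.norm_of_nonneg (rpow_nonneg (X.hd.nonneg x y) _)]
    exact rpow_le_rpow_of_nonpos r (not_lt.1 hy) (by linarith)
  set C1 := 2 * |C0| * r0 ^ (4 - β) + r0 ^ (-β) * X.μ.real univ with hC1
  have C10 : 0 ≤ C1 := by positivity
  have r4 : 0 < r0 ^ (4 - β) := by positivity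
  refine ⟨2 * |C0| + C1 + C1 / r0 ^ (4 - β) + 1, by positivity, fun x => ?_⟩
  have i1 : IntegrableOn (fun y => X.d x y ^ (-β)) {y | X.d x y < r0}ᶜ X.μ :=
    Integrable.of_bound (hm x).aestronglyMeasurable _
      ((ae_restrict_iff' (hs x r0).compl).2 (Eventually.of_forall (far x)))
  have i2 : Integrable (fun y => X.d x y ^ (-β)) X.μ := by
    rw [← integrableOn_univ, ← union_compl_self {y | X.d x y < r0}]
    exact (near x r0 r le_rfl).1.union i1
  have i3 : ∫ y, X.d x y ^ (-β) ∂X.μ ≤ C1 := by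
    rw [← integral_add_compl (hs x r0) i2]
    refine add_le_add (near x r0 r le_rfl).2 ((le_abs_self _).trans
      ((norm_setIntegral_le_of_norm_le_const (measure_lt_top _ _) (far x)).trans ?_))
    exact mul_le_mul_of_nonneg_left (measureReal_mono (subset_univ _)) (by positivity)
  have q1 : 0 ≤ C1 / r0 ^ (4 - β) := by positivity
  have q2 := abs_nonneg C0
  refine ⟨i2, by linarith, fun t t0 t1 => ?_⟩
  have t4 : 0 < t ^ (4 - β) := by positivity
  rcases le_total t r0 with h | h
  · exact (near x t t0 h).2.trans (by gcongr; linarith)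
  · have j1 : ∫ y in {y | X.d x y < t}, X.d x y ^ (-β) ∂X.μ ≤ C1 :=
      (setIntegral_le_integral i2
        (Eventually.of_forall fun y => rpow_nonneg (X.hd.nonneg x y) _)).trans i3
    have j2 : C1 / r0 ^ (4 - β) * r0 ^ (4 - β) ≤ C1 / r0 ^ (4 - β) * t ^ (4 - β) := by
      gcongr
    rw [div_mul_cancel₀ _ r4.ne'] at j2
    exact (j1.trans j2).trans (by gcongr; linarith)

end A5

theorem kintStmt (hC : CoFacts) (hK : KkFacts) (hB : BStmt) (hV : VolsStmt) : KIntStmt := by
  intro M _ _ _ _ _ _ _ X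
  have hB := hB M X
  have hV := hV M X
  have := hV.fin
  have : SecondCountableTopology M := ChartedSpace.secondCountable_of_sigmaCompact E4 M
  have hd : Measurable fun p : M × M => X.d p.1 p.2 := X.hd.cont.measurable
  have pow2 : ∀ β : ℝ, 0 ≤ β → β < 4 →
      Integrable (fun p : M × M => X.d p.1 p.2 ^ (-β)) (X.μ.prod X.μ) := fun β h0 h4 => by
    obtain ⟨C, -, k⟩ := A5.pow hC hK hV β h0 h4
    have m := (hd.pow_const (-β)).stronglyMeasurable
    refine (integrable_prod_iff m.aestronglyMeasurable).2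
      ⟨Eventually.of_forall fun x => (k x).1, Integrable.of_bound
        m.norm.integral_prod_right'.aestronglyMeasurable C (Eventually.of_forall fun x => ?_)⟩
    rw [Real.norm_of_nonneg (integral_nonneg fun _ => norm_nonneg _)]
    simp only [Real.norm_of_nonneg (rpow_nonneg (X.hd.nonneg x _) _)]
    exact (k x).2.1
  have meas : ∀ δ, Measurable fun p : M × M => lgn X.d δ p.1 p.2 := fun δ =>
    (measurable_log.comp (hd.const_div δ)).max measurable_const
  refine ⟨A5.null hB hV, A5.pow hC hK hV, pow2, meas, fun x y => by simp [lgn, ell],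
    fun δ h0 h1 x y => A5.lg_le h0 h1 (X.hd.nonneg x y), fun δ h0 h1 ρ hρ => ?_⟩
  obtain ⟨B, hb⟩ := isCompact_univ.exists_bound_of_continuousOn hρ.continuousOn
  obtain ⟨C, -, k⟩ := A5.pow hC hK hV 1 zero_le_one (by norm_num)
  have bd : ∀ x y, ‖lgn X.d δ x y * ρ x‖ ≤ X.d x y ^ (-1 : ℝ) * |B| := fun x y => by
    obtain ⟨a, -, b⟩ := A5.lg_le h0 h1 (X.hd.nonneg x y)
    rw [norm_mul, Real.norm_of_nonneg (show 0 ≤ lgn X.d δ x y from le_max_right _ _)]
    exact mul_le_mul (a.trans b) ((hb x (mem_univ x)).trans (le_abs_self B)) (norm_nonneg _)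
      (rpow_nonneg (X.hd.nonneg x y) _)
  have m : Measurable fun p : M × M => lgn X.d δ p.1 p.2 * ρ p.1 :=
    (meas δ).mul (hρ.measurable.comp measurable_fst)
  have i0 : ∀ y, Integrable (fun x => X.d x y ^ (-1 : ℝ) * |B|) X.μ := fun y => by
    simpa only [X.hd.symm y] using (k y).1.mul_const |B|
  refine ⟨fun y => (i0 y).mono' (m.comp measurable_prodMk_right).aestronglyMeasurable
    (Eventually.of_forall fun x => bd x y), ((pow2 1 zero_le_one (by norm_num)).mul_const |B|).mono'
      m.aestronglyMeasurable (Eventually.of_forall fun p => bd p.1 p.2), ⟨C * |B|, fun y => ?_⟩,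
    m.stronglyMeasurable.integral_prod_left'.measurable⟩
  refine (norm_integral_le_of_norm_le (i0 y) (Eventually.of_forall fun x => bd x y)).trans ?_
  rw [integral_mul_const]
  gcongr
  simpa only [X.hd.symm y] using (k y).2.1

end Pool.Agent.MP_417fa2_gt.Q2
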