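import Pool.Agent.MP_417fa2_gt.Q2.Defs

/-! The constant in the coercivity of the product metric is positive. -/

open scoped Manifold ContDiff Topology
open MeasureTheory Set Metric Real Filter

namespace Pool.Agent.MP_417fa2_gt.Q2

variable {M : Type} [TopologicalSpace M] [T2Space M] [CompactSpace M] [ChartedSpace E4 M]
  [IsManifold (𝓡 4) ∞ M] [MeasurableSpace M] [BorelSpace M]

omit [IsManifold (𝓡 4) ∞ M] in
theorem exists_small_open (S : Setup M) (x : M) {ε : ℝ} (hε : 0 < ε) :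
    ∃ U : Set M, IsOpen U ∧ x ∈ U ∧ S.μ.real U < ε := by
  have : SecondCountableTopology M := ChartedSpace.secondCountable_of_sigmaCompact E4 M
  have : TopologicalSpace.MetrizableSpace M := inferInstance
  have h0 : S.μ {x} = 0 := by
    rw [S.μ_loc x _ (measurableSet_singleton x) (singleton_subset_iff.2 (mem_chart_source E4 x)),
      image_singleton]
    exact setLIntegral_measure_zero _ _ (measure_singleton _)
  obtain ⟨U, h1, h2, h3⟩ := Set.exists_isOpen_lt_of_lt (μ := S.μ) {x} (ENNReal.ofReal ε)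
    (by rw [h0]; exact ENNReal.ofReal_pos.2 hε)
  exact ⟨U, h2, h1 rfl, ENNReal.toReal_lt_of_lt_ofReal h3⟩

theorem exists_form_pos (S : Setup M) (x : M) : ∃ f, Smooth f ∧ 0 < ∫ z, f z * S.P f z ∂S.μ := by
  by_contra hc
  push Not at hc
  obtain ⟨F⟩ := exists_frame (M := M)
  obtain ⟨C, D, C0, D0, h2⟩ := (MP_417fa2_gt.ell M S F).gard2
  obtain ⟨A, A0, h4⟩ := lfour s4 M S F
  obtain ⟨U, hU, hx, hs⟩ := exists_small_open S x (by positivity : 0 < 1 / (A * D ^ 2))
  obtain ⟨f, hf, hsupp, -, h1⟩ := exists_cutoff isClosed_singleton hU (singleton_subset_iff.2 hx)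
  have cf := hf.continuous
  set I := ∫ z, f z ^ 2 ∂S.μ with hI
  have I0 : 0 < I := by
    refine (cf.pow 2).integral_pos_of_hasCompactSupport_nonneg_nonzero
      (HasCompactSupport.of_compactSpace _) (fun z => sq_nonneg _) (x := x) ?_
    simp [(h1 x rfl).self_of_nhds]
  have k1 : F.N S.μ 1 f ≤ D * I := by
    have := mul_le_mul_of_nonneg_left (hc f hf) C0.le
    have k := h2 f hf
    rw [F.N_zero] at k
    linarith [F.N_le_succ (μ := S.μ) 1 f]
  have k2 : ∫ z, f z ^ 4 ∂S.μ ≤ A * (D * I) ^ 2 :=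
    (h4 f hf).trans (mul_le_mul_of_nonneg_left (pow_le_pow_left₀ (F.N_nonneg _ 1 f) k1 2) A0.le)
  set a := A * D ^ 2 * I with ha
  have a0 : 0 < a := by positivity
  have i1 : Integrable (U.indicator fun _ => a / 2) S.μ :=
    (integrable_const _).indicator hU.measurableSet
  have i2 : Integrable (fun z => 1 / (2 * a) * f z ^ 4) S.μ := (S.integrable (cf.pow 4)).const_mul _
  have k3 : I ≤ ∫ z, (U.indicator (fun _ => a / 2) z + 1 / (2 * a) * f z ^ 4) ∂S.μ := by
    refine integral_mono (S.integrable (cf.pow 2)) (i1.add i2) fun z => ?_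
    by_cases hz : z ∈ U
    · have e : a / 2 + 1 / (2 * a) * f z ^ 4 - f z ^ 2 = 1 / (2 * a) * (f z ^ 2 - a) ^ 2 := by
        field_simp
        ring
      simp only [indicator_of_mem hz]
      exact sub_nonneg.1 (e ▸ by positivity)
    · simp [hz, image_eq_zero_of_notMem_tsupport fun h => hz (hsupp h)]
  rw [integral_add i1 i2, integral_indicator_const _ hU.measurableSet, integral_const_mul,
    smul_eq_mul] at k3
  have k4 : 1 / (2 * a) * ∫ z, f z ^ 4 ∂S.μ ≤ I / 2 :=
    (mul_le_mul_of_nonneg_left k2 (by positivity)).trans_eq (by rw [ha]; field_simp)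
  have k5 : S.μ.real U * (a / 2) < I / 2 :=
    (mul_lt_mul_of_pos_right hs (half_pos a0)).trans_eq (by rw [ha]; field_simp)
  linarith

theorem L0.coer_pos (X : L0 M) : ∃ C : ℝ, 0 < C ∧ ∀ φ, Smooth φ → ∫ x, lapM X.g φ x ^ 2 ∂vol X.g +
    ∫ x, (φ x - ⨍ z, φ z ∂vol X.g) ^ 2 ∂vol X.g ≤ C * Bf X.g φ φ := by
  obtain ⟨C, hC⟩ := X.coer
  refine ⟨C, ?_, hC⟩
  obtain ⟨x, -⟩ := X.hJ.ne
  obtain ⟨f, hf, h0⟩ := exists_form_pos (setupOf X.g) x
  have : (vol X.g).IsOpenPosMeasure := (setupOf X.g).openPos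
  have h1 := hC f hf
  have h2 : 0 ≤ ∫ x, lapM X.g f x ^ 2 ∂vol X.g := integral_nonneg fun _ => sq_nonneg _
  have hc : Continuous fun x => (f x - ⨍ z, f z ∂vol X.g) ^ 2 :=
    (hf.continuous.sub continuous_const).pow 2
  have h3 : 0 < ∫ x, (f x - ⨍ z, f z ∂vol X.g) ^ 2 ∂vol X.g := by
    refine lt_of_le_of_ne (integral_nonneg fun _ => sq_nonneg _) fun h => ?_
    have h4 := (hc.ae_eq_iff_eq (vol X.g) continuous_zero).1 ((integral_eq_zero_iff_of_nonneg
      (fun _ => sq_nonneg _) ((setupOf X.g).integrable hc)).1 h.symm)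
    have h5 : f = fun _ => ⨍ z, f z ∂vol X.g :=
      funext fun z => sub_eq_zero.1 (pow_eq_zero_iff two_ne_zero |>.1 (congrFun h4 z))
    rw [h5] at h0
    simp [(setupOf X.g).P_const] at h0
  rw [setupOf_P X.g hf] at h0
  exact (mul_pos_iff_of_pos_right h0).1 (by linarith : 0 < C * Bf X.g f f)

end Pool.Agent.MP_417fa2_gt.Q2
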