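import Pool.Agent.MP_417fa2_gt.Q2.A6a
import Pool.Agent.MP_417fa2_gt.Q2.CoerPos

/-! The energy controls the Sobolev norm in every chart. -/

open scoped Manifold ContDiff Topology
open MeasureTheory Set Metric Real Filter

namespace Pool.Agent.MP_417fa2_gt.Q2

/-- The coefficients of the Laplacian of the product metric. -/
noncomputable def a6c (i : Fin 4) (y : E4) : ℝ :=
  if i.val < 2 then (1 - zsq y) ^ 2 else (1 - wsq y / cc ^ 2) ^ 2

theorem a6c_sm (i : Fin 4) : ContDiff ℝ ∞ (a6c i) := by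
  unfold a6c zsq wsq
  split_ifs <;> fun_prop

theorem a6c_nonneg (i : Fin 4) (y : E4) : 0 ≤ a6c i y := by
  unfold a6c
  split_ifs <;> positivity

theorem a6c_bd (h1 : CoFacts) (i : Fin 4) (y : E4) (hy : ‖y‖ < 9 / 100) :
    49 / 50 ≤ a6c i y ∧ a6c i y ≤ 1 := by
  have e := h1.nsq y
  have z0 : 0 ≤ zsq y := by unfold zsq; positivity
  have w0 : 0 ≤ wsq y := by unfold wsq; positivity
  have n : ‖y‖ ^ 2 ≤ 1 / 100 := by nlinarith [norm_nonneg y]
  have k : wsq y / cc ^ 2 = 81 / 100 * wsq y := by unfold cc; ring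
  unfold a6c
  rw [k]
  split_ifs <;> constructor <;> nlinarith

theorem a6_ext {u₀ : E4 → ℝ} (h : ContDiffOn ℝ ∞ u₀ (ball 0 r0)) :
    ∃ u, Tst u ∧ EqOn u u₀ (ball 0 (9 / 100)) := by
  let β : ContDiffBump (0 : E4) := ⟨9 / 100, 19 / 200, by norm_num, by norm_num⟩
  have h0 : ∀ y ∈ ball (0 : E4) r0, y ∉ closedBall (0 : E4) (19 / 200) → β y * u₀ y = 0 :=
    fun y _ hy => by
      rw [β.zero_of_le_dist (le_of_not_ge fun k => hy (mem_closedBall.2 k)), zero_mul]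
  refine ⟨(ball 0 r0).indicator fun y => β y * u₀ y, ⟨contDiff_indicator isOpen_ball
    isClosed_closedBall (closedBall_subset_ball (by norm_num [r0])) (β.contDiff.contDiffOn.mul h) h0,
    HasCompactSupport.intro (isCompact_closedBall (0 : E4) (19 / 200)) fun y hy =>
      indicator_eq_zero_off h0 hy⟩, fun y hy => ?_⟩
  rw [indicator_of_mem (ball_subset_ball (by norm_num [r0]) hy),
    β.one_of_mem_closedBall (ball_subset_closedBall hy), one_mul]

theorem chStmt (h1 : CoFacts) (h2 : ChiFacts) (h3 : HypStmt) (h4 : LocFacts) (_h5 : BStmt)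
    (h6 : BfStmt) (h7 : VolsStmt) : ChStmt := by
  intro M _ _ _ _ _ _ _ X
  have F := h6 M X.g
  have V := h7 M X
  obtain ⟨C, hC, hc⟩ := X.coer_pos
  obtain ⟨D, hD, hd⟩ := a6_euc h2 a6c_sm a6c_nonneg (a6c_bd h1)
  have sz : ∀ φ, Smooth φ → Smooth (X.z φ) := fun φ hφ => hφ.sub (smooth_const _)
  have nz : ∀ φ, Smooth φ → X.nn (X.z φ) = X.nn φ := fun φ hφ => by
    have e : X.z φ = fun x => 1 * φ x + 0 * φ x + -⨍ y, φ y ∂X.μ := funext fun x => by
      simp [L0.z, sub_eq_add_neg]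
    have k : ∀ ψ, Smooth ψ → Bf X.g ψ (X.z φ) = Bf X.g ψ φ := fun ψ hψ => by
      rw [e, F.lin ψ φ φ hψ hφ hφ]
      ring
    rw [L0.nn, L0.nn, k _ (sz φ hφ), F.symm _ _ (sz φ hφ) hφ, k _ hφ]
  have b1 : ∀ φ, Smooth φ → ∫ x, X.z φ x ^ 2 ∂X.μ ≤ C * X.nn φ := fun φ hφ =>
    (le_add_of_nonneg_left (integral_nonneg fun _ => sq_nonneg _)).trans (hc φ hφ)
  have b2 : ∀ φ, Smooth φ → ∫ x, lapM X.g φ x ^ 2 ∂X.μ ≤ C * X.nn φ := fun φ hφ =>
    (le_add_of_nonneg_right (integral_nonneg fun _ => sq_nonneg _)).trans (hc φ hφ)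
  have n0 : ∀ φ, Smooth φ → 0 ≤ X.nn φ := fun φ hφ =>
    nonneg_of_mul_nonneg_right ((integral_nonneg fun _ => sq_nonneg _).trans (b1 φ hφ)) hC
  refine ⟨fun φ hφ => ⟨sz φ hφ, n0 φ hφ, nz φ hφ⟩, D * (2 * C) + C, by positivity,
    fun φ hφ => ⟨fun x => ?_, (b1 φ hφ).trans (mul_le_mul_of_nonneg_right
      (le_add_of_nonneg_left (by positivity)) (n0 φ hφ))⟩⟩
  have hψ := sz φ hφ
  have k1 := b1 φ hφ
  have k2 := b2 _ hψ
  rw [nz φ hφ] at k2
  generalize X.z φ = ψ at hψ k1 k2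
  have hon : ContDiffOn ℝ ∞ (ψ ∘ param x) (ball 0 r0) := X.hd.tgt x ▸ hψ.cdOn x
  obtain ⟨u, U, hu⟩ := a6_ext hon
  have e1 : loc x ψ = fun y => chi r1 y * u y := funext fun y => by
    rcases lt_or_ge ‖y‖ (9 / 100) with hy | hy
    · rw [hu (mem_ball_zero_iff.2 hy)]
      rfl
    · rw [loc, h2.zero r1 (by norm_num [r1]) y (by norm_num [r1]; linarith), zero_mul, zero_mul]
  have hL : Smooth (lapM X.g ψ) := (setupOf X.g).opL.smooth hψ
  have cf : Continuous fun z => lapM X.g ψ z ^ 2 + ψ z ^ 2 :=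
    (hL.continuous.fun_pow 2).add (hψ.continuous.fun_pow 2)
  have i1 : Integrable (fun z => lapM X.g ψ z ^ 2) X.μ :=
    (setupOf X.g).integrable (hL.continuous.fun_pow 2)
  have i2 : Integrable (fun z => ψ z ^ 2) X.μ := (setupOf X.g).integrable (hψ.continuous.fun_pow 2)
  obtain ⟨v1, v2⟩ := V.chart x (9 / 100) (by norm_num [r0]) _ cf.measurable
  have e2 : ∀ y : E4, ‖y‖ < 9 / 100 → a6L a6c u y = lapM X.g ψ (param x y) := fun y hy => by
    have hy0 : ‖y‖ < r0 := hy.trans (by norm_num [r0])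
    have m0 := isOpen_ball.mem_nhds (mem_ball_zero_iff.2 hy0)
    have m1 : ψ ∘ param x =ᶠ[𝓝 y] u :=
      (hu.eventuallyEq_of_mem (isOpen_ball.mem_nhds (mem_ball_zero_iff.2 hy))).symm
    have m2 : gmat X.g x =ᶠ[𝓝 y] blk f0 h0 := mem_of_superset m0 fun z hz => by
      have := X.blk x z (mem_ball_zero_iff.1 hz)
      simp only [add_zero] at this
      exact this
    rw [lapM_chart X.g hψ (X.hd.tgt x ▸ mem_ball_zero_iff.2 hy0), (h4.congr' _ _ _ _ y m2 m1).1,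
      ((h3 y (hy.trans (by norm_num))).2 u (smAt_of U.sm y)).1]
    simp [a6L, a6c, Fin.sum_univ_four, lz, lw]
    ring
  have LU := a6L_tst a6c_sm U
  have e3 : ∫ y in ball (0 : E4) (9 / 100), (a6L a6c u y ^ 2 + u y ^ 2) ≤
      ∫ z, (lapM X.g ψ z ^ 2 + ψ z ^ 2) ∂X.μ := by
    refine (setIntegral_mono_on (LU.integrable_sq.add U.integrable_sq).integrableOn
      (v1.1 (i1.add i2).integrableOn) measurableSet_ball fun y hy => ?_).trans
      (v2.symm.trans_le (setIntegral_le_integral (i1.add i2)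
        (Eventually.of_forall fun z => add_nonneg (sq_nonneg _) (sq_nonneg _))))
    have hy' := mem_ball_zero_iff.1 hy
    rw [Pi.add_apply, e2 y hy', hu hy]
    exact le_mul_of_one_le_right (by positivity) (h1.rh_bd y (hy'.trans (by norm_num [r0]))).1
  rw [integral_add i1 i2] at e3
  rw [e1]
  refine (hd u U).trans ?_
  have := n0 φ hφ
  nlinarith [mul_le_mul_of_nonneg_left (e3.trans (add_le_add k2 k1)) hD.le, mul_nonneg hC.le this]

end Pool.Agent.MP_417fa2_gt.Q2
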