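import Pool.Agent.MP_417fa2_gt.Q2.ASpec

/-! An interior estimate for a diagonal operator close to the flat Laplacian. -/

open scoped ContDiff Topology
open MeasureTheory Set Metric Real Filter

namespace Pool.Agent.MP_417fa2_gt.Q2

open DE (lp)

/-- A diagonal operator of second order. -/
noncomputable def a6L (c : Fin 4 → E4 → ℝ) (u : E4 → ℝ) (y : E4) : ℝ :=
  ∑ i, c i y * pd i (pd i u) y

theorem a6L_tst {c : Fin 4 → E4 → ℝ} (hc : ∀ i, ContDiff ℝ ∞ (c i)) {u : E4 → ℝ} (U : Tst u) :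
    Tst (a6L c u) := Tst.sum fun i _ => ((U.pd i).pd i).mul_left (hc i)

theorem a6_pd_zero {F : E4 → ℝ} (H : Tst F) (i : Fin 4) : ∫ y, pd i F y = 0 := by
  have h := integral_pd_eq_zero isOpen_univ H.cs.isCompact (subset_univ _) H.sm.contDiffOn
    (fun y _ hy => image_eq_zero_of_notMem_tsupport hy) i
  rwa [Measure.restrict_univ] at h

theorem a6_ibp {e u : E4 → ℝ} (E : Tst e) (U : Tst u) (i : Fin 4) :
    ∫ y, e y * pd i u y ^ 2 =
      ∫ y, (1 / 2 * pd i (pd i e) y * u y ^ 2 - e y * u y * pd i (pd i u) y) := by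
  have A : Tst fun y => e y * u y := E.mul_right U.sm
  have B : Tst fun y => e y * u y * pd i u y := A.mul_right (U.pd i).sm
  have C : Tst fun y => pd i e y * u y := (E.pd i).mul_right U.sm
  have D : Tst fun y => pd i e y * u y * u y := C.mul_right U.sm
  have h := a6_pd_zero (B.sub (D.const_mul (1 / 2))) i
  have k : ∀ y, pd i (fun y => e y * u y * pd i u y - 1 / 2 * (pd i e y * u y * u y)) y =
      e y * pd i u y ^ 2 -
        (1 / 2 * pd i (pd i e) y * u y ^ 2 - e y * u y * pd i (pd i u) y) := fun y => by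
    rw [pd_sub (B.dAt y) ((D.const_mul _).dAt y), pd_const_mul (D.dAt y),
      pd_mul (A.dAt y) ((U.pd i).dAt y), pd_mul (E.dAt y) (U.dAt y), pd_mul (C.dAt y) (U.dAt y),
      pd_mul ((E.pd i).dAt y) (U.dAt y)]
    ring
  simp only [k] at h
  rwa [integral_sub (E.mul_right ((U.pd i).sm.pow 2)).integrable
    (((((E.pd i).pd i).const_mul _).mul_right (U.sm.pow 2)).sub
      (A.mul_right ((U.pd i).pd i).sm)).integrable, sub_eq_zero] at h

theorem a6_pd2_mul {f u : E4 → ℝ} (F : Tst f) (U : Tst u) (i : Fin 4) (y : E4) :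
    pd i (pd i fun z => f z * u z) y =
      f y * pd i (pd i u) y + 2 * (pd i f y * pd i u y) + pd i (pd i f) y * u y := by
  rw [show (pd i fun z => f z * u z) = fun z => pd i f z * u z + f z * pd i u z from
    funext fun z => pd_mul (F.dAt z) (U.dAt z) i,
    pd_add (((F.pd i).mul_right U.sm).dAt y) ((F.mul_right (U.pd i).sm).dAt y),
    pd_mul ((F.pd i).dAt y) (U.dAt y), pd_mul (F.dAt y) ((U.pd i).dAt y)]
  ring

theorem a6_loc {F G : E4 → ℝ} {C t : ℝ} (hF : Tst F) (hG : Tst G) (h0 : ∀ y, t ≤ ‖y‖ → F y = 0)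
    (h : ∀ y, F y ≤ C * G y) : ∫ y, F y ≤ C * ∫ y in ball (0 : E4) t, G y := by
  rw [← setIntegral_eq_integral_of_forall_compl_eq_zero (s := ball (0 : E4) t) fun y hy =>
    h0 y (not_lt.1 fun k => hy (mem_ball_zero_iff.2 k)), ← integral_const_mul]
  exact integral_mono hF.integrable.integrableOn (hG.const_mul C).integrable.integrableOn h

theorem a6_grad (h2 : ChiFacts) {h : E4 → ℝ} (H : Tst h) :
    eN 2 h ≤ 3 / 2 * (∫ y, h y ^ 2) + 3 / 2 * ∫ y, lp h y ^ 2 := by
  have e1 : ∫ y, D1 h y ^ 2 = -∫ y, h y * lp h y := by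
    have a : ∀ y, D1 h y ^ 2 = ∑ i, pd i h y * pd i h y := fun y => by
      rw [D1, sq_sqrt (Finset.sum_nonneg fun _ _ => sq_nonneg _)]
      simp only [sq]
    simp only [a, DE.lp, Finset.mul_sum]
    rw [integral_finsetSum _ fun i _ => (H.pd i).integrable_mul (H.pd i),
      integral_finsetSum _ fun i _ => H.integrable_mul ((H.pd i).pd i), ← Finset.sum_neg_distrib]
    exact Finset.sum_congr rfl fun i _ => by rw [DE.ibp H (H.pd i) i, neg_neg]
  have e2 := DE.amgm H (DE.tst_lp H) (t := 1 / 2) (by norm_num)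
  rw [eN_zero, eN_zero] at e2
  rw [h2.eN2 h H, h2.hess h H, e1]
  have := neg_abs_le (∫ y, h y * lp h y)
  linarith

theorem a6_euc (h2 : ChiFacts) {c : Fin 4 → E4 → ℝ} (hc : ∀ i, ContDiff ℝ ∞ (c i))
    (c0 : ∀ i y, 0 ≤ c i y) (c1 : ∀ i y, ‖y‖ < 9 / 100 → 49 / 50 ≤ c i y ∧ c i y ≤ 1) :
    ∃ C : ℝ, 0 < C ∧ ∀ u, Tst u → eN 2 (fun y => chi r1 y * u y) ≤
      C * ∫ y in ball (0 : E4) (9 / 100), (a6L c u y ^ 2 + u y ^ 2) := by
  have hr : (0 : ℝ) < r1 := by norm_num [r1]
  have X := h2.tst r1 hr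
  have ev : ∀ y : E4, 9 / 100 ≤ ‖y‖ → chi r1 =ᶠ[𝓝 y] fun _ => 0 := fun y hy =>
    (continuous_norm.continuousAt.eventually (lt_mem_nhds (show 2 * r1 < ‖y‖ by
      norm_num [r1]; linarith))).mono fun z hz => h2.zero r1 hr z hz.le
  have ev1 : ∀ (i) (y : E4), 9 / 100 ≤ ‖y‖ → pd i (chi r1) =ᶠ[𝓝 y] fun _ => 0 := fun i y hy =>
    (ev y hy).eventuallyEq_nhds.mono fun z hz => pd_eq_zero_of_eventually hz i
  set ζ : E4 → ℝ := fun y => ∑ j, pd j (chi r1) y * pd j (chi r1) y with hζ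
  have Z : Tst ζ := Tst.sum fun j _ => (X.pd j).mul_right (X.pd j).sm
  have z0 : ∀ y, 0 ≤ ζ y := fun y => Finset.sum_nonneg fun _ _ => mul_self_nonneg _
  have evz : ∀ y : E4, 9 / 100 ≤ ‖y‖ → ζ =ᶠ[𝓝 y] fun _ => 0 := fun y hy =>
    (eventually_all.2 fun j => ev1 j y hy).mono fun z hz => by simp [hζ, hz]
  have E : ∀ i, Tst fun y => ζ y * c i y := fun i => Z.mul_right (hc i)
  set W : E4 → ℝ := fun y => ∑ i, pd i (pd i fun y => ζ y * c i y) y with hW
  have TW : Tst W := Tst.sum fun i _ => ((E i).pd i).pd i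
  have w0 : ∀ y : E4, 9 / 100 ≤ ‖y‖ → W y = 0 := fun y hy => Finset.sum_eq_zero fun i _ => by
    have k : (fun y => ζ y * c i y) =ᶠ[𝓝 y] fun _ => 0 := (evz y hy).mono fun z hz => by simp [hz]
    exact pd_eq_zero_of_eventually (k.eventuallyEq_nhds.mono fun z hz =>
      pd_eq_zero_of_eventually hz i) i
  have TL := a6L_tst hc X
  obtain ⟨M0, hM0⟩ := Z.cs.exists_bound_of_continuous Z.continuous
  obtain ⟨M1, hM1⟩ := TW.cs.exists_bound_of_continuous TW.continuous
  obtain ⟨M2, hM2⟩ := TL.cs.exists_bound_of_continuous TL.continuous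
  have p0 : 0 ≤ M0 := (norm_nonneg _).trans (hM0 0)
  have p1 : 0 ≤ M1 := (norm_nonneg _).trans (hM1 0)
  refine ⟨3 / 2 + 2 * (6 + 6 * M2 ^ 2 + 96 * (M0 + M1)), by positivity, fun u U => ?_⟩
  have H : Tst fun y => chi r1 y * u y := X.mul_right U.sm
  have LU := a6L_tst hc U
  have G : Tst fun y => a6L c u y ^ 2 + u y ^ 2 := by
    simpa only [sq] using (LU.mul_right LU.sm).add (U.mul_right U.sm)
  have x2 : ∀ y, chi r1 y ^ 2 ≤ 1 := fun y => pow_le_one₀ (h2.nonneg _ _) (h2.le_one _ _)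
  have S1 : Tst fun y => (chi r1 y * u y) ^ 2 := by simpa only [sq] using H.mul_right H.sm
  have S2 : Tst fun y => (chi r1 y * a6L c u y) ^ 2 := by
    simpa only [sq] using (X.mul_right LU.sm).mul_right (X.sm.mul LU.sm)
  have S3 : Tst fun y => (a6L c (chi r1) y * u y) ^ 2 := by
    simpa only [sq] using (TL.mul_right U.sm).mul_right (TL.sm.mul U.sm)
  have S4 : Tst fun y => ∑ i, ζ y * c i y * pd i u y ^ 2 :=
    Tst.sum fun i _ => (E i).mul_right ((U.pd i).sm.pow 2)
  have S5 : Tst fun y => 1 / 2 * W y * u y ^ 2 - ζ y * u y * a6L c u y :=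
    ((TW.const_mul _).mul_right (U.sm.pow 2)).sub ((Z.mul_right U.sm).mul_right LU.sm)
  have A1 := a6_loc (C := 1) (t := 9 / 100) S1 G (fun y hy => by rw [(ev y hy).self_of_nhds]; simp) fun y => by
    nlinarith [x2 y, sq_nonneg (u y), sq_nonneg (a6L c u y)]
  have A2 := a6_loc (C := 1) (t := 9 / 100) S2 G (fun y hy => by rw [(ev y hy).self_of_nhds]; simp) fun y => by
    nlinarith [x2 y, sq_nonneg (u y), sq_nonneg (a6L c u y)]
  have A3 := a6_loc (C := M2 ^ 2) (t := 9 / 100) S3 G (fun y hy => by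
      simp [a6L, fun i => pd_eq_zero_of_eventually (ev1 i y hy) i]) fun y => by
    have k : a6L c (chi r1) y ^ 2 ≤ M2 ^ 2 := by
      rw [← sq_abs]
      exact pow_le_pow_left₀ (abs_nonneg _) (hM2 y) 2
    nlinarith [mul_le_mul_of_nonneg_right k (sq_nonneg (u y)),
      mul_nonneg (sq_nonneg M2) (sq_nonneg (a6L c u y))]
  have A5 := a6_loc (C := M0 + M1) (t := 9 / 100) S5 G (fun y hy => by
      rw [w0 y hy, (evz y hy).self_of_nhds]; simp) fun y => by
    have k0 : ζ y ≤ M0 := (le_abs_self _).trans (hM0 y)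
    have k1 : W y ≤ M1 := (le_abs_self _).trans (hM1 y)
    nlinarith [mul_le_mul_of_nonneg_right k1 (sq_nonneg (u y)),
      mul_nonneg (z0 y) (sq_nonneg (u y + a6L c u y)),
      mul_le_mul_of_nonneg_right k0 (add_nonneg (sq_nonneg (u y)) (sq_nonneg (a6L c u y))),
      mul_nonneg p1 (sq_nonneg (u y)), mul_nonneg p1 (sq_nonneg (a6L c u y)),
      mul_nonneg p0 (add_nonneg (sq_nonneg (u y)) (sq_nonneg (a6L c u y)))]
  have A4 : ∫ y, ∑ i, ζ y * c i y * pd i u y ^ 2 =
      ∫ y, (1 / 2 * W y * u y ^ 2 - ζ y * u y * a6L c u y) := by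
    rw [integral_finsetSum _ fun i _ => ((E i).mul_right ((U.pd i).sm.pow 2)).integrable,
      Finset.sum_congr rfl fun i _ => a6_ibp (E i) U i, ← integral_finsetSum _ fun i _ =>
        ((((((E i).pd i).pd i).const_mul _).mul_right (U.sm.pow 2)).sub
          (((E i).mul_right U.sm).mul_right ((U.pd i).pd i).sm)).integrable]
    refine integral_congr_ae (Eventually.of_forall fun y => ?_)
    simp only [hW, a6L, Fin.sum_univ_four]
    ring
  have D2i : Integrable fun y => D2 (fun y => chi r1 y * u y) y ^ 2 := by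
    have a : ∀ y, D2 (fun y => chi r1 y * u y) y ^ 2 =
        ∑ i, ∑ j, pd i (pd j fun y => chi r1 y * u y) y ^ 2 := fun y =>
      sq_sqrt (Finset.sum_nonneg fun _ _ => Finset.sum_nonneg fun _ _ => sq_nonneg _)
    simp only [a]
    exact integrable_finsetSum _ fun i _ => integrable_finsetSum _ fun j _ =>
      ((H.pd j).pd i).integrable_sq
  have P : ∀ y, lp (fun y => chi r1 y * u y) y ^ 2 ≤ 6 * (chi r1 y * a6L c u y) ^ 2 +
      6 * (a6L c (chi r1) y * u y) ^ 2 + 96 * ∑ i, ζ y * c i y * pd i u y ^ 2 +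
      1 / 50 * D2 (fun y => chi r1 y * u y) y ^ 2 := fun y => by
    have q0 : 0 ≤ ∑ i, ζ y * c i y * pd i u y ^ 2 := Finset.sum_nonneg fun i _ =>
      mul_nonneg (mul_nonneg (z0 y) (c0 i y)) (sq_nonneg _)
    rcases le_or_gt (9 / 100) ‖y‖ with hy | hy
    · have k : lp (fun y => chi r1 y * u y) y = 0 := Finset.sum_eq_zero fun i _ => by
        rw [a6_pd2_mul X U, (ev y hy).self_of_nhds, (ev1 i y hy).self_of_nhds,
          pd_eq_zero_of_eventually (ev1 i y hy) i]
        simp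
      rw [k, zero_pow two_ne_zero]
      positivity
    have k1 : a6L c (fun y => chi r1 y * u y) y = chi r1 y * a6L c u y +
        a6L c (chi r1) y * u y + 2 * ∑ i, c i y * (pd i (chi r1) y * pd i u y) := by
      simp only [a6L, a6_pd2_mul X U, Fin.sum_univ_four]
      ring
    have k2 : (∑ i, c i y * (pd i (chi r1) y * pd i u y)) ^ 2 ≤
        4 * ∑ i, ζ y * c i y * pd i u y ^ 2 := by
      refine sq_sum_le_card_mul_sum_sq.trans ?_
      rw [Finset.card_univ, Fintype.card_fin, Nat.cast_ofNat]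
      refine mul_le_mul_of_nonneg_left (Finset.sum_le_sum fun i _ => ?_) (by norm_num)
      have b1 : pd i (chi r1) y * pd i (chi r1) y ≤ ζ y :=
        Finset.single_le_sum (f := fun j => pd j (chi r1) y * pd j (chi r1) y)
          (fun _ _ => mul_self_nonneg _) (Finset.mem_univ i)
      have b2 : c i y * (pd i (chi r1) y * pd i (chi r1) y) ≤ 1 * ζ y :=
        mul_le_mul (c1 i y hy).2 b1 (mul_self_nonneg _) zero_le_one
      nlinarith [mul_le_mul_of_nonneg_right b2 (mul_nonneg (c0 i y) (sq_nonneg (pd i u y)))]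
    have k3 : |lp (fun y => chi r1 y * u y) y - a6L c (fun y => chi r1 y * u y) y| ≤
        2 / 25 * D2 (fun y => chi r1 y * u y) y := by
      rw [DE.lp, a6L, ← Finset.sum_sub_distrib]
      refine (Finset.abs_sum_le_sum_abs _ _).trans ((Finset.sum_le_sum (g := fun _ =>
        1 / 50 * D2 (fun y => chi r1 y * u y) y) fun i _ => ?_).trans_eq (by simp; ring))
      rw [← one_sub_mul, abs_mul]
      exact mul_le_mul (abs_le.2 ⟨by linarith [(c1 i y hy).2], by linarith [(c1 i y hy).1]⟩)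
        (h2.pd2_le _ i i y) (abs_nonneg _) (by norm_num)
    have k4 := pow_le_pow_left₀ (abs_nonneg _) k3 2
    rw [sq_abs] at k4
    generalize lp (fun y => chi r1 y * u y) y = l at k4 ⊢
    rw [k1] at k4
    generalize chi r1 y * a6L c u y = a at k4 ⊢
    generalize a6L c (chi r1) y * u y = b at k4 ⊢
    generalize ∑ i, c i y * (pd i (chi r1) y * pd i u y) = s at k2 k4
    nlinarith [sq_nonneg (l - 2 * (a + b + 2 * s)), sq_nonneg (a - b), sq_nonneg (a - 2 * s),
      sq_nonneg (b - 2 * s), sq_nonneg (D2 (fun y => chi r1 y * u y) y)]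
  have I := integral_mono (DE.tst_lp H).integrable_sq ((((S2.const_mul 6).add
    (S3.const_mul 6)).add (S4.const_mul 96)).integrable.add (D2i.const_mul (1 / 50))) P
  simp only [Pi.add_apply] at I
  rw [integral_add (((S2.const_mul 6).add (S3.const_mul 6)).add (S4.const_mul 96)).integrable
    (D2i.const_mul _), integral_add ((S2.const_mul 6).add (S3.const_mul 6)).integrable
    (S4.const_mul 96).integrable, integral_add (S2.const_mul 6).integrable
    (S3.const_mul 6).integrable, integral_const_mul, integral_const_mul, integral_const_mul,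
    integral_const_mul, h2.hess _ H, A4] at I
  have n0 : 0 ≤ ∫ y, lp (fun y => chi r1 y * u y) y ^ 2 := integral_nonneg fun _ => sq_nonneg _
  have := a6_grad h2 H
  linarith

end Pool.Agent.MP_417fa2_gt.Q2
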