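import Pool.Agent.MP_417fa2_gt.Q2.ASpec

/-! The representation formula. -/

open scoped Manifold ContDiff Topology
open MeasureTheory Set Metric Real Filter

namespace Pool.Agent.MP_417fa2_gt.Q2

open DE (lp)

namespace A7

theorem le_sqrt {X Y A B N : ℝ} (hA : 0 ≤ A) (hN : 0 ≤ N)
    (h : ∀ l : ℝ, 0 < l → X ≤ Y + (A * l + B * (N / l))) : X ≤ Y + (A + B) * √N := by
  rcases hN.eq_or_lt with rfl | hN
  · rw [sqrt_zero, mul_zero, add_zero]
    refine le_of_forall_pos_le_add fun e he => (h (e / (A + 1)) (by positivity)).trans ?_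
    have : A * (e / (A + 1)) ≤ e := by
      rw [← mul_div_assoc, div_le_iff₀ (by positivity)]
      nlinarith
    simpa using this
  · have := h _ (sqrt_pos.2 hN)
    rw [div_sqrt] at this
    linarith

theorem amgm {m b l : ℝ} (hl : 0 < l) : m * b ≤ l * m ^ 2 + b ^ 2 / l := by
  have : m * b * l ≤ (l * m ^ 2) * l + b ^ 2 := by
    nlinarith [sq_nonneg (l * m - b), sq_nonneg (l * m), sq_nonneg b]
  calc m * b = m * b * l / l := by field_simp
    _ ≤ ((l * m ^ 2) * l + b ^ 2) / l := by gcongr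
    _ = _ := by field_simp

theorem pt {S K n s s1 s2 k1 k2 f1 f2 : ℝ} (hn : 0 < n) (hn1 : n ≤ 1) (hS : 0 ≤ S) (hK : 0 ≤ K)
    (a0 : s ≤ S * n ^ 2) (a1 : s1 ≤ S * n) (a2 : s2 ≤ S) (b1 : k1 ≤ K / n) (b2 : k2 ≤ K / n ^ 2)
    (p1 : 0 ≤ s1) (q1 : 0 ≤ k1) (q2 : 0 ≤ k2) (r1 : 0 ≤ f1) (r2 : 0 ≤ f2) :
    s * k2 * f2 + s1 * (k1 * f2 + k2 * f1) + (s2 + s1 ^ 2) * k1 * f1 ≤
      (2 * S + S ^ 2) * K * (n⁻¹ * f1 + n⁻¹ * f2) := by
  have m1 : 1 ≤ n⁻¹ := (one_le_inv₀ hn).2 hn1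
  have e0 : S * K ≤ S * K * n⁻¹ := le_mul_of_one_le_right (by positivity) m1
  have e1 : s * k2 ≤ S * K * n⁻¹ := by
    refine le_trans ?_ e0
    calc s * k2 ≤ S * n ^ 2 * (K / n ^ 2) := by gcongr
      _ = S * K := by field_simp
  have e2 : s1 * k1 ≤ S * K * n⁻¹ := by
    refine le_trans ?_ e0
    calc s1 * k1 ≤ S * n * (K / n) := by gcongr
      _ = S * K := by field_simp
  have e3 : s1 * k2 ≤ S * K * n⁻¹ := by
    calc s1 * k2 ≤ S * n * (K / n ^ 2) := by gcongr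
      _ = S * K * n⁻¹ := by field_simp
  have e4 : (s2 + s1 ^ 2) * k1 ≤ (S + S ^ 2) * K * n⁻¹ := by
    have : s1 ≤ S := a1.trans (mul_le_of_le_one_right hS hn1)
    calc (s2 + s1 ^ 2) * k1 ≤ (S + S ^ 2) * (K / n) := by gcongr
      _ = _ := by field_simp
  have e5 : 0 ≤ S ^ 2 * K * n⁻¹ * f2 := by positivity
  nlinarith [mul_le_mul_of_nonneg_right e1 r2, mul_le_mul_of_nonneg_right e2 r2,
    mul_le_mul_of_nonneg_right e3 r1, mul_le_mul_of_nonneg_right e4 r1]

theorem int_D1 {φ : E4 → ℝ} (h : Tst φ) : Integrable fun y => D1 φ y ^ 2 := by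
  have e : ∀ y, D1 φ y ^ 2 = ∑ i, pd i φ y ^ 2 := fun y => sq_sqrt (by positivity)
  simp only [e]
  exact integrable_finsetSum _ fun i _ => (h.pd i).integrable_sq

theorem int_D2 {φ : E4 → ℝ} (h : Tst φ) : Integrable fun y => D2 φ y ^ 2 := by
  have e : ∀ y, D2 φ y ^ 2 = ∑ i, ∑ j, pd i (pd j φ) y ^ 2 := fun y => sq_sqrt (by positivity)
  simp only [e]
  exact integrable_finsetSum _ fun i _ => integrable_finsetSum _ fun j _ =>
    ((h.pd j).pd i).integrable_sq

theorem sub1 : closedBall (0 : E4) r0 ⊆ ball 0 1 := closedBall_subset_ball (by norm_num [r0])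

theorem intOn {f : E4 → ℝ} (h : ContinuousOn f (ball 0 1)) : IntegrableOn f (ball 0 r0) :=
  ((h.mono sub1).integrableOn_compact (isCompact_closedBall _ _)).mono_set ball_subset_closedBall

theorem tsupp {f : E4 → ℝ} {t : ℝ} (ht : t < r0) (h : ∀ y, t ≤ ‖y‖ → f y = 0) :
    tsupport f ⊆ ball 0 r0 := by
  refine (closure_minimal (fun y hy => ?_) isClosed_closedBall).trans (closedBall_subset_ball ht)
  by_contra hc
  exact hy (h y (le_of_lt (by simpa using hc)))

theorem lg_le (y : E4) : max (-log ‖y‖) 0 ≤ ‖y‖ ^ (-(1 : ℝ)) := by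
  rw [rpow_neg_one]
  refine max_le ?_ (by positivity)
  rcases (norm_nonneg y).eq_or_lt with h | h
  · simp [← h]
  · rw [← log_inv]
    linarith [log_le_sub_one_of_pos (inv_pos.2 h)]

/-- The main term in a chart. -/
noncomputable def mt (φ : E4 → ℝ) (y : E4) : ℝ := max (-log ‖y‖) 0 * max (pp s0 φ y) 0

theorem s0_sm (hco : CoFacts) : ContDiffOn ℝ ∞ s0 (ball 0 1) := hco.f0_sm.sub hco.h0_sm

theorem mt_int (hco : CoFacts) (hl : LocFacts) (hk : KkFacts) {φ : E4 → ℝ} (hφ : Tst φ) :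
    IntegrableOn (mt φ) (ball 0 r0) := by
  have c : ContinuousOn (fun y => max (pp s0 φ y) 0) (closedBall 0 r0) :=
    (((hl.sm s0 φ φ _ isOpen_ball (s0_sm hco) hφ.sm.contDiffOn
      hφ.sm.contDiffOn).2.1.continuousOn).mono sub1).sup continuousOn_const
  obtain ⟨B, hB⟩ := (isCompact_closedBall (0 : E4) r0).exists_bound_of_continuousOn c
  obtain ⟨C, hC⟩ := hk.pow 1 zero_le_one (by norm_num)
  refine ((hC r0 (by norm_num [r0])).1.mul_const B).mono' ?_ ?_
  · exact ((measurable_norm.log.neg.max measurable_const).aestronglyMeasurable).mul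
      ((c.mono ball_subset_closedBall).aestronglyMeasurable measurableSet_ball)
  · filter_upwards [ae_restrict_mem measurableSet_ball] with y hy
    rw [mt, norm_mul, norm_of_nonneg (le_max_right _ _)]
    exact mul_le_mul (lg_le y) (hB y (ball_subset_closedBall hy)) (norm_nonneg _) (by positivity)

theorem KK_le (hc : ChiFacts) (t ε : ℝ) {y : E4} (hy : y ≠ 0) :
    KK t ε y ≤ 1 / (8 * π ^ 2) * max (-log ‖y‖) 0 := by
  have hn : 0 < ‖y‖ := norm_pos_iff.2 hy
  have h1 : 2 * log ‖y‖ ≤ log (‖y‖ ^ 2 + ε ^ 2) := by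
    have := log_le_log (pow_pos hn 2) (le_add_of_nonneg_right (sq_nonneg ε))
    rwa [log_pow, Nat.cast_ofNat] at this
  have h2 : gam ε y ≤ 1 / (8 * π ^ 2) * max (-log ‖y‖) 0 := by
    have e : gam ε y = 1 / (8 * π ^ 2) * (-(log (‖y‖ ^ 2 + ε ^ 2) / 2)) := by
      rw [gam]
      ring
    rw [e]
    exact mul_le_mul_of_nonneg_left (le_max_of_le_left (by linarith)) (by positivity)
  exact (mul_le_mul_of_nonneg_left h2 (hc.nonneg t y)).trans
    (mul_le_of_le_one_left (by positivity) (hc.le_one t y))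

theorem euc (hco : CoFacts) (hc : ChiFacts) (hp : PertStmt) (hl : LocFacts) (hg : GamFacts)
    (hk : KkFacts) : ∃ C : ℝ, ∀ φ, Tst φ → (∀ y, 2 * r1 ≤ ‖y‖ → φ y = 0) →
      φ 0 ≤ 1 / (8 * π ^ 2) * (∫ y in ball (0 : E4) r1, mt φ y) + C * √(eN 2 φ) := by
  obtain ⟨P, hP⟩ := hp
  obtain ⟨S, hS⟩ := hco.s0_bd
  obtain ⟨K, hK⟩ := hg.cutoff (1 / 100) (by norm_num) (by norm_num)
  obtain ⟨I, hI⟩ := hk.pow 2 (by norm_num) (by norm_num)
  have i2 := (hI r0 (by norm_num [r0])).1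
  have S0 : 0 ≤ S := (sqrt_nonneg _).trans (hS 0 (by norm_num [r0])).2.2.2.2.2
  have K0 : 0 ≤ K := (abs_nonneg _).trans ((hK (1 / 2) (by norm_num) le_rfl).2 0).2.1
  obtain ⟨c, hcc⟩ : ∃ c, c = |P| * ((2 * S + S ^ 2) * K) + K := ⟨_, rfl⟩
  have c0 : 0 ≤ c := by rw [hcc]; positivity
  have J0 : 0 ≤ ∫ y in ball (0 : E4) r0, ‖y‖ ^ (-(2 : ℝ)) := integral_nonneg fun y => by positivity
  refine ⟨3 * c * (∫ y in ball (0 : E4) r0, ‖y‖ ^ (-(2 : ℝ))) + c, fun φ hφ hz => ?_⟩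
  have hN := hc.eN2 φ hφ
  have j0 := hφ.integrable_sq
  have j1 := int_D1 hφ
  have j2 := int_D2 hφ
  have jj : Integrable fun y => φ y ^ 2 + D1 φ y ^ 2 + D2 φ y ^ 2 := (j0.add j1).add j2
  have eN' : eN 2 φ = ∫ y, (φ y ^ 2 + D1 φ y ^ 2 + D2 φ y ^ 2) := by
    have j01 : Integrable fun y => φ y ^ 2 + D1 φ y ^ 2 := j0.add j1
    rw [integral_add j01 j2, integral_add j0 j1, hN]
  have N0 : 0 ≤ eN 2 φ := by
    rw [eN']
    exact integral_nonneg fun y => by positivity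
  refine le_sqrt (by positivity) N0 fun l hl0 => le_of_forall_pos_le_add fun β hβ => ?_
  have tχ : Tst fun y => chi (1 / 100) y * φ y := hφ.mul_left (hc.tst _ (by norm_num)).sm
  obtain ⟨ε, h1, h2⟩ := ((hk.lim _ tχ β hβ).and
    (Ioc_mem_nhdsGT (by norm_num : (0 : ℝ) < 1 / 2))).exists
  obtain ⟨tK, hK⟩ := hK ε h2.1 h2.2
  have h3 := (abs_le.1 (h1 0)).1
  simp only [sub_zero] at h3
  rw [hc.one _ (by norm_num) 0 (by norm_num), one_mul] at h3
  have Kz : ∀ y : E4, 2 * (1 / 100) ≤ ‖y‖ → KK (1 / 100) ε y = 0 := fun y hy => by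
    rw [KK, hc.zero _ (by norm_num) y hy, zero_mul]
  have sm0 := (s0_sm hco).mono (ball_subset_closedBall.trans sub1)
  have w1 := hl.weak s0 _ φ _ isOpen_ball sm0 tK (tsupp (by norm_num [r0]) Kz) hφ.sm.contDiffOn
  have w2 := hl.weak (fun _ => 0) φ _ _ isOpen_ball contDiffOn_const hφ
    (tsupp (by norm_num [r0, r1]) hz) tK.sm.contDiffOn
  have f1 := fun y => (hl.flat (fun _ => 0) φ _ y .rfl (smAt_of hφ.sm y) (smAt_of tK.sm y)).1
  have f2 := fun y => (hl.flat (fun _ => 0) _ φ y .rfl (smAt_of tK.sm y) (smAt_of hφ.sm y)).2.1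
  simp only [f1, f2] at w2
  have ck : Continuous (kk ε) := by
    unfold kk
    refine continuous_const.div (by fun_prop) fun y => ?_
    have := h2.1
    positivity
  have iA : IntegrableOn (fun y => kk ε y * (chi (1 / 100) y * φ y)) (ball 0 r0) :=
    intOn (ck.mul tχ.continuous).continuousOn
  have iB : IntegrableOn (fun y => φ y * lp (lp (KK (1 / 100) ε)) y) (ball 0 r0) :=
    (hφ.integrable_mul (DE.tst_lp (DE.tst_lp tK))).integrableOn
  have iB' : IntegrableOn (fun y => lp φ y * lp (KK (1 / 100) ε) y) (ball 0 r0) :=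
    ((DE.tst_lp hφ).integrable_mul (DE.tst_lp tK)).integrableOn
  have iD : IntegrableOn (bform (Gs s0) (KK (1 / 100) ε) φ) (ball 0 r0) :=
    intOn (hl.sm s0 _ φ _ isOpen_ball (s0_sm hco) tK.sm.contDiffOn hφ.sm.contDiffOn).1.continuousOn
  have iD' : IntegrableOn (fun y => KK (1 / 100) ε y * pp s0 φ y) (ball 0 r0) :=
    intOn (tK.continuous.continuousOn.mul (hl.sm s0 φ φ _ isOpen_ball (s0_sm hco)
      hφ.sm.contDiffOn hφ.sm.contDiffOn).2.1.continuousOn)
  have eA : ∫ y in ball (0 : E4) r0, kk ε y * (chi (1 / 100) y * φ y) =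
      ∫ y, kk ε y * (chi (1 / 100) y * φ y) :=
    setIntegral_eq_integral_of_forall_compl_eq_zero fun y hy => by
      have : r0 ≤ ‖y‖ := by simpa using hy
      rw [hz y (le_trans (by norm_num [r0, r1]) this), mul_zero, mul_zero]
  have r10 : ball (0 : E4) r1 ⊆ ball 0 r0 := ball_subset_ball (by norm_num [r0, r1])
  have m1 : ∫ y in ball (0 : E4) r0, KK (1 / 100) ε y * pp s0 φ y ≤
      1 / (8 * π ^ 2) * ∫ y in ball (0 : E4) r1, mt φ y := by
    rw [setIntegral_eq_of_subset_of_forall_sdiff_eq_zero measurableSet_ball r10 fun y hy => by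
      have : r1 ≤ ‖y‖ := by simpa using hy.2
      rw [Kz y (le_trans (by norm_num [r1]) this), zero_mul], ← integral_const_mul]
    refine setIntegral_mono_on_ae (iD'.mono_set r10)
      (((mt_int hco hl hk hφ).mono_set r10).const_mul _) measurableSet_ball ?_
    filter_upwards [volume.ae_ne (0 : E4)] with y hy _
    rw [mt, ← mul_assoc]
    exact (mul_le_mul_of_nonneg_left (le_max_left _ 0) (hK y).1).trans
      (mul_le_mul_of_nonneg_right (KK_le hc _ _ hy) (le_max_right _ _))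
  have m2 : ∫ y in ball (0 : E4) r0, ((kk ε y * (chi (1 / 100) y * φ y) -
      φ y * lp (lp (KK (1 / 100) ε)) y) + (lp φ y * lp (KK (1 / 100) ε) y -
        bform (Gs s0) (KK (1 / 100) ε) φ y)) ≤ ∫ y in ball (0 : E4) r0,
      (3 * c * l * ‖y‖ ^ (-(2 : ℝ)) + c / l * (φ y ^ 2 + D1 φ y ^ 2 + D2 φ y ^ 2)) := by
    refine setIntegral_mono_on_ae ((iA.sub iB).add (iB'.sub iD))
      ((i2.const_mul _).add (jj.integrableOn.const_mul _)) measurableSet_ball ?_
    filter_upwards [volume.ae_ne (0 : E4)] with y hy hb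
    have hn : 0 < ‖y‖ := norm_pos_iff.2 hy
    have hb' : ‖y‖ < r0 := by simpa using hb
    have hn1 : ‖y‖ ≤ 1 := hb'.le.trans (by norm_num [r0])
    obtain ⟨-, -, a0, a0', a1, a2⟩ := hS y hb'.le
    obtain ⟨b1, b2⟩ := (hK y).2.2 hy
    have d1 : 0 ≤ D1 φ y := sqrt_nonneg _
    have d2 : 0 ≤ D2 φ y := sqrt_nonneg _
    have u1 := hP s0 _ φ y (smAt_of_on isOpen_ball hb sm0) (smAt_of tK.sm y) (smAt_of hφ.sm y)
      (a0'.trans (by norm_num))
    have u2 := pt hn hn1 S0 K0 a0 a1 a2 b1 b2 (sqrt_nonneg _) (sqrt_nonneg _) (sqrt_nonneg _) d1 d2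
    have u3 := u1.trans ((mul_le_mul_of_nonneg_right (le_abs_self P) (by
      have : 0 ≤ D1 s0 y := sqrt_nonneg _
      have : 0 ≤ D2 s0 y := sqrt_nonneg _
      have : 0 ≤ D1 (KK (1 / 100) ε) y := sqrt_nonneg _
      have : 0 ≤ D2 (KK (1 / 100) ε) y := sqrt_nonneg _
      positivity)).trans (mul_le_mul_of_nonneg_left u2 (abs_nonneg P)))
    have u4 : kk ε y * (chi (1 / 100) y * φ y) - φ y * lp (lp (KK (1 / 100) ε)) y ≤
        K * (‖y‖⁻¹ * |φ y|) := by
      have e : kk ε y * (chi (1 / 100) y * φ y) - φ y * lp (lp (KK (1 / 100) ε)) y =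
          -((lp (lp (KK (1 / 100) ε)) y - chi (1 / 100) y * kk ε y) * φ y) := by ring
      rw [e]
      refine (neg_le_abs _).trans ?_
      rw [abs_mul]
      exact mul_le_mul (hK y).2.1 (le_mul_of_one_le_left (abs_nonneg _) ((one_le_inv₀ hn).2 hn1))
        (abs_nonneg _) K0
    have e2 : ‖y‖ ^ (-(2 : ℝ)) = ‖y‖⁻¹ ^ 2 := by rw [rpow_neg hn.le, rpow_two, inv_pow]
    have v0 := amgm (m := ‖y‖⁻¹) (b := |φ y|) hl0
    have v1 := amgm (m := ‖y‖⁻¹) (b := D1 φ y) hl0
    have v2 := amgm (m := ‖y‖⁻¹) (b := D2 φ y) hl0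
    rw [sq_abs] at v0
    have u5 := (abs_le.1 u3).1
    have x0 : 0 ≤ ‖y‖⁻¹ * |φ y| := by positivity
    have x1 : 0 ≤ ‖y‖⁻¹ * D1 φ y := by positivity
    have x2 : 0 ≤ ‖y‖⁻¹ * D2 φ y := by positivity
    have q0 : 0 ≤ |P| * ((2 * S + S ^ 2) * K) := by positivity
    have e3 : 3 * c * l * ‖y‖ ^ (-(2 : ℝ)) + c / l * (φ y ^ 2 + D1 φ y ^ 2 + D2 φ y ^ 2) =
        c * ((l * ‖y‖⁻¹ ^ 2 + φ y ^ 2 / l) + (l * ‖y‖⁻¹ ^ 2 + D1 φ y ^ 2 / l) +
          (l * ‖y‖⁻¹ ^ 2 + D2 φ y ^ 2 / l)) := by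
      rw [e2]
      ring
    rw [e3]
    refine le_trans ?_ (mul_le_mul_of_nonneg_left (add_le_add (add_le_add v0 v1) v2) c0)
    rw [hcc]
    nlinarith [mul_nonneg q0 x0, mul_nonneg K0 x1, mul_nonneg K0 x2]
  have iAB : IntegrableOn (fun y => kk ε y * (chi (1 / 100) y * φ y) -
    φ y * lp (lp (KK (1 / 100) ε)) y) (ball 0 r0) := iA.sub iB
  have iBD : IntegrableOn (fun y => lp φ y * lp (KK (1 / 100) ε) y -
    bform (Gs s0) (KK (1 / 100) ε) φ y) (ball 0 r0) := iB'.sub iD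
  rw [integral_add iAB iBD, integral_sub iA iB, integral_sub iB' iD,
    integral_add (i2.const_mul _) (jj.integrableOn.const_mul _), integral_const_mul,
    integral_const_mul, eA] at m2
  have m3 : ∫ y in ball (0 : E4) r0, (φ y ^ 2 + D1 φ y ^ 2 + D2 φ y ^ 2) ≤ eN 2 φ := by
    rw [eN']
    exact setIntegral_le_integral jj (.of_forall fun y => by positivity)
  have m4 := mul_le_mul_of_nonneg_left m3 (div_nonneg c0 hl0.le)
  have e4 : c / l * eN 2 φ = c * (eN 2 φ / l) := by ring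
  linarith

end A7

theorem repStmt (hco : CoFacts) (hc : ChiFacts) (hp : PertStmt) (hl : LocFacts) (hg : GamFacts)
    (hk : KkFacts) (hB : BStmt) (hV : VolsStmt) : RepStmt := by
  intro M _ _ _ _ _ _ _ X
  obtain ⟨C, hC⟩ := A7.euc hco hc hp hl hg hk
  have B := hB M X
  have V := hV M X
  refine ⟨C, fun v hv x => ?_⟩
  have r1p : 0 < r1 := by norm_num [r1]
  have r10 : r1 < r0 := by norm_num [r0, r1]
  have tφ := B.loc_tst x v hv
  have h := hC _ tφ fun y hy => by rw [loc, hc.zero _ r1p y hy, zero_mul]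
  have e0 : loc x v 0 = v x := by
    rw [loc, hc.one _ r1p 0 (by simpa using r1p.le), one_mul, ← X.hd.ctr x, param,
      (chartAt E4 x).left_inv (mem_chart_source E4 x)]
  rw [e0] at h
  refine h.trans (add_le_add (mul_le_mul_of_nonneg_left ?_ (by positivity)) le_rfl)
  have cd : Continuous fun z => X.d x z := X.hd.cont.comp (Continuous.prodMk_right x)
  have cP : Continuous fun z => max (paneitz X.g v z) 0 :=
    (paneitz_smooth X.g hv).continuous.max continuous_const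
  have mf : Measurable fun z => ell X.d x z * max (paneitz X.g v z) 0 :=
    (cd.measurable.log.neg.max measurable_const).mul cP.measurable
  obtain ⟨c1, c2⟩ := V.chart x r1 r10.le _ mf
  have e : EqOn (fun y => ell X.d x (param x y) * max (paneitz X.g v (param x y)) 0 * rh y)
      (A7.mt (loc x v)) (ball 0 r1) := fun y hy => by
    have hy1 : ‖y‖ < r1 := by simpa using hy
    have hy0 : ‖y‖ < r0 := hy1.trans r10
    have sub : ball (0 : E4) r1 ⊆ ball 0 1 := ball_subset_ball (by norm_num [r1])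
    have g1 : gmat X.g x =ᶠ[𝓝 y] blk f0 h0 := by
      filter_upwards [isOpen_ball.mem_nhds hy] with z hz
      have hz1 : ‖z‖ < r1 := by simpa using hz
      simpa using X.blk x z (hz1.trans r10)
    have g2 : v ∘ param x =ᶠ[𝓝 y] loc x v := by
      filter_upwards [isOpen_ball.mem_nhds hy] with z hz
      have hz1 : ‖z‖ < r1 := by simpa using hz
      rw [loc, hc.one _ r1p z hz1.le, one_mul, Function.comp]
    have g3 := (hl.conf f0 h0 _ _ isOpen_ball hco.f0_sm hco.h0_sm tφ.sm.contDiffOn y (sub hy)).1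
    have g4 : paneitz X.g v (param x y) = pan (blk f0 h0) (loc x v) y := by
      rw [paneitz_chart X.g hv (by rw [X.hd.tgt]; simpa using hy0)]
      exact (hl.congr' _ _ _ _ y g1 g2).2.2.1
    rw [hco.dens_blk] at g3
    have g5 : pp s0 (loc x v) y = rh y * pan (blk f0 h0) (loc x v) y := g3.symm
    have g6 : 0 ≤ rh y := (exp_pos _).le
    simp only [A7.mt, ell]
    rw [X.hd.par x y hy0, g4, g5, mul_assoc, mul_comm _ (rh y), mul_max_of_nonneg _ _ g6, mul_zero]
  have := V.fin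
  have ms : MeasurableSet {z | X.d x z < r1} := (isOpen_lt cd continuous_const).measurableSet
  have i1 := c1.2 (((A7.mt_int hco hl hk tφ).mono_set (ball_subset_ball r10.le)).congr_fun e.symm
    measurableSet_ball)
  obtain ⟨Q, hQ⟩ := isCompact_univ.exists_bound_of_continuousOn cP.continuousOn
  have i2 : IntegrableOn (fun z => ell X.d x z * max (paneitz X.g v z) 0) {z | X.d x z < r1}ᶜ X.μ := by
    refine (integrable_const (max (-log r1) 0 * Q)).mono' mf.aestronglyMeasurable ?_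
    filter_upwards [ae_restrict_mem ms.compl] with z hz
    have hz1 : r1 ≤ X.d x z := not_lt.1 hz
    rw [norm_mul, ell, norm_of_nonneg (le_max_right _ _)]
    exact mul_le_mul (max_le_max (neg_le_neg (log_le_log r1p hz1)) le_rfl) (hQ z trivial)
      (norm_nonneg _) (le_max_right _ _)
  have i3 := i1.union i2
  rw [union_compl_self, integrableOn_univ] at i3
  rw [← setIntegral_congr_fun measurableSet_ball e, ← c2]
  exact setIntegral_le_integral i3 (.of_forall fun z => mul_nonneg (le_max_right _ _)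
    (le_max_right _ _))

end Pool.Agent.MP_417fa2_gt.Q2
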