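import Pool.Agent.MP_417fa2_gt.Q2.ASpec

/-! The dual inequality. -/

open scoped Manifold ContDiff Topology
open MeasureTheory Set Metric Real Filter

namespace Pool.Agent.MP_417fa2_gt.Q2

namespace A8X

theorem amgm {x a Q : ℝ} (ha : 0 ≤ a) (hQ : 0 < Q) (h : ∀ s, 0 < s → 2 * x ≤ s * a + Q / s) :
    x ≤ √Q * √a := by
  rcases ha.eq_or_lt with rfl | ha
  · by_contra hx
    rw [Real.sqrt_zero, mul_zero, not_le] at hx
    have := h (Q / x) (by positivity)
    rw [mul_zero, zero_add, div_div_cancel₀ hQ.ne'] at this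
    linarith
  · have a1 := Real.sqrt_pos.2 ha
    have a2 := Real.sqrt_pos.2 hQ
    have := h (√Q / √a) (by positivity)
    have e1 : √Q / √a * a = √Q * √a := by
      rw [div_mul_eq_mul_div, mul_div_assoc, Real.div_sqrt]
    have e2 : Q / (√Q / √a) = √Q * √a := by
      rw [div_div_eq_mul_div, mul_div_right_comm, Real.div_sqrt]
    linarith

theorem two_mul_le (a b : ℝ) {t : ℝ} (ht : 0 < t) : 2 * (a * b) ≤ t * a ^ 2 + b ^ 2 / t := by
  have h : 0 ≤ (t * a - b) ^ 2 / t := by positivity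
  have e : (t * a - b) ^ 2 / t = t * a ^ 2 + b ^ 2 / t - 2 * (a * b) := by field_simp; ring
  linarith

theorem solve {M : Type} [TopologicalSpace M] [T2Space M] [CompactSpace M] [ChartedSpace E4 M]
    [IsManifold (𝓡 4) ∞ M] [MeasurableSpace M] [BorelSpace M] (X : L0 M) (vf : VFacts X)
    (ch : Ch X) {η : ℝ} (hη : 0 < η) {f : M → ℝ} (hf : Smooth f) :
    ∃ u, Smooth u ∧ Smooth (paneitz X.g u) ∧ ∀ x, η * u x + paneitz X.g u x = f x := by
  obtain ⟨c0, C, -, hC⟩ := ch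
  have := vf.pos
  have good : (setupOf X.g).Good := by
    refine ⟨fun φ hφ => ?_, fun φ hφ h0 => ?_⟩
    · rw [setupOf_P _ hφ]
      exact (c0 φ hφ).2.1
    · rw [setupOf_P _ hφ] at h0
      have h1 := (hC φ hφ).2
      have h2 : X.nn φ = 0 := by simp [L0.nn, Bf, h0]
      have c := ((c0 φ hφ).1.pow 2).continuous
      have h3 := (integral_eq_zero_iff_of_nonneg (fun x => sq_nonneg (X.z φ x))
        ((setupOf X.g).integrable c)).1 (le_antisymm (by rw [h2, mul_zero] at h1; exact h1)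
          (integral_nonneg fun x => sq_nonneg _))
      have h4 := (Continuous.ae_eq_iff_eq X.μ c continuous_zero).1 h3
      exact ⟨_, fun x => sub_eq_zero.1 (pow_eq_zero_iff two_ne_zero |>.1 (congrFun h4 x))⟩
  obtain ⟨F⟩ := exists_frame (M := M)
  have hA := agm agmE M (setupOf X.g) F
  obtain ⟨u, hu, e⟩ := surj M _ F good (MP_417fa2_gt.ell M _ F) (mulStmt M _ F) (itp M _ F) hA
    (denseL denseE M _ F) (cpt M _ F hA) (fun _ => η) contMDiff_const (fun _ => hη) f hf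
  have s := (setupOf X.g).P_smooth hu
  rw [setupOf_P _ hu] at e s
  exact ⟨u, hu, s, e⟩

end A8X

open A8X

theorem dualStmt (h1 : BfStmt) (h2 : VolsStmt) (h3 : KIntStmt) (h4 : ChStmt) (h5 : RepStmt) :
    DualStmt := by
  intro M _ _ _ _ _ _ _ X κ hκ
  have bf := h1 M X.g
  have vf := h2 M X
  have ki := h3 M X
  have chh := h4 M X
  obtain ⟨ch, C₁, c1, hC₁⟩ := h4 M X
  obtain ⟨C₂, hC₂⟩ := h5 M X
  obtain ⟨C₃, c3, hC₃⟩ := ki.pow 2 zero_le_two (by norm_num)
  have := vf.fin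
  have ci : ∀ {f : M → ℝ}, Smooth f → Integrable f X.μ := fun hf =>
    (setupOf X.g).integrable hf.continuous
  obtain ⟨η, hη⟩ : ∃ η, η = κ / (2 * C₁) := ⟨_, rfl⟩
  obtain ⟨ε, hε⟩ : ∃ ε, ε = κ / (2 * (1 + κ)) := ⟨_, rfl⟩
  have η0 : 0 < η := by rw [hη]; positivity
  have ε0 : 0 < ε := by rw [hε]; positivity
  have e1 : η * C₁ = κ / 2 := by rw [hη]; field_simp
  have e2 : (1 + κ) * (1 - ε) = 1 + κ / 2 := by rw [hε]; field_simp; ring
  obtain ⟨K, hK⟩ : ∃ K, K = η * C₃ / (2 * ε) + C₂ ^ 2 * C₁ / (2 * ε) := ⟨_, rfl⟩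
  have K0 : 0 < K := by rw [hK]; positivity
  have p8 : 1 ≤ 8 * π ^ 2 := by nlinarith [Real.pi_gt_three]
  refine ⟨(1 + κ) * K, by positivity, fun ρ hρ ρ0 ρ1 v hv => ?_⟩
  obtain ⟨hw, a0, a1⟩ := ch v hv
  obtain ⟨u, hu, hP, e⟩ := solve X vf chh η0 (ch ρ hρ).1
  have one : Smooth fun _ : M => (1 : ℝ) := contMDiff_const
  have zz : ∀ φ, Smooth φ → ∫ x, X.z φ x ∂X.μ = 0 := fun φ hφ =>
    integral_sub_average X.μ φ
  have key : ∀ φ, Smooth φ → ∫ x, φ x * X.z ρ x ∂X.μ =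
      η * ∫ x, φ x * u x ∂X.μ + Bf X.g φ u := fun φ hφ => by
    rw [← integral_const_mul, Bf, ← L0.μ, ← integral_add ((ci (hφ.mul hu)).const_mul _)
      (ci (hφ.mul hP))]
    refine integral_congr_ae (ae_of_all _ fun x => ?_)
    simp only [← e x]
    ring
  have u0 : ∫ x, u x ∂X.μ = 0 := by
    have k := key _ one
    have b := bf.lin u u u hu hu hu 0 0 1
    simp only [zero_mul, add_zero, zero_add] at b
    rw [bf.symm _ _ one hu, b] at k
    simp only [one_mul, add_zero, zz ρ hρ] at k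
    exact (mul_eq_zero.1 k.symm).resolve_left η0.ne'
  have zu : X.z u = u := by
    funext x
    simp [L0.z, average_eq, u0]
  have kz : ∀ φ, Smooth φ → ∫ x, φ x ∂X.μ = 0 → ∫ x, φ x * ρ x ∂X.μ =
      η * ∫ x, φ x * u x ∂X.μ + Bf X.g φ u := fun φ hφ h0 => by
    rw [← key φ hφ]
    simp only [L0.z, mul_sub]
    rw [integral_sub (ci (hφ.mul hρ)) ((ci hφ).mul_const _), integral_mul_const, h0, zero_mul,
      sub_zero]
  have b0 : 0 ≤ X.nn u := (ch u hu).2.1
  have d0 : 0 ≤ ∫ x, u x ^ 2 ∂X.μ := integral_nonneg fun x => sq_nonneg _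
  have m0 : 0 ≤ ⨍ x, ρ x ∂X.μ := integral_nonneg ρ0
  have l0 : ∀ x y, 0 ≤ ell X.d x y := fun x y => le_max_right _ _
  obtain ⟨i1, -, ⟨D, i3⟩, i4⟩ := ki.int 1 one_pos le_rfl ρ hρ.continuous
  simp only [ki.lgn_one] at i1 i3 i4
  have pt : ∀ x, u x ≤ (∫ y, ell X.d y x * ρ y ∂X.μ) / (8 * π ^ 2) +
      (ε * (η * ∫ x, u x ^ 2 ∂X.μ + X.nn u) + K) := fun x => by
    have r := hC₂ u hu x
    have j := (hC₃ x).1
    have j' : Integrable (fun y => η * ε / 2 * u y ^ 2 + η / (2 * ε) * X.d x y ^ (-(2 : ℝ))) X.μ :=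
      ((ci (hu.pow 2)).const_mul _).add (j.const_mul _)
    have r1 : ∫ y, ell X.d x y * max (paneitz X.g u y) 0 ∂X.μ ≤
        ∫ y, (ell X.d y x * ρ y + (η * ε / 2 * u y ^ 2 + η / (2 * ε) * X.d x y ^ (-(2 : ℝ))))
          ∂X.μ := by
      refine integral_mono_of_nonneg (ae_of_all _ fun y => mul_nonneg (l0 _ _) (le_max_right _ _))
        ((i1 x).add j') (ae_of_all _ fun y => ?_)
      have s1 : ell X.d y x = ell X.d x y := by rw [ell, ell, X.hd.symm]
      have s2 : max (paneitz X.g u y) 0 ≤ ρ y + η * |u y| := by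
        have := e y
        simp only [L0.z] at this
        refine max_le ?_ (add_nonneg (ρ0 y) (by positivity))
        nlinarith [mul_le_mul_of_nonneg_left (neg_le_abs (u y)) η0.le]
      have s3 : ell X.d x y ^ 2 ≤ X.d x y ^ (-(2 : ℝ)) := by
        refine (pow_le_pow_left₀ (l0 x y) (ki.lgn_le 1 one_pos le_rfl x y).2.2 2).trans_eq ?_
        rw [← Real.rpow_natCast, ← Real.rpow_mul (X.hd.nonneg x y)]
        norm_num
      have s4 := two_mul_le |u y| (ell X.d x y) ε0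
      rw [sq_abs] at s4
      have s5 := mul_le_mul_of_nonneg_left s2 (l0 x y)
      have s6 := mul_le_mul_of_nonneg_left (s4.trans (add_le_add le_rfl
        (div_le_div_of_nonneg_right s3 ε0.le))) η0.le
      have s7 : η / (2 * ε) * X.d x y ^ (-(2 : ℝ)) = η * (X.d x y ^ (-(2 : ℝ)) / ε) / 2 := by
        field_simp
      simp only [s1, s7]
      linarith
    rw [integral_add (i1 x) j',
      integral_add ((ci (hu.pow 2)).const_mul _) (j.const_mul _), integral_const_mul,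
      integral_const_mul] at r1
    have r2 := mul_le_mul_of_nonneg_left (hC₃ x).2.1 (show 0 ≤ η / (2 * ε) by positivity)
    have r3 : C₂ * √(eN 2 (loc x u)) ≤ ε * X.nn u + C₂ ^ 2 * C₁ / (2 * ε) := by
      have t1 := (hC₁ u hu).1 x
      rw [zu] at t1
      have t2 := two_mul_le (√(C₁ * X.nn u)) |C₂| (show 0 < ε / C₁ by positivity)
      rw [Real.sq_sqrt (by positivity), sq_abs] at t2
      have t3 : C₂ * √(eN 2 (loc x u)) ≤ √(C₁ * X.nn u) * |C₂| := by
        rw [mul_comm]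
        exact (mul_le_mul_of_nonneg_left (le_abs_self _) (Real.sqrt_nonneg _)).trans
          (mul_le_mul_of_nonneg_right (Real.sqrt_le_sqrt t1) (abs_nonneg _))
      have t4 : ε / C₁ * (C₁ * X.nn u) = ε * X.nn u := by field_simp
      have t5 : C₂ ^ 2 / (ε / C₁) = 2 * (C₂ ^ 2 * C₁ / (2 * ε)) := by field_simp
      nlinarith [mul_nonneg ε0.le b0]
    have r4 : 0 ≤ η * ε / 2 * ∫ x, u x ^ 2 ∂X.μ + η / (2 * ε) * C₃ := by positivity
    have r5 := div_le_self r4 p8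
    have r6 : 1 / (8 * π ^ 2) * ∫ y, ell X.d x y * max (paneitz X.g u y) 0 ∂X.μ ≤
        (∫ y, ell X.d y x * ρ y ∂X.μ) / (8 * π ^ 2) +
          (η * ε / 2 * ∫ x, u x ^ 2 ∂X.μ + η / (2 * ε) * C₃) / (8 * π ^ 2) := by
      rw [← add_div, one_div, ← div_eq_inv_mul]
      exact div_le_div_of_nonneg_right (by linarith) (by positivity)
    have r7 : η / (2 * ε) * C₃ = η * C₃ / (2 * ε) := by ring
    have r8 : 0 ≤ ε * η * ∫ x, u x ^ 2 ∂X.μ := by positivity
    rw [hK]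
    linarith
  have ku := kz u hu u0
  simp only [← sq] at ku
  change _ = _ + X.nn u at ku
  have j1 : Integrable (fun y => ρ y * ∫ x, ell X.d x y * ρ x ∂X.μ) X.μ :=
    (ci hρ).mul_bdd i4.aestronglyMeasurable (ae_of_all _ i3)
  have En0 : 0 ≤ En X.d X.μ ρ := integral_nonneg fun y =>
    mul_nonneg (ρ0 y) (integral_nonneg fun x => mul_nonneg (l0 _ _) (ρ0 x))
  obtain ⟨B, hB⟩ : ∃ B, B = η * ∫ x, u x ^ 2 ∂X.μ + X.nn u := ⟨_, rfl⟩
  have B0 : 0 ≤ B := by rw [hB]; positivity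
  rw [← hB] at ku
  simp only [← hB] at pt
  have bb : B ≤ En X.d X.μ ρ / (8 * π ^ 2) + (ε * B + K) := by
    have t1 : ∫ x, u x * ρ x ∂X.μ ≤ ∫ y, ((ρ y * ∫ x, ell X.d x y * ρ x ∂X.μ) / (8 * π ^ 2) +
        (ε * B + K) * ρ y) ∂X.μ :=
      integral_mono (ci (hu.mul hρ)) ((j1.div_const _).add ((ci hρ).const_mul _)) fun y => by
        have := mul_le_mul_of_nonneg_right (pt y) (ρ0 y)
        simp only
        rw [mul_div_assoc]
        linarith
    rw [integral_add (j1.div_const _) ((ci hρ).const_mul _), integral_div, integral_const_mul,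
      ku] at t1
    have t2 := mul_le_of_le_one_right (show 0 ≤ ε * B + K by positivity) ρ1
    exact t1.trans (add_le_add le_rfl t2)
  have hQ : (1 + κ / 2) * B ≤ (1 + κ) * En X.d X.μ ρ / (8 * π ^ 2) + (1 + κ) * K := by
    have := mul_le_mul_of_nonneg_left bb (show 0 ≤ 1 + κ by positivity)
    rw [← e2, mul_div_assoc]
    linarith
  refine amgm a0 (by positivity) fun s hs => ?_
  obtain ⟨t, ht⟩ : ∃ t, t = s / (1 + κ / 2) := ⟨_, rfl⟩
  have t0 : 0 < t := by rw [ht]; positivity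
  have q1 : 2 * Bf X.g (X.z v) u ≤ t * X.nn v + X.nn u / t := by
    have c := (le_abs_self _).trans (bf.cs (fun φ hφ => (ch φ hφ).2.1) _ _ hw hu)
    change _ ≤ √(X.nn (X.z v)) * √(X.nn u) at c
    have := two_mul_le (√(X.nn v)) (√(X.nn u)) t0
    rw [Real.sq_sqrt a0, Real.sq_sqrt b0] at this
    rw [a1] at c
    linarith
  have q2 : 2 * ∫ x, X.z v x * u x ∂X.μ ≤
      t * ∫ x, X.z v x ^ 2 ∂X.μ + (∫ x, u x ^ 2 ∂X.μ) / t := by
    rw [← integral_const_mul, ← integral_const_mul, ← integral_div, ← integral_add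
      ((ci (hw.pow 2)).const_mul _) ((ci (hu.pow 2)).div_const _)]
    exact integral_mono ((ci (hw.mul hu)).const_mul _)
      (((ci (hw.pow 2)).const_mul _).add ((ci (hu.pow 2)).div_const _)) fun x => two_mul_le _ _ t0
  have q3 := mul_le_mul_of_nonneg_left (hC₁ v hv).2 (mul_pos η0 t0).le
  have q4 := mul_le_mul_of_nonneg_left q2 η0.le
  have q5 : B / t ≤ ((1 + κ) * En X.d X.μ ρ / (8 * π ^ 2) + (1 + κ) * K) / s := by
    refine le_trans (le_of_eq ?_) (div_le_div_of_nonneg_right hQ hs.le)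
    rw [ht]
    field_simp
  have q6 : s = t * (1 + η * C₁) := by rw [e1, ht]; field_simp
  have q7 : B / t = η * ((∫ x, u x ^ 2 ∂X.μ) / t) + X.nn u / t := by rw [hB]; ring
  rw [kz _ hw (zz v hv)]
  have q8 : s * X.nn v = t * X.nn v + η * t * (C₁ * X.nn v) := by rw [q6]; ring
  linarith

end Pool.Agent.MP_417fa2_gt.Q2
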