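import Pool.Agent.MP_417fa2_gt.Q2.ASpec

/-! A9. The entropy inequality under a local mass bound. -/

open scoped Manifold ContDiff Topology
open MeasureTheory Set Metric Real Filter

namespace Pool.Agent.MP_417fa2_gt.Q2

namespace A9

section General

variable {M : Type} [MeasurableSpace M] {μ : Measure M}

/-- Jensen's inequality for the exponential with an extra atom at zero. -/
theorem exp_integral_le_atom {m : ℝ} (hm : 0 < m) {w f h : M → ℝ} (hw : Integrable w μ)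
    (hw0 : ∀ x, 0 ≤ w x) (hwm : ∫ x, w x ∂μ ≤ m) (hf : Integrable (fun x => f x * w x) μ)
    (hh : Integrable h μ) (hle : ∀ᵐ x ∂μ, exp (m * f x) * w x ≤ h x) :
    exp (∫ x, f x * w x ∂μ) ≤ 1 + m⁻¹ * ∫ x, h x ∂μ := by
  set c := ∫ x, f x * w x ∂μ with hc
  set s := ∫ x, w x ∂μ with hs
  have hs0 : 0 ≤ s := integral_nonneg hw0
  have h1 : ∫ x, (exp c * (1 - c) * w x + exp c * m * (f x * w x)) ∂μ ≤ ∫ x, h x ∂μ := by
    refine integral_mono_ae ((hw.const_mul _).add (hf.const_mul _)) hh ?_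
    filter_upwards [hle] with x hx
    refine le_trans ?_ hx
    have h2 : exp c * (1 + (m * f x - c)) ≤ exp (m * f x) := by
      have h3 := add_one_le_exp (m * f x - c)
      have h4 : exp (m * f x) = exp c * exp (m * f x - c) := by
        rw [← exp_add]; congr 1; ring
      rw [h4]
      exact mul_le_mul_of_nonneg_left (by linarith) (exp_pos _).le
    have h5 := mul_le_mul_of_nonneg_right h2 (hw0 x)
    nlinarith [h5]
  rw [integral_add (hw.const_mul _) (hf.const_mul _), integral_const_mul, integral_const_mul,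
    ← hc, ← hs] at h1
  have h6 : exp c * (1 - c) ≤ 1 := by
    have h3 := add_one_le_exp (-c)
    have h4 : exp c * exp (-c) = 1 := by rw [← exp_add]; simp
    have h5 := mul_le_mul_of_nonneg_left h3 (exp_pos c).le
    nlinarith [h5]
  have h7 : m * exp c ≤ m + ∫ x, h x ∂μ := by
    have h8 := mul_le_mul_of_nonneg_left h6 (sub_nonneg.2 hwm)
    nlinarith [h8]
  have h9 : exp c = m⁻¹ * (m * exp c) := by field_simp
  have h10 : 1 + m⁻¹ * ∫ x, h x ∂μ = m⁻¹ * (m + ∫ x, h x ∂μ) := by field_simp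
  rw [h10, h9]
  exact mul_le_mul_of_nonneg_left h7 (inv_pos.2 hm).le

/-- The Gibbs inequality with a majorant of the exponential. -/
theorem gibbs_major {ρ φ G : M → ℝ} {K : ℝ} (hK : 0 < K) (hρ : Integrable ρ μ)
    (hρ0 : ∀ x, 0 < ρ x) (hρ1 : ∫ x, ρ x ∂μ = 1) (hφ : Integrable (fun x => φ x * ρ x) μ)
    (hl : Integrable (fun x => ρ x * log (ρ x)) μ) (hG : Integrable G μ)
    (hle : ∀ᵐ x ∂μ, exp (φ x) ≤ G x) (hGK : ∫ x, G x ∂μ ≤ K) :
    (∫ x, φ x * ρ x ∂μ) - ∫ x, ρ x * log (ρ x) ∂μ ≤ log K := by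
  have hd : Integrable (fun x => φ x * ρ x - ρ x * log (ρ x)) μ := hφ.sub hl
  have h1 : ∫ x, (φ x * ρ x - ρ x * log (ρ x) + (1 - log K) * ρ x) ∂μ ≤ ∫ x, K⁻¹ * G x ∂μ := by
    refine integral_mono_ae (hd.add (hρ.const_mul _)) (hG.const_mul _) ?_
    filter_upwards [hle] with x hx
    have h2 := add_one_le_exp (φ x - log (ρ x) - log K)
    have h3 : exp (φ x - log (ρ x) - log K) * ρ x = K⁻¹ * exp (φ x) := by
      rw [exp_sub, exp_sub, exp_log (hρ0 x), exp_log hK]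
      have := (hρ0 x).ne'
      field_simp
    have h4 := mul_le_mul_of_nonneg_right h2 (hρ0 x).le
    have h5 := mul_le_mul_of_nonneg_left hx (inv_pos.2 hK).le
    nlinarith [h4]
  rw [integral_add hd (hρ.const_mul _), integral_sub hφ hl, integral_const_mul,
    integral_const_mul, hρ1] at h1
  have h6 : K⁻¹ * ∫ x, G x ∂μ ≤ 1 := by
    rw [inv_mul_le_iff₀ hK]; linarith
  linarith

/-- A kernel against a probability density. -/
theorem kernel_density [SFinite μ] {k : M → M → ℝ} {ρ : M → ℝ} {K B : ℝ}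
    (hk : Integrable (fun p : M × M => k p.1 p.2) (μ.prod μ)) (hρm : Measurable ρ)
    (hρ0 : ∀ x, 0 ≤ ρ x) (hρB : ∀ x, ρ x ≤ B) (hρ : Integrable ρ μ) (hρ1 : ∫ x, ρ x ∂μ ≤ 1)
    (hK0 : 0 ≤ K) (hK : ∀ x, ∫ y, k x y ∂μ ≤ K) :
    Integrable (fun y => ∫ x, k x y * ρ x ∂μ) μ ∧ ∫ y, ∫ x, k x y * ρ x ∂μ ∂μ ≤ K := by
  have h1 : Integrable (fun p : M × M => k p.1 p.2 * ρ p.1) (μ.prod μ) := by
    refine hk.mul_bdd (c := B) (hρm.comp measurable_fst).aestronglyMeasurable ?_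
    exact Eventually.of_forall fun p => by rw [Real.norm_of_nonneg (hρ0 _)]; exact hρB _
  refine ⟨h1.integral_prod_right, ?_⟩
  have h2 := integral_integral_swap (f := fun x y => k x y * ρ x) (μ := μ) (ν := μ) h1
  rw [← h2]
  have h3 : ∫ x, ∫ y, k x y * ρ x ∂μ ∂μ ≤ ∫ x, K * ρ x ∂μ := by
    refine integral_mono h1.integral_prod_left (hρ.const_mul _) fun x => ?_
    simp only [integral_mul_const]
    exact mul_le_mul_of_nonneg_right (hK x) (hρ0 x)
  rw [integral_const_mul] at h3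
  nlinarith [mul_le_mul_of_nonneg_left hρ1 hK0]

theorem rpow_mul_le_add {u v a b : ℝ} (hu : 0 ≤ u) (hv : 0 ≤ v) (ha : 0 < a) (hb : 0 < b) :
    u ^ (-b) * v ^ (-a) ≤ u ^ (-(a + b)) + v ^ (-(a + b)) := by
  have p1 := rpow_nonneg hu (-(a + b))
  have p2 := rpow_nonneg hv (-(a + b))
  rcases hu.eq_or_lt with rfl | hu'
  · rw [zero_rpow (by linarith : -b ≠ 0)]; linarith
  rcases hv.eq_or_lt with rfl | hv'
  · rw [zero_rpow (by linarith : -a ≠ 0)]; linarith
  rcases le_total u v with h | h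
  · have h1 : v ^ (-a) ≤ u ^ (-a) := rpow_le_rpow_of_nonpos hu' h (by linarith)
    have h2 : u ^ (-(a + b)) = u ^ (-b) * u ^ (-a) := by rw [← rpow_add hu']; congr 1; ring
    have h3 := mul_le_mul_of_nonneg_left h1 (rpow_nonneg hu (-b))
    linarith
  · have h1 : u ^ (-b) ≤ v ^ (-b) := rpow_le_rpow_of_nonpos hv' h (by linarith)
    have h2 : v ^ (-(a + b)) = v ^ (-b) * v ^ (-a) := by rw [← rpow_add hv']; congr 1; ring
    have h3 := mul_le_mul_of_nonneg_right h1 (rpow_nonneg hv (-a))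
    linarith

end General

section Kernel

variable {M : Type} [TopologicalSpace M] [T2Space M] [CompactSpace M] [ChartedSpace E4 M]
  [IsManifold (𝓡 4) ∞ M] [MeasurableSpace M] [BorelSpace M]

/-- A power of the distance, cut off at distance `δ`. -/
noncomputable def kq (d : M → M → ℝ) (δ β : ℝ) (x y : M) : ℝ :=
  if d x y < δ then d x y ^ (-β) else 0

omit [T2Space M] [CompactSpace M] [BorelSpace M] in
theorem kq_nonneg (X : L0 M) (δ β : ℝ) (x y : M) : 0 ≤ kq X.d δ β x y := by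
  unfold kq
  split_ifs
  · exact rpow_nonneg (X.hd.nonneg x y) _
  · exact le_rfl

omit [T2Space M] [CompactSpace M] [BorelSpace M] in
theorem kq_le (X : L0 M) (δ β : ℝ) (x y : M) : kq X.d δ β x y ≤ X.d x y ^ (-β) := by
  unfold kq
  split_ifs
  · exact le_rfl
  · exact rpow_nonneg (X.hd.nonneg x y) _

omit [T2Space M] [CompactSpace M] [BorelSpace M] in
theorem kq_symm (X : L0 M) (δ β : ℝ) (x y : M) : kq X.d δ β x y = kq X.d δ β y x := by
  unfold kq
  rw [X.hd.symm x y]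

omit [T2Space M] in
theorem d_meas2 (X : L0 M) : Measurable fun p : M × M => X.d p.1 p.2 := by
  have : SecondCountableTopology M := ChartedSpace.secondCountable_of_sigmaCompact E4 M
  exact X.hd.cont.measurable

omit [T2Space M] [CompactSpace M] in
theorem d_meas1 (X : L0 M) (x : M) : Measurable fun y => X.d x y :=
  (X.hd.cont.comp (Continuous.prodMk_right x)).measurable

omit [T2Space M] in
theorem kq_meas2 (X : L0 M) (δ β : ℝ) : Measurable fun p : M × M => kq X.d δ β p.1 p.2 :=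
  Measurable.ite (measurableSet_lt (d_meas2 X) measurable_const)
    ((d_meas2 X).pow_const _) measurable_const

omit [T2Space M] in
theorem kq_int2 {X : L0 M} (hK : KInt X) (δ : ℝ) {β : ℝ} (h0 : 0 ≤ β) (h4 : β < 4) :
    Integrable (fun p : M × M => kq X.d δ β p.1 p.2) (X.μ.prod X.μ) :=
  (hK.pow2 β h0 h4).mono' (kq_meas2 X δ β).aestronglyMeasurable
    (Eventually.of_forall fun p => by
      rw [Real.norm_of_nonneg (kq_nonneg X _ _ _ _)]; exact kq_le X _ _ _ _)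

omit [T2Space M] [CompactSpace M] [BorelSpace M] in
theorem kq_eq_indicator (X : L0 M) (δ β : ℝ) (x : M) :
    (fun y => kq X.d δ β x y) = {y | X.d x y < δ}.indicator fun y => X.d x y ^ (-β) := by
  funext y
  unfold kq
  by_cases h : X.d x y < δ
  · rw [if_pos h, indicator_of_mem (show y ∈ {y | X.d x y < δ} from h)]
  · rw [if_neg h, indicator_of_notMem (show y ∉ {y | X.d x y < δ} from h)]

omit [T2Space M] [CompactSpace M] in
theorem kq_facts {X : L0 M} (hK : KInt X) {β : ℝ} (h0 : 0 ≤ β) (h4 : β < 4) :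
    ∃ C : ℝ, 0 < C ∧ ∀ δ : ℝ, 0 < δ → δ ≤ 1 → ∀ x, Integrable (fun y => kq X.d δ β x y) X.μ ∧
      ∫ y, kq X.d δ β x y ∂X.μ ≤ C * δ ^ (4 - β) := by
  obtain ⟨C, hC, h⟩ := hK.pow β h0 h4
  refine ⟨C, hC, fun δ hδ hδ1 x => ?_⟩
  have hm : MeasurableSet {y | X.d x y < δ} := measurableSet_lt (d_meas1 X x) measurable_const
  rw [kq_eq_indicator, integral_indicator hm]
  exact ⟨(h x).1.indicator hm, (h x).2.2 δ hδ hδ1⟩

omit [T2Space M] in
theorem cont_int {X : L0 M} (hV : VFacts X) {f : M → ℝ} (hf : Continuous f) :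
    Integrable f X.μ := by
  have := hV.fin
  obtain ⟨B, hB⟩ := (isCompact_range hf).isBounded.exists_norm_le
  exact Integrable.of_bound hf.measurable.aestronglyMeasurable B
    (Eventually.of_forall fun x => hB _ ⟨x, rfl⟩)

omit [T2Space M] in
theorem int_mul_cont {X : L0 M} {k ρ : M → ℝ} (hk : Integrable k X.μ) (hρ : Continuous ρ) :
    Integrable (fun x => k x * ρ x) X.μ := by
  obtain ⟨B, hB⟩ := (isCompact_range hρ).isBounded.exists_norm_le
  exact hk.mul_bdd (c := B) hρ.measurable.aestronglyMeasurable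
    (Eventually.of_forall fun x => hB _ ⟨x, rfl⟩)

omit [T2Space M] [CompactSpace M] [BorelSpace M] in
theorem ae_d_pos {X : L0 M} (hB : BFacts X) (hK : KInt X) (y : M) :
    ∀ᵐ x ∂X.μ, 0 < X.d x y := by
  have h : ∀ᵐ x ∂X.μ, x ∉ ({y} : Set M) := measure_eq_zero_iff_ae_notMem.1 (hK.null y)
  filter_upwards [h] with x hx
  exact lt_of_le_of_ne (X.hd.nonneg x y) fun h => hx (hB.eq x y h.symm)

omit [T2Space M] in
/-- The short range part of the potential. -/
theorem exp_short_le {X : L0 M} (hB : BFacts X) (hV : VFacts X) (hK : KInt X) {β m δ : ℝ}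
    (hβ : 0 ≤ β) (hm : 0 < m) (h4 : m * β < 4) (hδ : 0 < δ) (hδ1 : δ ≤ 1) {ρ : M → ℝ}
    (hρ : Continuous ρ) (hρ0 : ∀ x, 0 ≤ ρ x) (y : M)
    (hy : ∫ x in {x | X.d y x < δ}, ρ x ∂X.μ ≤ m) :
    exp (β * ∫ x, lgn X.d δ x y * ρ x ∂X.μ) ≤
      1 + m⁻¹ * (δ ^ (m * β) * ∫ x, kq X.d δ (m * β) x y * ρ x ∂X.μ) := by
  have hs : MeasurableSet {x | X.d y x < δ} := measurableSet_lt (d_meas1 X y) measurable_const
  have hmb : 0 ≤ m * β := by positivity
  obtain ⟨C, -, hC⟩ := kq_facts hK hmb h4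
  have hk : Integrable (fun x => kq X.d δ (m * β) x y * ρ x) X.μ := by
    simp only [fun x => kq_symm X δ (m * β) x y]
    exact int_mul_cont (hC δ hδ hδ1 y).1 hρ
  have he : ∀ x, β * lgn X.d δ x y * {x | X.d y x < δ}.indicator ρ x =
      β * (lgn X.d δ x y * ρ x) := by
    intro x
    by_cases h : X.d y x < δ
    · rw [indicator_of_mem (show x ∈ {x | X.d y x < δ} from h), mul_assoc]
    · rw [indicator_of_notMem (show x ∉ {x | X.d y x < δ} from h)]
      have h1 : δ ≤ X.d x y := by rw [X.hd.symm]; exact not_lt.1 h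
      have h2 : log (δ / X.d x y) ≤ 0 :=
        log_nonpos (div_nonneg hδ.le (X.hd.nonneg _ _)) ((div_le_one (hδ.trans_le h1)).2 h1)
      rw [lgn, max_eq_right h2]; simp
  have h := exp_integral_le_atom (μ := X.μ) hm (w := {x | X.d y x < δ}.indicator ρ)
    (f := fun x => β * lgn X.d δ x y)
    (h := fun x => δ ^ (m * β) * (kq X.d δ (m * β) x y * ρ x))
    ((cont_int hV hρ).indicator hs) (fun x => indicator_nonneg (fun x _ => hρ0 x) x)
    (by rw [integral_indicator hs]; exact hy)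
    (by simp only [he]; exact ((hK.int δ hδ hδ1 ρ hρ).1 y).const_mul β) (hk.const_mul _) ?_
  · simp only [he, integral_const_mul] at h
    exact h
  · filter_upwards [ae_d_pos hB hK y] with x hx
    by_cases h : X.d y x < δ
    · have h' : X.d x y < δ := by rw [X.hd.symm]; exact h
      rw [indicator_of_mem (show x ∈ {x | X.d y x < δ} from h), kq, if_pos h',
        ← mul_assoc (δ ^ (m * β))]
      refine mul_le_mul_of_nonneg_right (le_of_eq ?_) (hρ0 x)
      have h2 : 0 ≤ log (δ / X.d x y) := log_nonneg ((one_le_div hx).2 h'.le)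
      rw [lgn, max_eq_left h2, log_div hδ.ne' hx.ne', rpow_def_of_pos hδ, rpow_def_of_pos hx,
        ← exp_add]
      congr 1; ring
    · rw [indicator_of_notMem (show x ∉ {x | X.d y x < δ} from h), mul_zero]
      exact mul_nonneg (rpow_nonneg hδ.le _) (mul_nonneg (kq_nonneg X _ _ _ _) (hρ0 x))

omit [T2Space M] in
/-- The long range part of the potential. -/
theorem exp_long_le {X : L0 M} (hB : BFacts X) (hV : VFacts X) (hK : KInt X) {β γ β' δ : ℝ}
    (hβ : 0 ≤ β) (hγ : 0 ≤ γ) (hβ' : 0 ≤ β') (h4 : β' < 4) (hs : β ≤ γ + β') (hδ : 0 < δ)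
    (hδ1 : δ ≤ 1) {ρ : M → ℝ} (hρ : Continuous ρ) (hρ0 : ∀ x, 0 ≤ ρ x)
    (hρ1 : ∫ x, ρ x ∂X.μ = 1) (y : M) :
    exp (β * ∫ x, (ell X.d x y - lgn X.d δ x y) * ρ x ∂X.μ) ≤ δ ^ (-β) ∧
    exp (β * ∫ x, (ell X.d x y - lgn X.d δ x y) * ρ x ∂X.μ) ≤
      δ ^ (-γ) * (2 + ∫ x, X.d x y ^ (-β') * ρ x ∂X.μ) := by
  have hρi := cont_int hV hρ
  have hi : Integrable (fun x => (ell X.d x y - lgn X.d δ x y) * ρ x) X.μ := by
    have h1 := (hK.int 1 one_pos le_rfl ρ hρ).1 y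
    simp only [hK.lgn_one] at h1
    simp only [sub_mul]
    exact h1.sub ((hK.int δ hδ hδ1 ρ hρ).1 y)
  have hL : ∀ t : ℝ, δ ^ (-t) = exp (t * log δ⁻¹) := fun t => by
    rw [rpow_def_of_pos hδ, log_inv]; congr 1; ring
  constructor
  · rw [hL, exp_le_exp]
    refine mul_le_mul_of_nonneg_left ?_ hβ
    have h1 : ∫ x, (ell X.d x y - lgn X.d δ x y) * ρ x ∂X.μ ≤ ∫ x, log δ⁻¹ * ρ x ∂X.μ :=
      integral_mono hi (hρi.const_mul _) fun x =>
        mul_le_mul_of_nonneg_right (by linarith [(hK.lgn_le δ hδ hδ1 x y).2.1]) (hρ0 x)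
    rwa [integral_const_mul, hρ1, mul_one] at h1
  · obtain ⟨C, -, hC⟩ := hK.pow β' hβ' h4
    have hk : Integrable (fun x => X.d x y ^ (-β') * ρ x) X.μ := by
      simp only [fun x => X.hd.symm x y]
      exact int_mul_cont (hC y).1 hρ
    have hh : Integrable (fun x => ρ x + X.d x y ^ (-β') * ρ x) X.μ := hρi.add hk
    have h := exp_integral_le_atom (μ := X.μ) one_pos (w := ρ)
      (f := fun x => β * (ell X.d x y - lgn X.d δ x y))
      (h := fun x => δ ^ (-γ) * (ρ x + X.d x y ^ (-β') * ρ x)) hρi hρ0 hρ1.le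
      (by simp only [mul_assoc]; exact hi.const_mul β) (hh.const_mul _) ?_
    · simp only [mul_assoc, integral_const_mul] at h
      rw [integral_add hρi hk, hρ1, inv_one, one_mul] at h
      have h1 : 1 ≤ δ ^ (-γ) := one_le_rpow_of_pos_of_le_one_of_nonpos hδ hδ1 (by linarith)
      linarith
    · filter_upwards [ae_d_pos hB hK y] with x hx
      obtain ⟨h1, h2, -⟩ := hK.lgn_le δ hδ hδ1 x y
      have h3 : 0 ≤ lgn X.d δ x y := le_max_right _ _
      have h5 : exp (β' * ell X.d x y) ≤ 1 + X.d x y ^ (-β') := by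
        have h6 := rpow_nonneg hx.le (-β')
        rcases le_total (-log (X.d x y)) 0 with h | h
        · rw [ell, max_eq_right h, mul_zero, exp_zero]; linarith
        · rw [ell, max_eq_left h, rpow_def_of_pos hx,
            show β' * -log (X.d x y) = log (X.d x y) * -β' by ring]
          linarith
      have h7 : exp (1 * (β * (ell X.d x y - lgn X.d δ x y))) ≤
          δ ^ (-γ) * exp (β' * ell X.d x y) := by
        rw [hL, ← exp_add, exp_le_exp]
        have h8 := mul_le_mul_of_nonneg_right hs (sub_nonneg.2 h1)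
        have h9 := mul_le_mul_of_nonneg_left
          (show ell X.d x y - lgn X.d δ x y ≤ log δ⁻¹ by linarith) hγ
        have h10 := mul_nonneg hβ' h3
        nlinarith
      have h11 := mul_le_mul_of_nonneg_left h5 (rpow_nonneg hδ.le (-γ))
      have h12 := mul_le_mul_of_nonneg_right (h7.trans h11) (hρ0 x)
      linarith

end Kernel

section Main

variable {M : Type} [TopologicalSpace M] [CompactSpace M] [ChartedSpace E4 M]
  [IsManifold (𝓡 4) ∞ M] [MeasurableSpace M] [BorelSpace M]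

omit [CompactSpace M] [BorelSpace M] in
theorem kq_mul_le (X : L0 M) (δ : ℝ) {a b : ℝ} (ha : 0 < a) (hb : 0 < b) (x p y : M) :
    kq X.d δ b x y * kq X.d δ a p y ≤ kq X.d δ (a + b) x y + kq X.d δ (a + b) p y := by
  have h1 := kq_nonneg X δ (a + b) x y
  have h2 := kq_nonneg X δ (a + b) p y
  by_cases hx : X.d x y < δ
  · by_cases hp : X.d p y < δ
    · simp only [kq, if_pos hx, if_pos hp]
      exact rpow_mul_le_add (X.hd.nonneg _ _) (X.hd.nonneg _ _) ha hb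
    · have : kq X.d δ a p y = 0 := by rw [kq, if_neg hp]
      rw [this, mul_zero]; linarith
  · have : kq X.d δ b x y = 0 := by rw [kq, if_neg hx]
    rw [this, zero_mul]; linarith

theorem kq_dens {X : L0 M} (hV : VFacts X) (hK : KInt X) {β : ℝ} (h0 : 0 ≤ β) (h4 : β < 4) :
    ∃ C : ℝ, 0 < C ∧ ∀ δ : ℝ, 0 < δ → δ ≤ 1 → ∀ ρ : M → ℝ, Continuous ρ → (∀ x, 0 ≤ ρ x) →
      ∫ x, ρ x ∂X.μ ≤ 1 → (∀ y, Integrable (fun x => kq X.d δ β x y * ρ x) X.μ) ∧
      Integrable (fun y => ∫ x, kq X.d δ β x y * ρ x ∂X.μ) X.μ ∧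
      ∫ y, ∫ x, kq X.d δ β x y * ρ x ∂X.μ ∂X.μ ≤ C * δ ^ (4 - β) := by
  have := hV.fin
  obtain ⟨C, hC, h⟩ := kq_facts hK h0 h4
  refine ⟨C, hC, fun δ hδ hδ1 ρ hρ hρ0 hρ1 => ⟨fun y => ?_, ?_⟩⟩
  · simp only [fun x => kq_symm X δ β x y]
    exact int_mul_cont (h δ hδ hδ1 y).1 hρ
  · obtain ⟨B, hB⟩ := (isCompact_range hρ).bddAbove
    exact kernel_density (kq_int2 hK δ h0 h4) hρ.measurable hρ0 (fun x => hB ⟨x, rfl⟩)
      (cont_int hV hρ) hρ1 (by positivity) fun x => (h δ hδ hδ1 x).2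

theorem pow_dens {X : L0 M} (hV : VFacts X) (hK : KInt X) {β : ℝ} (h0 : 0 ≤ β) (h4 : β < 4) :
    ∃ C : ℝ, 0 < C ∧ ∀ ρ : M → ℝ, Continuous ρ → (∀ x, 0 ≤ ρ x) → ∫ x, ρ x ∂X.μ ≤ 1 →
      Integrable (fun y => ∫ x, X.d x y ^ (-β) * ρ x ∂X.μ) X.μ ∧
      ∫ y, ∫ x, X.d x y ^ (-β) * ρ x ∂X.μ ∂X.μ ≤ C := by
  have := hV.fin
  obtain ⟨C, hC, h⟩ := hK.pow β h0 h4
  refine ⟨C, hC, fun ρ hρ hρ0 hρ1 => ?_⟩
  obtain ⟨B, hB⟩ := (isCompact_range hρ).bddAbove
  exact kernel_density (k := fun x y => X.d x y ^ (-β)) (hK.pow2 β h0 h4) hρ.measurable hρ0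
    (fun x => hB ⟨x, rfl⟩) (cont_int hV hρ) hρ1 hC.le fun x => (h x).2.1

/-- A potential times a continuous function is integrable. -/
theorem lgn_pot_int {X : L0 M} (hV : VFacts X) (hK : KInt X) {δ : ℝ} (hδ : 0 < δ) (hδ1 : δ ≤ 1)
    {ρ ρ' : M → ℝ} (hρ : Continuous ρ) (hρ' : Continuous ρ') :
    Integrable (fun y => (∫ x, lgn X.d δ x y * ρ x ∂X.μ) * ρ' y) X.μ := by
  have := hV.fin
  obtain ⟨-, -, ⟨C, hC⟩, hm⟩ := hK.int δ hδ hδ1 ρ hρ
  exact int_mul_cont (Integrable.of_bound hm.aestronglyMeasurable C (Eventually.of_forall hC)) hρ'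

theorem gib_of {X : L0 M} (hB : BFacts X) (hV : VFacts X) (hK : KInt X) : Gib X := by
  classical
  have := hV.fin
  intro β₀ μ₁ a e hβ hμ hμ1 ha he he1 h4
  set γ := max (β₀ - 4) 0 + e with hγ
  have hγ0 : 0 ≤ γ := add_nonneg (le_max_right _ _) he.le
  have hγ4 : β₀ - 4 ≤ γ - e := by rw [hγ]; linarith [le_max_left (β₀ - 4) 0]
  set β' := max (β₀ - γ) 0 with hβ'
  have hβ'0 : 0 ≤ β' := le_max_right _ _
  have hβ'4 : β' < 4 := max_lt (by linarith) (by norm_num)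
  have hs : β₀ ≤ γ + β' := by linarith [le_max_left (β₀ - γ) 0]
  set b := μ₁ * β₀ with hb
  have hb0 : 0 < b := mul_pos hμ hβ
  have hab : a + b < 4 := by rw [hb]; linarith [mul_comm μ₁ β₀]
  obtain ⟨C1, hC1, h1⟩ := pow_dens hV hK hβ'0 hβ'4
  obtain ⟨C2, hC2, h2⟩ := kq_dens hV hK hb0.le (by linarith : b < 4)
  obtain ⟨C3, hC3, h3⟩ := kq_facts hK ha.le (by linarith : a < 4)
  obtain ⟨C4, hC4, h4'⟩ := kq_dens hV hK (by linarith : 0 ≤ a + b) hab
  obtain ⟨C5, hC5, h5⟩ := kq_facts hK (by linarith : 0 ≤ a + b) hab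
  set V := X.μ.real univ with hVdef
  have hV0 : 0 ≤ V := measureReal_nonneg
  set n : ℝ := (X.fix.card : ℝ) with hn
  have hn0 : 0 ≤ n := Nat.cast_nonneg _
  have hμi : 0 < μ₁⁻¹ := inv_pos.2 hμ
  set K0 := 2 * V + C1 + μ₁⁻¹ * C2 + n * (C3 + μ₁⁻¹ * (C4 + C5)) with hK0
  have hK0p : 0 < K0 := by positivity
  refine ⟨log K0, fun δ A hδ hδ2 W ρ hW hρ hρ0 hρ1 hloc hWb => ?_⟩
  have hδ1 : δ ≤ 1 := by linarith
  have hρ0' : ∀ x, 0 ≤ ρ x := fun x => (hρ0 x).le
  have hρi := cont_int hV hρ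
  obtain ⟨i1, j1⟩ := h1 ρ hρ hρ0' hρ1.le
  obtain ⟨-, i2, j2⟩ := h2 δ hδ hδ1 ρ hρ hρ0' hρ1.le
  obtain ⟨l4, i4, j4⟩ := h4' δ hδ hδ1 ρ hρ hρ0' hρ1.le
  obtain ⟨l2, -, -⟩ := h2 δ hδ hδ1 ρ hρ hρ0' hρ1.le
  set T : M → ℝ := fun y => ∫ x, X.d x y ^ (-β') * ρ x ∂X.μ with hT
  set N2 : M → ℝ := fun y => ∫ x, kq X.d δ b x y * ρ x ∂X.μ with hN2
  set N4 : M → ℝ := fun y => ∫ x, kq X.d δ (a + b) x y * ρ x ∂X.μ with hN4
  set Q : M → M → ℝ := fun p y =>
    kq X.d δ a p y + μ₁⁻¹ * δ ^ b * (N4 y + kq X.d δ (a + b) p y) with hQ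
  have iQ : ∀ p, Integrable (Q p) X.μ := fun p =>
    (h3 δ hδ hδ1 p).1.add ((i4.add (h5 δ hδ hδ1 p).1).const_mul _)
  have e4 : δ ^ b * δ ^ (4 - (a + b)) = δ ^ (4 - a) := by rw [← rpow_add hδ]; congr 1; ring
  have jQ : ∀ p, ∫ y, Q p y ∂X.μ ≤ (C3 + μ₁⁻¹ * (C4 + C5)) * δ ^ (4 - a) := by
    intro p
    have i45 : Integrable (fun y => N4 y + kq X.d δ (a + b) p y) X.μ := i4.add (h5 δ hδ hδ1 p).1
    simp only [hQ]
    rw [integral_add (h3 δ hδ hδ1 p).1 (i45.const_mul _), integral_const_mul,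
      integral_add i4 (h5 δ hδ hδ1 p).1]
    have k1 := (h3 δ hδ hδ1 p).2
    have k2 := mul_le_mul_of_nonneg_left (add_le_add j4 (h5 δ hδ hδ1 p).2)
      (show 0 ≤ μ₁⁻¹ * δ ^ b by positivity)
    have k3 : μ₁⁻¹ * δ ^ b * (C4 * δ ^ (4 - (a + b)) + C5 * δ ^ (4 - (a + b))) =
        μ₁⁻¹ * (C4 + C5) * δ ^ (4 - a) := by rw [← e4]; ring
    linarith
  set G : M → ℝ := fun y => exp A * (δ ^ (-a) * δ ^ (-γ) * (2 + T y) +
    δ ^ (-β₀) * (δ ^ (-a) * (μ₁⁻¹ * δ ^ b) * N2 y + ∑ p ∈ X.fix, Q p y)) with hG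
  have iS : Integrable (fun y => ∑ p ∈ X.fix, Q p y) X.μ :=
    integrable_finsetSum _ fun p _ => iQ p
  have iT : Integrable (fun y => 2 + T y) X.μ := (integrable_const _).add i1
  have iR : Integrable (fun y => δ ^ (-a) * (μ₁⁻¹ * δ ^ b) * N2 y + ∑ p ∈ X.fix, Q p y) X.μ :=
    (i2.const_mul _).add iS
  have iG : Integrable G X.μ := ((iT.const_mul _).add (iR.const_mul _)).const_mul _
  have jG : ∫ y, G y ∂X.μ ≤ exp A * (δ ^ (-(γ + a)) * K0) := by
    simp only [hG]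
    rw [integral_const_mul, integral_add (iT.const_mul _) (iR.const_mul _), integral_const_mul,
      integral_const_mul, integral_add (integrable_const _) i1,
      integral_add (i2.const_mul _) iS, integral_const_mul,
      integral_finsetSum _ fun p _ => iQ p, integral_const, smul_eq_mul, ← hVdef]
    refine mul_le_mul_of_nonneg_left ?_ (exp_pos _).le
    have k1 : ∑ p ∈ X.fix, ∫ y, Q p y ∂X.μ ≤ n * ((C3 + μ₁⁻¹ * (C4 + C5)) * δ ^ (4 - a)) := by
      have := Finset.sum_le_card_nsmul X.fix _ _ fun p _ => jQ p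
      rwa [nsmul_eq_mul] at this
    have k2 : δ ^ (-a) * δ ^ (-γ) = δ ^ (-(γ + a)) := by rw [← rpow_add hδ]; congr 1; ring
    have k3 : δ ^ (-β₀) * δ ^ (4 - a) ≤ δ ^ (-(γ + a)) := by
      rw [← rpow_add hδ]
      exact rpow_le_rpow_of_exponent_ge hδ hδ1 (by linarith)
    have k4 : δ ^ (-a) * (μ₁⁻¹ * δ ^ b) * (C2 * δ ^ (4 - b)) = μ₁⁻¹ * C2 * δ ^ (4 - a) := by
      have : δ ^ (4 - a) = δ ^ (-a) * δ ^ b * δ ^ (4 - b) := by
        rw [← rpow_add hδ, ← rpow_add hδ]; congr 1; ring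
      rw [this]; ring
    have k5 := mul_le_mul_of_nonneg_left j2
      (show 0 ≤ δ ^ (-a) * (μ₁⁻¹ * δ ^ b) by positivity)
    have k6 := mul_le_mul_of_nonneg_left (add_le_add (k5.trans_eq k4) k1)
      (show 0 ≤ δ ^ (-β₀) by positivity)
    have k7 := mul_le_mul_of_nonneg_left k3
      (show 0 ≤ μ₁⁻¹ * C2 + n * (C3 + μ₁⁻¹ * (C4 + C5)) by positivity)
    have k8 := mul_le_mul_of_nonneg_left j1 (show 0 ≤ δ ^ (-(γ + a)) by positivity)
    rw [k2, hK0]
    linarith only [k6, k7, k8]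
  set φ : M → ℝ := fun y => β₀ * (∫ x, ell X.d x y * ρ x ∂X.μ) + W y with hφ
  have iE : Integrable (fun y => (∫ x, ell X.d x y * ρ x ∂X.μ) * ρ y) X.μ := by
    have := lgn_pot_int hV hK one_pos le_rfl hρ hρ
    simpa only [hK.lgn_one] using this
  have iW : Integrable (fun y => W y * ρ y) X.μ := cont_int hV (hW.mul hρ)
  have eφ : ∀ y, φ y * ρ y = β₀ * ((∫ x, ell X.d x y * ρ x ∂X.μ) * ρ y) + W y * ρ y := fun y => by
    simp only [hφ]; ring
  have hae : ∀ᵐ y ∂X.μ, y ∉ (X.fix : Set M) := by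
    refine measure_eq_zero_iff_ae_notMem.1 ?_
    rw [← biUnion_of_singleton (X.fix : Set M)]
    exact (measure_biUnion_null_iff X.fix.countable_toSet).2 fun p _ => hK.null p
  have hle : ∀ᵐ y ∂X.μ, exp (φ y) ≤ G y := by
    filter_upwards [hae] with y hy
    obtain ⟨m1, m2⟩ := exp_long_le hB hV hK hβ.le hγ0 hβ'0 hβ'4 hs hδ hδ1 hρ hρ0' hρ1 y
    have m3 := exp_short_le hB hV hK hβ.le hμ (by linarith : μ₁ * β₀ < 4) hδ hδ1 hρ hρ0' y (hloc y)
    have m4 : exp (W y) ≤ exp A * (δ ^ (-a) + ∑ p ∈ X.fix, kq X.d δ a p y) := hWb y hy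
    have m5 : ∫ x, ell X.d x y * ρ x ∂X.μ = (∫ x, (ell X.d x y - lgn X.d δ x y) * ρ x ∂X.μ) +
        ∫ x, lgn X.d δ x y * ρ x ∂X.μ := by
      have q1 := (hK.int 1 one_pos le_rfl ρ hρ).1 y
      simp only [hK.lgn_one] at q1
      simp only [sub_mul]
      rw [integral_sub q1 ((hK.int δ hδ hδ1 ρ hρ).1 y)]; ring
    have m6 : ∀ p, N2 y * kq X.d δ a p y ≤ N4 y + kq X.d δ (a + b) p y := by
      intro p
      have q1 : ∫ x, kq X.d δ b x y * ρ x * kq X.d δ a p y ∂X.μ ≤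
          ∫ x, (kq X.d δ (a + b) x y * ρ x + kq X.d δ (a + b) p y * ρ x) ∂X.μ :=
        integral_mono ((l2 y).mul_const _) ((l4 y).add (hρi.const_mul _)) fun x => by
          have := mul_le_mul_of_nonneg_right (kq_mul_le X δ ha hb0 x p y) (hρ0' x)
          simp only
          linarith
      rwa [integral_mul_const, integral_add (l4 y) (hρi.const_mul _), integral_const_mul, hρ1,
        mul_one] at q1
    have hN20 : 0 ≤ N2 y := integral_nonneg fun x => mul_nonneg (kq_nonneg X _ _ _ _) (hρ0' x)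
    set E1 := exp (β₀ * ∫ x, (ell X.d x y - lgn X.d δ x y) * ρ x ∂X.μ) with hE1
    set S := μ₁⁻¹ * δ ^ b * N2 y with hS
    set P := ∑ p ∈ X.fix, kq X.d δ a p y with hP
    have hS0 : 0 ≤ S := by positivity
    have hP0 : 0 ≤ P := Finset.sum_nonneg fun p _ => kq_nonneg X _ _ _ _
    have m7 : (1 + S) * P ≤ ∑ p ∈ X.fix, Q p y := by
      rw [hP, Finset.mul_sum]
      refine Finset.sum_le_sum fun p _ => ?_
      have := mul_le_mul_of_nonneg_left (m6 p) (show 0 ≤ μ₁⁻¹ * δ ^ b by positivity)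
      simp only [hQ, hS]
      linarith
    have m3' : exp (β₀ * ∫ x, lgn X.d δ x y * ρ x ∂X.μ) ≤ 1 + S := by
      rw [hS, mul_assoc]; exact m3
    have hE0 : 0 < E1 := exp_pos _
    have m8 : exp (φ y) ≤ E1 * ((1 + S) * (exp A * (δ ^ (-a) + P))) := by
      simp only [hφ]
      rw [m5, mul_add, exp_add, exp_add, mul_assoc]
      exact mul_le_mul_of_nonneg_left (mul_le_mul m3' m4 (exp_pos _).le (by linarith)) hE0.le
    refine m8.trans ?_
    have m9 := mul_le_mul_of_nonneg_left m2 (show 0 ≤ δ ^ (-a) by positivity)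
    have m10 := mul_le_mul_of_nonneg_right m1
      (show 0 ≤ δ ^ (-a) * S + (1 + S) * P by positivity)
    have m11 := mul_le_mul_of_nonneg_left m7 (show 0 ≤ δ ^ (-β₀) by positivity)
    have m12 : E1 * ((1 + S) * (δ ^ (-a) + P)) ≤ δ ^ (-a) * δ ^ (-γ) * (2 + T y) +
        δ ^ (-β₀) * (δ ^ (-a) * (μ₁⁻¹ * δ ^ b) * N2 y + ∑ p ∈ X.fix, Q p y) := by
      have : δ ^ (-a) * (μ₁⁻¹ * δ ^ b) * N2 y = δ ^ (-a) * S := by rw [hS]; ring
      rw [this]
      simp only [hT]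
      linarith only [m9, m10, m11]
    have m13 := mul_le_mul_of_nonneg_left m12 (exp_pos A).le
    simp only [hG]
    linarith only [m13]
  have iL : Integrable (fun x => ρ x * log (ρ x)) X.μ :=
    cont_int hV (hρ.mul (hρ.log fun x => (hρ0 x).ne'))
  have hmain := gibbs_major (K := exp A * (δ ^ (-(γ + a)) * K0)) (φ := φ) (by positivity) hρi hρ0
    hρ1 (by simp only [eφ]; exact (iE.const_mul _).add iW) iL iG hle jG
  simp only [eφ] at hmain
  rw [integral_add (iE.const_mul _) iW, integral_const_mul,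
    log_mul (exp_pos _).ne' (by positivity), log_mul (by positivity) hK0p.ne', log_exp,
    log_rpow hδ] at hmain
  have eE : En X.d X.μ ρ = ∫ y, (∫ x, ell X.d x y * ρ x ∂X.μ) * ρ y ∂X.μ := by
    simp only [En, mul_comm]
  rw [eE, log_inv]
  linarith

end Main

end A9

theorem gibStmt (hB : BStmt) (hV : VolsStmt) (hK : KIntStmt) : GibStmt :=
  fun M _ _ _ _ _ _ _ X => A9.gib_of (hB M X) (hV M X) (hK M X)

end Pool.Agent.MP_417fa2_gt.Q2
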