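import Pool.Agent.MP_417fa2_gt.Q2.ESpec

/-! Statements of the analytic layer on the manifold. -/

open scoped Manifold ContDiff Topology
open MeasureTheory Set Metric Real Filter

namespace Pool.Agent.MP_417fa2_gt.Q2

open DE (lp)

section

variable {M : Type} [TopologicalSpace M] [ChartedSpace E4 M] [IsManifold (𝓡 4) ∞ M]
  [MeasurableSpace M]

/-- The positive part of `log (δ / d)`. -/
noncomputable def lgn (d : M → M → ℝ) (δ : ℝ) (x y : M) : ℝ := max (log (δ / d x y)) 0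

/-- A1. Distance, symmetry, localization and extension. -/
structure BFacts (X : L0 M) : Prop where
  self : ∀ x, X.d x x = 0
  eq : ∀ x y, X.d x y = 0 → x = y
  sep : ∀ p ∈ X.fix, ∀ p' ∈ X.fix, X.d p p' < r0 → p = p'
  chart : ∀ x z, X.d x z < r0 → ∃ y : E4, ‖y‖ = X.d x z ∧ param x y = z ∧ chartAt E4 x z = y
  J_cont : Continuous X.J
  J_sm : ∀ φ, Smooth φ → Smooth fun x => φ (X.J x)
  J_smOn : ∀ (I : Set ℝ) (w : ℝ → M → ℝ), SmoothOn I w → SmoothOn I fun t x => w t (X.J x)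
  disp : ∃ c₀ : ℝ, 0 < c₀ ∧ ∀ (y : M) (t : ℝ), 0 < t → t ≤ c₀ → (∀ p ∈ X.fix, 3 * t ≤ X.d p y) →
    2 * t ≤ X.d y (X.J y)
  four : ∀ p ∈ X.fix, ∀ y, X.d p y < r0 → ∀ k l : Fin 4, k ≠ l →
    X.d p y ≤ X.d (X.J^[k] y) (X.J^[l] y)
  loc_tst : ∀ (x : M) (φ : M → ℝ), Smooth φ → Tst (loc x φ)
  loc_even : ∀ p ∈ X.fix, ∀ φ : M → ℝ, (∀ x, φ (X.J x) = φ x) → ∀ y, loc p φ (-y) = loc p φ y
  ext_par : ∀ (x : M) (F : E4 → ℝ) (y : E4), ‖y‖ < r0 → extz x F (param x y) = F y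
  ext_far : ∀ (x z : M) (F : E4 → ℝ) (t : ℝ), (∀ y, t ≤ ‖y‖ → F y = 0) → t ≤ X.d x z →
    extz x F z = 0
  ext_sm : ∀ (x : M) (F : E4 → ℝ) (t : ℝ), t < r0 → ContDiffOn ℝ ∞ F (ball 0 r0) →
    (∀ y, t ≤ ‖y‖ → F y = 0) → Smooth (extz x F)
  ext_J : ∀ p ∈ X.fix, ∀ F, Rad F → ∀ x, extz p F (X.J x) = extz p F x
  sum_par : ∀ p ∈ X.fix, ∀ (F : E4 → ℝ) (t : ℝ), 0 < t → (∀ y, t ≤ ‖y‖ → F y = 0) → ∀ y : E4,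
    ‖y‖ + t ≤ r0 → X.sum F (param p y) = F y
  loc_ext : ∀ (p : M) (F : E4 → ℝ), (∀ y, r1 ≤ ‖y‖ → F y = 0) → loc p (extz p F) = F
  loc_ext' : ∀ p ∈ X.fix, ∀ p' ∈ X.fix, p' ≠ p → ∀ F : E4 → ℝ, (∀ y, 1 / 50 ≤ ‖y‖ → F y = 0) →
    loc p' (extz p F) = fun _ => 0

/-- A2. The bilinear form of any metric. -/
structure BfFacts (g : RMetric M) : Prop where
  symm : ∀ φ ψ, Smooth φ → Smooth ψ → Bf g φ ψ = Bf g ψ φ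
  lin : ∀ φ ψ ψ', Smooth φ → Smooth ψ → Smooth ψ' → ∀ a b c : ℝ,
    Bf g φ (fun x => a * ψ x + b * ψ' x + c) = a * Bf g φ ψ + b * Bf g φ ψ'
  qlin : ∀ ψ ψ', Smooth ψ → Smooth ψ' → ∀ a b : ℝ,
    qf g (fun x => a * ψ x + b * ψ' x) = a * qf g ψ + b * qf g ψ'
  cs : (∀ φ, Smooth φ → 0 ≤ Bf g φ φ) → ∀ φ ψ, Smooth φ → Smooth ψ →
    |Bf g φ ψ| ≤ √(Bf g φ φ) * √(Bf g ψ ψ)

/-- A3. Volumes and the symmetry for block metrics. -/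
structure VFacts (X : L0 M) : Prop where
  fin : IsFiniteMeasure X.μ
  pos : X.μ.IsOpenPosMeasure
  univ : 0 < X.μ.real univ
  chart : ∀ (x : M) (t : ℝ), t ≤ r0 → ∀ f : M → ℝ, Measurable f →
    (IntegrableOn f {z | X.d x z < t} X.μ ↔
      IntegrableOn (fun y => f (param x y) * rh y) (ball 0 t)) ∧
    ∫ z in {z | X.d x z < t}, f z ∂X.μ = ∫ y in ball (0 : E4) t, f (param x y) * rh y
  pres : MeasurePreserving X.J X.μ X.μ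
  dens : ∀ (g : RMetric M) (F H : M → ℝ), Smooth F → Smooth H → IsBlk g F H →
    vol g = X.μ.withDensity (fun x => ENNReal.ofReal (exp (2 * F x + 2 * H x))) ∧
    ∀ f : M → ℝ, ∫ x, f x ∂vol g = ∫ x, f x * exp (2 * F x + 2 * H x) ∂X.μ
  nat : ∀ (g : RMetric M) (F H : M → ℝ), Smooth F → Smooth H → IsBlk g F H →
    (∀ x, F (X.J x) = F x) → (∀ x, H (X.J x) = H x) → (∀ x, qCurv g (X.J x) = qCurv g x) ∧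
      ∀ φ, Smooth φ → ∀ x, paneitz g (fun z => φ (X.J z)) x = paneitz g φ (X.J x)

/-- The conformal class of a block metric in the chart at `p`. -/
noncomputable def sOf (F H : M → ℝ) (p : M) (y : E4) : ℝ :=
  f0 y + F (param p y) - (h0 y + H (param p y))

/-- The conformal factor of a block metric in the chart at `p`. -/
noncomputable def hOf (H : M → ℝ) (p : M) (y : E4) : ℝ := h0 y + H (param p y)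

/-- A4. Two block metrics that differ near the fixed points only. -/
def Modif (X : L0 M) : Prop := ∀ (g g' : RMetric M) (F H F' H' : M → ℝ) (t : ℝ), 0 < t → t < r1 →
  Smooth F → Smooth H → Smooth F' → Smooth H' → IsBlk g F H → IsBlk g' F' H' →
  (∀ x, (∀ p ∈ X.fix, t < X.d p x) → F x = F' x ∧ H x = H' x) →
  (∀ φ ψ, Smooth φ → Smooth ψ → Bf g' φ ψ - Bf g φ ψ = ∑ p ∈ X.fix, ∫ y in closedBall (0 : E4) t,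
    (bform (Gs (sOf F' H' p)) (loc p φ) (loc p ψ) y - bform (Gs (sOf F H p)) (loc p φ) (loc p ψ) y)) ∧
  ∀ φ, Smooth φ → qf g' φ - qf g φ = ∑ p ∈ X.fix, ∫ y in closedBall (0 : E4) t,
    (qd (sOf F' H' p) y - qd (sOf F H p) y +
      (pp (sOf F' H' p) (hOf H' p) y - pp (sOf F H p) (hOf H p) y) / 2) * loc p φ y

/-- A5. Integrals of singular kernels. -/
structure KInt (X : L0 M) : Prop where
  null : ∀ x : M, X.μ {x} = 0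
  pow : ∀ β : ℝ, 0 ≤ β → β < 4 → ∃ C : ℝ, 0 < C ∧ ∀ x, Integrable (fun y => X.d x y ^ (-β)) X.μ ∧
    ∫ y, X.d x y ^ (-β) ∂X.μ ≤ C ∧ ∀ t : ℝ, 0 < t → t ≤ 1 →
      ∫ y in {y | X.d x y < t}, X.d x y ^ (-β) ∂X.μ ≤ C * t ^ (4 - β)
  pow2 : ∀ β : ℝ, 0 ≤ β → β < 4 →
    Integrable (fun p : M × M => X.d p.1 p.2 ^ (-β)) (X.μ.prod X.μ)
  meas : ∀ δ, Measurable fun p : M × M => lgn X.d δ p.1 p.2
  lgn_one : ∀ x y, lgn X.d 1 x y = ell X.d x y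
  lgn_le : ∀ δ : ℝ, 0 < δ → δ ≤ 1 → ∀ x y, lgn X.d δ x y ≤ ell X.d x y ∧
    ell X.d x y ≤ log δ⁻¹ + lgn X.d δ x y ∧ ell X.d x y ≤ X.d x y ^ (-1 : ℝ)
  int : ∀ δ : ℝ, 0 < δ → δ ≤ 1 → ∀ ρ : M → ℝ, Continuous ρ →
    (∀ y, Integrable (fun x => lgn X.d δ x y * ρ x) X.μ) ∧
    Integrable (fun p : M × M => lgn X.d δ p.1 p.2 * ρ p.1) (X.μ.prod X.μ) ∧
    (∃ C, ∀ y, |∫ x, lgn X.d δ x y * ρ x ∂X.μ| ≤ C) ∧
    Measurable fun y => ∫ x, lgn X.d δ x y * ρ x ∂X.μ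

/-- A6. The energy controls the Sobolev norm in every chart. -/
def Ch (X : L0 M) : Prop := (∀ φ, Smooth φ → Smooth (X.z φ) ∧ 0 ≤ X.nn φ ∧ X.nn (X.z φ) = X.nn φ) ∧
  ∃ C : ℝ, 0 < C ∧ ∀ φ, Smooth φ →
    (∀ x, eN 2 (loc x (X.z φ)) ≤ C * X.nn φ) ∧ ∫ x, X.z φ x ^ 2 ∂X.μ ≤ C * X.nn φ

/-- A7. The representation formula. -/
def Rep (X : L0 M) : Prop := ∃ C : ℝ, ∀ v, Smooth v → ∀ x,
  v x ≤ 1 / (8 * π ^ 2) * (∫ y, ell X.d x y * max (paneitz X.g v y) 0 ∂X.μ) + C * √(eN 2 (loc x v))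

/-- A8. The dual inequality. -/
def Dual (X : L0 M) : Prop := ∀ κ : ℝ, 0 < κ → ∃ C : ℝ, 0 ≤ C ∧ ∀ ρ, Smooth ρ → (∀ x, 0 ≤ ρ x) →
  ∫ x, ρ x ∂X.μ ≤ 1 → ∀ v, Smooth v →
  ∫ x, X.z v x * ρ x ∂X.μ ≤ √((1 + κ) * En X.d X.μ ρ / (8 * π ^ 2) + C) * √(X.nn v)

open Classical in
/-- A9. The entropy inequality under a local mass bound, with a singular weight. -/
def Gib (X : L0 M) : Prop := ∀ β₀ μ₁ a e : ℝ, 0 < β₀ → 0 < μ₁ → μ₁ ≤ 1 → 0 < a → 0 < e → e < 1 →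
  β₀ * μ₁ + a < 4 → ∃ C : ℝ, ∀ δ A : ℝ, 0 < δ → δ ≤ 1 / 2 → ∀ W ρ : M → ℝ, Continuous W →
  Continuous ρ → (∀ x, 0 < ρ x) → ∫ x, ρ x ∂X.μ = 1 →
  (∀ y, ∫ x in {x | X.d y x < δ}, ρ x ∂X.μ ≤ μ₁) →
  (∀ x, x ∉ X.fix → exp (W x) ≤
    exp A * (δ ^ (-a) + ∑ p ∈ X.fix, if X.d p x < δ then X.d p x ^ (-a) else 0)) →
  β₀ * En X.d X.μ ρ + (∫ x, W x * ρ x ∂X.μ) - ∫ x, ρ x * log (ρ x) ∂X.μ ≤
    A + (max (β₀ - 4) 0 + e + a) * log δ⁻¹ + C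

/-- A10. Trudinger's inequality. -/
def Trud (X : L0 M) : Prop := ∃ C : ℝ, ∀ w, Smooth w →
  ∫ x, exp (4 * X.z w x) ∂X.μ ≤ exp (X.nn w / 20 + C)

/-- A11. The short range energy is bounded by the entropy. -/
def Near (X : L0 M) : Prop := ∃ C : ℝ, ∀ δ μ₁ : ℝ, 0 < δ → δ ≤ 1 / 2 → 0 < μ₁ → μ₁ ≤ 1 →
  ∀ ρ ρ' : M → ℝ, Continuous ρ → Continuous ρ' → (∀ x, 0 < ρ x) → (∀ x, 0 ≤ ρ' x ∧ ρ' x ≤ ρ x) →
  ∫ x, ρ x ∂X.μ ≤ 1 → (∀ y, ρ' y ≠ 0 → ∫ x in {x | X.d y x < δ}, ρ x ∂X.μ ≤ μ₁) →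
  ∫ y, ρ' y * ∫ x, lgn X.d δ x y * ρ x ∂X.μ ∂X.μ ≤ μ₁ / 3 * (∫ y, ρ' y * log (ρ y) ∂X.μ) + C

/-- A12. The loop. -/
def Loop (X : L0 M) : Prop := ∃ C : ℝ, ∀ (μ₀ μ₁ δ Ψ C₂ : ℝ) (w Φ ψ η ρ : M → ℝ), 0 ≤ μ₀ → μ₀ ≤ 1 →
  0 < μ₁ → μ₁ ≤ 1 / 4 → 0 < δ → δ ≤ 1 / 2 → 0 ≤ Ψ → 0 ≤ C₂ →
  Smooth w → Smooth Φ → Smooth ψ → Smooth η →
  (∀ x, ρ x = exp (4 * w x + 4 * Φ x + 4 * ψ x) / ∫ y, exp (4 * w y + 4 * Φ y + 4 * ψ y) ∂X.μ) →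
  (∀ x, 0 ≤ η x ∧ η x ≤ 1) → (∀ x, -1 ≤ ψ x ∧ ψ x ≤ Ψ) →
  (∀ y, 0 ≤ Φ y ∧ Φ y ≤ 2 * ∫ x, (ell X.d x y + 1) * (η x * ρ x) ∂X.μ) →
  ∫ x, (1 - η x) * ρ x ∂X.μ ≤ μ₀ →
  (∀ y, η y ≠ 1 → ∫ x in {x | X.d y x < δ}, ρ x ∂X.μ ≤ μ₁) →
  24 / 25 * X.nn w ≤ 16 * π ^ 2 * (∫ x, X.z w x * ((1 - η x) * ρ x) ∂X.μ) + C₂ * √(X.nn w) →
  X.nn w ≤ 20000 * μ₀ * (μ₀ + μ₁) * (log δ⁻¹ + Ψ) + C * (1 + C₂ ^ 2)

/-- A13. Flattening. -/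
def Flat (X : L0 M) : Prop := ∃ m₁ m₂ : ℝ, 0 < m₁ ∧ ∀ κ : ℝ, 0 < κ → ∃ R m : ℝ, 0 < R ∧
  R ≤ 1 / 100 ∧ m₁ ≤ m ∧ m ≤ m₂ ∧ ∃ g : RMetric M, IsBlk g (X.FF R fun _ => 0) (X.HH R) ∧
    (∀ φ, Smooth φ → |Bf g φ φ - X.nn φ| ≤ κ * X.nn φ) ∧
    (qf g fun _ => 1) = 8 * π ^ 2 + X.fix.card * m

/-- A14. The factors of the modified metrics. -/
def FH (X : L0 M) : Prop := ∀ (R : ℝ) (s : E4 → ℝ), 0 < R → R ≤ 1 / 100 → ContDiff ℝ ∞ s → Rad s →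
  (∀ y, R / 2 ≤ ‖y‖ → s y = 0) → Smooth (X.FF R s) ∧ Smooth (X.HH R) ∧
  (∀ x, X.FF R s (X.J x) = X.FF R s x) ∧ (∀ x, X.HH R (X.J x) = X.HH R x) ∧
  (∀ x, (∀ p ∈ X.fix, 2 * R ≤ X.d p x) → X.FF R s x = 0 ∧ X.HH R x = 0) ∧
  ∀ p ∈ X.fix, ∀ y : E4, ‖y‖ ≤ 2 * r1 →
    sOf (X.FF R s) (X.HH R) p y = (1 - chi R y) * s0 y + s y ∧
    hOf (X.HH R) p y = (1 - chi R y) * h0 y

variable {X : L0 M} {Y : L1 X}

/-- A15. Weights and densities of level two. -/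
structure ZFacts (Z : L2' Y) : Prop where
  s_far : ∀ y : E4, 2 * Z.r ≤ ‖y‖ ∨ ‖y‖ ≤ Z.r / 2 → Z.s y = 0
  s_supp : tsupport Z.s ⊆ nb Z.r Z.η
  L_pos : 1 ≤ Z.L
  om_sm : Smooth Z.om
  om_bd : ∀ x, |Z.om x| ≤ 1
  om_J : ∀ x, Z.om (X.J x) = Z.om x
  om_par : ∀ p ∈ X.fix, ∀ y : E4, ‖y‖ ≤ Y.R → exp (4 * Z.om (param p y)) * rh y = exp (2 * Z.s y)
  vol : ∀ f : M → ℝ, ∫ x, f x ∂vol Z.g = ∫ x, f x * exp (4 * Z.om x) ∂X.μ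
  psi_sm : Smooth Z.psi
  psi_J : ∀ x, Z.psi (X.J x) = Z.psi x
  psi_bd : ∀ x, 0 ≤ Z.psi x ∧ Z.psi x ≤ Y.a / 4 * Z.L
  psi_par : ∀ p ∈ X.fix, ∀ y : E4, ‖y‖ ≤ 2 * r1 →
    Z.psi (param p y) = 2 * Y.m * KK (Y.R / 16) Z.r y
  psi_loc : ∀ p ∈ X.fix, loc p Z.psi = fun y => 2 * Y.m * KK (Y.R / 16) Z.r y
  psi_far : ∀ x, (∀ p ∈ X.fix, Y.R / 8 ≤ X.d p x) → Z.psi x = 0
  rho_sm : ∀ u, Smooth u → Smooth (Z.rho u) ∧ (∀ x, 0 < Z.rho u x) ∧ ∫ x, Z.rho u x ∂X.μ = 1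
  rho_J : ∀ u : M → ℝ, (∀ x, u (X.J x) = u x) → ∀ x, Z.rho u (X.J x) = Z.rho u x
  den : ∀ u, Smooth u → (∀ x, u (X.J x) = u x) → ∀ p ∈ X.fix, Den (Z.rhoE u p)
  chart : ∀ u, Smooth u → ∀ (p : M) (t : ℝ), t ≤ r1 → ∀ f : M → ℝ, Measurable f →
    ∫ x in {x | X.d p x < t}, f x * Z.rho u x ∂X.μ =
      ∫ y in ball (0 : E4) t, f (param p y) * Z.rhoE u p y
  half : ∀ u, Smooth u → (∀ x, u (X.J x) = u x) → ∀ (y : M) (t : ℝ), 2 * t ≤ X.d y (X.J y) →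
    ∫ x in {x | X.d y x < t}, Z.rho u x ∂X.μ ≤ 1 / 2
  quarter : ∀ u, Smooth u → (∀ x, u (X.J x) = u x) → ∀ p ∈ X.fix, ∀ (y : M) (t : ℝ),
    X.d p y < r0 → 2 * t ≤ X.d p y → ∫ x in {x | X.d y x < t}, Z.rho u x ∂X.μ ≤ 1 / 4

/-- A16. The forms of level two. -/
structure ZForm (Z : L2' Y) : Prop where
  B_eq : ∀ φ ψ, Smooth φ → Smooth ψ →
    Bf Z.g φ ψ = Bf Y.g φ ψ + ∑ p ∈ X.fix, Tf Z.s (loc p φ) (loc p ψ)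
  q_eq : ∀ φ, Smooth φ → qf Z.g φ = qf Y.g φ + ∑ p ∈ X.fix, ∫ y, qd Z.s y * loc p φ y
  total : (qf Z.g fun _ => 1) = 8 * π ^ 2
  flatB : ∀ p ∈ X.fix, ∀ F, Tst F → (∀ y, Y.R / 2 ≤ ‖y‖ → F y = 0) → ∀ φ, Smooth φ →
    Bf Y.g φ (extz p F) = ∫ y, lp (loc p φ) y * lp F y
  flatq : ∀ p ∈ X.fix, ∀ F, Tst F → (∀ y, Y.R / 2 ≤ ‖y‖ → F y = 0) → qf Y.g (extz p F) = 0
  shift : ∀ u, Smooth u → II Z.g u = Z.c0 +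
    Bf Z.g (fun x => u x - Z.psi x) (fun x => u x - Z.psi x) + 2 * Z.Lam (fun x => u x - Z.psi x) -
    8 * π ^ 2 * log (∫ x, exp (4 * u x + 4 * Z.om x) ∂X.μ)
  Lam_z : ∀ φ, Smooth φ → Z.Lam φ = Z.Lam (X.z φ) + 16 * π ^ 2 * ⨍ x, φ x ∂X.μ
  crit : ∀ u, Smooth u → (∀ x, u (X.J x) = u x) →
    (∀ φ, Smooth φ → Bf Z.g φ u + 2 * qf Z.g φ =
      16 * π ^ 2 * ((∫ x, φ x * exp (4 * u x) ∂vol Z.g) / ∫ x, exp (4 * u x) ∂vol Z.g)) → Z.Crit u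

/-- A17. The form stays close, and the linear part is bounded. -/
def Lam (Y : L1 X) : Prop := ∃ C : ℝ, 0 ≤ C ∧ Ev Y fun Z => ∀ φ, Smooth φ →
  |Bf Z.g φ φ - X.nn φ| ≤ 2 * Y.κ * X.nn φ ∧ |Z.Lam (X.z φ)| ≤ C * √(X.nn φ)

/-- A18. The test function. -/
def Test (Y : L1 X) : Prop := ∃ C : ℝ, Ev Y fun Z => ∃ u₀, Smooth u₀ ∧ (∀ x, u₀ (X.J x) = u₀ x) ∧
  II Z.g u₀ ≤ Z.c0 - 8 * π ^ 2 * Y.a * Z.L + C * (1 + √Z.L)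

/-- A19. Without concentration the functional is larger. -/
def Trap (Y : L1 X) : Prop := ∀ θ γ a' : ℝ, 0 < θ → θ ≤ 1 / 4 → Y.κ ≤ θ / 10 → 0 < a' → a' ≤ θ →
  a' ≤ Y.a → 0 < γ → γ ≤ 1 / 4 → ∃ C : ℝ, Ev Y fun Z => ∀ u, Smooth u → (∀ x, u (X.J x) = u x) →
    (∀ p, ¬Z.Conc u p θ γ) → Z.c0 - 8 * π ^ 2 * (Y.a - a' * γ + 21 * Y.κ) * Z.L - C ≤ II Z.g u

/-- A20. The potential on the manifold and the equation of the remainder. -/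
def Weq (Y : L1 X) : Prop := ∃ C : ℝ, 0 ≤ C ∧ Ev Y fun Z => ∀ u p t, Z.Crit u → p ∈ X.fix → 0 < t →
  2 * t ≤ Y.R / 32 → Smooth (Z.Phi u p t) ∧ Smooth (Z.w u p t) ∧ Smooth (extz p (chi t)) ∧
  (∀ y, 0 ≤ Z.Phi u p t y ∧
    Z.Phi u p t y ≤ 2 * ∫ x, (ell X.d x y + 1) * (extz p (chi t) x * Z.rho u x) ∂X.μ) ∧
  49 / 50 * X.nn (Z.w u p t) ≤
    16 * π ^ 2 * (∫ x, X.z (Z.w u p t) x * ((1 - extz p (chi t) x) * Z.rho u x) ∂X.μ) +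
      C * √(X.nn (Z.w u p t)) +
      |Tf Z.s (loc p (X.z (Z.w u p t))) (loc p fun x => u x - Z.psi x)|

/-- A21. The first use of the loop. -/
def Loop1 (Y : L1 X) : Prop := ∀ γ : ℝ, 0 < γ → γ ≤ 1 / 4 → ∃ (C : ℝ) (Cf : ℝ → ℝ),
  Ev Y fun Z => ∀ u p θ, θ ≤ 1 / 4 → Z.Crit u → Z.Conc u p θ γ →
    X.nn (Z.w u p (Z.r / 16)) ≤ C * Z.L ∧ ∃ c : ℝ,
      eN 2 (fun y => ann Z.r y * loc p (fun x => u x - c) y) ≤ Cf Z.r ∧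
      ∫ y in {y : E4 | Y.R / 4 ≤ ‖y‖ ∧ ‖y‖ ≤ Y.R / 2}, (loc p (fun x => u x - c) y ^ 2 +
        D1 (loc p fun x => u x - c) y ^ 2 + lp (loc p fun x => u x - c) y ^ 2) ≤ C * Z.L

/-- A22. The mass near the circles. -/
def Thin (Y : L1 X) : Prop := ∀ γ : ℝ, 0 < γ → γ ≤ 1 / 4 → ∃ Cf : ℝ → ℝ,
  Ev Y fun Z => ∀ u p θ, θ ≤ 1 / 4 → Z.Crit u → Z.Conc u p θ γ → ∀ t : ℝ, 0 < t → t ≤ Z.r / 4 →
    ∫ y in nb Z.r t, Z.rhoE u p y ≤ Cf Z.r * (t * √t) * gain Z.r (Z.rhoE u p)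

/-- A23. The second use of the loop. -/
def Loop2 (Y : L1 X) : Prop := ∀ θ γ : ℝ, 0 < θ → θ ≤ 1 / 4 → 0 < γ → γ ≤ 1 / 4 → ∃ C : ℝ,
  Ev Y fun Z => ∀ u p, Z.Crit u → Z.Conc u p θ γ →
    X.nn (Z.w u p (8 * Z.r ^ (1 - γ))) ≤ 40000 * θ ^ 2 * (1 + Y.a) * Z.L + C

/-- A24. The mass away from the point of concentration. -/
def Out (Y : L1 X) : Prop := ∀ θ γ : ℝ, 0 < θ → θ * (1 + Y.a) ≤ 1 / 1000 → 0 < γ →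
  γ * (4 + Y.a) ≤ 1 → Ev Y fun Z => ∀ u p, Z.Crit u → Z.Conc u p θ γ →
    1 - ∫ y in ball (0 : E4) (Z.r ^ (1 / 8 : ℝ)), Z.rhoE u p y ≤ Z.r * gain Z.r (Z.rhoE u p)

/-- A25. The data of the Pohozaev argument. -/
def PD (Y : L1 X) : Prop := ∀ γ : ℝ, 0 < γ → γ ≤ 1 / 4 → ∃ C : ℝ, ∀ tf : ℝ → ℝ,
  (∀ r, 0 < r → 0 < tf r ∧ tf r ≤ r / 8) → ∃ Ef : ℝ → ℝ, (∀ r, 0 ≤ Ef r) ∧
  Ev Y fun Z => ∀ u p θ, θ ≤ 1 / 4 → Z.Crit u → Z.Conc u p θ γ →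
    ∃ U, PData Y.R Z.r (tf Z.r) Y.m (Z.η * Ef Z.r) (C * Z.L) U (Z.rhoE u p)

/-- A26. Critical points do not concentrate. -/
def NoConc (Y : L1 X) : Prop := ∀ θ γ : ℝ, 0 < θ → θ * (1 + Y.a) ≤ 1 / 1000 → 0 < γ →
  γ * (4 + Y.a) ≤ 1 → Ev Y fun Z => ∀ u p, Z.Crit u → ¬Z.Conc u p θ γ

/-- A metric with a symmetry and an invariant factor below all invariant critical levels. -/
structure Low (g : RMetric M) (J : M → M) (u₀ : M → ℝ) : Prop where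
  nonneg : ∀ φ, Smooth φ → 0 ≤ Bf g φ φ
  tr : ∃ C : ℝ, 0 < C ∧ ∀ w, Smooth w → ∃ c : ℝ, ∫ x, (w x - c) ^ 2 ∂vol g ≤ C * Bf g w w ∧
    ∫ x, exp (8 * (w x - c)) ∂vol g ≤ exp (C * (1 + Bf g w w))
  total : (qf g fun _ => 1) = 8 * π ^ 2
  J_cont : Continuous J
  J_pres : MeasurePreserving J (vol g) (vol g)
  J_sm : ∀ φ, Smooth φ → Smooth fun x => φ (J x)
  J_smOn : ∀ (I : Set ℝ) (w : ℝ → M → ℝ), SmoothOn I w → SmoothOn I fun t x => w t (J x)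
  J_q : ∀ x, qCurv g (J x) = qCurv g x
  J_P : ∀ φ, Smooth φ → ∀ x, paneitz g (fun z => φ (J z)) x = paneitz g φ (J x)
  sm : Smooth u₀
  inv : ∀ x, u₀ (J x) = u₀ x
  low : ∀ u, Smooth u → (∀ x, u (J x) = u x) →
    (∀ φ, Smooth φ → Bf g φ u + 2 * qf g φ =
      16 * π ^ 2 * ((∫ x, φ x * exp (4 * u x) ∂vol g) / ∫ x, exp (4 * u x) ∂vol g)) →
    II g u₀ < II g u

/-- The conclusion for one metric. -/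
def Concl (g : RMetric M) : Prop :=
  (∀ φ : M → ℝ, Smooth φ → 0 ≤ ∫ x, φ x * paneitz g φ x ∂vol g) ∧
  (∀ φ : M → ℝ, Smooth φ → (∀ x, paneitz g φ x = 0) → ∃ c, ∀ x, φ x = c) ∧
  ∫ x, qCurv g x ∂vol g = 8 * π ^ 2 ∧
  ∃ γ : ℝ → RMetric M, IsFlow (Ici 0) γ ∧
    (∃ w : M → ℝ, Smooth w ∧ ∀ x v v', gin (γ 0) x v v' = exp (2 * w x) * gin g x v v') ∧
    ∀ g' : RMetric M,
      (∃ w : M → ℝ, Smooth w ∧ ∀ x v v', gin g' x v v' = exp (2 * w x) * gin g x v v') →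
      (∃ c, ∀ x, qCurv g' x = c) → ∀ t : ℕ → ℝ, (∀ n, 0 ≤ t n) →
        ¬∀ᵐ x ∂vol g, ∀ v v', Tendsto (fun n => gin (γ (t n)) x v v') atTop (𝓝 (gin g' x v v'))

end

/-- A property of all data of level one. -/
def All1 (p : ∀ {M : Type} [TopologicalSpace M] [ChartedSpace E4 M] [IsManifold (𝓡 4) ∞ M]
    [MeasurableSpace M] {X : L0 M}, L1 X → Prop) : Prop :=
  ∀ (M : Type) [TopologicalSpace M] [T2Space M] [CompactSpace M] [ChartedSpace E4 M]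
    [IsManifold (𝓡 4) ∞ M] [MeasurableSpace M] [BorelSpace M] (X : L0 M) (Y : L1 X), p Y

/-- A property of all metrics on closed manifolds. -/
def AllG (p : ∀ {M : Type} [TopologicalSpace M] [ChartedSpace E4 M] [IsManifold (𝓡 4) ∞ M]
    [MeasurableSpace M], RMetric M → Prop) : Prop :=
  ∀ (M : Type) [TopologicalSpace M] [T2Space M] [CompactSpace M] [ChartedSpace E4 M]
    [IsManifold (𝓡 4) ∞ M] [MeasurableSpace M] [BorelSpace M] (g : RMetric M), p g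

def BStmt : Prop := All0 fun _ _ _ _ _ X => BFacts X

def BfStmt : Prop := AllG fun g => BfFacts g

def VolsStmt : Prop := All0 fun _ _ _ _ _ X => VFacts X

def ModifStmt : Prop := All0 fun _ _ _ _ _ X => Modif X

def KIntStmt : Prop := All0 fun _ _ _ _ _ X => KInt X

def ChStmt : Prop := All0 fun _ _ _ _ _ X => Ch X

def RepStmt : Prop := All0 fun _ _ _ _ _ X => Rep X

def DualStmt : Prop := All0 fun _ _ _ _ _ X => Dual X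

def GibStmt : Prop := All0 fun _ _ _ _ _ X => Gib X

def TrudStmt : Prop := All0 fun _ _ _ _ _ X => Trud X

def NearStmt : Prop := All0 fun _ _ _ _ _ X => Near X

def LoopStmt : Prop := All0 fun _ _ _ _ _ X => Loop X

def FlatStmt : Prop := All0 fun _ _ _ _ _ X => Flat X

def FHStmt : Prop := All0 fun _ _ _ _ _ X => FH X

def ZStmt : Prop := All1 fun Y => ∀ Z : L2' Y, ZFacts Z

def ZFormStmt : Prop := All1 fun Y => ∀ Z : L2' Y, ZForm Z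

def LamStmt : Prop := All1 fun Y => Lam Y

def TestStmt : Prop := All1 fun Y => Test Y

def TrapStmt : Prop := All1 fun Y => Trap Y

def WeqStmt : Prop := All1 fun Y => Weq Y

def Loop1Stmt : Prop := All1 fun Y => Loop1 Y

def ThinStmt : Prop := All1 fun Y => Thin Y

def Loop2Stmt : Prop := All1 fun Y => Loop2 Y

def OutStmt : Prop := All1 fun Y => Out Y

def PDStmt : Prop := All1 fun Y => PD Y

def NoConcStmt : Prop := All1 fun Y => NoConc Y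

/-- A27. The metric with a low invariant factor exists. -/
def LowStmt : Prop := All0 fun _ _ _ _ _ X => ∃ g u₀, Low g X.J u₀

/-- A28. The flow from the low factor does not approach a metric of constant Q-curvature. -/
def FlowStmt2 : Prop := AllG fun g => ∀ J u₀, Low g J u₀ → Concl g

end Pool.Agent.MP_417fa2_gt.Q2
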