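import Pool.Agent.MP_417fa2_gt.Q2.Fin

/-! A manifold on which the kernel of the Paneitz operator is the constants is preconnected. -/

open scoped Manifold ContDiff Topology
open MeasureTheory Set Filter

namespace Pool.Agent.MP_417fa2_gt.Q2.Conn

variable {G : E4 → Matrix (Fin 4) (Fin 4) ℝ} {f : E4 → ℝ} {y : E4} {c : ℝ}

theorem pd_ev (h : ∀ᶠ z in 𝓝 y, f z = c) (i : Fin 4) : ∀ᶠ z in 𝓝 y, pd i f z = 0 := by
  filter_upwards [h.eventually_nhds] with z hz
  have : f =ᶠ[𝓝 z] fun _ => c := hz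
  simp [pd, this.fderiv_eq]

theorem grad_ev (h : ∀ᶠ z in 𝓝 y, f z = c) : ∀ᶠ z in 𝓝 y, ∀ i, grad G f i z = 0 := by
  filter_upwards [eventually_all.2 (pd_ev h)] with z hz i
  simp [grad, hz]

theorem dvg_ev {X : Fin 4 → E4 → ℝ} (h : ∀ᶠ z in 𝓝 y, ∀ i, X i z = 0) :
    ∀ᶠ z in 𝓝 y, dvg G X z = 0 := by
  filter_upwards [h, eventually_all.2 fun i => pd_ev (h.mono fun _ hz => hz i) i] with z h1 h2
  simp [dvg, h1, h2]

theorem pan_zero (h : ∀ᶠ z in 𝓝 y, f z = c) : pan G f y = 0 := by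
  have h1 : ∀ᶠ z in 𝓝 y, lap G f z = 0 := dvg_ev (grad_ev h)
  have h2 : ∀ᶠ z in 𝓝 y, lap G (lap G f) z = 0 := dvg_ev (grad_ev h1)
  have h3 : ∀ᶠ z in 𝓝 y,
      dvg G (fun i z => 2 / 3 * scal G z * grad G f i z - 2 * ricGrad G f i z) z = 0 := by
    refine dvg_ev ?_
    filter_upwards [grad_ev (G := G) h] with z hz i
    simp [ricGrad, hz]
  rw [pan, h2.self_of_nhds, h3.self_of_nhds, sub_zero]

theorem preconnected {M : Type} [TopologicalSpace M] [ChartedSpace E4 M] [IsManifold (𝓡 4) ∞ M]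
    (g : RMetric M) (h : ∀ φ : M → ℝ, Smooth φ → (∀ x, paneitz g φ x = 0) → ∃ c, ∀ x, φ x = c) :
    PreconnectedSpace M := by
  refine ⟨isPreconnected_iff_subset_of_disjoint.2 ?_⟩
  intro u v hu hv huv hd
  rw [univ_inter] at hd
  classical
  have hl : ∀ x, ∀ᶠ z in 𝓝 x,
      u.indicator (fun _ => (1 : ℝ)) z = u.indicator (fun _ => (1 : ℝ)) x := by
    intro x
    by_cases hx : x ∈ u
    · filter_upwards [hu.mem_nhds hx] with z hz
      simp [hx, hz]
    · filter_upwards [hv.mem_nhds ((huv (mem_univ x)).resolve_left hx)] with z hz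
      have : z ∉ u := fun h => (hd ▸ (⟨h, hz⟩ : z ∈ u ∩ v) : z ∈ (∅ : Set M))
      simp [hx, this]
  obtain ⟨c, hc⟩ := h (u.indicator fun _ => (1 : ℝ))
    (fun x => contMDiffAt_const.congr_of_eventuallyEq (hl x)) (fun x => by
      refine pan_zero (c := u.indicator (fun _ => (1 : ℝ)) x) ?_
      have h1 : ContinuousAt (param x) (chartAt E4 x x) :=
        (chartAt E4 x).continuousAt_symm (mem_chart_target E4 x)
      have h2 : param x (chartAt E4 x x) = x := (chartAt E4 x).left_inv (mem_chart_source E4 x)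
      rw [ContinuousAt, h2] at h1
      exact h1.eventually (hl x))
  by_cases h1 : c = 1
  · refine Or.inl fun x _ => ?_
    by_contra hx
    have := hc x
    simp [hx, h1] at this
  · refine Or.inr fun x _ => (huv (mem_univ x)).resolve_left fun hx => h1 ?_
    have := hc x
    simpa [hx] using this.symm

end Pool.Agent.MP_417fa2_gt.Q2.Conn
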