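import Pool.Agent.MP_417fa2_gt.Q2.SDefs

/-! Basic facts on the Moebius action of `SU(1,1)` on the disc. -/

open scoped ContDiff ComplexConjugate
open Set Metric

namespace Pool.Agent.MP_417fa2_gt.Q2

namespace SU

variable (γ γ' : SU) {z w : ℂ}

theorem norm_sq_a : ‖γ.a‖ ^ 2 = 1 + ‖γ.b‖ ^ 2 := by
  have := γ.h
  rw [Complex.normSq_eq_norm_sq, Complex.normSq_eq_norm_sq] at this
  linarith

theorem norm_b_lt : ‖γ.b‖ < ‖γ.a‖ :=
  lt_of_pow_lt_pow_left₀ 2 (norm_nonneg _) (by rw [norm_sq_a]; linarith)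

theorem one_le_norm_a : 1 ≤ ‖γ.a‖ :=
  le_of_sq_le_sq (by rw [norm_sq_a]; nlinarith [sq_nonneg ‖γ.b‖]) (norm_nonneg _)

theorem den_ne (hz : ‖z‖ < 1) : conj γ.b * z + conj γ.a ≠ 0 := by
  intro h
  have h1 : conj γ.a = -(conj γ.b * z) := by linear_combination h
  have h2 : ‖γ.a‖ = ‖γ.b‖ * ‖z‖ := by
    simpa using congrArg norm h1
  nlinarith [γ.norm_b_lt, norm_nonneg γ.b, norm_nonneg z]

theorem normSq_den_sub (z : ℂ) :
    ‖conj γ.b * z + conj γ.a‖ ^ 2 - ‖γ.a * z + γ.b‖ ^ 2 = 1 - ‖z‖ ^ 2 := by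
  have h := γ.h
  simp only [← Complex.normSq_eq_norm_sq, Complex.normSq_apply, Complex.add_re, Complex.add_im,
    Complex.mul_re, Complex.mul_im, Complex.conj_re, Complex.conj_im] at h ⊢
  linear_combination (1 - (z.re * z.re + z.im * z.im)) * h

theorem one_sub_act (hz : ‖z‖ < 1) :
    1 - ‖γ.act z‖ ^ 2 = (1 - ‖z‖ ^ 2) / ‖conj γ.b * z + conj γ.a‖ ^ 2 := by
  have h := norm_ne_zero_iff.2 (γ.den_ne hz)
  rw [act, norm_div, div_pow, ← γ.normSq_den_sub z, sub_div, div_self (pow_ne_zero 2 h)]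

theorem act_lt (hz : ‖z‖ < 1) : ‖γ.act z‖ < 1 := by
  have h := norm_pos_iff.2 (γ.den_ne hz)
  have h1 : 0 < 1 - ‖γ.act z‖ ^ 2 := by
    rw [γ.one_sub_act hz]
    exact div_pos (by nlinarith [norm_nonneg z]) (by positivity)
  nlinarith [norm_nonneg (γ.act z)]

@[simp] theorem one_act (z : ℂ) : (1 : SU).act z = z := by simp [act]

@[simp] theorem neg1_act (z : ℂ) : neg1.act z = z := by simp [act, neg1]

theorem mul_act (hz : ‖z‖ < 1) : (γ * γ').act z = γ.act (γ'.act z) := by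
  have h1 := γ'.den_ne hz
  have h4 : γ.act (γ'.act z) = (γ.a * γ'.act z + γ.b) * (conj γ'.b * z + conj γ'.a) /
      ((conj γ.b * γ'.act z + conj γ.a) * (conj γ'.b * z + conj γ'.a)) := by
    rw [mul_div_mul_right _ _ h1, act]
  have h5 : γ'.act z * (conj γ'.b * z + conj γ'.a) = γ'.a * z + γ'.b := div_mul_cancel₀ _ h1
  rw [h4, act]
  simp only [mul_a, mul_b, map_add, map_mul, Complex.conj_conj]
  congr 1
  · linear_combination (-γ.a) * h5
  · linear_combination (-conj γ.b) * h5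

theorem inv_act_act (hz : ‖z‖ < 1) : γ⁻¹.act (γ.act z) = z := by
  rw [← mul_act _ _ hz, inv_mul_cancel, one_act]

theorem act_inv_act (hz : ‖z‖ < 1) : γ.act (γ⁻¹.act z) = z := by
  rw [← mul_act _ _ hz, mul_inv_cancel, one_act]

theorem act_sub (hz : ‖z‖ < 1) (hw : ‖w‖ < 1) : γ.act z - γ.act w =
    (z - w) / ((conj γ.b * z + conj γ.a) * (conj γ.b * w + conj γ.a)) := by
  have h1 := γ.den_ne hz
  have h2 := γ.den_ne hw
  rw [act, act, div_sub_div _ _ h1 h2]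
  congr 1
  linear_combination (z - w) * γ.det

theorem hasDerivAt_act (hz : ‖z‖ < 1) :
    HasDerivAt γ.act (1 / (conj γ.b * z + conj γ.a) ^ 2) z := by
  have h1 := γ.den_ne hz
  refine (((((hasDerivAt_id z).const_mul γ.a).add_const γ.b).div
    (((hasDerivAt_id z).const_mul (conj γ.b)).add_const (conj γ.a)) h1)).congr_deriv ?_
  simp only [id]
  congr 1
  linear_combination γ.det

theorem contDiffOn_act : ContDiffOn ℂ ∞ γ.act (ball 0 1) :=
  ContDiffOn.div (by fun_prop) (by fun_prop) fun _ hz => γ.den_ne (mem_ball_zero_iff.1 hz)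

theorem contDiffOn_act_real : ContDiffOn ℝ ∞ γ.act (ball 0 1) := γ.contDiffOn_act.restrict_scalars ℝ

theorem mapsTo_act : MapsTo γ.act (ball 0 1) (ball 0 1) := fun _ hz =>
  mem_ball_zero_iff.2 (γ.act_lt (mem_ball_zero_iff.1 hz))

theorem zeta_sq : zeta ^ 2 = Complex.I := by
  have h : ((√2 : ℝ) : ℂ) ^ 2 = 2 := by exact_mod_cast Real.sq_sqrt (by norm_num : (0 : ℝ) ≤ 2)
  rw [zeta, div_pow, h]
  linear_combination (1 / 2 : ℂ) * Complex.I_sq

theorem j_act (z : ℂ) : j.act z = Complex.I * z := by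
  have h : zeta * conj zeta = 1 := by rw [Complex.mul_conj, normSq_zeta]; simp
  have h0 : conj zeta ≠ 0 := right_ne_zero_of_mul_eq_one h
  simp only [act, j, map_zero, zero_mul, add_zero, zero_add]
  rw [div_eq_iff h0, ← zeta_sq]
  linear_combination (-zeta * z) * h

/-- An element that fixes the origin is a rotation. -/
theorem act_of_fix (h : γ.act 0 = 0) : ∃ u : ℂ, ‖u‖ = 1 ∧ ∀ z, γ.act z = u * z := by
  have h0 := γ.den_ne (z := 0) (by simp)
  simp only [mul_zero, zero_add] at h0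
  have hb : γ.b = 0 := by simpa [act, h0] using h
  refine ⟨γ.a / conj γ.a, ?_, fun z => by simp [act, hb]; ring⟩
  rw [norm_div, Complex.norm_conj, div_self (by simpa using h0)]

/-- Conjugation keeps the half trace. -/
theorem re_conj : (γ * γ' * γ⁻¹).a.re = γ'.a.re := by
  have h := γ.h
  simp only [mul_a, mul_b, inv_a, inv_b, map_neg, Complex.normSq_apply, Complex.add_re,
    Complex.add_im, Complex.mul_re, Complex.mul_im, Complex.conj_re, Complex.conj_im,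
    Complex.neg_re, Complex.neg_im] at h ⊢
  linear_combination γ'.a.re * h

theorem one_sub_act_zero : 1 - ‖γ.act 0‖ ^ 2 = 1 / ‖γ.a‖ ^ 2 := by
  simpa using γ.one_sub_act (z := 0) (by simp)

end SU

variable {p z w : ℂ}

/-- Translations belong to the group. -/
theorem exists_tl (hp : ‖p‖ < 1) : ∃ τ : SU, ∀ z, τ.act z = mob p z := by
  have h1 : 0 < 1 - ‖p‖ ^ 2 := by nlinarith [norm_nonneg p]
  set k : ℝ := (√(1 - ‖p‖ ^ 2))⁻¹ with hk
  have hk0 : (k : ℂ) ≠ 0 := by exact_mod_cast (inv_pos.2 (Real.sqrt_pos.2 h1)).ne'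
  have hk2 : k * k * (1 - ‖p‖ ^ 2) = 1 := by
    rw [hk, ← mul_inv, Real.mul_self_sqrt h1.le, inv_mul_cancel₀ h1.ne']
  refine ⟨⟨k, k * p, ?_⟩, fun z => ?_⟩
  · rw [map_mul, Complex.normSq_ofReal, Complex.normSq_eq_norm_sq p]
    linear_combination hk2
  · simp only [SU.act, mob, map_mul, Complex.conj_ofReal]
    rw [← mul_div_mul_left (z + p) _ hk0]
    congr 1 <;> ring

@[simp] theorem mob_zero (p : ℂ) : mob p 0 = p := by simp [mob]

@[simp] theorem zero_mob (z : ℂ) : mob 0 z = z := by simp [mob]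

theorem mob_lt (hp : ‖p‖ < 1) (hz : ‖z‖ < 1) : ‖mob p z‖ < 1 := by
  obtain ⟨τ, h⟩ := exists_tl hp
  rw [← h]
  exact τ.act_lt hz

theorem pd_den_ne (hz : ‖z‖ < 1) (hw : ‖w‖ < 1) : 1 - conj w * z ≠ 0 := by
  intro h
  have h1 : (1 : ℂ) = conj w * z := by linear_combination h
  have h2 : (1 : ℝ) = ‖w‖ * ‖z‖ := by simpa using congrArg norm h1
  nlinarith [norm_nonneg w, norm_nonneg z]

theorem pdist_nonneg (z w : ℂ) : 0 ≤ pdist z w := by unfold pdist; positivity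

@[simp] theorem pdist_zero (z : ℂ) : pdist z 0 = ‖z‖ := by simp [pdist]

@[simp] theorem pdist_self (z : ℂ) : pdist z z = 0 := by simp [pdist]

theorem pdist_comm (z w : ℂ) : pdist z w = pdist w z := by
  rw [pdist, pdist, norm_sub_rev, ← Complex.norm_conj (1 - conj w * z)]
  simp [mul_comm]

theorem one_sub_pdist (hz : ‖z‖ < 1) (hw : ‖w‖ < 1) :
    1 - pdist z w ^ 2 = (1 - ‖z‖ ^ 2) * (1 - ‖w‖ ^ 2) / ‖1 - conj w * z‖ ^ 2 := by
  have h := norm_ne_zero_iff.2 (pd_den_ne hz hw)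
  have h1 : ‖1 - conj w * z‖ ^ 2 - ‖z - w‖ ^ 2 = (1 - ‖z‖ ^ 2) * (1 - ‖w‖ ^ 2) := by
    simp only [← Complex.normSq_eq_norm_sq, Complex.normSq_apply, Complex.sub_re, Complex.sub_im,
      Complex.mul_re, Complex.mul_im, Complex.conj_re, Complex.conj_im, Complex.one_re,
      Complex.one_im]
    ring
  rw [pdist, div_pow, ← h1, sub_div, div_self (pow_ne_zero 2 h)]

theorem pdist_lt_one (hz : ‖z‖ < 1) (hw : ‖w‖ < 1) : pdist z w < 1 := by
  have h := norm_pos_iff.2 (pd_den_ne hz hw)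
  have h1 : 0 < 1 - pdist z w ^ 2 := by
    rw [one_sub_pdist hz hw]
    exact div_pos (mul_pos (by nlinarith [norm_nonneg z]) (by nlinarith [norm_nonneg w]))
      (by positivity)
  nlinarith [pdist_nonneg z w]

theorem pdist_act (γ : SU) (hz : ‖z‖ < 1) (hw : ‖w‖ < 1) :
    pdist (γ.act z) (γ.act w) = pdist z w := by
  have h1 := γ.den_ne hz
  have h2 := γ.den_ne hw
  have h3 : γ.b * conj w + γ.a ≠ 0 := by
    intro h
    apply h2
    simpa using congrArg conj h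
  have h4 : 1 - conj (γ.act w) * γ.act z =
      (1 - conj w * z) / ((conj γ.b * z + conj γ.a) * (γ.b * conj w + γ.a)) := by
    simp only [SU.act, map_div₀, map_add, map_mul, Complex.conj_conj]
    rw [div_mul_div_comm, mul_comm (γ.b * conj w + γ.a), one_sub_div (mul_ne_zero h1 h3)]
    congr 1
    linear_combination (1 - conj w * z) * γ.det
  have h5 : ‖γ.b * conj w + γ.a‖ = ‖conj γ.b * w + conj γ.a‖ := by
    rw [← Complex.norm_conj]
    simp
  have h6 := norm_ne_zero_iff.2 h1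
  have h7 := norm_ne_zero_iff.2 h2
  rw [pdist, pdist, γ.act_sub hz hw, h4, norm_div, norm_div, norm_mul, norm_mul, h5,
    div_div_div_cancel_right₀ (mul_ne_zero h6 h7)]

theorem pdist_mob (hp : ‖p‖ < 1) (hz : ‖z‖ < 1) (hw : ‖w‖ < 1) :
    pdist (mob p z) (mob p w) = pdist z w := by
  obtain ⟨τ, h⟩ := exists_tl hp
  rw [← h, ← h, pdist_act τ hz hw]

theorem pdist_mob_self (hp : ‖p‖ < 1) (hz : ‖z‖ < 1) : pdist (mob p z) p = ‖z‖ := by
  simpa using pdist_mob hp hz (w := 0) (by simp)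

/-- Every point of the disc is a translate. -/
theorem exists_mob (hp : ‖p‖ < 1) (hz : ‖z‖ < 1) : ∃ η, ‖η‖ < 1 ∧ mob p η = z ∧ ‖η‖ = pdist z p := by
  obtain ⟨τ, h⟩ := exists_tl hp
  have h1 := τ⁻¹.act_lt hz
  have h2 : mob p (τ⁻¹.act z) = z := by rw [← h, τ.act_inv_act hz]
  exact ⟨_, h1, h2, by rw [← pdist_mob_self hp h1, h2]⟩

/-- Two points within `ϱ` of the origin. -/
theorem one_sub_pdist_ge {ϱ : ℝ} (hϱ : ϱ < 1) (hz : ‖z‖ ≤ ϱ) (hw : ‖w‖ ≤ ϱ) :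
    ((1 - ϱ ^ 2) / (1 + ϱ ^ 2)) ^ 2 ≤ 1 - pdist z w ^ 2 := by
  have h0 := (norm_nonneg z).trans hz
  have h := norm_pos_iff.2 (pd_den_ne (hz.trans_lt hϱ) (hw.trans_lt hϱ))
  have h1 : ‖1 - conj w * z‖ ≤ 1 + ϱ ^ 2 := by
    refine (norm_sub_le _ _).trans ?_
    simp only [norm_one, norm_mul, Complex.norm_conj]
    nlinarith [mul_le_mul hw hz (norm_nonneg z) h0]
  rw [one_sub_pdist (hz.trans_lt hϱ) (hw.trans_lt hϱ), div_pow]
  have h2 : 0 ≤ 1 - ϱ ^ 2 := by nlinarith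
  have h3 : 1 - ϱ ^ 2 ≤ 1 - ‖z‖ ^ 2 := by nlinarith [norm_nonneg z]
  have h4 : 1 - ϱ ^ 2 ≤ 1 - ‖w‖ ^ 2 := by nlinarith [norm_nonneg w]
  gcongr
  · exact mul_nonneg (h2.trans h3) (h2.trans h4)
  · rw [sq]
    exact mul_le_mul h3 h4 h2 (h2.trans h3)

theorem pdist_le_add (hz : ‖z‖ < 1) (hw : ‖w‖ < 1) : pdist z w ≤ ‖z‖ + ‖w‖ := by
  have h := norm_pos_iff.2 (pd_den_ne hz hw)
  have a0 := norm_nonneg z
  have b0 := norm_nonneg w
  have h1 : ‖1 - conj w * z‖ ≤ 1 + ‖z‖ * ‖w‖ := by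
    refine (norm_sub_le _ _).trans ?_
    simp [mul_comm]
  have h2 : (1 - ‖z‖ ^ 2) * (1 - ‖w‖ ^ 2) / (1 + ‖z‖ * ‖w‖) ^ 2 ≤ 1 - pdist z w ^ 2 := by
    rw [one_sub_pdist hz hw]
    gcongr
    exact mul_nonneg (by nlinarith) (by nlinarith)
  have h3 : 1 - (‖z‖ + ‖w‖) ^ 2 ≤ (1 - ‖z‖ ^ 2) * (1 - ‖w‖ ^ 2) / (1 + ‖z‖ * ‖w‖) ^ 2 := by
    rw [le_div_iff₀ (by positivity)]
    have h4 : 0 ≤ (‖z‖ + ‖w‖) ^ 2 * ((1 + ‖z‖ * ‖w‖) ^ 2 - 1) :=
      mul_nonneg (sq_nonneg _) (by nlinarith [mul_nonneg a0 b0])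
    nlinarith
  exact le_of_sq_le_sq (by linarith) (by positivity)

theorem pdist_triangle (hz : ‖z‖ < 1) (hp : ‖p‖ < 1) (hw : ‖w‖ < 1) :
    pdist z w ≤ pdist z p + pdist p w := by
  obtain ⟨η, h1, h2, h3⟩ := exists_mob hp hz
  obtain ⟨ξ, h4, h5, h6⟩ := exists_mob hp hw
  rw [← h3, pdist_comm p w, ← h6, ← h2, ← h5, pdist_mob hp h1 h4]
  exact pdist_le_add h1 h4

/-- The displacement of an element is bounded below by its half trace. -/
theorem one_sub_disp_le (γ : SU) {T : ℝ} (hT : 0 < T) (h : T ≤ |γ.a.re|) (hz : ‖z‖ < 1) :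
    1 - pdist (γ.act z) z ^ 2 ≤ 1 / T ^ 2 := by
  obtain ⟨τ, hτ⟩ := exists_tl hz
  have h0 : τ.act 0 = z := by rw [hτ, mob_zero]
  have h1 : pdist (γ.act z) z = ‖(τ⁻¹ * γ * τ).act 0‖ := by
    rw [SU.mul_act _ _ (by simp), SU.mul_act _ _ (h0 ▸ hz), h0, ← pdist_zero,
      ← pdist_act τ (τ⁻¹.act_lt (γ.act_lt hz)) (by simp), τ.act_inv_act (γ.act_lt hz), h0]
  have h2 : (τ⁻¹ * γ * τ).a.re = γ.a.re := by simpa using SU.re_conj τ⁻¹ γ
  rw [h1, SU.one_sub_act_zero]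
  gcongr
  exact (h2 ▸ h).trans (Complex.abs_re_le_norm _)

end Pool.Agent.MP_417fa2_gt.Q2
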