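import Pool.Agent.MP_417fa2_gt.An.Main
import Pool.Agent.MP_417fa2_gt.Q2.Mob

/-!
Definitions for the four-dimensional layers: block metrics, kernels, tubes, the product of two
surfaces, and the three levels of data of the counterexample.
-/

open scoped Manifold ContDiff ComplexConjugate
open MeasureTheory Set Metric Real

namespace Pool.Agent.MP_417fa2_gt.Q2

open DE (lp)

/-! Coordinates. -/

/-- The first complex coordinate. -/
def zc (y : E4) : ℂ := ⟨y 0, y 1⟩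

/-- The second complex coordinate. -/
def wc (y : E4) : ℂ := ⟨y 2, y 3⟩

/-- The point with complex coordinates `z`, `w`. -/
def mkE (z w : ℂ) : E4 := !₂[z.re, z.im, w.re, w.im]

/-- `|z|²`. -/
def zsq (y : E4) : ℝ := y 0 ^ 2 + y 1 ^ 2

/-- `|w|²`. -/
def wsq (y : E4) : ℝ := y 2 ^ 2 + y 3 ^ 2

/-- Multiplication of the two complex coordinates. -/
def rot (u₁ u₂ : ℂ) (y : E4) : E4 := mkE (u₁ * zc y) (u₂ * wc y)

/-- The scale of the second factor. -/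
noncomputable def cc : ℝ := 10 / 9

/-- The radius of the charts. -/
noncomputable def r0 : ℝ := 1 / 10

/-- The radius of the standard cut-off. -/
noncomputable def r1 : ℝ := 1 / 25

/-- A radial cut-off: one for `‖y‖ ≤ t`, zero for `‖y‖ ≥ 2 t`. -/
noncomputable def chi (t : ℝ) (y : E4) : ℝ := smoothTransition ((4 - ‖y‖ ^ 2 / t ^ 2) / 3)

/-- An annular cut-off: one for `r / 2 ≤ ‖y‖ ≤ 2 r`, zero for `‖y‖ ≤ r / 4` and `‖y‖ ≥ 4 r`. -/
noncomputable def ann (r : ℝ) (y : E4) : ℝ := chi (2 * r) y * (1 - chi (r / 4) y)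

/-- The size of the gradient. -/
noncomputable def D1 (φ : E4 → ℝ) (y : E4) : ℝ := √(∑ i, pd i φ y ^ 2)

/-- The size of the Hessian. -/
noncomputable def D2 (φ : E4 → ℝ) (y : E4) : ℝ := √(∑ i, ∑ j, pd i (pd j φ) y ^ 2)

/-! Block metrics. -/

/-- The metric `e^{2f} |dz|² + e^{2h} |dw|²`. -/
noncomputable def blk (f h : E4 → ℝ) (y : E4) : Matrix (Fin 4) (Fin 4) ℝ :=
  Matrix.diagonal ![exp (2 * f y), exp (2 * f y), exp (2 * h y), exp (2 * h y)]

/-- The metric `e^{2s} |dz|² + |dw|²`. -/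
noncomputable def Gs (s : E4 → ℝ) : E4 → Matrix (Fin 4) (Fin 4) ℝ := blk s fun _ => 0

/-- The factor of the first hyperbolic disc. -/
noncomputable def f0 (y : E4) : ℝ := -log (1 - zsq y)

/-- The factor of the second hyperbolic disc. -/
noncomputable def h0 (y : E4) : ℝ := -log (1 - wsq y / cc ^ 2)

/-- The conformal class of the product. -/
noncomputable def s0 (y : E4) : ℝ := f0 y - h0 y

/-- The density of the product metric. -/
noncomputable def rh (y : E4) : ℝ := exp (2 * f0 y + 2 * h0 y)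

/-- The density of the bilinear form of the Paneitz operator. -/
noncomputable def bform (G : E4 → Matrix (Fin 4) (Fin 4) ℝ) (φ ψ : E4 → ℝ) (y : E4) : ℝ :=
  dens G y * (lap G φ y * lap G ψ y - ∑ a, ∑ b, aco G a b y * pd a φ y * pd b ψ y)

/-- The Paneitz operator of `Gs s` times the volume density. -/
noncomputable def pp (s φ : E4 → ℝ) (y : E4) : ℝ := dens (Gs s) y * pan (Gs s) φ y

/-- The Q-curvature of `Gs s` times the volume density. -/
noncomputable def qd (s : E4 → ℝ) (y : E4) : ℝ := dens (Gs s) y * qcurv (Gs s) y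

/-- The quadratic part `(3 |Ric|² - R²) √det` of the Q-curvature of `Gs s`. -/
noncomputable def sg (s : E4 → ℝ) (y : E4) : ℝ :=
  dens (Gs s) y * (3 * ricSq (Gs s) y - scal (Gs s) y ^ 2)

/-- The Laplacian in `z`. -/
noncomputable def lz (φ : E4 → ℝ) (y : E4) : ℝ := pd 0 (pd 0 φ) y + pd 1 (pd 1 φ) y

/-- The Laplacian in `w`. -/
noncomputable def lw (φ : E4 → ℝ) (y : E4) : ℝ := pd 2 (pd 2 φ) y + pd 3 (pd 3 φ) y

/-- The leading term of `sg s`. -/
noncomputable def quad (s : E4 → ℝ) (y : E4) : ℝ :=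
  6 * (lz s y + lw s y) ^ 2 +
    12 * (pd 2 (pd 2 s) y ^ 2 + 2 * pd 2 (pd 3 s) y ^ 2 + pd 3 (pd 3 s) y ^ 2) +
    6 * (pd 0 (pd 2 s) y ^ 2 + pd 0 (pd 3 s) y ^ 2 + pd 1 (pd 2 s) y ^ 2 + pd 1 (pd 3 s) y ^ 2) -
    4 * (lz s y + 2 * lw s y) ^ 2

/-- The change of the bilinear form with respect to the flat one. -/
noncomputable def Tf (s φ ψ : E4 → ℝ) : ℝ := ∫ y, (bform (Gs s) φ ψ y - lp φ y * lp ψ y)

/-! Kernels. -/

/-- The regularized fundamental solution of the bi-Laplacian. -/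
noncomputable def gam (ε : ℝ) (y : E4) : ℝ := -(1 / (16 * π ^ 2)) * log (‖y‖ ^ 2 + ε ^ 2)

/-- Its bi-Laplacian, an approximate identity. -/
noncomputable def kk (ε : ℝ) (y : E4) : ℝ := 6 * ε ^ 4 / (π ^ 2 * (‖y‖ ^ 2 + ε ^ 2) ^ 4)

/-- The kernel with a cut-off. -/
noncomputable def KK (t ε : ℝ) (y : E4) : ℝ := chi t y * gam ε y

/-- The potential of a density. -/
noncomputable def pot (R : ℝ) (σ : E4 → ℝ) (y : E4) : ℝ :=
  16 * π ^ 2 * ∫ x, KK (R / 32) 0 (y - x) * σ x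

/-! Circles and tubes. -/

/-- The two circles `|z| = r, w = 0` and `z = 0, |w| = r`. -/
noncomputable def circ (i : Fin 2) (r θ : ℝ) : E4 :=
  if i = 0 then !₂[r * cos θ, r * sin θ, 0, 0] else !₂[0, 0, r * cos θ, r * sin θ]

/-- The mean over a circle. -/
noncomputable def av (i : Fin 2) (r : ℝ) (φ : E4 → ℝ) : ℝ :=
  1 / (2 * π) * ∫ θ in (0 : ℝ)..2 * π, φ (circ i r θ)

/-- A smooth substitute for the squared distance to a circle. -/
noncomputable def ee (i : Fin 2) (r : ℝ) (y : E4) : ℝ :=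
  if i = 0 then ((zsq y - r ^ 2) / (2 * r)) ^ 2 + wsq y else ((wsq y - r ^ 2) / (2 * r)) ^ 2 + zsq y

/-- The tubes of size `t` round the two circles. -/
def nb (r t : ℝ) : Set E4 := {y | ∃ i, ee i r y < t ^ 2}

/-- Functions of `|z|` and `|w|`. -/
def Rad (s : E4 → ℝ) : Prop := ∀ y y', zsq y = zsq y' → wsq y = wsq y' → s y = s y'

/-- A profile in one tube round a unit circle, of total Q-curvature `-m`. -/
structure Prof (i : Fin 2) (m τ C : ℝ) (s : E4 → ℝ) : Prop where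
  sm : Tst s
  supp : ∀ y, τ ^ 2 ≤ ee i 1 y → s y = 0
  rad : Rad s
  d0 : ∀ y, |s y| ≤ C * √τ
  d1 : ∀ y, D1 s y ≤ C * √τ / τ
  d2 : ∀ y, D2 s y ≤ C * √τ / τ ^ 2
  mass : ∫ y, qd s y = -m

/-- The perturbation of the flat metric in the two tubes. -/
structure Tube (m r η CT : ℝ) (s : E4 → ℝ) : Prop where
  sm : Tst s
  supp : ∀ y, y ∉ nb r (η / 2) → s y = 0
  rad : Rad s
  bd : ∀ y, |s y| ≤ η
  t1 : ∀ φ ψ, Tst φ → Tst ψ → |Tf s φ ψ| ≤ η * √(eN 2 φ) * √(eN 2 ψ)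
  t2 : ∫ y, qd s y = -m
  t3 : ∀ φ, Tst φ → |(∫ y, qd s y * φ y) + m * ⨍ y in ball (0 : E4) r, φ y| ≤ CT * √(eN 2 φ)
  t4 : ∀ φ, Tst φ → ∀ K, (∀ y ∈ nb r η, D1 φ y ≤ K ∧ D2 φ y ≤ K) →
    |(∫ y, qd s y * φ y) + m / 2 * (av 0 r φ + av 1 r φ)| ≤ η * K

/-! The Pohozaev argument. -/

/-- The cut-off of the dilation field. -/
noncomputable def cut (r t lam : ℝ) (y : E4) : ℝ :=
  chi lam y * smoothTransition ((ee 0 r y / t ^ 2 - 1) / 3) *
    smoothTransition ((ee 1 r y / t ^ 2 - 1) / 3)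

/-- The divergence of the field `cut · y`. -/
noncomputable def dvX (r t lam : ℝ) (y : E4) : ℝ := ∑ i, pd i (fun x => cut r t lam x * x i) y

/-- The test function. -/
noncomputable def YY (r t lam ε : ℝ) (ρ : E4 → ℝ) (y : E4) : ℝ :=
  ∑ i, ∫ x, cut r t lam x * x i * pd i (gam ε) (y - x) * ρ x

/-- The gain. -/
noncomputable def gain (r : ℝ) (ρ : E4 → ℝ) : ℝ := ∫ y, min (‖y‖ ^ 2 / r ^ 2) 1 * ρ y

/-- An even density of mass at most one. -/
structure Den (ρ : E4 → ℝ) : Prop where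
  sm : Tst ρ
  nonneg : ∀ y, 0 ≤ ρ y
  even : ∀ y, ρ (-y) = ρ y
  mass : ∫ y, ρ y ≤ 1

/-- The data of the Pohozaev argument. -/
structure PData (R r t m E H : ℝ) (U ρ : E4 → ℝ) : Prop where
  sm : Tst U
  den : Den ρ
  ex : ∃ A : ℝ, ∀ y, ‖y‖ < R → y ∉ nb r (t / 2) → ρ y = A * exp (4 * U y)
  eqn : ∀ φ, Tst φ → (∀ y, R / 2 ≤ ‖y‖ → φ y = 0) → ∀ K,
    (∀ y ∈ nb r (t / 2), |φ y| ≤ K ∧ D1 φ y ≤ K ∧ D2 φ y ≤ K) →
    |(∫ y, lp U y * lp φ y) - m * (av 0 r φ + av 1 r φ) - 16 * π ^ 2 * ∫ y, φ y * ρ y| ≤ E * K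
  ann : ∫ y in {y : E4 | R / 4 ≤ ‖y‖ ∧ ‖y‖ ≤ R / 2}, (U y ^ 2 + D1 U y ^ 2 + lp U y ^ 2) ≤ H

/-! The manifold. -/

section Manifold

variable {M : Type} [TopologicalSpace M] [ChartedSpace E4 M]

/-- The bidisc. -/
def DD : Set (ℂ × ℂ) := ball 0 1 ×ˢ ball 0 1

/-- `M` is the quotient of the bidisc, with centred charts. -/
structure Model {T₁ T₂ : ℝ} (L₁ : Lat T₁) (L₂ : Lat T₂) (M : Type) [TopologicalSpace M]
    [ChartedSpace E4 M] where
  proj : ℂ × ℂ → M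
  lift : M → ℂ × ℂ
  lift_mem : ∀ x, lift x ∈ DD
  proj_lift : ∀ x, proj (lift x) = x
  proj_eq : ∀ p ∈ DD, ∀ q ∈ DD,
    proj p = proj q ↔ ∃ γ₁ ∈ L₁.Γ, ∃ γ₂ ∈ L₂.Γ, γ₁.act p.1 = q.1 ∧ γ₂.act p.2 = q.2
  cont : ContinuousOn proj DD
  opn : ∀ U ⊆ DD, IsOpen U → IsOpen (proj '' U)
  atl : ∀ e ∈ atlas E4 M, ∃ x, e = chartAt E4 x
  ctr : ∀ x : M, chartAt E4 x x = 0
  tgt : ∀ x : M, (chartAt E4 x).target = ball 0 r0
  par : ∀ x y, ‖y‖ < r0 → param x y = proj (mob (lift x).1 (zc y), mob (lift x).2 (wc y / cc))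

/-- The distance of the model. -/
noncomputable def Model.d {T₁ T₂ : ℝ} {L₁ : Lat T₁} {L₂ : Lat T₂} (Q : Model L₁ L₂ M) (x y : M) :
    ℝ :=
  √(dq L₁.Γ (Q.lift x).1 (Q.lift y).1 ^ 2 + cc ^ 2 * dq L₂.Γ (Q.lift x).2 (Q.lift y).2 ^ 2)

/-- The symmetry of the model. -/
noncomputable def Model.J {T₁ T₂ : ℝ} {L₁ : Lat T₁} {L₂ : Lat T₂} (Q : Model L₁ L₂ M) (x : M) : M :=
  Q.proj (Complex.I * (Q.lift x).1, Complex.I * (Q.lift x).2)

/-- The Laplacian of the first factor, on the bidisc. -/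
noncomputable def op1 (Φ : ℂ × ℂ → ℝ) (p : ℂ × ℂ) : ℝ := L2 (fun z => Φ (z, p.2)) p.1

/-- The Laplacian of the second factor, on the bidisc. -/
noncomputable def op2 (Φ : ℂ × ℂ → ℝ) (p : ℂ × ℂ) : ℝ := 1 / cc ^ 2 * L2 (fun w => Φ (p.1, w)) p.2

/-- A distance adapted to centred charts. -/
structure DFacts (d : M → M → ℝ) : Prop where
  cont : Continuous fun p : M × M => d p.1 p.2
  nonneg : ∀ x y, 0 ≤ d x y
  symm : ∀ x y, d x y = d y x
  tri : ∀ x y z, d x z ≤ d x y + d y z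
  ctr : ∀ x : M, chartAt E4 x x = 0
  tgt : ∀ x : M, (chartAt E4 x).target = ball 0 r0
  src : ∀ x y : M, y ∈ (chartAt E4 x).source ↔ d x y < r0
  par : ∀ x y, ‖y‖ < r0 → d x (param x y) = ‖y‖
  lo : ∀ x y y', ‖y‖ < r0 → ‖y'‖ < r0 → ‖y - y'‖ ≤ 6 / 5 * d (param x y) (param x y')
  hi : ∀ x y y', ‖y‖ < r0 → ‖y'‖ < r0 → d (param x y) (param x y') ≤ 6 / 5 * ‖y - y'‖

/-- A symmetry of order four that rotates the charts. -/
structure JFacts (d : M → M → ℝ) (J : M → M) (fix : Finset M) : Prop where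
  four : ∀ x, J (J (J (J x))) = x
  iso : ∀ x y, d (J x) (J y) = d x y
  chart : ∀ x, ∃ u₁ u₂ : ℂ, ‖u₁‖ = 1 ∧ ‖u₂‖ = 1 ∧ (J x = x → u₁ ^ 2 = -1 ∧ u₂ ^ 2 = -1) ∧
    ∀ y, ‖y‖ < r0 → J (param x y) = param (J x) (rot u₁ u₂ y)
  mem : ∀ x, x ∈ fix ↔ J x = x
  ne : fix.Nonempty

/-- Localization of a function in the chart at `x`. -/
noncomputable def loc (x : M) (φ : M → ℝ) (y : E4) : ℝ := chi r1 y * φ (param x y)

/-- Extension by zero of a function of the coordinates at `x`. -/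
noncomputable def extz (x : M) (F : E4 → ℝ) : M → ℝ :=
  (chartAt E4 x).source.indicator fun z => F (chartAt E4 x z)

/-- The positive part of `log (1 / d)`. -/
noncomputable def ell (d : M → M → ℝ) (x y : M) : ℝ := max (-log (d x y)) 0

variable [IsManifold (𝓡 4) ∞ M]

/-- `g = e^{2F} g₁ + e^{2H} g₂`, where `g₁ + g₂` is the product metric. -/
def IsBlk (g : RMetric M) (F H : M → ℝ) : Prop := ∀ x y, ‖y‖ < r0 →
  gmat g x y = blk (fun z => f0 z + F (param x z)) (fun z => h0 z + H (param x z)) y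

variable [MeasurableSpace M]

/-- The logarithmic energy of a density. -/
noncomputable def En (d : M → M → ℝ) (μ : Measure M) (ρ : M → ℝ) : ℝ :=
  ∫ y, ρ y * ∫ x, ell d x y * ρ x ∂μ ∂μ

/-- The bilinear form of the Paneitz operator. -/
noncomputable def Bf (g : RMetric M) (φ ψ : M → ℝ) : ℝ := ∫ x, φ x * paneitz g ψ x ∂vol g

/-- Integration against the Q-curvature. -/
noncomputable def qf (g : RMetric M) (φ : M → ℝ) : ℝ := ∫ x, qCurv g x * φ x ∂vol g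

/-- The functional at total Q-curvature `8 π²`. -/
noncomputable def II (g : RMetric M) (u : M → ℝ) : ℝ :=
  Bf g u u + 4 * qf g u - 8 * π ^ 2 * log (∫ x, exp (4 * u x) ∂vol g)

end Manifold

/-- Level zero: the product of the two surfaces. -/
structure L0 (M : Type) [TopologicalSpace M] [ChartedSpace E4 M] [IsManifold (𝓡 4) ∞ M]
    [MeasurableSpace M] where
  d : M → M → ℝ
  J : M → M
  fix : Finset M
  hd : DFacts d
  hJ : JFacts d J fix
  ex : ∀ F H : M → ℝ, Smooth F → Smooth H → ∃ g : RMetric M, IsBlk g F H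
  g : RMetric M
  blk : IsBlk g (fun _ => 0) fun _ => 0
  coer : ∃ C : ℝ, ∀ φ, Smooth φ → ∫ x, lapM g φ x ^ 2 ∂vol g +
    ∫ x, (φ x - ⨍ z, φ z ∂vol g) ^ 2 ∂vol g ≤ C * Bf g φ φ
  mass : 8 * π ^ 2 < qf g fun _ => 1

section Levels

variable {M : Type} [TopologicalSpace M] [ChartedSpace E4 M] [IsManifold (𝓡 4) ∞ M]
  [MeasurableSpace M]

/-- The reference measure. -/
noncomputable def L0.μ (X : L0 M) : Measure M := vol X.g

/-- The energy of the product metric. -/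
noncomputable def L0.nn (X : L0 M) (φ : M → ℝ) : ℝ := Bf X.g φ φ

/-- A function minus its mean. -/
noncomputable def L0.z (X : L0 M) (φ : M → ℝ) (x : M) : ℝ := φ x - ⨍ y, φ y ∂X.μ

/-- The sum over the fixed points of the extensions of one function of the coordinates. -/
noncomputable def L0.sum (X : L0 M) (F : E4 → ℝ) (x : M) : ℝ := ∑ p ∈ X.fix, extz p F x

/-- The first factor of the modified metric. -/
noncomputable def L0.FF (X : L0 M) (R : ℝ) (s : E4 → ℝ) : M → ℝ :=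
  X.sum fun y => -(chi R y * f0 y) + s y

/-- The second factor of the modified metric. -/
noncomputable def L0.HH (X : L0 M) (R : ℝ) : M → ℝ := X.sum fun y => -(chi R y * h0 y)

/-- Level one: the metric is flat near the fixed points. -/
structure L1 (X : L0 M) where
  κ : ℝ
  R : ℝ
  m : ℝ
  CT : ℝ
  κ_pos : 0 < κ
  κ_le : κ ≤ 1 / 100
  R_pos : 0 < R
  R_le : R ≤ 1 / 100
  m_pos : 0 < m
  g : RMetric M
  blk : IsBlk g (X.FF R fun _ => 0) (X.HH R)
  close : ∀ φ, Smooth φ → |Bf g φ φ - X.nn φ| ≤ κ * X.nn φ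
  mass : (qf g fun _ => 1) = 8 * π ^ 2 + X.fix.card * m

/-- Level two: the tubes are added. -/
structure L2' {X : L0 M} (Y : L1 X) where
  r : ℝ
  η : ℝ
  s : E4 → ℝ
  r_pos : 0 < r
  r_le : r ≤ Y.R / 1000
  η_pos : 0 < η
  η_le : η ≤ r / 100
  tube : Tube Y.m r η Y.CT s
  g : RMetric M
  blk : IsBlk g (X.FF Y.R s) (X.HH Y.R)

variable {X : L0 M} {Y : L1 X}

/-- The exponent of the singular weight. -/
noncomputable def L1.a (Y : L1 X) : ℝ := Y.m / π ^ 2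

/-- For small `r`, then for small `η`. -/
def Ev (Y : L1 X) (P : L2' Y → Prop) : Prop := ∃ r₁ : ℝ, 0 < r₁ ∧ ∀ r, 0 < r → r ≤ r₁ →
  ∃ η₁ : ℝ, 0 < η₁ ∧ ∀ Z : L2' Y, Z.r = r → Z.η ≤ η₁ → P Z

/-- The large parameter. -/
noncomputable def L2'.L (Z : L2' Y) : ℝ := log Z.r⁻¹

/-- The volume of `Z.g` is `e^{4 om}` times the reference measure. -/
noncomputable def L2'.om (Z : L2' Y) (x : M) : ℝ := (X.FF Y.R Z.s x + X.HH Y.R x) / 2

/-- The potential of the masses in the tubes. -/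
noncomputable def L2'.psi (Z : L2' Y) : M → ℝ := X.sum fun y => 2 * Y.m * KK (Y.R / 16) Z.r y

/-- The linear part of the functional after the shift by `psi`. -/
noncomputable def L2'.Lam (Z : L2' Y) (φ : M → ℝ) : ℝ := Bf Z.g φ Z.psi + 2 * qf Z.g φ

/-- The constant part of the functional after the shift by `psi`. -/
noncomputable def L2'.c0 (Z : L2' Y) : ℝ := Bf Z.g Z.psi Z.psi + 4 * qf Z.g Z.psi

/-- The normalized volume of `e^{2u} g`, as a density for the reference measure. -/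
noncomputable def L2'.rho (Z : L2' Y) (u : M → ℝ) (x : M) : ℝ :=
  exp (4 * u x + 4 * Z.om x) / ∫ y, exp (4 * u y + 4 * Z.om y) ∂X.μ

/-- The same density in the chart at `p`, for Lebesgue measure. -/
noncomputable def L2'.rhoE (Z : L2' Y) (u : M → ℝ) (p : M) (y : E4) : ℝ :=
  loc p (Z.rho u) y * rh y

/-- Invariant conformal factors of constant Q-curvature, in weak form. -/
structure L2'.Crit (Z : L2' Y) (u : M → ℝ) : Prop where
  sm : Smooth u
  inv : ∀ x, u (X.J x) = u x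
  eqn : ∀ φ, Smooth φ → Bf Z.g φ u + 2 * qf Z.g φ = 16 * π ^ 2 * ∫ x, φ x * Z.rho u x ∂X.μ

/-- Concentration at the fixed point `p` at scale `r^{1 - γ}`. -/
def L2'.Conc (Z : L2' Y) (u : M → ℝ) (p : M) (θ γ : ℝ) : Prop :=
  p ∈ X.fix ∧ 1 - θ ≤ ∫ x in {x | X.d p x < 4 * Z.r ^ (1 - γ)}, Z.rho u x ∂X.μ

/-- The gain in the Pohozaev identity. -/
noncomputable def L2'.M0 (Z : L2' Y) (u : M → ℝ) (p : M) : ℝ :=
  ∫ x, min (X.d p x ^ 2 / Z.r ^ 2) 1 * Z.rho u x ∂X.μ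

/-- The potential of the part of the volume near `p`. -/
noncomputable def L2'.Phi (Z : L2' Y) (u : M → ℝ) (p : M) (t : ℝ) : M → ℝ :=
  extz p (pot Y.R fun y => chi t y * Z.rhoE u p y)

/-- The conformal factor minus the two potentials. -/
noncomputable def L2'.w (Z : L2' Y) (u : M → ℝ) (p : M) (t : ℝ) (x : M) : ℝ :=
  u x - Z.psi x - Z.Phi u p t x

theorem Ev.and {P Q : L2' Y → Prop} (h : Ev Y P) (k : Ev Y Q) : Ev Y fun Z => P Z ∧ Q Z := by
  obtain ⟨a, ha, h⟩ := h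
  obtain ⟨b, hb, k⟩ := k
  refine ⟨min a b, lt_min ha hb, fun r hr hr' => ?_⟩
  obtain ⟨c, hc, h⟩ := h r hr (hr'.trans (min_le_left _ _))
  obtain ⟨e, he, k⟩ := k r hr (hr'.trans (min_le_right _ _))
  exact ⟨min c e, lt_min hc he, fun Z h1 h2 =>
    ⟨h Z h1 (h2.trans (min_le_left _ _)), k Z h1 (h2.trans (min_le_right _ _))⟩⟩

theorem Ev.mono {P Q : L2' Y → Prop} (h : Ev Y P) (k : ∀ Z, P Z → Q Z) : Ev Y Q := by
  obtain ⟨a, ha, h⟩ := h
  refine ⟨a, ha, fun r hr hr' => ?_⟩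
  obtain ⟨c, hc, h⟩ := h r hr hr'
  exact ⟨c, hc, fun Z h1 h2 => k Z (h Z h1 h2)⟩

theorem Ev.of_r {P : ℝ → Prop} (h : ∀ᶠ r in nhdsWithin 0 (Ioi 0), P r) :
    Ev Y fun Z => P Z.r := by
  obtain ⟨a, ha, h⟩ := (nhdsGT_basis (0 : ℝ)).eventually_iff.1 h
  refine ⟨a / 2, half_pos ha, fun r hr hr' => ⟨1, one_pos, fun Z h1 _ => ?_⟩⟩
  subst h1
  exact h ⟨hr, hr'.trans_lt (half_lt_self ha)⟩

theorem Ev.of_η (f : ℝ → ℝ) (hf : ∀ r, 0 < r → 0 < f r) : Ev Y fun Z => Z.η ≤ f Z.r :=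
  ⟨1, one_pos, fun r hr _ => ⟨f r, hf r hr, fun _ h1 h2 => by subst h1; exact h2⟩⟩

end Levels

/-- A property of all data of level zero. -/
def All0 (p : ∀ (M : Type) [TopologicalSpace M] [ChartedSpace E4 M] [IsManifold (𝓡 4) ∞ M]
    [MeasurableSpace M], L0 M → Prop) : Prop :=
  ∀ (M : Type) [TopologicalSpace M] [T2Space M] [CompactSpace M] [ChartedSpace E4 M]
    [IsManifold (𝓡 4) ∞ M] [MeasurableSpace M] [BorelSpace M] (X : L0 M), p M X

end Pool.Agent.MP_417fa2_gt.Q2
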