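import Pool.Agent.MP_417fa2_gt.Q2.ESpec

/-! Row E10: differentiation of convolutions, and bounds for the test function. -/

open scoped ContDiff Topology
open MeasureTheory Set Metric Real Filter

namespace Pool.Agent.MP_417fa2_gt.Q2

theorem e10_par0 {k σ : E4 → ℝ} (hk : Tst k) (hσ : Continuous σ) :
    ContDiff ℝ ∞ (fun y => ∫ x, k (y - x) * σ x) ∧
      ∀ i y, pd i (fun y => ∫ x, k (y - x) * σ x) y = ∫ x, pd i k (y - x) * σ x := by
  have e : (fun y => ∫ x, k (y - x) * σ x) =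
      convolution σ k (ContinuousLinearMap.mul ℝ ℝ) (volume : Measure E4) := by
    funext y
    simp only [convolution_def, ContinuousLinearMap.mul_apply', mul_comm]
  have hl : LocallyIntegrable σ (volume : Measure E4) := hσ.locallyIntegrable
  rw [e]
  refine ⟨hk.cs.contDiff_convolution_right _ (n := ⊤) hl hk.sm, fun i y => ?_⟩
  have h1 : ContDiff ℝ 1 k := hk.sm.of_le (by simp)
  unfold pd
  rw [(hk.cs.hasFDerivAt_convolution_right (ContinuousLinearMap.mul ℝ ℝ) hl h1 y).fderiv,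
    convolution_precompR_apply _ hl (hk.cs.fderiv ℝ) (h1.continuous_fderiv one_ne_zero)]
  simp only [convolution_def, ContinuousLinearMap.mul_apply', mul_comm]

theorem parStmt : ParStmt := by
  intro k σ hk hσ hc
  obtain ⟨a, ha0, ha⟩ := hc.exists_pos_le_norm
  have key : ∀ y : E4, ∃ k' : E4 → ℝ, Tst k' ∧ (∀ z ∈ ball (0 : E4) (‖y‖ + 1 + a), k' z = k z) ∧
      (fun y => ∫ x, k (y - x) * σ x) =ᶠ[𝓝 y] fun y => ∫ x, k' (y - x) * σ x := by
    intro y
    have hp : 0 < ‖y‖ + 1 + a := by positivity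
    let b : ContDiffBump (0 : E4) := ⟨‖y‖ + 1 + a, ‖y‖ + 1 + a + 1, hp, by linarith⟩
    have hb : ∀ z ∈ ball (0 : E4) (‖y‖ + 1 + a), b z * k z = k z := fun z hz => by
      rw [b.one_of_mem_closedBall (ball_subset_closedBall hz), one_mul]
    refine ⟨fun z => b z * k z, ⟨b.contDiff.mul hk, b.hasCompactSupport.mul_right⟩, hb, ?_⟩
    filter_upwards [ball_mem_nhds y one_pos] with w hw
    congr 1
    funext x
    by_cases hx : a ≤ ‖x‖
    · simp only [ha x hx, mul_zero]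
    · rw [hb]
      have h1 := norm_sub_le w x
      have h2 := norm_sub_norm_le w y
      rw [mem_ball_iff_norm] at hw
      rw [mem_ball_zero_iff]
      linarith [not_le.1 hx]
  refine ⟨contDiff_iff_contDiffAt.2 fun y => ?_, fun i y => ?_⟩
  · obtain ⟨k', t, -, e⟩ := key y
    exact (e10_par0 t hσ).1.contDiffAt.congr_of_eventuallyEq e
  · obtain ⟨k', t, h, e⟩ := key y
    rw [pd_congr e, (e10_par0 t hσ).2]
    congr 1
    funext x
    by_cases hx : a ≤ ‖x‖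
    · simp only [ha x hx, mul_zero]
    · have h1 := norm_sub_le y x
      rw [pd_congr_on isOpen_ball h i (mem_ball_zero_iff.2 (by linarith [not_le.1 hx]))]

/-- The derivatives of order one, two and three of the kernel. -/
def e10Fam (ε : ℝ) (g : E4 → ℝ) : Prop := (∃ i, g = pd i (gam ε)) ∨
  (∃ i j, g = pd j (pd i (gam ε))) ∨ ∃ i j k, g = pd k (pd j (pd i (gam ε)))

theorem e10_D1_pd (φ : E4 → ℝ) (j : Fin 4) (y : E4) : D1 (pd j φ) y ≤ D2 φ y :=
  Real.sqrt_le_sqrt (Finset.sum_le_sum fun i _ =>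
    Finset.single_le_sum (f := fun j => pd i (pd j φ) y ^ 2) (fun _ _ => sq_nonneg _)
      (Finset.mem_univ j))

theorem e10_D_le {φ : E4 → ℝ} {y : E4} {B : ℝ} (hB : 0 ≤ B) (h1 : ∀ i, |pd i φ y| ≤ B)
    (h2 : ∀ i j, |pd i (pd j φ) y| ≤ B) : D1 φ y ≤ 4 * B ∧ D2 φ y ≤ 4 * B := by
  have a1 : ∀ i, pd i φ y ^ 2 ≤ B ^ 2 := fun i => by
    rw [← sq_abs]; exact pow_le_pow_left₀ (abs_nonneg _) (h1 i) 2
  have a2 : ∀ i j, pd i (pd j φ) y ^ 2 ≤ B ^ 2 := fun i j => by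
    rw [← sq_abs]; exact pow_le_pow_left₀ (abs_nonneg _) (h2 i j) 2
  constructor
  · refine Real.sqrt_le_iff.2 ⟨by positivity, (Finset.sum_le_sum fun i _ => a1 i).trans ?_⟩
    simp only [Finset.sum_const, Finset.card_univ, Fintype.card_fin, nsmul_eq_mul]
    push_cast
    nlinarith [sq_nonneg B]
  · refine Real.sqrt_le_iff.2 ⟨by positivity, (Finset.sum_le_sum fun i _ =>
      Finset.sum_le_sum fun j _ => a2 i j).trans ?_⟩
    simp only [Finset.sum_const, Finset.card_univ, Fintype.card_fin, nsmul_eq_mul]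
    push_cast
    nlinarith [sq_nonneg B]

theorem e10_fam_sm (h2 : GamFacts) {ε : ℝ} (hε : 0 < ε) {g : E4 → ℝ} (hg : e10Fam ε g) :
    ContDiff ℝ ∞ g := by
  rcases hg with ⟨i, rfl⟩ | ⟨i, j, rfl⟩ | ⟨i, j, k, rfl⟩
  · exact cd_pd (h2.sm ε hε) i
  · exact cd_pd (cd_pd (h2.sm ε hε) i) j
  · exact cd_pd (cd_pd (cd_pd (h2.sm ε hε) i) j) k

theorem e10_fam_bd (h1 : ChiFacts) (h2 : GamFacts) : ∃ C : ℝ, 0 ≤ C ∧ ∀ (ε c : ℝ) (g : E4 → ℝ)
    (z : E4), e10Fam ε g → 0 < c → c ≤ 1 → c ≤ ‖z‖ → |g z| ≤ C / c ^ 4 ∧ D1 g z ≤ C / c ^ 4 := by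
  obtain ⟨C, hC⟩ := h2.bd
  refine ⟨max C 0, le_max_right _ _, fun ε c g z hg c0 c1 hz => ?_⟩
  have hz0 : z ≠ 0 := norm_pos_iff.1 (c0.trans_le hz)
  have key : ∀ n : ℕ, n ≤ 4 → C / ‖z‖ ^ n ≤ max C 0 / c ^ 4 := fun n hn =>
    div_le_div₀ (le_max_right _ _) (le_max_left _ _) (pow_pos c0 4)
      ((pow_le_pow_of_le_one c0.le c1 hn).trans (pow_le_pow_left₀ c0.le hz n))
  obtain ⟨b1, b2, b3, b4⟩ := hC ε z hz0
  have k1 := key 1 (by norm_num)
  rw [pow_one] at k1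
  rcases hg with ⟨i, rfl⟩ | ⟨i, j, rfl⟩ | ⟨i, j, k, rfl⟩
  · exact ⟨(h1.pd_le _ i z).trans (b1.trans k1),
      (e10_D1_pd _ i z).trans (b2.trans (key 2 (by norm_num)))⟩
  · exact ⟨(h1.pd2_le _ j i z).trans (b2.trans (key 2 (by norm_num))),
      (e10_D1_pd _ j z).trans ((b3 i).trans (key 3 (by norm_num)))⟩
  · exact ⟨(h1.pd2_le _ k j z).trans ((b3 i).trans (key 3 (by norm_num))),
      (e10_D1_pd _ k z).trans ((b4 j i).trans (key 4 le_rfl))⟩

theorem e10_gain_int (r : ℝ) {ρ : E4 → ℝ} (hρ : Den ρ) :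
    Integrable fun x : E4 => min (‖x‖ ^ 2 / r ^ 2) 1 * ρ x :=
  ((((continuous_norm.pow 2).div_const _).min continuous_const).mul
    hρ.sm.continuous).integrable_of_hasCompactSupport hρ.sm.cs.mul_left

theorem e10_gain_nn (r : ℝ) {ρ : E4 → ℝ} (hρ : Den ρ) : 0 ≤ gain r ρ :=
  integral_nonneg fun x => mul_nonneg (le_min (by positivity) zero_le_one) (hρ.nonneg x)

theorem e10_sig {u ρ : E4 → ℝ} (hu : Continuous u) (hρ : Den ρ) (i : Fin 4) :
    Continuous (fun x : E4 => u x * x i * ρ x) ∧ HasCompactSupport fun x : E4 => u x * x i * ρ x :=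
  ⟨(hu.mul (by fun_prop)).mul hρ.sm.continuous, hρ.sm.cs.mul_left⟩

/-- The use of evenness. -/
theorem e10_odd {u ρ g : E4 → ℝ} {r K : ℝ} {y : E4} (hu : Continuous u)
    (hb : ∀ x, 0 ≤ u x ∧ u x ≤ 1 ∧ u (-x) = u x) (hρ : Den ρ) (hg : Continuous g) (hK : 0 ≤ K)
    (H : ∀ x, u x ≠ 0 → |g (y - x) - g (y + x)| * ‖x‖ ≤ K * min (‖x‖ ^ 2 / r ^ 2) 1) (i : Fin 4) :
    |∫ x, g (y - x) * (u x * x i * ρ x)| ≤ K * gain r ρ := by
  obtain ⟨s1, s2⟩ := e10_sig hu hρ i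
  have i1 : Integrable fun x => g (y - x) * (u x * x i * ρ x) :=
    ((hg.comp (continuous_const.sub continuous_id)).mul s1).integrable_of_hasCompactSupport
      s2.mul_left
  have i2 : Integrable fun x => g (y + x) * (u x * x i * ρ x) :=
    ((hg.comp (continuous_const.add continuous_id)).mul s1).integrable_of_hasCompactSupport
      s2.mul_left
  have e1 : ∫ x, g (y + x) * (u x * x i * ρ x) = -∫ x, g (y - x) * (u x * x i * ρ x) := by
    rw [← integral_neg, ← integral_neg_eq_self]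
    congr 1
    funext x
    rw [(hb x).2.2, hρ.even, ← sub_eq_add_neg, PiLp.neg_apply]
    ring
  have h3 : ‖∫ x, (g (y - x) * (u x * x i * ρ x) - g (y + x) * (u x * x i * ρ x))‖ ≤
      ∫ x, K * (min (‖x‖ ^ 2 / r ^ 2) 1 * ρ x) := by
    refine norm_integral_le_of_norm_le ((e10_gain_int r hρ).const_mul K)
      (Eventually.of_forall fun x => ?_)
    have m0 : 0 ≤ min (‖x‖ ^ 2 / r ^ 2) 1 := le_min (by positivity) zero_le_one
    have r0 := hρ.nonneg x
    by_cases hx : u x = 0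
    · rw [hx]
      simp only [zero_mul, mul_zero, sub_zero, norm_zero]
      positivity
    · have hxi : |x i| ≤ ‖x‖ := PiLp.norm_apply_le x i
      rw [← sub_mul, Real.norm_eq_abs, abs_mul, abs_mul, abs_mul, abs_of_nonneg r0,
        abs_of_nonneg (hb x).1, ← mul_assoc, ← mul_assoc K]
      refine mul_le_mul_of_nonneg_right (le_trans ?_ (H x hx)) r0
      exact mul_le_mul_of_nonneg_left ((mul_le_of_le_one_left (abs_nonneg _) (hb x).2.1).trans hxi)
        (abs_nonneg _)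
  rw [integral_sub i1 i2, e1, integral_const_mul, sub_neg_eq_add, ← two_mul, Real.norm_eq_abs,
    abs_mul, abs_two] at h3
  have := abs_nonneg (∫ x, g (y - x) * (u x * x i * ρ x))
  unfold gain
  linarith

theorem e10_YY (r t lam ε : ℝ) (ρ : E4 → ℝ) : YY r t lam ε ρ =
    fun y => ∑ i, ∫ x, pd i (gam ε) (y - x) * (cut r t lam x * x i * ρ x) := by
  funext y
  unfold YY
  refine Finset.sum_congr rfl fun i _ => ?_
  congr 1
  funext x
  ring

theorem e10_sum {u ρ : E4 → ℝ} (hu : Continuous u) (hρ : Den ρ) {g : Fin 4 → E4 → ℝ}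
    (hg : ∀ i, ContDiff ℝ ∞ (g i)) :
    ContDiff ℝ ∞ (fun y => ∑ i, ∫ x, g i (y - x) * (u x * x i * ρ x)) ∧
    ∀ j, pd j (fun y => ∑ i, ∫ x, g i (y - x) * (u x * x i * ρ x)) =
      fun y => ∑ i, ∫ x, pd j (g i) (y - x) * (u x * x i * ρ x) := by
  have h := fun i => parStmt (g i) _ (hg i) (e10_sig hu hρ i).1 (e10_sig hu hρ i).2
  refine ⟨ContDiff.sum fun i _ => (h i).1, fun j => funext fun y => ?_⟩
  rw [pd_sum fun i _ => dAt_of_cdAt (h i).1.contDiffAt]
  exact Finset.sum_congr rfl fun i _ => (h i).2 j y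

theorem e10_tri (h2 : GamFacts) {r t lam ε K : ℝ} {ρ : E4 → ℝ} {y : E4} (hε : 0 < ε)
    (hu : Continuous (cut r t lam))
    (hb : ∀ x, 0 ≤ cut r t lam x ∧ cut r t lam x ≤ 1 ∧ cut r t lam (-x) = cut r t lam x)
    (hρ : Den ρ) (hK : 0 ≤ K) (H : ∀ g, e10Fam ε g → ∀ x, cut r t lam x ≠ 0 →
      |g (y - x) - g (y + x)| * ‖x‖ ≤ K * min (‖x‖ ^ 2 / r ^ 2) 1) :
    |YY r t lam ε ρ y| ≤ 16 * K * gain r ρ ∧ D1 (YY r t lam ε ρ) y ≤ 16 * K * gain r ρ ∧
      D2 (YY r t lam ε ρ) y ≤ 16 * K * gain r ρ := by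
  have hG := mul_nonneg hK (e10_gain_nn r hρ)
  have key : ∀ g : Fin 4 → E4 → ℝ, (∀ i, e10Fam ε (g i)) →
      |∑ i, ∫ x, g i (y - x) * (cut r t lam x * x i * ρ x)| ≤ 4 * (K * gain r ρ) := by
    intro g hg
    refine (Finset.abs_sum_le_sum_abs _ _).trans ((Finset.sum_le_sum fun i _ =>
      e10_odd hu hb hρ (e10_fam_sm h2 hε (hg i)).continuous hK (H _ (hg i)) i).trans ?_)
    simp
  have s1 := fun i => cd_pd (h2.sm ε hε) i
  rw [e10_YY]
  have k0 := key (fun i => pd i (gam ε)) fun i => Or.inl ⟨i, rfl⟩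
  have k1 := e10_D_le (φ := fun y => ∑ i, ∫ x, pd i (gam ε) (y - x) * (cut r t lam x * x i * ρ x))
    (y := y) (B := 4 * (K * gain r ρ)) (by positivity) (fun j => by
      rw [(e10_sum hu hρ s1).2]
      exact key _ fun i => Or.inr (Or.inl ⟨i, j, rfl⟩)) fun k j => by
      rw [(e10_sum hu hρ s1).2, (e10_sum hu hρ fun i => cd_pd (s1 i) j).2]
      exact key _ fun i => Or.inr (Or.inr ⟨i, j, k, rfl⟩)
  exact ⟨by linarith, by linarith [k1.1], by linarith [k1.2]⟩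

theorem e10_seg (h1 : ChiFacts) {g : E4 → ℝ} (hg : ContDiff ℝ ∞ g) {K c : ℝ} {x y : E4}
    (H : ∀ z, c ≤ ‖z‖ → D1 g z ≤ K) (hc : c + ‖x‖ ≤ ‖y‖) :
    |g (y - x) - g (y + x)| * ‖x‖ ≤ 2 * K * ‖x‖ ^ 2 := by
  have h := h1.mvt g hg K (y - x) (y + x) fun z hz => by
    have h3 := (convex_closedBall y ‖x‖).segment_subset (x := y - x) (y := y + x) (by simp)
      (by simp) hz
    rw [mem_closedBall_iff_norm'] at h3
    have h4 := norm_sub_norm_le y z
    exact H z (by linarith)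
  have e : ‖y - x - (y + x)‖ = 2 * ‖x‖ := by
    rw [show y - x - (y + x) = -((2 : ℝ) • x) by rw [two_smul]; abel, norm_neg, norm_smul]
    simp
  rw [e] at h
  exact (mul_le_mul_of_nonneg_right h (norm_nonneg _)).trans (le_of_eq (by ring))

theorem e10_min {a r L : ℝ} (h0 : 0 ≤ a) (hr : 0 < r) (h1 : a ≤ L) (h2 : r ≤ L) :
    a ^ 2 ≤ L ^ 2 * min (a ^ 2 / r ^ 2) 1 := by
  rw [mul_min_of_nonneg _ _ (sq_nonneg L), mul_one]
  refine le_min ?_ (pow_le_pow_left₀ h0 h1 2)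
  rw [← mul_div_assoc, le_div_iff₀ (by positivity), mul_comm]
  exact mul_le_mul_of_nonneg_right (pow_le_pow_left₀ hr.le h2 2) (sq_nonneg a)

theorem ybStmt (h1 : ChiFacts) (hn : NbFacts) (h2 : GamFacts) (hc : CutStmt) : YbStmt := by
  obtain ⟨C₀, -, hc⟩ := hc
  obtain ⟨C, C0, hC⟩ := e10_fam_bd h1 h2
  refine ⟨fun r t lam ε ρ hr ht htr hl hε hρ => ?_, fun R hR => ?_, fun r t hr ht htr => ?_⟩
  · obtain ⟨C₁, -, h⟩ := hc r hr
    rw [e10_YY]
    exact (e10_sum (h t lam ht htr hl).1.continuous hρ fun i => cd_pd (h2.sm ε hε) i).1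
  · have c0 : 0 < min (R / 8) 1 := lt_min (by positivity) one_pos
    refine ⟨16 * (8 * (C / min (R / 8) 1 ^ 4)), fun r t lam ε ρ hr ht htr hl hlR hε hρ y hy => ?_⟩
    obtain ⟨C₁, -, h⟩ := hc r hr
    obtain ⟨a1, a2, -, a4, -⟩ := h t lam ht htr hl
    rw [mul_assoc 16]
    refine e10_tri h2 hε a1.continuous a2 hρ (by positivity) fun g hg x hx => ?_
    have hx' : ‖x‖ ≤ 2 * lam := by
      by_contra hh
      exact hx (a4 x (Or.inl (not_le.1 hh).le))
    refine (e10_seg h1 (e10_fam_sm h2 hε hg) (fun z hz => (hC ε _ g z hg c0 (min_le_right _ _) hz).2)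
      (by linarith [min_le_left (R / 8) 1])).trans ?_
    have h5 := e10_min (norm_nonneg x) hr hx' (by linarith)
    have h6 : 0 ≤ 2 * (C / min (R / 8) 1 ^ 4) := by positivity
    exact (mul_le_mul_of_nonneg_left h5 h6).trans (le_of_eq (by ring))
  · obtain ⟨c, c0, hs⟩ := hn.sep r t hr ht htr
    obtain ⟨C₁, -, h⟩ := hc r hr
    have d0 : 0 < min (min c (r / 4)) 1 := lt_min (lt_min c0 (by positivity)) one_pos
    have d1 : min (min c (r / 4)) 1 ≤ c := (min_le_left _ _).trans (min_le_left _ _)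
    have d2 : min (min c (r / 4)) 1 ≤ r / 4 := (min_le_left _ _).trans (min_le_right _ _)
    have d3 : min (min c (r / 4)) 1 ≤ 1 := min_le_right _ _
    generalize min (min c (r / 4)) 1 = d at d0 d1 d2 d3
    have hB : 0 ≤ C / d ^ 4 := by positivity
    refine ⟨16 * (C / d ^ 4 * (2 * r ^ 2 + 64)), fun lam ε ρ hl hl1 hε hρ y hy => ?_⟩
    obtain ⟨a1, a2, -, a4, -⟩ := h t lam ht htr hl
    refine e10_tri h2 hε a1.continuous a2 hρ (by positivity) fun g hg x hx => ?_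
    have m0 : 0 ≤ min (‖x‖ ^ 2 / r ^ 2) 1 := le_min (by positivity) zero_le_one
    have hy1 := (hn.nb_norm r (t / 2) hr (by positivity) (by linarith) y hy).1
    by_cases hxr : ‖x‖ ≤ r / 4
    · refine (e10_seg h1 (e10_fam_sm h2 hε hg) (fun z hz => (hC ε _ g z hg d0 d3 hz).2)
        (by linarith)).trans ?_
      have h5 := e10_min (norm_nonneg x) hr (hxr.trans (by linarith)) le_rfl
      have h6 := mul_le_mul_of_nonneg_left h5 hB
      nlinarith [mul_nonneg hB m0]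
    · have hx' : ‖x‖ ≤ 2 := by
        by_contra hh
        exact hx (a4 x (Or.inl (by linarith [not_le.1 hh])))
      have b1 := hs x y (fun hh => hx (a4 x (Or.inr hh))) hy
      have b2 := hs (-x) y (fun hh => hx ((a2 x).2.2 ▸ a4 (-x) (Or.inr hh))) hy
      rw [norm_sub_rev] at b1 b2
      rw [sub_neg_eq_add] at b2
      have g1 := (hC ε d g _ hg d0 d3 (d1.trans b1)).1
      have g2 := (hC ε d g _ hg d0 d3 (d1.trans b2)).1
      have g3 : |g (y - x) - g (y + x)| ≤ 2 * (C / d ^ 4) := (abs_sub _ _).trans (by linarith)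
      have m1 : 1 / 16 ≤ min (‖x‖ ^ 2 / r ^ 2) 1 := by
        refine le_min ?_ (by norm_num)
        rw [le_div_iff₀ (by positivity)]
        nlinarith [not_le.1 hxr]
      have g4 := mul_le_mul g3 hx' (norm_nonneg _) (by positivity)
      have g5 := mul_le_mul_of_nonneg_left m1 hB
      nlinarith [mul_nonneg (mul_nonneg hB (sq_nonneg r)) m0]

end Pool.Agent.MP_417fa2_gt.Q2
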