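import Pool.Agent.MP_417fa2_gt.Q2.ESpec

/-! Row E11: the potential of a density. -/

open scoped ContDiff Topology
open MeasureTheory Set Metric Real Filter

namespace Pool.Agent.MP_417fa2_gt.Q2

open DE (lp)

/-- The positive part of the logarithm is integrable. -/
theorem e11_ell_int (h3 : KkFacts) : Integrable fun z : E4 => max (-log ‖z‖) 0 := by
  obtain ⟨C, hC⟩ := h3.pow 1 zero_le_one (by norm_num)
  have h1 := (integrable_indicator_iff measurableSet_ball).2 (hC 1 one_pos).1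
  have hm : Measurable fun z : E4 => max (-log ‖z‖) 0 :=
    (measurable_norm.log.neg).max measurable_const
  refine h1.mono' hm.aestronglyMeasurable (Eventually.of_forall fun z => ?_)
  rw [Real.norm_of_nonneg (le_max_right _ _)]
  by_cases hz : z ∈ ball (0 : E4) 1
  · rw [indicator_of_mem hz, rpow_neg_one]
    refine max_le ?_ (inv_nonneg.2 (norm_nonneg _))
    rcases (norm_nonneg z).eq_or_lt with h0 | h0
    · rw [← h0]; simp
    · rw [← log_inv]
      have := log_le_sub_one_of_pos (inv_pos.2 h0)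
      linarith
  · rw [indicator_of_notMem hz]
    have h2 : 1 ≤ ‖z‖ := by simpa using hz
    have := log_nonneg h2
    exact max_le (by linarith) le_rfl

theorem e11_KK (T : ℝ) (z : E4) : 16 * π ^ 2 * KK T 0 z = 2 * (chi T z * -log ‖z‖) := by
  unfold KK gam
  rw [show ‖z‖ ^ 2 + (0 : ℝ) ^ 2 = ‖z‖ ^ 2 by ring, log_pow]
  have := pi_pos
  field_simp
  push_cast
  ring

theorem e11_KK_bd (h1 : ChiFacts) {T : ℝ} (hT : 0 < T) (hT' : 2 * T ≤ 1) (z : E4) :
    0 ≤ 16 * π ^ 2 * KK T 0 z ∧ 16 * π ^ 2 * KK T 0 z ≤ 2 * max (-log ‖z‖) 0 := by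
  rw [e11_KK]
  by_cases hz : 2 * T ≤ ‖z‖
  · rw [h1.zero T hT z hz]
    have := le_max_right (-log ‖z‖) 0
    constructor <;> linarith
  · have h2 : 0 ≤ -log ‖z‖ := neg_nonneg.2 (log_nonpos (norm_nonneg _) (by linarith [not_le.1 hz]))
    have h3 := h1.nonneg T z
    have h4 := h1.le_one T z
    rw [max_eq_left h2]
    constructor
    · positivity
    · nlinarith

theorem e11_bdd {σ : E4 → ℝ} (hσ : Tst σ) : ∃ B : ℝ, 0 ≤ B ∧ ∀ x, |σ x| ≤ B := by
  obtain ⟨B, hB⟩ := hσ.cs.exists_bound_of_continuous hσ.continuous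
  exact ⟨B, (norm_nonneg _).trans (hB 0), hB⟩

theorem e11_int {k σ : E4 → ℝ} (hk : Integrable k) (hσ : Tst σ) (y : E4) :
    Integrable fun x => k (y - x) * σ x := by
  obtain ⟨B, -, hB⟩ := e11_bdd hσ
  exact (hk.comp_sub_left y).mul_bdd hσ.continuous.aestronglyMeasurable (Eventually.of_forall hB)

theorem e11_sm {k σ : E4 → ℝ} (hk : Integrable k) (hσ : Tst σ) :
    ContDiff ℝ ∞ fun y => ∫ x, k (y - x) * σ x := by
  have h := hσ.cs.contDiff_convolution_left (μ := (volume : Measure E4))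
    (ContinuousLinearMap.mul ℝ ℝ) (n := ⊤) hσ.sm hk.locallyIntegrable
  convert h using 2 with y
  simp only [convolution_def, ContinuousLinearMap.mul_apply', mul_comm]

theorem e11_zero {k σ : E4 → ℝ} {a b : ℝ} (hk : ∀ z, a ≤ ‖z‖ → k z = 0)
    (hσ : ∀ x, b ≤ ‖x‖ → σ x = 0) {y : E4} (hy : a + b ≤ ‖y‖) : ∫ x, k (y - x) * σ x = 0 := by
  rw [← integral_zero E4 ℝ (μ := volume)]
  congr 1
  funext x
  by_cases hx : b ≤ ‖x‖
  · rw [hσ x hx, mul_zero]
  · have := norm_sub_norm_le y x
    rw [hk _ (by linarith [not_le.1 hx]), zero_mul]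

theorem e11_cs {f : E4 → ℝ} {a : ℝ} (hf : ∀ y, a ≤ ‖y‖ → f y = 0) : HasCompactSupport f :=
  HasCompactSupport.intro (isCompact_closedBall (0 : E4) a) fun y hy =>
    hf y (by simpa using (not_le.1 (mem_closedBall_zero_iff.not.1 hy)).le)

theorem e11_conv_bd {k σ : E4 → ℝ} {B : ℝ} (hB : 0 ≤ B) (hk : ∀ z, |k z| ≤ B) (hσ : Tst σ)
    (h0 : ∀ x, 0 ≤ σ x) (h1 : ∫ x, σ x ≤ 1) (y : E4) : |∫ x, k (y - x) * σ x| ≤ B := by
  have h2 : ‖∫ x, k (y - x) * σ x‖ ≤ ∫ x, B * σ x :=
    norm_integral_le_of_norm_le (hσ.integrable.const_mul B) (Eventually.of_forall fun x => by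
      rw [Real.norm_eq_abs, abs_mul, abs_of_nonneg (h0 x)]
      exact mul_le_mul_of_nonneg_right (hk _) (h0 x))
  rw [integral_const_mul] at h2
  exact h2.trans (by nlinarith)

/-- Sobolev norms of a convolution with a fixed test function. -/
theorem e11_eN (h4 : ParStmt) (b : ℝ) (n : ℕ) : ∀ k : E4 → ℝ, Tst k → ∃ C : ℝ, ∀ σ, Tst σ →
    (∀ x, 0 ≤ σ x) → (∀ x, b ≤ ‖x‖ → σ x = 0) → ∫ x, σ x ≤ 1 →
    eN n (fun y => ∫ x, k (y - x) * σ x) ≤ C := by
  have h0 : ∀ k : E4 → ℝ, Tst k → ∃ C : ℝ, ∀ σ, Tst σ →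
      (∀ x, 0 ≤ σ x) → (∀ x, b ≤ ‖x‖ → σ x = 0) → ∫ x, σ x ≤ 1 →
      eN 0 (fun y => ∫ x, k (y - x) * σ x) ≤ C := by
    intro k hk
    obtain ⟨B, hB0, hB⟩ := e11_bdd hk
    obtain ⟨a, -, ha⟩ := hk.cs.exists_pos_le_norm
    have hi : Integrable ((ball (0 : E4) (a + b)).indicator fun _ => B ^ 2) :=
      (integrable_indicator_iff measurableSet_ball).2 (integrableOn_const measure_ball_lt_top.ne)
    refine ⟨∫ y, (ball (0 : E4) (a + b)).indicator (fun _ => B ^ 2) y, fun σ hσ p0 p1 p2 => ?_⟩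
    rw [eN_zero]
    refine integral_mono_of_nonneg (Eventually.of_forall fun y => sq_nonneg _) hi
      (Eventually.of_forall fun y => ?_)
    by_cases hy : y ∈ ball (0 : E4) (a + b)
    · simp only [indicator_of_mem hy]
      rw [← sq_abs]
      exact pow_le_pow_left₀ (abs_nonneg _) (e11_conv_bd hB0 hB hσ p0 p2 y) 2
    · simp only [indicator_of_notMem hy]
      rw [e11_zero ha p1 (by simpa using hy)]
      simp
  induction n with
  | zero => exact h0
  | succ n ih =>
    intro k hk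
    obtain ⟨C0, c0⟩ := h0 k hk
    choose C c using fun i => ih (pd i k) (hk.pd i)
    refine ⟨C0 + ∑ i, C i, fun σ hσ p0 p1 p2 => ?_⟩
    rw [eN_succ]
    refine add_le_add (c0 σ hσ p0 p1 p2) (Finset.sum_le_sum fun i _ => ?_)
    rw [show (pd i fun y => ∫ x, k (y - x) * σ x) = fun y => ∫ x, pd i k (y - x) * σ x from
      funext ((h4 k σ hk.sm hσ.continuous hσ.cs).2 i)]
    exact c i σ hσ p0 p1 p2

theorem e11_pd_tr (i : Fin 4) (φ : E4 → ℝ) (x : E4) :
    pd i (fun z => φ (z + x)) = fun z => pd i φ (z + x) := by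
  funext z
  unfold pd
  rw [fderiv_comp_add_right]

theorem e11_lp_tr (φ : E4 → ℝ) (x : E4) :
    lp (fun z => φ (z + x)) = fun z => lp φ (z + x) := by
  funext z
  unfold DE.lp
  simp only [e11_pd_tr]

theorem e11_lp_symm {f g : E4 → ℝ} (F : Tst f) (G : Tst g) :
    ∫ y, lp f y * g y = ∫ y, f y * lp g y := by
  unfold DE.lp
  simp only [Finset.sum_mul, Finset.mul_sum]
  rw [integral_finsetSum _ fun a _ => ((F.pd a).pd a).integrable_mul G,
    integral_finsetSum _ fun a _ => F.integrable_mul ((G.pd a).pd a)]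
  refine Finset.sum_congr rfl fun a _ => ?_
  rw [DE.ibp F (G.pd a) a, DE.ibp (F.pd a) G a, neg_neg]

/-- Fubini for a convolution against a test function. -/
theorem e11_fubini {k σ ψ : E4 → ℝ} (hk : Integrable k) (hσ : Tst σ) (hψ : Tst ψ) :
    ∫ y, (∫ x, k (y - x) * σ x) * ψ y = ∫ x, σ x * ∫ z, k z * ψ (z + x) := by
  obtain ⟨B, -, hB⟩ := e11_bdd hψ
  have h1 := (hσ.integrable.convolution_integrand (μ := (volume : Measure E4))
    (ContinuousLinearMap.mul ℝ ℝ) hk).mul_bdd (g := fun p : E4 × E4 => ψ p.1)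
    (hψ.continuous.comp continuous_fst).aestronglyMeasurable (Eventually.of_forall fun p => hB p.1)
  have h2 := integral_integral_swap (μ := (volume : Measure E4)) (ν := (volume : Measure E4))
    (f := fun y x => σ x * k (y - x) * ψ y) h1
  have e1 : ∀ y, (∫ x, k (y - x) * σ x) * ψ y = ∫ x, σ x * k (y - x) * ψ y := fun y => by
    rw [integral_mul_const]
    simp only [mul_comm]
  simp only [e1]
  rw [h2]
  congr 1
  funext x
  rw [← integral_const_mul, ← integral_add_right_eq_self (fun y => σ x * k (y - x) * ψ y) x]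
  simp only [add_sub_cancel_right, mul_assoc]

theorem e11_err {e φ : E4 → ℝ} {C a : ℝ} (hb : ∀ y, |e y| ≤ C) (hz : ∀ y, a < ‖y‖ → e y = 0)
    (hφ : Tst φ) (x : E4) :
    |∫ z, e z * φ (z + x)| ≤
      √(∫ y, (closedBall (0 : E4) a).indicator (fun _ => C ^ 2) y) * √(eN 2 φ) := by
  have hi : Integrable ((closedBall (0 : E4) a).indicator fun _ => C ^ 2) :=
    (integrable_indicator_iff measurableSet_closedBall).2
      (integrableOn_const measure_closedBall_lt_top.ne)
  have h0 : ∀ y, 0 ≤ (closedBall (0 : E4) a).indicator (fun _ => C ^ 2) y := fun y =>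
    indicator_nonneg (fun _ _ => sq_nonneg _) y
  have h1 := EucB.cs (f := fun z => |e z * φ (z + x)|) hi (hφ.integrable_sq.comp_add_right x)
    (fun _ => abs_nonneg _) h0 (fun _ => sq_nonneg _) fun z => by
      by_cases hy : z ∈ closedBall (0 : E4) a
      · rw [indicator_of_mem hy, sq_abs, mul_pow, ← sq_abs (e z)]
        exact mul_le_mul_of_nonneg_right (pow_le_pow_left₀ (abs_nonneg _) (hb z) 2) (sq_nonneg _)
      · rw [indicator_of_notMem hy, hz z (by simpa using hy)]
        simp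
  rw [integral_add_right_eq_self (fun y => φ y ^ 2) x] at h1
  refine abs_integral_le_integral_abs.trans ?_
  rw [← Real.sqrt_mul (integral_nonneg h0)]
  refine Real.le_sqrt_of_sq_le (h1.trans (mul_le_mul_of_nonneg_left ?_ (integral_nonneg h0)))
  exact eN_mono (Nat.zero_le 2) φ

theorem e11_tst (h1 : ChiFacts) (h2 : GamFacts) {t T : ℝ} (ht : 0 < t) (hT : 0 < T) :
    Tst fun z => (1 - chi t z) * KK T 0 z := by
  refine ⟨contDiff_iff_contDiffAt.2 fun z => ?_, e11_cs (a := 2 * T) fun z hz => ?_⟩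
  · by_cases hz : z = 0
    · subst hz
      refine (contDiffAt_const (c := (0 : ℝ))).congr_of_eventuallyEq ?_
      filter_upwards [ball_mem_nhds (0 : E4) ht] with w hw
      rw [h1.one t ht w (mem_ball_zero_iff.1 hw).le]
      simp
    · exact (contDiffAt_const.sub (h1.tst t ht).sm.contDiffAt).mul
        ((h1.tst T hT).sm.contDiffAt.mul (h2.sm0 0 z hz))
  · simp only [KK, h1.zero T hT z hz, zero_mul, mul_zero]

theorem potStmt (h1 : ChiFacts) (h2 : GamFacts) (h3 : KkFacts) (h4 : ParStmt) : PotStmt := by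
  intro R hR hR1
  have hT : 0 < R / 32 := by positivity
  obtain ⟨hK, -, e, Ce, he, hb, hz, hf⟩ := h3.fund (R / 32) hT (by linarith)
  have hK0 : ∀ z : E4, 2 * (R / 32) ≤ ‖z‖ → KK (R / 32) 0 z = 0 := fun z hz => by
    simp only [KK, h1.zero _ hT z hz, zero_mul]
  have hKb := e11_KK_bd h1 hT (by linarith)
  have hp : 0 < 16 * π ^ 2 := by have := pi_pos; positivity
  have hl := e11_ell_int h3
  set A := √(∫ y, (closedBall (0 : E4) (2 * (R / 32))).indicator (fun _ => Ce ^ 2) y) with hA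
  refine ⟨16 * π ^ 2 * A, fun t ht ht2 => ⟨fun σ hσ p0 p1 p2 => ?_, fun ζ hζ hζ0 => ?_⟩⟩
  · have hpot : ∀ y, pot R σ y = ∫ x, 16 * π ^ 2 * KK (R / 32) 0 (y - x) * σ x := fun y => by
      simp only [pot, mul_assoc, integral_const_mul]
    have hi : ∀ y, Integrable fun x => 16 * π ^ 2 * KK (R / 32) 0 (y - x) * σ x := fun y => by
      simpa only [mul_assoc (16 * π ^ 2)] using (e11_int hK hσ y).const_mul (16 * π ^ 2)
    have z0 : ∀ y : E4, R / 8 ≤ ‖y‖ → pot R σ y = 0 := fun y hy => by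
      rw [pot, e11_zero hK0 p1 (by linarith), mul_zero]
    have tp : Tst (pot R σ) := ⟨contDiff_const.mul (e11_sm hK hσ), e11_cs z0⟩
    have up : ∀ y, pot R σ y ≤ 2 * ∫ x, max (-log ‖y - x‖) 0 * σ x := fun y => by
      rw [hpot, ← integral_const_mul]
      refine integral_mono (hi y) ((e11_int hl hσ y).const_mul 2) fun x => ?_
      simp only [← mul_assoc]
      exact mul_le_mul_of_nonneg_right (hKb _).2 (p0 x)
    refine ⟨tp, z0, fun y => ?_, fun y => ⟨e11_int hl hσ y, up y⟩, fun b y b0 b1 hy => ?_,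
      fun b y hy hb' => ?_, fun φ hφ => ?_⟩
    · rw [hpot]
      exact integral_nonneg fun x => mul_nonneg (hKb _).1 (p0 x)
    · have hb0 : 0 ≤ -log b := neg_nonneg.2 (log_nonpos b0.le b1)
      refine (up y).trans (mul_le_mul_of_nonneg_left ?_ two_pos.le)
      have h5 : ∫ x, max (-log ‖y - x‖) 0 * σ x ≤ ∫ x, -log b * σ x := by
        refine integral_mono (e11_int hl hσ y) (hσ.integrable.const_mul _) fun x => ?_
        by_cases hx : 2 * t ≤ ‖x‖
        · simp only [p1 x hx, mul_zero, le_refl]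
        · have h6 := norm_sub_norm_le y x
          have h7 := log_le_log b0 (show b ≤ ‖y - x‖ by linarith [not_le.1 hx])
          exact mul_le_mul_of_nonneg_right (max_le (by linarith) hb0) (p0 x)
      rw [integral_const_mul] at h5
      nlinarith
    · rw [hpot, ← integral_const_mul]
      refine integral_mono_ae (hσ.integrable.const_mul _) (hi y) ?_
      filter_upwards [Measure.ae_ne volume y] with x hxy
      by_cases hx : 2 * t ≤ ‖x‖
      · simp only [p1 x hx, mul_zero, le_refl]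
      · have h6 := norm_sub_le y x
        have h7 : ‖y - x‖ ≤ b := by linarith [not_le.1 hx]
        have h8 := log_le_log (norm_pos_iff.2 (sub_ne_zero.2 hxy.symm)) h7
        rw [e11_KK, h1.one _ hT _ (h7.trans hb')]
        exact mul_le_mul_of_nonneg_right (by linarith) (p0 x)
    · have tl := DE.tst_lp (DE.tst_lp hφ)
      have e1 : ∀ x, ∫ z, KK (R / 32) 0 z * lp (lp φ) (z + x) = φ x + ∫ z, e z * φ (z + x) := by
        intro x
        have := hf (fun z => φ (z + x)) (hφ.sm.comp (contDiff_id.add contDiff_const))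
        simpa only [e11_lp_tr, zero_add] using this
      have eb := e11_err hb hz hφ
      have i2 : Integrable fun x => σ x * ∫ z, e z * φ (z + x) := by
        refine hσ.integrable.mul_bdd ?_ (Eventually.of_forall eb)
        have := (he.comp measurable_snd).mul
          (hφ.continuous.measurable.comp (measurable_snd.add (measurable_fst (α := E4))))
        exact (this.stronglyMeasurable.integral_prod_right' (ν := volume)).aestronglyMeasurable
      have e2 : (∫ y, lp (pot R σ) y * lp φ y) - 16 * π ^ 2 * ∫ y, σ y * φ y =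
          16 * π ^ 2 * ∫ x, σ x * ∫ z, e z * φ (z + x) := by
        rw [e11_lp_symm tp (DE.tst_lp hφ)]
        simp only [pot, mul_assoc (16 * π ^ 2), integral_const_mul]
        rw [e11_fubini hK hσ tl]
        simp only [e1, mul_add]
        rw [integral_add (hσ.integrable_mul hφ) i2]
        ring
      have h5 : ‖∫ x, σ x * ∫ z, e z * φ (z + x)‖ ≤ ∫ x, A * √(eN 2 φ) * σ x :=
        norm_integral_le_of_norm_le (hσ.integrable.const_mul _) (Eventually.of_forall fun x => by
          rw [Real.norm_eq_abs, abs_mul, abs_of_nonneg (p0 x), mul_comm]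
          exact mul_le_mul_of_nonneg_right (eb x) (p0 x))
      rw [integral_const_mul, Real.norm_eq_abs] at h5
      have h6 : 0 ≤ A * √(eN 2 φ) := mul_nonneg (sqrt_nonneg _) (sqrt_nonneg _)
      rw [e2, abs_mul, abs_of_pos hp, mul_assoc (16 * π ^ 2)]
      exact mul_le_mul_of_nonneg_left (h5.trans (mul_le_of_le_one_right h6 p2)) hp.le
  · have tk := (e11_tst h1 h2 ht hT).const_mul (16 * π ^ 2)
    obtain ⟨C1, c0, c1⟩ := DE.mult 2 ζ hζ
    obtain ⟨C2, c2⟩ := e11_eN h4 (2 * t) 2 _ tk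
    obtain ⟨a, -, ha⟩ := tk.cs.exists_pos_le_norm
    refine ⟨C1 * C2, fun σ hσ p0 p1 p2 => ?_⟩
    have tc : Tst fun y => ∫ x, 16 * π ^ 2 * ((1 - chi t (y - x)) * KK (R / 32) 0 (y - x)) * σ x :=
      ⟨(h4 _ σ tk.sm hσ.continuous hσ.cs).1, e11_cs fun y hy => e11_zero ha p1 hy⟩
    have e1 : (fun y => ζ y * pot R σ y) = fun y => ζ y *
        ∫ x, 16 * π ^ 2 * ((1 - chi t (y - x)) * KK (R / 32) 0 (y - x)) * σ x := by
      funext y
      by_cases hy : ‖y‖ ≤ 4 * t
      · simp only [hζ0 y hy, zero_mul]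
      · rw [pot, ← integral_const_mul]
        congr 2
        funext x
        by_cases hx : 2 * t ≤ ‖x‖
        · simp only [p1 x hx, mul_zero]
        · have h6 := norm_sub_norm_le y x
          rw [h1.zero t ht _ (by linarith [not_le.1 hx, not_le.1 hy])]
          ring
    rw [e1]
    exact (c1 _ tc).trans (mul_le_mul_of_nonneg_left (c2 σ hσ p0 p1 p2) c0.le)

end Pool.Agent.MP_417fa2_gt.Q2
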