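import Pool.Agent.MP_417fa2_gt.Q2.U2

/-! E1a. Coordinates, rotations and block matrices. -/

open scoped ContDiff Topology
open MeasureTheory Set Metric Real Filter

namespace Pool.Agent.MP_417fa2_gt.Q2

namespace E1a

open U1 U2

theorem nsq (y : E4) : ‖y‖ ^ 2 = zsq y + wsq y := by
  rw [EuclideanSpace.real_norm_sq_eq, Fin.sum_univ_four, zsq, wsq]
  ring

theorem zsq_eq (y : E4) : zsq y = ‖zc y‖ ^ 2 := by
  rw [Complex.sq_norm, Complex.normSq_apply, zsq, zc]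
  ring

theorem wsq_eq (y : E4) : wsq y = ‖wc y‖ ^ 2 := by
  rw [Complex.sq_norm, Complex.normSq_apply, wsq, wc]
  ring

theorem mk_zw (y : E4) : mkE (zc y) (wc y) = y := by
  ext i
  fin_cases i <;> rfl

theorem zc_mk (z w : ℂ) : zc (mkE z w) = z := rfl

theorem wc_mk (z w : ℂ) : wc (mkE z w) = w := rfl

theorem rot_z (u₁ u₂ : ℂ) (h : ‖u₁‖ = 1) (y : E4) : zsq (rot u₁ u₂ y) = zsq y := by
  rw [zsq_eq, zsq_eq, rot, zc_mk, norm_mul, h, one_mul]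

theorem rot_w (u₁ u₂ : ℂ) (h : ‖u₂‖ = 1) (y : E4) : wsq (rot u₁ u₂ y) = wsq y := by
  rw [wsq_eq, wsq_eq, rot, wc_mk, norm_mul, h, one_mul]

/-- The matrix of a rotation. -/
def rm (u₁ u₂ : ℂ) : Matrix (Fin 4) (Fin 4) ℝ :=
  !![u₁.re, -u₁.im, 0, 0; u₁.im, u₁.re, 0, 0; 0, 0, u₂.re, -u₂.im; 0, 0, u₂.im, u₂.re]

theorem rot_ap (u₁ u₂ : ℂ) (y : E4) (a : Fin 4) : rot u₁ u₂ y a = ∑ k, rm u₁ u₂ a k * y k := by
  fin_cases a <;> simp [rot, mkE, zc, wc, rm, Fin.sum_univ_four] <;> ring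

theorem rot_iso (u₁ u₂ : ℂ) (h₁ : ‖u₁‖ = 1) (h₂ : ‖u₂‖ = 1) :
    ∃ e : E4 ≃ₗᵢ[ℝ] E4, ∀ y, e y = rot u₁ u₂ y := by
  let L : E4 →ₗᵢ[ℝ] E4 :=
    { toFun := rot u₁ u₂
      map_add' := fun x y => by
        ext a
        simp only [PiLp.add_apply, rot_ap, mul_add, Finset.sum_add_distrib]
      map_smul' := fun c x => by
        ext a
        simp only [PiLp.smul_apply, rot_ap, smul_eq_mul, RingHom.id_apply, Finset.mul_sum]
        exact Finset.sum_congr rfl fun k _ => by ring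
      norm_map' := fun y => by
        refine (sq_eq_sq₀ (norm_nonneg _) (norm_nonneg _)).1 ?_
        change ‖rot u₁ u₂ y‖ ^ 2 = _
        rw [nsq, nsq, rot_z _ _ h₁, rot_w _ _ h₂] }
  exact ⟨L.toLinearIsometryEquiv rfl, fun _ => rfl⟩

theorem jac_rot (u₁ u₂ : ℂ) (y : E4) : jac (rot u₁ u₂) y = rm u₁ u₂ := by
  ext a i
  simp only [jac, Matrix.of_apply, rot_ap]
  rw [pd_sum (F := fun k (z : E4) => rm u₁ u₂ a k * z k) fun k _ =>
    dAt_of_cdAt (contDiff_const.mul (cd_co k)).contDiffAt]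
  simp [fun k => pd_const_mul (dAt_of_cdAt (cd_co k).contDiffAt) (y := y) (rm u₁ u₂ a k) i, pd_co]

theorem unit {u : ℂ} (h : ‖u‖ = 1) : u.re * u.re + u.im * u.im = 1 := by
  rw [← Complex.normSq_apply, ← Complex.sq_norm, h, one_pow]

theorem rot_blk (u₁ u₂ : ℂ) (h₁ : ‖u₁‖ = 1) (h₂ : ‖u₂‖ = 1) (f h f' h' : E4 → ℝ) (y : E4)
    (hf : f y = f' (rot u₁ u₂ y)) (hh : h y = h' (rot u₁ u₂ y)) :
    blk f h y = (jac (rot u₁ u₂) y).transpose * blk f' h' (rot u₁ u₂ y) * jac (rot u₁ u₂) y := by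
  rw [jac_rot, blk, blk, ← hf, ← hh]
  generalize exp (2 * f y) = A
  generalize exp (2 * h y) = B
  have e₁ := unit h₁
  have e₂ := unit h₂
  ext i j
  rw [Matrix.mul_apply]
  simp only [Matrix.mul_diagonal, Matrix.transpose_apply, Fin.sum_univ_four]
  fin_cases i <;> fin_cases j <;> simp [rm] <;>
    first
      | ring1
      | linear_combination (-A) * e₁
      | linear_combination (-B) * e₂

theorem nice (f h : E4 → ℝ) (U : Set E4) (hU : IsOpen U) (hf : ContDiffOn ℝ ∞ f U)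
    (hh : ContDiffOn ℝ ∞ h U) : Nice (blk f h) U := by
  have a : ContDiffOn ℝ ∞ (fun z => exp (2 * f z)) U := (contDiffOn_const.mul hf).exp
  have b : ContDiffOn ℝ ∞ (fun z => exp (2 * h z)) U := (contDiffOn_const.mul hh).exp
  refine ⟨hU, fun i j => ?_, fun y _ => ?_⟩
  · by_cases hij : i = j
    · subst hij
      simp only [blk, Matrix.diagonal_apply_eq]
      fin_cases i
      exacts [a, a, b, b]
    · simp only [blk, Matrix.diagonal_apply_ne _ hij]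
      exact contDiffOn_const
  · refine Matrix.PosDef.diagonal fun i => ?_
    fin_cases i <;> exact exp_pos _

theorem dens_blk (f h : E4 → ℝ) (y : E4) : dens (blk f h) y = exp (2 * f y + 2 * h y) := by
  rw [dens, blk, Matrix.det_diagonal, Fin.prod_univ_four, exp_add]
  refine (sqrt_eq_iff_mul_self_eq (by simp; positivity) (by positivity)).2 ?_
  simp
  ring

/-- A diagonal quadratic form. -/
def qf (c : Fin 4 → ℝ) (z : E4) : ℝ := ∑ k, c k * z k ^ 2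

/-- The factor of a disc. -/
noncomputable def ff (c : Fin 4 → ℝ) (z : E4) : ℝ := -log (1 - qf c z)

variable {c : Fin 4 → ℝ}

theorem qf_bd (h0 : ∀ k, 0 ≤ c k) (h1 : ∀ k, c k ≤ 1) (y : E4) : 0 ≤ qf c y ∧ qf c y ≤ ‖y‖ ^ 2 := by
  refine ⟨Finset.sum_nonneg fun k _ => mul_nonneg (h0 k) (sq_nonneg _), ?_⟩
  rw [EuclideanSpace.real_norm_sq_eq]
  exact Finset.sum_le_sum fun k _ => mul_le_of_le_one_left (sq_nonneg _) (h1 k)

theorem ff_at {y : E4} (h : qf c y < 1) : ContDiffAt ℝ ∞ (ff c) y :=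
  ((contDiffAt_const.sub (cd_quad c).contDiffAt).log (sub_pos.2 h).ne').neg

theorem ff_pd {y : E4} (h : qf c y < 1) (j : Fin 4) :
    pd j (ff c) y = (1 - qf c y)⁻¹ * (2 * c j * y j) := by
  have h1 : HasDerivAt (fun t : ℝ => -log (1 - t)) (1 - qf c y)⁻¹ (qf c y) := by
    have := (((hasDerivAt_id' (qf c y)).const_sub 1).log (sub_pos.2 h).ne').neg
    refine this.congr_deriv ?_
    rw [neg_div, neg_neg, one_div]
  rw [← pd_quad c j y]
  exact pd_fun (D := qf c) (dAt_of_cdAt (cd_quad c).contDiffAt) h1 j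

theorem ff_ev {y : E4} (h : qf c y < 1) : ∀ᶠ z in 𝓝 y, qf c z < 1 :=
  (cd_quad c).continuous.continuousAt.eventually_lt continuousAt_const h

theorem ff_pd2 {y : E4} (h : qf c y < 1) (i j : Fin 4) :
    DifferentiableAt ℝ (pd j (ff c)) y ∧ pd i (pd j (ff c)) y =
      (1 - qf c y)⁻¹ ^ 2 * (2 * c i * y i) * (2 * c j * y j) +
        (1 - qf c y)⁻¹ * (2 * c j * if j = i then 1 else 0) := by
  have e : pd j (ff c) =ᶠ[𝓝 y] fun z => (1 - qf c z)⁻¹ * (2 * c j * z j) :=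
    (ff_ev h).mono fun z hz => ff_pd hz j
  have a : DifferentiableAt ℝ (fun z => (1 - qf c z)⁻¹) y :=
    dAt_of_cdAt ((contDiffAt_const.sub (cd_quad c).contDiffAt).inv (sub_pos.2 h).ne')
  have b : DifferentiableAt ℝ (fun z : E4 => 2 * c j * z j) y :=
    dAt_of_cdAt (contDiff_const.mul (cd_co j)).contDiffAt
  refine ⟨(a.mul b).congr_of_eventuallyEq e, ?_⟩
  have h1 : HasDerivAt (fun t : ℝ => (1 - t)⁻¹) ((1 - qf c y)⁻¹ ^ 2) (qf c y) := by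
    have := ((hasDerivAt_id' (qf c y)).const_sub 1).inv (sub_pos.2 h).ne'
    refine this.congr_deriv ?_
    rw [neg_neg, one_div, inv_pow]
  rw [pd_congr e, pd_mul a b, pd_fun (D := qf c) (dAt_of_cdAt (cd_quad c).contDiffAt) h1,
    pd_const_mul (dAt_of_cdAt (cd_co j).contDiffAt), pd_co, show pd i (qf c) y = _ from pd_quad c i y]

theorem ff_bd (h0 : ∀ k, 0 ≤ c k) (h1 : ∀ k, c k ≤ 1) {y : E4} (hy : ‖y‖ ≤ r0) :
    qf c y < 1 ∧ 0 ≤ ff c y ∧ ff c y ≤ 2 * ‖y‖ ^ 2 ∧ (∀ j, |pd j (ff c) y| ≤ 4 * ‖y‖) ∧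
      ∀ i j, |pd i (pd j (ff c)) y| ≤ 20 := by
  obtain ⟨q0, q1⟩ := qf_bd h0 h1 y
  have n0 := norm_nonneg y
  rw [r0] at hy
  have q2 : qf c y ≤ 1 / 100 := by nlinarith
  have q3 : qf c y < 1 := by linarith
  have p0 : 0 < 1 - qf c y := by linarith
  have i0 : 0 < (1 - qf c y)⁻¹ := inv_pos.2 p0
  have i1 : (1 - qf c y)⁻¹ * (1 - qf c y) = 1 := inv_mul_cancel₀ p0.ne'
  have i2 : (1 - qf c y)⁻¹ ≤ 2 := by nlinarith
  have hc : ∀ j, |2 * c j * y j| ≤ 2 * ‖y‖ := by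
    intro j
    have : |y j| ≤ ‖y‖ := PiLp.norm_apply_le y j
    rw [abs_mul, abs_of_nonneg (by linarith [h0 j] : 0 ≤ 2 * c j)]
    nlinarith [h0 j, h1 j, abs_nonneg (y j)]
  refine ⟨q3, neg_nonneg.2 (log_nonpos p0.le (by linarith)), ?_, fun j => ?_, fun i j => ?_⟩
  · have := log_le_sub_one_of_pos i0
    rw [log_inv] at this
    rw [ff]
    nlinarith
  · rw [ff_pd q3, abs_mul, abs_of_pos i0]
    nlinarith [hc j, abs_nonneg (2 * c j * y j)]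
  · rw [(ff_pd2 q3 i j).2]
    refine (abs_add_le _ _).trans ?_
    have a : |(1 - qf c y)⁻¹ ^ 2 * (2 * c i * y i) * (2 * c j * y j)| ≤ 2 ^ 2 * 2 * 2 := by
      rw [abs_mul, abs_mul, abs_pow, abs_of_pos i0]
      gcongr
      exacts [(hc i).trans (by linarith), (hc j).trans (by linarith)]
    have b : |(1 - qf c y)⁻¹ * (2 * c j * if j = i then 1 else 0)| ≤ 2 * 2 := by
      rw [abs_mul, abs_of_pos i0]
      gcongr
      split_ifs <;> rw [abs_le] <;> constructor <;> linarith [h0 j, h1 j]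
    linarith

theorem f0_eq : f0 = ff ![1, 1, 0, 0] := funext fun y => by
  simp [f0, ff, qf, zsq, Fin.sum_univ_four]

theorem h0_eq : h0 = ff ![0, 0, 81 / 100, 81 / 100] := funext fun y => by
  have : wsq y / cc ^ 2 = qf ![0, 0, 81 / 100, 81 / 100] y := by
    simp [qf, wsq, cc, Fin.sum_univ_four]
    ring
  rw [h0, ff, this]

theorem c1 : (∀ k, 0 ≤ (![1, 1, 0, 0] : Fin 4 → ℝ) k) ∧ ∀ k, (![1, 1, 0, 0] : Fin 4 → ℝ) k ≤ 1 :=
  ⟨fun k => by fin_cases k <;> simp, fun k => by fin_cases k <;> simp⟩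

theorem c2 : (∀ k, 0 ≤ (![0, 0, 81 / 100, 81 / 100] : Fin 4 → ℝ) k) ∧
    ∀ k, (![0, 0, 81 / 100, 81 / 100] : Fin 4 → ℝ) k ≤ 1 :=
  ⟨fun k => by fin_cases k <;> simp <;> norm_num, fun k => by fin_cases k <;> simp <;> norm_num⟩

theorem ff_sm (h0 : ∀ k, 0 ≤ c k) (h1 : ∀ k, c k ≤ 1) : ContDiffOn ℝ ∞ (ff c) (ball 0 1) := by
  refine fun y hy => (ff_at ((qf_bd h0 h1 y).2.trans_lt ?_)).contDiffWithinAt
  rw [mem_ball_zero_iff] at hy
  nlinarith [norm_nonneg y]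

theorem rh_bd (y : E4) (hy : ‖y‖ < r0) : 1 ≤ rh y ∧ rh y ≤ 2 := by
  obtain ⟨-, a0, a1, -⟩ := ff_bd c1.1 c1.2 hy.le
  obtain ⟨-, b0, b1, -⟩ := ff_bd c2.1 c2.2 hy.le
  rw [rh, f0_eq, h0_eq]
  refine ⟨one_le_exp (by linarith), ?_⟩
  rw [r0] at hy
  refine (exp_le_exp.2 ?_).trans (exp_log two_pos).le
  nlinarith [norm_nonneg y, log_two_gt_d9]

theorem s0_bd : ∃ C : ℝ, ∀ y : E4, ‖y‖ ≤ r0 → |f0 y| ≤ C * ‖y‖ ^ 2 ∧ |h0 y| ≤ C * ‖y‖ ^ 2 ∧
    |s0 y| ≤ C * ‖y‖ ^ 2 ∧ |s0 y| ≤ 1 / 10 ∧ D1 s0 y ≤ C * ‖y‖ ∧ D2 s0 y ≤ C := by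
  refine ⟨160, fun y hy => ?_⟩
  obtain ⟨a, a0, a1, a2, a3⟩ := ff_bd c1.1 c1.2 hy
  obtain ⟨b, b0, b1, b2, b3⟩ := ff_bd c2.1 c2.2 hy
  have e : s0 = fun z => ff ![1, 1, 0, 0] z - ff ![0, 0, 81 / 100, 81 / 100] z := by
    rw [← f0_eq, ← h0_eq]; rfl
  have n0 := norm_nonneg y
  have n2 := sq_nonneg ‖y‖
  rw [r0] at hy
  have n3 : ‖y‖ ^ 2 ≤ 1 / 100 := by nlinarith
  rw [e, f0_eq, h0_eq]
  refine ⟨abs_le.2 ⟨by linarith, by linarith⟩, abs_le.2 ⟨by linarith, by linarith⟩,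
    abs_le.2 ⟨by linarith, by linarith⟩, abs_le.2 ⟨by linarith, by linarith⟩, ?_, ?_⟩
  · refine (D1_le (K := 8 * ‖y‖) (by positivity) fun j => ?_).trans (by linarith)
    rw [pd_sub (dAt_of_cdAt (ff_at a)) (dAt_of_cdAt (ff_at b))]
    exact (abs_sub _ _).trans (by linarith [a2 j, b2 j])
  · refine (D2_le (K := 40) (by norm_num) fun i j => ?_).trans (by norm_num)
    have e2 : pd j (fun z => ff ![1, 1, 0, 0] z - ff ![0, 0, 81 / 100, 81 / 100] z) =ᶠ[𝓝 y]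
        fun z => pd j (ff ![1, 1, 0, 0]) z - pd j (ff ![0, 0, 81 / 100, 81 / 100]) z :=
      ((ff_ev a).and (ff_ev b)).mono fun z hz =>
        pd_sub (dAt_of_cdAt (ff_at hz.1)) (dAt_of_cdAt (ff_at hz.2)) j
    rw [pd_congr e2, pd_sub (ff_pd2 a i j).1 (ff_pd2 b i j).1]
    exact (abs_sub _ _).trans (by linarith [a3 i j, b3 i j])

end E1a

open E1a in
theorem coFacts : CoFacts where
  nsq := nsq
  zsq_eq := zsq_eq
  wsq_eq := wsq_eq
  mk_zw := mk_zw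
  zc_mk := zc_mk
  wc_mk := wc_mk
  rot_iso := rot_iso
  rot_z := rot_z
  rot_w := rot_w
  rot_blk := rot_blk
  nice := nice
  dens_blk := dens_blk
  f0_sm := f0_eq ▸ ff_sm c1.1 c1.2
  h0_sm := h0_eq ▸ ff_sm c2.1 c2.2
  rh_bd := rh_bd
  s0_bd := s0_bd

end Pool.Agent.MP_417fa2_gt.Q2
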