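import Pool.Agent.MP_417fa2_gt.Q2.ESpec

/-! Cut-offs and the sizes of derivatives. -/

open scoped ContDiff Topology
open MeasureTheory Set Metric Real Filter

namespace Pool.Agent.MP_417fa2_gt.Q2

open DE (lp)

namespace E1bX

section Nrm

variable {ι κ : Type} [Fintype ι] [Fintype κ]

/-- The Euclidean norm of a finite family. -/
noncomputable def N (a : ι → ℝ) : ℝ := √(∑ i, a i ^ 2)

theorem N_nonneg (a : ι → ℝ) : 0 ≤ N a := Real.sqrt_nonneg _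

theorem N_sq (a : ι → ℝ) : N a ^ 2 = ∑ i, a i ^ 2 :=
  Real.sq_sqrt (Finset.sum_nonneg fun _ _ => sq_nonneg _)

theorem N_eq (a : ι → ℝ) : N a = ‖(WithLp.toLp 2 a : EuclideanSpace ℝ ι)‖ := by
  simp [N, EuclideanSpace.norm_eq]

theorem N_add (a b : ι → ℝ) : N (fun i => a i + b i) ≤ N a + N b := by
  simp only [N_eq]
  exact norm_add_le (WithLp.toLp 2 a : EuclideanSpace ℝ ι) (WithLp.toLp 2 b)

theorem N_mul (c : ℝ) (a : ι → ℝ) : N (fun i => c * a i) = |c| * N a := by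
  simp only [N, mul_pow, ← Finset.mul_sum]
  rw [Real.sqrt_mul (sq_nonneg _), Real.sqrt_sq_eq_abs]

theorem N_prod (a : ι → ℝ) (b : κ → ℝ) : N (fun p : ι × κ => a p.1 * b p.2) = N a * N b := by
  simp only [N, mul_pow, Fintype.sum_prod_type, ← Finset.mul_sum, ← Finset.sum_mul]
  rw [Real.sqrt_mul (Finset.sum_nonneg fun _ _ => sq_nonneg _)]

theorem N_prod' (a : ι → ℝ) (b : κ → ℝ) : N (fun p : κ × ι => a p.2 * b p.1) = N a * N b := by
  rw [mul_comm, ← N_prod]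
  simp only [mul_comm]

theorem le_N (a : ι → ℝ) (i : ι) : |a i| ≤ N a :=
  Real.abs_le_sqrt (Finset.single_le_sum (f := fun i => a i ^ 2) (fun _ _ => sq_nonneg _)
    (Finset.mem_univ i))

end Nrm

variable {φ ψ : E4 → ℝ} {y : E4}

theorem D1_eq (φ : E4 → ℝ) (y : E4) : D1 φ y = N fun i => pd i φ y := rfl

theorem D2_eq (φ : E4 → ℝ) (y : E4) :
    D2 φ y = N fun p : Fin 4 × Fin 4 => pd p.1 (pd p.2 φ) y := by
  simp only [D2, N, Fintype.sum_prod_type]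

theorem D1_nonneg (φ : E4 → ℝ) (y : E4) : 0 ≤ D1 φ y := Real.sqrt_nonneg _

theorem D2_nonneg (φ : E4 → ℝ) (y : E4) : 0 ≤ D2 φ y := Real.sqrt_nonneg _

theorem D1_sq (φ : E4 → ℝ) (y : E4) : D1 φ y ^ 2 = ∑ i, pd i φ y ^ 2 := N_sq _

theorem D2_sq (φ : E4 → ℝ) (y : E4) : D2 φ y ^ 2 = ∑ i, ∑ j, pd i (pd j φ) y ^ 2 := by
  rw [D2_eq, N_sq, Fintype.sum_prod_type]

theorem dual_sq (L : E4 →L[ℝ] ℝ) (e : E4 ≃ₗᵢ[ℝ] E4) :
    ∑ i, L (e (EuclideanSpace.single i 1)) ^ 2 = ‖L‖ ^ 2 := by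
  simp [((EuclideanSpace.basisFun (Fin 4) ℝ).map e).norm_dual L]

theorem dual_eq (L : E4 →L[ℝ] ℝ) (e : E4 ≃ₗᵢ[ℝ] E4) :
    ∑ i, L (e (EuclideanSpace.single i 1)) ^ 2 = ∑ i, L (EuclideanSpace.single i 1) ^ 2 :=
  (dual_sq L e).trans (dual_sq L (.refl ℝ E4)).symm

/-- The size of the gradient is the norm of the derivative. -/
theorem D1_norm (φ : E4 → ℝ) (y : E4) : D1 φ y = ‖fderiv ℝ φ y‖ :=
  (congrArg Real.sqrt (dual_sq _ (.refl ℝ E4))).trans (Real.sqrt_sq (norm_nonneg _))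

theorem pd_lin (A : E4 →L[ℝ] E4) (h : ContDiff ℝ ∞ φ) (i : Fin 4) :
    pd i (fun z => φ (A z)) = fun y => fderiv ℝ φ (A y) (A (EuclideanSpace.single i 1)) :=
  funext fun y => congrArg (fun L : E4 →L[ℝ] ℝ => L (EuclideanSpace.single i 1))
    ((dAt_of_cdAt h.contDiffAt).hasFDerivAt.comp y A.hasFDerivAt).fderiv

theorem pd2_lin (A : E4 →L[ℝ] E4) (h : ContDiff ℝ ∞ φ) (i j : Fin 4) (y : E4) :
    pd i (pd j fun z => φ (A z)) y = fderiv ℝ (fderiv ℝ φ) (A y)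
      (A (EuclideanSpace.single i 1)) (A (EuclideanSpace.single j 1)) := by
  have h1 : DifferentiableAt ℝ (fderiv ℝ φ) (A y) :=
    (h.contDiffAt.fderiv_right (m := ∞) (by simp)).differentiableAt (by simp)
  have h2 := ((h1.hasFDerivAt.comp y A.hasFDerivAt).clm_apply
    (hasFDerivAt_const (A (EuclideanSpace.single j 1)) y)).fderiv
  rw [pd_lin A h, pd]
  simpa using congrArg (fun L : E4 →L[ℝ] ℝ => L (EuclideanSpace.single i 1)) h2

theorem pd2_eq (h : ContDiff ℝ ∞ φ) (i j : Fin 4) (y : E4) : pd i (pd j φ) y =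
    fderiv ℝ (fderiv ℝ φ) y (EuclideanSpace.single i 1) (EuclideanSpace.single j 1) :=
  pd2_lin (.id ℝ E4) h i j y

theorem iso (e : E4 ≃ₗᵢ[ℝ] E4) (φ : E4 → ℝ) (h : ContDiff ℝ ∞ φ) (y : E4) :
    D1 (fun z => φ (e z)) y = D1 φ (e y) ∧ D2 (fun z => φ (e z)) y = D2 φ (e y) := by
  have h1 := pd_lin (e.toContinuousLinearEquiv : E4 →L[ℝ] E4) h
  have h2 := pd2_lin (e.toContinuousLinearEquiv : E4 →L[ℝ] E4) h
  simp only [ContinuousLinearEquiv.coe_coe, LinearIsometryEquiv.coe_toContinuousLinearEquiv]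
    at h1 h2
  refine ⟨congrArg Real.sqrt ?_, congrArg Real.sqrt ?_⟩
  · simp only [h1]
    exact dual_eq _ e
  · simp only [h2, pd2_eq h, dual_eq _ e]
    rw [Finset.sum_comm, Finset.sum_comm (f := fun i j => fderiv ℝ (fderiv ℝ φ) (e y)
      (EuclideanSpace.single i 1) (EuclideanSpace.single j 1) ^ 2)]
    exact Finset.sum_congr rfl fun j _ =>
      dual_eq ((fderiv ℝ (fderiv ℝ φ) (e y)).flip (EuclideanSpace.single j 1)) e

theorem scale (r : ℝ) (φ : E4 → ℝ) (hr : 0 < r) (h : ContDiff ℝ ∞ φ) (y : E4) :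
    D1 (fun z => φ (r • z)) y = r * D1 φ (r • y) ∧
      D2 (fun z => φ (r • z)) y = r ^ 2 * D2 φ (r • y) := by
  have h1 := pd_lin (r • .id ℝ E4) h
  have h2 := pd2_lin (r • .id ℝ E4) h
  simp only [smul_apply, ContinuousLinearMap.id_apply, map_smul,
    smul_eq_mul, ← pd2_eq h, ← mul_assoc, ← sq] at h1 h2
  constructor
  · rw [D1_eq, D1_eq, ← abs_of_pos hr, ← N_mul, abs_of_pos hr]
    simp only [h1]
    rfl
  · rw [D2_eq, D2_eq, ← abs_of_pos (pow_pos hr 2), ← N_mul]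
    simp only [h2]

theorem congr' (φ ψ : E4 → ℝ) (c : ℝ) (y : E4) (h : ∀ᶠ z in 𝓝 y, φ z = ψ z + c) :
    D1 φ y = D1 ψ y ∧ D2 φ y = D2 ψ y ∧ lp φ y = lp ψ y := by
  have h1 : ∀ i, pd i φ =ᶠ[𝓝 y] pd i ψ := fun i =>
    (pd_eventuallyEq h i).trans (Eventually.of_forall fun z => by
      simp only [pd, fderiv_add_const])
  simp only [D1, D2, DE.lp, fun i => (h1 i).self_of_nhds, fun i j => pd_congr (h1 j) i, and_self]

theorem off (hy : y ∉ tsupport φ) : φ y = 0 ∧ D1 φ y = 0 ∧ D2 φ y = 0 := by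
  obtain ⟨h1, h2, -⟩ := congr' φ (fun _ => 0) 0 y
    ((notMem_tsupport_iff_eventuallyEq.1 hy).mono fun z hz => by simpa using hz)
  have e : ∀ i, pd i (fun _ => (0 : ℝ)) = fun _ => 0 := fun i => funext (pd_const i 0)
  exact ⟨image_eq_zero_of_notMem_tsupport hy, h1.trans (by simp [D1, e]),
    h2.trans (by simp [D2, e])⟩

theorem cont (φ : E4 → ℝ) (h : ContDiff ℝ ∞ φ) : Continuous (D1 φ) ∧ Continuous (D2 φ) :=
  ⟨(continuous_finsetSum _ fun i _ => (cd_pd h i).continuous.pow 2).sqrt,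
    (continuous_finsetSum _ fun i _ => continuous_finsetSum _ fun j _ =>
      (cd_pd (cd_pd h j) i).continuous.pow 2).sqrt⟩

theorem bdd (h : Tst φ) : ∃ C : ℝ, ∀ y, D1 φ y ≤ C ∧ D2 φ y ≤ C := by
  obtain ⟨a, ha⟩ := (HasCompactSupport.intro h.cs fun _ hy =>
    (off hy).2.1).exists_bound_of_continuous (cont φ h.sm).1
  obtain ⟨b, hb⟩ := (HasCompactSupport.intro h.cs fun _ hy =>
    (off hy).2.2).exists_bound_of_continuous (cont φ h.sm).2
  exact ⟨max a b, fun y => ⟨le_max_of_le_left ((le_abs_self _).trans (ha y)),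
    le_max_of_le_right ((le_abs_self _).trans (hb y))⟩⟩

theorem chi_one (t : ℝ) (ht : 0 < t) (y : E4) (hy : ‖y‖ ≤ t) : chi t y = 1 := by
  have h : ‖y‖ ^ 2 / t ^ 2 ≤ 1 := (div_le_one (by positivity)).2 (by gcongr)
  exact smoothTransition.one_of_one_le (by linarith)

theorem chi_zero (t : ℝ) (ht : 0 < t) (y : E4) (hy : 2 * t ≤ ‖y‖) : chi t y = 0 := by
  have h : 4 ≤ ‖y‖ ^ 2 / t ^ 2 := (le_div_iff₀ (by positivity)).2 (by nlinarith)
  exact smoothTransition.zero_of_nonpos (by linarith)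

theorem chi_tst (t : ℝ) (ht : 0 < t) : Tst (chi t) :=
  ⟨smoothTransition.contDiff.comp ((contDiff_const.sub
      ((contDiff_norm_sq ℝ).div_const _)).div_const _),
    HasCompactSupport.intro (isCompact_closedBall 0 (2 * t)) fun y hy =>
      chi_zero t ht y (not_le.1 (mt mem_closedBall_zero_iff.2 hy)).le⟩

theorem chi_scale (t : ℝ) : chi t = fun y => chi 1 (t⁻¹ • y) := funext fun y => by
  simp only [chi, norm_smul, mul_pow, norm_inv, Real.norm_eq_abs, inv_pow, sq_abs]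
  congr 1
  ring

theorem chi_bd : ∃ C : ℝ, ∀ t : ℝ, 0 < t → ∀ y,
    D1 (chi t) y ≤ C / t ∧ D2 (chi t) y ≤ C / t ^ 2 := by
  obtain ⟨C, hC⟩ := bdd (chi_tst 1 one_pos)
  refine ⟨C, fun t ht y => ?_⟩
  obtain ⟨h1, h2⟩ := scale t⁻¹ _ (inv_pos.2 ht) (chi_tst 1 one_pos).sm y
  rw [chi_scale t, h1, h2, div_eq_inv_mul, div_eq_inv_mul, inv_pow]
  exact ⟨mul_le_mul_of_nonneg_left (hC _).1 (by positivity),
    mul_le_mul_of_nonneg_left (hC _).2 (by positivity)⟩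

theorem lp_le (φ : E4 → ℝ) (y : E4) : |lp φ y| ≤ 2 * D2 φ y := by
  refine abs_le_of_sq_le_sq' ?_ (mul_nonneg zero_le_two (D2_nonneg φ y)) |> abs_le.2
  refine sq_sum_le_card_mul_sum_sq.trans ?_
  rw [mul_pow, D2_sq]
  exact mul_le_mul (by norm_num) (Finset.sum_le_sum fun i _ =>
    Finset.single_le_sum (f := fun j => pd i (pd j φ) y ^ 2) (fun _ _ => sq_nonneg _)
      (Finset.mem_univ i)) (Finset.sum_nonneg fun _ _ => sq_nonneg _) (by norm_num)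

theorem D1_mul (φ ψ : E4 → ℝ) (y : E4) (h : ContDiffAt ℝ ∞ φ y) (k : ContDiffAt ℝ ∞ ψ y) :
    D1 (fun z => φ z * ψ z) y ≤ |φ y| * D1 ψ y + D1 φ y * |ψ y| := by
  rw [D1_eq, D1_eq, D1_eq, mul_comm _ |ψ y|, ← N_mul, ← N_mul]
  refine le_of_eq_of_le (congrArg N (funext fun i => ?_)) (N_add _ _)
  rw [pd_mul (dAt_of_cdAt h) (dAt_of_cdAt k)]
  ring

theorem pd2_mul (h : ContDiffAt ℝ ∞ φ y) (k : ContDiffAt ℝ ∞ ψ y) (i j : Fin 4) :
    pd i (pd j fun z => φ z * ψ z) y = φ y * pd i (pd j ψ) y + pd i φ y * pd j ψ y +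
      pd j φ y * pd i ψ y + ψ y * pd i (pd j φ) y := by
  have e : ∀ {f : E4 → ℝ}, ContDiffAt ℝ ∞ f y → ∀ᶠ z in 𝓝 y, DifferentiableAt ℝ f z := fun h =>
    ((h.of_le (m := 1) (by simp)).eventually (by simp)).mono fun _ hz =>
      hz.differentiableAt (by simp)
  have h1 : (pd j fun z => φ z * ψ z) =ᶠ[𝓝 y] fun z => pd j φ z * ψ z + φ z * pd j ψ z :=
    ((e h).and (e k)).mono fun z hz => pd_mul hz.1 hz.2 j
  have a := dAt_of_cdAt h
  have b := dAt_of_cdAt k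
  have c := dAt_of_cdAt (cdAt_pd h j)
  have d := dAt_of_cdAt (cdAt_pd k j)
  rw [pd_congr h1, pd_add (c.fun_mul b) (a.fun_mul d), pd_mul c b, pd_mul a d]
  ring

theorem D2_mul (φ ψ : E4 → ℝ) (y : E4) (h : ContDiffAt ℝ ∞ φ y) (k : ContDiffAt ℝ ∞ ψ y) :
    D2 (fun z => φ z * ψ z) y ≤ |φ y| * D2 ψ y + 2 * D1 φ y * D1 ψ y + D2 φ y * |ψ y| := by
  have h1 := N_prod (fun i => pd i φ y) fun i => pd i ψ y
  have h2 := N_prod' (fun i => pd i φ y) fun i => pd i ψ y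
  rw [D2_eq, D2_eq, D2_eq, D1_eq, D1_eq, mul_comm _ |ψ y|, ← N_mul, ← N_mul]
  simp only [pd2_mul h k]
  refine (N_add _ _).trans (add_le_add ((N_add _ _).trans ((add_le_add (N_add _ _) le_rfl).trans
    ?_)) le_rfl)
  rw [h1, h2]
  linarith

theorem mvt (φ : E4 → ℝ) (h : ContDiff ℝ ∞ φ) (K : ℝ) (x y : E4)
    (hK : ∀ z ∈ segment ℝ x y, D1 φ z ≤ K) : |φ x - φ y| ≤ K * ‖x - y‖ :=
  (convex_segment x y).norm_image_sub_le_of_norm_fderiv_le (𝕜 := ℝ)
    (fun _ _ => dAt_of_cdAt h.contDiffAt) (fun z hz => D1_norm φ z ▸ hK z hz)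
    (right_mem_segment ℝ x y) (left_mem_segment ℝ x y)

theorem int_D2 (h : Tst φ) : ∫ y, D2 φ y ^ 2 = ∑ i, ∑ j, ∫ y, pd i (pd j φ) y ^ 2 := by
  simp only [D2_sq]
  rw [integral_finsetSum _ fun i _ => integrable_finsetSum _ fun j _ =>
    ((h.pd j).pd i).integrable_sq]
  exact Finset.sum_congr rfl fun i _ => integral_finsetSum _ fun j _ =>
    ((h.pd j).pd i).integrable_sq

theorem eN2 (φ : E4 → ℝ) (h : Tst φ) :
    eN 2 φ = (∫ y, φ y ^ 2) + (∫ y, D1 φ y ^ 2) + ∫ y, D2 φ y ^ 2 := by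
  rw [int_D2 h, Finset.sum_comm]
  simp only [D1_sq, eN, Finset.sum_add_distrib, add_assoc]
  rw [integral_finsetSum _ fun i _ => (h.pd i).integrable_sq]

theorem hess (φ : E4 → ℝ) (h : Tst φ) : ∫ y, D2 φ y ^ 2 = ∫ y, lp φ y ^ 2 := by
  have hi := fun i j => ((h.pd i).pd i).integrable_mul ((h.pd j).pd j)
  rw [int_D2 h]
  simp only [DE.lp, sq, Finset.sum_mul_sum]
  rw [integral_finsetSum _ fun i _ => integrable_finsetSum _ fun j _ => hi i j]
  refine Finset.sum_congr rfl fun i _ => ?_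
  rw [integral_finsetSum _ fun j _ => hi i j]
  refine Finset.sum_congr rfl fun j _ => ?_
  rw [DE.ibp ((h.pd j).pd i) (h.pd j), DE.ibp ((h.pd i).pd i) (h.pd j),
    show pd i (pd j φ) = pd j (pd i φ) from funext fun y => pd_comm h.sm.contDiffAt i j,
    show pd i (pd j (pd i φ)) = pd j (pd i (pd i φ)) from
      funext fun y => pd_comm (h.pd i).sm.contDiffAt i j]

theorem l4 : ∃ C : ℝ, ∀ φ, Tst φ → ∫ y, D1 φ y ^ 4 ≤ C * eN 2 φ ^ 2 := by
  obtain ⟨C, h0, hC⟩ := s4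
  refine ⟨16 * C, fun φ h => ?_⟩
  have hi := fun i => EucA.tst_int_pow (h.pd i) (n := 4) (by simp)
  calc ∫ y, D1 φ y ^ 4 ≤ ∫ y, 4 * ∑ i, pd i φ y ^ 4 :=
        integral_mono_of_nonneg (ae_of_all _ fun y => by positivity)
          ((integrable_finsetSum _ fun i _ => hi i).const_mul _) (ae_of_all _ fun y => by
            have := sq_sum_le_card_mul_sum_sq (s := Finset.univ) (f := fun i => pd i φ y ^ 2)
            simp only [← D1_sq, ← pow_mul] at this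
            simpa using this)
    _ = 4 * ∑ i, ∫ y, pd i φ y ^ 4 := by
      rw [integral_const_mul, integral_finsetSum _ fun i _ => hi i]
    _ ≤ 4 * ∑ _i : Fin 4, C * eN 2 φ ^ 2 := by
      gcongr with i
      refine (hC _ (h.pd i)).trans ?_
      gcongr
      exacts [eN_nonneg _ _, eN_pd_le 1 φ i]
    _ = 16 * C * eN 2 φ ^ 2 := by
      simp
      ring

theorem eN_le (φ : E4 → ℝ) (h : Tst φ) (V : Set E4) (K : ℝ) (hV : volume V ≠ ⊤)
    (hs : tsupport φ ⊆ V) (hK : ∀ y, |φ y| ≤ K ∧ D1 φ y ≤ K ∧ D2 φ y ≤ K) :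
    eN 2 φ ≤ 3 * volume.real V * K ^ 2 := by
  have e : ∀ f : E4 → ℝ, (∀ y ∉ tsupport φ, f y = 0) → (∀ y, |f y| ≤ K) →
      ∫ y, f y ^ 2 ≤ K ^ 2 * volume.real V := fun f h0 h1 => by
    rw [← setIntegral_eq_integral_of_forall_compl_eq_zero (s := V) fun y hy => by
      simp [h0 y fun c => hy (hs c)]]
    refine (Real.le_norm_self _).trans (norm_setIntegral_le_of_norm_le_const hV.lt_top fun y _ => ?_)
    rw [norm_pow]
    exact pow_le_pow_left₀ (norm_nonneg _) (h1 y) 2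
  have h1 := e φ (fun y hy => (off hy).1) fun y => (hK y).1
  have h2 := e (D1 φ) (fun y hy => (off hy).2.1) fun y =>
    (abs_of_nonneg (D1_nonneg φ y)).trans_le (hK y).2.1
  have h3 := e (D2 φ) (fun y hy => (off hy).2.2) fun y =>
    (abs_of_nonneg (D2_nonneg φ y)).trans_le (hK y).2.2
  rw [eN2 φ h]
  linarith

end E1bX

open E1bX in
theorem chiFacts : ChiFacts where
  tst := chi_tst
  nonneg _ _ := smoothTransition.nonneg _
  le_one _ _ := smoothTransition.le_one _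
  one := chi_one
  zero := chi_zero
  bd := chi_bd
  pd_le φ i y := le_N (fun i => pd i φ y) i
  pd2_le φ i j y := (le_N (fun p : Fin 4 × Fin 4 => pd p.1 (pd p.2 φ) y) (i, j)).trans_eq
    (D2_eq φ y).symm
  lp_le := lp_le
  D1_mul := D1_mul
  D2_mul := D2_mul
  mvt := mvt
  eN2 := eN2
  hess := hess
  l4 := l4
  D1_iso := iso
  D_scale := scale
  D_congr := congr'
  D_cont := cont
  mul_eN ζ h := (DE.mult 2 ζ h).imp fun _ k => k.2
  eN_le φ h V K _ := eN_le φ h V K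

end Pool.Agent.MP_417fa2_gt.Q2
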