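import Pool.Agent.MP_417fa2_gt.Q2.U1

/-! E1c. The tubes round the two circles. -/

open scoped ContDiff Topology
open MeasureTheory Set Metric Real Filter

namespace Pool.Agent.MP_417fa2_gt.Q2

namespace E1c

open U1 (cd_co pd_co pd_fun cd_quad pd_quad)

theorem two (i : Fin 2) : i = 0 ∨ i = 1 := by revert i; decide

theorem nsq (y : E4) : ‖y‖ ^ 2 = zsq y + wsq y := by
  rw [EuclideanSpace.real_norm_sq_eq, Fin.sum_univ_four, zsq, wsq]
  ring

theorem zsq_nonneg (y : E4) : 0 ≤ zsq y := by unfold zsq; positivity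

theorem wsq_nonneg (y : E4) : 0 ≤ wsq y := by unfold wsq; positivity

/-- The squared size of the coordinate along the circle. -/
def aa (i : Fin 2) (y : E4) : ℝ := if i = 0 then zsq y else wsq y

/-- The squared size of the other coordinate. -/
def bb (i : Fin 2) (y : E4) : ℝ := if i = 0 then wsq y else zsq y

theorem ee_eq (i : Fin 2) (r : ℝ) (y : E4) :
    ee i r y = ((aa i y - r ^ 2) / (2 * r)) ^ 2 + bb i y := by
  unfold ee aa bb
  split_ifs <;> rfl

theorem nsq' (i : Fin 2) (y : E4) : ‖y‖ ^ 2 = aa i y + bb i y := by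
  rw [nsq]
  unfold aa bb
  split_ifs
  · rfl
  · ring

theorem bb_nonneg (i : Fin 2) (y : E4) : 0 ≤ bb i y := by
  unfold bb
  split_ifs
  exacts [wsq_nonneg y, zsq_nonneg y]

/-- The indicator of the coordinates along the circle. -/
def pv (i : Fin 2) : Fin 4 → ℝ := if i = 0 then ![1, 1, 0, 0] else ![0, 0, 1, 1]

theorem pv_cases (i : Fin 2) (j : Fin 4) : pv i j = 0 ∨ pv i j = 1 := by
  rcases two i with rfl | rfl <;> fin_cases j <;> simp [pv]

theorem aa_eq (i : Fin 2) (y : E4) : aa i y = ∑ k, pv i k * y k ^ 2 := by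
  rcases two i with rfl | rfl <;> simp [aa, pv, zsq, wsq, Fin.sum_univ_four]

theorem bb_eq (i : Fin 2) (y : E4) : bb i y = ∑ k, (1 - pv i k) * y k ^ 2 := by
  rcases two i with rfl | rfl <;> simp [bb, pv, zsq, wsq, Fin.sum_univ_four]

theorem aa_sm (i : Fin 2) : ContDiff ℝ ∞ (aa i) := by
  rw [show aa i = _ from funext (aa_eq i)]
  exact cd_quad _

theorem bb_sm (i : Fin 2) : ContDiff ℝ ∞ (bb i) := by
  rw [show bb i = _ from funext (bb_eq i)]
  exact cd_quad _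

theorem pd_aa (i : Fin 2) (j : Fin 4) (y : E4) : pd j (aa i) y = 2 * pv i j * y j := by
  rw [show aa i = _ from funext (aa_eq i)]
  exact pd_quad _ j y

theorem pd_bb (i : Fin 2) (j : Fin 4) (y : E4) : pd j (bb i) y = 2 * (1 - pv i j) * y j := by
  rw [show bb i = _ from funext (bb_eq i)]
  exact pd_quad (fun k => 1 - pv i k) j y

theorem ee_sm (i : Fin 2) (r : ℝ) : ContDiff ℝ ∞ (ee i r) := by
  rw [show ee i r = _ from funext (ee_eq i r)]
  exact ((((aa_sm i).sub contDiff_const).div_const _).pow 2).add (bb_sm i)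

theorem pd_ee (i : Fin 2) {r : ℝ} (hr : 0 < r) (j : Fin 4) :
    pd j (ee i r) = fun y => pv i j / r ^ 2 * ((aa i y - r ^ 2) * y j) + 2 * (1 - pv i j) * y j := by
  funext y
  have h1 : HasDerivAt (fun x : ℝ => ((x - r ^ 2) / (2 * r)) ^ 2)
      (2 * ((aa i y - r ^ 2) / (2 * r)) * (1 / (2 * r))) (aa i y) := by
    simpa using (((hasDerivAt_id (aa i y)).sub_const (r ^ 2)).div_const (2 * r)).fun_pow 2
  rw [show ee i r = _ from funext (ee_eq i r),
    pd_add (dAt_of_cdAt ((((aa_sm i).sub contDiff_const).div_const _).pow 2).contDiffAt)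
      (dAt_of_cdAt (bb_sm i).contDiffAt),
    pd_fun (g := fun x : ℝ => ((x - r ^ 2) / (2 * r)) ^ 2) (dAt_of_cdAt (aa_sm i).contDiffAt) h1,
    pd_aa, pd_bb]
  field_simp

theorem pd2_ee (i : Fin 2) {r : ℝ} (hr : 0 < r) (k j : Fin 4) (y : E4) :
    pd k (pd j (ee i r)) y = pv i j / r ^ 2 * (2 * pv i k * y k * y j +
      (aa i y - r ^ 2) * if j = k then 1 else 0) + 2 * (1 - pv i j) * if j = k then 1 else 0 := by
  have h1 : ContDiff ℝ ∞ fun y => aa i y - r ^ 2 := (aa_sm i).sub contDiff_const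
  have h2 : ContDiff ℝ ∞ fun y : E4 => (aa i y - r ^ 2) * y j := h1.mul (cd_co j)
  rw [pd_ee i hr, pd_add (dAt_of_cdAt (contDiff_const.mul h2).contDiffAt)
      (dAt_of_cdAt (contDiff_const.mul (cd_co j)).contDiffAt),
    pd_const_mul (dAt_of_cdAt h2.contDiffAt), pd_const_mul (dAt_of_cdAt (cd_co j).contDiffAt),
    pd_mul (dAt_of_cdAt h1.contDiffAt) (dAt_of_cdAt (cd_co j).contDiffAt),
    pd_sub (dAt_of_cdAt (aa_sm i).contDiffAt) (differentiableAt_const _), pd_const, pd_aa, pd_co,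
    sub_zero]

theorem aa_bd {i : Fin 2} {r t : ℝ} {y : E4} (hr : 0 < r) (ht : 0 ≤ t) (h : ee i r y ≤ t ^ 2) :
    |aa i y - r ^ 2| ≤ 2 * r * t ∧ bb i y ≤ t ^ 2 := by
  rw [ee_eq] at h
  have hb := bb_nonneg i y
  refine ⟨?_, by nlinarith [sq_nonneg ((aa i y - r ^ 2) / (2 * r))]⟩
  have h1 : |(aa i y - r ^ 2) / (2 * r)| ≤ t := abs_le_of_sq_le_sq' (by linarith) ht |> abs_le.2
  rw [abs_div, abs_of_pos (by positivity : 0 < 2 * r), div_le_iff₀ (by positivity)] at h1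
  linarith

theorem pv_le (i : Fin 2) (j : Fin 4) (y : E4) : pv i j * y j ^ 2 ≤ aa i y := by
  rw [aa_eq]
  refine Finset.single_le_sum (f := fun k => pv i k * y k ^ 2) (fun k _ => ?_) (Finset.mem_univ j)
  rcases pv_cases i k with h | h <;> rw [h] <;> positivity

theorem ee_bd (i : Fin 2) (r : ℝ) (y : E4) (hr : 0 < r) (h : ee i r y ≤ (r / 4) ^ 2) :
    D1 (ee i r) y ≤ 10 * √(ee i r y) ∧ D2 (ee i r) y ≤ 20 := by
  obtain ⟨h1, -⟩ := aa_bd hr (by positivity) h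
  obtain ⟨h2, h3⟩ := abs_le.1 h1
  have hr2 : 0 < r ^ 2 := by positivity
  have hA : aa i y / r ^ 2 ≤ 3 / 2 := by
    rw [div_le_iff₀ hr2]
    nlinarith
  constructor
  · have e1 : ∑ j, pd j (ee i r) y ^ 2 =
        4 * ((aa i y - r ^ 2) / (2 * r)) ^ 2 * (aa i y / r ^ 2) + 4 * bb i y := by
      have e2 : ∀ j, pd j (ee i r) y ^ 2 = ((aa i y - r ^ 2) / r ^ 2) ^ 2 * (pv i j * y j ^ 2) +
          4 * ((1 - pv i j) * y j ^ 2) := by
        intro j
        rw [pd_ee i hr]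
        rcases pv_cases i j with h | h <;> simp only [h] <;> ring
      rw [Finset.sum_congr rfl fun j _ => e2 j, Finset.sum_add_distrib, ← Finset.mul_sum,
        ← Finset.mul_sum, ← aa_eq, ← bb_eq]
      field_simp
      ring
    rw [D1, e1, show (10 : ℝ) = √100 by rw [show (100 : ℝ) = 10 ^ 2 by norm_num, sqrt_sq (by norm_num)],
      ← sqrt_mul (by norm_num), ee_eq]
    refine sqrt_le_sqrt ?_
    nlinarith [bb_nonneg i y, sq_nonneg ((aa i y - r ^ 2) / (2 * r))]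
  · have e2 : ∀ k j, pd k (pd j (ee i r)) y ^ 2 ≤ 25 := by
      intro k j
      rw [pd2_ee i hr]
      have hj := pv_le i j y
      have hk := pv_le i k y
      rcases pv_cases i j with g | g
      · rw [g]
        split_ifs <;> norm_num
      · rw [g] at hj ⊢
        have b1 : |2 * pv i k * y k * y j| ≤ 3 * r ^ 2 := by
          rcases pv_cases i k with g' | g'
          · rw [g']
            simp only [mul_zero, zero_mul, abs_zero]
            positivity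
          · rw [g'] at hk ⊢
            rw [abs_le]
            constructor <;> nlinarith [sq_nonneg (y k + y j), sq_nonneg (y k - y j)]
        obtain ⟨b2, b3⟩ := abs_le.1 b1
        have b4 : |(2 * pv i k * y k * y j + (aa i y - r ^ 2) * if j = k then 1 else 0) / r ^ 2| ≤ 5 := by
          rw [abs_div, abs_of_pos hr2, div_le_iff₀ hr2, abs_le]
          split_ifs <;> constructor <;> nlinarith
        have b5 := sq_le_sq' (abs_le.1 b4).1 (abs_le.1 b4).2
        refine le_trans (le_of_eq ?_) (b5.trans (by norm_num))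
        ring
    rw [D2, sqrt_le_left (by norm_num)]
    refine (Finset.sum_le_sum fun k _ => Finset.sum_le_sum fun j _ => e2 k j).trans ?_
    norm_num

theorem nb_open (r t : ℝ) : IsOpen (nb r t) := by
  rw [nb, ofPred_exists]
  exact isOpen_iUnion fun i => isOpen_lt (ee_sm i r).continuous continuous_const

theorem nb_norm (r t : ℝ) (hr : 0 < r) (ht : 0 < t) (h : t ≤ r / 4) (y : E4) (hy : y ∈ nb r t) :
    r / 2 < ‖y‖ ∧ ‖y‖ < 2 * r := by
  obtain ⟨i, hi⟩ := hy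
  obtain ⟨h1, h2⟩ := aa_bd hr ht.le hi.le
  obtain ⟨h3, h4⟩ := abs_le.1 h1
  have h5 := nsq' i y
  have h6 := bb_nonneg i y
  constructor
  · exact lt_of_pow_lt_pow_left₀ 2 (norm_nonneg _) (by nlinarith)
  · exact lt_of_pow_lt_pow_left₀ 2 (by positivity) (by nlinarith)

theorem zc_sq (y : E4) : ‖zc y‖ ^ 2 = zsq y := by
  rw [Complex.sq_norm, Complex.normSq_apply, zsq, sq, sq]
  rfl

theorem wc_sq (y : E4) : ‖wc y‖ ^ 2 = wsq y := by
  rw [Complex.sq_norm, Complex.normSq_apply, wsq, sq, sq]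
  rfl

/-- The two complex coordinates as a linear isometry. -/
noncomputable def iso : E4 ≃ₗᵢ[ℝ] WithLp 2 (ℂ × ℂ) where
  toFun y := WithLp.toLp 2 (zc y, wc y)
  invFun p := mkE (WithLp.ofLp p).1 (WithLp.ofLp p).2
  map_add' x y := rfl
  map_smul' c x := by
    refine congrArg (WithLp.toLp 2) (a₂ := c • (zc x, wc x)) ?_
    refine Prod.ext ?_ ?_ <;> apply Complex.ext <;> simp [zc, wc]
  left_inv y := by
    ext j
    fin_cases j <;> rfl
  right_inv p := rfl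
  norm_map' y := by
    rw [← sq_eq_sq₀ (norm_nonneg _) (norm_nonneg _), WithLp.prod_norm_sq_eq_of_L2, nsq,
      ← zc_sq, ← wc_sq]
    rfl

/-- The two complex coordinates, the one along the circle first. -/
def ph (i : Fin 2) (y : E4) : ℂ × ℂ := if i = 0 then (zc y, wc y) else (wc y, zc y)

theorem ph_mp (i : Fin 2) : MeasurePreserving (ph i) volume ((volume : Measure ℂ).prod volume) := by
  have h : MeasurePreserving (fun y : E4 => (zc y, wc y)) volume
      ((volume : Measure ℂ).prod volume) :=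
    (WithLp.volume_preserving_ofLp ℂ ℂ).comp iso.measurePreserving
  rcases two i with rfl | rfl
  · exact h
  · exact Measure.measurePreserving_swap.comp h

theorem ph_sq (i : Fin 2) (y : E4) : ‖(ph i y).1‖ ^ 2 = aa i y ∧ ‖(ph i y).2‖ ^ 2 = bb i y := by
  rcases two i with rfl | rfl
  exacts [⟨zc_sq y, wc_sq y⟩, ⟨wc_sq y, zc_sq y⟩]

theorem ball_vol {a : ℝ} (ha : 0 ≤ a) : volume.real (ball (0 : ℂ) √a) = π * a := by
  rw [measureReal_def, Complex.volume_ball, ENNReal.toReal_mul, ENNReal.toReal_pow,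
    ENNReal.toReal_ofReal (sqrt_nonneg a), sq_sqrt ha]
  simp [mul_comm]

/-- An annulus times a disc. -/
def bx (i : Fin 2) (a b c : ℝ) : Set E4 := ph i ⁻¹' ((ball 0 √b \ ball 0 √a) ×ˢ ball 0 √c)

theorem mem_bx {i : Fin 2} {a b c : ℝ} {y : E4} :
    y ∈ bx i a b c ↔ (aa i y < b ∧ a ≤ aa i y) ∧ bb i y < c := by
  obtain ⟨h1, h2⟩ := ph_sq i y
  simp only [bx, mem_preimage, mem_prod, Set.mem_sdiff, mem_ball_zero_iff, lt_sqrt (norm_nonneg _),
    h1, h2, not_lt]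

theorem bx_vol (i : Fin 2) {a b c : ℝ} (ha : 0 ≤ a) (hab : a ≤ b) (hc : 0 ≤ c) :
    volume (bx i a b c) ≠ ⊤ ∧ volume.real (bx i a b c) = π * (b - a) * (π * c) := by
  have h : volume (bx i a b c) = _ := (ph_mp i).measure_preimage
    ((measurableSet_ball.diff measurableSet_ball).prod measurableSet_ball).nullMeasurableSet
  constructor
  · rw [h, Measure.prod_prod]
    exact ENNReal.mul_ne_top (measure_ne_top_of_subset sdiff_subset measure_ball_lt_top.ne)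
      measure_ball_lt_top.ne
  · rw [measureReal_def, h, ← measureReal_def, measureReal_prod_prod,
      measureReal_sdiff (ball_subset_ball (sqrt_le_sqrt hab)) measurableSet_ball
        measure_ball_lt_top.ne, ball_vol ha, ball_vol (ha.trans hab), ball_vol hc]
    ring

theorem sub_bx (i : Fin 2) {r t : ℝ} (hr : 0 < r) (ht : 0 < t) :
    {y | ee i r y < t ^ 2} ⊆ bx i (r ^ 2 - 2 * r * t) (r ^ 2 + 3 * r * t) (2 * t ^ 2) := by
  intro y hy
  obtain ⟨h1, h2⟩ := aa_bd hr ht.le (le_of_lt hy)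
  obtain ⟨h3, h4⟩ := abs_le.1 h1
  have h5 : 0 < r * t := by positivity
  have h6 : 0 < t ^ 2 := by positivity
  exact mem_bx.2 ⟨⟨by linarith, by linarith⟩, by linarith⟩

theorem nb_vol : ∃ C : ℝ, ∀ r t : ℝ, 0 < r → 0 < t → t ≤ r / 4 →
    volume.real (nb r t) ≤ C * r * t ^ 3 := by
  refine ⟨20 * π ^ 2, fun r t hr ht h => ?_⟩
  have h5 : 0 < r * t := by positivity
  have hv := fun i => bx_vol i (a := r ^ 2 - 2 * r * t) (b := r ^ 2 + 3 * r * t) (c := 2 * t ^ 2)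
    (by nlinarith) (by linarith) (by positivity)
  have hs : nb r t ⊆ bx 0 (r ^ 2 - 2 * r * t) (r ^ 2 + 3 * r * t) (2 * t ^ 2) ∪
      bx 1 (r ^ 2 - 2 * r * t) (r ^ 2 + 3 * r * t) (2 * t ^ 2) := by
    rintro y ⟨i, hi⟩
    rcases two i with rfl | rfl
    exacts [Or.inl (sub_bx 0 hr ht hi), Or.inr (sub_bx 1 hr ht hi)]
  refine (measureReal_mono hs (measure_union_ne_top (hv 0).1 (hv 1).1)).trans
    ((measureReal_union_le _ _).trans (le_of_eq ?_))
  rw [(hv 0).2, (hv 1).2]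
  ring

theorem vol_lo : ∃ c : ℝ, 0 < c ∧ ∀ i (t : ℝ), 0 < t → t ≤ 1 / 4 →
    c * t ^ 3 ≤ volume.real {y | ee i 1 y < t ^ 2} := by
  refine ⟨π ^ 2, by positivity, fun i t ht h => ?_⟩
  have hv := bx_vol i (a := 1 ^ 2 - 2 * 1 * t) (b := 1 ^ 2 + 3 * 1 * t) (c := 2 * t ^ 2)
    (by linarith) (by linarith) (by positivity)
  have hw := bx_vol i (a := 1 - t) (b := 1 + t) (c := t ^ 2 / 2)
    (by linarith) (by linarith) (by positivity)
  have hs : bx i (1 - t) (1 + t) (t ^ 2 / 2) ⊆ {y | ee i 1 y < t ^ 2} := by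
    intro y hy
    obtain ⟨⟨h1, h2⟩, h3⟩ := mem_bx.1 hy
    rw [mem_ofPred_eq, ee_eq]
    nlinarith [mul_nonneg (sub_nonneg.2 h1.le) (sub_nonneg.2 h2), sq_nonneg t]
  refine le_trans (le_of_eq ?_)
    (measureReal_mono hs (measure_ne_top_of_subset (sub_bx i one_pos ht) hv.1))
  rw [hw.2]
  ring

theorem circ_ab (i : Fin 2) (r θ : ℝ) : aa i (circ i r θ) = r ^ 2 ∧ bb i (circ i r θ) = 0 := by
  rcases two i with rfl | rfl <;> simp [aa, bb, circ, zsq, wsq] <;>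
    linear_combination r ^ 2 * cos_sq_add_sin_sq θ

theorem polar (a b : ℝ) : ∃ ρ θ : ℝ, 0 ≤ ρ ∧ a = ρ * cos θ ∧ b = ρ * sin θ :=
  ⟨‖(⟨a, b⟩ : ℂ)‖, Complex.arg ⟨a, b⟩, norm_nonneg _, (Complex.norm_mul_cos_arg ⟨a, b⟩).symm,
    (Complex.norm_mul_sin_arg ⟨a, b⟩).symm⟩

theorem sub_circ (i : Fin 2) (y : E4) : ∃ a b : ℝ, aa i y = a ^ 2 + b ^ 2 ∧ ∀ r θ : ℝ,
    ‖y - circ i r θ‖ ^ 2 = (a - r * cos θ) ^ 2 + (b - r * sin θ) ^ 2 + bb i y := by
  rcases two i with rfl | rfl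
  · exact ⟨y 0, y 1, rfl, fun r θ => by simp [nsq, bb, circ, zsq, wsq]⟩
  · refine ⟨y 2, y 3, rfl, fun r θ => ?_⟩
    simp [nsq, bb, circ, zsq, wsq]
    ring

theorem near (i : Fin 2) (r t : ℝ) (y : E4) (hr : 0 < r) (ht : 0 < t) (h : ee i r y ≤ t ^ 2) :
    ∃ θ, ‖y - circ i r θ‖ ≤ 2 * t := by
  obtain ⟨a, b, h1, h2⟩ := sub_circ i y
  obtain ⟨ρ, θ, h0, rfl, rfl⟩ := polar a b
  refine ⟨θ, le_of_pow_le_pow_left₀ two_ne_zero (by positivity) ?_⟩
  have h3 : aa i y = ρ ^ 2 := by rw [h1]; linear_combination ρ ^ 2 * cos_sq_add_sin_sq θ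
  have h4 : ‖y - circ i r θ‖ ^ 2 = (ρ - r) ^ 2 + bb i y := by
    rw [h2]
    linear_combination (ρ - r) ^ 2 * cos_sq_add_sin_sq θ
  have h5 : (ρ - r) ^ 2 ≤ 4 * ((ρ ^ 2 - r ^ 2) / (2 * r)) ^ 2 := by
    rw [show 4 * ((ρ ^ 2 - r ^ 2) / (2 * r)) ^ 2 = (ρ - r) ^ 2 * ((ρ + r) / r) ^ 2 by
      field_simp; ring]
    refine le_mul_of_one_le_right (sq_nonneg _) (one_le_pow₀ ?_)
    rw [le_div_iff₀ hr]
    linarith
  rw [ee_eq, h3] at h
  rw [h4]
  nlinarith [bb_nonneg i y]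

theorem near' (i : Fin 2) (r t θ : ℝ) (y : E4) (hr : 0 < r) (ht : t ≤ r / 4)
    (h : ‖y - circ i r θ‖ ≤ t) : ee i r y ≤ (2 * t) ^ 2 := by
  obtain ⟨a, b, h1, h2⟩ := sub_circ i y
  have h0 : 0 ≤ t := (norm_nonneg _).trans h
  have h3 := pow_le_pow_left₀ (norm_nonneg _) h 2
  have hb := bb_nonneg i y
  rw [h2] at h3
  obtain ⟨p, hp⟩ : ∃ p, p = a - r * cos θ := ⟨_, rfl⟩
  obtain ⟨q, hq⟩ : ∃ q, q = b - r * sin θ := ⟨_, rfl⟩
  rw [← hp, ← hq] at h3
  have h4 : (aa i y - r ^ 2) / (2 * r) = (p ^ 2 + q ^ 2) / (2 * r) + (p * cos θ + q * sin θ) := by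
    rw [h1, hp, hq]
    field_simp
    linear_combination r ^ 2 * cos_sq_add_sin_sq θ
  have h5 : (p * cos θ + q * sin θ) ^ 2 ≤ p ^ 2 + q ^ 2 := by
    nlinarith [sq_nonneg (p * sin θ - q * cos θ), cos_sq_add_sin_sq θ]
  have h6 : ((p ^ 2 + q ^ 2) / (2 * r)) ^ 2 ≤ p ^ 2 + q ^ 2 := by
    rw [div_pow, div_le_iff₀ (by positivity), sq (p ^ 2 + q ^ 2)]
    refine mul_le_mul_of_nonneg_left ?_ (by positivity)
    nlinarith
  rw [ee_eq, h4]
  nlinarith [sq_nonneg ((p ^ 2 + q ^ 2) / (2 * r) - (p * cos θ + q * sin θ))]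

/-- The closed tubes. -/
def kb (r s : ℝ) : Set E4 := {y | ∃ i, ee i r y ≤ s}

theorem kb_closed (r s : ℝ) : IsClosed (kb r s) := by
  rw [kb, ofPred_exists]
  exact isClosed_iUnion_of_finite fun i => isClosed_le (ee_sm i r).continuous continuous_const

theorem kb_sub {r s t : ℝ} (h : s < t ^ 2) : kb r s ⊆ nb r t :=
  fun _ ⟨i, hi⟩ => ⟨i, hi.trans_lt h⟩

theorem kb_cpt {r s t : ℝ} (hr : 0 < r) (ht : 0 < t) (h : t ≤ r / 4) (hs : s < t ^ 2) :
    IsCompact (kb r s) :=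
  (isCompact_closedBall (0 : E4) (2 * r)).of_isClosed_subset (kb_closed r s) fun y hy =>
    mem_closedBall_zero_iff.2 (nb_norm r t hr ht h y (kb_sub hs hy)).2.le

theorem sep (r t : ℝ) (hr : 0 < r) (ht : 0 < t) (h : t ≤ r / 8) : ∃ c : ℝ, 0 < c ∧ ∀ x y : E4,
    x ∉ nb r t → y ∈ nb r (t / 2) → c ≤ ‖x - y‖ := by
  have hs : (t / 2) ^ 2 < t ^ 2 := by nlinarith
  obtain ⟨c, hc, h1⟩ := (kb_cpt hr ht (by linarith) hs).exists_thickening_subset_open (nb_open r t)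
    (kb_sub hs)
  refine ⟨c, hc, fun x y hx ⟨i, hi⟩ => le_of_not_gt fun h2 => hx (h1 ?_)⟩
  exact mem_thickening_iff.2 ⟨y, ⟨i, hi.le⟩, by rwa [dist_eq_norm]⟩

theorem bump (r t : ℝ) (hr : 0 < r) (ht : 0 < t) (h : t ≤ r / 8) : ∃ ζ, Tst ζ ∧
    tsupport ζ ⊆ nb r t ∧ ∀ y ∈ nb r (t / 2), ζ y = 1 := by
  have h2 : 0 < t ^ 2 := by positivity
  have hs : t ^ 2 / 2 < t ^ 2 := by linarith
  obtain ⟨g, hg⟩ : ∃ g : Fin 2 → E4 → ℝ,
      g = fun i y => smoothTransition ((t ^ 2 / 2 - ee i r y) / (t ^ 2 / 4)) := ⟨_, rfl⟩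
  have g1 : ∀ i, ContDiff ℝ ∞ (g i) := fun i => by
    rw [hg]
    exact smoothTransition.contDiff.comp ((contDiff_const.sub (ee_sm i r)).div_const _)
  have g2 : ∀ i y, t ^ 2 / 2 < ee i r y → g i y = 0 := fun i y hy => by
    rw [hg]
    exact smoothTransition.zero_of_nonpos
      (div_nonpos_of_nonpos_of_nonneg (by linarith) (by positivity))
  have g3 : ∀ i y, ee i r y < (t / 2) ^ 2 → g i y = 1 := fun i y hy => by
    rw [hg]
    refine smoothTransition.one_of_one_le ?_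
    rw [le_div_iff₀ (by positivity)]
    linarith
  have hsup : tsupport (fun y => 1 - (1 - g 0 y) * (1 - g 1 y)) ⊆ kb r (t ^ 2 / 2) := by
    refine closure_minimal (fun y hy => ?_) (kb_closed _ _)
    by_contra h3
    refine hy ?_
    have h4 : ∀ i, g i y = 0 := fun i => g2 i y (lt_of_not_ge fun h5 => h3 ⟨i, h5⟩)
    simp [h4]
  refine ⟨fun y => 1 - (1 - g 0 y) * (1 - g 1 y),
    ⟨contDiff_const.sub ((contDiff_const.sub (g1 0)).mul (contDiff_const.sub (g1 1))),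
      (kb_cpt hr ht (by linarith) hs).of_isClosed_subset (isClosed_tsupport _) hsup⟩,
    hsup.trans (kb_sub hs), ?_⟩
  rintro y ⟨i, hi⟩
  rcases two i with rfl | rfl <;> simp [g3 _ y hi]

end E1c

open E1c in
theorem nbFacts' : NbFacts where
  nb_open := nb_open
  nb_norm := nb_norm
  nb_vol := nb_vol
  circ_ee i r θ := by rw [ee_eq, (circ_ab i r θ).1, (circ_ab i r θ).2]; simp
  circ_norm i r θ hr := by
    rw [← sq_eq_sq₀ (norm_nonneg _) hr, nsq' i, (circ_ab i r θ).1, (circ_ab i r θ).2, add_zero]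
  ee_sm := ee_sm
  ee_neg i r y := by simp [ee, zsq, wsq]
  ee_scale i r y hr := by
    simp only [ee, zsq, wsq, PiLp.smul_apply, smul_eq_mul]
    split_ifs <;> field_simp
  ee_bd := ee_bd
  near i r t y hr ht _ := near i r t y hr ht
  near' := near'
  sep := sep
  vol_lo := vol_lo
  bump := bump

theorem nbFacts (_ : CoFacts) : NbFacts := nbFacts'

end Pool.Agent.MP_417fa2_gt.Q2
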