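import Pool.Agent.MP_417fa2_gt.Q2.ESpec

/-! The curvature and the Laplacian of the metric `e^{2s} |dz|² + |dw|²`. -/

open scoped ContDiff Topology
open MeasureTheory Set Metric Real Filter

namespace Pool.Agent.MP_417fa2_gt.Q2

namespace E2

def de (a b : Fin 4) : ℝ := if a = b then 1 else 0

def tt (a : Fin 4) : ℝ := if a.val < 2 then 1 else 0

variable {s : E4 → ℝ} {y : E4}

theorem Gs_eq (s : E4 → ℝ) (y : E4) : Gs s y = Matrix.diagonal fun i => exp (2 * tt i * s y) := by
  unfold Gs blk
  congr 1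
  funext i
  fin_cases i <;> simp [tt]

theorem ginv_eq (s : E4 → ℝ) (y : E4) (i j : Fin 4) :
    ginv (Gs s) i j y = de i j * exp (-(2 * tt i * s y)) := by
  have : (Gs s y)⁻¹ = Matrix.diagonal fun i => exp (-(2 * tt i * s y)) := by
    refine Matrix.inv_eq_left_inv ?_
    rw [Gs_eq, Matrix.diagonal_mul_diagonal, ← Matrix.diagonal_one]
    congr 1
    funext i
    rw [← exp_add, neg_add_cancel, exp_zero]
  rw [ginv, this, Matrix.diagonal_apply, de]
  split_ifs <;> simp

theorem pd_e (h : DifferentiableAt ℝ s y) (c : ℝ) (m : Fin 4) :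
    pd m (fun z => exp (c * s z)) y = exp (c * s y) * (c * pd m s y) := by
  rw [pd_exp (h.const_mul c), pd_const_mul h]

theorem pd_G (h : DifferentiableAt ℝ s y) (m i j : Fin 4) : pd m (fun z => Gs s z i j) y =
    de i j * (exp (2 * tt i * s y) * (2 * tt i * pd m s y)) := by
  rw [show (fun z => Gs s z i j) = fun z => de i j * exp (2 * tt i * s z) from funext fun z => by
      simp only [Gs_eq, Matrix.diagonal_apply, de]
      split_ifs <;> simp,
    pd_const_mul (h.const_mul _).exp, pd_e h]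

theorem chr_eq (h : DifferentiableAt ℝ s y) (k i j : Fin 4) : chr (Gs s) k i j y =
    de k j * tt k * pd i s y + de k i * tt k * pd j s y - de i j * tt i * tt k * pd k s y -
      de i j * tt i * (1 - tt k) * (exp (2 * s y) * pd k s y) := by
  simp only [chr, ginv_eq, pd_G h]
  rw [Finset.sum_eq_single k (fun l _ hl => by simp [de, hl.symm]) (by simp)]
  have e2 : exp (-(2 * tt k * s y)) * exp (2 * tt k * s y) = 1 := by
    rw [← exp_add, neg_add_cancel, exp_zero]
  have e : tt i * (exp (-(2 * tt k * s y)) * exp (2 * tt i * s y)) =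
      tt i * (tt k + (1 - tt k) * exp (2 * s y)) := by
    unfold tt
    split_ifs <;> simp [← exp_add]
  have e3 : de k k = 1 := by simp [de]
  rw [e3]
  linear_combination (de k j * tt k * pd i s y + de k i * tt k * pd j s y) * e2 -
    de i j * pd k s y * e

theorem pd_chr (h : SmAt s y) (m k i j : Fin 4) : pd m (chr (Gs s) k i j) y =
    de k j * tt k * pd m (pd i s) y + de k i * tt k * pd m (pd j s) y -
      de i j * tt i * tt k * pd m (pd k s) y - de i j * tt i * (1 - tt k) *
        (exp (2 * s y) * (2 * pd m s y) * pd k s y + exp (2 * s y) * pd m (pd k s) y) := by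
  have d : ∀ i, DifferentiableAt ℝ (pd i s) y := fun i => dAt_of_cdAt (cdAt_pd h.at i)
  have d0 := dAt_of_cdAt h.at
  have d1 : DifferentiableAt ℝ (fun z => exp (2 * s z)) y := (d0.const_mul _).exp
  rw [pd_congr (h.mono fun z hz => chr_eq (dAt_of_cdAt hz) k i j),
    pd_sub ((((d i).const_mul _).fun_add ((d j).const_mul _)).fun_sub ((d k).const_mul _))
      ((d1.fun_mul (d k)).const_mul _),
    pd_sub (((d i).const_mul _).fun_add ((d j).const_mul _)) ((d k).const_mul _),
    pd_add ((d i).const_mul _) ((d j).const_mul _), pd_const_mul (d i),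
    pd_const_mul (d j), pd_const_mul (d k), pd_const_mul (d1.fun_mul (d k)), pd_mul d1 (d k),
    pd_e d0]

theorem lap_eq (h : SmAt s y) {φ : E4 → ℝ} (hφ : SmAt φ y) : lap (Gs s) φ y =
    exp (-(2 * s y)) * lz φ y + lw φ y + 2 * (pd 2 s y * pd 2 φ y + pd 3 s y * pd 3 φ y) := by
  have d0 := dAt_of_cdAt h.at
  have d : ∀ i, DifferentiableAt ℝ (pd i φ) y := fun i => dAt_of_cdAt (cdAt_pd hφ.at i)
  have g : ∀ i, grad (Gs s) φ i = fun z => exp (-(2 * tt i) * s z) * pd i φ z := fun i => by
    funext z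
    simp [grad, ginv_eq, de]
  have h1 : ∀ i, pd i (grad (Gs s) φ i) y = exp (-(2 * tt i) * s y) * (-(2 * tt i) * pd i s y) *
      pd i φ y + exp (-(2 * tt i) * s y) * pd i (pd i φ) y := fun i => by
    rw [g, pd_mul (d0.const_mul _).exp (d i), pd_e d0]
  simp only [lap, dvg, h1, chr_eq d0, Fin.sum_univ_four]
  simp [g, de, tt, lz, lw]
  ring

end E2

open E2 in
theorem ricStmt : RicStmt := by
  intro s U hU hs y hy
  have h := smAt_of_on hU hy hs
  have d0 := dAt_of_cdAt h.at
  have c := pd_comm h.at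
  refine ⟨fun i j => ?_, fun i j hi hj => ?_, fun i j hi hj => ?_, fun i j hi hj => ⟨?_, ?_⟩,
    fun φ hφ => lap_eq h (smAt_of_on hU hy hφ)⟩
  · rw [ginv_eq, de, tt]
    split_ifs <;> simp
  all_goals
    simp only [ric, chr_eq d0, pd_chr h, Fin.sum_univ_four]
    fin_cases i <;> fin_cases j <;> first
      | (exfalso; revert hi hj; decide)
      | (simp [de, tt, lz, lw, c 1 0, c 2 0, c 3 0, c 2 1, c 3 1, c 3 2] <;> ring)

end Pool.Agent.MP_417fa2_gt.Q2
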