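import Pool.Agent.MP_417fa2_gt.Q2.ESpec

/-! The product of two hyperbolic discs: curvature, Laplacian, second order part. -/

open scoped ContDiff Topology
open MeasureTheory Set Metric Real Filter

namespace Pool.Agent.MP_417fa2_gt.Q2

namespace E3

def de (a b : Fin 4) : ℝ := if a = b then 1 else 0

def si (a b : Fin 4) : ℝ := if a.val / 2 = b.val / 2 then 1 else 0

noncomputable def kp (i : Fin 4) : ℝ := if i.val < 2 then 1 else 1 / cc ^ 2

noncomputable def W (i : Fin 4) (z : E4) : ℝ :=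
  if i.val < 2 then 1 - (z 0 * z 0 + z 1 * z 1) else 1 - 1 / cc ^ 2 * (z 2 * z 2 + z 3 * z 3)

noncomputable def V (i : Fin 4) (z : E4) : ℝ := (W i z)⁻¹

noncomputable def p (i : Fin 4) (z : E4) : ℝ := 2 * kp i * (z i * V i z)

variable {y : E4}

theorem pd_co (i j : Fin 4) (y : E4) : pd j (fun z : E4 => z i) y = de i j := by
  have : (fun z : E4 => z i) = EuclideanSpace.proj (𝕜 := ℝ) i := rfl
  rw [pd, this, ContinuousLinearMap.fderiv]
  simp [de]

theorem dco (i : Fin 4) (y : E4) : DifferentiableAt ℝ (fun z : E4 => z i) y := by fun_prop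

theorem dW (i : Fin 4) (y : E4) : DifferentiableAt ℝ (W i) y := by
  unfold W
  split_ifs <;> fun_prop

theorem pd_W (m i : Fin 4) (y : E4) : pd m (W i) y = -2 * si m i * kp i * y m := by
  have h : ∀ a b : Fin 4, pd m (fun z : E4 => z a * z a + z b * z b) y =
      2 * (de a m * y a + de b m * y b) := fun a b => by
    rw [pd_add (by fun_prop) (by fun_prop), pd_mul (dco _ _) (dco _ _), pd_mul (dco _ _) (dco _ _),
      pd_co, pd_co]
    ring
  unfold W
  split_ifs with c
  · rw [pd_sub (by fun_prop) (by fun_prop), pd_const, h]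
    fin_cases i <;> fin_cases m <;> simp [de, si, kp] at c ⊢
  · rw [pd_sub (by fun_prop) (by fun_prop), pd_const, pd_const_mul (by fun_prop), h]
    fin_cases i <;> fin_cases m <;> simp [de, si, kp] at c ⊢ <;> ring

theorem W0 (z : E4) : 1 - zsq z = W 0 z := by simp [W, zsq, sq]

theorem W2 (z : E4) : 1 - wsq z / cc ^ 2 = W 2 z := by
  simp only [W, wsq, sq, Fin.isValue, Fin.val_two, lt_self_iff_false, if_false]
  ring

theorem W1 : W 1 = W 0 := rfl

theorem W3 : W 3 = W 2 := rfl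

theorem W_pos (hy : ‖y‖ < 1) (i : Fin 4) : 0 < W i y := by
  have h1 : ‖y‖ ^ 2 < 1 := by nlinarith [norm_nonneg y]
  rw [EuclideanSpace.real_norm_sq_eq, Fin.sum_univ_four] at h1
  unfold W cc
  split_ifs <;> nlinarith [sq_nonneg (y 0), sq_nonneg (y 1), sq_nonneg (y 2), sq_nonneg (y 3)]

theorem dV (hy : ‖y‖ < 1) (i : Fin 4) : DifferentiableAt ℝ (V i) y :=
  (dW i y).fun_inv (W_pos hy i).ne'

theorem pd_V (hy : ‖y‖ < 1) (m i : Fin 4) :
    pd m (V i) y = 2 * si m i * kp i * y m * V i y ^ 2 := by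
  have h := ((hasDerivAt_inv (W_pos hy i).ne').comp_hasFDerivAt y (dW i y).hasFDerivAt).fderiv
  have h2 := pd_W m i y
  rw [pd] at h2 ⊢
  rw [show V i = (fun t : ℝ => t⁻¹) ∘ W i from rfl, h, smul_apply, h2]
  simp only [Function.comp, smul_eq_mul, inv_pow]
  ring

theorem dp (hy : ‖y‖ < 1) (i : Fin 4) : DifferentiableAt ℝ (p i) y :=
  ((dco i y).fun_mul (dV hy i)).const_mul _

theorem pd_p (hy : ‖y‖ < 1) (m i : Fin 4) :
    pd m (p i) y = 2 * kp i * de i m * V i y + si m i * (p m y * p i y) := by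
  unfold p
  rw [pd_const_mul ((dco i y).fun_mul (dV hy i)), pd_mul (dco i y) (dV hy i), pd_co, pd_V hy]
  fin_cases i <;> fin_cases m <;> simp [de, si, kp, V, W1, W3] <;> ring

theorem evb (hy : ‖y‖ < 1) : ∀ᶠ z in 𝓝 y, ‖z‖ < 1 :=
  (isOpen_lt continuous_norm continuous_const).mem_nhds hy

theorem blk_eq (hy : ‖y‖ < 1) : blk f0 h0 y = Matrix.diagonal fun i => V i y * V i y := by
  have e : ∀ t : ℝ, 0 < t → exp (2 * -log t) = t⁻¹ * t⁻¹ := fun t ht => by
    rw [two_mul, exp_add, exp_neg, exp_log ht]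
  unfold blk f0 h0
  rw [W0, W2, e _ (W_pos hy 0), e _ (W_pos hy 2)]
  congr 1
  funext i
  fin_cases i <;> rfl

theorem ginv_eq (hy : ‖y‖ < 1) (i j : Fin 4) :
    ginv (blk f0 h0) i j y = de i j * (W i y * W i y) := by
  have : (blk f0 h0 y)⁻¹ = Matrix.diagonal fun i => W i y * W i y := by
    refine Matrix.inv_eq_left_inv ?_
    rw [blk_eq hy, Matrix.diagonal_mul_diagonal, ← Matrix.diagonal_one]
    congr 1
    funext i
    have := (W_pos hy i).ne'
    simp only [V]
    field_simp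
  rw [ginv, this, Matrix.diagonal_apply, de]
  split_ifs <;> simp

theorem pd_blk (hy : ‖y‖ < 1) (m i j : Fin 4) : pd m (fun z => blk f0 h0 z i j) y =
    de i j * (2 * si m i * p m y * (V i y * V i y)) := by
  rw [pd_congr (g := fun z => de i j * (V i z * V i z)) ((evb hy).mono fun z hz => by
      simp only [blk_eq hz, Matrix.diagonal_apply, de]
      split_ifs <;> simp),
    pd_const_mul ((dV hy i).fun_mul (dV hy i)), pd_mul (dV hy i) (dV hy i), pd_V hy]
  congr 1
  fin_cases i <;> fin_cases m <;> simp [si, kp, p, V, W1, W3] <;> ring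

theorem chr_eq (hy : ‖y‖ < 1) (k i j : Fin 4) : chr (blk f0 h0) k i j y =
    de k j * si i k * p i y + de k i * si j k * p j y - de i j * si k i * p k y := by
  have h0 := (W_pos hy 0).ne'
  have h2 := (W_pos hy 2).ne'
  simp only [chr, ginv_eq hy, pd_blk hy]
  rw [Finset.sum_eq_single k (fun l _ hl => by simp [de, hl.symm]) (by simp)]
  have e : ∀ a, si k a * (W k y * W k y * (V a y * V a y)) = si k a := fun a => by
    fin_cases a <;> fin_cases k <;> simp [si, V, W1, W3] <;> field_simp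
  have e1 : si k k = 1 := by simp [si]
  have e2 := e k
  rw [e1, one_mul] at e2
  have e3 : de k k = 1 := by simp [de]
  rw [e3]
  linear_combination (de k j * si i k * p i y + de k i * si j k * p j y) * e2 -
    de i j * p k y * e i

theorem pd_chr (hy : ‖y‖ < 1) (m k i j : Fin 4) : pd m (chr (blk f0 h0) k i j) y =
    de k j * si i k * pd m (p i) y + de k i * si j k * pd m (p j) y -
      de i j * si k i * pd m (p k) y := by
  rw [pd_congr ((evb hy).mono fun z hz => chr_eq hz k i j),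
    pd_sub (((dp hy i).const_mul _).fun_add ((dp hy j).const_mul _)) ((dp hy k).const_mul _),
    pd_add ((dp hy i).const_mul _) ((dp hy j).const_mul _), pd_const_mul (dp hy i),
    pd_const_mul (dp hy j), pd_const_mul (dp hy k)]

theorem ric_eq (hy : ‖y‖ < 1) (i j : Fin 4) :
    ric (blk f0 h0) i j y = de i j * (-4 * kp i * (V i y * V i y)) := by
  have h0 : V 0 y * (1 - (y 0 * y 0 + y 1 * y 1)) = 1 := inv_mul_cancel₀ (W_pos hy 0).ne'
  have h2 : V 2 y * (1 - 1 / cc ^ 2 * (y 2 * y 2 + y 3 * y 3)) = 1 :=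
    inv_mul_cancel₀ (W_pos hy 2).ne'
  have v1 : V 1 = V 0 := rfl
  have v3 : V 3 = V 2 := rfl
  simp only [ric, chr_eq hy, pd_chr hy, pd_p hy, Fin.sum_univ_four]
  fin_cases i <;> fin_cases j <;> simp [de, si] <;> simp [p, kp, v1, v3]
  all_goals first
    | ring1
    | linear_combination (4 * V 0 y) * h0
    | linear_combination (4 * (1 / cc ^ 2) * V 2 y) * h2

theorem WV (hy : ‖y‖ < 1) (i : Fin 4) : W i y * V i y = 1 := mul_inv_cancel₀ (W_pos hy i).ne'

theorem mixed (hy : ‖y‖ < 1) (i : Fin 4) :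
    W i y * W i y * (-4 * kp i * (V i y * V i y)) = -4 * kp i := by
  linear_combination (-4 * kp i * (W i y * V i y + 1)) * WV hy i

theorem de_sum (i : Fin 4) (F : Fin 4 → ℝ) : ∑ j, de i j * F j = F i := by simp [de]

theorem scal_eq (hy : ‖y‖ < 1) : scal (blk f0 h0) y = -8 - 8 / cc ^ 2 := by
  have : ∀ i, ∑ j, ginv (blk f0 h0) i j y * ric (blk f0 h0) i j y = -4 * kp i := fun i => by
    rw [Finset.sum_eq_single i (fun l _ hl => by simp [ginv_eq hy, de, hl.symm]) (by simp),
      ginv_eq hy, ric_eq hy]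
    simp only [de, if_true, one_mul, mixed hy i]
  simp only [scal, this, Fin.sum_univ_four]
  simp [kp]
  ring

theorem ricSq_eq (hy : ‖y‖ < 1) : ricSq (blk f0 h0) y = 32 + 32 / cc ^ 4 := by
  have : ∀ i, ∑ j, ∑ k, ∑ l, ginv (blk f0 h0) i k y * ginv (blk f0 h0) j l y *
      ric (blk f0 h0) i j y * ric (blk f0 h0) k l y = (-4 * kp i) ^ 2 := fun i => by
    rw [Finset.sum_eq_single i (fun l _ hl => by simp [ric_eq hy, de, hl.symm]) (by simp),
      Finset.sum_eq_single i (fun l _ hl => by simp [ginv_eq hy, de, hl.symm]) (by simp),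
      Finset.sum_eq_single i (fun l _ hl => by simp [ginv_eq hy, de, hl.symm]) (by simp),
      ginv_eq hy, ric_eq hy]
    simp only [de, if_true]
    linear_combination (W i y * W i y * (-4 * kp i * (V i y * V i y)) - 4 * kp i) * mixed hy i
  rw [ricSq, Finset.sum_congr rfl fun i _ => this i, Fin.sum_univ_four]
  simp [kp]
  ring

theorem grad_eq (hy : ‖y‖ < 1) (φ : E4 → ℝ) (i : Fin 4) :
    grad (blk f0 h0) φ i y = W i y * W i y * pd i φ y := by
  simp only [grad, ginv_eq hy, mul_assoc, de_sum]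

theorem ricGrad_eq (hy : ‖y‖ < 1) (φ : E4 → ℝ) (i : Fin 4) :
    ricGrad (blk f0 h0) φ i y = -4 * kp i * (W i y * W i y * pd i φ y) := by
  rw [ricGrad, Finset.sum_eq_single i (fun l _ hl => by simp [ginv_eq hy, de, hl.symm]) (by simp),
    Finset.sum_eq_single i (fun l _ hl => by simp [ric_eq hy, de, hl.symm]) (by simp),
    ginv_eq hy, ric_eq hy, grad_eq hy]
  simp only [de, if_true, one_mul]
  rw [mixed hy i]

theorem dvg_eq (hy : ‖y‖ < 1) {φ : E4 → ℝ} (hφ : SmAt φ y) (c : Fin 4 → ℝ)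
    {X : Fin 4 → E4 → ℝ} (hX : ∀ z : E4, ‖z‖ < 1 → ∀ i, X i z = c i * (W i z * W i z * pd i φ z)) :
    dvg (blk f0 h0) X y = ∑ i, c i * (W i y * W i y * pd i (pd i φ) y) := by
  have d : ∀ i, DifferentiableAt ℝ (pd i φ) y := fun i =>
    (((hφ.at.fderiv_right (m := 1) (by norm_cast)).differentiableAt
      one_ne_zero).clm_apply (differentiableAt_const _))
  have h1 : ∀ i, pd i (X i) y = c i * (W i y * W i y * pd i (pd i φ) y) -
      2 * p i y * X i y := fun i => by
    rw [pd_congr ((evb hy).mono fun z hz => hX z hz i),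
      pd_const_mul (((dW i y).fun_mul (dW i y)).fun_mul (d i)),
      pd_mul ((dW i y).fun_mul (dW i y)) (d i), pd_mul (dW i y) (dW i y), pd_W, hX y hy, p]
    simp only [si, if_true]
    linear_combination (4 * c i * kp i * y i * W i y * pd i φ y) * WV hy i
  simp only [dvg, h1, chr_eq hy, Fin.sum_univ_four]
  simp [de, si]
  ring

theorem lap_eq (hy : ‖y‖ < 1) {φ : E4 → ℝ} (hφ : SmAt φ y) :
    lap (blk f0 h0) φ y = (1 - zsq y) ^ 2 * lz φ y + (1 - wsq y / cc ^ 2) ^ 2 * lw φ y := by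
  rw [lap, dvg_eq hy hφ (fun _ => 1) fun z hz i => by rw [grad_eq hz, one_mul]]
  simp only [Fin.sum_univ_four, W0, W2, W1, W3, lz, lw]
  ring

end E3

open E3 in
theorem hypStmt : HypStmt := by
  intro y hy
  refine ⟨?_, fun φ hφ => ⟨lap_eq hy hφ, ?_⟩⟩
  · have h1 : scal (blk f0 h0) =ᶠ[𝓝 y] fun _ => -8 - 8 / cc ^ 2 :=
      (evb hy).mono fun z hz => scal_eq hz
    have h2 : ∀ i, pd i (pd i (scal (blk f0 h0))) y = 0 := fun i =>
      pd_eq_zero_of_eventually ((pd_eventuallyEq h1 i).mono fun z hz => hz.trans (pd_const _ _ _)) i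
    rw [qcurv, lap_eq hy (h1.eventuallyEq_nhds.mono fun z hz =>
      contDiffAt_const.congr_of_eventuallyEq hz), scal_eq hy, ricSq_eq hy]
    simp only [lz, lw, h2]
    ring
  · rw [pan2, dvg_eq hy hφ (fun i => 2 / 3 * (-8 - 8 / cc ^ 2) + 8 * kp i) fun z hz i => by
      rw [grad_eq hz, ricGrad_eq hz, scal_eq hz]
      ring]
    simp only [Fin.sum_univ_four, W0, W2, W1, W3, lz, lw]
    simp [kp]
    ring

end Pool.Agent.MP_417fa2_gt.Q2
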