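import Pool.Agent.MP_417fa2_gt.Q2.ESpec

/-! Pointwise bounds for the curvature and the bilinear form of `Gs s`. -/

open scoped ContDiff Topology
open MeasureTheory Set Metric Real Filter Asymptotics

namespace Pool.Agent.MP_417fa2_gt.Q2

open DE (lp)

/-- The data of the pointwise bounds. -/
structure e4D where
  s : E4 → ℝ
  φ : E4 → ℝ
  ψ : E4 → ℝ
  y : E4
  hs : SmAt s y
  hφ : SmAt φ y
  hψ : SmAt ψ y
  h1 : |s y| ≤ 1

theorem e4_D1 (φ : E4 → ℝ) (y : E4) : 0 ≤ D1 φ y := sqrt_nonneg _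

theorem e4_D2 (φ : E4 → ℝ) (y : E4) : 0 ≤ D2 φ y := sqrt_nonneg _

theorem e4_pd (φ : E4 → ℝ) (i : Fin 4) (y : E4) : |pd i φ y| ≤ D1 φ y :=
  abs_le_sqrt (Finset.single_le_sum (f := fun i => pd i φ y ^ 2) (fun _ _ => sq_nonneg _)
    (Finset.mem_univ i))

theorem e4_pd2 (φ : E4 → ℝ) (i j : Fin 4) (y : E4) : |pd i (pd j φ) y| ≤ D2 φ y :=
  abs_le_sqrt ((Finset.single_le_sum (f := fun j => pd i (pd j φ) y ^ 2) (fun _ _ => sq_nonneg _)
    (Finset.mem_univ j)).trans (Finset.single_le_sum (f := fun i => ∑ j, pd i (pd j φ) y ^ 2)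
      (fun _ _ => Finset.sum_nonneg fun _ _ => sq_nonneg _) (Finset.mem_univ i)))

theorem e4_of {f g : e4D → ℝ} (c : ℝ) (h : ∀ p, |f p| ≤ c * g p) (hc : 0 ≤ c) : f =O[⊤] g :=
  IsBigO.of_bound c (Eventually.of_forall fun p =>
    (h p).trans (mul_le_mul_of_nonneg_left (le_abs_self _) hc))

theorem e4_le {f g : e4D → ℝ} (c : ℝ) (h0 : ∀ p, 0 ≤ f p) (h : ∀ p, f p ≤ c * g p) (hc : 0 ≤ c) :
    f =O[⊤] g := e4_of c (fun p => by rw [abs_of_nonneg (h0 p)]; exact h p) hc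

theorem e4_out {f g : e4D → ℝ} (h : f =O[⊤] g) (h0 : ∀ p, 0 ≤ g p) :
    ∃ C : ℝ, 0 ≤ C ∧ ∀ p, |f p| ≤ C * g p := by
  obtain ⟨C, hC⟩ := isBigO_top.1 h
  refine ⟨|C|, abs_nonneg _, fun p => ?_⟩
  have := hC p
  rw [Real.norm_eq_abs, Real.norm_eq_abs, abs_of_nonneg (h0 p)] at this
  exact this.trans (mul_le_mul_of_nonneg_right (le_abs_self _) (h0 p))

theorem e4_exp {x : ℝ} (h : |x| ≤ 1) : |exp (2 * x) - 1| ≤ 8 * |x| := by
  have h1 : |exp x - 1| ≤ 2 * |x| := abs_exp_sub_one_le h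
  have h2 : |exp x + 1| ≤ 4 := by
    have := abs_le.1 (h1.trans (by linarith : 2 * |x| ≤ 2))
    rw [abs_of_pos (by positivity)]
    linarith [this.2]
  have h3 : exp (2 * x) - 1 = (exp x - 1) * (exp x + 1) := by
    rw [two_mul, exp_add]; ring
  rw [h3, abs_mul]
  nlinarith [abs_nonneg (exp x - 1), abs_nonneg (exp x + 1), abs_nonneg x]

theorem e4_E1 : (fun p : e4D => exp (2 * p.s p.y) - 1) =O[⊤] fun p => |p.s p.y| :=
  e4_of 8 (fun p => e4_exp p.h1) (by norm_num)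

theorem e4_F1 : (fun p : e4D => exp (-(2 * p.s p.y)) - 1) =O[⊤] fun p => |p.s p.y| :=
  e4_of 8 (fun p => by
    have := e4_exp (x := -p.s p.y) (by rw [abs_neg]; exact p.h1)
    rwa [abs_neg, mul_neg] at this) (by norm_num)

theorem e4_s1 : (fun p : e4D => |p.s p.y|) =O[⊤] fun _ => (1 : ℝ) :=
  e4_le 1 (fun _ => abs_nonneg _) (fun p => by simpa using p.h1) zero_le_one

theorem e4_E : (fun p : e4D => exp (2 * p.s p.y)) =O[⊤] fun _ => (1 : ℝ) := by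
  simpa using (e4_E1.trans e4_s1).add (isBigO_refl (fun _ : e4D => (1 : ℝ)) ⊤)

theorem e4_F : (fun p : e4D => exp (-(2 * p.s p.y))) =O[⊤] fun _ => (1 : ℝ) := by
  simpa using (e4_F1.trans e4_s1).add (isBigO_refl (fun _ : e4D => (1 : ℝ)) ⊤)

theorem e4_o1 (F : e4D → E4 → ℝ) (i : Fin 4) :
    (fun p : e4D => pd i (F p) p.y) =O[⊤] fun p => D1 (F p) p.y :=
  e4_of 1 (fun p => by rw [one_mul]; exact e4_pd _ i _) zero_le_one

theorem e4_o2 (F : e4D → E4 → ℝ) (i j : Fin 4) :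
    (fun p : e4D => pd i (pd j (F p)) p.y) =O[⊤] fun p => D2 (F p) p.y :=
  e4_of 1 (fun p => by rw [one_mul]; exact e4_pd2 _ i j _) zero_le_one

theorem e4_lz (F : e4D → E4 → ℝ) : (fun p : e4D => lz (F p) p.y) =O[⊤] fun p => D2 (F p) p.y :=
  (e4_o2 F 0 0).add (e4_o2 F 1 1)

theorem e4_lw (F : e4D → E4 → ℝ) : (fun p : e4D => lw (F p) p.y) =O[⊤] fun p => D2 (F p) p.y :=
  (e4_o2 F 2 2).add (e4_o2 F 3 3)

theorem e4_sum {F : Fin 4 → e4D → ℝ} {g : e4D → ℝ} (h : ∀ i, F i =O[⊤] g) :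
    (fun p => ∑ i, F i p) =O[⊤] g := by
  simpa only [Fin.sum_univ_four] using (((h 0).add (h 1)).add (h 2)).add (h 3)

theorem e4_one {f g h : e4D → ℝ} (a : f =O[⊤] fun _ => (1 : ℝ)) (b : g =O[⊤] h) :
    (fun p => f p * g p) =O[⊤] h := by simpa using a.mul b

theorem e4_one' {f g h : e4D → ℝ} (b : g =O[⊤] h) (a : f =O[⊤] fun _ => (1 : ℝ)) :
    (fun p => g p * f p) =O[⊤] h := by simpa using b.mul a

/-- The weight of the curvature. -/
noncomputable def e4w (p : e4D) : ℝ := D2 p.s p.y + D1 p.s p.y ^ 2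

theorem e4w_nonneg (p : e4D) : 0 ≤ e4w p := add_nonneg (e4_D2 _ _) (sq_nonneg _)

theorem e4_bw : (fun p : e4D => D2 p.s p.y) =O[⊤] e4w :=
  e4_le 1 (fun _ => e4_D2 _ _) (fun p => by
    rw [one_mul]; exact le_add_of_nonneg_right (sq_nonneg _)) zero_le_one

theorem e4_aw : (fun p : e4D => D1 p.s p.y * D1 p.s p.y) =O[⊤] e4w :=
  e4_le 1 (fun _ => mul_self_nonneg _) (fun p => by
    rw [one_mul, ← pow_two]; exact le_add_of_nonneg_left (e4_D2 _ _)) zero_le_one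

theorem e4_ss (i j : Fin 4) : (fun p : e4D => pd i p.s p.y * pd j p.s p.y) =O[⊤]
    fun p => D1 p.s p.y * D1 p.s p.y := (e4_o1 e4D.s i).mul (e4_o1 e4D.s j)

theorem e4_sq23 : (fun p : e4D => 2 * (pd 2 p.s p.y ^ 2 + pd 3 p.s p.y ^ 2)) =O[⊤]
    fun p => D1 p.s p.y * D1 p.s p.y := by
  simpa only [pow_two] using ((e4_ss 2 2).add (e4_ss 3 3)).const_mul_left 2

section

variable (h2 : RicStmt)
include h2

theorem e4_ric_at (p : e4D) :
    (∀ i j : Fin 4, ginv (Gs p.s) i j p.y =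
      if i = j then (if i.val < 2 then exp (-(2 * p.s p.y)) else 1) else 0) ∧
    (∀ i j : Fin 4, i.val < 2 → j.val < 2 → ric (Gs p.s) i j p.y = if i = j then
      -(lz p.s p.y + exp (2 * p.s p.y) * (lw p.s p.y + 2 * (pd 2 p.s p.y ^ 2 + pd 3 p.s p.y ^ 2)))
      else 0) ∧
    (∀ i j : Fin 4, 2 ≤ i.val → 2 ≤ j.val →
      ric (Gs p.s) i j p.y = -2 * (pd i (pd j p.s) p.y + pd i p.s p.y * pd j p.s p.y)) ∧
    (∀ i j : Fin 4, i.val < 2 → 2 ≤ j.val →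
      ric (Gs p.s) i j p.y = -pd i (pd j p.s) p.y ∧ ric (Gs p.s) j i p.y = -pd i (pd j p.s) p.y) := by
  obtain ⟨U, hU, hy, h⟩ := p.hs.ex
  have := h2 p.s U hU h p.y hy
  exact ⟨this.1, this.2.1, this.2.2.1, this.2.2.2.1⟩

theorem e4_lap_at {s φ : E4 → ℝ} {y : E4} (hs : SmAt s y) (hφ : SmAt φ y) : lap (Gs s) φ y =
    exp (-(2 * s y)) * lz φ y + lw φ y + 2 * (pd 2 s y * pd 2 φ y + pd 3 s y * pd 3 φ y) := by
  obtain ⟨U, hU, hy, h⟩ := hs.ex
  obtain ⟨V, hV, hy', k⟩ := hφ.ex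
  exact (h2 s _ (hU.inter hV) (h.mono inter_subset_left) y ⟨hy, hy'⟩).2.2.2.2 φ
    (k.mono inter_subset_right)

theorem e4_ginv (i j : Fin 4) : (fun p : e4D => ginv (Gs p.s) i j p.y) =O[⊤] fun _ => (1 : ℝ) := by
  simp only [fun p => (e4_ric_at h2 p).1 i j]
  split_ifs
  · exact e4_F
  · exact isBigO_refl _ _
  · exact isBigO_zero _ _

theorem e4_ric (i j : Fin 4) : (fun p : e4D => ric (Gs p.s) i j p.y) =O[⊤] e4w := by
  rcases lt_or_ge i.val 2 with hi | hi <;> rcases lt_or_ge j.val 2 with hj | hj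
  · simp only [fun p => (e4_ric_at h2 p).2.1 i j hi hj]
    split_ifs
    · exact (((e4_lz e4D.s).trans e4_bw).add (e4_one e4_E
        (((e4_lw e4D.s).trans e4_bw).add (e4_sq23.trans e4_aw)))).neg_left
    · exact isBigO_zero _ _
  · simp only [fun p => ((e4_ric_at h2 p).2.2.2 i j hi hj).1]
    exact ((e4_o2 e4D.s i j).trans e4_bw).neg_left
  · simp only [fun p => ((e4_ric_at h2 p).2.2.2 j i hj hi).2]
    exact ((e4_o2 e4D.s j i).trans e4_bw).neg_left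
  · simp only [fun p => (e4_ric_at h2 p).2.2.1 i j hi hj]
    exact (((e4_o2 e4D.s i j).trans e4_bw).add ((e4_ss i j).trans e4_aw)).const_mul_left _

theorem e4_scal : (fun p : e4D => scal (Gs p.s) p.y) =O[⊤] e4w :=
  e4_sum fun i => e4_sum fun j => e4_one (e4_ginv h2 i j) (e4_ric h2 i j)

theorem e4_ricSq : (fun p : e4D => ricSq (Gs p.s) p.y) =O[⊤] fun p => e4w p * e4w p :=
  e4_sum fun i => e4_sum fun j => e4_sum fun k => e4_sum fun l =>
    (e4_one (e4_one (e4_ginv h2 i k) (e4_ginv h2 j l)) (e4_ric h2 i j)).mul (e4_ric h2 k l)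

theorem e4_aco (a b : Fin 4) : (fun p : e4D => aco (Gs p.s) a b p.y) =O[⊤] e4w :=
  ((e4_one' ((e4_scal h2).const_mul_left _) (e4_ginv h2 a b)).sub
    ((e4_sum fun j => e4_sum fun k =>
      e4_one' (e4_one (e4_ginv h2 a j) (e4_ric h2 j k)) (e4_ginv h2 k b)).const_mul_left _)).neg_left

theorem e4_T : (fun p : e4D => 3 * ricSq (Gs p.s) p.y - scal (Gs p.s) p.y ^ 2) =O[⊤]
    fun p => e4w p * e4w p := by
  simpa only [pow_two] using ((e4_ricSq h2).const_mul_left 3).sub ((e4_scal h2).mul (e4_scal h2))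

end

theorem e4_lp (φ : E4 → ℝ) (y : E4) : lp φ y = lz φ y + lw φ y := by
  simp only [DE.lp, lz, lw, Fin.sum_univ_four]; ring

theorem e4_dens (h1 : CoFacts) (s : E4 → ℝ) (y : E4) : dens (Gs s) y = exp (2 * s y) := by
  rw [Gs, h1.dens_blk, mul_zero, add_zero]

theorem e4_del (F : e4D → E4 → ℝ) : (fun p : e4D => (exp (-(2 * p.s p.y)) - 1) * lz (F p) p.y +
    2 * (pd 2 p.s p.y * pd 2 (F p) p.y + pd 3 p.s p.y * pd 3 (F p) p.y)) =O[⊤]
    fun p => |p.s p.y| * D2 (F p) p.y + D1 p.s p.y * D1 (F p) p.y := by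
  refine ((e4_F1.mul (e4_lz F)).trans ?_).add
    (((((e4_o1 e4D.s 2).mul (e4_o1 F 2)).add
      ((e4_o1 e4D.s 3).mul (e4_o1 F 3))).const_mul_left 2).trans ?_)
  · exact e4_le 1 (fun p => mul_nonneg (abs_nonneg _) (e4_D2 _ _)) (fun p => by
      rw [one_mul]; exact le_add_of_nonneg_right (mul_nonneg (e4_D1 _ _) (e4_D1 _ _))) zero_le_one
  · exact e4_le 1 (fun p => mul_nonneg (e4_D1 _ _) (e4_D1 _ _)) (fun p => by
      rw [one_mul]; exact le_add_of_nonneg_left (mul_nonneg (abs_nonneg _) (e4_D2 _ _))) zero_le_one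

theorem pertStmt (h1 : CoFacts) (h2 : RicStmt) : PertStmt := by
  let W : e4D → ℝ := fun p => |p.s p.y| * D2 p.φ p.y * D2 p.ψ p.y +
    D1 p.s p.y * (D1 p.φ p.y * D2 p.ψ p.y + D2 p.φ p.y * D1 p.ψ p.y) +
    (D2 p.s p.y + D1 p.s p.y ^ 2) * D1 p.φ p.y * D1 p.ψ p.y
  have pos : ∀ p : e4D, 0 ≤ |p.s p.y| ∧ 0 ≤ D1 p.s p.y ∧ 0 ≤ D2 p.s p.y ∧ 0 ≤ D1 p.φ p.y ∧
      0 ≤ D2 p.φ p.y ∧ 0 ≤ D1 p.ψ p.y ∧ 0 ≤ D2 p.ψ p.y := fun p =>
    ⟨abs_nonneg _, e4_D1 _ _, e4_D2 _ _, e4_D1 _ _, e4_D2 _ _, e4_D1 _ _, e4_D2 _ _⟩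
  have le : ∀ {f : e4D → ℝ}, (∀ p, 0 ≤ f p ∧ 0 ≤ W p - f p) → f =O[⊤] W := fun h =>
    e4_le 1 (fun p => (h p).1) (fun p => by linarith [(h p).2]) zero_le_one
  have lφ := (e4_lz e4D.φ).add (e4_lw e4D.φ)
  have lψ := (e4_lz e4D.ψ).add (e4_lw e4D.ψ)
  have t1 := ((e4_E1.mul lφ).mul lψ).trans (le fun p => by
    obtain ⟨a, b, c, d, e, f, g⟩ := pos p
    refine ⟨by positivity, ?_⟩
    simp only [W]
    rw [add_assoc, add_sub_cancel_left]
    positivity)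
  have t2 := ((e4_del e4D.φ).mul lψ).trans (le fun p => by
    obtain ⟨a, b, c, d, e, f, g⟩ := pos p
    refine ⟨by positivity, ?_⟩
    have : W p - (|p.s p.y| * D2 p.φ p.y + D1 p.s p.y * D1 p.φ p.y) * D2 p.ψ p.y =
        D1 p.s p.y * D2 p.φ p.y * D1 p.ψ p.y +
          (D2 p.s p.y + D1 p.s p.y ^ 2) * D1 p.φ p.y * D1 p.ψ p.y := by simp only [W]; ring
    rw [this]
    positivity)
  have t3 := (lφ.mul (e4_del e4D.ψ)).trans (le fun p => by
    obtain ⟨a, b, c, d, e, f, g⟩ := pos p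
    refine ⟨by positivity, ?_⟩
    have : W p - D2 p.φ p.y * (|p.s p.y| * D2 p.ψ p.y + D1 p.s p.y * D1 p.ψ p.y) =
        D1 p.s p.y * D1 p.φ p.y * D2 p.ψ p.y +
          (D2 p.s p.y + D1 p.s p.y ^ 2) * D1 p.φ p.y * D1 p.ψ p.y := by simp only [W]; ring
    rw [this]
    positivity)
  have t4 := ((e4_del e4D.φ).mul (e4_del e4D.ψ)).trans (le fun p => by
    obtain ⟨a, b, c, d, e, f, g⟩ := pos p
    refine ⟨by positivity, ?_⟩
    have h := sub_nonneg.2 p.h1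
    have : W p - (|p.s p.y| * D2 p.φ p.y + D1 p.s p.y * D1 p.φ p.y) *
        (|p.s p.y| * D2 p.ψ p.y + D1 p.s p.y * D1 p.ψ p.y) =
        (1 - |p.s p.y|) * (|p.s p.y| * D2 p.φ p.y * D2 p.ψ p.y +
          D1 p.s p.y * (D1 p.φ p.y * D2 p.ψ p.y + D2 p.φ p.y * D1 p.ψ p.y)) +
          D2 p.s p.y * D1 p.φ p.y * D1 p.ψ p.y := by simp only [W]; ring
    rw [this]
    positivity)
  have t5 := (e4_sum fun a => e4_sum fun b =>
    ((e4_aco h2 a b).mul (e4_o1 e4D.φ a)).mul (e4_o1 e4D.ψ b)).trans (le fun p => by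
      obtain ⟨a, b, c, d, e, f, g⟩ := pos p
      have := e4w_nonneg p
      refine ⟨by positivity, ?_⟩
      simp only [W, e4w]
      rw [add_sub_cancel_right]
      positivity)
  obtain ⟨C, -, hC⟩ := e4_out (t1.add (e4_one e4_E (((t2.add t3).add t4).sub t5))) fun p => by
    obtain ⟨a, b, c, d, e, f, g⟩ := pos p
    simp only [W]
    positivity
  refine ⟨C, fun s φ ψ y hs hφ hψ h => ?_⟩
  refine le_trans (le_of_eq (congrArg _ ?_)) (hC ⟨s, φ, ψ, y, hs, hφ, hψ, h⟩)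
  simp only [bform, e4_dens h1, e4_lap_at h2 hs hφ, e4_lap_at h2 hs hψ, e4_lp]
  ring

/-- The weight of the cubic terms. -/
noncomputable def e4V (p : e4D) : ℝ :=
  |p.s p.y| * D2 p.s p.y ^ 2 + D1 p.s p.y ^ 2 * D2 p.s p.y + D1 p.s p.y ^ 4

/-- The weight of the quadratic terms. -/
noncomputable def e4e (p : e4D) : ℝ := |p.s p.y| * D2 p.s p.y + D1 p.s p.y * D1 p.s p.y

theorem e4_sqd {u ε : e4D → ℝ} (hu : u =O[⊤] fun p => D2 p.s p.y) (hε : ε =O[⊤] e4e) :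
    (fun p => (u p + ε p) ^ 2 - u p ^ 2) =O[⊤] e4V := by
  have a1 : (fun p => e4e p * D2 p.s p.y) =O[⊤] e4V := e4_le 1 (fun p => by
    have := e4_D1 p.s p.y
    have := e4_D2 p.s p.y
    simp only [e4e]
    positivity) (fun p => by
      have : 0 ≤ D1 p.s p.y ^ 4 := by positivity
      simp only [e4e, e4V]
      nlinarith) zero_le_one
  have a2 : (fun p => e4e p * e4e p) =O[⊤] e4V := e4_le 2 (fun p => mul_self_nonneg _) (fun p => by
    have a := e4_D1 p.s p.y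
    have b := e4_D2 p.s p.y
    have c := abs_nonneg (p.s p.y)
    have h := sub_nonneg.2 p.h1
    have : 2 * e4V p - e4e p * e4e p = (1 - |p.s p.y|) * (|p.s p.y| * D2 p.s p.y ^ 2 +
        2 * D1 p.s p.y ^ 2 * D2 p.s p.y) + |p.s p.y| * D2 p.s p.y ^ 2 + D1 p.s p.y ^ 4 := by
      simp only [e4e, e4V]; ring
    have h3 : 0 ≤ 2 * e4V p - e4e p * e4e p := by rw [this]; positivity
    linarith) (by norm_num)
  refine ((((hε.mul hu).trans a1).const_mul_left 2).add ((hε.mul hε).trans a2)).congr_left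
    fun p => ?_
  ring

theorem e4_diff (h1 : CoFacts) (h2 : RicStmt) :
    (fun p : e4D => sg p.s p.y - quad p.s p.y) =O[⊤] e4V := by
  have ae : (fun p : e4D => D1 p.s p.y * D1 p.s p.y) =O[⊤] e4e :=
    e4_le 1 (fun _ => mul_self_nonneg _) (fun p => by
      rw [one_mul]; exact le_add_of_nonneg_left (mul_nonneg (abs_nonneg _) (e4_D2 _ _))) zero_le_one
  have be : (fun p : e4D => |p.s p.y| * D2 p.s p.y) =O[⊤] e4e :=
    e4_le 1 (fun _ => mul_nonneg (abs_nonneg _) (e4_D2 _ _)) (fun p => by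
      rw [one_mul]; exact le_add_of_nonneg_right (mul_self_nonneg _)) zero_le_one
  have t0 : (fun p : e4D => |p.s p.y| * (e4w p * e4w p)) =O[⊤] e4V :=
    e4_le 2 (fun p => mul_nonneg (abs_nonneg _) (mul_self_nonneg _)) (fun p => by
      have a := e4_D1 p.s p.y
      have b := e4_D2 p.s p.y
      have c := abs_nonneg (p.s p.y)
      have h := sub_nonneg.2 p.h1
      have : 2 * e4V p - |p.s p.y| * (e4w p * e4w p) = (1 - |p.s p.y|) *
          (2 * D1 p.s p.y ^ 2 * D2 p.s p.y + D1 p.s p.y ^ 4) + |p.s p.y| * D2 p.s p.y ^ 2 +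
          D1 p.s p.y ^ 4 := by
        simp only [e4w, e4V]; ring
      have h3 : 0 ≤ 2 * e4V p - |p.s p.y| * (e4w p * e4w p) := by rw [this]; positivity
      linarith) (by norm_num)
  have t1 : (fun p : e4D => |p.s p.y| * (D2 p.s p.y * D2 p.s p.y)) =O[⊤] e4V :=
    e4_le 1 (fun p => mul_nonneg (abs_nonneg _) (mul_self_nonneg _)) (fun p => by
      have a := e4_D1 p.s p.y
      have b := e4_D2 p.s p.y
      have : 0 ≤ D1 p.s p.y ^ 2 * D2 p.s p.y + D1 p.s p.y ^ 4 := by positivity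
      simp only [e4V]
      nlinarith) zero_le_one
  have e1 := ((e4_F1.mul (e4_lz e4D.s)).trans be).add (e4_sq23.trans ae)
  have e2 := fun i j => (e4_ss i j).trans ae
  have q := fun i j => (e4_o2 e4D.s i j).mul (e4_o2 e4D.s i j)
  have d1 := e4_sqd ((e4_lz e4D.s).add (e4_lw e4D.s)) e1
  have d2 := fun i j => e4_sqd (e4_o2 e4D.s i j) (e2 i j)
  have d3 := e4_sqd ((e4_lz e4D.s).add ((e4_lw e4D.s).const_mul_left 2))
    ((e1.add (e2 2 2)).add (e2 3 3))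
  have d4 := (e4_F1.mul ((((q 0 2).add (q 0 3)).add (q 1 2)).add (q 1 3))).trans t1
  refine ((((((e4_E1.mul (e4_T h2)).trans t0).add (d1.const_mul_left 6)).add
    (((((d2 2 2).add (d2 2 3)).add (d2 3 2)).add (d2 3 3)).const_mul_left 12)).add
    (d4.const_mul_left 6)).sub (d3.const_mul_left 4)).congr_left fun p => ?_
  obtain ⟨g, r1, r2, r3⟩ := e4_ric_at h2 p
  have hc : pd 3 (pd 2 p.s) p.y = pd 2 (pd 3 p.s) p.y := pd_comm p.hs.at 3 2
  have hE : exp (-(2 * p.s p.y)) * exp (2 * p.s p.y) = 1 := by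
    rw [← exp_add, neg_add_cancel, exp_zero]
  have X : exp (-(2 * p.s p.y)) * -(lz p.s p.y + exp (2 * p.s p.y) *
      (lw p.s p.y + 2 * (pd 2 p.s p.y ^ 2 + pd 3 p.s p.y ^ 2))) =
      -(exp (-(2 * p.s p.y)) * lz p.s p.y + lw p.s p.y +
        2 * (pd 2 p.s p.y ^ 2 + pd 3 p.s p.y ^ 2)) := by
    linear_combination (-(lw p.s p.y + 2 * (pd 2 p.s p.y ^ 2 + pd 3 p.s p.y ^ 2))) * hE
  have s1 : scal (Gs p.s) p.y = -2 * (exp (-(2 * p.s p.y)) * lz p.s p.y + lw p.s p.y +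
      2 * (pd 2 p.s p.y ^ 2 + pd 3 p.s p.y ^ 2)) -
      2 * (lw p.s p.y + pd 2 p.s p.y ^ 2 + pd 3 p.s p.y ^ 2) := by
    simp only [scal, Fin.sum_univ_four, g, r1 0 0 (by decide) (by decide),
      r1 1 1 (by decide) (by decide), r2 2 2 (by decide) (by decide), r2 3 3 (by decide) (by decide)]
    simp only [Fin.isValue, ↓reduceIte, Fin.reduceEq, zero_mul, add_zero, zero_add, one_mul,
      Fin.coe_ofNat_eq_mod, Nat.reduceMod, Nat.reduceLT, X]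
    simp only [lw]
    ring
  have s2 : ricSq (Gs p.s) p.y = 2 * (exp (-(2 * p.s p.y)) * lz p.s p.y + lw p.s p.y +
      2 * (pd 2 p.s p.y ^ 2 + pd 3 p.s p.y ^ 2)) ^ 2 +
      4 * ((pd 2 (pd 2 p.s) p.y + pd 2 p.s p.y * pd 2 p.s p.y) ^ 2 +
        (pd 2 (pd 3 p.s) p.y + pd 2 p.s p.y * pd 3 p.s p.y) ^ 2 +
        (pd 3 (pd 2 p.s) p.y + pd 3 p.s p.y * pd 2 p.s p.y) ^ 2 +
        (pd 3 (pd 3 p.s) p.y + pd 3 p.s p.y * pd 3 p.s p.y) ^ 2) +
      2 * exp (-(2 * p.s p.y)) * (pd 0 (pd 2 p.s) p.y ^ 2 + pd 0 (pd 3 p.s) p.y ^ 2 +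
        pd 1 (pd 2 p.s) p.y ^ 2 + pd 1 (pd 3 p.s) p.y ^ 2) := by
    rw [← neg_sq, ← X]
    simp only [ricSq, Fin.sum_univ_four, g]
    simp only [Fin.isValue, ↓reduceIte, Fin.reduceEq, zero_mul, mul_zero, add_zero, zero_add,
      one_mul, mul_one, Fin.coe_ofNat_eq_mod, Nat.reduceMod, Nat.reduceLT]
    simp only [r1 0 0 (by decide) (by decide), r1 1 1 (by decide) (by decide),
      r1 0 1 (by decide) (by decide), r1 1 0 (by decide) (by decide),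
      r2 2 2 (by decide) (by decide), r2 2 3 (by decide) (by decide),
      r2 3 2 (by decide) (by decide), r2 3 3 (by decide) (by decide),
      r3 0 2 (by decide) (by decide), r3 0 3 (by decide) (by decide),
      r3 1 2 (by decide) (by decide), r3 1 3 (by decide) (by decide)]
    simp only [Fin.isValue, ↓reduceIte, Fin.reduceEq]
    ring
  simp only [sg, quad, e4_dens h1, s1, s2, hc]
  ring

theorem qd_bd (h1 : CoFacts) (h2 : RicStmt) : ∃ C : ℝ, ∀ (s : E4 → ℝ) (y : E4), SmAt s y →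
    |s y| ≤ 1 → dens (Gs s) y ≤ C ∧ |scal (Gs s) y| ≤ C * (D2 s y + D1 s y ^ 2) ∧
    |sg s y| ≤ C * (D2 s y + D1 s y ^ 2) ^ 2 ∧
    |sg s y - quad s y| ≤ C * (|s y| * D2 s y ^ 2 + D1 s y ^ 2 * D2 s y + D1 s y ^ 4) ∧
    ∀ φ, SmAt φ y → |lap (Gs s) φ y| ≤ C * (D2 φ y + D1 s y * D1 φ y) := by
  have hV : ∀ p, 0 ≤ e4V p := fun p => by
    have := e4_D2 p.s p.y
    simp only [e4V]
    positivity
  have hL : ∀ p : e4D, 0 ≤ D2 p.φ p.y + D1 p.s p.y * D1 p.φ p.y := fun p =>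
    add_nonneg (e4_D2 _ _) (mul_nonneg (e4_D1 _ _) (e4_D1 _ _))
  have l1 : (fun p : e4D => D2 p.φ p.y) =O[⊤] fun p => D2 p.φ p.y + D1 p.s p.y * D1 p.φ p.y :=
    e4_le 1 (fun _ => e4_D2 _ _) (fun p => by
      rw [one_mul]; exact le_add_of_nonneg_right (mul_nonneg (e4_D1 _ _) (e4_D1 _ _))) zero_le_one
  have l2 : (fun p : e4D => D1 p.s p.y * D1 p.φ p.y) =O[⊤]
      fun p => D2 p.φ p.y + D1 p.s p.y * D1 p.φ p.y :=
    e4_le 1 (fun _ => mul_nonneg (e4_D1 _ _) (e4_D1 _ _)) (fun p => by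
      rw [one_mul]; exact le_add_of_nonneg_left (e4_D2 _ _)) zero_le_one
  obtain ⟨C1, p1, k1⟩ := e4_out e4_E fun _ => zero_le_one
  obtain ⟨C2, p2, k2⟩ := e4_out (e4_scal h2) e4w_nonneg
  obtain ⟨C3, p3, k3⟩ := e4_out (e4_one e4_E (e4_T h2)) fun _ => mul_self_nonneg _
  obtain ⟨C4, p4, k4⟩ := e4_out (e4_diff h1 h2) hV
  obtain ⟨C5, p5, k5⟩ := e4_out ((((e4_one e4_F (e4_lz e4D.φ)).add (e4_lw e4D.φ)).trans l1).add
    (((((e4_o1 e4D.s 2).mul (e4_o1 e4D.φ 2)).add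
      ((e4_o1 e4D.s 3).mul (e4_o1 e4D.φ 3))).const_mul_left 2).trans l2)) hL
  refine ⟨C1 + C2 + C3 + C4 + C5, fun s y hs h => ?_⟩
  let p : e4D := ⟨s, s, s, y, hs, hs, hs, h⟩
  refine ⟨?_, (k2 p).trans (mul_le_mul_of_nonneg_right (by linarith) (e4w_nonneg p)), ?_,
    (k4 p).trans (mul_le_mul_of_nonneg_right (by linarith) (hV p)), fun φ hφ => ?_⟩
  · have := (le_abs_self _).trans (k1 p)
    rw [e4_dens h1]
    change exp (2 * s y) ≤ C1 * 1 at this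
    linarith
  · rw [sg, e4_dens h1, pow_two (D2 s y + D1 s y ^ 2)]
    exact (k3 p).trans (mul_le_mul_of_nonneg_right (by linarith) (mul_self_nonneg _))
  · rw [e4_lap_at h2 hs hφ]
    exact (k5 ⟨s, φ, φ, y, hs, hφ, hφ, h⟩).trans
      (mul_le_mul_of_nonneg_right (by linarith) (hL ⟨s, φ, φ, y, hs, hφ, hφ, h⟩))

example (h1 : CoFacts) (h2 : RicStmt) (Q : QdFacts) : QdFacts := { Q with bd := qd_bd h1 h2 }

end Pool.Agent.MP_417fa2_gt.Q2
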