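import Pool.Agent.MP_417fa2_gt.Q2.ESpec

/-! Weak form, locality and conformal reduction for the Paneitz operator of block metrics. -/

open scoped ContDiff Topology
open MeasureTheory Set Metric Real Filter

namespace Pool.Agent.MP_417fa2_gt.Q2

open DE (lp)

section Congr

variable {U : Set E4} (hU : IsOpen U) {G G' : E4 → Matrix (Fin 4) (Fin 4) ℝ} (hG : EqOn G G' U)
include hG

theorem e5_ginv (i j : Fin 4) : EqOn (ginv G i j) (ginv G' i j) U := fun y hy => by
  simp only [ginv, hG hy]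

theorem e5_dens : EqOn (dens G) (dens G') U := fun y hy => by simp only [dens, hG hy]

include hU

theorem e5_chr (k i j : Fin 4) : EqOn (chr G k i j) (chr G' k i j) U := fun y hy => by
  have h := fun a b d => pd_congr_on hU (f := fun z => G z a b) (g := fun z => G' z a b)
    (fun z hz => by simp only [hG hz]) d hy
  simp only [chr, h, fun a b => e5_ginv hG a b hy]

theorem e5_ric (i j : Fin 4) : EqOn (ric G i j) (ric G' i j) U := fun y hy => by
  simp only [ric, fun a b d e => pd_congr_on hU (e5_chr hU hG a b d) e hy,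
    fun a b d => e5_chr hU hG a b d hy]

theorem e5_scal : EqOn (scal G) (scal G') U := fun y hy => by
  simp only [scal, fun a b => e5_ric hU hG a b hy, fun a b => e5_ginv hG a b hy]

theorem e5_ricSq : EqOn (ricSq G) (ricSq G') U := fun y hy => by
  simp only [ricSq, fun a b => e5_ric hU hG a b hy, fun a b => e5_ginv hG a b hy]

theorem e5_aco (a b : Fin 4) : EqOn (aco G a b) (aco G' a b) U := fun y hy => by
  simp only [aco, fun a b => e5_ric hU hG a b hy, fun a b => e5_ginv hG a b hy, e5_scal hU hG hy]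

theorem e5_grad {φ φ' : E4 → ℝ} (h : EqOn φ φ' U) (i : Fin 4) :
    EqOn (grad G φ i) (grad G' φ' i) U := fun y hy => by
  simp only [grad, fun a => pd_congr_on hU h a hy, fun a b => e5_ginv hG a b hy]

theorem e5_dvg {X X' : Fin 4 → E4 → ℝ} (h : ∀ i, EqOn (X i) (X' i) U) :
    EqOn (dvg G X) (dvg G' X') U := fun y hy => by
  simp only [dvg, fun a b => pd_congr_on hU (h a) b hy, fun a b d => e5_chr hU hG a b d hy,
    fun a => h a hy]

theorem e5_lap {φ φ' : E4 → ℝ} (h : EqOn φ φ' U) : EqOn (lap G φ) (lap G' φ') U :=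
  e5_dvg hU hG (e5_grad hU hG h)

theorem e5_pan2 {φ φ' : E4 → ℝ} (h : EqOn φ φ' U) : EqOn (pan2 G φ) (pan2 G' φ') U :=
  fun y hy => congrArg Neg.neg (e5_dvg hU hG (fun i z hz => by
    simp only [ricGrad, fun a => e5_grad hU hG h a hz, fun a b => e5_ric hU hG a b hz,
      fun a b => e5_ginv hG a b hz, e5_scal hU hG hz]) hy)

theorem e5_pan {φ φ' : E4 → ℝ} (h : EqOn φ φ' U) : EqOn (pan G φ) (pan G' φ') U := fun y hy => by
  rw [pan_split, pan_split, e5_lap hU hG (e5_lap hU hG h) hy, e5_pan2 hU hG h hy]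

theorem e5_qcurv : EqOn (qcurv G) (qcurv G') U := fun y hy => by
  simp only [qcurv, e5_lap hU hG (e5_scal hU hG) hy, e5_scal hU hG hy, e5_ricSq hU hG hy]

theorem e5_bform {φ φ' ψ ψ' : E4 → ℝ} (h : EqOn φ φ' U) (k : EqOn ψ ψ' U) :
    EqOn (bform G φ ψ) (bform G' φ' ψ') U := fun y hy => by
  simp only [bform, e5_dens hG hy, e5_lap hU hG h hy, e5_lap hU hG k hy,
    fun a b => e5_aco hU hG a b hy, fun a => pd_congr_on hU h a hy, fun a => pd_congr_on hU k a hy]

end Congr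

theorem e5_Gs {U : Set E4} {s s' : E4 → ℝ} (h : EqOn s s' U) : EqOn (Gs s) (Gs s') U :=
  fun y hy => by simp only [Gs, blk, h hy]

/-! The flat metric. -/

/-- The Euclidean metric. -/
def e5I : E4 → Matrix (Fin 4) (Fin 4) ℝ := fun _ => 1

theorem e5_Gs0 : Gs (fun _ => 0) = e5I := by
  funext y
  ext i j
  fin_cases i <;> fin_cases j <;> simp [Gs, blk, e5I]

theorem e5I_ginv (i j : Fin 4) (y : E4) : ginv e5I i j y = if i = j then 1 else 0 := by
  simp only [ginv, e5I, inv_one, Matrix.one_apply]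

theorem e5I_chr (k i j : Fin 4) : chr e5I k i j = fun _ => 0 := funext fun y => by
  simp only [chr, e5I, pd_const, add_zero, sub_zero, mul_zero, Finset.sum_const_zero]

theorem e5I_ric (i j : Fin 4) (y : E4) : ric e5I i j y = 0 := by
  simp only [ric, e5I_chr, pd_const, add_zero, sub_zero, mul_zero, Finset.sum_const_zero]

theorem e5I_scal : scal e5I = fun _ => 0 := funext fun y => by
  simp only [scal, e5I_ric, mul_zero, Finset.sum_const_zero]

theorem e5I_ricSq (y : E4) : ricSq e5I y = 0 := by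
  simp only [ricSq, e5I_ric, mul_zero, Finset.sum_const_zero]

theorem e5I_grad (φ : E4 → ℝ) (i : Fin 4) : grad e5I φ i = pd i φ := funext fun y => by
  simp [grad, e5I_ginv]

theorem e5I_dvg (X : Fin 4 → E4 → ℝ) (y : E4) : dvg e5I X y = ∑ i, pd i (X i) y := by
  simp only [dvg, e5I_chr, zero_mul, Finset.sum_const_zero, add_zero]

theorem e5I_lap (φ : E4 → ℝ) : lap e5I φ = lp φ := funext fun y => by
  simp only [lap, e5I_dvg, e5I_grad, DE.lp]

theorem e5I_dens (y : E4) : dens e5I y = 1 := by simp [dens, e5I]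

theorem e5I_aco (a b : Fin 4) (y : E4) : aco e5I a b y = 0 := by
  simp [aco, e5I_scal, e5I_ric]

theorem e5I_pan (φ : E4 → ℝ) (y : E4) : pan e5I φ y = lp (lp φ) y := by
  simp [pan, e5I_lap, e5I_dvg, e5I_scal, ricGrad, e5I_ric, pd_const]

theorem e5I_qcurv (y : E4) : qcurv e5I y = 0 := by
  simp [qcurv, e5I_lap, e5I_scal, e5I_ricSq, DE.lp, show ∀ a, pd a (fun _ => (0 : ℝ)) = fun _ => 0
    from fun a => funext (pd_const a 0), pd_const]

theorem e5_flat {s : E4 → ℝ} (φ ψ : E4 → ℝ) {y : E4} (h : s =ᶠ[𝓝 y] fun _ => 0) :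
    bform (Gs s) φ ψ y = lp φ y * lp ψ y ∧ pp s φ y = lp (lp φ) y ∧ qd s y = 0 ∧ sg s y = 0 ∧
      scal (Gs s) y = 0 := by
  obtain ⟨U, h1, hU, hy⟩ := _root_.eventually_nhds_iff.1 h
  have hG : EqOn (Gs s) e5I U := e5_Gs0 ▸ e5_Gs h1
  refine ⟨?_, ?_, ?_, ?_, ?_⟩
  · rw [e5_bform hU hG (eqOn_refl φ U) (eqOn_refl ψ U) hy]
    simp [bform, e5I_dens, e5I_lap, e5I_aco]
  · rw [pp, e5_dens hG hy, e5_pan hU hG (eqOn_refl φ U) hy, e5I_dens, e5I_pan, one_mul]
  · rw [qd, e5_qcurv hU hG hy, e5I_qcurv, mul_zero]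
  · rw [sg, e5_scal hU hG hy, e5_ricSq hU hG hy, e5I_scal, e5I_ricSq]
    simp
  · rw [e5_scal hU hG hy, e5I_scal]

/-! Smoothness, symmetry and linearity. -/

theorem e5_pd_shift (φ : E4 → ℝ) (c : ℝ) (i : Fin 4) : pd i (fun z => φ z + c) = pd i φ :=
  funext fun y => by unfold pd; rw [fderiv_add_const]

theorem e5_lap_shift (G : E4 → Matrix (Fin 4) (Fin 4) ℝ) (φ : E4 → ℝ) (c : ℝ) :
    lap G (fun z => φ z + c) = lap G φ := by
  unfold lap
  congr 1
  funext i y
  simp only [grad, e5_pd_shift]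

section Nice

variable {U : Set E4} {G : E4 → Matrix (Fin 4) (Fin 4) ℝ} (n : Nice G U) {φ ψ ψ' : E4 → ℝ}
include n

theorem e5_bform_sm (hφ : ContDiffOn ℝ ∞ φ U) (hψ : ContDiffOn ℝ ∞ ψ U) :
    ContDiffOn ℝ ∞ (bform G φ ψ) U :=
  n.dens_sm.mul (((n.lap_sm hφ).mul (n.lap_sm hψ)).sub
    (ContDiffOn.sum fun a _ => ContDiffOn.sum fun b _ =>
      ((n.aco_sm a b).mul (cdOn_pd n.op hφ a)).mul (cdOn_pd n.op hψ b)))

theorem e5_symm (φ ψ : E4 → ℝ) {y : E4} (hy : y ∈ U) : bform G φ ψ y = bform G ψ φ y := by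
  unfold bform
  rw [Finset.sum_comm, mul_comm (lap G φ y)]
  congr 2
  refine Finset.sum_congr rfl fun a _ => Finset.sum_congr rfl fun b _ => ?_
  rw [n.aco_symm hy b a]
  ring

theorem e5_lin (φ : E4 → ℝ) (hψ : ContDiffOn ℝ ∞ ψ U) (hψ' : ContDiffOn ℝ ∞ ψ' U) (a b c : ℝ)
    {y : E4} (hy : y ∈ U) : bform G φ (fun z => a * ψ z + b * ψ' z + c) y =
      a * bform G φ ψ y + b * bform G φ ψ' y := by
  have ha : ContDiffOn ℝ ∞ (fun z => a * ψ z) U := contDiffOn_const.mul hψ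
  have hb : ContDiffOn ℝ ∞ (fun z => b * ψ' z) U := contDiffOn_const.mul hψ'
  have h1 : lap G (fun z => a * ψ z + b * ψ' z + c) y = a * lap G ψ y + b * lap G ψ' y := by
    rw [e5_lap_shift G fun z => a * ψ z + b * ψ' z, n.lap_dop (ha.add hb) hy,
      dop_add n.op n.dens_sm n.inv_sm ha hb hy, dop_const_mul n.op n.dens_sm n.inv_sm hψ a hy,
      dop_const_mul n.op n.dens_sm n.inv_sm hψ' b hy, n.lap_dop hψ hy, n.lap_dop hψ' hy]
  have h2 : ∀ i, pd i (fun z => a * ψ z + b * ψ' z + c) y = a * pd i ψ y + b * pd i ψ' y :=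
    fun i => by
      rw [e5_pd_shift fun z => a * ψ z + b * ψ' z,
        pd_add (dAt_of_cdOn n.op ha hy) (dAt_of_cdOn n.op hb hy),
        pd_const_mul (dAt_of_cdOn n.op hψ hy), pd_const_mul (dAt_of_cdOn n.op hψ' hy)]
  simp only [bform, h1, h2, Fin.sum_univ_four]
  ring

theorem e5_weak (hφ : Tst φ) (hs : tsupport φ ⊆ U) (hψ : ContDiffOn ℝ ∞ ψ U) :
    ∫ y in U, φ y * (dens G y * pan G ψ y) = ∫ y in U, bform G φ ψ y := by
  have hK : IsCompact (tsupport φ) := hφ.cs
  have h0 : ∀ y ∈ U, y ∉ tsupport φ → φ y = 0 := fun y _ hy => image_eq_zero_of_notMem_tsupport hy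
  have hp : ∀ y ∈ U, 0 < dens G y := fun _ hy => n.dens_pos hy
  have hφ' : ContDiffOn ℝ ∞ φ U := hφ.sm.contDiffOn
  have hL := n.lap_sm hψ
  have e1 := integral_mul_dop n.op hK hs n.dens_sm hp n.inv_sm hL hφ' h0
  have e2 := integral_mul_dop' n.op hK hs n.dens_sm hp n.inv_sm hL hφ' h0
  have e3 := integral_mul_dop n.op hK hs n.dens_sm hp n.aco_sm hψ hφ' h0
  have e4 : ∫ y in U, dens G y * ∑ a, ∑ b, ginv G a b y * pd a φ y * pd b (lap G ψ) y =
      ∫ y in U, dens G y * ∑ a, ∑ b, ginv G a b y * pd a (lap G ψ) y * pd b φ y := by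
    refine setIntegral_congr_fun n.op.measurableSet fun y hy => ?_
    rw [Finset.sum_comm]
    congr 1
    refine Finset.sum_congr rfl fun a _ => Finset.sum_congr rfl fun b _ => ?_
    rw [n.inv_symm hy b a]
    ring
  have hd : ∀ a, ∀ y ∈ U, y ∉ tsupport φ → pd a φ y = 0 := fun a =>
    pd_eq_zero_off n.op hK.isClosed h0 a
  have i1 : IntegrableOn (fun y => φ y * dop (dens G) (ginv G) (lap G ψ) y * dens G y) U :=
    integrableOn_of_compact n.op hK hs
      ((hφ'.mul (cdOn_dop n.op n.dens_sm hp n.inv_sm hL)).mul n.dens_sm).continuousOn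
      fun y hy hy' => by simp only [h0 y hy hy', zero_mul]
  have i2 : IntegrableOn (fun y => φ y * dop (dens G) (aco G) ψ y * dens G y) U :=
    integrableOn_of_compact n.op hK hs
      ((hφ'.mul (cdOn_dop n.op n.dens_sm hp n.aco_sm hψ)).mul n.dens_sm).continuousOn
      fun y hy hy' => by simp only [h0 y hy hy', zero_mul]
  have i3 : IntegrableOn (fun y => lap G ψ y * dop (dens G) (ginv G) φ y * dens G y) U :=
    integrableOn_of_compact n.op hK hs
      ((hL.mul (cdOn_dop n.op n.dens_sm hp n.inv_sm hφ')).mul n.dens_sm).continuousOn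
      fun y hy hy' => by
        have : dop (dens G) (ginv G) φ y = 0 := by
          rw [dop_congr_on (n.op.inter hK.isClosed.isOpen_compl) (ψ := fun _ => 0)
            (fun z hz => h0 z hz.1 hz.2) ⟨hy, hy'⟩, dop_const]
        simp only [this, mul_zero, zero_mul]
  have i4 : IntegrableOn (fun y => dens G y * ∑ a, ∑ b, aco G a b y * pd a φ y * pd b ψ y) U :=
    integrableOn_of_compact n.op hK hs
      (n.dens_sm.mul (ContDiffOn.sum fun a _ => ContDiffOn.sum fun b _ =>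
        ((n.aco_sm a b).mul (cdOn_pd n.op hφ' a)).mul (cdOn_pd n.op hψ b))).continuousOn
      fun y hy hy' => by
        simp only [fun a => hd a y hy hy', mul_zero, zero_mul, Finset.sum_const_zero]
  have l : ∫ y in U, φ y * (dens G y * pan G ψ y) =
      (∫ y in U, φ y * dop (dens G) (ginv G) (lap G ψ) y * dens G y) +
        ∫ y in U, φ y * dop (dens G) (aco G) ψ y * dens G y := by
    rw [← integral_add i1 i2]
    refine setIntegral_congr_fun n.op.measurableSet fun y hy => ?_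
    rw [pan_split, n.lap_dop hL hy, n.pan2_dop hψ hy]
    ring
  have r : ∫ y in U, bform G φ ψ y =
      (∫ y in U, lap G ψ y * dop (dens G) (ginv G) φ y * dens G y) -
        ∫ y in U, dens G y * ∑ a, ∑ b, aco G a b y * pd a φ y * pd b ψ y := by
    rw [← integral_sub i3 i4]
    refine setIntegral_congr_fun n.op.measurableSet fun y hy => ?_
    rw [bform, n.lap_dop hφ' hy]
    ring
  rw [l, r, e1, e2, e3, e4]
  ring

end Nice

theorem e5_lp_tst {φ : E4 → ℝ} (h : Tst φ) : Tst (lp φ) := Tst.sum fun a _ => (h.pd a).pd a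

theorem e5_lp_add {φ ψ : E4 → ℝ} (h : Tst φ) (k : Tst ψ) (y : E4) :
    lp (fun z => φ z + ψ z) y = lp φ y + lp ψ y := by
  have h1 : ∀ a, pd a (fun z => φ z + ψ z) = fun z => pd a φ z + pd a ψ z := fun a =>
    funext fun z => pd_add (h.dAt z) (k.dAt z) a
  simp only [DE.lp, h1, fun a => pd_add ((h.pd a).dAt y) ((k.pd a).dAt y) a,
    Finset.sum_add_distrib]

theorem locFacts (h1 : CoFacts) : LocFacts := by
  have nice : ∀ {s : E4 → ℝ} {U : Set E4}, IsOpen U → ContDiffOn ℝ ∞ s U → Nice (Gs s) U :=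
    fun hU hs => h1.nice _ _ _ hU hs contDiffOn_const
  have int : ∀ {s φ ψ : E4 → ℝ}, Tst s → Tst φ → Tst ψ →
      Integrable fun y => bform (Gs s) φ ψ y - lp φ y * lp ψ y := fun hs hφ hψ => by
    refine Continuous.integrable_of_hasCompactSupport
      ((contDiffOn_univ.1 (e5_bform_sm (nice isOpen_univ hs.sm.contDiffOn) hφ.sm.contDiffOn
        hψ.sm.contDiffOn)).continuous.sub
        ((e5_lp_tst hφ).continuous.mul (e5_lp_tst hψ).continuous)) ?_
    refine HasCompactSupport.intro hs.cs fun y hy => ?_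
    rw [(e5_flat _ _ (notMem_tsupport_iff_eventuallyEq.1 hy)).1, sub_self]
  refine ⟨fun s φ ψ U hU hs hφ hsub hψ => e5_weak (nice hU hs) hφ hsub hψ,
    fun s φ ψ U hU hs hφ hψ => ?_, fun s s' φ φ' ψ ψ' y hs hφ hψ => ?_,
    fun G G' φ φ' y hG hφ => ?_, fun s φ ψ y hs _ _ => e5_flat φ ψ hs, fun s φ ψ y hs => ?_,
    fun s φ ψ ψ' a b c y hs hψ hψ' => ?_, fun f h φ U hU hf hh hφ y hy => ?_,
    fun s φ φ' ψ ψ' V c c' hs hV hsV _ _ _ _ hφ hψ => ?_, fun s φ ψ ψ' hs hφ hψ hψ' => ⟨?_, ?_⟩⟩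
  · have n := nice hU hs
    exact ⟨e5_bform_sm n hφ hψ, n.dens_sm.mul (n.pan_sm hφ), n.dens_sm.mul n.qcurv_sm,
      n.dens_sm.mul ((contDiffOn_const.mul n.reps.ricSq.cdOn).sub (n.reps.scal.cdOn.pow 2)),
      n.reps.scal.cdOn⟩
  · obtain ⟨U, h, hU, hy⟩ := _root_.eventually_nhds_iff.1 (hs.and (hφ.and hψ))
    have hG : EqOn (Gs s) (Gs s') U := e5_Gs fun z hz => (h z hz).1
    refine ⟨e5_bform hU hG (fun z hz => (h z hz).2.1) (fun z hz => (h z hz).2.2) hy, ?_, ?_⟩
    · rw [pp, pp, e5_dens hG hy, e5_pan hU hG (fun z hz => (h z hz).2.1) hy]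
    · rw [qd, qd, e5_dens hG hy, e5_qcurv hU hG hy]
  · obtain ⟨U, h, hU, hy⟩ := _root_.eventually_nhds_iff.1 (hG.and hφ)
    have h2 : EqOn G G' U := fun z hz => (h z hz).1
    have h3 : EqOn φ φ' U := fun z hz => (h z hz).2
    exact ⟨e5_lap hU h2 h3 hy, e5_pan2 hU h2 h3 hy, e5_pan hU h2 h3 hy, e5_qcurv hU h2 hy⟩
  · obtain ⟨U, hU, hy, h⟩ := hs.ex
    exact e5_symm (nice hU h) φ ψ hy
  · obtain ⟨U, hU, hy, h⟩ := hs.ex
    obtain ⟨V, hV, hy', k⟩ := hψ.ex
    obtain ⟨W, hW, hy'', l⟩ := hψ'.ex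
    exact e5_lin (nice (hU.inter (hV.inter hW)) (h.mono inter_subset_left)) φ
      (k.mono fun _ hz => hz.2.1) (l.mono fun _ hz => hz.2.2) a b c ⟨hy, hy', hy''⟩
  · have n := nice hU (hf.sub hh)
    have hG : ∀ z ∈ U, blk f h z = exp (2 * h z) • Gs (fun z => f z - h z) z := fun z _ => by
      have e : exp (2 * f z) = exp (2 * h z) * exp (2 * (f z - h z)) := by
        rw [← exp_add]; congr 1; ring
      ext i j
      fin_cases i <;> fin_cases j <;> simp [Gs, blk, e]
    have e : dens (blk f h) y * exp (-4 * h y) = dens (Gs fun z => f z - h z) y := by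
      rw [Gs, h1.dens_blk, h1.dens_blk, ← exp_add]; congr 1; ring
    constructor
    · rw [n.pan_conf hh hG hφ hy, pp, ← e, mul_assoc]
    · rw [mul_left_comm, n.qcurv_conf hh hG hy, pp, qd, ← e]
      ring
  · refine integral_congr_ae (Eventually.of_forall fun y => ?_)
    dsimp only
    by_cases hy : y ∈ V
    · have a1 : EqOn φ (fun z => φ' z + c) V := hφ
      have a2 : EqOn ψ (fun z => ψ' z + c') V := hψ
      have a3 : ∀ {F F' : E4 → ℝ} {d : ℝ}, EqOn F (fun z => F' z + d) V → lp F y = lp F' y :=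
        fun {F F' d} hF => by
          simp only [DE.lp, fun a => pd_congr_on hV (pd_congr_on hV hF a) a hy, e5_pd_shift]
      rw [e5_bform hV (eqOn_refl (Gs s) V) a1 a2 hy, a3 a1, a3 a2]
      simp only [bform, e5_lap_shift, e5_pd_shift]
    · have h0 := notMem_tsupport_iff_eventuallyEq.1 fun h => hy (hsV h)
      rw [(e5_flat φ ψ h0).1, (e5_flat φ' ψ' h0).1, sub_self, sub_self]
  · rw [Tf, Tf, Tf, ← integral_add (int hs hφ hψ) (int hs hφ hψ')]
    refine integral_congr_ae (Eventually.of_forall fun y => ?_)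
    have := e5_lin (nice isOpen_univ hs.sm.contDiffOn) φ hψ.sm.contDiffOn hψ'.sm.contDiffOn 1 1 0
      (mem_univ y)
    simp only [one_mul, add_zero] at this
    dsimp only
    rw [this, e5_lp_add hψ hψ']
    ring
  · refine integral_congr_ae (Eventually.of_forall fun y => ?_)
    dsimp only
    rw [e5_symm (nice isOpen_univ hs.sm.contDiffOn) φ ψ (mem_univ y), mul_comm]

end Pool.Agent.MP_417fa2_gt.Q2
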