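import Pool.Agent.MP_417fa2_gt.Q2.ESpec

/-! E8. The approximate identity and the fundamental solution. -/

open scoped ContDiff Topology
open MeasureTheory Set Metric Real Filter

namespace Pool.Agent.MP_417fa2_gt.Q2

open DE (lp)

namespace E8

theorem dim : Module.finrank ℝ E4 = 4 := by simp

theorem vol_ball : (volume : Measure E4).real (ball 0 1) = π ^ 2 / 2 := by
  rw [Measure.real, InnerProductSpace.volume_ball_of_dim_even (k := 2) (by simp)]
  simp [Nat.factorial]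
  positivity

/-- Polar coordinates for radial functions. -/
theorem polar (f : ℝ → ℝ) : ∫ y : E4, f ‖y‖ = 2 * π ^ 2 * ∫ s in Ioi (0 : ℝ), s ^ 3 * f s := by
  rw [integral_fun_norm_addHaar volume f, vol_ball, dim]
  simp only [smul_eq_mul, nsmul_eq_mul]
  norm_num
  ring

theorem polar_int {f : ℝ → ℝ} (h : IntegrableOn (fun s : ℝ => s ^ 3 * f s) (Ioi 0)) :
    Integrable fun y : E4 => f ‖y‖ := by
  rw [integrable_fun_norm_addHaar volume, dim]
  simpa using h

theorem kk_nonneg (ε : ℝ) (y : E4) : 0 ≤ kk ε y := by unfold kk; positivity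

theorem kk_int {ε : ℝ} (hε : 0 < ε) : Integrable (kk ε) ∧ ∫ y, kk ε y = 1 := by
  have hd : ∀ s ∈ Ici (0 : ℝ), HasDerivAt
      (fun s : ℝ => 3 * ε ^ 4 / π ^ 2 * (-(1 / 2) * ((s ^ 2 + ε ^ 2) ^ 2)⁻¹ +
        ε ^ 2 / 3 * ((s ^ 2 + ε ^ 2) ^ 3)⁻¹))
      (s ^ 3 * (6 * ε ^ 4 / (π ^ 2 * (s ^ 2 + ε ^ 2) ^ 4))) s := by
    intro s _
    have h0 : s ^ 2 + ε ^ 2 ≠ 0 := by positivity
    have h1 : HasDerivAt (fun s : ℝ => s ^ 2 + ε ^ 2) (2 * s) s := by
      simpa using (hasDerivAt_pow 2 s).add_const (ε ^ 2)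
    refine ((((h1.fun_pow 2).fun_inv (pow_ne_zero 2 h0)).const_mul (-(1 / 2))).fun_add
      (((h1.fun_pow 3).fun_inv (pow_ne_zero 3 h0)).const_mul (ε ^ 2 / 3))).const_mul _
      |>.congr_deriv ?_
    have := pi_ne_zero
    field_simp
    norm_num
    ring
  have hp : ∀ s ∈ Ioi (0 : ℝ), 0 ≤ s ^ 3 * (6 * ε ^ 4 / (π ^ 2 * (s ^ 2 + ε ^ 2) ^ 4)) := by
    intro s hs
    have : 0 < s := hs
    positivity
  have h1 : Tendsto (fun s : ℝ => s ^ 2 + ε ^ 2) atTop atTop :=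
    tendsto_atTop_add_const_right _ _ (tendsto_pow_atTop two_ne_zero)
  have ht : Tendsto (fun s : ℝ => 3 * ε ^ 4 / π ^ 2 * (-(1 / 2) * ((s ^ 2 + ε ^ 2) ^ 2)⁻¹ +
      ε ^ 2 / 3 * ((s ^ 2 + ε ^ 2) ^ 3)⁻¹)) atTop
      (𝓝 (3 * ε ^ 4 / π ^ 2 * (-(1 / 2) * 0 + ε ^ 2 / 3 * 0))) :=
    (((((tendsto_pow_atTop two_ne_zero).comp h1).inv_tendsto_atTop).const_mul _).add
      ((((tendsto_pow_atTop three_ne_zero).comp h1).inv_tendsto_atTop).const_mul _)).const_mul _
  refine ⟨polar_int (f := fun s => 6 * ε ^ 4 / (π ^ 2 * (s ^ 2 + ε ^ 2) ^ 4))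
    (integrableOn_Ioi_deriv_of_nonneg' hd hp ht), ?_⟩
  refine (polar fun s => 6 * ε ^ 4 / (π ^ 2 * (s ^ 2 + ε ^ 2) ^ 4)).trans ?_
  rw [integral_Ioi_of_hasDerivAt_of_nonneg' hd hp ht]
  have := pi_ne_zero
  field_simp
  ring

theorem kk_tail {ε δ : ℝ} (hδ : 0 < δ) {y : E4} (hy : δ ≤ ‖y‖) :
    kk ε y ≤ 16 * (ε / δ) ^ 4 * kk δ y := by
  have h0 : 0 < ‖y‖ := hδ.trans_le hy
  have h1 : ‖y‖ ^ 2 + δ ^ 2 ≤ 2 * (‖y‖ ^ 2 + ε ^ 2) := by nlinarith [sq_nonneg ε]
  have h2 : (‖y‖ ^ 2 + δ ^ 2) ^ 4 ≤ (2 * (‖y‖ ^ 2 + ε ^ 2)) ^ 4 := by gcongr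
  have h3 : 16 * (ε / δ) ^ 4 * kk δ y = 16 * (6 * ε ^ 4) / (π ^ 2 * (‖y‖ ^ 2 + δ ^ 2) ^ 4) := by
    unfold kk
    field_simp
  rw [h3, kk, div_le_div_iff₀ (by positivity) (by positivity)]
  have h4 : 0 ≤ 6 * ε ^ 4 * π ^ 2 := by positivity
  nlinarith [mul_le_mul_of_nonneg_left h2 h4]

theorem bdd {φ : E4 → ℝ} (h : Tst φ) : ∃ M : ℝ, 0 ≤ M ∧ ∀ y, |φ y| ≤ M := by
  obtain ⟨M, hM⟩ := h.continuous.bounded_above_of_compact_support h.cs
  exact ⟨M, (norm_nonneg _).trans (hM 0), hM⟩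

theorem kk_lim {φ : E4 → ℝ} (h : Tst φ) {β : ℝ} (hβ : 0 < β) : ∀ᶠ ε in 𝓝[>] (0 : ℝ), ∀ x : E4,
    |(∫ y, kk ε (y - x) * φ y) - φ x| ≤ β := by
  obtain ⟨M, hM0, hM⟩ := bdd h
  obtain ⟨δ, hδ, hu⟩ := Metric.uniformContinuous_iff.1
    (h.cs.uniformContinuous_of_continuous h.continuous) (β / 2) (half_pos hβ)
  have ht : Tendsto (fun ε : ℝ => 2 * M * (16 * (ε / δ) ^ 4)) (𝓝[>] 0) (𝓝 0) := by
    have : Continuous fun ε : ℝ => 2 * M * (16 * (ε / δ) ^ 4) := by fun_prop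
    simpa using (this.tendsto 0).mono_left nhdsWithin_le_nhds
  filter_upwards [self_mem_nhdsWithin, ht.eventually (ge_mem_nhds (half_pos hβ))] with ε hε h1 x
  obtain ⟨i1, e1⟩ := kk_int (ε := ε) hε
  obtain ⟨i2, e2⟩ := kk_int hδ
  have j1 : Integrable fun y => kk ε (y - x) := i1.comp_sub_right x
  have j2 : Integrable fun y => kk δ (y - x) := i2.comp_sub_right x
  have f1 : ∫ y, kk ε (y - x) = 1 := by rw [integral_sub_right_eq_self, e1]
  have f2 : ∫ y, kk δ (y - x) = 1 := by rw [integral_sub_right_eq_self, e2]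
  have j3 : Integrable fun y => kk ε (y - x) * φ y :=
    j1.mul_bdd h.continuous.aestronglyMeasurable (ae_of_all _ hM)
  have g1 : (∫ y, kk ε (y - x) * φ y) - φ x = ∫ y, (kk ε (y - x) * φ y - kk ε (y - x) * φ x) := by
    rw [integral_sub j3 (j1.mul_const _), integral_mul_const, f1, one_mul]
  rw [g1]
  have g2 : ‖∫ y, (kk ε (y - x) * φ y - kk ε (y - x) * φ x)‖ ≤
      ∫ y, (β / 2 * kk ε (y - x) + 2 * M * (16 * (ε / δ) ^ 4) * kk δ (y - x)) := by
    refine norm_integral_le_of_norm_le ((j1.const_mul _).add (j2.const_mul _))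
      (ae_of_all _ fun y => ?_)
    have k1 := kk_nonneg ε (y - x)
    have k2 := kk_nonneg δ (y - x)
    rw [← mul_sub, Real.norm_eq_abs, abs_mul, abs_of_nonneg k1]
    rcases lt_or_ge ‖y - x‖ δ with hy | hy
    · have k3 : |φ y - φ x| ≤ β / 2 := (hu (by rwa [dist_eq_norm])).le
      have k4 : 0 ≤ 2 * M * (16 * (ε / δ) ^ 4) * kk δ (y - x) := by positivity
      nlinarith
    · have k3 : |φ y - φ x| ≤ 2 * M := (abs_sub _ _).trans (by linarith [hM y, hM x])
      have k4 := kk_tail (ε := ε) hδ hy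
      have k5 : kk ε (y - x) * |φ y - φ x| ≤ 16 * (ε / δ) ^ 4 * kk δ (y - x) * (2 * M) :=
        mul_le_mul k4 k3 (abs_nonneg _) (k1.trans k4)
      nlinarith
  rw [integral_add (j1.const_mul _) (j2.const_mul _), integral_const_mul, integral_const_mul,
    f1, f2] at g2
  rw [← Real.norm_eq_abs]
  linarith

theorem pow_int {β : ℝ} (h4 : β < 4) (t : ℝ) :
    IntegrableOn (fun y : E4 => ‖y‖ ^ (-β)) (ball 0 t) :=
  integrableOn_ball_of_norm_le_rpow (C := 1) (α := β) (by simp) (by simpa using h4)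
    (ae_of_all _ fun y => by rw [one_mul, Real.norm_of_nonneg (by positivity)])
    (by fun_prop : Measurable fun y : E4 => ‖y‖ ^ (-β)).aestronglyMeasurable

theorem pow_val {β : ℝ} (h4 : β < 4) {t : ℝ} (ht : 0 < t) :
    ∫ y in ball (0 : E4) t, ‖y‖ ^ (-β) = 2 * π ^ 2 / (4 - β) * t ^ (4 - β) := by
  have h1 : ∫ y in ball (0 : E4) t, ‖y‖ ^ (-β) =
      ∫ y : E4, (Iio t).indicator (fun s : ℝ => s ^ (-β)) ‖y‖ := by
    rw [← integral_indicator measurableSet_ball]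
    congr 1
    funext y
    by_cases hy : ‖y‖ < t <;> simp [indicator, hy]
  have h2 : ∫ s in Ioi (0 : ℝ), s ^ 3 * (Iio t).indicator (fun s : ℝ => s ^ (-β)) s =
      ∫ s in (0 : ℝ)..t, s ^ (3 - β) := by
    rw [intervalIntegral.integral_of_le ht.le, integral_Ioc_eq_integral_Ioo, ← Ioi_inter_Iio,
      ← setIntegral_indicator measurableSet_Iio]
    refine setIntegral_congr_fun measurableSet_Ioi fun s hs => ?_
    by_cases h : s < t
    · simp only [indicator, mem_Iio, h, if_true]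
      rw [sub_eq_add_neg, rpow_add hs, show (3 : ℝ) = (3 : ℕ) by norm_num, rpow_natCast]
    · simp [indicator, h]
  rw [h1, polar, h2, integral_rpow (Or.inl (by linarith)), zero_rpow (by linarith),
    show 3 - β + 1 = 4 - β by ring]
  ring

theorem cd_lp {g : E4 → ℝ} (h : ContDiff ℝ ∞ g) : ContDiff ℝ ∞ (lp g) :=
  ContDiff.sum fun a _ => cd_pd (cd_pd h a) a

theorem ibp_pd {f g : E4 → ℝ} (F : Tst f) (G : ContDiff ℝ ∞ g) (i : Fin 4) :
    ∫ y, f y * pd i g y = -∫ y, pd i f y * g y :=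
  integral_mul_fderiv_eq_neg_fderiv_mul_of_integrable ((F.pd i).mul_right G).integrable
    (F.mul_right (cd_pd G i)).integrable (F.mul_right G).integrable (fun y _ => F.dAt y)
    fun _ _ => dAt_of_cdAt G.contDiffAt

theorem ibp_lp {f g : E4 → ℝ} (F : Tst f) (G : ContDiff ℝ ∞ g) :
    ∫ y, f y * lp g y = ∫ y, lp f y * g y := by
  simp only [DE.lp, Finset.mul_sum, Finset.sum_mul]
  rw [integral_finsetSum _ fun a _ => (F.mul_right (cd_pd (cd_pd G a) a)).integrable,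
    integral_finsetSum _ fun a _ => (((F.pd a).pd a).mul_right G).integrable]
  refine Finset.sum_congr rfl fun a _ => ?_
  rw [ibp_pd F (cd_pd G a), ibp_pd (F.pd a) G, neg_neg]

theorem ibp_lp2 {f g : E4 → ℝ} (F : Tst f) (G : ContDiff ℝ ∞ g) :
    ∫ y, f y * lp (lp g) y = ∫ y, lp (lp f) y * g y := by
  rw [ibp_lp F (cd_lp G), ibp_lp (DE.tst_lp F) G]

theorem lp_add {f g : E4 → ℝ} (F : ContDiff ℝ ∞ f) (G : ContDiff ℝ ∞ g) :
    lp (fun y => f y + g y) = fun y => lp f y + lp g y := by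
  funext y
  simp only [DE.lp, ← Finset.sum_add_distrib]
  refine Finset.sum_congr rfl fun a _ => ?_
  have h : pd a (fun y => f y + g y) = fun y => pd a f y + pd a g y :=
    funext fun z => pd_add (dAt_of_cdAt F.contDiffAt) (dAt_of_cdAt G.contDiffAt) a
  rw [h, pd_add (dAt_of_cdAt (cd_pd F a).contDiffAt) (dAt_of_cdAt (cd_pd G a).contDiffAt)]

theorem lp_zero {f : E4 → ℝ} {U : Set E4} (hU : IsOpen U) (h : ∀ y ∈ U, f y = 0) :
    ∀ y ∈ U, lp f y = 0 := by
  intro y hy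
  refine Finset.sum_eq_zero fun a _ => ?_
  have h1 : EqOn (pd a (pd a f)) (pd a (pd a fun _ => 0)) U :=
    pd_congr_on hU (pd_congr_on hU h a) a
  rw [h1 hy, show pd a (fun _ : E4 => (0 : ℝ)) = fun _ => 0 from funext (pd_const a 0), pd_const]

theorem gam_meas (ε : ℝ) : Measurable (gam ε) := by unfold gam; fun_prop

theorem gam_le {ε : ℝ} {y : E4} (hy : y ≠ 0) (h : ‖y‖ ^ 2 + ε ^ 2 ≤ 1) :
    |gam ε y| ≤ ‖y‖ ^ (-1 : ℝ) := by
  have h0 : 0 < ‖y‖ := norm_pos_iff.2 hy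
  have h1 : log (‖y‖ ^ 2 + ε ^ 2) ≤ 0 := log_nonpos (by positivity) h
  have h2 : log (‖y‖ ^ 2) ≤ log (‖y‖ ^ 2 + ε ^ 2) :=
    log_le_log (by positivity) (by nlinarith [sq_nonneg ε])
  have h3 : log ‖y‖⁻¹ ≤ ‖y‖⁻¹ - 1 := log_le_sub_one_of_pos (inv_pos.2 h0)
  rw [log_inv] at h3
  rw [log_pow] at h2
  have h4 : 1 / (16 * π ^ 2) ≤ 1 / 2 := by
    gcongr
    nlinarith [pi_gt_three]
  have h5 : 0 < 1 / (16 * π ^ 2) := by positivity
  rw [rpow_neg_one, gam, abs_of_nonneg (by nlinarith)]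
  push_cast at h2
  nlinarith

variable (h : ChiFacts) (h2 : GamFacts)
include h

theorem KK_le {t : ℝ} (ht : 0 < t) (ht' : t ≤ 1 / 4) (y : E4) :
    |KK t 0 y| ≤ (ball (0 : E4) 1).indicator (fun y => ‖y‖ ^ (-1 : ℝ)) y := by
  have h0 : 0 ≤ (ball (0 : E4) 1).indicator (fun y => ‖y‖ ^ (-1 : ℝ)) y :=
    indicator_nonneg (fun _ _ => by positivity) y
  by_cases hy : y = 0
  · simp [KK, gam, hy]
  rcases le_or_gt (2 * t) ‖y‖ with h1 | h1
  · simpa [KK, h.zero t ht y h1] using h0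
  · rw [indicator_of_mem (mem_ball_zero_iff.2 (by linarith)), KK, abs_mul,
      abs_of_nonneg (h.nonneg t y)]
    exact (mul_le_of_le_one_left (abs_nonneg _) (h.le_one t y)).trans
      (gam_le hy (by nlinarith [norm_nonneg y]))

theorem KK_meas {t : ℝ} (ht : 0 < t) (ε : ℝ) : Measurable (KK t ε) :=
  (h.tst t ht).continuous.measurable.mul (gam_meas ε)

theorem KK_int {t : ℝ} (ht : 0 < t) (ht' : t ≤ 1 / 4) : Integrable (KK t 0) :=
  ((integrable_indicator_iff measurableSet_ball).2 (pow_int (β := 1) (by norm_num) 1)).mono'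
    (KK_meas h ht 0).aestronglyMeasurable (ae_of_all _ (KK_le h ht ht'))

theorem KK_l2 {t : ℝ} (ht : 0 < t) (ht' : t ≤ 1 / 4) : MemLp (KK t 0) 2 volume := by
  rw [memLp_two_iff_integrable_sq (KK_meas h ht 0).aestronglyMeasurable]
  refine ((integrable_indicator_iff measurableSet_ball).2 (pow_int (β := 2) (by norm_num) 1)).mono'
    ((KK_meas h ht 0).pow_const 2).aestronglyMeasurable (ae_of_all _ fun y => ?_)
  have h1 := KK_le h ht ht' y
  rw [Real.norm_eq_abs, abs_pow]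
  refine (pow_le_pow_left₀ (abs_nonneg _) h1 2).trans (le_of_eq ?_)
  by_cases hy : y ∈ ball (0 : E4) 1
  · rw [indicator_of_mem hy, indicator_of_mem hy, ← rpow_natCast, ← rpow_mul (norm_nonneg _)]
    norm_num
  · simp [indicator_of_notMem hy]

omit h in
include h2 in
/-- The fundamental solution, on test functions with small support. -/
theorem fund0 {φ : E4 → ℝ} (F : Tst φ) (hs : ∀ y, 1 / 4 < ‖y‖ → φ y = 0) :
    ∫ y, gam 0 y * lp (lp φ) y = φ 0 := by
  have F2 : Tst (lp (lp φ)) := DE.tst_lp (DE.tst_lp F)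
  obtain ⟨M, hM0, hM⟩ := bdd F2
  have hU : IsOpen {y : E4 | 1 / 4 < ‖y‖} := isOpen_lt continuous_const continuous_norm
  have hz : ∀ y : E4, 1 / 4 < ‖y‖ → lp (lp φ) y = 0 := lp_zero hU (lp_zero hU hs)
  have h0 : ∀ᵐ y : E4, y ≠ 0 := by simp [ae_iff]
  have t1 : Tendsto (fun ε => ∫ y, gam ε y * lp (lp φ) y) (𝓝[>] 0)
      (𝓝 (∫ y, gam 0 y * lp (lp φ) y)) := by
    refine tendsto_integral_filter_of_dominated_convergence
      (fun y => (ball (0 : E4) 1).indicator (fun y => ‖y‖ ^ (-1 : ℝ)) y * M)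
      (Eventually.of_forall fun ε =>
        ((gam_meas ε).mul F2.continuous.measurable).aestronglyMeasurable) ?_
      (((integrable_indicator_iff measurableSet_ball).2
        (pow_int (β := 1) (by norm_num) 1)).mul_const M) ?_
    · filter_upwards [Ioo_mem_nhdsGT (by norm_num : (0 : ℝ) < 1 / 2)] with ε hε
      filter_upwards [h0] with y hy
      rcases lt_or_ge (1 / 4) ‖y‖ with h1 | h1
      · rw [hz y h1, mul_zero, norm_zero]
        exact mul_nonneg (indicator_nonneg (fun _ _ => by positivity) y) hM0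
      · rw [indicator_of_mem (mem_ball_zero_iff.2 (by linarith)), Real.norm_eq_abs, abs_mul]
        exact mul_le_mul (gam_le hy (by nlinarith [norm_nonneg y, hε.1, hε.2])) (hM y)
          (abs_nonneg _) (by positivity)
    · filter_upwards [h0] with y hy
      have h1 : 0 < ‖y‖ := norm_pos_iff.2 hy
      have h3 : ContinuousAt (fun ε : ℝ => gam ε y * lp (lp φ) y) 0 := by
        unfold gam
        refine (continuousAt_const.mul (ContinuousAt.log (by fun_prop) ?_)).mul continuousAt_const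
        positivity
      exact h3.tendsto.mono_left nhdsWithin_le_nhds
  have t2 : Tendsto (fun ε => ∫ y, gam ε y * lp (lp φ) y) (𝓝[>] 0) (𝓝 (φ 0)) := by
    rw [Metric.tendsto_nhds]
    intro β hβ
    filter_upwards [self_mem_nhdsWithin, kk_lim F (half_pos hβ)] with ε hε h3
    have hε' : 0 < ε := hε
    have e1 : ∫ y, gam ε y * lp (lp φ) y = ∫ y, kk ε (y - 0) * φ y := by
      simp only [mul_comm (gam ε _), mul_comm (kk ε _), sub_zero]
      rw [← ibp_lp2 F (h2.sm ε hε')]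
      exact integral_congr_ae (ae_of_all _ fun y => by
        simp only [h2.lap2 ε y (by positivity)])
    rw [e1, Real.dist_eq]
    linarith [h3 0]
  exact tendsto_nhds_unique t1 t2

include h2 in
theorem tst_far {t : ℝ} (ht : 0 < t) : Tst fun y => chi t y * ((1 - chi (t / 16) y) * gam 0 y) := by
  refine (h.tst t ht).mul_right (contDiff_iff_contDiffAt.2 fun y => ?_)
  by_cases hy : y = 0
  · refine (contDiffAt_const (c := (0 : ℝ))).congr_of_eventuallyEq ?_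
    filter_upwards [ball_mem_nhds y (by positivity : 0 < t / 16)] with z hz
    rw [hy, mem_ball_zero_iff] at hz
    rw [h.one _ (by positivity) z hz.le, sub_self, zero_mul]
  · exact (contDiffAt_const.sub (h.tst _ (by positivity)).sm.contDiffAt).mul (h2.sm0 0 y hy)

include h2 in
theorem fund {t : ℝ} (ht : 0 < t) (ht' : t ≤ 1 / 4) :
    ∃ (e : E4 → ℝ) (C : ℝ), Tst e ∧ (∀ y, |e y| ≤ C) ∧ (∀ y, 2 * t < ‖y‖ → e y = 0) ∧
      ∀ φ : E4 → ℝ, ContDiff ℝ ∞ φ → ∫ y, KK t 0 y * lp (lp φ) y = φ 0 + ∫ y, e y * φ y := by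
  have T1 := tst_far h h2 ht
  have T2 := DE.tst_lp (DE.tst_lp T1)
  have c4 := h.tst (t / 4) (by positivity)
  have T3 := T2.mul_right (contDiff_const (c := (1 : ℝ)).sub c4.sm)
  obtain ⟨C, -, hC⟩ := bdd T3
  refine ⟨_, C, T3, hC, fun y hy => ?_, fun φ hφ => ?_⟩
  · have hU : IsOpen {y : E4 | 2 * t < ‖y‖} := isOpen_lt continuous_const continuous_norm
    rw [lp_zero hU (lp_zero hU fun z hz => by rw [h.zero t ht z (le_of_lt hz), zero_mul]) y hy,
      zero_mul]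
  have F1 : Tst fun y => chi (t / 4) y * φ y := c4.mul_right hφ
  have F2 : ContDiff ℝ ∞ fun y => (1 - chi (t / 4) y) * φ y := (contDiff_const.sub c4.sm).mul hφ
  have hs : ∀ y : E4, t / 2 < ‖y‖ → chi (t / 4) y * φ y = 0 := fun y hy => by
    rw [h.zero _ (by positivity) y (by linarith), zero_mul]
  have e0 : φ = fun y => chi (t / 4) y * φ y + (1 - chi (t / 4) y) * φ y := by
    funext y
    ring
  have e1 : lp (lp φ) = fun y => lp (lp fun y => chi (t / 4) y * φ y) y +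
      lp (lp fun y => (1 - chi (t / 4) y) * φ y) y := by
    rw [← lp_add (cd_lp F1.sm) (cd_lp F2), ← lp_add F1.sm F2, ← e0]
  have e2 : ∀ y, KK t 0 y * lp (lp fun y => chi (t / 4) y * φ y) y =
      gam 0 y * lp (lp fun y => chi (t / 4) y * φ y) y := by
    intro y
    rcases lt_or_ge (t / 2) ‖y‖ with h1 | h1
    · have hU : IsOpen {y : E4 | t / 2 < ‖y‖} := isOpen_lt continuous_const continuous_norm
      rw [lp_zero hU (lp_zero hU hs) y h1, mul_zero, mul_zero]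
    · rw [KK, h.one t ht y (by linarith), one_mul]
  have e3 : ∀ y, KK t 0 y * lp (lp fun y => (1 - chi (t / 4) y) * φ y) y =
      chi t y * ((1 - chi (t / 16) y) * gam 0 y) *
        lp (lp fun y => (1 - chi (t / 4) y) * φ y) y := by
    intro y
    rcases lt_or_ge ‖y‖ (t / 4) with h1 | h1
    · have hU : IsOpen {y : E4 | ‖y‖ < t / 4} := isOpen_lt continuous_norm continuous_const
      rw [lp_zero hU (lp_zero hU fun z hz => by
        rw [h.one _ (by positivity) z (le_of_lt hz), sub_self, zero_mul]) y h1, mul_zero, mul_zero]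
    · rw [KK, h.zero (t / 16) (by positivity) y (by linarith), sub_zero, one_mul]
  have G1 := DE.tst_lp (DE.tst_lp F1)
  obtain ⟨M, -, hM⟩ := bdd G1
  have i1 : Integrable fun y => KK t 0 y * lp (lp fun y => chi (t / 4) y * φ y) y :=
    (KK_int h ht ht').mul_bdd G1.continuous.aestronglyMeasurable (ae_of_all _ hM)
  have i2 : Integrable fun y => KK t 0 y * lp (lp fun y => (1 - chi (t / 4) y) * φ y) y := by
    simp only [e3]
    exact (T1.mul_right (cd_lp (cd_lp F2))).integrable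
  rw [e1]
  simp only [mul_add]
  rw [integral_add i1 i2]
  simp only [e2, e3]
  rw [fund0 h2 F1 fun y hy => hs y (by linarith), ibp_lp2 T1 F2,
    h.one _ (by positivity) 0 (by rw [norm_zero]; positivity), one_mul]
  simp only [mul_assoc]

end E8

theorem kkFacts (h : ChiFacts) (h2 : GamFacts) : KkFacts where
  int _ := E8.kk_int
  lim _ F _ := E8.kk_lim F
  pow β _ h4 := ⟨2 * π ^ 2 / (4 - β), fun t ht => ⟨E8.pow_int h4 t, (E8.pow_val h4 ht).le⟩⟩
  fund t ht ht' := by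
    obtain ⟨e, C, h3, h4⟩ := E8.fund h h2 ht ht'
    exact ⟨E8.KK_int h ht ht', E8.KK_l2 h ht ht', e, C, h3.continuous.measurable, h4⟩

end Pool.Agent.MP_417fa2_gt.Q2
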