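import Pool.Agent.MP_417fa2_gt.Q2.E5
import Pool.Agent.MP_417fa2_gt.Q2.E8

/-! E6. The Q-curvature of `Gs s`: weak form, differences, the leading term, continuity. -/

open scoped ContDiff Topology
open MeasureTheory Set Metric Real Filter

namespace Pool.Agent.MP_417fa2_gt.Q2

open DE (lp)

namespace E6

/-- The coefficients of the Laplacian in divergence form. -/
noncomputable def co (s : E4 → ℝ) (i : Fin 4) (y : E4) : ℝ := if i.val < 2 then 1 else exp (2 * s y)

theorem co_sm {s : E4 → ℝ} {U : Set E4} (hs : ContDiffOn ℝ ∞ s U) (i : Fin 4) :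
    ContDiffOn ℝ ∞ (co s i) U := by
  unfold co
  split_ifs
  · exact contDiffOn_const
  · exact (contDiffOn_const.mul hs).exp

theorem qd_eq (s : E4 → ℝ) (y : E4) :
    qd s y = -(1 / 12) * (dens (Gs s) y * lap (Gs s) (scal (Gs s)) y) - 1 / 12 * sg s y := by
  simp only [qd, qcurv, sg]
  ring

theorem sq_int {s : E4 → ℝ} (h : Tst s) (a b : Fin 4) :
    ∫ y, pd a (pd b s) y ^ 2 = ∫ y, pd a (pd a s) y * pd b (pd b s) y := by
  have e1 : ∫ y, pd a (pd b s) y ^ 2 = ∫ y, pd b (pd a s) y * pd a (pd b s) y := by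
    simp only [sq, DE.pd_swap h a b]
  rw [e1, DE.ibp ((h.pd a).pd b) (h.pd b) a, DE.pd_swap (h.pd a) a b,
    DE.ibp ((h.pd a).pd a) (h.pd b) b]

theorem quad_int {s : E4 → ℝ} (h : Tst s) :
    ∫ y, quad s y = 2 * ∫ y, (lz s y ^ 2 + lz s y * lw s y + lw s y ^ 2) := by
  have T : ∀ a b, Tst fun y => pd a (pd b s) y ^ 2 - pd a (pd a s) y * pd b (pd b s) y := by
    intro a b
    simpa only [sq] using (((h.pd b).pd a).mul_right ((h.pd b).pd a).sm).sub
      (((h.pd a).pd a).mul_right ((h.pd b).pd b).sm)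
  have Z : ∀ a b, ∫ y, (pd a (pd b s) y ^ 2 - pd a (pd a s) y * pd b (pd b s) y) = 0 := by
    intro a b
    rw [integral_sub ((h.pd b).pd a).integrable_sq
      (((h.pd a).pd a).integrable_mul ((h.pd b).pd b)), sq_int h, sub_self]
  have Tz : Tst (lz s) := ((h.pd 0).pd 0).add ((h.pd 1).pd 1)
  have Tw : Tst (lw s) := ((h.pd 2).pd 2).add ((h.pd 3).pd 3)
  have T0 : Tst fun y => lz s y ^ 2 + lz s y * lw s y + lw s y ^ 2 := by
    simpa only [sq] using ((Tz.mul_right Tz.sm).add (Tz.mul_right Tw.sm)).add (Tw.mul_right Tw.sm)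
  have e : quad s = fun y => 2 * (lz s y ^ 2 + lz s y * lw s y + lw s y ^ 2) +
      (24 * (pd 2 (pd 3 s) y ^ 2 - pd 2 (pd 2 s) y * pd 3 (pd 3 s) y) +
      (6 * (pd 0 (pd 2 s) y ^ 2 - pd 0 (pd 0 s) y * pd 2 (pd 2 s) y) +
      (6 * (pd 0 (pd 3 s) y ^ 2 - pd 0 (pd 0 s) y * pd 3 (pd 3 s) y) +
      (6 * (pd 1 (pd 2 s) y ^ 2 - pd 1 (pd 1 s) y * pd 2 (pd 2 s) y) +
      6 * (pd 1 (pd 3 s) y ^ 2 - pd 1 (pd 1 s) y * pd 3 (pd 3 s) y))))) := by
    funext y
    simp only [quad, lz, lw]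
    ring
  have A5 := (T 1 3).const_mul 6
  have A4 := ((T 1 2).const_mul 6).add A5
  have A3 := ((T 0 3).const_mul 6).add A4
  have A2 := ((T 0 2).const_mul 6).add A3
  have A1 := ((T 2 3).const_mul 24).add A2
  rw [e, integral_add (T0.const_mul 2).integrable A1.integrable,
    integral_add ((T 2 3).const_mul 24).integrable A2.integrable,
    integral_add ((T 0 2).const_mul 6).integrable A3.integrable,
    integral_add ((T 0 3).const_mul 6).integrable A4.integrable,
    integral_add ((T 1 2).const_mul 6).integrable A5.integrable]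
  simp only [integral_const_mul, Z, mul_zero, add_zero]

theorem dens_eq (h1 : CoFacts) (s : E4 → ℝ) (y : E4) : dens (Gs s) y = exp (2 * s y) := by
  rw [Gs, h1.dens_blk, mul_zero, add_zero]

/-- The Laplacian in divergence form. -/
theorem div_form (h1 : CoFacts) (h2 : RicStmt) {s φ : E4 → ℝ} {U : Set E4} (hU : IsOpen U)
    (hs : ContDiffOn ℝ ∞ s U) (hφ : ContDiffOn ℝ ∞ φ U) {y : E4} (hy : y ∈ U) :
    dens (Gs s) y * lap (Gs s) φ y = ∑ i, pd i (fun z => co s i z * pd i φ z) y := by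
  have d1 : ∀ i, pd i (fun z => co s i z * pd i φ z) y =
      pd i (co s i) y * pd i φ y + co s i y * pd i (pd i φ) y := fun i =>
    pd_mul (dAt_of_cdOn hU (co_sm hs i) hy) (dAt_of_cdOn hU (cdOn_pd hU hφ i) hy) i
  have ds := dAt_of_cdOn hU hs hy
  have d2 : ∀ i, pd i (fun z => exp (2 * s z)) y = exp (2 * s y) * (2 * pd i s y) := fun i => by
    rw [pd_exp (ds.const_mul 2), pd_const_mul ds]
  have c0 : co s 0 = fun _ => 1 := rfl
  have c1 : co s 1 = fun _ => 1 := rfl
  have c2 : co s 2 = fun z => exp (2 * s z) := rfl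
  have c3 : co s 3 = fun z => exp (2 * s z) := rfl
  have e : exp (2 * s y) * exp (-(2 * s y)) = 1 := by rw [← exp_add, add_neg_cancel, exp_zero]
  rw [dens_eq h1, (h2 s U hU hs y hy).2.2.2.2 φ hφ]
  simp only [d1, Fin.sum_univ_four, c0, c1, c2, c3, d2, pd_const, lz, lw]
  linear_combination (pd 0 (pd 0 φ) y + pd 1 (pd 1 φ) y) * e

theorem tst_of (h3 : LocFacts) {s : E4 → ℝ} (h : Tst s) : Tst (sg s) ∧ Tst (scal (Gs s)) := by
  obtain ⟨-, -, -, a, b⟩ := h3.sm s s s univ isOpen_univ h.sm.contDiffOn h.sm.contDiffOn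
    h.sm.contDiffOn
  have z := fun y (hy : y ∉ tsupport s) => h3.flat s s s y (notMem_tsupport_iff_eventuallyEq.1 hy)
    (smAt_of h.sm y) (smAt_of h.sm y)
  exact ⟨⟨contDiffOn_univ.1 a, HasCompactSupport.intro h.cs fun y hy => (z y hy).2.2.2.1⟩,
    ⟨contDiffOn_univ.1 b, HasCompactSupport.intro h.cs fun y hy => (z y hy).2.2.2.2⟩⟩

theorem weak (h1 : CoFacts) (h2 : RicStmt) (h3 : LocFacts) {s φ : E4 → ℝ} (h : Tst s)
    (hφ : ContDiff ℝ ∞ φ) : ∫ y, qd s y * φ y =
    -(1 / 12) * (∫ y, dens (Gs s) y * scal (Gs s) y * lap (Gs s) φ y) -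
      1 / 12 * ∫ y, sg s y * φ y := by
  obtain ⟨T1, T2⟩ := tst_of h3 h
  have hc : ∀ i, ContDiff ℝ ∞ (co s i) := fun i => contDiffOn_univ.1 (co_sm h.sm.contDiffOn i)
  have F : ∀ i, Tst fun z => co s i z * pd i (scal (Gs s)) z := fun i => (T2.pd i).mul_left (hc i)
  have G : ∀ i, ContDiff ℝ ∞ fun z => co s i z * pd i φ z := fun i => (hc i).mul (cd_pd hφ i)
  have e1 : ∀ y, qd s y * φ y = -(1 / 12) *
      (∑ i, pd i (fun z => co s i z * pd i (scal (Gs s)) z) y * φ y) - 1 / 12 * (sg s y * φ y) := by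
    intro y
    rw [qd_eq, div_form h1 h2 isOpen_univ h.sm.contDiffOn T2.sm.contDiffOn (mem_univ y),
      ← Finset.sum_mul]
    ring
  have e2 : ∀ y, dens (Gs s) y * scal (Gs s) y * lap (Gs s) φ y =
      ∑ i, scal (Gs s) y * pd i (fun z => co s i z * pd i φ z) y := by
    intro y
    rw [← Finset.mul_sum, ← div_form h1 h2 isOpen_univ h.sm.contDiffOn hφ.contDiffOn (mem_univ y)]
    ring
  simp only [e1, e2]
  rw [integral_sub ((Tst.sum fun i _ => ((F i).pd i).mul_right hφ).const_mul _).integrable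
      ((T1.mul_right hφ).const_mul _).integrable, integral_const_mul, integral_const_mul,
    integral_finsetSum _ fun i _ => (((F i).pd i).mul_right hφ).integrable,
    integral_finsetSum _ fun i _ => (T2.mul_right (cd_pd (G i) i)).integrable]
  congr 2
  refine Finset.sum_congr rfl fun i _ => ?_
  have a1 := E8.ibp_pd (F i) hφ i
  have a2 := E8.ibp_pd T2 (G i) i
  have a3 : ∫ y, co s i y * pd i (scal (Gs s)) y * pd i φ y =
      ∫ y, pd i (scal (Gs s)) y * (co s i y * pd i φ y) :=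
    integral_congr_ae (ae_of_all _ fun y => by ring)
  linarith

theorem diff (h1 : CoFacts) (h2 : RicStmt) (h3 : LocFacts) {s s' : E4 → ℝ} {U K : Set E4}
    (hU : IsOpen U) (hK : IsCompact K) (hKU : K ⊆ U) (hs : ContDiffOn ℝ ∞ s U)
    (hs' : ContDiffOn ℝ ∞ s' U) (he : ∀ y ∈ U, y ∉ K → s y = s' y) :
    ∫ y in K, (qd s y - qd s' y) = -(1 / 12) * ∫ y in K, (sg s y - sg s' y) := by
  obtain ⟨-, -, -, a, b⟩ := h3.sm s s s U hU hs hs hs
  obtain ⟨-, -, -, a', b'⟩ := h3.sm s' s' s' U hU hs' hs' hs'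
  have F : ∀ i, ContDiffOn ℝ ∞ (fun z => co s i z * pd i (scal (Gs s)) z) U := fun i =>
    (co_sm hs i).mul (cdOn_pd hU b i)
  have F' : ∀ i, ContDiffOn ℝ ∞ (fun z => co s' i z * pd i (scal (Gs s')) z) U := fun i =>
    (co_sm hs' i).mul (cdOn_pd hU b' i)
  have hV : IsOpen (U \ K) := hU.sdiff hK.isClosed
  have hE : EqOn s s' (U \ K) := fun y hy => he y hy.1 hy.2
  have z : ∀ i, ∀ y ∈ U, y ∉ K →
      co s i y * pd i (scal (Gs s)) y - co s' i y * pd i (scal (Gs s')) y = 0 := by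
    intro i y hy hy'
    rw [pd_congr_on hV (e5_scal hV (e5_Gs hE)) i ⟨hy, hy'⟩, co, co, he y hy hy', sub_self]
  have e1 : EqOn (fun y => qd s y - qd s' y) (fun y => -(1 / 12) * (∑ i, pd i
      (fun z => co s i z * pd i (scal (Gs s)) z - co s' i z * pd i (scal (Gs s')) z) y) +
      -(1 / 12) * (sg s y - sg s' y)) K := by
    intro y hy
    have hy' := hKU hy
    simp only [qd_eq, div_form h1 h2 hU hs b hy', div_form h1 h2 hU hs' b' hy',
      fun i => pd_sub (dAt_of_cdOn hU (F i) hy') (dAt_of_cdOn hU (F' i) hy') i,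
      Finset.sum_sub_distrib]
    ring
  have I1 : ∀ i, IntegrableOn (pd i fun z =>
      co s i z * pd i (scal (Gs s)) z - co s' i z * pd i (scal (Gs s')) z) K := fun i =>
    ((cdOn_pd hU ((F i).sub (F' i)) i).continuousOn.mono hKU).integrableOn_compact hK
  have I2 : IntegrableOn (fun y => sg s y - sg s' y) K :=
    ((a.sub a').continuousOn.mono hKU).integrableOn_compact hK
  have Z : ∀ i, ∫ y in K, pd i (fun z =>
      co s i z * pd i (scal (Gs s)) z - co s' i z * pd i (scal (Gs s')) z) y = 0 := by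
    intro i
    rw [← integral_pd_eq_zero hU hK hKU ((F i).sub (F' i)) (z i) i]
    exact (setIntegral_eq_of_subset_of_forall_sdiff_eq_zero hU.measurableSet hKU fun y hy =>
      pd_eq_zero_off hU hK.isClosed (z i) i y hy.1 hy.2).symm
  rw [setIntegral_congr_fun hK.measurableSet e1,
    integral_add ((integrable_finsetSum _ fun i _ => I1 i).const_mul _) (I2.const_mul _),
    integral_const_mul, integral_const_mul, integral_finsetSum _ fun i _ => I1 i]
  simp only [Z, Finset.sum_const_zero, mul_zero, zero_add]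

theorem cont (h1 : CoFacts) (h2 : RicStmt) (h3 : LocFacts) {a : E4 → ℝ} (h : Tst a) :
    Continuous fun ε : ℝ => ∫ y, sg (fun z => ε * a z) y := by
  have R := fun (ε : ℝ) (y : E4) =>
    h2 (fun z => ε * a z) univ isOpen_univ (h.const_mul ε).sm.contDiffOn y (mem_univ y)
  have p1 : ∀ (ε : ℝ) i, pd i (fun z => ε * a z) = fun z => ε * pd i a z := fun ε i =>
    funext fun z => pd_const_mul (h.dAt z) ε i
  have p2 : ∀ (ε : ℝ) i j, pd i (fun z => ε * pd j a z) = fun z => ε * pd i (pd j a) z :=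
    fun ε i j => funext fun z => pd_const_mul ((h.pd j).dAt z) ε i
  have c0 := h.continuous
  have c1 := fun i => (h.pd i).continuous
  have c2 := fun i j => ((h.pd j).pd i).continuous
  have g : ∀ i j, Continuous fun p : ℝ × E4 => ginv (Gs fun z => p.1 * a z) i j p.2 := by
    intro i j
    simp only [fun ε y => (R ε y).1 i j]
    split_ifs <;> fun_prop
  have r : ∀ i j, Continuous fun p : ℝ × E4 => ric (Gs fun z => p.1 * a z) i j p.2 := by
    intro i j
    rcases lt_or_ge i.val 2 with hi | hi <;> rcases lt_or_ge j.val 2 with hj | hj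
    · simp only [fun ε y => (R ε y).2.1 i j hi hj, lz, lw, p1, p2]
      split_ifs <;> fun_prop
    · simp only [fun ε y => ((R ε y).2.2.2.1 i j hi hj).1, p1, p2]
      fun_prop
    · simp only [fun ε y => ((R ε y).2.2.2.1 j i hj hi).2, p1, p2]
      fun_prop
    · simp only [fun ε y => (R ε y).2.2.1 i j hi hj, p1, p2]
      fun_prop
  have j : Continuous fun p : ℝ × E4 => sg (fun z => p.1 * a z) p.2 := by
    simp only [sg, dens_eq h1, ricSq, scal]
    fun_prop
  have e : ∀ ε : ℝ, ∫ y, sg (fun z => ε * a z) y = ∫ y in tsupport a, sg (fun z => ε * a z) y := by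
    intro ε
    refine (setIntegral_eq_integral_of_forall_compl_eq_zero fun y hy => ?_).symm
    refine (h3.flat _ a a y ?_ (smAt_of h.sm y) (smAt_of h.sm y)).2.2.2.1
    filter_upwards [notMem_tsupport_iff_eventuallyEq.1 hy] with z hz
    rw [hz, Pi.zero_apply, mul_zero]
  simp only [e]
  exact continuous_parametric_integral_of_continuous (f := fun ε y => sg (fun z => ε * a z) y) j h.cs

end E6

theorem qdFacts (h1 : CoFacts) (h2 : RicStmt) (h3 : LocFacts)
    (hb : ∃ C : ℝ, ∀ (s : E4 → ℝ) (y : E4), SmAt s y → |s y| ≤ 1 →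
      dens (Gs s) y ≤ C ∧ |scal (Gs s) y| ≤ C * (D2 s y + D1 s y ^ 2) ∧
      |sg s y| ≤ C * (D2 s y + D1 s y ^ 2) ^ 2 ∧
      |sg s y - quad s y| ≤ C * (|s y| * D2 s y ^ 2 + D1 s y ^ 2 * D2 s y + D1 s y ^ 4) ∧
      ∀ φ, SmAt φ y → |lap (Gs s) φ y| ≤ C * (D2 φ y + D1 s y * D1 φ y)) : QdFacts where
  weak _ _ := E6.weak h1 h2 h3
  diff _ _ _ _ := E6.diff h1 h2 h3
  bd := hb
  quad_int _ := E6.quad_int
  cont _ := E6.cont h1 h2 h3

end Pool.Agent.MP_417fa2_gt.Q2
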