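import Pool.Agent.MP_417fa2_gt.Q2.ESpec

/-! Rotations, scalings and additivity of the local quantities of `Gs s`. -/

open scoped ContDiff Topology
open MeasureTheory Set Metric Real Filter

namespace Pool.Agent.MP_417fa2_gt.Q2

open DE (lp)

/-- `F'` is `F` rescaled by `c`, with weight `k`. -/
def e6bSc (c : ℝ) (k : ℕ) (F F' : E4 → ℝ) : Prop := ∀ y, F' y = c ^ k * F (c • y)

theorem e6b_pd {c : ℝ} {k : ℕ} {F F' : E4 → ℝ} (h : e6bSc c k F F') (i : Fin 4) :
    e6bSc c (k + 1) (pd i F) (pd i F') := fun y => by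
  have e : F' = (c ^ k) • fun z => F (c • z) := funext fun z => h z
  unfold pd
  rw [e, fderiv_const_smul_field, Pi.smul_apply, fderiv_comp_smul]
  simp only [_root_.smul_apply, smul_eq_mul]
  ring

section Scale

variable {c : ℝ} {G G' : E4 → Matrix (Fin 4) (Fin 4) ℝ} (hG : ∀ y, G' y = G (c • y))
include hG

theorem e6b_g (i j : Fin 4) : e6bSc c 0 (fun z => G z i j) fun z => G' z i j := fun y => by
  simp only [hG y, pow_zero, one_mul]

theorem e6b_ginv (i j : Fin 4) (y : E4) : ginv G' i j y = ginv G i j (c • y) := by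
  simp only [ginv, hG y]

theorem e6b_dens (y : E4) : dens G' y = dens G (c • y) := by simp only [dens, hG y]

theorem e6b_chr (k i j : Fin 4) : e6bSc c 1 (chr G k i j) (chr G' k i j) := fun y => by
  have h := fun a b d => e6b_pd (e6b_g hG a b) d y
  simp only [chr, h, e6b_ginv hG, Fin.sum_univ_four]
  ring

theorem e6b_ric (i j : Fin 4) : e6bSc c 2 (ric G i j) (ric G' i j) := fun y => by
  have h := fun a b d e => e6b_pd (e6b_chr hG a b d) e y
  have h' := fun a b d => e6b_chr hG a b d y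
  simp only [ric, h, h', Fin.sum_univ_four]
  ring

theorem e6b_scal : e6bSc c 2 (scal G) (scal G') := fun y => by
  have h := fun a b => e6b_ric hG a b y
  simp only [scal, h, e6b_ginv hG, Fin.sum_univ_four]
  ring

theorem e6b_ricSq : e6bSc c 4 (ricSq G) (ricSq G') := fun y => by
  have h := fun a b => e6b_ric hG a b y
  simp only [ricSq, h, e6b_ginv hG, Finset.mul_sum]
  refine Finset.sum_congr rfl fun _ _ => Finset.sum_congr rfl fun _ _ =>
    Finset.sum_congr rfl fun _ _ => Finset.sum_congr rfl fun _ _ => ?_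
  ring

theorem e6b_grad {k : ℕ} {φ φ' : E4 → ℝ} (h : e6bSc c k φ φ') (i : Fin 4) :
    e6bSc c (k + 1) (grad G φ i) (grad G' φ' i) := fun y => by
  have h1 := fun a => e6b_pd h a y
  simp only [grad, h1, e6b_ginv hG, Fin.sum_univ_four]
  ring

theorem e6b_dvg {k : ℕ} {X X' : Fin 4 → E4 → ℝ} (h : ∀ i, e6bSc c k (X i) (X' i)) :
    e6bSc c (k + 1) (dvg G X) (dvg G' X') := fun y => by
  have h1 := fun a b => e6b_pd (h a) b y
  have h2 := fun a b d => e6b_chr hG a b d y
  have h3 := fun a => h a y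
  simp only [dvg, h1, h2, h3, Fin.sum_univ_four]
  ring

theorem e6b_lap {k : ℕ} {φ φ' : E4 → ℝ} (h : e6bSc c k φ φ') :
    e6bSc c (k + 1 + 1) (lap G φ) (lap G' φ') := e6b_dvg hG (e6b_grad hG h)

theorem e6b_qcurv (y : E4) : qcurv G' y = c ^ 4 * qcurv G (c • y) := by
  simp only [qcurv, e6b_lap hG (e6b_scal hG) y, e6b_scal hG y, e6b_ricSq hG y]
  ring

theorem e6b_aco (a b : Fin 4) (y : E4) : aco G' a b y = c ^ 2 * aco G a b (c • y) := by
  have h := fun a b => e6b_ric hG a b y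
  simp only [aco, h, e6b_scal hG y, e6b_ginv hG, Fin.sum_univ_four]
  ring

theorem e6b_bform {φ φ' ψ ψ' : E4 → ℝ} (h : e6bSc c 0 φ φ') (k : e6bSc c 0 ψ ψ') (y : E4) :
    bform G' φ' ψ' y = c ^ 4 * bform G φ ψ (c • y) := by
  have h1 := fun a => e6b_pd h a y
  have k1 := fun a => e6b_pd k a y
  simp only [bform, e6b_dens hG, e6b_lap hG h y, e6b_lap hG k y, e6b_aco hG, h1, k1,
    Fin.sum_univ_four]
  ring

end Scale

theorem e6b_lp {c : ℝ} {φ φ' : E4 → ℝ} (h : e6bSc c 0 φ φ') (y : E4) :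
    lp φ' y = c ^ 2 * lp φ (c • y) := by
  have h1 := fun a => e6b_pd (e6b_pd h a) a y
  simp only [DE.lp, h1, Fin.sum_univ_four]
  ring

theorem e6b_int {c : ℝ} (hc : 0 < c) (F : E4 → ℝ) : ∫ y, c ^ 4 * F (c • y) = ∫ y, F y := by
  rw [integral_const_mul, Measure.integral_comp_smul volume F c]
  simp only [finrank_euclideanSpace, Fintype.card_fin, smul_eq_mul]
  rw [abs_of_pos (by positivity)]
  field_simp

theorem e6b_self {r : ℝ} (hr : 0 < r) (φ : E4 → ℝ) : e6bSc r⁻¹ 0 (fun z => φ (r • z)) φ :=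
  fun y => by simp only [pow_zero, one_mul, smul_inv_smul₀ hr.ne']

theorem e6b_zero {s : E4 → ℝ} {y : E4} (h : y ∉ tsupport s) : s =ᶠ[𝓝 y] fun _ => 0 :=
  notMem_tsupport_iff_eventuallyEq.1 h

theorem e6b_lp_sm {φ : E4 → ℝ} (h : Tst φ) : Tst (lp φ) :=
  Tst.sum fun a _ => (h.pd a).pd a

theorem e6b_integrable (h3 : LocFacts) {s φ ψ : E4 → ℝ} (hs : Tst s) (hφ : Tst φ) (hψ : Tst ψ) :
    Integrable fun y => bform (Gs s) φ ψ y - lp φ y * lp ψ y := by
  have h1 := (h3.sm s φ ψ univ isOpen_univ hs.sm.contDiffOn hφ.sm.contDiffOn hψ.sm.contDiffOn).1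
  refine Continuous.integrable_of_hasCompactSupport
    ((contDiffOn_univ.1 h1).continuous.sub
      ((e6b_lp_sm hφ).continuous.mul (e6b_lp_sm hψ).continuous)) ?_
  refine HasCompactSupport.intro hs.cs fun y hy => ?_
  rw [(h3.flat s φ ψ y (e6b_zero hy) (smAt_of hφ.sm y) (smAt_of hψ.sm y)).1, sub_self]

theorem scaleFacts (h1 : CoFacts) (h3 : LocFacts) : ScaleFacts where
  rot s hs hr u₁ u₂ hu₁ hu₂ y := by
    obtain ⟨e, he⟩ := h1.rot_iso u₁ u₂ hu₁ hu₂
    have hn : Nice (Gs s) univ :=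
      h1.nice s (fun _ => 0) univ isOpen_univ hs.sm.contDiffOn contDiffOn_const
    have hv : ∀ z, s z = s (rot u₁ u₂ z) := fun z =>
      hr _ _ (h1.rot_z u₁ u₂ hu₁ z).symm (h1.rot_w u₁ u₂ hu₂ z).symm
    have I : Iso (Gs s) (Gs s) univ univ (rot u₁ u₂) :=
      ⟨hn, hn, by
        rw [show rot u₁ u₂ = e from (funext he).symm]
        exact e.contDiff.contDiffOn, mapsTo_univ _ _,
        fun z _ => h1.rot_blk u₁ u₂ hu₁ hu₂ s (fun _ => 0) s (fun _ => 0) z (hv z) rfl⟩
    have a1 : scal (Gs s) y = scal (Gs s) (rot u₁ u₂ y) := by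
      have h := I.reps.scal.1
      rw [← I.chg.scal_eq'] at h
      exact I.n.reps.scal.eqOn h (mem_univ y)
    have a2 : ricSq (Gs s) y = ricSq (Gs s) (rot u₁ u₂ y) := by
      have h := I.reps.ricSq.1
      rw [← I.chg.ricSq_eq'] at h
      exact I.n.reps.ricSq.eqOn h (mem_univ y)
    have a3 : dens (Gs s) y = dens (Gs s) (rot u₁ u₂ y) := by
      rw [Gs, h1.dens_blk, h1.dens_blk, ← hv y]
    rw [sg, sg, a1, a2, a3]
  scaleQ s φ r hr _ := by
    have hG : ∀ y, Gs (fun z => s (r⁻¹ • z)) y = Gs s (r⁻¹ • y) := fun _ => rfl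
    rw [← e6b_int (inv_pos.2 hr) fun y => qd s y * φ (r • y)]
    refine integral_congr_ae (Eventually.of_forall fun y => ?_)
    simp only [qd, e6b_dens hG, e6b_qcurv hG, smul_inv_smul₀ hr.ne']
    ring
  scaleT s φ ψ r hr _ _ _ := by
    have hG : ∀ y, Gs (fun z => s (r⁻¹ • z)) y = Gs s (r⁻¹ • y) := fun _ => rfl
    rw [Tf, Tf, ← e6b_int (inv_pos.2 hr) fun y => bform (Gs s) (fun z => φ (r • z))
      (fun z => ψ (r • z)) y - lp (fun z => φ (r • z)) y * lp (fun z => ψ (r • z)) y]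
    refine integral_congr_ae (Eventually.of_forall fun y => ?_)
    simp only [e6b_bform hG (e6b_self hr φ) (e6b_self hr ψ), e6b_lp (e6b_self hr φ) y,
      e6b_lp (e6b_self hr ψ) y]
    ring
  add s s' hs hs' hd := by
    have key : ∀ φ ψ : E4 → ℝ, ContDiff ℝ ∞ φ → ContDiff ℝ ∞ ψ → ∀ y,
        qd (fun z => s z + s' z) y = qd s y + qd s' y ∧
        bform (Gs fun z => s z + s' z) φ ψ y - lp φ y * lp ψ y =
          (bform (Gs s) φ ψ y - lp φ y * lp ψ y) + (bform (Gs s') φ ψ y - lp φ y * lp ψ y) := by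
      intro φ ψ hφ hψ y
      by_cases hy : y ∈ tsupport s
      · have h0 := e6b_zero (disjoint_left.1 hd hy)
        have c := h3.congr (fun z => s z + s' z) s φ φ ψ ψ y
          (h0.mono fun z hz => by simp only [hz, add_zero]) EventuallyEq.rfl EventuallyEq.rfl
        have f := h3.flat s' φ ψ y h0 (smAt_of hφ y) (smAt_of hψ y)
        rw [c.1, c.2.2, f.1, f.2.2.1]
        constructor <;> ring
      · have h0 := e6b_zero hy
        have c := h3.congr (fun z => s z + s' z) s' φ φ ψ ψ y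
          (h0.mono fun z hz => by simp only [hz, zero_add]) EventuallyEq.rfl EventuallyEq.rfl
        have f := h3.flat s φ ψ y h0 (smAt_of hφ y) (smAt_of hψ y)
        rw [c.1, c.2.2, f.1, f.2.2.1]
        constructor <;> ring
    refine ⟨fun y => (key (fun _ => 0) (fun _ => 0) contDiff_const contDiff_const y).1,
      fun φ ψ hφ hψ => ?_⟩
    rw [Tf, Tf, Tf, ← integral_add (e6b_integrable h3 hs hφ hψ) (e6b_integrable h3 hs' hφ hψ)]
    exact integral_congr_ae (Eventually.of_forall fun y => (key φ ψ hφ.sm hψ.sm y).2)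

end Pool.Agent.MP_417fa2_gt.Q2
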