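import Pool.Agent.MP_417fa2_gt.Q2.ESpec

/-! Pointwise facts on the regularized fundamental solution. -/

open scoped ContDiff Topology
open MeasureTheory Set Metric Real Filter

namespace Pool.Agent.MP_417fa2_gt.Q2

open DE (lp)

namespace E7

/-- `1 / (|y|² + ε²)`. -/
noncomputable def vv (ε : ℝ) (y : E4) : ℝ := (‖y‖ ^ 2 + ε ^ 2)⁻¹

/-- `yᵢ / (|y|² + ε²)`. -/
noncomputable def uu (i : Fin 4) (ε : ℝ) (y : E4) : ℝ := y i * vv ε y

theorem cd_N (ε : ℝ) : ContDiff ℝ ∞ fun y : E4 => ‖y‖ ^ 2 + ε ^ 2 :=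
  (contDiff_norm_sq ℝ).add contDiff_const

theorem cd_co (i : Fin 4) : ContDiff ℝ ∞ fun y : E4 => y i :=
  (EuclideanSpace.proj (𝕜 := ℝ) i : E4 →L[ℝ] ℝ).contDiff

theorem pd_co (i j : Fin 4) (y : E4) : pd j (fun z : E4 => z i) y = if i = j then 1 else 0 := by
  have h := (EuclideanSpace.proj (𝕜 := ℝ) i : E4 →L[ℝ] ℝ).hasFDerivAt (x := y)
  have h' : HasFDerivAt (fun z : E4 => z i) (EuclideanSpace.proj (𝕜 := ℝ) i : E4 →L[ℝ] ℝ) y := h
  unfold pd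
  rw [h'.fderiv]
  simp

theorem pd_rad {g : ℝ → ℝ} {g' ε : ℝ} {y : E4} (h : HasDerivAt g g' (‖y‖ ^ 2 + ε ^ 2))
    (i : Fin 4) : pd i (fun z : E4 => g (‖z‖ ^ 2 + ε ^ 2)) y = g' * (2 * y i) := by
  have hN : HasFDerivAt (fun z : E4 => ‖z‖ ^ 2 + ε ^ 2) (2 • innerSL ℝ y) y :=
    (hasStrictFDerivAt_norm_sq y).hasFDerivAt.add_const _
  have h2 : HasFDerivAt (fun z : E4 => g (‖z‖ ^ 2 + ε ^ 2)) (g' • (2 • innerSL ℝ y)) y :=
    h.comp_hasFDerivAt y hN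
  unfold pd
  rw [h2.fderiv]
  simp [EuclideanSpace.inner_single_right]

variable {ε : ℝ} {y : E4}

theorem ev_pos (h : 0 < ‖y‖ ^ 2 + ε ^ 2) : ∀ᶠ z in 𝓝 y, 0 < ‖z‖ ^ 2 + ε ^ 2 :=
  (cd_N ε).continuous.continuousAt.eventually (lt_mem_nhds h)

theorem cd_vv (h : 0 < ‖y‖ ^ 2 + ε ^ 2) : ContDiffAt ℝ ∞ (vv ε) y :=
  (cd_N ε).contDiffAt.inv h.ne'

theorem cd_uu (h : 0 < ‖y‖ ^ 2 + ε ^ 2) (i : Fin 4) : ContDiffAt ℝ ∞ (uu i ε) y :=
  (cd_co i).contDiffAt.mul (cd_vv h)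

theorem cd_gam (h : 0 < ‖y‖ ^ 2 + ε ^ 2) : ContDiffAt ℝ ∞ (gam ε) y :=
  contDiffAt_const.mul ((cd_N ε).contDiffAt.log h.ne')

theorem pd_vv (h : 0 < ‖y‖ ^ 2 + ε ^ 2) (i : Fin 4) :
    pd i (vv ε) y = -2 * (uu i ε y * vv ε y) := by
  have := pd_rad (hasDerivAt_inv h.ne') i
  refine this.trans ?_
  simp only [uu, vv]
  field_simp

theorem pd_uu (h : 0 < ‖y‖ ^ 2 + ε ^ 2) (i j : Fin 4) :
    pd j (uu i ε) y = (if i = j then 1 else 0) * vv ε y + -2 * (uu i ε y * uu j ε y) := by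
  have := pd_mul (dAt_of_cdAt (cd_co i).contDiffAt) (dAt_of_cdAt (cd_vv h)) j
  refine this.trans ?_
  rw [pd_co, pd_vv h]
  simp only [uu]
  ring

theorem pd_gam (h : 0 < ‖y‖ ^ 2 + ε ^ 2) (i : Fin 4) :
    pd i (gam ε) y = -(1 / (8 * π ^ 2)) * uu i ε y := by
  have := pd_rad ((hasDerivAt_log h.ne').const_mul (-(1 / (16 * π ^ 2)))) i
  refine this.trans ?_
  simp only [uu, vv]
  ring

theorem sum_uu (h : 0 < ‖y‖ ^ 2 + ε ^ 2) :
    ∑ i, uu i ε y * uu i ε y = vv ε y - ε ^ 2 * vv ε y ^ 2 := by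
  have h1 : ∑ i, y i * y i = ‖y‖ ^ 2 := by
    rw [EuclideanSpace.real_norm_sq_eq]; exact Finset.sum_congr rfl fun i _ => by ring
  have h2 : ∑ i, uu i ε y * uu i ε y = (∑ i, y i * y i) * vv ε y ^ 2 := by
    rw [Finset.sum_mul]; exact Finset.sum_congr rfl fun i _ => by simp only [uu]; ring
  rw [h2, h1]
  simp only [vv]
  field_simp
  ring

theorem lp_gam (h : 0 < ‖y‖ ^ 2 + ε ^ 2) :
    lp (gam ε) y = -(1 / (4 * π ^ 2)) * (vv ε y + ε ^ 2 * (vv ε y * vv ε y)) := by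
  have h1 : ∀ a, pd a (pd a (gam ε)) y =
      -(1 / (8 * π ^ 2)) * (vv ε y + -2 * (uu a ε y * uu a ε y)) := fun a => by
    rw [pd_congr ((ev_pos h).mono fun z hz => pd_gam hz a),
      pd_const_mul (dAt_of_cdAt (cd_uu h a)), pd_uu h]
    simp
  have h2 := sum_uu h
  simp only [DE.lp, h1, Fin.sum_univ_four] at h2 ⊢
  linear_combination (1 / (4 * π ^ 2)) * h2

theorem lp_lp_gam (h : 0 < ‖y‖ ^ 2 + ε ^ 2) : lp (lp (gam ε)) y = kk ε y := by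
  have h0 : ∀ a, ∀ z : E4, 0 < ‖z‖ ^ 2 + ε ^ 2 → pd a (lp (gam ε)) z =
      1 / (2 * π ^ 2) * (uu a ε z * vv ε z + 2 * ε ^ 2 * (uu a ε z * (vv ε z * vv ε z))) := by
    intro a z hz
    have hv := dAt_of_cdAt (cd_vv hz)
    rw [pd_congr ((ev_pos hz).mono fun w hw => lp_gam hw),
      pd_const_mul (hv.fun_add ((hv.fun_mul hv).const_mul _)),
      pd_add hv ((hv.fun_mul hv).const_mul _), pd_const_mul (hv.fun_mul hv), pd_mul hv hv,
      pd_vv hz]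
    ring
  have hv := dAt_of_cdAt (cd_vv h)
  have h1 : ∀ a, pd a (pd a (lp (gam ε))) y = 1 / (2 * π ^ 2) *
      (vv ε y ^ 2 + 2 * ε ^ 2 * vv ε y ^ 3 -
        (4 * vv ε y + 12 * ε ^ 2 * vv ε y ^ 2) * (uu a ε y * uu a ε y)) := fun a => by
    have hu := dAt_of_cdAt (cd_uu h a)
    rw [pd_congr ((ev_pos h).mono fun z hz => h0 a z hz),
      pd_const_mul ((hu.fun_mul hv).fun_add ((hu.fun_mul (hv.fun_mul hv)).const_mul _)),
      pd_add (hu.fun_mul hv) ((hu.fun_mul (hv.fun_mul hv)).const_mul _),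
      pd_const_mul (hu.fun_mul (hv.fun_mul hv)), pd_mul hu hv, pd_mul hu (hv.fun_mul hv),
      pd_mul hv hv, pd_vv h, pd_uu h]
    simp only [if_true]
    ring
  have h2 := sum_uu h
  have h3 : kk ε y = 6 * ε ^ 4 / π ^ 2 * vv ε y ^ 4 := by
    simp only [kk, vv]
    field_simp
  rw [h3]
  change ∑ a, pd a (pd a (lp (gam ε))) y = _
  simp only [h1, Fin.sum_univ_four] at h2 ⊢
  linear_combination (-(1 / (2 * π ^ 2)) * (4 * vv ε y + 12 * ε ^ 2 * vv ε y ^ 2)) * h2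

theorem pos_of_ne (ε : ℝ) (h : y ≠ 0) : 0 < ‖y‖ ^ 2 + ε ^ 2 := by
  have := norm_pos_iff.2 h
  positivity

/-- Families of functions of size `‖y‖⁻ᵏ`, stable under differentiation. -/
inductive Sym (S : Set ℝ) : ℕ → (ℝ → E4 → ℝ) → Prop
  | u (i : Fin 4) : Sym S 1 (uu i)
  | v : Sym S 2 vv
  | tst (k : ℕ) (φ : E4 → ℝ) : Tst φ → Sym S k fun _ => φ
  | lg (k : ℕ) (φ : E4 → ℝ) (t : ℝ) : Tst φ → 0 < t → (∀ y, ‖y‖ < t → φ y = 0) → S ⊆ Icc 0 1 →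
      Sym S k fun ε y => φ y * gam ε y
  | mul {k l : ℕ} {F G : ℝ → E4 → ℝ} : Sym S k F → Sym S l G →
      Sym S (k + l) fun ε y => F ε y * G ε y
  | add {k : ℕ} {F G : ℝ → E4 → ℝ} : Sym S k F → Sym S k G → Sym S k fun ε y => F ε y + G ε y
  | smul {k : ℕ} {F : ℝ → E4 → ℝ} (c : ℝ) : Sym S k F → Sym S k fun ε y => c * F ε y
  | congr {k : ℕ} {F G : ℝ → E4 → ℝ} : Sym S k F → (∀ ε y, y ≠ 0 → G ε y = F ε y) → Sym S k G

variable {S : Set ℝ} {k : ℕ} {F : ℝ → E4 → ℝ}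

theorem Sym.cd (h : Sym S k F) (ε : ℝ) {y : E4} (hy : y ≠ 0) : ContDiffAt ℝ ∞ (F ε) y := by
  induction h with
  | u i => exact cd_uu (pos_of_ne ε hy) i
  | v => exact cd_vv (pos_of_ne ε hy)
  | tst k φ h => exact h.sm.contDiffAt
  | lg k φ t h _ _ _ => exact h.sm.contDiffAt.mul (cd_gam (pos_of_ne ε hy))
  | mul _ _ h1 h2 => exact h1.mul h2
  | add _ _ h1 h2 => exact h1.add h2
  | smul c _ h1 => exact contDiffAt_const.mul h1
  | congr _ h h1 =>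
    exact h1.congr_of_eventuallyEq ((eventually_ne_nhds hy).mono fun z hz => h ε z hz)

theorem Sym.pd (h : Sym S k F) (j : Fin 4) : Sym S (k + 1) fun ε => pd j (F ε) := by
  induction h with
  | u i =>
    exact ((Sym.v.smul (if i = j then 1 else 0)).add (((Sym.u i).mul (Sym.u j)).smul (-2))).congr
      fun ε y hy => pd_uu (pos_of_ne ε hy) i j
  | v => exact (((Sym.u j).mul Sym.v).smul (-2)).congr fun ε y hy => pd_vv (pos_of_ne ε hy) j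
  | tst k φ h => exact Sym.tst _ _ (h.pd j)
  | lg k φ t h ht h0 hS =>
    refine ((Sym.lg (k + 1) _ t (h.pd j) ht (fun y hy => ?_) hS).add
      ((Sym.tst k φ h).mul ((Sym.u j).smul (-(1 / (8 * π ^ 2)))))).congr fun ε y hy => ?_
    · exact pd_eq_zero_of_eventually
        ((continuous_norm.continuousAt.eventually (gt_mem_nhds hy)).mono fun z hz => h0 z hz) j
    · rw [pd_mul (h.dAt y) (dAt_of_cdAt (cd_gam (pos_of_ne ε hy))), pd_gam (pos_of_ne ε hy)]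
  | @mul k l F G hF hG h1 h2 =>
    have h3 := h1.mul hG
    have h4 := hF.mul h2
    rw [show k + 1 + l = k + l + 1 by ring] at h3
    exact (h3.add h4).congr fun ε y hy =>
      pd_mul (dAt_of_cdAt (hF.cd ε hy)) (dAt_of_cdAt (hG.cd ε hy)) j
  | add hF hG h1 h2 =>
    exact (h1.add h2).congr fun ε y hy =>
      pd_add (dAt_of_cdAt (hF.cd ε hy)) (dAt_of_cdAt (hG.cd ε hy)) j
  | smul c hF h1 =>
    exact (h1.smul c).congr fun ε y hy => pd_const_mul (dAt_of_cdAt (hF.cd ε hy)) c j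
  | congr _ h h1 =>
    exact h1.congr fun ε y hy => pd_congr ((eventually_ne_nhds hy).mono fun z hz => h ε z hz) j

theorem tst_bd {φ g : E4 → ℝ} (h : Tst φ) (hg : Continuous g) : ∃ C, ∀ y, |φ y| * g y ≤ C := by
  obtain ⟨C, hC⟩ := (h.continuous.mul hg).bounded_above_of_compact_support h.cs.mul_right
  refine ⟨C, fun y => le_trans ?_ (hC y)⟩
  rw [Pi.mul_apply, norm_mul]
  exact mul_le_mul_of_nonneg_left (le_abs_self _) (abs_nonneg _)

theorem abs_log_le {x : ℝ} (h : 0 < x) : |log x| ≤ x + x⁻¹ := by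
  have h1 := log_le_sub_one_of_pos h
  have h2 := log_le_sub_one_of_pos (inv_pos.2 h)
  have h3 := inv_pos.2 h
  rw [log_inv] at h2
  exact abs_le.2 ⟨by linarith, by linarith⟩

theorem Sym.bd (h : Sym S k F) :
    ∃ C, 0 ≤ C ∧ ∀ ε ∈ S, ∀ y : E4, y ≠ 0 → |F ε y| * ‖y‖ ^ k ≤ C := by
  have hv : ∀ (ε : ℝ) (y : E4), y ≠ 0 → |vv ε y| * ‖y‖ ^ 2 ≤ 1 := fun ε y hy => by
    have h := pos_of_ne ε hy
    rw [vv, abs_of_pos (inv_pos.2 h), inv_mul_le_iff₀ h]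
    nlinarith [sq_nonneg ε]
  induction h with
  | u i =>
    refine ⟨1, zero_le_one, fun ε _ y hy => le_trans ?_ (hv ε y hy)⟩
    have h1 : |y i| ≤ ‖y‖ := PiLp.norm_apply_le y i
    rw [uu, abs_mul]
    have h2 := mul_le_mul_of_nonneg_right h1 (mul_nonneg (abs_nonneg (vv ε y)) (norm_nonneg y))
    nlinarith
  | v => exact ⟨1, zero_le_one, fun ε _ y hy => hv ε y hy⟩
  | tst k φ h =>
    obtain ⟨C, hC⟩ := tst_bd (g := fun y => ‖y‖ ^ k) h (by fun_prop)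
    exact ⟨C, le_trans (by positivity) (hC 0), fun ε _ y _ => hC y⟩
  | lg k φ t h ht h0 hS =>
    obtain ⟨C, hC⟩ := tst_bd (g := fun y => (‖y‖ ^ 2 + 1 + (t ^ 2)⁻¹) * ‖y‖ ^ k) h (by fun_prop)
    have hC0 : 0 ≤ C := le_trans (by positivity) (hC 0)
    refine ⟨1 / (16 * π ^ 2) * C, by positivity, fun ε hε y hy => ?_⟩
    by_cases h1 : ‖y‖ < t
    · simp only [h0 y h1, zero_mul, abs_zero]
      positivity
    · have h2 := abs_log_le (pos_of_ne ε hy)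
      have h3 : t ^ 2 ≤ ‖y‖ ^ 2 + ε ^ 2 := by
        have := pow_le_pow_left₀ ht.le (not_lt.1 h1) 2
        nlinarith [sq_nonneg ε]
      have h4 := inv_anti₀ (by positivity) h3
      have h5 : ε ^ 2 ≤ 1 := pow_le_one₀ (hS hε).1 (hS hε).2
      have h6 : |log (‖y‖ ^ 2 + ε ^ 2)| ≤ ‖y‖ ^ 2 + 1 + (t ^ 2)⁻¹ := by linarith
      calc _ = 1 / (16 * π ^ 2) * (|φ y| * (|log (‖y‖ ^ 2 + ε ^ 2)| * ‖y‖ ^ k)) := by
            simp only [gam, abs_mul, abs_neg]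
            rw [abs_of_pos (show (0 : ℝ) < 1 / (16 * π ^ 2) by positivity)]
            ring
        _ ≤ 1 / (16 * π ^ 2) * (|φ y| * ((‖y‖ ^ 2 + 1 + (t ^ 2)⁻¹) * ‖y‖ ^ k)) := by gcongr
        _ ≤ _ := mul_le_mul_of_nonneg_left (hC y) (by positivity)
  | mul _ _ h1 h2 =>
    obtain ⟨C, hC, h1⟩ := h1
    obtain ⟨D, hD, h2⟩ := h2
    refine ⟨C * D, by positivity, fun ε hε y hy => ?_⟩
    have := mul_le_mul (h1 ε hε y hy) (h2 ε hε y hy) (by positivity) hC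
    rw [abs_mul, pow_add]
    linarith
  | add _ _ h1 h2 =>
    obtain ⟨C, hC, h1⟩ := h1
    obtain ⟨D, hD, h2⟩ := h2
    refine ⟨C + D, by positivity, fun ε hε y hy => ?_⟩
    refine le_trans (mul_le_mul_of_nonneg_right (abs_add_le _ _) (by positivity)) ?_
    rw [add_mul]
    exact add_le_add (h1 ε hε y hy) (h2 ε hε y hy)
  | smul c _ h1 =>
    obtain ⟨C, hC, h1⟩ := h1
    refine ⟨|c| * C, by positivity, fun ε hε y hy => ?_⟩
    rw [abs_mul, mul_assoc]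
    exact mul_le_mul_of_nonneg_left (h1 ε hε y hy) (abs_nonneg _)
  | congr _ h h1 =>
    obtain ⟨C, hC, h1⟩ := h1
    exact ⟨C, hC, fun ε hε y hy => by rw [h ε y hy]; exact h1 ε hε y hy⟩

theorem fam_bd {ι : Type} [Fintype ι] {G : ι → ℝ → E4 → ℝ} (h : ∀ a, Sym S k (G a)) :
    ∃ C, 0 ≤ C ∧ ∀ a, ∀ ε ∈ S, ∀ y : E4, y ≠ 0 → |G a ε y| ≤ C / ‖y‖ ^ k := by
  choose C h0 hC using fun a => (h a).bd
  refine ⟨∑ a, C a, Finset.sum_nonneg fun a _ => h0 a, fun a ε hε y hy => ?_⟩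
  have := norm_pos_iff.2 hy
  rw [le_div_iff₀ (by positivity)]
  exact (hC a ε hε y hy).trans (Finset.single_le_sum (fun a _ => h0 a) (Finset.mem_univ a))

theorem D1_le {φ : E4 → ℝ} {K : ℝ} (h : ∀ i, |pd i φ y| ≤ K) : D1 φ y ≤ 4 * K := by
  have hK : 0 ≤ K := (abs_nonneg _).trans (h 0)
  refine sqrt_le_iff.2 ⟨by positivity, ?_⟩
  have h1 : ∑ i, pd i φ y ^ 2 ≤ ∑ _i : Fin 4, K ^ 2 :=
    Finset.sum_le_sum fun i _ => sq_le_sq' (abs_le.1 (h i)).1 (abs_le.1 (h i)).2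
  simp only [Finset.sum_const, Finset.card_univ, Fintype.card_fin, nsmul_eq_mul] at h1
  push_cast at h1
  nlinarith [sq_nonneg K]

theorem D2_le {φ : E4 → ℝ} {K : ℝ} (h : ∀ i j, |pd i (pd j φ) y| ≤ K) : D2 φ y ≤ 4 * K := by
  have hK : 0 ≤ K := (abs_nonneg _).trans (h 0 0)
  refine sqrt_le_iff.2 ⟨by positivity, ?_⟩
  have h1 : ∑ i, ∑ j, pd i (pd j φ) y ^ 2 ≤ ∑ _i : Fin 4, ∑ _j : Fin 4, K ^ 2 :=
    Finset.sum_le_sum fun i _ => Finset.sum_le_sum fun j _ =>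
      sq_le_sq' (abs_le.1 (h i j)).1 (abs_le.1 (h i j)).2
  simp only [Finset.sum_const, Finset.card_univ, Fintype.card_fin, nsmul_eq_mul] at h1
  push_cast at h1
  nlinarith [sq_nonneg K]

/-- All bounds for a family whose first derivatives are of order one. -/
theorem all_bd (h : ∀ i, Sym S 1 fun ε => pd i (F ε)) : ∃ C, 0 ≤ C ∧ ∀ ε ∈ S, ∀ y : E4, y ≠ 0 →
    D1 (F ε) y ≤ C / ‖y‖ ∧ D2 (F ε) y ≤ C / ‖y‖ ^ 2 ∧ (∀ i, D2 (pd i (F ε)) y ≤ C / ‖y‖ ^ 3) ∧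
      (∀ i j, D2 (pd i (pd j (F ε))) y ≤ C / ‖y‖ ^ 4) ∧ |lp (lp (F ε)) y| ≤ C / ‖y‖ ^ 4 := by
  have hl : ∀ {k : ℕ} {G : ℝ → E4 → ℝ}, (∀ i, Sym S k fun ε => pd i (pd i (G ε))) →
      Sym S k fun ε => lp (G ε) := fun hG =>
    ((((hG 0).add (hG 1)).add (hG 2)).add (hG 3)).congr fun ε y _ => by
      simp only [DE.lp, Fin.sum_univ_four]
  have h2 : Sym S 2 fun ε => lp (F ε) := hl fun i => (h i).pd i
  obtain ⟨C1, p1, b1⟩ := fam_bd h
  obtain ⟨C2, p2, b2⟩ := fam_bd fun a : Fin 4 × Fin 4 => (h a.2).pd a.1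
  obtain ⟨C3, p3, b3⟩ := fam_bd fun a : Fin 4 × Fin 4 × Fin 4 => ((h a.2.2).pd a.2.1).pd a.1
  obtain ⟨C4, p4, b4⟩ := fam_bd fun a : Fin 4 × Fin 4 × Fin 4 × Fin 4 =>
    (((h a.2.2.2).pd a.2.2.1).pd a.2.1).pd a.1
  obtain ⟨C5, p5, b5⟩ := fam_bd fun _ : Unit => hl fun i => (h2.pd i).pd i
  have key : ∀ (C : ℝ) (n : ℕ) (y : E4), C ≤ C1 + C2 + C3 + C4 + C5 →
      4 * (C / ‖y‖ ^ n) ≤ 4 * (C1 + C2 + C3 + C4 + C5) / ‖y‖ ^ n := fun C n y hC => by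
    rw [mul_div_assoc]
    gcongr
  refine ⟨4 * (C1 + C2 + C3 + C4 + C5), by positivity, fun ε hε y hy => ⟨?_, ?_, fun i => ?_,
    fun i j => ?_, ?_⟩⟩
  · have := (D1_le fun i => b1 i ε hε y hy).trans (key C1 1 y (by linarith))
    rwa [pow_one] at this
  · exact (D2_le fun i j => b2 (i, j) ε hε y hy).trans (key C2 2 y (by linarith))
  · exact (D2_le fun a b => b3 (a, b, i) ε hε y hy).trans (key C3 3 y (by linarith))
  · exact (D2_le fun a b => b4 (a, b, i, j) ε hε y hy).trans (key C4 4 y (by linarith))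
  · refine (b5 () ε hε y hy).trans ?_
    gcongr
    linarith

theorem sym_gam (S : Set ℝ) (i : Fin 4) : Sym S 1 fun ε => pd i (gam ε) :=
  ((Sym.u i).smul _).congr fun ε _ hy => pd_gam (pos_of_ne ε hy) i

theorem lp_ev {f g : E4 → ℝ} (h : f =ᶠ[𝓝 y] g) : lp f =ᶠ[𝓝 y] lp g :=
  h.eventuallyEq_nhds.mono fun _ hz =>
    Finset.sum_congr rfl fun a _ => pd_congr (pd_eventuallyEq hz a) a

end E7

open E7 in
theorem gamFacts (h : ChiFacts) : GamFacts where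
  sm ε hε := contDiff_iff_contDiffAt.2 fun _ => cd_gam (by positivity)
  sm0 ε _ hy := cd_gam (pos_of_ne ε hy)
  d1 ε y hy i := by rw [pd_gam hy, uu, vv, div_eq_mul_inv (y i)]
  lap1 ε y hy := by
    rw [lp_gam hy, vv]
    congr 1
    field_simp
    ring
  lap2 _ _ hy := lp_lp_gam hy
  bd := by
    obtain ⟨C, -, hC⟩ := all_bd (sym_gam univ)
    exact ⟨C, fun ε y hy => ⟨(hC ε trivial y hy).1, (hC ε trivial y hy).2.1,
      (hC ε trivial y hy).2.2.1, (hC ε trivial y hy).2.2.2.1⟩⟩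
  cutoff t ht ht4 := by
    have hT := h.tst t ht
    have h1 : ∀ y : E4, ‖y‖ < t → chi t =ᶠ[𝓝 y] fun _ => 1 := fun y hy =>
      (continuous_norm.continuousAt.eventually (gt_mem_nhds hy)).mono fun z hz =>
        h.one t ht z hz.le
    have hK : ∀ i, Sym (Icc 0 1) 1 fun ε => pd i (KK t ε) := fun i =>
      ((Sym.lg 1 _ t (hT.pd i) ht (fun y hy => by rw [pd_congr (h1 y hy), pd_const])
        Subset.rfl).add ((Sym.tst 0 _ hT).mul (sym_gam _ i))).congr fun ε y hy =>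
          pd_mul (hT.dAt y) (dAt_of_cdAt (cd_gam (pos_of_ne ε hy))) i
    obtain ⟨C, hC0, hC⟩ := all_bd hK
    obtain ⟨D, hD0, hD⟩ := all_bd (sym_gam univ)
    refine ⟨C + (C + D) / t ^ 4, fun ε hε hε2 => ?_⟩
    have hN : ∀ y : E4, 0 < ‖y‖ ^ 2 + ε ^ 2 := fun y => by positivity
    have hS : ε ∈ Icc (0 : ℝ) 1 := ⟨hε.le, by linarith⟩
    have hp : 0 ≤ (C + D) / t ^ 4 := by positivity
    refine ⟨hT.mul_right (contDiff_iff_contDiffAt.2 fun y => cd_gam (hN y)), fun y =>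
      ⟨?_, ?_, fun hy => ⟨(hC ε hS y hy).1.trans ?_, (hC ε hS y hy).2.1.trans ?_⟩⟩⟩
    · by_cases hy : 2 * t ≤ ‖y‖
      · simp [KK, h.zero t ht y hy]
      · refine mul_nonneg (h.nonneg t y) ?_
        have h2 : log (‖y‖ ^ 2 + ε ^ 2) ≤ 0 :=
          log_nonpos (hN y).le (by nlinarith [norm_nonneg y])
        rw [gam, neg_mul, ← mul_neg]
        exact mul_nonneg (by positivity) (by linarith)
    · by_cases hy : ‖y‖ < t
      · have h2 : KK t ε =ᶠ[𝓝 y] gam ε := (h1 y hy).mono fun z hz => by simp [KK, hz]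
        rw [(lp_ev (lp_ev h2)).self_of_nhds, lp_lp_gam (hN y), h.one t ht y hy.le, one_mul,
          sub_self, abs_zero]
        positivity
      · have hy1 := not_lt.1 hy
        have hy0 : y ≠ 0 := norm_pos_iff.1 (ht.trans_le hy1)
        have h2 := (hC ε hS y hy0).2.2.2.2
        have h3 := (hD ε trivial y hy0).2.2.2.2
        rw [lp_lp_gam (hN y)] at h3
        have h4 : |chi t y * kk ε y| ≤ |kk ε y| := by
          rw [abs_mul, abs_of_nonneg (h.nonneg t y)]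
          exact mul_le_of_le_one_left (abs_nonneg _) (h.le_one t y)
        have h5 : (C + D) / ‖y‖ ^ 4 ≤ (C + D) / t ^ 4 := by gcongr
        have h6 := abs_sub (lp (lp (KK t ε)) y) (chi t y * kk ε y)
        rw [add_div] at h5
        linarith
    · gcongr
      linarith
    · gcongr
      linarith

end Pool.Agent.MP_417fa2_gt.Q2
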