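import Pool.Agent.MP_417fa2_gt.Q2.ESpec

/-! E8b. Translations and a Poincare inequality. -/

open scoped ContDiff Topology Pointwise
open MeasureTheory Set Metric Real Filter

namespace Pool.Agent.MP_417fa2_gt.Q2

namespace E8b

/-- Weighted Cauchy-Schwarz inequality. -/
theorem cs {α : Type} [MeasurableSpace α] {μ : Measure α} {k f : α → ℝ} (hk : ∀ x, 0 ≤ k x)
    (i0 : Integrable k μ) (i1 : Integrable (fun x => k x * f x) μ)
    (i2 : Integrable (fun x => k x * f x ^ 2) μ) :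
    (∫ x, k x * f x ∂μ) ^ 2 ≤ (∫ x, k x ∂μ) * ∫ x, k x * f x ^ 2 ∂μ := by
  have h : ∀ t : ℝ, 0 ≤ (∫ x, k x ∂μ) * (t * t) + (-2 * ∫ x, k x * f x ∂μ) * t
      + ∫ x, k x * f x ^ 2 ∂μ := by
    intro t
    have h1 : 0 ≤ ∫ x, (k x * (t * t) + -2 * (k x * f x) * t + k x * f x ^ 2) ∂μ :=
      integral_nonneg fun x => by
        have : k x * (t * t) + -2 * (k x * f x) * t + k x * f x ^ 2 = k x * (f x - t) ^ 2 := by
          ring
        simp only [Pi.zero_apply]
        rw [this]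
        exact mul_nonneg (hk x) (sq_nonneg _)
    have j1 : Integrable (fun x => k x * (t * t)) μ := i0.mul_const _
    have j2 : Integrable (fun x => -2 * (k x * f x) * t) μ := (i1.const_mul _).mul_const _
    have j3 : Integrable (fun x => k x * (t * t) + -2 * (k x * f x) * t) μ := j1.add j2
    rw [integral_add j3 i2, integral_add j1 j2, integral_mul_const, integral_mul_const,
      integral_const_mul] at h1
    exact h1
  have := discrim_le_zero h
  unfold discrim at this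
  nlinarith

theorem cs1 {α : Type} [MeasurableSpace α] {μ : Measure α} [IsFiniteMeasure μ] {f : α → ℝ}
    (i1 : Integrable f μ) (i2 : Integrable (fun x => f x ^ 2) μ) :
    (∫ x, f x ∂μ) ^ 2 ≤ μ.real univ * ∫ x, f x ^ 2 ∂μ := by
  have := cs (μ := μ) (k := fun _ => 1) (f := f) (fun _ => zero_le_one) (integrable_const _)
    (by simpa using i1) (by simpa using i2)
  simpa using this

theorem int_D1 {φ : E4 → ℝ} (hφ : Tst φ) : Integrable fun y => D1 φ y ^ 4 := by
  have h1 : Tst fun y => ∑ i, pd i φ y * pd i φ y :=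
    Tst.sum fun i _ => (hφ.pd i).mul_right (hφ.pd i).sm
  refine h1.integrable_sq.congr (Eventually.of_forall fun y => ?_)
  have h0 : 0 ≤ ∑ i, pd i φ y ^ 2 := Finset.sum_nonneg fun i _ => sq_nonneg _
  have h2 : D1 φ y ^ 4 = (D1 φ y ^ 2) ^ 2 := by ring
  have h3 : D1 φ y ^ 2 = ∑ i, pd i φ y ^ 2 := Real.sq_sqrt h0
  simp only
  rw [h2, h3]
  simp only [sq]

theorem fd_le (φ : E4 → ℝ) (z h : E4) : (fderiv ℝ φ z h) ^ 4 ≤ ‖h‖ ^ 4 * D1 φ z ^ 4 := by
  have h0 : 0 ≤ ∑ i, pd i φ z ^ 2 := Finset.sum_nonneg fun i _ => sq_nonneg _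
  have h1 : ‖fderiv ℝ φ z‖ ≤ D1 φ z := Real.le_sqrt_of_sq_le (EucA.norm_fderiv_sq_le φ z)
  have h2 : |fderiv ℝ φ z h| ≤ ‖h‖ * D1 φ z := by
    rw [← Real.norm_eq_abs, mul_comm]
    exact ((fderiv ℝ φ z).le_opNorm h).trans (mul_le_mul_of_nonneg_right h1 (norm_nonneg _))
  have h3 := pow_le_pow_left₀ (abs_nonneg _) h2 4
  rwa [mul_pow, Even.pow_abs (by decide)] at h3

theorem seg (hc : ChiFacts) {φ : E4 → ℝ} (hφ : Tst φ) (y h : E4) :
    (φ (y + h) - φ y) ^ 4 ≤ ‖h‖ ^ 4 * ∫ t in Ioc (0 : ℝ) 1, D1 φ (y + t • h) ^ 4 := by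
  have cD := (hc.D_cont φ hφ.sm).1
  have cf : Continuous fun t : ℝ => fderiv ℝ φ (y + t • h) h :=
    ((hφ.sm.continuous_fderiv (by simp)).comp (by fun_prop)).clm_apply continuous_const
  have hd : ∀ t : ℝ, HasDerivAt (fun t : ℝ => φ (y + t • h)) (fderiv ℝ φ (y + t • h) h) t := by
    intro t
    have h1 : HasDerivAt (fun t : ℝ => y + t • h) h t := by
      simpa using ((hasDerivAt_id t).smul_const h).const_add y
    exact (hφ.dAt _).hasFDerivAt.comp_hasDerivAt t h1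
  have e : (∫ t in Ioc (0 : ℝ) 1, fderiv ℝ φ (y + t • h) h) = φ (y + h) - φ y := by
    rw [← intervalIntegral.integral_of_le zero_le_one,
      intervalIntegral.integral_eq_sub_of_hasDerivAt (fun t _ => hd t)
        (cf.intervalIntegrable _ _)]
    simp
  have ii : ∀ {g : ℝ → ℝ}, Continuous g → IntegrableOn g (Ioc (0 : ℝ) 1) := fun hg =>
    hg.continuousOn.integrableOn_Icc.mono_set Ioc_subset_Icc_self
  have m1 : (volume.restrict (Ioc (0 : ℝ) 1)).real univ = 1 := by simp [Measure.real]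
  have a1 := cs1 (ii cf) (ii (cf.pow 2))
  have a2 := cs1 (ii (cf.pow 2)) (ii ((cf.pow 2).pow 2))
  rw [m1, one_mul] at a1 a2
  have a3 : (∫ t in Ioc (0 : ℝ) 1, (fderiv ℝ φ (y + t • h) h ^ 2) ^ 2)
      ≤ ∫ t in Ioc (0 : ℝ) 1, ‖h‖ ^ 4 * D1 φ (y + t • h) ^ 4 := by
    refine integral_mono (ii ((cf.pow 2).pow 2)) (ii (by fun_prop)) fun t => ?_
    have := fd_le φ (y + t • h) h
    simp only
    rwa [← pow_mul]
  rw [integral_const_mul] at a3
  rw [← e]
  calc (∫ t in Ioc (0 : ℝ) 1, fderiv ℝ φ (y + t • h) h) ^ 4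
      = ((∫ t in Ioc (0 : ℝ) 1, fderiv ℝ φ (y + t • h) h) ^ 2) ^ 2 := by ring
    _ ≤ (∫ t in Ioc (0 : ℝ) 1, fderiv ℝ φ (y + t • h) h ^ 2) ^ 2 :=
        pow_le_pow_left₀ (sq_nonneg _) a1 2
    _ ≤ _ := a2.trans a3

theorem tst_shift {φ : E4 → ℝ} (hφ : Tst φ) (h : E4) : Tst fun y => φ (y + h) - φ y := by
  refine Tst.sub ⟨hφ.sm.comp (contDiff_id.add contDiff_const), ?_⟩ hφ
  exact hφ.cs.comp_homeomorph (Homeomorph.addRight h)

theorem trans4 (hc : ChiFacts) {φ : E4 → ℝ} (hφ : Tst φ) (h : E4) :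
    ∫ y, (φ (y + h) - φ y) ^ 4 ≤ ‖h‖ ^ 4 * ∫ y, D1 φ y ^ 4 := by
  have cD := (hc.D_cont φ hφ.sm).1
  have iD := int_D1 hφ
  have hin : ∀ t : ℝ, ∫ y, D1 φ (y + t • h) ^ 4 = ∫ y, D1 φ y ^ 4 := fun t =>
    integral_add_right_eq_self (fun y => D1 φ y ^ 4) (t • h)
  have hI : Integrable (fun p : E4 × ℝ => D1 φ (p.1 + p.2 • h) ^ 4)
      (volume.prod (volume.restrict (Ioc (0 : ℝ) 1))) := by
    have hm : Continuous fun p : E4 × ℝ => D1 φ (p.1 + p.2 • h) ^ 4 := by fun_prop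
    rw [integrable_prod_iff' hm.aestronglyMeasurable]
    refine ⟨Eventually.of_forall fun t => iD.comp_add_right (t • h), ?_⟩
    have : (fun t : ℝ => ∫ y, ‖D1 φ (y + t • h) ^ 4‖) = fun _ => ∫ y, D1 φ y ^ 4 := by
      ext t
      rw [← hin t]
      congr 1
      ext y
      exact Real.norm_of_nonneg (by positivity)
    rw [this]
    exact integrable_const _
  have hs := integral_integral_swap (f := fun (y : E4) (t : ℝ) => D1 φ (y + t • h) ^ 4) hI
  simp only [hin] at hs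
  have e : (∫ _ in Ioc (0 : ℝ) 1, ∫ y, D1 φ y ^ 4) = ∫ y, D1 φ y ^ 4 := by simp
  rw [e] at hs
  rw [← hs, ← integral_const_mul]
  exact integral_mono (EucA.tst_int_pow (tst_shift hφ h) (by norm_num))
    (hI.integral_prod_left.const_mul _) fun y => seg hc hφ y h

theorem trans2 (hc : ChiFacts) {φ : E4 → ℝ} (hφ : Tst φ) (h : E4) :
    ∫ z in ball (0 : E4) 1, (φ (z + h) - φ z) ^ 2 ≤
      √(volume.real (ball (0 : E4) 1)) * √(∫ y, D1 φ y ^ 4) * ‖h‖ ^ 2 := by
  have hT := tst_shift hφ h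
  have : IsFiniteMeasure (volume.restrict (ball (0 : E4) 1)) :=
    isFiniteMeasure_restrict.mpr measure_ball_lt_top.ne
  have i4 : Integrable fun z => ((φ (z + h) - φ z) ^ 2) ^ 2 := by
    simpa only [← pow_mul] using EucA.tst_int_pow hT (n := 4) (by norm_num)
  have a1 := cs1 (μ := volume.restrict (ball (0 : E4) 1)) hT.integrable_sq.integrableOn
    i4.integrableOn
  have a2 : (∫ z in ball (0 : E4) 1, ((φ (z + h) - φ z) ^ 2) ^ 2)
      ≤ ∫ z, ((φ (z + h) - φ z) ^ 2) ^ 2 :=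
    setIntegral_le_integral i4 (Eventually.of_forall fun z => by positivity)
  have a3 : (∫ z, ((φ (z + h) - φ z) ^ 2) ^ 2) ≤ ‖h‖ ^ 4 * ∫ y, D1 φ y ^ 4 := by
    simpa only [← pow_mul] using trans4 hc hφ h
  have hN : 0 ≤ ∫ y, D1 φ y ^ 4 := integral_nonneg fun y => by positivity
  rw [measureReal_restrict_apply_univ] at a1
  refine (abs_le_of_sq_le_sq' ?_ (by positivity)).2
  rw [mul_pow, mul_pow, Real.sq_sqrt measureReal_nonneg, Real.sq_sqrt hN]
  calc _ ≤ _ := a1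
    _ ≤ volume.real (ball (0 : E4) 1) * (‖h‖ ^ 4 * ∫ y, D1 φ y ^ 4) :=
        mul_le_mul_of_nonneg_left (a2.trans a3) measureReal_nonneg
    _ = _ := by ring

theorem vol_pos (r : ℝ) (hr : 0 < r) : 0 < volume.real (ball (0 : E4) r) :=
  ENNReal.toReal_pos (measure_ball_pos _ _ hr).ne' measure_ball_lt_top.ne

/-- The weighted Poincare inequality. -/
theorem wpoin (hc : ChiFacts) {k W : E4 → ℝ} (k0 : ∀ y, 0 ≤ k y) (ik : Integrable k)
    (W0 : ∀ y, 0 ≤ W y) (iW : Integrable W) (iW2 : Integrable fun h => W h * ‖h‖ ^ 2)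
    (hkW : ∀ z ∈ ball (0 : E4) 1, ∀ h, k (z + h) ≤ W h) :
    ∃ C : ℝ, 0 ≤ C ∧ ∀ φ, Tst φ →
      ∫ y, k y * (φ y - ⨍ z in ball (0 : E4) 1, φ z) ^ 2 ≤ C * √(∫ y, D1 φ y ^ 4) := by
  set V := volume.real (ball (0 : E4) 1) with hV
  have hVp : 0 < V := vol_pos 1 one_pos
  have hW2 : 0 ≤ ∫ h, W h * ‖h‖ ^ 2 := integral_nonneg fun h => mul_nonneg (W0 h) (sq_nonneg _)
  refine ⟨V⁻¹ * √V * ∫ h, W h * ‖h‖ ^ 2, by positivity, fun φ hφ => ?_⟩
  have : IsFiniteMeasure (volume.restrict (ball (0 : E4) 1)) :=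
    isFiniteMeasure_restrict.mpr measure_ball_lt_top.ne
  have cφ := hφ.continuous
  obtain ⟨B, hB⟩ := cφ.bounded_above_of_compact_support hφ.cs
  have hb : ∀ x x', ‖(φ x - φ x') ^ 2‖ ≤ (2 * B) ^ 2 := by
    intro x x'
    rw [norm_pow]
    refine pow_le_pow_left₀ (norm_nonneg _) ((norm_sub_le _ _).trans ?_) 2
    linarith [hB x, hB x']
  -- pointwise Jensen
  have p1 : ∀ y, (φ y - ⨍ z in ball (0 : E4) 1, φ z) ^ 2
      ≤ V⁻¹ * ∫ z in ball (0 : E4) 1, (φ y - φ z) ^ 2 := by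
    intro y
    have j1 : Integrable (fun z => φ y - φ z) (volume.restrict (ball (0 : E4) 1)) :=
      (integrable_const _).sub hφ.integrable.integrableOn
    have j2 : Integrable (fun z => (φ y - φ z) ^ 2) (volume.restrict (ball (0 : E4) 1)) :=
      Integrable.of_bound (by fun_prop) _ (Eventually.of_forall fun z => hb y z)
    have a1 := cs1 j1 j2
    rw [integral_sub (integrable_const _) hφ.integrable.integrableOn, integral_const,
      measureReal_restrict_apply_univ, ← hV, smul_eq_mul] at a1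
    rw [setAverage_eq, ← hV, smul_eq_mul]
    have e : φ y - V⁻¹ * ∫ z in ball (0 : E4) 1, φ z
        = V⁻¹ * (V * φ y - ∫ z in ball (0 : E4) 1, φ z) := by
      field_simp
    rw [e, mul_pow]
    calc V⁻¹ ^ 2 * (V * φ y - ∫ z in ball (0 : E4) 1, φ z) ^ 2
        ≤ V⁻¹ ^ 2 * (V * ∫ z in ball (0 : E4) 1, (φ y - φ z) ^ 2) :=
          mul_le_mul_of_nonneg_left a1 (by positivity)
      _ = _ := by field_simp
  have I1 : Integrable (fun p : E4 × E4 => k p.1 * (φ p.1 - φ p.2) ^ 2)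
      (volume.prod (volume.restrict (ball (0 : E4) 1))) := by
    have := (Integrable.mul_prod ik (integrable_const (1 : ℝ)
      (μ := volume.restrict (ball (0 : E4) 1)))).mul_bdd
      (g := fun p : E4 × E4 => (φ p.1 - φ p.2) ^ 2) (by fun_prop)
      (Eventually.of_forall fun p => hb p.1 p.2)
    simpa only [mul_one] using this
  have I2 : Integrable (fun p : E4 × E4 => W p.1 * (φ (p.2 + p.1) - φ p.2) ^ 2)
      (volume.prod (volume.restrict (ball (0 : E4) 1))) := by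
    have := (Integrable.mul_prod iW (integrable_const (1 : ℝ)
      (μ := volume.restrict (ball (0 : E4) 1)))).mul_bdd
      (g := fun p : E4 × E4 => (φ (p.2 + p.1) - φ p.2) ^ 2) (by fun_prop)
      (Eventually.of_forall fun p => hb _ p.2)
    simpa only [mul_one] using this
  have s1 := integral_integral_swap (f := fun (y z : E4) => k y * (φ y - φ z) ^ 2) I1
  have s2 := integral_integral_swap (f := fun (h z : E4) => W h * (φ (z + h) - φ z) ^ 2) I2
  have q1 : (∫ y, k y * (φ y - ⨍ z in ball (0 : E4) 1, φ z) ^ 2)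
      ≤ ∫ y, V⁻¹ * ∫ z in ball (0 : E4) 1, k y * (φ y - φ z) ^ 2 := by
    refine integral_mono_of_nonneg (Eventually.of_forall fun y =>
      mul_nonneg (k0 y) (sq_nonneg _)) (I1.integral_prod_left.const_mul _)
      (Eventually.of_forall fun y => ?_)
    simp only
    rw [integral_const_mul, mul_left_comm]
    exact mul_le_mul_of_nonneg_left (p1 y) (k0 y)
  have q2 : (∫ z in ball (0 : E4) 1, ∫ y, k y * (φ y - φ z) ^ 2)
      ≤ ∫ z in ball (0 : E4) 1, ∫ h, W h * (φ (z + h) - φ z) ^ 2 := by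
    refine integral_mono_ae I1.integral_prod_right I2.integral_prod_right ?_
    filter_upwards [ae_restrict_mem measurableSet_ball] with z hz
    rw [← integral_add_left_eq_self (fun y => k y * (φ y - φ z) ^ 2) z]
    refine integral_mono_of_nonneg (Eventually.of_forall fun y =>
      mul_nonneg (k0 _) (sq_nonneg _)) ?_ (Eventually.of_forall fun h =>
        mul_le_mul_of_nonneg_right (hkW z hz h) (sq_nonneg _))
    exact iW.mul_bdd (by fun_prop) (Eventually.of_forall fun h => hb _ z)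
  have q3 : (∫ h, ∫ z in ball (0 : E4) 1, W h * (φ (z + h) - φ z) ^ 2)
      ≤ ∫ h, √V * √(∫ y, D1 φ y ^ 4) * (W h * ‖h‖ ^ 2) := by
    refine integral_mono I2.integral_prod_left (iW2.const_mul _) fun h => ?_
    simp only
    rw [integral_const_mul]
    calc W h * ∫ z in ball (0 : E4) 1, (φ (z + h) - φ z) ^ 2
        ≤ W h * (√V * √(∫ y, D1 φ y ^ 4) * ‖h‖ ^ 2) :=
          mul_le_mul_of_nonneg_left (trans2 hc hφ h) (W0 h)
      _ = _ := by ring
  rw [integral_const_mul, s1] at q1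
  rw [integral_const_mul, s2] at q3
  calc _ ≤ _ := q1
    _ ≤ V⁻¹ * (√V * √(∫ y, D1 φ y ^ 4) * ∫ h, W h * ‖h‖ ^ 2) :=
        mul_le_mul_of_nonneg_left (q2.trans q3) (by positivity)
    _ = _ := by ring

theorem part2 (hc : ChiFacts) : ∃ C : ℝ, ∀ φ, Tst φ →
    ∫ y in ball (0 : E4) 4, (φ y - ⨍ z in ball (0 : E4) 1, φ z) ^ 2 ≤ C * √(∫ y, D1 φ y ^ 4) := by
  have i1 : ∀ r : ℝ, Integrable (indicator (ball (0 : E4) r) fun _ => (1 : ℝ)) := fun r =>
    (integrable_indicator_iff measurableSet_ball).mpr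
      (integrableOn_const measure_ball_lt_top.ne)
  have n1 : ∀ (r : ℝ) (y : E4), 0 ≤ indicator (ball (0 : E4) r) (fun _ => (1 : ℝ)) y :=
    fun r y => indicator_nonneg (fun _ _ => zero_le_one) y
  obtain ⟨C, -, hC⟩ := wpoin hc (n1 4) (i1 4) (n1 5) (i1 5) (by
      have : (fun h : E4 => indicator (ball (0 : E4) 5) (fun _ => (1 : ℝ)) h * ‖h‖ ^ 2)
          = indicator (ball (0 : E4) 5) fun h => ‖h‖ ^ 2 := by
        ext h
        by_cases hh : h ∈ ball (0 : E4) 5 <;> simp [hh]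
      rw [this, integrable_indicator_iff measurableSet_ball]
      have hc : Continuous fun h : E4 => ‖h‖ ^ 2 := by fun_prop
      exact (hc.continuousOn.integrableOn_compact (isCompact_closedBall 0 5)).mono_set
        ball_subset_closedBall) (by
      intro z hz h
      by_cases hh : z + h ∈ ball (0 : E4) 4
      · have : h ∈ ball (0 : E4) 5 := by
          rw [mem_ball_zero_iff] at *
          have : ‖h‖ ≤ ‖z + h‖ + ‖z‖ := by
            simpa using norm_sub_le (z + h) z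
          linarith
        rw [indicator_of_mem hh, indicator_of_mem this]
      · rw [indicator_of_notMem hh]
        exact n1 5 h)
  refine ⟨C, fun φ hφ => ?_⟩
  have := hC φ hφ
  rw [← integral_indicator measurableSet_ball]
  convert this using 2
  ext y
  by_cases hh : y ∈ ball (0 : E4) 4 <;> simp [hh]

theorem kk_nonneg (r : ℝ) (y : E4) : 0 ≤ kk r y := by unfold kk; positivity

theorem part3one (hc : ChiFacts) (h2 : KkFacts) : ∃ C : ℝ, ∀ φ, Tst φ →
    |(∫ y, kk 1 y * φ y) - ⨍ z in ball (0 : E4) 1, φ z| ≤ C * √(√(∫ y, D1 φ y ^ 4)) := by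
  obtain ⟨ik, mk⟩ := h2.int 1 one_pos
  have i6 : Integrable fun x : E4 => ((1 : ℝ) + ‖x‖ ^ 2) ^ (-(6 : ℝ) / 2) :=
    integrable_rpow_neg_one_add_norm_sq (by simp; norm_num)
  have ck : Continuous (kk 1) := by
    unfold kk
    exact continuous_const.div (by fun_prop) fun y => by positivity
  obtain ⟨C, hC0, hC⟩ := wpoin hc (k := kk 1) (W := fun h => 81 * kk 1 h) (kk_nonneg 1) ik
    (fun y => mul_nonneg (by norm_num) (kk_nonneg 1 y)) (ik.const_mul _) (by
      refine (i6.const_mul (81 * (6 / π ^ 2))).mono' (by fun_prop)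
        (Eventually.of_forall fun x => ?_)
      have hx : 0 < 1 + ‖x‖ ^ 2 := by positivity
      have e : ((1 : ℝ) + ‖x‖ ^ 2) ^ (-(6 : ℝ) / 2) = ((1 + ‖x‖ ^ 2) ^ 3)⁻¹ := by
        rw [show (-(6 : ℝ) / 2) = -((3 : ℕ) : ℝ) by norm_num, Real.rpow_neg hx.le,
          Real.rpow_natCast]
      rw [Real.norm_of_nonneg (mul_nonneg (mul_nonneg (by norm_num) (kk_nonneg 1 x))
        (sq_nonneg _)), e]
      unfold kk
      have e2 : 81 * (6 * 1 ^ 4 / (π ^ 2 * (‖x‖ ^ 2 + 1 ^ 2) ^ 4)) * ‖x‖ ^ 2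
          = 81 * (6 / π ^ 2) * ((1 + ‖x‖ ^ 2) ^ 3)⁻¹ * (‖x‖ ^ 2 / (1 + ‖x‖ ^ 2)) := by
        have := pi_pos
        field_simp
        ring
      rw [e2]
      exact mul_le_of_le_one_right (by positivity) ((div_le_one hx).mpr (by linarith))) (by
      intro z hz h
      rw [mem_ball_zero_iff] at hz
      have h1 : ‖h‖ ≤ ‖z + h‖ + ‖z‖ := by simpa using norm_sub_le (z + h) z
      have h3 : ‖h‖ ^ 2 + 1 ^ 2 ≤ 3 * (‖z + h‖ ^ 2 + 1 ^ 2) := by
        have h4 : ‖h‖ ^ 2 ≤ (‖z + h‖ + 1) ^ 2 :=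
          pow_le_pow_left₀ (norm_nonneg _) (by linarith) 2
        nlinarith [sq_nonneg (‖z + h‖ - 1), sq_nonneg ‖z + h‖]
      have h5 := pow_le_pow_left₀ (by positivity) h3 4
      unfold kk
      have := pi_pos
      rw [← mul_div_assoc, div_le_div_iff₀ (by positivity) (by positivity)]
      have h6 : 0 < π ^ 2 := by positivity
      nlinarith [mul_le_mul_of_nonneg_left h5 h6.le])
  refine ⟨√C, fun φ hφ => ?_⟩
  set m := ⨍ z in ball (0 : E4) 1, φ z with hm
  have cφ := hφ.continuous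
  obtain ⟨B, hB⟩ := cφ.bounded_above_of_compact_support hφ.cs
  have hb : ∀ y, ‖φ y - m‖ ≤ B + ‖m‖ := fun y => (norm_sub_le _ _).trans (by linarith [hB y])
  have j0 : Integrable fun y => kk 1 y * φ y :=
    ik.mul_bdd cφ.aestronglyMeasurable (Eventually.of_forall hB)
  have j1 : Integrable fun y => kk 1 y * (φ y - m) :=
    ik.mul_bdd (by fun_prop) (Eventually.of_forall hb)
  have j2 : Integrable fun y => kk 1 y * (φ y - m) ^ 2 :=
    ik.mul_bdd (c := (B + ‖m‖) ^ 2) (by fun_prop) (Eventually.of_forall fun y => by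
      rw [norm_pow]; exact pow_le_pow_left₀ (norm_nonneg _) (hb y) 2)
  have a1 := cs (kk_nonneg 1) ik j1 j2
  have e : (∫ y, kk 1 y * (φ y - m)) = (∫ y, kk 1 y * φ y) - m := by
    simp only [mul_sub]
    rw [integral_sub j0 (ik.mul_const m), integral_mul_const, mk, one_mul]
  rw [mk, one_mul, e] at a1
  rw [← Real.sqrt_mul hC0]
  exact Real.abs_le_sqrt (a1.trans (hC φ hφ))

theorem part3 (hc : ChiFacts) (h2 : KkFacts) : ∃ C : ℝ, ∀ r : ℝ, 0 < r → ∀ φ, Tst φ →
    |(∫ y, kk r y * φ y) - ⨍ z in ball (0 : E4) r, φ z| ≤ C * √(√(∫ y, D1 φ y ^ 4)) := by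
  obtain ⟨C, hC⟩ := part3one hc h2
  refine ⟨C, fun r hr φ hφ => ?_⟩
  have hT : Tst fun y => φ (r • y) :=
    ⟨hφ.sm.comp (contDiff_const_smul r), hφ.cs.comp_smul hr.ne'⟩
  have hfr : Module.finrank ℝ E4 = 4 := by simp
  have e1 : (∫ y, kk 1 y * φ (r • y)) = ∫ y, kk r y * φ y := by
    have h1 := Measure.integral_comp_smul_of_nonneg volume (fun y : E4 => kk r y * φ y) r
      (hR := hr.le)
    have h3 : ∀ y : E4, kk r (r • y) * φ (r • y) = (r ^ 4)⁻¹ * (kk 1 y * φ (r • y)) := by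
      intro y
      unfold kk
      rw [norm_smul, Real.norm_of_nonneg hr.le]
      have := pi_pos
      have e : (r * ‖y‖) ^ 2 + r ^ 2 = r ^ 2 * (‖y‖ ^ 2 + 1 ^ 2) := by ring
      rw [e]
      field_simp
    simp only [h3] at h1
    rw [integral_const_mul, hfr, smul_eq_mul] at h1
    exact mul_left_cancel₀ (by positivity) h1
  have e2 : (⨍ z in ball (0 : E4) 1, φ (r • z)) = ⨍ z in ball (0 : E4) r, φ z := by
    have h1 := Measure.setIntegral_comp_smul_of_pos volume φ (ball (0 : E4) 1) hr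
    have h3 : r • ball (0 : E4) 1 = ball 0 r := by
      rw [smul_unitBall_of_pos hr]
    have h4 : volume.real (ball (0 : E4) r) = r ^ 4 * volume.real (ball (0 : E4) 1) := by
      rw [Measure.real, Measure.addHaar_ball_of_pos volume (0 : E4) hr, hfr, ENNReal.toReal_mul,
        ENNReal.toReal_ofReal (by positivity), Measure.real]
    rw [setAverage_eq, setAverage_eq, h1, h3, h4, hfr]
    have := vol_pos 1 one_pos
    simp only [smul_eq_mul]
    field_simp
  have e3 : (∫ y, D1 (fun z => φ (r • z)) y ^ 4) = ∫ y, D1 φ y ^ 4 := by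
    have h1 := Measure.integral_comp_smul_of_nonneg volume (fun y : E4 => D1 φ y ^ 4) r
      (hR := hr.le)
    simp only [fun y => (hc.D_scale r φ hr hφ.sm y).1, mul_pow]
    rw [integral_const_mul, h1, hfr, smul_eq_mul]
    field_simp
  have := hC _ hT
  rwa [e1, e2, e3] at this

end E8b

theorem transStmt (h : ChiFacts) (h2 : KkFacts) : TransStmt :=
  ⟨fun _ hφ v => E8b.trans4 h hφ v, E8b.part2 h, E8b.part3 h h2⟩

end Pool.Agent.MP_417fa2_gt.Q2
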