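import Pool.Agent.MP_417fa2_gt.Q2.E7

/-! The energy of the test function and the comparison with the mean over a ball. -/

open scoped ContDiff Topology
open MeasureTheory Set Metric Real Filter

namespace Pool.Agent.MP_417fa2_gt.Q2

open DE (lp)

namespace E9

variable {u v : E4 → ℝ}

theorem lp_symm (U : Tst u) (V : Tst v) : ∫ y, lp u y * v y = ∫ y, u y * lp v y := by
  simp only [DE.lp, Finset.sum_mul, Finset.mul_sum]
  rw [integral_finsetSum _ fun a _ => ((U.pd a).pd a).integrable_mul V,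
    integral_finsetSum _ fun a _ => U.integrable_mul ((V.pd a).pd a)]
  refine Finset.sum_congr rfl fun a _ => ?_
  have h1 := DE.ibp (U.pd a) V a
  have h2 := DE.ibp U (V.pd a) a
  linarith

theorem cs (U : Tst u) (V : Tst v) {A : ℝ} (hA : eN 0 u ≤ A) :
    |∫ y, u y * v y| ≤ (A + 1) * √(eN 0 v) := by
  have hA0 : 0 ≤ A := (eN_nonneg 0 u).trans hA
  have hB := eN_nonneg 0 v
  have hs := sqrt_nonneg (eN 0 v)
  refine le_of_forall_pos_le_add fun δ hδ => ?_
  have hd : 0 < δ / (A + 1) := by positivity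
  have hτ : 0 < √(eN 0 v) + δ / (A + 1) := by positivity
  refine (DE.amgm U V hτ).trans ?_
  have h1 : eN 0 v / (4 * (√(eN 0 v) + δ / (A + 1))) ≤ √(eN 0 v) := by
    rw [div_le_iff₀ (by positivity)]
    nlinarith [mul_self_sqrt hB]
  have h2 : δ / (A + 1) * A ≤ δ := by
    rw [div_mul_eq_mul_div, div_le_iff₀ (by positivity)]
    nlinarith
  have h3 := mul_le_mul_of_nonneg_left hA hτ.le
  nlinarith

theorem int_D1 (U : Tst u) : ∫ y, D1 u y ^ 2 = DE.G u := by
  have h : ∀ y, D1 u y ^ 2 = ∑ i, pd i u y ^ 2 := fun y =>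
    sq_sqrt (Finset.sum_nonneg fun _ _ => sq_nonneg _)
  simp only [h]
  rw [integral_finsetSum _ fun a _ => (U.pd a).integrable_sq]
  rfl

theorem cd_kk {r : ℝ} (hr : 0 < r) : ContDiff ℝ ∞ (kk r) :=
  contDiff_const.div (contDiff_const.mul ((E7.cd_N r).pow 4)) fun y => by positivity

/-- The error of the cut-off kernel. -/
noncomputable def er (t r : ℝ) (y : E4) : ℝ := lp (lp (KK t r)) y - chi t y * kk r y

theorem er_bd (h : ChiFacts) (h2 : GamFacts) {t : ℝ} (ht : 0 < t) (ht4 : t ≤ 1 / 4) :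
    ∃ A : ℝ, ∀ r : ℝ, 0 < r → r ≤ t → Tst (KK t r) ∧ (∀ y, 0 ≤ KK t r y) ∧ Tst (er t r) ∧
      eN 0 (er t r) ≤ A ∧ ∀ φ, Tst φ → ∫ y, lp (KK t r) y * lp φ y =
        (∫ y, kk r y * (chi t y * φ y)) + ∫ y, er t r y * φ y := by
  obtain ⟨C, hC⟩ := h2.cutoff t ht ht4
  have hT2 := h.tst (2 * t) (by positivity)
  refine ⟨∫ y, C ^ 2 * chi (2 * t) y, fun r hr hrt => ?_⟩
  obtain ⟨hK, hb⟩ := hC r hr (by linarith)
  have hck : Tst fun y => chi t y * kk r y := (h.tst t ht).mul_right (cd_kk hr)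
  have hE : Tst (er t r) := (DE.tst_lp (DE.tst_lp hK)).sub hck
  refine ⟨hK, fun y => (hb y).1, hE, ?_, fun φ hφ => ?_⟩
  · refine integral_mono hE.integrable_sq (hT2.integrable.const_mul _) fun y => ?_
    by_cases hy : ‖y‖ ≤ 2 * t
    · simp only [h.one (2 * t) (by positivity) y hy, mul_one]
      exact sq_le_sq' (abs_le.1 (hb y).2.1).1 (abs_le.1 (hb y).2.1).2
    · have hy' := not_le.1 hy
      have h0 : KK t r =ᶠ[𝓝 y] fun _ => 0 :=
        (continuous_norm.continuousAt.eventually (lt_mem_nhds hy')).mono fun z hz => by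
          simp [KK, h.zero t ht z hz.le]
      have h1 : ∀ a, pd a (fun _ : E4 => (0 : ℝ)) = fun _ => 0 := fun a => funext (pd_const a 0)
      have h3 : lp (fun _ : E4 => (0 : ℝ)) = fun _ => 0 := by
        funext z
        simp [DE.lp, h1]
      have h4 : er t r y = 0 := by
        rw [er, (E7.lp_ev (E7.lp_ev h0)).self_of_nhds, h3, h3, h.zero t ht y hy'.le]
        simp
      simp only [h4]
      have := h.nonneg (2 * t) y
      nlinarith [sq_nonneg C]
  · have hi : Integrable fun y => kk r y * (chi t y * φ y) :=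
      ((hφ.mul_left (h.tst t ht).sm).mul_left (cd_kk hr)).integrable
    rw [← lp_symm (DE.tst_lp hK) hφ, ← integral_add hi (hE.integrable_mul hφ)]
    exact integral_congr_ae (Eventually.of_forall fun y => by simp only [er]; ring)

end E9

open E9 in
theorem testFacts (h : ChiFacts) (h2 : GamFacts) (h3 : KkFacts) (h4 : TransStmt) : TestFacts where
  en t ht ht4 := by
    obtain ⟨A, hA⟩ := er_bd h h2 ht ht4
    have hM := (h3.fund t ht ht4).2.1.integrable_sq
    obtain ⟨M, hMd⟩ : ∃ M, M = ∫ y, KK t 0 y ^ 2 := ⟨_, rfl⟩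
    have hM0 : 0 ≤ M := hMd ▸ integral_nonneg fun _ => sq_nonneg _
    refine ⟨2 * M + 2 * (|A + 1| * √M) + 1, fun r hr hrt => ?_⟩
    obtain ⟨hK, hK0, hE, hEA, hI⟩ := hA r hr hrt
    have hc : (0 : ℝ) < 1 / (16 * π ^ 2) := by positivity
    have hL : 0 ≤ log r⁻¹ := log_nonneg ((one_le_inv₀ hr).2 (by linarith))
    have h0 : eN 0 (KK t r) ≤ M := by
      rw [hMd]
      refine integral_mono_ae hK.integrable_sq hM ?_
      filter_upwards [compl_mem_ae_iff.2 (measure_singleton (0 : E4))] with y hy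
      refine pow_le_pow_left₀ (hK0 y) (mul_le_mul_of_nonneg_left ?_ (h.nonneg t y)) 2
      have h5 := log_le_log (E7.pos_of_ne 0 hy)
        (show ‖y‖ ^ 2 + 0 ^ 2 ≤ ‖y‖ ^ 2 + r ^ 2 by nlinarith [sq_nonneg r])
      exact mul_le_mul_of_nonpos_left h5 (neg_nonpos.2 hc.le)
    have h1 : ∫ y, kk r y * (chi t y * KK t r y) ≤ log r⁻¹ / (8 * π ^ 2) := by
      have hi : Integrable fun y => kk r y * (chi t y * KK t r y) :=
        ((hK.mul_left (h.tst t ht).sm).mul_left (cd_kk hr)).integrable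
      refine (integral_mono hi ((h3.int r hr).1.mul_const (log r⁻¹ / (8 * π ^ 2))) fun y => ?_).trans
        (by rw [integral_mul_const, (h3.int r hr).2, one_mul])
      refine mul_le_mul_of_nonneg_left ?_ (by simp only [kk]; positivity)
      refine (mul_le_of_le_one_left (hK0 y) (h.le_one t y)).trans ?_
      have h5 := log_le_log (pow_pos hr 2)
        (show r ^ 2 ≤ ‖y‖ ^ 2 + r ^ 2 by nlinarith [sq_nonneg ‖y‖])
      rw [log_pow] at h5
      have h6 : gam r y ≤ log r⁻¹ / (8 * π ^ 2) := by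
        have e : log r⁻¹ / (8 * π ^ 2) = 1 / (16 * π ^ 2) * (-(2 * log r)) := by
          rw [log_inv]; field_simp; ring
        rw [e, gam]
        push_cast at h5
        nlinarith
      refine (mul_le_mul_of_nonneg_left h6 (h.nonneg t y)).trans ?_
      exact mul_le_of_le_one_left (by positivity) (h.le_one t y)
    have h5 : |∫ y, er t r y * KK t r y| ≤ |A + 1| * √M :=
      (cs hE hK hEA).trans
        (mul_le_mul (le_abs_self _) (sqrt_le_sqrt h0) (sqrt_nonneg _) (abs_nonneg _))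
    have h6 : ∫ y, lp (KK t r) y ^ 2 ≤ log r⁻¹ / (8 * π ^ 2) + |A + 1| * √M := by
      simp only [sq (lp (KK t r) _)]
      rw [hI _ hK]
      exact add_le_add h1 ((le_abs_self _).trans h5)
    have hp : 0 ≤ |A + 1| * √M := by positivity
    refine ⟨h6.trans (by linarith), ?_⟩
    have h7 := DE.amgm (DE.tst_lp hK) hK one_pos
    rw [DE.int_lp hK, abs_neg, abs_of_nonneg (DE.G_nonneg _), eN_zero (lp _)] at h7
    rw [h.eN2 _ hK, h.hess _ hK, int_D1 hK, ← eN_zero]
    have h8 : log r⁻¹ / (8 * π ^ 2) ≤ log r⁻¹ / 2 :=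
      div_le_div_of_nonneg_left hL two_pos (by nlinarith [pi_gt_three])
    nlinarith [mul_nonneg hM0 hL, mul_nonneg hp hL]
  avg t ht ht4 := by
    obtain ⟨A, hA⟩ := er_bd h h2 ht ht4
    obtain ⟨C, hC⟩ := h4.2.2
    obtain ⟨C4, hC4⟩ := h.l4
    obtain ⟨C5, hC5⟩ := h.mul_eN _ (h.tst t ht)
    refine ⟨|C| * (√(√|C4|) * √|C5|) + |A + 1|, fun r hr hrt φ hφ => ?_⟩
    obtain ⟨-, -, hE, hEA, hI⟩ := hA r hr hrt
    have hψ : Tst fun y => chi t y * φ y := hφ.mul_left (h.tst t ht).sm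
    have hE2 := eN_nonneg 2 φ
    have h1 : ⨍ y in ball (0 : E4) r, φ y = ⨍ y in ball (0 : E4) r, chi t y * φ y := by
      simp only [setAverage_eq]
      congr 1
      refine setIntegral_congr_fun measurableSet_ball fun y hy => ?_
      simp only [h.one t ht y ((mem_ball_zero_iff.1 hy).le.trans hrt), one_mul]
    have h5 : |∫ y, er t r y * φ y| ≤ |A + 1| * √(eN 2 φ) :=
      (cs hE hφ hEA).trans (mul_le_mul (le_abs_self _)
        (sqrt_le_sqrt (eN_mono (by norm_num) φ)) (sqrt_nonneg _) (abs_nonneg _))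
    have h6 : eN 2 (fun y => chi t y * φ y) ≤ |C5| * eN 2 φ :=
      (hC5 φ hφ).trans (mul_le_mul_of_nonneg_right (le_abs_self _) hE2)
    have h7 : ∫ y, D1 (fun y => chi t y * φ y) y ^ 4 ≤ |C4| * (|C5| * eN 2 φ) ^ 2 :=
      (hC4 _ hψ).trans (mul_le_mul (le_abs_self _) (pow_le_pow_left₀ (eN_nonneg _ _) h6 2)
        (sq_nonneg _) (abs_nonneg _))
    have h8 : √(√(∫ y, D1 (fun y => chi t y * φ y) y ^ 4)) ≤ √(√|C4|) * √|C5| * √(eN 2 φ) := by
      refine (sqrt_le_sqrt (sqrt_le_sqrt h7)).trans_eq ?_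
      rw [sqrt_mul (abs_nonneg _), sqrt_sq (by positivity), sqrt_mul (sqrt_nonneg _),
        sqrt_mul (abs_nonneg _), mul_assoc]
    have h9 := (hC r hr _ hψ).trans
      (mul_le_mul (le_abs_self C) h8 (sqrt_nonneg _) (abs_nonneg _))
    rw [hI φ hφ, h1, add_sub_right_comm]
    refine (abs_add_le _ _).trans ?_
    linarith

end Pool.Agent.MP_417fa2_gt.Q2
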