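import Pool.Agent.MP_417fa2_gt.Q2.Defs

/-! Statements of the Euclidean layer: block metrics, kernels, tubes, the Pohozaev argument. -/

open scoped ContDiff Topology
open MeasureTheory Set Metric Real Filter

namespace Pool.Agent.MP_417fa2_gt.Q2

open DE (lp)

/-- Smooth near a point. -/
def SmAt (f : E4 → ℝ) (y : E4) : Prop := ∀ᶠ z in 𝓝 y, ContDiffAt ℝ ∞ f z

theorem SmAt.at {f : E4 → ℝ} {y : E4} (h : SmAt f y) : ContDiffAt ℝ ∞ f y := h.self_of_nhds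

theorem SmAt.ex {f : E4 → ℝ} {y : E4} (h : SmAt f y) :
    ∃ U, IsOpen U ∧ y ∈ U ∧ ContDiffOn ℝ ∞ f U := by
  obtain ⟨U, h1, h2, h3⟩ := _root_.eventually_nhds_iff.1 h
  exact ⟨U, h2, h3, fun z hz => (h1 z hz).contDiffWithinAt⟩

theorem smAt_of_on {f : E4 → ℝ} {y : E4} {U : Set E4} (hU : IsOpen U) (hy : y ∈ U)
    (h : ContDiffOn ℝ ∞ f U) : SmAt f y :=
  _root_.eventually_nhds_iff.2 ⟨U, fun _ hz => h.contDiffAt (hU.mem_nhds hz), hU, hy⟩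

theorem smAt_of {f : E4 → ℝ} (h : ContDiff ℝ ∞ f) (y : E4) : SmAt f y :=
  Eventually.of_forall fun _ => h.contDiffAt

/-- E1a. Coordinates, rotations and block matrices. -/
structure CoFacts : Prop where
  nsq : ∀ y : E4, ‖y‖ ^ 2 = zsq y + wsq y
  zsq_eq : ∀ y : E4, zsq y = ‖zc y‖ ^ 2
  wsq_eq : ∀ y : E4, wsq y = ‖wc y‖ ^ 2
  mk_zw : ∀ y : E4, mkE (zc y) (wc y) = y
  zc_mk : ∀ z w, zc (mkE z w) = z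
  wc_mk : ∀ z w, wc (mkE z w) = w
  rot_iso : ∀ u₁ u₂ : ℂ, ‖u₁‖ = 1 → ‖u₂‖ = 1 → ∃ e : E4 ≃ₗᵢ[ℝ] E4, ∀ y, e y = rot u₁ u₂ y
  rot_z : ∀ u₁ u₂ : ℂ, ‖u₁‖ = 1 → ∀ y, zsq (rot u₁ u₂ y) = zsq y
  rot_w : ∀ u₁ u₂ : ℂ, ‖u₂‖ = 1 → ∀ y, wsq (rot u₁ u₂ y) = wsq y
  rot_blk : ∀ u₁ u₂ : ℂ, ‖u₁‖ = 1 → ‖u₂‖ = 1 → ∀ (f h f' h' : E4 → ℝ) (y : E4),
    f y = f' (rot u₁ u₂ y) → h y = h' (rot u₁ u₂ y) →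
    blk f h y = (jac (rot u₁ u₂) y).transpose * blk f' h' (rot u₁ u₂ y) * jac (rot u₁ u₂) y
  nice : ∀ (f h : E4 → ℝ) (U : Set E4), IsOpen U → ContDiffOn ℝ ∞ f U → ContDiffOn ℝ ∞ h U →
    Nice (blk f h) U
  dens_blk : ∀ (f h : E4 → ℝ) (y : E4), dens (blk f h) y = exp (2 * f y + 2 * h y)
  f0_sm : ContDiffOn ℝ ∞ f0 (ball 0 1)
  h0_sm : ContDiffOn ℝ ∞ h0 (ball 0 1)
  rh_bd : ∀ y : E4, ‖y‖ < r0 → 1 ≤ rh y ∧ rh y ≤ 2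
  s0_bd : ∃ C : ℝ, ∀ y : E4, ‖y‖ ≤ r0 → |f0 y| ≤ C * ‖y‖ ^ 2 ∧ |h0 y| ≤ C * ‖y‖ ^ 2 ∧
    |s0 y| ≤ C * ‖y‖ ^ 2 ∧ |s0 y| ≤ 1 / 10 ∧ D1 s0 y ≤ C * ‖y‖ ∧ D2 s0 y ≤ C

/-- E1b. Cut-offs and the sizes of derivatives. -/
structure ChiFacts : Prop where
  tst : ∀ t : ℝ, 0 < t → Tst (chi t)
  nonneg : ∀ t y, 0 ≤ chi t y
  le_one : ∀ t y, chi t y ≤ 1
  one : ∀ t : ℝ, 0 < t → ∀ y : E4, ‖y‖ ≤ t → chi t y = 1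
  zero : ∀ t : ℝ, 0 < t → ∀ y : E4, 2 * t ≤ ‖y‖ → chi t y = 0
  bd : ∃ C : ℝ, ∀ t : ℝ, 0 < t → ∀ y, D1 (chi t) y ≤ C / t ∧ D2 (chi t) y ≤ C / t ^ 2
  pd_le : ∀ φ i y, |pd i φ y| ≤ D1 φ y
  pd2_le : ∀ φ i j y, |pd i (pd j φ) y| ≤ D2 φ y
  lp_le : ∀ φ y, |lp φ y| ≤ 2 * D2 φ y
  D1_mul : ∀ (φ ψ : E4 → ℝ) (y : E4), ContDiffAt ℝ ∞ φ y → ContDiffAt ℝ ∞ ψ y →
    D1 (fun z => φ z * ψ z) y ≤ |φ y| * D1 ψ y + D1 φ y * |ψ y|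
  D2_mul : ∀ (φ ψ : E4 → ℝ) (y : E4), ContDiffAt ℝ ∞ φ y → ContDiffAt ℝ ∞ ψ y →
    D2 (fun z => φ z * ψ z) y ≤ |φ y| * D2 ψ y + 2 * D1 φ y * D1 ψ y + D2 φ y * |ψ y|
  mvt : ∀ φ : E4 → ℝ, ContDiff ℝ ∞ φ → ∀ (K : ℝ) (x y : E4), (∀ z ∈ segment ℝ x y, D1 φ z ≤ K) →
    |φ x - φ y| ≤ K * ‖x - y‖
  eN2 : ∀ φ, Tst φ → eN 2 φ = (∫ y, φ y ^ 2) + (∫ y, D1 φ y ^ 2) + ∫ y, D2 φ y ^ 2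
  hess : ∀ φ, Tst φ → ∫ y, D2 φ y ^ 2 = ∫ y, lp φ y ^ 2
  l4 : ∃ C : ℝ, ∀ φ, Tst φ → ∫ y, D1 φ y ^ 4 ≤ C * eN 2 φ ^ 2
  D1_iso : ∀ (e : E4 ≃ₗᵢ[ℝ] E4) (φ : E4 → ℝ), ContDiff ℝ ∞ φ → ∀ y,
    D1 (fun z => φ (e z)) y = D1 φ (e y) ∧ D2 (fun z => φ (e z)) y = D2 φ (e y)
  D_scale : ∀ (r : ℝ) (φ : E4 → ℝ), 0 < r → ContDiff ℝ ∞ φ → ∀ y,
    D1 (fun z => φ (r • z)) y = r * D1 φ (r • y) ∧ D2 (fun z => φ (r • z)) y = r ^ 2 * D2 φ (r • y)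
  D_congr : ∀ (φ ψ : E4 → ℝ) (c : ℝ) (y : E4), (∀ᶠ z in 𝓝 y, φ z = ψ z + c) →
    D1 φ y = D1 ψ y ∧ D2 φ y = D2 ψ y ∧ lp φ y = lp ψ y
  D_cont : ∀ φ : E4 → ℝ, ContDiff ℝ ∞ φ → Continuous (D1 φ) ∧ Continuous (D2 φ)
  mul_eN : ∀ ζ, Tst ζ → ∃ C : ℝ, ∀ φ, Tst φ → eN 2 (fun y => ζ y * φ y) ≤ C * eN 2 φ
  eN_le : ∀ φ, Tst φ → ∀ (V : Set E4) (K : ℝ), MeasurableSet V → volume V ≠ ⊤ → tsupport φ ⊆ V →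
    (∀ y, |φ y| ≤ K ∧ D1 φ y ≤ K ∧ D2 φ y ≤ K) → eN 2 φ ≤ 3 * volume.real V * K ^ 2

/-- E1c. The tubes. -/
structure NbFacts : Prop where
  nb_open : ∀ r t, IsOpen (nb r t)
  nb_norm : ∀ r t : ℝ, 0 < r → 0 < t → t ≤ r / 4 → ∀ y ∈ nb r t, r / 2 < ‖y‖ ∧ ‖y‖ < 2 * r
  nb_vol : ∃ C : ℝ, ∀ r t : ℝ, 0 < r → 0 < t → t ≤ r / 4 → volume.real (nb r t) ≤ C * r * t ^ 3
  circ_ee : ∀ i r θ, ee i r (circ i r θ) = 0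
  circ_norm : ∀ i (r θ : ℝ), 0 ≤ r → ‖circ i r θ‖ = r
  ee_sm : ∀ i r, ContDiff ℝ ∞ (ee i r)
  ee_neg : ∀ i r y, ee i r (-y) = ee i r y
  ee_scale : ∀ i (r : ℝ) (y : E4), 0 < r → ee i r (r • y) = r ^ 2 * ee i 1 y
  ee_bd : ∀ i (r : ℝ) (y : E4), 0 < r → ee i r y ≤ (r / 4) ^ 2 →
    D1 (ee i r) y ≤ 10 * √(ee i r y) ∧ D2 (ee i r) y ≤ 20
  near : ∀ i (r t : ℝ) (y : E4), 0 < r → 0 < t → t ≤ r / 4 → ee i r y ≤ t ^ 2 →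
    ∃ θ, ‖y - circ i r θ‖ ≤ 2 * t
  near' : ∀ i (r t θ : ℝ) (y : E4), 0 < r → t ≤ r / 4 → ‖y - circ i r θ‖ ≤ t → ee i r y ≤ (2 * t) ^ 2
  sep : ∀ r t : ℝ, 0 < r → 0 < t → t ≤ r / 8 → ∃ c : ℝ, 0 < c ∧ ∀ x y : E4, x ∉ nb r t →
    y ∈ nb r (t / 2) → c ≤ ‖x - y‖
  vol_lo : ∃ c : ℝ, 0 < c ∧ ∀ i (t : ℝ), 0 < t → t ≤ 1 / 4 →
    c * t ^ 3 ≤ volume.real {y | ee i 1 y < t ^ 2}
  bump : ∀ r t : ℝ, 0 < r → 0 < t → t ≤ r / 8 → ∃ ζ, Tst ζ ∧ tsupport ζ ⊆ nb r t ∧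
    ∀ y ∈ nb r (t / 2), ζ y = 1

/-- E2. The curvature of `Gs s`. -/
def RicStmt : Prop := ∀ (s : E4 → ℝ) (U : Set E4), IsOpen U → ContDiffOn ℝ ∞ s U → ∀ y ∈ U,
  (∀ i j : Fin 4, ginv (Gs s) i j y = if i = j then (if i.val < 2 then exp (-(2 * s y)) else 1) else 0) ∧
  (∀ i j : Fin 4, i.val < 2 → j.val < 2 → ric (Gs s) i j y = if i = j then
    -(lz s y + exp (2 * s y) * (lw s y + 2 * (pd 2 s y ^ 2 + pd 3 s y ^ 2))) else 0) ∧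
  (∀ i j : Fin 4, 2 ≤ i.val → 2 ≤ j.val →
    ric (Gs s) i j y = -2 * (pd i (pd j s) y + pd i s y * pd j s y)) ∧
  (∀ i j : Fin 4, i.val < 2 → 2 ≤ j.val →
    ric (Gs s) i j y = -pd i (pd j s) y ∧ ric (Gs s) j i y = -pd i (pd j s) y) ∧
  ∀ φ, ContDiffOn ℝ ∞ φ U → lap (Gs s) φ y =
    exp (-(2 * s y)) * lz φ y + lw φ y + 2 * (pd 2 s y * pd 2 φ y + pd 3 s y * pd 3 φ y)

/-- E3. The product of two hyperbolic discs. -/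
def HypStmt : Prop := ∀ y : E4, ‖y‖ < 1 →
  qcurv (blk f0 h0) y = (4 * 4 * (4 / cc ^ 2) - 4 ^ 2 - (4 / cc ^ 2) ^ 2) / 6 ∧
  ∀ φ, SmAt φ y →
    lap (blk f0 h0) φ y = (1 - zsq y) ^ 2 * lz φ y + (1 - wsq y / cc ^ 2) ^ 2 * lw φ y ∧
    pan2 (blk f0 h0) φ y = (16 / cc ^ 2 - 8) / 3 * ((1 - zsq y) ^ 2 * lz φ y) +
      (16 - 8 / cc ^ 2) / 3 * ((1 - wsq y / cc ^ 2) ^ 2 * lw φ y)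

/-- E4. The bilinear form of `Gs s` against the flat one. -/
def PertStmt : Prop := ∃ C : ℝ, ∀ (s φ ψ : E4 → ℝ) (y : E4), SmAt s y →
  SmAt φ y → SmAt ψ y → |s y| ≤ 1 →
  |bform (Gs s) φ ψ y - lp φ y * lp ψ y| ≤ C * (|s y| * D2 φ y * D2 ψ y +
    D1 s y * (D1 φ y * D2 ψ y + D2 φ y * D1 ψ y) + (D2 s y + D1 s y ^ 2) * D1 φ y * D1 ψ y)

/-- E5. Weak form, locality and conformal reduction. -/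
structure LocFacts : Prop where
  weak : ∀ (s φ ψ : E4 → ℝ) (U : Set E4), IsOpen U → ContDiffOn ℝ ∞ s U → Tst φ → tsupport φ ⊆ U →
    ContDiffOn ℝ ∞ ψ U → ∫ y in U, φ y * pp s ψ y = ∫ y in U, bform (Gs s) φ ψ y
  sm : ∀ (s φ ψ : E4 → ℝ) (U : Set E4), IsOpen U → ContDiffOn ℝ ∞ s U → ContDiffOn ℝ ∞ φ U →
    ContDiffOn ℝ ∞ ψ U → ContDiffOn ℝ ∞ (bform (Gs s) φ ψ) U ∧ ContDiffOn ℝ ∞ (pp s φ) U ∧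
      ContDiffOn ℝ ∞ (qd s) U ∧ ContDiffOn ℝ ∞ (sg s) U ∧ ContDiffOn ℝ ∞ (scal (Gs s)) U
  congr : ∀ (s s' φ φ' ψ ψ' : E4 → ℝ) (y : E4), s =ᶠ[𝓝 y] s' → φ =ᶠ[𝓝 y] φ' → ψ =ᶠ[𝓝 y] ψ' →
    bform (Gs s) φ ψ y = bform (Gs s') φ' ψ' y ∧ pp s φ y = pp s' φ' y ∧ qd s y = qd s' y
  congr' : ∀ (G G' : E4 → Matrix (Fin 4) (Fin 4) ℝ) (φ φ' : E4 → ℝ) (y : E4), G =ᶠ[𝓝 y] G' →
    φ =ᶠ[𝓝 y] φ' → lap G φ y = lap G' φ' y ∧ pan2 G φ y = pan2 G' φ' y ∧ pan G φ y = pan G' φ' y ∧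
      qcurv G y = qcurv G' y
  flat : ∀ (s φ ψ : E4 → ℝ) (y : E4), (s =ᶠ[𝓝 y] fun _ => 0) → SmAt φ y → SmAt ψ y →
    bform (Gs s) φ ψ y = lp φ y * lp ψ y ∧ pp s φ y = lp (lp φ) y ∧ qd s y = 0 ∧ sg s y = 0 ∧
      scal (Gs s) y = 0
  symm : ∀ (s φ ψ : E4 → ℝ) (y : E4), SmAt s y →
    bform (Gs s) φ ψ y = bform (Gs s) ψ φ y
  lin : ∀ (s φ ψ ψ' : E4 → ℝ) (a b c : ℝ) (y : E4), SmAt s y → SmAt ψ y →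
    SmAt ψ' y → bform (Gs s) φ (fun z => a * ψ z + b * ψ' z + c) y =
      a * bform (Gs s) φ ψ y + b * bform (Gs s) φ ψ' y
  conf : ∀ (f h φ : E4 → ℝ) (U : Set E4), IsOpen U → ContDiffOn ℝ ∞ f U → ContDiffOn ℝ ∞ h U →
    ContDiffOn ℝ ∞ φ U → ∀ y ∈ U,
    dens (blk f h) y * pan (blk f h) φ y = pp (fun z => f z - h z) φ y ∧
    2 * (dens (blk f h) y * qcurv (blk f h) y) =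
      2 * qd (fun z => f z - h z) y + pp (fun z => f z - h z) h y
  Tf_congr : ∀ (s φ φ' ψ ψ' : E4 → ℝ) (V : Set E4) (c c' : ℝ), Tst s → IsOpen V → tsupport s ⊆ V →
    Tst φ → Tst φ' → Tst ψ → Tst ψ' → (∀ y ∈ V, φ y = φ' y + c) → (∀ y ∈ V, ψ y = ψ' y + c') →
    Tf s φ ψ = Tf s φ' ψ'
  Tf_add : ∀ (s φ ψ ψ' : E4 → ℝ), Tst s → Tst φ → Tst ψ → Tst ψ' →
    Tf s φ (fun y => ψ y + ψ' y) = Tf s φ ψ + Tf s φ ψ' ∧ Tf s φ ψ = Tf s ψ φ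

/-- E6. The Q-curvature of `Gs s`: weak form and pointwise bounds. -/
structure QdFacts : Prop where
  weak : ∀ (s φ : E4 → ℝ), Tst s → ContDiff ℝ ∞ φ → ∫ y, qd s y * φ y =
    -(1 / 12) * (∫ y, dens (Gs s) y * scal (Gs s) y * lap (Gs s) φ y) - 1 / 12 * ∫ y, sg s y * φ y
  diff : ∀ (s s' : E4 → ℝ) (U K : Set E4), IsOpen U → IsCompact K → K ⊆ U → ContDiffOn ℝ ∞ s U →
    ContDiffOn ℝ ∞ s' U → (∀ y ∈ U, y ∉ K → s y = s' y) →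
    ∫ y in K, (qd s y - qd s' y) = -(1 / 12) * ∫ y in K, (sg s y - sg s' y)
  bd : ∃ C : ℝ, ∀ (s : E4 → ℝ) (y : E4), SmAt s y → |s y| ≤ 1 →
    dens (Gs s) y ≤ C ∧ |scal (Gs s) y| ≤ C * (D2 s y + D1 s y ^ 2) ∧
    |sg s y| ≤ C * (D2 s y + D1 s y ^ 2) ^ 2 ∧
    |sg s y - quad s y| ≤ C * (|s y| * D2 s y ^ 2 + D1 s y ^ 2 * D2 s y + D1 s y ^ 4) ∧
    ∀ φ, SmAt φ y → |lap (Gs s) φ y| ≤ C * (D2 φ y + D1 s y * D1 φ y)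
  quad_int : ∀ s, Tst s → ∫ y, quad s y = 2 * ∫ y, (lz s y ^ 2 + lz s y * lw s y + lw s y ^ 2)
  cont : ∀ a, Tst a → Continuous fun ε : ℝ => ∫ y, sg (fun z => ε * a z) y

/-- E6b. Rotations and scalings. -/
structure ScaleFacts : Prop where
  rot : ∀ s, Tst s → Rad s → ∀ u₁ u₂ : ℂ, ‖u₁‖ = 1 → ‖u₂‖ = 1 → ∀ y,
    sg s (rot u₁ u₂ y) = sg s y
  scaleQ : ∀ (s φ : E4 → ℝ) (r : ℝ), 0 < r → Tst s →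
    ∫ y, qd (fun z => s (r⁻¹ • z)) y * φ y = ∫ y, qd s y * φ (r • y)
  scaleT : ∀ (s φ ψ : E4 → ℝ) (r : ℝ), 0 < r → Tst s → Tst φ → Tst ψ →
    Tf (fun z => s (r⁻¹ • z)) φ ψ = Tf s (fun z => φ (r • z)) fun z => ψ (r • z)
  add : ∀ s s' : E4 → ℝ, Tst s → Tst s' → Disjoint (tsupport s) (tsupport s') →
    (∀ y, qd (fun z => s z + s' z) y = qd s y + qd s' y) ∧
    ∀ φ ψ, Tst φ → Tst ψ → Tf (fun z => s z + s' z) φ ψ = Tf s φ ψ + Tf s' φ ψ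

/-- E7. The regularized fundamental solution: pointwise facts. -/
structure GamFacts : Prop where
  sm : ∀ ε : ℝ, 0 < ε → ContDiff ℝ ∞ (gam ε)
  sm0 : ∀ (ε : ℝ) (y : E4), y ≠ 0 → ContDiffAt ℝ ∞ (gam ε) y
  d1 : ∀ (ε : ℝ) (y : E4), 0 < ‖y‖ ^ 2 + ε ^ 2 → ∀ i,
    pd i (gam ε) y = -(1 / (8 * π ^ 2)) * (y i / (‖y‖ ^ 2 + ε ^ 2))
  lap1 : ∀ (ε : ℝ) (y : E4), 0 < ‖y‖ ^ 2 + ε ^ 2 →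
    lp (gam ε) y = -(1 / (4 * π ^ 2)) * ((‖y‖ ^ 2 + 2 * ε ^ 2) / (‖y‖ ^ 2 + ε ^ 2) ^ 2)
  lap2 : ∀ (ε : ℝ) (y : E4), 0 < ‖y‖ ^ 2 + ε ^ 2 → lp (lp (gam ε)) y = kk ε y
  bd : ∃ C : ℝ, ∀ (ε : ℝ) (y : E4), y ≠ 0 → D1 (gam ε) y ≤ C / ‖y‖ ∧ D2 (gam ε) y ≤ C / ‖y‖ ^ 2 ∧
    (∀ i, D2 (pd i (gam ε)) y ≤ C / ‖y‖ ^ 3) ∧ ∀ i j, D2 (pd i (pd j (gam ε))) y ≤ C / ‖y‖ ^ 4
  cutoff : ∀ t : ℝ, 0 < t → t ≤ 1 / 4 → ∃ C : ℝ, ∀ ε : ℝ, 0 < ε → ε ≤ 1 / 2 → Tst (KK t ε) ∧ ∀ y : E4,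
    0 ≤ KK t ε y ∧ |lp (lp (KK t ε)) y - chi t y * kk ε y| ≤ C ∧
    (y ≠ 0 → D1 (KK t ε) y ≤ C / ‖y‖ ∧ D2 (KK t ε) y ≤ C / ‖y‖ ^ 2)

/-- E8. The approximate identity and the fundamental solution. -/
structure KkFacts : Prop where
  int : ∀ ε : ℝ, 0 < ε → Integrable (kk ε) ∧ ∫ y, kk ε y = 1
  lim : ∀ φ, Tst φ → ∀ β : ℝ, 0 < β → ∀ᶠ ε in 𝓝[>] (0 : ℝ), ∀ x : E4,
    |(∫ y, kk ε (y - x) * φ y) - φ x| ≤ β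
  pow : ∀ β : ℝ, 0 ≤ β → β < 4 → ∃ C : ℝ, ∀ t : ℝ, 0 < t →
    IntegrableOn (fun y : E4 => ‖y‖ ^ (-β)) (ball 0 t) ∧
      ∫ y in ball (0 : E4) t, ‖y‖ ^ (-β) ≤ C * t ^ (4 - β)
  fund : ∀ t : ℝ, 0 < t → t ≤ 1 / 4 → Integrable (KK t 0) ∧ MemLp (KK t 0) 2 volume ∧
    ∃ (e : E4 → ℝ) (C : ℝ), Measurable e ∧ (∀ y, |e y| ≤ C) ∧ (∀ y, 2 * t < ‖y‖ → e y = 0) ∧
      ∀ φ : E4 → ℝ, ContDiff ℝ ∞ φ → ∫ y, KK t 0 y * lp (lp φ) y = φ 0 + ∫ y, e y * φ y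

/-- E8b. Translations and a Poincare inequality. -/
def TransStmt : Prop := (∀ φ, Tst φ → ∀ h : E4,
    ∫ y, (φ (y + h) - φ y) ^ 4 ≤ ‖h‖ ^ 4 * ∫ y, D1 φ y ^ 4) ∧
  (∃ C : ℝ, ∀ φ, Tst φ → ∫ y in ball (0 : E4) 4, (φ y - ⨍ z in ball (0 : E4) 1, φ z) ^ 2 ≤
    C * √(∫ y, D1 φ y ^ 4)) ∧
  ∃ C : ℝ, ∀ r : ℝ, 0 < r → ∀ φ, Tst φ →
    |(∫ y, kk r y * φ y) - ⨍ z in ball (0 : E4) r, φ z| ≤ C * √(√(∫ y, D1 φ y ^ 4))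

/-- E9. The test function and the comparison of `kk r` with the mean over a ball. -/
structure TestFacts : Prop where
  en : ∀ t : ℝ, 0 < t → t ≤ 1 / 4 → ∃ C : ℝ, ∀ r : ℝ, 0 < r → r ≤ t →
    ∫ y, lp (KK t r) y ^ 2 ≤ log r⁻¹ / (8 * π ^ 2) + C ∧ eN 2 (KK t r) ≤ C * (1 + log r⁻¹)
  avg : ∀ t : ℝ, 0 < t → t ≤ 1 / 4 → ∃ C : ℝ, ∀ r : ℝ, 0 < r → r ≤ t → ∀ φ, Tst φ →
    |(∫ y, lp (KK t r) y * lp φ y) - ⨍ y in ball (0 : E4) r, φ y| ≤ C * √(eN 2 φ)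

/-- E10. Differentiation of a convolution with a smooth kernel. -/
def ParStmt : Prop := ∀ (k σ : E4 → ℝ), ContDiff ℝ ∞ k → Continuous σ → HasCompactSupport σ →
  ContDiff ℝ ∞ (fun y => ∫ x, k (y - x) * σ x) ∧
    ∀ i y, pd i (fun y => ∫ x, k (y - x) * σ x) y = ∫ x, pd i k (y - x) * σ x

/-- E11. The potential. -/
def PotStmt : Prop := ∀ R : ℝ, 0 < R → R ≤ 1 → ∃ C : ℝ, ∀ t : ℝ, 0 < t → 2 * t ≤ R / 32 →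
  (∀ σ, Tst σ → (∀ y, 0 ≤ σ y) → (∀ y, 2 * t ≤ ‖y‖ → σ y = 0) → ∫ y, σ y ≤ 1 →
    Tst (pot R σ) ∧ (∀ y, R / 8 ≤ ‖y‖ → pot R σ y = 0) ∧ (∀ y, 0 ≤ pot R σ y) ∧
    (∀ y, Integrable (fun x => max (-log ‖y - x‖) 0 * σ x) ∧
      pot R σ y ≤ 2 * ∫ x, max (-log ‖y - x‖) 0 * σ x) ∧
    (∀ (b : ℝ) (y : E4), 0 < b → b ≤ 1 → 2 * t + b ≤ ‖y‖ → pot R σ y ≤ 2 * -log b) ∧
    (∀ (b : ℝ) (y : E4), ‖y‖ + 2 * t ≤ b → b ≤ R / 32 → 2 * -log b * ∫ x, σ x ≤ pot R σ y) ∧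
    ∀ φ, Tst φ → |(∫ y, lp (pot R σ) y * lp φ y) - 16 * π ^ 2 * ∫ y, σ y * φ y| ≤ C * √(eN 2 φ)) ∧
  ∀ ζ, Tst ζ → (∀ y, ‖y‖ ≤ 4 * t → ζ y = 0) → ∃ C' : ℝ,
    ∀ σ, Tst σ → (∀ y, 0 ≤ σ y) → (∀ y, 2 * t ≤ ‖y‖ → σ y = 0) → ∫ y, σ y ≤ 1 →
      eN 2 (fun y => ζ y * pot R σ y) ≤ C'

/-- U1. Hardy's inequality and a trace inequality for a unit circle. -/
def HardyStmt : Prop := ∃ C : ℝ, ∀ (i : Fin 2) (τ : ℝ), 0 < τ → τ ≤ 1 / 8 → ∀ φ, Tst φ →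
  ∫ y, φ y ^ 2 / (ee i 1 y + τ ^ 2) ≤ C * eN 1 φ ∧
  ∫ y in {y | ee i 1 y < τ ^ 2}, φ y ^ 2 ≤ C * τ ^ 3 * eN 2 φ

/-- U2. The shape function of a tube. -/
def ShapeStmt : Prop := ∃ c C : ℝ, 0 < c ∧ ∀ (i : Fin 2) (τ : ℝ), 0 < τ → τ ≤ 1 / 8 → ∃ a, Tst a ∧
  (∀ y, τ ^ 2 ≤ ee i 1 y → a y = 0) ∧ Rad a ∧
  (∀ y, |a y| ≤ 1 ∧ D1 a y ≤ C / τ ∧ D2 a y ≤ C / τ ^ 2) ∧
  c / τ ≤ ∫ y, (lz a y ^ 2 + lz a y * lw a y + lw a y ^ 2)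

/-- U3. Profiles with a prescribed mass. -/
def ProfStmt : Prop := ∀ m : ℝ, 0 < m → ∃ C τ₀ : ℝ, 0 < C ∧ 0 < τ₀ ∧ ∀ (i : Fin 2) (τ : ℝ), 0 < τ →
  τ ≤ τ₀ → ∃ s, Prof i m τ C s

/-- U4. The change of the form is small. -/
def T1Stmt : Prop := ∀ C : ℝ, 0 < C → ∃ C' : ℝ, ∀ i m τ s, 0 < τ → τ ≤ 1 / 100 → C * √τ ≤ 1 →
  Prof i m τ C s → ∀ φ ψ, Tst φ → Tst ψ → |Tf s φ ψ| ≤ C' * √τ * √(eN 2 φ) * √(eN 2 ψ)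

/-- U5. The Q-curvature of a tube is a point mass up to a bounded error. -/
def T3Stmt : Prop := ∀ C : ℝ, 0 < C → ∃ C' : ℝ, ∀ i m τ s, 0 < τ → τ ≤ 1 / 100 → C * √τ ≤ 1 →
  Prof i m τ C s → ∀ φ, Tst φ → |(∫ y, qd s y * φ y) + m * ⨍ y in ball (0 : E4) 1, φ y| ≤
    C' * (√(∫ y, D2 φ y ^ 2) + √(√(∫ y, D1 φ y ^ 4)))

/-- U6. The Q-curvature of a tube is a uniform mass on the circle up to a small error. -/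
def T4Stmt : Prop := ∀ C : ℝ, 0 < C → ∃ C' : ℝ, ∀ i m τ s, 0 < τ → τ ≤ 1 / 100 → C * √τ ≤ 1 →
  Prof i m τ C s → ∀ φ, Tst φ → ∀ K, (∀ y, ee i 1 y < (8 * τ) ^ 2 → D1 φ y ≤ K ∧ D2 φ y ≤ K) →
    |(∫ y, qd s y * φ y) + m * av i 1 φ| ≤ C' * τ * K

/-- U7. The two tubes at scale `r`. -/
def TubeStmt : Prop := ∀ m : ℝ, 0 < m → ∃ CT : ℝ, ∀ r η : ℝ, 0 < r → r ≤ 1 → 0 < η → η ≤ r / 100 →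
  ∃ s, Tube m r η CT s

open Classical in
/-- P1. The cut-off dilation field. -/
def CutStmt : Prop := ∃ C₀ : ℝ, 0 < C₀ ∧ ∀ r : ℝ, 0 < r → ∃ C₁ : ℝ, 0 < C₁ ∧ ∀ t lam : ℝ, 0 < t →
  t ≤ r / 8 → 4 * r ≤ lam → Tst (cut r t lam) ∧
  (∀ y, 0 ≤ cut r t lam y ∧ cut r t lam y ≤ 1 ∧ cut r t lam (-y) = cut r t lam y) ∧
  (∀ y, ‖y‖ ≤ lam → y ∉ nb r (2 * t) → cut r t lam y = 1) ∧
  (∀ y, 2 * lam ≤ ‖y‖ ∨ y ∈ nb r t → cut r t lam y = 0) ∧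
  (∀ y, dvX r t lam y ≤ 4 + (if ‖y‖ < lam then 0 else C₀) + if y ∈ nb r (2 * t) then C₁ / t else 0) ∧
  ∀ x y : E4, |(∑ i, (cut r t lam x * x i - cut r t lam y * y i) * (x i - y i)) - ‖x - y‖ ^ 2| ≤
    ‖x - y‖ ^ 2 * ((if ‖x‖ < lam ∧ ‖y‖ < lam then 0 else C₀) +
      if x ∈ nb r (2 * t) ∨ y ∈ nb r (2 * t) then C₁ / t else 0)

/-- P2. The test function is small away from the support of the field. -/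
def YbStmt : Prop := (∀ r t lam ε ρ, 0 < r → 0 < t → t ≤ r / 8 → 4 * r ≤ lam → 0 < ε → Den ρ →
    ContDiff ℝ ∞ (YY r t lam ε ρ)) ∧
  (∀ R : ℝ, 0 < R → ∃ C₂ : ℝ, ∀ r t lam ε ρ, 0 < r → 0 < t → t ≤ r / 8 → 4 * r ≤ lam →
    lam ≤ R / 16 → 0 < ε → Den ρ → ∀ y : E4, R / 4 ≤ ‖y‖ →
      |YY r t lam ε ρ y| ≤ C₂ * lam ^ 2 * gain r ρ ∧ D1 (YY r t lam ε ρ) y ≤ C₂ * lam ^ 2 * gain r ρ ∧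
      D2 (YY r t lam ε ρ) y ≤ C₂ * lam ^ 2 * gain r ρ) ∧
  ∀ r t : ℝ, 0 < r → 0 < t → t ≤ r / 8 → ∃ C₃ : ℝ, ∀ lam ε ρ, 4 * r ≤ lam → lam ≤ 1 → 0 < ε → Den ρ →
    ∀ y ∈ nb r (t / 2), |YY r t lam ε ρ y| ≤ C₃ * gain r ρ ∧
      D1 (YY r t lam ε ρ) y ≤ C₃ * gain r ρ ∧ D2 (YY r t lam ε ρ) y ≤ C₃ * gain r ρ

/-- P3. The limit of the left side. -/
def LimStmt : Prop := ∀ (R r t lam : ℝ) (U ρ : E4 → ℝ), 0 < r → 0 < t → t ≤ r / 8 → 4 * r ≤ lam →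
  lam ≤ R / 16 → Tst U → Den ρ →
  (∃ A : ℝ, ∀ y, ‖y‖ < R → y ∉ nb r (t / 2) → ρ y = A * exp (4 * U y)) →
  Tendsto (fun ε => ∫ y, lp (fun z => chi (R / 4) z * U z) y * lp (YY r t lam ε ρ) y) (𝓝[>] 0)
    (𝓝 (1 / 4 * ∫ y, dvX r t lam y * ρ y))

/-- P4. The symmetrized double integral. -/
def SymStmt : Prop := ∃ C₀ : ℝ, 0 < C₀ ∧ ∀ r : ℝ, 0 < r → ∃ C₁ : ℝ, 0 < C₁ ∧
  ∀ (R t lam : ℝ) (ρ : E4 → ℝ), 0 < t → t ≤ r / 8 → 4 * r ≤ lam → lam ≤ R / 16 → Den ρ →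
  ∀ β : ℝ, 0 < β → ∀ᶠ ε in 𝓝[>] (0 : ℝ),
    1 - C₀ * (1 - ∫ y in ball (0 : E4) lam, ρ y) - (C₁ / t * ∫ y in nb r (2 * t), ρ y) - β ≤
      16 * π ^ 2 * ∫ y, chi (R / 4) y * YY r t lam ε ρ y * ρ y

/-- P5. The sign of the term of the circles. -/
def VStmt : Prop := ∀ (r t lam : ℝ) (ρ : E4 → ℝ), 0 < r → 0 < t → t ≤ r / 8 → 4 * r ≤ lam → Den ρ →
  ∀ β : ℝ, 0 < β → ∀ᶠ ε in 𝓝[>] (0 : ℝ),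
    (gain r ρ - (1 - ∫ y in ball (0 : E4) lam, ρ y) - ∫ y in nb r (2 * t), ρ y) / (16 * π ^ 2) - β ≤
      av 0 r (YY r t lam ε ρ) + av 1 r (YY r t lam ε ρ)

/-- P6. The commutator with the outer cut-off. -/
def CommStmt : Prop := ∀ R : ℝ, 0 < R → ∃ C : ℝ, ∀ (U Y : E4 → ℝ) (H K : ℝ), Tst U →
  ContDiff ℝ ∞ Y →
  ∫ y in {y : E4 | R / 4 ≤ ‖y‖ ∧ ‖y‖ ≤ R / 2}, (U y ^ 2 + D1 U y ^ 2 + lp U y ^ 2) ≤ H →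
  (∀ y : E4, R / 4 ≤ ‖y‖ → |Y y| ≤ K ∧ D1 Y y ≤ K ∧ D2 Y y ≤ K) →
  |(∫ y, lp U y * lp (fun z => chi (R / 4) z * Y z) y) -
    ∫ y, lp (fun z => chi (R / 4) z * U z) y * lp Y y| ≤ C * √H * K

/-- P7. The Pohozaev inequality. -/
def PohoStmt : Prop := ∃ C₀ : ℝ, ∀ R : ℝ, 0 < R → R ≤ 1 → ∃ C₂ : ℝ, ∀ r : ℝ, 0 < r → ∃ C₁ : ℝ,
  ∀ t : ℝ, 0 < t → t ≤ r / 8 → ∃ C₃ : ℝ, ∀ (lam m E H : ℝ) (U ρ : E4 → ℝ), 4 * r ≤ lam →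
  lam ≤ R / 16 → 0 ≤ m → 0 ≤ E → PData R r t m E H U ρ →
  m / (16 * π ^ 2) * gain r ρ ≤ C₀ * (1 + m) * (1 - ∫ y in ball (0 : E4) lam, ρ y) +
    C₁ * (1 + m) / t * (∫ y in nb r (2 * t), ρ y) + C₂ * lam ^ 2 * √H * gain r ρ +
    C₃ * E * gain r ρ

end Pool.Agent.MP_417fa2_gt.Q2
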