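import Pool.Agent.MP_417fa2_gt.Q2.Mob

/-! Statements of the group and surface layer. -/

open scoped ContDiff ComplexConjugate ENNReal
open MeasureTheory Set Metric Real

namespace Pool.Agent.MP_417fa2_gt.Q2

theorem normSq_piz : Complex.normSq piz = 2 - √2 := by
  have h : (√2 : ℝ) * √2 = 2 := Real.mul_self_sqrt (by norm_num)
  have h0 : (√2 : ℝ) ≠ 0 := by positivity
  have h1 : zeta.re = √2 / 2 := by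
    simp only [zeta, Complex.div_ofReal_re, Complex.add_re, Complex.one_re, Complex.I_re]
    field_simp
    linarith
  have h2 := normSq_zeta
  simp only [piz, Complex.normSq_apply, Complex.sub_re, Complex.sub_im, Complex.one_re,
    Complex.one_im] at h2 ⊢
  linear_combination h2 - 2 * h1

theorem lam_sq : lam * lam = √2 - 1 :=
  Real.mul_self_sqrt (sub_nonneg.2 (Real.one_le_sqrt.2 (by norm_num)))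

/-- The element `ω₀ = (1 / π, λ / π)` of trace one. -/
noncomputable def SU.om : SU := ⟨1 / piz, lam / piz, by
  have h : (√2 : ℝ) < 2 := Real.sqrt_lt' (by norm_num) |>.2 (by norm_num)
  rw [map_div₀, map_div₀, normSq_piz, Complex.normSq_ofReal, lam_sq, map_one, ← sub_div,
    div_eq_one_iff_eq (by linarith)]
  ring⟩

/-- G1. The ring `ℤ[ζ]` in coordinates and the order. -/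
structure OFacts : Prop where
  ev_inj : ∀ v v', ev v = ev v' → v = v'
  ev_add : ∀ v v', ev (v + v') = ev v + ev v'
  ev_neg : ∀ v, ev (-v) = -ev v
  ev_mul : ∀ v v', ∃ u, ev u = ev v * ev v' ∧ ∑ i, u i ≡ (∑ i, v i) * ∑ i, v' i [ZMOD 2]
  ev_conj : ∀ v, ∃ u, ev u = conj (ev v) ∧ ∑ i, u i ≡ ∑ i, v i [ZMOD 2]
  ev_dvd : ∀ v : Fin 4 → ℤ, (∃ u, ev v = piz * ev u) ↔ Even (∑ i, v i)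
  of_ev : ∀ v, InO (ev v) 0
  add : ∀ α β α' β', InO α β → InO α' β' → InO (α + α') (β + β')
  neg : ∀ α β, InO α β → InO (-α) (-β)
  mul : ∀ α β α' β', InO α β → InO α' β' →
    InO (α * α' + β * conj β') (α * β' + β * conj α')
  cj : ∀ α β, InO α β → InO (conj α) (-β)
  side : ∀ α β, InO α β → ∃ α' β', InO α' β' ∧ α * piz = piz * α' ∧ β * conj piz = piz * β'
  side' : ∀ α β, InO α β → ∃ α' β', InO α' β' ∧ α * conj piz = piz * α' ∧ β * piz = piz * β'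

/-- G2. The congruence groups. -/
structure GnFacts : Prop where
  one : ∀ n, 1 ∈ Gn n
  mul : ∀ n, ∀ γ ∈ Gn n, ∀ γ' ∈ Gn n, γ * γ' ∈ Gn n
  inv : ∀ n, ∀ γ ∈ Gn n, γ⁻¹ ∈ Gn n
  neg : SU.neg1 ∈ Gn 4
  le : Gn 4 ⊆ Gn 3
  jn : ∀ n γ, γ ∈ Gn n ↔ SU.j * γ * SU.j⁻¹ ∈ Gn n
  omn : ∀ n γ, γ ∈ Gn n ↔ SU.om * γ * SU.om⁻¹ ∈ Gn n
  gens : ∀ k : Fin 8, ∃ γ ∈ Gn 3, γ.a = (1 + √2 : ℝ) ∧ γ.b = (√(2 + 2 * √2) : ℝ) * zeta ^ (k : ℕ)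

/-- G3. Discreteness and the trace bounds. -/
structure GnDisc : Prop where
  fin : ∀ C : ℝ, {γ : SU | γ ∈ Gn 3 ∧ ‖γ.a‖ ≤ C}.Finite
  tr3 : ∀ γ ∈ Gn 3, γ = 1 ∨ γ = SU.neg1 ∨ 1 + √2 ≤ |γ.a.re|
  tr4 : ∀ γ ∈ Gn 4, γ = 1 ∨ γ = SU.neg1 ∨ 3 + 2 * √2 ≤ |γ.a.re|

/-- G4. The three characters. -/
def ChiStmt : Prop := ∃ (χ : Fin 3 → SU → ℝ) (o : SU), (o = SU.om ∨ o = SU.om⁻¹) ∧
  (∀ i, ∀ γ ∈ Gn 3, χ i γ = 1 ∨ χ i γ = -1) ∧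
  (∀ i, ∀ γ ∈ Gn 3, ∀ γ' ∈ Gn 3, χ i (γ * γ') = χ i γ * χ i γ') ∧
  (∀ γ ∈ Gn 3, χ 2 γ = χ 0 γ * χ 1 γ) ∧
  (∀ γ : SU, γ ∈ Gn 4 ↔ γ ∈ Gn 3 ∧ χ 0 γ = 1 ∧ χ 1 γ = 1) ∧
  (∀ e₀ e₁ : ℝ, e₀ = 1 ∨ e₀ = -1 → e₁ = 1 ∨ e₁ = -1 → ∃ γ ∈ Gn 3, χ 0 γ = e₀ ∧ χ 1 γ = e₁) ∧
  ∀ i, ∀ γ ∈ Gn 3, χ (i + 1) (o * γ * o⁻¹) = χ i γ

/-- G5. The octagon meets every orbit and is relatively compact. -/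
def CovStmt : Prop := (∃ ϱ : ℝ, ϱ < 1 ∧ ∀ z ∈ oct, ‖z‖ ≤ ϱ) ∧
  ∀ Γ : Subgroup SU, (∀ C : ℝ, {γ : SU | γ ∈ Γ ∧ ‖γ.a‖ ≤ C}.Finite) →
    (∀ k : Fin 8, ∃ γ ∈ Γ, γ.a = (1 + √2 : ℝ) ∧ γ.b = (√(2 + 2 * √2) : ℝ) * zeta ^ (k : ℕ)) →
    ∀ z : ℂ, ‖z‖ < 1 → ∃ γ ∈ Γ, γ.act z ∈ oct

def PairStmt : Prop := Nonempty Pair

/-- S1. The area of the octagon. -/
def OctStmt : Prop := MeasurableSet oct ∧ dA oct ≤ ENNReal.ofReal π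

/-- S2. Weights exist. -/
def WtStmt : Prop := ∀ (T : ℝ) (L : Lat T), Nonempty (Wt L.Γ)

/-- S3. Invariance of the area and unfolding. -/
structure UnfFacts : Prop where
  inv : ∀ (γ : SU) (F : ℂ → ℝ≥0∞), Measurable F → ∫⁻ z, F (γ.act z) ∂dA = ∫⁻ z, F z ∂dA
  inv' : ∀ (γ : SU) (f : ℂ → ℝ), AEStronglyMeasurable f dA → ∫ z, f (γ.act z) ∂dA = ∫ z, f z ∂dA
  cnt : ∀ (T : ℝ) (L : Lat T), Countable L.Γ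
  unf : ∀ (T : ℝ) (L : Lat T) (W : Wt L.Γ) (F : ℂ → ℝ≥0∞), Measurable F →
    ∫⁻ z, ∑' γ : L.Γ, F ((γ : SU).act z) ∂W.μ = 2 * ∫⁻ z, F z ∂dA
  unf' : ∀ (T : ℝ) (L : Lat T) (W : Wt L.Γ) (f : ℂ → ℝ), Measurable f → Integrable f dA →
    Integrable (fun z => ∑' γ : L.Γ, f ((γ : SU).act z)) W.μ ∧
    ∫ z, ∑' γ : L.Γ, f ((γ : SU).act z) ∂W.μ = 2 * ∫ z, f z ∂dA

/-- S4. The measure of a weight. -/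
structure WFacts {T : ℝ} (L : Lat T) (W : Wt L.Γ) : Prop where
  fin : IsFiniteMeasure W.μ
  ae : ∃ ϱ : ℝ, ϱ < 1 ∧ ∀ᵐ z ∂W.μ, ‖z‖ ≤ ϱ
  int : ∀ f, Ct f → Integrable f W.μ
  eq : ∀ f, Ct f → ∫ z, f z ∂W.μ = ∫ z in ball (0 : ℂ) 1, W.β z / (1 - ‖z‖ ^ 2) ^ 2 * f z
  bdd : ∀ f, Ct f → Invt L.Γ f → ∃ C, ∀ z : ℂ, ‖z‖ < 1 → |f z| ≤ C
  indep : ∀ (W' : Wt L.Γ) (F : ℂ → ℝ≥0∞), Measurable F →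
    (∀ γ ∈ L.Γ, ∀ z : ℂ, ‖z‖ < 1 → F (γ.act z) = F z) → ∫⁻ z, F z ∂W'.μ = ∫⁻ z, F z ∂W.μ
  indep' : ∀ (W' : Wt L.Γ) f, Ct f → Invt L.Γ f → ∫ z, f z ∂W'.μ = ∫ z, f z ∂W.μ
  norm : ∀ o : SU, (∀ γ : SU, γ ∈ L.Γ ↔ o * γ * o⁻¹ ∈ L.Γ) → ∀ F : ℂ → ℝ≥0∞, Measurable F →
    (∀ γ ∈ L.Γ, ∀ z : ℂ, ‖z‖ < 1 → F (γ.act z) = F z) → ∫⁻ z, F (o.act z) ∂W.μ = ∫⁻ z, F z ∂W.μ

def WStmt : Prop := ∀ (T : ℝ) (L : Lat T) (W : Wt L.Γ), WFacts L W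

/-- S5. Conformal invariance. -/
structure ConfFacts : Prop where
  sm_dd : ∀ v f, Sm f → Sm (dd v f)
  sm_L : ∀ f, Sm f → Sm (L2 f)
  sm_G : ∀ f g, Sm f → Sm g → Sm (Gam2 f g)
  sm_act : ∀ (γ : SU) f, Sm f → Sm fun z => f (γ.act z)
  L_congr : ∀ f g : ℂ → ℝ, (∀ z : ℂ, ‖z‖ < 1 → f z = g z) → ∀ z : ℂ, ‖z‖ < 1 → L2 f z = L2 g z
  G_congr : ∀ f g f' g' : ℂ → ℝ, (∀ z : ℂ, ‖z‖ < 1 → f z = f' z) → (∀ z : ℂ, ‖z‖ < 1 → g z = g' z) →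
    ∀ z : ℂ, ‖z‖ < 1 → Gam2 f g z = Gam2 f' g' z
  L_lin : ∀ f g, Sm f → Sm g → ∀ a b : ℝ, ∀ z : ℂ, ‖z‖ < 1 →
    L2 (fun z => a * f z + b * g z) z = a * L2 f z + b * L2 g z
  L_act : ∀ (γ : SU) f, Sm f → ∀ z : ℂ, ‖z‖ < 1 → L2 (fun z => f (γ.act z)) z = L2 f (γ.act z)
  G_act : ∀ (γ : SU) f g, Sm f → Sm g → ∀ z : ℂ, ‖z‖ < 1 →
    Gam2 (fun z => f (γ.act z)) (fun z => g (γ.act z)) z = Gam2 f g (γ.act z)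

/-- S6. Integration by parts on the quotient. -/
def IbpStmt : Prop := ∀ (T : ℝ) (L : Lat T) (W : Wt L.Γ) (f g : ℂ → ℝ), Sm f → Sm g →
  Invt L.Γ f → Invt L.Γ g → ∫ z, f z * L2 g z ∂W.μ = -∫ z, Gam2 f g z ∂W.μ

/-- S7. The Green function of the average over a disc. -/
def GreenStmt : Prop := ∀ ϱ : ℝ, 0 < ϱ → ϱ < 1 → dA.real (ball 0 ϱ) = π * sig ϱ ∧
  ∃ G : ℝ → ℝ, Measurable G ∧ (∀ s, 0 ≤ G s) ∧ IntegrableOn (fun η : ℂ => G ‖η‖) (ball 0 ϱ) dA ∧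
    ∫ η in ball (0 : ℂ) ϱ, G ‖η‖ ∂dA ≤ π * sig ϱ * (sig ϱ / 8) ∧
    ∀ F, Sm F → ∫ η in ball (0 : ℂ) ϱ, (F η - F 0) ∂dA = ∫ η in ball (0 : ℂ) ϱ, G ‖η‖ * L2 F η ∂dA

/-- S8. Schur's test for radial kernels, and continuity of disc integrals. -/
structure SchurFacts : Prop where
  ct : ∀ ϱ : ℝ, 0 < ϱ → ϱ < 1 → ∀ f, Ct f → Ct (Tb ϱ f)
  schur : ∀ (T : ℝ) (L : Lat T) (W : Wt L.Γ) (ϱ : ℝ), 0 < ϱ → ϱ < 1 → ∀ G : ℝ → ℝ, Measurable G →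
    (∀ s, 0 ≤ G s) → IntegrableOn (fun η : ℂ => G ‖η‖) (ball 0 ϱ) dA → ∀ f g, Ct f → Ct g →
    Invt L.Γ (fun z => f z ^ 2) → Invt L.Γ (fun z => g z ^ 2) →
    |∫ x, f x * ∫ η in ball (0 : ℂ) ϱ, G ‖η‖ * g (mob x η) ∂dA ∂W.μ| ≤
      (∫ η in ball (0 : ℂ) ϱ, G ‖η‖ ∂dA) * √(∫ z, f z ^ 2 ∂W.μ) * √(∫ z, g z ^ 2 ∂W.μ)

/-- S9. A bound for the disc average gives a spectral gap. -/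
def GapGenStmt : Prop := ∀ (T : ℝ) (L : Lat T) (W : Wt L.Γ) (ϱ θ : ℝ), 0 < ϱ → ϱ < 1 → θ ≤ 1 →
  ∀ f, Sm f → (∀ γ ∈ L.Γ, ∃ e : ℝ, (e = 1 ∨ e = -1) ∧ ∀ z : ℂ, ‖z‖ < 1 → f (γ.act z) = e * f z) →
  ∫ x, f x * Tb ϱ f x ∂W.μ ≤ θ * (π * sig ϱ) * ∫ z, f z ^ 2 ∂W.μ →
  ((1 - θ) * 8 / sig ϱ) ^ 2 * ∫ z, f z ^ 2 ∂W.μ ≤ ∫ z, L2 f z ^ 2 ∂W.μ

/-- S10. Embedded discs: the area from below, and disc integrals of functions of mean zero. -/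
def EmbStmt : Prop := ∀ (T : ℝ) (L : Lat T) (W : Wt L.Γ) (ϱ : ℝ), 0 < ϱ → ϱ < 1 →
  1 + 2 * sig ϱ ≤ T → π * sig ϱ ≤ W.μ.real univ ∧
    ∀ f, Ct f → Invt L.Γ f → ∫ z, f z ∂W.μ = 0 → ∀ x : ℂ, ‖x‖ < 1 →
      W.μ.real univ * Tb ϱ f x ^ 2 ≤
        π * sig ϱ * (W.μ.real univ - π * sig ϱ) * ∫ z, f z ^ 2 ∂W.μ

/-- S11. The area of the Bolza surface from above, and its gap. -/
def Gap3Stmt : Prop := ∀ (P : Pair) (W : Wt P.L3.Γ), W.μ.real univ ≤ π ∧ Gap W 4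

open Classical in
/-- The kernel of the disc integral on functions twisted by `χ`. -/
noncomputable def kern (Γ : Subgroup SU) (χ : SU → ℝ) (ϱ : ℝ) (x y : ℂ) : ℝ :=
  1 / 2 * ∑' γ : Γ, if pdist ((γ : SU).act y) x < ϱ then χ γ else 0

/-- S12. Pointwise facts on the kernels. -/
def KernStmt : Prop := ∀ (P : Pair) (ϱ : ℝ), 0 < ϱ → ϱ < 1 → 1 + 2 * sig ϱ ≤ 3 + 2 * √2 →
  Measurable (fun p : ℂ × ℂ => kern P.L3.Γ (fun _ => 1) ϱ p.1 p.2) ∧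
  (∀ i, Measurable fun p : ℂ × ℂ => kern P.L3.Γ (P.χ i) ϱ p.1 p.2) ∧
  ∀ x y : ℂ, ‖x‖ < 1 → ‖y‖ < 1 →
    0 ≤ kern P.L3.Γ (fun _ => 1) ϱ x y ∧ kern P.L3.Γ (fun _ => 1) ϱ x y ≤ 4 ∧
    kern P.L3.Γ (fun _ => 1) ϱ x y ^ 2 + ∑ i, kern P.L3.Γ (P.χ i) ϱ x y ^ 2 =
      4 * kern P.L3.Γ (fun _ => 1) ϱ x y ∧
    (∀ i, ∀ γ ∈ P.L3.Γ, kern P.L3.Γ (P.χ i) ϱ (γ.act x) y ^ 2 = kern P.L3.Γ (P.χ i) ϱ x y ^ 2 ∧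
      kern P.L3.Γ (P.χ i) ϱ x (γ.act y) ^ 2 = kern P.L3.Γ (P.χ i) ϱ x y ^ 2) ∧
    ∀ i, kern P.L3.Γ (P.χ (i + 1)) ϱ (P.om.act x) (P.om.act y) = kern P.L3.Γ (P.χ i) ϱ x y

/-- S13. The kernels represent the disc integral. -/
def KernRepStmt : Prop := ∀ (P : Pair) (W : Wt P.L3.Γ) (ϱ : ℝ), 0 < ϱ → ϱ < 1 → ∀ x : ℂ, ‖x‖ < 1 →
  ∫ y, kern P.L3.Γ (fun _ => 1) ϱ x y ∂W.μ = π * sig ϱ ∧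
  ∀ i f, Ct f → (∀ γ ∈ P.L3.Γ, ∀ z : ℂ, ‖z‖ < 1 → f (γ.act z) = P.χ i γ * f z) →
    Tb ϱ f x = ∫ y, kern P.L3.Γ (P.χ i) ϱ x y * f y ∂W.μ

/-- S14. The Hilbert-Schmidt bound on twisted functions. -/
def Hs4Stmt : Prop := ∀ (P : Pair) (W : Wt P.L3.Γ) (ϱ : ℝ), 0 < ϱ → ϱ < 1 → sig ϱ = 1 + √2 →
  ∀ i f, Ct f → (∀ γ ∈ P.L3.Γ, ∀ z : ℂ, ‖z‖ < 1 → f (γ.act z) = P.χ i γ * f z) →
    ∫ x, f x * Tb ϱ f x ∂W.μ ≤ 0.469 * (π * sig ϱ) * ∫ z, f z ^ 2 ∂W.μ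

/-- S15. Integration on the cover of degree four. -/
def IdxStmt : Prop := ∀ (P : Pair) (W : Wt P.L3.Γ) (W' : Wt P.L4.Γ), ∃ v : Fin 4 → SU,
  (∀ k, v k ∈ P.L3.Γ) ∧ P.χ 0 (v 0) = 1 ∧ P.χ 1 (v 0) = 1 ∧ P.χ 0 (v 1) = -1 ∧ P.χ 1 (v 1) = 1 ∧
  P.χ 0 (v 2) = 1 ∧ P.χ 1 (v 2) = -1 ∧ P.χ 0 (v 3) = -1 ∧ P.χ 1 (v 3) = -1 ∧
  ∀ f, Ct f → Invt P.L4.Γ f → ∫ z, f z ∂W'.μ = ∑ k, ∫ z, f ((v k).act z) ∂W.μ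

/-- S16. The gap of the cover. -/
def Gap4Stmt : Prop := ∀ (P : Pair) (W : Wt P.L4.Γ), Gap W (7 / 4)

/-- S17. The distance of orbits. -/
structure DqFacts {T : ℝ} (L : Lat T) : Prop where
  att : ∀ z w : ℂ, ‖z‖ < 1 → ‖w‖ < 1 → ∃ γ ∈ L.Γ, dq L.Γ z w = pdist z (γ.act w)
  le : ∀ z w : ℂ, ∀ γ ∈ L.Γ, dq L.Γ z w ≤ pdist z (γ.act w)
  nonneg : ∀ z w : ℂ, 0 ≤ dq L.Γ z w
  symm : ∀ z w : ℂ, ‖z‖ < 1 → ‖w‖ < 1 → dq L.Γ z w = dq L.Γ w z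
  tri : ∀ z p w : ℂ, ‖z‖ < 1 → ‖p‖ < 1 → ‖w‖ < 1 → dq L.Γ z w ≤ dq L.Γ z p + dq L.Γ p w
  inv : ∀ o : SU, (∀ γ : SU, γ ∈ L.Γ ↔ o * γ * o⁻¹ ∈ L.Γ) → ∀ z w : ℂ, ‖z‖ < 1 → ‖w‖ < 1 →
    dq L.Γ (o.act z) (o.act w) = dq L.Γ z w
  inv' : ∀ γ ∈ L.Γ, ∀ z w : ℂ, ‖z‖ < 1 → ‖w‖ < 1 → dq L.Γ z (γ.act w) = dq L.Γ z w
  cont : ContinuousOn (fun p : ℂ × ℂ => dq L.Γ p.1 p.2) (ball 0 1 ×ˢ ball 0 1)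
  disp : ∀ γ ∈ L.Γ, ∀ z : ℂ, ‖z‖ < 1 → pdist (γ.act z) z < 9 / 10 → γ = 1 ∨ γ = SU.neg1
  near : ∀ z w : ℂ, ‖z‖ < 1 → ‖w‖ < 1 → pdist z w ≤ 9 / 20 → dq L.Γ z w = pdist z w

def DqStmt : Prop := ∀ (T : ℝ) (L : Lat T), 12 / 5 ≤ T → DqFacts L

/-- What the surface layer hands to the manifold layer. -/
def SurfStmt : Prop := ∃ (T₁ T₂ : ℝ) (L₁ : Lat T₁) (L₂ : Lat T₂) (W₁ : Wt L₁.Γ) (W₂ : Wt L₂.Γ),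
  12 / 5 ≤ T₁ ∧ 12 / 5 ≤ T₂ ∧ Gap W₁ (7 / 4) ∧ Gap W₂ 4 ∧
  π * (1 + √2) ≤ W₁.μ.real univ ∧ π * (√2 / 2) ≤ W₂.μ.real univ

end Pool.Agent.MP_417fa2_gt.Q2
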