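import Pool.Agent.MP_417fa2_gt.Q2.ESpec
import Pool.Agent.MP_417fa2_gt.Q2.SSpec

/-! Statements of the manifold layer: the product of the two surfaces. -/

open scoped Manifold ContDiff Topology
open MeasureTheory Set Metric Real Filter

namespace Pool.Agent.MP_417fa2_gt.Q2

/-- A property of all models. -/
def AllQ (p : ∀ {T₁ T₂ : ℝ} {L₁ : Lat T₁} {L₂ : Lat T₂} {M : Type} [TopologicalSpace M]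
    [ChartedSpace E4 M], Model L₁ L₂ M → Prop) : Prop :=
  ∀ (T₁ T₂ : ℝ) (L₁ : Lat T₁) (L₂ : Lat T₂) (M : Type) [TopologicalSpace M] [ChartedSpace E4 M]
    (Q : Model L₁ L₂ M), 12 / 5 ≤ T₁ → 12 / 5 ≤ T₂ → p Q

/-- A property of all models with their smooth and measurable structure. -/
def AllQ' (p : ∀ {T₁ T₂ : ℝ} {L₁ : Lat T₁} {L₂ : Lat T₂} {M : Type} [TopologicalSpace M]
    [ChartedSpace E4 M] [IsManifold (𝓡 4) ∞ M] [MeasurableSpace M], Model L₁ L₂ M → Prop) : Prop :=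
  ∀ (T₁ T₂ : ℝ) (L₁ : Lat T₁) (L₂ : Lat T₂) (M : Type) [TopologicalSpace M] [T2Space M]
    [CompactSpace M] [ChartedSpace E4 M] [IsManifold (𝓡 4) ∞ M] [MeasurableSpace M] [BorelSpace M]
    (Q : Model L₁ L₂ M), 12 / 5 ≤ T₁ → 12 / 5 ≤ T₂ → p Q

/-- M1. The quotient with its charts exists. -/
def ModelStmt : Prop := ∀ (T₁ T₂ : ℝ) (L₁ : Lat T₁) (L₂ : Lat T₂), 12 / 5 ≤ T₁ → 12 / 5 ≤ T₂ →
  ∃ (M : Type) (_ : TopologicalSpace M) (_ : ChartedSpace E4 M), Nonempty (Model L₁ L₂ M)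

/-- M2. Centred parametrizations and transition maps. -/
structure TrFacts {T₁ T₂ : ℝ} {L₁ : Lat T₁} {L₂ : Lat T₂} {M : Type} [TopologicalSpace M]
    [ChartedSpace E4 M] (Q : Model L₁ L₂ M) : Prop where
  cen : ∀ p ∈ DD, ∃ u₁ u₂ : ℂ, ‖u₁‖ = 1 ∧ ‖u₂‖ = 1 ∧ ∀ y : E4, ‖y‖ < r0 →
    Q.proj (mob p.1 (zc y), mob p.2 (wc y / cc)) = param (Q.proj p) (rot u₁ u₂ y)
  trans : ∀ (x x' : M) (y₀ : E4), ‖y₀‖ < r0 → param x y₀ ∈ (chartAt E4 x').source →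
    ∃ γ₁ γ₂ : SU, ∀ᶠ y in 𝓝 y₀,
      chartAt E4 x' (param x y) = mkE (γ₁.act (zc y)) (cc * γ₂.act (wc y / cc))
  man : IsManifold (𝓡 4) ∞ M

def TrStmt : Prop := AllQ fun Q => TrFacts Q

/-- M3. The distance; the quotient is compact and Hausdorff. -/
def DistStmt : Prop := AllQ fun {_ _ _ _ M} _ _ Q => DFacts Q.d ∧ T2Space M ∧ CompactSpace M

/-- M4. The symmetry. -/
def SymmStmt : Prop := AllQ fun Q => ∃ fix, JFacts Q.d Q.J fix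

/-- M5. Block metrics exist. -/
def BlkStmt : Prop := AllQ' fun {_ _ _ _ M} _ _ _ _ _ =>
  ∀ F H : M → ℝ, Smooth F → Smooth H → ∃ g : RMetric M, IsBlk g F H

/-- M6. The quotient is not a sphere. -/
def NotSphStmt : Prop := AllQ fun {_ _ _ _ M} _ _ _ =>
  IsEmpty (M ≃ₜ sphere (0 : EuclideanSpace ℝ (Fin 5)) 1)

/-- M7. The volume of the product metric. -/
def VolStmt : Prop := AllQ' fun {_ _ L₁ L₂ M} _ _ _ _ Q =>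
  ∀ g : RMetric M, IsBlk g (fun _ => 0) (fun _ => 0) → ∀ (W₁ : Wt L₁.Γ) (W₂ : Wt L₂.Γ) (f : M → ℝ),
    Continuous f → Integrable (fun p => f (Q.proj p)) (W₁.μ.prod W₂.μ) ∧
      ∫ x, f x ∂vol g = cc ^ 2 * ∫ p, f (Q.proj p) ∂W₁.μ.prod W₂.μ

/-- Invariant smooth functions on the bidisc. -/
structure Sm2 (Γ₁ Γ₂ : Subgroup SU) (Φ : ℂ × ℂ → ℝ) : Prop where
  sm : ContDiffOn ℝ ∞ Φ DD
  inv1 : ∀ w : ℂ, ‖w‖ < 1 → Invt Γ₁ fun z => Φ (z, w)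
  inv2 : ∀ z : ℂ, ‖z‖ < 1 → Invt Γ₂ fun w => Φ (z, w)

/-- M8. The operators of the product metric on the bidisc. -/
def OpStmt : Prop := AllQ' fun {_ _ L₁ L₂ M} _ _ _ _ Q =>
  ∀ g : RMetric M, IsBlk g (fun _ => 0) (fun _ => 0) →
    (∀ x, qCurv g x = (4 * 4 * (4 / cc ^ 2) - 4 ^ 2 - (4 / cc ^ 2) ^ 2) / 6) ∧
    ∀ φ : M → ℝ, Smooth φ → Sm2 L₁.Γ L₂.Γ (fun p => φ (Q.proj p)) ∧ ∀ p ∈ DD,
      lapM g φ (Q.proj p) = op1 (fun q => φ (Q.proj q)) p + op2 (fun q => φ (Q.proj q)) p ∧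
      pan2M g φ (Q.proj p) = (16 / cc ^ 2 - 8) / 3 * op1 (fun q => φ (Q.proj q)) p +
        (16 - 8 / cc ^ 2) / 3 * op2 (fun q => φ (Q.proj q)) p

/-- M9. The two Laplacians on the bidisc: smoothness and the sign of the cross term. -/
def CrossStmt : Prop := ∀ (T₁ T₂ : ℝ) (L₁ : Lat T₁) (L₂ : Lat T₂) (W₁ : Wt L₁.Γ) (W₂ : Wt L₂.Γ)
  (Φ : ℂ × ℂ → ℝ), Sm2 L₁.Γ L₂.Γ Φ →
  ContDiffOn ℝ ∞ (op1 Φ) DD ∧ ContDiffOn ℝ ∞ (op2 Φ) DD ∧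
    (∀ F : ℂ × ℂ → ℝ, ContinuousOn F DD → Integrable F (W₁.μ.prod W₂.μ)) ∧
    0 ≤ ∫ p, op1 Φ p * op2 Φ p ∂W₁.μ.prod W₂.μ

/-- M10. The gaps on the slices. -/
def SliceStmt : Prop := ∀ (T₁ T₂ : ℝ) (L₁ : Lat T₁) (L₂ : Lat T₂) (W₁ : Wt L₁.Γ) (W₂ : Wt L₂.Γ)
  (Λ₁ Λ₂ : ℝ), 0 < Λ₁ → 0 < Λ₂ → Gap W₁ Λ₁ → Gap W₂ Λ₂ → ∀ Φ : ℂ × ℂ → ℝ, Sm2 L₁.Γ L₂.Γ Φ →
  -∫ p, Φ p * op1 Φ p ∂W₁.μ.prod W₂.μ ≤ 1 / Λ₁ * ∫ p, op1 Φ p ^ 2 ∂W₁.μ.prod W₂.μ ∧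
  -∫ p, Φ p * op2 Φ p ∂W₁.μ.prod W₂.μ ≤ cc ^ 2 / Λ₂ * ∫ p, op2 Φ p ^ 2 ∂W₁.μ.prod W₂.μ ∧
  ∃ c : ℝ, ∫ p, (Φ p - c) ^ 2 ∂W₁.μ.prod W₂.μ ≤ 2 / Λ₁ ^ 2 * ∫ p, op1 Φ p ^ 2 ∂W₁.μ.prod W₂.μ +
    2 * cc ^ 4 / Λ₂ ^ 2 * ∫ p, op2 Φ p ^ 2 ∂W₁.μ.prod W₂.μ

/-- M11. Coercivity and the total Q-curvature of the product. -/
def CoerStmt : Prop := AllQ' fun {_ _ L₁ L₂ M} _ _ _ _ _ =>
  ∀ g : RMetric M, IsBlk g (fun _ => 0) (fun _ => 0) → ∀ (W₁ : Wt L₁.Γ) (W₂ : Wt L₂.Γ),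
    Gap W₁ (7 / 4) → Gap W₂ 4 → π * (1 + √2) ≤ W₁.μ.real univ → π * (√2 / 2) ≤ W₂.μ.real univ →
    (∃ C : ℝ, ∀ φ, Smooth φ → ∫ x, lapM g φ x ^ 2 ∂vol g +
      ∫ x, (φ x - ⨍ z, φ z ∂vol g) ^ 2 ∂vol g ≤ C * Bf g φ φ) ∧ 8 * π ^ 2 < qf g fun _ => 1

/-- M12. The data of level zero exist. -/
def GeoStmt : Prop := ∃ (M : Type) (_ : TopologicalSpace M) (_ : T2Space M) (_ : CompactSpace M)
  (_ : ChartedSpace E4 M) (_ : IsManifold (𝓡 4) ∞ M) (_ : MeasurableSpace M) (_ : BorelSpace M),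
  Nonempty (L0 M) ∧ IsEmpty (M ≃ₜ sphere (0 : EuclideanSpace ℝ (Fin 5)) 1)

end Pool.Agent.MP_417fa2_gt.Q2
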