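import Pool.Agent.MP_417fa2_gt.Q2.ASpec
import Pool.Agent.MP_417fa2_gt.Q2.MSpec

/-! The final statement from the three main statements. -/

open scoped Manifold ContDiff Topology
open MeasureTheory Set Filter

namespace Pool.Agent.MP_417fa2_gt.Q2

/-- The negative answer to the question of convergence. -/
def Final : Prop :=
  ∃ (M : Type) (_ : TopologicalSpace M) (_ : T2Space M) (_ : CompactSpace M)
    (_ : ChartedSpace E4 M) (_ : IsManifold (𝓡 4) ∞ M) (_ : MeasurableSpace M) (_ : BorelSpace M)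
    (g : RMetric M) (γ : ℝ → RMetric M),
    IsEmpty (M ≃ₜ Metric.sphere (0 : EuclideanSpace ℝ (Fin 5)) 1) ∧
    (∀ φ : M → ℝ, Smooth φ → 0 ≤ ∫ x, φ x * paneitz g φ x ∂vol g) ∧
    (∀ φ : M → ℝ, Smooth φ → (∀ x, paneitz g φ x = 0) → ∃ c, ∀ x, φ x = c) ∧
    ∫ x, qCurv g x ∂vol g = 8 * Real.pi ^ 2 ∧
    IsFlow (Ici 0) γ ∧
    (∃ w : M → ℝ, Smooth w ∧ ∀ x v v', gin (γ 0) x v v' = Real.exp (2 * w x) * gin g x v v') ∧
    ∀ g' : RMetric M,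
      (∃ w : M → ℝ, Smooth w ∧ ∀ x v v', gin g' x v v' = Real.exp (2 * w x) * gin g x v v') →
      (∃ c, ∀ x, qCurv g' x = c) → ∀ t : ℕ → ℝ, (∀ n, 0 ≤ t n) →
        ¬∀ᵐ x ∂vol g, ∀ v v', Tendsto (fun n => gin (γ (t n)) x v v') atTop (𝓝 (gin g' x v v'))

theorem final_of (h1 : GeoStmt) (h2 : LowStmt) (h3 : FlowStmt2) : Final := by
  obtain ⟨M, i1, i2, i3, i4, i5, i6, i7, ⟨X⟩, hs⟩ := h1
  obtain ⟨g, u₀, hl⟩ := h2 M X
  obtain ⟨a, b, c, γ, d, e, f⟩ := h3 M g X.J u₀ hl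
  exact ⟨M, i1, i2, i3, i4, i5, i6, i7, g, γ, hs, a, b, c, d, e, f⟩

end Pool.Agent.MP_417fa2_gt.Q2
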