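import Pool.Agent.MP_417fa2_gt.An.Main

/-! The volume is constant and the energy does not increase along the flow. -/

open scoped Manifold ContDiff Topology
open MeasureTheory Set Filter Real

namespace Pool.Agent.MP_417fa2_gt.Q2.Fl

variable {M : Type} [TopologicalSpace M] [T2Space M] [CompactSpace M] [ChartedSpace E4 M]
  [IsManifold (𝓡 4) ∞ M] [MeasurableSpace M] [BorelSpace M] (S : Setup M)

/-- The quadratic and linear part of the energy. -/
noncomputable def EE (u : M → ℝ) : ℝ :=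
  ∫ x, u x * S.P u x ∂S.μ + 2 * ∫ x, S.q x * u x ∂S.μ

variable {S} {w : ℝ → M → ℝ} {t : ℝ}

omit [T2Space M] [CompactSpace M] [IsManifold (𝓡 4) ∞ M] [BorelSpace M] in
theorem exp_rhs (u : M → ℝ) (x : M) :
    exp (4 * u x) * S.rhs u x = -(1 / 4) * S.P (S.curv u) x := by
  have i1 : exp (4 * u x) * exp (-4 * u x) = 1 := by rw [← exp_add]; simp
  simp only [Setup.rhs]
  linear_combination (-(1 / 4) * S.P (S.curv u) x) * i1

omit [T2Space M] [CompactSpace M] [IsManifold (𝓡 4) ∞ M] [BorelSpace M] in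
theorem deriv_at (hw : S.Sol (Ici 0) w) {r : ℝ} (hr : 0 < r) (x : M) :
    HasDerivAt (fun s => w s x) (S.rhs (w r) x) r :=
  (hw.eqn r hr.le x).hasDerivAt (Ici_mem_nhds hr)

theorem anti_of {f : ℝ → ℝ} (ht : 0 ≤ t) (hc : ContinuousOn f (Icc 0 t))
    (hd : ∀ s ∈ Ioo 0 t, ∃ g, HasDerivAt f g s ∧ g ≤ 0) : f t ≤ f 0 := by
  refine antitoneOn_of_deriv_nonpos (convex_Icc 0 t) hc (fun s hs => ?_) (fun s hs => ?_)
    ⟨le_rfl, ht⟩ ⟨ht, le_rfl⟩ ht
  · rw [interior_Icc] at hs
    obtain ⟨g, h1, -⟩ := hd s hs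
    exact h1.differentiableAt.differentiableWithinAt
  · rw [interior_Icc] at hs
    obtain ⟨g, h1, h2⟩ := hd s hs
    rwa [h1.deriv]

theorem vol_const (hw : S.Sol (Ici 0) w) (ht : 0 ≤ t) :
    ∫ x, exp (4 * w t x) ∂S.μ = ∫ x, exp (4 * w 0 x) ∂S.μ := by
  have hI : UniqueDiffOn ℝ (Ici (0 : ℝ)) := uniqueDiffOn_Ici 0
  have hK : Icc 0 t ⊆ Ici 0 := fun s hs => hs.1
  have hρ := (hw.smooth.const_mul 4).exp
  have hF := (hρ.mono hK).continuousOn
  have hF' := (((hρ.mul (hw.smooth.rhs S hI)).const_mul 4).mono hK).continuousOn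
  have hd : ∀ s ∈ Ioo 0 t, HasDerivAt (fun r => ∫ x, exp (4 * w r x) ∂S.μ) 0 s := by
    intro s hs
    refine (jt_hasDerivAt_integral S (w := fun s x => exp (4 * w s x))
      (v := fun s x => 4 * (exp (4 * w s x) * S.rhs (w s) x)) hs hF hF' fun r hr x =>
        ((deriv_at hw hr.1 x).const_mul 4).exp.congr_deriv (by ring)).congr_deriv ?_
    simp only [exp_rhs, integral_const_mul,
      S.integral_P (S.curv_smooth (hw.smooth.slice hs.1.le)), mul_zero]
  have hc := jt_continuousOn_integral S (w := fun s x => exp (4 * w s x)) isCompact_Icc hF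
  exact le_antisymm (anti_of ht hc fun s hs => ⟨0, hd s hs, le_rfl⟩)
    (neg_le_neg_iff.1 (anti_of (f := fun r => -∫ x, exp (4 * w r x) ∂S.μ) ht hc.neg
      fun s hs => ⟨-0, (hd s hs).neg, by simp⟩))

theorem rem_deriv (hw : S.Sol (Ici 0) w) {s : ℝ} (hs : s ∈ Ioo 0 t) :
    HasDerivAt (fun r => ∫ x, (w r x - w s x) * (S.P (w r) x - S.P (w s) x) ∂S.μ) 0 s := by
  have hI : UniqueDiffOn ℝ (Ici (0 : ℝ)) := uniqueDiffOn_Ici 0
  have hK : Icc 0 t ⊆ Ici 0 := fun s hs => hs.1
  have hs' := Ioo_subset_Icc_self hs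
  obtain ⟨C, C0, hC⟩ := (hw.smooth.rhs S hI).bound isCompact_Icc hK
  have hP := (((hw.smooth.P S hI).sub
    ((S.P_smooth (hw.smooth.slice hs.1.le)).smoothOn _)).mono hK).continuousOn
  have hn : Icc 0 t ∈ 𝓝 s := Icc_mem_nhds hs.1 hs.2
  have hA : ContinuousOn (fun r => ∫ x, |S.P (w r) x - S.P (w s) x| ∂S.μ) (Icc 0 t) :=
    jt_continuousOn_integral S (w := fun r x => |S.P (w r) x - S.P (w s) x|) isCompact_Icc hP.abs
  have hA' : Tendsto (fun r => C * ∫ x, |S.P (w r) x - S.P (w s) x| ∂S.μ) (𝓝 s) (𝓝 0) := by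
    simpa using ((hA.continuousAt hn).tendsto.const_mul C)
  rw [hasDerivAt_iff_isLittleO]
  simp only [sub_self, zero_mul, integral_zero, smul_zero, sub_zero]
  refine Asymptotics.IsLittleO.of_bound fun c hc => ?_
  filter_upwards [hn, hA'.eventually (gt_mem_nhds hc)] with r hr hlt
  have h1 : ∀ x, |w r x - w s x| ≤ C * |r - s| := fun x =>
    (convex_Icc 0 t).norm_image_sub_le_of_norm_hasDerivWithin_le (f := fun r => w r x)
      (f' := fun r => S.rhs (w r) x) (fun a ha => (hw.eqn a ha.1 x).mono hK)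
      (fun a ha => hC a ha x) hs' hr
  have h2 : Continuous fun x => S.P (w r) x - S.P (w s) x :=
    jt_slice (w := fun r x => S.P (w r) x - S.P (w s) x) hP hr
  calc ‖∫ x, (w r x - w s x) * (S.P (w r) x - S.P (w s) x) ∂S.μ‖
      ≤ ∫ x, C * |r - s| * |S.P (w r) x - S.P (w s) x| ∂S.μ := by
        refine norm_integral_le_of_norm_le ((S.integrable h2.abs).const_mul _)
          (Eventually.of_forall fun x => ?_)
        rw [Real.norm_eq_abs, abs_mul]
        exact mul_le_mul_of_nonneg_right (h1 x) (abs_nonneg _)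
    _ = (C * ∫ x, |S.P (w r) x - S.P (w s) x| ∂S.μ) * ‖r - s‖ := by
        rw [integral_const_mul, Real.norm_eq_abs]; ring
    _ ≤ c * ‖r - s‖ := mul_le_mul_of_nonneg_right hlt.le (norm_nonneg _)

theorem quad_split {f g : M → ℝ} (hf : Smooth f) (hg : Smooth g) :
    ∫ x, (f x - g x) * (S.P f x - S.P g x) ∂S.μ =
      ∫ x, f x * S.P f x ∂S.μ - 2 * ∫ x, f x * S.P g x ∂S.μ + ∫ x, g x * S.P g x ∂S.μ := by
  have i1 := S.integrable (hf.mul (S.P_smooth hf)).continuous
  have i2 := S.integrable (hf.mul (S.P_smooth hg)).continuous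
  have i3 := S.integrable (hg.mul (S.P_smooth hf)).continuous
  have i4 := S.integrable (hg.mul (S.P_smooth hg)).continuous
  have e : ∀ x, (f x - g x) * (S.P f x - S.P g x) =
      f x * S.P f x - f x * S.P g x - g x * S.P f x + g x * S.P g x := fun x => by ring
  have i5 : Integrable (fun x => f x * S.P f x - f x * S.P g x) S.μ := i1.sub i2
  have i6 : Integrable (fun x => f x * S.P f x - f x * S.P g x - g x * S.P f x) S.μ := i5.sub i3
  simp only [e]
  rw [integral_add i6 i4, integral_sub i5 i3, integral_sub i1 i2, S.P_symm hf hg]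
  ring

theorem EE_anti (hG : ∀ φ, Smooth φ → 0 ≤ ∫ x, φ x * S.P φ x ∂S.μ) (hw : S.Sol (Ici 0) w)
    (ht : 0 ≤ t) : EE S (w t) ≤ EE S (w 0) := by
  have hI : UniqueDiffOn ℝ (Ici (0 : ℝ)) := uniqueDiffOn_Ici 0
  have hK : Icc 0 t ⊆ Ici 0 := fun s hs => hs.1
  have hR := hw.smooth.rhs S hI
  refine anti_of (f := fun r => EE S (w r)) ht
    ((jt_continuousOn_integral S isCompact_Icc
      ((hw.smooth.mul (hw.smooth.P S hI)).mono hK).continuousOn).add
      (continuousOn_const.mul (jt_continuousOn_integral S isCompact_Icc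
        (((S.q_sm.smoothOn _).mul hw.smooth).mono hK).continuousOn))) fun s hs => ?_
  have hs0 := hw.smooth.slice hs.1.le
  have hc := S.curv_smooth hs0
  have hh : Smooth fun x => S.P (w s) x + S.q x := (S.P_smooth hs0).add S.q_sm
  have d1 := jt_hasDerivAt_integral S (w := fun r x => w r x * (S.P (w s) x + S.q x))
    (v := fun r x => S.rhs (w r) x * (S.P (w s) x + S.q x)) hs
    ((hw.smooth.mul (hh.smoothOn _)).mono hK).continuousOn
    ((hR.mul (hh.smoothOn _)).mono hK).continuousOn fun r hr x => (deriv_at hw hr.1 x).mul_const _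
  refine ⟨_, (((rem_deriv hw hs).add (d1.const_mul 2)).sub_const
    (∫ x, w s x * S.P (w s) x ∂S.μ)).congr_of_eventuallyEq ?_, ?_⟩
  · filter_upwards [Ici_mem_nhds hs.1] with r hr
    have hr0 := hw.smooth.slice hr
    have e : ∀ x, w r x * (S.P (w s) x + S.q x) = w r x * S.P (w s) x + S.q x * w r x :=
      fun x => by ring
    simp only [Pi.add_apply, e, EE]
    rw [quad_split hr0 hs0, integral_add (S.integrable (hr0.mul (S.P_smooth hs0)).continuous)
      (S.integrable (S.q_sm.mul hr0).continuous)]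
    ring
  · have e : ∀ x, S.rhs (w s) x * (S.P (w s) x + S.q x) =
        -(1 / 4) * (S.curv (w s) x * S.P (S.curv (w s)) x) := fun x => by
      simp only [Setup.rhs, Setup.curv]
      ring
    simp only [e, integral_const_mul]
    linarith [hG _ hc]

end Pool.Agent.MP_417fa2_gt.Q2.Fl
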