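import Pool.Agent.MP_417fa2_gt.Q2.SSpec

/-! G1. The ring `ℤ[ζ]` and the order. -/

open scoped ComplexConjugate

namespace Pool.Agent.MP_417fa2_gt.Q2

namespace G1

theorem s2 : (√2 : ℝ) * √2 = 2 := Real.mul_self_sqrt (by norm_num)

theorem s2c : ((√2 : ℝ) : ℂ) * ((√2 : ℝ) : ℂ) = 2 := by exact_mod_cast s2

theorem z4 : zeta ^ 4 = -1 := by
  have h := SU.zeta_sq
  have : zeta ^ 4 = (zeta ^ 2) ^ 2 := by ring
  rw [this, h, Complex.I_sq]

theorem z_mul_conj : zeta * conj zeta = 1 := by rw [Complex.mul_conj, normSq_zeta]; simp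

theorem conj_z : conj zeta = -zeta ^ 3 := by
  linear_combination (-zeta ^ 3) * z_mul_conj + (conj zeta) * z4

theorem z_re : zeta.re = √2 / 2 := by
  have h0 : (√2 : ℝ) ≠ 0 := by positivity
  simp only [zeta, Complex.div_ofReal_re, Complex.add_re, Complex.one_re, Complex.I_re]
  field_simp
  linarith [s2]

theorem z_im : zeta.im = √2 / 2 := by
  have h0 : (√2 : ℝ) ≠ 0 := by positivity
  simp only [zeta, Complex.div_ofReal_im, Complex.add_im, Complex.one_im, Complex.I_im]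
  field_simp
  linarith [s2]

theorem s2_eq : ((√2 : ℝ) : ℂ) = zeta - zeta ^ 3 := by
  have h := Complex.add_conj zeta
  rw [conj_z, z_re] at h
  rw [sub_eq_add_neg, h]
  push_cast
  ring

theorem ev_re (v : Fin 4 → ℤ) : (ev v).re = v 0 + √2 / 2 * (v 1 - v 3) := by
  have h3 : zeta ^ 3 = Complex.I * zeta := by rw [← SU.zeta_sq]; ring
  rw [ev, h3, SU.zeta_sq]
  simp [z_re, z_im]
  ring

theorem ev_im (v : Fin 4 → ℤ) : (ev v).im = v 2 + √2 / 2 * (v 1 + v 3) := by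
  have h3 : zeta ^ 3 = Complex.I * zeta := by rw [← SU.zeta_sq]; ring
  rw [ev, h3, SU.zeta_sq]
  simp [z_re, z_im]
  ring

theorem irr {a b : ℤ} (h : (a : ℝ) + √2 * b = 0) : a = 0 ∧ b = 0 := by
  by_cases hb : b = 0
  · subst hb
    simpa using h
  · exfalso
    have hb' : (b : ℝ) ≠ 0 := by exact_mod_cast hb
    refine irrational_sqrt_two ⟨-a / b, ?_⟩
    push_cast
    field_simp
    linarith

theorem ev_inj (v v' : Fin 4 → ℤ) (h : ev v = ev v') : v = v' := by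
  have h1 := congrArg Complex.re h
  have h2 := congrArg Complex.im h
  rw [ev_re, ev_re] at h1
  rw [ev_im, ev_im] at h2
  have h3 := irr (a := 2 * (v 0 - v' 0)) (b := v 1 - v 3 - (v' 1 - v' 3))
    (by push_cast; linarith)
  have h4 := irr (a := 2 * (v 2 - v' 2)) (b := v 1 + v 3 - (v' 1 + v' 3))
    (by push_cast; linarith)
  funext i
  fin_cases i <;> simp <;> omega

theorem ev_add (v v' : Fin 4 → ℤ) : ev (v + v') = ev v + ev v' := by
  simp only [ev, Pi.add_apply]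
  push_cast
  ring

theorem ev_neg (v : Fin 4 → ℤ) : ev (-v) = -ev v := by
  simp only [ev, Pi.neg_apply]
  push_cast
  ring

theorem ev_zero : ev 0 = 0 := by simp [ev]

theorem ev_mul (v w : Fin 4 → ℤ) :
    ∃ u, ev u = ev v * ev w ∧ ∑ i, u i ≡ (∑ i, v i) * ∑ i, w i [ZMOD 2] := by
  refine ⟨![v 0 * w 0 - v 1 * w 3 - v 2 * w 2 - v 3 * w 1,
    v 0 * w 1 + v 1 * w 0 - v 2 * w 3 - v 3 * w 2,
    v 0 * w 2 + v 1 * w 1 + v 2 * w 0 - v 3 * w 3,
    v 0 * w 3 + v 1 * w 2 + v 2 * w 1 + v 3 * w 0], ?_, ?_⟩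
  · simp only [ev, Matrix.cons_val]
    push_cast
    linear_combination (-((v 1 : ℂ) * w 3 + v 2 * w 2 + v 3 * w 1) -
      (v 2 * w 3 + v 3 * w 2) * zeta - v 3 * w 3 * zeta ^ 2) * z4
  · simp only [Fin.sum_univ_four, Matrix.cons_val]
    exact Int.modEq_iff_dvd.2 ⟨v 1 * w 3 + v 2 * w 2 + v 3 * w 1 + v 2 * w 3 + v 3 * w 2 +
      v 3 * w 3, by ring⟩

theorem ev_conj (v : Fin 4 → ℤ) : ∃ u, ev u = conj (ev v) ∧ ∑ i, u i ≡ ∑ i, v i [ZMOD 2] := by
  refine ⟨![v 0, -v 3, -v 2, -v 1], ?_, ?_⟩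
  · simp only [ev, Matrix.cons_val, map_add, map_mul, map_pow, map_intCast, conj_z]
    push_cast
    linear_combination (-(v 2 : ℂ) * zeta ^ 2 + v 3 * (zeta ^ 5 - zeta)) * z4
  · simp only [Fin.sum_univ_four, Matrix.cons_val]
    exact Int.modEq_iff_dvd.2 ⟨v 1 + v 2 + v 3, by ring⟩

theorem ev_piz (u : Fin 4 → ℤ) :
    piz * ev u = ev ![u 0 + u 3, u 1 - u 0, u 2 - u 1, u 3 - u 2] := by
  simp only [ev, piz, Matrix.cons_val]
  push_cast
  linear_combination (-(u 3 : ℂ)) * z4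

theorem ev_dvd (v : Fin 4 → ℤ) : (∃ u, ev v = piz * ev u) ↔ Even (∑ i, v i) := by
  constructor
  · rintro ⟨u, h⟩
    rw [ev_piz] at h
    rw [ev_inj _ _ h]
    simp only [Fin.sum_univ_four, Matrix.cons_val]
    exact ⟨u 3, by ring⟩
  · rintro ⟨k, hk⟩
    refine ⟨![v 0 - k, v 1 + v 0 - k, v 2 + v 1 + v 0 - k, k], ?_⟩
    rw [ev_piz]
    congr 1
    rw [Fin.sum_univ_four] at hk
    funext i
    fin_cases i <;> simp <;> omega

/-- The ring `ℤ[ζ]`. -/
def R : Subring ℂ where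
  carrier := {x | ∃ v, x = ev v}
  mul_mem' := by
    rintro _ _ ⟨v, rfl⟩ ⟨w, rfl⟩
    obtain ⟨u, h, -⟩ := ev_mul v w
    exact ⟨u, h.symm⟩
  one_mem' := ⟨![1, 0, 0, 0], by simp [ev]⟩
  add_mem' := by
    rintro _ _ ⟨v, rfl⟩ ⟨w, rfl⟩
    exact ⟨v + w, (ev_add v w).symm⟩
  zero_mem' := ⟨0, ev_zero.symm⟩
  neg_mem' := by
    rintro _ ⟨v, rfl⟩
    exact ⟨-v, (ev_neg v).symm⟩

theorem ev_mem (v : Fin 4 → ℤ) : ev v ∈ R := ⟨v, rfl⟩

theorem z_mem : zeta ∈ R := ⟨![0, 1, 0, 0], by simp [ev]⟩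

theorem piz_mem : piz ∈ R := R.sub_mem R.one_mem z_mem

theorem s2_mem : ((√2 : ℝ) : ℂ) ∈ R := by
  rw [s2_eq]
  exact R.sub_mem z_mem (R.pow_mem z_mem 3)

theorem conj_mem {x : ℂ} (h : x ∈ R) : conj x ∈ R := by
  obtain ⟨v, rfl⟩ := h
  obtain ⟨u, hu, -⟩ := ev_conj v
  exact ⟨u, hu.symm⟩

theorem sub_conj {x : ℂ} (h : x ∈ R) : ∃ e ∈ R, x - conj x = piz * e := by
  obtain ⟨v, rfl⟩ := h
  obtain ⟨u, hu, hu'⟩ := ev_conj v
  obtain ⟨e, he⟩ := (ev_dvd (v + -u)).2 (by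
    simp only [Pi.add_apply, Pi.neg_apply, Finset.sum_add_distrib, Finset.sum_neg_distrib]
    obtain ⟨k, hk⟩ := hu'.dvd
    exact ⟨k, by linarith⟩)
  exact ⟨ev e, ev_mem e, by rw [← he, ev_add, ev_neg, hu]; ring⟩

theorem piz_ne : piz ≠ 0 := by
  intro h
  have h1 := normSq_piz
  rw [h, map_zero] at h1
  nlinarith [s2]

theorem conj_piz : conj piz = zeta ^ 3 * piz := by
  simp only [piz, map_sub, map_one, conj_z]
  linear_combination z4

/-- The inverse of the prime. -/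
noncomputable def pp : ℂ := piz⁻¹

theorem piz_pp : piz * pp = 1 := mul_inv_cancel₀ piz_ne

theorem conj_pp : conj pp = 1 - pp := by
  have h : conj piz * conj pp = 1 := by rw [← map_mul, piz_pp, map_one]
  have h1 := piz_pp
  rw [conj_piz] at h
  simp only [piz] at h h1
  linear_combination (-zeta * pp) * h + (1 - conj pp) * h1 + (pp * conj pp * (1 - zeta)) * z4

theorem lamc : (lam : ℂ) * lam = (√2 : ℝ) - 1 := by exact_mod_cast lam_sq

theorem pp_norm : pp * (1 - pp) * (1 - (lam : ℂ) * lam) = 1 := by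
  have h := SU.om.det
  simp only [SU.om, div_eq_mul_inv, map_mul, Complex.conj_ofReal, map_one] at h
  rw [show piz⁻¹ = pp from rfl, conj_pp] at h
  linear_combination h

theorem inO_iff {α β : ℂ} : InO α β ↔ ∃ c ∈ R, ∃ b ∈ R, α = c + b * pp ∧ β = b * lam * pp := by
  constructor
  · rintro ⟨c, b, h1, h2⟩
    exact ⟨_, ev_mem c, _, ev_mem b, h1, h2⟩
  · rintro ⟨_, ⟨c, rfl⟩, _, ⟨b, rfl⟩, h1, h2⟩
    exact ⟨c, b, h1, h2⟩

theorem of_mem {x : ℂ} (h : x ∈ R) : InO x 0 := inO_iff.2 ⟨x, h, 0, R.zero_mem, by simp, by simp⟩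

theorem add {α β α' β' : ℂ} (h : InO α β) (h' : InO α' β') : InO (α + α') (β + β') := by
  obtain ⟨c, hc, b, hb, rfl, rfl⟩ := inO_iff.1 h
  obtain ⟨c', hc', b', hb', rfl, rfl⟩ := inO_iff.1 h'
  exact inO_iff.2 ⟨c + c', R.add_mem hc hc', b + b', R.add_mem hb hb', by ring, by ring⟩

theorem neg {α β : ℂ} (h : InO α β) : InO (-α) (-β) := by
  obtain ⟨c, hc, b, hb, rfl, rfl⟩ := inO_iff.1 h
  exact inO_iff.2 ⟨-c, R.neg_mem hc, -b, R.neg_mem hb, by ring, by ring⟩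

theorem smul {x α β : ℂ} (hx : x ∈ R) (h : InO α β) : InO (x * α) (x * β) := by
  obtain ⟨c, hc, b, hb, rfl, rfl⟩ := inO_iff.1 h
  exact inO_iff.2 ⟨x * c, R.mul_mem hx hc, x * b, R.mul_mem hx hb, by ring, by ring⟩

/-- The product in coordinates. -/
theorem mul_coord {c b c' b' e f : ℂ} (he : b' - conj b' = piz * e) (hf : c' - conj c' = piz * f) :
    (c + b * pp) * (c' + b' * pp) + b * lam * pp * conj (b' * lam * pp) =
      c * c' + b * f - b * conj b' + (c * b' + b * conj c' + b * conj b' + b * e) * pp ∧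
    (c + b * pp) * (b' * lam * pp) + b * lam * pp * conj (c' + b' * pp) =
      (c * b' + b * conj c' + b * conj b' + b * e) * lam * pp := by
  have h1 : e = (b' - conj b') * pp := by linear_combination (-pp) * he - e * piz_pp
  have h2 : f = (c' - conj c') * pp := by linear_combination (-pp) * hf - f * piz_pp
  simp only [map_mul, map_add, Complex.conj_ofReal, conj_pp]
  rw [h1, h2]
  constructor
  · linear_combination (-b * conj b') * pp_norm
  · ring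

theorem mul {α β α' β' : ℂ} (h : InO α β) (h' : InO α' β') :
    InO (α * α' + β * conj β') (α * β' + β * conj α') := by
  obtain ⟨c, hc, b, hb, rfl, rfl⟩ := inO_iff.1 h
  obtain ⟨c', hc', b', hb', rfl, rfl⟩ := inO_iff.1 h'
  obtain ⟨e, he, he'⟩ := sub_conj hb'
  obtain ⟨f, hf, hf'⟩ := sub_conj hc'
  obtain ⟨h1, h2⟩ := mul_coord (c := c) (b := b) he' hf'
  refine inO_iff.2 ⟨_, ?_, _, ?_, h1, h2⟩
  · exact R.sub_mem (R.add_mem (R.mul_mem hc hc') (R.mul_mem hb hf)) (R.mul_mem hb (conj_mem hb'))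
  · exact R.add_mem (R.add_mem (R.add_mem (R.mul_mem hc hb') (R.mul_mem hb (conj_mem hc')))
      (R.mul_mem hb (conj_mem hb'))) (R.mul_mem hb he)

theorem cj {α β : ℂ} (h : InO α β) : InO (conj α) (-β) := by
  obtain ⟨c, hc, b, hb, rfl, rfl⟩ := inO_iff.1 h
  obtain ⟨e, he, he'⟩ := sub_conj hb
  refine inO_iff.2 ⟨conj c + conj b + e, R.add_mem (R.add_mem (conj_mem hc) (conj_mem hb)) he,
    -b, R.neg_mem hb, ?_, by ring⟩
  simp only [map_mul, map_add, conj_pp]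
  linear_combination pp * he' + e * piz_pp

theorem geo_mem : 1 + zeta + zeta ^ 2 ∈ R :=
  R.add_mem (R.add_mem R.one_mem z_mem) (R.pow_mem z_mem 2)

theorem geo : (1 - zeta ^ 3) * pp = 1 + zeta + zeta ^ 2 := by
  have h := piz_pp
  simp only [piz] at h
  linear_combination (1 + zeta + zeta ^ 2) * h

theorem twist {α β : ℂ} (h : InO α β) : InO α (β * zeta ^ 3) := by
  obtain ⟨c, hc, b, hb, rfl, rfl⟩ := inO_iff.1 h
  refine inO_iff.2 ⟨c + b * (1 + zeta + zeta ^ 2), R.add_mem hc (R.mul_mem hb geo_mem),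
    b * zeta ^ 3, R.mul_mem hb (R.pow_mem z_mem 3), ?_, by ring⟩
  linear_combination b * geo

theorem twist' {α β : ℂ} (h : InO α β) : InO (α * zeta ^ 3) β := by
  obtain ⟨c, hc, b, hb, rfl, rfl⟩ := inO_iff.1 h
  refine inO_iff.2 ⟨c * zeta ^ 3 - b * (1 + zeta + zeta ^ 2),
    R.sub_mem (R.mul_mem hc (R.pow_mem z_mem 3)) (R.mul_mem hb geo_mem), b, hb, ?_, rfl⟩
  linear_combination (-b) * geo

end G1

theorem oFacts : OFacts where
  ev_inj := G1.ev_inj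
  ev_add := G1.ev_add
  ev_neg := G1.ev_neg
  ev_mul := G1.ev_mul
  ev_conj := G1.ev_conj
  ev_dvd := G1.ev_dvd
  of_ev v := G1.of_mem (G1.ev_mem v)
  add _ _ _ _ := G1.add
  neg _ _ := G1.neg
  mul _ _ _ _ := G1.mul
  cj _ _ := G1.cj
  side α β h := ⟨α, β * zeta ^ 3, G1.twist h, mul_comm _ _, by rw [G1.conj_piz]; ring⟩
  side' α β h := ⟨α * zeta ^ 3, β, G1.twist' h, by rw [G1.conj_piz]; ring, mul_comm _ _⟩

end Pool.Agent.MP_417fa2_gt.Q2
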