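import Pool.Agent.MP_417fa2_gt.Q2.G1

/-! G2. The congruence groups. -/

open scoped ComplexConjugate

namespace Pool.Agent.MP_417fa2_gt.Q2

namespace G2

open G1

theorem twist_pow {α β : ℂ} (h : InO α β) (n : ℕ) : InO α (β * (zeta ^ 3) ^ n) := by
  induction n with
  | zero => simpa using h
  | succ n ih => simpa only [pow_succ _ n, ← mul_assoc] using twist ih

theorem twist_pow' {α β : ℂ} (h : InO α β) (n : ℕ) : InO (α * (zeta ^ 3) ^ n) β := by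
  induction n with
  | zero => simpa using h
  | succ n ih => simpa only [pow_succ _ n, ← mul_assoc] using twist' ih

theorem conj_piz_pow (n : ℕ) : conj (piz ^ n) = (zeta ^ 3) ^ n * piz ^ n := by
  rw [map_pow, conj_piz, mul_pow]

theorem one_mem (n : ℕ) : (1 : SU) ∈ Gn n :=
  ⟨0, 0, of_mem R.zero_mem, by simp, by simp⟩

theorem mul_mem {n : ℕ} {γ γ' : SU} (h : γ ∈ Gn n) (h' : γ' ∈ Gn n) : γ * γ' ∈ Gn n := by
  obtain ⟨α, β, hO, ha, hb⟩ := h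
  obtain ⟨α', β', hO', ha', hb'⟩ := h'
  refine ⟨_, _, add (add hO hO') (mul hO (smul (R.pow_mem piz_mem n) hO')), ?_, ?_⟩
  · rw [SU.mul_a, ha, hb, ha', hb']
    ring
  · rw [SU.mul_b, ha, hb, ha', hb', map_add, map_one]
    ring

theorem inv_mem {n : ℕ} {γ : SU} (h : γ ∈ Gn n) : γ⁻¹ ∈ Gn n := by
  obtain ⟨α, β, hO, ha, hb⟩ := h
  refine ⟨_, _, twist_pow' (cj hO) n, ?_, ?_⟩
  · rw [SU.inv_a, ha, map_add, map_one, map_mul, conj_piz_pow]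
    ring
  · rw [SU.inv_b, hb]
    ring

theorem neg_mem : SU.neg1 ∈ Gn 4 := by
  refine ⟨ev ![0, 2, 3, 2], 0, of_mem (ev_mem _), ?_, by simp [SU.neg1]⟩
  simp only [SU.neg1, ev, piz, Matrix.cons_val]
  push_cast
  linear_combination (-2 + 2 * zeta + 5 * zeta ^ 2 - 2 * zeta ^ 3 - 4 * zeta) * z4

theorem le_mem {γ : SU} (h : γ ∈ Gn 4) : γ ∈ Gn 3 := by
  obtain ⟨α, β, hO, ha, hb⟩ := h
  exact ⟨_, _, smul piz_mem hO, by rw [ha]; ring, by rw [hb]; ring⟩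

/-- Conjugation in coordinates. -/
theorem conj_coord {n : ℕ} {γ : SU} (o : SU) {α β : ℂ} (ha : γ.a = 1 + piz ^ n * α)
    (hb : γ.b = piz ^ n * β) :
    (o * γ * o⁻¹).a = 1 + piz ^ n *
      ((o.a * α + o.b * (zeta ^ 3) ^ n * conj β) * conj o.a +
        (o.a * β + o.b * (zeta ^ 3) ^ n * conj α) * conj (-o.b)) ∧
    (o * γ * o⁻¹).b = piz ^ n *
      ((o.a * α + o.b * (zeta ^ 3) ^ n * conj β) * -o.b +
        (o.a * β + o.b * (zeta ^ 3) ^ n * conj α) * conj (conj o.a)) := by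
  simp only [SU.mul_a, SU.mul_b, SU.inv_a, SU.inv_b, ha, hb, map_add, map_mul, map_one,
    conj_piz_pow, map_neg, Complex.conj_conj]
  constructor
  · linear_combination o.det
  · ring

theorem conj_mem {n : ℕ} {γ o : SU} (ho : InO o.a o.b) (h : γ ∈ Gn n) : o * γ * o⁻¹ ∈ Gn n := by
  obtain ⟨α, β, hO, ha, hb⟩ := h
  obtain ⟨h1, h2⟩ := conj_coord o ha hb
  exact ⟨_, _, mul (mul (twist_pow ho n) hO) (cj ho), h1, h2⟩

theorem conj_iff {n : ℕ} {o : SU} (ho : InO o.a o.b) (γ : SU) :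
    γ ∈ Gn n ↔ o * γ * o⁻¹ ∈ Gn n := by
  refine ⟨conj_mem ho, fun h => ?_⟩
  have h1 := conj_mem (o := o⁻¹) (cj ho) h
  rwa [show o⁻¹ * (o * γ * o⁻¹) * o⁻¹⁻¹ = γ by group] at h1

theorem j_mem : InO SU.j.a SU.j.b := of_mem z_mem

theorem om_mem : InO SU.om.a SU.om.b :=
  inO_iff.2 ⟨0, R.zero_mem, 1, R.one_mem, by simp [SU.om, pp], by simp [SU.om, pp, div_eq_mul_inv]⟩

theorem sqrt_eq : √(2 + 2 * √2) = (2 + √2) * lam := by
  have h0 : 0 ≤ lam := Real.sqrt_nonneg _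
  rw [Real.sqrt_eq_iff_mul_self_eq (by positivity) (by positivity)]
  linear_combination (-(2 + √2) ^ 2) * lam_sq - (√2 + 3) * s2

theorem geo_pow (k : ℕ) : ∃ s ∈ R, zeta ^ k = 1 - piz * s := by
  induction k with
  | zero => exact ⟨0, R.zero_mem, by simp⟩
  | succ k ih =>
    obtain ⟨s, hs, h⟩ := ih
    refine ⟨1 + zeta * s, R.add_mem R.one_mem (R.mul_mem z_mem hs), ?_⟩
    rw [pow_succ, h, piz]
    ring

theorem piz_sq : piz ^ 2 * zeta ^ 3 = 2 - (√2 : ℝ) := by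
  rw [s2_eq, piz]
  linear_combination (zeta - 2) * z4

/-- The unit `3 + 2 √2`. -/
theorem u_mem : (3 + 2 * (√2 : ℝ) : ℂ) ∈ R :=
  R.add_mem (by exact_mod_cast natCast_mem R 3)
    (R.mul_mem (by exact_mod_cast natCast_mem R 2) s2_mem)

/-- The generators in coordinates. -/
theorem gen_coord (k : ℕ) : ∃ γ : SU, ∃ c ∈ R, γ.a = (1 + √2 : ℝ) ∧
    γ.b = (√(2 + 2 * √2) : ℝ) * zeta ^ k ∧
    γ.a = 1 + piz ^ 3 * (c + zeta ^ (k + 3) * (3 + 2 * (√2 : ℝ)) * pp) ∧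
    γ.b = piz ^ 3 * (zeta ^ (k + 3) * (3 + 2 * (√2 : ℝ)) * lam * pp) := by
  obtain ⟨s, hs, h⟩ := geo_pow k
  have hp := piz_pp
  have h2 : piz ^ 2 * zeta ^ 3 * (3 + 2 * (√2 : ℝ)) = 2 + (√2 : ℝ) := by
    linear_combination (3 + 2 * (√2 : ℝ)) * piz_sq - 2 * s2c
  refine ⟨⟨(1 + √2 : ℝ), (√(2 + 2 * √2) : ℝ) * zeta ^ k, ?_⟩,
    zeta ^ 3 * (3 + 2 * (√2 : ℝ)) * (s - zeta ^ 3 * piz), ?_, rfl, rfl, ?_, ?_⟩
  · rw [map_mul, map_pow, normSq_zeta, Complex.normSq_ofReal, Complex.normSq_ofReal,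
      Real.mul_self_sqrt (by positivity)]
    linear_combination s2
  · exact R.mul_mem (R.mul_mem (R.pow_mem z_mem 3) u_mem)
      (R.sub_mem hs (R.mul_mem (R.pow_mem z_mem 3) piz_mem))
  · show ((1 + √2 : ℝ) : ℂ) = _
    rw [pow_add, h]
    push_cast
    linear_combination (-(piz ^ 2 * zeta ^ 3 * (3 + 2 * (√2 : ℝ)) * (1 - piz * s))) * hp +
      (piz ^ 2 * zeta ^ 3 - 1) * h2 + (2 + (√2 : ℝ)) * piz_sq - s2c
  · show ((√(2 + 2 * √2) : ℝ) : ℂ) * zeta ^ k = _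
    rw [pow_add, sqrt_eq]
    push_cast
    linear_combination (-(piz ^ 2 * zeta ^ 3 * (3 + 2 * (√2 : ℝ)) * zeta ^ k * lam)) * hp -
      zeta ^ k * lam * h2

theorem gen_mem (k : ℕ) :
    ∃ γ ∈ Gn 3, γ.a = (1 + √2 : ℝ) ∧ γ.b = (√(2 + 2 * √2) : ℝ) * zeta ^ k := by
  obtain ⟨γ, c, hc, h1, h2, h3, h4⟩ := gen_coord k
  exact ⟨γ, ⟨_, _, inO_iff.2 ⟨c, hc, _, R.mul_mem (R.pow_mem z_mem (k + 3)) u_mem, rfl, rfl⟩,
    h3, h4⟩, h1, h2⟩

end G2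

theorem gnFacts : GnFacts where
  one := G2.one_mem
  mul _ _ h _ h' := G2.mul_mem h h'
  inv _ _ := G2.inv_mem
  neg := G2.neg_mem
  le _ := G2.le_mem
  jn _ := G2.conj_iff G2.j_mem
  omn _ := G2.conj_iff G2.om_mem
  gens k := G2.gen_mem k

end Pool.Agent.MP_417fa2_gt.Q2
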