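import Pool.Agent.MP_417fa2_gt.Q2.G2

/-! G3. Discreteness and the trace bounds. -/

open scoped ComplexConjugate

namespace Pool.Agent.MP_417fa2_gt.Q2

namespace G3

open G1

/-- The rational part of the norm. -/
def PP (v : Fin 4 → ℤ) : ℤ := v 0 ^ 2 + v 1 ^ 2 + v 2 ^ 2 + v 3 ^ 2

/-- The irrational part of the norm. -/
def QQ (v : Fin 4 → ℤ) : ℤ := v 0 * v 1 - v 0 * v 3 + v 2 * v 1 + v 2 * v 3

theorem nsq (v : Fin 4 → ℤ) : Complex.normSq (ev v) = PP v + √2 * QQ v := by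
  rw [Complex.normSq_apply, ev_re, ev_im, PP, QQ]
  push_cast
  linear_combination (((v 1 : ℝ) ^ 2 + v 3 ^ 2) / 2) * s2

theorem nsq' (v : Fin 4 → ℤ) : (PP v : ℝ) - √2 * QQ v =
    (v 0 - √2 / 2 * (v 1 - v 3)) ^ 2 + (v 2 - √2 / 2 * (v 1 + v 3)) ^ 2 := by
  rw [PP, QQ]
  push_cast
  linear_combination (-((v 1 : ℝ) ^ 2 + v 3 ^ 2) / 2) * s2

theorem nsq'_nonneg (v : Fin 4 → ℤ) : 0 ≤ (PP v : ℝ) - √2 * QQ v := by
  rw [nsq']; positivity

theorem coord {γ : SU} (h : γ ∈ Gn 3) : ∃ A B, γ.a = ev A ∧ γ.b = lam * ev B := by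
  obtain ⟨α, β, hO, ha, hb⟩ := h
  obtain ⟨c, hc, b, hb', rfl, rfl⟩ := inO_iff.1 hO
  obtain ⟨A, hA⟩ : 1 + piz ^ 2 * (piz * c + b) ∈ R :=
    R.add_mem R.one_mem (R.mul_mem (R.pow_mem piz_mem 2) (R.add_mem (R.mul_mem piz_mem hc) hb'))
  obtain ⟨B, hB⟩ : piz ^ 2 * b ∈ R := R.mul_mem (R.pow_mem piz_mem 2) hb'
  refine ⟨A, B, ?_, ?_⟩
  · rw [ha, ← hA]
    linear_combination (piz ^ 2 * b) * piz_pp
  · rw [hb, ← hB]
    linear_combination (piz ^ 2 * b * lam) * piz_pp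

theorem norm_eq {γ : SU} {A B : Fin 4 → ℤ} (ha : γ.a = ev A) (hb : γ.b = lam * ev B) :
    (PP A : ℝ) + √2 * QQ A - (√2 - 1) * (PP B + √2 * QQ B) = 1 := by
  have h := γ.h
  rwa [ha, hb, map_mul, Complex.normSq_ofReal, lam_sq, nsq, nsq] at h

/-- The Galois conjugate has norm one in the compact form. -/
theorem conj_eq {γ : SU} {A B : Fin 4 → ℤ} (ha : γ.a = ev A) (hb : γ.b = lam * ev B) :
    (PP A : ℝ) - √2 * QQ A + (√2 + 1) * (PP B - √2 * QQ B) = 1 := by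
  have h := norm_eq ha hb
  obtain ⟨h1, h2⟩ := irr (a := PP A + PP B - 2 * QQ B - 1) (b := QQ A - PP B + QQ B)
    (by push_cast; linear_combination h + (QQ B : ℝ) * s2)
  have h3 : (PP A : ℝ) + PP B - 2 * QQ B - 1 = 0 := by exact_mod_cast h1
  have h4 : (QQ A : ℝ) - PP B + QQ B = 0 := by exact_mod_cast h2
  linear_combination h3 - √2 * h4 - (QQ B : ℝ) * s2

theorem box {v : Fin 4 → ℤ} {N : ℤ} (h : PP v ≤ N) :
    v ∈ Set.Icc (fun _ => -N : Fin 4 → ℤ) fun _ => N := by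
  have key : ∀ i, v i ^ 2 ≤ N := fun i => by
    rw [PP] at h
    fin_cases i <;> simp only [Fin.zero_eta, Fin.mk_one, Fin.reduceFinMk] <;>
      nlinarith [sq_nonneg (v 0), sq_nonneg (v 1), sq_nonneg (v 2), sq_nonneg (v 3)]
  refine ⟨fun i => ?_, fun i => ?_⟩
  · nlinarith [key i, sq_nonneg (2 * v i + 1), Int.le_self_sq (-v i)]
  · exact (Int.le_self_sq _).trans (key i)

theorem s_lo : (1.4 : ℝ) < √2 := Real.lt_sqrt_of_sq_lt (by norm_num)

theorem s_hi : (√2 : ℝ) < 1.5 := (Real.sqrt_lt' (by norm_num)).2 (by norm_num)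

theorem fin (C : ℝ) : {γ : SU | γ ∈ Gn 3 ∧ ‖γ.a‖ ≤ C}.Finite := by
  obtain ⟨N, hN⟩ : ∃ N : ℤ, 1 + 3 * C ^ 2 ≤ N := ⟨_, Int.le_ceil _⟩
  have hf := (((Set.finite_Icc (fun _ => -N : Fin 4 → ℤ) fun _ => N).prod
    (Set.finite_Icc (fun _ => -N : Fin 4 → ℤ) fun _ => N)).image
      fun p => (ev p.1, (lam : ℂ) * ev p.2)).preimage (f := fun γ : SU => (γ.a, γ.b))
    fun _ _ _ _ h => SU.ext (congrArg Prod.fst h) (congrArg Prod.snd h)
  refine hf.subset ?_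
  rintro γ ⟨h, hC⟩
  obtain ⟨A, B, ha, hb⟩ := coord h
  have h1 := norm_eq ha hb
  have h2 := conj_eq ha hb
  have h3 := nsq'_nonneg A
  have h4 := nsq'_nonneg B
  have h5 : (PP A : ℝ) + √2 * QQ A ≤ C ^ 2 := by
    rw [← nsq, ← ha, Complex.normSq_eq_norm_sq]
    exact pow_le_pow_left₀ (norm_nonneg _) hC 2
  have h6 : 0 ≤ (PP B : ℝ) + √2 * QQ B := nsq B ▸ Complex.normSq_nonneg _
  have h7 := mul_nonneg (by linarith [s_lo] : (0 : ℝ) ≤ √2) h4
  have h8 := mul_nonneg (by linarith [s_lo] : (0 : ℝ) ≤ √2 - 1.4) h6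
  have h9 := sq_nonneg C
  refine ⟨(A, B), ⟨box ?_, box ?_⟩, Prod.ext ha.symm hb.symm⟩
  · exact_mod_cast (by linarith : (PP A : ℝ) ≤ N)
  · exact_mod_cast (by linarith : (PP B : ℝ) ≤ N)

/-- The reduced norm of an element of the order lies in `ℤ[√2]`. -/
theorem norm_int {α β : ℂ} (h : InO α β) :
    ∃ p q : ℤ, Complex.normSq α - Complex.normSq β = p + √2 * q := by
  obtain ⟨_, ⟨v, rfl⟩, b, -, h1, h2⟩ := inO_iff.1 (mul h (cj h))
  have hl : (lam : ℂ) ≠ 0 := fun h0 => by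
    have h3 := lam_sq
    rw [show lam = 0 by exact_mod_cast h0] at h3
    linarith [s_lo]
  have hb : b * pp = 0 := by
    rw [Complex.conj_conj] at h2
    exact (mul_eq_zero.1 (by linear_combination -h2 : (lam : ℂ) * (b * pp) = 0)).resolve_left hl
  rw [hb, add_zero, map_neg, mul_neg, Complex.mul_conj, Complex.mul_conj] at h1
  have h3 := congrArg Complex.re h1
  have h4 := congrArg Complex.im h1
  rw [ev_re] at h3
  rw [ev_im] at h4
  simp only [Complex.add_re, Complex.neg_re, Complex.ofReal_re, Complex.add_im, Complex.neg_im,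
    Complex.ofReal_im] at h3 h4
  obtain ⟨-, h5⟩ := irr (a := 2 * v 2) (b := v 1 + v 3) (by push_cast; linarith)
  have h6 : (v 1 : ℝ) + v 3 = 0 := by exact_mod_cast h5
  exact ⟨v 0, v 1, by linear_combination h3 - √2 / 2 * h6⟩

theorem re_eq {n : ℕ} {γ : SU} (h : γ ∈ Gn n) :
    ∃ p q : ℤ, γ.a.re = 1 - (2 - √2) ^ n * (p + √2 * q) / 2 := by
  obtain ⟨α, β, hO, ha, hb⟩ := h
  obtain ⟨p, q, hpq⟩ := norm_int hO
  refine ⟨p, q, ?_⟩
  have h := γ.h
  rw [ha, hb, Complex.normSq_add, one_mul, Complex.conj_re, map_mul, map_mul, map_pow, normSq_piz,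
    map_one] at h
  rw [ha, Complex.add_re, Complex.one_re, ← hpq]
  linarith

/-- The half trace `m + n √2` has a small conjugate, and `n = 0` only for `± 1`. -/
theorem tr {γ : SU} (h : γ ∈ Gn 3) {m n : ℤ} (hm : Odd m) (hr : γ.a.re = m + √2 * n) :
    γ = 1 ∨ γ = SU.neg1 ∨ (n ≠ 0 ∧ |m - √2 * n| ≤ 1) := by
  obtain ⟨A, B, ha, hb⟩ := coord h
  have h2 := conj_eq ha hb
  have h4 := nsq'_nonneg B
  have h5 := hr
  rw [ha, ev_re] at h5
  obtain ⟨h6, h7⟩ := irr (a := 2 * (A 0 - m)) (b := A 1 - A 3 - 2 * n) (by push_cast; linarith)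
  have h8 : (A 0 : ℝ) = m := by exact_mod_cast (by omega : A 0 = m)
  have h9 : (A 1 : ℝ) - A 3 = 2 * n := by exact_mod_cast (by omega : A 1 - A 3 = 2 * n)
  rw [nsq' A, h8, h9] at h2
  have h10 := mul_nonneg (by linarith [s_lo] : (0 : ℝ) ≤ √2) h4
  have h11 := sq_nonneg ((A 2 : ℝ) - √2 / 2 * (A 1 + A 3))
  rcases eq_or_ne n 0 with rfl | hn
  · simp only [Int.cast_zero, mul_zero, sub_zero, add_zero] at h2 hr
    have h12 : m ^ 2 ≤ 1 := by exact_mod_cast (by linarith : (m : ℝ) ^ 2 ≤ 1)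
    have h13 : m = 1 ∨ m = -1 := by
      have := abs_le.1 ((sq_le_one_iff_abs_le_one m).1 h12)
      obtain ⟨k, rfl⟩ := hm
      omega
    have h14 : (m : ℝ) ^ 2 = 1 := by rcases h13 with rfl | rfl <;> norm_num
    obtain ⟨h15, h16⟩ := irr (a := PP B) (b := -QQ B) (by push_cast; linarith)
    have h17 : γ.b = 0 := by
      have h19 : ev B = 0 :=
        Complex.normSq_eq_zero.1 (by rw [nsq, h15, show QQ B = 0 by omega]; simp)
      rw [hb, h19, mul_zero]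
    have h18 : γ.a.im = 0 := by
      have h19 := γ.h
      rw [h17, map_zero, Complex.normSq_apply, hr] at h19
      exact mul_self_eq_zero.1 (by linarith)
    rcases h13 with rfl | rfl
    · exact Or.inl (SU.ext (Complex.ext (by simpa using hr) (by simpa using h18)) h17)
    · exact Or.inr (Or.inl (SU.ext (Complex.ext (by simpa [SU.neg1] using hr)
        (by simpa [SU.neg1] using h18)) h17))
  · refine Or.inr (Or.inr ⟨hn, (sq_le_one_iff_abs_le_one _).1 ?_⟩)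
    linarith

theorem big {m n k l : ℤ} (h : |m - √2 * n| ≤ 1) (hn : l ≤ n ∨ n ≤ -l)
    (hk : ∀ x : ℤ, x = m ∨ x = -m → √2 * l - 1 ≤ x → k ≤ x) :
    k + √2 * l ≤ |m + √2 * n| := by
  have h0 : (0 : ℝ) ≤ √2 := by positivity
  obtain ⟨h1, h2⟩ := abs_le.1 h
  rcases hn with hn | hn
  · have h3 := mul_le_mul_of_nonneg_left (show (l : ℝ) ≤ n by exact_mod_cast hn) h0
    have h4 : (k : ℝ) ≤ m := by exact_mod_cast hk m (Or.inl rfl) (by linarith)
    exact le_trans (by linarith) (le_abs_self _)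
  · have h3 := mul_le_mul_of_nonneg_left (show (n : ℝ) ≤ -l by exact_mod_cast hn) h0
    have h4 : (k : ℝ) ≤ -m := by
      exact_mod_cast hk (-m) (Or.inr rfl) (by push_cast; linarith)
    exact le_trans (by linarith) (neg_le_abs _)

theorem tr3 (γ : SU) (h : γ ∈ Gn 3) : γ = 1 ∨ γ = SU.neg1 ∨ 1 + √2 ≤ |γ.a.re| := by
  obtain ⟨p, q, hr⟩ := re_eq h
  have h1 : γ.a.re = (1 - 10 * p + 14 * q : ℤ) + √2 * (7 * p - 10 * q : ℤ) := by
    rw [hr]
    push_cast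
    linear_combination ((√2 - 6) * p / 2 + (√2 ^ 2 - 6 * √2 + 14) * q / 2) * s2
  refine (tr h ⟨-5 * p + 7 * q, by ring⟩ h1).imp_right (Or.imp_right fun ⟨hn, h2⟩ => ?_)
  have := big (k := 1) (l := 1) h2 (by omega) (fun x _ hx => by
    have : (0 : ℝ) < x := by push_cast at hx; linarith [s_lo]
    exact_mod_cast this)
  rw [h1]
  simpa using this

theorem tr4 (γ : SU) (h : γ ∈ Gn 4) : γ = 1 ∨ γ = SU.neg1 ∨ 3 + 2 * √2 ≤ |γ.a.re| := by
  obtain ⟨p, q, hr⟩ := re_eq h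
  have h1 : γ.a.re = (1 - 34 * p + 48 * q : ℤ) + √2 * (24 * p - 34 * q : ℤ) := by
    rw [hr]
    push_cast
    linear_combination (-(√2 ^ 2 - 8 * √2 + 26) * p / 2 -
      (√2 ^ 3 - 8 * √2 ^ 2 + 26 * √2 - 48) * q / 2) * s2
  refine (tr (G2.le_mem h) ⟨-17 * p + 24 * q, by ring⟩ h1).imp_right
    (Or.imp_right fun ⟨hn, h2⟩ => ?_)
  have := big (k := 3) (l := 2) h2 (by omega) (fun x hx' hx => by
    have h3 : (1 : ℝ) < x := by push_cast at hx; linarith [s_lo]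
    have h4 : 1 < x := by exact_mod_cast h3
    omega)
  rw [h1]
  push_cast at this ⊢
  linarith

end G3

theorem gnDisc' : GnDisc := ⟨G3.fin, G3.tr3, G3.tr4⟩

theorem gnDisc (_h : OFacts) : GnDisc := gnDisc'

end Pool.Agent.MP_417fa2_gt.Q2
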