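import Pool.Agent.MP_417fa2_gt.Q2.G2

/-! G4. The three characters of the congruence group of level three. -/

open scoped ComplexConjugate

namespace Pool.Agent.MP_417fa2_gt.Q2

namespace G4

open G1

open Classical in
/-- The residue modulo the prime. -/
noncomputable def rho (x : ℂ) : ZMod 2 := if ∃ u ∈ R, x = piz * u then 0 else 1

theorem two_cases (s : ZMod 2) : s = 0 ∨ s = 1 := by revert s; decide

theorem two0 : (2 : ZMod 2) = 0 := by decide

theorem rho_ev (v : Fin 4 → ℤ) : rho (ev v) = ((∑ i, v i : ℤ) : ZMod 2) := by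
  unfold rho
  split_ifs with h
  · obtain ⟨_, ⟨u, rfl⟩, hu⟩ := h
    obtain ⟨k, hk⟩ := (ev_dvd v).1 ⟨u, hu⟩
    rw [hk]
    push_cast
    exact (CharTwo.add_self_eq_zero _).symm
  · rcases Int.even_or_odd (∑ i, v i) with he | ⟨k, hk⟩
    · obtain ⟨u, hu⟩ := (ev_dvd v).2 he
      exact absurd ⟨_, ev_mem u, hu⟩ h
    · rw [hk]
      push_cast
      linear_combination (-(k : ZMod 2)) * two0

theorem rho_add {x y : ℂ} (hx : x ∈ R) (hy : y ∈ R) : rho (x + y) = rho x + rho y := by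
  obtain ⟨v, rfl⟩ := hx
  obtain ⟨w, rfl⟩ := hy
  rw [← ev_add, rho_ev, rho_ev, rho_ev]
  simp [Finset.sum_add_distrib]

theorem rho_mul {x y : ℂ} (hx : x ∈ R) (hy : y ∈ R) : rho (x * y) = rho x * rho y := by
  obtain ⟨v, rfl⟩ := hx
  obtain ⟨w, rfl⟩ := hy
  obtain ⟨u, hu, hu'⟩ := ev_mul v w
  rw [← hu, rho_ev, rho_ev, rho_ev, ← Int.cast_mul]
  exact (ZMod.intCast_eq_intCast_iff _ _ 2).2 hu'

theorem rho_conj {x : ℂ} (hx : x ∈ R) : rho (conj x) = rho x := by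
  obtain ⟨v, rfl⟩ := hx
  obtain ⟨u, hu, hu'⟩ := ev_conj v
  rw [← hu, rho_ev, rho_ev]
  exact (ZMod.intCast_eq_intCast_iff _ _ 2).2 hu'

theorem rho_neg {x : ℂ} (hx : x ∈ R) : rho (-x) = rho x := by
  obtain ⟨v, rfl⟩ := hx
  rw [← ev_neg, rho_ev, rho_ev]
  simp [Finset.sum_neg_distrib]

theorem rho_piz {u : ℂ} (hu : u ∈ R) : rho (piz * u) = 0 := if_pos ⟨u, hu, rfl⟩

theorem of_rho {x : ℂ} (h : rho x = 0) : ∃ u ∈ R, x = piz * u := by
  by_contra h'
  rw [rho, if_neg h'] at h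
  exact one_ne_zero h

theorem rho_zero : rho 0 = 0 := by simpa using rho_piz R.zero_mem

theorem rho_one : rho 1 = 1 := by
  have h := rho_ev ![1, 0, 0, 0]
  simpa [ev, Fin.sum_univ_four] using h

theorem rho_z : rho zeta = 1 := by
  have h := rho_ev ![0, 1, 0, 0]
  simpa [ev, Fin.sum_univ_four] using h

theorem sub_conj' {x : ℂ} (h : x ∈ R) : ∃ e ∈ R, x - conj x = piz * e ∧ rho e = 0 := by
  obtain ⟨v, rfl⟩ := h
  refine ⟨ev ![-(v 1 + v 2 + v 3), -v 2, v 2, v 1 + v 2 + v 3], ev_mem _, ?_, ?_⟩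
  · simp only [ev, piz, Matrix.cons_val, map_add, map_mul, map_pow, map_intCast, conj_z]
    push_cast
    linear_combination ((v 1 : ℂ) + v 2 + v 3 - v 2 * zeta ^ 2 + v 3 * (zeta ^ 5 - zeta)) * z4
  · rw [rho_ev]
    simp only [Fin.sum_univ_four, Matrix.cons_val]
    push_cast
    ring

/-- An element of the order with its residues. -/
def Co (α β : ℂ) (s t : ZMod 2) : Prop :=
  ∃ c ∈ R, ∃ b ∈ R, α = c + b * pp ∧ β = b * lam * pp ∧ rho c = s ∧ rho b = t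

theorem lam_ne : (lam : ℂ) ≠ 0 := by
  intro h
  have h1 := lam_sq
  rw [Complex.ofReal_eq_zero.1 h] at h1
  nlinarith [s2]

theorem pp_ne : pp ≠ 0 := inv_ne_zero piz_ne

theorem co_unique {α β : ℂ} {s t s' t' : ZMod 2} (h : Co α β s t) (h' : Co α β s' t') :
    s = s' ∧ t = t' := by
  obtain ⟨c, -, b, -, h1, h2, rfl, rfl⟩ := h
  obtain ⟨c', -, b', -, h1', h2', rfl, rfl⟩ := h'
  have hb : b = b' := mul_right_cancel₀ lam_ne (mul_right_cancel₀ pp_ne (h2.symm.trans h2'))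
  subst hb
  have hc : c = c' := add_right_cancel (h1.symm.trans h1')
  subst hc
  exact ⟨rfl, rfl⟩

theorem co_add {α β α' β' : ℂ} {s t s' t' : ZMod 2} (h : Co α β s t) (h' : Co α' β' s' t') :
    Co (α + α') (β + β') (s + s') (t + t') := by
  obtain ⟨c, hc, b, hb, rfl, rfl, rfl, rfl⟩ := h
  obtain ⟨c', hc', b', hb', rfl, rfl, rfl, rfl⟩ := h'
  exact ⟨c + c', R.add_mem hc hc', b + b', R.add_mem hb hb', by ring, by ring, rho_add hc hc',
    rho_add hb hb'⟩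

theorem co_smul {x α β : ℂ} {s t : ZMod 2} (hx : x ∈ R) (h : Co α β s t) :
    Co (x * α) (x * β) (rho x * s) (rho x * t) := by
  obtain ⟨c, hc, b, hb, rfl, rfl, rfl, rfl⟩ := h
  exact ⟨x * c, R.mul_mem hx hc, x * b, R.mul_mem hx hb, by ring, by ring, rho_mul hx hc,
    rho_mul hx hb⟩

theorem co_mul {α β α' β' : ℂ} {s t s' t' : ZMod 2} (h : Co α β s t) (h' : Co α' β' s' t') :
    Co (α * α' + β * conj β') (α * β' + β * conj α') (s * s' + t * t')
      (s * t' + t * s' + t * t') := by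
  obtain ⟨c, hc, b, hb, rfl, rfl, rfl, rfl⟩ := h
  obtain ⟨c', hc', b', hb', rfl, rfl, rfl, rfl⟩ := h'
  obtain ⟨e, he, he', he0⟩ := sub_conj' hb'
  obtain ⟨f, hf, hf', hf0⟩ := sub_conj' hc'
  obtain ⟨h1, h2⟩ := mul_coord (c := c) (b := b) he' hf'
  have m1 := R.mul_mem hc hc'
  have m2 := R.mul_mem hb hf
  have m3 := R.mul_mem hb (conj_mem hb')
  have m4 := R.mul_mem hc hb'
  have m5 := R.mul_mem hb (conj_mem hc')
  have m6 := R.mul_mem hb he
  refine ⟨_, R.sub_mem (R.add_mem m1 m2) m3, _, R.add_mem (R.add_mem (R.add_mem m4 m5) m3) m6,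
    h1, h2, ?_, ?_⟩
  · rw [sub_eq_add_neg, rho_add (R.add_mem m1 m2) (R.neg_mem m3), rho_neg m3, rho_add m1 m2,
      rho_mul hc hc', rho_mul hb hf, rho_mul hb (conj_mem hb'), rho_conj hb', hf0]
    ring
  · rw [rho_add (R.add_mem (R.add_mem m4 m5) m3) m6, rho_add (R.add_mem m4 m5) m3, rho_add m4 m5,
      rho_mul hc hb', rho_mul hb (conj_mem hc'), rho_mul hb (conj_mem hb'), rho_mul hb he,
      rho_conj hb', rho_conj hc', he0]
    ring

/-- An element of level three with its residues. -/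
def G (γ : SU) (s t : ZMod 2) : Prop :=
  ∃ α β, Co α β s t ∧ γ.a = 1 + piz ^ 3 * α ∧ γ.b = piz ^ 3 * β

theorem g_ex {γ : SU} (h : γ ∈ Gn 3) : ∃ s t, G γ s t := by
  obtain ⟨α, β, hO, ha, hb⟩ := h
  obtain ⟨c, hc, b, hb', h1, h2⟩ := inO_iff.1 hO
  exact ⟨_, _, α, β, ⟨c, hc, b, hb', h1, h2, rfl, rfl⟩, ha, hb⟩

theorem g_mem {γ : SU} {s t : ZMod 2} (h : G γ s t) : γ ∈ Gn 3 := by
  obtain ⟨α, β, ⟨c, hc, b, hb', h1, h2, -, -⟩, ha, hb⟩ := h
  exact ⟨α, β, inO_iff.2 ⟨c, hc, b, hb', h1, h2⟩, ha, hb⟩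

theorem g_unique {γ : SU} {s t s' t' : ZMod 2} (h : G γ s t) (h' : G γ s' t') :
    s = s' ∧ t = t' := by
  obtain ⟨α, β, hO, ha, hb⟩ := h
  obtain ⟨α', β', hO', ha', hb'⟩ := h'
  have h3 : piz ^ 3 ≠ 0 := pow_ne_zero 3 piz_ne
  have e1 : α = α' := mul_left_cancel₀ h3 (add_left_cancel (ha.symm.trans ha'))
  have e2 : β = β' := mul_left_cancel₀ h3 (hb.symm.trans hb')
  subst e1 e2
  exact co_unique hO hO'

theorem g_mul {γ γ' : SU} {s t s' t' : ZMod 2} (h : G γ s t) (h' : G γ' s' t') :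
    G (γ * γ') (s + s') (t + t') := by
  obtain ⟨α, β, hO, ha, hb⟩ := h
  obtain ⟨α', β', hO', ha', hb'⟩ := h'
  have h3 : rho (piz ^ 3) = 0 := by
    rw [pow_succ']
    exact rho_piz (R.pow_mem piz_mem 2)
  have h4 := co_add (co_add hO hO') (co_mul hO (co_smul (R.pow_mem piz_mem 3) hO'))
  simp only [h3, zero_mul, mul_zero, add_zero] at h4
  refine ⟨_, _, h4, ?_, ?_⟩
  · rw [SU.mul_a, ha, hb, ha', hb']
    ring
  · rw [SU.mul_b, ha, hb, ha', hb', map_add, map_one]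
    ring

theorem g_four {γ : SU} : γ ∈ Gn 4 ↔ G γ 0 0 := by
  constructor
  · rintro ⟨α, β, hO, ha, hb⟩
    obtain ⟨c, hc, b, hb', rfl, rfl⟩ := inO_iff.1 hO
    exact ⟨_, _, ⟨piz * c, R.mul_mem piz_mem hc, piz * b, R.mul_mem piz_mem hb', rfl, rfl,
      rho_piz hc, rho_piz hb'⟩, by rw [ha]; ring, by rw [hb]; ring⟩
  · rintro ⟨α, β, ⟨c, -, b, -, rfl, rfl, h1, h2⟩, ha, hb⟩
    obtain ⟨u, hu, rfl⟩ := of_rho h1
    obtain ⟨v, hv, rfl⟩ := of_rho h2
    exact ⟨_, _, inO_iff.2 ⟨u, hu, v, hv, rfl, rfl⟩, by rw [ha]; ring, by rw [hb]; ring⟩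

theorem om_a : SU.om.a = pp := by simp [SU.om, pp]

theorem om_b : SU.om.b = lam * pp := by simp [SU.om, pp, div_eq_mul_inv]

theorem g_conj {γ : SU} {s t : ZMod 2} (h : G γ s t) :
    G (SU.om⁻¹ * γ * SU.om⁻¹⁻¹) (s + t) s := by
  obtain ⟨α, β, hO, ha, hb⟩ := h
  obtain ⟨h1, h2⟩ := G2.conj_coord SU.om⁻¹ ha hb
  have c1 : Co SU.om⁻¹.a (SU.om⁻¹.b * (zeta ^ 3) ^ 3) 0 1 := by
    refine ⟨0, R.zero_mem, -zeta, R.neg_mem z_mem, ?_, ?_, rho_zero, ?_⟩
    · have hp := piz_pp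
      rw [SU.inv_a, om_a, conj_pp]
      simp only [piz] at hp
      linear_combination -hp
    · rw [SU.inv_b, om_b]
      linear_combination (-(lam : ℂ) * pp * (zeta ^ 5 - zeta)) * z4
    · rw [rho_neg z_mem, rho_z]
  have c2 : Co (conj SU.om⁻¹.a) (-SU.om⁻¹.b) 0 1 :=
    ⟨0, R.zero_mem, 1, R.one_mem, by simp [om_a], by simp [om_b], rho_zero, rho_one⟩
  have c3 := co_mul (co_mul c1 hO) c2
  have e1 : (0 * s + 1 * t) * 0 + (0 * t + 1 * s + 1 * t) * 1 = s + t := by ring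
  have e2 : (0 * s + 1 * t) * 1 + (0 * t + 1 * s + 1 * t) * 0 + (0 * t + 1 * s + 1 * t) * 1 = s := by
    linear_combination t * two0
  rw [e1, e2] at c3
  exact ⟨_, _, c3, h1, h2⟩

theorem g_gen : ∃ γ s, G γ s 1 := by
  obtain ⟨γ, c, hc, -, -, h3, h4⟩ := G2.gen_coord 0
  refine ⟨γ, rho c, _, _, ⟨c, hc, _, R.mul_mem (R.pow_mem z_mem (0 + 3)) G2.u_mem, rfl, rfl, rfl,
    ?_⟩, h3, h4⟩
  have h : zeta ^ (0 + 3) * (3 + 2 * ((√2 : ℝ) : ℂ)) = ev ![-2, 0, 2, 3] := by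
    rw [s2_eq]
    simp only [ev, Matrix.cons_val]
    push_cast
    linear_combination (2 - 2 * zeta ^ 2) * z4
  rw [h, rho_ev]
  simp only [Fin.sum_univ_four, Matrix.cons_val]
  decide

theorem g_all (s t : ZMod 2) : ∃ γ, G γ s t := by
  obtain ⟨γ, s₀, h⟩ := g_gen
  have h1 := g_conj h
  have h2 := g_conj h1
  have h0 : G 1 0 0 := g_four.1 (G2.one_mem 4)
  have e : (1 : ZMod 2) + 1 = 0 := by decide
  rcases two_cases s₀ with rfl | rfl <;> rcases two_cases s with rfl | rfl <;>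
    rcases two_cases t with rfl | rfl <;> simp only [zero_add, add_zero, e] at h h1 h2 <;>
    first | exact ⟨_, h0⟩ | exact ⟨_, h⟩ | exact ⟨_, h1⟩ | exact ⟨_, h2⟩

open Classical in
/-- The first residue. -/
noncomputable def cs (γ : SU) : ZMod 2 := if ∃ t, G γ 0 t then 0 else 1

open Classical in
/-- The second residue. -/
noncomputable def ct (γ : SU) : ZMod 2 := if ∃ s, G γ s 0 then 0 else 1

theorem cs_eq {γ : SU} {s t : ZMod 2} (h : G γ s t) : cs γ = s := by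
  unfold cs
  split_ifs with h'
  · obtain ⟨t', h'⟩ := h'
    exact (g_unique h' h).1
  · rcases two_cases s with rfl | rfl
    · exact absurd ⟨t, h⟩ h'
    · rfl

theorem ct_eq {γ : SU} {s t : ZMod 2} (h : G γ s t) : ct γ = t := by
  unfold ct
  split_ifs with h'
  · obtain ⟨s', h'⟩ := h'
    exact (g_unique h' h).2
  · rcases two_cases t with rfl | rfl
    · exact absurd ⟨s, h⟩ h'
    · rfl

/-- The sign of a residue. -/
def sgn (s : ZMod 2) : ℝ := if s = 0 then 1 else -1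

theorem sgn_zero : sgn 0 = 1 := if_pos rfl

theorem sgn_one : sgn 1 = -1 := if_neg one_ne_zero

theorem sgn_sq (s : ZMod 2) : sgn s = 1 ∨ sgn s = -1 := by
  rcases two_cases s with rfl | rfl
  · exact Or.inl sgn_zero
  · exact Or.inr sgn_one

theorem sgn_add (s t : ZMod 2) : sgn (s + t) = sgn s * sgn t := by
  have e : (1 : ZMod 2) + 1 = 0 := by decide
  rcases two_cases s with rfl | rfl <;> rcases two_cases t with rfl | rfl <;>
    simp [e, sgn_zero, sgn_one]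

theorem sgn_eq_one {s : ZMod 2} (h : sgn s = 1) : s = 0 := by
  rcases two_cases s with rfl | rfl
  · rfl
  · rw [sgn_one] at h
    norm_num at h

/-- The three characters. -/
noncomputable def chi : Fin 3 → SU → ℝ :=
  ![fun γ => sgn (cs γ), fun γ => sgn (ct γ), fun γ => sgn (cs γ + ct γ)]

theorem chi0 (γ : SU) : chi 0 γ = sgn (cs γ) := rfl

theorem chi1 (γ : SU) : chi 1 γ = sgn (ct γ) := rfl

theorem chi2 (γ : SU) : chi 2 γ = sgn (cs γ + ct γ) := rfl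

theorem three (i : Fin 3) : i = 0 ∨ i = 1 ∨ i = 2 := by revert i; decide

end G4

open G4 in
theorem chiStmt' : ChiStmt := by
  refine ⟨chi, SU.om⁻¹, Or.inr rfl, ?_, ?_, ?_, ?_, ?_, ?_⟩
  · intro i γ _
    rcases three i with rfl | rfl | rfl <;> exact sgn_sq _
  · intro i γ hγ γ' hγ'
    obtain ⟨s, t, h⟩ := g_ex hγ
    obtain ⟨s', t', h'⟩ := g_ex hγ'
    have h2 := g_mul h h'
    rcases three i with rfl | rfl | rfl
    · rw [chi0, chi0, chi0, cs_eq h, cs_eq h', cs_eq h2, sgn_add]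
    · rw [chi1, chi1, chi1, ct_eq h, ct_eq h', ct_eq h2, sgn_add]
    · rw [chi2, chi2, chi2, cs_eq h, cs_eq h', cs_eq h2, ct_eq h, ct_eq h', ct_eq h2, ← sgn_add,
        add_add_add_comm]
  · intro γ _
    rw [chi0, chi1, chi2, sgn_add]
  · intro γ
    rw [g_four, chi0, chi1]
    constructor
    · intro h
      exact ⟨g_mem h, by rw [cs_eq h, sgn_zero], by rw [ct_eq h, sgn_zero]⟩
    · rintro ⟨hγ, h0, h1⟩
      obtain ⟨s, t, h⟩ := g_ex hγ
      rw [cs_eq h] at h0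
      rw [ct_eq h] at h1
      rwa [sgn_eq_one h0, sgn_eq_one h1] at h
  · intro e₀ e₁ h0 h1
    obtain ⟨s, hs⟩ : ∃ s, sgn s = e₀ := by
      rcases h0 with rfl | rfl
      exacts [⟨0, sgn_zero⟩, ⟨1, sgn_one⟩]
    obtain ⟨t, ht⟩ : ∃ t, sgn t = e₁ := by
      rcases h1 with rfl | rfl
      exacts [⟨0, sgn_zero⟩, ⟨1, sgn_one⟩]
    obtain ⟨γ, h⟩ := g_all s t
    exact ⟨γ, g_mem h, by rw [chi0, cs_eq h, hs], by rw [chi1, ct_eq h, ht]⟩
  · intro i γ hγ
    obtain ⟨s, t, h⟩ := g_ex hγ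
    have h2 := g_conj h
    rcases three i with rfl | rfl | rfl
    · rw [show (0 : Fin 3) + 1 = 1 from rfl, chi1, chi0, ct_eq h2, cs_eq h]
    · have e : s + t + s = t := by linear_combination s * two0
      rw [show (1 : Fin 3) + 1 = 2 from rfl, chi2, chi1, ct_eq h2, cs_eq h2, ct_eq h, e]
    · rw [show (2 : Fin 3) + 1 = 0 from rfl, chi0, chi2, cs_eq h2, cs_eq h, ct_eq h]

theorem chiStmt (_ : OFacts) (_ : GnFacts) : ChiStmt := chiStmt'

end Pool.Agent.MP_417fa2_gt.Q2
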