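import Pool.Agent.MP_417fa2_gt.Q2.SSpec

/-! The octagon meets every orbit; the pair of lattices. -/

open scoped ComplexConjugate
open Set

namespace Pool.Agent.MP_417fa2_gt.Q2

namespace G5

theorem zeta_re : zeta.re = √2 / 2 ∧ zeta.im = √2 / 2 := by
  have h : (√2 : ℝ) * √2 = 2 := Real.mul_self_sqrt (by norm_num)
  have h0 : (√2 : ℝ) ≠ 0 := by positivity
  constructor
  · simp only [zeta, Complex.div_ofReal_re, Complex.add_re, Complex.one_re, Complex.I_re]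
    field_simp
    linarith
  · simp only [zeta, Complex.div_ofReal_im, Complex.add_im, Complex.one_im, Complex.I_im]
    field_simp
    linarith

theorem plane {u v M s : ℝ} (hu : 0 ≤ u) (hv : 0 ≤ v) (h1 : u ≤ M) (h2 : v ≤ M)
    (hs : 0.707 ≤ s) (h3 : s * (u + v) ≤ M) : u ^ 2 + v ^ 2 ≤ 1.173 * M ^ 2 := by
  have hM : 0 ≤ M := hu.trans h1
  have h4 : 0.707 * (u + v) ≤ M := (mul_le_mul_of_nonneg_right hs (by positivity)).trans h3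
  rcases le_total (u + v) M with h | h
  · nlinarith [mul_nonneg hu hv, mul_self_le_mul_self (by positivity) h]
  · have h5 : u + v - M ≤ 0.415 * M := by linarith
    nlinarith [mul_nonneg (sub_nonneg.2 h1) (sub_nonneg.2 h2),
      mul_self_le_mul_self (sub_nonneg.2 h) h5]

theorem sqrt2 : (1.414 : ℝ) ≤ √2 ∧ (√2 : ℝ) ≤ 1.415 :=
  ⟨Real.le_sqrt_of_sq_le (by norm_num), Real.sqrt_le_iff.2 ⟨by norm_num, by norm_num⟩⟩

theorem oct_bdd {z : ℂ} (hz : z ∈ oct) : ‖z‖ ≤ 0.9 := by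
  obtain ⟨h1, h2⟩ := hz
  obtain ⟨s1, s2⟩ := sqrt2
  obtain ⟨zr, zi⟩ := zeta_re
  have hB : √(2 + 2 * √2) ≤ 2.198 := Real.sqrt_le_iff.2 ⟨by norm_num, by linarith⟩
  have e2 := SU.zeta_sq
  have e3 : zeta ^ 3 = Complex.I * zeta := by rw [pow_succ, e2]
  have e4 : zeta ^ 4 = -1 := by rw [show 4 = 2 * 2 from rfl, pow_mul, e2, Complex.I_sq]
  have e5 : zeta ^ 5 = -zeta := by rw [pow_succ, e4]; ring
  have e6 : zeta ^ 6 = -Complex.I := by rw [show 6 = 4 + 2 from rfl, pow_add, e4, e2]; ring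
  have e7 : zeta ^ 7 = -(Complex.I * zeta) := by rw [show 7 = 4 + 3 from rfl, pow_add, e4, e3]; ring
  set M : ℝ := 0.4553 * (1 + ‖z‖ ^ 2) with hM
  have key : ∀ k : Fin 8, (z * conj (zeta ^ (k : ℕ))).re ≤ M := fun k => by
    have a1 := h2 k
    have a2 : √(2 + 2 * √2) * (1 + ‖z‖ ^ 2) ≤ 2.198 * (1 + ‖z‖ ^ 2) :=
      mul_le_mul_of_nonneg_right hB (by positivity)
    by_contra hcon
    push Not at hcon
    have a3 : 0 < M := by positivity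
    nlinarith [sq_nonneg ‖z‖]
  have k0 : (z * conj (zeta ^ 0)).re ≤ M := key 0
  have k1 : (z * conj (zeta ^ 1)).re ≤ M := key 1
  have k2 : (z * conj (zeta ^ 2)).re ≤ M := key 2
  have k3 : (z * conj (zeta ^ 3)).re ≤ M := key 3
  have k4 : (z * conj (zeta ^ 4)).re ≤ M := key 4
  have k5 : (z * conj (zeta ^ 5)).re ≤ M := key 5
  have k6 : (z * conj (zeta ^ 6)).re ≤ M := key 6
  have k7 : (z * conj (zeta ^ 7)).re ≤ M := key 7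
  rw [pow_one] at k1
  rw [e2] at k2
  rw [e3] at k3
  rw [e4] at k4
  rw [e5] at k5
  rw [e6] at k6
  rw [e7] at k7
  simp [zr, zi] at k0 k1 k2 k3 k4 k5 k6 k7
  have h3 := plane (abs_nonneg z.re) (abs_nonneg z.im) (M := M) (s := √2 / 2)
    (abs_le.2 ⟨by linarith, by linarith⟩) (abs_le.2 ⟨by linarith, by linarith⟩) (by linarith) (by
      rcases abs_cases z.re with ⟨a, -⟩ | ⟨a, -⟩ <;> rcases abs_cases z.im with ⟨b, -⟩ | ⟨b, -⟩ <;>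
        rw [a, b] <;> linarith)
  rw [sq_abs, sq_abs] at h3
  have h4 : ‖z‖ ^ 2 = z.re ^ 2 + z.im ^ 2 := by
    rw [← Complex.normSq_eq_norm_sq, Complex.normSq_apply]; ring
  have h5 : ‖z‖ ≤ 1.084 * M :=
    le_of_sq_le_sq (by nlinarith [sq_nonneg M]) (by positivity)
  by_contra hcon
  push Not at hcon
  nlinarith [mul_nonneg (sub_nonneg.2 hcon.le) (sub_nonneg.2 h1.le)]

theorem den_ge (γ : SU) (z : ℂ) :
    ‖γ.a‖ * (1 - ‖z‖) ≤ ‖conj γ.b * z + conj γ.a‖ := by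
  have h1 := norm_sub_le (conj γ.b * z + conj γ.a) (conj γ.b * z)
  rw [add_sub_cancel_left, norm_mul, Complex.norm_conj, Complex.norm_conj] at h1
  nlinarith [γ.norm_b_lt, norm_nonneg z]

theorem exists_min (Γ : Subgroup SU) (hf : ∀ C : ℝ, {γ : SU | γ ∈ Γ ∧ ‖γ.a‖ ≤ C}.Finite) {z : ℂ}
    (hz : ‖z‖ < 1) : ∃ γ ∈ Γ, ∀ γ' ∈ Γ, ‖γ.act z‖ ≤ ‖γ'.act z‖ := by
  have h0 := norm_nonneg z
  have h1 : 0 < 1 - ‖z‖ := by linarith
  have hone : (1 : SU) ∈ {γ : SU | γ ∈ Γ ∧ ‖γ.a‖ ≤ 1 / (1 - ‖z‖)} :=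
    ⟨Γ.one_mem, by rw [SU.one_a, norm_one, le_div_iff₀ h1]; linarith⟩
  obtain ⟨γ, hγ, hm⟩ := exists_min_image _ (fun γ : SU => ‖γ.act z‖) (hf (1 / (1 - ‖z‖))) ⟨1, hone⟩
  refine ⟨γ, hγ.1, fun γ' h' => ?_⟩
  rcases le_total ‖γ'.a‖ (1 / (1 - ‖z‖)) with h | h
  · exact hm γ' ⟨h', h⟩
  · have h2 : 1 ≤ ‖conj γ'.b * z + conj γ'.a‖ := ((div_le_iff₀ h1).1 h).trans (den_ge γ' z)
    have h3 : 1 - ‖γ'.act z‖ ^ 2 ≤ 1 - ‖z‖ ^ 2 := by
      rw [γ'.one_sub_act hz]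
      exact div_le_self (by nlinarith) (one_le_pow₀ h2)
    have h4 := hm 1 hone
    rw [SU.one_act] at h4
    exact h4.trans (le_of_sq_le_sq (by linarith) (norm_nonneg _))

theorem act_bdd (γ : SU) {ϱ : ℝ} (hϱ : ϱ < 1) :
    ∃ ϱ' : ℝ, ϱ' < 1 ∧ ∀ w : ℂ, ‖w‖ ≤ ϱ → ‖γ.act w‖ ≤ ϱ' := by
  have ha := γ.one_le_norm_a
  refine ⟨1 - (1 - ϱ) / (2 * ‖γ.a‖) ^ 2 / 2, by
    have : 0 < (1 - ϱ) / (2 * ‖γ.a‖) ^ 2 / 2 := by
      have : 0 < 1 - ϱ := by linarith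
      positivity
    linarith, fun w hw => ?_⟩
  have h0 := norm_nonneg w
  have h1 := hw.trans_lt hϱ
  have h2 : ‖conj γ.b * w + conj γ.a‖ ≤ 2 * ‖γ.a‖ := by
    refine (norm_add_le _ _).trans ?_
    rw [norm_mul, Complex.norm_conj, Complex.norm_conj]
    nlinarith [γ.norm_b_lt, norm_nonneg γ.b]
  have h3 := norm_pos_iff.2 (γ.den_ne h1)
  have h4 : (1 - ϱ) / (2 * ‖γ.a‖) ^ 2 ≤ 1 - ‖γ.act w‖ ^ 2 := by
    rw [γ.one_sub_act h1]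
    have : 1 - ϱ ≤ 1 - ‖w‖ ^ 2 := by nlinarith
    have h5 : 0 ≤ 1 - ‖w‖ ^ 2 := by nlinarith
    gcongr
  nlinarith [sq_nonneg (‖γ.act w‖ - 1)]

/-- The congruence groups as subgroups. -/
def grp (h : GnFacts) (n : ℕ) : Subgroup SU where
  carrier := Gn n
  mul_mem' := fun ha hb => h.mul n _ ha _ hb
  one_mem' := h.one n
  inv_mem' := fun ha => h.inv n _ ha

end G5

open G5

theorem covStmt : CovStmt := by
  refine ⟨⟨0.9, by norm_num, fun z hz => oct_bdd hz⟩, fun Γ hf hg z hz => ?_⟩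
  obtain ⟨γ, hγ, hm⟩ := exists_min Γ hf hz
  have hw := γ.act_lt hz
  refine ⟨γ, hγ, hw, fun k => ?_⟩
  obtain ⟨g, hg, ga, gb⟩ := hg k
  have h1 := hm (g⁻¹ * γ) (Γ.mul_mem (Γ.inv_mem hg) hγ)
  rw [SU.mul_act _ _ hz] at h1
  set w := γ.act z
  have h0 := norm_nonneg w
  have h2 : 0 < 1 - ‖w‖ ^ 2 := by nlinarith
  have h3 := norm_pos_iff.2 (g⁻¹.den_ne hw)
  have h4 : 1 ≤ ‖conj g⁻¹.b * w + conj g⁻¹.a‖ ^ 2 := by
    have a1 : (1 - ‖w‖ ^ 2) / ‖conj g⁻¹.b * w + conj g⁻¹.a‖ ^ 2 ≤ 1 - ‖w‖ ^ 2 := by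
      rw [← g⁻¹.one_sub_act hw]
      nlinarith
    rw [div_le_iff₀ (by positivity)] at a1
    exact le_of_mul_le_mul_left (by linarith) h2
  set B : ℝ := √(2 + 2 * √2) with hB
  have hB0 : 0 < B := by positivity
  have hB2 : B * B = 2 + 2 * √2 := Real.mul_self_sqrt (by positivity)
  have s2 : (√2 : ℝ) * √2 = 2 := Real.mul_self_sqrt (by norm_num)
  have hu : Complex.normSq (zeta ^ (k : ℕ)) = 1 := by rw [map_pow, normSq_zeta, one_pow]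
  generalize zeta ^ (k : ℕ) = u at *
  have h5 : ‖conj g⁻¹.b * w + conj g⁻¹.a‖ ^ 2
      = B * B * ‖w‖ ^ 2 + (1 + √2) ^ 2 - 2 * (1 + √2) * B * (w * conj u).re := by
    simp only [SU.inv_a, SU.inv_b, ga, gb, ← Complex.normSq_eq_norm_sq, Complex.normSq_apply,
      Complex.add_re, Complex.add_im, Complex.mul_re, Complex.mul_im, Complex.conj_re,
      Complex.conj_im, Complex.neg_re, Complex.neg_im, Complex.ofReal_re, Complex.ofReal_im]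
      at hu ⊢
    linear_combination B * B * (w.re * w.re + w.im * w.im) * hu
  refine le_of_mul_le_mul_left ?_ hB0
  nlinarith

theorem pairStmt (h1 : GnFacts) (h2 : GnDisc) (h3 : ChiStmt) : PairStmt := by
  obtain ⟨χ, o, ho, c1, c2, c3, c4, c5, c6⟩ := h3
  obtain ⟨⟨ϱ, hϱ, hb⟩, hc⟩ := covStmt
  have cov := hc (grp h1 3) h2.fin h1.gens
  have four : ∀ e₀ e₁ : ℝ, e₀ = 1 ∨ e₀ = -1 → e₁ = 1 ∨ e₁ = -1 → ∃ ϱ' : ℝ, ϱ' < 1 ∧
      ∀ z : ℂ, ‖z‖ < 1 → ∀ γ ∈ Gn 3, χ 0 γ = e₀ → χ 1 γ = e₁ → γ.act z ∈ oct →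
        ∃ γ' ∈ Gn 4, ‖γ'.act z‖ ≤ ϱ' := by
    intro e₀ e₁ a0 a1
    obtain ⟨v, hv, v0, v1⟩ := c5 e₀ e₁ a0 a1
    obtain ⟨ϱ', b1, b2⟩ := act_bdd v hϱ
    refine ⟨ϱ', b1, fun z hz γ hγ g0 g1 hz' => ⟨v * γ, (c4 _).2 ⟨h1.mul 3 v hv γ hγ, ?_, ?_⟩, ?_⟩⟩
    · rw [c2 0 v hv γ hγ, v0, g0]
      rcases a0 with a | a <;> rw [a] <;> norm_num
    · rw [c2 1 v hv γ hγ, v1, g1]
      rcases a1 with a | a <;> rw [a] <;> norm_num
    · rw [SU.mul_act _ _ hz]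
      exact b2 _ (hb _ hz')
  obtain ⟨r1, p1, q1⟩ := four 1 1 (.inl rfl) (.inl rfl)
  obtain ⟨r2, p2, q2⟩ := four 1 (-1) (.inl rfl) (.inr rfl)
  obtain ⟨r3, p3, q3⟩ := four (-1) 1 (.inr rfl) (.inl rfl)
  obtain ⟨r4, p4, q4⟩ := four (-1) (-1) (.inr rfl) (.inr rfl)
  refine ⟨{ L3 := ⟨grp h1 3, h1.le h1.neg, h2.fin, h2.tr3, h1.jn 3, ϱ, hϱ, fun z hz => ?_⟩
            L4 := ⟨grp h1 4, h1.neg, fun C => (h2.fin C).subset fun γ h => ⟨h1.le h.1, h.2⟩, h2.tr4,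
              h1.jn 4, max (max r1 r2) (max r3 r4), max_lt (max_lt p1 p2) (max_lt p3 p4),
              fun z hz => ?_⟩
            cov := cov, χ := χ, χ_sq := c1, χ_mul := c2, χ_two := c3, mem4 := c4, surj := c5
            om := o, om_n := fun γ => ?_, om_χ := c6 }⟩
  · obtain ⟨γ, a1, a2⟩ := cov z hz
    exact ⟨γ, a1, hb _ a2⟩
  · obtain ⟨γ, a1, a2⟩ := cov z hz
    rcases c1 0 γ a1 with b0 | b0 <;> rcases c1 1 γ a1 with b1 | b1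
    · obtain ⟨g, d1, d2⟩ := q1 z hz γ a1 b0 b1 a2
      exact ⟨g, d1, d2.trans ((le_max_left _ _).trans (le_max_left _ _))⟩
    · obtain ⟨g, d1, d2⟩ := q2 z hz γ a1 b0 b1 a2
      exact ⟨g, d1, d2.trans ((le_max_right _ _).trans (le_max_left _ _))⟩
    · obtain ⟨g, d1, d2⟩ := q3 z hz γ a1 b0 b1 a2
      exact ⟨g, d1, d2.trans ((le_max_left _ _).trans (le_max_right _ _))⟩
    · obtain ⟨g, d1, d2⟩ := q4 z hz γ a1 b0 b1 a2
      exact ⟨g, d1, d2.trans ((le_max_right _ _).trans (le_max_right _ _))⟩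
  · rcases ho with rfl | rfl
    · exact h1.omn 3 γ
    · have := h1.omn 3 (SU.om⁻¹ * γ * SU.om⁻¹⁻¹)
      rw [show SU.om * (SU.om⁻¹ * γ * SU.om⁻¹⁻¹) * SU.om⁻¹ = γ by group] at this
      exact this.symm

end Pool.Agent.MP_417fa2_gt.Q2
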