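import Pool.Agent.MP_417fa2_gt.Q2.MSpec

/-! M1. The quotient of the bidisc with its centred charts. -/

open scoped Manifold ContDiff Topology
open Set Metric Filter

namespace Pool.Agent.MP_417fa2_gt.Q2

namespace M1

theorem cont_zc : Continuous zc := by
  have h : zc = fun y : E4 => (y 0 : ℂ) + (y 1 : ℂ) * Complex.I := by
    funext y
    apply Complex.ext <;> simp [zc]
  rw [h]
  fun_prop

theorem cont_wc : Continuous wc := by
  have h : wc = fun y : E4 => (y 2 : ℂ) + (y 3 : ℂ) * Complex.I := by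
    funext y
    apply Complex.ext <;> simp [wc]
  rw [h]
  fun_prop

theorem cont_mkE : Continuous fun p : ℂ × ℂ => mkE p.1 p.2 := by
  unfold mkE
  refine (PiLp.continuous_toLp 2 _).comp (continuous_pi fun i => ?_)
  fin_cases i <;> simp <;> fun_prop

theorem cc_ne : (cc : ℂ) ≠ 0 := by
  have h : cc ≠ 0 := by norm_num [cc]
  exact_mod_cast h

theorem z_le (h2 : CoFacts) (y : E4) : ‖zc y‖ ≤ ‖y‖ := by
  refine le_of_sq_le_sq ?_ (norm_nonneg _)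
  rw [h2.nsq, h2.zsq_eq, h2.wsq_eq]
  nlinarith [sq_nonneg ‖wc y‖]

theorem w_le (h2 : CoFacts) (y : E4) : ‖wc y / cc‖ ≤ ‖y‖ := by
  have h : ‖wc y‖ ≤ ‖y‖ := by
    refine le_of_sq_le_sq ?_ (norm_nonneg _)
    rw [h2.nsq, h2.zsq_eq, h2.wsq_eq]
    nlinarith [sq_nonneg ‖zc y‖]
  have hc : ‖(cc : ℂ)‖ = 10 / 9 := by
    rw [Complex.norm_real, cc, Real.norm_eq_abs, abs_of_pos (by norm_num)]
  rw [norm_div, hc, div_le_iff₀ (by norm_num)]
  nlinarith [norm_nonneg y]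

theorem mem_DD {p : ℂ × ℂ} : p ∈ DD ↔ ‖p.1‖ < 1 ∧ ‖p.2‖ < 1 := by
  simp [DD]

theorem isOpen_DD : IsOpen DD := isOpen_ball.prod isOpen_ball

theorem contOn_pair (γ₁ γ₂ : SU) :
    ContinuousOn (fun p : ℂ × ℂ => (γ₁.act p.1, γ₂.act p.2)) DD :=
  (γ₁.contDiffOn_act.continuousOn.comp continuousOn_fst fun _ hp => hp.1).prodMk
    (γ₂.contDiffOn_act.continuousOn.comp continuousOn_snd fun _ hp => hp.2)

/-- Two points near the centre of a translate in one orbit are equal. -/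
theorem inj_one {T : ℝ} {L : Lat T} (h : DqFacts L) {a z z' : ℂ} (ha : ‖a‖ < 1)
    (hz : ‖z‖ < r0) (hz' : ‖z'‖ < r0) {γ : SU} (hγ : γ ∈ L.Γ)
    (e : γ.act (mob a z) = mob a z') : z = z' := by
  have hr : r0 = 1 / 10 := rfl
  have h1 : ‖z‖ < 1 := by linarith
  have h1' : ‖z'‖ < 1 := by linarith
  have h3 : pdist (γ.act (mob a z)) (mob a z) < 9 / 10 := by
    rw [e, pdist_mob ha h1' h1]
    linarith [pdist_le_add h1' h1]
  have h4 : mob a z = mob a z' := by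
    rcases h.disp γ hγ _ (mob_lt ha h1) h3 with rfl | rfl
    · simpa using e
    · simpa using e
  obtain ⟨τ, hτ⟩ := exists_tl ha
  rw [← τ.inv_act_act h1, ← τ.inv_act_act h1', hτ, hτ, h4]

/-- The centred parametrization is an open embedding on the ball. -/
theorem exists_chart {T₁ T₂ : ℝ} {L₁ : Lat T₁} {L₂ : Lat T₂} (d₁ : DqFacts L₁) (d₂ : DqFacts L₂)
    (h2 : CoFacts) {M : Type} [TopologicalSpace M] (proj : ℂ × ℂ → M)
    (heq : ∀ p ∈ DD, ∀ q ∈ DD, proj p = proj q →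
      ∃ γ₁ ∈ L₁.Γ, ∃ γ₂ ∈ L₂.Γ, γ₁.act p.1 = q.1 ∧ γ₂.act p.2 = q.2)
    (hc : ContinuousOn proj DD) (ho : ∀ U ⊆ DD, IsOpen U → IsOpen (proj '' U))
    {p : ℂ × ℂ} (hp : p ∈ DD) : ∃ e : OpenPartialHomeomorph E4 M, e.source = ball 0 r0 ∧
      ∀ y, e y = proj (mob p.1 (zc y), mob p.2 (wc y / cc)) := by
  obtain ⟨ha, hb⟩ := mem_DD.1 hp
  have hr : r0 = 1 / 10 := rfl
  obtain ⟨τ, hτ⟩ := exists_tl ha
  obtain ⟨σ, hσ⟩ := exists_tl hb
  have hz : ∀ y ∈ ball (0 : E4) r0, ‖zc y‖ < r0 := fun y hy =>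
    (z_le h2 y).trans_lt (mem_ball_zero_iff.1 hy)
  have hw : ∀ y ∈ ball (0 : E4) r0, ‖wc y / cc‖ < r0 := fun y hy =>
    (w_le h2 y).trans_lt (mem_ball_zero_iff.1 hy)
  have hA : MapsTo (fun y : E4 => (zc y, wc y / cc)) (ball 0 r0) DD := fun y hy =>
    mem_DD.2 ⟨by linarith [hz y hy], by linarith [hw y hy]⟩
  set G : E4 → ℂ × ℂ := fun y => (mob p.1 (zc y), mob p.2 (wc y / cc)) with hG
  have hGm : MapsTo G (ball 0 r0) DD := fun y hy =>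
    mem_DD.2 ⟨mob_lt ha (mem_DD.1 (hA hy)).1, mob_lt hb (mem_DD.1 (hA hy)).2⟩
  have hGc : ContinuousOn G (ball 0 r0) := by
    have h1 : Continuous fun y : E4 => (zc y, wc y / cc) :=
      cont_zc.prodMk (cont_wc.div_const _)
    refine ((contOn_pair τ σ).comp h1.continuousOn hA).congr fun y _ => ?_
    simp only [hG, Function.comp, hτ, hσ]
  have hinj : InjOn (fun y => proj (G y)) (ball 0 r0) := by
    intro y hy y' hy' e
    obtain ⟨γ₁, g₁, γ₂, g₂, e₁, e₂⟩ := heq _ (hGm hy) _ (hGm hy') e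
    have h3 := inj_one d₁ ha (hz y hy) (hz y' hy') g₁ e₁
    have h4 := inj_one d₂ hb (hw y hy) (hw y' hy') g₂ e₂
    rw [← h2.mk_zw y, ← h2.mk_zw y', h3, (div_left_inj' cc_ne).1 h4]
  have hopen : ∀ V ⊆ ball (0 : E4) r0, IsOpen V → IsOpen (G '' V) := by
    intro V hV hVo
    have h1 : ContinuousOn (fun q : ℂ × ℂ => mkE (τ⁻¹.act q.1) (cc * σ⁻¹.act q.2)) DD := by
      have h3 : Continuous fun q : ℂ × ℂ => mkE q.1 (cc * q.2) :=
        cont_mkE.comp (continuous_fst.prodMk (continuous_const.mul continuous_snd))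
      exact h3.comp_continuousOn (contOn_pair τ⁻¹ σ⁻¹)
    have h3 : G '' V = DD ∩ (fun q : ℂ × ℂ => mkE (τ⁻¹.act q.1) (cc * σ⁻¹.act q.2)) ⁻¹' V := by
      ext q
      constructor
      · rintro ⟨y, hy, rfl⟩
        refine ⟨hGm (hV hy), ?_⟩
        obtain ⟨h4, h5⟩ := mem_DD.1 (hA (hV hy))
        simp only [hG, mem_preimage, ← hτ, ← hσ]
        rw [τ.inv_act_act h4, σ.inv_act_act h5, mul_div_cancel₀ _ cc_ne, h2.mk_zw]
        exact hy
      · rintro ⟨hq, hq'⟩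
        obtain ⟨h4, h5⟩ := mem_DD.1 hq
        refine ⟨_, hq', ?_⟩
        simp only [hG, ← hτ, ← hσ, h2.zc_mk, h2.wc_mk]
        rw [mul_div_cancel_left₀ _ cc_ne, τ.act_inv_act h4, σ.act_inv_act h5]
    rw [h3]
    exact h1.isOpen_inter_preimage isOpen_DD hVo
  refine ⟨OpenPartialHomeomorph.ofContinuousOpenRestrict
    (hinj.toPartialEquiv (fun y => proj (G y)) (ball 0 r0)) (hc.comp hGc hGm) ?_ isOpen_ball,
    rfl, fun y => rfl⟩
  intro W hW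
  have h1 : IsOpen (Subtype.val '' W : Set E4) := isOpen_ball.isOpenMap_subtype_val W hW
  have h3 : (Subtype.val '' W : Set E4) ⊆ ball 0 r0 := by
    rintro _ ⟨y, _, rfl⟩
    exact y.2
  have h4 := ho _ (image_subset_iff.2 fun y hy => hGm (h3 hy)) (hopen _ h3 h1)
  rw [image_image, image_image] at h4
  exact h4

/-- The orbit relation on the bidisc. -/
def rel {T₁ T₂ : ℝ} (L₁ : Lat T₁) (L₂ : Lat T₂) : Setoid DD where
  r p q := ∃ γ₁ ∈ L₁.Γ, ∃ γ₂ ∈ L₂.Γ, γ₁.act p.1.1 = q.1.1 ∧ γ₂.act p.1.2 = q.1.2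
  iseqv :=
    { refl := fun _ => ⟨1, one_mem _, 1, one_mem _, by simp, by simp⟩
      symm := by
        rintro p q ⟨γ₁, g₁, γ₂, g₂, e₁, e₂⟩
        obtain ⟨h1, h2⟩ := mem_DD.1 p.2
        exact ⟨γ₁⁻¹, inv_mem g₁, γ₂⁻¹, inv_mem g₂, by rw [← e₁, γ₁.inv_act_act h1],
          by rw [← e₂, γ₂.inv_act_act h2]⟩
      trans := by
        rintro p q s ⟨γ₁, g₁, γ₂, g₂, e₁, e₂⟩ ⟨δ₁, k₁, δ₂, k₂, f₁, f₂⟩
        obtain ⟨h1, h2⟩ := mem_DD.1 p.2
        exact ⟨δ₁ * γ₁, mul_mem k₁ g₁, δ₂ * γ₂, mul_mem k₂ g₂,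
          by rw [SU.mul_act _ _ h1, e₁, f₁], by rw [SU.mul_act _ _ h2, e₂, f₂]⟩ }

theorem zero_mem : ((0 : ℂ), (0 : ℂ)) ∈ DD := mem_DD.2 (by simp)

open Classical in
/-- The projection to the quotient. -/
noncomputable def pr {T₁ T₂ : ℝ} (L₁ : Lat T₁) (L₂ : Lat T₂) (p : ℂ × ℂ) : Quotient (rel L₁ L₂) :=
  if h : p ∈ DD then Quotient.mk _ ⟨p, h⟩ else Quotient.mk _ ⟨_, zero_mem⟩

variable {T₁ T₂ : ℝ} {L₁ : Lat T₁} {L₂ : Lat T₂}

theorem pr_of_mem {p : ℂ × ℂ} (h : p ∈ DD) : pr L₁ L₂ p = Quotient.mk _ ⟨p, h⟩ := dif_pos h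

theorem pr_eq (p : ℂ × ℂ) (hp : p ∈ DD) (q : ℂ × ℂ) (hq : q ∈ DD) : pr L₁ L₂ p = pr L₁ L₂ q ↔
    ∃ γ₁ ∈ L₁.Γ, ∃ γ₂ ∈ L₂.Γ, γ₁.act p.1 = q.1 ∧ γ₂.act p.2 = q.2 := by
  rw [pr_of_mem hp, pr_of_mem hq, Quotient.eq]
  rfl

theorem pr_cont : ContinuousOn (pr L₁ L₂) DD := by
  rw [continuousOn_iff_continuous_domRestrict]
  have h : DD.domRestrict (pr L₁ L₂) = Quotient.mk (rel L₁ L₂) := funext fun p => pr_of_mem p.2
  rw [h]
  exact continuous_quotient_mk'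

theorem pr_open (U : Set (ℂ × ℂ)) (hU : U ⊆ DD) (ho : IsOpen U) : IsOpen (pr L₁ L₂ '' U) := by
  refine isOpen_coinduced.2 ?_
  have h : (Quot.mk (rel L₁ L₂) : DD → Quotient (rel L₁ L₂)) ⁻¹' (pr L₁ L₂ '' U) =
      ⋃ γ₁ ∈ L₁.Γ, ⋃ γ₂ ∈ L₂.Γ, (fun q : DD => (γ₁.act q.1.1, γ₂.act q.1.2)) ⁻¹' U := by
    ext q
    simp only [mem_preimage, mem_image, mem_iUnion]
    have hq : (Quot.mk (rel L₁ L₂) q : Quotient (rel L₁ L₂)) = pr L₁ L₂ q.1 := (pr_of_mem q.2).symm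
    rw [hq]
    constructor
    · rintro ⟨p, hp, e⟩
      obtain ⟨γ₁, g₁, γ₂, g₂, e₁, e₂⟩ := (pr_eq _ q.2 _ (hU hp)).1 e.symm
      exact ⟨γ₁, g₁, γ₂, g₂, by rw [e₁, e₂]; exact hp⟩
    · rintro ⟨γ₁, g₁, γ₂, g₂, hp⟩
      exact ⟨_, hp, ((pr_eq _ q.2 _ (hU hp)).2 ⟨γ₁, g₁, γ₂, g₂, rfl, rfl⟩).symm⟩
  change IsOpen ((Quot.mk (rel L₁ L₂) : DD → Quotient (rel L₁ L₂)) ⁻¹' (pr L₁ L₂ '' U))
  rw [h]
  exact isOpen_biUnion fun γ₁ _ => isOpen_biUnion fun γ₂ _ =>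
    ho.preimage (continuousOn_iff_continuous_domRestrict.1 (contOn_pair γ₁ γ₂))

end M1

open M1 in
theorem modelStmt (h : DqStmt) (h2 : CoFacts) : ModelStmt := by
  intro T₁ T₂ L₁ L₂ t₁ t₂
  have hl : ∀ x : Quotient (rel L₁ L₂), pr L₁ L₂ x.out.1 = x := fun x => by
    rw [pr_of_mem x.out.2]
    exact x.out_eq
  choose e he he' using fun x : Quotient (rel L₁ L₂) =>
    exists_chart (h T₁ L₁ t₁) (h T₂ L₂ t₂) h2 (pr L₁ L₂) (fun p hp q hq => (pr_eq p hp q hq).1)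
      pr_cont pr_open x.out.2
  have hz : zc 0 = 0 := by apply Complex.ext <;> simp [zc]
  have hw : wc 0 = 0 := by apply Complex.ext <;> simp [wc]
  have h0 : ∀ x, (0 : E4) ∈ (e x).source := fun x => by
    rw [he]
    exact mem_ball_self (by norm_num [r0])
  have h1 : ∀ x, e x 0 = x := fun x => by
    rw [he', hz, hw, zero_div, mob_zero, mob_zero]
    exact hl x
  let cs : ChartedSpace E4 (Quotient (rel L₁ L₂)) :=
    { atlas := range fun x => (e x).symm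
      chartAt := fun x => (e x).symm
      mem_chart_source := fun x => by
        have := (e x).map_source (h0 x)
        rw [h1] at this
        exact this
      chart_mem_atlas := fun x => mem_range_self x }
  refine ⟨Quotient (rel L₁ L₂), inferInstance, cs, ⟨⟨pr L₁ L₂, fun x => x.out.1, fun x => x.out.2,
    hl, pr_eq, pr_cont, pr_open, ?_, ?_, fun x => he x, fun x y _ => he' x y⟩⟩⟩
  · rintro _ ⟨x, rfl⟩
    exact ⟨x, rfl⟩
  · intro x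
    have := (e x).left_inv (h0 x)
    rw [h1] at this
    exact this

end Pool.Agent.MP_417fa2_gt.Q2
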