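import Pool.Agent.MP_417fa2_gt.Q2.S3Unf

/-! The measure of a weight. -/

open scoped ContDiff ComplexConjugate ENNReal
open MeasureTheory Set Metric Real

namespace Pool.Agent.MP_417fa2_gt.Q2

variable {Γ : Subgroup SU}

theorem Wt.μ_eq (W : Wt Γ) : W.μ = (volume.restrict (ball (0 : ℂ) 1)).withDensity
    fun z => ENNReal.ofReal (W.β z / (1 - ‖z‖ ^ 2) ^ 2) := by
  rw [Wt.μ, dA, ← withDensity_mul _ measurable_dens W.measurable]
  congr 1
  funext z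
  rw [Pi.mul_apply, ← ENNReal.ofReal_mul (by positivity)]
  congr 1
  ring

theorem Wt.meas' (W : Wt Γ) : Measurable fun z => ENNReal.ofReal (W.β z / (1 - ‖z‖ ^ 2) ^ 2) :=
  (W.sm.continuous.measurable.div (by fun_prop)).ennreal_ofReal

theorem Wt.toReal (W : Wt Γ) (z : ℂ) :
    (ENNReal.ofReal (W.β z / (1 - ‖z‖ ^ 2) ^ 2)).toReal = W.β z / (1 - ‖z‖ ^ 2) ^ 2 :=
  ENNReal.toReal_ofReal (div_nonneg (W.nonneg z) (sq_nonneg _))

theorem Wt.ae_lt (W : Wt Γ) : ∀ᵐ z ∂W.μ, ‖z‖ < 1 :=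
  (withDensity_absolutelyContinuous _ _).ae_le ae_dA

theorem Wt.integrable (W : Wt Γ) {f : ℂ → ℝ} (hf : Ct f) : Integrable f W.μ := by
  obtain ⟨ϱ, h1, h2⟩ := W.supp
  have hs : closedBall (0 : ℂ) ϱ ⊆ ball 0 1 := closedBall_subset_ball h1
  rw [W.μ_eq, integrable_withDensity_iff W.meas' (by simp)]
  simp only [W.toReal]
  refine IntegrableOn.of_forall_sdiff_eq_zero (s := closedBall 0 ϱ)
    (ContinuousOn.integrableOn_compact (isCompact_closedBall _ _) ((hf.mono hs).mul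
      (W.sm.continuous.continuousOn.div (by fun_prop) fun z hz => ?_))) measurableSet_ball
    fun z hz => ?_
  · have := mem_ball_zero_iff.1 (hs hz)
    exact pow_ne_zero _ (by nlinarith [norm_nonneg z])
  · simp [h2 z (by simpa using hz.2)]

theorem Wt.integral_eq (W : Wt Γ) (f : ℂ → ℝ) :
    ∫ z, f z ∂W.μ = ∫ z in ball (0 : ℂ) 1, W.β z / (1 - ‖z‖ ^ 2) ^ 2 * f z := by
  rw [W.μ_eq, integral_withDensity_eq_integral_toReal_smul W.meas' (by simp)]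
  simp only [W.toReal, smul_eq_mul]

theorem Wt.finite (W : Wt Γ) : IsFiniteMeasure W.μ :=
  (integrable_const_iff_isFiniteMeasure one_ne_zero).1
    (W.integrable (f := fun _ => 1) continuousOn_const)

theorem Ct.meas {f : ℂ → ℝ} (hf : Ct f) : Measurable ((ball 0 1).indicator f) := by
  classical
  exact ContinuousOn.measurable_piecewise hf continuousOn_const measurableSet_ball

variable {T : ℝ} (L : Lat T) (W : Wt L.Γ)

theorem fold_l {b F : ℂ → ℝ≥0∞} (hb : Measurable b) (hF : Measurable F)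
    (hs : ∀ z : ℂ, ‖z‖ < 1 → ∑' γ : L.Γ, b ((γ : SU).act z) = 2)
    (hi : ∀ γ ∈ L.Γ, ∀ z : ℂ, ‖z‖ < 1 → F (γ.act z) = F z) :
    ∫⁻ z, b z * F z ∂dA = ∫⁻ z, F z ∂W.μ := by
  rw [← ENNReal.mul_right_inj (a := 2) (by simp) (by simp),
    ← unfold_l L W _ (hb.fun_mul hF), ← lintegral_const_mul _ hF]
  refine lintegral_congr_ae (W.ae_lt.mono fun z hz => ?_)
  simp only
  rw [← hs z hz, ← ENNReal.tsum_mul_right]
  exact tsum_congr fun γ => by rw [hi _ γ.2 z hz]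

theorem indep_l (W' : Wt L.Γ) (F : ℂ → ℝ≥0∞) (hF : Measurable F)
    (hi : ∀ γ ∈ L.Γ, ∀ z : ℂ, ‖z‖ < 1 → F (γ.act z) = F z) :
    ∫⁻ z, F z ∂W'.μ = ∫⁻ z, F z ∂W.μ := by
  rw [W'.lintegral hF, fold_l L W W'.measurable hF (fun _ => W'.tsum) hi]

theorem indep_r (W' : Wt L.Γ) (f : ℂ → ℝ) (hf : Ct f) (hi : Invt L.Γ f) :
    ∫ z, f z ∂W'.μ = ∫ z, f z ∂W.μ := by
  have key : ∀ g : ℂ → ℝ, Ct g → Invt L.Γ g →
      ∫⁻ z, ENNReal.ofReal (g z) ∂W'.μ = ∫⁻ z, ENNReal.ofReal (g z) ∂W.μ := fun g hg hi => by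
    have e : ∀ V : Wt L.Γ, ∫⁻ z, ENNReal.ofReal (g z) ∂V.μ =
        ∫⁻ z, ENNReal.ofReal ((ball 0 1).indicator g z) ∂V.μ := fun V =>
      lintegral_congr_ae (V.ae_lt.mono fun z hz => by simp [hz])
    rw [e, e]
    exact indep_l L W W' _ hg.meas.ennreal_ofReal fun γ h z hz => by
      simp [hz, γ.act_lt hz, hi γ h z hz]
  rw [integral_eq_lintegral_pos_part_sub_lintegral_neg_part (W'.integrable hf),
    integral_eq_lintegral_pos_part_sub_lintegral_neg_part (W.integrable hf), key f hf hi,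
    key (fun z => -f z) hf.neg fun γ h z hz => by simp only [hi γ h z hz]]

theorem norm_l (o : SU) (ho : ∀ γ : SU, γ ∈ L.Γ ↔ o * γ * o⁻¹ ∈ L.Γ) (F : ℂ → ℝ≥0∞)
    (hF : Measurable F) (hi : ∀ γ ∈ L.Γ, ∀ z : ℂ, ‖z‖ < 1 → F (γ.act z) = F z) :
    ∫⁻ z, F (o.act z) ∂W.μ = ∫⁻ z, F z ∂W.μ := by
  let e : L.Γ ≃ L.Γ := ⟨fun γ => ⟨o * γ * o⁻¹, (ho _).1 γ.2⟩,
    fun γ => ⟨o⁻¹ * γ * o, (ho _).2 (by simp [mul_assoc])⟩,
    fun γ => Subtype.ext (by simp [mul_assoc]), fun γ => Subtype.ext (by simp [mul_assoc])⟩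
  rw [← fold_l L W (o⁻¹.meas W.measurable) hF (fun z hz => ?_) hi, W.lintegral (o.meas hF),
    ← lintegral_act o _ ((o⁻¹.meas W.measurable).fun_mul hF)]
  · exact lintegral_congr_ae (ae_dA.mono fun z hz => by simp only [o.inv_act_act hz])
  · rw [← W.tsum (o⁻¹.act_lt hz), ← e.tsum_eq]
    refine tsum_congr fun γ => ?_
    rw [← SU.mul_act _ _ hz, ← SU.mul_act _ _ hz]
    simp [e, mul_assoc]

theorem wStmt : WStmt := fun _ L W =>
  ⟨W.finite, W.supp.imp fun ϱ h => ⟨h.1, (ae_withDensity_iff W.measurable).2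
      (ae_of_all _ fun z hz => not_lt.1 fun c => hz (by simp [h.2 z c]))⟩,
    fun _ => W.integrable, fun f _ => W.integral_eq f, fun f hf hi => by
      obtain ⟨ϱ, h1, h2⟩ := L.cpt
      obtain ⟨C, hC⟩ := (isCompact_closedBall (0 : ℂ) ϱ).exists_bound_of_continuousOn
        (hf.mono (closedBall_subset_ball h1))
      refine ⟨C, fun z hz => ?_⟩
      obtain ⟨γ, h, k⟩ := h2 z hz
      exact hi γ h z hz ▸ hC _ (mem_closedBall_zero_iff.2 k),
    indep_l L W, indep_r L W, norm_l L W⟩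

end Pool.Agent.MP_417fa2_gt.Q2
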