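import Pool.Agent.MP_417fa2_gt.Q2.MSpec
import Pool.Agent.MP_417fa2_gt.Q2.S4W

/-! M10. The gaps on the slices. -/

open scoped ContDiff
open MeasureTheory Set Metric

namespace Pool.Agent.MP_417fa2_gt.Q2

namespace M10

section Meas

variable {α β : Type} [MeasurableSpace α] [MeasurableSpace β] {μ : Measure α} {ν : Measure β}
  [IsFiniteMeasure μ] [IsFiniteMeasure ν] {Ψ : α × β → ℝ}

theorem jens {f : α → ℝ} (hf : MemLp f 2 μ) :
    μ.real univ * (⨍ x, f x ∂μ) ^ 2 ≤ ∫ x, f x ^ 2 ∂μ := by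
  have h1 := measure_smul_average μ f
  set m := ⨍ x, f x ∂μ
  have h2 := hf.integrable one_le_two
  have h3 : ∫ x, (2 * m * f x - m ^ 2) ∂μ ≤ ∫ x, f x ^ 2 ∂μ :=
    integral_mono ((h2.const_mul _).sub (integrable_const _)) hf.integrable_sq
      fun x => by nlinarith [sq_nonneg (f x - m)]
  rw [integral_sub (h2.const_mul _) (integrable_const _), integral_const_mul, integral_const,
    ← h1] at h3
  simp only [smul_eq_mul] at h3
  linarith

theorem slice (h : MemLp Ψ 2 (μ.prod ν)) : ∀ᵐ w ∂ν, MemLp (fun z => Ψ (z, w)) 2 μ := by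
  filter_upwards [h.integrable_sq.prod_left_ae, h.aestronglyMeasurable.prodMk_right] with w h1 h2
  exact (memLp_two_iff_integrable_sq h2).2 h1

theorem avg (h : MemLp Ψ 2 (μ.prod ν)) : MemLp (fun w => ⨍ z, Ψ (z, w) ∂μ) 2 ν := by
  have hm : AEStronglyMeasurable (fun w => ⨍ z, Ψ (z, w) ∂μ) ν := by
    simp only [average_eq]
    exact (h.integrable one_le_two).integral_prod_right.aestronglyMeasurable.const_smul
      (μ.real univ)⁻¹
  refine (memLp_two_iff_integrable_sq hm).2 (Integrable.mono'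
    (h.integrable_sq.integral_prod_right.const_mul (μ.real univ)⁻¹) (hm.pow 2) ?_)
  filter_upwards [slice h] with w hw
  rw [Real.norm_of_nonneg (sq_nonneg _)]
  rcases (measureReal_nonneg (μ := μ) (s := univ)).eq_or_lt with c | c
  · simp [average_eq, ← c]
  · exact (le_inv_mul_iff₀ c).2 (jens hw)

theorem split (h : MemLp Ψ 2 (μ.prod ν)) : ∃ c : ℝ, ∫ p, (Ψ p - c) ^ 2 ∂μ.prod ν ≤
    2 * ∫ w, ∫ z, (Ψ (z, w) - ⨍ x, Ψ (x, w) ∂μ) ^ 2 ∂μ ∂ν +
    2 * ∫ z, ∫ w, (Ψ (z, w) - ⨍ y, Ψ (z, y) ∂ν) ^ 2 ∂ν ∂μ := by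
  rcases eq_zero_or_neZero μ with rfl | _
  · exact ⟨0, by simp⟩
  have a1 := avg h
  have a2 : MemLp (fun z => ⨍ y, Ψ (z, y) ∂ν) 2 μ :=
    avg (Ψ := fun p => Ψ p.swap) (h.comp_measurePreserving Measure.measurePreserving_swap)
  have b1 : MemLp (fun p : α × β => Ψ p - ⨍ x, Ψ (x, p.2) ∂μ) 2 (μ.prod ν) := h.sub (a1.comp_snd μ)
  have b2 : MemLp (fun p : α × β => Ψ p - ⨍ y, Ψ (p.1, y) ∂ν) 2 (μ.prod ν) := h.sub (a2.comp_fst ν)
  have b3 := avg b2
  refine ⟨⨍ z, ⨍ y, Ψ (z, y) ∂ν ∂μ, ?_⟩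
  rw [← integral_prod_symm _ b1.integrable_sq, ← integral_prod _ b2.integrable_sq]
  have e : ∀ᵐ p : α × β ∂μ.prod ν, Ψ p - ⨍ z, ⨍ y, Ψ (z, y) ∂ν ∂μ =
      (Ψ p - ⨍ x, Ψ (x, p.2) ∂μ) + ⨍ x, (Ψ (x, p.2) - ⨍ y, Ψ (x, y) ∂ν) ∂μ := by
    refine Measure.quasiMeasurePreserving_snd.ae (p := fun w => ∀ t : ℝ,
      t - ⨍ z, ⨍ y, Ψ (z, y) ∂ν ∂μ = (t - ⨍ x, Ψ (x, w) ∂μ) +
        ⨍ x, (Ψ (x, w) - ⨍ y, Ψ (x, y) ∂ν) ∂μ) ((slice h).mono fun w hw t => ?_) |>.mono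
      fun p hp => hp _
    rw [average_eq μ fun x => Ψ (x, w) - _,
      integral_sub (hw.integrable one_le_two) (a2.integrable one_le_two), smul_sub,
      ← average_eq, ← average_eq]
    ring
  have k : ∫ p : α × β, (⨍ x, (Ψ (x, p.2) - ⨍ y, Ψ (x, y) ∂ν) ∂μ) ^ 2 ∂μ.prod ν ≤
      ∫ p : α × β, (Ψ p - ⨍ y, Ψ (p.1, y) ∂ν) ^ 2 ∂μ.prod ν := by
    rw [integral_fun_snd fun w => (⨍ x, (Ψ (x, w) - ⨍ y, Ψ (x, y) ∂ν) ∂μ) ^ 2,
      integral_prod_symm _ b2.integrable_sq, smul_eq_mul, ← integral_const_mul]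
    exact integral_mono_ae (b3.integrable_sq.const_mul _) b2.integrable_sq.integral_prod_right
      ((slice b2).mono fun w hw => jens hw)
  refine le_trans ?_ (add_le_add_right (mul_le_mul_of_nonneg_left k zero_le_two) _)
  have c3 := (b3.comp_snd μ).integrable_sq
  rw [← integral_const_mul, ← integral_const_mul,
    ← integral_add (b1.integrable_sq.const_mul _) (c3.const_mul _)]
  refine integral_mono_ae (h.sub (memLp_const _)).integrable_sq
    ((b1.integrable_sq.const_mul _).add (c3.const_mul _)) (e.mono fun p hp => ?_)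
  simp only [hp]
  nlinarith [sq_nonneg ((Ψ p - ⨍ x, Ψ (x, p.2) ∂μ) - ⨍ x, (Ψ (x, p.2) - ⨍ y, Ψ (x, y) ∂ν) ∂μ)]

end Meas

variable {T Λ : ℝ} {L : Lat T} {W : Wt L.Γ} {f : ℂ → ℝ}

theorem var (hΛ : 0 < Λ) (hG : Gap W Λ) (hf : Sm f) (hi : Invt L.Γ f) :
    ∫ z, (f z - ⨍ x, f x ∂W.μ) ^ 2 ∂W.μ ≤ 1 / Λ ^ 2 * ∫ z, L2 f z ^ 2 ∂W.μ := by
  have := W.finite
  have e : ∀ v, dd v (fun z => f z - ⨍ x, f x ∂W.μ) = dd v f := fun v =>
    funext fun z => by simp only [dd, fderiv_sub_const]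
  have h := hG (fun z => f z - ⨍ x, f x ∂W.μ) (hf.sub contDiffOn_const)
    (fun γ h z hz => by simp only [hi γ h z hz]) (integral_sub_average _ _)
  simp only [L2, lap2, e] at h ⊢
  rwa [one_div, le_inv_mul_iff₀ (by positivity)]

theorem dir (h2 : ConfFacts) (h3 : IbpStmt) (hΛ : 0 < Λ) (hG : Gap W Λ) (hf : Sm f)
    (hi : Invt L.Γ f) : -∫ z, f z * L2 f z ∂W.μ ≤ 1 / Λ * ∫ z, L2 f z ^ 2 ∂W.μ := by
  have h := var hΛ hG hf hi
  set m := ⨍ x, f x ∂W.μ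
  have h0 : ∫ z, L2 f z ∂W.μ = 0 := by
    simpa [Gam2, dd] using h3 T L W (fun _ => 1) f contDiffOn_const hf (fun _ _ _ _ => rfl) hi
  have c1 : Ct f := hf.continuousOn
  have c2 : Ct (L2 f) := (h2.sm_L f hf).continuousOn
  have i1 := W.integrable (f := fun z => f z * L2 f z) (c1.mul c2)
  have i2 := (W.integrable c2).const_mul m
  have i3 := (W.integrable (f := fun z => (f z - m) ^ 2)
    ((c1.sub continuousOn_const).fun_pow 2)).const_mul (Λ / 2)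
  have i4 := (W.integrable (f := fun z => L2 f z ^ 2) (c2.fun_pow 2)).const_mul (1 / (2 * Λ))
  have k := integral_mono (i2.sub i1) (i3.add i4) fun z => by
    have : 0 ≤ 1 / (2 * Λ) * (Λ * (f z - m) + L2 f z) ^ 2 := by positivity
    have e : 1 / (2 * Λ) * (Λ * (f z - m) + L2 f z) ^ 2 =
        Λ / 2 * (f z - m) ^ 2 + 1 / (2 * Λ) * L2 f z ^ 2 + (f z - m) * L2 f z := by
      field_simp
      ring
    simp only [Pi.sub_apply, Pi.add_apply]
    linarith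
  simp only [Pi.sub_apply, Pi.add_apply] at k
  rw [integral_sub i2 i1, integral_add i3 i4, integral_const_mul, integral_const_mul,
    integral_const_mul, h0] at k
  have e : 1 / Λ * ∫ z, L2 f z ^ 2 ∂W.μ = Λ / 2 * (1 / Λ ^ 2 * ∫ z, L2 f z ^ 2 ∂W.μ) +
      1 / (2 * Λ) * ∫ z, L2 f z ^ 2 ∂W.μ := by
    field_simp
    ring
  nlinarith [mul_le_mul_of_nonneg_left h (half_pos hΛ).le]

end M10

open M10 in
theorem sliceStmt (_h1 : WStmt) (h2 : ConfFacts) (h3 : IbpStmt) (h4 : CrossStmt) : SliceStmt := by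
  intro T₁ T₂ L₁ L₂ W₁ W₂ Λ₁ Λ₂ p1 p2 G1 G2 Φ hΦ
  have := W₁.finite
  have := W₂.finite
  obtain ⟨s1, s2, int, -⟩ := h4 T₁ T₂ L₁ L₂ W₁ W₂ Φ hΦ
  have c0 := hΦ.sm.continuousOn
  have c1 := s1.continuousOn
  have c2 := s2.continuousOn
  have hc : 0 < cc := by norm_num [cc]
  have m1 : ∀ w : ℂ, ‖w‖ < 1 → Sm fun z => Φ (z, w) := fun w hw =>
    hΦ.sm.comp (by fun_prop) fun z hz => ⟨hz, mem_ball_zero_iff.2 hw⟩
  have m2 : ∀ z : ℂ, ‖z‖ < 1 → Sm fun w => Φ (z, w) := fun z hz =>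
    hΦ.sm.comp (by fun_prop) fun w hw => ⟨mem_ball_zero_iff.2 hz, hw⟩
  have i1 := int (fun p => Φ p * op1 Φ p) (c0.mul c1)
  have i2 := int (fun p => Φ p * op2 Φ p) (c0.mul c2)
  have j1 := int (fun p => op1 Φ p ^ 2) (c1.fun_pow 2)
  have j2 := int (fun p => op2 Φ p ^ 2) (c2.fun_pow 2)
  have e2 : ∀ z, ∫ w, op2 Φ (z, w) ^ 2 ∂W₂.μ =
      1 / cc ^ 4 * ∫ w, L2 (fun w => Φ (z, w)) w ^ 2 ∂W₂.μ := fun z => by
    rw [← integral_const_mul]
    exact integral_congr_ae (.of_forall fun w => by simp only [op2]; ring)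
  refine ⟨?_, ?_, ?_⟩
  · rw [integral_prod_symm _ i1, integral_prod_symm _ j1, ← integral_neg, ← integral_const_mul]
    exact integral_mono_ae i1.integral_prod_right.neg (j1.integral_prod_right.const_mul _)
      (W₂.ae_lt.mono fun w hw => dir h2 h3 p1 G1 (m1 w hw) (hΦ.inv1 w hw))
  · rw [integral_prod _ i2, integral_prod _ j2, ← integral_neg, ← integral_const_mul]
    refine integral_mono_ae i2.integral_prod_left.neg (j2.integral_prod_left.const_mul _)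
      (W₁.ae_lt.mono fun z hz => ?_)
    have e : ∫ w, Φ (z, w) * op2 Φ (z, w) ∂W₂.μ =
        1 / cc ^ 2 * ∫ w, Φ (z, w) * L2 (fun w => Φ (z, w)) w ∂W₂.μ := by
      rw [← integral_const_mul]
      exact integral_congr_ae (.of_forall fun w => by simp only [op2]; ring)
    have k := mul_le_mul_of_nonneg_left (dir h2 h3 p2 G2 (m2 z hz) (hΦ.inv2 z hz))
      (by positivity : 0 ≤ 1 / cc ^ 2)
    simp only [e, e2]
    refine le_trans (by rw [mul_neg]) (k.trans_eq ?_)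
    field_simp
  · have hL : MemLp Φ 2 (W₁.μ.prod W₂.μ) :=
      (memLp_two_iff_integrable_sq (int Φ c0).aestronglyMeasurable).2 (int _ (c0.fun_pow 2))
    obtain ⟨c, h⟩ := split hL
    have a2 : MemLp (fun z => ⨍ y, Φ (z, y) ∂W₂.μ) 2 W₁.μ :=
      avg (Ψ := fun p => Φ p.swap) (hL.comp_measurePreserving Measure.measurePreserving_swap)
    have b1 : MemLp (fun p : ℂ × ℂ => Φ p - ⨍ x, Φ (x, p.2) ∂W₁.μ) 2 (W₁.μ.prod W₂.μ) :=
      hL.sub ((avg hL).comp_snd _)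
    have b2 : MemLp (fun p : ℂ × ℂ => Φ p - ⨍ y, Φ (p.1, y) ∂W₂.μ) 2 (W₁.μ.prod W₂.μ) :=
      hL.sub (a2.comp_fst _)
    have k1 := integral_mono_ae b1.integrable_sq.integral_prod_right
      (j1.integral_prod_right.const_mul (1 / Λ₁ ^ 2))
      (W₂.ae_lt.mono fun w hw => var p1 G1 (m1 w hw) (hΦ.inv1 w hw))
    have k2 := integral_mono_ae b2.integrable_sq.integral_prod_left
      (j2.integral_prod_left.const_mul (cc ^ 4 / Λ₂ ^ 2)) (W₁.ae_lt.mono fun z hz => by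
        refine (var p2 G2 (m2 z hz) (hΦ.inv2 z hz)).trans_eq ?_
        simp only [e2]
        field_simp)
    rw [integral_const_mul, ← integral_prod_symm _ j1] at k1
    rw [integral_const_mul, ← integral_prod _ j2] at k2
    refine ⟨c, h.trans ((add_le_add (mul_le_mul_of_nonneg_left k1 zero_le_two)
      (mul_le_mul_of_nonneg_left k2 zero_le_two)).trans_eq (by ring))⟩

end Pool.Agent.MP_417fa2_gt.Q2
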