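import Pool.Agent.MP_417fa2_gt.Q2.M9

/-! Coercivity and total Q-curvature of the product; the data of level zero. -/

open scoped Manifold ContDiff Topology
open MeasureTheory Set Metric Real Filter

namespace Pool.Agent.MP_417fa2_gt.Q2

open M9

/-- The mean minimizes the mean square deviation. -/
theorem sq_sub_average_le {α : Type} [MeasurableSpace α] {μ : Measure α} [IsFiniteMeasure μ]
    {f : α → ℝ} (h1 : Integrable f μ) (h2 : Integrable (fun x => (f x - ⨍ z, f z ∂μ) ^ 2) μ)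
    (c : ℝ) (h3 : Integrable (fun x => (f x - c) ^ 2) μ) :
    ∫ x, (f x - ⨍ z, f z ∂μ) ^ 2 ∂μ ≤ ∫ x, (f x - c) ^ 2 ∂μ := by
  have h4 := (h1.sub (integrable_const (⨍ z, f z ∂μ))).const_mul (2 * (⨍ z, f z ∂μ - c))
  have h5 := integral_mono (h2.add h4) h3 fun x => by
    simp only [Pi.add_apply, Pi.sub_apply]
    nlinarith [sq_nonneg (⨍ z, f z ∂μ - c)]
  simp only [Pi.add_apply, Pi.sub_apply] at h4 h5
  rwa [integral_add h2 h4, integral_const_mul, integral_sub_average, mul_zero, add_zero] at h5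

theorem coerStmt (hV : VolStmt) (hO : OpStmt) (hX : CrossStmt) (hS : SliceStmt) (hW : WStmt) :
    CoerStmt := by
  intro T₁ T₂ L₁ L₂ M _ _ _ _ _ _ _ Q h₁ h₂ g hg W₁ W₂ g₁ g₂ a₁ a₂
  have hv := fun f hf => (hV _ _ _ _ _ Q h₁ h₂ g hg W₁ W₂ f hf).2
  obtain ⟨hq, hO⟩ := hO _ _ _ _ _ Q h₁ h₂ g hg
  have w₁ := hW _ L₁ W₁
  have w₂ := hW _ L₂ W₂
  have := w₁.fin
  have := w₂.fin
  have : IsFiniteMeasure (vol g) := (setupOf g).finite
  refine ⟨⟨100, fun φ hφ => ?_⟩, ?_⟩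
  · obtain ⟨hs, he⟩ := hO φ hφ
    obtain ⟨s1, s2, hi, hx⟩ := hX _ _ _ _ W₁ W₂ _ hs
    obtain ⟨b1, b2, c, b3⟩ := hS _ _ _ _ W₁ W₂ _ _ (by norm_num) (by norm_num) g₁ g₂ _ hs
    obtain ⟨K, -, hK, hae⟩ := ae_DD w₁ w₂
    set Φ : ℂ × ℂ → ℝ := fun p => φ (Q.proj p) with hΦ
    have c0 := hs.sm.continuousOn
    have c1 := s1.continuousOn
    have c2 := s2.continuousOn
    have hL : Smooth (lapM g φ) := (setupOf g).opL.smooth hφ
    have hB : Smooth (pan2M g φ) := (setupOf g).opB.smooth hφ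
    have e1 : ∫ x, lapM g φ x ^ 2 ∂vol g = cc ^ 2 * (∫ p, op1 Φ p ^ 2 ∂W₁.μ.prod W₂.μ +
        ∫ p, op2 Φ p ^ 2 ∂W₁.μ.prod W₂.μ + 2 * ∫ p, op1 Φ p * op2 Φ p ∂W₁.μ.prod W₂.μ) := by
      rw [hv _ (hL.continuous.fun_pow 2), ← integral_const_mul 2,
        ← integral_add (hi _ (c1.fun_pow 2)) (hi _ (c2.fun_pow 2)),
        ← integral_add (hi _ ((c1.fun_pow 2).fun_add (c2.fun_pow 2)))
          ((hi _ (c1.fun_mul c2)).const_mul 2)]
      congr 1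
      exact integral_congr_ae (hae.mono fun p hp => by simp only [(he p (hK hp)).1]; ring)
    have e2 : ∫ x, φ x * pan2M g φ x ∂vol g =
        cc ^ 2 * ((16 / cc ^ 2 - 8) / 3 * ∫ p, Φ p * op1 Φ p ∂W₁.μ.prod W₂.μ +
          (16 - 8 / cc ^ 2) / 3 * ∫ p, Φ p * op2 Φ p ∂W₁.μ.prod W₂.μ) := by
      rw [hv _ (hφ.continuous.fun_mul hB.continuous), ← integral_const_mul ((16 / cc ^ 2 - 8) / 3),
        ← integral_const_mul ((16 - 8 / cc ^ 2) / 3),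
        ← integral_add ((hi _ (c0.fun_mul c1)).const_mul _) ((hi _ (c0.fun_mul c2)).const_mul _)]
      congr 1
      exact integral_congr_ae (hae.mono fun p hp => by simp only [(he p (hK hp)).2, hΦ]; ring)
    have e3 : Bf g φ φ = ∫ x, lapM g φ x ^ 2 ∂vol g + ∫ x, φ x * pan2M g φ x ∂vol g := by
      have := (setupOf g).integral_mul_P hφ hφ
      rw [setupOf_P g hφ] at this
      simp only [sq]
      exact this
    have e4 := sq_sub_average_le (μ := vol g) ((setupOf g).integrable hφ.continuous)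
      ((setupOf g).integrable ((hφ.continuous.sub continuous_const).pow 2)) c
      ((setupOf g).integrable ((hφ.continuous.sub continuous_const).pow 2))
    rw [hv (fun x => (φ x - c) ^ 2) ((hφ.continuous.sub continuous_const).pow 2)] at e4
    have p1 : 0 ≤ ∫ p, op1 Φ p ^ 2 ∂W₁.μ.prod W₂.μ := integral_nonneg fun _ => sq_nonneg _
    have p2 : 0 ≤ ∫ p, op2 Φ p ^ 2 ∂W₁.μ.prod W₂.μ := integral_nonneg fun _ => sq_nonneg _
    rw [e3, e1, e2]
    simp only [cc] at *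
    norm_num at *
    linarith
  · have e := hv (fun x => qCurv g x * 1) ((qCurv_smooth g).continuous.mul continuous_const)
    have h2 : (1.41 : ℝ) < √2 := Real.lt_sqrt_of_sq_lt (by norm_num)
    have h3 : √2 * √2 = 2 := Real.mul_self_sqrt (by norm_num)
    have h4 := mul_le_mul a₁ a₂ (by positivity) measureReal_nonneg
    have h5 : (W₁.μ.prod W₂.μ).real univ = W₁.μ.real univ * W₂.μ.real univ := by
      rw [← univ_prod_univ, measureReal_prod_prod]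
    have h6 : π * (1 + √2) * (π * (√2 / 2)) = π ^ 2 * (√2 / 2 + 1) := by
      linear_combination π ^ 2 / 2 * h3
    rw [qf, e]
    simp only [hq, integral_const, smul_eq_mul, h5, cc]
    nlinarith [sq_pos_of_pos pi_pos]

theorem geoStmt (hS : SurfStmt) (hM : ModelStmt) (hT : TrStmt) (hD : DistStmt) (hJ : SymmStmt)
    (hB : BlkStmt) (hN : NotSphStmt) (hC : CoerStmt) : GeoStmt := by
  obtain ⟨T₁, T₂, L₁, L₂, W₁, W₂, h₁, h₂, g₁, g₂, a₁, a₂⟩ := hS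
  obtain ⟨M, _, _, ⟨Q⟩⟩ := hM _ _ L₁ L₂ h₁ h₂
  have := (hT _ _ _ _ _ Q h₁ h₂).man
  obtain ⟨hd, _, _⟩ := hD _ _ _ _ _ Q h₁ h₂
  obtain ⟨fix, hj⟩ := hJ _ _ _ _ _ Q h₁ h₂
  borelize M
  have ex := hB _ _ _ _ _ Q h₁ h₂
  obtain ⟨g, hg⟩ := ex _ _ (smooth_const 0) (smooth_const 0)
  obtain ⟨k1, k2⟩ := hC _ _ _ _ _ Q h₁ h₂ g hg W₁ W₂ g₁ g₂ a₁ a₂
  exact ⟨M, _, ‹_›, ‹_›, _, ‹_›, _, ‹_›, ⟨⟨Q.d, Q.J, fix, hd, hj, ex, g, hg, k1, k2⟩⟩,
    hN _ _ _ _ _ Q h₁ h₂⟩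

end Pool.Agent.MP_417fa2_gt.Q2
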