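import Pool.Agent.MP_417fa2_gt.Q2.MSpec

/-! Centred parametrizations and transition maps. -/

open scoped Manifold ContDiff Topology
open Set Metric Filter

namespace Pool.Agent.MP_417fa2_gt.Q2

theorem contDiff_zc : ContDiff ℝ ∞ zc := by
  have : zc = fun y : E4 => Complex.ofRealCLM (y 0) + Complex.ofRealCLM (y 1) * Complex.I :=
    funext fun y => Complex.ext (by simp [zc]) (by simp [zc])
  rw [this]
  fun_prop

theorem contDiff_wc : ContDiff ℝ ∞ wc := by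
  have : wc = fun y : E4 => Complex.ofRealCLM (y 2) + Complex.ofRealCLM (y 3) * Complex.I :=
    funext fun y => Complex.ext (by simp [wc]) (by simp [wc])
  rw [this]
  fun_prop

theorem contDiffAt_mkE {X : Type} [NormedAddCommGroup X] [NormedSpace ℝ X] {f g : X → ℂ} {x : X}
    (hf : ContDiffAt ℝ ∞ f x) (hg : ContDiffAt ℝ ∞ g x) :
    ContDiffAt ℝ ∞ (fun x => mkE (f x) (g x)) x := by
  refine contDiffAt_euclidean.2 fun i => ?_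
  fin_cases i
  exacts [Complex.reCLM.contDiff.contDiffAt.comp x hf, Complex.imCLM.contDiff.contDiffAt.comp x hf,
    Complex.reCLM.contDiff.contDiffAt.comp x hg, Complex.imCLM.contDiff.contDiffAt.comp x hg]

theorem CoFacts.lt_one (h : CoFacts) {y : E4} (hy : ‖y‖ < r0) :
    ‖zc y‖ < 1 ∧ ‖wc y / cc‖ < 1 := by
  have h1 := h.nsq y
  rw [h.zsq_eq, h.wsq_eq] at h1
  rw [norm_div, Complex.norm_real, div_lt_one (by norm_num [cc])]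
  norm_num [cc, r0] at hy ⊢
  constructor <;> nlinarith [norm_nonneg y, norm_nonneg (zc y), norm_nonneg (wc y)]

theorem CoFacts.smooth_pair (h : CoFacts) (γ₁ γ₂ : SU) {y : E4} (hy : ‖y‖ < r0) :
    ContDiffAt ℝ ∞ (fun y => mkE (γ₁.act (zc y)) (cc * γ₂.act (wc y / cc))) y :=
  contDiffAt_mkE ((γ₁.contDiffOn_act_real.contDiffAt (isOpen_ball.mem_nhds
      (mem_ball_zero_iff.2 (h.lt_one hy).1))).comp y contDiff_zc.contDiffAt)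
    (contDiffAt_const.mul (ContDiffAt.comp (f := fun y => wc y / cc) y
      (γ₂.contDiffOn_act_real.contDiffAt (isOpen_ball.mem_nhds
        (mem_ball_zero_iff.2 (h.lt_one hy).2))) (contDiff_wc.contDiffAt.div_const _)))

theorem exists_tr (γ : SU) {p q : ℂ} (hp : ‖p‖ < 1) (hq : ‖q‖ < 1) : ∃ σ : SU,
    (∀ z : ℂ, ‖z‖ < 1 → γ.act (mob p z) = mob q (σ.act z)) ∧
      ∀ z w : ℂ, ‖z‖ < 1 → ‖w‖ < 1 → γ.act (mob p z) = mob q w → σ.act z = w := by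
  obtain ⟨a, ha⟩ := exists_tl hp
  obtain ⟨b, hb⟩ := exists_tl hq
  refine ⟨b⁻¹ * (γ * a), fun z hz => ?_, fun z w hz hw h => ?_⟩
  · rw [← ha, ← hb, ← SU.mul_act _ _ hz, ← SU.mul_act _ _ hz, mul_inv_cancel_left]
  · rw [SU.mul_act _ _ hz, SU.mul_act _ _ hz, ha, h, ← hb, b.inv_act_act hw]

theorem exists_rot {γ : SU} {p q : ℂ} (hp : ‖p‖ < 1) (h : γ.act p = q) : ∃ u : ℂ, ‖u‖ = 1 ∧
    ∀ z : ℂ, ‖z‖ < 1 → γ.act (mob p z) = mob q (u * z) := by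
  obtain ⟨σ, h1, h2⟩ := exists_tr γ hp (h ▸ γ.act_lt hp : ‖q‖ < 1)
  obtain ⟨u, hu, k⟩ := σ.act_of_fix (h2 0 0 (by simp) (by simp) (by simpa using h))
  exact ⟨u, hu, fun z hz => k z ▸ h1 z hz⟩

theorem M2.mem_DD {p : ℂ × ℂ} : p ∈ DD ↔ ‖p.1‖ < 1 ∧ ‖p.2‖ < 1 := by simp [DD]

theorem trStmt (h2 : CoFacts) : TrStmt := by
  intro T₁ T₂ L₁ L₂ M _ _ Q _ _
  have c0 : (cc : ℂ) ≠ 0 := by norm_num [cc]
  have dd : ∀ p ∈ DD, ∀ z w : ℂ, ‖z‖ < 1 → ‖w‖ < 1 → (mob p.1 z, mob p.2 w) ∈ DD :=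
    fun p hp z w hz hw => M2.mem_DD.2 ⟨mob_lt (M2.mem_DD.1 hp).1 hz, mob_lt (M2.mem_DD.1 hp).2 hw⟩
  have tr : ∀ (x x' : M) (y₀ : E4), ‖y₀‖ < r0 → param x y₀ ∈ (chartAt E4 x').source →
      ∃ γ₁ γ₂ : SU, ∀ᶠ y in 𝓝 y₀,
        chartAt E4 x' (param x y) = mkE (γ₁.act (zc y)) (cc * γ₂.act (wc y / cc)) := by
    intro x x' y₀ h0 hs
    have h1 : ‖chartAt E4 x' (param x y₀)‖ < r0 :=
      mem_ball_zero_iff.1 (Q.tgt x' ▸ (chartAt E4 x').map_source hs)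
    have e : param x y₀ = param x' (chartAt E4 x' (param x y₀)) :=
      ((chartAt E4 x').left_inv hs).symm
    generalize chartAt E4 x' (param x y₀) = y₁ at h1 e
    have a := Q.lift_mem x
    have b := Q.lift_mem x'
    rw [Q.par x _ h0, Q.par x' _ h1, Q.proj_eq _ (dd _ a _ _ (h2.lt_one h0).1 (h2.lt_one h0).2) _
      (dd _ b _ _ (h2.lt_one h1).1 (h2.lt_one h1).2)] at e
    obtain ⟨δ₁, m1, δ₂, m2, e1, e2⟩ := e
    obtain ⟨γ₁, k1, l1⟩ := exists_tr δ₁ (M2.mem_DD.1 a).1 (M2.mem_DD.1 b).1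
    obtain ⟨γ₂, k2, l2⟩ := exists_tr δ₂ (M2.mem_DD.1 a).2 (M2.mem_DD.1 b).2
    have F := (h2.smooth_pair γ₁ γ₂ h0).continuousAt
    have F0 : mkE (γ₁.act (zc y₀)) (cc * γ₂.act (wc y₀ / cc)) ∈ ball (0 : E4) r0 := by
      rw [l1 _ _ (h2.lt_one h0).1 (h2.lt_one h1).1 e1, l2 _ _ (h2.lt_one h0).2 (h2.lt_one h1).2 e2,
        mul_div_cancel₀ _ c0, h2.mk_zw]
      exact mem_ball_zero_iff.2 h1
    refine ⟨γ₁, γ₂, ?_⟩
    filter_upwards [F.preimage_mem_nhds (isOpen_ball.mem_nhds F0),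
      isOpen_ball.mem_nhds (mem_ball_zero_iff.2 h0)] with y hy hy'
    obtain ⟨n1, n2⟩ := h2.lt_one (mem_ball_zero_iff.1 hy')
    refine Eq.trans (congrArg _ ?_) ((chartAt E4 x').right_inv (Q.tgt x' ▸ hy))
    refine (Q.par x _ (mem_ball_zero_iff.1 hy')).trans
      (Eq.trans ?_ (Q.par x' _ (mem_ball_zero_iff.1 hy)).symm)
    rw [h2.zc_mk, h2.wc_mk, mul_div_cancel_left₀ _ c0]
    exact (Q.proj_eq _ (dd _ a _ _ n1 n2) _ (dd _ b _ _ (γ₁.act_lt n1) (γ₂.act_lt n2))).2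
      ⟨δ₁, m1, δ₂, m2, k1 _ n1, k2 _ n2⟩
  refine ⟨fun p hp => ?_, tr, isManifold_of_contDiffOn _ _ _ fun e e' he he' y hy => ?_⟩
  · obtain ⟨δ₁, m1, δ₂, m2, e1, e2⟩ :=
      (Q.proj_eq _ hp _ (Q.lift_mem (Q.proj p))).1 (Q.proj_lift _).symm
    obtain ⟨u₁, a1, k1⟩ := exists_rot (M2.mem_DD.1 hp).1 e1
    obtain ⟨u₂, a2, k2⟩ := exists_rot (M2.mem_DD.1 hp).2 e2
    refine ⟨u₁, u₂, a1, a2, fun y hy => ?_⟩
    obtain ⟨e, he⟩ := h2.rot_iso u₁ u₂ a1 a2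
    have hr : ‖rot u₁ u₂ y‖ < r0 := by rwa [← he, e.norm_map]
    obtain ⟨n1, n2⟩ := h2.lt_one hy
    rw [Q.par _ _ hr]
    refine (Q.proj_eq _ (dd _ hp _ _ n1 n2) _
      (dd _ (Q.lift_mem _) _ _ (h2.lt_one hr).1 (h2.lt_one hr).2)).2 ⟨δ₁, m1, δ₂, m2, ?_, ?_⟩
    · rw [rot, h2.zc_mk]
      exact k1 _ n1
    · rw [rot, h2.wc_mk, mul_div_assoc]
      exact k2 _ n2
  · obtain ⟨x, rfl⟩ := Q.atl e he
    obtain ⟨x', rfl⟩ := Q.atl e' he'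
    have h0 : ‖y‖ < r0 := mem_ball_zero_iff.1 (Q.tgt x ▸ hy.1.1)
    obtain ⟨γ₁, γ₂, h⟩ := tr x x' y h0 hy.1.2
    exact ((h2.smooth_pair γ₁ γ₂ h0).congr_of_eventuallyEq h).contDiffWithinAt

end Pool.Agent.MP_417fa2_gt.Q2
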