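import Pool.Agent.MP_417fa2_gt.Q2.MSpec

/-! M3. The distance of the model; the quotient is compact and Hausdorff. -/

open scoped Manifold ContDiff Topology ComplexConjugate
open MeasureTheory Set Metric Real Filter

namespace Pool.Agent.MP_417fa2_gt.Q2

namespace M3

theorem mem_DD {p : ℂ × ℂ} : p ∈ DD ↔ ‖p.1‖ < 1 ∧ ‖p.2‖ < 1 := by
  simp [DD]

theorem mink {a b a₁ b₁ a₂ b₂ c : ℝ} (ha : 0 ≤ a) (hb : 0 ≤ b) (h1 : a ≤ a₁ + a₂)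
    (h2 : b ≤ b₁ + b₂) :
    √(a ^ 2 + c ^ 2 * b ^ 2) ≤ √(a₁ ^ 2 + c ^ 2 * b₁ ^ 2) + √(a₂ ^ 2 + c ^ 2 * b₂ ^ 2) := by
  have key : ∀ u v : ℝ, √(u ^ 2 + c ^ 2 * v ^ 2) = ‖(⟨u, c * v⟩ : ℂ)‖ := by
    intro u v
    rw [Complex.norm_eq_sqrt_sq_add_sq, mul_pow]
  have h3 : √(a ^ 2 + c ^ 2 * b ^ 2) ≤ √((a₁ + a₂) ^ 2 + c ^ 2 * (b₁ + b₂) ^ 2) := by
    gcongr
  refine h3.trans ?_
  rw [key, key, key]
  refine le_trans (le_of_eq ?_) (norm_add_le _ _)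
  congr 1
  apply Complex.ext
  · simp
  · simp [mul_add]

theorem den_bd {z w : ℂ} (hz : ‖z‖ < 1 / 10) (hw : ‖w‖ < 1 / 10) :
    5 / 6 ≤ ‖1 - conj w * z‖ ∧ ‖1 - conj w * z‖ ≤ 6 / 5 := by
  have h1 : ‖conj w * z‖ ≤ 1 / 100 := by
    rw [norm_mul, Complex.norm_conj]
    nlinarith [norm_nonneg z, norm_nonneg w]
  have h2 := norm_sub_le (1 : ℂ) (conj w * z)
  have h3 := norm_sub_norm_le (1 : ℂ) (conj w * z)
  rw [norm_one] at h2 h3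
  constructor <;> linarith

theorem pd_lo {z w : ℂ} (hz : ‖z‖ < 1 / 10) (hw : ‖w‖ < 1 / 10) :
    ‖z - w‖ ≤ 6 / 5 * pdist z w := by
  obtain ⟨h1, h2⟩ := den_bd hz hw
  rw [pdist, ← mul_div_assoc, le_div_iff₀ (by linarith)]
  nlinarith [norm_nonneg (z - w)]

theorem pd_hi {z w : ℂ} (hz : ‖z‖ < 1 / 10) (hw : ‖w‖ < 1 / 10) :
    pdist z w ≤ 6 / 5 * ‖z - w‖ := by
  obtain ⟨h1, h2⟩ := den_bd hz hw
  rw [pdist, div_le_iff₀ (by linarith)]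
  nlinarith [norm_nonneg (z - w)]

theorem cc_pos : 0 < cc := by norm_num [cc]

theorem norm_cc : ‖(cc : ℂ)‖ = cc := by
  rw [Complex.norm_real, Real.norm_eq_abs, abs_of_pos cc_pos]

theorem nsq (h2 : CoFacts) (y : E4) : ‖y‖ ^ 2 = ‖zc y‖ ^ 2 + ‖wc y‖ ^ 2 := by
  rw [h2.nsq, h2.zsq_eq, h2.wsq_eq]

theorem zc_lt (h2 : CoFacts) {y : E4} (hy : ‖y‖ < r0) : ‖zc y‖ < 1 / 10 := by
  have h := nsq h2 y
  have h3 : ‖zc y‖ ≤ ‖y‖ :=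
    le_of_sq_le_sq (by nlinarith [sq_nonneg ‖wc y‖]) (norm_nonneg _)
  exact h3.trans_lt hy

theorem wc_lt (h2 : CoFacts) {y : E4} (hy : ‖y‖ < r0) : ‖wc y / (cc : ℂ)‖ < 1 / 10 := by
  have h := nsq h2 y
  have h3 : ‖wc y‖ ≤ ‖y‖ :=
    le_of_sq_le_sq (by nlinarith [sq_nonneg ‖zc y‖]) (norm_nonneg _)
  have h4 : ‖wc y‖ < 1 / 10 := h3.trans_lt hy
  rw [norm_div, norm_cc, div_lt_iff₀ cc_pos, cc]
  linarith

theorem zc_sub (y y' : E4) : zc (y - y') = zc y - zc y' := by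
  apply Complex.ext <;> simp [zc]

theorem wc_sub (y y' : E4) : wc (y - y') = wc y - wc y' := by
  apply Complex.ext <;> simp [wc]

variable {T₁ T₂ : ℝ} {L₁ : Lat T₁} {L₂ : Lat T₂} {M : Type} [TopologicalSpace M]
  [ChartedSpace E4 M] (Q : Model L₁ L₂ M)

theorem dq_act {T : ℝ} {L : Lat T} (D : DqFacts L) {γ γ' : SU} (hγ : γ ∈ L.Γ) (hγ' : γ' ∈ L.Γ)
    {z w : ℂ} (hz : ‖z‖ < 1) (hw : ‖w‖ < 1) : dq L.Γ (γ.act z) (γ'.act w) = dq L.Γ z w := by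
  rw [D.inv' γ' hγ' _ _ (γ.act_lt hz) hw, D.symm _ _ (γ.act_lt hz) hw, D.inv' γ hγ _ _ hw hz,
    D.symm _ _ hw hz]

theorem d_proj (D₁ : DqFacts L₁) (D₂ : DqFacts L₂) {p q : ℂ × ℂ} (hp : p ∈ DD) (hq : q ∈ DD) :
    Q.d (Q.proj p) (Q.proj q) = √(dq L₁.Γ p.1 q.1 ^ 2 + cc ^ 2 * dq L₂.Γ p.2 q.2 ^ 2) := by
  obtain ⟨a, ha, b, hb, h1, h2⟩ :=
    (Q.proj_eq p hp _ (Q.lift_mem (Q.proj p))).1 (Q.proj_lift _).symm
  obtain ⟨a', ha', b', hb', h1', h2'⟩ :=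
    (Q.proj_eq q hq _ (Q.lift_mem (Q.proj q))).1 (Q.proj_lift _).symm
  rw [Model.d, ← h1, ← h2, ← h1', ← h2', dq_act D₁ ha ha' (mem_DD.1 hp).1 (mem_DD.1 hq).1,
    dq_act D₂ hb hb' (mem_DD.1 hp).2 (mem_DD.1 hq).2]

theorem oq : IsOpenQuotientMap fun p : DD => Q.proj p := by
  have hD : IsOpen DD := isOpen_ball.prod isOpen_ball
  refine ⟨fun x => ⟨⟨Q.lift x, Q.lift_mem x⟩, Q.proj_lift x⟩, Q.cont.restrict, fun U hU => ?_⟩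
  have h := Q.opn (Subtype.val '' U) (Subtype.coe_image_subset _ _)
    (hD.isOpenMap_subtype_val U hU)
  rwa [image_image] at h

theorem d_cont (D₁ : DqFacts L₁) (D₂ : DqFacts L₂) : Continuous fun p : M × M => Q.d p.1 p.2 := by
  rw [← ((oq Q).prodMap (oq Q)).continuous_comp_iff]
  have e : ((fun p : M × M => Q.d p.1 p.2) ∘
      Prod.map (fun p : DD => Q.proj p) fun p : DD => Q.proj p) = fun s : DD × DD =>
      √(dq L₁.Γ s.1.1.1 s.2.1.1 ^ 2 + cc ^ 2 * dq L₂.Γ s.1.1.2 s.2.1.2 ^ 2) :=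
    funext fun s => d_proj Q D₁ D₂ s.1.2 s.2.2
  rw [e]
  have c1 : Continuous fun s : DD × DD => dq L₁.Γ s.1.1.1 s.2.1.1 :=
    D₁.cont.comp_continuous (f := fun s : DD × DD => (s.1.1.1, s.2.1.1)) (by fun_prop)
      fun s => ⟨s.1.2.1, s.2.2.1⟩
  have c2 : Continuous fun s : DD × DD => dq L₂.Γ s.1.1.2 s.2.1.2 :=
    D₂.cont.comp_continuous (f := fun s : DD × DD => (s.1.1.2, s.2.1.2)) (by fun_prop)
      fun s => ⟨s.1.2.2, s.2.2.2⟩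
  exact ((c1.pow 2).add (continuous_const.mul (c2.pow 2))).sqrt

theorem d_par2 (D₁ : DqFacts L₁) (D₂ : DqFacts L₂) (h2 : CoFacts) (x : M) {y y' : E4}
    (hy : ‖y‖ < r0) (hy' : ‖y'‖ < r0) : Q.d (param x y) (param x y') =
      √(pdist (zc y) (zc y') ^ 2 + cc ^ 2 * pdist (wc y / cc) (wc y' / cc) ^ 2) := by
  obtain ⟨a1, a2⟩ := mem_DD.1 (Q.lift_mem x)
  have key : ∀ {T : ℝ} {L : Lat T} (_ : DqFacts L) {p z w : ℂ}, ‖p‖ < 1 → ‖z‖ < 1 / 10 →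
      ‖w‖ < 1 / 10 → dq L.Γ (mob p z) (mob p w) = pdist z w := by
    intro T L D p z w hp hz hw
    have hz' : ‖z‖ < 1 := by linarith
    have hw' : ‖w‖ < 1 := by linarith
    have h := pdist_le_add hz' hw'
    rw [D.near _ _ (mob_lt hp hz') (mob_lt hp hw') (by rw [pdist_mob hp hz' hw']; linarith),
      pdist_mob hp hz' hw']
  have z1 := zc_lt h2 hy
  have z2 := zc_lt h2 hy'
  have w1 := wc_lt h2 hy
  have w2 := wc_lt h2 hy'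
  rw [Q.par x y hy, Q.par x y' hy', d_proj Q D₁ D₂
    (mem_DD.2 ⟨mob_lt a1 (by linarith), mob_lt a2 (by linarith)⟩)
    (mem_DD.2 ⟨mob_lt a1 (by linarith), mob_lt a2 (by linarith)⟩), key D₁ a1 z1 z2,
    key D₂ a2 w1 w2]

include Q in
theorem param_zero (x : M) : param x 0 = x := by
  rw [← Q.ctr x]
  exact (chartAt E4 x).left_inv (mem_chart_source E4 x)

theorem d_par (D₁ : DqFacts L₁) (D₂ : DqFacts L₂) (h2 : CoFacts) (x : M) {y : E4}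
    (hy : ‖y‖ < r0) : Q.d x (param x y) = ‖y‖ := by
  have h := d_par2 Q D₁ D₂ h2 x (y := 0) (y' := y) (by simp [r0]) hy
  have z0 : zc 0 = 0 := by apply Complex.ext <;> simp [zc]
  have w0 : wc 0 = 0 := by apply Complex.ext <;> simp [wc]
  rw [param_zero Q, z0, w0, zero_div, pdist_comm, pdist_zero, pdist_comm, pdist_zero, norm_div,
    norm_cc, div_pow, mul_div_cancel₀ _ (pow_ne_zero 2 cc_pos.ne'), ← nsq h2,
    Real.sqrt_sq (norm_nonneg _)] at h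
  exact h

theorem src (D₁ : DqFacts L₁) (D₂ : DqFacts L₂) (h2 : CoFacts) (x y : M) :
    y ∈ (chartAt E4 x).source ↔ Q.d x y < r0 := by
  constructor
  · intro hy
    have h1 := (chartAt E4 x).map_source hy
    rw [Q.tgt, mem_ball_zero_iff] at h1
    have h3 := d_par Q D₁ D₂ h2 x h1
    rw [param, (chartAt E4 x).left_inv hy] at h3
    exact h3 ▸ h1
  · intro hd
    obtain ⟨a1, a2⟩ := mem_DD.1 (Q.lift_mem x)
    obtain ⟨b1, b2⟩ := mem_DD.1 (Q.lift_mem y)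
    obtain ⟨γ₁, g1, e1⟩ := D₁.att _ _ a1 b1
    obtain ⟨γ₂, g2, e2⟩ := D₂.att _ _ a2 b2
    obtain ⟨η₁, -, k1, n1⟩ := exists_mob a1 (γ₁.act_lt b1)
    obtain ⟨η₂, -, k2, n2⟩ := exists_mob a2 (γ₂.act_lt b2)
    have hc : (cc : ℂ) ≠ 0 := by exact_mod_cast cc_pos.ne'
    have hv : ‖mkE η₁ (cc * η₂)‖ < r0 := by
      rw [Model.d, e1, e2, pdist_comm, ← n1, pdist_comm, ← n2] at hd
      rw [← Real.sqrt_sq (norm_nonneg (mkE η₁ (cc * η₂))), nsq h2, h2.zc_mk, h2.wc_mk, norm_mul,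
        norm_cc, mul_pow]
      exact hd
    have h5 : param x (mkE η₁ (cc * η₂)) = y := by
      rw [Q.par x _ hv, h2.zc_mk, h2.wc_mk, mul_div_cancel_left₀ _ hc, k1, k2]
      refine Eq.trans (Eq.symm ?_) (Q.proj_lift y)
      exact (Q.proj_eq _ (Q.lift_mem y) _ (mem_DD.2 ⟨γ₁.act_lt b1, γ₂.act_lt b2⟩)).2
        ⟨γ₁, g1, γ₂, g2, rfl, rfl⟩
    rw [← h5]
    exact (chartAt E4 x).map_target (by rw [Q.tgt]; exact mem_ball_zero_iff.2 hv)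

theorem sub_sq' (h2 : CoFacts) (y y' : E4) :
    ‖y - y'‖ ^ 2 = ‖zc y - zc y'‖ ^ 2 + cc ^ 2 * ‖wc y / (cc : ℂ) - wc y' / cc‖ ^ 2 := by
  rw [nsq h2, zc_sub, wc_sub, ← sub_div, norm_div, norm_cc, div_pow,
    mul_div_cancel₀ _ (pow_ne_zero 2 cc_pos.ne')]

theorem sq_cmp {a b a' b' c k : ℝ} (ha : 0 ≤ a) (hb : 0 ≤ b) (hk : 0 ≤ k) (h1 : a ≤ k * a')
    (h2 : b ≤ k * b') : √(a ^ 2 + c ^ 2 * b ^ 2) ≤ k * √(a' ^ 2 + c ^ 2 * b' ^ 2) := by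
  have h3 : √(a ^ 2 + c ^ 2 * b ^ 2) ≤ √((k * a') ^ 2 + c ^ 2 * (k * b') ^ 2) := by gcongr
  have h4 : (k * a') ^ 2 + c ^ 2 * (k * b') ^ 2 = k ^ 2 * (a' ^ 2 + c ^ 2 * b' ^ 2) := by ring
  rwa [h4, Real.sqrt_mul (sq_nonneg k), Real.sqrt_sq hk] at h3

theorem dfacts (D₁ : DqFacts L₁) (D₂ : DqFacts L₂) (h2 : CoFacts) : DFacts Q.d where
  cont := d_cont Q D₁ D₂
  nonneg _ _ := Real.sqrt_nonneg _
  symm x y := by
    obtain ⟨a1, a2⟩ := mem_DD.1 (Q.lift_mem x)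
    obtain ⟨b1, b2⟩ := mem_DD.1 (Q.lift_mem y)
    rw [Model.d, Model.d, D₁.symm _ _ a1 b1, D₂.symm _ _ a2 b2]
  tri x y z := by
    obtain ⟨a1, a2⟩ := mem_DD.1 (Q.lift_mem x)
    obtain ⟨b1, b2⟩ := mem_DD.1 (Q.lift_mem y)
    obtain ⟨c1, c2⟩ := mem_DD.1 (Q.lift_mem z)
    exact mink (D₁.nonneg _ _) (D₂.nonneg _ _) (D₁.tri _ _ _ a1 b1 c1) (D₂.tri _ _ _ a2 b2 c2)
  ctr := Q.ctr
  tgt := Q.tgt
  src := src Q D₁ D₂ h2
  par x _ hy := d_par Q D₁ D₂ h2 x hy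
  lo x y y' hy hy' := by
    rw [d_par2 Q D₁ D₂ h2 x hy hy', ← Real.sqrt_sq (norm_nonneg (y - y')), sub_sq' h2]
    exact sq_cmp (norm_nonneg _) (norm_nonneg _) (by norm_num)
      (pd_lo (zc_lt h2 hy) (zc_lt h2 hy')) (pd_lo (wc_lt h2 hy) (wc_lt h2 hy'))
  hi x y y' hy hy' := by
    rw [d_par2 Q D₁ D₂ h2 x hy hy', ← Real.sqrt_sq (norm_nonneg (y - y')), sub_sq' h2]
    exact sq_cmp (pdist_nonneg _ _) (pdist_nonneg _ _) (by norm_num)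
      (pd_hi (zc_lt h2 hy) (zc_lt h2 hy')) (pd_hi (wc_lt h2 hy) (wc_lt h2 hy'))

theorem t2_of {d : M → M → ℝ} (D : DFacts d) : T2Space M := by
  have r : (0 : ℝ) < r0 := by norm_num [r0]
  have key : ∀ x y : M, y ∈ (chartAt E4 x).source → d x y = ‖chartAt E4 x y‖ := by
    intro x y hy
    have h1 := (chartAt E4 x).map_source hy
    rw [D.tgt, mem_ball_zero_iff] at h1
    have h3 := D.par x _ h1
    rwa [param, (chartAt E4 x).left_inv hy] at h3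
  have e : diagonal M = {p : M × M | d p.1 p.2 = 0} := by
    ext ⟨x, y⟩
    simp only [mem_diagonal_iff, mem_setOf_eq]
    constructor
    · rintro rfl
      rw [key x x (mem_chart_source E4 x), D.ctr, norm_zero]
    · intro h
      have hy := (D.src x y).2 (h ▸ r)
      rw [key x y hy, norm_eq_zero, ← D.ctr x] at h
      exact ((chartAt E4 x).injOn hy (mem_chart_source E4 x) h).symm
  rw [t2_iff_isClosed_diagonal, e]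
  exact isClosed_eq D.cont continuous_const

include Q in
theorem cpt : CompactSpace M := by
  obtain ⟨ϱ₁, r1, k1⟩ := L₁.cpt
  obtain ⟨ϱ₂, r2, k2⟩ := L₂.cpt
  have hs : closedBall (0 : ℂ) ϱ₁ ×ˢ closedBall (0 : ℂ) ϱ₂ ⊆ DD :=
    prod_mono (closedBall_subset_ball r1) (closedBall_subset_ball r2)
  have hc := ((isCompact_closedBall (0 : ℂ) ϱ₁).prod
    (isCompact_closedBall (0 : ℂ) ϱ₂)).image_of_continuousOn (Q.cont.mono hs)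
  refine ⟨hc.of_isClosed_subset isClosed_univ fun x _ => ?_⟩
  obtain ⟨a1, a2⟩ := mem_DD.1 (Q.lift_mem x)
  obtain ⟨γ₁, g1, e1⟩ := k1 _ a1
  obtain ⟨γ₂, g2, e2⟩ := k2 _ a2
  refine ⟨(γ₁.act (Q.lift x).1, γ₂.act (Q.lift x).2),
    ⟨mem_closedBall_zero_iff.2 e1, mem_closedBall_zero_iff.2 e2⟩, ?_⟩
  refine Eq.trans (Eq.symm ?_) (Q.proj_lift x)
  exact (Q.proj_eq _ (Q.lift_mem x) _ (mem_DD.2 ⟨γ₁.act_lt a1, γ₂.act_lt a2⟩)).2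
    ⟨γ₁, g1, γ₂, g2, rfl, rfl⟩

end M3

theorem distStmt (h : DqStmt) (h2 : CoFacts) : DistStmt := fun T₁ T₂ L₁ L₂ _ _ _ Q k₁ k₂ =>
  ⟨M3.dfacts Q (h T₁ L₁ k₁) (h T₂ L₂ k₂) h2,
    M3.t2_of (M3.dfacts Q (h T₁ L₁ k₁) (h T₂ L₂ k₂) h2), M3.cpt Q⟩

end Pool.Agent.MP_417fa2_gt.Q2
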