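import Pool.Agent.MP_417fa2_gt.Q2.MSpec

/-! The symmetry of order four of the product of the two surfaces. -/

open scoped ComplexConjugate
open Set Metric Complex

namespace Pool.Agent.MP_417fa2_gt.Q2

namespace M4

theorem j_sq_a : (SU.j * SU.j).a = I := by
  simp only [SU.mul_a, SU.j, zero_mul, add_zero]
  rw [← sq, SU.zeta_sq]

theorem j_sq_b : (SU.j * SU.j).b = 0 := by simp [SU.j]

theorem j_four : SU.j * SU.j * (SU.j * SU.j) = SU.neg1 := by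
  ext : 1
  · rw [SU.mul_a, j_sq_a, j_sq_b]
    simp [SU.neg1]
  · rw [SU.mul_b, j_sq_a, j_sq_b]
    simp [SU.neg1]

theorem neg1_comm (g : SU) : SU.neg1 * g = g * SU.neg1 := by
  ext : 1 <;> simp [SU.neg1]

variable {T : ℝ} (L : Lat T)

theorem j_sq_not_mem (hT : 12 / 5 ≤ T) : SU.j * SU.j ∉ L.Γ := by
  intro h
  rcases L.tr _ h with h1 | h1 | h1
  · have := congrArg (fun g : SU => g.a.re) h1
    simp only [j_sq_a] at this
    simp at this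
  · have := congrArg (fun g : SU => g.a.re) h1
    simp only [j_sq_a] at this
    simp [SU.neg1] at this
  · rw [j_sq_a] at h1
    simp at h1
    linarith

/-- A rotation conjugate to `γ j` has order four on the disc. -/
theorem rot_sq (hT : 12 / 5 ≤ T) {γ τ : SU} (hγ : γ ∈ L.Γ) (hb : (τ⁻¹ * γ * SU.j * τ).b = 0) :
    (τ⁻¹ * γ * SU.j * τ).a ^ 4 = -1 := by
  set g := τ⁻¹ * γ * SU.j * τ with hg
  have hn : ‖g.a‖ = 1 := by
    have := g.norm_sq_a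
    rw [hb, norm_zero] at this
    nlinarith [norm_nonneg g.a]
  have a2 : (g * g).a = g.a ^ 2 := by simp [hb, sq]
  have b2 : (g * g).b = 0 := by simp [hb]
  have a4 : (g * g * (g * g)).a = g.a ^ 4 := by
    rw [SU.mul_a, a2, b2]
    ring
  have c1 := (L.jn _).1 hγ
  have c2 := (L.jn _).1 c1
  have c3 := (L.jn _).1 c2
  have e2 : τ * (g * g) * τ⁻¹ = γ * (SU.j * γ * SU.j⁻¹) * (SU.j * SU.j) := by
    rw [hg]
    group
  have e4 : τ * (g * g * (g * g)) * τ⁻¹ = γ * (SU.j * γ * SU.j⁻¹) *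
      (SU.j * (SU.j * γ * SU.j⁻¹) * SU.j⁻¹) *
      (SU.j * (SU.j * (SU.j * γ * SU.j⁻¹) * SU.j⁻¹) * SU.j⁻¹) * (SU.j * SU.j * (SU.j * SU.j)) := by
    rw [hg]
    group
  have m4 : τ * (g * g * (g * g)) * τ⁻¹ ∈ L.Γ := by
    rw [e4, j_four]
    exact mul_mem (mul_mem (mul_mem (mul_mem hγ c1) c2) c3) L.neg_mem
  have n2 : τ * (g * g) * τ⁻¹ ∉ L.Γ := by
    rw [e2]
    intro h
    exact j_sq_not_mem L hT ((L.Γ.mul_mem_cancel_left (mul_mem hγ c1)).1 h)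
  rcases L.tr _ m4 with h | h | h
  · exfalso
    have h1 : g * g * (g * g) = 1 := by
      have := congrArg (fun x => τ⁻¹ * x * τ) h
      simpa [mul_assoc] using this
    rw [h1, SU.one_a] at a4
    have h2 : (g.a ^ 2 - 1) * (g.a ^ 2 + 1) = 0 := by linear_combination -a4
    apply n2
    rcases mul_eq_zero.1 h2 with h3 | h3
    · have : g * g = 1 := by
        ext : 1
        · rw [a2, SU.one_a]
          linear_combination h3
        · rw [b2, SU.one_b]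
      rw [this, mul_one, mul_inv_cancel]
      exact one_mem _
    · have : g * g = SU.neg1 := by
        ext : 1
        · rw [a2]
          simp only [SU.neg1]
          linear_combination h3
        · rw [b2]
          simp [SU.neg1]
      rw [this, ← neg1_comm, mul_inv_cancel_right]
      exact L.neg_mem
  · have h1 : g * g * (g * g) = SU.neg1 := by
      have := congrArg (fun x => τ⁻¹ * x * τ) h
      simp only [mul_assoc, inv_mul_cancel_left, inv_mul_cancel, mul_one] at this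
      rw [neg1_comm, inv_mul_cancel_left] at this
      simpa [mul_assoc] using this
    rw [← a4, h1]
    simp [SU.neg1]
  · exfalso
    rw [SU.re_conj, a4] at h
    have := Complex.abs_re_le_norm (g.a ^ 4)
    rw [norm_pow, hn] at this
    linarith

/-- The symmetry in centred coordinates, on one factor. -/
theorem rot_one (hT : 12 / 5 ≤ T) {z z' : ℂ} (hz : ‖z‖ < 1) (hz' : ‖z'‖ < 1) {γ : SU}
    (hγ : γ ∈ L.Γ) (h : γ.act (I * z) = z') : ∃ u : ℂ, ‖u‖ = 1 ∧ (z' = z → u ^ 2 = -1) ∧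
      ∀ η, ‖η‖ < 1 → γ.act (I * mob z η) = mob z' (u * η) := by
  choose τ hτ using fun p (hp : ‖p‖ < 1) => exists_tl hp
  have key : ∀ η, ‖η‖ < 1 → (τ z' hz').act (((τ z' hz')⁻¹ * γ * SU.j * τ z hz).act η) =
      γ.act (I * mob z η) := by
    intro η hη
    have h1 := (τ z hz).act_lt hη
    rw [← SU.mul_act _ _ hη, mul_assoc, mul_assoc, mul_inv_cancel_left, SU.mul_act _ _ hη,
      SU.mul_act _ _ hη, SU.j_act, hτ]
  set g := (τ z' hz')⁻¹ * γ * SU.j * τ z hz with hg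
  have h0 : g.act 0 = 0 := by
    have h1 := key 0 (by simp)
    rw [mob_zero, h] at h1
    have h2 := (τ z' hz').inv_act_act (g.act_lt (z := 0) (by simp))
    have h3 := (τ z' hz').inv_act_act (z := 0) (by simp)
    rw [hτ, mob_zero] at h3
    rw [← h2, h1, h3]
  have hd := g.den_ne (z := 0) (by simp)
  simp only [mul_zero, zero_add] at hd
  have hb : g.b = 0 := by simpa [SU.act, hd] using h0
  have hdet := g.det
  rw [hb, zero_mul, sub_zero] at hdet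
  have hn : ‖g.a‖ = 1 := by
    have := g.norm_sq_a
    rw [hb, norm_zero] at this
    nlinarith [norm_nonneg g.a]
  refine ⟨g.a ^ 2, by rw [norm_pow, hn, one_pow], ?_, fun η hη => ?_⟩
  · rintro rfl
    rw [← pow_mul]
    exact rot_sq L hT hγ hb
  · rw [← key η hη, hτ]
    congr 1
    simp only [SU.act, hb, map_zero, zero_mul, add_zero, zero_add]
    rw [div_eq_iff hd]
    linear_combination (-g.a * η) * hdet

theorem norm_I_mul (z : ℂ) : ‖I * z‖ = ‖z‖ := by simp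

theorem mem_DD {p : ℂ × ℂ} : p ∈ DD ↔ ‖p.1‖ < 1 ∧ ‖p.2‖ < 1 := by
  simp [DD, mem_prod]

theorem conj_act (γ : SU) {z : ℂ} (hz : ‖z‖ < 1) :
    (SU.j * γ * SU.j⁻¹).act (I * z) = I * γ.act z := by
  have h1 : ‖SU.j.act z‖ < 1 := SU.j.act_lt hz
  rw [← SU.j_act, ← SU.mul_act _ _ hz, inv_mul_cancel_right, SU.mul_act _ _ hz, SU.j_act]

theorem dq_rot (D : DqFacts L) {z w z' w' : ℂ} (hz : ‖z‖ < 1) (hw : ‖w‖ < 1) {γ γ' : SU}
    (hγ : γ ∈ L.Γ) (hγ' : γ' ∈ L.Γ) (h : γ.act (I * z) = z') (h' : γ'.act (I * w) = w') :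
    dq L.Γ z' w' = dq L.Γ z w := by
  have h1 : ‖I * z‖ < 1 := by rwa [norm_I_mul]
  have h2 : ‖I * w‖ < 1 := by rwa [norm_I_mul]
  rw [← h, ← h', D.inv' _ hγ' _ _ (γ.act_lt h1) h2, D.symm _ _ (γ.act_lt h1) h2,
    D.inv' _ hγ _ _ h2 h1, ← SU.j_act, ← SU.j_act, D.inv _ L.jn _ _ hw hz, D.symm _ _ hw hz]

variable {T₁ T₂ : ℝ} {L₁ : Lat T₁} {L₂ : Lat T₂} {M : Type} [TopologicalSpace M]
  [ChartedSpace E4 M] (Q : Model L₁ L₂ M)

theorem I_mem {p : ℂ × ℂ} (hp : p ∈ DD) : (I * p.1, I * p.2) ∈ DD := by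
  rw [mem_DD] at hp ⊢
  simpa using hp

theorem J_proj {p : ℂ × ℂ} (hp : p ∈ DD) : Q.J (Q.proj p) = Q.proj (I * p.1, I * p.2) := by
  have hq := Q.lift_mem (Q.proj p)
  obtain ⟨γ₁, h₁, γ₂, h₂, e₁, e₂⟩ := (Q.proj_eq _ hq _ hp).1 (Q.proj_lift _)
  refine (Q.proj_eq _ (I_mem hq) _ (I_mem hp)).2
    ⟨_, (L₁.jn _).1 h₁, _, (L₂.jn _).1 h₂, ?_, ?_⟩
  · rw [conj_act _ (mem_DD.1 hq).1, e₁]
  · rw [conj_act _ (mem_DD.1 hq).2, e₂]

theorem lift_J (x : M) : ∃ γ₁ ∈ L₁.Γ, ∃ γ₂ ∈ L₂.Γ, γ₁.act (I * (Q.lift x).1) = (Q.lift (Q.J x)).1 ∧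
    γ₂.act (I * (Q.lift x).2) = (Q.lift (Q.J x)).2 :=
  (Q.proj_eq _ (I_mem (Q.lift_mem x)) _ (Q.lift_mem (Q.J x))).1 (Q.proj_lift _).symm

theorem four (x : M) : Q.J (Q.J (Q.J (Q.J x))) = x := by
  have h := Q.lift_mem x
  conv_lhs => rw [← Q.proj_lift x]
  rw [J_proj Q h, J_proj Q (I_mem h), J_proj Q (I_mem (I_mem h)), J_proj Q (I_mem (I_mem (I_mem h)))]
  have e : ∀ z : ℂ, I * (I * (I * (I * z))) = z := fun z => by
    linear_combination (I ^ 2 - 1) * z * I_sq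
  simp only [e]
  exact Q.proj_lift x

theorem iso (D₁ : DqFacts L₁) (D₂ : DqFacts L₂) (x y : M) : Q.d (Q.J x) (Q.J y) = Q.d x y := by
  obtain ⟨γ₁, h₁, γ₂, h₂, e₁, e₂⟩ := lift_J Q x
  obtain ⟨δ₁, k₁, δ₂, k₂, f₁, f₂⟩ := lift_J Q y
  have hx := mem_DD.1 (Q.lift_mem x)
  have hy := mem_DD.1 (Q.lift_mem y)
  rw [Model.d, Model.d, dq_rot L₁ D₁ hx.1 hy.1 h₁ k₁ e₁ f₁, dq_rot L₂ D₂ hx.2 hy.2 h₂ k₂ e₂ f₂]

theorem coord_lt (h2 : CoFacts) {y : E4} (hy : ‖y‖ < r0) : ‖zc y‖ < 1 ∧ ‖wc y / (cc : ℂ)‖ < 1 := by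
  have h := h2.nsq y
  rw [h2.zsq_eq, h2.wsq_eq] at h
  rw [r0] at hy
  have h0 := norm_nonneg y
  have hc : ‖(cc : ℂ)‖ = 10 / 9 := by
    rw [Complex.norm_real, cc]
    norm_num
  rw [norm_div, hc, div_lt_one (by norm_num)]
  constructor <;> nlinarith [norm_nonneg (zc y), norm_nonneg (wc y)]

theorem chart (h2 : CoFacts) (hT₁ : 12 / 5 ≤ T₁) (hT₂ : 12 / 5 ≤ T₂) (x : M) :
    ∃ u₁ u₂ : ℂ, ‖u₁‖ = 1 ∧ ‖u₂‖ = 1 ∧ (Q.J x = x → u₁ ^ 2 = -1 ∧ u₂ ^ 2 = -1) ∧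
      ∀ y, ‖y‖ < r0 → Q.J (param x y) = param (Q.J x) (rot u₁ u₂ y) := by
  obtain ⟨γ₁, h₁, γ₂, h₂, e₁, e₂⟩ := lift_J Q x
  have hx := mem_DD.1 (Q.lift_mem x)
  have hx' := mem_DD.1 (Q.lift_mem (Q.J x))
  obtain ⟨u₁, n₁, s₁, r₁⟩ := rot_one L₁ hT₁ hx.1 hx'.1 h₁ e₁
  obtain ⟨u₂, n₂, s₂, r₂⟩ := rot_one L₂ hT₂ hx.2 hx'.2 h₂ e₂
  refine ⟨u₁, u₂, n₁, n₂, fun h => ⟨s₁ (by rw [h]), s₂ (by rw [h])⟩, fun y hy => ?_⟩
  obtain ⟨e, he⟩ := h2.rot_iso u₁ u₂ n₁ n₂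
  have hy' : ‖rot u₁ u₂ y‖ < r0 := by rwa [← he, e.norm_map]
  obtain ⟨c₁, c₂⟩ := coord_lt h2 hy
  obtain ⟨d₁, d₂⟩ := coord_lt h2 hy'
  have m₁ : (mob (Q.lift x).1 (zc y), mob (Q.lift x).2 (wc y / cc)) ∈ DD :=
    mem_DD.2 ⟨mob_lt hx.1 c₁, mob_lt hx.2 c₂⟩
  rw [Q.par x y hy, Q.par _ _ hy', J_proj Q m₁]
  refine (Q.proj_eq _ (I_mem m₁) _ (mem_DD.2 ⟨mob_lt hx'.1 d₁, mob_lt hx'.2 d₂⟩)).2
    ⟨γ₁, h₁, γ₂, h₂, ?_, ?_⟩
  · simp only [rot, h2.zc_mk]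
    exact r₁ _ c₁
  · simp only [rot, h2.wc_mk, mul_div_assoc]
    exact r₂ _ c₂

/-- Fixed points are separated. -/
theorem sep (h2 : CoFacts) (hT₁ : 12 / 5 ≤ T₁) (hT₂ : 12 / 5 ≤ T₂) (D : DFacts Q.d) {x x' : M}
    (hx : Q.J x = x) (hx' : Q.J x' = x') (h : Q.d x x' < r0) : x' = x := by
  obtain ⟨u₁, u₂, n₁, n₂, s, r⟩ := chart Q h2 hT₁ hT₂ x
  obtain ⟨s₁, s₂⟩ := s hx
  have hs := (D.src x x').2 h
  set y := chartAt E4 x x' with hy
  have ht : y ∈ (chartAt E4 x).target := (chartAt E4 x).map_source hs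
  have hn : ‖y‖ < r0 := by rwa [D.tgt, mem_ball_zero_iff] at ht
  have hp : param x y = x' := (chartAt E4 x).left_inv hs
  obtain ⟨e, he⟩ := h2.rot_iso u₁ u₂ n₁ n₂
  have ht' : rot u₁ u₂ y ∈ (chartAt E4 x).target := by
    rwa [D.tgt, mem_ball_zero_iff, ← he, e.norm_map]
  have h1 := r y hn
  rw [hp, hx', hx] at h1
  have h3 : rot u₁ u₂ y = y := (chartAt E4 x).symm.injOn ht' ht (h1.symm.trans hp.symm)
  have h4 : u₁ * zc y = zc y := by simpa only [rot, h2.zc_mk] using congrArg zc h3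
  have h5 : u₂ * wc y = wc y := by simpa only [rot, h2.wc_mk] using congrArg wc h3
  have h6 : zc y = 0 := by linear_combination (1 / 2 : ℂ) * zc y * s₁ - (u₁ + 1) / 2 * h4
  have h7 : wc y = 0 := by linear_combination (1 / 2 : ℂ) * wc y * s₂ - (u₂ + 1) / 2 * h5
  have h8 : y = 0 := by
    have := h2.nsq y
    rw [h2.zsq_eq, h2.wsq_eq, h6, h7] at this
    simpa using this
  exact (chartAt E4 x).injOn hs (mem_chart_source E4 x) (by rw [← hy, h8, D.ctr])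

theorem finite (h2 : CoFacts) (hT₁ : 12 / 5 ≤ T₁) (hT₂ : 12 / 5 ≤ T₂) (D : DFacts Q.d)
    [CompactSpace M] : {x | Q.J x = x}.Finite := by
  have hr : 0 < r0 := by
    rw [r0]
    norm_num
  have h0 : ∀ x, Q.d x x = 0 := fun x => by
    have h := D.par x 0 (by simpa using hr)
    have h1 : param x 0 = x := by
      rw [← D.ctr x]
      exact (chartAt E4 x).left_inv (mem_chart_source E4 x)
    rwa [h1, norm_zero] at h
  obtain ⟨t, -, ht⟩ := isCompact_univ.elim_nhds_subcover (fun x : M => {y | Q.d x y < r0 / 2})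
    fun x _ => (isOpen_lt (D.cont.comp (Continuous.prodMk_right x)) continuous_const).mem_nhds
      (show Q.d x x < r0 / 2 by rw [h0]; linarith)
  refine (t.finite_toSet.biUnion (t := fun x => {y | Q.d x y < r0 / 2 ∧ Q.J y = y})
    fun x _ => Set.Subsingleton.finite fun a ha b hb => ?_).subset fun y hy => ?_
  · refine sep Q h2 hT₁ hT₂ D hb.2 ha.2 ?_
    have h1 := D.tri b x a
    rw [D.symm b x] at h1
    linarith [ha.1, hb.1]
  · obtain ⟨x, hx, hxy⟩ := mem_iUnion₂.1 (ht (mem_univ y))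
    exact mem_iUnion₂.2 ⟨x, hx, hxy, hy⟩

end M4

theorem symmStmt (h2 : CoFacts) (h4 : DistStmt) (h5 : DqStmt) : SymmStmt := by
  intro T₁ T₂ L₁ L₂ M _ _ Q hT₁ hT₂
  obtain ⟨D, -, hc⟩ := h4 T₁ T₂ L₁ L₂ M Q hT₁ hT₂
  have hf := M4.finite Q h2 hT₁ hT₂ D
  refine ⟨hf.toFinset, M4.four Q, M4.iso Q (h5 _ _ hT₁) (h5 _ _ hT₂), M4.chart Q h2 hT₁ hT₂,
    fun x => hf.mem_toFinset, Q.proj (0, 0), hf.mem_toFinset.2 ?_⟩
  have h := M4.J_proj Q (p := (0, 0)) (M4.mem_DD.2 (by simp))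
  simpa using h

end Pool.Agent.MP_417fa2_gt.Q2
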