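import Pool.Agent.MP_417fa2_gt.Q2.MSpec

/-! Block metrics exist on the product of the two surfaces. -/

open scoped Manifold ContDiff Topology ComplexConjugate
open Set Metric Real Filter Bundle

namespace Pool.Agent.MP_417fa2_gt.Q2

namespace M5

/-- The first coordinate as a continuous linear map. -/
noncomputable def zL : E4 →L[ℝ] ℂ := LinearMap.toContinuousLinearMap
  { toFun := zc
    map_add' := fun p q => by apply Complex.ext <;> simp [zc]
    map_smul' := fun c p => by apply Complex.ext <;> simp [zc] }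

/-- The second coordinate as a continuous linear map. -/
noncomputable def wL : E4 →L[ℝ] ℂ := LinearMap.toContinuousLinearMap
  { toFun := wc
    map_add' := fun p q => by apply Complex.ext <;> simp [wc]
    map_smul' := fun c p => by apply Complex.ext <;> simp [wc] }

/-- The point with given coordinates as a continuous linear map. -/
noncomputable def mL : ℂ × ℂ →L[ℝ] E4 := LinearMap.toContinuousLinearMap
  { toFun := fun p => mkE p.1 p.2
    map_add' := fun p q => by ext i; fin_cases i <;> simp [mkE]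
    map_smul' := fun c p => by ext i; fin_cases i <;> simp [mkE] }

/-- The product of two coordinates as a bilinear form. -/
noncomputable def bl (i : Fin 4) : E4 →L[ℝ] E4 →L[ℝ] ℝ :=
  (EuclideanSpace.proj i : E4 →L[ℝ] ℝ).smulRight (EuclideanSpace.proj i : E4 →L[ℝ] ℝ)

/-- The block form. -/
noncomputable def bb (a b : ℝ) : E4 →L[ℝ] E4 →L[ℝ] ℝ := a • (bl 0 + bl 1) + b • (bl 2 + bl 3)

theorem bb_apply (a b : ℝ) (v w : E4) :
    bb a b v w = a * (v 0 * w 0 + v 1 * w 1) + b * (v 2 * w 2 + v 3 * w 3) := by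
  simp [bb, bl, mul_add]

theorem bb_sm : ContDiff ℝ ∞ fun p : ℝ × ℝ => bb p.1 p.2 :=
  contDiff_clm_apply_iff.2 fun v => contDiff_clm_apply_iff.2 fun w => by
    simp only [bb_apply]
    fun_prop

theorem bb_rot (a b : ℝ) (p q : ℂ) (v w : E4) :
    bb a b (rot p q v) (rot p q w) = bb (a * ‖p‖ ^ 2) (b * ‖q‖ ^ 2) v w := by
  simp only [bb_apply, rot, mkE, zc, wc, ← Complex.normSq_eq_norm_sq, Complex.normSq_apply]
  simp
  ring

theorem bb_bdd {a b : ℝ} (ha : 0 < a) (hb : 0 < b) :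
    Bornology.IsVonNBounded ℝ {v : E4 | bb a b v v < 1} := by
  refine (NormedSpace.isVonNBounded_ball ℝ E4 (1 + a⁻¹ + b⁻¹)).subset fun v hv => ?_
  have h1 : a * (v 0 * v 0 + v 1 * v 1) + b * (v 2 * v 2 + v 3 * v 3) < 1 := bb_apply a b v v ▸ hv
  have h2 : ‖v‖ ^ 2 = (v 0 * v 0 + v 1 * v 1) + (v 2 * v 2 + v 3 * v 3) := by
    rw [EuclideanSpace.real_norm_sq_eq, Fin.sum_univ_four]
    ring
  have h3 : 0 ≤ v 0 * v 0 + v 1 * v 1 := add_nonneg (mul_self_nonneg _) (mul_self_nonneg _)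
  have h4 : 0 ≤ v 2 * v 2 + v 3 * v 3 := add_nonneg (mul_self_nonneg _) (mul_self_nonneg _)
  have h5 : v 0 * v 0 + v 1 * v 1 ≤ a⁻¹ := by
    rw [← one_div, le_div_iff₀ ha]
    nlinarith [mul_nonneg hb.le h4]
  have h6 : v 2 * v 2 + v 3 * v 3 ≤ b⁻¹ := by
    rw [← one_div, le_div_iff₀ hb]
    nlinarith [mul_nonneg ha.le h3]
  rw [mem_ball_zero_iff]
  nlinarith [sq_nonneg (‖v‖ - 1), inv_pos.2 ha, inv_pos.2 hb]

theorem bb_pos {a b : ℝ} (ha : 0 < a) (hb : 0 < b) {v : E4} (hv : v ≠ 0) : 0 < bb a b v v := by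
  have h2 : ‖v‖ ^ 2 = (v 0 * v 0 + v 1 * v 1) + (v 2 * v 2 + v 3 * v 3) := by
    rw [EuclideanSpace.real_norm_sq_eq, Fin.sum_univ_four]
    ring
  have h3 : 0 ≤ v 0 * v 0 + v 1 * v 1 := add_nonneg (mul_self_nonneg _) (mul_self_nonneg _)
  have h4 : 0 ≤ v 2 * v 2 + v 3 * v 3 := add_nonneg (mul_self_nonneg _) (mul_self_nonneg _)
  have h5 : 0 < ‖v‖ ^ 2 := pow_pos (norm_pos_iff.2 hv) 2
  rw [bb_apply]
  rcases h3.eq_or_lt with h | h
  · rw [← h, mul_zero, zero_add]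
    exact mul_pos hb (by linarith)
  · exact add_pos_of_pos_of_nonneg (mul_pos ha h) (mul_nonneg hb.le h4)

theorem cc_ne : (cc : ℂ) ≠ 0 := by
  have : cc ≠ 0 := by norm_num [cc]
  exact_mod_cast this

/-- The size of the derivative of a Moebius map at a point that goes to the origin. -/
theorem der_norm (γ : SU) {z : ℂ} (hz : ‖z‖ < 1) (h : γ.act z = 0) :
    ‖1 / (conj γ.b * z + conj γ.a) ^ 2‖ ^ 2 = exp (2 * -log (1 - ‖z‖ ^ 2)) := by
  have h1 := γ.one_sub_act hz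
  have h2 := norm_ne_zero_iff.2 (γ.den_ne hz)
  have h3 : 0 < 1 - ‖z‖ ^ 2 := by nlinarith [norm_nonneg z]
  rw [h, norm_zero, eq_div_iff (pow_ne_zero 2 h2)] at h1
  have h4 : ‖conj γ.b * z + conj γ.a‖ ^ 2 = 1 - ‖z‖ ^ 2 := by linarith
  rw [norm_div, norm_one, norm_pow, h4, two_mul, exp_add, exp_neg, exp_log h3, one_div, sq]

theorem fder (γ₁ γ₂ : SU) {y : E4} (hz : ‖zc y‖ < 1) (hw : ‖wc y / cc‖ < 1) (v : E4) :
    fderiv ℝ (fun y => mkE (γ₁.act (zc y)) (cc * γ₂.act (wc y / cc))) y v =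
      rot (1 / (conj γ₁.b * zc y + conj γ₁.a) ^ 2)
        (1 / (conj γ₂.b * (wc y / cc) + conj γ₂.a) ^ 2) v := by
  have h1 := ((γ₁.hasDerivAt_act hz).hasFDerivAt.restrictScalars ℝ).comp y zL.hasFDerivAt
  have h0 : HasDerivAt (fun w : ℂ => cc * γ₂.act (w / cc))
      (1 / (conj γ₂.b * (wc y / cc) + conj γ₂.a) ^ 2) (wc y) := by
    have := ((γ₂.hasDerivAt_act hw).comp (wc y) ((hasDerivAt_id (wc y)).div_const (cc : ℂ))).const_mul
      (cc : ℂ)
    refine this.congr_deriv ?_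
    rw [mul_left_comm, mul_one_div_cancel cc_ne, mul_one]
  have h2 := (h0.hasFDerivAt.restrictScalars ℝ).comp y wL.hasFDerivAt
  have h3 := (mL.hasFDerivAt.comp y (h1.prodMk h2)).fderiv
  refine (congrArg (fun L : E4 →L[ℝ] E4 => L v) h3).trans ?_
  change mkE (zc v • _) (wc v • _) = _
  rw [smul_eq_mul, smul_eq_mul, mul_comm, mul_comm (wc v), rot]

variable {M : Type} [TopologicalSpace M] [ChartedSpace E4 M] [IsManifold (𝓡 4) ∞ M]

theorem dpar_eq {x : M} {y : E4} (hy : y ∈ (chartAt E4 x).target) :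
    dpar x y = fderiv ℝ (fun z => chartAt E4 (param x y) (param x z)) y := by
  rw [dpar, (mdiffAt_param hy).mfderiv]
  simp only [writtenInExtChartAt, mfld_simps, fderivWithin_univ]
  rfl

variable {T₁ T₂ : ℝ} {L₁ : Lat T₁} {L₂ : Lat T₂} {Q : Model L₁ L₂ M}

theorem key (h2 : CoFacts) (h3 : TrFacts Q) (x : M) {y : E4} (hy : ‖y‖ < r0) (a b : ℝ)
    (v w : E4) :
    bb a b (dpar x y v) (dpar x y w) = bb (a * exp (2 * f0 y)) (b * exp (2 * h0 y)) v w := by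
  have hy' : y ∈ (chartAt E4 x).target := by rw [Q.tgt]; exact mem_ball_zero_iff.2 hy
  obtain ⟨γ₁, γ₂, h⟩ := h3.trans x (param x y) y hy (mem_chart_source E4 _)
  have n := h2.nsq y
  rw [h2.zsq_eq, h2.wsq_eq] at n
  have hr : ‖y‖ < 1 := hy.trans (by norm_num [r0])
  have hz : ‖zc y‖ < 1 :=
    (le_of_sq_le_sq (by nlinarith [sq_nonneg ‖wc y‖]) (norm_nonneg _)).trans_lt hr
  have hw0 : ‖wc y‖ < 1 :=
    (le_of_sq_le_sq (by nlinarith [sq_nonneg ‖zc y‖]) (norm_nonneg _)).trans_lt hr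
  have hc : ‖(cc : ℂ)‖ = cc := by
    rw [Complex.norm_real, Real.norm_eq_abs, abs_of_pos (by norm_num [cc])]
  have hw : ‖wc y / cc‖ < 1 := by
    rw [norm_div, hc, div_lt_one (by norm_num [cc])]
    exact hw0.trans (by norm_num [cc])
  have e0 := h.self_of_nhds
  rw [Q.ctr] at e0
  have e1 : γ₁.act (zc y) = 0 := by
    rw [← h2.zc_mk (γ₁.act (zc y)) (cc * γ₂.act (wc y / cc)), ← e0]
    exact zL.map_zero
  have e2 : γ₂.act (wc y / cc) = 0 := by
    refine (mul_eq_zero.1 ?_).resolve_left cc_ne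
    rw [← h2.wc_mk (γ₁.act (zc y)) (cc * γ₂.act (wc y / cc)), ← e0]
    exact wL.map_zero
  rw [dpar_eq hy', EventuallyEq.fderiv_eq h, fder γ₁ γ₂ hz hw, fder γ₁ γ₂ hz hw, bb_rot,
    der_norm γ₁ hz e1, der_norm γ₂ hw e2, f0, h0, h2.zsq_eq, h2.wsq_eq, norm_div, hc, div_pow]

theorem symm_eq {x₀ x : M} (hx : x ∈ (chartAt E4 x₀).source) (v : E4) :
    (trivializationAt E4 (TangentSpace (𝓡 4)) x₀).symm x v = dpar x₀ (chartAt E4 x₀ x) v := by
  have h := TangentBundle.symmL_trivializationAt (I := 𝓡 4) hx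
  simp only [mfld_simps, mfderivWithin_univ] at h
  rw [← Trivialization.symmL_apply (R := ℝ) _ (by simpa using hx), h]
  rfl

theorem triv_eq {x₀ x : M} (hx : x ∈ (chartAt E4 x₀).source)
    (φ : TangentSpace (𝓡 4) x →L[ℝ] TangentSpace (𝓡 4) x →L[ℝ] ℝ) (v w : E4) :
    (trivializationAt (E4 →L[ℝ] E4 →L[ℝ] ℝ)
      (fun x : M => TangentSpace (𝓡 4) x →L[ℝ] TangentSpace (𝓡 4) x →L[ℝ] ℝ) x₀ ⟨x, φ⟩).2 v w =
      φ ((trivializationAt E4 (TangentSpace (𝓡 4)) x₀).symm x v)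
        ((trivializationAt E4 (TangentSpace (𝓡 4)) x₀).symm x w) := by
  rw [hom_trivializationAt_apply]
  refine (inCoordinates_apply_eq₂ (F₃ := ℝ) (E₃ := Bundle.Trivial M ℝ) (x₀ := x₀) (x := x) (ϕ := φ)
    (by simpa using hx) (by simpa using hx) (by simp)).trans ?_
  simp

theorem smooth_sec (h2 : CoFacts) (h3 : TrFacts Q) {A B : M → ℝ} (hA : Smooth A) (hB : Smooth B) :
    ContMDiff (𝓡 4) ((𝓡 4).prod 𝓘(ℝ, E4 →L[ℝ] E4 →L[ℝ] ℝ)) ∞
      (fun x => TotalSpace.mk' (E4 →L[ℝ] E4 →L[ℝ] ℝ)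
        (E := fun x : M => TangentSpace (𝓡 4) x →L[ℝ] TangentSpace (𝓡 4) x →L[ℝ] ℝ) x
        (bb (A x) (B x))) := by
  intro x₀
  rw [contMDiffAt_section]
  have hs := (chartAt E4 x₀).open_source.mem_nhds (mem_chart_source E4 x₀)
  have hc := (contMDiffOn_chartAt x₀).contMDiffAt hs
  have h0m : ball (0 : E4) 1 ∈ 𝓝 (chartAt E4 x₀ x₀) := by
    rw [Q.ctr]
    exact ball_mem_nhds _ one_pos
  have hf : ContMDiffAt (𝓡 4) 𝓘(ℝ, ℝ) ∞ (fun x => exp (2 * f0 (chartAt E4 x₀ x))) x₀ :=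
    ContMDiffAt.comp x₀ (g := fun y => exp (2 * f0 y))
      ((contDiffAt_const.mul (h2.f0_sm.contDiffAt h0m)).exp).contMDiffAt hc
  have hh : ContMDiffAt (𝓡 4) 𝓘(ℝ, ℝ) ∞ (fun x => exp (2 * h0 (chartAt E4 x₀ x))) x₀ :=
    ContMDiffAt.comp x₀ (g := fun y => exp (2 * h0 y))
      ((contDiffAt_const.mul (h2.h0_sm.contDiffAt h0m)).exp).contMDiffAt hc
  have hb : ContMDiffAt (𝓡 4) 𝓘(ℝ, E4 →L[ℝ] E4 →L[ℝ] ℝ) ∞ (fun x =>
      bb (A x * exp (2 * f0 (chartAt E4 x₀ x))) (B x * exp (2 * h0 (chartAt E4 x₀ x)))) x₀ :=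
    ContMDiffAt.comp x₀ (g := fun p : ℝ × ℝ => bb p.1 p.2)
      (f := fun x => (A x * exp (2 * f0 (chartAt E4 x₀ x)), B x * exp (2 * h0 (chartAt E4 x₀ x))))
      bb_sm.contDiffAt.contMDiffAt (((hA x₀).mul hf).prodMk_space ((hB x₀).mul hh))
  refine hb.congr_of_eventuallyEq (mem_of_superset hs fun x hx => ?_)
  have hy : ‖chartAt E4 x₀ x‖ < r0 := by
    have := chart_mem hx
    rwa [Q.tgt, mem_ball_zero_iff] at this
  ext v w
  refine (triv_eq hx (bb (A x) (B x)) v w).trans ?_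
  rw [symm_eq hx, symm_eq hx]
  exact key h2 h3 x₀ hy _ _ v w

end M5

open M5 in
theorem blkStmt (h2 : CoFacts) (h3 : TrStmt) : BlkStmt := by
  intro T₁ T₂ L₁ L₂ M _ _ _ _ _ _ _ Q k₁ k₂ F H hF hH
  have h := h3 T₁ T₂ L₁ L₂ M Q k₁ k₂
  refine ⟨{
    inner := fun x => bb (exp (2 * F x)) (exp (2 * H x))
    symm := fun x v w => ?_
    pos := fun x v hv => bb_pos (exp_pos _) (exp_pos _) hv
    isVonNBounded := fun x => bb_bdd (exp_pos _) (exp_pos _)
    contMDiff := smooth_sec h2 h (hF.const_mul 2).exp (hH.const_mul 2).exp }, fun x y hy => ?_⟩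
  · refine (bb_apply _ _ v w).trans (Eq.trans ?_ (bb_apply _ _ w v).symm)
    ring
  · ext i j
    refine (key h2 h x hy _ _ _ _).trans ?_
    rw [bb_apply, ← exp_add, ← exp_add, blk, ← mul_add, ← mul_add, add_comm (F _), add_comm (H _)]
    fin_cases i <;> fin_cases j <;> simp

end Pool.Agent.MP_417fa2_gt.Q2
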