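import Pool.Agent.MP_417fa2_gt.Q2.MSpec

/-! M6. The quotient of the bidisc is not a sphere. -/

open scoped Manifold ContDiff Topology
open MeasureTheory Set Metric Real Filter

namespace Pool.Agent.MP_417fa2_gt.Q2

namespace M6

/-- The unit sphere of Euclidean 5-space. -/
abbrev S4 : Type := sphere (0 : EuclideanSpace ℝ (Fin 5)) 1

instance : Fact (Module.finrank ℝ (EuclideanSpace ℝ (Fin 5)) = 4 + 1) := ⟨by simp⟩

/-- A section of a covering over the complement of a point. -/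
theorem sec {E : Type} [TopologicalSpace E] {p : E → S4} (hp : IsCoveringMap p) (v : S4) (e : E)
    (he : p e ≠ v) :
    ∃ s : S4 → E, ContinuousOn s {v}ᶜ ∧ s (p e) = e ∧ ∀ x, x ≠ v → p (s x) = x := by
  set c := stereographic' 4 v with hc
  have h1 : c.source = {v}ᶜ := stereographic'_source v
  have h2 : c.target = univ := stereographic'_target v
  have h3 : Continuous c.symm := by
    rw [← continuousOn_univ, ← h2]
    exact c.continuousOn_symm
  have h4 : ∀ x, x ≠ v → c.symm (c x) = x := fun x hx => c.left_inv (h1 ▸ hx)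
  obtain ⟨F, ⟨hF0, hF⟩, -⟩ := hp.existsUnique_continuousMap_lifts ⟨c.symm, h3⟩ (c (p e)) e
    (h4 _ he).symm
  exact ⟨fun x => F (c x), F.continuous.comp_continuousOn (h1 ▸ c.continuousOn), hF0,
    fun x hx => (congrFun hF (c x)).trans (h4 x hx)⟩

theorem preconn {v w : S4} (h : w ≠ v) : IsPreconnected ({v}ᶜ ∩ {w}ᶜ : Set S4) := by
  set c := stereographic' 4 v with hc
  have h1 : c.source = {v}ᶜ := stereographic'_source v
  have h2 : c.target = univ := stereographic'_target v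
  have h3 : Continuous c.symm := by
    rw [← continuousOn_univ, ← h2]
    exact c.continuousOn_symm
  have h4 : ∀ x, x ≠ v → c.symm (c x) = x := fun x hx => c.left_inv (h1 ▸ hx)
  have h5 : ∀ y, c (c.symm y) = y := fun y => c.right_inv (h2 ▸ mem_univ y)
  have h6 : 1 < Module.rank ℝ (EuclideanSpace ℝ (Fin 4)) := by
    rw [← Module.finrank_eq_rank]
    simp
  have h7 : ({v}ᶜ ∩ {w}ᶜ : Set S4) = c.symm '' {c w}ᶜ := by
    ext x
    constructor
    · rintro ⟨hx, hw⟩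
      exact ⟨c x, fun k => hw (by rw [mem_singleton_iff, ← h4 x hx, k, h4 w h]), h4 x hx⟩
    · rintro ⟨y, hy, rfl⟩
      exact ⟨h1 ▸ c.map_target (h2 ▸ mem_univ y), fun k => hy (by rw [← k]; exact (h5 y).symm)⟩
  rw [h7]
  exact (isConnected_compl_singleton_of_one_lt_rank h6 _).isPreconnected.image _ h3.continuousOn

/-- A connected covering of the sphere is compact. -/
theorem compact {E : Type} [TopologicalSpace E] [PreconnectedSpace E] {p : E → S4}
    (hp : IsCoveringMap p) (e : E) : CompactSpace E := by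
  classical
  obtain ⟨v, w, hv, hw, hvw⟩ : ∃ v w : S4, p e ≠ v ∧ p e ≠ w ∧ w ≠ v := by
    set c := stereographic' 4 (p e) with hc
    have h1 : c.source = {p e}ᶜ := stereographic'_source _
    have h2 : c.target = univ := stereographic'_target _
    have h5 : ∀ y, c (c.symm y) = y := fun y => c.right_inv (h2 ▸ mem_univ y)
    have h6 : ∀ y, p e ≠ c.symm y := fun y k =>
      (h1 ▸ c.map_target (h2 ▸ mem_univ y) : c.symm y ∈ ({p e}ᶜ : Set S4)) k.symm
    obtain ⟨y, hy⟩ := exists_ne (0 : EuclideanSpace ℝ (Fin 4))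
    exact ⟨c.symm 0, c.symm y, h6 _, h6 _, fun k => hy (by rw [← h5 y, k, h5])⟩
  obtain ⟨s, s1, s2, s3⟩ := sec hp v e hv
  obtain ⟨t, t1, t2, t3⟩ := sec hp w e hw
  have hst : EqOn s t ({v}ᶜ ∩ {w}ᶜ) :=
    hp.eqOn_of_comp_eqOn (preconn hvw) (s1.mono inter_subset_left) (t1.mono inter_subset_right)
      (fun x hx => (s3 x hx.1).trans (t3 x hx.2).symm) (a := p e) ⟨hv, hw⟩ (s2.trans t2.symm)
  set F : S4 → E := fun x => if x = v then t x else s x with hF
  have F1 : EqOn F s {v}ᶜ := fun x hx => if_neg hx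
  have F2 : EqOn F t {w}ᶜ := fun x hx => by
    by_cases h : x = v
    · exact if_pos h
    · exact (if_neg h).trans (hst ⟨h, hx⟩)
  have Fc : Continuous F := by
    refine continuous_iff_continuousAt.2 fun x => ?_
    by_cases h : x = v
    · exact (t1.congr F2).continuousAt (isOpen_compl_singleton.mem_nhds (h ▸ hvw.symm))
    · exact (s1.congr F1).continuousAt (isOpen_compl_singleton.mem_nhds h)
  have Fp : ∀ x, p (F x) = x := fun x => by
    by_cases h : x = v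
    · have hx : x ≠ w := h ▸ hvw.symm
      rw [F2 hx, t3 x hx]
    · rw [F1 h, s3 x h]
  have key : F ∘ p = id := hp.eq_of_comp_eq (Fc.comp hp.continuous) continuous_id
    (funext fun x => Fp _) e ((F1 hv).trans s2)
  exact Function.Surjective.compactSpace Fc fun x => ⟨p x, congrFun key x⟩

theorem lt1 (e : DD) : ‖e.1.1‖ < 1 := mem_ball_zero_iff.1 e.2.1

theorem lt2 (e : DD) : ‖e.1.2‖ < 1 := mem_ball_zero_iff.1 e.2.2

/-- A pair of matrices as a permutation of the bidisc. -/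
noncomputable def prm (γ₁ γ₂ : SU) : Equiv.Perm DD where
  toFun e := ⟨(γ₁.act e.1.1, γ₂.act e.1.2), γ₁.mapsTo_act e.2.1, γ₂.mapsTo_act e.2.2⟩
  invFun e := ⟨(γ₁⁻¹.act e.1.1, γ₂⁻¹.act e.1.2), γ₁⁻¹.mapsTo_act e.2.1, γ₂⁻¹.mapsTo_act e.2.2⟩
  left_inv e := Subtype.ext (Prod.ext (γ₁.inv_act_act (lt1 e)) (γ₂.inv_act_act (lt2 e)))
  right_inv e := Subtype.ext (Prod.ext (γ₁.act_inv_act (lt1 e)) (γ₂.act_inv_act (lt2 e)))

/-- The group of deck transformations. -/
def deck (Γ₁ Γ₂ : Subgroup SU) : Subgroup (Equiv.Perm DD) where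
  carrier := {σ | ∃ γ₁ ∈ Γ₁, ∃ γ₂ ∈ Γ₂, σ = prm γ₁ γ₂}
  one_mem' := ⟨1, one_mem _, 1, one_mem _, Equiv.ext fun e =>
    Subtype.ext (Prod.ext (SU.one_act _).symm (SU.one_act _).symm)⟩
  mul_mem' := by
    rintro _ _ ⟨a, ha, b, hb, rfl⟩ ⟨c, hc, d, hd, rfl⟩
    exact ⟨a * c, mul_mem ha hc, b * d, mul_mem hb hd, Equiv.ext fun e =>
      Subtype.ext (Prod.ext (SU.mul_act _ _ (lt1 e)).symm (SU.mul_act _ _ (lt2 e)).symm)⟩
  inv_mem' := by
    rintro _ ⟨a, ha, b, hb, rfl⟩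
    exact ⟨a⁻¹, inv_mem ha, b⁻¹, inv_mem hb, Equiv.ext fun e => rfl⟩

theorem cont_prm (γ₁ γ₂ : SU) : Continuous (prm γ₁ γ₂) := by
  refine Continuous.subtype_mk (Continuous.prodMk ?_ ?_) _
  · exact γ₁.contDiffOn_act.continuousOn.comp_continuous (by fun_prop) fun e => e.2.1
  · exact γ₂.contDiffOn_act.continuousOn.comp_continuous (by fun_prop) fun e => e.2.2

theorem cont_pdist {w : ℂ} (hw : ‖w‖ < 1) : ContinuousOn (fun z => pdist z w) (ball 0 1) :=
  ContinuousOn.div (by fun_prop) (by fun_prop) fun _ hz =>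
    norm_ne_zero_iff.2 (pd_den_ne (mem_ball_zero_iff.1 hz) hw)

theorem act_eq {T : ℝ} {L : Lat T} (h : DqFacts L) {γ : SU} (hγ : γ ∈ L.Γ) {a e : ℂ} (ha : ‖a‖ < 1)
    (he : ‖e‖ < 1) (h1 : pdist a e < 9 / 20) (h2 : pdist (γ.act a) e < 9 / 20) (z : ℂ) :
    γ.act z = z := by
  have h3 := pdist_triangle (γ.act_lt ha) he ha
  rw [pdist_comm e a] at h3
  rcases h.disp γ hγ a ha (by linarith) with rfl | rfl
  · exact SU.one_act z
  · exact SU.neg1_act z

theorem covering {T₁ T₂ : ℝ} {L₁ : Lat T₁} {L₂ : Lat T₂} {M : Type} [TopologicalSpace M]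
    [ChartedSpace E4 M] (Q : Model L₁ L₂ M) (h₁ : DqFacts L₁) (h₂ : DqFacts L₂) :
    IsCoveringMap fun e : DD => Q.proj e.1 := by
  have ho : IsOpen DD := isOpen_ball.prod isOpen_ball
  refine IsQuotientCoveringMap.isCoveringMap _ (deck L₁.Γ L₂.Γ) ⟨?_, ⟨?_⟩, ?_, ?_⟩
  · refine IsOpenMap.isQuotientMap (fun U hU => ?_) Q.cont.domRestrict fun x =>
      ⟨⟨Q.lift x, Q.lift_mem x⟩, Q.proj_lift x⟩
    rw [← image_image Q.proj Subtype.val]
    exact Q.opn _ (Subtype.coe_image_subset _ _) (ho.isOpenMap_subtype_val U hU)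
  · rintro ⟨_, a, ha, b, hb, rfl⟩
    exact cont_prm a b
  · intro e₁ e₂
    rw [eq_comm, Q.proj_eq _ e₂.2 _ e₁.2]
    constructor
    · rintro ⟨a, ha, b, hb, k1, k2⟩
      exact ⟨⟨prm a b, a, ha, b, hb, rfl⟩, Subtype.ext (Prod.ext k1 k2)⟩
    · rintro ⟨⟨_, a, ha, b, hb, rfl⟩, k⟩
      exact ⟨a, ha, b, hb, congrArg (fun e : DD => e.1.1) k, congrArg (fun e : DD => e.1.2) k⟩
  · intro e
    refine ⟨{a | pdist a.1.1 e.1.1 < 9 / 20 ∧ pdist a.1.2 e.1.2 < 9 / 20}, ?_, ?_⟩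
    · refine IsOpen.mem_nhds (IsOpen.and (isOpen_lt ?_ continuous_const)
        (isOpen_lt ?_ continuous_const)) ⟨by norm_num, by norm_num⟩
      · exact (cont_pdist (lt1 e)).comp_continuous (by fun_prop) fun a => a.2.1
      · exact (cont_pdist (lt2 e)).comp_continuous (by fun_prop) fun a => a.2.2
    · rintro ⟨_, a, ha, b, hb, rfl⟩ ⟨_, ⟨x, hx, rfl⟩, hy⟩
      exact Subtype.ext (Equiv.ext fun z => Subtype.ext (Prod.ext
        (act_eq h₁ ha (lt1 x) (lt1 e) hx.1 hy.1 _) (act_eq h₂ hb (lt2 x) (lt2 e) hx.2 hy.2 _)))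

theorem not_compact : ¬ CompactSpace DD := by
  intro h
  have h1 : IsCompact DD := isCompact_iff_compactSpace.2 h
  have h2 : IsClopen DD := ⟨h1.isClosed, isOpen_ball.prod isOpen_ball⟩
  have h3 := h2.eq_univ ⟨(0, 0), by simp [DD]⟩
  have h4 : ((1, 0) : ℂ × ℂ) ∈ DD := h3 ▸ mem_univ _
  simp [DD] at h4

end M6

theorem notSph (h : DqStmt) (_h4 : DistStmt) (_h2 : CoFacts) : NotSphStmt := by
  intro T₁ T₂ L₁ L₂ M _ _ Q h₁ h₂
  refine ⟨fun g => M6.not_compact ?_⟩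
  have : PreconnectedSpace DD := Subtype.preconnectedSpace
    ((convex_ball (0 : ℂ) 1).prod (convex_ball (0 : ℂ) 1)).isPreconnected
  exact M6.compact ((M6.covering Q (h _ _ h₁) (h _ _ h₂)).homeomorph_comp g)
    ⟨(0, 0), by simp [DD]⟩

end Pool.Agent.MP_417fa2_gt.Q2
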