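import Pool.Agent.MP_417fa2_gt.Q2.M1
import Pool.Agent.MP_417fa2_gt.Q2.S4W

/-! M7. The volume of the product metric. -/

open scoped Manifold ContDiff Topology ENNReal
open MeasureTheory Set Metric Filter Real

namespace Pool.Agent.MP_417fa2_gt.Q2

namespace M7

open M1

/-- The coordinates as a linear isometry. -/
noncomputable def iso (h2 : CoFacts) : WithLp 2 (ℂ × ℂ) ≃ₗᵢ[ℝ] E4 where
  toFun p := mkE p.fst p.snd
  invFun y := WithLp.toLp 2 (zc y, wc y)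
  map_add' p q := by
    ext i
    fin_cases i <;> simp [mkE]
  map_smul' c p := by
    ext i
    fin_cases i <;> simp [mkE]
  left_inv p := by
    simp only [h2.zc_mk, h2.wc_mk]
    rfl
  right_inv y := h2.mk_zw y
  norm_map' p := by
    rw [← sq_eq_sq₀ (norm_nonneg _) (norm_nonneg _), WithLp.prod_norm_sq_eq_of_L2]
    change ‖mkE p.fst p.snd‖ ^ 2 = _
    rw [h2.nsq, h2.zsq_eq, h2.wsq_eq, h2.zc_mk, h2.wc_mk]

theorem mp_mkE (h2 : CoFacts) :
    MeasurePreserving (fun p : ℂ × ℂ => mkE p.1 p.2) (volume.prod volume) volume :=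
  (iso h2).measurePreserving.comp (WithLp.volume_preserving_toLp ℂ ℂ)

theorem scale {K : ℂ → ℝ≥0∞} (hK : Measurable K) :
    ∫⁻ w, K w = ENNReal.ofReal (cc ^ 2) * ∫⁻ w, K (cc * w) := by
  have h0 : cc ≠ 0 := by norm_num [cc]
  have h1 := lintegral_map (μ := (volume : Measure ℂ)) hK (measurable_const_smul cc)
  rw [Measure.map_addHaar_smul volume h0, lintegral_smul_measure, Complex.finrank_real_complex,
    smul_eq_mul] at h1
  simp only [Complex.real_smul] at h1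
  rw [← h1, ← mul_assoc, ← ENNReal.ofReal_mul (sq_nonneg _), abs_of_nonneg (by positivity),
    mul_inv_cancel₀ (pow_ne_zero 2 h0), ENNReal.ofReal_one, one_mul]

theorem lint_dA {G : ℂ → ℝ≥0∞} (hG : Measurable G) (h0 : ∀ z, G z ≠ 0 → ‖z‖ < 1) :
    ∫⁻ z, G z ∂dA = ∫⁻ z, ENNReal.ofReal (1 / (1 - ‖z‖ ^ 2) ^ 2) * G z := by
  rw [lintegral_dA hG]
  exact setLIntegral_eq_of_support_subset fun z hz =>
    mem_ball_zero_iff.2 (h0 z (right_ne_zero_of_mul hz))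

theorem neg1_ne : SU.neg1 ≠ 1 := fun h => by
  have := congrArg SU.a h
  simp only [SU.neg1, SU.one_a] at this
  norm_num at this

/-- An invariant function that lives on the orbit of a small disc. -/
theorem one {T : ℝ} (L : Lat T) (d : DqFacts L) (W : Wt L.Γ) (τ : SU) {F : ℂ → ℝ≥0∞}
    (hF : Measurable F) (hi : ∀ γ ∈ L.Γ, ∀ z : ℂ, ‖z‖ < 1 → F (γ.act z) = F z)
    (hs : ∀ z : ℂ, ‖z‖ < 1 → F z ≠ 0 → ∃ γ ∈ L.Γ, ∃ ζ : ℂ, ‖ζ‖ < r0 ∧ γ.act z = τ.act ζ) :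
    ∫⁻ z, F z ∂W.μ = ∫⁻ ζ, (ball (0 : ℂ) r0).indicator (fun ζ => F (τ.act ζ)) ζ ∂dA := by
  classical
  have hr : r0 = 1 / 10 := rfl
  have hm : Measurable ((ball (0 : ℂ) r0).indicator fun ζ => F (τ.act ζ)) :=
    (τ.meas hF).indicator measurableSet_ball
  rw [← lintegral_act τ⁻¹ _ hm, ← ENNReal.mul_right_inj (a := 2) (by simp) (by simp),
    ← unfold_l L W _ (τ⁻¹.meas hm), ← lintegral_const_mul _ hF]
  refine lintegral_congr_ae (W.ae_lt.mono fun z hz => ?_)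
  have h1 : ∀ γ : L.Γ, (ball (0 : ℂ) r0).indicator (fun ζ => F (τ.act ζ))
      (τ⁻¹.act ((γ : SU).act z)) = if ‖τ⁻¹.act ((γ : SU).act z)‖ < r0 then F z else 0 := by
    intro γ
    rw [indicator_apply, τ.act_inv_act ((γ : SU).act_lt hz), hi _ γ.2 z hz]
    simp only [mem_ball_zero_iff]
  simp only [h1]
  by_cases h0 : F z = 0
  · simp [h0]
  obtain ⟨γ₀, g₀, ζ, hζ, e⟩ := hs z hz h0
  have hζ1 : ‖ζ‖ < 1 := by linarith
  have h2 : τ⁻¹.act (γ₀.act z) = ζ := by rw [e, τ.inv_act_act hζ1]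
  have hne : (⟨γ₀, g₀⟩ : L.Γ) ≠ ⟨SU.neg1 * γ₀, mul_mem L.neg_mem g₀⟩ := fun h =>
    neg1_ne (by simpa using (congrArg Subtype.val h).symm)
  rw [tsum_eq_sum (s := {⟨γ₀, g₀⟩, ⟨SU.neg1 * γ₀, mul_mem L.neg_mem g₀⟩}), Finset.sum_pair hne]
  · simp only [SU.mul_act _ _ hz, SU.neg1_act, h2, hζ, if_true, two_mul]
  · intro γ hγ
    rw [if_neg]
    intro hlt
    have h3 := τ⁻¹.act_lt ((γ : SU).act_lt hz)
    have h4 : pdist (((γ : SU) * γ₀⁻¹).act (γ₀.act z)) (γ₀.act z) < 9 / 10 := by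
      rw [SU.mul_act _ _ (γ₀.act_lt hz), γ₀.inv_act_act hz,
        ← pdist_act τ⁻¹ ((γ : SU).act_lt hz) (γ₀.act_lt hz), h2]
      linarith [pdist_le_add h3 hζ1]
    apply hγ
    rcases d.disp _ (mul_mem γ.2 (inv_mem g₀)) _ (γ₀.act_lt hz) h4 with h | h
    · exact Finset.mem_insert.2 (Or.inl (Subtype.ext (mul_inv_eq_one.1 h)))
    · exact Finset.mem_insert_of_mem
        (Finset.mem_singleton.2 (Subtype.ext (mul_inv_eq_iff_eq_mul.1 h)))

theorem rh_eq (h2 : CoFacts) {ζ ξ : ℂ} (h : ‖ζ‖ < 1) (h' : ‖ξ‖ < 1) :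
    rh (mkE ζ (cc * ξ)) = 1 / (1 - ‖ζ‖ ^ 2) ^ 2 * (1 / (1 - ‖ξ‖ ^ 2) ^ 2) := by
  have h0 : cc ≠ 0 := by norm_num [cc]
  have a1 : 0 < 1 - ‖ζ‖ ^ 2 := by nlinarith [norm_nonneg ζ]
  have a2 : 0 < 1 - ‖ξ‖ ^ 2 := by nlinarith [norm_nonneg ξ]
  have e : ‖(cc : ℂ) * ξ‖ ^ 2 / cc ^ 2 = ‖ξ‖ ^ 2 := by
    rw [norm_mul, mul_pow, Complex.norm_real, Real.norm_eq_abs, sq_abs,
      mul_div_cancel_left₀ _ (pow_ne_zero 2 h0)]
  have k : ∀ t : ℝ, 0 < t → exp (2 * -log t) = 1 / t ^ 2 := fun t ht => by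
    rw [mul_neg, Real.exp_neg, one_div, two_mul, Real.exp_add, Real.exp_log ht, sq]
  rw [rh, f0, h0_eq, Real.exp_add, h2.zsq_eq, h2.wsq_eq, h2.zc_mk, h2.wc_mk, e, k _ a1, k _ a2]
where h0_eq {y : E4} : Q2.h0 y = -log (1 - wsq y / cc ^ 2) := rfl

theorem meas_rh : Measurable rh := by
  unfold rh f0 h0 zsq wsq
  fun_prop

/-- The density in a chart against the product of the areas. -/
theorem flat (h2 : CoFacts) {A : Set E4} (hA : MeasurableSet A) (hs : A ⊆ ball 0 r0) :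
    ∫⁻ y in A, ENNReal.ofReal (rh y) = ENNReal.ofReal (cc ^ 2) *
      ∫⁻ ζ, ∫⁻ ξ, A.indicator 1 (mkE ζ (cc * ξ)) ∂dA ∂dA := by
  have hr : r0 = 1 / 10 := rfl
  have : SFinite dA := by
    unfold dA
    infer_instance
  have hc : Measurable fun p : ℂ × ℂ => mkE p.1 (cc * p.2) :=
    (cont_mkE.comp (continuous_fst.prodMk (continuous_const.mul continuous_snd))).measurable
  have hI : Measurable fun p : ℂ × ℂ => A.indicator (1 : E4 → ℝ≥0∞) (mkE p.1 (cc * p.2)) :=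
    (measurable_one.indicator hA).comp hc
  have hK : Measurable (A.indicator fun y => ENNReal.ofReal (rh y)) :=
    meas_rh.ennreal_ofReal.indicator hA
  have hK' : Measurable fun p : ℂ × ℂ =>
      A.indicator (fun y => ENNReal.ofReal (rh y)) (mkE p.1 p.2) := hK.comp (mp_mkE h2).measurable
  have hb : ∀ ζ ξ : ℂ, mkE ζ (cc * ξ) ∈ A → ‖ζ‖ < 1 ∧ ‖ξ‖ < 1 := fun ζ ξ h => by
    have h3 := mem_ball_zero_iff.1 (hs h)
    have h4 := z_le h2 (mkE ζ (cc * ξ))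
    have h5 := w_le h2 (mkE ζ (cc * ξ))
    rw [h2.zc_mk] at h4
    rw [h2.wc_mk, mul_div_cancel_left₀ _ cc_ne] at h5
    constructor <;> linarith
  rw [← lintegral_indicator hA, ← (mp_mkE h2).lintegral_comp hK,
    lintegral_prod _ hK'.aemeasurable, lint_dA hI.lintegral_prod_right',
    ← lintegral_const_mul _ (measurable_dens.fun_mul hI.lintegral_prod_right')]
  · refine lintegral_congr fun ζ => ?_
    have hI' : Measurable fun ξ : ℂ => A.indicator (1 : E4 → ℝ≥0∞) (mkE ζ (cc * ξ)) :=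
      hI.comp measurable_prodMk_left
    rw [lint_dA hI' fun ξ h => (hb ζ ξ (mem_of_indicator_ne_zero h)).2,
      ← lintegral_const_mul _ (measurable_dens.fun_mul hI')]
    refine (scale (hK'.comp measurable_prodMk_left)).trans ?_
    congr 1
    refine lintegral_congr fun ξ => ?_
    by_cases h : mkE ζ (cc * ξ) ∈ A
    · simp only [Function.comp, indicator_of_mem h, Pi.one_apply, mul_one]
      rw [rh_eq h2 (hb ζ ξ h).1 (hb ζ ξ h).2, ENNReal.ofReal_mul (by positivity)]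
    · simp only [Function.comp, indicator_of_notMem h, mul_zero]
  · intro ζ h
    by_contra hζ
    refine h ?_
    have : ∀ ξ : ℂ, A.indicator (1 : E4 → ℝ≥0∞) (mkE ζ (cc * ξ)) = 0 := fun ξ =>
      indicator_of_notMem (fun k => hζ (hb ζ ξ k).1) _
    simp [this]

variable {T₁ T₂ : ℝ} {L₁ : Lat T₁} {L₂ : Lat T₂} {M : Type} [TopologicalSpace M]
  [ChartedSpace E4 M] [MeasurableSpace M] [BorelSpace M]

theorem ae_DD (W₁ : Wt L₁.Γ) (W₂ : Wt L₂.Γ) : ∀ᵐ p ∂W₁.μ.prod W₂.μ, p ∈ DD := by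
  have := W₂.finite
  exact (Measure.ae_prod_mem_iff_ae_ae_mem isOpen_DD.measurableSet).2
    (W₁.ae_lt.mono fun z hz => W₂.ae_lt.mono fun w hw => mem_DD.2 ⟨hz, hw⟩)

theorem aem (Q : Model L₁ L₂ M) (W₁ : Wt L₁.Γ) (W₂ : Wt L₂.Γ) :
    AEMeasurable Q.proj (W₁.μ.prod W₂.μ) := by
  have h := Q.cont.aemeasurable (μ := W₁.μ.prod W₂.μ) isOpen_DD.measurableSet
  rwa [Measure.restrict_eq_self_of_ae_mem (ae_DD W₁ W₂)] at h

/-- The product measure of the preimage of a set in a chart. -/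
theorem chart (d₁ : DqFacts L₁) (d₂ : DqFacts L₂) (h2 : CoFacts) (Q : Model L₁ L₂ M)
    (W₁ : Wt L₁.Γ) (W₂ : Wt L₂.Γ) (x : M) {s : Set M} (hs : MeasurableSet s)
    (hx : s ⊆ (chartAt E4 x).source) : (W₁.μ.prod W₂.μ) (Q.proj ⁻¹' s) =
      ∫⁻ ζ, ∫⁻ ξ, (chartAt E4 x '' s).indicator 1 (mkE ζ (cc * ξ)) ∂dA ∂dA := by
  classical
  have := W₂.finite
  have hr : r0 = 1 / 10 := rfl
  obtain ⟨ha, hb⟩ := mem_DD.1 (Q.lift_mem x)
  obtain ⟨τ, hτ⟩ := exists_tl ha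
  obtain ⟨σ, hσ⟩ := exists_tl hb
  set S : Set (ℂ × ℂ) := DD ∩ Q.proj ⁻¹' s with hS
  have hSm : MeasurableSet S := by
    have h1 : Measurable (DD.piecewise Q.proj fun _ => x) :=
      Q.cont.measurable_piecewise continuousOn_const isOpen_DD.measurableSet
    have h3 : S = DD ∩ (DD.piecewise Q.proj fun _ => x) ⁻¹' s := by
      ext p
      exact and_congr_right fun hp => by simp only [mem_preimage, piecewise_eq_of_mem _ _ _ hp]
    rw [h3]
    exact isOpen_DD.measurableSet.inter (h1 hs)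
  have hF : Measurable (S.indicator (1 : ℂ × ℂ → ℝ≥0∞)) := measurable_one.indicator hSm
  have hA : ∀ y ∈ chartAt E4 x '' s, ‖y‖ < r0 ∧ param x y ∈ s := by
    rintro _ ⟨z, hz, rfl⟩
    refine ⟨mem_ball_zero_iff.1 (Q.tgt x ▸ chart_mem (hx hz)), ?_⟩
    rwa [param_chart (hx hz)]
  have hex : ∀ p ∈ S, ∃ y ∈ chartAt E4 x '' s, ∃ γ₁ ∈ L₁.Γ, ∃ γ₂ ∈ L₂.Γ,
      γ₁.act p.1 = τ.act (zc y) ∧ γ₂.act p.2 = σ.act (wc y / cc) := fun p hp => by
    have hy := mem_image_of_mem (chartAt E4 x) hp.2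
    have h3 := (hA _ hy).1
    have h4 := Q.par x _ h3
    rw [param_chart (hx hp.2)] at h4
    refine ⟨_, hy, ?_⟩
    rw [hτ, hσ]
    exact (Q.proj_eq p hp.1 _ (mem_DD.2 ⟨mob_lt ha (by linarith [z_le h2 (chartAt E4 x (Q.proj p))]),
      mob_lt hb (by linarith [w_le h2 (chartAt E4 x (Q.proj p))])⟩)).1 h4
  have hinv : ∀ γ₁ ∈ L₁.Γ, ∀ γ₂ ∈ L₂.Γ, ∀ z w : ℂ, ‖z‖ < 1 → ‖w‖ < 1 →
      S.indicator (1 : ℂ × ℂ → ℝ≥0∞) (γ₁.act z, γ₂.act w) = S.indicator 1 (z, w) := by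
    intro γ₁ g₁ γ₂ g₂ z w hz hw
    have m1 : (z, w) ∈ DD := mem_DD.2 ⟨hz, hw⟩
    have m2 : (γ₁.act z, γ₂.act w) ∈ DD := mem_DD.2 ⟨γ₁.act_lt hz, γ₂.act_lt hw⟩
    have e := (Q.proj_eq _ m1 _ m2).2 ⟨γ₁, g₁, γ₂, g₂, rfl, rfl⟩
    simp only [indicator_apply, hS, mem_inter_iff, mem_preimage, m1, m2, e, Pi.one_apply]
  have e1 : (W₁.μ.prod W₂.μ) (Q.proj ⁻¹' s) = (W₁.μ.prod W₂.μ) S :=
    measure_congr ((ae_DD W₁ W₂).mono fun p hp => propext ⟨fun h => ⟨hp, h⟩, fun h => h.2⟩)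
  rw [e1, ← lintegral_indicator_one hSm, lintegral_prod _ hF.aemeasurable,
    one L₁ d₁ W₁ τ hF.lintegral_prod_right']
  · refine lintegral_congr fun ζ => ?_
    by_cases hζ : ζ ∈ ball (0 : ℂ) r0
    · have hζ' := mem_ball_zero_iff.1 hζ
      have hζ1 : ‖ζ‖ < 1 := by linarith
      rw [indicator_of_mem hζ]
      refine (one L₂ d₂ W₂ σ (hF.comp measurable_prodMk_left) (fun γ g w hw => ?_)
        fun w _ h => ?_).trans (lintegral_congr fun ξ => ?_)
      · simpa using hinv 1 (one_mem _) γ g _ w (τ.act_lt hζ1) hw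
      · obtain ⟨y, hy, -, -, γ₂, g₂, -, e⟩ := hex _ (mem_of_indicator_ne_zero h)
        exact ⟨γ₂, g₂, _, (w_le h2 y).trans_lt (hA y hy).1, e⟩
      · by_cases hm : mkE ζ (cc * ξ) ∈ chartAt E4 x '' s
        · obtain ⟨h3, h4⟩ := hA _ hm
          have h5 := (w_le h2 _).trans_lt h3
          rw [Q.par x _ h3, h2.zc_mk, h2.wc_mk, mul_div_cancel_left₀ _ cc_ne, ← hτ, ← hσ] at h4
          rw [h2.wc_mk, mul_div_cancel_left₀ _ cc_ne] at h5
          have h6 : (τ.act ζ, σ.act ξ) ∈ S :=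
            ⟨mem_DD.2 ⟨τ.act_lt hζ1, σ.act_lt (by linarith)⟩, h4⟩
          rw [indicator_of_mem hm, indicator_of_mem (mem_ball_zero_iff.2 h5)]
          exact indicator_of_mem h6 _
        · rw [indicator_of_notMem hm]
          by_contra hne
          have h3 := mem_of_indicator_ne_zero hne
          rw [indicator_of_mem h3] at hne
          obtain ⟨y, hy, γ₁, g₁, γ₂, g₂, e₁, e₂⟩ := hex _ (mem_of_indicator_ne_zero hne)
          rw [hτ, hτ] at e₁
          rw [hσ, hσ] at e₂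
          have h4 := inj_one d₁ ha hζ' ((z_le h2 y).trans_lt (hA y hy).1) g₁ e₁
          have h5 := inj_one d₂ hb (mem_ball_zero_iff.1 h3) ((w_le h2 y).trans_lt (hA y hy).1) g₂ e₂
          rw [h4, h5, mul_div_cancel₀ _ cc_ne, h2.mk_zw] at hm
          exact hm hy
    · have h3 : ∀ ξ : ℂ, (chartAt E4 x '' s).indicator (1 : E4 → ℝ≥0∞) (mkE ζ (cc * ξ)) = 0 :=
        fun ξ => indicator_of_notMem (fun k => hζ (by
          have h4 := (z_le h2 _).trans_lt (hA _ k).1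
          rw [h2.zc_mk] at h4
          exact mem_ball_zero_iff.2 h4)) _
      simp [h3, indicator_of_notMem hζ]
  · intro γ g z hz
    exact lintegral_congr_ae (W₂.ae_lt.mono fun w hw => by
      simpa using hinv γ g 1 (one_mem _) z w hz hw)
  · intro z _ h
    by_contra hn
    refine h ?_
    have h3 : ∀ w, S.indicator (1 : ℂ × ℂ → ℝ≥0∞) (z, w) = 0 := fun w =>
      indicator_of_notMem (fun k => by
        obtain ⟨y, hy, γ₁, g₁, -, -, e, -⟩ := hex _ k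
        exact hn ⟨γ₁, g₁, _, (z_le h2 y).trans_lt (hA y hy).1, e⟩) _
    simp [h3]

/-- The volume is the image of the product measure. -/
theorem vol_eq [CompactSpace M] [IsManifold (𝓡 4) ∞ M] (d₁ : DqFacts L₁) (d₂ : DqFacts L₂)
    (h2 : CoFacts) (Q : Model L₁ L₂ M) (g : RMetric M) (hg : IsBlk g (fun _ => 0) fun _ => 0)
    (W₁ : Wt L₁.Γ) (W₂ : Wt L₂.Γ) :
    vol g = ENNReal.ofReal (cc ^ 2) • (W₁.μ.prod W₂.μ).map Q.proj := by
  obtain ⟨t, ht⟩ := isCompact_univ.elim_finite_subcover (fun x : M => (chartAt E4 x).source)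
    isOpen_src fun x _ => mem_iUnion.2 ⟨x, mem_chart_source E4 x⟩
  refine Measure.ext_of_biUnion_eq_univ t.countable_toSet (univ_subset_iff.1 ht) fun x _ => ?_
  ext s hs
  have hs' := hs.inter (isOpen_src x).measurableSet
  have hA : MeasurableSet (chartAt E4 x '' (s ∩ (chartAt E4 x).source)) := by
    classical
    have h1 : Measurable ((chartAt E4 x).target.piecewise (param x) fun _ => x) :=
      (continuousOn_param x).measurable_piecewise continuousOn_const (isOpen_tgt x).measurableSet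
    have h3 : chartAt E4 x '' (s ∩ (chartAt E4 x).source) = (chartAt E4 x).target ∩
        ((chartAt E4 x).target.piecewise (param x) fun _ => x) ⁻¹' s := by
      ext y
      constructor
      · rintro ⟨z, hz, rfl⟩
        refine ⟨chart_mem hz.2, ?_⟩
        rw [mem_preimage, piecewise_eq_of_mem _ _ _ (chart_mem hz.2), param_chart hz.2]
        exact hz.1
      · rintro ⟨hy, hy'⟩
        rw [mem_preimage, piecewise_eq_of_mem _ _ _ hy] at hy'
        exact ⟨_, ⟨hy', param_mem hy⟩, chart_param hy⟩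
    rw [h3]
    exact (isOpen_tgt x).measurableSet.inter (h1 hs)
  have hsub : chartAt E4 x '' (s ∩ (chartAt E4 x).source) ⊆ ball 0 r0 :=
    Q.tgt x ▸ chart_image_subset inter_subset_right
  rw [Measure.restrict_apply hs, Measure.restrict_apply hs, Measure.smul_apply,
    Measure.map_apply_of_aemeasurable (aem Q W₁ W₂) hs', smul_eq_mul,
    chart d₁ d₂ h2 Q W₁ W₂ x hs' inter_subset_right, ← flat h2 hA hsub,
    isVolume_vol g x _ hs' inter_subset_right]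
  refine setLIntegral_congr_fun hA fun y hy => ?_
  have h3 := h2.dens_blk (fun z => f0 z + 0) (fun z => h0 z + 0) y
  simp only [dens, add_zero] at h3
  simp only [hg x y (mem_ball_zero_iff.1 (hsub hy)), h3, rh, add_zero]

end M7

open M7 in
theorem volStmt (h : DqStmt) (h2 : CoFacts) : VolStmt := by
  intro T₁ T₂ L₁ L₂ M _ _ _ _ _ _ _ Q t₁ t₂ g hg W₁ W₂ f hf
  have := W₁.finite
  have := W₂.finite
  have ha := aem Q W₁ W₂
  constructor
  · have hi : Integrable f ((W₁.μ.prod W₂.μ).map Q.proj) :=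
      hf.integrable_of_hasCompactSupport (HasCompactSupport.of_compactSpace f)
    exact (integrable_map_measure hi.aestronglyMeasurable ha).1 hi
  · rw [vol_eq (h T₁ L₁ t₁) (h T₂ L₂ t₂) h2 Q g hg W₁ W₂, integral_smul_measure,
      integral_map ha hf.measurable.aestronglyMeasurable, ENNReal.toReal_ofReal (sq_nonneg _),
      smul_eq_mul]

end Pool.Agent.MP_417fa2_gt.Q2
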