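import Pool.Agent.MP_417fa2_gt.Q2.M9

/-! The operators of the product metric on the bidisc. -/

open scoped Manifold ContDiff Topology
open MeasureTheory Set Metric Real Filter

namespace Pool.Agent.MP_417fa2_gt.Q2

namespace M8

/-- The coordinates as a continuous linear map. -/
noncomputable def mkL : ℂ × ℂ →L[ℝ] E4 := LinearMap.toContinuousLinearMap
  { toFun := fun p => mkE p.1 p.2
    map_add' := fun p q => by ext i; fin_cases i <;> simp [mkE]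
    map_smul' := fun c p => by ext i; fin_cases i <;> simp [mkE] }

theorem mkL_apply (z w : ℂ) : mkL (z, w) = mkE z w := rfl

theorem mkE_zero : mkE 0 0 = 0 := mkL.map_zero

theorem lap2_ev {f g : ℂ → ℝ} {z : ℂ} (h : f =ᶠ[𝓝 z] g) : lap2 f z = lap2 g z := by
  have key : ∀ v, dd v (dd v f) z = dd v (dd v g) z := fun v => by
    have h1 : dd v f =ᶠ[𝓝 z] dd v g := (h.fderiv (𝕜 := ℝ)).mono fun w hw => by
      simp only [dd, hw]
    rw [dd, h1.fderiv_eq]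
    rfl
  rw [lap2, lap2, key, key]

theorem dd_dd (A : ℂ →L[ℝ] E4) {ψ : E4 → ℝ} (hψ : SmAt ψ 0) (v : ℂ) (i : Fin 4)
    (h : A v = EuclideanSpace.single i 1) :
    dd v (dd v fun z => ψ (A z)) 0 = pd i (pd i ψ) 0 := by
  have k : ∀ (χ : E4 → ℝ) (z : ℂ), DifferentiableAt ℝ χ (A z) →
      dd v (fun z => χ (A z)) z = pd i χ (A z) := fun χ z hχ => by
    have h1 : HasFDerivAt (fun z => χ (A z)) _ z := hχ.hasFDerivAt.comp z A.hasFDerivAt
    rw [dd, h1.fderiv, pd, ← h]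
    rfl
  have hA : Tendsto A (𝓝 0) (𝓝 0) := by simpa using A.continuous.tendsto 0
  have h1 : dd v (fun z => ψ (A z)) =ᶠ[𝓝 0] fun z => pd i ψ (A z) :=
    (hA.eventually hψ).mono fun z hz => k ψ z (hz.differentiableAt (by simp))
  have h2 : DifferentiableAt ℝ (pd i ψ) (A 0) := by
    rw [map_zero]
    exact ((hψ.at.fderiv_right (m := 1) (by norm_cast)).clm_apply
      contDiffAt_const).differentiableAt (by simp)
  have h3 := k (pd i ψ) 0 h2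
  rw [map_zero] at h3
  rw [← h3, dd, h1.fderiv_eq]
  rfl

theorem key (A : ℂ →L[ℝ] E4) (i j : Fin 4) (h1 : A 1 = EuclideanSpace.single i 1)
    (hI : A Complex.I = EuclideanSpace.single j 1) {ψ : E4 → ℝ} (hψ : SmAt ψ 0) {F : ℂ → ℝ}
    (hF : Sm F) {c : ℂ} (hc : ‖c‖ ≤ 1) (h : ∀ᶠ z in 𝓝 0, ψ (A z) = F (c * z)) :
    pd i (pd i ψ) 0 + pd j (pd j ψ) 0 = ‖c‖ ^ 2 * lap2 F 0 := by
  have e := lap2_hol (f := F) (φ := fun z => c * z) (c := fun _ => c) (z := 0)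
    (fun z _ => by simpa using (hasDerivAt_id z).const_mul c)
    (fun z hz => by rw [norm_mul]; nlinarith [norm_nonneg c, norm_nonneg z]) hF (by simp)
    (hasDerivAt_const _ _)
  rw [mul_zero] at e
  rw [← e, ← lap2_ev h, lap2, dd_dd A hψ _ _ h1, dd_dd A hψ _ _ hI]

theorem small (A : ℂ →L[ℝ] E4) : ∀ᶠ z in 𝓝 0, ‖A z‖ < r0 := by
  have hA : Tendsto A (𝓝 0) (𝓝 0) := by simpa using A.continuous.tendsto 0
  exact (hA.eventually (ball_mem_nhds (0 : E4) (show 0 < r0 by norm_num [r0]))).mono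
    fun z hz => mem_ball_zero_iff.1 hz

theorem cc_ne : (cc : ℂ) ≠ 0 := by norm_num [cc]

end M8

open M8 M9

theorem opStmt (hC : ConfFacts) (hc : CoFacts) (hH : HypStmt) (hL : LocFacts) (hT : TrStmt) :
    OpStmt := by
  intro T₁ T₂ L₁ L₂ M _ _ _ _ _ _ _ Q h₁ h₂ g hg
  have hr : 0 < r0 := by norm_num [r0]
  have hG : ∀ x, gmat g x =ᶠ[𝓝 0] blk f0 h0 := fun x =>
    eventually_of_mem (ball_mem_nhds 0 hr) fun y hy => by
      simpa using hg x y (mem_ball_zero_iff.1 hy)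
  have h0' : ‖(0 : E4)‖ < 1 := by simp
  refine ⟨fun x => ?_, fun φ hφ => ?_⟩
  · rw [qCurv, Q.ctr, (hL.congr' _ _ (fun _ => 0) _ _ (hG x) EventuallyEq.rfl).2.2.2]
    exact (hH 0 h0').1
  have hψ : ∀ x, SmAt (φ ∘ param x) 0 := fun x =>
    smAt_of_on isOpen_ball (mem_ball_self hr) (Q.tgt x ▸ hφ.cdOn x)
  have hsm : ContDiffOn ℝ ∞ (fun p => φ (Q.proj p)) DD := by
    intro p hp
    obtain ⟨hz, hw⟩ := mem_DD.1 hp
    obtain ⟨u₁, u₂, -, -, hu⟩ := (hT _ _ _ _ _ Q h₁ h₂).cen p hp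
    obtain ⟨τ, hτ⟩ := exists_tl hz
    obtain ⟨σ, hσ⟩ := exists_tl hw
    have a1 : ContDiffAt ℝ ∞ (fun q : ℂ × ℂ => τ⁻¹.act q.1) p :=
      (τ⁻¹.contDiffOn_act_real.contDiffAt (ball_nhds hz)).comp p contDiffAt_fst
    have a2 : ContDiffAt ℝ ∞ (fun q : ℂ × ℂ => σ⁻¹.act q.2) p :=
      (σ⁻¹.contDiffOn_act_real.contDiffAt (ball_nhds hw)).comp p contDiffAt_snd
    have z1 : τ⁻¹.act p.1 = 0 := by simpa [hτ] using τ.inv_act_act (z := 0) (by simp)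
    have z2 : σ⁻¹.act p.2 = 0 := by simpa [hσ] using σ.inv_act_act (z := 0) (by simp)
    have b : ∀ a b : ℂ, ContDiffAt ℝ ∞
        (fun q : ℂ × ℂ => mkE (a * τ⁻¹.act q.1) (b * (cc * σ⁻¹.act q.2))) p := fun a b =>
      mkL.contDiff.contDiffAt.comp p
        ((contDiffAt_const.mul a1).prodMk (contDiffAt_const.mul (contDiffAt_const.mul a2)))
    have hs : ∀ᶠ q : ℂ × ℂ in 𝓝 p, ‖mkE (1 * τ⁻¹.act q.1) (1 * (cc * σ⁻¹.act q.2))‖ < r0 :=
      (b 1 1).continuousAt.norm.eventually (gt_mem_nhds (by simpa [z1, z2, mkE_zero] using hr))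
    have hd : ContDiffAt ℝ ∞ (φ ∘ param (Q.proj p))
        (mkE (u₁ * τ⁻¹.act p.1) (u₂ * (cc * σ⁻¹.act p.2))) := by
      simpa [z1, z2, mkE_zero] using (hψ (Q.proj p)).at
    refine ((hd.comp p (b u₁ u₂)).congr_of_eventuallyEq ?_).contDiffWithinAt
    filter_upwards [hs, isOpen_DD.mem_nhds hp] with q hq hq'
    have e := hu _ hq
    rw [rot, hc.zc_mk, hc.wc_mk, one_mul, one_mul, mul_div_cancel_left₀ _ cc_ne, ← hτ, ← hσ,
      τ.act_inv_act (mem_DD.1 hq').1, σ.act_inv_act (mem_DD.1 hq').2] at e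
    exact congrArg φ e
  refine ⟨⟨hsm, fun w hw γ hγ z hz => congrArg φ ?_, fun z hz γ hγ w hw => congrArg φ ?_⟩,
    fun p hp => ?_⟩
  · exact ((Q.proj_eq _ (mk_mem hz hw) _ (mk_mem (γ.act_lt hz) hw)).2
      ⟨γ, hγ, 1, one_mem _, rfl, SU.one_act _⟩).symm
  · exact ((Q.proj_eq _ (mk_mem hz hw) _ (mk_mem hz (γ.act_lt hw))).2
      ⟨1, one_mem _, γ, hγ, SU.one_act _, rfl⟩).symm
  obtain ⟨hz, hw⟩ := mem_DD.1 hp
  obtain ⟨u₁, u₂, n₁, n₂, hu⟩ := (hT _ _ _ _ _ Q h₁ h₂).cen p hp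
  obtain ⟨τ, hτ⟩ := exists_tl hz
  obtain ⟨σ, hσ⟩ := exists_tl hw
  have u1 : u₁ ≠ 0 := norm_ne_zero_iff.1 (by simp [n₁])
  have u2 : u₂ ≠ 0 := norm_ne_zero_iff.1 (by simp [n₂])
  have hcc : ‖(cc : ℂ)‖ = cc := by rw [Complex.norm_real]; norm_num [cc]
  have e1 : lz (φ ∘ param (Q.proj p)) 0 = op1 (fun q => φ (Q.proj q)) p := by
    have k := key (mkL.comp (.inl ℝ ℂ ℂ)) 0 1 (by ext i; fin_cases i <;> simp [mkL, mkE])
      (by ext i; fin_cases i <;> simp [mkL, mkE]) (hψ (Q.proj p))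
      (hC.sm_act τ _ (sm1 hsm hw)) (c := u₁⁻¹) (by simp [n₁]) (by
        filter_upwards [small (mkL.comp ((ContinuousLinearMap.inl ℝ ℂ ℂ).comp
          (ContinuousLinearMap.mul ℝ ℂ u₁⁻¹)))] with z hz
        have e := hu (mkE (u₁⁻¹ * z) 0) hz
        rw [rot, hc.zc_mk, hc.wc_mk, mul_inv_cancel_left₀ u1, mul_zero, zero_div, mob_zero,
          ← hτ] at e
        exact congrArg φ e.symm)
    have l := hC.L_act τ _ (sm1 hsm hw) 0 (by simp)
    rw [hτ, mob_zero] at l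
    rw [lz, k, op1, ← l]
    simp [L2, n₁]
  have e2 : lw (φ ∘ param (Q.proj p)) 0 = op2 (fun q => φ (Q.proj q)) p := by
    have k := key (mkL.comp (.inr ℝ ℂ ℂ)) 2 3 (by ext i; fin_cases i <;> simp [mkL, mkE])
      (by ext i; fin_cases i <;> simp [mkL, mkE]) (hψ (Q.proj p))
      (hC.sm_act σ _ (sm2 hsm hz)) (c := u₂⁻¹ / cc)
      (by rw [norm_div, norm_inv, n₂, hcc]; norm_num [cc]) (by
        filter_upwards [small (mkL.comp ((ContinuousLinearMap.inr ℝ ℂ ℂ).comp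
          (ContinuousLinearMap.mul ℝ ℂ u₂⁻¹)))] with w hw
        have e := hu (mkE 0 (u₂⁻¹ * w)) hw
        rw [rot, hc.zc_mk, hc.wc_mk, mul_inv_cancel_left₀ u2, mul_zero, mob_zero, ← hσ,
          ← div_mul_eq_mul_div] at e
        exact congrArg φ e.symm)
    have l := hC.L_act σ _ (sm2 hsm hz) 0 (by simp)
    rw [hσ, mob_zero] at l
    rw [lw, k, op2, ← l, norm_div, norm_inv, n₂, hcc]
    simp [L2]
  have k := hL.congr' _ _ _ _ _ (hG (Q.proj p)) (EventuallyEq.refl _ (φ ∘ param (Q.proj p)))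
  have l := (hH 0 h0').2 _ (hψ (Q.proj p))
  rw [lapM, pan2M, Q.ctr, k.1, k.2.1, l.1, l.2, e1, e2]
  simp [zsq, wsq]

end Pool.Agent.MP_417fa2_gt.Q2
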