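import Pool.Agent.MP_417fa2_gt.Q2.SSpec

/-! Conformal invariance of the Laplacian and of the scalar product of gradients. -/

open scoped ContDiff ComplexConjugate ENNReal Topology
open MeasureTheory Set Metric Real Filter

namespace Pool.Agent.MP_417fa2_gt.Q2

variable {f g : ℂ → ℝ} {z : ℂ}

theorem ball_nhds (hz : ‖z‖ < 1) : ball (0 : ℂ) 1 ∈ 𝓝 z :=
  isOpen_ball.mem_nhds (mem_ball_zero_iff.2 hz)

theorem Sm.diff (hf : Sm f) (hz : ‖z‖ < 1) : DifferentiableAt ℝ f z :=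
  (hf.contDiffAt (ball_nhds hz)).differentiableAt (by simp)

theorem Sm.ct (hf : Sm f) : Ct f := hf.continuousOn

theorem Sm.dd (hf : Sm f) (v : ℂ) : Sm (dd v f) :=
  (hf.fderiv_of_isOpen isOpen_ball (by simp)).clm_apply contDiffOn_const

theorem sm_wt : Sm fun z => (1 - ‖z‖ ^ 2) ^ 2 :=
  ((contDiff_const.sub (contDiff_norm_sq ℝ)).pow 2).contDiffOn

theorem Sm.L2 (hf : Sm f) : Sm (L2 f) :=
  sm_wt.mul (((hf.dd 1).dd 1).add ((hf.dd _).dd _))

theorem Sm.Gam2 (hf : Sm f) (hg : Sm g) : Sm (Gam2 f g) :=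
  sm_wt.mul (((hf.dd 1).mul (hg.dd 1)).add ((hf.dd _).mul (hg.dd _)))

theorem Sm.act (hf : Sm f) (γ : SU) : Sm fun z => f (γ.act z) :=
  hf.comp γ.contDiffOn_act_real γ.mapsTo_act

theorem dd_congr (v : ℂ) (h : ∀ z : ℂ, ‖z‖ < 1 → f z = g z) (z : ℂ) (hz : ‖z‖ < 1) :
    dd v f z = dd v g z := by
  rw [dd, dd, EventuallyEq.fderiv_eq
    (eventually_of_mem (ball_nhds hz) fun w hw => h w (mem_ball_zero_iff.1 hw))]

theorem dd_add (v : ℂ) (hf : DifferentiableAt ℝ f z) (hg : DifferentiableAt ℝ g z) :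
    dd v (fun z => f z + g z) z = dd v f z + dd v g z := by
  simp [dd, fderiv_fun_add hf hg]

theorem dd_mul (v : ℂ) (hf : DifferentiableAt ℝ f z) (hg : DifferentiableAt ℝ g z) :
    dd v (fun z => f z * g z) z = dd v f z * g z + f z * dd v g z := by
  simp [dd, fderiv_fun_mul hf hg]
  ring

theorem dd_lin (v : ℂ) (hf : Sm f) (hg : Sm g) (a b : ℝ) (z : ℂ) (hz : ‖z‖ < 1) :
    dd v (fun z => a * f z + b * g z) z = a * dd v f z + b * dd v g z := by
  simp [dd, (((hf.diff hz).hasFDerivAt.const_mul a).fun_add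
    ((hg.diff hz).hasFDerivAt.const_mul b)).fderiv]

theorem dd_hol (v : ℂ) {φ : ℂ → ℂ} {c : ℂ} (hφ : HasDerivAt φ c z)
    (hf : DifferentiableAt ℝ f (φ z)) : dd v (fun z => f (φ z)) z =
      (v * c).re * dd 1 f (φ z) + (v * c).im * dd Complex.I f (φ z) := by
  have h : HasFDerivAt (fun z => f (φ z)) _ z :=
    hf.hasFDerivAt.comp z (hφ.hasFDerivAt.restrictScalars ℝ)
  have e : v * c = (v * c).re • (1 : ℂ) + (v * c).im • Complex.I := by
    simp only [Complex.real_smul, mul_one, Complex.re_add_im]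
  have := congrArg (fderiv ℝ f (φ z)) e
  rw [map_add, map_smul, map_smul] at this
  rw [dd, h.fderiv]
  exact this

theorem lap2_hol {φ c : ℂ → ℂ} (hφ : ∀ z : ℂ, ‖z‖ < 1 → HasDerivAt φ (c z) z)
    (hm : ∀ z : ℂ, ‖z‖ < 1 → ‖φ z‖ < 1) (hf : Sm f) (hz : ‖z‖ < 1) {c' : ℂ}
    (hc : HasDerivAt c c' z) : lap2 (fun z => f (φ z)) z = ‖c z‖ ^ 2 * lap2 f (φ z) := by
  have re : ∀ v, dd v Complex.re = fun _ => v.re := fun v => funext fun w => by
    rw [dd, show Complex.re = Complex.reCLM from rfl, ContinuousLinearMap.fderiv]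
  have im : ∀ v, dd v Complex.im = fun _ => v.im := fun v => funext fun w => by
    rw [dd, show Complex.im = Complex.imCLM from rfl, ContinuousLinearMap.fderiv]
  have key : ∀ v, dd v (dd v fun z => f (φ z)) z = _ := fun v => by
    have h1 := hc.const_mul v
    have d1 := h1.differentiableAt.restrictScalars ℝ
    have d2 : ∀ u, DifferentiableAt ℝ (fun z => dd u f (φ z)) z := fun u =>
      ((hf.dd u).diff (hm z hz)).comp z ((hφ z hz).differentiableAt.restrictScalars ℝ)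
    have dr : DifferentiableAt ℝ (fun z => (v * c z).re) z :=
      Complex.reCLM.differentiableAt.comp z d1
    have di : DifferentiableAt ℝ (fun z => (v * c z).im) z :=
      Complex.imCLM.differentiableAt.comp z d1
    rw [dd_congr v (fun w hw => dd_hol v (hφ w hw) (hf.diff (hm w hw))) z hz,
      dd_add v (dr.fun_mul (d2 _)) (di.fun_mul (d2 _)), dd_mul v dr (d2 _), dd_mul v di (d2 _),
      dd_hol v (hφ z hz) ((hf.dd _).diff (hm z hz)), dd_hol v (hφ z hz) ((hf.dd _).diff (hm z hz)),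
      dd_hol (f := Complex.re) v h1 Complex.reCLM.differentiableAt,
      dd_hol (f := Complex.im) v h1 Complex.imCLM.differentiableAt, re, re, im, im]
  rw [lap2, lap2, key, key, Complex.sq_norm, Complex.normSq_apply]
  simp
  ring

theorem SU.wt_act (γ : SU) (hz : ‖z‖ < 1) : (1 - ‖γ.act z‖ ^ 2) ^ 2 =
    (1 - ‖z‖ ^ 2) ^ 2 * ‖1 / (conj γ.b * z + conj γ.a) ^ 2‖ ^ 2 := by
  rw [γ.one_sub_act hz, norm_div, norm_one, norm_pow]
  ring

theorem L2_act (γ : SU) (hf : Sm f) (hz : ‖z‖ < 1) :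
    L2 (fun z => f (γ.act z)) z = L2 f (γ.act z) := by
  have hc : DifferentiableAt ℂ (fun z => 1 / (conj γ.b * z + conj γ.a) ^ 2) z :=
    DifferentiableAt.div (by fun_prop) (by fun_prop) (pow_ne_zero _ (γ.den_ne hz))
  rw [L2, L2, lap2_hol (fun _ => γ.hasDerivAt_act) (fun _ => γ.act_lt) hf hz hc.hasDerivAt,
    γ.wt_act hz, mul_assoc]

theorem Gam2_act (γ : SU) (hf : Sm f) (hg : Sm g) (hz : ‖z‖ < 1) :
    Gam2 (fun z => f (γ.act z)) (fun z => g (γ.act z)) z = Gam2 f g (γ.act z) := by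
  simp only [Gam2, dd_hol _ (γ.hasDerivAt_act hz) (hf.diff (γ.act_lt hz)),
    dd_hol _ (γ.hasDerivAt_act hz) (hg.diff (γ.act_lt hz)), γ.wt_act hz]
  generalize 1 / (conj γ.b * z + conj γ.a) ^ 2 = c
  rw [Complex.sq_norm c, Complex.normSq_apply]
  simp
  ring

theorem L2_congr (h : ∀ z : ℂ, ‖z‖ < 1 → f z = g z) (hz : ‖z‖ < 1) : L2 f z = L2 g z := by
  simp only [L2, lap2, dd_congr _ (dd_congr _ h) z hz]

theorem confFacts : ConfFacts :=
  ⟨fun v _ h => h.dd v, fun _ => Sm.L2, fun _ _ => Sm.Gam2, fun γ _ h => h.act γ,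
    fun _ _ h _ => L2_congr h,
    fun _ _ _ _ h k z hz => by simp only [Gam2, dd_congr _ h z hz, dd_congr _ k z hz],
    fun f g hf hg a b z hz => by
      simp only [L2, lap2, dd_congr _ (dd_lin _ hf hg a b) z hz,
        dd_lin _ (hf.dd _) (hg.dd _) a b z hz]
      ring,
    fun γ _ hf _ => L2_act γ hf, fun γ _ _ hf hg _ => Gam2_act γ hf hg⟩

end Pool.Agent.MP_417fa2_gt.Q2
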