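import Pool.Agent.MP_417fa2_gt.Q2.MSpec
import Pool.Agent.MP_417fa2_gt.Q2.S5Conf

/-! The two Laplacians on the bidisc: smoothness and the sign of the cross term. -/

open scoped Manifold ContDiff Topology
open MeasureTheory Set Metric Real Filter

namespace Pool.Agent.MP_417fa2_gt.Q2

namespace M9

variable {Φ Ψ : ℂ × ℂ → ℝ} {p : ℂ × ℂ}

theorem isOpen_DD : IsOpen DD := isOpen_ball.prod isOpen_ball

theorem mem_DD : p ∈ DD ↔ ‖p.1‖ < 1 ∧ ‖p.2‖ < 1 := by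
  simp [DD, mem_prod]

theorem mk_mem {z w : ℂ} (hz : ‖z‖ < 1) (hw : ‖w‖ < 1) : (z, w) ∈ DD := mem_DD.2 ⟨hz, hw⟩

/-- Directional derivative on the bidisc. -/
noncomputable def D (v : ℂ × ℂ) (Φ : ℂ × ℂ → ℝ) (p : ℂ × ℂ) : ℝ := fderiv ℝ Φ p v

theorem smD (h : ContDiffOn ℝ ∞ Φ DD) (v : ℂ × ℂ) : ContDiffOn ℝ ∞ (D v Φ) DD :=
  (h.fderiv_of_isOpen isOpen_DD (by simp)).clm_apply contDiffOn_const

theorem cda (h : ContDiffOn ℝ ∞ Φ DD) (hp : p ∈ DD) : ContDiffAt ℝ ∞ Φ p :=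
  h.contDiffAt (isOpen_DD.mem_nhds hp)

theorem dif (h : ContDiffOn ℝ ∞ Φ DD) (hp : p ∈ DD) : DifferentiableAt ℝ Φ p :=
  (cda h hp).differentiableAt (by simp)

theorem D_congr (v : ℂ × ℂ) (h : ∀ q ∈ DD, Φ q = Ψ q) (hp : p ∈ DD) : D v Φ p = D v Ψ p := by
  rw [D, D, EventuallyEq.fderiv_eq (eventually_of_mem (isOpen_DD.mem_nhds hp) h)]

theorem D_comm (h : ContDiffOn ℝ ∞ Φ DD) (u v : ℂ × ℂ) (hp : p ∈ DD) :
    D u (D v Φ) p = D v (D u Φ) p := by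
  have h1 := cda h hp
  have h2 : DifferentiableAt ℝ (fderiv ℝ Φ) p :=
    (h1.fderiv_right (m := 1) (by norm_cast)).differentiableAt (by simp)
  have key : ∀ a b, D a (D b Φ) p = fderiv ℝ (fderiv ℝ Φ) p a b := fun a b => by
    unfold D
    rw [fderiv_clm_apply h2 (differentiableAt_const b)]
    simp
  rw [key, key]
  exact (h1.isSymmSndFDerivAt (by rw [minSmoothness_of_isRCLikeNormedField]; norm_cast)).eq u v

theorem sm1 (h : ContDiffOn ℝ ∞ Φ DD) {w : ℂ} (hw : ‖w‖ < 1) : Sm fun z => Φ (z, w) :=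
  h.comp (contDiff_id.prodMk contDiff_const).contDiffOn fun _ hz =>
    mk_mem (mem_ball_zero_iff.1 hz) hw

theorem sm2 (h : ContDiffOn ℝ ∞ Φ DD) {z : ℂ} (hz : ‖z‖ < 1) : Sm fun w => Φ (z, w) :=
  h.comp (contDiff_const.prodMk contDiff_id).contDiffOn fun _ hw =>
    mk_mem hz (mem_ball_zero_iff.1 hw)

theorem dd1 (h : ContDiffOn ℝ ∞ Φ DD) (v : ℂ) {z w : ℂ} (hz : ‖z‖ < 1) (hw : ‖w‖ < 1) :
    dd v (fun z => Φ (z, w)) z = D (v, 0) Φ (z, w) := by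
  have h1 : HasFDerivAt (fun z => Φ (z, w)) _ z :=
    (dif h (mk_mem hz hw)).hasFDerivAt.comp z (hasFDerivAt_prodMk_left z w)
  rw [dd, h1.fderiv]
  rfl

theorem dd2 (h : ContDiffOn ℝ ∞ Φ DD) (v : ℂ) {z w : ℂ} (hz : ‖z‖ < 1) (hw : ‖w‖ < 1) :
    dd v (fun w => Φ (z, w)) w = D (0, v) Φ (z, w) := by
  have h1 : HasFDerivAt (fun w => Φ (z, w)) _ w :=
    (dif h (mk_mem hz hw)).hasFDerivAt.comp w (hasFDerivAt_prodMk_right z w)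
  rw [dd, h1.fderiv]
  rfl

theorem op1_eq (h : ContDiffOn ℝ ∞ Φ DD) (hp : p ∈ DD) : op1 Φ p = (1 - ‖p.1‖ ^ 2) ^ 2 *
    (D (1, 0) (D (1, 0) Φ) p + D (Complex.I, 0) (D (Complex.I, 0) Φ) p) := by
  obtain ⟨hz, hw⟩ := mem_DD.1 hp
  have key : ∀ v, dd v (dd v fun z => Φ (z, p.2)) p.1 = D (v, 0) (D (v, 0) Φ) p := fun v => by
    rw [dd_congr v (fun z hz => dd1 h v hz hw) _ hz, dd1 (smD h _) v hz hw]
  rw [op1, L2, lap2, key, key]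

theorem op2_eq (h : ContDiffOn ℝ ∞ Φ DD) (hp : p ∈ DD) : op2 Φ p = 1 / cc ^ 2 *
    ((1 - ‖p.2‖ ^ 2) ^ 2 *
      (D (0, 1) (D (0, 1) Φ) p + D (0, Complex.I) (D (0, Complex.I) Φ) p)) := by
  obtain ⟨hz, hw⟩ := mem_DD.1 hp
  have key : ∀ v, dd v (dd v fun w => Φ (p.1, w)) p.2 = D (0, v) (D (0, v) Φ) p := fun v => by
    rw [dd_congr v (fun w hw => dd2 h v hz hw) _ hw, dd2 (smD h _) v hz hw]
  rw [op2, L2, lap2, key, key]

theorem wt1 : ContDiff ℝ ∞ fun p : ℂ × ℂ => (1 - ‖p.1‖ ^ 2) ^ 2 :=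
  (contDiff_const.sub ((contDiff_norm_sq ℝ).comp contDiff_fst)).pow 2

theorem wt2 : ContDiff ℝ ∞ fun p : ℂ × ℂ => (1 - ‖p.2‖ ^ 2) ^ 2 :=
  (contDiff_const.sub ((contDiff_norm_sq ℝ).comp contDiff_snd)).pow 2

theorem sm_op1 (h : ContDiffOn ℝ ∞ Φ DD) : ContDiffOn ℝ ∞ (op1 Φ) DD :=
  (wt1.contDiffOn.mul ((smD (smD h _) _).add (smD (smD h _) _))).congr fun _ hp => op1_eq h hp

theorem sm_op2 (h : ContDiffOn ℝ ∞ Φ DD) : ContDiffOn ℝ ∞ (op2 Φ) DD :=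
  (contDiffOn_const.mul (wt2.contDiffOn.mul ((smD (smD h _) _).add (smD (smD h _) _)))).congr
    fun _ hp => op2_eq h hp

/-- A derivative in the second variable commutes with the Laplacian in the first. -/
theorem D_op1 (h : ContDiffOn ℝ ∞ Φ DD) (v : ℂ) (hp : p ∈ DD) :
    D (0, v) (op1 Φ) p = op1 (D (0, v) Φ) p := by
  obtain ⟨hz, hw⟩ := mem_DD.1 hp
  have key : ∀ u, D (0, v) (D u (D u Φ)) p = D u (D u (D (0, v) Φ)) p := fun u => by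
    rw [D_comm (smD h u) _ _ hp]
    exact D_congr u (fun q hq => D_comm h _ _ hq) hp
  have e := dd_lin v (sm2 (smD (smD h (1, 0)) (1, 0)) hz)
    (sm2 (smD (smD h (Complex.I, 0)) (Complex.I, 0)) hz) ((1 - ‖p.1‖ ^ 2) ^ 2)
    ((1 - ‖p.1‖ ^ 2) ^ 2) p.2 hw
  rw [dd2 (smD (smD h _) _) v hz hw, dd2 (smD (smD h _) _) v hz hw] at e
  rw [op1_eq (smD h _) hp, ← key, ← key, mul_add]
  refine Eq.trans ?_ e
  rw [← dd2 (sm_op1 h) v hz hw]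
  exact dd_congr v (fun w hw => by rw [op1_eq h (mk_mem hz hw), mul_add]) _ hw

end M9

open M9

theorem ae_DD {T₁ T₂ : ℝ} {L₁ : Lat T₁} {L₂ : Lat T₂} {W₁ : Wt L₁.Γ} {W₂ : Wt L₂.Γ}
    (h₁ : WFacts L₁ W₁) (h₂ : WFacts L₂ W₂) : ∃ K, IsCompact K ∧ K ⊆ DD ∧
      ∀ᵐ p ∂W₁.μ.prod W₂.μ, p ∈ K := by
  obtain ⟨a, ha, ha'⟩ := h₁.ae
  obtain ⟨b, hb, hb'⟩ := h₂.ae
  have := h₁.fin
  have := h₂.fin
  refine ⟨closedBall 0 a ×ˢ closedBall 0 b,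
    (isCompact_closedBall _ _).prod (isCompact_closedBall _ _),
    prod_mono (closedBall_subset_ball ha) (closedBall_subset_ball hb), ?_⟩
  filter_upwards [Measure.quasiMeasurePreserving_fst.ae ha',
    Measure.quasiMeasurePreserving_snd.ae hb'] with p h1 h2
  exact ⟨mem_closedBall_zero_iff.2 h1, mem_closedBall_zero_iff.2 h2⟩

theorem integrable_DD {T₁ T₂ : ℝ} {L₁ : Lat T₁} {L₂ : Lat T₂} {W₁ : Wt L₁.Γ} {W₂ : Wt L₂.Γ}
    (h₁ : WFacts L₁ W₁) (h₂ : WFacts L₂ W₂) {F : ℂ × ℂ → ℝ} (hF : ContinuousOn F DD) :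
    Integrable F (W₁.μ.prod W₂.μ) := by
  obtain ⟨K, hK, hD, hae⟩ := ae_DD h₁ h₂
  have := h₁.fin
  have := h₂.fin
  have h := (hF.mono hD).integrableOn_compact (μ := W₁.μ.prod W₂.μ) hK
  rwa [IntegrableOn, Measure.restrict_eq_self_of_ae_mem hae] at h

theorem WFacts.ae_lt {T : ℝ} {L : Lat T} {W : Wt L.Γ} (h : WFacts L W) : ∀ᵐ z ∂W.μ, ‖z‖ < 1 := by
  obtain ⟨a, ha, ha'⟩ := h.ae
  exact ha'.mono fun z hz => hz.trans_lt ha

theorem crossStmt (hW : WStmt) (hC : ConfFacts) (hI : IbpStmt) : CrossStmt := by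
  intro T₁ T₂ L₁ L₂ W₁ W₂ Φ hΦ
  have h₁ := hW _ L₁ W₁
  have h₂ := hW _ L₂ W₂
  have := h₁.fin
  have := h₂.fin
  have h := hΦ.sm
  refine ⟨sm_op1 h, sm_op2 h, fun F hF => integrable_DD h₁ h₂ hF, ?_⟩
  set H : ℂ × ℂ → ℝ := fun p => (1 - ‖p.2‖ ^ 2) ^ 2 *
    (D (0, 1) Φ p * op1 (D (0, 1) Φ) p + D (0, Complex.I) Φ p * op1 (D (0, Complex.I) Φ) p) with hH
  have hv : ∀ v : ℂ, ContDiffOn ℝ ∞ (fun p => D (0, v) Φ p * op1 (D (0, v) Φ) p) DD := fun v =>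
    (smD h _).mul (sm_op1 (smD h _))
  have hHs : ContDiffOn ℝ ∞ H DD := wt2.contDiffOn.mul ((hv 1).add (hv _))
  have s1 : ∀ z : ℂ, ‖z‖ < 1 →
      ∫ w, op1 Φ (z, w) * op2 Φ (z, w) ∂W₂.μ = -(1 / cc ^ 2) * ∫ w, H (z, w) ∂W₂.μ := by
    intro z hz
    have hi : Invt L₂.Γ fun w => op1 Φ (z, w) := fun γ hγ w hw =>
      hC.L_congr _ _ (fun z' hz' => hΦ.inv2 z' hz' γ hγ w hw) z hz
    have e := hI _ L₂ W₂ _ _ (sm2 (sm_op1 h) hz) (sm2 h hz) hi (hΦ.inv2 z hz)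
    have e2 : ∫ w, Gam2 (fun w => op1 Φ (z, w)) (fun w => Φ (z, w)) w ∂W₂.μ =
        ∫ w, H (z, w) ∂W₂.μ := integral_congr_ae (h₂.ae_lt.mono fun w hw => by
      simp only [Gam2, hH]
      rw [dd2 (sm_op1 h) _ hz hw, dd2 (sm_op1 h) _ hz hw, dd2 h _ hz hw, dd2 h _ hz hw,
        D_op1 h _ (mk_mem hz hw), D_op1 h _ (mk_mem hz hw)]
      ring)
    rw [← e2, neg_mul, ← mul_neg, ← e, ← integral_const_mul]
    exact integral_congr_ae (Eventually.of_forall fun w => by simp only [op2]; ring)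
  have s2 : ∀ w : ℂ, ‖w‖ < 1 → ∫ z, H (z, w) ∂W₁.μ ≤ 0 := by
    intro w hw
    have key : ∀ v : ℂ, ∫ z, D (0, v) Φ (z, w) * op1 (D (0, v) Φ) (z, w) ∂W₁.μ ≤ 0 := fun v => by
      have hi : Invt L₁.Γ fun z => D (0, v) Φ (z, w) := fun γ hγ z hz => by
        simp only
        rw [← dd2 h v (γ.act_lt hz) hw, ← dd2 h v hz hw]
        exact dd_congr v (fun w' hw' => hΦ.inv1 w' hw' γ hγ z hz) w hw
      have e := hI _ L₁ W₁ _ _ (sm1 (smD h (0, v)) hw) (sm1 (smD h (0, v)) hw) hi hi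
      refine e.trans_le (neg_nonpos.2 (integral_nonneg fun z => ?_))
      exact mul_nonneg (sq_nonneg _) (add_nonneg (mul_self_nonneg _) (mul_self_nonneg _))
    simp only [hH]
    rw [integral_const_mul, integral_add (h₁.int _ (sm1 (hv 1) hw).ct) (h₁.int _ (sm1 (hv _) hw).ct)]
    exact mul_nonpos_of_nonneg_of_nonpos (sq_nonneg _) (add_nonpos (key 1) (key _))
  have iH := integrable_DD h₁ h₂ hHs.continuousOn
  rw [integral_prod _ (integrable_DD h₁ h₂ ((sm_op1 h).mul (sm_op2 h)).continuousOn),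
    integral_congr_ae (h₁.ae_lt.mono s1), integral_const_mul, ← integral_prod _ iH,
    integral_prod_symm _ iH]
  exact mul_nonneg_of_nonpos_of_nonpos (neg_nonpos.2 (by positivity))
    (integral_nonpos_of_ae (h₂.ae_lt.mono s2))

end Pool.Agent.MP_417fa2_gt.Q2
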