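import Pool.Agent.MP_417fa2_gt.Q2.E1b

/-! The cut-off dilation field. -/

open scoped ContDiff Topology
open MeasureTheory Set Metric Real Filter

namespace Pool.Agent.MP_417fa2_gt.Q2

namespace P1X

open E1bX

variable {a : E4 → ℝ} {K : ℝ}

theorem cd_co (i : Fin 4) : ContDiff ℝ ∞ fun x : E4 => x i :=
  (EuclideanSpace.proj i : E4 →L[ℝ] ℝ).contDiff

theorem abs_co (x : E4) (i : Fin 4) : |x i| ≤ ‖x‖ := PiLp.norm_apply_le x i

theorem fderiv_co (i : Fin 4) (y : E4) :
    fderiv ℝ (fun x : E4 => x i) y = EuclideanSpace.proj i :=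
  (EuclideanSpace.proj i : E4 →L[ℝ] ℝ).fderiv

theorem pd_co (i : Fin 4) (y : E4) : pd i (fun x : E4 => x i) y = 1 := by
  simp [pd, fderiv_co]

theorem D1_co (i : Fin 4) (y : E4) : D1 (fun x : E4 => x i) y ≤ 1 := by
  rw [D1_norm, fderiv_co]
  exact ContinuousLinearMap.opNorm_le_bound _ zero_le_one fun x => by simpa using abs_co x i

theorem D1_fld (h : ContDiff ℝ ∞ a) (h1 : ∀ z, |a z| ≤ 1) (hK : ∀ z, D1 a z * ‖z‖ ≤ K) (i : Fin 4)
    (z : E4) : D1 (fun x => a x * x i) z ≤ 1 + K :=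
  (D1_mul _ _ z h.contDiffAt (cd_co i).contDiffAt).trans (add_le_add
    (mul_le_one₀ (h1 z) (D1_nonneg _ _) (D1_co i z))
    ((mul_le_mul_of_nonneg_left (abs_co z i) (D1_nonneg _ _)).trans (hK z)))

theorem lip (h : ContDiff ℝ ∞ a) (h1 : ∀ z, |a z| ≤ 1) (hK : ∀ z, D1 a z * ‖z‖ ≤ K) (x y : E4) :
    |∑ i, (a x * x i - a y * y i) * (x i - y i)| ≤ ‖x - y‖ ^ 2 * (4 * (1 + K)) := by
  refine (Finset.abs_sum_le_sum_abs _ _).trans ((Finset.sum_le_sum (g := fun _ =>
    (1 + K) * ‖x - y‖ * ‖x - y‖) fun i _ => ?_).trans_eq (by simp; ring))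
  have h2 := mvt _ (h.mul (cd_co i)) _ x y fun z _ => D1_fld h h1 hK i z
  rw [abs_mul]
  exact mul_le_mul h2 (abs_co (x - y) i) (abs_nonneg _) ((abs_nonneg _).trans h2)

theorem dv (h : ContDiff ℝ ∞ a) (h1 : ∀ z, |a z| ≤ 1) (hK : ∀ z, D1 a z * ‖z‖ ≤ K) (y : E4) :
    |∑ i, pd i (fun x => a x * x i) y| ≤ 4 * (1 + K) :=
  (Finset.abs_sum_le_sum_abs _ _).trans ((Finset.sum_le_sum (g := fun _ => 1 + K) fun i _ =>
    (chiFacts.pd_le _ i y).trans (D1_fld h h1 hK i y)).trans_eq (by simp; ring))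

theorem dv0 (h : ContDiff ℝ ∞ a) (h0 : ∀ z, 0 ≤ a z) {y : E4} (hy : a y = 0) :
    ∑ i, pd i (fun x => a x * x i) y = 0 := by
  have h1 : IsLocalMin a y := Eventually.of_forall fun z => hy ▸ h0 z
  refine Finset.sum_eq_zero fun i _ => ?_
  rw [pd_mul (dAt_of_cdAt h.contDiffAt) (dAt_of_cdAt (cd_co i).contDiffAt), hy, pd,
    h1.fderiv_eq_zero]
  simp

theorem D1_sub (a : E4 → ℝ) (z : E4) : D1 (fun x => 1 - a x) z = D1 a z := by
  rw [D1_norm, D1_norm, fderiv_const_sub, norm_neg]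

/-- The cut-off of one tube. -/
noncomputable def bb (i : Fin 2) (r t : ℝ) (y : E4) : ℝ :=
  smoothTransition ((ee i r y / t ^ 2 - 1) / 3)

variable {r t : ℝ} (i : Fin 2)

theorem bb_one (ht : 0 < t) {y : E4} (h : (2 * t) ^ 2 ≤ ee i r y) : bb i r t y = 1 := by
  have : 4 ≤ ee i r y / t ^ 2 := (le_div_iff₀ (by positivity)).2 (by linarith)
  exact smoothTransition.one_of_one_le (by linarith)

theorem bb_zero (ht : 0 < t) {y : E4} (h : ee i r y ≤ t ^ 2) : bb i r t y = 0 := by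
  have : ee i r y / t ^ 2 ≤ 1 := (div_le_one (by positivity)).2 h
  exact smoothTransition.zero_of_nonpos (by linarith)

theorem bb_sm (N : NbFacts) : ContDiff ℝ ∞ (bb i r t) :=
  smoothTransition.contDiff.comp ((((N.ee_sm i r).div_const _).sub contDiff_const).div_const _)

theorem bb_bd (N : NbFacts) : ∃ M : ℝ, 0 ≤ M ∧ ∀ i (r t : ℝ), 0 < r → 0 < t → t ≤ r / 8 → ∀ z,
    D1 (bb i r t) z * ‖z‖ ≤ M * r / t := by
  have hs : ContDiff ℝ 1 smoothTransition := smoothTransition.contDiff (n := 1)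
  obtain ⟨M, hM⟩ := (isCompact_Icc (a := (0 : ℝ)) (b := 1)).exists_bound_of_continuousOn
    (hs.continuous_deriv le_rfl).continuousOn
  have M0 : 0 ≤ M := (norm_nonneg _).trans (hM 0 (by simp))
  refine ⟨14 * M, by positivity, fun i r t hr ht htr z => ?_⟩
  rw [D1_norm]
  by_cases h1 : (2 * t) ^ 2 ≤ ee i r z
  · have h : IsLocalMax (bb i r t) z := Eventually.of_forall fun w =>
      (smoothTransition.le_one _).trans_eq (bb_one i ht h1).symm
    rw [h.fderiv_eq_zero, norm_zero, zero_mul]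
    positivity
  by_cases h2 : ee i r z ≤ t ^ 2
  · have h : IsLocalMin (bb i r t) z := Eventually.of_forall fun w =>
      (bb_zero i ht h2).trans_le (smoothTransition.nonneg _)
    rw [h.fderiv_eq_zero, norm_zero, zero_mul]
    positivity
  push Not at h1 h2
  have h3 := (N.nb_norm r (2 * t) hr (by positivity) (by linarith) z ⟨i, h1⟩).2
  have h4 := (N.ee_bd i r z hr (h1.le.trans (by gcongr; linarith))).1
  have h5 : √(ee i r z) ≤ 2 * t := Real.sqrt_le_iff.2 ⟨by positivity, h1.le⟩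
  have h6 := ((hs.differentiable one_ne_zero _).hasDerivAt.comp
    (h := fun s => (s / t ^ 2 - 1) / 3) (ee i r z)
    ((((hasDerivAt_id' _).div_const (t ^ 2)).sub_const 1).div_const 3)).comp_hasFDerivAt z
      (dAt_of_cdAt (N.ee_sm i r).contDiffAt).hasFDerivAt
  have h7 : 1 ≤ ee i r z / t ^ 2 := (one_le_div (by positivity)).2 h2.le
  have h8 : ee i r z / t ^ 2 ≤ 4 := (div_le_iff₀ (by positivity)).2 (by linarith)
  have h9 := hM ((ee i r z / t ^ 2 - 1) / 3) ⟨by linarith, by linarith⟩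
  rw [show fderiv ℝ (bb i r t) z = _ from h6.fderiv, norm_smul, norm_mul, ← D1_norm,
    Real.norm_of_nonneg (r := 1 / t ^ 2 / 3) (by positivity)]
  calc _ ≤ M * (1 / t ^ 2 / 3) * (10 * (2 * t)) * (2 * r) := by
        gcongr
        exacts [D1_nonneg _ _, by linarith]
    _ = 40 / 3 * (M * r / t) := by
      field_simp
      ring
    _ ≤ 14 * M * r / t := by
      have : 0 ≤ M * r / t := by positivity
      rw [mul_assoc, mul_div_assoc 14]
      linarith

end P1X

open P1X E1bX in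
theorem cutStmt (N : NbFacts) : CutStmt := by
  classical
  obtain ⟨C, hC⟩ := chi_bd
  obtain ⟨M, M0, hM⟩ := bb_bd N
  have C0 : 0 ≤ C := by simpa using (D1_nonneg _ _).trans (hC 1 one_pos 0).1
  refine ⟨4 * (1 + 2 * C), by positivity, fun r hr => ⟨r * (1 + 8 * M), by positivity,
    fun t lam ht htr hl => ?_⟩⟩
  have l0 : 0 < lam := by linarith
  have hc := chi_tst lam l0
  have e : cut r t lam = fun y => chi lam y * (bb 0 r t y * bb 1 r t y) :=
    funext fun y => mul_assoc _ _ _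
  have b0 : ∀ i y, 0 ≤ bb i r t y := fun _ _ => smoothTransition.nonneg _
  have b1 : ∀ i y, bb i r t y ≤ 1 := fun _ _ => smoothTransition.le_one _
  have w0 : ∀ y, 0 ≤ bb 0 r t y * bb 1 r t y := fun y => mul_nonneg (b0 _ _) (b0 _ _)
  have w1 : ∀ y, bb 0 r t y * bb 1 r t y ≤ 1 := fun y => mul_le_one₀ (b1 _ _) (b0 _ _) (b1 _ _)
  have w2 : ∀ y ∉ nb r (2 * t), bb 0 r t y * bb 1 r t y = 1 := fun y hy => by
    rw [bb_one 0 ht (not_lt.1 fun h => hy ⟨0, h⟩), bb_one 1 ht (not_lt.1 fun h => hy ⟨1, h⟩),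
      mul_one]
  have ws : ContDiff ℝ ∞ fun y => bb 0 r t y * bb 1 r t y := (bb_sm 0 N).mul (bb_sm 1 N)
  have c0 := chiFacts.nonneg lam
  have c1 := chiFacts.le_one lam
  obtain ⟨a, ha⟩ : ∃ a : E4 → ℝ, a = fun y => 1 - chi lam y := ⟨_, rfl⟩
  obtain ⟨b, hb⟩ : ∃ b : E4 → ℝ, b = fun y => 1 - bb 0 r t y * bb 1 r t y := ⟨_, rfl⟩
  have as : ContDiff ℝ ∞ a := ha ▸ contDiff_const.sub hc.sm
  have bs : ContDiff ℝ ∞ b := hb ▸ contDiff_const.sub ws
  have a0 : ∀ y, 0 ≤ a y := fun y => ha ▸ sub_nonneg.2 (c1 y)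
  have b0' : ∀ y, 0 ≤ b y := fun y => hb ▸ sub_nonneg.2 (w1 y)
  have a1 : ∀ y, |a y| ≤ 1 := fun y => by
    rw [abs_of_nonneg (a0 y), ha]
    exact sub_le_self _ (c0 y)
  have b1' : ∀ y, |b y| ≤ 1 := fun y => by
    rw [abs_of_nonneg (b0' y), hb]
    exact sub_le_self _ (w0 y)
  have a2 : ∀ y : E4, ‖y‖ < lam → a y = 0 := fun y hy => by simp [ha, chi_one lam l0 y hy.le]
  have b2 : ∀ y ∉ nb r (2 * t), b y = 0 := fun y hy => by simp [hb, w2 y hy]
  have aK : ∀ z, D1 a z * ‖z‖ ≤ 2 * C := fun z => by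
    rw [ha, D1_sub]
    by_cases h : 2 * lam ≤ ‖z‖
    · have h1 : IsLocalMin (chi lam) z := Eventually.of_forall fun w =>
        (chi_zero lam l0 z h).trans_le (c0 w)
      rw [D1_norm, h1.fderiv_eq_zero, norm_zero, zero_mul]
      positivity
    · refine (mul_le_mul (hC lam l0 z).1 (not_le.1 h).le (norm_nonneg _) (by positivity)).trans_eq ?_
      field_simp
  have bK : ∀ z, D1 b z * ‖z‖ ≤ 2 * (M * r / t) := fun z => by
    rw [hb, D1_sub]
    have h1 := D1_mul _ _ z (bb_sm 0 N (r := r) (t := t)).contDiffAt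
      (bb_sm 1 N (r := r) (t := t)).contDiffAt
    rw [abs_of_nonneg (b0 _ _), abs_of_nonneg (b0 _ _)] at h1
    have h2 := mul_le_of_le_one_left (D1_nonneg (bb 1 r t) z) (b1 0 z)
    have h3 := mul_le_of_le_one_right (D1_nonneg (bb 0 r t) z) (b1 1 z)
    nlinarith [hM 0 r t hr ht htr z, hM 1 r t hr ht htr z, norm_nonneg z]
  have hK : 4 * (1 + 2 * (M * r / t)) ≤ r * (1 + 8 * M) / t := by
    rw [le_div_iff₀ ht]
    field_simp
    linarith
  have e2 : ∀ y, cut r t lam y = 1 - a y - b y := fun y => by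
    rw [e, ha, hb]
    by_cases hy : y ∈ nb r (2 * t)
    · simp [chi_one lam l0 y
        (by linarith [(N.nb_norm r (2 * t) hr (by positivity) (by linarith) y hy).2])]
    · simp [w2 y hy]
  refine ⟨e ▸ hc.mul_right ws, fun y => ⟨e ▸ mul_nonneg (c0 y) (w0 y),
    e ▸ mul_le_one₀ (c1 y) (w0 y) (w1 y), by simp only [cut, chi, norm_neg, N.ee_neg]⟩,
    fun y h1 h2 => ?_, fun y h => ?_, fun y => ?_, fun x y => ?_⟩
  · simp only [e, chi_one lam l0 y h1, w2 y h2, mul_one]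
  · rcases h with h | ⟨i, h⟩
    · simp only [e, chi_zero lam l0 y h, zero_mul]
    · have := bb_zero i ht h.le
      fin_cases i <;> simp_all
  · have h1 : dvX r t lam y = 4 - ∑ i, pd i (fun x => a x * x i) y -
        ∑ i, pd i (fun x => b x * x i) y := by
      have h : ∀ i, pd i (fun x => cut r t lam x * x i) y =
          1 - pd i (fun x => a x * x i) y - pd i (fun x => b x * x i) y := fun i => by
        have d0 := dAt_of_cdAt (cd_co i).contDiffAt (y := y)
        have d1 := dAt_of_cdAt (as.mul (cd_co i)).contDiffAt (y := y)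
        have d2 := dAt_of_cdAt (bs.mul (cd_co i)).contDiffAt (y := y)
        rw [← pd_co i y, ← pd_sub d0 d1, ← pd_sub (d0.fun_sub d1) d2]
        simp only [e2, sub_mul, one_mul]
      simp [dvX, h]
    have h2 : -∑ i, pd i (fun x => a x * x i) y ≤ if ‖y‖ < lam then 0 else 4 * (1 + 2 * C) := by
      split_ifs with h
      · simp [dv0 as a0 (a2 y h)]
      · exact (neg_le_abs _).trans (dv as a1 aK y)
    have h3 : -∑ i, pd i (fun x => b x * x i) y ≤
        if y ∈ nb r (2 * t) then r * (1 + 8 * M) / t else 0 := by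
      split_ifs with h
      · exact (neg_le_abs _).trans ((dv bs b1' bK y).trans hK)
      · simp [dv0 bs b0' (b2 y h)]
    linarith
  · have h1 : (∑ i, (cut r t lam x * x i - cut r t lam y * y i) * (x i - y i)) - ‖x - y‖ ^ 2 =
        -(∑ i, (a x * x i - a y * y i) * (x i - y i) +
          ∑ i, (b x * x i - b y * y i) * (x i - y i)) := by
      rw [EuclideanSpace.real_norm_sq_eq, ← Finset.sum_sub_distrib, ← Finset.sum_add_distrib,
        ← Finset.sum_neg_distrib]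
      refine Finset.sum_congr rfl fun i _ => ?_
      rw [e2, e2, PiLp.sub_apply]
      ring
    rw [h1, abs_neg, mul_add]
    refine (abs_add_le _ _).trans (add_le_add ?_ ?_)
    · split_ifs with h
      · simp [a2 x h.1, a2 y h.2]
      · exact lip as a1 aK x y
    · split_ifs with h
      · exact (lip bs b1' bK x y).trans (mul_le_mul_of_nonneg_left hK (sq_nonneg _))
      · simp [b2 x fun c => h (.inl c), b2 y fun c => h (.inr c)]

theorem cutStmt' (_h : ChiFacts) (N : NbFacts) : CutStmt := cutStmt N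

end Pool.Agent.MP_417fa2_gt.Q2
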