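import Pool.Agent.MP_417fa2_gt.Q2.SSpec

/-! S7. The Green function of the average over a disc. -/

open scoped ContDiff ComplexConjugate ENNReal Topology
open MeasureTheory Set Metric Real

namespace Pool.Agent.MP_417fa2_gt.Q2

namespace S7

/-- The unit vector of angle `t`. -/
noncomputable def ee (t : ℝ) : ℂ := Real.cos t + Real.sin t * Complex.I

theorem norm_ee (t : ℝ) : ‖ee t‖ = 1 := by
  simp [ee]

theorem continuous_ee : Continuous ee := by
  unfold ee
  fun_prop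

theorem hasDerivAt_ee (t : ℝ) : HasDerivAt ee (Complex.I * ee t) t := by
  have h := ((Real.hasDerivAt_cos t).ofReal_comp).add
    (((Real.hasDerivAt_sin t).ofReal_comp).mul_const Complex.I)
  refine h.congr_deriv ?_
  simp only [ee, Complex.ofReal_neg]
  linear_combination (-(Real.sin t : ℂ)) * Complex.I_mul_I

theorem ee_pi : ee π = ee (-π) := by simp [ee]

theorem norm_mul_ee {r : ℝ} (hr : 0 ≤ r) (t : ℝ) : ‖(r : ℂ) * ee t‖ = r := by
  rw [norm_mul, norm_ee, mul_one, Complex.norm_real, Real.norm_of_nonneg hr]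

/-- Polar coordinates on a disc. -/
theorem polar (ϱ : ℝ) (f : ℂ → ℝ) :
    ∫ η in ball (0 : ℂ) ϱ, f η = ∫ p in Ioo 0 ϱ ×ˢ Ioo (-π) π, p.1 * f (p.1 * ee p.2) := by
  rw [← integral_indicator measurableSet_ball, ← Complex.integral_comp_polarCoord_symm]
  have hs : Ioo 0 ϱ ×ˢ Ioo (-π) π = polarCoord.target ∩ {p : ℝ × ℝ | p.1 < ϱ} := by
    ext p
    simp only [polarCoord_target, mem_prod, mem_Ioo, mem_inter_iff, mem_Ioi, mem_ofPred_eq]
    tauto
  have hm : MeasurableSet {p : ℝ × ℝ | p.1 < ϱ} := measurableSet_lt measurable_fst measurable_const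
  rw [hs, ← setIntegral_indicator hm]
  refine setIntegral_congr_fun polarCoord.open_target.measurableSet fun p hp => ?_
  have h0 : 0 < p.1 := hp.1
  have h1 : Complex.polarCoord.symm p = p.1 * ee p.2 := Complex.polarCoord_symm_apply p
  simp only [h1, smul_eq_mul]
  by_cases h : p.1 < ϱ
  · rw [indicator_of_mem (by rw [mem_ball_zero_iff, norm_mul_ee h0.le]; exact h),
      indicator_of_mem (by exact h)]
  · rw [indicator_of_notMem (by rw [mem_ball_zero_iff, norm_mul_ee h0.le]; exact h),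
      indicator_of_notMem (by exact h), mul_zero]

theorem restrict_dA {ϱ : ℝ} (h : ϱ < 1) : dA.restrict (ball 0 ϱ) =
    (volume.restrict (ball (0 : ℂ) ϱ)).withDensity
      fun z => ENNReal.ofReal (1 / (1 - ‖z‖ ^ 2) ^ 2) := by
  rw [dA, restrict_withDensity measurableSet_ball, Measure.restrict_restrict measurableSet_ball,
    inter_eq_left.2 (ball_subset_ball h.le)]

theorem meas_dens : Measurable fun z : ℂ => ENNReal.ofReal (1 / (1 - ‖z‖ ^ 2) ^ 2) := by
  fun_prop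

theorem integral_dA {ϱ : ℝ} (h : ϱ < 1) (f : ℂ → ℝ) :
    ∫ η in ball (0 : ℂ) ϱ, f η ∂dA = ∫ η in ball (0 : ℂ) ϱ, 1 / (1 - ‖η‖ ^ 2) ^ 2 * f η := by
  rw [restrict_dA h, integral_withDensity_eq_integral_toReal_smul meas_dens (by simp)]
  refine integral_congr_ae (.of_forall fun η => ?_)
  simp only [smul_eq_mul]
  rw [ENNReal.toReal_ofReal (by positivity)]

theorem polar_dA {ϱ : ℝ} (h : ϱ < 1) (f : ℂ → ℝ) :
    ∫ η in ball (0 : ℂ) ϱ, f η ∂dA =
      ∫ p in Ioo 0 ϱ ×ˢ Ioo (-π) π, p.1 / (1 - p.1 ^ 2) ^ 2 * f (p.1 * ee p.2) := by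
  rw [integral_dA h, polar]
  refine setIntegral_congr_fun (measurableSet_Ioo.prod measurableSet_Ioo) fun p hp => ?_
  simp only [norm_mul_ee hp.1.1.le]
  ring

theorem intOn_prod {ϱ : ℝ} {w : ℝ → ℝ} (hw : IntegrableOn w (Ioo 0 ϱ)) {K : ℝ × ℝ → ℝ}
    (hK : ContinuousOn K (Icc 0 ϱ ×ˢ Icc (-π) π)) :
    IntegrableOn (fun p : ℝ × ℝ => w p.1 * K p) (Ioo 0 ϱ ×ˢ Ioo (-π) π) := by
  have h1 : IntegrableOn (fun p : ℝ × ℝ => w p.1) (Ioo 0 ϱ ×ˢ Ioo (-π) π) := by
    rw [IntegrableOn, Measure.volume_eq_prod, ← Measure.prod_restrict]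
    exact Integrable.comp_fst hw _
  exact h1.mul_continuousOn_of_subset hK (measurableSet_Ioo.prod measurableSet_Ioo)
    (isCompact_Icc.prod isCompact_Icc) (prod_mono Ioo_subset_Icc_self Ioo_subset_Icc_self)

/-- Radial integrals. -/
theorem radial_dA {ϱ : ℝ} (h : ϱ < 1) (w : ℝ → ℝ) :
    ∫ η in ball (0 : ℂ) ϱ, w ‖η‖ ∂dA = 2 * π * ∫ r in Ioo 0 ϱ, r / (1 - r ^ 2) ^ 2 * w r := by
  rw [polar_dA h]
  have h1 : ∫ p in Ioo 0 ϱ ×ˢ Ioo (-π) π, p.1 / (1 - p.1 ^ 2) ^ 2 * w ‖(p.1 : ℂ) * ee p.2‖ =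
      ∫ p in Ioo 0 ϱ ×ˢ Ioo (-π) π, (p.1 / (1 - p.1 ^ 2) ^ 2 * w p.1) * (fun _ => (1 : ℝ)) p.2 := by
    refine setIntegral_congr_fun (measurableSet_Ioo.prod measurableSet_Ioo) fun p hp => ?_
    simp only [norm_mul_ee hp.1.1.le, mul_one]
  rw [h1, Measure.volume_eq_prod,
    setIntegral_prod_mul (fun r : ℝ => r / (1 - r ^ 2) ^ 2 * w r) (fun _ : ℝ => (1 : ℝ))]
  have hp := pi_pos
  simp only [integral_const, MeasurableSet.univ, measureReal_restrict_apply, univ_inter,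
    Real.volume_real_Ioo, smul_eq_mul, mul_one]
  rw [max_eq_left (by linarith)]
  ring

/-- The Green function. -/
noncomputable def G0 (ϱ s : ℝ) : ℝ :=
  sig ϱ / 2 * (log ϱ - log s) + 1 / 4 * (log (1 - ϱ ^ 2) - log (1 - s ^ 2))

theorem one_sub_pos {ϱ r : ℝ} (h : ϱ < 1) (hr : r ∈ Icc 0 ϱ) : 0 < 1 - r ^ 2 := by
  nlinarith [hr.1, hr.2]

theorem G0_nonneg {ϱ s : ℝ} (h : ϱ < 1) (hs : s ∈ Ioo 0 ϱ) : 0 ≤ G0 ϱ s := by
  have h0 : 0 < ϱ := hs.1.trans hs.2
  have h1 := one_sub_pos h (right_mem_Icc.2 h0.le)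
  have h2 := one_sub_pos h (Ioo_subset_Icc_self hs)
  have h3 := log_le_sub_one_of_pos (div_pos h2 h1)
  have h4 := log_le_sub_one_of_pos (div_pos (pow_pos hs.1 2) (pow_pos h0 2))
  rw [log_div h2.ne' h1.ne'] at h3
  rw [log_div (pow_pos hs.1 2).ne' (pow_pos h0 2).ne', log_pow, log_pow] at h4
  have h5 : (1 - s ^ 2) / (1 - ϱ ^ 2) - 1 = sig ϱ * (1 - s ^ 2 / ϱ ^ 2) := by
    unfold sig
    field_simp
    ring
  have h6 : 0 ≤ sig ϱ := div_nonneg (sq_nonneg _) h1.le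
  have h7 := mul_le_mul_of_nonneg_left h4 h6
  unfold G0
  push_cast at h7
  nlinarith

theorem hasDerivAt_sig {r : ℝ} (h : 0 < 1 - r ^ 2) :
    HasDerivAt sig (2 * (r / (1 - r ^ 2) ^ 2)) r := by
  have h1 := (hasDerivAt_pow 2 r).div ((hasDerivAt_pow 2 r).const_sub 1) h.ne'
  refine h1.congr_deriv ?_
  have := h.ne'
  simp only [Nat.cast_ofNat, Nat.add_one_sub_one, pow_one]
  field_simp
  ring

theorem hasDerivAt_lg {r : ℝ} (h : 0 < 1 - r ^ 2) :
    HasDerivAt (fun r : ℝ => log (1 - r ^ 2)) (-(2 * r) / (1 - r ^ 2)) r := by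
  simpa using ((hasDerivAt_pow 2 r).const_sub 1).log h.ne'

theorem contOn_lg {ϱ : ℝ} (h : ϱ < 1) : ContinuousOn (fun r : ℝ => log (1 - r ^ 2)) (Icc 0 ϱ) :=
  fun _ hr => (hasDerivAt_lg (one_sub_pos h hr)).continuousAt.continuousWithinAt

theorem contOn_sig {ϱ : ℝ} (h : ϱ < 1) : ContinuousOn sig (Icc 0 ϱ) :=
  fun _ hr => (hasDerivAt_sig (one_sub_pos h hr)).continuousAt.continuousWithinAt

theorem contOn_den {ϱ : ℝ} (h : ϱ < 1) :
    ContinuousOn (fun r : ℝ => r / (1 - r ^ 2) ^ 2) (Icc 0 ϱ) :=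
  ContinuousOn.div (by fun_prop) (by fun_prop) fun _ hr => pow_ne_zero 2 (one_sub_pos h hr).ne'

theorem intOn_of_cont {ϱ : ℝ} {w : ℝ → ℝ} (hw : ContinuousOn w (Icc 0 ϱ)) :
    IntegrableOn w (Ioo 0 ϱ) :=
  (hw.integrableOn_compact isCompact_Icc).mono_set Ioo_subset_Icc_self

theorem intOn_G0 {ϱ : ℝ} (h0 : 0 < ϱ) (h : ϱ < 1) : IntegrableOn (G0 ϱ) (Ioo 0 ϱ) := by
  have h1 : IntegrableOn log (Ioo 0 ϱ) :=
    (intervalIntegrable_iff_integrableOn_Ioo_of_le h0.le).1 intervalIntegral.intervalIntegrable_log'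
  have h2 : IntegrableOn (fun _ : ℝ => log ϱ) (Ioo 0 ϱ) := intOn_of_cont continuousOn_const
  exact ((h2.sub h1).const_mul _).add
    (intOn_of_cont (continuousOn_const.mul (continuousOn_const.sub (contOn_lg h))))

/-- The identity along a ray. -/
theorem ray {ϱ : ℝ} (h0 : 0 < ϱ) (h : ϱ < 1) {φ φ' φ'' : ℝ → ℝ}
    (h1 : ∀ r ∈ Icc 0 ϱ, HasDerivAt φ (φ' r) r) (h2 : ∀ r ∈ Icc 0 ϱ, HasDerivAt φ' (φ'' r) r)
    (h3 : ContinuousOn φ'' (Icc 0 ϱ)) :
    ∫ r in Ioo 0 ϱ, G0 ϱ r * (φ' r + r * φ'' r) =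
      ∫ r in Ioo 0 ϱ, r / (1 - r ^ 2) ^ 2 * (φ r - φ 0) := by
  have c1 : ContinuousOn φ (Icc 0 ϱ) := fun r hr => (h1 r hr).continuousAt.continuousWithinAt
  have c2 : ContinuousOn φ' (Icc 0 ϱ) := fun r hr => (h2 r hr).continuousAt.continuousWithinAt
  have i1 : IntegrableOn (fun r => G0 ϱ r * (φ' r + r * φ'' r)) (Ioo 0 ϱ) :=
    (intOn_G0 h0 h).mul_continuousOn_of_subset (c2.add (continuousOn_id.mul h3)) measurableSet_Ioo
      isCompact_Icc Ioo_subset_Icc_self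
  have i2 : IntegrableOn (fun r => r / (1 - r ^ 2) ^ 2 * (φ r - φ 0)) (Ioo 0 ϱ) :=
    intOn_of_cont ((contOn_den h).mul (c1.sub continuousOn_const))
  rw [← sub_eq_zero, ← integral_sub i1 i2, ← integral_Ioc_eq_integral_Ioo,
    ← intervalIntegral.integral_of_le h0.le]
  have key := intervalIntegral.integral_eq_sub_of_hasDerivAt_of_le
    (f := fun r => (sig ϱ / 2 * (log ϱ * r - r * log r) +
      1 / 4 * (log (1 - ϱ ^ 2) - log (1 - r ^ 2)) * r) * φ' r + (sig ϱ - sig r) / 2 * (φ r - φ 0))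
    (f' := fun r => G0 ϱ r * (φ' r + r * φ'' r) - r / (1 - r ^ 2) ^ 2 * (φ r - φ 0)) h0.le ?_ ?_
    ((intervalIntegrable_iff_integrableOn_Ioo_of_le h0.le).2 (i1.sub i2))
  · rw [key]
    simp only [mul_zero, zero_mul, sub_self, add_zero, zero_div]
    ring
  · have c3 := contOn_lg h
    have c4 := contOn_sig h
    have c5 : ContinuousOn (fun r : ℝ => r * log r) (Icc 0 ϱ) := continuous_mul_log.continuousOn
    fun_prop
  · intro r hr
    have hr' := Ioo_subset_Icc_self hr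
    have hp := one_sub_pos h hr'
    have d := (((((((hasDerivAt_id r).const_mul (log ϱ)).sub (hasDerivAt_mul_log hr.1.ne')).const_mul
      (sig ϱ / 2)).add ((((hasDerivAt_lg hp).const_sub (log (1 - ϱ ^ 2))).const_mul (1 / 4)).mul
      (hasDerivAt_id r))).mul (h2 r hr')).add
      ((((hasDerivAt_sig hp).const_sub (sig ϱ)).div_const 2).mul ((h1 r hr').sub_const (φ 0))))
    refine d.congr_deriv ?_
    simp only [G0, id, Pi.add_apply, Pi.sub_apply, Pi.mul_apply, sig]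
    have := hp.ne'
    field_simp
    ring

theorem int_den {ϱ : ℝ} (h0 : 0 < ϱ) (h : ϱ < 1) :
    ∫ r in Ioo 0 ϱ, r / (1 - r ^ 2) ^ 2 * 1 = sig ϱ / 2 := by
  rw [← integral_Ioc_eq_integral_Ioo, ← intervalIntegral.integral_of_le h0.le]
  have key := intervalIntegral.integral_eq_sub_of_hasDerivAt_of_le (f := fun r => sig r / 2)
    (f' := fun r => r / (1 - r ^ 2) ^ 2 * 1) h0.le ((contOn_sig h).div_const 2)
    (fun r hr => ((hasDerivAt_sig (one_sub_pos h (Ioo_subset_Icc_self hr))).div_const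
      2).congr_deriv (by ring))
    ((intervalIntegrable_iff_integrableOn_Ioo_of_le h0.le).2
      (intOn_of_cont ((contOn_den h).mul continuousOn_const)))
  rw [key]
  simp [sig]

theorem int_G0 {ϱ : ℝ} (h0 : 0 < ϱ) (h : ϱ < 1) :
    ∫ r in Ioo 0 ϱ, r / (1 - r ^ 2) ^ 2 * G0 ϱ r ≤ sig ϱ ^ 2 / 16 := by
  have k1 := ray h0 h (φ := fun r => -(1 / 4) * log (1 - r ^ 2))
    (φ' := fun r => r / (2 * (1 - r ^ 2))) (φ'' := fun r => (1 + r ^ 2) / (2 * (1 - r ^ 2) ^ 2))
    (fun r hr => ((hasDerivAt_lg (one_sub_pos h hr)).const_mul _).congr_deriv (by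
      have := (one_sub_pos h hr).ne'
      field_simp
      ring))
    (fun r hr => ((hasDerivAt_id r).div (((hasDerivAt_pow 2 r).const_sub 1).const_mul 2)
      (mul_pos two_pos (one_sub_pos h hr)).ne').congr_deriv (by
      have := (one_sub_pos h hr).ne'
      simp only [id, Nat.cast_ofNat, Nat.add_one_sub_one, pow_one]
      field_simp
      ring))
    (ContinuousOn.div (by fun_prop) (by fun_prop) fun r hr =>
      (mul_pos two_pos (pow_pos (one_sub_pos h hr) 2)).ne')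
  have k2 : ∫ r in Ioo 0 ϱ, r / (1 - r ^ 2) ^ 2 * G0 ϱ r = ∫ r in Ioo 0 ϱ,
      G0 ϱ r * (r / (2 * (1 - r ^ 2)) + r * ((1 + r ^ 2) / (2 * (1 - r ^ 2) ^ 2))) := by
    refine setIntegral_congr_fun measurableSet_Ioo fun r hr => ?_
    have := (one_sub_pos h (Ioo_subset_Icc_self hr)).ne'
    field_simp
    ring
  have k3 : ∫ r in Ioo 0 ϱ, r / (1 - r ^ 2) ^ 2 * (sig r / 4) = sig ϱ ^ 2 / 16 := by
    rw [← integral_Ioc_eq_integral_Ioo, ← intervalIntegral.integral_of_le h0.le]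
    have key := intervalIntegral.integral_eq_sub_of_hasDerivAt_of_le (f := fun r => sig r ^ 2 / 16)
      (f' := fun r => r / (1 - r ^ 2) ^ 2 * (sig r / 4)) h0.le
      (((contOn_sig h).pow 2).div_const 16)
      (fun r hr => (((hasDerivAt_sig (one_sub_pos h (Ioo_subset_Icc_self hr))).pow 2).div_const
        16).congr_deriv (by simp only [Nat.cast_ofNat, Nat.add_one_sub_one, pow_one]; ring))
      ((intervalIntegrable_iff_integrableOn_Ioo_of_le h0.le).2
        (intOn_of_cont ((contOn_den h).mul ((contOn_sig h).div_const 4))))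
    rw [key]
    simp [sig]
  rw [k2, k1, ← k3]
  refine setIntegral_mono_on
    (intOn_of_cont ((contOn_den h).mul ((continuousOn_const.mul (contOn_lg h)).sub
      continuousOn_const)))
    (intOn_of_cont ((contOn_den h).mul ((contOn_sig h).div_const 4))) measurableSet_Ioo
    fun r hr => ?_
  have hp := one_sub_pos h (Ioo_subset_Icc_self hr)
  refine mul_le_mul_of_nonneg_left ?_ (div_nonneg hr.1.le (sq_nonneg _))
  have h3 := log_le_sub_one_of_pos (inv_pos.2 hp)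
  rw [log_inv] at h3
  have h4 : (1 - r ^ 2)⁻¹ - 1 = sig r := by
    unfold sig
    field_simp
    ring
  simp only [ne_eq, OfNat.ofNat_ne_zero, not_false_eq_true, zero_pow, sub_zero, log_one, mul_zero]
  linarith

theorem lap2_eq {F : ℂ → ℝ} {z : ℂ} (hz : DifferentiableAt ℝ (fderiv ℝ F) z) (t : ℝ) :
    lap2 F z = fderiv ℝ (fderiv ℝ F) z (ee t) (ee t) +
      fderiv ℝ (fderiv ℝ F) z (Complex.I * ee t) (Complex.I * ee t) := by
  have h1 : ∀ v : ℂ, dd v (dd v F) z = fderiv ℝ (fderiv ℝ F) z v v := by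
    intro v
    have := (hz.hasFDerivAt.clm_apply (hasFDerivAt_const v z)).fderiv
    unfold dd
    rw [this]
    simp
  have h2 : ee t = Real.cos t • (1 : ℂ) + Real.sin t • Complex.I := by simp [ee]
  have h3 : Complex.I * ee t = (-Real.sin t) • (1 : ℂ) + Real.cos t • Complex.I := by
    simp only [ee, Complex.real_smul, Complex.ofReal_neg]
    linear_combination (Real.sin t : ℂ) * Complex.I_mul_I
  rw [lap2, h1, h1, h3, h2]
  simp only [map_add, map_smul, add_apply, smul_apply,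
    smul_eq_mul]
  have h4 := Real.sin_sq_add_cos_sq t
  linear_combination (-(fderiv ℝ (fderiv ℝ F) z 1 1) -
    fderiv ℝ (fderiv ℝ F) z Complex.I Complex.I) * h4

theorem green {ϱ : ℝ} (h0 : 0 < ϱ) (h : ϱ < 1) {F : ℂ → ℝ} (hF : Sm F) :
    ∫ p in Ioo 0 ϱ ×ˢ Ioo (-π) π, p.1 / (1 - p.1 ^ 2) ^ 2 * (F (p.1 * ee p.2) - F 0) =
      ∫ p in Ioo 0 ϱ ×ˢ Ioo (-π) π, G0 ϱ p.1 * (p.1 * lap2 F (p.1 * ee p.2)) := by
  have hF1 : ContDiffOn ℝ ∞ (fderiv ℝ F) (ball 0 1) := hF.fderiv_of_isOpen isOpen_ball (by simp)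
  have hF2 : ContDiffOn ℝ ∞ (fderiv ℝ (fderiv ℝ F)) (ball 0 1) :=
    hF1.fderiv_of_isOpen isOpen_ball (by simp)
  have hm : ∀ r ∈ Icc 0 ϱ, ∀ t, (r : ℂ) * ee t ∈ ball (0 : ℂ) 1 := fun r hr t => by
    rw [mem_ball_zero_iff, norm_mul_ee hr.1]
    exact hr.2.trans_lt h
  have d0 : ∀ z ∈ ball (0 : ℂ) 1, HasFDerivAt F (fderiv ℝ F z) z := fun z hz =>
    ((hF.contDiffAt (isOpen_ball.mem_nhds hz)).differentiableAt (by simp)).hasFDerivAt
  have d1 : ∀ z ∈ ball (0 : ℂ) 1, HasFDerivAt (fderiv ℝ F) (fderiv ℝ (fderiv ℝ F) z) z :=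
    fun z hz => ((hF1.contDiffAt (isOpen_ball.mem_nhds hz)).differentiableAt (by simp)).hasFDerivAt
  have ce := continuous_ee
  have cm : Continuous fun p : ℝ × ℝ => (p.1 : ℂ) * ee p.2 := by fun_prop
  have c0 : ContinuousOn (fun p : ℝ × ℝ => F (p.1 * ee p.2)) (Icc 0 ϱ ×ˢ Icc (-π) π) :=
    hF.continuousOn.comp cm.continuousOn fun p hp => hm _ hp.1 _
  have c1 : ContinuousOn (fun p : ℝ × ℝ => fderiv ℝ F (p.1 * ee p.2)) (Icc 0 ϱ ×ˢ Icc (-π) π) :=
    hF1.continuousOn.comp cm.continuousOn fun p hp => hm _ hp.1 _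
  have c2 : ContinuousOn (fun p : ℝ × ℝ => fderiv ℝ (fderiv ℝ F) (p.1 * ee p.2))
      (Icc 0 ϱ ×ˢ Icc (-π) π) :=
    hF2.continuousOn.comp cm.continuousOn fun p hp => hm _ hp.1 _
  set a : ℝ × ℝ → ℝ := fun p => fderiv ℝ F (p.1 * ee p.2) (ee p.2) +
    p.1 * fderiv ℝ (fderiv ℝ F) (p.1 * ee p.2) (ee p.2) (ee p.2) with ha
  set b : ℝ × ℝ → ℝ := fun p => p.1 * fderiv ℝ (fderiv ℝ F) (p.1 * ee p.2) (Complex.I * ee p.2)
    (Complex.I * ee p.2) - fderiv ℝ F (p.1 * ee p.2) (ee p.2) with hb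
  have ca : ContinuousOn a (Icc 0 ϱ ×ˢ Icc (-π) π) :=
    (c1.clm_apply (by fun_prop)).add (continuousOn_fst.mul
      ((c2.clm_apply (by fun_prop)).clm_apply (by fun_prop)))
  have cb : ContinuousOn b (Icc 0 ϱ ×ˢ Icc (-π) π) :=
    (continuousOn_fst.mul ((c2.clm_apply (by fun_prop)).clm_apply (by fun_prop))).sub
      (c1.clm_apply (by fun_prop))
  have ia := intOn_prod (intOn_G0 h0 h) ca
  have ib := intOn_prod (intOn_G0 h0 h) cb
  have i0 := intOn_prod (K := fun p => F (p.1 * ee p.2) - F 0) (intOn_of_cont (contOn_den h))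
    (c0.sub continuousOn_const)
  have e1 : ∫ p in Ioo 0 ϱ ×ˢ Ioo (-π) π, G0 ϱ p.1 * (p.1 * lap2 F (p.1 * ee p.2)) =
      ∫ p in Ioo 0 ϱ ×ˢ Ioo (-π) π, (G0 ϱ p.1 * a p + G0 ϱ p.1 * b p) := by
    refine setIntegral_congr_fun (measurableSet_Ioo.prod measurableSet_Ioo) fun p hp => ?_
    simp only [ha, hb]
    rw [lap2_eq (d1 _ (hm _ (Ioo_subset_Icc_self hp.1) _)).differentiableAt p.2]
    ring
  have e2 : ∫ p in Ioo 0 ϱ ×ˢ Ioo (-π) π, G0 ϱ p.1 * b p = 0 := by
    rw [Measure.volume_eq_prod] at ib ⊢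
    rw [setIntegral_prod _ ib]
    refine setIntegral_eq_zero_of_forall_eq_zero fun r hr => ?_
    have hr' := Ioo_subset_Icc_self hr
    have hp : -π ≤ π := by linarith [pi_pos]
    simp only
    rw [integral_const_mul, ← integral_Ioc_eq_integral_Ioo, ← intervalIntegral.integral_of_le hp]
    have key := intervalIntegral.integral_eq_sub_of_hasDerivAt
      (f := fun t => fderiv ℝ F (r * ee t) (Complex.I * ee t)) (f' := fun t => b (r, t))
      (a := -π) (b := π) (fun t _ => ?_) ?_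
    · rw [key, ee_pi, sub_self, mul_zero]
    · have := ((d1 _ (hm r hr' t)).comp_hasDerivAt t
        ((hasDerivAt_ee t).const_mul (r : ℂ))).clm_apply ((hasDerivAt_ee t).const_mul Complex.I)
      refine this.congr_deriv ?_
      have h5 : (r : ℂ) * (Complex.I * ee t) = r • (Complex.I * ee t) := by simp
      have h6 : Complex.I * (Complex.I * ee t) = -ee t := by
        linear_combination ee t * Complex.I_mul_I
      simp only [hb, h5, h6, map_smul, map_neg, smul_apply, smul_eq_mul,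
        Function.comp]
      ring
    · refine ContinuousOn.intervalIntegrable ?_
      rw [uIcc_of_le hp]
      exact cb.comp (f := fun t : ℝ => (r, t)) (by fun_prop) fun t ht => ⟨hr', ht⟩
  rw [e1, integral_add ia ib, e2, add_zero]
  rw [IntegrableOn, Measure.volume_eq_prod, ← Measure.prod_restrict] at ia i0
  rw [Measure.volume_eq_prod, ← Measure.prod_restrict, integral_prod_symm _ ia,
    integral_prod_symm _ i0]
  refine setIntegral_congr_fun measurableSet_Ioo fun t ht => ?_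
  have dr : ∀ r : ℝ, HasDerivAt (fun r : ℝ => (r : ℂ) * ee t) (ee t) r := fun r => by
    simpa using (hasDerivAt_id r).ofReal_comp.mul_const (ee t)
  have key := ray h0 h (φ := fun r => F (r * ee t)) (φ' := fun r => fderiv ℝ F (r * ee t) (ee t))
    (φ'' := fun r => fderiv ℝ (fderiv ℝ F) (r * ee t) (ee t) (ee t))
    (fun r hr => (d0 _ (hm r hr t)).comp_hasDerivAt r (dr r))
    (fun r hr => (((d1 _ (hm r hr t)).comp_hasDerivAt r (dr r)).clm_apply
      (hasDerivAt_const r (ee t))).congr_deriv (by simp))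
    (((c2.comp (f := fun r : ℝ => (r, t)) (by fun_prop)
      fun r hr => ⟨hr, Ioo_subset_Icc_self ht⟩).clm_apply continuousOn_const).clm_apply
      continuousOn_const)
  simp only [Complex.ofReal_zero, zero_mul] at key
  exact key.symm

end S7

open S7 in
theorem greenStmt : GreenStmt := by
  intro ϱ h0 h
  refine ⟨?_, (Ioo 0 ϱ).indicator (G0 ϱ), ?_, ?_, ?_, ?_, ?_⟩
  · have h1 := radial_dA h fun _ => 1
    rw [int_den h0 h] at h1
    simp only [integral_const, MeasurableSet.univ, measureReal_restrict_apply, univ_inter,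
      smul_eq_mul, mul_one] at h1
    rw [h1]
    ring
  · refine Measurable.indicator ?_ measurableSet_Ioo
    unfold G0
    fun_prop
  · exact fun s => indicator_nonneg (fun s hs => G0_nonneg h hs) s
  · rw [IntegrableOn, restrict_dA h, integrable_withDensity_iff meas_dens (by simp)]
    refine (integrableOn_fun_norm_addHaar (μ := (volume : Measure ℂ)) (r := ϱ)
      (f := fun s => (Ioo 0 ϱ).indicator (G0 ϱ) s *
        (ENNReal.ofReal (1 / (1 - s ^ 2) ^ 2)).toReal)).2 ?_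
    refine ((intOn_G0 h0 h).mul_continuousOn_of_subset (contOn_den h) measurableSet_Ioo
      isCompact_Icc Ioo_subset_Icc_self).congr_fun (fun r hr => ?_) measurableSet_Ioo
    simp only [Complex.finrank_real_complex, Nat.add_one_sub_one, pow_one, smul_eq_mul]
    rw [indicator_of_mem hr, ENNReal.toReal_ofReal (by positivity)]
    ring
  · rw [radial_dA h, setIntegral_congr_fun measurableSet_Ioo
      (g := fun r => r / (1 - r ^ 2) ^ 2 * G0 ϱ r) fun r hr => by rw [indicator_of_mem hr]]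
    have h1 := mul_le_mul_of_nonneg_left (int_G0 h0 h) (by positivity : 0 ≤ 2 * π)
    linarith
  · intro F hF
    rw [polar_dA h, polar_dA h, green h0 h hF]
    refine setIntegral_congr_fun (measurableSet_Ioo.prod measurableSet_Ioo) fun p hp => ?_
    have := (one_sub_pos h (Ioo_subset_Icc_self hp.1)).ne'
    simp only [L2, norm_mul_ee hp.1.1.le]
    rw [indicator_of_mem hp.1]
    field_simp

end Pool.Agent.MP_417fa2_gt.Q2
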