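import Pool.Agent.MP_417fa2_gt.Q2.S4W
import Pool.Agent.MP_417fa2_gt.Q2.S7Green

/-! S8. Schur's test for radial kernels, and continuity of disc integrals. -/

open scoped ContDiff ComplexConjugate ENNReal Topology
open MeasureTheory Set Metric Real Filter

namespace Pool.Agent.MP_417fa2_gt.Q2

namespace S8

theorem contOn_mob : ContinuousOn (fun p : ℂ × ℂ => mob p.1 p.2) (ball 0 1 ×ˢ ball 0 1) := by
  refine ContinuousOn.div (by fun_prop) (by fun_prop) fun p hp => ?_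
  have h := pd_den_ne (z := -p.2) (w := p.1) (by simpa using hp.2) (by simpa using hp.1)
  simpa using h

theorem meas_pdist : Measurable fun p : ℂ × ℂ => pdist p.1 p.2 := by
  unfold pdist
  fun_prop

theorem meas_mob : Measurable fun p : ℂ × ℂ => mob p.1 p.2 := by
  unfold mob
  fun_prop

theorem finite_ball {ϱ : ℝ} (h0 : 0 < ϱ) (h : ϱ < 1) :
    IsFiniteMeasure (dA.restrict (ball (0 : ℂ) ϱ)) := by
  refine (integrable_const_iff_isFiniteMeasure (one_ne_zero (α := ℝ))).1 ?_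
  rw [S7.restrict_dA h, integrable_withDensity_iff S7.meas_dens (by simp)]
  have h1 : ContinuousOn (fun z : ℂ => 1 / (1 - ‖z‖ ^ 2) ^ 2) (closedBall 0 ϱ) :=
    ContinuousOn.div (by fun_prop) (by fun_prop) fun z hz => pow_ne_zero 2
      (S7.one_sub_pos h ⟨norm_nonneg z, mem_closedBall_zero_iff.1 hz⟩).ne'
  refine ((h1.integrableOn_compact (isCompact_closedBall 0 ϱ)).mono_set
    ball_subset_closedBall).congr_fun (fun z _ => ?_) measurableSet_ball
  simp only [one_mul]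
  rw [ENNReal.toReal_ofReal (by positivity)]

theorem ct {ϱ : ℝ} (h0 : 0 < ϱ) (h : ϱ < 1) {f : ℂ → ℝ} (hf : Ct f) : Ct (Tb ϱ f) := by
  intro x hx
  obtain ⟨s, hs, hs1⟩ := exists_between (mem_ball_zero_iff.1 hx)
  have hsub : closedBall (0 : ℂ) s ×ˢ closedBall (0 : ℂ) ϱ ⊆ ball 0 1 ×ˢ ball 0 1 :=
    prod_mono (closedBall_subset_ball hs1) (closedBall_subset_ball h)
  have hc : ContinuousOn (fun p : ℂ × ℂ => f (mob p.1 p.2)) (closedBall 0 s ×ˢ closedBall 0 ϱ) :=
    (ContinuousOn.comp hf contOn_mob fun p hp => mem_ball_zero_iff.2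
      (mob_lt (mem_ball_zero_iff.1 hp.1) (mem_ball_zero_iff.1 hp.2))).mono hsub
  obtain ⟨C, hC⟩ := ((isCompact_closedBall (0 : ℂ) s).prod
    (isCompact_closedBall (0 : ℂ) ϱ)).exists_bound_of_continuousOn hc
  have := finite_ball h0 h
  have key : ContinuousOn (Tb ϱ f) (closedBall 0 s) := by
    refine continuousOn_of_dominated (bound := fun _ => C) (fun y hy => ?_) (fun y hy => ?_)
      (integrable_const C) ?_
    · exact ((hc.comp (f := fun η : ℂ => (y, η)) (by fun_prop) fun η hη =>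
        ⟨hy, ball_subset_closedBall hη⟩).aestronglyMeasurable measurableSet_ball)
    · exact (ae_restrict_mem measurableSet_ball).mono fun η hη =>
        hC (y, η) ⟨hy, ball_subset_closedBall hη⟩
    · exact (ae_restrict_mem measurableSet_ball).mono fun η hη =>
        hc.comp (f := fun y : ℂ => (y, η)) (by fun_prop) fun y hy => ⟨hy, ball_subset_closedBall hη⟩
  exact (key.continuousAt (closedBall_mem_nhds_of_mem (mem_ball_zero_iff.2 hs))).continuousWithinAt

instance : SFinite dA := by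
  unfold dA
  infer_instance

theorem lint_mob {k : ℝ → ℝ≥0∞} (hk : Measurable k) {H : ℂ → ℝ≥0∞} (hH : Measurable H) {x : ℂ}
    (hx : ‖x‖ < 1) :
    ∫⁻ η, k ‖η‖ * H (mob x η) ∂dA = ∫⁻ y, k (pdist y x) * H y ∂dA := by
  obtain ⟨τ, hτ⟩ := exists_tl hx
  have m : Measurable fun y => k (pdist y x) * H y :=
    (hk.comp (meas_pdist.comp (measurable_id.prodMk measurable_const))).mul hH
  rw [← lintegral_act τ _ m]
  refine lintegral_congr_ae (ae_dA.mono fun η hη => ?_)
  simp only [hτ, pdist_mob_self hx hη]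

/-- The average of an invariant function against a radial kernel has the expected integral. -/
theorem key {T : ℝ} (L : Lat T) (W : Wt L.Γ) {k : ℝ → ℝ≥0∞} (hk : Measurable k) {H : ℂ → ℝ≥0∞}
    (hH : Measurable H) (hi : ∀ γ ∈ L.Γ, ∀ z : ℂ, ‖z‖ < 1 → H (γ.act z) = H z) :
    ∫⁻ x, ∫⁻ η, k ‖η‖ * H (mob x η) ∂dA ∂W.μ = (∫⁻ η, k ‖η‖ ∂dA) * ∫⁻ z, H z ∂W.μ := by
  have := W.finite
  have := L.countable
  have m1 : Measurable fun p : ℂ × ℂ => k (pdist p.1 p.2) := hk.comp meas_pdist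
  have m2 : ∀ y, Measurable fun x : ℂ => k (pdist y x) := fun y =>
    m1.comp (measurable_const.prodMk measurable_id)
  have mb : Measurable fun y => ∫⁻ x, k (pdist y x) ∂W.μ := m1.lintegral_prod_right'
  have e1 : ∫⁻ x, ∫⁻ η, k ‖η‖ * H (mob x η) ∂dA ∂W.μ =
      ∫⁻ y, (∫⁻ x, k (pdist y x) ∂W.μ) * H y ∂dA := by
    rw [lintegral_congr_ae (W.ae_lt.mono fun x hx => lint_mob hk hH hx), lintegral_lintegral_swap]
    · exact lintegral_congr fun y => lintegral_mul_const _ (m2 y)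
    · exact ((m1.comp measurable_swap).mul (hH.comp measurable_snd)).aemeasurable
  have e2 : ∀ y : ℂ, ‖y‖ < 1 → ∑' γ : L.Γ, ∫⁻ x, k (pdist ((γ : SU).act y) x) ∂W.μ =
      2 * ∫⁻ η, k ‖η‖ ∂dA := by
    intro y hy
    have h1 := lint_mob hk (H := fun _ => 1) measurable_const hy
    simp only [mul_one] at h1
    rw [h1, ← lintegral_tsum fun γ => (m2 _).aemeasurable]
    simp only [fun x => pdist_comm x y]
    rw [← unfold_l L W _ (m2 y)]
    refine lintegral_congr_ae (W.ae_lt.mono fun x hx => ?_)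
    simp only
    rw [← (Equiv.inv L.Γ).tsum_eq]
    refine tsum_congr fun γ => ?_
    rw [Equiv.inv_apply, ← pdist_act (γ : SU) (SU.act_lt _ hy) hx, Subgroup.coe_inv,
      SU.act_inv_act _ hy]
  rw [e1, ← ENNReal.mul_right_inj (a := 2) (by simp) (by simp), ← unfold_l L W _ (mb.fun_mul hH),
    ← mul_assoc, ← lintegral_const_mul _ hH]
  refine lintegral_congr_ae (W.ae_lt.mono fun y hy => ?_)
  simp only
  rw [← e2 y hy, ← ENNReal.tsum_mul_right]
  exact tsum_congr fun γ => by rw [hi _ γ.2 y hy]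

theorem opt {I c A B : ℝ} (hc : 0 ≤ c) (hA : 0 ≤ A) (hB : 0 ≤ B)
    (h : ∀ t, 0 < t → I ≤ c * (t / 2 * A + 1 / (2 * t) * B)) : I ≤ c * √A * √B := by
  have h1 : Tendsto (fun e : ℝ => c * ((√A + e) * (√B + e))) (𝓝[>] 0)
      (𝓝 (c * ((√A + 0) * (√B + 0)))) :=
    tendsto_nhdsWithin_of_tendsto_nhds (Continuous.tendsto (by fun_prop) 0)
  rw [add_zero, add_zero, ← mul_assoc] at h1
  refine ge_of_tendsto h1 (eventually_mem_nhdsWithin.mono fun e he => ?_)
  have he : 0 < e := he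
  have a0 := sqrt_nonneg A
  have b0 := sqrt_nonneg B
  have a1 := mul_self_sqrt hA
  have b1 := mul_self_sqrt hB
  have a2 : 0 < √A + e := by linarith
  have b2 : 0 < √B + e := by linarith
  refine (h _ (div_pos b2 a2)).trans (mul_le_mul_of_nonneg_left ?_ hc)
  have k1 : (√B + e) / (√A + e) / 2 * A ≤ (√A + e) * (√B + e) / 2 := by
    rw [div_div, div_mul_eq_mul_div, div_le_div_iff₀ (by positivity) two_pos]
    have : A ≤ (√A + e) * (√A + e) := by nlinarith
    nlinarith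
  have k2 : 1 / (2 * ((√B + e) / (√A + e))) * B ≤ (√A + e) * (√B + e) / 2 := by
    have : 1 / (2 * ((√B + e) / (√A + e))) * B = (√A + e) * B / ((√B + e) * 2) := by field_simp
    rw [this, div_le_div_iff₀ (by positivity) two_pos]
    have : B ≤ (√B + e) * (√B + e) := by nlinarith
    nlinarith
  linarith

theorem schur {T : ℝ} (L : Lat T) (W : Wt L.Γ) {ϱ : ℝ} {G : ℝ → ℝ} (hG : Measurable G)
    (hG0 : ∀ s, 0 ≤ G s) (hGi : IntegrableOn (fun η : ℂ => G ‖η‖) (ball 0 ϱ) dA) {f g : ℂ → ℝ}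
    (hf : Ct f) (hg : Ct g) (ig : Invt L.Γ fun z => g z ^ 2) :
    |∫ x, f x * ∫ η in ball (0 : ℂ) ϱ, G ‖η‖ * g (mob x η) ∂dA ∂W.μ| ≤
      (∫ η in ball (0 : ℂ) ϱ, G ‖η‖ ∂dA) * √(∫ z, f z ^ 2 ∂W.μ) * √(∫ z, g z ^ 2 ∂W.μ) := by
  have c0 : 0 ≤ ∫ η in ball (0 : ℂ) ϱ, G ‖η‖ ∂dA := integral_nonneg fun _ => hG0 _
  have A0 : 0 ≤ ∫ z, f z ^ 2 ∂W.μ := integral_nonneg fun _ => sq_nonneg _
  have B0 : 0 ≤ ∫ z, g z ^ 2 ∂W.μ := integral_nonneg fun _ => sq_nonneg _
  refine opt c0 A0 B0 fun t ht => ?_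
  set k : ℝ → ℝ≥0∞ := (Iio ϱ).indicator fun s => ENNReal.ofReal (G s) with hk
  have mk : Measurable k := hG.ennreal_ofReal.indicator measurableSet_Iio
  have ek : ∀ F : ℂ → ℝ≥0∞, ∫⁻ η, k ‖η‖ * F η ∂dA =
      ∫⁻ η in ball (0 : ℂ) ϱ, ENNReal.ofReal (G ‖η‖) * F η ∂dA := fun F => by
    rw [← lintegral_indicator measurableSet_ball]
    refine lintegral_congr fun η => ?_
    by_cases h : ‖η‖ < ϱ
    · rw [hk, indicator_of_mem (by exact h), indicator_of_mem (mem_ball_zero_iff.2 h)]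
    · rw [hk, indicator_of_notMem (by exact h), indicator_of_notMem (mt mem_ball_zero_iff.1 h),
        zero_mul]
  have ec : ∫⁻ η, k ‖η‖ ∂dA = ENNReal.ofReal (∫ η in ball (0 : ℂ) ϱ, G ‖η‖ ∂dA) := by
    have := ek fun _ => 1
    simp only [mul_one] at this
    rw [this, ofReal_integral_eq_lintegral_ofReal hGi (ae_of_all _ fun _ => hG0 _)]
  have sq : ∀ (a : ℝ) (u : ℂ → ℝ), 0 ≤ a → Ct u →
      ∫⁻ z, ENNReal.ofReal (a * (ball 0 1).indicator u z ^ 2) ∂W.μ =
        ENNReal.ofReal (a * ∫ z, u z ^ 2 ∂W.μ) := fun a u ha hu => by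
    have hu2 : Ct fun z => u z ^ 2 := ContinuousOn.pow hu 2
    rw [← integral_const_mul, ofReal_integral_eq_lintegral_ofReal ((W.integrable hu2).const_mul a)
      (ae_of_all _ fun _ => mul_nonneg ha (sq_nonneg _))]
    refine lintegral_congr_ae (W.ae_lt.mono fun z hz => ?_)
    simp only [indicator_of_mem (mem_ball_zero_iff.2 hz)]
  have mF : Measurable fun z => ENNReal.ofReal (t / 2 * (ball 0 1).indicator f z ^ 2) :=
    ((hf.meas.pow_const 2).const_mul _).ennreal_ofReal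
  have mH : Measurable fun z => ENNReal.ofReal (1 / (2 * t) * (ball 0 1).indicator g z ^ 2) :=
    ((hg.meas.pow_const 2).const_mul _).ennreal_ofReal
  have kH := key L W mk mH fun γ hγ z hz => by
    rw [indicator_of_mem (mem_ball_zero_iff.2 hz),
      indicator_of_mem (mem_ball_zero_iff.2 (γ.act_lt hz))]
    exact congrArg (fun s => ENNReal.ofReal (1 / (2 * t) * s)) (ig γ hγ z hz)
  rw [← ENNReal.ofReal_le_ofReal_iff (by positivity), ← Real.enorm_eq_ofReal_abs, mul_add,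
    ENNReal.ofReal_add (by positivity) (by positivity), ENNReal.ofReal_mul c0,
    ENNReal.ofReal_mul c0, ← sq _ f (by positivity) hf, ← sq _ g (by positivity) hg, ← ec, ← kH,
    ← lintegral_const_mul _ mF, ← lintegral_add_left (mF.const_mul _)]
  refine (enorm_integral_le_lintegral_enorm _).trans (lintegral_mono_ae (W.ae_lt.mono fun x hx => ?_))
  rw [← lintegral_mul_const _ (mk.fun_comp measurable_norm),
    ← lintegral_add_left ((mk.fun_comp measurable_norm).mul_const _), ← integral_const_mul]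
  simp only [← mul_add]
  rw [ek]
  refine (enorm_integral_le_lintegral_enorm _).trans
    (lintegral_mono_ae ((ae_restrict_of_ae ae_dA).mono fun η hη => ?_))
  rw [indicator_of_mem (mem_ball_zero_iff.2 hx), indicator_of_mem (mem_ball_zero_iff.2 (mob_lt hx hη)),
    ← ENNReal.ofReal_add (by positivity) (by positivity), ← ENNReal.ofReal_mul (hG0 _),
    Real.enorm_eq_ofReal_abs]
  refine ENNReal.ofReal_le_ofReal ?_
  rw [mul_left_comm, abs_mul, abs_of_nonneg (hG0 _), abs_mul]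
  refine mul_le_mul_of_nonneg_left ?_ (hG0 _)
  rw [← sq_abs (f x), ← sq_abs (g _)]
  have h1 : t / 2 * |f x| ^ 2 + 1 / (2 * t) * |g (mob x η)| ^ 2 - |f x| * |g (mob x η)| =
      (t * |f x| - |g (mob x η)|) ^ 2 / (2 * t) := by
    field_simp
    ring
  have h2 : 0 ≤ (t * |f x| - |g (mob x η)|) ^ 2 / (2 * t) := by positivity
  linarith

end S8

theorem schurFacts : SchurFacts :=
  ⟨fun _ h0 h _ hf => S8.ct h0 h hf,
    fun _ L W _ _ _ _ hG hG0 hGi _ _ hf hg _ ig => S8.schur L W hG hG0 hGi hf hg ig⟩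

end Pool.Agent.MP_417fa2_gt.Q2
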