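import Pool.Agent.MP_417fa2_gt.Q2.ESpec
import Pool.Agent.MP_417fa2_gt.Q2.S8Schur

/-! P3, P6. The limit of the left side of the Pohozaev identity, and the commutator. -/

open scoped ContDiff Topology
open MeasureTheory Set Metric Real Filter

namespace Pool.Agent.MP_417fa2_gt.Q2

open DE (lp)

namespace P3

variable {f g : E4 → ℝ}

theorem cd_lp (H : ContDiff ℝ ∞ g) : ContDiff ℝ ∞ (lp g) :=
  ContDiff.sum fun a _ => cd_pd (cd_pd H a) a

theorem ibp (F : Tst f) (H : ContDiff ℝ ∞ g) (i : Fin 4) :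
    ∫ y, f y * pd i g y = -∫ y, pd i f y * g y :=
  integral_mul_fderiv_eq_neg_fderiv_mul_of_integrable ((F.pd i).mul_right H).integrable
    (F.mul_right (cd_pd H i)).integrable (F.mul_right H).integrable (fun y _ => F.dAt y)
    fun _ _ => dAt_of_cdAt H.contDiffAt

theorem ibp_lp (F : Tst f) (H : ContDiff ℝ ∞ g) : ∫ y, f y * lp g y = ∫ y, lp f y * g y := by
  unfold DE.lp
  simp only [Finset.mul_sum, Finset.sum_mul]
  rw [integral_finsetSum _ fun a _ => (F.mul_right (cd_pd (cd_pd H a) a)).integrable,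
    integral_finsetSum _ fun a _ => (((F.pd a).pd a).mul_right H).integrable]
  refine Finset.sum_congr rfl fun a _ => ?_
  rw [ibp F (cd_pd H a), ibp (F.pd a) H, neg_neg]

theorem lp_mul (F : ContDiff ℝ ∞ f) (H : ContDiff ℝ ∞ g) (y : E4) :
    lp (fun z => f z * g z) y =
      f y * lp g y + 2 * ∑ i, pd i f y * pd i g y + lp f y * g y := by
  have d : ∀ {u : E4 → ℝ}, ContDiff ℝ ∞ u → ∀ z, DifferentiableAt ℝ u z :=
    fun h _ => dAt_of_cdAt h.contDiffAt
  unfold DE.lp
  simp only [Finset.mul_sum, Finset.sum_mul, ← Finset.sum_add_distrib]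
  refine Finset.sum_congr rfl fun a _ => ?_
  have h1 : pd a (fun z => f z * g z) = fun z => pd a f z * g z + f z * pd a g z :=
    funext fun z => pd_mul (d F z) (d H z) a
  rw [h1, pd_add (d ((cd_pd F a).mul H) y) (d (F.mul (cd_pd H a)) y),
    pd_mul (d (cd_pd F a) y) (d H y), pd_mul (d F y) (d (cd_pd H a) y)]
  ring

theorem lp_conv (h : ParStmt) {k σ : E4 → ℝ} (hk : ContDiff ℝ ∞ k) (hσ : Tst σ) :
    lp (fun y => ∫ x, k (y - x) * σ x) = fun y => ∫ x, lp k (y - x) * σ x := by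
  funext y
  unfold DE.lp
  simp only [Finset.sum_mul]
  rw [integral_finsetSum _ fun a _ => (hσ.mul_left (f := fun x => pd a (pd a k) (y - x))
    ((cd_pd (cd_pd hk a) a).comp (contDiff_const.sub contDiff_id))).integrable]
  refine Finset.sum_congr rfl fun a _ => ?_
  rw [funext ((h k σ hk hσ.continuous hσ.cs).2 a), (h _ σ (cd_pd hk a) hσ.continuous hσ.cs).2 a]

/-- The left side for a fixed parameter. -/
theorem step (hG : GamFacts) (hP : ParStmt) {V σ : E4 → ℝ} (hV : Tst V) (hσ : Tst σ) {ε : ℝ}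
    (hε : 0 < ε) (i : Fin 4) :
    ∫ y, lp (lp V) y * ∫ x, pd i (gam ε) (y - x) * σ x =
      -∫ y, pd i V y * ∫ x, kk ε (x - y) * σ x := by
  have g1 := hG.sm ε hε
  have p1 := hP _ σ g1 hσ.continuous hσ.cs
  have e1 : ∀ y, pd i (lp (lp V)) y = lp (lp (pd i V)) y := fun y => by
    rw [DE.pd_lp (DE.tst_lp hV), funext (DE.pd_lp hV i)]
  simp only [← p1.2 i]
  rw [ibp (DE.tst_lp (DE.tst_lp hV)) p1.1, neg_inj]
  simp only [e1]
  rw [← ibp_lp (DE.tst_lp (hV.pd i)) p1.1, ← ibp_lp (hV.pd i) (cd_lp p1.1), lp_conv hP g1 hσ,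
    lp_conv hP (cd_lp g1) hσ]
  refine integral_congr_ae (.of_forall fun y => ?_)
  simp only
  congr 1
  refine integral_congr_ae (.of_forall fun x => ?_)
  simp only
  rw [hG.lap2 ε _ (by positivity), kk, kk, norm_sub_rev]

theorem lim (hG : GamFacts) (hP : ParStmt) (hK : KkFacts) {W σ : E4 → ℝ} (hW : Tst W)
    (hσ : Tst σ) : Tendsto (fun ε => ∫ y, W y * ∫ x, kk ε (x - y) * σ x) (𝓝[>] 0)
      (𝓝 (∫ y, W y * σ y)) := by
  refine Metric.tendsto_nhds.2 fun β hβ => ?_
  have h0 : 0 ≤ ∫ y, |W y| := integral_nonneg fun _ => abs_nonneg _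
  have h1 : 0 < β / (2 * ((∫ y, |W y|) + 1)) := by positivity
  filter_upwards [hK.lim σ hσ _ h1, self_mem_nhdsWithin] with ε h hε
  have hε : 0 < ε := hε
  have g2 := cd_lp (cd_lp (hG.sm ε hε))
  have e : (fun y => ∫ x, kk ε (x - y) * σ x) = fun y => ∫ x, lp (lp (gam ε)) (y - x) * σ x := by
    funext y
    refine integral_congr_ae (.of_forall fun x => ?_)
    simp only
    rw [hG.lap2 ε _ (by positivity), kk, kk, norm_sub_rev]
  have sm : ContDiff ℝ ∞ fun y => ∫ x, kk ε (x - y) * σ x := e ▸ (hP _ σ g2 hσ.continuous hσ.cs).1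
  rw [Real.dist_eq, ← integral_sub (hW.mul_right sm).integrable (hW.integrable_mul hσ)]
  refine (abs_integral_le_integral_abs.trans (integral_mono
    ((hW.mul_right sm).integrable.sub (hW.integrable_mul hσ)).abs
    (hW.integrable.abs.mul_const (β / (2 * ((∫ y, |W y|) + 1)))) fun y => ?_)).trans_lt ?_
  · simp only [Pi.sub_apply, ← mul_sub, abs_mul]
    exact mul_le_mul_of_nonneg_left (h y) (abs_nonneg _)
  · rw [integral_mul_const, ← mul_div_assoc, div_lt_iff₀ (by positivity)]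
    nlinarith

theorem cd_coord (i : Fin 4) : ContDiff ℝ ∞ fun x : E4 => x i := by fun_prop

end P3

open P3 in
theorem limStmt (hC : ChiFacts) (hN : NbFacts) (hG : GamFacts) (hK : KkFacts) (hP : ParStmt)
    (hX : CutStmt) : LimStmt := by
  intro R r t lam U ρ hr ht htr hl hR hU hρ ⟨A, hA⟩
  obtain ⟨C₀, -, hX⟩ := hX
  obtain ⟨C₁, -, hX⟩ := hX r hr
  obtain ⟨tc, -, -, c0, -⟩ := hX t lam ht htr hl
  have hR0 : 0 < R / 4 := by linarith
  have hV : Tst fun z => chi (R / 4) z * U z := hU.mul_left (hC.tst _ hR0).sm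
  set V : E4 → ℝ := fun z => chi (R / 4) z * U z with hVd
  have tX : ∀ i, Tst fun x => cut r t lam x * x i := fun i => tc.mul_right (cd_coord i)
  have tσ : ∀ i, Tst fun x => cut r t lam x * x i * ρ x := fun i => (tX i).mul_right hρ.sm.sm
  have e1 : ∀ ε, 0 < ε → ∫ y, lp V y * lp (YY r t lam ε ρ) y =
      ∑ i, -∫ y, pd i V y * ∫ x, kk ε (x - y) * (cut r t lam x * x i * ρ x) := by
    intro ε hε
    have e : YY r t lam ε ρ =
        fun y => ∑ i, ∫ x, pd i (gam ε) (y - x) * (cut r t lam x * x i * ρ x) := by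
      funext y
      refine Finset.sum_congr rfl fun i _ => integral_congr_ae (.of_forall fun x => ?_)
      simp only
      ring
    have sm : ∀ i, ContDiff ℝ ∞ fun y => ∫ x, pd i (gam ε) (y - x) * (cut r t lam x * x i * ρ x) :=
      fun i => (hP _ _ (cd_pd (hG.sm ε hε) i) (tσ i).continuous (tσ i).cs).1
    rw [e, ibp_lp (DE.tst_lp hV) (ContDiff.sum fun i _ => sm i)]
    simp only [Finset.mul_sum]
    rw [integral_finsetSum _ fun i _ => ((DE.tst_lp (DE.tst_lp hV)).mul_right (sm i)).integrable]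
    exact Finset.sum_congr rfl fun i _ => step hG hP hV (tσ i) hε i
  have e2 : ∀ i y, pd i V y * (cut r t lam y * y i * ρ y) =
      1 / 4 * (cut r t lam y * y i * pd i ρ y) := by
    intro i y
    by_cases hy : cut r t lam y = 0
    · simp [hy]
    have h1 : ‖y‖ < R / 4 := by
      by_contra h
      exact hy (c0 y (Or.inl (by linarith)))
    have h2 : ∀ j, (t / 2) ^ 2 < ee j r y := fun j => by
      by_contra h
      exact hy (c0 y (Or.inr ⟨j, by nlinarith⟩))
    have n1 : ∀ᶠ z in 𝓝 y, ‖z‖ < R / 4 := (isOpen_lt continuous_norm continuous_const).mem_nhds h1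
    have n2 : ∀ᶠ z in 𝓝 y, ∀ j, (t / 2) ^ 2 < ee j r z := eventually_all.2 fun j =>
      (isOpen_lt continuous_const (hN.ee_sm j r).continuous).mem_nhds (h2 j)
    have k1 : V =ᶠ[𝓝 y] U := n1.mono fun z hz => by rw [hVd]; simp [hC.one _ hR0 z hz.le]
    have k2 : ρ =ᶠ[𝓝 y] fun z => A * exp (4 * U z) := (n1.and n2).mono fun z hz =>
      hA z (by linarith [hz.1]) fun ⟨j, hj⟩ => (hz.2 j).not_gt hj
    have d1 : DifferentiableAt ℝ (fun z => 4 * U z) y := (hU.dAt y).const_mul 4
    rw [pd_congr k1, pd_congr k2, pd_const_mul d1.exp, pd_exp d1, pd_const_mul (hU.dAt y),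
      k2.self_of_nhds]
    ring
  have e3 : 1 / 4 * ∫ y, dvX r t lam y * ρ y =
      ∑ i, -∫ y, pd i V y * (cut r t lam y * y i * ρ y) := by
    simp only [e2, dvX, Finset.sum_mul]
    rw [integral_finsetSum _ fun i _ => ((tX i).pd i).integrable_mul hρ.sm, Finset.mul_sum]
    refine Finset.sum_congr rfl fun i _ => ?_
    rw [integral_const_mul, DE.ibp (tX i) hρ.sm]
    ring
  rw [e3]
  refine (tendsto_finsetSum _ fun i _ => (lim hG hP hK (hV.pd i) (tσ i)).neg).congr' ?_
  filter_upwards [self_mem_nhdsWithin] with ε hε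
  exact (e1 ε hε).symm

open P3 in
theorem commStmt (hC : ChiFacts) : CommStmt := by
  intro R hR
  have hR0 : 0 < R / 4 := by linarith
  have tχ := hC.tst _ hR0
  obtain ⟨B₁, hB₁⟩ := (DE.tst_lp tχ).cs.exists_bound_of_continuous (DE.tst_lp tχ).continuous
  obtain ⟨B₂, hB₂⟩ := hC.bd
  set B := max B₁ (B₂ / (R / 4)) with hB
  have b1 : ∀ y, |lp (chi (R / 4)) y| ≤ B := fun y => (hB₁ y).trans (le_max_left _ _)
  have b2 : ∀ i y, |pd i (chi (R / 4)) y| ≤ B := fun i y =>
    ((hC.pd_le _ i y).trans (hB₂ _ hR0 y).1).trans (le_max_right _ _)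
  have B0 : 0 ≤ B := (abs_nonneg _).trans (b1 0)
  set S : Set E4 := {y | R / 4 ≤ ‖y‖ ∧ ‖y‖ ≤ R / 2} with hS
  have cS : IsCompact S := (isCompact_closedBall (0 : E4) (R / 2)).of_isClosed_subset
    ((isClosed_le continuous_const continuous_norm).inter
      (isClosed_le continuous_norm continuous_const)) fun y hy => mem_closedBall_zero_iff.2 hy.2
  refine ⟨16 * B * √(3 * volume.real S), fun U Y H K hU hY hH hK => ?_⟩
  obtain ⟨y₀, hy₀⟩ := exists_norm_eq E4 hR0.le
  have K0 : 0 ≤ K := (abs_nonneg _).trans (hK y₀ hy₀.ge).1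
  have H0 : 0 ≤ H := (integral_nonneg fun y => by positivity).trans hH
  have i1 := ((DE.tst_lp hU).mul_right (cd_lp (tχ.sm.mul hY))).integrable
  have i2 := ((DE.tst_lp (hU.mul_left tχ.sm)).mul_right (cd_lp hY)).integrable
  have cf : Continuous fun y => U y ^ 2 + D1 U y ^ 2 + lp U y ^ 2 :=
    ((hU.continuous.pow 2).add ((hC.D_cont U hU.sm).1.pow 2)).add ((DE.tst_lp hU).continuous.pow 2)
  have i3 := cf.continuousOn.integrableOn_compact (μ := volume) cS
  have z0 : ∀ y, y ∉ S → lp U y * lp (fun z => chi (R / 4) z * Y z) y -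
      lp (fun z => chi (R / 4) z * U z) y * lp Y y = 0 := by
    intro y hy
    obtain ⟨c, hc⟩ : ∃ c : ℝ, chi (R / 4) =ᶠ[𝓝 y] fun _ => c := by
      rcases not_and_or.1 hy with h | h
      · exact ⟨1, mem_of_superset ((isOpen_lt continuous_norm continuous_const).mem_nhds
          (not_le.1 h)) fun z hz => hC.one _ hR0 z (le_of_lt hz)⟩
      · exact ⟨0, mem_of_superset ((isOpen_lt continuous_const continuous_norm).mem_nhds
          (not_le.1 h)) fun z hz => hC.zero _ hR0 z (by linarith [show R / 2 < ‖z‖ from hz])⟩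
    have h1 : ∀ i, pd i (chi (R / 4)) =ᶠ[𝓝 y] fun _ => 0 := fun i =>
      (pd_eventuallyEq hc i).trans (.of_forall fun z => pd_const i c z)
    have h2 : lp (chi (R / 4)) y = 0 :=
      Finset.sum_eq_zero fun i _ => pd_eq_zero_of_eventually (h1 i) i
    rw [lp_mul tχ.sm hY, lp_mul tχ.sm hU.sm, h2]
    simp only [fun i => (h1 i).self_of_nhds, zero_mul, Finset.sum_const_zero]
    ring
  have key := S8.opt (I := |(∫ y, lp U y * lp (fun z => chi (R / 4) z * Y z) y) -
      ∫ y, lp (fun z => chi (R / 4) z * U z) y * lp Y y|) (c := 16 * B * K)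
    (A := 3 * volume.real S) (B := H) (by positivity) (by positivity) H0 fun s hs => ?_
  · linarith
  rw [← integral_sub i1 i2, ← setIntegral_eq_integral_of_forall_compl_eq_zero z0]
  have i4 : IntegrableOn (fun _ : E4 => s / 2 * 3) S := integrableOn_const cS.measure_lt_top.ne
  refine (abs_integral_le_integral_abs.trans (setIntegral_mono_on (i1.sub i2).abs.integrableOn
    ((i4.add (i3.const_mul (1 / (2 * s)))).const_mul (16 * B * K)) cS.measurableSet
    fun y hy => ?_)).trans ?_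
  · have s1 : ∀ (φ : E4 → ℝ) (L : ℝ), D1 φ y ≤ L →
        |∑ i, pd i (chi (R / 4)) y * pd i φ y| ≤ 4 * (B * L) := fun φ L h => by
      refine (Finset.abs_sum_le_sum_abs _ _).trans ((Finset.sum_le_sum (g := fun _ => B * L)
        fun i _ => ?_).trans (by simp))
      rw [abs_mul]
      exact mul_le_mul (b2 i y) ((hC.pd_le φ i y).trans h) (abs_nonneg _) B0
    obtain ⟨y1, y2, y3⟩ := hK y hy.1
    have y4 : |lp Y y| ≤ 2 * K := (hC.lp_le Y y).trans (by linarith)
    have u0 : 0 ≤ D1 U y := sqrt_nonneg _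
    have a1 : |2 * ∑ i, pd i (chi (R / 4)) y * pd i Y y + lp (chi (R / 4)) y * Y y| ≤
        9 * (B * K) := by
      refine (abs_add_le _ _).trans ?_
      rw [abs_mul, abs_mul, abs_two]
      have := mul_le_mul (b1 y) y1 (abs_nonneg _) B0
      linarith [s1 Y K y2]
    have a2 : |2 * ∑ i, pd i (chi (R / 4)) y * pd i U y + lp (chi (R / 4)) y * U y| ≤
        8 * (B * D1 U y) + B * |U y| := by
      refine (abs_add_le _ _).trans ?_
      rw [abs_mul, abs_mul, abs_two]
      have := mul_le_mul_of_nonneg_right (b1 y) (abs_nonneg (U y))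
      linarith [s1 U _ le_rfl]
    have a3 : ∀ w : ℝ, |w| ≤ s / 2 + 1 / (2 * s) * w ^ 2 := fun w => by
      have h1 : s / 2 + 1 / (2 * s) * |w| ^ 2 - |w| = (s - |w|) ^ 2 / (2 * s) := by
        field_simp
        ring
      have h2 : 0 ≤ (s - |w|) ^ 2 / (2 * s) := by positivity
      rw [← sq_abs w]
      linarith
    have e : lp U y * lp (fun z => chi (R / 4) z * Y z) y -
        lp (fun z => chi (R / 4) z * U z) y * lp Y y =
        lp U y * (2 * ∑ i, pd i (chi (R / 4)) y * pd i Y y + lp (chi (R / 4)) y * Y y) -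
        (2 * ∑ i, pd i (chi (R / 4)) y * pd i U y + lp (chi (R / 4)) y * U y) * lp Y y := by
      rw [lp_mul tχ.sm hY, lp_mul tχ.sm hU.sm]
      ring
    simp only [Pi.sub_apply, Pi.add_apply]
    rw [e]
    refine (abs_sub _ _).trans ?_
    rw [abs_mul, abs_mul]
    have m1 := mul_le_mul_of_nonneg_left a1 (abs_nonneg (lp U y))
    have m2 := mul_le_mul a2 y4 (abs_nonneg _) (by positivity)
    have m3 := a3 (U y)
    have m4 := a3 (D1 U y)
    have m5 := a3 (lp U y)
    rw [abs_of_nonneg u0] at m4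
    have m6 : |U y| + D1 U y + |lp U y| ≤
        s / 2 * 3 + 1 / (2 * s) * (U y ^ 2 + D1 U y ^ 2 + lp U y ^ 2) := by linarith
    have BK : 0 ≤ B * K := by positivity
    have m7 := mul_le_mul_of_nonneg_left m6 (by positivity : 0 ≤ 16 * (B * K))
    have m8 := mul_nonneg BK (abs_nonneg (U y))
    have m9 := mul_nonneg BK (abs_nonneg (lp U y))
    nlinarith
  · simp only [Pi.add_apply]
    rw [integral_const_mul, integral_add i4 (i3.const_mul _), integral_const_mul (1 / (2 * s)),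
      setIntegral_const, smul_eq_mul]
    refine mul_le_mul_of_nonneg_left ?_ (by positivity)
    have := mul_le_mul_of_nonneg_left hH (by positivity : 0 ≤ 1 / (2 * s))
    linarith

end Pool.Agent.MP_417fa2_gt.Q2
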