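import Pool.Agent.MP_417fa2_gt.Q2.ESpec

/-! The symmetrized double integral in the Pohozaev identity. -/

open scoped ContDiff Topology
open MeasureTheory Set Metric Real Filter

namespace Pool.Agent.MP_417fa2_gt.Q2

namespace P4

theorem int_prod {σ : E4 → ℝ} (hσ : Tst σ) {F : E4 × E4 → ℝ} (hF : Continuous F) :
    Integrable (fun p : E4 × E4 => F p * (σ p.1 * σ p.2)) (volume.prod volume) := by
  have hc := hσ.continuous
  refine Continuous.integrable_of_hasCompactSupport (by fun_prop)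
    (HasCompactSupport.intro (hσ.cs.prod hσ.cs) fun p hp => ?_)
  rcases not_and_or.1 hp with h | h <;> simp [image_eq_zero_of_notMem_tsupport h]

theorem lim_one {σ : E4 → ℝ} (hσ : Tst σ) :
    Tendsto (fun ε : ℝ => ∫ p : E4 × E4, ‖p.1 - p.2‖ ^ 2 / (‖p.1 - p.2‖ ^ 2 + ε ^ 2) *
      (σ p.1 * σ p.2) ∂volume.prod volume) (𝓝[>] 0) (𝓝 ((∫ y, σ y) * ∫ y, σ y)) := by
  rw [← integral_prod_mul]
  have hc := hσ.continuous
  have hd : ∀ᵐ p : E4 × E4 ∂volume.prod volume, p.1 ≠ p.2 := by
    have hm : MeasurableSet {p : E4 × E4 | p.1 = p.2} :=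
      (isClosed_eq continuous_fst continuous_snd).measurableSet
    rw [ae_iff]
    simp only [ne_eq, not_not]
    refine (Measure.measure_prod_null hm).2 (Eventually.of_forall fun x => ?_)
    have : Prod.mk x ⁻¹' {p : E4 × E4 | p.1 = p.2} = {x} := by
      ext y
      simp [eq_comm]
    simp [this]
  refine tendsto_integral_filter_of_dominated_convergence (fun p => ‖σ p.1 * σ p.2‖)
    (Eventually.of_forall fun ε => Measurable.aestronglyMeasurable (by fun_prop))
    (Eventually.of_forall fun ε => Eventually.of_forall fun p => ?_)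
    (hσ.integrable.mul_prod hσ.integrable).norm ?_
  · rw [norm_mul]
    refine mul_le_of_le_one_left (norm_nonneg _) ?_
    rw [Real.norm_eq_abs, abs_of_nonneg (by positivity)]
    exact div_le_one_of_le₀ (le_add_of_nonneg_right (sq_nonneg _)) (by positivity)
  · filter_upwards [hd] with p hp
    have h0 : 0 < ‖p.1 - p.2‖ ^ 2 := pow_pos (norm_pos_iff.2 (sub_ne_zero.2 hp)) 2
    have : ContinuousAt (fun ε : ℝ => ‖p.1 - p.2‖ ^ 2 / (‖p.1 - p.2‖ ^ 2 + ε ^ 2) *
        (σ p.1 * σ p.2)) 0 :=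
      (ContinuousAt.div continuousAt_const (by fun_prop) (by positivity)).mul continuousAt_const
    simpa [div_self h0.ne'] using this.tendsto.mono_left nhdsWithin_le_nhds

theorem sym_eq (hG : GamFacts) {r t lam ε : ℝ} (hε : 0 < ε) {ρ χ : E4 → ℝ} (hρ : Tst ρ)
    (hχ : Tst χ) (hc : Tst (cut r t lam)) (h1 : ∀ x, cut r t lam x * χ x = cut r t lam x) :
    16 * π ^ 2 * ∫ y, χ y * YY r t lam ε ρ y * ρ y =
      ∫ p : E4 × E4, (∑ i, (cut r t lam p.1 * p.1 i - cut r t lam p.2 * p.2 i) * (p.1 i - p.2 i)) /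
        (‖p.1 - p.2‖ ^ 2 + ε ^ 2) * (χ p.1 * ρ p.1 * (χ p.2 * ρ p.2)) ∂volume.prod volume := by
  have hσ : Tst fun y => χ y * ρ y := hρ.mul_left hχ.sm
  have c2 := hc.continuous
  set F : E4 × E4 → ℝ := fun p => (∑ i, cut r t lam p.2 * p.2 i * (p.2 i - p.1 i)) /
    (‖p.1 - p.2‖ ^ 2 + ε ^ 2) with hF
  have cF : Continuous F := Continuous.div (by fun_prop) (by fun_prop) fun p => by positivity
  have i1 := int_prod hσ cF
  have i2 := int_prod hσ (cF.comp continuous_swap)
  have e1 : ∀ y, 16 * π ^ 2 * (χ y * YY r t lam ε ρ y * ρ y) =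
      2 * ∫ x, F (y, x) * (χ y * ρ y * (χ x * ρ x)) := by
    intro y
    rw [YY, ← integral_finsetSum, ← integral_const_mul, ← integral_mul_const, ← integral_const_mul,
      ← integral_const_mul]
    · refine integral_congr_ae (Eventually.of_forall fun x => ?_)
      simp only [hG.d1 ε _ (by positivity : 0 < ‖y - x‖ ^ 2 + ε ^ 2), hF,
        Fin.sum_univ_four, PiLp.sub_apply]
      have h2 : ‖y - x‖ ^ 2 + ε ^ 2 ≠ 0 := by positivity
      conv_lhs => rw [← h1 x]
      field_simp
      ring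
    · intro j _
      have c1 : Continuous fun x : E4 => pd j (gam ε) (y - x) :=
        (cd_pd (hG.sm ε hε) j).continuous.comp (by fun_prop)
      exact Continuous.integrable_of_hasCompactSupport
        (((c2.mul (by fun_prop)).mul c1).mul hρ.continuous) hρ.cs.mul_left
  rw [← integral_const_mul]
  simp only [e1]
  rw [integral_const_mul, ← integral_prod _ i1, two_mul]
  nth_rw 1 [← integral_prod_swap]
  rw [← integral_add (by simpa [mul_comm] using i2) i1]
  refine integral_congr_ae (Eventually.of_forall fun p => ?_)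
  simp only [hF, Prod.fst_swap, Prod.snd_swap, Fin.sum_univ_four, norm_sub_rev p.2 p.1]
  ring

end P4

open P4 Classical in
theorem symStmt (hX : ChiFacts) (hG : GamFacts) (hC : CutStmt) : SymStmt := by
  obtain ⟨C₀, C0, hC⟩ := hC
  refine ⟨2 * C₀ + 2, by positivity, fun r hr => ?_⟩
  obtain ⟨C₁, C1, hC⟩ := hC r hr
  refine ⟨2 * C₁, by positivity, fun R t lam ρ ht htr hl hR hρ β hβ => ?_⟩
  obtain ⟨hc, -, -, h0, -, h2⟩ := hC t lam ht htr hl
  have R0 : 0 < R / 4 := by linarith
  have hχ := hX.tst _ R0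
  have hσ : Tst fun y => chi (R / 4) y * ρ y := hρ.sm.mul_left hχ.sm
  have h1 : ∀ x, cut r t lam x * chi (R / 4) x = cut r t lam x := fun x => by
    rcases le_total (2 * lam) ‖x‖ with h | h
    · rw [h0 x (Or.inl h), zero_mul]
    · rw [hX.one _ R0 x (by linarith), mul_one]
  have s0 : ∀ y, 0 ≤ chi (R / 4) y * ρ y := fun y => mul_nonneg (hX.nonneg _ _) (hρ.nonneg y)
  have s1 : ∀ y, chi (R / 4) y * ρ y ≤ ρ y := fun y =>
    mul_le_of_le_one_left (hρ.nonneg y) (hX.le_one _ _)
  have iρ := hρ.sm.integrable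
  have iσ := hσ.integrable
  have mN : MeasurableSet (nb r (2 * t)) := by
    rw [nb, ofPred_exists]
    refine MeasurableSet.iUnion fun i => (isOpen_lt ?_ continuous_const).measurableSet
    unfold ee zsq wsq
    split_ifs <;> fun_prop
  set m := ∫ y in ball (0 : E4) lam, ρ y with hm
  set s := ∫ y, chi (R / 4) y * ρ y with hs
  have sm : m ≤ s := by
    rw [hm, ← integral_indicator measurableSet_ball]
    refine integral_mono (iρ.indicator measurableSet_ball) iσ fun y => ?_
    by_cases hy : y ∈ ball (0 : E4) lam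
    · simp only [indicator_of_mem hy, hX.one _ R0 y
        (by linarith [mem_ball_zero_iff.1 hy] : ‖y‖ ≤ R / 4), one_mul, le_refl]
    · simpa only [indicator_of_notMem hy] using s0 y
  have m0 : 0 ≤ m := setIntegral_nonneg measurableSet_ball fun y _ => hρ.nonneg y
  have s1' : s ≤ 1 := (integral_mono iσ iρ s1).trans hρ.mass
  set a : E4 → ℝ := fun y => C₀ * (ρ y - (ball (0 : E4) lam).indicator ρ y) +
    C₁ / t * (nb r (2 * t)).indicator ρ y with ha
  have j1 : Integrable fun y => C₀ * (ρ y - (ball (0 : E4) lam).indicator ρ y) :=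
    (iρ.sub (iρ.indicator measurableSet_ball)).const_mul _
  have j2 : Integrable fun y => C₁ / t * (nb r (2 * t)).indicator ρ y :=
    (iρ.indicator mN).const_mul _
  have ia : Integrable a := j1.add j2
  have a0 : ∀ y, 0 ≤ a y := fun y => add_nonneg (mul_nonneg C0.le (sub_nonneg.2
    (indicator_le_self' (fun _ _ => hρ.nonneg _) y)))
    (mul_nonneg (by positivity) (indicator_nonneg (fun _ _ => hρ.nonneg _) y))
  have ea : ∫ y, a y ≤ C₀ * (1 - m) + C₁ / t * ∫ y in nb r (2 * t), ρ y := by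
    rw [ha, integral_add j1 j2, integral_const_mul, integral_const_mul,
      integral_sub iρ (iρ.indicator measurableSet_ball), integral_indicator measurableSet_ball,
      integral_indicator mN]
    nlinarith [hρ.mass]
  have A0 : 0 ≤ ∫ y, a y := integral_nonneg a0
  filter_upwards [self_mem_nhdsWithin, (lim_one hσ).eventually
    (le_mem_nhds (sub_lt_self (s * s) hβ))] with ε (hε : 0 < ε) hb
  rw [sym_eq hG hε hρ.sm hχ hc h1]
  have c2 := hc.continuous
  have k1 := int_prod hσ (F := fun p => ‖p.1 - p.2‖ ^ 2 / (‖p.1 - p.2‖ ^ 2 + ε ^ 2))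
    (Continuous.div (by fun_prop) (by fun_prop) fun p => by positivity)
  have k2 := ia.mul_prod iσ
  have k3 := iσ.mul_prod ia
  have k4 : Integrable (fun p : E4 × E4 => ‖p.1 - p.2‖ ^ 2 / (‖p.1 - p.2‖ ^ 2 + ε ^ 2) *
      (chi (R / 4) p.1 * ρ p.1 * (chi (R / 4) p.2 * ρ p.2)) - a p.1 * (chi (R / 4) p.2 * ρ p.2))
      (volume.prod volume) := k1.sub k2
  refine le_trans ?_ (integral_mono (k4.sub k3) (int_prod hσ
    (Continuous.div (by fun_prop) (by fun_prop) fun p => by positivity)) fun p => ?_)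
  · have e := integral_sub k4 k3
    rw [integral_sub k1 k2, integral_prod_mul a fun y => chi (R / 4) y * ρ y,
      integral_prod_mul (fun y => chi (R / 4) y * ρ y) a] at e
    refine le_of_le_of_eq ?_ e.symm
    have e2 : 2 * C₁ / t = 2 * (C₁ / t) := by ring
    rw [← hs, e2]
    nlinarith [mul_le_mul_of_nonneg_left s1' A0, mul_self_le_mul_self m0 sm, sq_nonneg (1 - m)]
  · set b : E4 → ℝ := fun y => (if ‖y‖ < lam then 0 else C₀) +
      if y ∈ nb r (2 * t) then C₁ / t else 0 with hbd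
    have b1 : ∀ y, b y * (chi (R / 4) y * ρ y) ≤ a y := fun y => by
      have e : a y = b y * ρ y := by
        simp only [ha, hbd, indicator, mem_ball_zero_iff]
        split_ifs <;> ring
      rw [e]
      refine mul_le_mul_of_nonneg_left (s1 y) (add_nonneg ?_ ?_) <;> split_ifs <;> positivity
    have b2 : ((if ‖p.1‖ < lam ∧ ‖p.2‖ < lam then 0 else C₀) +
        if p.1 ∈ nb r (2 * t) ∨ p.2 ∈ nb r (2 * t) then C₁ / t else 0) ≤ b p.1 + b p.2 := by
      have : 0 < C₁ / t := by positivity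
      simp only [hbd]
      by_cases u1 : ‖p.1‖ < lam <;> by_cases u2 : ‖p.2‖ < lam <;>
        by_cases u3 : p.1 ∈ nb r (2 * t) <;> by_cases u4 : p.2 ∈ nb r (2 * t) <;>
        simp [u1, u2, u3, u4] <;> linarith
    have b0 : 0 ≤ b p.1 + b p.2 := le_trans (add_nonneg (by split_ifs <;> positivity)
      (by split_ifs <;> positivity)) b2
    have h3 := (abs_le.1 ((h2 p.1 p.2).trans (mul_le_mul_of_nonneg_left b2 (sq_nonneg _)))).1
    have d0 : 0 < ‖p.1 - p.2‖ ^ 2 + ε ^ 2 := by positivity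
    have h4 : ‖p.1 - p.2‖ ^ 2 / (‖p.1 - p.2‖ ^ 2 + ε ^ 2) - (b p.1 + b p.2) ≤
        (∑ i, (cut r t lam p.1 * p.1 i - cut r t lam p.2 * p.2 i) * (p.1 i - p.2 i)) /
          (‖p.1 - p.2‖ ^ 2 + ε ^ 2) := by
      rw [sub_le_iff_le_add, div_add' _ _ _ d0.ne']
      exact div_le_div_of_nonneg_right (by nlinarith [mul_nonneg b0 (sq_nonneg ε)]) d0.le
    have h5 := mul_le_mul_of_nonneg_right h4 (mul_nonneg (s0 p.1) (s0 p.2))
    have h6 := mul_le_mul_of_nonneg_right (b1 p.1) (s0 p.2)
    have h7 := mul_le_mul_of_nonneg_left (b1 p.2) (s0 p.1)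
    simp only [Pi.sub_apply]
    nlinarith

end Pool.Agent.MP_417fa2_gt.Q2
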