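import Pool.Agent.MP_417fa2_gt.Q2.ESpec

/-! The sign of the term of the circles in the Pohozaev identity. -/

open scoped ContDiff Topology
open MeasureTheory Set Metric Real Filter

namespace Pool.Agent.MP_417fa2_gt.Q2

namespace P5

theorem poisson {r : ℝ} {z : ℂ} (hz : ‖z‖ < r) :
    ∫ θ in (0 : ℝ)..2 * π, (r ^ 2 - ‖z‖ ^ 2) / ‖circleMap 0 r θ - z‖ ^ 2 = 2 * π := by
  have hr : 0 < r := (norm_nonneg z).trans_lt hz
  have h := (diffContOnCl_const (𝕜 := ℂ) (s := ball (0 : ℂ) r)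
    (c := (1 : ℂ))).circleAverage_poissonKernel_smul' (mem_ball_zero_iff.2 hz)
  simp only [circleAverage, sub_zero, norm_circleMap_zero, abs_of_pos hr, Complex.real_smul,
    mul_one] at h
  rw [intervalIntegral.integral_ofReal] at h
  have h2 : (2 * π)⁻¹ * ∫ θ in (0 : ℝ)..2 * π,
      (r ^ 2 - ‖z‖ ^ 2) / ‖circleMap 0 r θ - z‖ ^ 2 = 1 := by exact_mod_cast h
  have hp : (2 * π) ≠ 0 := by positivity
  field_simp at h2
  linarith

/-- The integrand of the mean over a circle. -/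
noncomputable def FF (i : Fin 2) (r ε : ℝ) (x : E4) (θ : ℝ) : ℝ :=
  (∑ j, x j * (x j - circ i r θ j)) / (‖circ i r θ - x‖ ^ 2 + ε ^ 2)

theorem circ_cont (i : Fin 2) (r : ℝ) : Continuous (circ i r) := by
  unfold circ
  split_ifs <;> fun_prop

theorem FF_cont (i : Fin 2) (r : ℝ) {ε : ℝ} (hε : 0 < ε) :
    Continuous fun p : ℝ × E4 => FF i r ε p.2 p.1 := by
  have := circ_cont i r
  exact Continuous.div (by fun_prop) (by fun_prop) fun p => by positivity

theorem nsq (y : E4) : ‖y‖ ^ 2 = y 0 ^ 2 + y 1 ^ 2 + y 2 ^ 2 + y 3 ^ 2 := by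
  rw [EuclideanSpace.real_norm_sq_eq, Fin.sum_univ_four]

theorem FF_eq (hN : NbFacts) (i : Fin 2) {r ε : ℝ} (hr : 0 < r) (hε : 0 < ε) (x : E4) (θ : ℝ) :
    FF i r ε x θ = 1 / 2 - ε ^ 2 / (‖circ i r θ - x‖ ^ 2 + ε ^ 2) / 2 -
      (r ^ 2 - ‖x‖ ^ 2) / (‖circ i r θ - x‖ ^ 2 + ε ^ 2) / 2 := by
  have h1 := nsq (circ i r θ)
  rw [hN.circ_norm i r θ hr.le] at h1
  have h2 := nsq (circ i r θ - x)
  have h3 : ∑ j, x j * (x j - circ i r θ j) = (‖circ i r θ - x‖ ^ 2 + ‖x‖ ^ 2 - r ^ 2) / 2 := by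
    simp only [Fin.sum_univ_four, h2, nsq x, h1, PiLp.sub_apply]
    ring
  have h4 : ‖circ i r θ - x‖ ^ 2 + ε ^ 2 ≠ 0 := by positivity
  rw [FF, h3]
  field_simp
  ring

/-- The coordinate in the plane of a circle. -/
def pl (i : Fin 2) (x : E4) : ℂ := if i = 0 then zc x else wc x

theorem pl_le (i : Fin 2) (r θ : ℝ) (x : E4) :
    ‖circleMap 0 r θ - pl i x‖ ^ 2 ≤ ‖circ i r θ - x‖ ^ 2 := by
  rw [nsq, Complex.sq_norm, Complex.normSq_apply]
  unfold pl circ
  split_ifs <;>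
  · simp [circleMap, zc, wc, Complex.exp_ofReal_mul_I_re, Complex.exp_ofReal_mul_I_im]
    nlinarith [sq_nonneg (x 0), sq_nonneg (x 1), sq_nonneg (x 2), sq_nonneg (x 3)]

theorem pl_sum (x : E4) : ‖pl 0 x‖ ^ 2 + ‖pl 1 x‖ ^ 2 = ‖x‖ ^ 2 := by
  simp only [nsq, Complex.sq_norm, Complex.normSq_apply, pl, zc, wc, if_true, one_ne_zero, if_false]
  ring

theorem mean_ge (hN : NbFacts) (i : Fin 2) {r t ε : ℝ} (hr : 0 < r) (ht : 0 < t) (htr : t ≤ r / 8)
    (hε : 0 < ε) {x : E4} (hx : x ∉ nb r t) :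
    2 * π * ((if ‖x‖ < r then (‖x‖ ^ 2 - ‖pl i x‖ ^ 2) / (2 * r ^ 2) else 1 / 2) -
      8 * ε ^ 2 / t ^ 2) ≤ ∫ θ in (0 : ℝ)..2 * π, FF i r ε x θ := by
  have hc : Continuous (FF i r ε x) := (FF_cont i r hε).comp (Continuous.prodMk_left x)
  have h1 : ∀ θ, ε ^ 2 / (‖circ i r θ - x‖ ^ 2 + ε ^ 2) / 2 ≤ 8 * ε ^ 2 / t ^ 2 := by
    intro θ
    have h2 : t / 4 ≤ ‖circ i r θ - x‖ := by
      by_contra h
      rw [norm_sub_rev] at h
      have := hN.near' i r (t / 4) θ x hr (by linarith) (not_le.1 h).le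
      exact hx ⟨i, this.trans_lt (by nlinarith)⟩
    rw [div_div, div_le_div_iff₀ (by positivity) (by positivity)]
    have h3 := pow_le_pow_left₀ (by positivity) h2 2
    nlinarith [mul_le_mul_of_nonneg_left h3 (sq_nonneg ε), sq_nonneg (ε ^ 2)]
  split_ifs with h
  · have hp : ‖pl i x‖ ^ 2 ≤ ‖x‖ ^ 2 := by
      have := pl_sum x
      fin_cases i
      · exact le_of_le_of_eq (le_add_of_nonneg_right (sq_nonneg _)) this
      · exact le_of_le_of_eq (le_add_of_nonneg_left (sq_nonneg _)) this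
    have hz : ‖pl i x‖ < r := ((sq_le_sq₀ (norm_nonneg _) (norm_nonneg _)).1 hp).trans_lt h
    have hx2 : 0 < r ^ 2 - ‖x‖ ^ 2 := by nlinarith [norm_nonneg x]
    have hz2 : 0 < r ^ 2 - ‖pl i x‖ ^ 2 := by linarith
    have hne : ∀ θ, 0 < ‖circleMap 0 r θ - pl i x‖ ^ 2 := fun θ =>
      pow_pos (norm_pos_iff.2 (sub_ne_zero.2 (circleMap_ne_mem_ball (mem_ball_zero_iff.2 hz) θ))) 2
    set c := (r ^ 2 - ‖x‖ ^ 2) / (r ^ 2 - ‖pl i x‖ ^ 2) / 2 with hcd
    have hk : Continuous fun θ => (r ^ 2 - ‖pl i x‖ ^ 2) / ‖circleMap 0 r θ - pl i x‖ ^ 2 :=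
      Continuous.div continuous_const (by fun_prop) fun θ => (hne θ).ne'
    refine le_trans ?_ (intervalIntegral.integral_mono_on (by positivity)
      (f := fun θ => (1 / 2 - 8 * ε ^ 2 / t ^ 2) -
        c * ((r ^ 2 - ‖pl i x‖ ^ 2) / ‖circleMap 0 r θ - pl i x‖ ^ 2))
      (Continuous.intervalIntegrable (by fun_prop) _ _) (hc.intervalIntegrable _ _) fun θ _ => ?_)
    · rw [intervalIntegral.integral_sub (continuous_const.intervalIntegrable _ _)
        ((hk.const_mul c).intervalIntegrable _ _), intervalIntegral.integral_const_mul, poisson hz,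
        intervalIntegral.integral_const, smul_eq_mul, sub_zero]
      have h5 : (‖x‖ ^ 2 - ‖pl i x‖ ^ 2) / (2 * r ^ 2) ≤ 1 / 2 - c := by
        have e : 1 / 2 - c = (‖x‖ ^ 2 - ‖pl i x‖ ^ 2) / (2 * (r ^ 2 - ‖pl i x‖ ^ 2)) := by
          rw [hcd]
          field_simp
          ring
        rw [e]
        exact div_le_div_of_nonneg_left (by linarith) (by positivity)
          (by nlinarith [sq_nonneg ‖pl i x‖])
      nlinarith [pi_pos]
    · have h6 : (r ^ 2 - ‖x‖ ^ 2) / (‖circ i r θ - x‖ ^ 2 + ε ^ 2) / 2 ≤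
          c * ((r ^ 2 - ‖pl i x‖ ^ 2) / ‖circleMap 0 r θ - pl i x‖ ^ 2) := by
        have e : c * ((r ^ 2 - ‖pl i x‖ ^ 2) / ‖circleMap 0 r θ - pl i x‖ ^ 2) =
            (r ^ 2 - ‖x‖ ^ 2) / ‖circleMap 0 r θ - pl i x‖ ^ 2 / 2 := by
          rw [hcd]
          field_simp
        rw [e]
        exact div_le_div_of_nonneg_right (div_le_div_of_nonneg_left hx2.le (hne θ)
          ((pl_le i r θ x).trans (le_add_of_nonneg_right (sq_nonneg _)))) zero_le_two
      rw [FF_eq hN i hr hε]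
      linarith [h1 θ]
  · refine le_trans ?_ (intervalIntegral.integral_mono_on (by positivity)
      (f := fun _ => 1 / 2 - 8 * ε ^ 2 / t ^ 2)
      (continuous_const.intervalIntegrable _ _) (hc.intervalIntegrable _ _) fun θ _ => ?_)
    · rw [intervalIntegral.integral_const, smul_eq_mul, sub_zero]
    · have : (r ^ 2 - ‖x‖ ^ 2) / (‖circ i r θ - x‖ ^ 2 + ε ^ 2) ≤ 0 :=
        div_nonpos_of_nonpos_of_nonneg (by nlinarith [not_lt.1 h]) (by positivity)
      rw [FF_eq hN i hr hε]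
      linarith [h1 θ]

theorem av_eq (hG : GamFacts) (i : Fin 2) {r t lam ε : ℝ} (hε : 0 < ε) {ρ : E4 → ℝ}
    (hc : Tst (cut r t lam)) (hρ : Tst ρ) :
    Integrable (fun x => cut r t lam x * ρ x * ∫ θ in (0 : ℝ)..2 * π, FF i r ε x θ) ∧
    av i r (YY r t lam ε ρ) = 1 / (16 * π ^ 3) *
      ∫ x, cut r t lam x * ρ x * ∫ θ in (0 : ℝ)..2 * π, FF i r ε x θ := by
  have h0 := hc.mul_left hρ.sm
  have hcr : Tst fun x => cut r t lam x * ρ x := hρ.mul_left hc.sm
  have h1 : ∀ θ, YY r t lam ε ρ (circ i r θ) =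
      ∫ x, 1 / (8 * π ^ 2) * (cut r t lam x * ρ x * FF i r ε x θ) := by
    intro θ
    rw [YY, ← integral_finsetSum]
    · refine integral_congr_ae (Eventually.of_forall fun x => ?_)
      simp only [hG.d1 ε _ (by positivity : 0 < ‖circ i r θ - x‖ ^ 2 + ε ^ 2), FF,
        Fin.sum_univ_four, PiLp.sub_apply]
      ring
    · intro j _
      have c1 : Continuous fun x : E4 => pd j (gam ε) (circ i r θ - x) :=
        (cd_pd (hG.sm ε hε) j).continuous.comp (by fun_prop)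
      have c2 := hc.continuous
      exact Continuous.integrable_of_hasCompactSupport
        (((c2.mul (by fun_prop)).mul c1).mul hρ.continuous) hρ.cs.mul_left
  have h2 : Integrable (Function.uncurry fun θ x => cut r t lam x * ρ x * FF i r ε x θ)
      ((volume.restrict (uIoc 0 (2 * π))).prod volume) := by
    rw [← Measure.restrict_univ (μ := (volume : Measure E4)), Measure.prod_restrict]
    have hK : IsCompact (uIcc 0 (2 * π) ×ˢ tsupport fun x => cut r t lam x * ρ x) :=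
      isCompact_uIcc.prod hcr.cs
    refine IntegrableOn.of_forall_sdiff_eq_zero (s := uIcc 0 (2 * π) ×ˢ tsupport
      fun x => cut r t lam x * ρ x) (ContinuousOn.integrableOn_compact hK
        ((hcr.continuous.comp continuous_snd).mul (FF_cont i r hε)).continuousOn)
      (measurableSet_uIoc.prod MeasurableSet.univ) fun p hp => ?_
    have : cut r t lam p.2 * ρ p.2 = 0 :=
      image_eq_zero_of_notMem_tsupport (f := fun x => cut r t lam x * ρ x) fun h =>
        hp.2 ⟨uIoc_subset_uIcc hp.1.1, h⟩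
    simp [Function.uncurry, this]
  refine ⟨?_, ?_⟩
  · refine Continuous.integrable_of_hasCompactSupport (hcr.continuous.mul ?_) hcr.cs.mul_right
    exact intervalIntegral.continuous_parametric_intervalIntegral_of_continuous'
      (f := fun x θ => FF i r ε x θ) ((FF_cont i r hε).comp continuous_swap) _ _
  · simp only [av, h1, integral_const_mul, intervalIntegral.integral_const_mul]
    rw [intervalIntegral_integral_swap h2]
    simp only [intervalIntegral.integral_const_mul]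
    field_simp
    ring

end P5

open P5 in
theorem vStmt (hN : NbFacts) (hG : GamFacts) (hC : CutStmt) : VStmt := by
  intro r t lam ρ hr ht htr hl hρ β hβ
  obtain ⟨_, -, hC⟩ := hC
  obtain ⟨_, -, hC⟩ := hC r hr
  obtain ⟨hc, h01, h1, h0, -⟩ := hC t lam ht htr hl
  have hlim : Tendsto (fun ε : ℝ => 2 * ε ^ 2 / t ^ 2 / π ^ 2) (𝓝[>] 0) (𝓝 0) := by
    have : Continuous fun ε : ℝ => 2 * ε ^ 2 / t ^ 2 / π ^ 2 := by fun_prop
    simpa using (this.tendsto 0).mono_left nhdsWithin_le_nhds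
  filter_upwards [self_mem_nhdsWithin, hlim.eventually (ge_mem_nhds hβ)] with ε hε hb
  obtain ⟨i0, e0⟩ := av_eq hG 0 hε hc hρ.sm
  obtain ⟨i1, e1⟩ := av_eq hG 1 hε hc hρ.sm
  have iρ := hρ.sm.integrable
  have mN : MeasurableSet (nb r (2 * t)) := (hN.nb_open _ _).measurableSet
  have ig : Integrable fun y : E4 => min (‖y‖ ^ 2 / r ^ 2) 1 * ρ y :=
    Continuous.integrable_of_hasCompactSupport (Continuous.mul (by fun_prop) hρ.sm.continuous)
      hρ.sm.cs.mul_left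
  have j1 : Integrable fun y : E4 => min (‖y‖ ^ 2 / r ^ 2) 1 * ρ y - ρ y := ig.sub iρ
  have j2 : Integrable fun y : E4 => min (‖y‖ ^ 2 / r ^ 2) 1 * ρ y - ρ y +
      (ball (0 : E4) lam).indicator ρ y := j1.add (iρ.indicator measurableSet_ball)
  have j3 : Integrable fun y : E4 => min (‖y‖ ^ 2 / r ^ 2) 1 * ρ y - ρ y +
      (ball (0 : E4) lam).indicator ρ y - (nb r (2 * t)).indicator ρ y := j2.sub (iρ.indicator mN)
  have j4 : Integrable fun y : E4 => 32 * ε ^ 2 / t ^ 2 * ρ y := iρ.const_mul _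
  have key : ∫ y : E4, π * (min (‖y‖ ^ 2 / r ^ 2) 1 * ρ y - ρ y +
      (ball (0 : E4) lam).indicator ρ y - (nb r (2 * t)).indicator ρ y - 32 * ε ^ 2 / t ^ 2 * ρ y) ≤
      ∫ x, (cut r t lam x * ρ x * (∫ θ in (0 : ℝ)..2 * π, FF 0 r ε x θ) +
        cut r t lam x * ρ x * ∫ θ in (0 : ℝ)..2 * π, FF 1 r ε x θ) := by
    refine integral_mono ((j3.sub j4).const_mul π) (i0.add i1) fun x => ?_
    have p0 := hρ.nonneg x
    obtain ⟨c0, c1, -⟩ := h01 x
    have m0 : 0 ≤ min (‖x‖ ^ 2 / r ^ 2) 1 := by positivity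
    have m1 : min (‖x‖ ^ 2 / r ^ 2) 1 ≤ 1 := min_le_right _ _
    have d0 : 0 ≤ 32 * ε ^ 2 / t ^ 2 := by positivity
    have a1 : min (‖x‖ ^ 2 / r ^ 2) 1 * ρ x - ρ x + (ball (0 : E4) lam).indicator ρ x -
        (nb r (2 * t)).indicator ρ x ≤ cut r t lam x * ρ x * min (‖x‖ ^ 2 / r ^ 2) 1 := by
      have q0 := mul_nonneg (mul_nonneg c0 p0) m0
      have q1 := mul_le_mul_of_nonneg_right m1 p0
      by_cases hb : x ∈ ball (0 : E4) lam <;> by_cases hn : x ∈ nb r (2 * t)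
      · rw [indicator_of_mem hb, indicator_of_mem hn]; linarith
      · rw [indicator_of_mem hb, indicator_of_notMem hn, h1 x (mem_ball_zero_iff.1 hb).le hn]
        linarith
      · rw [indicator_of_notMem hb, indicator_of_mem hn]; linarith
      · rw [indicator_of_notMem hb, indicator_of_notMem hn]; linarith
    have a2 : cut r t lam x * ρ x * (π * (min (‖x‖ ^ 2 / r ^ 2) 1 - 32 * ε ^ 2 / t ^ 2)) ≤
        cut r t lam x * ρ x * ((∫ θ in (0 : ℝ)..2 * π, FF 0 r ε x θ) +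
          ∫ θ in (0 : ℝ)..2 * π, FF 1 r ε x θ) := by
      by_cases hn : x ∈ nb r t
      · simp [h0 x (Or.inr hn)]
      refine mul_le_mul_of_nonneg_left (le_trans ?_ (add_le_add (mean_ge hN 0 hr ht htr hε hn)
        (mean_ge hN 1 hr ht htr hε hn))) (mul_nonneg c0 p0)
      have e : 32 * ε ^ 2 / t ^ 2 = 4 * (8 * ε ^ 2 / t ^ 2) := by ring
      split_ifs with h
      · have e2 : (‖x‖ ^ 2 - ‖pl 0 x‖ ^ 2) / (2 * r ^ 2) + (‖x‖ ^ 2 - ‖pl 1 x‖ ^ 2) / (2 * r ^ 2) =
            ‖x‖ ^ 2 / r ^ 2 / 2 := by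
          rw [← pl_sum x]
          ring
        nlinarith [mul_le_mul_of_nonneg_left (min_le_left (‖x‖ ^ 2 / r ^ 2) 1) pi_pos.le, pi_pos]
      · nlinarith [mul_le_mul_of_nonneg_left m1 pi_pos.le, pi_pos]
    have a3 := mul_le_mul_of_nonneg_right (mul_le_mul_of_nonneg_right c1 p0) d0
    have a4 := mul_le_mul_of_nonneg_left (sub_le_sub a1 a3) pi_pos.le
    simp only
    nlinarith
  rw [integral_add i0 i1, integral_const_mul, integral_sub j3 j4, integral_sub j2 (iρ.indicator mN),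
    integral_add j1 (iρ.indicator measurableSet_ball), integral_sub ig iρ, integral_const_mul,
    integral_indicator measurableSet_ball, integral_indicator mN] at key
  rw [e0, e1, ← mul_add]
  refine le_trans ?_ (mul_le_mul_of_nonneg_left key (by positivity))
  have hm := hρ.mass
  have a5 := mul_le_mul_of_nonneg_left hm (by positivity : 0 ≤ 32 * ε ^ 2 / t ^ 2)
  have e : ∀ A : ℝ, 1 / (16 * π ^ 3) * (π * A) = A / (16 * π ^ 2) := fun A => by field_simp
  have e' : 2 * ε ^ 2 / t ^ 2 / π ^ 2 = 32 * ε ^ 2 / t ^ 2 / (16 * π ^ 2) := by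
    field_simp
    ring
  rw [e, gain]
  refine (sub_le_sub_left hb _).trans ?_
  rw [e', ← sub_div]
  exact div_le_div_of_nonneg_right (by linarith) (by positivity)

end Pool.Agent.MP_417fa2_gt.Q2
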