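import Pool.Agent.MP_417fa2_gt.Q2.ESpec

/-! The Pohozaev inequality from its parts. -/

open scoped ContDiff Topology
open MeasureTheory Set Metric Real Filter

namespace Pool.Agent.MP_417fa2_gt.Q2

open DE (lp)

namespace P7

theorem ball_le {ρ : E4 → ℝ} (h : Den ρ) (lam : ℝ) :
    ∫ y in (ball (0 : E4) lam)ᶜ, ρ y ≤ 1 - ∫ y in ball (0 : E4) lam, ρ y := by
  have := integral_add_compl (μ := volume) (s := ball (0 : E4) lam) measurableSet_ball
    h.sm.integrable
  linarith [h.mass]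

open Classical in
theorem div_le {ρ : E4 → ℝ} (h : Den ρ) {r t lam C₀ C₁ : ℝ} (hC : 0 ≤ C₀)
    (ho : IsOpen (nb r (2 * t))) (hc : Tst (cut r t lam))
    (hd : ∀ y, dvX r t lam y ≤
      4 + (if ‖y‖ < lam then 0 else C₀) + if y ∈ nb r (2 * t) then C₁ / t else 0) :
    ∫ y, dvX r t lam y * ρ y ≤ 4 + C₀ * (1 - ∫ y in ball (0 : E4) lam, ρ y) +
      C₁ / t * ∫ y in nb r (2 * t), ρ y := by
  have hi := h.sm.integrable
  have hx : ∀ i : Fin 4, ContDiff ℝ ∞ fun x : E4 => x i := fun i =>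
    (EuclideanSpace.proj (𝕜 := ℝ) i).contDiff
  have h1 : Tst (dvX r t lam) := Tst.sum fun i _ => (hc.mul_right (hx i)).pd i
  have hm : MeasurableSet (ball (0 : E4) lam)ᶜ := measurableSet_ball.compl
  have i1 : Integrable fun y => 4 * ρ y := hi.const_mul 4
  have i2 : Integrable fun y => C₀ * (ball (0 : E4) lam)ᶜ.indicator ρ y :=
    (hi.indicator hm).const_mul C₀
  have i3 : Integrable fun y => C₁ / t * (nb r (2 * t)).indicator ρ y :=
    (hi.indicator ho.measurableSet).const_mul _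
  have h2 : ∫ y, dvX r t lam y * ρ y ≤ ∫ y, (4 * ρ y + C₀ * (ball (0 : E4) lam)ᶜ.indicator ρ y +
      C₁ / t * (nb r (2 * t)).indicator ρ y) := by
    refine integral_mono (h1.integrable_mul h.sm) ((i1.add i2).add i3) fun y => ?_
    refine (mul_le_mul_of_nonneg_right (hd y) (h.nonneg y)).trans (le_of_eq ?_)
    by_cases a : ‖y‖ < lam <;> by_cases b : y ∈ nb r (2 * t) <;>
      simp [a, b, indicator] <;> ring
  have i4 : Integrable fun y => 4 * ρ y + C₀ * (ball (0 : E4) lam)ᶜ.indicator ρ y := i1.add i2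
  rw [integral_add i4 i3, integral_add i1 i2, integral_const_mul, integral_const_mul,
    integral_const_mul, integral_indicator hm, integral_indicator ho.measurableSet] at h2
  have h3 := mul_le_mul_of_nonneg_left (ball_le h lam) hC
  linarith [h.mass]

end P7

theorem pohoStmt (hchi : ChiFacts) (hnb : NbFacts) (hcut : CutStmt) (hyb : YbStmt)
    (hlim : LimStmt) (hsym : SymStmt) (hv : VStmt) (hcomm : CommStmt) : PohoStmt := by
  obtain ⟨A₀, hA₀, hcut⟩ := hcut
  obtain ⟨B₀, hB₀, hsym⟩ := hsym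
  obtain ⟨hy1, hy2, hy3⟩ := hyb
  refine ⟨A₀ / 4 + B₀ + 1, fun R hR hR1 => ?_⟩
  obtain ⟨A₂, hy2⟩ := hy2 R hR
  obtain ⟨B₂, hcomm⟩ := hcomm R hR
  refine ⟨B₂ * A₂, fun r hr => ?_⟩
  obtain ⟨A₁, hA₁, hcut⟩ := hcut r hr
  obtain ⟨B₁, hB₁, hsym⟩ := hsym r hr
  refine ⟨A₁ / 4 + B₁ + r, fun t ht htr => ?_⟩
  obtain ⟨C₃, hy3⟩ := hy3 r t hr ht htr
  refine ⟨C₃, fun lam m E H U ρ hl1 hl2 hm hE hP => ?_⟩
  obtain ⟨c1, -, -, -, c5, -⟩ := hcut t lam ht htr hl1
  have hdiv := P7.div_le hP.den hA₀.le (hnb.nb_open r (2 * t)) c1 c5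
  set M := ∫ y in ball (0 : E4) lam, ρ y with hM
  set N := ∫ y in nb r (2 * t), ρ y with hN
  set G := gain r ρ with hG
  have hM1 : 0 ≤ 1 - M :=
    (integral_nonneg fun y => hP.den.nonneg y).trans (P7.ball_le hP.den lam)
  have hN0 : 0 ≤ N := integral_nonneg fun y => hP.den.nonneg y
  have hR4 : 0 < R / 4 := by positivity
  have hpi : 1 ≤ 16 * π ^ 2 := by nlinarith [pi_gt_three]
  have key : ∀ β : ℝ, 0 < β → m * ((G - (1 - M) - N) / (16 * π ^ 2)) ≤
      (A₀ / 4 + B₀) * (1 - M) + (A₁ / 4 + B₁) / t * N + B₂ * √H * (A₂ * lam ^ 2 * G) +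
        E * (C₃ * G) + (m + 2) * β := by
    intro β hβ
    have e1 := (hlim R r t lam U ρ hr ht htr hl1 hl2 hP.sm hP.den hP.ex).eventually
      (gt_mem_nhds (lt_add_of_pos_right (1 / 4 * ∫ y, dvX r t lam y * ρ y) hβ))
    obtain ⟨ε, ⟨⟨e1, e2⟩, e3⟩, hε⟩ := (((e1.and (hsym R t lam ρ ht htr hl1 hl2 hP.den β hβ)).and
      (hv r t lam ρ hr ht htr hl1 hP.den β hβ)).and self_mem_nhdsWithin).exists
    have hε : 0 < ε := hε
    have hY := hy1 r t lam ε ρ hr ht htr hl1 hε hP.den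
    have b2 := hy2 r t lam ε ρ hr ht htr hl1 hl2 hε hP.den
    have b3 := hy3 lam ε ρ hl1 (by linarith) hε hP.den
    set Y := YY r t lam ε ρ with hYd
    have e4 := hcomm U Y H _ hP.sm hY hP.ann b2
    have e5 := hP.eqn (fun z => chi (R / 4) z * Y z) ((hchi.tst _ hR4).mul_right hY)
      (fun y hy => by
        show chi (R / 4) y * Y y = 0
        rw [hchi.zero _ hR4 y (by linarith), zero_mul]) (C₃ * G) (fun y hy => by
        have h2 := (hnb.nb_norm r (t / 2) hr (by positivity) (by linarith) y hy).2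
        have h3 : ∀ᶠ z in 𝓝 y, chi (R / 4) z * Y z = Y z + 0 := by
          filter_upwards [isOpen_ball.mem_nhds (mem_ball_zero_iff.2
            (show ‖y‖ < R / 4 by linarith))] with z hz
          rw [hchi.one _ hR4 z (mem_ball_zero_iff.1 hz).le, one_mul, add_zero]
        obtain ⟨d1, d2, -⟩ := hchi.D_congr _ _ 0 y h3
        refine ⟨?_, d1 ▸ (b3 y hy).2.1, d2 ▸ (b3 y hy).2.2⟩
        show |chi (R / 4) y * Y y| ≤ _
        rw [h3.self_of_nhds, add_zero]
        exact (b3 y hy).1)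
    have e6 : ∀ i, av i r (fun z => chi (R / 4) z * Y z) = av i r Y := fun i => by
      unfold av
      congr 1
      refine intervalIntegral.integral_congr fun θ _ => ?_
      show chi (R / 4) _ * Y _ = Y _
      rw [hchi.one _ hR4 _ (by rw [hnb.circ_norm i r θ hr.le]; linarith), one_mul]
    rw [e6, e6] at e5
    have e7 := mul_le_mul_of_nonneg_left e3 hm
    have e8 := (abs_le.1 e5).1
    have e9 := (abs_le.1 e4).2
    have e10 : (A₁ / 4 + B₁) / t * N = 1 / 4 * (A₁ / t * N) + B₁ / t * N := by ring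
    rw [e10]
    nlinarith
  have h0 : m * ((G - (1 - M) - N) / (16 * π ^ 2)) ≤
      (A₀ / 4 + B₀) * (1 - M) + (A₁ / 4 + B₁) / t * N + B₂ * √H * (A₂ * lam ^ 2 * G) +
        E * (C₃ * G) := by
    refine le_of_forall_pos_le_add fun δ hδ => ?_
    have := key (δ / (m + 2)) (by positivity)
    rwa [mul_div_cancel₀ _ (by positivity : m + 2 ≠ 0)] at this
  have h1 : m * ((1 - M) / (16 * π ^ 2)) ≤ m * (1 - M) :=
    mul_le_mul_of_nonneg_left (div_le_self hM1 hpi) hm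
  have h2 : m * (N / (16 * π ^ 2)) ≤ m * N := mul_le_mul_of_nonneg_left (div_le_self hN0 hpi) hm
  have h3 : 1 ≤ r / t := by rw [le_div_iff₀ ht]; linarith
  have h4 : m * N ≤ r / t * (1 + m) * N := by
    refine mul_le_mul_of_nonneg_right ?_ hN0
    nlinarith
  have h5 : 0 ≤ (A₁ / 4 + B₁) / t * m * N := by positivity
  have h6 : 0 ≤ (A₀ / 4 + B₀) * m * (1 - M) := by positivity
  have h7 : (A₁ / 4 + B₁ + r) * (1 + m) / t * N =
      (A₁ / 4 + B₁) / t * N + (A₁ / 4 + B₁) / t * m * N + r / t * (1 + m) * N := by ring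
  have h8 : m * ((G - (1 - M) - N) / (16 * π ^ 2)) =
      m / (16 * π ^ 2) * G - m * ((1 - M) / (16 * π ^ 2)) - m * (N / (16 * π ^ 2)) := by ring
  rw [h7]
  rw [h8] at h0
  nlinarith

end Pool.Agent.MP_417fa2_gt.Q2
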