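import Pool.Agent.MP_417fa2_gt.Q2.S7Green

/-! The area of the regular octagon. -/

open scoped ComplexConjugate ENNReal
open MeasureTheory Set Metric Real

namespace Pool.Agent.MP_417fa2_gt.Q2

namespace S1

/-- The sector of the octagon about the positive real axis. -/
def sec : Set ℂ := {z | ‖z‖ < 1 ∧ |z.im| ≤ (√2 - 1) * z.re ∧
  2 * (1 + √2) * z.re ≤ √(2 + 2 * √2) * (1 + ‖z‖ ^ 2)}

/-- The hyperbolic cosine of the distance to the side. -/
noncomputable def ch (θ : ℝ) : ℝ := 1 / √(1 - ((1 + √2) * sin θ) ^ 2) * ((1 + √2) * cos θ)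

/-- The Euclidean distance to the side. -/
noncomputable def st (θ : ℝ) : ℝ := √((ch θ - 1) / (ch θ + 1))

theorem s2 : (√2 : ℝ) * √2 = 2 := Real.mul_self_sqrt (by norm_num)

theorem s2_gt : (1 : ℝ) < √2 := Real.lt_sqrt_of_sq_lt (by norm_num)

theorem cos8_pos : 0 < cos (π / 8) :=
  cos_pos_of_mem_Ioo ⟨by linarith [pi_pos], by linarith [pi_pos]⟩

theorem tan8 : (1 + √2) * sin (π / 8) = cos (π / 8) := by
  have h1 := sin_two_mul (π / 8)
  have h2 := cos_two_mul (π / 8)
  rw [show 2 * (π / 8) = π / 4 by ring] at h1 h2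
  rw [sin_pi_div_four] at h1
  rw [cos_pi_div_four] at h2
  refine mul_right_cancel₀ cos8_pos.ne' ?_
  linear_combination (-(1 + √2) / 2) * h1 + (1 / 2) * h2 + (1 / 4) * s2

theorem cos8_lt : cos (π / 8) < 1 := by
  rw [← cos_zero]
  exact cos_lt_cos_of_nonneg_of_le_pi le_rfl (by linarith [pi_pos]) (by linarith [pi_pos])

theorem sin_bd {θ : ℝ} (h : θ ∈ Icc (-(π / 8)) (π / 8)) : |(1 + √2) * sin θ| < 1 := by
  have m : ∀ x ∈ Icc (-(π / 8)) (π / 8), x ∈ Icc (-(π / 2)) (π / 2) := fun x hx =>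
    ⟨by linarith [hx.1, pi_pos], by linarith [hx.2, pi_pos]⟩
  have p : -(π / 8) ≤ π / 8 := by linarith [pi_pos]
  have h1 := monotoneOn_sin (m _ h) (m _ (right_mem_Icc.2 p)) h.2
  have h2 := monotoneOn_sin (m _ (left_mem_Icc.2 p)) (m _ h) h.1
  rw [sin_neg] at h2
  have h3 : (0 : ℝ) < 1 + √2 := by positivity
  rw [abs_lt]
  constructor <;> nlinarith [tan8, cos8_lt]

theorem D_pos {θ : ℝ} (h : θ ∈ Icc (-(π / 8)) (π / 8)) : 0 < 1 - ((1 + √2) * sin θ) ^ 2 :=
  sub_pos.2 ((sq_lt_one_iff_abs_lt_one _).2 (sin_bd h))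

theorem cos_pos {θ : ℝ} (h : θ ∈ Icc (-(π / 8)) (π / 8)) : 0 < cos θ :=
  cos_pos_of_mem_Ioo ⟨by linarith [h.1, pi_pos], by linarith [h.2, pi_pos]⟩

theorem le_ch {θ s : ℝ} (h : θ ∈ Icc (-(π / 8)) (π / 8)) (h0 : 0 ≤ s) (h1 : s < 1)
    (k : 2 * (1 + √2) * (s * cos θ) ≤ √(2 + 2 * √2) * (1 + s ^ 2)) :
    1 + s ^ 2 ≤ ch θ * (1 - s ^ 2) := by
  have c := cos_pos h
  have d := sqrt_pos.2 (D_pos h)
  have e : 0 < 1 - s ^ 2 := by nlinarith
  have k2 := pow_le_pow_left₀ (by positivity) k 2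
  rw [mul_pow √_, sq_sqrt (by positivity)] at k2
  rw [ch, one_div, mul_assoc, le_inv_mul_iff₀ d]
  refine le_of_sq_le_sq ?_ (by positivity)
  rw [mul_pow, sq_sqrt (D_pos h).le]
  have e2 : 1 - ((1 + √2) * sin θ) ^ 2 = ((1 + √2) * cos θ) ^ 2 - (2 + 2 * √2) := by
    linear_combination (-(1 + √2) ^ 2) * sin_sq_add_cos_sq θ - s2
  rw [e2]
  nlinarith

theorem one_le_ch {θ : ℝ} (h : θ ∈ Icc (-(π / 8)) (π / 8)) : 1 ≤ ch θ := by
  simpa using le_ch h le_rfl one_pos (by simp)

theorem st_sq {θ : ℝ} (h : θ ∈ Icc (-(π / 8)) (π / 8)) : st θ ^ 2 = (ch θ - 1) / (ch θ + 1) :=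
  sq_sqrt (div_nonneg (sub_nonneg.2 (one_le_ch h)) (by linarith [one_le_ch h]))

theorem st_lt {θ : ℝ} (h : θ ∈ Icc (-(π / 8)) (π / 8)) : st θ < 1 := by
  have := one_le_ch h
  rw [st, sqrt_lt' one_pos, div_lt_iff₀ (by linarith)]
  linarith

theorem inner {θ : ℝ} (h : θ ∈ Icc (-(π / 8)) (π / 8)) :
    ∫⁻ s in Ioc 0 (st θ), ENNReal.ofReal (s / (1 - s ^ 2) ^ 2) =
      ENNReal.ofReal ((ch θ - 1) / 4) := by
  have h0 : 0 ≤ st θ := sqrt_nonneg _
  have c := S7.contOn_den (st_lt h)
  rw [← ofReal_integral_eq_lintegral_ofReal (c.integrableOn_Icc.mono_set Ioc_subset_Icc_self)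
    ((ae_restrict_mem measurableSet_Ioc).mono fun s hs => div_nonneg hs.1.le (sq_nonneg _)),
    ← intervalIntegral.integral_of_le h0,
    intervalIntegral.integral_eq_sub_of_hasDerivAt (f := fun s => sig s / 2) (fun s hs => ?_)
      (ContinuousOn.intervalIntegrable (by rwa [uIcc_of_le h0]))]
  · have := one_le_ch h
    congr 1
    rw [sig, sig, st_sq h, one_sub_div (by linarith)]
    field_simp
    ring
  · rw [uIcc_of_le h0] at hs
    exact ((S7.hasDerivAt_sig (S7.one_sub_pos (st_lt h) hs)).div_const 2).congr_deriv (by ring)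

theorem ch_cont : ContinuousOn ch (Icc (-(π / 8)) (π / 8)) :=
  (ContinuousOn.div continuousOn_const (by fun_prop) fun _ h =>
    (sqrt_pos.2 (D_pos h)).ne').mul (by fun_prop)

theorem outer : ∫⁻ θ in Icc (-(π / 8)) (π / 8), ENNReal.ofReal ((ch θ - 1) / 4) =
    ENNReal.ofReal (π / 8) := by
  have p : -(π / 8) ≤ π / 8 := by linarith [pi_pos]
  have c : ContinuousOn (fun θ => (ch θ - 1) / 4) (Icc (-(π / 8)) (π / 8)) :=
    (ch_cont.sub continuousOn_const).div_const 4
  rw [← ofReal_integral_eq_lintegral_ofReal c.integrableOn_Icc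
    ((ae_restrict_mem measurableSet_Icc).mono fun s hs =>
      div_nonneg (sub_nonneg.2 (one_le_ch hs)) (by norm_num)),
    integral_Icc_eq_integral_Ioc, ← intervalIntegral.integral_of_le p,
    intervalIntegral.integral_eq_sub_of_hasDerivAt
      (f := fun θ => (arcsin ((1 + √2) * sin θ) - θ) / 4) (fun θ hθ => ?_)
      (ContinuousOn.intervalIntegrable (by rwa [uIcc_of_le p]))]
  · congr 1
    rw [sin_neg, mul_neg, arcsin_neg, tan8, ← sin_pi_div_two_sub,
      arcsin_sin (by linarith [pi_pos]) (by linarith [pi_pos])]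
    ring
  · rw [uIcc_of_le p] at hθ
    have b := abs_lt.1 (sin_bd hθ)
    exact (((hasDerivAt_arcsin b.1.ne' b.2.ne).comp θ
      ((hasDerivAt_sin θ).const_mul (1 + √2))).sub (hasDerivAt_id θ)).div_const 4

theorem arg_mem {θ : ℝ} (h : θ ∈ Ioo (-π) π) (k : |sin θ| ≤ (√2 - 1) * cos θ) :
    θ ∈ Icc (-(π / 8)) (π / 8) := by
  have key : ∀ φ : ℝ, φ < π → sin φ ≤ (√2 - 1) * cos φ → φ ≤ π / 8 := fun φ h1 h2 => by
    by_contra h3
    have h4 := sin_pos_of_pos_of_lt_pi (sub_pos.2 (not_le.1 h3)) (by linarith [pi_pos])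
    have h5 : sin (π / 8) = (√2 - 1) * cos (π / 8) := by
      linear_combination (√2 - 1) * tan8 - sin (π / 8) * s2
    rw [sin_sub, h5] at h4
    nlinarith [cos8_pos]
  refine ⟨?_, key θ h.2 (abs_le.1 k).2⟩
  have := key (-θ) (by linarith [h.1]) (by rw [sin_neg, cos_neg]; linarith [(abs_le.1 k).1])
  linarith

theorem meas_sec : MeasurableSet sec := by
  simp only [sec, ofPred_and]
  exact (measurableSet_lt (by fun_prop) (by fun_prop)).inter
    ((measurableSet_le (by fun_prop) (by fun_prop)).inter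
      (measurableSet_le (by fun_prop) (by fun_prop)))

theorem sec_le : ∫⁻ z, sec.indicator (fun z => ENNReal.ofReal (1 / (1 - ‖z‖ ^ 2) ^ 2)) z ≤
    ENNReal.ofReal (π / 8) := by
  set T : Set (ℝ × ℝ) := {p | p.2 ∈ Icc (-(π / 8)) (π / 8) ∧ 0 < p.1 ∧ p.1 ≤ st p.2} with hT
  have mT : MeasurableSet T := (measurableSet_Icc.preimage measurable_snd).inter
    ((measurableSet_lt measurable_const measurable_fst).inter
      (measurableSet_le measurable_fst (by unfold st ch; fun_prop)))
  have mF : Measurable (T.indicator fun p => ENNReal.ofReal (p.1 / (1 - p.1 ^ 2) ^ 2)) :=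
    Measurable.indicator (by fun_prop) mT
  rw [← Complex.lintegral_comp_polarCoord_symm, ← outer]
  calc _ ≤ ∫⁻ p in polarCoord.target,
        T.indicator (fun p => ENNReal.ofReal (p.1 / (1 - p.1 ^ 2) ^ 2)) p := by
        refine setLIntegral_mono mF fun p hp => ?_
        have h0 : 0 < p.1 := hp.1
        by_cases h : Complex.polarCoord.symm p ∈ sec
        · have hn := Complex.norm_polarCoord_symm p
          rw [abs_of_pos h0] at hn
          have hr : (Complex.polarCoord.symm p).re = p.1 * cos p.2 := by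
            simp [Complex.polarCoord_symm_apply, -Complex.ofReal_cos, -Complex.ofReal_sin]
          have hi : (Complex.polarCoord.symm p).im = p.1 * sin p.2 := by
            simp [Complex.polarCoord_symm_apply, -Complex.ofReal_cos, -Complex.ofReal_sin]
          obtain ⟨k1, k2, k3⟩ := id h
          rw [hn] at k1
          rw [hr, hi, abs_mul, abs_of_pos h0, mul_left_comm] at k2
          rw [hr, hn] at k3
          have a := arg_mem hp.2 (le_of_mul_le_mul_left k2 h0)
          have b := le_ch a h0.le k1 k3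
          have c := one_le_ch a
          rw [indicator_of_mem h, indicator_of_mem (show p ∈ T from ⟨a, h0, le_sqrt_of_sq_le (by
            rw [le_div_iff₀ (by linarith)]; linarith)⟩), hn, smul_eq_mul,
            ← ENNReal.ofReal_mul h0.le, mul_one_div]
        · rw [indicator_of_notMem h, smul_zero]
          exact bot_le
    _ ≤ _ := setLIntegral_le_lintegral _ _
    _ = _ := lintegral_prod_symm _ mF.aemeasurable
    _ = _ := by
        rw [← lintegral_indicator measurableSet_Icc]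
        refine lintegral_congr fun θ => ?_
        by_cases h : θ ∈ Icc (-(π / 8)) (π / 8)
        · rw [indicator_of_mem h, ← inner h, ← lintegral_indicator measurableSet_Ioc]
          refine lintegral_congr fun s => ?_
          by_cases k : s ∈ Ioc 0 (st θ)
          · rw [indicator_of_mem k, indicator_of_mem (show (s, θ) ∈ T from ⟨h, k⟩)]
          · rw [indicator_of_notMem k, indicator_of_notMem fun j : (s, θ) ∈ T => k j.2]
        · rw [indicator_of_notMem h, lintegral_congr (g := fun _ => 0) fun s =>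
            indicator_of_notMem (fun j : (s, θ) ∈ T => h j.1) _, lintegral_zero]

theorem norm_zeta : ‖zeta‖ = 1 := by
  have := normSq_zeta
  rw [Complex.normSq_eq_norm_sq] at this
  nlinarith [norm_nonneg zeta]

theorem step (w : ℂ) : (w * conj zeta).re = (w.re + w.im) / √2 ∧
    (w * conj zeta).im = (w.im - w.re) / √2 := by
  simp only [zeta, map_div₀, map_add, map_one, Complex.conj_I, Complex.conj_ofReal, ← mul_div_assoc,
    Complex.div_ofReal_re, Complex.div_ofReal_im]
  constructor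
  · simp
  · simp
    ring

theorem quarter (z : ℂ) : ∃ k : Fin 4, 0 ≤ (z * conj (zeta ^ (2 * k : ℕ))).re ∧
    0 ≤ (z * conj (zeta ^ (2 * k : ℕ))).im := by
  simp only [pow_mul, SU.zeta_sq]
  rcases le_total 0 z.re with a | a <;> rcases le_total 0 z.im with b | b
  · exact ⟨0, by simpa using And.intro a b⟩
  · exact ⟨3, by simpa using And.intro b a⟩
  · exact ⟨1, by simpa using And.intro b a⟩
  · exact ⟨2, by simpa using And.intro a b⟩

theorem cover (z : ℂ) : ∃ k : Fin 8,
    |(z * conj (zeta ^ (k : ℕ))).im| ≤ (√2 - 1) * (z * conj (zeta ^ (k : ℕ))).re := by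
  have z8 : zeta ^ 8 = 1 := by
    rw [show zeta ^ 8 = (zeta ^ 2) ^ 4 by ring, SU.zeta_sq, Complex.I_pow_four]
  suffices h : ∃ n : ℕ, |(z * conj (zeta ^ n)).im| ≤ (√2 - 1) * (z * conj (zeta ^ n)).re by
    obtain ⟨n, h⟩ := h
    exact ⟨⟨n % 8, Nat.mod_lt _ (by norm_num)⟩, by rwa [← pow_eq_pow_mod n z8]⟩
  obtain ⟨k, a, b⟩ := quarter z
  have p : (0 : ℝ) < √2 := by positivity
  set w := z * conj (zeta ^ (2 * k : ℕ)) with hw
  by_cases h1 : w.im ≤ (√2 - 1) * w.re
  · exact ⟨2 * k, by rwa [abs_of_nonneg b]⟩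
  by_cases h2 : w.re ≤ (√2 - 1) * w.im
  · refine ⟨2 * k + 2, ?_⟩
    rw [pow_add, map_mul, ← mul_assoc, ← hw, SU.zeta_sq]
    simpa [abs_of_nonneg a] using h2
  · refine ⟨2 * k + 1, ?_⟩
    rw [pow_succ, map_mul, ← mul_assoc, ← hw, (step w).1, (step w).2, abs_div, abs_of_pos p,
      ← mul_div_assoc, div_le_div_iff_of_pos_right p, abs_le]
    have e1 := mul_pos p (sub_pos.2 (not_le.1 h1))
    have e2 := mul_pos p (sub_pos.2 (not_le.1 h2))
    have e3 : √2 * √2 * w.re = 2 * w.re := by rw [s2]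
    have e4 : √2 * √2 * w.im = 2 * w.im := by rw [s2]
    constructor <;> nlinarith

theorem rot_le {u : ℂ} (hu : ‖u‖ = 1) : dA {z | z * u ∈ sec} ≤ ENNReal.ofReal (π / 8) := by
  have m : MeasurableSet {z : ℂ | z * u ∈ sec} := meas_sec.preimage (measurable_mul_const u)
  refine le_trans ?_ sec_le
  rw [dA, withDensity_apply _ m,
    ← (rotation ⟨u, mem_sphere_zero_iff_norm.2 hu⟩).measurePreserving.lintegral_comp
      (S7.meas_dens.indicator meas_sec), ← lintegral_indicator m]
  refine (lintegral_mono' Measure.restrict_le_self le_rfl).trans (lintegral_mono fun z => ?_)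
  simp only [rotation_apply, mul_comm u]
  by_cases h : z * u ∈ sec
  · rw [indicator_of_mem h, indicator_of_mem (show z ∈ {z | z * u ∈ sec} from h), norm_mul, hu,
      mul_one]
  · rw [indicator_of_notMem (show z ∉ {z | z * u ∈ sec} from h)]
    exact bot_le

end S1

open S1 in
theorem octStmt : OctStmt := by
  have n : ∀ k : Fin 8, ‖conj (zeta ^ (k : ℕ))‖ = 1 := fun k => by simp [norm_zeta]
  constructor
  · simp only [oct, ofPred_and, ofPred_forall]
    exact (measurableSet_lt (by fun_prop) (by fun_prop)).inter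
      (MeasurableSet.iInter fun k => measurableSet_le (by fun_prop) (by fun_prop))
  · calc dA oct ≤ dA (⋃ k : Fin 8, {z | z * conj (zeta ^ (k : ℕ)) ∈ sec}) :=
          measure_mono fun z hz => by
            obtain ⟨k, hk⟩ := cover z
            refine mem_iUnion.2 ⟨k, ?_, hk, ?_⟩ <;> rw [norm_mul, n, mul_one]
            exacts [hz.1, hz.2 k]
      _ ≤ ∑ k : Fin 8, dA {z | z * conj (zeta ^ (k : ℕ)) ∈ sec} := measure_iUnion_fintype_le _ _
      _ ≤ ∑ _k : Fin 8, ENNReal.ofReal (π / 8) := Finset.sum_le_sum fun k _ => rot_le (n k)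
      _ = _ := by
          rw [← ENNReal.ofReal_sum_of_nonneg fun _ _ => by positivity]
          congr 1
          simp only [Finset.sum_const, Finset.card_univ, Fintype.card_fin, nsmul_eq_mul]
          ring

end Pool.Agent.MP_417fa2_gt.Q2
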