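import Pool.Agent.MP_417fa2_gt.Q2.S4W

/-! Embedded discs: the area from below, and disc integrals of functions of mean zero. -/

open scoped ContDiff ComplexConjugate ENNReal
open MeasureTheory Set Metric Real

namespace Pool.Agent.MP_417fa2_gt.Q2

theorem s10_neg_ne : SU.neg1 ≠ 1 := fun h => by
  have := congrArg (fun γ : SU => γ.a.re) h
  simp only [SU.neg1, SU.one_a, Complex.neg_re, Complex.one_re] at this
  linarith

theorem s10_sig_pos {ϱ : ℝ} (h0 : 0 < ϱ) (h1 : ϱ < 1) : 0 < sig ϱ :=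
  div_pos (by positivity) (by nlinarith)

/-- Two points of one orbit in a small disc differ by `±1`. -/
theorem s10_emb {T : ℝ} (L : Lat T) {ϱ : ℝ} (h0 : 0 < ϱ) (h1 : ϱ < 1) (hT : 1 + 2 * sig ϱ ≤ T)
    (σ : SU) {δ : SU} (hδ : δ ∈ L.Γ) {z : ℂ} (hz : ‖z‖ < 1) (a : ‖σ.act z‖ < ϱ)
    (b : ‖σ.act (δ.act z)‖ < ϱ) : δ = 1 ∨ δ = SU.neg1 := by
  rcases L.tr δ hδ with h | h | h
  · exact Or.inl h
  · exact Or.inr h
  exfalso
  have hs := s10_sig_pos h0 h1
  have k1 := one_sub_disp_le δ (by linarith) h hz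
  set m := max ‖σ.act z‖ ‖σ.act (δ.act z)‖ with hm
  have m1 : m < ϱ := max_lt a b
  have m0 : 0 ≤ m := (norm_nonneg _).trans (le_max_left _ _)
  have k2 := one_sub_pdist_ge (m1.trans h1) (le_max_right _ _ : ‖σ.act (δ.act z)‖ ≤ m)
    (le_max_left _ _ : ‖σ.act z‖ ≤ m)
  rw [pdist_act σ (δ.act_lt hz) hz] at k2
  have e1 : 0 < 1 - ϱ ^ 2 := by nlinarith
  have e2 : m ^ 2 < ϱ ^ 2 := by nlinarith
  have e3 : (1 + ϱ ^ 2) / (1 - ϱ ^ 2) ≤ T := by
    refine le_of_eq_of_le ?_ hT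
    unfold sig
    field_simp
    ring
  have e4 : 1 / T < (1 - m ^ 2) / (1 + m ^ 2) := by
    rw [div_le_iff₀ e1] at e3
    rw [div_lt_div_iff₀ (by linarith) (by positivity)]
    nlinarith
  have e5 : (1 / T) ^ 2 < ((1 - m ^ 2) / (1 + m ^ 2)) ^ 2 :=
    pow_lt_pow_left₀ e4 (div_nonneg zero_le_one (by linarith)) two_ne_zero
  rw [div_pow, one_pow] at e5
  linarith

/-- The points whose orbit meets the disc. -/
def s10E (Γ : Subgroup SU) (σ : SU) (ϱ : ℝ) : Set ℂ :=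
  ⋃ γ : Γ, {y | σ.act ((γ : SU).act y) ∈ ball (0 : ℂ) ϱ}

theorem s10E_meas {T : ℝ} (L : Lat T) (σ : SU) (ϱ : ℝ) : MeasurableSet (s10E L.Γ σ ϱ) := by
  have := L.countable
  exact MeasurableSet.iUnion fun γ =>
    (σ.measurable_act.comp (γ : SU).measurable_act) measurableSet_ball

theorem s10_tsum {T : ℝ} (L : Lat T) {ϱ : ℝ} (h0 : 0 < ϱ) (h1 : ϱ < 1) (hT : 1 + 2 * sig ϱ ≤ T)
    (σ : SU) {y : ℂ} (hy : ‖y‖ < 1) (f : ℂ → ℝ) (g : L.Γ → ℝ)
    (ha : ∀ γ : L.Γ, σ.act ((γ : SU).act y) ∈ ball (0 : ℂ) ϱ → g γ = f y)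
    (hb : ∀ γ : L.Γ, σ.act ((γ : SU).act y) ∉ ball (0 : ℂ) ϱ → g γ = 0) :
    ∑' γ, g γ = 2 * (s10E L.Γ σ ϱ).indicator f y := by
  classical
  by_cases h : y ∈ s10E L.Γ σ ϱ
  · rw [indicator_of_mem h]
    obtain ⟨γ, hγ⟩ := mem_iUnion.1 h
    have hγ' : σ.act ((γ : SU).act y) ∈ ball (0 : ℂ) ϱ := hγ
    let n : L.Γ := ⟨SU.neg1, L.neg_mem⟩
    have hn : γ ≠ n * γ := fun c => s10_neg_ne (congrArg Subtype.val (right_eq_mul.1 c))
    rw [tsum_eq_sum (s := {γ, n * γ}) fun δ hδ => hb δ fun c => hδ ?_, Finset.sum_pair hn,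
      ha γ hγ', ha (n * γ) (by
        rw [Subgroup.coe_mul, SU.mul_act _ _ hy]
        simpa [n] using hγ'), two_mul]
    have e : ((δ * γ⁻¹ : L.Γ) : SU).act ((γ : SU).act y) = (δ : SU).act y := by
      rw [← SU.mul_act _ _ hy]
      simp
    rcases s10_emb L h0 h1 hT σ (δ * γ⁻¹).2 ((γ : SU).act_lt hy) (mem_ball_zero_iff.1 hγ')
      (by rw [e]; exact mem_ball_zero_iff.1 c) with k | k
    · have : δ * γ⁻¹ = 1 := Subtype.ext k
      simp [mul_inv_eq_one.1 this]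
    · have : δ * γ⁻¹ = n := Subtype.ext k
      simp [mul_inv_eq_iff_eq_mul.1 this]
  · rw [indicator_of_notMem h, mul_zero,
      tsum_congr fun γ => hb γ fun c => h (mem_iUnion.2 ⟨γ, c⟩), tsum_zero]

theorem s10_rep {T : ℝ} (L : Lat T) (W : Wt L.Γ) {ϱ : ℝ} (h0 : 0 < ϱ) (h1 : ϱ < 1)
    (hT : 1 + 2 * sig ϱ ≤ T) (hfin : dA (ball 0 ϱ) ≠ ⊤) {x : ℂ} (τ : SU)
    (hτ : ∀ z, τ.act z = mob x z) {f : ℂ → ℝ} (hf : Ct f) (hi : Invt L.Γ f) :
    ∫ y in s10E L.Γ τ⁻¹ ϱ, f y ∂W.μ = Tb ϱ f x := by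
  obtain ⟨C, hC⟩ := (wStmt T L W).bdd f hf hi
  let G : ℂ → ℝ := (ball 0 ϱ).indicator fun η => (ball 0 1).indicator f (τ.act η)
  have hm : Measurable fun η => (ball (0 : ℂ) 1).indicator f (τ.act η) := τ.meas hf.meas
  have hG : Measurable G := hm.indicator measurableSet_ball
  have hin : ∀ η ∈ ball (0 : ℂ) ϱ, τ.act η ∈ ball (0 : ℂ) 1 := fun η h =>
    τ.mapsTo_act (ball_subset_ball h1.le h)
  have hI : Integrable G dA := by
    rw [integrable_indicator_iff measurableSet_ball]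
    refine Measure.integrableOn_of_bounded hfin hm.aestronglyMeasurable (M := C)
      ((ae_restrict_mem measurableSet_ball).mono fun η h => ?_)
    rw [indicator_of_mem (hin η h)]
    exact hC _ (mem_ball_zero_iff.1 (hin η h))
  have h2 := (unfold_r L W (fun z => G (τ⁻¹.act z)) (τ⁻¹.meas hG)
    (τ⁻¹.measurePreserving.integrable_comp_of_integrable hI)).2
  have h3 : ∫ z, G z ∂dA = Tb ϱ f x := by
    rw [integral_indicator measurableSet_ball]
    refine setIntegral_congr_fun measurableSet_ball fun η h => ?_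
    rw [indicator_of_mem (hin η h), hτ]
  rw [integral_act τ⁻¹ G hG.aestronglyMeasurable, h3, integral_congr_ae (W.ae_lt.mono fun y hy =>
    s10_tsum L h0 h1 hT τ⁻¹ hy f _ (fun γ c => ?_) fun γ c => indicator_of_notMem c _),
    integral_const_mul, integral_indicator (s10E_meas L _ _)] at h2
  · linarith
  · have k := (γ : SU).act_lt hy
    refine (indicator_of_mem c _).trans ?_
    rw [τ.act_inv_act k, indicator_of_mem (mem_ball_zero_iff.2 k),
      hi _ γ.2 y hy]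

theorem s10_cs {μ : Measure ℂ} [IsFiniteMeasure μ] {E : Set ℂ} (hE : MeasurableSet E) {f : ℂ → ℝ}
    (h1 : Integrable f μ) (h2 : Integrable (fun z => f z ^ 2) μ) (h0 : ∫ z, f z ∂μ = 0)
    (hA : 0 < μ.real E) :
    μ.real univ * (∫ z in E, f z ∂μ) ^ 2 ≤
      μ.real E * (μ.real univ - μ.real E) * ∫ z, f z ^ 2 ∂μ := by
  have part : ∀ S : Set ℂ, ∀ t : ℝ,
      0 ≤ ∫ z in S, f z ^ 2 ∂μ - 2 * t * ∫ z in S, f z ∂μ + t ^ 2 * μ.real S := fun S t => by
    have k : 0 ≤ ∫ z in S, (f z ^ 2 - 2 * t * f z + t ^ 2) ∂μ :=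
      integral_nonneg fun z => by
        simp only [Pi.zero_apply]
        nlinarith [sq_nonneg (f z - t)]
    have i1 : Integrable (fun z => f z ^ 2 - 2 * t * f z) (μ.restrict S) :=
      h2.integrableOn.sub (h1.integrableOn.const_mul _)
    rw [integral_add i1 (integrable_const _),
      integral_sub h2.integrableOn (h1.integrableOn.const_mul _), integral_const_mul,
      setIntegral_const, smul_eq_mul] at k
    linarith
  have s1 := integral_add_compl hE h1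
  have s2 := integral_add_compl hE h2
  have s3 : μ.real Eᶜ = μ.real univ - μ.real E := measureReal_compl hE
  have hV : μ.real E ≤ μ.real univ := measureReal_mono (subset_univ _)
  set A := μ.real E
  set V := μ.real univ
  set a := ∫ z in E, f z ∂μ
  have key : ∀ t : ℝ, 0 ≤ (V * A * (V - A)) * (t * t) + (-2 * V * a) * t + ∫ z, f z ^ 2 ∂μ :=
    fun t => by
      have p1 := part E (t * (V - A))
      have p2 := part Eᶜ (-(t * A))
      have e : ∫ z in Eᶜ, f z ∂μ = -a := by linarith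
      rw [s3, e] at p2
      rw [← s2]
      nlinarith
  have d := discrim_le_zero key
  rw [discrim] at d
  have hV0 : 0 < V := hA.trans_le hV
  refine le_of_mul_le_mul_left ?_ hV0
  nlinarith

theorem embStmt (_h1 : UnfFacts) (_h2 : WStmt) (h3 : GreenStmt) : EmbStmt := by
  intro T L W ϱ h0 h1 hT
  have := W.finite
  have hA := (h3 ϱ h0 h1).1
  have hp : 0 < π * sig ϱ := mul_pos pi_pos (s10_sig_pos h0 h1)
  have hfin : dA (ball 0 ϱ) ≠ ⊤ := fun c => by
    rw [Measure.real, c] at hA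
    simp only [ENNReal.toReal_top] at hA
    linarith
  have area : ∀ (x : ℂ) (τ : SU), (∀ z, τ.act z = mob x z) →
      W.μ.real (s10E L.Γ τ⁻¹ ϱ) = π * sig ϱ := fun x τ hτ => by
    have k := s10_rep L W h0 h1 hT hfin τ hτ (f := fun _ => 1) continuousOn_const
      fun _ _ _ _ => rfl
    simpa [Tb, hA] using k
  refine ⟨?_, fun f hf hi hz x hx => ?_⟩
  · rw [← area 0 1 (by simp)]
    exact measureReal_mono (subset_univ _)
  · obtain ⟨τ, hτ⟩ := exists_tl hx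
    rw [← s10_rep L W h0 h1 hT hfin τ hτ hf hi, ← area x τ hτ]
    exact s10_cs (s10E_meas L _ _) (W.integrable hf) (W.integrable (hf.pow 2)) hz
      (by rw [area x τ hτ]; exact hp)

end Pool.Agent.MP_417fa2_gt.Q2
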