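import Pool.Agent.MP_417fa2_gt.Q2.S3Unf

/-! Pointwise facts on the kernels of the disc integral. -/

open scoped ContDiff ComplexConjugate ENNReal
open MeasureTheory Set Metric Real

namespace Pool.Agent.MP_417fa2_gt.Q2

theorem k12_measurable {T : ℝ} (L : Lat T) (χ : SU → ℝ) (ϱ : ℝ) :
    Measurable fun p : ℂ × ℂ => kern L.Γ χ ϱ p.1 p.2 := by
  have := L.countable
  unfold kern
  refine Measurable.const_mul (Measurable.tsum fun γ => ?_) _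
  refine Measurable.ite (measurableSet_lt ?_ measurable_const) measurable_const measurable_const
  unfold pdist SU.act
  fun_prop

/-- Two points of one orbit in a small disc come from the same element up to sign. -/
theorem Lat.k12_close {T : ℝ} (L : Lat T) {ϱ : ℝ} (h0 : 0 < ϱ) (h1 : ϱ < 1) (hT : 1 + 2 * sig ϱ ≤ T)
    {δ : SU} (hδ : δ ∈ L.Γ) {x z : ℂ} (hx : ‖x‖ < 1) (hz : ‖z‖ < 1) (ha : pdist z x < ϱ)
    (hb : pdist (δ.act z) x < ϱ) : δ = 1 ∨ δ = SU.neg1 := by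
  rcases L.tr δ hδ with h | h | h
  · exact Or.inl h
  · exact Or.inr h
  exfalso
  have hq : 0 < 1 - ϱ ^ 2 := by nlinarith
  have hs : 1 + 2 * sig ϱ = (1 + ϱ ^ 2) / (1 - ϱ ^ 2) := by
    unfold sig
    field_simp
    ring
  have hT0 : 0 < 1 + 2 * sig ϱ := by rw [hs]; positivity
  obtain ⟨η, e1, e2, e3⟩ := exists_mob hx (δ.act_lt hz)
  obtain ⟨ξ, f1, f2, f3⟩ := exists_mob hx hz
  have k1 := one_sub_disp_le δ (hT0.trans_le hT) h hz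
  have k2 : pdist (δ.act z) z = pdist η ξ := by
    rw [← pdist_mob hx e1 f1, e2, f2]
  have hr : max ‖η‖ ‖ξ‖ < ϱ := max_lt (e3 ▸ hb) (f3 ▸ ha)
  have hr0 : 0 ≤ max ‖η‖ ‖ξ‖ := (norm_nonneg η).trans (le_max_left _ _)
  have k3 := one_sub_pdist_ge (hr.trans h1) (le_max_left ‖η‖ ‖ξ‖) (le_max_right ‖η‖ ‖ξ‖)
  generalize max ‖η‖ ‖ξ‖ = r at hr hr0 k3
  have k4 : 1 / T ≤ (1 - ϱ ^ 2) / (1 + ϱ ^ 2) := by
    rw [hs] at hT
    calc 1 / T ≤ 1 / ((1 + ϱ ^ 2) / (1 - ϱ ^ 2)) := one_div_le_one_div_of_le (by positivity) hT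
      _ = _ := one_div_div _ _
  have k5 : (1 - ϱ ^ 2) / (1 + ϱ ^ 2) < (1 - r ^ 2) / (1 + r ^ 2) := by
    rw [div_lt_div_iff₀ (by positivity) (by positivity)]
    nlinarith
  have k6 : 0 < 1 / T := one_div_pos.2 (hT0.trans_le hT)
  have k7 : (1 / T) ^ 2 < ((1 - r ^ 2) / (1 + r ^ 2)) ^ 2 :=
    pow_lt_pow_left₀ (k4.trans_lt k5) k6.le (by norm_num)
  rw [div_pow, one_pow] at k7
  rw [k2] at k1
  linarith

theorem SU.k12_neg1_mul_ne (γ : SU) : SU.neg1 * γ ≠ γ := by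
  intro h
  have h1 : SU.neg1 = 1 := by simpa using h
  have h2 := congrArg SU.a h1
  simp only [SU.neg1, SU.one_a] at h2
  norm_num at h2

namespace Pair

variable (P : Pair)

theorem k12_mul_self (i : Fin 3) {γ : SU} (h : γ ∈ P.L3.Γ) : P.χ i γ * P.χ i γ = 1 := by
  rcases P.χ_sq i γ h with e | e <;> rw [e] <;> norm_num

theorem k12_one (i : Fin 3) : P.χ i 1 = 1 := by
  have h := P.χ_mul i 1 P.L3.Γ.one_mem 1 P.L3.Γ.one_mem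
  rw [one_mul, P.k12_mul_self i P.L3.Γ.one_mem] at h
  exact h

theorem k12_inv (i : Fin 3) {γ : SU} (h : γ ∈ P.L3.Γ) : P.χ i γ⁻¹ = P.χ i γ := by
  have h1 := P.χ_mul i γ h γ⁻¹ (P.L3.Γ.inv_mem h)
  rw [mul_inv_cancel, P.k12_one] at h1
  linear_combination P.χ i γ * h1.symm - P.χ i γ⁻¹ * P.k12_mul_self i h

open Classical in
/-- The indicator of the elements of one coset that bring `y` close to `x`. -/
noncomputable def k12_ind (ϱ : ℝ) (x y : ℂ) (e₀ e₁ : ℝ) (γ : P.L3.Γ) : ℝ :=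
  if pdist ((γ : SU).act y) x < ϱ ∧ P.χ 0 γ = e₀ ∧ P.χ 1 γ = e₁ then 1 else 0

theorem k12_ind_sum {ϱ : ℝ} (h0 : 0 < ϱ) (h1 : ϱ < 1) (hT : 1 + 2 * sig ϱ ≤ 3 + 2 * √2) {x y : ℂ}
    (hx : ‖x‖ < 1) (hy : ‖y‖ < 1) (e₀ e₁ : ℝ) :
    ∃ n : ℝ, (n = 0 ∨ n = 1) ∧ HasSum (P.k12_ind ϱ x y e₀ e₁) (2 * n) := by
  classical
  by_cases h : ∃ γ : P.L3.Γ, pdist ((γ : SU).act y) x < ϱ ∧ P.χ 0 γ = e₀ ∧ P.χ 1 γ = e₁
  · obtain ⟨γ, a0, a1, a2⟩ := h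
    have hn := (P.mem4 _).1 P.L4.neg_mem
    let γ' : P.L3.Γ := ⟨SU.neg1, hn.1⟩ * γ
    have hne : γ ≠ γ' := fun e => SU.k12_neg1_mul_ne γ (congrArg Subtype.val e).symm
    have v1 : P.k12_ind ϱ x y e₀ e₁ γ = 1 := if_pos ⟨a0, a1, a2⟩
    have v2 : P.k12_ind ϱ x y e₀ e₁ γ' = 1 := by
      refine if_pos ⟨?_, ?_, ?_⟩
      · change pdist ((SU.neg1 * γ).act y) x < ϱ
        rwa [SU.mul_act _ _ hy, SU.neg1_act]
      · change P.χ 0 (SU.neg1 * γ) = e₀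
        rw [P.χ_mul 0 _ hn.1 _ γ.2, hn.2.1, one_mul, a1]
      · change P.χ 1 (SU.neg1 * γ) = e₁
        rw [P.χ_mul 1 _ hn.1 _ γ.2, hn.2.2, one_mul, a2]
    refine ⟨1, Or.inr rfl, ?_⟩
    have hs : HasSum (P.k12_ind ϱ x y e₀ e₁) (∑ δ ∈ ({γ, γ'} : Finset P.L3.Γ), P.k12_ind ϱ x y e₀ e₁ δ) := by
      refine hasSum_sum_of_ne_finset_zero fun δ hδ => if_neg fun hc => hδ ?_
      obtain ⟨b0, b1, b2⟩ := hc
      have hi := P.L3.Γ.inv_mem γ.2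
      have hm : (δ : SU) * (γ : SU)⁻¹ ∈ P.L4.Γ := by
        refine (P.mem4 _).2 ⟨P.L3.Γ.mul_mem δ.2 hi, ?_, ?_⟩
        · rw [P.χ_mul 0 _ δ.2 _ hi, P.k12_inv 0 γ.2, b1, ← a1, P.k12_mul_self 0 γ.2]
        · rw [P.χ_mul 1 _ δ.2 _ hi, P.k12_inv 1 γ.2, b2, ← a2, P.k12_mul_self 1 γ.2]
      have hc := P.L4.k12_close h0 h1 hT hm hx ((γ : SU).act_lt hy) a0 (by
        rwa [← SU.mul_act _ _ hy, inv_mul_cancel_right])
      rw [Finset.mem_insert, Finset.mem_singleton]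
      rcases hc with e | e
      · exact Or.inl (Subtype.ext (mul_inv_eq_one.1 e))
      · exact Or.inr (Subtype.ext (mul_inv_eq_iff_eq_mul.1 e))
    rw [Finset.sum_pair hne, v1, v2] at hs
    norm_num at hs ⊢
    exact hs
  · refine ⟨0, Or.inl rfl, ?_⟩
    have : P.k12_ind ϱ x y e₀ e₁ = fun _ => 0 := funext fun γ => if_neg fun hc => h ⟨γ, hc⟩
    rw [this, mul_zero]
    exact hasSum_zero

theorem k12_eq {ϱ : ℝ} {x y : ℂ} {a b c d : ℝ} (ha : HasSum (P.k12_ind ϱ x y 1 1) (2 * a))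
    (hb : HasSum (P.k12_ind ϱ x y (-1) 1) (2 * b)) (hc : HasSum (P.k12_ind ϱ x y 1 (-1)) (2 * c))
    (hd : HasSum (P.k12_ind ϱ x y (-1) (-1)) (2 * d)) (χ : SU → ℝ) (F : ℝ → ℝ → ℝ)
    (hF : ∀ γ ∈ P.L3.Γ, χ γ = F (P.χ 0 γ) (P.χ 1 γ)) :
    kern P.L3.Γ χ ϱ x y = F 1 1 * a + F (-1) 1 * b + F 1 (-1) * c + F (-1) (-1) * d := by
  classical
  have hs := (((ha.mul_left (F 1 1)).add (hb.mul_left (F (-1) 1))).add
    (hc.mul_left (F 1 (-1)))).add (hd.mul_left (F (-1) (-1)))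
  have n1 : (1 : ℝ) ≠ -1 := by norm_num
  have n2 : (-1 : ℝ) ≠ 1 := by norm_num
  have he : ∀ γ : P.L3.Γ, (if pdist ((γ : SU).act y) x < ϱ then χ γ else 0) =
      F 1 1 * P.k12_ind ϱ x y 1 1 γ + F (-1) 1 * P.k12_ind ϱ x y (-1) 1 γ +
        F 1 (-1) * P.k12_ind ϱ x y 1 (-1) γ + F (-1) (-1) * P.k12_ind ϱ x y (-1) (-1) γ := fun γ => by
    rw [hF γ γ.2]
    unfold k12_ind
    by_cases hp : pdist ((γ : SU).act y) x < ϱ <;> rcases P.χ_sq 0 γ γ.2 with e | e <;>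
      rcases P.χ_sq 1 γ γ.2 with e' | e' <;> simp [hp, e, e', n1, n2]
  unfold kern
  rw [tsum_congr he, hs.tsum_eq]
  ring

theorem k12_left {ϱ : ℝ} {x y : ℂ} (hx : ‖x‖ < 1) (hy : ‖y‖ < 1) (i : Fin 3) {γ : SU}
    (hγ : γ ∈ P.L3.Γ) :
    kern P.L3.Γ (P.χ i) ϱ (γ.act x) y = P.χ i γ * kern P.L3.Γ (P.χ i) ϱ x y := by
  classical
  unfold kern
  rw [mul_left_comm, ← tsum_mul_left (a := P.χ i γ)]
  congr 1
  refine ((Equiv.mulLeft (⟨γ, hγ⟩ : P.L3.Γ)).tsum_eq _).symm.trans (tsum_congr fun δ => ?_)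
  have e : ((Equiv.mulLeft (⟨γ, hγ⟩ : P.L3.Γ) δ : P.L3.Γ) : SU) = γ * δ := rfl
  rw [e, SU.mul_act _ _ hy, pdist_act γ ((δ : SU).act_lt hy) hx, P.χ_mul i _ hγ _ δ.2, mul_ite, mul_zero]

theorem k12_right {ϱ : ℝ} {x y : ℂ} (hy : ‖y‖ < 1) (i : Fin 3) {γ : SU} (hγ : γ ∈ P.L3.Γ) :
    kern P.L3.Γ (P.χ i) ϱ x y = P.χ i γ * kern P.L3.Γ (P.χ i) ϱ x (γ.act y) := by
  classical
  unfold kern
  rw [mul_left_comm, ← tsum_mul_left (a := P.χ i γ)]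
  congr 1
  refine ((Equiv.mulRight (⟨γ, hγ⟩ : P.L3.Γ)).tsum_eq _).symm.trans (tsum_congr fun δ => ?_)
  have e : ((Equiv.mulRight (⟨γ, hγ⟩ : P.L3.Γ) δ : P.L3.Γ) : SU) = δ * γ := rfl
  rw [e, SU.mul_act _ _ hy, P.χ_mul i _ δ.2 _ hγ, mul_ite, mul_zero, mul_comm]

/-- Conjugation by the normalizing element. -/
def k12_conjE : P.L3.Γ ≃ P.L3.Γ where
  toFun δ := ⟨P.om * δ * P.om⁻¹, (P.om_n δ).1 δ.2⟩
  invFun δ := ⟨P.om⁻¹ * δ * P.om, (P.om_n _).2 (by simp [mul_assoc])⟩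
  left_inv δ := Subtype.ext (by simp [mul_assoc])
  right_inv δ := Subtype.ext (by simp [mul_assoc])

theorem k12_om {ϱ : ℝ} {x y : ℂ} (hx : ‖x‖ < 1) (hy : ‖y‖ < 1) (i : Fin 3) :
    kern P.L3.Γ (P.χ (i + 1)) ϱ (P.om.act x) (P.om.act y) = kern P.L3.Γ (P.χ i) ϱ x y := by
  classical
  unfold kern
  rw [← P.k12_conjE.tsum_eq]
  congr 1
  refine tsum_congr fun δ => ?_
  have e : ((P.k12_conjE δ : P.L3.Γ) : SU) = P.om * δ * P.om⁻¹ := rfl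
  rw [e, P.om_χ i _ δ.2, ← SU.mul_act _ _ hy, inv_mul_cancel_right, SU.mul_act _ _ hy,
    pdist_act P.om ((δ : SU).act_lt hy) hx]

end Pair

theorem kernStmt : KernStmt := by
  intro P ϱ h0 h1 hT
  refine ⟨k12_measurable P.L3 _ _, fun i => k12_measurable P.L3 _ _, fun x y hx hy => ?_⟩
  obtain ⟨a, a1, ha⟩ := P.k12_ind_sum h0 h1 hT hx hy 1 1
  obtain ⟨b, b1, hb⟩ := P.k12_ind_sum h0 h1 hT hx hy (-1) 1
  obtain ⟨c, c1, hc⟩ := P.k12_ind_sum h0 h1 hT hx hy 1 (-1)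
  obtain ⟨d, d1, hd⟩ := P.k12_ind_sum h0 h1 hT hx hy (-1) (-1)
  have k := P.k12_eq ha hb hc hd (fun _ => 1) (fun _ _ => 1) fun _ _ => rfl
  have k0 := P.k12_eq ha hb hc hd (P.χ 0) (fun s _ => s) fun _ _ => rfl
  have k1 := P.k12_eq ha hb hc hd (P.χ 1) (fun _ t => t) fun _ _ => rfl
  have k2 := P.k12_eq ha hb hc hd (P.χ 2) (fun s t => s * t) P.χ_two
  refine ⟨?_, ?_, ?_, fun i γ hγ => ⟨?_, ?_⟩, fun i => P.k12_om hx hy i⟩
  · rw [k]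
    rcases a1 with rfl | rfl <;> rcases b1 with rfl | rfl <;> rcases c1 with rfl | rfl <;>
      rcases d1 with rfl | rfl <;> norm_num
  · rw [k]
    rcases a1 with rfl | rfl <;> rcases b1 with rfl | rfl <;> rcases c1 with rfl | rfl <;>
      rcases d1 with rfl | rfl <;> norm_num
  · rw [Fin.sum_univ_three, k, k0, k1, k2]
    rcases a1 with rfl | rfl <;> rcases b1 with rfl | rfl <;> rcases c1 with rfl | rfl <;>
      rcases d1 with rfl | rfl <;> norm_num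
  · rw [P.k12_left hx hy i hγ, mul_pow, sq (P.χ i γ), P.k12_mul_self i hγ, one_mul]
  · rw [P.k12_right hy i hγ, mul_pow, sq (P.χ i γ), P.k12_mul_self i hγ, one_mul]

end Pool.Agent.MP_417fa2_gt.Q2
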