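import Pool.Agent.MP_417fa2_gt.Q2.S8Schur

/-! The kernels represent the disc integral; integration on the cover of degree four. -/

open scoped ContDiff ComplexConjugate ENNReal
open MeasureTheory Set Metric Real

namespace Pool.Agent.MP_417fa2_gt.Q2

theorem kern_rep {T : ℝ} (L : Lat T) (W : Wt L.Γ) (χ : SU → ℝ) {ϱ : ℝ} (h0 : 0 < ϱ) (h1 : ϱ < 1)
    {x : ℂ} (hx : ‖x‖ < 1) {f : ℂ → ℝ} (hf : Ct f)
    (tw : ∀ γ ∈ L.Γ, ∀ z : ℂ, ‖z‖ < 1 → f (γ.act z) = χ γ * f z) :
    Tb ϱ f x = ∫ y, kern L.Γ χ ϱ x y * f y ∂W.μ := by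
  obtain ⟨τ, hτ⟩ := exists_tl hx
  let g : ℂ → ℝ := {y | pdist y x < ϱ}.indicator ((ball 0 1).indicator f)
  have hg : Measurable g := hf.meas.indicator
    (measurableSet_lt (S8.meas_pdist.comp (measurable_id.prodMk measurable_const)) measurable_const)
  have e : (fun η => g (τ.act η)) =ᵐ[dA] (ball 0 ϱ).indicator fun η => f (τ.act η) :=
    ae_dA.mono fun η h => by
      have k := τ.act_lt h
      simp only [hτ] at k ⊢
      by_cases c : ‖η‖ < ϱ <;> simp [g, pdist_mob_self hx h, k, c]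
  have hs : closedBall (0 : ℂ) ϱ ⊆ ball 0 1 := closedBall_subset_ball h1
  have hc : ContinuousOn (fun η => f (τ.act η)) (closedBall 0 ϱ) :=
    (hf.comp τ.contDiffOn_act_real.continuousOn τ.mapsTo_act).mono hs
  have hi : Integrable g dA := by
    obtain ⟨C, hC⟩ := (isCompact_closedBall (0 : ℂ) ϱ).exists_bound_of_continuousOn hc
    have := S8.finite_ball h0 h1
    refine (τ.measurePreserving.integrable_comp hg.aestronglyMeasurable).1
      (((integrable_indicator_iff measurableSet_ball).2 (Integrable.of_bound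
        ((hc.mono ball_subset_closedBall).aestronglyMeasurable measurableSet_ball) C
        ((ae_restrict_mem measurableSet_ball).mono fun z hz =>
          hC z (ball_subset_closedBall hz)))).congr e.symm)
  have e2 : ∫ y, kern L.Γ χ ϱ x y * f y ∂W.μ =
      ∫ y, 1 / 2 * ∑' γ : L.Γ, g ((γ : SU).act y) ∂W.μ :=
    integral_congr_ae (W.ae_lt.mono fun y hy => by
      simp only [kern, mul_assoc, ← tsum_mul_right]
      congr 1
      refine tsum_congr fun γ => ?_
      simp [g, indicator_apply, (γ : SU).act_lt hy, tw _ γ.2 y hy])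
  rw [e2, integral_const_mul, (unfold_r L W g hg hi).2,
    ← integral_act τ g hg.aestronglyMeasurable, integral_congr_ae e,
    integral_indicator measurableSet_ball, Tb]
  simp only [hτ]
  ring

theorem kernRep : KernRepStmt := fun P W ϱ h0 h1 x hx =>
  ⟨by simpa [Tb, ← (greenStmt ϱ h0 h1).1] using (kern_rep P.L3 W (fun _ => 1) h0 h1 hx
      (f := fun _ => 1) continuousOn_const fun _ _ _ _ => (mul_one _).symm).symm,
    fun i _ hf tw => kern_rep P.L3 W (P.χ i) h0 h1 hx hf tw⟩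

theorem idxStmt : IdxStmt := fun P W W' => by
  classical
  obtain ⟨a, a0, a1, a2⟩ := P.surj 1 1 (.inl rfl) (.inl rfl)
  obtain ⟨b, b0, b1, b2⟩ := P.surj (-1) 1 (.inr rfl) (.inl rfl)
  obtain ⟨c, c0, c1, c2⟩ := P.surj 1 (-1) (.inl rfl) (.inr rfl)
  obtain ⟨d, d0, d1, d2⟩ := P.surj (-1) (-1) (.inr rfl) (.inr rfl)
  have hv : ∀ k, ![a, b, c, d] k ∈ P.L3.Γ := fun k => by fin_cases k <;> assumption
  refine ⟨![a, b, c, d], hv, a1, a2, b1, b2, c1, c2, d1, d2, fun f hf hi => ?_⟩
  let g : ℂ → ℝ := fun z => W'.β z * (ball 0 1).indicator f z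
  have hg : Measurable g := W'.sm.continuous.measurable.mul hf.meas
  have e : (fun z => W'.β z * f z) =ᵐ[dA] g := ae_dA.mono fun z hz => by simp [g, hz]
  have hgi : Integrable g dA := by
    have := (integrable_withDensity_iff W'.measurable (by simp)).1 (W'.integrable hf)
    simp only [ENNReal.toReal_ofReal (W'.nonneg _), mul_comm (f _)] at this
    exact this.congr e
  have e1 : ∫ z, f z ∂W'.μ = ∫ z, g z ∂dA := by
    rw [← integral_congr_ae e, Wt.μ,
      integral_withDensity_eq_integral_toReal_smul W'.measurable (by simp)]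
    simp only [ENNReal.toReal_ofReal (W'.nonneg _), smul_eq_mul]
  have co : ∀ v ∈ P.L3.Γ, ∀ z : ℂ, ‖z‖ < 1 → HasSum (fun γ : P.L3.Γ =>
      if P.χ 0 γ = P.χ 0 v ∧ P.χ 1 γ = P.χ 1 v then g ((γ : SU).act z) else 0)
      (2 * f (v.act z)) := fun v hv z hz => by
    refine (Function.Injective.hasSum_iff (g := fun δ : P.L4.Γ =>
      (⟨δ * v, mul_mem ((P.mem4 _).1 δ.2).1 hv⟩ : P.L3.Γ))
      (fun δ δ' h => Subtype.ext (mul_right_cancel (congrArg Subtype.val h)))
      fun γ h => if_neg fun k => h ?_).1 ?_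
    · have m := mul_mem γ.2 (inv_mem hv)
      have n : ∀ i, P.χ i γ = P.χ i v → P.χ i (γ * v⁻¹) = 1 := fun i k => by
        have := P.χ_mul i _ m v hv
        rw [inv_mul_cancel_right, k] at this
        rcases P.χ_sq i v hv with r | r <;> rw [r] at this <;> linarith
      exact ⟨⟨_, (P.mem4 _).2 ⟨m, n 0 k.1, n 1 k.2⟩⟩, Subtype.ext (inv_mul_cancel_right _ _)⟩
    · refine ((W'.sum _ (v.act_lt hz)).mul_right (f (v.act z))).congr_fun fun δ => ?_
      obtain ⟨m, m0, m1⟩ := (P.mem4 _).1 δ.2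
      simp [g, P.χ_mul _ _ m v hv, m0, m1, SU.mul_act _ _ hz, (δ : SU).act_lt (v.act_lt hz),
        hi _ δ.2 _ (v.act_lt hz)]
  have e2 : ∫ z, ∑' γ : P.L3.Γ, g ((γ : SU).act z) ∂W.μ =
      ∫ z, ∑ k, 2 * f ((![a, b, c, d] k).act z) ∂W.μ :=
    integral_congr_ae (W.ae_lt.mono fun z hz => by
      refine HasSum.tsum_eq ?_
      convert hasSum_sum (s := Finset.univ) fun k _ => co _ (hv k) z hz using 2 with γ
      simp only [Fin.sum_univ_four, Matrix.cons_val]
      rcases P.χ_sq 0 _ γ.2 with r | r <;> rcases P.χ_sq 1 _ γ.2 with s | s <;> norm_num [*])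
  have ik : ∀ k, Integrable (fun z => f ((![a, b, c, d] k).act z)) W.μ := fun k =>
    W.integrable (hf.comp (SU.contDiffOn_act_real _).continuousOn (SU.mapsTo_act _))
  rw [(unfold_r P.L3 W g hg hgi).2, integral_finsetSum _ fun k _ => (ik k).const_mul 2] at e2
  simp only [integral_const_mul, ← Finset.mul_sum] at e2
  linarith

end Pool.Agent.MP_417fa2_gt.Q2
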