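import Pool.Agent.MP_417fa2_gt.Q2.SSpec

/-! The Hilbert-Schmidt bound on twisted functions. -/

open scoped ENNReal
open MeasureTheory Set Metric Real

namespace Pool.Agent.MP_417fa2_gt.Q2

theorem s14_amgm {I θ F : ℝ} (hθ : 0 < θ) (hF : 0 ≤ F)
    (h : ∀ t : ℝ, 0 < t → I ≤ t / 2 * θ ^ 2 + F / (2 * t) * F) : I ≤ θ * F := by
  rcases hF.eq_or_lt with rfl | hF
  · rw [mul_zero]
    by_contra hI
    have hI' : 0 < I := not_le.1 hI
    have := h (I / θ ^ 2) (by positivity)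
    rw [mul_zero, add_zero, show I / θ ^ 2 / 2 * θ ^ 2 = I / 2 by field_simp] at this
    linarith
  · have := h (F / θ) (by positivity)
    rw [show F / θ / 2 * θ ^ 2 + F / (2 * (F / θ)) * F = θ * F by field_simp; ring] at this
    exact this

theorem s14_core (μ : Measure ℂ) [IsFiniteMeasure μ] (hae : ∀ᵐ z ∂μ, ‖z‖ < 1)
    (hA : μ.real univ ≤ π) (Γ : Subgroup SU) (o : SU)
    (hnorm : ∀ F : ℂ → ℝ≥0∞, Measurable F →
      (∀ γ ∈ Γ, ∀ z : ℂ, ‖z‖ < 1 → F (γ.act z) = F z) → ∫⁻ z, F (o.act z) ∂μ = ∫⁻ z, F z ∂μ)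
    (n : ℂ → ℂ → ℝ) (k : Fin 3 → ℂ → ℂ → ℝ) (mn : Measurable fun p : ℂ × ℂ => n p.1 p.2)
    (mk : ∀ j, Measurable fun p : ℂ × ℂ => k j p.1 p.2)
    (hk : ∀ x y : ℂ, ‖x‖ < 1 → ‖y‖ < 1 → 0 ≤ n x y ∧ n x y ≤ 4 ∧
      n x y ^ 2 + ∑ j, k j x y ^ 2 = 4 * n x y ∧
      (∀ j, ∀ γ ∈ Γ, k j (γ.act x) y ^ 2 = k j x y ^ 2 ∧ k j x (γ.act y) ^ 2 = k j x y ^ 2) ∧
      ∀ j, k (j + 1) (o.act x) (o.act y) = k j x y)
    (hn1 : ∀ x : ℂ, ‖x‖ < 1 → ∫ y, n x y ∂μ = π * (1 + √2)) (i : Fin 3) (f T : ℂ → ℝ)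
    (if1 : Integrable f μ) (if2 : Integrable (fun z => f z ^ 2) μ)
    (ifT : Integrable (fun z => f z * T z) μ)
    (hT : ∀ x : ℂ, ‖x‖ < 1 → T x = ∫ y, k i x y * f y ∂μ) :
    ∫ x, f x * T x ∂μ ≤ 0.469 * (π * (1 + √2)) * ∫ z, f z ^ 2 ∂μ := by
  have hk16 : ∀ j x y, ‖x‖ < 1 → ‖y‖ < 1 → k j x y ^ 2 ≤ 16 := by
    intro j x y hx hy
    obtain ⟨a1, a2, a3, -, -⟩ := hk x y hx hy
    have := Finset.single_le_sum (f := fun j => k j x y ^ 2) (fun _ _ => sq_nonneg _)
      (Finset.mem_univ j)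
    have a4 := sq_nonneg (n x y)
    linarith
  have mky : ∀ j x, Measurable (k j x) := fun j x => (mk j).comp measurable_prodMk_left
  have mny : ∀ x, Measurable (n x) := fun x => mn.comp measurable_prodMk_left
  have ik2 : ∀ j x, ‖x‖ < 1 → Integrable (fun y => k j x y ^ 2) μ := by
    intro j x hx
    refine Integrable.of_bound ((mky j x).pow_const 2).aestronglyMeasurable 16 ?_
    filter_upwards [hae] with y hy
    rw [Real.norm_eq_abs, abs_of_nonneg (sq_nonneg _)]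
    exact hk16 j x y hx hy
  have in1 : ∀ x, ‖x‖ < 1 → Integrable (n x) μ := by
    intro x hx
    refine Integrable.of_bound (mny x).aestronglyMeasurable 4 ?_
    filter_upwards [hae] with y hy
    obtain ⟨a1, a2, -⟩ := hk x y hx hy
    rw [Real.norm_eq_abs, abs_of_nonneg a1]
    exact a2
  set H : Fin 3 → ℂ → ℝ := fun j x => ∫ y, k j x y ^ 2 ∂μ with hH
  have H0 : ∀ j x, 0 ≤ H j x := fun j x => integral_nonneg fun _ => sq_nonneg _
  have mH : ∀ j, Measurable (H j) := fun j =>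
    (((mk j).pow_const 2).stronglyMeasurable.integral_prod_right' (ν := μ)).measurable
  have hHl : ∀ j x, ‖x‖ < 1 →
      ENNReal.ofReal (H j x) = ∫⁻ y, ENNReal.ofReal (k j x y ^ 2) ∂μ := fun j x hx =>
    ofReal_integral_eq_lintegral_ofReal (ik2 j x hx)
      (Filter.Eventually.of_forall fun _ => sq_nonneg _)
  have hA0 : 0 ≤ μ.real univ := measureReal_nonneg
  set c : ℝ := 1 + √2 with hc
  have s2 : (√2 : ℝ) * √2 = 2 := Real.mul_self_sqrt (by norm_num)
  have s1 : (1.414 : ℝ) < √2 := Real.lt_sqrt_of_sq_lt (by norm_num)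
  have s3 : (√2 : ℝ) < 1.415 := (Real.sqrt_lt' (by norm_num)).2 (by norm_num)
  have hsum : ∀ x, ‖x‖ < 1 → H 0 x + H 1 x + H 2 x ≤ (4 - c) * (π * c) := by
    intro x hx
    have a1 : ∫ y, (k 0 x y ^ 2 + k 1 x y ^ 2 + k 2 x y ^ 2) ∂μ ≤
        ∫ y, ((4 - 2 * c) * n x y + c ^ 2) ∂μ := by
      apply integral_mono_ae (((ik2 0 x hx).add (ik2 1 x hx)).add (ik2 2 x hx))
        (((in1 x hx).const_mul _).add (integrable_const _))
      filter_upwards [hae] with y hy
      obtain ⟨-, -, a3, -, -⟩ := hk x y hx hy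
      rw [Fin.sum_univ_three] at a3
      simp only [Pi.add_apply]
      nlinarith [sq_nonneg (n x y - c)]
    rw [integral_add (f := fun y => k 0 x y ^ 2 + k 1 x y ^ 2)
        ((ik2 0 x hx).add (ik2 1 x hx)) (ik2 2 x hx),
      integral_add (ik2 0 x hx) (ik2 1 x hx),
      integral_add ((in1 x hx).const_mul _) (integrable_const _), integral_const_mul,
      integral_const, smul_eq_mul, hn1 x hx] at a1
    have := mul_le_mul_of_nonneg_right hA (sq_nonneg c)
    change H 0 x + H 1 x + H 2 x ≤ _ at a1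
    nlinarith
  have iH : ∀ j, Integrable (H j) μ := by
    intro j
    refine Integrable.of_bound (mH j).aestronglyMeasurable (16 * μ.real univ) ?_
    filter_upwards [hae] with x hx
    rw [Real.norm_eq_abs, abs_of_nonneg (H0 j x)]
    have : H j x ≤ ∫ _y, (16 : ℝ) ∂μ := by
      apply integral_mono_ae (ik2 j x hx) (integrable_const _)
      filter_upwards [hae] with y hy using hk16 j x y hx hy
    rw [integral_const, smul_eq_mul] at this
    linarith
  have hstep : ∀ j, ∫ x, H j x ∂μ = ∫ x, H (j + 1) x ∂μ := by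
    intro j
    rw [integral_eq_lintegral_of_nonneg_ae (Filter.Eventually.of_forall (H0 j))
        (mH j).aestronglyMeasurable,
      integral_eq_lintegral_of_nonneg_ae (Filter.Eventually.of_forall (H0 (j + 1)))
        (mH (j + 1)).aestronglyMeasurable]
    congr 1
    rw [← hnorm (fun x => ENNReal.ofReal (H (j + 1) x)) (mH (j + 1)).ennreal_ofReal]
    · apply lintegral_congr_ae
      filter_upwards [hae] with x hx
      have hx' := o.act_lt hx
      rw [hHl j x hx, hHl (j + 1) _ hx',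
        ← hnorm (fun y => ENNReal.ofReal (k (j + 1) (o.act x) y ^ 2))
          ((mky _ _).pow_const 2).ennreal_ofReal]
      · apply lintegral_congr_ae
        filter_upwards [hae] with y hy
        rw [show k (j + 1) (o.act x) (o.act y) = k j x y from (hk x y hx hy).2.2.2.2 j]
      · intro γ hγ y hy
        rw [show k (j + 1) (o.act x) (γ.act y) ^ 2 = k (j + 1) (o.act x) y ^ 2 from
          ((hk _ y hx' hy).2.2.2.1 (j + 1) γ hγ).2]
    · intro γ hγ x hx
      congr 1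
      apply integral_congr_ae
      filter_upwards [hae] with y hy using ((hk x y hx hy).2.2.2.1 (j + 1) γ hγ).1
  have htot : ∫ x, H 0 x ∂μ + ∫ x, H 1 x ∂μ + ∫ x, H 2 x ∂μ ≤ π * ((4 - c) * (π * c)) := by
    rw [← integral_add (iH 0) (iH 1),
      ← integral_add (f := fun x => H 0 x + H 1 x) ((iH 0).add (iH 1)) (iH 2)]
    have a1 : ∫ x, (H 0 x + H 1 x + H 2 x) ∂μ ≤ ∫ _x, (4 - c) * (π * c) ∂μ := by
      apply integral_mono_ae (((iH 0).add (iH 1)).add (iH 2)) (integrable_const _)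
      filter_upwards [hae] with x hx using hsum x hx
    rw [integral_const, smul_eq_mul] at a1
    refine a1.trans (mul_le_mul_of_nonneg_right hA ?_)
    exact mul_nonneg (by linarith) (mul_nonneg pi_pos.le (by linarith))
  have hHS : ∫ x, H i x ∂μ ≤ (0.469 * (π * c)) ^ 2 := by
    have e0 : ∫ x, H 0 x ∂μ = ∫ x, H 1 x ∂μ := hstep 0
    have e1 : ∫ x, H 1 x ∂μ = ∫ x, H 2 x ∂μ := hstep 1
    have a1 : (4 - c) * c ≤ 3 * (0.469 * c) ^ 2 := by rw [hc]; nlinarith
    have a2 := mul_le_mul_of_nonneg_left a1 (sq_nonneg π)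
    have a3 : ∫ x, H i x ∂μ = ∫ x, H 0 x ∂μ := by
      fin_cases i
      · rfl
      · exact e0.symm
      · exact (e0.trans e1).symm
    nlinarith
  apply s14_amgm (by positivity) (integral_nonneg fun _ => sq_nonneg _)
  intro t ht
  set F := ∫ z, f z ^ 2 ∂μ with hF
  have a1 : ∫ x, f x * T x ∂μ ≤ ∫ x, (t / 2 * H i x + F / (2 * t) * f x ^ 2) ∂μ := by
    apply integral_mono_ae ifT
      (((iH i).const_mul _).add (if2.const_mul _))
    filter_upwards [hae] with x hx
    have b0 : Integrable (fun y => k i x y * f y) μ := by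
      refine if1.bdd_mul (c := 4) (mky i x).aestronglyMeasurable ?_
      filter_upwards [hae] with y hy
      rw [Real.norm_eq_abs]
      exact abs_le_of_sq_le_sq' (by linarith [hk16 i x y hx hy]) (by norm_num) |> abs_le.2
    have b1 : ∫ y, f x * (k i x y * f y) ∂μ ≤
        ∫ y, (t / 2 * k i x y ^ 2 + f x ^ 2 / (2 * t) * f y ^ 2) ∂μ := by
      apply integral_mono (b0.const_mul _) (((ik2 i x hx).const_mul _).add (if2.const_mul _))
      intro y
      have : t / 2 * k i x y ^ 2 + f x ^ 2 / (2 * t) * f y ^ 2 - f x * (k i x y * f y) =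
          (t * k i x y - f x * f y) ^ 2 / (2 * t) := by field_simp; ring
      have b2 : 0 ≤ (t * k i x y - f x * f y) ^ 2 / (2 * t) := by positivity
      simp only [Pi.add_apply]
      linarith
    rw [integral_const_mul, integral_add ((ik2 i x hx).const_mul _) (if2.const_mul _),
      integral_const_mul, integral_const_mul] at b1
    simp only [Pi.add_apply]
    rw [hT x hx]
    refine b1.trans (le_of_eq ?_)
    simp only [hH, ← hF]
    ring
  rw [integral_add ((iH i).const_mul _) (if2.const_mul _), integral_const_mul,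
    integral_const_mul] at a1
  have := mul_le_mul_of_nonneg_left hHS (show 0 ≤ t / 2 by positivity)
  linarith

theorem hs4 (h1 : WStmt) (h2 : KernStmt) (h3 : KernRepStmt) (h4 : Gap3Stmt) (h5 : SchurFacts) :
    Hs4Stmt := by
  intro P W ϱ r0 r1 hs i f hf hχ
  have WF := h1 _ P.L3 W
  have := WF.fin
  obtain ⟨mn, mk, hk⟩ := h2 P ϱ r0 r1 (by rw [hs]; linarith)
  have hae : ∀ᵐ z ∂W.μ, ‖z‖ < 1 := by
    obtain ⟨s, hs1, hs2⟩ := WF.ae
    filter_upwards [hs2] with z hz using lt_of_le_of_lt hz hs1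
  rw [hs]
  exact s14_core W.μ hae (h4 P W).1 P.L3.Γ P.om (WF.norm P.om P.om_n)
    (kern P.L3.Γ (fun _ => 1) ϱ) (fun j => kern P.L3.Γ (P.χ j) ϱ) mn mk hk
    (fun x hx => (h3 P W ϱ r0 r1 x hx).1.trans (by rw [hs])) i f (Tb ϱ f) (WF.int _ hf)
    (WF.int _ (ContinuousOn.pow hf 2)) (WF.int _ (ContinuousOn.mul hf (h5.ct ϱ r0 r1 f hf)))
    (fun x hx => (h3 P W ϱ r0 r1 x hx).2 i f hf hχ)

end Pool.Agent.MP_417fa2_gt.Q2
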