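import Pool.Agent.MP_417fa2_gt.Q2.S6

/-! S17. The distance of orbits. -/

open scoped ComplexConjugate Topology
open Set Metric Filter

namespace Pool.Agent.MP_417fa2_gt.Q2

namespace S17

variable {Γ : Subgroup SU} {z w : ℂ}

theorem le (z w : ℂ) {γ : SU} (h : γ ∈ Γ) : dq Γ z w ≤ pdist z (γ.act w) :=
  ciInf_le (f := fun γ : Γ => pdist z ((γ : SU).act w))
    ⟨0, by rintro _ ⟨_, rfl⟩; exact pdist_nonneg _ _⟩ ⟨γ, h⟩

theorem ge {c : ℝ} (h : ∀ γ ∈ Γ, c ≤ pdist z (γ.act w)) : c ≤ dq Γ z w :=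
  le_ciInf fun γ : Γ => h γ γ.2

theorem le_one (z w : ℂ) : dq Γ z w ≤ pdist z w := by simpa using le z w Γ.one_mem

theorem att {T : ℝ} (L : Lat T) (hz : ‖z‖ < 1) (hw : ‖w‖ < 1) :
    ∃ γ ∈ L.Γ, dq L.Γ z w = pdist z (γ.act w) := by
  obtain ⟨τ, hτ⟩ := exists_tl hz
  have h0 : τ.act 0 = z := by rw [hτ, mob_zero]
  have hfin : {γ : SU | γ ∈ L.Γ ∧ pdist z (γ.act w) ≤ pdist z w}.Finite := by
    refine (L.fin (2 * ‖τ.a‖ * (1 / ((1 - ‖w‖) * (1 - pdist z w))))).subset fun γ h => ⟨h.1, ?_⟩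
    have h1 : ‖(τ⁻¹ * γ).act w‖ ≤ pdist z w := by
      rw [← pdist_zero, ← pdist_act τ (SU.act_lt _ hw) (by simp), h0, ← SU.mul_act _ _ hw,
        mul_inv_cancel_left, pdist_comm]
      exact h.2
    have h2 := S6.norm_a_le _ hw (pdist_lt_one hz hw) le_rfl h1
    have h3 : γ.a = τ.a * (τ⁻¹ * γ).a + τ.b * conj (τ⁻¹ * γ).b := by
      rw [← SU.mul_a, mul_inv_cancel_left]
    have h4 := norm_add_le (τ.a * (τ⁻¹ * γ).a) (τ.b * conj (τ⁻¹ * γ).b)
    rw [← h3, norm_mul, norm_mul, Complex.norm_conj] at h4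
    have h5 := mul_le_mul τ.norm_b_lt.le (τ⁻¹ * γ).norm_b_lt.le (norm_nonneg _) (norm_nonneg _)
    nlinarith [mul_le_mul_of_nonneg_left h2 (norm_nonneg τ.a)]
  obtain ⟨γ, h1, h2⟩ := Set.exists_min_image _ (fun γ : SU => pdist z (γ.act w)) hfin
    ⟨1, L.Γ.one_mem, by simp⟩
  refine ⟨γ, h1.1, le_antisymm (le z w h1.1) (ge fun γ' h => ?_)⟩
  rcases le_total (pdist z (γ'.act w)) (pdist z w) with c | c
  exacts [h2 γ' ⟨h, c⟩, h1.2.trans c]

theorem symm_le (hz : ‖z‖ < 1) (hw : ‖w‖ < 1) : dq Γ z w ≤ dq Γ w z := ge fun γ h => by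
  rw [← pdist_act γ⁻¹ hw (γ.act_lt hz), γ.inv_act_act hz, pdist_comm]
  exact le z w (Γ.inv_mem h)

theorem tri {T : ℝ} (L : Lat T) {p : ℂ} (hz : ‖z‖ < 1) (hp : ‖p‖ < 1) (hw : ‖w‖ < 1) :
    dq L.Γ z w ≤ dq L.Γ z p + dq L.Γ p w := by
  obtain ⟨γ, h1, h2⟩ := att L hz hp
  obtain ⟨γ', h3, h4⟩ := att L hp hw
  rw [h2, h4, ← pdist_act γ hp (γ'.act_lt hw), ← SU.mul_act _ _ hw]
  exact (le z w (L.Γ.mul_mem h1 h3)).trans (pdist_triangle hz (γ.act_lt hp) (SU.act_lt _ hw))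

theorem lip {T : ℝ} (L : Lat T) {p q : ℂ} (hz : ‖z‖ < 1) (hw : ‖w‖ < 1) (hp : ‖p‖ < 1)
    (hq : ‖q‖ < 1) : dq L.Γ z w - dq L.Γ p q ≤ pdist z p + pdist w q := by
  have h1 := tri L hz hp hw
  have h2 := tri L hp hq hw
  have h3 := le_one (Γ := L.Γ) z p
  have h4 := le_one (Γ := L.Γ) q w
  rw [pdist_comm q] at h4
  linarith

theorem tend (hz : ‖z‖ < 1) : Tendsto (fun x => pdist x z) (𝓝 z) (𝓝 0) := by
  have h : ContinuousAt (fun x => pdist x z) z :=
    ContinuousAt.div (by fun_prop) (by fun_prop) (norm_ne_zero_iff.2 (pd_den_ne hz hz))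
  simpa [ContinuousAt, pdist] using h

theorem disp {T : ℝ} (L : Lat T) (hT : 12 / 5 ≤ T) {γ : SU} (h : γ ∈ L.Γ) (hz : ‖z‖ < 1)
    (hd : pdist (γ.act z) z < 9 / 10) : γ = 1 ∨ γ = SU.neg1 := by
  rcases L.tr γ h with c | c | c
  exacts [.inl c, .inr c, by
    have h1 := one_sub_disp_le γ (T := 12 / 5) (by norm_num) (hT.trans c) hz
    nlinarith [pdist_nonneg (γ.act z) z]]

end S17

open S17 in
theorem dqStmt : DqStmt := fun T L hT =>
  { att := fun _ _ => att L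
    le := fun z w _ => le z w
    nonneg := fun _ _ => ge fun _ _ => pdist_nonneg _ _
    symm := fun _ _ hz hw => le_antisymm (symm_le hz hw) (symm_le hw hz)
    tri := fun _ _ _ => tri L
    inv := fun o ho z w hz hw => le_antisymm
      (ge fun γ h => by
        refine (le _ _ ((ho γ).1 h)).trans_eq ?_
        rw [← SU.mul_act _ _ hw, inv_mul_cancel_right, SU.mul_act _ _ hw,
          pdist_act o hz (γ.act_lt hw)])
      (ge fun γ h => by
        refine (le z w (γ := o⁻¹ * γ * o) ((ho _).2 (by simpa [mul_assoc] using h))).trans_eq ?_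
        rw [← pdist_act o hz (SU.act_lt _ hw), ← SU.mul_act _ _ hw, ← SU.mul_act _ _ hw,
          mul_assoc, mul_inv_cancel_left])
    inv' := fun γ h z w _ hw => le_antisymm
      (ge fun γ' h' => by
        refine (le _ _ (L.Γ.mul_mem h' (L.Γ.inv_mem h))).trans_eq ?_
        rw [← SU.mul_act _ _ hw, inv_mul_cancel_right])
      (ge fun γ' h' => by
        rw [← SU.mul_act _ _ hw]
        exact le _ _ (L.Γ.mul_mem h' h))
    cont := fun p hp => by
      have hz := mem_ball_zero_iff.1 hp.1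
      have hw := mem_ball_zero_iff.1 hp.2
      refine tendsto_iff_dist_tendsto_zero.2 (squeeze_zero' (.of_forall fun _ => dist_nonneg)
        (g := fun x => pdist x.1 p.1 + pdist x.2 p.2)
        (eventually_mem_nhdsWithin.mono fun x hx => ?_) (tendsto_nhdsWithin_of_tendsto_nhds ?_))
      · have h1 := mem_ball_zero_iff.1 hx.1
        have h2 := mem_ball_zero_iff.1 hx.2
        have h3 := lip L hz hw h1 h2
        rw [pdist_comm p.1, pdist_comm p.2] at h3
        exact abs_sub_le_iff.2 ⟨lip L h1 h2 hz hw, h3⟩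
      · simpa using ((tend hz).comp continuous_fst.continuousAt).add
          ((tend hw).comp continuous_snd.continuousAt)
    disp := fun _ h _ => disp L hT h
    near := fun z w hz hw h => by
      obtain ⟨γ, h1, h2⟩ := att L hz hw
      refine le_antisymm (le_one z w) (not_lt.1 fun c => ?_)
      have h3 := pdist_triangle (γ.act_lt hw) hz hw
      rw [pdist_comm _ z, ← h2] at h3
      rcases disp L hT h1 hw (by linarith) with rfl | rfl
      · simp [h2] at c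
      · simp [h2, SU.act, SU.neg1] at c }

end Pool.Agent.MP_417fa2_gt.Q2
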