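import Pool.Agent.MP_417fa2_gt.Q2.SSpec

/-! Weights exist. -/

open scoped ContDiff ComplexConjugate Topology
open Set Metric Filter

namespace Pool.Agent.MP_417fa2_gt.Q2

/-- Only finitely many elements move a point of one compact disc into another. -/
theorem Lat.locFin {T : ℝ} (L : Lat T) {r s : ℝ} (hr : r < 1) (hs : s < 1) :
    ∃ A : Finset L.Γ, ∀ γ ∉ A, ∀ z : ℂ, ‖z‖ ≤ r → s < ‖(γ : SU).act z‖ := by
  refine ⟨((L.fin ((1 / (1 - s) + 1) / (1 - r))).preimage Subtype.val_injective.injOn).toFinset,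
    fun γ h z hz => not_le.1 fun k => h ?_⟩
  simp only [Finite.mem_toFinset, mem_preimage, mem_ofPred_eq, SetLike.coe_mem, true_and]
  have hz' := hz.trans_lt hr
  have h0 := norm_pos_iff.2 ((γ : SU).den_ne hz')
  have h1 := (γ : SU).one_sub_act hz'
  have h2 : ‖(γ : SU).a‖ ≤ ‖conj (γ : SU).b * z + conj (γ : SU).a‖ + ‖(γ : SU).b‖ * ‖z‖ := by
    simpa using norm_sub_le (conj (γ : SU).b * z + conj (γ : SU).a) (conj (γ : SU).b * z)
  have h3 := mul_le_mul (γ : SU).norm_b_lt.le hz (norm_nonneg _) (norm_nonneg _)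
  generalize ‖conj (γ : SU).b * z + conj (γ : SU).a‖ = d at *
  have h4 := norm_nonneg ((γ : SU).act z)
  rw [eq_div_iff (by positivity)] at h1
  have h5 : d ^ 2 ≤ 1 / (1 - s) := by
    rw [le_div_iff₀ (by linarith)]
    have : 1 - s ≤ 1 - ‖(γ : SU).act z‖ ^ 2 := by nlinarith
    nlinarith [mul_le_mul_of_nonneg_right this (sq_nonneg d), sq_nonneg ‖z‖]
  rw [le_div_iff₀ (by linarith)]
  nlinarith [sq_nonneg (d - 1)]

theorem wtStmt : WtStmt := fun _ L => by
  obtain ⟨ϱ, h1, h2⟩ := L.cpt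
  have h3 : max ϱ 0 < 1 := max_lt h1 one_pos
  have h4 := le_max_right ϱ 0
  let b : ContDiffBump (0 : ℂ) := ⟨(max ϱ 0 + 1) / 2, (max ϱ 0 + 3) / 4, by linarith, by linarith⟩
  have hs : b.rOut < 1 := by simp only [b]; linarith
  have b0 : ∀ z : ℂ, b.rOut < ‖z‖ → b z = 0 := fun z hz => b.zero_of_le_dist (by simpa using hz.le)
  let S : ℂ → ℝ := fun z => ∑' γ : L.Γ, b ((γ : SU).act z)
  have hsum : ∀ z : ℂ, ‖z‖ < 1 → Summable fun γ : L.Γ => b ((γ : SU).act z) := fun z hz => by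
    obtain ⟨A, hA⟩ := L.locFin hz hs
    exact summable_of_ne_finset_zero (s := A) fun γ h => b0 _ (hA γ h z le_rfl)
  have hpos : ∀ z : ℂ, ‖z‖ < 1 → 0 < S z := fun z hz => by
    obtain ⟨γ, h, k⟩ := h2 z hz
    refine (hsum z hz).tsum_pos (fun _ => b.nonneg) ⟨γ, h⟩ ?_
    rw [b.one_of_mem_closedBall (mem_closedBall_zero_iff.2 (k.trans ?_))]
    · exact one_pos
    · simp only [b]
      linarith [le_max_left ϱ 0]
  refine ⟨⟨fun z => 2 * b z / S z, contDiff_iff_contDiffAt.2 fun z => ?_,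
    fun z => div_nonneg (mul_nonneg zero_le_two b.nonneg) (tsum_nonneg fun _ => b.nonneg),
    ⟨_, hs, fun z hz => by simp [b0 z hz]⟩, fun z hz => ?_⟩⟩
  · rcases lt_or_ge ‖z‖ 1 with hz | hz
    · obtain ⟨r, hr, hr'⟩ := exists_between hz
      obtain ⟨A, hA⟩ := L.locFin hr' hs
      refine (contDiffAt_const.mul b.contDiff.contDiffAt).div (ContDiffAt.congr_of_eventuallyEq
        (f := fun z => ∑ γ ∈ A, b ((γ : SU).act z)) (ContDiffAt.sum fun γ _ => ?_) ?_)
        (hpos z hz).ne'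
      · exact b.contDiff.contDiffAt.comp z ((γ : SU).contDiffOn_act_real.contDiffAt
          (isOpen_ball.mem_nhds (mem_ball_zero_iff.2 hz)))
      · filter_upwards [isOpen_ball.mem_nhds (mem_ball_zero_iff.2 hr)] with w hw
        exact tsum_eq_sum fun γ h => b0 _ (hA γ h w (mem_ball_zero_iff.1 hw).le)
    · refine (contDiffAt_const (c := 0)).congr_of_eventuallyEq ?_
      filter_upwards [(isOpen_lt continuous_const continuous_norm).mem_nhds (hs.trans_le hz)]
        with w hw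
      simp [b0 w hw]
  · have e : ∀ γ : L.Γ, S ((γ : SU).act z) = S z := fun γ => by
      simp only [S, ← SU.mul_act _ _ hz]
      exact (Equiv.mulRight γ).tsum_eq fun δ : L.Γ => b ((δ : SU).act z)
    simp only [e]
    have := ((hsum z hz).hasSum.mul_left 2).div_const (S z)
    rwa [mul_div_assoc, div_self (hpos z hz).ne', mul_one] at this

end Pool.Agent.MP_417fa2_gt.Q2
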