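import Pool.Agent.MP_417fa2_gt.Q2.SSpec

/-! Invariance of the area of the disc, and unfolding. -/

open scoped ContDiff ComplexConjugate ENNReal
open MeasureTheory Set Metric Real

namespace Pool.Agent.MP_417fa2_gt.Q2

theorem SU.measurable_act (γ : SU) : Measurable γ.act := by
  unfold SU.act
  fun_prop

theorem SU.meas {X : Type*} [MeasurableSpace X] {F : ℂ → X} (hF : Measurable F) (γ : SU) :
    Measurable fun z => F (γ.act z) := hF.comp γ.measurable_act

theorem measurable_dens : Measurable fun z : ℂ => ENNReal.ofReal (1 / (1 - ‖z‖ ^ 2) ^ 2) := by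
  fun_prop

theorem lintegral_dA {F : ℂ → ℝ≥0∞} (hF : Measurable F) :
    ∫⁻ z, F z ∂dA = ∫⁻ z in ball (0 : ℂ) 1, ENNReal.ofReal (1 / (1 - ‖z‖ ^ 2) ^ 2) * F z :=
  lintegral_withDensity_eq_lintegral_mul _ measurable_dens hF

theorem ae_dA : ∀ᵐ z ∂dA, ‖z‖ < 1 :=
  (withDensity_absolutelyContinuous _ _).ae_le
    ((ae_restrict_mem measurableSet_ball).mono fun _ hz => mem_ball_zero_iff.1 hz)

theorem SU.image_ball (γ : SU) : γ.act '' ball 0 1 = ball 0 1 :=
  γ.mapsTo_act.image_subset.antisymm fun z hz =>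
    ⟨γ⁻¹.act z, γ⁻¹.mapsTo_act hz, γ.act_inv_act (mem_ball_zero_iff.1 hz)⟩

theorem SU.injOn_act (γ : SU) : InjOn γ.act (ball 0 1) := fun z hz w hw h => by
  rw [← γ.inv_act_act (mem_ball_zero_iff.1 hz), h, γ.inv_act_act (mem_ball_zero_iff.1 hw)]

theorem lintegral_act (γ : SU) (F : ℂ → ℝ≥0∞) (hF : Measurable F) :
    ∫⁻ z, F (γ.act z) ∂dA = ∫⁻ z, F z ∂dA := by
  rw [lintegral_dA (γ.meas hF), lintegral_dA hF]
  conv_rhs => rw [← γ.image_ball,
    lintegral_image_eq_lintegral_abs_det_fderiv_mul volume measurableSet_ball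
      (f' := fun z => (ContinuousLinearMap.toSpanSingleton ℂ
        (1 / (conj γ.b * z + conj γ.a) ^ 2)).restrictScalars ℝ)
      (fun z hz => ((γ.hasDerivAt_act (mem_ball_zero_iff.1 hz)).hasFDerivAt.restrictScalars
        ℝ).hasFDerivWithinAt) γ.injOn_act]
  refine setLIntegral_congr_fun measurableSet_ball fun z hz => ?_
  have hz' := mem_ball_zero_iff.1 hz
  have h0 := norm_pos_iff.2 (γ.den_ne hz')
  have h1 : 0 < 1 - ‖z‖ ^ 2 := by nlinarith [norm_nonneg z]
  simp only [← mul_assoc]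
  rw [← ENNReal.ofReal_mul (abs_nonneg _), γ.one_sub_act hz']
  congr 2
  simp only [ContinuousLinearMap.det, ContinuousLinearMap.coe_restrictScalars,
    LinearMap.det_restrictScalars, Algebra.norm_complex_eq]
  simp [Complex.normSq_eq_norm_sq]
  field_simp

theorem SU.measurePreserving (γ : SU) : MeasurePreserving γ.act dA dA :=
  ⟨γ.measurable_act, Measure.ext_of_lintegral _ fun F hF => by
    rw [lintegral_map hF γ.measurable_act, lintegral_act γ F hF]⟩

theorem integral_act (γ : SU) (f : ℂ → ℝ) (hf : AEStronglyMeasurable f dA) :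
    ∫ z, f (γ.act z) ∂dA = ∫ z, f z ∂dA := by
  rw [← integral_map γ.measurable_act.aemeasurable (γ.measurePreserving.map_eq.symm ▸ hf),
    γ.measurePreserving.map_eq]

theorem Lat.countable {T : ℝ} (L : Lat T) : Countable L.Γ := by
  refine (Set.countable_iUnion fun n : ℕ => (L.fin n).countable).mono (s₁ := (L.Γ : Set SU))
    fun γ h => mem_iUnion.2 ⟨⌈‖γ.a‖⌉₊, mem_ofPred.2 ⟨h, Nat.le_ceil _⟩⟩

theorem Wt.measurable {Γ : Subgroup SU} (W : Wt Γ) : Measurable fun z => ENNReal.ofReal (W.β z) :=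
  W.sm.continuous.measurable.ennreal_ofReal

theorem Wt.lintegral {Γ : Subgroup SU} (W : Wt Γ) {F : ℂ → ℝ≥0∞} (hF : Measurable F) :
    ∫⁻ z, F z ∂W.μ = ∫⁻ z, ENNReal.ofReal (W.β z) * F z ∂dA :=
  lintegral_withDensity_eq_lintegral_mul _ W.measurable hF

theorem Wt.tsum {Γ : Subgroup SU} (W : Wt Γ) {z : ℂ} (hz : ‖z‖ < 1) :
    ∑' γ : Γ, ENNReal.ofReal (W.β ((γ : SU).act z)) = 2 := by
  rw [← ENNReal.ofReal_tsum_of_nonneg (fun _ => W.nonneg _) (W.sum z hz).summable,
    (W.sum z hz).tsum_eq]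
  simp

theorem unfold_l {T : ℝ} (L : Lat T) (W : Wt L.Γ) (F : ℂ → ℝ≥0∞) (hF : Measurable F) :
    ∫⁻ z, ∑' γ : L.Γ, F ((γ : SU).act z) ∂W.μ = 2 * ∫⁻ z, F z ∂dA := by
  have := L.countable
  have h : ∀ γ : L.Γ, ∫⁻ z, F ((γ : SU).act z) ∂W.μ =
      ∫⁻ z, ENNReal.ofReal (W.β (((γ⁻¹ : L.Γ) : SU).act z)) * F z ∂dA := fun γ => by
    rw [W.lintegral (SU.meas hF _), ← lintegral_act γ
      (fun z => ENNReal.ofReal (W.β (((γ⁻¹ : L.Γ) : SU).act z)) * F z)
      ((SU.meas W.measurable _).mul hF)]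
    refine lintegral_congr_ae (ae_dA.mono fun z hz => ?_)
    simp [(γ : SU).inv_act_act hz]
  rw [lintegral_tsum fun γ => (SU.meas hF _).aemeasurable, tsum_congr h,
    ← lintegral_tsum fun γ => ((SU.meas W.measurable _).fun_mul hF).aemeasurable,
    ← lintegral_const_mul _ hF]
  refine lintegral_congr_ae (ae_dA.mono fun z hz => ?_)
  simp only
  rw [ENNReal.tsum_mul_right, ← W.tsum hz]
  congr 1
  exact (Equiv.inv L.Γ).tsum_eq fun γ => ENNReal.ofReal (W.β ((γ : SU).act z))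

theorem unfold_r {T : ℝ} (L : Lat T) (W : Wt L.Γ) (f : ℂ → ℝ) (hf : Measurable f)
    (hi : Integrable f dA) : Integrable (fun z => ∑' γ : L.Γ, f ((γ : SU).act z)) W.μ ∧
    ∫ z, ∑' γ : L.Γ, f ((γ : SU).act z) ∂W.μ = 2 * ∫ z, f z ∂dA := by
  have := L.countable
  have hm : ∀ γ : L.Γ, Measurable fun z => f ((γ : SU).act z) := fun γ => SU.meas hf _
  have h1 : ∫⁻ z, ∑' γ : L.Γ, ‖f ((γ : SU).act z)‖ₑ ∂W.μ < ⊤ := by
    rw [unfold_l L W (fun z => ‖f z‖ₑ) hf.enorm]
    exact ENNReal.mul_lt_top (by simp) hi.2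
  have h2 : Measure.sum (fun γ : L.Γ => W.μ.map (γ : SU).act) = (2 : ℝ≥0∞) • dA :=
    Measure.ext_of_lintegral _ fun F hF => by
      rw [lintegral_sum_measure, lintegral_smul_measure, smul_eq_mul, ← unfold_l L W F hF,
        lintegral_tsum fun γ => (SU.meas hF _).aemeasurable]
      exact tsum_congr fun γ => lintegral_map hF (SU.measurable_act _)
  refine ⟨⟨(Measurable.tsum hm).aestronglyMeasurable,
    (lintegral_mono fun z => enorm_tsum_le_tsum_enorm).trans_lt h1⟩, ?_⟩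
  have h3 := hasSum_integral_measure (h2 ▸ hi.smul_measure (c := 2) (by simp))
  rw [integral_tsum (fun γ => (hm γ).aestronglyMeasurable)
    (by rw [← lintegral_tsum fun γ => (hm γ).enorm.aemeasurable]; exact h1.ne),
    tsum_congr fun γ => (integral_map (SU.measurable_act _).aemeasurable
      hf.aestronglyMeasurable).symm, h3.tsum_eq, h2, integral_smul_measure]
  simp

theorem unfFacts : UnfFacts :=
  ⟨lintegral_act, integral_act, fun _ L => L.countable, fun _ => unfold_l, fun _ => unfold_r⟩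

end Pool.Agent.MP_417fa2_gt.Q2
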