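import Pool.Agent.MP_417fa2_gt.Q2.S4W

/-! S6. Integration by parts on the quotient surface. -/

open scoped ContDiff ComplexConjugate ENNReal Topology
open MeasureTheory Set Metric Real Filter

namespace Pool.Agent.MP_417fa2_gt.Q2

namespace S6

theorem norm_a_le (γ : SU) {w : ℂ} {r ϱ : ℝ} (hr : r < 1) (hϱ : ϱ < 1) (hw : ‖w‖ ≤ r)
    (h : ‖γ.act w‖ ≤ ϱ) : ‖γ.a‖ ≤ 1 / ((1 - r) * (1 - ϱ)) := by
  have hw1 := hw.trans_lt hr
  have hD := norm_pos_iff.2 (γ.den_ne hw1)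
  have h1 := γ.one_sub_act hw1
  have h2 : ‖γ.a‖ ≤ ‖conj γ.b * w + conj γ.a‖ + ‖γ.b‖ * ‖w‖ := by
    have := norm_sub_le (conj γ.b * w + conj γ.a) (conj γ.b * w)
    simpa using this
  set D := ‖conj γ.b * w + conj γ.a‖
  have h0 := norm_nonneg (γ.act w)
  have hw0 := norm_nonneg w
  rw [eq_div_iff (by positivity)] at h1
  have h3 : (D * (1 - ϱ)) ^ 2 ≤ 1 ^ 2 := by
    have h4 : (1 - ϱ) ^ 2 ≤ 1 - ‖γ.act w‖ ^ 2 := by nlinarith
    nlinarith [mul_le_mul_of_nonneg_right h4 (sq_nonneg D), sq_nonneg ‖w‖]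
  have h4 : D * (1 - ϱ) ≤ 1 := le_of_sq_le_sq h3 zero_le_one
  have h5 : ‖γ.a‖ * (1 - r) ≤ D := by
    nlinarith [mul_le_mul γ.norm_b_lt.le hw hw0 (norm_nonneg _)]
  rw [le_div_iff₀ (mul_pos (by linarith) (by linarith))]
  nlinarith [mul_le_mul_of_nonneg_right h5 (sub_nonneg.2 hϱ.le)]

theorem hasSum_dd {T : ℝ} (L : Lat T) (W : Wt L.Γ) (v : ℂ) {z : ℂ} (hz : ‖z‖ < 1) :
    HasSum (fun γ : L.Γ => dd v (fun w => W.β ((γ : SU).act w)) z) 0 := by
  obtain ⟨ϱ, h1, h2⟩ := W.supp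
  obtain ⟨r, hzr, hr⟩ := exists_between hz
  have hfin : {γ : L.Γ | ‖(γ : SU).a‖ ≤ 1 / ((1 - r) * (1 - ϱ))}.Finite :=
    ((L.fin (1 / ((1 - r) * (1 - ϱ)))).preimage Subtype.val_injective.injOn).subset
      fun γ h => ⟨γ.2, h⟩
  have hn : ∀ᶠ w in 𝓝 z, ‖w‖ < r := (isOpen_lt continuous_norm continuous_const).mem_nhds hzr
  have h0 : ∀ γ ∉ hfin.toFinset, ∀ w : ℂ, ‖w‖ < r → W.β ((γ : SU).act w) = 0 := fun γ hγ w hw =>
    h2 _ (not_le.1 fun h => hγ (hfin.mem_toFinset.2 (norm_a_le _ hr h1 hw.le h)))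
  have hs : (fun w => ∑ γ ∈ hfin.toFinset, W.β ((γ : SU).act w)) =ᶠ[𝓝 z] fun _ => 2 :=
    hn.mono fun w hw => (hasSum_sum_of_ne_finset_zero fun γ hγ => h0 γ hγ w hw).unique
      (W.sum w (hw.trans hr))
  have hd : ∀ γ : L.Γ, DifferentiableAt ℝ (fun w => W.β ((γ : SU).act w)) z := fun γ =>
    (W.sm.differentiable (by simp) _).comp z
      (((γ : SU).hasDerivAt_act hz).differentiableAt.restrictScalars ℝ)
  have e : ∑ γ ∈ hfin.toFinset, dd v (fun w => W.β ((γ : SU).act w)) z = 0 := by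
    have h3 := hs.fderiv_eq (𝕜 := ℝ)
    rw [fderiv_fun_sum fun γ _ => hd γ] at h3
    simpa [dd] using congrArg (fun A => A v) h3
  rw [← e]
  refine hasSum_sum_of_ne_finset_zero fun γ hγ => ?_
  have h3 : (fun w => W.β ((γ : SU).act w)) =ᶠ[𝓝 z] fun _ => 0 := hn.mono (h0 γ hγ)
  simp [dd, h3.fderiv_eq]

theorem intOn {u : ℂ → ℝ} (hu : ContinuousOn u (ball 0 1)) {ϱ : ℝ} (h1 : ϱ < 1)
    (h0 : ∀ z, ϱ < ‖z‖ → u z = 0) : IntegrableOn u (ball 0 1) :=
  IntegrableOn.of_forall_sdiff_eq_zero (s := closedBall 0 ϱ)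
    ((hu.mono (closedBall_subset_ball h1)).integrableOn_compact (isCompact_closedBall _ _))
    measurableSet_ball fun z hz => h0 z (by simpa using hz.2)

theorem dd_zero {u : ℂ → ℝ} {ϱ : ℝ} (h0 : ∀ z, ϱ < ‖z‖ → u z = 0) (v z : ℂ) (hz : ϱ < ‖z‖) :
    dd v u z = 0 := by
  have h : u =ᶠ[𝓝 z] fun _ => 0 :=
    Eventually.mono ((isOpen_lt continuous_const continuous_norm).mem_nhds hz) h0
  simp [dd, h.fderiv_eq]

theorem den_ne {z : ℂ} (hz : z ∈ ball (0 : ℂ) 1) : 1 - ‖z‖ ^ 2 ≠ 0 := by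
  have := mem_ball_zero_iff.1 hz
  nlinarith [norm_nonneg z]

theorem flat {u : ℂ → ℝ} (hu : Sm u) {ϱ : ℝ} (h1 : ϱ < 1) (h0 : ∀ z, ϱ < ‖z‖ → u z = 0) (v : ℂ) :
    ∫ z in ball (0 : ℂ) 1, dd v u z = 0 := by
  have hc : ContDiff ℝ ∞ u := contDiff_iff_contDiffAt.2 fun z => by
    rcases lt_or_ge ‖z‖ 1 with h | h
    · exact hu.contDiffAt (isOpen_ball.mem_nhds (mem_ball_zero_iff.2 h))
    · exact contDiffAt_const.congr_of_eventuallyEq (Eventually.mono
        ((isOpen_lt continuous_const continuous_norm).mem_nhds (h1.trans_le h)) h0)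
  have cs : ∀ t : ℂ → ℝ, (∀ z, ϱ < ‖z‖ → t z = 0) → HasCompactSupport t := fun t ht =>
    HasCompactSupport.intro (isCompact_closedBall 0 ϱ) fun z hz => ht z (by simpa using hz)
  have hd : Continuous (dd v u) := (hc.continuous_fderiv (by simp)).clm_apply continuous_const
  rw [setIntegral_eq_integral_of_forall_compl_eq_zero fun z hz =>
    dd_zero h0 v z (h1.trans_le (by simpa using hz))]
  have h := integral_mul_fderiv_eq_neg_fderiv_mul_of_integrable (μ := (volume : Measure ℂ))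
    (f := fun _ => (1 : ℝ)) (g := u) (v := v) (by simp)
    (by
      simp only [one_mul]
      exact hd.integrable_of_hasCompactSupport (cs _ (dd_zero h0 v)))
    (by simpa using hc.continuous.integrable_of_hasCompactSupport (cs _ h0))
    (fun _ _ => differentiableAt_const _) fun z _ => hc.differentiable (by simp) z
  simpa [dd] using h

theorem cross (h3 : ConfFacts) {T : ℝ} (L : Lat T) (W : Wt L.Γ) {f g : ℂ → ℝ} (hf : Sm f)
    (hg : Sm g) (jf : Invt L.Γ f) (jg : Invt L.Γ g) : ∫ z in ball (0 : ℂ) 1,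
      f z * (dd 1 W.β z * dd 1 g z + dd Complex.I W.β z * dd Complex.I g z) = 0 := by
  obtain ⟨ϱ, h1, h2⟩ := W.supp
  have hβ : Sm W.β := W.sm.contDiffOn
  have ct : Ct fun z => f z * Gam2 W.β g z := hf.continuousOn.mul (h3.sm_G _ _ hβ hg).continuousOn
  have e : ∀ z ∈ ball (0 : ℂ) 1, (ENNReal.ofReal (1 / (1 - ‖z‖ ^ 2) ^ 2)).toReal *
      (ball 0 1).indicator (fun z => f z * Gam2 W.β g z) z =
      f z * (dd 1 W.β z * dd 1 g z + dd Complex.I W.β z * dd Complex.I g z) := fun z hz => by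
    have := den_ne hz
    rw [ENNReal.toReal_ofReal (by positivity), indicator_of_mem hz, Gam2]
    field_simp
  have hi : Integrable ((ball 0 1).indicator fun z => f z * Gam2 W.β g z) dA := by
    rw [dA, integrable_withDensity_iff measurable_dens (by simp)]
    refine IntegrableOn.congr_fun (intOn (hf.continuousOn.mul
      (((h3.sm_dd 1 _ hβ).continuousOn.mul (h3.sm_dd 1 _ hg).continuousOn).add
        ((h3.sm_dd Complex.I _ hβ).continuousOn.mul (h3.sm_dd Complex.I _ hg).continuousOn))) h1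
      fun z hz => ?_) (fun z hz => ?_) measurableSet_ball
    · simp [dd_zero h2 _ z hz]
    · exact (e z hz).symm.trans (mul_comm _ _)
  have h := (unfold_r L W _ ct.meas hi).2
  rw [integral_congr_ae (g := fun _ => 0) (W.ae_lt.mono fun z hz => ?_), dA,
    integral_withDensity_eq_integral_toReal_smul measurable_dens (by simp)] at h
  · simp only [smul_eq_mul] at h
    rw [setIntegral_congr_fun measurableSet_ball e, integral_zero] at h
    linarith
  · have k := ((((hasSum_dd L W 1 hz).mul_right (dd 1 g z)).add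
      ((hasSum_dd L W Complex.I hz).mul_right (dd Complex.I g z))).mul_left
        ((1 - ‖z‖ ^ 2) ^ 2)).mul_left (f z)
    simp only [zero_mul, add_zero, mul_zero] at k
    rw [← k.tsum_eq]
    refine tsum_congr fun γ => ?_
    rw [indicator_of_mem (mem_ball_zero_iff.2 ((γ : SU).act_lt hz)), jf γ γ.2 z hz,
      ← h3.G_act γ _ _ hβ hg z hz, h3.G_congr _ _ _ g (fun _ _ => rfl) (jg γ γ.2) z hz, Gam2]

theorem dd_mul {a b : ℂ → ℝ} (ha : Sm a) (hb : Sm b) (v : ℂ) {z : ℂ} (hz : z ∈ ball (0 : ℂ) 1) :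
    dd v (fun w => a w * b w) z = dd v a z * b z + a z * dd v b z := by
  have hn := isOpen_ball.mem_nhds hz
  rw [dd, fderiv_fun_mul ((ha.contDiffAt hn).differentiableAt (by simp))
    ((hb.contDiffAt hn).differentiableAt (by simp))]
  simp only [dd, add_apply, smul_apply, smul_eq_mul]
  ring

end S6

open S6 in
theorem ibpStmt (_h1 : UnfFacts) (_h2 : WStmt) (h3 : ConfFacts) : IbpStmt := by
  intro T L W f g hf hg jf jg
  obtain ⟨ϱ, h1, h2⟩ := W.supp
  have hβ : Sm W.β := W.sm.contDiffOn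
  have sU : ∀ v, Sm fun z => W.β z * (f z * dd v g z) := fun v =>
    hβ.mul (hf.mul (h3.sm_dd v _ hg))
  have zU : ∀ v z, ϱ < ‖z‖ → W.β z * (f z * dd v g z) = 0 := fun v z hz => by simp [h2 z hz]
  have iU : ∀ v, IntegrableOn (dd v fun z => W.β z * (f z * dd v g z)) (ball 0 1) := fun v =>
    intOn (h3.sm_dd v _ (sU v)).continuousOn h1 (dd_zero (zU v) v)
  have iC : IntegrableOn (fun z => f z * (dd 1 W.β z * dd 1 g z +
      dd Complex.I W.β z * dd Complex.I g z)) (ball 0 1) := intOn (hf.continuousOn.mul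
      (((h3.sm_dd 1 _ hβ).continuousOn.mul (h3.sm_dd 1 _ hg).continuousOn).add
        ((h3.sm_dd Complex.I _ hβ).continuousOn.mul (h3.sm_dd Complex.I _ hg).continuousOn))) h1
      fun z hz => by simp [dd_zero h2 _ z hz]
  rw [eq_neg_iff_add_eq_zero, ← integral_add
    (W.integrable (f := fun z => f z * L2 g z) (hf.continuousOn.mul (h3.sm_L _ hg).continuousOn))
    (W.integrable (h3.sm_G _ _ hf hg).continuousOn), W.integral_eq,
    setIntegral_congr_fun (g := fun z => dd 1 (fun z => W.β z * (f z * dd 1 g z)) z +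
      dd Complex.I (fun z => W.β z * (f z * dd Complex.I g z)) z -
      f z * (dd 1 W.β z * dd 1 g z + dd Complex.I W.β z * dd Complex.I g z))
      measurableSet_ball fun z hz => ?_,
    integral_sub (f := fun z => dd 1 (fun z => W.β z * (f z * dd 1 g z)) z +
      dd Complex.I (fun z => W.β z * (f z * dd Complex.I g z)) z) ((iU 1).add (iU _)) iC,
    integral_add (iU 1) (iU _), flat (sU _) h1 (zU _),
    flat (sU _) h1 (zU _), cross h3 L W hf hg jf jg]
  · simp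
  · have := den_ne hz
    simp only [dd_mul hβ (hf.mul (h3.sm_dd _ _ hg)) _ hz, dd_mul hf (h3.sm_dd _ _ hg) _ hz, L2,
      Gam2, lap2]
    field_simp
    ring

end Pool.Agent.MP_417fa2_gt.Q2
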