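import Pool.Agent.MP_417fa2_gt.Q2.SSpec

/-! From disc averages to spectral gaps; the Bolza surface; the output of the surface layer. -/

open scoped ContDiff ComplexConjugate ENNReal
open MeasureTheory Set Metric Real

namespace Pool.Agent.MP_417fa2_gt.Q2

namespace S9X

theorem sig_pos {ϱ : ℝ} (h0 : 0 < ϱ) (h1 : ϱ < 1) : 0 < sig ϱ :=
  div_pos (by positivity) (by nlinarith)

theorem exists_sig {σ : ℝ} (h : 0 < σ) : ∃ ϱ : ℝ, 0 < ϱ ∧ ϱ < 1 ∧ sig ϱ = σ := by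
  have h1 : 0 < σ / (1 + σ) := by positivity
  refine ⟨√(σ / (1 + σ)), Real.sqrt_pos.2 h1, ?_, ?_⟩
  · rw [Real.sqrt_lt' one_pos, one_pow, div_lt_one (by positivity)]
    linarith
  · rw [sig, Real.sq_sqrt h1.le]
    field_simp
    ring

theorem intOn {ϱ : ℝ} (h1 : ϱ < 1) (hf : dA (ball (0 : ℂ) ϱ) ≠ ⊤) {F : ℂ → ℝ} (hF : Ct F) :
    IntegrableOn F (ball (0 : ℂ) ϱ) dA := by
  have : IsFiniteMeasure (dA.restrict (ball (0 : ℂ) ϱ)) := isFiniteMeasure_restrict.2 hf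
  have hc : ContinuousOn F (closedBall (0 : ℂ) ϱ) := hF.mono (closedBall_subset_ball h1)
  obtain ⟨C, hC⟩ := (isCompact_closedBall (0 : ℂ) ϱ).exists_bound_of_continuousOn hc
  refine Integrable.of_bound
    ((hc.mono ball_subset_closedBall).aestronglyMeasurable measurableSet_ball) C ?_
  filter_upwards [ae_restrict_mem measurableSet_ball] with z hz
  exact hC z (ball_subset_closedBall hz)

theorem sq_le {c A B : ℝ} (hc : 0 ≤ c) (hA : 0 ≤ A) (hB : 0 ≤ B) (h : c * A ≤ √A * √B) :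
    c ^ 2 * A ≤ B := by
  rcases hA.eq_or_lt with h0 | h0
  · rw [← h0, mul_zero]; exact hB
  · have h1 : 0 < √A := Real.sqrt_pos.2 h0
    have h2 : c * √A ≤ √B := by
      refine le_of_mul_le_mul_left ?_ h1
      calc √A * (c * √A) = c * (√A * √A) := by ring
        _ ≤ _ := by rw [Real.mul_self_sqrt hA]; exact h
    have h3 := pow_le_pow_left₀ (by positivity) h2 2
    rwa [mul_pow, Real.sq_sqrt hA, Real.sq_sqrt hB] at h3

end S9X

open S9X

theorem gapGen (h1 : WStmt) (h2 : ConfFacts) (h3 : GreenStmt) (h4 : SchurFacts) : GapGenStmt := by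
  intro T L W ϱ θ h0 hϱ hθ f hf he hT
  obtain ⟨hA, G, hGm, hG0, hGi, hGb, hG⟩ := h3 ϱ h0 hϱ
  have hW := h1 T L W
  have hσ := sig_pos h0 hϱ
  have hπσ : 0 < π * sig ϱ := by positivity
  have hfin : dA (ball (0 : ℂ) ϱ) ≠ ⊤ := fun h => by
    rw [Measure.real, h] at hA
    simp only [ENNReal.toReal_top] at hA
    linarith
  have hfc : Ct f := hf.continuousOn
  have hLc : Ct (L2 f) := (h2.sm_L f hf).continuousOn
  have hK : ∀ x : ℂ, ‖x‖ < 1 → ∫ η in ball (0 : ℂ) ϱ, G ‖η‖ * L2 f (mob x η) ∂dA =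
      Tb ϱ f x - π * sig ϱ * f x := by
    intro x hx
    obtain ⟨τ, hτ⟩ := exists_tl hx
    have hF := h2.sm_act τ f hf
    have e := hG _ hF
    have : IsFiniteMeasure (dA.restrict (ball (0 : ℂ) ϱ)) := isFiniteMeasure_restrict.2 hfin
    rw [integral_sub (intOn hϱ hfin hF.continuousOn) (integrable_const _), setIntegral_const, hA]
      at e
    simp only [hτ, mob_zero, smul_eq_mul] at e
    rw [Tb, e]
    refine setIntegral_congr_fun measurableSet_ball fun η hη => ?_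
    have := h2.L_act τ f hf η ((mem_ball_zero_iff.1 hη).trans hϱ)
    simp only [hτ] at this
    simp only [this]
  have i1 : Invt L.Γ fun z => f z ^ 2 := fun γ hγ z hz => by
    obtain ⟨e, h, h'⟩ := he γ hγ
    simp only [h' z hz]
    rcases h with rfl | rfl <;> ring
  have i2 : Invt L.Γ fun z => L2 f z ^ 2 := fun γ hγ z hz => by
    obtain ⟨e, h, h'⟩ := he γ hγ
    have a1 := h2.L_act γ f hf z hz
    have a2 := h2.L_congr (fun z => f (γ.act z)) (fun z => e * f z + 0 * f z)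
      (fun z hz => by simp only [h' z hz]; ring) z hz
    have a3 := h2.L_lin f f hf hf e 0 z hz
    simp only [← a1, a2, a3]
    rcases h with rfl | rfl <;> ring
  have hs := h4.schur T L W ϱ h0 hϱ G hGm hG0 hGi f (L2 f) hfc hLc i1 i2
  have e1 : ∫ x, f x * ∫ η in ball (0 : ℂ) ϱ, G ‖η‖ * L2 f (mob x η) ∂dA ∂W.μ =
      ∫ x, f x * Tb ϱ f x ∂W.μ - π * sig ϱ * ∫ z, f z ^ 2 ∂W.μ := by
    have j1 : Integrable (fun x => f x * Tb ϱ f x) W.μ :=
      hW.int _ (hfc.mul (h4.ct ϱ h0 hϱ f hfc))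
    have j2 : Integrable (fun x => f x ^ 2) W.μ := hW.int _ (hfc.pow 2)
    rw [← integral_const_mul, ← integral_sub j1 (j2.const_mul _)]
    obtain ⟨r, hr, hae⟩ := hW.ae
    refine integral_congr_ae ?_
    filter_upwards [hae] with x hx
    rw [hK x (hx.trans_lt hr)]
    ring
  rw [e1] at hs
  have hA0 : 0 ≤ ∫ z, f z ^ 2 ∂W.μ := integral_nonneg fun z => sq_nonneg _
  have hB0 : 0 ≤ ∫ z, L2 f z ^ 2 ∂W.μ := integral_nonneg fun z => sq_nonneg _
  refine sq_le (div_nonneg (by linarith) hσ.le) hA0 hB0 ?_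
  set A := ∫ z, f z ^ 2 ∂W.μ
  set B := ∫ z, L2 f z ^ 2 ∂W.μ
  have hs2 : (∫ η in ball (0 : ℂ) ϱ, G ‖η‖ ∂dA) * √A * √B ≤
      π * sig ϱ * (sig ϱ / 8) * √A * √B := by gcongr
  have hs3 := (neg_le_abs _).trans (hs.trans hs2)
  rw [div_mul_eq_mul_div, div_le_iff₀ hσ]
  refine le_of_mul_le_mul_left ?_ hπσ
  linarith

theorem area3 (h0 : UnfFacts) (h1 : WStmt) (h5 : OctStmt) (P : Pair) (W : Wt P.L3.Γ) :
    W.μ.real univ ≤ π := by
  have e := h0.unf _ P.L3 W (oct.indicator 1) (measurable_one.indicator h5.1)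
  rw [lintegral_indicator_one h5.1] at e
  obtain ⟨r, hr, hae⟩ := (h1 _ P.L3 W).ae
  have h2 : 2 * W.μ univ ≤ ∫⁻ z, ∑' γ : P.L3.Γ, oct.indicator 1 ((γ : SU).act z) ∂W.μ := by
    rw [← lintegral_const]
    refine lintegral_mono_ae ?_
    filter_upwards [hae] with z hz
    have hz1 := hz.trans_lt hr
    obtain ⟨γ, hγ, ho⟩ := P.cov z hz1
    have hne : (⟨γ, hγ⟩ : P.L3.Γ) ≠ ⟨SU.neg1 * γ, P.L3.Γ.mul_mem P.L3.neg_mem hγ⟩ := by
      intro h
      have a1 : γ.a = (SU.neg1 * γ).a := congrArg (fun x : P.L3.Γ => (x : SU).a) h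
      have a2 : γ.a = 0 := by
        simp only [SU.mul_a, SU.neg1] at a1
        linear_combination a1 / 2
      have := γ.one_le_norm_a
      rw [a2, norm_zero] at this
      linarith
    classical
    refine le_trans ?_ (ENNReal.sum_le_tsum
      {⟨γ, hγ⟩, ⟨SU.neg1 * γ, P.L3.Γ.mul_mem P.L3.neg_mem hγ⟩})
    rw [Finset.sum_pair hne]
    simp only [SU.mul_act _ _ hz1, SU.neg1_act, indicator_of_mem ho, Pi.one_apply]
    norm_num
  rw [e] at h2
  have h3 : W.μ univ ≤ ENNReal.ofReal π :=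
    ((ENNReal.mul_le_mul_iff_right (by norm_num) (by norm_num)).1 h2).trans h5.2
  exact ENNReal.toReal_le_of_le_ofReal Real.pi_pos.le h3

theorem gap3 (h0 : UnfFacts) (h1 : WStmt) (h4 : SchurFacts) (h5 : OctStmt) (h6 : EmbStmt)
    (h7 : GapGenStmt) : Gap3Stmt := by
  intro P W
  have ha := area3 h0 h1 h5 P W
  refine ⟨ha, fun f hf hi hm => ?_⟩
  have hW := h1 _ P.L3 W
  have := hW.fin
  have s2 : (√2 : ℝ) * √2 = 2 := Real.mul_self_sqrt (by norm_num)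
  have s0 : (0 : ℝ) < √2 := by positivity
  have s1 : (√2 : ℝ) < 1.416 := by nlinarith
  obtain ⟨ϱ, r0, r1, hσ⟩ := exists_sig (σ := √2 / 2) (by positivity)
  obtain ⟨e1, e2⟩ := h6 _ P.L3 W ϱ r0 r1 (by rw [hσ]; linarith)
  have hfc : Ct f := hf.continuousOn
  have hTc := h4.ct ϱ r0 r1 f hfc
  have hA0 : 0 ≤ ∫ z, f z ^ 2 ∂W.μ := integral_nonneg fun z => sq_nonneg _
  have hb : 0 < π * sig ϱ := by rw [hσ]; positivity
  have hm0 : 0 < W.μ.real univ := hb.trans_le e1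
  obtain ⟨r, hr, hae⟩ := hW.ae
  have j1 : Integrable (fun x => f x * Tb ϱ f x) W.μ := hW.int _ (hfc.mul hTc)
  have j2 : Integrable (fun x => f x ^ 2) W.μ := hW.int _ (hfc.pow 2)
  have j3 : Integrable (fun x => Tb ϱ f x ^ 2) W.μ := hW.int _ (hTc.pow 2)
  have t1 : ∫ x, Tb ϱ f x ^ 2 ∂W.μ ≤
      π * sig ϱ * (W.μ.real univ - π * sig ϱ) * ∫ z, f z ^ 2 ∂W.μ := by
    refine le_of_mul_le_mul_left ?_ hm0
    rw [← integral_const_mul, ← smul_eq_mul (W.μ.real univ), ← integral_const]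
    refine integral_mono_ae (j3.const_mul _) (integrable_const _) ?_
    filter_upwards [hae] with x hx
    exact e2 f hfc hi hm x (hx.trans_lt hr)
  have t2 : π * sig ϱ * (W.μ.real univ - π * sig ϱ) ≤ (0.645 * (π * sig ϱ)) ^ 2 := by
    have a1 : W.μ.real univ - π * sig ϱ ≤ 0.645 ^ 2 * (π * sig ϱ) := by
      have a2 : π = √2 * (π * sig ϱ) := by rw [hσ]; linear_combination (-π / 2) * s2
      nlinarith
    calc _ ≤ π * sig ϱ * (0.645 ^ 2 * (π * sig ϱ)) := by gcongr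
      _ = _ := by ring
  have t3 : 2 * (0.645 * (π * sig ϱ)) * ∫ x, f x * Tb ϱ f x ∂W.μ ≤
      (0.645 * (π * sig ϱ)) ^ 2 * ∫ z, f z ^ 2 ∂W.μ + ∫ x, Tb ϱ f x ^ 2 ∂W.μ := by
    rw [← integral_const_mul, ← integral_const_mul, ← integral_add (j2.const_mul _) j3]
    refine integral_mono (j1.const_mul _) ((j2.const_mul _).add j3) fun x => ?_
    have := sq_nonneg (0.645 * (π * sig ϱ) * f x - Tb ϱ f x)
    simp only
    linarith
  have t4 := mul_le_mul_of_nonneg_right t2 hA0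
  have t5 : ∫ x, f x * Tb ϱ f x ∂W.μ ≤ 0.645 * (π * sig ϱ) * ∫ z, f z ^ 2 ∂W.μ := by
    refine le_of_mul_le_mul_left ?_ (show 0 < 2 * (0.645 * (π * sig ϱ)) by positivity)
    linarith
  have t6 := h7 _ P.L3 W ϱ 0.645 r0 r1 (by norm_num) f hf
    (fun γ hγ => ⟨1, Or.inl rfl, fun z hz => by rw [hi γ hγ z hz, one_mul]⟩) t5
  refine le_trans (mul_le_mul_of_nonneg_right ?_ hA0) t6
  rw [hσ, div_pow, le_div_iff₀ (by positivity)]
  nlinarith

theorem surfStmt (h1 : PairStmt) (h2 : WtStmt) (h6 : EmbStmt) (h3 : Gap3Stmt) (h4 : Gap4Stmt) :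
    SurfStmt := by
  obtain ⟨P⟩ := h1
  obtain ⟨W₁⟩ := h2 _ P.L4
  obtain ⟨W₂⟩ := h2 _ P.L3
  have s2 : (√2 : ℝ) * √2 = 2 := Real.mul_self_sqrt (by norm_num)
  have s0 : (0 : ℝ) < √2 := by positivity
  have s1 : (1.4 : ℝ) < √2 := by nlinarith
  obtain ⟨ϱ, r0, r1, hσ⟩ := exists_sig (σ := 1 + √2) (by positivity)
  obtain ⟨ϱ', r0', r1', hσ'⟩ := exists_sig (σ := √2 / 2) (by positivity)
  refine ⟨_, _, P.L4, P.L3, W₁, W₂, by linarith, by linarith, h4 P W₁, (h3 P W₂).2, ?_, ?_⟩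
  · rw [← hσ]
    exact (h6 _ P.L4 W₁ ϱ r0 r1 (by rw [hσ]; linarith)).1
  · rw [← hσ']
    exact (h6 _ P.L3 W₂ ϱ' r0' r1' (by rw [hσ']; linarith)).1

end Pool.Agent.MP_417fa2_gt.Q2
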