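import Pool.Agent.MP_417fa2_gt.Q2.ESpec

/-! U1. Hardy's inequality and a trace inequality for a unit circle. -/

open scoped ContDiff Topology
open MeasureTheory Set Metric Real Filter

namespace Pool.Agent.MP_417fa2_gt.Q2

namespace U1

theorem cd_co (c : Fin 4) : ContDiff ℝ ∞ fun z : E4 => z c :=
  (EuclideanSpace.proj c : E4 →L[ℝ] ℝ).contDiff

theorem pd_co (c j : Fin 4) (y : E4) : pd j (fun z : E4 => z c) y = if c = j then 1 else 0 := by
  have h := ((EuclideanSpace.proj c : E4 →L[ℝ] ℝ).hasFDerivAt (x := y)).fderiv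
  have h2 : pd j (fun z : E4 => z c) y =
      (EuclideanSpace.proj c : E4 →L[ℝ] ℝ) (EuclideanSpace.single j 1) :=
    congrArg (fun L : E4 →L[ℝ] ℝ => L (EuclideanSpace.single j 1)) h
  rw [h2]
  simp

theorem pd_fun {D : E4 → ℝ} {g : ℝ → ℝ} {g' : ℝ} {y : E4} (hD : DifferentiableAt ℝ D y)
    (hg : HasDerivAt g g' (D y)) (j : Fin 4) : pd j (fun z => g (D z)) y = g' * pd j D y := by
  have h := (hg.comp_hasFDerivAt y hD.hasFDerivAt).fderiv
  exact congrArg (fun L : E4 →L[ℝ] ℝ => L (EuclideanSpace.single j 1)) h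

theorem cd_quad (c : Fin 4 → ℝ) : ContDiff ℝ ∞ fun z : E4 => ∑ k, c k * z k ^ 2 :=
  ContDiff.sum fun k _ => contDiff_const.mul ((cd_co k).pow 2)

theorem pd_quad (c : Fin 4 → ℝ) (j : Fin 4) (y : E4) :
    pd j (fun z : E4 => ∑ k, c k * z k ^ 2) y = 2 * c j * y j := by
  rw [pd_sum (F := fun k (z : E4) => c k * z k ^ 2) fun k _ =>
    dAt_of_cdAt (contDiff_const.mul ((cd_co k).pow 2)).contDiffAt]
  have h : ∀ k, pd j (fun z : E4 => c k * z k ^ 2) y = if k = j then 2 * c k * y k else 0 := by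
    intro k
    have h1 : HasDerivAt (fun t : ℝ => c k * t ^ 2) (c k * (2 * y k)) (y k) := by
      simpa using (hasDerivAt_pow 2 (y k)).const_mul (c k)
    rw [pd_fun (D := fun z : E4 => z k) (dAt_of_cdAt (cd_co k).contDiffAt) h1, pd_co]
    split_ifs <;> ring
  simp [h]

theorem int_pd {h : E4 → ℝ} (H : Tst h) (j : Fin 4) : ∫ y, pd j h y = 0 := by
  have := integral_mul_fderiv_eq_neg_fderiv_mul_of_integrable (μ := (volume : Measure E4))
    (f := fun _ => (1 : ℝ)) (g := h) (v := EuclideanSpace.single j 1) (by simp)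
    (by simp only [one_mul]; exact (H.pd j).integrable) (by simpa using H.integrable)
    (fun _ _ => differentiableAt_const _) fun y _ => H.dAt y
  simpa [pd] using this

/-- The half gradient of the squared distance. -/
structure Fld (e u : E4 → ℝ) (W : Fin 4 → E4 → ℝ) : Prop where
  smW : ∀ j, ContDiff ℝ ∞ (W j)
  sme : ContDiff ℝ ∞ e
  dv : ∀ y, ∑ j, pd j (W j) y = 3 + 4 * u y
  gr : ∀ j y, pd j e y = 2 * W j y
  sq : ∀ y, ∑ j, W j y ^ 2 = e y + 2 * u y ^ 3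
  le : ∀ y, u y ^ 2 ≤ e y

theorem fld_gen (p : Fin 4 → ℝ) (hp : ∀ j, p j * p j = p j) (hs : ∑ j, p j = 2) :
    ∃ u W, Fld (fun z : E4 => ((∑ k, p k * z k ^ 2 - 1) / 2) ^ 2 + ∑ k, (1 - p k) * z k ^ 2) u W := by
  set u : E4 → ℝ := fun z => (∑ k, p k * z k ^ 2 - 1) / 2 with hu
  have su : ContDiff ℝ ∞ u := ((cd_quad p).sub contDiff_const).div_const 2
  have du : ∀ j y, pd j u y = p j * y j := by
    intro j y
    have h1 : HasDerivAt (fun t : ℝ => (t - 1) / 2) (1 / 2) (∑ k, p k * y k ^ 2) :=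
      ((hasDerivAt_id' _).sub_const 1).div_const 2
    rw [hu, pd_fun (D := fun z : E4 => ∑ k, p k * z k ^ 2) (dAt_of_cdAt (cd_quad p).contDiffAt) h1,
      pd_quad]
    ring
  have hz : ∀ y : E4, ∑ k, p k * y k ^ 2 = 2 * u y + 1 := fun y => by rw [hu]; ring
  have sa : ∀ j, ContDiff ℝ ∞ fun z => p j * u z + (1 - p j) := fun j =>
    (contDiff_const.mul su).add contDiff_const
  refine ⟨u, fun j z => (p j * u z + (1 - p j)) * z j, fun j => (sa j).mul (cd_co j),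
    (su.pow 2).add (cd_quad fun k => 1 - p k), fun y => ?_, fun j y => ?_, fun y => ?_, fun y => ?_⟩
  · have h : ∀ j, pd j (fun z : E4 => (p j * u z + (1 - p j)) * z j) y =
        p j * y j ^ 2 + p j * (u y - 1) + 1 := by
      intro j
      have h1 : HasDerivAt (fun t : ℝ => p j * t + (1 - p j)) (p j * 1) (u y) :=
        ((hasDerivAt_id' _).const_mul (p j)).add_const _
      rw [pd_mul (dAt_of_cdAt (sa j).contDiffAt) (dAt_of_cdAt (cd_co j).contDiffAt),
        pd_fun (dAt_of_cdAt su.contDiffAt) h1, du, pd_co, if_pos rfl]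
      linear_combination y j ^ 2 * hp j
    simp only [h, Finset.sum_add_distrib, ← Finset.sum_mul, hs, hz]
    simp
    ring
  · have h1 : HasDerivAt (fun t : ℝ => t ^ 2) (2 * u y) (u y) := by
      simpa using hasDerivAt_pow 2 (u y)
    change pd j (fun z => u z ^ 2 + ∑ k, (1 - p k) * z k ^ 2) y = _
    rw [pd_add (dAt_of_cdAt (su.pow 2).contDiffAt)
      (dAt_of_cdAt (cd_quad fun k => 1 - p k).contDiffAt), pd_fun (dAt_of_cdAt su.contDiffAt) h1, du,
      pd_quad fun k => 1 - p k]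
    ring
  · have h : ∀ j, ((p j * u y + (1 - p j)) * y j) ^ 2 =
        u y ^ 2 * (p j * y j ^ 2) + (1 - p j) * y j ^ 2 := fun j => by
      linear_combination (u y - 1) ^ 2 * y j ^ 2 * hp j
    change _ = u y ^ 2 + ∑ k, (1 - p k) * y k ^ 2 + 2 * u y ^ 3
    simp only [h, Finset.sum_add_distrib, ← Finset.mul_sum, hz]
    ring
  · refine le_add_of_nonneg_right (Finset.sum_nonneg fun k _ => mul_nonneg ?_ (sq_nonneg _))
    nlinarith [hp k, sq_nonneg (1 - p k)]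

theorem fld (i : Fin 2) : ∃ u W, Fld (ee i 1) u W := by
  by_cases hi : i = 0
  · have h := fld_gen ![1, 1, 0, 0] (fun j => by fin_cases j <;> simp)
      (by simp [Fin.sum_univ_four]; norm_num)
    have e : ee i 1 = fun z : E4 => ((∑ k, (![1, 1, 0, 0] : Fin 4 → ℝ) k * z k ^ 2 - 1) / 2) ^ 2 +
        ∑ k, (1 - (![1, 1, 0, 0] : Fin 4 → ℝ) k) * z k ^ 2 := by
      funext z
      simp [ee, hi, zsq, wsq, Fin.sum_univ_four]
    rw [e]; exact h
  · have h := fld_gen ![0, 0, 1, 1] (fun j => by fin_cases j <;> simp)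
      (by simp [Fin.sum_univ_four]; norm_num)
    have e : ee i 1 = fun z : E4 => ((∑ k, (![0, 0, 1, 1] : Fin 4 → ℝ) k * z k ^ 2 - 1) / 2) ^ 2 +
        ∑ k, (1 - (![0, 0, 1, 1] : Fin 4 → ℝ) k) * z k ^ 2 := by
      funext z
      simp [ee, hi, zsq, wsq, Fin.sum_univ_four]
    rw [e]; exact h

/-- The divergence identity, as an inequality. -/
theorem div_le {e u : E4 → ℝ} {W : Fin 4 → E4 → ℝ} (F : Fld e u W) {G G' k : E4 → ℝ}
    (hG : ContDiff ℝ ∞ G) (hG' : ∀ j y, pd j G y = G' y * pd j e y) (hk : ∀ y, 0 < k y)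
    {φ f g : E4 → ℝ} (H : Tst φ) (hf : Integrable f) (hg : Integrable g)
    (h : ∀ y, f y + k y * ∑ j, pd j φ y ^ 2 ≤ ((3 + 4 * u y) * G y +
      (2 * G' y - G y ^ 2 / k y) * (e y + 2 * u y ^ 3)) * φ y ^ 2 + g y) :
    ∫ y, f y ≤ ∫ y, g y := by
  have T : ∀ j, Tst fun z => W j z * G z * (φ z * φ z) := fun j =>
    (H.mul_right H.sm).mul_left ((F.smW j).mul hG)
  have i1 : Integrable fun y => ∑ j, pd j (fun z => W j z * G z * (φ z * φ z)) y :=
    integrable_finsetSum _ fun j _ => ((T j).pd j).integrable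
  have i2 : ∫ y, ∑ j, pd j (fun z => W j z * G z * (φ z * φ z)) y = 0 := by
    rw [integral_finsetSum _ fun j _ => ((T j).pd j).integrable]
    exact Finset.sum_eq_zero fun j _ => int_pd (T j) j
  have i3 : ∫ y, f y ≤ ∫ y, (∑ j, pd j (fun z => W j z * G z * (φ z * φ z)) y + g y) := by
    refine integral_mono hf (i1.add hg) fun y => ?_
    have h1 : ∀ j, (G y * pd j (W j) y + (2 * G' y - G y ^ 2 / k y) * W j y ^ 2) * φ y ^ 2 -
        k y * pd j φ y ^ 2 ≤ pd j (fun z => W j z * G z * (φ z * φ z)) y := by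
      intro j
      rw [pd_mul (dAt_of_cdAt ((F.smW j).mul hG).contDiffAt) ((H.mul_right H.sm).dAt y),
        pd_mul (dAt_of_cdAt (F.smW j).contDiffAt) (dAt_of_cdAt hG.contDiffAt),
        pd_mul (H.dAt y) (H.dAt y), hG', F.gr]
      have h2 : 0 ≤ (G y * W j y * φ y + k y * pd j φ y) ^ 2 / k y := by
        have := hk y
        positivity
      have h3 : (G y * W j y * φ y + k y * pd j φ y) ^ 2 / k y = G y ^ 2 / k y * W j y ^ 2 * φ y ^ 2 +
          2 * (G y * W j y * φ y * pd j φ y) + k y * pd j φ y ^ 2 := by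
        have := (hk y).ne'
        field_simp
        ring
      rw [h3] at h2
      linarith
    have h4 := Finset.sum_le_sum fun j (_ : j ∈ Finset.univ) => h1 j
    simp only [Finset.sum_sub_distrib, ← Finset.sum_mul, Finset.sum_add_distrib, ← Finset.mul_sum,
      F.dv, F.sq] at h4
    have h5 := h y
    change f y ≤ _ + g y
    linarith
  rwa [integral_add i1 hg, i2, zero_add] at i3

theorem alg1 {e u t : ℝ} (ht : 0 < t) (hu : u ^ 2 ≤ e) :
    e + 2 * u ^ 3 ≤ 2 * (e + t) + (e + t) ^ 2 := by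
  have h0 := sq_nonneg u
  have h1 : 2 * u ^ 3 ≤ u ^ 2 + (u ^ 2) ^ 2 := by nlinarith [mul_nonneg h0 (sq_nonneg (u - 1))]
  have h2 : (u ^ 2) ^ 2 ≤ (e + t) ^ 2 := pow_le_pow_left₀ h0 (by linarith) 2
  linarith

theorem alg2 {e u t : ℝ} (ht : 0 < t) (hu : u ^ 2 ≤ e) :
    3 / 4 * (e + t) - 16 * (e + t) ^ 2 ≤ (3 + 4 * u) * (e + t) - 2 * (e + 2 * u ^ 3) := by
  have h0 := sq_nonneg u
  have h1 : 0 ≤ (4 * u + 1 / 2) ^ 2 * (e + t - u ^ 2) := mul_nonneg (sq_nonneg _) (by linarith)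
  have h2 : u ^ 2 * (e + t - u ^ 2) ≤ (e + t) * (e + t) :=
    mul_le_mul (by linarith) (by linarith) (by linarith) (by linarith)
  nlinarith

variable {e u : E4 → ℝ} {W : Fin 4 → E4 → ℝ}

theorem int_w (F : Fld e u W) {t : ℝ} (ht : 0 < t) {φ : E4 → ℝ} (H : Tst φ) :
    Integrable fun y => φ y ^ 2 / (e y + t) := by
  have p : ∀ y, e y + t ≠ 0 := fun y => by have := (sq_nonneg _).trans (F.le y); positivity
  have := ((H.mul_right H.sm).mul_right ((F.sme.add contDiff_const).inv p)).integrable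
  simpa [sq, div_eq_mul_inv] using this

theorem eN1 {φ : E4 → ℝ} (H : Tst φ) (a b : ℝ) :
    ∫ y, (a * φ y ^ 2 + b * ∑ j, pd j φ y ^ 2) = a * eN 0 φ + b * ∑ j, eN 0 (pd j φ) := by
  rw [integral_add (H.integrable_sq.const_mul a)
    ((integrable_finsetSum _ fun j _ => (H.pd j).integrable_sq).const_mul b), integral_const_mul,
    integral_const_mul, integral_finsetSum _ fun j _ => (H.pd j).integrable_sq]
  rfl

theorem hardy (F : Fld e u W) {t : ℝ} (ht : 0 < t) {φ : E4 → ℝ} (H : Tst φ) :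
    ∫ y, φ y ^ 2 / (e y + t) ≤ 34 * eN 1 φ := by
  have p : ∀ y, 0 < e y + t := fun y => by have := (sq_nonneg _).trans (F.le y); positivity
  have sD : ContDiff ℝ ∞ fun y => e y + t := F.sme.add contDiff_const
  have h := div_le F (G := fun y => (e y + t)⁻¹) (G' := fun y => -((e y + t) ^ 2)⁻¹)
    (k := fun _ => 8) (f := fun y => 1 / 2 * (φ y ^ 2 / (e y + t)))
    (g := fun y => 17 * φ y ^ 2 + 8 * ∑ j, pd j φ y ^ 2) (sD.inv fun y => (p y).ne')
    (fun j y => by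
      have h1 : HasDerivAt (fun x : ℝ => (x + t)⁻¹) (-((e y + t) ^ 2)⁻¹) (e y) := by
        simpa [neg_div] using ((hasDerivAt_id' (e y)).add_const t).fun_inv (p y).ne'
      exact pd_fun (dAt_of_cdAt F.sme.contDiffAt) h1 j)
    (fun _ => by norm_num) H ((int_w F ht H).const_mul _)
    ((H.integrable_sq.const_mul _).add
      ((integrable_finsetSum _ fun j _ => (H.pd j).integrable_sq).const_mul _))
    (fun y => by
      have a1 := alg1 ht (F.le y)
      have a2 := alg2 ht (F.le y)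
      have p1 := p y
      have a3 : 1 / 2 * (e y + t)⁻¹ ≤ (3 + 4 * u y) * (e y + t)⁻¹ +
          (2 * -((e y + t) ^ 2)⁻¹ - (e y + t)⁻¹ ^ 2 / 8) * (e y + 2 * u y ^ 3) + 17 := by
        rw [← sub_nonneg]
        have : (3 + 4 * u y) * (e y + t)⁻¹ +
            (2 * -((e y + t) ^ 2)⁻¹ - (e y + t)⁻¹ ^ 2 / 8) * (e y + 2 * u y ^ 3) + 17 -
            1 / 2 * (e y + t)⁻¹ = ((3 + 4 * u y) * (e y + t) - 17 / 8 * (e y + 2 * u y ^ 3) +
              17 * (e y + t) ^ 2 - 1 / 2 * (e y + t)) / (e y + t) ^ 2 := by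
          field_simp
          ring
        rw [this]
        exact div_nonneg (by nlinarith [sq_nonneg (e y + t)]) (sq_nonneg _)
      have a4 := mul_le_mul_of_nonneg_right a3 (sq_nonneg (φ y))
      rw [div_eq_mul_inv (φ y ^ 2)]
      linarith)
  rw [integral_const_mul, eN1 H] at h
  have n0 := eN_nonneg 0 φ
  have n1 : 0 ≤ ∑ j, eN 0 (pd j φ) := Finset.sum_nonneg fun j _ => eN_nonneg _ _
  rw [eN_succ]
  linarith

theorem alg3 {e u τ s : ℝ} (hτ : 0 < τ) (hu : u ^ 2 ≤ e) (hs : 0 < s) (h : s ^ 2 = e + τ ^ 2) :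
    3 * τ ^ 2 / s ^ 5 ≤ (3 + 4 * u) * (s ^ 3)⁻¹ +
      (2 * (-(3 / 2) / s ^ 5) - (s ^ 3)⁻¹ ^ 2 / (e + τ ^ 2)⁻¹) * (e + 2 * u ^ 3) +
      12 * (e + τ ^ 2)⁻¹ + 1 := by
  have a1 := alg1 (pow_pos hτ 2) hu
  have hus := abs_le_of_sq_le_sq' (a := u) (b := s) (by nlinarith) hs.le
  have he : e = s ^ 2 - τ ^ 2 := by linarith
  have h3 : u ^ 3 ≤ s ^ 3 := (Odd.pow_le_pow (by decide)).2 hus.2
  rw [← h] at a1 ⊢
  rw [← sub_nonneg]
  have : (3 + 4 * u) * (s ^ 3)⁻¹ +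
      (2 * (-(3 / 2) / s ^ 5) - (s ^ 3)⁻¹ ^ 2 / (s ^ 2)⁻¹) * (e + 2 * u ^ 3) + 12 * (s ^ 2)⁻¹ + 1 -
      3 * τ ^ 2 / s ^ 5 = (4 * (u + s) * s ^ 2 + 6 * (s ^ 3 - u ^ 3) +
        s * (2 * s ^ 2 + (s ^ 2) ^ 2 - (e + 2 * u ^ 3))) / s ^ 5 := by
    rw [he]
    field_simp
    ring
  rw [this]
  have b1 : 0 ≤ u + s := by linarith [hus.1]
  have b2 : 0 ≤ s ^ 3 - u ^ 3 := by linarith
  have b3 : 0 ≤ 2 * s ^ 2 + (s ^ 2) ^ 2 - (e + 2 * u ^ 3) := by linarith
  positivity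

theorem alg4 {e τ s : ℝ} (hτ : 0 < τ) (hs : 0 < s) (h : s ^ 2 = e + τ ^ 2) (he : e < τ ^ 2) :
    1 / (3 * τ ^ 3) ≤ 3 * τ ^ 2 / s ^ 5 := by
  have h1 : s ≤ 3 / 2 * τ := abs_le_of_sq_le_sq' (by nlinarith) (by positivity) |>.2
  have h2 : s ^ 5 ≤ (3 / 2 * τ) ^ 5 := pow_le_pow_left₀ hs.le h1 5
  have h3 : 0 < τ ^ 5 := by positivity
  rw [div_le_div_iff₀ (by positivity) (by positivity)]
  nlinarith

theorem trace (F : Fld e u W) {τ : ℝ} (hτ : 0 < τ) {φ : E4 → ℝ} (H : Tst φ) :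
    ∫ y in {y | e y < τ ^ 2}, φ y ^ 2 ≤ 1329 * τ ^ 3 * eN 2 φ := by
  have ht := pow_pos hτ 2
  have p : ∀ y, 0 < e y + τ ^ 2 := fun y => by have := (sq_nonneg _).trans (F.le y); positivity
  have ps : ∀ y, 0 < √(e y + τ ^ 2) := fun y => sqrt_pos.2 (p y)
  have sD : ContDiff ℝ ∞ fun y => e y + τ ^ 2 := F.sme.add contDiff_const
  have mS : MeasurableSet {y | e y < τ ^ 2} :=
    (isOpen_lt F.sme.continuous continuous_const).measurableSet
  have j1 := (int_w F ht H).const_mul 12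
  have j2 := integrable_finsetSum Finset.univ fun j _ => int_w F ht (H.pd j)
  have j3 : Integrable fun y => 12 * (φ y ^ 2 / (e y + τ ^ 2)) + φ y ^ 2 := j1.add H.integrable_sq
  have h := div_le F (G := fun y => (√(e y + τ ^ 2) ^ 3)⁻¹)
    (G' := fun y => -(3 / 2) / √(e y + τ ^ 2) ^ 5) (k := fun y => (e y + τ ^ 2)⁻¹)
    (f := fun y => 1 / (3 * τ ^ 3) * {y | e y < τ ^ 2}.indicator (fun y => φ y ^ 2) y)
    (g := fun y => 12 * (φ y ^ 2 / (e y + τ ^ 2)) + φ y ^ 2 + ∑ j, pd j φ y ^ 2 / (e y + τ ^ 2))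
    (((sD.sqrt fun y => (p y).ne').pow 3).inv fun y => (pow_pos (ps y) 3).ne')
    (fun j y => by
      have h0 := ((((hasDerivAt_id' (e y)).add_const (τ ^ 2)).sqrt (p y).ne').fun_pow 3).fun_inv
        (pow_pos (ps y) 3).ne'
      have h1 : HasDerivAt (fun x : ℝ => (√(x + τ ^ 2) ^ 3)⁻¹) (-(3 / 2) / √(e y + τ ^ 2) ^ 5)
          (e y) := by
        refine h0.congr_deriv ?_
        have := (ps y).ne'
        norm_num
        field_simp
      exact pd_fun (dAt_of_cdAt F.sme.contDiffAt) h1 j)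
    (fun y => inv_pos.2 (p y)) H ((H.integrable_sq.indicator mS).const_mul _)
    (j3.add j2)
    (fun y => by
      have a3 := alg3 hτ (F.le y) (ps y) (sq_sqrt (p y).le)
      have a4 := mul_le_mul_of_nonneg_right a3 (sq_nonneg (φ y))
      have a5 : 1 / (3 * τ ^ 3) * {y | e y < τ ^ 2}.indicator (fun y => φ y ^ 2) y ≤
          3 * τ ^ 2 / √(e y + τ ^ 2) ^ 5 * φ y ^ 2 := by
        by_cases hy : y ∈ {y | e y < τ ^ 2}
        · rw [indicator_of_mem hy]
          exact mul_le_mul_of_nonneg_right (alg4 hτ (ps y) (sq_sqrt (p y).le) hy) (sq_nonneg _)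
        · rw [indicator_of_notMem hy, mul_zero]
          have := ps y
          positivity
      rw [← Finset.sum_div, div_eq_mul_inv (φ y ^ 2), div_eq_mul_inv (∑ j, pd j φ y ^ 2)]
      linarith)
  rw [integral_const_mul, integral_indicator mS, integral_add j3 j2,
    integral_add j1 H.integrable_sq, integral_const_mul,
    integral_finsetSum _ fun j _ => int_w F ht (H.pd j)] at h
  have b1 := hardy F ht H
  have b2 := Finset.sum_le_sum fun j (_ : j ∈ Finset.univ) => hardy F ht (H.pd j)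
  rw [← Finset.mul_sum] at b2
  have b3 := eN_le_succ 1 φ
  have b4 : eN 2 φ = (∫ y, φ y ^ 2) + ∑ j, eN 1 (pd j φ) := rfl
  have n0 : 0 ≤ ∫ y, φ y ^ 2 := eN_nonneg 0 φ
  have n1 : 0 ≤ ∑ j, eN 1 (pd j φ) := Finset.sum_nonneg fun j _ => eN_nonneg _ _
  have b5 : 1 / (3 * τ ^ 3) * ∫ y in {y | e y < τ ^ 2}, φ y ^ 2 ≤ 443 * eN 2 φ := by
    change eN 1 φ ≤ eN 2 φ at b3
    linarith
  rw [one_div, inv_mul_le_iff₀ (by positivity)] at b5
  linarith

end U1

theorem hardyStmt : HardyStmt := by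
  refine ⟨1329, fun i τ hτ _ φ H => ?_⟩
  obtain ⟨u, W, F⟩ := U1.fld i
  have h := U1.hardy F (pow_pos hτ 2) H
  have n := eN_nonneg 1 φ
  exact ⟨by linarith, U1.trace F hτ H⟩

end Pool.Agent.MP_417fa2_gt.Q2
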