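import Pool.Agent.MP_417fa2_gt.Q2.U1

/-! U2, U3. The shape function of a tube and profiles with a prescribed mass. -/

open scoped ContDiff Topology
open MeasureTheory Set Metric Real Filter

namespace Pool.Agent.MP_417fa2_gt.Q2

namespace U2

open U1

theorem D1_le {φ : E4 → ℝ} {y : E4} {K : ℝ} (hK : 0 ≤ K) (h : ∀ i, |pd i φ y| ≤ K) :
    D1 φ y ≤ 2 * K := by
  refine sqrt_le_iff.2 ⟨by positivity, ?_⟩
  calc ∑ i, pd i φ y ^ 2 ≤ ∑ _i : Fin 4, K ^ 2 :=
        Finset.sum_le_sum fun i _ => sq_le_sq' (abs_le.1 (h i)).1 (abs_le.1 (h i)).2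
    _ = _ := by simp; ring

theorem D2_le {φ : E4 → ℝ} {y : E4} {K : ℝ} (hK : 0 ≤ K) (h : ∀ i j, |pd i (pd j φ) y| ≤ K) :
    D2 φ y ≤ 4 * K := by
  refine sqrt_le_iff.2 ⟨by positivity, ?_⟩
  calc ∑ i, ∑ j, pd i (pd j φ) y ^ 2 ≤ ∑ _i : Fin 4, ∑ _j : Fin 4, K ^ 2 :=
        Finset.sum_le_sum fun i _ => Finset.sum_le_sum fun j _ =>
          sq_le_sq' (abs_le.1 (h i j)).1 (abs_le.1 (h i j)).2
    _ = _ := by simp; ring

theorem D1_nn (φ : E4 → ℝ) (y : E4) : 0 ≤ D1 φ y := sqrt_nonneg _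

theorem D2_nn (φ : E4 → ℝ) (y : E4) : 0 ≤ D2 φ y := sqrt_nonneg _

theorem pd2_zero {φ : E4 → ℝ} {y : E4} {c : ℝ} (h : φ =ᶠ[𝓝 y] fun _ => c) (i j : Fin 4) :
    pd j φ y = 0 ∧ pd i (pd j φ) y = 0 := by
  refine ⟨by rw [pd_congr h, pd_const], ?_⟩
  rw [pd_congr (pd_eventuallyEq h j), show (pd j fun _ : E4 => c) = fun _ => 0 from
    funext fun z => pd_const j c z, pd_const]

theorem D_zero {φ : E4 → ℝ} {y : E4} {c : ℝ} (h : φ =ᶠ[𝓝 y] fun _ => c) :
    D1 φ y = 0 ∧ D2 φ y = 0 := by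
  simp [D1, D2, fun j => (pd2_zero h j j).1, fun i j => (pd2_zero h i j).2]

theorem cd_deriv {β : ℝ → ℝ} (h : ContDiff ℝ ∞ β) : ContDiff ℝ ∞ (deriv β) :=
  (contDiff_infty_iff_deriv.1 h).2

theorem pd_cmp {β : ℝ → ℝ} {e : E4 → ℝ} (hβ : ContDiff ℝ ∞ β) (he : ContDiff ℝ ∞ e) (j : Fin 4) :
    (pd j fun z => β (e z)) = fun z => deriv β (e z) * pd j e z := funext fun z =>
  pd_fun (dAt_of_cdAt he.contDiffAt) ((contDiff_infty_iff_deriv.1 hβ).1 _).hasDerivAt j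

theorem pd2_cmp {β : ℝ → ℝ} {e : E4 → ℝ} (hβ : ContDiff ℝ ∞ β) (he : ContDiff ℝ ∞ e) (i j : Fin 4)
    (y : E4) : pd i (pd j fun z => β (e z)) y =
      deriv (deriv β) (e y) * pd i e y * pd j e y + deriv β (e y) * pd i (pd j e) y := by
  rw [pd_cmp hβ he, pd_mul (f := fun z => deriv β (e z))
    (dAt_of_cdAt ((cd_deriv hβ).comp he).contDiffAt) (dAt_of_cdAt (cd_pd he j).contDiffAt),
    pd_cmp (cd_deriv hβ) he]

theorem pd_smul {a : E4 → ℝ} (h : ContDiff ℝ ∞ a) (c : ℝ) (j : Fin 4) :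
    (pd j fun z => c * a z) = fun z => c * pd j a z :=
  funext fun _ => pd_const_mul (dAt_of_cdAt h.contDiffAt) c j

theorem pd2_smul {a : E4 → ℝ} (h : ContDiff ℝ ∞ a) (c : ℝ) (i j : Fin 4) (y : E4) :
    pd i (pd j fun z => c * a z) y = c * pd i (pd j a) y := by
  rw [pd_smul h, pd_smul (cd_pd h j)]

theorem ibp' {f g : E4 → ℝ} (F : Tst f) (G : ContDiff ℝ ∞ g) (k : Fin 4) :
    ∫ y, pd k f y * g y = -∫ y, f y * pd k g y := by
  have h := int_pd (F.mul_right G) k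
  simp only [pd_mul (F.dAt _) (dAt_of_cdAt G.contDiffAt)] at h
  rw [integral_add ((F.pd k).mul_right G).integrable (F.mul_right (cd_pd G k)).integrable] at h
  linarith

theorem low {a : E4 → ℝ} (A : Tst a) (p : Fin 4 → ℝ) (hp : ∑ k, p k * p k = 2) :
    ∫ y, (∑ k, p k * pd k (pd k a) y) * ∑ k, p k * y k ^ 2 = 4 * ∫ y, a y := by
  have h : ∀ k, ∫ y, p k * (pd k (pd k a) y * ∑ l, p l * y l ^ 2) = 2 * (p k * p k) * ∫ y, a y := by
    intro k
    have e1 : (pd k fun y : E4 => ∑ l, p l * y l ^ 2) = fun y : E4 => 2 * p k * y k :=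
      funext fun y => pd_quad p k y
    have e2 : ∀ y : E4, pd k (fun y : E4 => 2 * p k * y k) y = 2 * p k := fun y => by
      rw [pd_smul (cd_co k)]; simp [pd_co]
    rw [integral_const_mul, ibp' (A.pd k) (cd_quad p), e1,
      ibp' A (contDiff_const.mul (cd_co k))]
    simp only [e2]
    rw [integral_mul_const]
    ring
  have e : ∀ y : E4, (∑ k, p k * pd k (pd k a) y) * ∑ k, p k * y k ^ 2 =
      ∑ k, p k * (pd k (pd k a) y * ∑ l, p l * y l ^ 2) := fun y => by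
    rw [Finset.sum_mul]
    exact Finset.sum_congr rfl fun k _ => mul_assoc _ _ _
  simp only [e]
  rw [integral_finsetSum _ fun k _ =>
    (((A.pd k).pd k).mul_right (cd_quad p)).integrable.const_mul _]
  simp only [h]
  rw [← Finset.sum_mul, ← Finset.mul_sum, hp]
  ring

theorem pick (i : Fin 2) : ∃ p : Fin 4 → ℝ, ∑ k, p k * p k = 2 ∧
    (∀ y : E4, 0 ≤ ∑ k, p k * y k ^ 2 ∧ ∑ k, p k * y k ^ 2 ≤ ee i 1 y) ∧
    ∀ (a : E4 → ℝ) (y : E4), 3 / 4 * (∑ k, p k * pd k (pd k a) y) ^ 2 ≤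
      lz a y ^ 2 + lz a y * lw a y + lw a y ^ 2 := by
  by_cases hi : i = 0
  · refine ⟨![0, 0, 1, 1], by simp [Fin.sum_univ_four]; norm_num, fun y => ?_, fun a y => ?_⟩
    · simp [Fin.sum_univ_four, ee, hi, wsq]
      exact ⟨by positivity, sq_nonneg _⟩
    · have : ∑ k, (![0, 0, 1, 1] : Fin 4 → ℝ) k * pd k (pd k a) y = lw a y := by
        simp [Fin.sum_univ_four, lw]
      rw [this]
      nlinarith [sq_nonneg (lz a y + lw a y / 2)]
  · refine ⟨![1, 1, 0, 0], by simp [Fin.sum_univ_four]; norm_num, fun y => ?_, fun a y => ?_⟩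
    · simp [Fin.sum_univ_four, ee, hi, zsq]
      exact ⟨by positivity, sq_nonneg _⟩
    · have : ∑ k, (![1, 1, 0, 0] : Fin 4 → ℝ) k * pd k (pd k a) y = lz a y := by
        simp [Fin.sum_univ_four, lz]
      rw [this]
      nlinarith [sq_nonneg (lw a y + lz a y / 2)]

theorem ee_nn (i : Fin 2) (y : E4) : 0 ≤ ee i 1 y := by
  obtain ⟨p, -, h, -⟩ := pick i
  exact (h y).1.trans (h y).2

theorem tst_form {a : E4 → ℝ} (A : Tst a) :
    Tst fun y => lz a y ^ 2 + lz a y * lw a y + lw a y ^ 2 := by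
  have z : Tst (lz a) := ((A.pd 0).pd 0).add ((A.pd 1).pd 1)
  have w : Tst (lw a) := ((A.pd 2).pd 2).add ((A.pd 3).pd 3)
  simpa [sq] using ((z.mul_right z.sm).add (z.mul_right w.sm)).add (w.mul_right w.sm)

theorem nb_fin (N : NbFacts) {t : ℝ} (ht : 0 < t) (h : t ≤ 1 / 4) : volume (nb 1 t) ≠ ⊤ :=
  ((measure_mono fun y hy => mem_ball_zero_iff.2 (N.nb_norm 1 t one_pos ht h y hy).2).trans_lt
    measure_ball_lt_top).ne

/-- A bound on the tube of size `2 τ` integrates to the bound times `τ³`. -/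
theorem tube_int (N : NbFacts) : ∃ V : ℝ, 0 < V ∧ ∀ (i : Fin 2) (τ : ℝ), 0 < τ → τ ≤ 1 / 8 →
    ∀ (f : E4 → ℝ) (K : ℝ), Integrable f → 0 ≤ K → (∀ y, ee i 1 y ≤ τ ^ 2 → f y ≤ K) →
      (∀ y, τ ^ 2 < ee i 1 y → f y ≤ 0) → ∫ y, f y ≤ V * τ ^ 3 * K := by
  obtain ⟨V, hV⟩ := N.nb_vol
  refine ⟨8 * (|V| + 1), by positivity, fun i τ hτ h8 f K hf hK h1 h2 => ?_⟩
  have mS := (N.nb_open 1 (2 * τ)).measurableSet
  have b := hV 1 (2 * τ) one_pos (by positivity) (by linarith)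
  have i1 : ∫ y, f y ≤ ∫ y, (nb 1 (2 * τ)).indicator (fun _ => K) y := by
    refine integral_mono hf ((integrable_indicator_iff mS).2
      (integrableOn_const (nb_fin N (by positivity) (by linarith)))) fun y => ?_
    rcases le_or_gt (ee i 1 y) (τ ^ 2) with h | h
    · rw [indicator_of_mem (show y ∈ nb 1 (2 * τ) from ⟨i, by nlinarith [pow_pos hτ 2]⟩)]
      exact h1 y h
    · exact (h2 y h).trans (indicator_nonneg (fun _ _ => hK) y)
  rw [integral_indicator_const _ mS, smul_eq_mul] at i1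
  refine i1.trans (mul_le_mul_of_nonneg_right (b.trans ?_) hK)
  have := mul_le_mul_of_nonneg_right (le_abs_self V) (pow_pos hτ 3).le
  nlinarith [pow_pos hτ 3]

theorem ev_zero (N : NbFacts) {i : Fin 2} {τ : ℝ} {a : E4 → ℝ}
    (h : ∀ y, τ ^ 2 ≤ ee i 1 y → a y = 0) {y : E4} (hy : τ ^ 2 < ee i 1 y) : a =ᶠ[𝓝 y] fun _ => 0 :=
  mem_of_superset ((isOpen_lt continuous_const (N.ee_sm i 1).continuous).mem_nhds hy)
    fun z hz => h z (le_of_lt hz)

/-- The one-dimensional cut-off. -/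
noncomputable def bb (x : ℝ) : ℝ := smoothTransition (4 / 3 * (1 - x))

theorem bb_sm : ContDiff ℝ ∞ bb :=
  smoothTransition.contDiff.comp (contDiff_const.mul (contDiff_const.sub contDiff_id))

theorem bb_bd : ∃ B : ℝ, 0 < B ∧ ∀ x ∈ Icc (0 : ℝ) 1, |deriv bb x| ≤ B ∧ |deriv (deriv bb) x| ≤ B := by
  obtain ⟨B1, h1⟩ := (isCompact_Icc (a := (0 : ℝ)) (b := 1)).exists_bound_of_continuousOn
    (cd_deriv bb_sm).continuous.continuousOn
  obtain ⟨B2, h2⟩ := (isCompact_Icc (a := (0 : ℝ)) (b := 1)).exists_bound_of_continuousOn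
    (cd_deriv (cd_deriv bb_sm)).continuous.continuousOn
  refine ⟨|B1| + |B2| + 1, by positivity, fun x hx => ⟨(h1 x hx).trans ?_, (h2 x hx).trans ?_⟩⟩
  · linarith [le_abs_self B1, abs_nonneg B2]
  · linarith [le_abs_self B2, abs_nonneg B1]

theorem shape_bd (X : ChiFacts) (N : NbFacts) : ∃ C : ℝ, ∀ (i : Fin 2) (τ : ℝ), 0 < τ → τ ≤ 1 / 8 →
    ∀ y, ee i 1 y ≤ τ ^ 2 → D1 (fun z => bb ((τ ^ 2)⁻¹ * ee i 1 z)) y ≤ C / τ ∧
      D2 (fun z => bb ((τ ^ 2)⁻¹ * ee i 1 z)) y ≤ C / τ ^ 2 := by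
  obtain ⟨B, pB, hB⟩ := bb_bd
  refine ⟨480 * B, fun i τ hτ h8 y hy => ?_⟩
  have se := N.ee_sm i 1
  have se' : ContDiff ℝ ∞ fun z => (τ ^ 2)⁻¹ * ee i 1 z := contDiff_const.mul se
  have t2 := pow_pos hτ 2
  obtain ⟨e1, e2⟩ := N.ee_bd i 1 y one_pos (by nlinarith)
  have e3 : √(ee i 1 y) ≤ τ := sqrt_le_iff.2 ⟨hτ.le, hy⟩
  obtain ⟨b1, b2⟩ := hB ((τ ^ 2)⁻¹ * ee i 1 y) ⟨mul_nonneg (by positivity) (ee_nn i y), by
    rw [inv_mul_le_iff₀ t2]; linarith⟩
  have d1 : ∀ j, |pd j (fun z => (τ ^ 2)⁻¹ * ee i 1 z) y| ≤ 10 / τ := fun j => by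
    rw [pd_smul se, abs_mul, abs_of_pos (inv_pos.2 t2), inv_mul_le_iff₀ t2,
      show τ ^ 2 * (10 / τ) = 10 * τ by field_simp]
    linarith [X.pd_le (ee i 1) j y]
  have d2 : ∀ k j, |pd k (pd j fun z => (τ ^ 2)⁻¹ * ee i 1 z) y| ≤ 20 / τ ^ 2 := fun k j => by
    rw [pd2_smul se, abs_mul, abs_of_pos (inv_pos.2 t2), inv_mul_le_iff₀ t2,
      show τ ^ 2 * (20 / τ ^ 2) = 20 by field_simp]
    linarith [X.pd2_le (ee i 1) k j y]
  constructor
  · refine (D1_le (K := B * (10 / τ)) (by positivity) fun j => ?_).trans ?_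
    · rw [pd_cmp bb_sm se', abs_mul]
      exact mul_le_mul b1 (d1 j) (abs_nonneg _) pB.le
    · rw [show 2 * (B * (10 / τ)) = 20 * B / τ by ring]
      exact div_le_div_of_nonneg_right (by linarith) hτ.le
  · refine (D2_le (K := B * (10 / τ) * (10 / τ) + B * (20 / τ ^ 2)) (by positivity)
      fun k j => ?_).trans (le_of_eq (by field_simp; ring))
    rw [pd2_cmp bb_sm se']
    refine (abs_add_le _ _).trans (add_le_add ?_ ?_)
    · rw [abs_mul, abs_mul]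
      exact mul_le_mul (mul_le_mul b2 (d1 k) (abs_nonneg _) pB.le) (d1 j) (abs_nonneg _)
        (by positivity)
    · rw [abs_mul]
      exact mul_le_mul b1 (d2 k j) (abs_nonneg _) pB.le

end U2

open U2 in
theorem shapeStmt (X : ChiFacts) (N : NbFacts) : ShapeStmt := by
  obtain ⟨C, hC⟩ := shape_bd X N
  obtain ⟨V, pV, hV⟩ := tube_int N
  obtain ⟨c, pc, hc⟩ := N.vol_lo
  refine ⟨3 / 16 * (c ^ 2 / V), |C|, by positivity, fun i τ hτ h8 => ?_⟩
  have t2 := pow_pos hτ 2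
  set a : E4 → ℝ := fun z => bb ((τ ^ 2)⁻¹ * ee i 1 z) with ha
  have h0 : ∀ y, τ ^ 2 ≤ ee i 1 y → a y = 0 := fun y hy => by
    have : 1 ≤ (τ ^ 2)⁻¹ * ee i 1 y := by rw [le_inv_mul_iff₀ t2]; linarith
    exact smoothTransition.zero_of_nonpos (by linarith)
  have A : Tst a := by
    refine ⟨bb_sm.comp (contDiff_const.mul (N.ee_sm i 1)),
      HasCompactSupport.intro (isCompact_closedBall (0 : E4) 2) fun y hy => h0 y (not_lt.1 fun h => hy ?_)⟩
    have := (N.nb_norm 1 τ one_pos hτ (by linarith) y ⟨i, h⟩).2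
    exact mem_closedBall_zero_iff.2 (by linarith)
  have a0 : ∀ y, 0 ≤ a y := fun y => smoothTransition.nonneg _
  refine ⟨a, A, h0, fun y y' h1 h2 => by simp only [ha, ee, h1, h2], fun y => ?_, ?_⟩
  · refine ⟨by rw [abs_of_nonneg (a0 y)]; exact smoothTransition.le_one _, ?_⟩
    rcases le_or_gt (ee i 1 y) (τ ^ 2) with h | h
    · exact ⟨(hC i τ hτ h8 y h).1.trans (div_le_div_of_nonneg_right (le_abs_self C) hτ.le),
        (hC i τ hτ h8 y h).2.trans (div_le_div_of_nonneg_right (le_abs_self C) t2.le)⟩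
    · obtain ⟨z1, z2⟩ := D_zero (ev_zero N h0 h)
      rw [z1, z2]
      exact ⟨by positivity, by positivity⟩
  obtain ⟨p, hp, hq, hL⟩ := pick i
  have TL : Tst fun y => ∑ k, p k * pd k (pd k a) y :=
    Tst.sum fun k _ => ((A.pd k).pd k).const_mul _
  have l1 := low A p hp
  have mS : MeasurableSet {y | ee i 1 y < (τ / 2) ^ 2} :=
    (isOpen_lt (N.ee_sm i 1).continuous continuous_const).measurableSet
  have l2 : c * (τ / 2) ^ 3 ≤ ∫ y, a y := by
    refine (hc i (τ / 2) (by positivity) (by linarith)).trans ?_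
    have fin : volume {y | ee i 1 y < (τ / 2) ^ 2} ≠ ⊤ :=
      ne_top_of_le_ne_top (nb_fin N (t := τ / 2) (by positivity) (by linarith))
        (measure_mono fun y hy => ⟨i, hy⟩)
    have e := integral_indicator_const (μ := (volume : Measure E4)) (1 : ℝ) mS
    rw [smul_eq_mul, mul_one] at e
    rw [← e]
    refine integral_mono ((integrable_indicator_iff mS).2 (integrableOn_const fin)) A.integrable
      fun y => ?_
    by_cases hy : y ∈ {y | ee i 1 y < (τ / 2) ^ 2}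
    · rw [indicator_of_mem hy]
      have h1 : (τ ^ 2)⁻¹ * ee i 1 y ≤ 1 / 4 := by
        rw [inv_mul_le_iff₀ t2]
        have : ee i 1 y < (τ / 2) ^ 2 := hy
        linarith
      exact (smoothTransition.one_of_one_le (by linarith)).ge
    · rw [indicator_of_notMem hy]
      exact a0 y
  set κ := V / c * τ ^ 4 with hκ
  have pκ : 0 < κ := by positivity
  have j1 := (TL.mul_right (U1.cd_quad p)).integrable
  have j2 := (tst_form A).integrable.const_mul (4 / 3 * κ)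
  have l3 := hV i τ hτ h8 (fun y => (∑ k, p k * pd k (pd k a) y) * ∑ k, p k * y k ^ 2 -
      4 / 3 * κ * (lz a y ^ 2 + lz a y * lw a y + lw a y ^ 2)) (τ ^ 4 / (4 * κ)) (j1.sub j2)
    (by positivity) (fun y hy => by
      have b1 := mul_le_mul_of_nonneg_left (hL a y) pκ.le
      have b2 : (∑ k, p k * y k ^ 2) ^ 2 ≤ (τ ^ 2) ^ 2 :=
        pow_le_pow_left₀ (hq y).1 ((hq y).2.trans hy) 2
      rw [le_div_iff₀ (by positivity)]
      nlinarith [sq_nonneg (2 * κ * (∑ k, p k * pd k (pd k a) y) - ∑ k, p k * y k ^ 2),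
        mul_le_mul_of_nonneg_left b1 pκ.le])
    (fun y hy => by
      have z := fun k => (pd2_zero (ev_zero N h0 hy) k k).2
      simp [lz, lw, z])
  rw [integral_sub j1 j2, l1, integral_const_mul,
    show V * τ ^ 3 * (τ ^ 4 / (4 * κ)) = c * τ ^ 3 / 4 by rw [hκ]; field_simp] at l3
  have l4 : c * τ ^ 3 / 4 ≤ 4 / 3 * κ * ∫ y, (lz a y ^ 2 + lz a y * lw a y + lw a y ^ 2) := by
    linarith
  refine le_of_mul_le_mul_left (le_trans (le_of_eq ?_) l4) (by positivity : 0 < 4 / 3 * κ)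
  rw [hκ]
  field_simp
  ring

namespace U2

theorem D_smul (X : ChiFacts) {a : E4 → ℝ} (A : Tst a) {ε : ℝ} (hε : 0 ≤ ε) (y : E4) :
    D1 (fun z => ε * a z) y ≤ ε * D1 a y ∧ D2 (fun z => ε * a z) y ≤ ε * D2 a y := by
  obtain ⟨z1, z2⟩ := D_zero (φ := fun _ => ε) (y := y) (c := ε) EventuallyEq.rfl
  have h1 := X.D1_mul (fun _ => ε) a y contDiffAt_const A.sm.contDiffAt
  have h2 := X.D2_mul (fun _ => ε) a y contDiffAt_const A.sm.contDiffAt
  rw [z1, abs_of_nonneg hε] at h1 h2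
  rw [z2] at h2
  exact ⟨by linarith, by linarith⟩

theorem err_le {s d₁ d₂ ε C τ : ℝ} (hτ : 0 < τ) (hε : 0 ≤ ε) (hε1 : ε ≤ 1) (hC : 0 ≤ C)
    (hs : |s| ≤ ε) (n1 : 0 ≤ d₁) (n2 : 0 ≤ d₂) (h1 : d₁ ≤ ε * (C / τ)) (h2 : d₂ ≤ ε * (C / τ ^ 2)) :
    |s| * d₂ ^ 2 + d₁ ^ 2 * d₂ + d₁ ^ 4 ≤ ε ^ 3 / τ ^ 4 * (C ^ 2 + C ^ 3 + C ^ 4) := by
  calc |s| * d₂ ^ 2 + d₁ ^ 2 * d₂ + d₁ ^ 4 ≤ ε * (ε * (C / τ ^ 2)) ^ 2 +
        (ε * (C / τ)) ^ 2 * (ε * (C / τ ^ 2)) + (ε * (C / τ)) ^ 4 := by gcongr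
    _ = ε ^ 3 / τ ^ 4 * (C ^ 2 + C ^ 3 + ε * C ^ 4) := by field_simp
    _ ≤ ε ^ 3 / τ ^ 4 * (C ^ 2 + C ^ 3 + 1 * C ^ 4) := by gcongr
    _ = _ := by ring

theorem mass_eq (Q : QdFacts) {s : E4 → ℝ} (S : Tst s) (h : ∀ y, |s y| ≤ 1) :
    ∫ y, qd s y = -(1 / 12) * ∫ y, sg s y := by
  obtain ⟨C, hC⟩ := Q.bd
  have w := Q.weak s (fun _ => 1) S contDiff_const
  have z : ∀ y, lap (Gs s) (fun _ => 1) y = 0 := fun y => by
    obtain ⟨z1, z2⟩ := D_zero (φ := fun _ => (1 : ℝ)) (y := y) (c := 1) EventuallyEq.rfl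
    have := (hC s y (smAt_of S.sm y) (h y)).2.2.2.2 _ (smAt_of (contDiff_const (c := (1 : ℝ))) y)
    rw [z1, z2] at this
    simpa using this
  simp only [z, mul_zero, mul_one, integral_zero] at w
  rw [w]
  ring

end U2

open U2 in
theorem profStmt (X : ChiFacts) (N : NbFacts) (L : LocFacts) (Q : QdFacts) (S : ShapeStmt) :
    ProfStmt := by
  intro m hm
  obtain ⟨c, C₀, pc, hS⟩ := S
  obtain ⟨V, pV, hV⟩ := tube_int N
  obtain ⟨Cq, hq⟩ := Q.bd
  set C := |C₀| + 1 with hC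
  have pC : 1 ≤ C := by linarith [abs_nonneg C₀]
  have lC : C₀ ≤ C := by linarith [le_abs_self C₀]
  set K := √(7 * m / c) with hK
  have pK : 0 < K := sqrt_pos.2 (by positivity)
  have K2 : K ^ 2 * c = 7 * m := by rw [hK, sq_sqrt (by positivity)]; field_simp
  set E := V * (|Cq| * (C ^ 2 + C ^ 3 + C ^ 4)) * K ^ 3 with hE
  have pE : 0 ≤ E := by positivity
  set σ := min (1 / K) (2 * m / (E + 1)) with hσ
  have pσ : 0 < σ := lt_min (by positivity) (by positivity)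
  refine ⟨K * C, min (1 / 8) (σ ^ 2), by positivity, lt_min (by norm_num) (by positivity),
    fun i τ hτ h0 => ?_⟩
  have h8 : τ ≤ 1 / 8 := h0.trans (min_le_left _ _)
  have hr : √τ ≤ σ := sqrt_le_iff.2 ⟨pσ.le, h0.trans (min_le_right _ _)⟩
  have pr : 0 < √τ := sqrt_pos.2 hτ
  have r2 : √τ ^ 2 = τ := sq_sqrt hτ.le
  have e1 : K * √τ ≤ 1 := by
    have := (le_div_iff₀ pK).1 (hr.trans (min_le_left _ _))
    linarith
  have e2 : E * √τ ≤ 2 * m := by
    have := (le_div_iff₀ (by positivity)).1 (hr.trans (min_le_right _ _))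
    nlinarith
  obtain ⟨a, A, h1, h2, h3, h4⟩ := hS i τ hτ h8
  have d0 : ∀ ε : ℝ, 0 ≤ ε → ∀ y, |ε * a y| ≤ ε := fun ε hε y => by
    rw [abs_mul, abs_of_nonneg hε]
    exact mul_le_of_le_one_right hε (h3 y).1
  have d1 : ∀ ε : ℝ, 0 ≤ ε → ∀ y, D1 (fun z => ε * a z) y ≤ ε * (C / τ) := fun ε hε y =>
    (D_smul X A hε y).1.trans (mul_le_mul_of_nonneg_left
      ((h3 y).2.1.trans (div_le_div_of_nonneg_right lC hτ.le)) hε)
  have d2 : ∀ ε : ℝ, 0 ≤ ε → ∀ y, D2 (fun z => ε * a z) y ≤ ε * (C / τ ^ 2) := fun ε hε y =>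
    (D_smul X A hε y).2.trans (mul_le_mul_of_nonneg_left
      ((h3 y).2.2.trans (div_le_div_of_nonneg_right lC (by positivity))) hε)
  have F0 : ∫ y, sg (fun z => 0 * a z) y = 0 := by
    refine integral_eq_zero_of_ae (Eventually.of_forall fun y => ?_)
    obtain ⟨z1, z2⟩ := D_zero (φ := fun z => 0 * a z) (y := y) (c := 0)
      (Eventually.of_forall fun z => zero_mul _)
    have := (hq _ y (smAt_of (A.const_mul 0).sm y) (by simp)).2.2.1
    rw [z1, z2] at this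
    simpa using this
  have F1 : 12 * m ≤ ∫ y, sg (fun z => K * √τ * a z) y := by
    set ε := K * √τ with hε
    have pε : 0 ≤ ε := by positivity
    have T := A.const_mul ε
    have ev : ∀ y, τ ^ 2 < ee i 1 y → (fun z => ε * a z) =ᶠ[𝓝 y] fun _ => 0 := fun y hy =>
      ev_zero N (fun z hz => by rw [h1 z hz, mul_zero]) hy
    have bd := fun y => hq _ y (smAt_of T.sm y) ((d0 ε pε y).trans e1)
    have out : ∀ y : E4, y ∉ closedBall (0 : E4) 2 → τ ^ 2 < ee i 1 y := fun y hy => by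
      refine not_le.1 fun h => hy (mem_closedBall_zero_iff.2 ?_)
      have := (N.nb_norm 1 (2 * τ) one_pos (by positivity) (by linarith) y
        ⟨i, by nlinarith [pow_pos hτ 2]⟩).2
      linarith
    have j1 : Integrable (sg fun z => ε * a z) := by
      refine Tst.integrable ⟨contDiffOn_univ.1 (L.sm _ _ _ univ isOpen_univ T.sm.contDiffOn
        T.sm.contDiffOn T.sm.contDiffOn).2.2.2.1,
        HasCompactSupport.intro (isCompact_closedBall (0 : E4) 2) fun y hy => ?_⟩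
      obtain ⟨z1, z2⟩ := D_zero (ev y (out y hy))
      have := (bd y).2.2.1
      rw [z1, z2] at this
      simpa using this
    have j2 : Integrable (quad fun z => ε * a z) := by
      have t := fun k j => (T.pd j).pd k
      have q : ∀ {f : E4 → ℝ}, Tst f → Tst fun y => f y ^ 2 := fun F => by
        simpa [sq] using F.mul_right F.sm
      have z : Tst (lz fun z => ε * a z) := (t 0 0).add (t 1 1)
      have w : Tst (lw fun z => ε * a z) := (t 2 2).add (t 3 3)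
      exact (((((q (z.add w)).const_mul 6).add
        ((((q (t 2 2)).add ((q (t 2 3)).const_mul 2)).add (q (t 3 3))).const_mul 12)).add
        (((((q (t 0 2)).add (q (t 0 3))).add (q (t 1 2))).add (q (t 1 3))).const_mul 6)).sub
        ((q (z.add (w.const_mul 2))).const_mul 4)).integrable
    have i1 := hV i τ hτ h8 (fun y => quad (fun z => ε * a z) y - sg (fun z => ε * a z) y)
      (|Cq| * (ε ^ 3 / τ ^ 4 * (C ^ 2 + C ^ 3 + C ^ 4))) (j2.sub j1) (by positivity)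
      (fun y _ => by
        have b1 := (bd y).2.2.2.1
        have b2 := err_le hτ pε e1 (by linarith) (d0 ε pε y) (D1_nn _ y) (D2_nn _ y) (d1 ε pε y)
          (d2 ε pε y)
        rw [abs_sub_comm] at b1
        refine (le_abs_self _).trans (b1.trans (mul_le_mul (le_abs_self _) b2 ?_ (abs_nonneg _)))
        have := D2_nn (fun z => ε * a z) y
        positivity)
      (fun y hy => by
        obtain ⟨z1, z2⟩ := D_zero (ev y hy)
        have b1 := (bd y).2.2.2.1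
        rw [z1, z2, abs_sub_comm] at b1
        exact (le_abs_self _).trans (b1.trans (le_of_eq (by ring))))
    have i2 : ∫ y, quad (fun z => ε * a z) y =
        2 * (ε ^ 2 * ∫ y, (lz a y ^ 2 + lz a y * lw a y + lw a y ^ 2)) := by
      rw [Q.quad_int _ T, ← integral_const_mul (ε ^ 2)]
      congr 2
      funext y
      simp only [lz, lw, pd2_smul A.sm]
      ring
    have i3 : ε ^ 2 * (c / τ) = 7 * m := by
      rw [hε, mul_pow, r2, ← K2]
      field_simp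
    have i4 : V * τ ^ 3 * (|Cq| * (ε ^ 3 / τ ^ 4 * (C ^ 2 + C ^ 3 + C ^ 4))) = E * √τ := by
      rw [hE, hε, mul_pow, show √τ ^ 3 = τ * √τ by rw [pow_succ, r2]]
      field_simp
    have i5 := mul_le_mul_of_nonneg_left h4 (sq_nonneg ε)
    rw [integral_sub j2 j1, i2, i4] at i1
    linarith
  obtain ⟨ε, ⟨pε, lε⟩, hε⟩ := intermediate_value_Icc (show (0 : ℝ) ≤ K * √τ by positivity)
    (Q.cont a A).continuousOn (show 12 * m ∈ Icc _ _ from ⟨by rw [F0]; positivity, F1⟩)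
  refine ⟨fun z => ε * a z, A.const_mul ε, fun y hy => by rw [h1 y hy, mul_zero],
    fun y y' a1 a2 => by rw [h2 y y' a1 a2], fun y => (d0 ε pε y).trans (lε.trans ?_),
    fun y => (d1 ε pε y).trans ?_, fun y => (d2 ε pε y).trans ?_, ?_⟩
  · nlinarith [mul_pos pK pr]
  · exact (mul_le_mul_of_nonneg_right lε (by positivity)).trans (le_of_eq (by ring))
  · exact (mul_le_mul_of_nonneg_right lε (by positivity)).trans (le_of_eq (by ring))
  · have h5 : ∫ y, sg (fun z => ε * a z) y = 12 * m := hε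
    rw [mass_eq Q (A.const_mul ε) fun y => (d0 ε pε y).trans (lε.trans e1), h5]
    ring

end Pool.Agent.MP_417fa2_gt.Q2
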