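import Pool.Agent.MP_417fa2_gt.Q2.ESpec

/-! Row U7: the two tubes at scale `r`. -/

open scoped ContDiff Topology Pointwise
open MeasureTheory Set Metric Real Filter

namespace Pool.Agent.MP_417fa2_gt.Q2

theorem u7_tst {φ : E4 → ℝ} (h : Tst φ) {r : ℝ} (hr : r ≠ 0) : Tst fun z => φ (r • z) :=
  ⟨h.sm.comp (contDiff_id.const_smul r), h.cs.comp_smul hr⟩

theorem u7_int (f : E4 → ℝ) {r : ℝ} (hr : 0 < r) : ∫ y, f (r • y) = (r ^ 4)⁻¹ * ∫ y, f y := by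
  rw [Measure.integral_comp_smul_of_nonneg volume f r (hR := hr.le)]
  simp

theorem u7_avg (f : E4 → ℝ) {r : ℝ} (hr : 0 < r) :
    ⨍ y in ball (0 : E4) 1, f (r • y) = ⨍ y in ball (0 : E4) r, f y := by
  rw [setAverage_eq, setAverage_eq, Measure.setIntegral_comp_smul_of_pos volume f _ hr,
    smul_unitBall_of_pos hr, measureReal_def, measureReal_def,
    Measure.addHaar_ball_of_pos volume (0 : E4) hr, ENNReal.toReal_mul,
    ENNReal.toReal_ofReal (by positivity)]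
  simp only [smul_eq_mul, mul_inv]
  ring

theorem u7_av (i : Fin 2) (f : E4 → ℝ) (r : ℝ) : av i 1 (fun y => f (r • y)) = av i r f := by
  have e : ∀ θ, r • circ i 1 θ = circ i r θ := fun θ => by
    unfold circ
    split_ifs <;> ext j <;> fin_cases j <;> simp
  simp only [av, e]

theorem u7_scale (h : ChiFacts) {φ : E4 → ℝ} (hφ : Tst φ) {r : ℝ} (hr : 0 < r) (hr1 : r ≤ 1) :
    (∫ y, D2 (fun z => φ (r • z)) y ^ 2 = ∫ y, D2 φ y ^ 2) ∧
    (∫ y, D1 (fun z => φ (r • z)) y ^ 4 = ∫ y, D1 φ y ^ 4) ∧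
    √(eN 2 fun z => φ (r • z)) ≤ (r ^ 2)⁻¹ * √(eN 2 φ) := by
  have e1 := fun y => (h.D_scale r φ hr hφ.sm y).1
  have e2 := fun y => (h.D_scale r φ hr hφ.sm y).2
  have a2 : ∫ y, D2 (fun z => φ (r • z)) y ^ 2 = ∫ y, D2 φ y ^ 2 := by
    simp only [e2, mul_pow, integral_const_mul]
    rw [u7_int (fun y => D2 φ y ^ 2) hr]
    field_simp
  have a1 : ∫ y, D1 (fun z => φ (r • z)) y ^ 2 = (r ^ 4)⁻¹ * (r ^ 2 * ∫ y, D1 φ y ^ 2) := by
    simp only [e1, mul_pow, integral_const_mul]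
    rw [u7_int (fun y => D1 φ y ^ 2) hr]
    ring
  refine ⟨a2, ?_, ?_⟩
  · simp only [e1, mul_pow, integral_const_mul]
    rw [u7_int (fun y => D1 φ y ^ 4) hr]
    field_simp
  · rw [← Real.sqrt_sq (show 0 ≤ (r ^ 2)⁻¹ by positivity), ← Real.sqrt_mul (sq_nonneg _)]
    refine Real.sqrt_le_sqrt ?_
    rw [h.eN2 _ (u7_tst hφ hr.ne'), h.eN2 _ hφ, a1, a2, u7_int (fun y => φ y ^ 2) hr,
      show (r ^ 2)⁻¹ ^ 2 = (r ^ 4)⁻¹ by ring, mul_add, mul_add]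
    have p1 : 0 ≤ ∫ y, D1 φ y ^ 2 := integral_nonneg fun _ => sq_nonneg _
    have p2 : 0 ≤ ∫ y, D2 φ y ^ 2 := integral_nonneg fun _ => sq_nonneg _
    have p3 : 1 ≤ (r ^ 4)⁻¹ := (one_le_inv₀ (by positivity)).2 (pow_le_one₀ hr.le hr1)
    have p4 : r ^ 2 * ∫ y, D1 φ y ^ 2 ≤ ∫ y, D1 φ y ^ 2 :=
      mul_le_of_le_one_left p1 (pow_le_one₀ hr.le hr1)
    have p5 := mul_le_mul_of_nonneg_left p4 (zero_le_one.trans p3)
    nlinarith

theorem u7_ev (a : ℝ) {b : ℝ} (hb : 0 < b) :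
    ∀ᶠ τ in 𝓝[>] (0 : ℝ), a * √τ ≤ b ∧ a * τ ≤ b := by
  have h1 : Tendsto (fun τ : ℝ => a * √τ) (𝓝 0) (𝓝 0) :=
    Continuous.tendsto' (by fun_prop) 0 0 (by simp)
  have h2 : Tendsto (fun τ : ℝ => a * τ) (𝓝 0) (𝓝 0) :=
    Continuous.tendsto' (by fun_prop) 0 0 (by simp)
  exact ((h1.eventually (ge_mem_nhds hb)).and (h2.eventually (ge_mem_nhds hb))).filter_mono
    nhdsWithin_le_nhds

theorem u7_disj (hn : NbFacts) {m τ C : ℝ} {s s' : E4 → ℝ} (h0 : 0 < τ) (h1 : τ ≤ 1 / 100)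
    (P : Prof 0 m τ C s) (P' : Prof 1 m τ C s') : Disjoint (tsupport s) (tsupport s') := by
  have key : ∀ (i : Fin 2) (u : E4 → ℝ), Prof i m τ C u → tsupport u ⊆ {y | ee i 1 y ≤ τ ^ 2} :=
    fun i u U => closure_minimal (fun y hy => (not_le.1 fun hh => hy (U.supp y hh)).le)
      (isClosed_le (hn.ee_sm i 1).continuous continuous_const)
  refine Set.disjoint_left.2 fun y a b => ?_
  have a1 := key 0 s P a
  have b1 := key 1 s' P' b
  simp only [ee, mem_ofPred_eq, if_true, one_ne_zero, if_false] at a1 b1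
  have z0 : 0 ≤ zsq y := by unfold zsq; positivity
  have w0 : 0 ≤ wsq y := by unfold wsq; positivity
  have t2 : τ ^ 2 ≤ 1 / 100 := by nlinarith
  have w1 : wsq y ≤ 1 / 100 := by nlinarith [sq_nonneg ((zsq y - 1 ^ 2) / (2 * 1))]
  nlinarith

theorem tubeStmt (_hc : CoFacts) (h : ChiFacts) (hn : NbFacts) (hs : ScaleFacts) (hp : ProfStmt)
    (h1 : T1Stmt) (h3 : T3Stmt) (h4 : T4Stmt) : TubeStmt := by
  intro m hm
  obtain ⟨C, τ₀, C0, t0, hP⟩ := hp (m / 2) (by positivity)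
  obtain ⟨C1, c1⟩ := h1 C C0
  obtain ⟨C3, c3⟩ := h3 C C0
  obtain ⟨C4, c4⟩ := h4 C C0
  obtain ⟨L, hL⟩ := h.l4
  refine ⟨2 * (|C3| * (1 + √(√|L|))), fun r η hr hr1 hη hηr => ?_⟩
  obtain ⟨τ, ⟨⟨⟨⟨⟨⟨⟨q1, q2⟩, q3⟩, q4⟩, q5⟩, q6⟩, q7⟩, τ0⟩⟩ :=
    ((((((((u7_ev 1 t0).and (u7_ev 1 (show (0 : ℝ) < 1 / 100 by norm_num))).and
      (u7_ev C one_pos)).and (u7_ev (2 * C) hη)).and (u7_ev (8 * r) hη)).and
      (u7_ev (2 * |C1| * (r ^ 2)⁻¹ * (r ^ 2)⁻¹) hη)).and (u7_ev (2 * |C4|) hη)).and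
      self_mem_nhdsWithin).exists
  replace τ0 : 0 < τ := τ0
  replace q1 : τ ≤ τ₀ := by linarith [q1.2]
  replace q2 : τ ≤ 1 / 100 := by linarith [q2.2]
  obtain ⟨s, P⟩ := hP 0 τ τ0 q1
  obtain ⟨s', P'⟩ := hP 1 τ τ0 q1
  have tS := P.sm.add P'.sm
  obtain ⟨ad1, ad2⟩ := hs.add s s' P.sm P'.sm (u7_disj hn τ0 q2 P P')
  have iq : ∀ (i : Fin 2) (u : E4 → ℝ), Prof i (m / 2) τ C u → Integrable (qd u) := fun i u U =>
    Integrable.of_integral_ne_zero (by rw [U.mass]; linarith)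
  have sQ : ∀ φ, Tst φ → ∫ y, qd (fun z => s (r⁻¹ • z) + s' (r⁻¹ • z)) y * φ y =
      (∫ y, qd s y * φ (r • y)) + ∫ y, qd s' y * φ (r • y) := fun φ hφ => by
    obtain ⟨B, hB⟩ := hφ.cs.exists_bound_of_continuous hφ.continuous
    have cm := (u7_tst hφ hr.ne').continuous.aestronglyMeasurable (μ := volume)
    rw [hs.scaleQ _ φ r hr tS, ← integral_add
      ((iq 0 s P).mul_bdd cm (Eventually.of_forall fun y => hB _))
      ((iq 1 s' P').mul_bdd cm (Eventually.of_forall fun y => hB _))]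
    simp only [ad1, add_mul]
  refine ⟨fun z => s (r⁻¹ • z) + s' (r⁻¹ • z), u7_tst tS (inv_ne_zero hr.ne'), fun y hy => ?_,
    fun y y' a b => ?_, fun y => ?_, fun φ ψ hφ hψ => ?_, ?_, fun φ hφ => ?_, fun φ hφ K hK => ?_⟩
  · have key : ∀ i, τ ^ 2 ≤ ee i 1 (r⁻¹ • y) := fun i => by
      have e := hn.ee_scale i r (r⁻¹ • y) hr
      rw [smul_inv_smul₀ hr.ne'] at e
      have a : (η / 2) ^ 2 ≤ ee i r y := not_lt.1 fun hh => hy ⟨i, hh⟩
      have b : (r * τ) ^ 2 ≤ (η / 2) ^ 2 :=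
        pow_le_pow_left₀ (by positivity) (by nlinarith [q5.2, mul_pos hr τ0]) 2
      rw [mul_pow] at b
      exact le_of_mul_le_mul_left (b.trans (a.trans e.le)) (by positivity)
    rw [P.supp _ (key 0), P'.supp _ (key 1), add_zero]
  · have a' : zsq (r⁻¹ • y) = zsq (r⁻¹ • y') := by
      simp only [zsq, PiLp.smul_apply, smul_eq_mul, mul_pow, ← mul_add] at a ⊢
      rw [a]
    have b' : wsq (r⁻¹ • y) = wsq (r⁻¹ • y') := by
      simp only [wsq, PiLp.smul_apply, smul_eq_mul, mul_pow, ← mul_add] at b ⊢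
      rw [b]
    rw [P.rad _ _ a' b', P'.rad _ _ a' b']
  · exact (abs_add_le _ _).trans (by linarith [P.d0 (r⁻¹ • y), P'.d0 (r⁻¹ • y), q4.1])
  · have tφ := u7_tst hφ hr.ne'
    have tψ := u7_tst hψ hr.ne'
    rw [hs.scaleT _ φ ψ r hr tS hφ hψ, ad2 _ _ tφ tψ]
    have key : C1 * √τ * √(eN 2 fun z => φ (r • z)) * √(eN 2 fun z => ψ (r • z)) ≤
        |C1| * √τ * ((r ^ 2)⁻¹ * √(eN 2 φ)) * ((r ^ 2)⁻¹ * √(eN 2 ψ)) := by
      gcongr
      · exact le_abs_self _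
      · exact (u7_scale h hφ hr hr1).2.2
      · exact (u7_scale h hψ hr hr1).2.2
    have a := c1 0 _ τ s τ0 q2 q3.1 P _ _ tφ tψ
    have b := c1 1 _ τ s' τ0 q2 q3.1 P' _ _ tφ tψ
    have c := mul_le_mul_of_nonneg_right q6.1
      (mul_nonneg (sqrt_nonneg (eN 2 φ)) (sqrt_nonneg (eN 2 ψ)))
    exact (abs_add_le _ _).trans (by linarith)
  · have e := hs.scaleQ _ (fun _ => 1) r hr tS
    simp only [mul_one, ad1] at e
    rw [e, integral_add (iq 0 s P) (iq 1 s' P'), P.mass, P'.mass]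
    ring
  · have tφ := u7_tst hφ hr.ne'
    obtain ⟨e2, e1, -⟩ := u7_scale h hφ hr hr1
    have a := c3 0 _ τ s τ0 q2 q3.1 P _ tφ
    have b := c3 1 _ τ s' τ0 q2 q3.1 P' _ tφ
    rw [e1, e2, u7_avg φ hr] at a b
    have n0 := eN_nonneg 2 φ
    have k1 : √(∫ y, D2 φ y ^ 2) ≤ √(eN 2 φ) := by
      refine Real.sqrt_le_sqrt ?_
      rw [h.eN2 φ hφ]
      have p1 : 0 ≤ ∫ y, D1 φ y ^ 2 := integral_nonneg fun _ => sq_nonneg _
      have p2 : 0 ≤ ∫ y, φ y ^ 2 := integral_nonneg fun _ => sq_nonneg _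
      linarith
    have k2 : √(√(∫ y, D1 φ y ^ 4)) ≤ √(√|L|) * √(eN 2 φ) := by
      rw [← Real.sqrt_mul (sqrt_nonneg _)]
      refine Real.sqrt_le_sqrt ?_
      rw [← Real.sqrt_sq n0, ← Real.sqrt_mul (abs_nonneg _)]
      exact Real.sqrt_le_sqrt ((hL φ hφ).trans
        (mul_le_mul_of_nonneg_right (le_abs_self _) (sq_nonneg _)))
    have key : C3 * (√(∫ y, D2 φ y ^ 2) + √(√(∫ y, D1 φ y ^ 4))) ≤
        |C3| * (√(eN 2 φ) + √(√|L|) * √(eN 2 φ)) := by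
      gcongr
      exact le_abs_self _
    rw [sQ φ hφ, show ∀ a b c : ℝ, a + b + m * c = (a + m / 2 * c) + (b + m / 2 * c) from
      fun a b c => by ring]
    exact (abs_add_le _ _).trans (by linarith)
  · have tφ := u7_tst hφ hr.ne'
    have K0 : 0 ≤ K := (sqrt_nonneg _).trans
      (hK (circ 0 r 0) ⟨0, by rw [hn.circ_ee]; positivity⟩).1
    have key : ∀ (i : Fin 2) (y : E4), ee i 1 y < (8 * τ) ^ 2 →
        D1 (fun z => φ (r • z)) y ≤ K ∧ D2 (fun z => φ (r • z)) y ≤ K := fun i y hy => by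
      have b : (8 * r * τ) ^ 2 ≤ η ^ 2 := pow_le_pow_left₀ (by positivity) q5.2 2
      have a := hK (r • y) ⟨i, by
        rw [hn.ee_scale i r y hr]
        exact (mul_lt_mul_of_pos_left hy (by positivity)).trans_le (le_of_eq_of_le (by ring) b)⟩
      obtain ⟨e1, e2⟩ := h.D_scale r φ hr hφ.sm y
      rw [e1, e2]
      exact ⟨(mul_le_of_le_one_left (sqrt_nonneg _) hr1).trans a.1,
        (mul_le_of_le_one_left (sqrt_nonneg _) (pow_le_one₀ hr.le hr1)).trans a.2⟩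
    have a := c4 0 _ τ s τ0 q2 q3.1 P _ tφ K (key 0)
    have b := c4 1 _ τ s' τ0 q2 q3.1 P' _ tφ K (key 1)
    rw [u7_av] at a b
    have k1 : C4 * τ * K ≤ |C4| * τ * K := by
      gcongr
      exact le_abs_self _
    have k2 := mul_le_mul_of_nonneg_right q7.2 K0
    rw [sQ φ hφ, show ∀ a b c d : ℝ, a + b + m / 2 * (c + d) = (a + m / 2 * c) + (b + m / 2 * d) from
      fun a b c d => by ring]
    exact (abs_add_le _ _).trans (by linarith)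

end Pool.Agent.MP_417fa2_gt.Q2
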