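import Pool.Agent.MP_417fa2_gt.Q2.A1
import Pool.Agent.MP_417fa2_gt.Q2.A11
import Pool.Agent.MP_417fa2_gt.Q2.A12
import Pool.Agent.MP_417fa2_gt.Q2.A13
import Pool.Agent.MP_417fa2_gt.Q2.A15
import Pool.Agent.MP_417fa2_gt.Q2.A16
import Pool.Agent.MP_417fa2_gt.Q2.A17
import Pool.Agent.MP_417fa2_gt.Q2.A19
import Pool.Agent.MP_417fa2_gt.Q2.A2
import Pool.Agent.MP_417fa2_gt.Q2.A20
import Pool.Agent.MP_417fa2_gt.Q2.A21
import Pool.Agent.MP_417fa2_gt.Q2.A22
import Pool.Agent.MP_417fa2_gt.Q2.A24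
import Pool.Agent.MP_417fa2_gt.Q2.A25
import Pool.Agent.MP_417fa2_gt.Q2.A26
import Pool.Agent.MP_417fa2_gt.Q2.A3
import Pool.Agent.MP_417fa2_gt.Q2.A4
import Pool.Agent.MP_417fa2_gt.Q2.A5
import Pool.Agent.MP_417fa2_gt.Q2.A6
import Pool.Agent.MP_417fa2_gt.Q2.A7
import Pool.Agent.MP_417fa2_gt.Q2.A8
import Pool.Agent.MP_417fa2_gt.Q2.A9
import Pool.Agent.MP_417fa2_gt.Q2.E10
import Pool.Agent.MP_417fa2_gt.Q2.E11
import Pool.Agent.MP_417fa2_gt.Q2.E1a
import Pool.Agent.MP_417fa2_gt.Q2.E1b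
import Pool.Agent.MP_417fa2_gt.Q2.E1c
import Pool.Agent.MP_417fa2_gt.Q2.E2
import Pool.Agent.MP_417fa2_gt.Q2.E3
import Pool.Agent.MP_417fa2_gt.Q2.E4
import Pool.Agent.MP_417fa2_gt.Q2.E5
import Pool.Agent.MP_417fa2_gt.Q2.E6
import Pool.Agent.MP_417fa2_gt.Q2.E6b
import Pool.Agent.MP_417fa2_gt.Q2.E7
import Pool.Agent.MP_417fa2_gt.Q2.E8
import Pool.Agent.MP_417fa2_gt.Q2.E8b
import Pool.Agent.MP_417fa2_gt.Q2.E9
import Pool.Agent.MP_417fa2_gt.Q2.Fin
import Pool.Agent.MP_417fa2_gt.Q2.G1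
import Pool.Agent.MP_417fa2_gt.Q2.G2
import Pool.Agent.MP_417fa2_gt.Q2.G3
import Pool.Agent.MP_417fa2_gt.Q2.G4
import Pool.Agent.MP_417fa2_gt.Q2.G5
import Pool.Agent.MP_417fa2_gt.Q2.M1
import Pool.Agent.MP_417fa2_gt.Q2.M10
import Pool.Agent.MP_417fa2_gt.Q2.M11
import Pool.Agent.MP_417fa2_gt.Q2.M2
import Pool.Agent.MP_417fa2_gt.Q2.M3
import Pool.Agent.MP_417fa2_gt.Q2.M4
import Pool.Agent.MP_417fa2_gt.Q2.M5
import Pool.Agent.MP_417fa2_gt.Q2.M6
import Pool.Agent.MP_417fa2_gt.Q2.M7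
import Pool.Agent.MP_417fa2_gt.Q2.M8
import Pool.Agent.MP_417fa2_gt.Q2.M9
import Pool.Agent.MP_417fa2_gt.Q2.P1
import Pool.Agent.MP_417fa2_gt.Q2.P3
import Pool.Agent.MP_417fa2_gt.Q2.P4
import Pool.Agent.MP_417fa2_gt.Q2.P5
import Pool.Agent.MP_417fa2_gt.Q2.P7
import Pool.Agent.MP_417fa2_gt.Q2.S1
import Pool.Agent.MP_417fa2_gt.Q2.S10
import Pool.Agent.MP_417fa2_gt.Q2.S12
import Pool.Agent.MP_417fa2_gt.Q2.S13
import Pool.Agent.MP_417fa2_gt.Q2.S14
import Pool.Agent.MP_417fa2_gt.Q2.S16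
import Pool.Agent.MP_417fa2_gt.Q2.S17
import Pool.Agent.MP_417fa2_gt.Q2.S2
import Pool.Agent.MP_417fa2_gt.Q2.S3Unf
import Pool.Agent.MP_417fa2_gt.Q2.S4W
import Pool.Agent.MP_417fa2_gt.Q2.S5Conf
import Pool.Agent.MP_417fa2_gt.Q2.S6
import Pool.Agent.MP_417fa2_gt.Q2.S7Green
import Pool.Agent.MP_417fa2_gt.Q2.S8Schur
import Pool.Agent.MP_417fa2_gt.Q2.S9
import Pool.Agent.MP_417fa2_gt.Q2.U1
import Pool.Agent.MP_417fa2_gt.Q2.U2
import Pool.Agent.MP_417fa2_gt.Q2.U4
import Pool.Agent.MP_417fa2_gt.Q2.U6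
import Pool.Agent.MP_417fa2_gt.Q2.U7

/-! Assembly of all statements. -/

namespace Pool.Agent.MP_417fa2_gt.Q2.All

theorem hBfStmt : BfStmt := bfStmt

theorem hFlowStmt2 : FlowStmt2 := flowStmt2

theorem hParStmt : ParStmt := parStmt

theorem hCoFacts : CoFacts := coFacts

theorem hChiFacts : ChiFacts := chiFacts

theorem hNbFacts : NbFacts := nbFacts hCoFacts

theorem hRicStmt : RicStmt := ricStmt

theorem hHypStmt : HypStmt := hypStmt

theorem hPertStmt : PertStmt := pertStmt hCoFacts hRicStmt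

theorem hLocFacts : LocFacts := locFacts hCoFacts

theorem hScaleFacts : ScaleFacts := scaleFacts hCoFacts hLocFacts

theorem hGamFacts : GamFacts := gamFacts hChiFacts

theorem hKkFacts : KkFacts := kkFacts hChiFacts hGamFacts

theorem hTransStmt : TransStmt := transStmt hChiFacts hKkFacts

theorem hTestFacts : TestFacts := testFacts hChiFacts hGamFacts hKkFacts hTransStmt

theorem hOFacts : OFacts := oFacts

theorem hGnFacts : GnFacts := gnFacts

theorem hGnDisc : GnDisc := gnDisc hOFacts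

theorem hChiStmt : ChiStmt := chiStmt hOFacts hGnFacts

theorem hPairStmt : PairStmt := pairStmt hGnFacts hGnDisc hChiStmt

theorem hTrStmt : TrStmt := trStmt hCoFacts

theorem hBlkStmt : BlkStmt := blkStmt hCoFacts hTrStmt

theorem hCutStmt : CutStmt := cutStmt' hChiFacts hNbFacts

theorem hLimStmt : LimStmt := limStmt hChiFacts hNbFacts hGamFacts hKkFacts hParStmt hCutStmt

theorem hCommStmt : CommStmt := commStmt hChiFacts

theorem hSymStmt : SymStmt := symStmt hChiFacts hGamFacts hCutStmt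

theorem hVStmt : VStmt := vStmt hNbFacts hGamFacts hCutStmt

theorem hOctStmt : OctStmt := octStmt

theorem hKernStmt : KernStmt := kernStmt

theorem hKernRepStmt : KernRepStmt := kernRep

theorem hIdxStmt : IdxStmt := idxStmt

theorem hDqStmt : DqStmt := dqStmt

theorem hWtStmt : WtStmt := wtStmt

theorem hUnfFacts : UnfFacts := unfFacts

theorem hWStmt : WStmt := wStmt

theorem hConfFacts : ConfFacts := confFacts

theorem hIbpStmt : IbpStmt := ibpStmt hUnfFacts hWStmt hConfFacts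

theorem hGreenStmt : GreenStmt := greenStmt

theorem hSchurFacts : SchurFacts := schurFacts

theorem hGapGenStmt : GapGenStmt := gapGen hWStmt hConfFacts hGreenStmt hSchurFacts

theorem hHardyStmt : HardyStmt := hardyStmt

theorem hShapeStmt : ShapeStmt := shapeStmt hChiFacts hNbFacts

theorem hT1Stmt : T1Stmt := t1Stmt hChiFacts hNbFacts hPertStmt hHardyStmt

theorem hQdFacts : QdFacts :=
  qdFacts hCoFacts hRicStmt hLocFacts (qd_bd hCoFacts hRicStmt)

theorem hBStmt : BStmt := bStmt hCoFacts hChiFacts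

theorem hFHStmt : FHStmt := fhStmt hCoFacts hChiFacts hBStmt

theorem hVolsStmt : VolsStmt := volsStmt hCoFacts hLocFacts hBStmt

theorem hModifStmt : ModifStmt := modifStmt hCoFacts hChiFacts hLocFacts hBStmt hVolsStmt

theorem hKIntStmt : KIntStmt := kintStmt hCoFacts hKkFacts hBStmt hVolsStmt

theorem hChStmt : ChStmt := chStmt hCoFacts hChiFacts hHypStmt hLocFacts hBStmt hBfStmt hVolsStmt

theorem hRepStmt : RepStmt :=
  repStmt hCoFacts hChiFacts hPertStmt hLocFacts hGamFacts hKkFacts hBStmt hVolsStmt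

theorem hDualStmt : DualStmt := dualStmt hBfStmt hVolsStmt hKIntStmt hChStmt hRepStmt

theorem hGibStmt : GibStmt := gibStmt hBStmt hVolsStmt hKIntStmt

theorem hYbStmt : YbStmt := ybStmt hChiFacts hNbFacts hGamFacts hCutStmt

theorem hPotStmt : PotStmt := potStmt hChiFacts hGamFacts hKkFacts hParStmt

theorem hModelStmt : ModelStmt := modelStmt hDqStmt hCoFacts

theorem hDistStmt : DistStmt := distStmt hDqStmt hCoFacts

theorem hSymmStmt : SymmStmt := symmStmt hCoFacts hDistStmt hDqStmt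

theorem hNotSphStmt : NotSphStmt := notSph hDqStmt hDistStmt hCoFacts

theorem hVolStmt : VolStmt := volStmt hDqStmt hCoFacts

theorem hOpStmt : OpStmt := opStmt hConfFacts hCoFacts hHypStmt hLocFacts hTrStmt

theorem hCrossStmt : CrossStmt := crossStmt hWStmt hConfFacts hIbpStmt

theorem hPohoStmt : PohoStmt :=
  pohoStmt hChiFacts hNbFacts hCutStmt hYbStmt hLimStmt hSymStmt hVStmt hCommStmt

theorem hEmbStmt : EmbStmt := embStmt hUnfFacts hWStmt hGreenStmt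

theorem hGap3Stmt : Gap3Stmt := gap3 hUnfFacts hWStmt hSchurFacts hOctStmt hEmbStmt hGapGenStmt

theorem hProfStmt : ProfStmt := profStmt hChiFacts hNbFacts hLocFacts hQdFacts hShapeStmt

theorem hT3Stmt : T3Stmt := t3Stmt hChiFacts hNbFacts hLocFacts hQdFacts hHardyStmt hTransStmt

theorem hT4Stmt : T4Stmt := t4Stmt hCoFacts hChiFacts hNbFacts hLocFacts hQdFacts hScaleFacts

theorem hTubeStmt : TubeStmt :=
  tubeStmt hCoFacts hChiFacts hNbFacts hScaleFacts hProfStmt hT1Stmt hT3Stmt hT4Stmt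

theorem hNearStmt : NearStmt := nearStmt hBStmt hVolsStmt hKIntStmt

theorem hTrudStmt : TrudStmt := trudStmt hVolsStmt hChStmt hDualStmt hGibStmt

theorem hLoopStmt : LoopStmt := loopStmt hVolsStmt hKIntStmt hChStmt hDualStmt hNearStmt

theorem hFlatStmt : FlatStmt :=
  flatStmt hCoFacts hChiFacts hPertStmt hLocFacts hQdFacts hBStmt hModifStmt hChStmt hFHStmt

theorem hZStmt : ZStmt := zStmt hCoFacts hChiFacts hNbFacts hGamFacts hBStmt hVolsStmt hFHStmt

theorem hZFormStmt : ZFormStmt :=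
  zFormStmt hCoFacts hChiFacts hLocFacts hBStmt hBfStmt hVolsStmt hModifStmt hFHStmt hZStmt

theorem hLamStmt : LamStmt :=
  lamStmt hChiFacts hTestFacts hGamFacts hBStmt hBfStmt hVolsStmt hFHStmt hChStmt hZStmt hZFormStmt

theorem hTestStmt : TestStmt :=
  testStmt hChiFacts hTestFacts hGamFacts hBStmt hBfStmt hVolsStmt hFHStmt hChStmt hZStmt
    hZFormStmt hLamStmt

theorem hTrapStmt : TrapStmt :=
  trapStmt hBStmt hBfStmt hVolsStmt hChStmt hDualStmt hGibStmt hZStmt hZFormStmt hLamStmt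

theorem hWeqStmt : WeqStmt :=
  weqStmt hChiFacts hNbFacts hLocFacts hPotStmt hBStmt hBfStmt hVolsStmt hKIntStmt hChStmt hZStmt
    hZFormStmt hLamStmt

theorem hLoop1Stmt : Loop1Stmt :=
  loop1Stmt hChiFacts hNbFacts hLocFacts hPotStmt hBStmt hVolsStmt hChStmt hLoopStmt hZStmt
    hWeqStmt

theorem hLoop2Stmt : Loop2Stmt :=
  loop2Stmt hChiFacts hNbFacts hLocFacts hBStmt hVolsStmt hChStmt hLoopStmt hZStmt hWeqStmt
    hLoop1Stmt

theorem hThinStmt : ThinStmt :=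
  thinStmt hCoFacts hChiFacts hNbFacts hPotStmt hBStmt hVolsStmt hChStmt hTrudStmt hZStmt hWeqStmt
    hLoop1Stmt

theorem hOutStmt : OutStmt :=
  outStmt hCoFacts hChiFacts hPotStmt hBStmt hVolsStmt hKIntStmt hChStmt hDualStmt hTrudStmt hZStmt
    hWeqStmt hLoop2Stmt

theorem hPDStmt : PDStmt :=
  pdStmt hChiFacts hNbFacts hLocFacts hBStmt hBfStmt hZStmt hZFormStmt hLoop1Stmt

theorem hNoConcStmt : NoConcStmt := noConcStmt hPohoStmt hZStmt hThinStmt hOutStmt hPDStmt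

theorem hLowStmt : LowStmt :=
  lowStmt hTubeStmt hNbFacts hBStmt hBfStmt hVolsStmt hChStmt hTrudStmt hFlatStmt hFHStmt hZStmt
    hZFormStmt hLamStmt hTestStmt hTrapStmt hNoConcStmt

theorem hSliceStmt : SliceStmt := sliceStmt hWStmt hConfFacts hIbpStmt hCrossStmt

theorem hCoerStmt : CoerStmt := coerStmt hVolStmt hOpStmt hCrossStmt hSliceStmt hWStmt

theorem hHs4Stmt : Hs4Stmt := hs4 hWStmt hKernStmt hKernRepStmt hGap3Stmt hSchurFacts

theorem hGap4Stmt : Gap4Stmt :=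
  gap4 hWtStmt hWStmt hConfFacts hGapGenStmt hGap3Stmt hHs4Stmt hIdxStmt

theorem hSurfStmt : SurfStmt := surfStmt hPairStmt hWtStmt hEmbStmt hGap3Stmt hGap4Stmt

theorem hGeoStmt : GeoStmt :=
  geoStmt hSurfStmt hModelStmt hTrStmt hDistStmt hSymmStmt hBlkStmt hNotSphStmt hCoerStmt

theorem hFinal : Final := final_of hGeoStmt hLowStmt hFlowStmt2

end Pool.Agent.MP_417fa2_gt.Q2.All
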