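import Pool.Agent.MP_417fa2_gt.Q2.S9

/-! S16. The gap of the cover of degree four. -/

open scoped ContDiff ComplexConjugate ENNReal
open MeasureTheory Set Metric Real

namespace Pool.Agent.MP_417fa2_gt.Q2

namespace S16X

/-- A signed sum of four translates. -/
noncomputable def cb (v : Fin 4 → SU) (a b c : ℝ) (F : ℂ → ℝ) (z : ℂ) : ℝ :=
  1 * (1 * F ((v 0).act z) + a * F ((v 1).act z)) +
    1 * (b * F ((v 2).act z) + c * F ((v 3).act z))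

variable {v : Fin 4 → SU} {a b c : ℝ} {F : ℂ → ℝ}

theorem ct_act (hF : Ct F) (γ : SU) : Ct fun z => F (γ.act z) :=
  hF.comp γ.contDiffOn_act_real.continuousOn γ.mapsTo_act

theorem ct_sq (hF : Ct F) : Ct fun z => F z ^ 2 := ContinuousOn.pow hF 2

theorem sm_lin {f g : ℂ → ℝ} (hf : Sm f) (hg : Sm g) (a b : ℝ) : Sm fun z => a * f z + b * g z :=
  (contDiffOn_const.mul hf).add (contDiffOn_const.mul hg)

theorem ct_lin {f g : ℂ → ℝ} (hf : Ct f) (hg : Ct g) (a b : ℝ) : Ct fun z => a * f z + b * g z :=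
  (continuousOn_const.mul hf).add (continuousOn_const.mul hg)

theorem cb_sm (h : ConfFacts) (hF : Sm F) : Sm (cb v a b c F) :=
  sm_lin (sm_lin (h.sm_act _ _ hF) (h.sm_act _ _ hF) _ _)
    (sm_lin (h.sm_act _ _ hF) (h.sm_act _ _ hF) _ _) _ _

theorem cb_ct (hF : Ct F) : Ct (cb v a b c F) :=
  ct_lin (ct_lin (ct_act hF _) (ct_act hF _) _ _) (ct_lin (ct_act hF _) (ct_act hF _) _ _) _ _

theorem cb_L (h : ConfFacts) (hF : Sm F) {z : ℂ} (hz : ‖z‖ < 1) :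
    L2 (cb v a b c F) z = cb v a b c (L2 F) z := by
  have s := fun k => h.sm_act (v k) F hF
  have e := h.L_lin _ _ (sm_lin (s 0) (s 1) 1 a) (sm_lin (s 2) (s 3) b c) 1 1 z hz
  rw [h.L_lin _ _ (s 0) (s 1) 1 a z hz, h.L_lin _ _ (s 2) (s 3) b c z hz,
    h.L_act _ _ hF z hz, h.L_act _ _ hF z hz, h.L_act _ _ hF z hz, h.L_act _ _ hF z hz] at e
  exact e

theorem chi_inv (P : Pair) (i : Fin 3) {u : SU} (hu : u ∈ P.L3.Γ) : P.χ i u⁻¹ = P.χ i u := by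
  have h1 := P.χ_mul i 1 (one_mem _) 1 (one_mem _)
  have h2 := P.χ_mul i u hu u⁻¹ (inv_mem hu)
  rw [mul_one] at h1
  rw [mul_inv_cancel] at h2
  rcases P.χ_sq i 1 (one_mem _) with h3 | h3 <;> rcases P.χ_sq i u hu with h4 | h4 <;>
    rw [h3] at h1 h2 <;> rw [h4] at h2 ⊢ <;> linarith

theorem same (P : Pair) (hF : Invt P.L4.Γ F) {u u' γ : SU} (hu : u ∈ P.L3.Γ) (hu' : u' ∈ P.L3.Γ)
    (hγ : γ ∈ P.L3.Γ) (h0 : P.χ 0 u * P.χ 0 γ = P.χ 0 u') (h1 : P.χ 1 u * P.χ 1 γ = P.χ 1 u')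
    {z : ℂ} (hz : ‖z‖ < 1) : F (u.act (γ.act z)) = F (u'.act z) := by
  have hm := mul_mem hu hγ
  have key : ∀ i, P.χ i u * P.χ i γ = P.χ i u' → P.χ i (u * γ * u'⁻¹) = 1 := fun i h => by
    rw [P.χ_mul i _ hm _ (inv_mem hu'), P.χ_mul i _ hu _ hγ, h, chi_inv P i hu']
    rcases P.χ_sq i u' hu' with h4 | h4 <;> rw [h4] <;> norm_num
  have h2 := hF _ ((P.mem4 _).2 ⟨mul_mem hm (inv_mem hu'), key 0 h0, key 1 h1⟩) _ (u'.act_lt hz)
  rwa [← SU.mul_act _ _ hz, inv_mul_cancel_right, SU.mul_act _ _ hz] at h2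

theorem num : (7 / 4 : ℝ) ^ 2 ≤ ((1 - 0.469) * 8 / (1 + √2)) ^ 2 := by
  have h : (√2 : ℝ) < 1.42 := (Real.sqrt_lt' (by norm_num)).2 (by norm_num)
  refine pow_le_pow_left₀ (by norm_num) ?_ 2
  rw [le_div_iff₀ (by positivity)]
  linarith

end S16X

open S16X

theorem gap4 (h0 : WtStmt) (h1 : WStmt) (h2 : ConfFacts) (h3 : GapGenStmt) (h4 : Gap3Stmt)
    (h5 : Hs4Stmt) (h6 : IdxStmt) : Gap4Stmt := by
  intro P W' f hf hi hm
  obtain ⟨W⟩ := h0 _ P.L3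
  obtain ⟨v, hv, a0, b0, a1, b1, a2, b2, a3, b3, hI⟩ := h6 P W W'
  have hW := h1 _ _ W
  have hfc : Ct f := hf.continuousOn
  have pars : ∀ F, Ct F → Invt P.L4.Γ F → 4 * ∫ z, F z ^ 2 ∂W'.μ =
      ∫ z, cb v 1 1 1 F z ^ 2 ∂W.μ + ∫ z, cb v (-1) 1 (-1) F z ^ 2 ∂W.μ +
        ∫ z, cb v 1 (-1) (-1) F z ^ 2 ∂W.μ + ∫ z, cb v (-1) (-1) 1 F z ^ 2 ∂W.μ := by
    intro F hF hFi
    have i1 : ∀ a b c, Integrable (fun z => cb v a b c F z ^ 2) W.μ := fun a b c =>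
      hW.int _ (ct_sq (cb_ct hF))
    rw [hI (fun z => F z ^ 2) (ct_sq hF) fun γ hγ z hz => by simp only [hFi γ hγ z hz],
      ← integral_finsetSum _ fun k _ => hW.int _ (ct_sq (ct_act hF (v k))), ← integral_const_mul,
      ← integral_add' (i1 _ _ _) (i1 _ _ _), ← integral_add' ((i1 _ _ _).add (i1 _ _ _)) (i1 _ _ _),
      ← integral_add' (((i1 _ _ _).add (i1 _ _ _)).add (i1 _ _ _)) (i1 _ _ _)]
    refine integral_congr_ae (.of_forall fun z => ?_)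
    simp only [cb, Fin.sum_univ_four, Pi.add_apply]
    ring
  have eL : ∀ a b c, ∫ z, L2 (cb v a b c f) z ^ 2 ∂W.μ = ∫ z, cb v a b c (L2 f) z ^ 2 ∂W.μ := by
    intro a b c
    obtain ⟨ϱ, hϱ, hae⟩ := hW.ae
    refine integral_congr_ae ?_
    filter_upwards [hae] with z hz
    rw [cb_L h2 hf (hz.trans_lt hϱ)]
  have tw : ∀ γ ∈ P.L3.Γ, ∀ z : ℂ, ‖z‖ < 1 → cb v 1 1 1 f (γ.act z) = cb v 1 1 1 f z ∧
      cb v (-1) 1 (-1) f (γ.act z) = P.χ 0 γ * cb v (-1) 1 (-1) f z ∧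
      cb v 1 (-1) (-1) f (γ.act z) = P.χ 1 γ * cb v 1 (-1) (-1) f z ∧
      cb v (-1) (-1) 1 f (γ.act z) = P.χ 2 γ * cb v (-1) (-1) 1 f z := by
    intro γ hγ z hz
    have s := fun k l e0 e1 => same P hi (hv k) (hv l) hγ e0 e1 hz
    rw [P.χ_two γ hγ]
    simp only [cb]
    rcases P.χ_sq 0 γ hγ with c0 | c0 <;> rcases P.χ_sq 1 γ hγ with c1 | c1
    · rw [s 0 0 (by simp [*]) (by simp [*]), s 1 1 (by simp [*]) (by simp [*]),
        s 2 2 (by simp [*]) (by simp [*]), s 3 3 (by simp [*]) (by simp [*]), c0, c1]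
      refine ⟨?_, ?_, ?_, ?_⟩ <;> ring
    · rw [s 0 2 (by simp [*]) (by simp [*]), s 1 3 (by simp [*]) (by simp [*]),
        s 2 0 (by simp [*]) (by simp [*]), s 3 1 (by simp [*]) (by simp [*]), c0, c1]
      refine ⟨?_, ?_, ?_, ?_⟩ <;> ring
    · rw [s 0 1 (by simp [*]) (by simp [*]), s 1 0 (by simp [*]) (by simp [*]),
        s 2 3 (by simp [*]) (by simp [*]), s 3 2 (by simp [*]) (by simp [*]), c0, c1]
      refine ⟨?_, ?_, ?_, ?_⟩ <;> ring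
    · rw [s 0 3 (by simp [*]) (by simp [*]), s 1 2 (by simp [*]) (by simp [*]),
        s 2 1 (by simp [*]) (by simp [*]), s 3 0 (by simp [*]) (by simp [*]), c0, c1]
      refine ⟨?_, ?_, ?_, ?_⟩ <;> ring
  have nn : ∀ F : ℂ → ℝ, 0 ≤ ∫ z, F z ^ 2 ∂W.μ := fun F => integral_nonneg fun z => sq_nonneg _
  obtain ⟨ϱ, r0, r1, hs⟩ := S9X.exists_sig (σ := 1 + √2) (by positivity)
  have g : ∀ (i : Fin 3) a b c, (∀ γ ∈ P.L3.Γ, ∀ z : ℂ, ‖z‖ < 1 →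
      cb v a b c f (γ.act z) = P.χ i γ * cb v a b c f z) →
      (7 / 4) ^ 2 * ∫ z, cb v a b c f z ^ 2 ∂W.μ ≤ ∫ z, cb v a b c (L2 f) z ^ 2 ∂W.μ := by
    intro i a b c h
    have k := h3 _ _ W ϱ 0.469 r0 r1 (by norm_num) _ (cb_sm h2 hf)
      (fun γ hγ => ⟨_, P.χ_sq i γ hγ, h γ hγ⟩) (h5 P W ϱ r0 r1 hs i _ (cb_ct hfc) h)
    rw [hs, eL] at k
    exact (mul_le_mul_of_nonneg_right num (nn _)).trans k
  have g0 := (h4 P W).2 (cb v 1 1 1 f) (cb_sm h2 hf) (fun γ hγ z hz => (tw γ hγ z hz).1) (by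
    rw [← hm, hI f hfc hi, ← integral_finsetSum _ fun k _ => hW.int _ (ct_act hfc (v k))]
    refine integral_congr_ae (.of_forall fun z => ?_)
    simp only [cb, Fin.sum_univ_four]
    ring)
  rw [eL] at g0
  have g1 := g 0 _ _ _ fun γ hγ z hz => (tw γ hγ z hz).2.1
  have g2 := g 1 _ _ _ fun γ hγ z hz => (tw γ hγ z hz).2.2.1
  have g3 := g 2 _ _ _ fun γ hγ z hz => (tw γ hγ z hz).2.2.2
  have p1 := pars f hfc hi
  have p2 := pars (L2 f) (h2.sm_L f hf).continuousOn fun γ hγ z hz => by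
    rw [← h2.L_act γ f hf z hz]
    exact h2.L_congr _ _ (hi γ hγ) z hz
  linarith [nn (cb v 1 1 1 f)]

end Pool.Agent.MP_417fa2_gt.Q2
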