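import Mathlib

/-!
The group `SU(1,1)`, its action on the unit disc, lattices, and calculus on the disc
with the metric `|dz|² / (1 - |z|²)²` of curvature `-4`.
-/

open scoped ContDiff ComplexConjugate
open MeasureTheory Set Metric

namespace Pool.Agent.MP_417fa2_gt.Q2

/-- The matrices `[[a, b], [conj b, conj a]]` of determinant one. -/
@[ext] structure SU where
  a : ℂ
  b : ℂ
  h : Complex.normSq a - Complex.normSq b = 1

namespace SU

instance : Mul SU := ⟨fun p q => ⟨p.a * q.a + p.b * conj q.b, p.a * q.b + p.b * conj q.a, by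
  have hp := p.h
  have hq := q.h
  simp only [Complex.normSq_apply, Complex.add_re, Complex.add_im, Complex.mul_re, Complex.mul_im,
    Complex.conj_re, Complex.conj_im] at hp hq ⊢
  linear_combination (q.a.re * q.a.re + q.a.im * q.a.im - (q.b.re * q.b.re + q.b.im * q.b.im)) * hp
    + hq⟩⟩

instance : One SU := ⟨⟨1, 0, by simp⟩⟩

instance : Inv SU := ⟨fun p => ⟨conj p.a, -p.b, by simpa using p.h⟩⟩

@[simp] theorem mul_a (p q : SU) : (p * q).a = p.a * q.a + p.b * conj q.b := rfl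

@[simp] theorem mul_b (p q : SU) : (p * q).b = p.a * q.b + p.b * conj q.a := rfl

@[simp] theorem one_a : (1 : SU).a = 1 := rfl

@[simp] theorem one_b : (1 : SU).b = 0 := rfl

@[simp] theorem inv_a (p : SU) : p⁻¹.a = conj p.a := rfl

@[simp] theorem inv_b (p : SU) : p⁻¹.b = -p.b := rfl

theorem det (p : SU) : p.a * conj p.a - p.b * conj p.b = 1 := by
  rw [Complex.mul_conj, Complex.mul_conj]
  exact_mod_cast p.h

instance : Group SU := Group.ofLeftAxioms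
  (fun p q r => by ext : 1 <;> simp <;> ring)
  (fun p => by ext : 1 <;> simp)
  (fun p => by
    ext : 1
    · simp only [mul_a, inv_a, inv_b, one_a]
      linear_combination p.det
    · simp only [mul_b, inv_a, inv_b, one_b]
      ring)

/-- Minus the identity matrix. -/
def neg1 : SU := ⟨-1, 0, by simp⟩

/-- The Moebius action. -/
noncomputable def act (γ : SU) (z : ℂ) : ℂ := (γ.a * z + γ.b) / (conj γ.b * z + conj γ.a)

end SU

/-- The primitive eighth root of unity `(1 + i) / √2`. -/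
noncomputable def zeta : ℂ := (1 + Complex.I) / (√2 : ℝ)

theorem normSq_zeta : Complex.normSq zeta = 1 := by
  simp only [zeta, map_div₀, Complex.normSq_apply, Complex.add_re,
    Complex.one_re, Complex.I_re, Complex.add_im, Complex.one_im, Complex.I_im]
  norm_num

/-- The element acting as `z ↦ i z`. -/
noncomputable def SU.j : SU := ⟨zeta, 0, by simp [normSq_zeta]⟩

/-- The translation of the disc that takes `0` to `p`. -/
noncomputable def mob (p z : ℂ) : ℂ := (z + p) / (1 + conj p * z)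

/-- The pseudo-hyperbolic distance. -/
noncomputable def pdist (z w : ℂ) : ℝ := ‖z - w‖ / ‖1 - conj w * z‖

/-- The pseudo-hyperbolic distance of two orbits. -/
noncomputable def dq (Γ : Subgroup SU) (z w : ℂ) : ℝ := ⨅ γ : Γ, pdist z ((γ : SU).act w)

/-- A cocompact lattice, normalized by `j`, all of whose elements other than `±1` have half trace
at least `T` in absolute value. -/
structure Lat (T : ℝ) where
  Γ : Subgroup SU
  neg_mem : SU.neg1 ∈ Γ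
  fin : ∀ C : ℝ, {γ : SU | γ ∈ Γ ∧ ‖γ.a‖ ≤ C}.Finite
  tr : ∀ γ ∈ Γ, γ = 1 ∨ γ = SU.neg1 ∨ T ≤ |γ.a.re|
  jn : ∀ γ : SU, γ ∈ Γ ↔ SU.j * γ * SU.j⁻¹ ∈ Γ
  cpt : ∃ ϱ : ℝ, ϱ < 1 ∧ ∀ z : ℂ, ‖z‖ < 1 → ∃ γ ∈ Γ, ‖γ.act z‖ ≤ ϱ

/-- The regular octagon. -/
def oct : Set ℂ := {z | ‖z‖ < 1 ∧ ∀ k : Fin 8,
  2 * (1 + √2) * (z * conj (zeta ^ (k : ℕ))).re ≤ √(2 + 2 * √2) * (1 + ‖z‖ ^ 2)}

/-- The Bolza group and a normal subgroup with quotient the Klein four group. -/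
structure Pair where
  L3 : Lat (1 + √2)
  L4 : Lat (3 + 2 * √2)
  cov : ∀ z : ℂ, ‖z‖ < 1 → ∃ γ ∈ L3.Γ, γ.act z ∈ oct
  χ : Fin 3 → SU → ℝ
  χ_sq : ∀ i, ∀ γ ∈ L3.Γ, χ i γ = 1 ∨ χ i γ = -1
  χ_mul : ∀ i, ∀ γ ∈ L3.Γ, ∀ γ' ∈ L3.Γ, χ i (γ * γ') = χ i γ * χ i γ'
  χ_two : ∀ γ ∈ L3.Γ, χ 2 γ = χ 0 γ * χ 1 γ
  mem4 : ∀ γ : SU, γ ∈ L4.Γ ↔ γ ∈ L3.Γ ∧ χ 0 γ = 1 ∧ χ 1 γ = 1
  surj : ∀ e₀ e₁ : ℝ, e₀ = 1 ∨ e₀ = -1 → e₁ = 1 ∨ e₁ = -1 → ∃ γ ∈ L3.Γ, χ 0 γ = e₀ ∧ χ 1 γ = e₁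
  om : SU
  om_n : ∀ γ : SU, γ ∈ L3.Γ ↔ om * γ * om⁻¹ ∈ L3.Γ
  om_χ : ∀ i, ∀ γ ∈ L3.Γ, χ (i + 1) (om * γ * om⁻¹) = χ i γ

/-! The arithmetic construction. -/

/-- The element of `ℤ[ζ]` with coordinates `v`. -/
noncomputable def ev (v : Fin 4 → ℤ) : ℂ := v 0 + v 1 * zeta + v 2 * zeta ^ 2 + v 3 * zeta ^ 3

/-- The prime `1 - ζ`. -/
noncomputable def piz : ℂ := 1 - zeta

/-- The number `√(√2 - 1)`. -/
noncomputable def lam : ℝ := √(√2 - 1)

/-- The order `ℤ[ζ] + ℤ[ζ] ω₀`, `ω₀ = (1 / π, λ / π)`, as a set of pairs. -/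
def InO (α β : ℂ) : Prop :=
  ∃ c b : Fin 4 → ℤ, α = ev c + ev b / piz ∧ β = ev b * lam / piz

/-- The elements of norm one that are congruent to one modulo `πⁿ`. -/
def Gn (n : ℕ) : Set SU := {γ | ∃ α β, InO α β ∧ γ.a = 1 + piz ^ n * α ∧ γ.b = piz ^ n * β}

/-! Calculus on the disc. -/

/-- The area measure `dx dy / (1 - |z|²)²` of the disc. -/
noncomputable def dA : Measure ℂ :=
  (volume.restrict (ball (0 : ℂ) 1)).withDensity fun z => ENNReal.ofReal (1 / (1 - ‖z‖ ^ 2) ^ 2)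

/-- Directional derivative. -/
noncomputable def dd (v : ℂ) (f : ℂ → ℝ) (z : ℂ) : ℝ := fderiv ℝ f z v

/-- The flat Laplacian of the plane. -/
noncomputable def lap2 (f : ℂ → ℝ) (z : ℂ) : ℝ :=
  dd 1 (dd 1 f) z + dd Complex.I (dd Complex.I f) z

/-- The Laplacian of the disc. -/
noncomputable def L2 (f : ℂ → ℝ) (z : ℂ) : ℝ := (1 - ‖z‖ ^ 2) ^ 2 * lap2 f z

/-- The scalar product of gradients on the disc. -/
noncomputable def Gam2 (f g : ℂ → ℝ) (z : ℂ) : ℝ :=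
  (1 - ‖z‖ ^ 2) ^ 2 * (dd 1 f z * dd 1 g z + dd Complex.I f z * dd Complex.I g z)

/-- Smooth functions on the disc. -/
def Sm (f : ℂ → ℝ) : Prop := ContDiffOn ℝ ∞ f (ball 0 1)

/-- Continuous functions on the disc. -/
def Ct (f : ℂ → ℝ) : Prop := ContinuousOn f (ball 0 1)

/-- Invariant functions on the disc. -/
def Invt (Γ : Subgroup SU) (f : ℂ → ℝ) : Prop := ∀ γ ∈ Γ, ∀ z : ℂ, ‖z‖ < 1 → f (γ.act z) = f z

/-- A smooth weight with compact support whose translates sum to two (`±γ` act alike). -/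
structure Wt (Γ : Subgroup SU) where
  β : ℂ → ℝ
  sm : ContDiff ℝ ∞ β
  nonneg : ∀ z, 0 ≤ β z
  supp : ∃ ϱ : ℝ, ϱ < 1 ∧ ∀ z, ϱ < ‖z‖ → β z = 0
  sum : ∀ z : ℂ, ‖z‖ < 1 → HasSum (fun γ : Γ => β ((γ : SU).act z)) 2

/-- The area measure of the quotient surface, as a measure on the disc. -/
noncomputable def Wt.μ {Γ : Subgroup SU} (W : Wt Γ) : Measure ℂ :=
  dA.withDensity fun z => ENNReal.ofReal (W.β z)

/-- The integral over the disc of pseudo-hyperbolic radius `ϱ` about `x`. -/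
noncomputable def Tb (ϱ : ℝ) (f : ℂ → ℝ) (x : ℂ) : ℝ := ∫ η in ball (0 : ℂ) ϱ, f (mob x η) ∂dA

/-- The number `ϱ² / (1 - ϱ²)`; the disc of radius `ϱ` has area `π` times it. -/
noncomputable def sig (ϱ : ℝ) : ℝ := ϱ ^ 2 / (1 - ϱ ^ 2)

/-- The spectral gap, in the form used. -/
def Gap {Γ : Subgroup SU} (W : Wt Γ) (Λ : ℝ) : Prop :=
  ∀ f, Sm f → Invt Γ f → ∫ z, f z ∂W.μ = 0 → Λ ^ 2 * ∫ z, f z ^ 2 ∂W.μ ≤ ∫ z, L2 f z ^ 2 ∂W.μ

end Pool.Agent.MP_417fa2_gt.Q2
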