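import Pool.Agent.MP_417fa2_gt.Q2.ESpec

/-! The Q-curvature of a tube is a uniform mass on the circle up to a small error. -/

open scoped ContDiff Topology
open MeasureTheory Set Metric Real Filter

namespace Pool.Agent.MP_417fa2_gt.Q2

open DE (lp)

/-- The factors of the rotation of the plane of the circle number `i`. -/
noncomputable def u6u (i j : Fin 2) (θ : ℝ) : ℂ := if i = j then ⟨cos θ, sin θ⟩ else 1

theorem u6u_norm (i j : Fin 2) (θ : ℝ) : ‖u6u i j θ‖ = 1 := by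
  unfold u6u
  split_ifs
  · rw [Complex.norm_def, Complex.normSq_mk, ← sq, ← sq, cos_sq_add_sin_sq, sqrt_one]
  · simp

/-- The rotation of the plane of the circle number `i`. -/
noncomputable def u6R (i : Fin 2) (θ : ℝ) (y : E4) : E4 := rot (u6u i 0 θ) (u6u i 1 θ) y

theorem u6R_circ (i : Fin 2) (θ θ₀ : ℝ) : u6R i θ (circ i 1 θ₀) = circ i 1 (θ + θ₀) := by
  fin_cases i <;> ext j <;> fin_cases j <;>
    simp [u6R, u6u, rot, mkE, zc, wc, circ, cos_add, sin_add, add_comm]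

theorem u6R_cont (i : Fin 2) : Continuous fun p : ℝ × E4 => u6R i p.1 p.2 := by
  unfold u6R rot mkE zc wc u6u
  refine (PiLp.continuous_toLp 2 _).comp (continuous_pi fun j => ?_)
  fin_cases i <;> fin_cases j <;> simp <;> fun_prop

theorem u6R_cont' (i : Fin 2) (y : E4) : Continuous fun θ : ℝ => u6R i θ y :=
  Continuous.comp (g := fun p : ℝ × E4 => u6R i p.1 p.2) (f := fun θ : ℝ => (θ, y)) (u6R_cont i)
    (continuous_id.prodMk continuous_const)

theorem u6_circ_cont (i : Fin 2) : Continuous (circ i 1) :=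
  (u6R_cont' i (circ i 1 0)).congr fun θ => by rw [u6R_circ, add_zero]

theorem u6_circ_per (i : Fin 2) : Function.Periodic (circ i 1) (2 * π) := fun θ => by
  simp [circ]

theorem u6_pt (h1 : CoFacts) (h2 : ChiFacts) (h3 : NbFacts) (i : Fin 2) {τ K : ℝ} (hτ : 0 < τ)
    (hτ' : τ ≤ 1 / 100) {φ : E4 → ℝ} (hφ : Tst φ)
    (hK : ∀ y, ee i 1 y < (8 * τ) ^ 2 → D1 φ y ≤ K ∧ D2 φ y ≤ K) {y : E4} (hy : ee i 1 y ≤ τ ^ 2) :
    |∫ θ in (0 : ℝ)..2 * π, (φ (u6R i θ y) - av i 1 φ)| ≤ K * (2 * τ) * (2 * π) := by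
  obtain ⟨θ₀, h₀⟩ := h3.near i 1 τ y one_pos hτ (by linarith) hy
  have hK0 : 0 ≤ K := (sqrt_nonneg _).trans
    (hK (circ i 1 0) (by rw [h3.circ_ee]; positivity)).1
  have c1 : Continuous fun θ => φ (u6R i θ y) :=
    hφ.continuous.comp (u6R_cont' i y)
  have c2 : Continuous fun θ => φ (circ i 1 (θ + θ₀)) :=
    hφ.continuous.comp ((u6_circ_cont i).comp (continuous_id.add continuous_const))
  have e1 : ∫ θ in (0 : ℝ)..2 * π, φ (circ i 1 (θ + θ₀)) = ∫ θ in (0 : ℝ)..2 * π, φ (circ i 1 θ) := by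
    rw [intervalIntegral.integral_comp_add_right (fun θ => φ (circ i 1 θ)), zero_add, add_comm]
    simpa using ((u6_circ_per i).comp φ).intervalIntegral_add_eq θ₀ 0
  have e2 : ∫ θ in (0 : ℝ)..2 * π, (φ (u6R i θ y) - av i 1 φ) =
      ∫ θ in (0 : ℝ)..2 * π, (φ (u6R i θ y) - φ (circ i 1 (θ + θ₀))) := by
    rw [intervalIntegral.integral_sub (c1.intervalIntegrable _ _) (by simp),
      intervalIntegral.integral_sub (c1.intervalIntegrable _ _) (c2.intervalIntegrable _ _), e1]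
    congr 1
    simp only [av, intervalIntegral.integral_const, sub_zero, smul_eq_mul]
    field_simp
  rw [e2]
  have e3 : |2 * π - 0| = 2 * π := by rw [sub_zero, abs_of_pos two_pi_pos]
  rw [← Real.norm_eq_abs]
  refine (intervalIntegral.norm_integral_le_of_norm_le_const (C := K * (2 * τ))
    fun θ _ => ?_).trans (by rw [e3])
  obtain ⟨e, he⟩ := h1.rot_iso _ _ (u6u_norm i 0 θ) (u6u_norm i 1 θ)
  have d1 : ‖u6R i θ y - circ i 1 (θ + θ₀)‖ ≤ 2 * τ := by
    rw [← u6R_circ, u6R, u6R, ← he, ← he, ← map_sub, e.norm_map]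
    exact h₀
  refine (h2.mvt φ hφ.sm K _ _ fun z hz => (hK z ?_).1).trans
    (mul_le_mul_of_nonneg_left d1 hK0)
  have d2 : ‖z - circ i 1 (θ + θ₀)‖ ≤ 2 * τ :=
    mem_closedBall_iff_norm.1 ((convex_closedBall (circ i 1 (θ + θ₀)) (2 * τ)).segment_subset
      (mem_closedBall_iff_norm.2 d1) (mem_closedBall_self (by positivity)) hz)
  refine (h3.near' i 1 (2 * τ) _ z one_pos (by linarith) d2).trans_lt ?_
  nlinarith

theorem u6_int (h3 : NbFacts) {Cn : ℝ} (hn : ∀ r t : ℝ, 0 < r → 0 < t → t ≤ r / 4 →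
    volume.real (nb r t) ≤ Cn * r * t ^ 3) (i : Fin 2) {τ B : ℝ} (hτ : 0 < τ) (hτ' : τ ≤ 1 / 100)
    (hB : 0 ≤ B) {f : E4 → ℝ} (h0 : ∀ y, τ ^ 2 < ee i 1 y → f y = 0)
    (hf : ∀ y, ee i 1 y ≤ τ ^ 2 → |f y| ≤ B) : |∫ y, f y| ≤ B * (Cn * (8 * τ ^ 3)) := by
  have hfin : volume (nb 1 (2 * τ)) < ⊤ :=
    (measure_mono fun y hy => mem_ball_zero_iff.2
      (h3.nb_norm 1 (2 * τ) one_pos (by positivity) (by linarith) y hy).2).trans_lt
      measure_ball_lt_top
  rw [← setIntegral_eq_integral_of_forall_compl_eq_zero (s := nb 1 (2 * τ)) fun y hy =>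
    h0 y (lt_of_lt_of_le (by nlinarith) (not_lt.1 fun h => hy ⟨i, h⟩)), ← Real.norm_eq_abs]
  refine (norm_setIntegral_le_of_norm_le_const (C := B) hfin fun y _ => ?_).trans
    (mul_le_mul_of_nonneg_left ((hn 1 (2 * τ) one_pos (by positivity) (by linarith)).trans_eq
      (by ring)) hB)
  rcases lt_or_ge (τ ^ 2) (ee i 1 y) with h | h
  · rw [h0 y h, norm_zero]
    exact hB
  · exact hf y h

theorem u6_avg (h1 : CoFacts) (i : Fin 2) {σ ψ : E4 → ℝ} (hσ : Continuous σ) (hi : Integrable σ)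
    (hr : ∀ θ y, σ (u6R i θ y) = σ y) (hψ : Continuous ψ) {M : ℝ} (hM : ∀ y, ‖ψ y‖ ≤ M) :
    2 * π * ∫ y, σ y * ψ y = ∫ y, σ y * ∫ θ in (0 : ℝ)..2 * π, ψ (u6R i θ y) := by
  have e1 : ∀ θ, ∫ y, σ y * ψ y = ∫ y, σ y * ψ (u6R i θ y) := fun θ => by
    obtain ⟨e, he⟩ := h1.rot_iso _ _ (u6u_norm i 0 θ) (u6u_norm i 1 θ)
    rw [← e.measurePreserving.integral_comp e.toHomeomorph.measurableEmbedding fun y => σ y * ψ y]
    refine integral_congr_ae (Eventually.of_forall fun y => ?_)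
    simp only [he]
    rw [← u6R, hr]
  have hint : Integrable (Function.uncurry fun (θ : ℝ) (y : E4) => σ y * ψ (u6R i θ y))
      ((volume.restrict (uIoc 0 (2 * π))).prod volume) := by
    have : IsFiniteMeasure (volume.restrict (uIoc (0 : ℝ) (2 * π))) :=
      isFiniteMeasure_restrict.2 measure_Ioc_lt_top.ne
    refine ((hi.comp_snd (volume.restrict (uIoc (0 : ℝ) (2 * π)))).mul_bdd (c := M)
      (hψ.comp (u6R_cont i)).aestronglyMeasurable (Eventually.of_forall fun p => hM _))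
  calc 2 * π * ∫ y, σ y * ψ y = ∫ θ in (0 : ℝ)..2 * π, ∫ y, σ y * ψ (u6R i θ y) := by
        simp only [← e1, intervalIntegral.integral_const, sub_zero, smul_eq_mul]
    _ = ∫ y, ∫ θ in (0 : ℝ)..2 * π, σ y * ψ (u6R i θ y) := intervalIntegral_integral_swap hint
    _ = _ := by simp only [intervalIntegral.integral_const_mul]

theorem t4Stmt (h1 : CoFacts) (h2 : ChiFacts) (h3 : NbFacts) (h4 : LocFacts) (h5 : QdFacts)
    (h6 : ScaleFacts) : T4Stmt := by
  intro C hC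
  obtain ⟨Q, hQ⟩ := h5.bd
  obtain ⟨Cn, hn⟩ := h3.nb_vol
  refine ⟨1 / 12 * (|Q| ^ 3 * (2 * C * (1 + C)) * (Cn * 8) + |Q| * (4 * C ^ 2) * 2 * (Cn * 8)),
    fun i m τ s hτ hτ' hCτ hs φ hφ K hK => ?_⟩
  have hK0 : 0 ≤ K := (sqrt_nonneg _).trans
    (hK (circ i 1 0) (by rw [h3.circ_ee]; positivity)).1
  have hev : ∀ y, τ ^ 2 < ee i 1 y → s =ᶠ[𝓝 y] fun _ => 0 := fun y hy =>
    ((h3.ee_sm i 1).continuous.continuousAt.eventually (lt_mem_nhds hy)).mono fun z hz =>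
      hs.supp z hz.le
  have hfl := fun y hy => h4.flat s (fun _ => 0) (fun _ => 0) y (hev y hy)
    (smAt_of contDiff_const y) (smAt_of contDiff_const y)
  have hb := fun y => hQ s y (smAt_of hs.sm.sm y) ((hs.d0 y).trans hCτ)
  obtain ⟨t, ht, rfl⟩ : ∃ t : ℝ, 0 < t ∧ τ = t ^ 2 := ⟨√τ, sqrt_pos.2 hτ, (sq_sqrt hτ.le).symm⟩
  have ht1 : t ≤ 1 := by nlinarith
  have a1 : ∀ y, D1 s y ≤ C / t := fun y => (hs.d1 y).trans_eq (by
    rw [sqrt_sq ht.le]; field_simp)
  have a2 : ∀ y, D2 s y + D1 s y ^ 2 ≤ 2 * C / t ^ 3 := fun y => by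
    have b1 : D2 s y ≤ C / t ^ 3 := (hs.d2 y).trans_eq (by rw [sqrt_sq ht.le]; field_simp)
    have b2 : D1 s y ^ 2 ≤ (C / t) ^ 2 := pow_le_pow_left₀ (sqrt_nonneg _) (a1 y) 2
    have b3 : (C / t) ^ 2 ≤ C / t ^ 3 := by
      rw [sqrt_sq ht.le] at hCτ
      rw [div_pow, div_le_div_iff₀ (by positivity) (by positivity)]
      nlinarith [mul_le_mul_of_nonneg_left hCτ (by positivity : 0 ≤ C * t ^ 2)]
    have b4 : 2 * C / t ^ 3 = C / t ^ 3 + C / t ^ 3 := by ring
    linarith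
  have a0 : ∀ y, 0 ≤ D2 s y + D1 s y ^ 2 := fun y => add_nonneg (sqrt_nonneg _) (sq_nonneg _)
  have hσ : Continuous (sg s) := continuousOn_univ.1
    (h4.sm s s s univ isOpen_univ hs.sm.sm.contDiffOn hs.sm.sm.contDiffOn
      hs.sm.sm.contDiffOn).2.2.2.1.continuousOn
  have hcs : HasCompactSupport (sg s) := by
    refine HasCompactSupport.intro (isCompact_closedBall (0 : E4) (2 * 1)) fun y hy => ?_
    refine (hfl y (not_le.1 fun h => hy ?_)).2.2.2.1
    exact mem_closedBall_zero_iff.2 (h3.nb_norm 1 (2 * t ^ 2) one_pos (by positivity)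
      (by linarith) y ⟨i, h.trans_lt (by nlinarith)⟩).2.le
  have hi : Integrable (sg s) := hσ.integrable_of_hasCompactSupport hcs
  -- the mass
  have m1 : m = 1 / 12 * ∫ y, sg s y := by
    have w := h5.weak s (fun _ => 1) hs.sm contDiff_const
    have z : ∀ y, lap (Gs s) (fun _ => 1) y = 0 := fun y => by
      have := (hb y).2.2.2.2 (fun _ => 1) (smAt_of contDiff_const y)
      have p0 : ∀ j, pd j (fun _ : E4 => (1 : ℝ)) = fun _ => 0 := fun j => funext (pd_const j 1)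
      simpa [D1, D2, p0, pd_const] using this
    simp only [z, mul_zero, mul_one, integral_zero, hs.mass] at w
    linarith
  -- the divergence term
  have t1 : |∫ y, dens (Gs s) y * scal (Gs s) y * lap (Gs s) φ y| ≤
      |Q| * (|Q| * (2 * C / t ^ 3)) * (|Q| * (K + C / t * K)) * (Cn * (8 * (t ^ 2) ^ 3)) := by
    refine u6_int h3 hn i hτ hτ' (by positivity) (fun y hy => ?_) fun y hy => ?_
    · rw [(hfl y hy).2.2.2.2, mul_zero, zero_mul]
    · obtain ⟨k1, k2⟩ := hK y (hy.trans_lt (by nlinarith))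
      have d0 : 0 ≤ dens (Gs s) y := by
        rw [Gs, h1.dens_blk]
        positivity
      have p1 : 0 ≤ D1 s y := sqrt_nonneg _
      have p2 : 0 ≤ D1 φ y := sqrt_nonneg _
      have p3 : 0 ≤ D2 φ y := sqrt_nonneg _
      rw [abs_mul, abs_mul, abs_of_nonneg d0]
      refine mul_le_mul (mul_le_mul ((hb y).1.trans (le_abs_self _)) ((hb y).2.1.trans
        (mul_le_mul (le_abs_self _) (a2 y) (a0 y) (abs_nonneg _))) (abs_nonneg _) (abs_nonneg _))
        (((hb y).2.2.2.2 φ (smAt_of hφ.sm y)).trans (mul_le_mul (le_abs_self _)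
          (add_le_add k2 (mul_le_mul (a1 y) k1 p2 (by positivity))) (by positivity) (abs_nonneg _)))
        (abs_nonneg _) (by positivity)
  -- the quadratic term
  obtain ⟨M, hM⟩ := hφ.cs.exists_bound_of_continuous hφ.continuous
  have t2 : |2 * π * ∫ y, sg s y * (φ y - av i 1 φ)| ≤
      |Q| * (2 * C / t ^ 3) ^ 2 * (K * (2 * t ^ 2) * (2 * π)) * (Cn * (8 * (t ^ 2) ^ 3)) := by
    rw [u6_avg h1 i hσ hi (fun θ y => h6.rot s hs.sm hs.rad _ _ (u6u_norm i 0 θ) (u6u_norm i 1 θ) y)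
      (ψ := fun y => φ y - av i 1 φ) (hφ.continuous.sub continuous_const) (M := M + ‖av i 1 φ‖)
      fun y => (norm_sub_le _ _).trans (add_le_add (hM y) le_rfl)]
    refine u6_int h3 hn i hτ hτ' (by positivity) (fun y hy => ?_) fun y hy => ?_
    · rw [(hfl y hy).2.2.2.1, zero_mul]
    · rw [abs_mul]
      exact mul_le_mul ((hb y).2.2.1.trans (mul_le_mul (le_abs_self _)
        (pow_le_pow_left₀ (a0 y) (a2 y) 2) (sq_nonneg _) (abs_nonneg _)))
        (u6_pt h1 h2 h3 i hτ hτ' hφ hK hy) (abs_nonneg _) (by positivity)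
  have hCn : 0 ≤ Cn := by
    have := measureReal_nonneg.trans (hn 1 (1 / 4) one_pos (by norm_num) (by norm_num))
    linarith
  have t3 : |∫ y, sg s y * (φ y - av i 1 φ)| ≤ |Q| * (4 * C ^ 2) * 2 * (Cn * 8) * t ^ 2 * K := by
    rw [abs_mul, abs_of_pos two_pi_pos] at t2
    refine le_of_mul_le_mul_left (t2.trans_eq ?_) two_pi_pos
    field_simp
    ring
  have t4 : |∫ y, dens (Gs s) y * scal (Gs s) y * lap (Gs s) φ y| ≤
      |Q| ^ 3 * (2 * C * (1 + C)) * (Cn * 8) * t ^ 2 * K := by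
    refine t1.trans ?_
    have e : |Q| * (|Q| * (2 * C / t ^ 3)) * (|Q| * (K + C / t * K)) * (Cn * (8 * (t ^ 2) ^ 3)) =
        |Q| ^ 3 * (2 * C * (t + C)) * (Cn * 8) * t ^ 2 * K := by
      field_simp
    rw [e]
    gcongr
  have e : ∫ y, sg s y * (φ y - av i 1 φ) = (∫ y, sg s y * φ y) - (∫ y, sg s y) * av i 1 φ := by
    simp only [mul_sub]
    rw [integral_sub (hi.mul_bdd (c := M) hφ.continuous.aestronglyMeasurable
      (Eventually.of_forall hM)) (hi.mul_const _), integral_mul_const]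
  rw [h5.weak s φ hs.sm hφ.sm, m1]
  rw [e] at t3
  rw [abs_le] at t3 t4 ⊢
  constructor <;> nlinarith [t3.1, t3.2, t4.1, t4.2]

end Pool.Agent.MP_417fa2_gt.Q2
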